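import Pool.Agent.H322R2.ATr
import Pool.Agent.H322R2.Monic

/-!
The anchor argument for the fields `ℚ(P(a)^(1/d))`.
-/

open Polynomial Finset NumberField

namespace Pool.Agent.H322R2

lemma two_le_kapA (d e : ℕ) : 2 ≤ kapA d e := by
  unfold kapA
  have h1 : 1 ≤ 36 ^ d := Nat.one_le_pow _ _ (by norm_num)
  have h2 : 1 ≤ (d + 1) ^ 3 := Nat.one_le_pow _ _ (by omega)
  calc 2 ≤ 10 ^ 6 * 1 * 1 * 1 := by norm_num
    _ ≤ _ := Nat.mul_le_mul (Nat.mul_le_mul (Nat.mul_le_mul_left _ h1) h2) (by omega)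

theorem two_intA {d : ℕ} (hd : 3 ≤ d) {A : Type} [CommRing A] {N : RingSeminorm A} {σ : A →+* ℝ}
    (h1 : N 1 ≤ 1) (hσ : ∀ x, |σ x| ≤ N x) {ι : Type} [Fintype ι] (bas : ι → A →+ ℤ)
    (hb : ∀ x, (∀ i, bas i x = 0) → x = 0)
    (C0 : ℝ) (hC0 : 1 ≤ C0) (hcoord : ∀ x i, |(bas i x : ℝ)| ≤ C0 * N x)
    (hk : 0 < Fintype.card ι) (hkd : Fintype.card ι ≤ d) {e : ℕ} (hde : d ≤ e)
    {B1 W : ℝ} {F1 G2 : ℤ[X][X]} {H2 : ℝ} {α2 : A} {a1 b1 a2 b2 : ℤ}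
    (P1 : AP N σ e B1 W F1 a1 b1) (hm1 : F1.Monic) (hFd1 : F1.natDegree = d) (hF1 : Prime F1)
    (hFx1 : ∀ j, (F1.coeff j).natDegree ≤ d)
    (P2 : Pt N σ d G2 H2 α2 a2 b2) (ha1 : B1 ^ (kapA d e) ≤ |(a1 : ℝ)|) :
    |(a2 : ℝ)| ≤ (|(a1 : ℝ)| * C1A (Fintype.card ι) C0 W * bB d H2) ^ (kapA d e) := by
  obtain ⟨κ, hκ1, hκ2, hκ⟩ := numericE d e hde
  by_contra hcon
  push_neg at hcon
  obtain ⟨C1, hC1⟩ : ∃ C1, C1 = C1A (Fintype.card ι) C0 W := ⟨_, rfl⟩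
  rw [← hC1] at hcon
  have hB1 := P1.hB
  have hW := P1.hW
  have hH2 := P2.hH
  have hC11 : 1 ≤ C1 := by
    rw [hC1]; unfold C1A
    exact one_le_mul_of_one_le_of_one_le hC0 (one_le_mul_of_one_le_of_one_le (one_le_pow₀ hW)
      (one_le_pow₀ (by linarith)))
  have hb1 : 1 ≤ B1 := by linarith
  have hb2 : 1 ≤ bB d H2 := one_le_pow₀ (by linarith)
  have hkap : 2 ≤ kapA d e := two_le_kapA d e
  have ha1ge : 1 ≤ |(a1 : ℝ)| := (one_le_pow₀ hb1).trans ha1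
  have ha1C : 1 ≤ |(a1 : ℝ)| * C1 := one_le_mul_of_one_le_of_one_le ha1ge hC11
  have ha2sq : bB d H2 ^ 2 ≤ |(a2 : ℝ)| := by
    refine le_trans ?_ hcon.le
    calc bB d H2 ^ 2 ≤ bB d H2 ^ (kapA d e) := pow_le_pow_right₀ hb2 hkap
      _ ≤ _ := pow_le_pow_left₀ (by linarith) (le_mul_of_one_le_left (by linarith) ha1C) _
  obtain ⟨Q2⟩ := P2.bp h1 hσ (by omega) ha2sq
  have hl1 : κ * Real.log B1 ≤ Real.log |(a1 : ℝ)| := by
    have h3 := Real.log_le_log (by positivity) ha1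
    rw [Real.log_pow] at h3
    have h4 : κ * Real.log B1 ≤ kapA d e * Real.log B1 :=
      mul_le_mul_of_nonneg_right hκ2 (Real.log_nonneg hb1)
    linarith
  have hl2 : κ * (Real.log |(a1 : ℝ)| + Real.log (bB d H2) + Real.log C1) ≤ Real.log |(a2 : ℝ)| := by
    have hpos : 0 < |(a1 : ℝ)| * C1 * bB d H2 := by positivity
    have h3 := Real.log_le_log (by positivity) hcon.le
    rw [Real.log_pow, Real.log_mul (by positivity) (by positivity),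
      Real.log_mul (by positivity) (by positivity)] at h3
    have h4 : 0 ≤ Real.log |(a1 : ℝ)| + Real.log (bB d H2) + Real.log C1 := by
      have := Real.log_nonneg ha1ge
      have := Real.log_nonneg hb2
      have := Real.log_nonneg hC11
      linarith
    have h5 := mul_le_mul_of_nonneg_right hκ2 h4
    linarith
  obtain ⟨t, ht4, hY1, hY2, hsmall, hcon2⟩ := hκ (Fintype.card ι) C1 B1 (bB d H2) |(a1 : ℝ)|
    |(a2 : ℝ)| hk hkd hC11 P1.hB Q2.hB P1.a_pos Q2.a_pos hl1 hl2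
  rw [hC1] at hsmall
  obtain ⟨o, ho1, ho2⟩ := core_ineqA h1 hσ bas hb C0 hC0 hcoord P1 Q2 hd hm1 hFd1 hF1 hFx1
    P2.monic P2.deg P2.prime (Fintype.card ι) hk hkd rfl t ht4 hY1 hY2 hsmall
  rw [← hC1] at ho1 ho2
  exact hcon2 o ho1 ho2

/-- value of a monic polynomial at a large integer -/
lemma eval_monic_bd {d : ℕ} {P : ℤ[X]} (hm : P.Monic) (hPd : P.natDegree = d) {h : ℝ}
    (hP : pn zn P ≤ h) {a : ℤ} (ha : 1 ≤ a) :
    |((P.eval a : ℤ) : ℝ) - (a : ℝ) ^ d| * a ≤ h * (a : ℝ) ^ d := by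
  have ha1 : (1 : ℝ) ≤ a := by exact_mod_cast ha
  have e1 : ((P.eval a : ℤ) : ℝ) - (a : ℝ) ^ d = ∑ i ∈ range d, (P.coeff i : ℝ) * (a : ℝ) ^ i := by
    rw [eval_eq_sum_range, hPd, Finset.sum_range_succ]
    have : P.coeff d = 1 := by rw [← hPd]; exact hm
    rw [this]
    push_cast
    ring
  rw [e1]
  have e2 : |∑ i ∈ range d, (P.coeff i : ℝ) * (a : ℝ) ^ i| * a
      ≤ ∑ i ∈ range d, |(P.coeff i : ℝ)| * (a : ℝ) ^ d := by
    rw [← abs_of_pos (by linarith : (0 : ℝ) < a), ← abs_mul, Finset.sum_mul]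
    refine (Finset.abs_sum_le_sum_abs _ _).trans ?_
    apply Finset.sum_le_sum
    intro i hi
    rw [Finset.mem_range] at hi
    rw [abs_mul, abs_mul, abs_pow, abs_abs, mul_assoc, ← pow_succ]
    apply mul_le_mul_of_nonneg_left _ (abs_nonneg _)
    exact pow_le_pow_right₀ (by rw [abs_of_pos (by linarith)]; exact ha1) (by omega)
  refine e2.trans ?_
  rw [← Finset.sum_mul]
  apply mul_le_mul_of_nonneg_right _ (by positivity)
  refine le_trans ?_ hP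
  rw [pn_eq_range zn P (n := d + 1) (by omega), Finset.sum_range_succ]
  have : 0 ≤ zn (P.coeff d) := apply_nonneg _ _
  have e3 : ∑ i ∈ range d, |(P.coeff i : ℝ)| = ∑ i ∈ range d, zn (P.coeff i) := by
    apply Finset.sum_congr rfl
    intro i _
    rw [zn_apply]
  linarith

theorem anchor_field {d : ℕ} (hd : 3 ≤ d) {P g : ℤ[X]} (hm : P.Monic) (hPd : P.natDegree = d)
    (hg : Irreducible g) (hgP : g ∣ P) (hg2 : ¬ g ^ 2 ∣ P) {h : ℝ} (hh : 1 ≤ h)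
    (hP : pn zn P ≤ h) (a m : ℤ) (ha0 : 0 < a) (ha : cA d h ^ kapA d (d ^ 2) ≤ (a : ℝ))
    (hPa : P.eval a = m) (L : Type) [Field L] [NumberField L] (τ : L →+* ℝ)
    (hL : Module.finrank ℚ L = d) (β0 : L) (hβ : β0 ^ d = (m : L) ^ (d - 1)) (hτ : 0 < τ β0)
    (hgen : Algebra.adjoin ℚ {β0} = ⊤)
    (G : ℤ[X][X]) (H : ℝ) (α : 𝓞 L) (x y : ℤ) (Q : Pt (hs L) (rE L τ) d G H α x y) :
    |(x : ℝ)| ≤ ((a : ℝ) ^ (4 * d ^ 3) * bB d H) ^ (kapA d (d ^ 2)) := by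
  have hd0 : 0 < d := by omega
  obtain ⟨hT1, hT2⟩ := tA_facts hd0 hh
  have hdR : (3 : ℝ) ≤ d := by exact_mod_cast hd
  obtain ⟨B, hB⟩ : ∃ B, B = cA d h := ⟨_, rfl⟩
  rw [← hB] at ha
  have hBT : B = 4 * tA d h ^ 2 := hB
  have hBd : (d : ℝ) ≤ B := by rw [hBT]; nlinarith
  have hB4 : 4 ≤ B := by rw [hBT]; nlinarith
  have hBh : 4 * h ≤ B := by
    have h3 : h ≤ tA d h := by
      unfold tA
      have e1 : (1 : ℝ) ≤ (d : ℝ) ^ (3 * (d + 1)) := one_le_pow₀ (by linarith)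
      have e2 : (1 : ℝ) ≤ 2 ^ d := one_le_pow₀ (by norm_num)
      calc h ≤ (1 + h) * 2 ^ d := by nlinarith
        _ ≤ _ := le_mul_of_one_le_left (by positivity) e1
    rw [hBT]
    nlinarith
  have hkap := two_le_kapA d (d ^ 2)
  have haB2 : B ^ 2 ≤ (a : ℝ) := (pow_le_pow_right₀ (by linarith) hkap).trans ha
  have haB : 4 * B ≤ (a : ℝ) := by nlinarith
  obtain ⟨A, hA⟩ : ∃ A : ℝ, A = (a : ℝ) := ⟨_, rfl⟩
  rw [← hA] at ha haB2 haB
  have hA1 : 1 ≤ A := by linarith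
  have hA4 : 16 ≤ A := by linarith
  have hA0 : 0 < A := by linarith
  have hAh : 2 * h ≤ A := by linarith
  have hdA : (d : ℝ) ≤ A := by linarith
  -- size of m
  have hev := eval_monic_bd hm hPd hP (a := a) (by omega)
  rw [hPa, ← hA] at hev
  have hmabs : |(m : ℝ) - A ^ d| ≤ A ^ d / 2 := by
    rw [le_div_iff₀ (by norm_num)]
    have h3 : |(m : ℝ) - A ^ d| * 2 * h ≤ A ^ d * h := by
      calc |(m : ℝ) - A ^ d| * 2 * h = |(m : ℝ) - A ^ d| * (2 * h) := by ring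
        _ ≤ |(m : ℝ) - A ^ d| * A := mul_le_mul_of_nonneg_left hAh (abs_nonneg _)
        _ ≤ _ := by rw [mul_comm (A ^ d)]; exact hev
    exact le_of_mul_le_mul_right h3 (by linarith)
  have hAd : 0 < A ^ d := by positivity
  have hmpos : (0 : ℝ) < m := by
    have := (abs_le.1 hmabs).1
    linarith
  have hm0 : 0 < m := by exact_mod_cast hmpos
  have hmle : (m : ℝ) ≤ A ^ (d + 1) := by
    have h3 := (abs_le.1 hmabs).2
    have h4 : A ^ (d + 1) = A ^ d * A := pow_succ _ _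
    nlinarith
  have hmpow : (m : ℝ) ^ (d - 1) ≤ A ^ (d ^ 2 - 1) := by
    calc (m : ℝ) ^ (d - 1) ≤ (A ^ (d + 1)) ^ (d - 1) := pow_le_pow_left₀ hmpos.le hmle _
      _ = A ^ (d ^ 2 - 1) := by
        rw [← pow_mul]
        congr 1
        obtain ⟨e, rfl⟩ : ∃ e, d = e + 1 := ⟨d - 1, by omega⟩
        simp only [Nat.add_sub_cancel]
        have : (e + 1) ^ 2 = (e + 1 + 1) * e + 1 := by ring
        omega
  have hAA : A ^ (d ^ 2) = A ^ (d ^ 2 - 1) * A := by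
    rw [← pow_succ]; congr 1
    have : 0 < d ^ 2 := by positivity
    omega
  have hA2 : 1 ≤ A ^ (d ^ 2 - 1) := one_le_pow₀ hA1
  have hAd2 : 1 ≤ A ^ (d ^ 2) := one_le_pow₀ hA1
  have hHβ : 1 + (m : ℝ) ^ (d - 1) ≤ A ^ (d ^ 2) := by rw [hAA]; nlinarith
  have hA3 : A ^ (d ^ 2 + 1) = A ^ (d ^ 2) * A := pow_succ _ _
  -- β as an algebraic integer
  obtain ⟨β, hβ1, hβ2, hβ3⟩ := exists_alpha L τ (X ^ d - C (m ^ (d - 1))) (monic_X_pow_sub_C _ (by omega))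
    (A ^ (d ^ 2)) hAd2 (by
      refine le_trans ?_ hHβ
      rw [sub_eq_add_neg]
      refine (map_add_le_add _ _ _).trans ?_
      rw [map_neg_eq_map, pn_C, zn_apply]
      apply add_le_add
      · refine (seminorm_pow_le _ pnz_one _ _).trans (pow_le_one₀ (apply_nonneg _ _) ?_)
        rw [pn_X]
        have := zn_apply 1
        rw [this]; norm_num
      · push_cast
        rw [abs_of_nonneg (by positivity)]) β0 (by
      rw [map_sub, map_pow, evf_X, evf_C, hβ]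
      push_cast
      ring)
  have hβL : (β : L) = β0 := by
    apply τ.injective
    exact hβ1
  have hβd : β ^ d = ((m ^ (d - 1) : ℤ) : 𝓞 L) := by
    rw [map_sub, map_pow, evf_X, evf_C, sub_eq_zero] at hβ2
    exact hβ2
  have hσβ : 0 < rE L τ β := by rw [hβ1]; exact hτ
  -- the anchor point
  obtain ⟨P1⟩ := mkAP (N := hs L) (σ := rE L τ) (hs_one L) (abs_rE_le L τ) hd0 hm hPd hh hP β m a
    ha0 hPa hm0 (by rw [hβd]; push_cast; rfl) hσβ (W := A ^ (d ^ 2 + 1)) (B := B)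
    (by rw [hA3]; nlinarith) (by
      rw [hA3, hAA]
      have e1 : (m : ℝ) ^ (d - 1) * h ≤ A ^ (d ^ 2 - 1) * A :=
        mul_le_mul hmpow (by linarith) (by linarith) (by positivity)
      nlinarith) hB.ge (by rw [← hA]; exact haB2) (by rw [← hA]; exact hmle)
    (by rw [← hA]; exact hdA)
  have hC0 : 1 ≤ (d : ℝ) * (A ^ (d ^ 2)) ^ (d - 1) :=
    one_le_mul_of_one_le_of_one_le (by linarith) (one_le_pow₀ hAd2)
  have hfin := two_intA hd (hs_one L) (abs_rE_le L τ) (fun i : Fin d => trf L β i)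
    (trf_inj L hd0 β hβd (by rw [hβL]; exact hgen)) ((d : ℝ) * (A ^ (d ^ 2)) ^ (d - 1)) hC0
    (fun z i => abs_trf_le L hL β hAd2 hβ3 z i) (by rw [Fintype.card_fin]; omega)
    (by rw [Fintype.card_fin]) (e := d ^ 2) (by nlinarith) P1 (FA_monic hd0) (FA_natDegree hd0)
    (FA_prime hd0 hm0.ne' hm hg hgP hg2) (FA_coeff_natDegree hd0 hPd.le) Q (by
      rw [← hA, abs_of_pos hA0]; exact ha)
  rw [Fintype.card_fin, ← hA, abs_of_pos hA0] at hfin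
  rw [← hA]
  refine hfin.trans ?_
  have hbB : 0 ≤ bB d H := by
    have := Q.hH
    exact pow_nonneg (by linarith) _
  apply pow_le_pow_left₀ (by
    have : 0 ≤ C1A d (↑d * (A ^ d ^ 2) ^ (d - 1)) (A ^ (d ^ 2 + 1)) := by
      unfold C1A; positivity
    positivity)
  apply mul_le_mul_of_nonneg_right _ hbB
  unfold C1A
  have e1 : (d : ℝ) * (A ^ (d ^ 2)) ^ (d - 1) ≤ A ^ (1 + d ^ 3) := by
    rw [pow_add, pow_one]
    apply mul_le_mul hdA _ (by positivity) hA0.le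
    rw [← pow_mul]
    apply pow_le_pow_right₀ hA1
    calc d ^ 2 * (d - 1) ≤ d ^ 2 * d := Nat.mul_le_mul_left _ (by omega)
      _ = d ^ 3 := by ring
  have e2 : (A ^ (d ^ 2 + 1)) ^ d = A ^ (d ^ 3 + d) := by
    rw [← pow_mul]; congr 1; ring
  have e3 : (1 + A ^ (d ^ 2 + 1)) ^ d ≤ A ^ (d ^ 3 + 2 * d) := by
    have h3 : 1 + A ^ (d ^ 2 + 1) ≤ A ^ (d ^ 2 + 2) := by
      have h4 : A ^ (d ^ 2 + 2) = A ^ (d ^ 2 + 1) * A := pow_succ _ _
      have h5 : 1 ≤ A ^ (d ^ 2 + 1) := one_le_pow₀ hA1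
      nlinarith
    calc (1 + A ^ (d ^ 2 + 1)) ^ d ≤ (A ^ (d ^ 2 + 2)) ^ d := pow_le_pow_left₀ (by positivity) h3 _
      _ = _ := by rw [← pow_mul]; congr 1; ring
  calc A * (↑d * (A ^ d ^ 2) ^ (d - 1) * ((A ^ (d ^ 2 + 1)) ^ d * (1 + A ^ (d ^ 2 + 1)) ^ d))
      ≤ A * (A ^ (1 + d ^ 3) * (A ^ (d ^ 3 + d) * A ^ (d ^ 3 + 2 * d))) := by
        rw [e2]
        gcongr
    _ = A ^ (1 + (1 + d ^ 3 + (d ^ 3 + d + (d ^ 3 + 2 * d)))) := by ring
    _ ≤ A ^ (4 * d ^ 3) := by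
        apply pow_le_pow_right₀ hA1
        have h3 : 3 * d + 2 ≤ d ^ 3 := by
          have : d ^ 3 = d * d * d := by ring
          nlinarith
        linarith

end Pool.Agent.H322R2
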