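import Pool.Agent.H322R2.Numer

/-!
The two-point argument with an anchor: the first point lies on a branch whose radius of
convergence is large compared with the size of its coefficients.
-/

open Finset Matrix

namespace Pool.Agent.H322R2

section Siegel

attribute [local instance] Matrix.seminormedAddCommGroup

theorem siegel_fun {A : Type*} [CommRing A] {ι : Type*} [Fintype ι] (b : ι → A →+ ℤ)
    (hb : ∀ x, (∀ i, b i x = 0) → x = 0)
    (N : RingSeminorm A) (C0 : ℝ) (hC0 : 1 ≤ C0)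
    (hcoord : ∀ x i, |(b i x : ℝ)| ≤ C0 * N x)
    {γ β : Type*} [Fintype γ] [Fintype β] (c : γ → β → A) (M : ℝ) (hM : 1 ≤ M)
    (hc : ∀ g x, N (c g x) ≤ M)
    (hcard : 14 * (Fintype.card γ * Fintype.card ι) ≤ 13 * Fintype.card β)
    (hpos : 0 < Fintype.card γ * Fintype.card ι) :
    ∃ t : β → ℤ, t ≠ 0 ∧ (∀ g, ∑ x, (t x) • c g x = 0) ∧
      ∀ x, |(t x : ℝ)| ≤ (Fintype.card β * (C0 * M)) ^ 13 := by
  classical
  set T : Matrix (γ × ι) β ℤ := Matrix.of fun p x => b p.2 (c p.1 x) with hT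
  have hcardα : Fintype.card (γ × ι) = Fintype.card γ * Fintype.card ι := Fintype.card_prod _ _
  have hlt : Fintype.card (γ × ι) < Fintype.card β := by
    rw [hcardα]; omega
  obtain ⟨t, ht0, ht, hnorm⟩ := Int.Matrix.exists_ne_zero_int_vec_norm_le T hlt
    (by rw [hcardα]; exact hpos)
  refine ⟨t, ht0, ?_, ?_⟩
  · intro g
    apply hb
    intro i
    rw [map_sum]
    have h1 := congrFun ht (g, i)
    simp only [Matrix.mulVec, dotProduct, hT, Matrix.of_apply, Pi.zero_apply] at h1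
    rw [← h1]
    apply Finset.sum_congr rfl
    intro x _
    rw [map_zsmul, smul_eq_mul, mul_comm]
  · intro x
    have hTn : ‖T‖ ≤ C0 * M := by
      rw [Matrix.norm_le_iff (by positivity)]
      intro p x
      rw [hT, Matrix.of_apply, Int.norm_eq_abs]
      refine (hcoord _ _).trans ?_
      exact mul_le_mul_of_nonneg_left (hc _ _) (by linarith)
    have hCM : 1 ≤ C0 * M := by nlinarith
    have hmax : max 1 ‖T‖ ≤ C0 * M := max_le hCM hTn
    have h2 : |(t x : ℝ)| ≤ ‖t‖ := by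
      have := norm_le_pi_norm t x
      rw [Int.norm_eq_abs] at this
      exact_mod_cast this
    refine h2.trans (hnorm.trans ?_)
    have hn1 : (1 : ℝ) ≤ Fintype.card β := by
      have : 0 < Fintype.card β := lt_of_le_of_lt (Nat.zero_le _) hlt
      exact_mod_cast this
    have hb1 : (1 : ℝ) ≤ Fintype.card β * max 1 ‖T‖ := by
      have : (1 : ℝ) ≤ max 1 ‖T‖ := le_max_left _ _
      nlinarith
    have hexp : ((Fintype.card (γ × ι) : ℝ) / (Fintype.card β - Fintype.card (γ × ι))) ≤ 13 := by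
      have h3 : (0 : ℝ) < Fintype.card β - Fintype.card (γ × ι) := by
        have : (Fintype.card (γ × ι) : ℝ) < Fintype.card β := by exact_mod_cast hlt
        linarith
      rw [div_le_iff₀ h3]
      have h4 : (14 : ℝ) * (Fintype.card (γ × ι)) ≤ 13 * Fintype.card β := by
        rw [hcardα]; exact_mod_cast hcard
      linarith
    calc ((Fintype.card β : ℝ) * max 1 ‖T‖) ^ ((Fintype.card (γ × ι) : ℝ) /
            (Fintype.card β - Fintype.card (γ × ι)))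
        ≤ ((Fintype.card β : ℝ) * max 1 ‖T‖) ^ (13 : ℝ) :=
          Real.rpow_le_rpow_of_exponent_le hb1 hexp
      _ = ((Fintype.card β : ℝ) * max 1 ‖T‖) ^ (13 : ℕ) := by
          rw [← Real.rpow_natCast]; norm_num
      _ ≤ (Fintype.card β * (C0 * M)) ^ 13 := by
          apply pow_le_pow_left₀ (by linarith)
          exact mul_le_mul_of_nonneg_left hmax (by linarith)

end Siegel

open Polynomial

/-- Data describing an integer point `(a,b)` on `F = 0` that lies on a branch at infinity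
defined over `A`; the radius of convergence is controlled by `B` and the coefficients by `W`. -/
structure AP {A : Type*} [CommRing A] (N : RingSeminorm A) (σ : A →+* ℝ) (e : ℕ) (B W : ℝ)
    (F : ℤ[X][X]) (a b : ℤ) where
  ζ : PowerSeries A
  ω : PowerSeries A
  ρ : ℝ
  θ : PowerSeries ℝ
  hB : 2 ≤ B
  hW : 1 ≤ W
  ha : B ^ 2 ≤ |(a : ℝ)|
  hρB : 1 / B ≤ ρ
  hζ : Bd N ρ ζ 1
  hω : Bd N ρ ω W
  hθ : Bd rn (|(a : ℝ)| / 2) θ (B / |(a : ℝ)|)
  hx : (PowerSeries.C (a : ℝ) + PowerSeries.X) * sb θ (PowerSeries.map σ ζ) = 1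
  hy : PowerSeries.constantCoeff
    ((PowerSeries.C (a : ℝ) + PowerSeries.X) * sb θ (PowerSeries.map σ ω)) = (b : ℝ)
  hF : ev (PowerSeries.C (a : ℝ) + PowerSeries.X)
    ((PowerSeries.C (a : ℝ) + PowerSeries.X) * sb θ (PowerSeries.map σ ω)) F = 0
  hD : ev a b (derivative F) ≠ 0
  hDle : |((ev a b (derivative F) : ℤ) : ℝ)| ≤ |(a : ℝ)| ^ e
  hFn : pn (pn zn) F ≤ W

namespace AP

variable {A : Type*} [CommRing A] {N : RingSeminorm A} {σ : A →+* ℝ} {e : ℕ} {B W : ℝ}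
    {F : ℤ[X][X]} {a b : ℤ} (P : AP N σ e B W F a b)

include P

lemma B_pos : 0 < B := by have := P.hB; linarith

lemma a_ge : 4 ≤ |(a : ℝ)| := by
  have h1 := P.hB
  have h2 := P.ha
  nlinarith

lemma a_pos : 0 < |(a : ℝ)| := by have := P.a_ge; linarith

lemma a_ne : a ≠ 0 := by
  rintro rfl
  have := P.a_pos
  simp at this

lemma ρ_pos : 0 < P.ρ := lt_of_lt_of_le (by have := P.B_pos; positivity) P.hρB

lemma rad_le : B / |(a : ℝ)| ≤ P.ρ := by
  refine le_trans ?_ P.hρB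
  rw [div_le_div_iff₀ P.a_pos P.B_pos]
  have := P.ha
  nlinarith

lemma r_pos : 0 < |(a : ℝ)| / 2 := by have := P.a_pos; linarith

lemma q_nonneg : 0 ≤ B / |(a : ℝ)| := by
  have := P.B_pos; positivity

lemma hev : ev a b F = 0 := by
  have h := congrArg PowerSeries.constantCoeff P.hF
  rw [map_ev, map_zero, P.hy] at h
  have h2 : PowerSeries.constantCoeff (PowerSeries.C (a : ℝ) + PowerSeries.X : PowerSeries ℝ)
      = (a : ℝ) := by simp
  rw [h2] at h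
  have h3 := map_ev (Int.castRingHom ℝ) a b F
  simp only [eq_intCast] at h3
  rw [← h3] at h
  exact_mod_cast h

end AP

section Main

variable {A : Type*} [CommRing A] {N : RingSeminorm A} {σ : A →+* ℝ} {d e : ℕ} {B1 W B2 : ℝ}
    {F1 F2 : ℤ[X][X]} {a1 b1 a2 b2 : ℤ}

/-- monomial functions on the first branch -/
noncomputable def monoA (P1 : AP N σ e B1 W F1 a1 b1) (m p q : ℕ) : PowerSeries A :=
  P1.ζ ^ (m - p - q) * P1.ω ^ q

lemma bd_monoA (h1 : N 1 ≤ 1) (P1 : AP N σ e B1 W F1 a1 b1) (m p q : ℕ) :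
    Bd N P1.ρ (monoA P1 m p q) (W ^ q) := by
  have h := (P1.hζ.pow P1.ρ_pos.le h1 (m - p - q)).mul P1.ρ_pos.le (P1.hω.pow P1.ρ_pos.le h1 q)
  simpa [monoA] using h

lemma exists_auxA (h1 : N 1 ≤ 1) {ι : Type*} [Fintype ι] (bas : ι → A →+ ℤ)
    (hb : ∀ x, (∀ i, bas i x = 0) → x = 0)
    (C0 : ℝ) (hC0 : 1 ≤ C0) (hcoord : ∀ x i, |(bas i x : ℝ)| ≤ C0 * N x)
    (P1 : AP N σ e B1 W F1 a1 b1) (P2 : BP N σ d B2 F2 a2 b2) (k : ℕ) (hk : 0 < k)
    (hkι : Fintype.card ι = k) (t : ℕ) (ht : 4 * k ≤ t) :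
    ∃ T : Fin 6 → Fin k × Fin (20 * t - k) → ℤ, T ≠ 0 ∧
      (∀ j < 5, ∀ i < nj t j, ∑ μ, ∑ s, (T μ s) • (ecoef P2 j μ *
        PowerSeries.coeff i (monoA P1 (20 * t) s.2 s.1)) = 0) ∧
      ∀ μ s, |(T μ s : ℝ)| ≤
        ((6 * (k * (20 * t - k) : ℕ) : ℝ) * (C0 * (B2 ^ 6 * (W ^ k * B1 ^ (42 * t))))) ^ 13 := by
  have hB1 := P1.hB
  have hW := P1.hW
  have hB2 := P2.hB
  have hB1' : 1 ≤ B1 := by linarith
  have hB2' : 1 ≤ B2 := by linarith
  have hcardγ : Fintype.card (Σ j : Fin 5, Fin (nj t j)) = 110 * t := by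
    have e0 : ∀ j : Fin 5, Fintype.card (Fin (nj t j)) = nj t j := fun j => Fintype.card_fin _
    rw [Fintype.card_sigma, Finset.sum_congr rfl (fun j _ => e0 j), Fin.sum_univ_five]
    simp [nj]
    ring
  obtain ⟨T, hT0, hT, hTn⟩ := siegel_fun bas hb N C0 hC0 hcoord
    (γ := Σ j : Fin 5, Fin (nj t j)) (β := Fin 6 × (Fin k × Fin (20 * t - k)))
    (fun g x => ecoef P2 g.1 x.1 * PowerSeries.coeff (g.2 : ℕ) (monoA P1 (20 * t) x.2.2 x.2.1))
    (B2 ^ 6 * (W ^ k * B1 ^ (42 * t)))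
    (by
      have e1 : 1 ≤ B2 ^ 6 := one_le_pow₀ hB2'
      have e2 : 1 ≤ W ^ k * B1 ^ (42 * t) :=
        one_le_mul_of_one_le_of_one_le (one_le_pow₀ hW) (one_le_pow₀ hB1')
      nlinarith)
    (by
      intro g x
      refine (map_mul_le_mul N _ _).trans ?_
      have e1 : N (ecoef P2 g.1 x.1) ≤ B2 ^ 6 := by
        refine (ecoef_le h1 P2 _ _).trans ?_
        rw [← pow_add]
        exact pow_le_pow_right₀ hB2' (by have := g.1.2; omega)
      have e2 : N (PowerSeries.coeff (g.2 : ℕ) (monoA P1 (20 * t) x.2.2 x.2.1))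
          ≤ W ^ k * B1 ^ (42 * t) := by
        refine (coeffN_le P1.B_pos P1.hρB (bd_monoA h1 P1 _ _ _) _).trans ?_
        have e3 := x.2.1.2
        have e4 := g.2.2
        have e5 : nj t g.1 ≤ 42 * t := Nat.mul_le_mul_right _ (by omega)
        apply mul_le_mul
        · exact pow_le_pow_right₀ hW (by omega)
        · exact pow_le_pow_right₀ hB1' (by omega)
        · positivity
        · positivity
      exact mul_le_mul e1 e2 (apply_nonneg N _) (by positivity))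
    (by
      rw [hcardγ, hkι]
      simp only [Fintype.card_fin, Fintype.card_prod]
      obtain ⟨e, he⟩ : ∃ e, 20 * t = e + k := ⟨20 * t - k, by omega⟩
      have e2 : 20 * t - k = e := by omega
      rw [e2]
      have e3 : 14 * (110 * t) ≤ 78 * e := by omega
      calc 14 * (110 * t * k) = (14 * (110 * t)) * k := by ring
        _ ≤ (78 * e) * k := Nat.mul_le_mul_right _ e3
        _ = 13 * (6 * (k * e)) := by ring)
    (by
      rw [hcardγ, hkι]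
      apply Nat.mul_pos _ hk
      omega)
  refine ⟨fun μ s => T (μ, s), ?_, ?_, ?_⟩
  · intro h0
    apply hT0
    funext x
    have := congrFun (congrFun h0 x.1) x.2
    simpa using this
  · intro j hj i hi
    have := hT ⟨⟨j, hj⟩, ⟨i, hi⟩⟩
    rw [Fintype.sum_prod_type] at this
    exact this
  · intro μ s
    have := hTn (μ, s)
    simp only [Fintype.card_prod, Fintype.card_fin] at this
    refine this.trans (le_of_eq ?_)
    push_cast
    ring

/-- the auxiliary function on the first branch -/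
noncomputable def UstA (P1 : AP N σ e B1 W F1 a1 b1) (m : ℕ) {k n : ℕ}
    (T : Fin k × Fin n → ℤ) : PowerSeries A :=
  ∑ s, PowerSeries.C ((T s : ℤ) : A) * monoA P1 m s.2 s.1

lemma bd_UstA (h1 : N 1 ≤ 1) (P1 : AP N σ e B1 W F1 a1 b1) (m : ℕ) {k n : ℕ}
    (T : Fin k × Fin n → ℤ) (H : ℝ) (hH : 0 ≤ H) (hT : ∀ s, |(T s : ℝ)| ≤ H) :
    Bd N P1.ρ (UstA P1 m T) (k * n * (H * W ^ k)) := by
  have hB := P1.hB
  have hW := P1.hW
  have h2 : ∀ s ∈ (univ : Finset (Fin k × Fin n)),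
      Bd N P1.ρ (PowerSeries.C ((T s : ℤ) : A) * monoA P1 m s.2 s.1) (H * W ^ k) := by
    intro s _
    refine ((Bd.C P1.ρ_pos.le _).mul P1.ρ_pos.le (bd_monoA h1 P1 m s.2 s.1)).mono ?_
    apply mul_le_mul ((N_int_le N h1 _).trans (hT s)) _ (pow_nonneg (by linarith) _) hH
    exact pow_le_pow_right₀ (by linarith) s.1.2.le
  refine (Bd.sum univ P1.ρ_pos.le _ _ h2).mono ?_
  simp [mul_assoc]

lemma sb_UstA (h1 : N 1 ≤ 1) (hσ : ∀ x, |σ x| ≤ N x) (P1 : AP N σ e B1 W F1 a1 b1) (m : ℕ)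
    {k n : ℕ} (T : Fin k × Fin n → ℤ) (hm : k + n ≤ m) :
    ev (PowerSeries.C (a1 : ℝ) + PowerSeries.X)
      ((PowerSeries.C (a1 : ℝ) + PowerSeries.X) * sb P1.θ (PowerSeries.map σ P1.ω)) (boxPoly T)
      = (PowerSeries.C (a1 : ℝ) + PowerSeries.X) ^ m * sb P1.θ (PowerSeries.map σ (UstA P1 m T)) := by
  set x : PowerSeries ℝ := PowerSeries.C (a1 : ℝ) + PowerSeries.X with hx
  set w := sb P1.θ (PowerSeries.map σ P1.ω) with hw
  set z := sb P1.θ (PowerSeries.map σ P1.ζ) with hz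
  have hxz : x * z = 1 := P1.hx
  have hr := P1.r_pos
  have hq := P1.q_nonneg
  have hθ := P1.hθ
  have hζ := (P1.hζ.of_le hq P1.rad_le).map σ hσ hq
  have hω := (P1.hω.of_le hq P1.rad_le).map σ hσ hq
  have hmono : ∀ p q, sb P1.θ (PowerSeries.map σ (monoA P1 m p q)) = z ^ (m - p - q) * w ^ q := by
    intro p q
    rw [monoA, map_mul, map_pow, map_pow, sb_mul hr hθ (hζ.pow hq rn_one _) (hω.pow hq rn_one _),
      sb_pow hr hq hθ hζ, sb_pow hr hq hθ hω]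
  have hbm : ∀ p q, Bd rn (B1 / |(a1 : ℝ)|) (PowerSeries.map σ (monoA P1 m p q)) (W ^ q) :=
    fun p q => ((bd_monoA h1 P1 m p q).of_le hq P1.rad_le).map σ hσ hq
  have hsum : sb P1.θ (PowerSeries.map σ (UstA P1 m T))
      = ∑ s, PowerSeries.C ((T s : ℤ) : ℝ) * (z ^ (m - s.2 - s.1) * w ^ (s.1 : ℕ)) := by
    rw [UstA, map_sum]
    rw [sb_sum hr hq hθ univ _ (fun s => rn ((T s : ℤ) : ℝ) * W ^ (s.1 : ℕ))]
    · apply Finset.sum_congr rfl
      intro s _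
      rw [map_mul, PowerSeries.map_C, map_intCast, sb_mul hr hθ (Bd.C hq _) (hbm _ _), sb_C, hmono]
    · intro s _
      rw [map_mul, PowerSeries.map_C, map_intCast]
      exact (Bd.C hq _).mul hq (hbm _ _)
  rw [hsum, ev_boxPoly, Finset.mul_sum]
  apply Finset.sum_congr rfl
  intro s _
  have h3 : (s.2 : ℕ) + (s.1 : ℕ) ≤ m := by
    have := s.1.2; have := s.2.2; omega
  obtain ⟨e, he⟩ : ∃ e, m = s.2 + s.1 + e := ⟨m - (s.2 + s.1), by omega⟩
  have h4 : m - s.2 - s.1 = e := by omega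
  rw [h4, he]
  have h5 : x ^ ((s.2 : ℕ) + s.1 + e) * z ^ e = x ^ ((s.2 : ℕ) + s.1) := by
    rw [pow_add x _ e, mul_assoc, ← mul_pow, hxz, one_pow, mul_one]
  have h6 : ((T s : ℤ) : PowerSeries ℝ) = PowerSeries.C ((T s : ℤ) : ℝ) := by
    rw [map_intCast]
  rw [h6]
  calc PowerSeries.C ((T s : ℤ) : ℝ) * x ^ (s.2 : ℕ) * (x * w) ^ (s.1 : ℕ)
      = PowerSeries.C ((T s : ℤ) : ℝ) * (x ^ ((s.2 : ℕ) + s.1)) * w ^ (s.1 : ℕ) := by
        rw [mul_pow, pow_add]; ring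
    _ = PowerSeries.C ((T s : ℤ) : ℝ) * (x ^ ((s.2 : ℕ) + s.1 + e) * z ^ e) * w ^ (s.1 : ℕ) := by
        rw [h5]
    _ = _ := by ring

theorem analytic_partA (h1 : N 1 ≤ 1) (hσ : ∀ x, |σ x| ≤ N x)
    (P1 : AP N σ e B1 W F1 a1 b1) (P2 : BP N σ d B2 F2 a2 b2) (k : ℕ)
    (t n : ℕ) (hmn : k + n ≤ 20 * t)
    (T : Fin 6 → Fin k × Fin n → ℤ)
    (hT : ∀ j < 5, ∀ i < nj t j, ∑ μ, ∑ s, (T μ s) • (ecoef P2 j μ *
        PowerSeries.coeff i (monoA P1 (20 * t) s.2 s.1)) = 0)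
    (H : ℝ) (hH : 0 ≤ H) (hTH : ∀ μ s, |(T μ s : ℝ)| ≤ H) (o : ℕ) :
    |PowerSeries.coeff o (ev (PowerSeries.C (a1 : ℝ) + PowerSeries.X)
      ((PowerSeries.C (a1 : ℝ) + PowerSeries.X) * sb P1.θ (PowerSeries.map σ P1.ω))
      (∑ μ, C (C (a2 ^ (mp μ) * b2 ^ (mq μ))) * boxPoly (T μ)))|
    ≤ |(a2 : ℝ)| ^ 2 * ((2 * |(a1 : ℝ)|) ^ (20 * t) *
      ((∑ j ∈ range 5, (B2 / |(a2 : ℝ)|) ^ j * ((B1 ^ 2 / |(a1 : ℝ)|) ^ (nj t j) *
        (6 * B2 ^ 6 * (k * n * (H * W ^ k)))))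
      + 6 * ((B2 ^ 2 / |(a2 : ℝ)|) ^ 5 * B2 ^ 2) * (k * n * (H * W ^ k)))
      / (|(a1 : ℝ)| / 2) ^ o) := by
  set m := 20 * t with hmdef
  have hB1 := P1.hB
  have hW := P1.hW
  have hB2 := P2.hB
  have ha1 := P1.a_pos
  have ha2 := P2.a_pos
  set bU : ℝ := k * n * (H * W ^ k) with hbU
  have hbU0 : 0 ≤ bU := by positivity
  set ρ' := B1 / |(a1 : ℝ)| with hρ'
  set ρ'' := B2 / |(a2 : ℝ)| with hρ''
  have hq1 := P1.q_nonneg
  have hq2 := P2.q_nonneg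
  have hr1 := P1.r_pos
  have hr2 := P2.r_pos
  have hrad1 := P1.rad_le
  have hrad2 := P2.rad_le
  set x : PowerSeries ℝ := PowerSeries.C (a1 : ℝ) + PowerSeries.X with hx
  set yh := x * sb P1.θ (PowerSeries.map σ P1.ω) with hyh
  set τ := PowerSeries.constantCoeff P2.θ with hτ
  have hτle : |τ| ≤ ρ'' := by
    have := P2.hθ.coeff_le hr2.le 0
    simpa [hτ] using this
  -- bounds for the functions
  have hU : ∀ μ, Bd N P1.ρ (UstA P1 m (T μ)) bU := fun μ => bd_UstA h1 P1 m (T μ) H hH (hTH μ)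
  have hUσ : ∀ μ, Bd rn ρ' (PowerSeries.map σ (UstA P1 m (T μ))) bU :=
    fun μ => ((hU μ).of_le hq1 hrad1).map σ hσ hq1
  set Ψ : ℕ → PowerSeries A := fun j => ∑ μ, PowerSeries.C (ecoef P2 j μ) * UstA P1 m (T μ) with hΨ
  have hratio1 : ρ' / P1.ρ ≤ B1 ^ 2 / |(a1 : ℝ)| := by
    have h3 := P1.hρB
    have h4 := P1.ρ_pos
    rw [div_le_iff₀ h4, hρ']
    have h5 : B1 / |(a1 : ℝ)| = B1 ^ 2 / |(a1 : ℝ)| * (1 / B1) := by
      field_simp
    rw [h5]
    exact mul_le_mul_of_nonneg_left h3 (by positivity)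
  have hratio2 : ρ'' / P2.ρ ≤ B2 ^ 2 / |(a2 : ℝ)| := by
    have h3 := P2.hρB
    have h4 := P2.ρ_pos
    rw [div_le_iff₀ h4, hρ'']
    have h5 : B2 / |(a2 : ℝ)| = B2 ^ 2 / |(a2 : ℝ)| * (1 / B2) := by
      field_simp
    rw [h5]
    exact mul_le_mul_of_nonneg_left h3 (by positivity)
  have hΨbd : ∀ j < 5, Bd N P1.ρ (Ψ j) (6 * B2 ^ 6 * bU) := by
    intro j hj
    have h2 : ∀ μ ∈ (univ : Finset (Fin 6)),
        Bd N P1.ρ (PowerSeries.C (ecoef P2 j μ) * UstA P1 m (T μ)) (B2 ^ 6 * bU) := by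
      intro μ _
      refine ((Bd.C P1.ρ_pos.le _).mul P1.ρ_pos.le (hU μ)).mono ?_
      apply mul_le_mul_of_nonneg_right _ hbU0
      refine (ecoef_le h1 P2 j μ).trans ?_
      rw [← pow_add]
      exact pow_le_pow_right₀ (by linarith) (by omega)
    refine (Bd.sum univ P1.ρ_pos.le _ _ h2).mono ?_
    simp [mul_assoc]
  have hΨvan : ∀ j < 5, ∀ i < nj t j, PowerSeries.coeff i (Ψ j) = 0 := by
    intro j hj i hi
    rw [← hT j hj i hi, hΨ]
    simp only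
    rw [map_sum]
    apply Finset.sum_congr rfl
    intro μ _
    rw [PowerSeries.coeff_C_mul, UstA, map_sum, Finset.mul_sum]
    apply Finset.sum_congr rfl
    intro s _
    rw [PowerSeries.coeff_C_mul, zsmul_eq_mul]
    ring
  have hΨσ : ∀ j < 5, Bd rn ρ' (PowerSeries.map σ (Ψ j))
      ((B1 ^ 2 / |(a1 : ℝ)|) ^ (nj t j) * (6 * B2 ^ 6 * bU)) := by
    intro j hj
    refine (((hΨbd j hj).of_vanish P1.ρ_pos hq1 hrad1 _ (hΨvan j hj)).map σ hσ hq1).mono ?_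
    apply mul_le_mul_of_nonneg_right _ (by positivity)
    exact pow_le_pow_left₀ (div_nonneg hq1 P1.ρ_pos.le) hratio1 _
  -- remainders
  have hR : ∀ μ, ∃ R : ℝ, PowerSeries.constantCoeff (sb P2.θ (PowerSeries.map σ
        (P2.ζ ^ (2 - mp μ - mq μ) * P2.ω ^ (mq μ))))
      = ∑ j ∈ range 5, σ (ecoef P2 j μ) * τ ^ j + R ∧
      |R| ≤ (B2 ^ 2 / |(a2 : ℝ)|) ^ 5 * B2 ^ 2 := by
    intro μ
    obtain ⟨R, hR1, hR2⟩ := split5 σ hσ P2.ρ_pos hq2 hrad2 hr2 P2.θ P2.hθ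
      (P2.ζ ^ (2 - mp μ - mq μ) * P2.ω ^ (mq μ)) (bd_e h1 P2 μ)
    refine ⟨R, hR1, hR2.trans ?_⟩
    apply mul_le_mul_of_nonneg_right _ (by positivity)
    exact pow_le_pow_left₀ (div_nonneg hq2 P2.ρ_pos.le) hratio2 _
  choose R hR1 hR2 using hR
  set v : Fin 6 → ℝ := fun μ => PowerSeries.constantCoeff (sb P2.θ (PowerSeries.map σ
        (P2.ζ ^ (2 - mp μ - mq μ) * P2.ω ^ (mq μ)))) with hv
  set Θ : PowerSeries ℝ := ∑ μ, PowerSeries.C (v μ) * PowerSeries.map σ (UstA P1 m (T μ)) with hΘ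
  -- identity for the function
  have hident : ev x yh (∑ μ, C (C (a2 ^ (mp μ) * b2 ^ (mq μ))) * boxPoly (T μ))
      = PowerSeries.C ((a2 : ℝ) ^ 2) * (x ^ m * sb P1.θ Θ) := by
    rw [hΘ, sb_sum hr1 hq1 P1.hθ univ _ (fun μ => rn (v μ) * bU)]
    · rw [map_sum, Finset.mul_sum, Finset.mul_sum]
      apply Finset.sum_congr rfl
      intro μ _
      rw [map_mul, ev_C, evf_C, sb_UstA h1 hσ P1 m (T μ) hmn,
        sb_mul hr1 P1.hθ (Bd.C hq1 _) (hUσ μ), sb_C]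
      have h3 : ((a2 ^ (mp μ) * b2 ^ (mq μ) : ℤ) : PowerSeries ℝ)
          = PowerSeries.C ((a2 : ℝ) ^ 2) * PowerSeries.C (v μ) := by
        rw [← map_mul, ← conic_val h1 hσ P2 μ, map_intCast]
      rw [h3]
      ring
    · intro μ _
      exact (Bd.C hq1 _).mul hq1 (hUσ μ)
  -- decomposition of Θ
  have hΘ2 : Θ = ∑ j ∈ range 5, PowerSeries.C (τ ^ j) * PowerSeries.map σ (Ψ j)
      + ∑ μ, PowerSeries.C (R μ) * PowerSeries.map σ (UstA P1 m (T μ)) := by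
    rw [hΘ]
    have h3 : ∀ μ ∈ (univ : Finset (Fin 6)),
        PowerSeries.C (v μ) * PowerSeries.map σ (UstA P1 m (T μ))
        = ∑ j ∈ range 5, PowerSeries.C (σ (ecoef P2 j μ) * τ ^ j) *
            PowerSeries.map σ (UstA P1 m (T μ))
          + PowerSeries.C (R μ) * PowerSeries.map σ (UstA P1 m (T μ)) := by
      intro μ _
      rw [hv]
      simp only
      rw [hR1 μ, map_add, add_mul, map_sum, Finset.sum_mul]
    rw [Finset.sum_congr rfl h3, Finset.sum_add_distrib]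
    congr 1
    rw [Finset.sum_comm]
    apply Finset.sum_congr rfl
    intro j _
    rw [hΨ]
    simp only
    rw [map_sum, Finset.mul_sum]
    apply Finset.sum_congr rfl
    intro μ _
    simp only [map_mul, PowerSeries.map_C]
    ring
  -- bound of Θ
  set Q : ℝ := (∑ j ∈ range 5, ρ'' ^ j * ((B1 ^ 2 / |(a1 : ℝ)|) ^ (nj t j) * (6 * B2 ^ 6 * bU)))
      + 6 * ((B2 ^ 2 / |(a2 : ℝ)|) ^ 5 * B2 ^ 2) * bU with hQ
  have hΘbd : Bd rn ρ' Θ Q := by
    rw [hΘ2, hQ]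
    apply Bd.add hq1
    · apply Bd.sum _ hq1
      intro j hj
      rw [Finset.mem_range] at hj
      refine ((Bd.C hq1 _).mul hq1 (hΨσ j hj)).mono ?_
      apply mul_le_mul_of_nonneg_right _ (by positivity)
      rw [rn_apply, abs_pow]
      exact pow_le_pow_left₀ (abs_nonneg _) hτle j
    · have h3 : ∀ μ ∈ (univ : Finset (Fin 6)),
          Bd rn ρ' (PowerSeries.C (R μ) * PowerSeries.map σ (UstA P1 m (T μ)))
            (((B2 ^ 2 / |(a2 : ℝ)|) ^ 5 * B2 ^ 2) * bU) := by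
        intro μ _
        refine ((Bd.C hq1 _).mul hq1 (hUσ μ)).mono ?_
        exact mul_le_mul_of_nonneg_right (hR2 μ) hbU0
      refine (Bd.sum univ hq1 _ _ h3).mono ?_
      simp [mul_assoc]
  have hQ0 : 0 ≤ Q := hΘbd.nonneg
  rw [hident, PowerSeries.coeff_C_mul, abs_mul]
  have h4 : |(a2 : ℝ) ^ 2| = |(a2 : ℝ)| ^ 2 := by rw [abs_pow]
  rw [h4]
  apply mul_le_mul_of_nonneg_left _ (by positivity)
  have hxbd : Bd rn (|(a1 : ℝ)| / 2) (x ^ m) ((2 * |(a1 : ℝ)|) ^ m) := by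
    apply Bd.pow hr1.le rn_one
    have h5 := (Bd.C (N := rn) hr1.le (a1 : ℝ)).add hr1.le (Bd.X hr1.le rn_one)
    apply h5.mono
    rw [rn_apply]
    linarith
  exact coeff_mul_bound hr1 hxbd hQ0 (fun i => sb_coeff_le hr1 P1.hθ hΘbd i) o

end Main

end Pool.Agent.H322R2
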