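import Pool.Agent.H322R2.ACore

/-!
The basic inequality of the anchor argument.
-/

open Polynomial Finset

namespace Pool.Agent.H322R2

/-- combined constant -/
noncomputable def C1A (k : ℕ) (C0 W : ℝ) : ℝ := C0 * (W ^ k * (1 + W) ^ k)

/-- size of the auxiliary polynomial -/
noncomputable def HTA (k t : ℕ) (C0 B1 W B2 : ℝ) : ℝ :=
  ((6 * (k * (20 * t - k) : ℕ) : ℝ) * (C0 * (B2 ^ 6 * (W ^ k * B1 ^ (42 * t))))) ^ 13

lemma HTA_facts {k t : ℕ} {C0 B1 W B2 : ℝ} (hk : 0 < k) (ht : 4 * k ≤ t) (hC0 : 1 ≤ C0)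
    (hB1 : 1 ≤ B1) (hW : 1 ≤ W) (hB2 : 1 ≤ B2) :
    1 ≤ HTA k t C0 B1 W B2 ∧ HTA k t C0 B1 W B2 * (1 + W) ^ k ≤ Hh k t (C1A k C0 W) B1 B2 ∧
    HTA k t C0 B1 W B2 * W ^ k ≤ Hh k t (C1A k C0 W) B1 B2 ∧
    HTA k t C0 B1 W B2 ≤ Hh k t (C1A k C0 W) B1 B2 := by
  obtain ⟨q, hq⟩ : ∃ q : ℝ, q = 6 * ((k * (20 * t - k) : ℕ) : ℝ) := ⟨_, rfl⟩
  have hq1 : 1 ≤ q := by
    have h1 : (1 : ℝ) ≤ ((k * (20 * t - k) : ℕ) : ℝ) := by
      have : 0 < k * (20 * t - k) := Nat.mul_pos hk (by omega)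
      exact_mod_cast this
    rw [hq]; linarith
  obtain ⟨b, hb⟩ : ∃ b : ℝ, b = q * (C0 * (B2 ^ 6 * (W ^ k * B1 ^ (42 * t)))) := ⟨_, rfl⟩
  have hT : HTA k t C0 B1 W B2 = b ^ 13 := by unfold HTA; rw [hb, hq]
  have hW1 : 1 ≤ W ^ k := one_le_pow₀ hW
  have hW2 : 1 ≤ (1 + W) ^ k := one_le_pow₀ (by linarith)
  have hb1 : 1 ≤ b := by
    rw [hb]
    exact one_le_mul_of_one_le_of_one_le hq1 (one_le_mul_of_one_le_of_one_le hC0
      (one_le_mul_of_one_le_of_one_le (one_le_pow₀ hB2)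
        (one_le_mul_of_one_le_of_one_le hW1 (one_le_pow₀ hB1))))
  have hT1 : 1 ≤ b ^ 13 := one_le_pow₀ hb1
  have hkey : (b * (1 + W) ^ k) ^ 13 ≤ Hh k t (C1A k C0 W) B1 B2 := by
    unfold Hh C1A
    rw [← hq]
    apply pow_le_pow_left₀ (by positivity)
    have e1 : b * (1 + W) ^ k = q * (C0 * (W ^ k * (1 + W) ^ k) * (B2 ^ 6 * B1 ^ (42 * t))) := by
      rw [hb]; ring
    rw [e1]
    apply mul_le_mul_of_nonneg_left _ (by linarith)
    apply mul_le_mul_of_nonneg_left _ (by positivity)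
    apply mul_le_mul_of_nonneg_left _ (by positivity)
    exact pow_le_pow_right₀ hB1 (by omega)
  have h2 : b ^ 13 * (1 + W) ^ k ≤ Hh k t (C1A k C0 W) B1 B2 := by
    refine le_trans ?_ hkey
    rw [mul_pow]
    apply mul_le_mul_of_nonneg_left _ (by positivity)
    exact le_self_pow₀ hW2 (by norm_num)
  have h3 : b ^ 13 * W ^ k ≤ b ^ 13 * (1 + W) ^ k := by
    apply mul_le_mul_of_nonneg_left _ (by positivity)
    exact pow_le_pow_left₀ (by linarith) (by linarith) k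
  have h4 : b ^ 13 ≤ b ^ 13 * (1 + W) ^ k := le_mul_of_one_le_right (by positivity) hW2
  rw [hT]
  exact ⟨hT1, h2, h3.trans h2, h4.trans h2⟩

section Main

variable {A : Type*} [CommRing A] {N : RingSeminorm A} {σ : A →+* ℝ} {d e : ℕ} {B1 W B2 : ℝ}
    {F1 F2 : ℤ[X][X]} {a1 b1 a2 b2 : ℤ}

theorem core_ineqA (h1 : N 1 ≤ 1) (hσ : ∀ x, |σ x| ≤ N x)
    {ι : Type*} [Fintype ι] (bas : ι → A →+ ℤ) (hb : ∀ x, (∀ i, bas i x = 0) → x = 0)
    (C0 : ℝ) (hC0 : 1 ≤ C0) (hcoord : ∀ x i, |(bas i x : ℝ)| ≤ C0 * N x)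
    (P1 : AP N σ e B1 W F1 a1 b1) (P2 : BP N σ d B2 F2 a2 b2)
    (hd : 3 ≤ d) (hm1 : F1.Monic) (hFd1 : F1.natDegree = d) (hF1 : Prime F1)
    (hFx1 : ∀ j, (F1.coeff j).natDegree ≤ d)
    (hm2 : F2.Monic) (hFd2 : F2.natDegree = d) (hF2 : Prime F2)
    (k : ℕ) (hk : 0 < k) (hkd : k ≤ d) (hkι : Fintype.card ι = k) (t : ℕ) (ht : 4 * k ≤ t)
    (hY1 : |(a1 : ℝ)| ^ (10 * t) ≤ |(a2 : ℝ)|) (hY2 : |(a2 : ℝ)| ≤ |(a1 : ℝ)| ^ (10 * (t + 1)))
    (hsmall : d.factorial * (6 * Hh k t (C1A k C0 W) B1 B2 * (1 + B2) ^ 2) ^ d < |(a2 : ℝ)|) :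
    ∃ o : ℕ,
      |(a1 : ℝ)| ^ o ≤ |(a1 : ℝ)| ^ (6 ^ d) * (((6 ^ d).factorial : ℕ) *
          (((d * ((20 * t - k) + d * k) : ℕ) : ℝ) ^ (6 ^ d) *
            (d.factorial * ((k * (20 * t - k : ℕ) * Hh k t (C1A k C0 W) B1 B2) * (1 + B1) ^ k) ^ d))
              ^ (6 ^ d)) ∧
      |(a1 : ℝ)| ^ (2 * t) ≤ |(a1 : ℝ)| ^ (2 * e * o) * (|(a1 : ℝ)| ^ 20 * 2 ^ (20 * t) *
        (36 * B2 ^ 12 * B1 ^ (84 * t) *
          (k * (20 * t - k : ℕ) * (Hh k t (C1A k C0 W) B1 B2 * B1 ^ k)))) := by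
  have hB1 := P1.hB
  have hW := P1.hW
  have hB2 := P2.hB
  obtain ⟨T, hT0, hT, hTH⟩ := exists_auxA h1 bas hb C0 hC0 hcoord P1 P2 k hk hkι t ht
  obtain ⟨f1, f2, f3, f4⟩ := HTA_facts (k := k) (t := t) hk ht hC0 (by linarith : 1 ≤ B1) hW
    (by linarith : 1 ≤ B2)
  obtain ⟨HT, hHT⟩ : ∃ HT, HT = HTA k t C0 B1 W B2 := ⟨_, rfl⟩
  obtain ⟨HH, hHH⟩ : ∃ HH, HH = Hh k t (C1A k C0 W) B1 B2 := ⟨_, rfl⟩
  rw [← hHH] at hsmall ⊢
  rw [← hHT] at f1
  rw [← hHT, ← hHH] at f2 f3 f4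
  have hTH' : ∀ μ s, |(T μ s : ℝ)| ≤ HT := by
    intro μ s
    rw [hHT]
    exact hTH μ s
  have hn : 0 < 20 * t - k := by omega
  -- nonvanishing of V
  have hV : ∑ μ, C (C (a2 ^ (mp μ) * b2 ^ (mq μ))) * boxPoly (T μ) ≠ 0 := by
    intro h0
    obtain ⟨μ0, hμ0⟩ : ∃ μ, T μ ≠ 0 := by
      by_contra hcon
      push_neg at hcon
      exact hT0 (funext hcon)
    obtain ⟨s0, hs0⟩ : ∃ s, T μ0 s ≠ 0 := by
      by_contra hcon
      push_neg at hcon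
      exact hμ0 (funext hcon)
    have hG : ev a2 b2 (conic (fun μ => T μ s0)) = 0 := by
      rw [ev_conic]
      have h2 := congrArg (fun p : ℤ[X][X] => (p.coeff (s0.1 : ℕ)).coeff (s0.2 : ℕ)) h0
      simp only [finsetSum_coeff, coeff_zero] at h2
      rw [← h2]
      apply Finset.sum_congr rfl
      intro μ _
      rw [coeff_C_mul, coeff_C_mul, coeff_boxPoly]
      simp only [Int.cast_id]
      ring
    have h3 := small_conic F2 d hd hm2 hFd2 hF2 a2 b2 P2.a_ne P2.hev (fun μ => T μ s0) μ0 hs0 hG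
      HT (fun μ => hTH' μ s0)
    have h4 : (d.factorial : ℝ) * (6 * HT * (1 + pn (pn zn) F2) ^ 2) ^ d
        ≤ d.factorial * (6 * HH * (1 + B2) ^ 2) ^ d := by
      have h5 := P2.hFn
      have h6 : 0 ≤ pn (pn zn) F2 := apply_nonneg _ _
      have hHT0 : 0 ≤ HT := by linarith
      have hHH0 : 0 ≤ HH := by linarith
      apply mul_le_mul_of_nonneg_left _ (by positivity)
      apply pow_le_pow_left₀ (by positivity)
      apply mul_le_mul (by linarith) _ (by positivity) (by positivity)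
      exact pow_le_pow_left₀ (by positivity) (by linarith) 2
    linarith
  have hkn : (1 : ℝ) ≤ (k : ℝ) * ((20 * t - k : ℕ) : ℝ) := by
    have : 0 < k * (20 * t - k) := Nat.mul_pos hk (by omega)
    exact_mod_cast this
  have hbU : 1 ≤ (k * (20 * t - k : ℕ) * HT : ℝ) := by nlinarith
  obtain ⟨Y, hXY, hFY, o, ho, hineq⟩ := arith_part F1 d k (20 * t - k) (by omega) hm1 hFd1 hF1 hFx1
    a1 b1 P1.a_ne P1.hev P1.hD hk hkd hn T (fun μ => a2 ^ (mp μ) * b2 ^ (mq μ))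
    (k * (20 * t - k : ℕ) * HT) hbU (fun μ => pn_boxPoly_le _ _ (hTH' μ)) hV
  refine ⟨o, ?_, ?_⟩
  · refine hineq.trans ?_
    have h5 := P1.hFn
    have h6 : 0 ≤ pn (pn zn) F1 := apply_nonneg _ _
    have h7 : (k * (20 * t - k : ℕ) * HT) * (1 + pn (pn zn) F1) ^ k
        ≤ (k * (20 * t - k : ℕ) * HH) * (1 + B1) ^ k := by
      calc (k * (20 * t - k : ℕ) * HT) * (1 + pn (pn zn) F1) ^ k
          ≤ (k * (20 * t - k : ℕ) * HT) * (1 + W) ^ k := by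
            apply mul_le_mul_of_nonneg_left _ (by linarith)
            exact pow_le_pow_left₀ (by linarith) (by linarith) k
        _ = (k * (20 * t - k : ℕ)) * (HT * (1 + W) ^ k) := by ring
        _ ≤ (k * (20 * t - k : ℕ)) * HH := mul_le_mul_of_nonneg_left f2 (by linarith)
        _ ≤ _ := by
            apply le_mul_of_one_le_right (by nlinarith)
            exact one_le_pow₀ (by linarith)
    have h8 : 0 ≤ (k * (20 * t - k : ℕ) * HT) * (1 + pn (pn zn) F1) ^ k := by positivity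
    gcongr
  · have hlink := link_coeff F1 (∑ μ, C (C (a2 ^ (mp μ) * b2 ^ (mq μ))) * boxPoly (T μ)) a1 b1 _ rfl
      P1.hD Y hXY hFY _ P1.hy P1.hF o
    have hana := analytic_partA h1 hσ P1 P2 k t (20 * t - k) (by omega) T hT
      HT (by linarith) hTH' o
    have hone : (1 : ℝ) ≤ |((PowerSeries.coeff o
        (ev (PowerSeries.C a1 + PowerSeries.C ((ev a1 b1 (derivative F1)) ^ 2) * PowerSeries.X)
        (PowerSeries.C b1 + PowerSeries.C (ev a1 b1 (derivative F1)) * Y)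
        (∑ μ, C (C (a2 ^ (mp μ) * b2 ^ (mq μ))) * boxPoly (T μ))) : ℤ) : ℝ)| := by
      have := Int.one_le_abs ho
      exact_mod_cast this
    rw [hlink, abs_mul] at hone
    have hD2 : |(((ev a1 b1 (derivative F1) : ℤ) : ℝ) ^ 2) ^ o| ≤ |(a1 : ℝ)| ^ (2 * e * o) := by
      rw [← pow_mul, abs_pow]
      calc |((ev a1 b1 (derivative F1) : ℤ) : ℝ)| ^ (2 * o) ≤ (|(a1 : ℝ)| ^ e) ^ (2 * o) :=
            pow_le_pow_left₀ (abs_nonneg _) P1.hDle _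
        _ = _ := by rw [← pow_mul]; congr 1; ring
    have hX : 4 ≤ |(a1 : ℝ)| := P1.a_ge
    have hbU' : (0 : ℝ) ≤ (k * (20 * t - k : ℕ) * (HT * W ^ k)) := by
      have : 0 ≤ W := by linarith
      have : 0 ≤ HT := by linarith
      positivity
    have hfb := final_bound |(a1 : ℝ)| |(a2 : ℝ)| B1 B2 _ hX hB1 hB2 hbU' t o hY1 hY2
    set G := |PowerSeries.coeff o (ev (PowerSeries.C (a1 : ℝ) + PowerSeries.X)
      ((PowerSeries.C (a1 : ℝ) + PowerSeries.X) * sb P1.θ (PowerSeries.map σ P1.ω))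
      (∑ μ, C (C (a2 ^ (mp μ) * b2 ^ (mq μ))) * boxPoly (T μ)))| with hG
    have h7 : (1 : ℝ) ≤ |(a1 : ℝ)| ^ (2 * e * o) * G :=
      hone.trans (mul_le_mul_of_nonneg_right hD2 (abs_nonneg _))
    have hX0 : 0 < |(a1 : ℝ)| := by linarith
    have hbUle : (k * (20 * t - k : ℕ) * (HT * W ^ k) : ℝ)
        ≤ k * (20 * t - k : ℕ) * (HH * B1 ^ k) := by
      apply mul_le_mul_of_nonneg_left _ (by linarith)
      refine f3.trans ?_
      exact le_mul_of_one_le_right (by linarith) (one_le_pow₀ (by linarith))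
    calc |(a1 : ℝ)| ^ (2 * t) = 1 * |(a1 : ℝ)| ^ (2 * t) := by ring
      _ ≤ (|(a1 : ℝ)| ^ (2 * e * o) * G) * |(a1 : ℝ)| ^ (2 * t) := by gcongr
      _ = |(a1 : ℝ)| ^ (2 * e * o) * (G * |(a1 : ℝ)| ^ (2 * t)) := by ring
      _ ≤ |(a1 : ℝ)| ^ (2 * e * o) * (|(a1 : ℝ)| ^ 20 * 2 ^ (20 * t) *
        (36 * B2 ^ 12 * B1 ^ (84 * t) *
          (k * (20 * t - k : ℕ) * (HT * W ^ k)))) := by
        apply mul_le_mul_of_nonneg_left _ (by positivity)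
        exact (mul_le_mul_of_nonneg_right hana (by positivity)).trans hfb
      _ ≤ _ := by
        apply mul_le_mul_of_nonneg_left _ (by positivity)
        apply mul_le_mul_of_nonneg_left _ (by positivity)
        exact mul_le_mul_of_nonneg_left hbUle (by positivity)

end Main

end Pool.Agent.H322R2
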