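import Pool.Agent.H322R2.Red3

/-!
The bound for integer points on plane curves with simple points at infinity.
-/

open Polynomial Finset IntermediateField

namespace Pool.Agent.H322R2

/-- the final exponent -/
def kE (d : ℕ) : ℕ := 10 ^ 11 * 36 ^ d * (d + 1) ^ 13

lemma kE_ge (d : ℕ) : (d ^ 2 + 1) * (eE d + 1) ≤ kE d := by
  have h1 : 1 ≤ eE d := by
    unfold eE
    have h1 := one_le_kap d
    have h2 : 1 ≤ (d + 1) ^ 7 := Nat.one_le_pow _ _ (by omega)
    calc 1 ≤ 10 ^ 4 * 1 * 1 := by norm_num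
      _ ≤ _ := Nat.mul_le_mul (Nat.mul_le_mul_left _ h2) h1
  have h2 : d ^ 2 + 1 ≤ (d + 1) ^ 2 := by
    have : (d + 1) ^ 2 = d ^ 2 + 2 * d + 1 := by ring
    omega
  calc (d ^ 2 + 1) * (eE d + 1) ≤ (d + 1) ^ 2 * (2 * eE d) := Nat.mul_le_mul h2 (by omega)
    _ = 2 * 10 ^ 10 * 36 ^ d * (d + 1) ^ 13 := by unfold eE kap; ring
    _ ≤ _ := by
      unfold kE
      apply Nat.mul_le_mul_right
      apply Nat.mul_le_mul_right
      norm_num

lemma eval_smul_hom {φ : MvPolynomial (Fin 2) ℤ} {d : ℕ} (h : φ.IsHomogeneous d) (s x y : ℝ) :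
    MvPolynomial.aeval ![s * x, s * y] φ = s ^ d * MvPolynomial.aeval ![x, y] φ := by
  rw [MvPolynomial.aeval_def, MvPolynomial.aeval_def, MvPolynomial.eval₂_eq',
    MvPolynomial.eval₂_eq', Finset.mul_sum]
  apply Finset.sum_congr rfl
  intro m hm
  rw [Fin.prod_univ_two, Fin.prod_univ_two]
  have h1 : m 0 + m 1 = d := by
    rw [← degree_fin2]
    have := h (MvPolynomial.mem_support_iff.1 hm)
    rw [Finsupp.degree_eq_weight_one]
    exact this
  simp only [Matrix.cons_val_zero, Matrix.cons_val_one]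
  rw [← h1, pow_add, mul_pow, mul_pow]
  ring

lemma aeval_shE (u : ℤ) (x y : ℝ) (F : MvPolynomial (Fin 2) ℤ) :
    MvPolynomial.aeval ![x, y] (shE ℤ u F) = MvPolynomial.aeval ![x, y + u * x] F := by
  have : (MvPolynomial.aeval ![x, y] : MvPolynomial (Fin 2) ℤ →ₐ[ℤ] ℝ).toRingHom.comp
      (shE ℤ u : MvPolynomial (Fin 2) ℤ →+* MvPolynomial (Fin 2) ℤ)
      = (MvPolynomial.aeval ![x, y + u * x] : MvPolynomial (Fin 2) ℤ →ₐ[ℤ] ℝ).toRingHom := by
    apply MvPolynomial.ringHom_ext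
    · intro r
      simp
    · intro i
      fin_cases i
      · simp [shE_apply]
      · simp [shE_apply]
  exact congrArg (fun g : MvPolynomial (Fin 2) ℤ →+* ℝ => g F) this

lemma len_pos {F : MvPolynomial (Fin 2) ℤ} (hF : F ≠ 0) : 1 ≤ len F := by
  obtain ⟨m, hm⟩ := MvPolynomial.support_nonempty.2 hF
  unfold len
  have h1 : (F.coeff m).natAbs ≤ ∑ m ∈ F.support, (F.coeff m).natAbs :=
    Finset.single_le_sum (f := fun m => (F.coeff m).natAbs) (fun _ _ => Nat.zero_le _) hm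
  have h2 : (F.coeff m).natAbs ≠ 0 := by
    rw [Int.natAbs_ne_zero]; exact MvPolynomial.mem_support_iff.1 hm
  omega

lemma slope_of_root {F : MvPolynomial (Fin 2) ℤ} {u : ℕ} (hc : lc F u ≠ 0)
    (hd : 3 ≤ F.totalDegree) (η : ℝ) (hη : evf η (lead F.totalDegree (GG F u)) = 0)
    (hfin : Module.finrank ℚ ℚ⟮η⟯ = F.totalDegree) :
    ∃ t : ℝ, MvPolynomial.aeval ![1, t] (MvPolynomial.homogeneousComponent F.totalDegree F) = 0 ∧
      ℚ⟮t⟯ = ℚ⟮η⟯ := by
  obtain ⟨c, hcdef⟩ : ∃ c : ℝ, c = ((lc F u : ℤ) : ℝ) := ⟨_, rfl⟩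
  have hc0 : c ≠ 0 := by rw [hcdef]; exact_mod_cast hc
  obtain ⟨t0, ht0⟩ : ∃ t0 : ℝ, t0 = η / c := ⟨_, rfl⟩
  have hηc : η = c * t0 := by rw [ht0]; field_simp
  have hp0 : evf t0 (lead F.totalDegree (F2 F u)) = 0 := by
    have h1 := integralNormalization_eval₂_leadingCoeff_mul (p := lead F.totalDegree (F2 F u))
      (by rw [lead_F2_natDegree hc]; omega) (Int.castRingHom ℝ) t0
    rw [lead_F2_leadingCoeff hc, lead_F2_natDegree hc, ← lead_GG hc] at h1
    have h2 : (Int.castRingHom ℝ) (lc F u) * t0 = η := by rw [hηc, hcdef]; rfl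
    rw [h2] at h1
    have h3 : eval₂ (Int.castRingHom ℝ) η (lead F.totalDegree (GG F u)) = 0 := hη
    rw [h3] at h1
    rcases mul_eq_zero.1 h1.symm with h | h
    · exfalso
      apply pow_ne_zero _ _ h
      rw [eq_intCast]
      exact_mod_cast hc
    · exact h
  have hF0 : MvPolynomial.aeval ![t0, 1 + u * t0]
      (MvPolynomial.homogeneousComponent F.totalDegree F) = 0 := by
    have h1 := congrArg (MvPolynomial.aeval ![t0, (1 : ℝ)]) (homogenize_lead (u : ℤ) F)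
    rw [aeval_homogenize_of_eq_one (by
        have := lead_F2_natDegree hc
        rw [F2] at this
        exact this.le) _ (by simp), aeval_shE] at h1
    have h2 : aeval ((![t0, (1 : ℝ)] : Fin 2 → ℝ) 0) (lead F.totalDegree (toB ℤ (shE ℤ u F)))
        = evf t0 (lead F.totalDegree (F2 F u)) := by
      rw [aeval_def, evf, coe_eval₂RingHom]
      rfl
    rw [h2, hp0] at h1
    simpa using h1.symm
  have hmem : ∀ (x : ℝ) (L : IntermediateField ℚ ℝ) (n : ℤ), x ∈ L → (n : ℝ) * x ∈ L :=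
    fun x L n hx => L.mul_mem (L.intCast_mem n) hx
  have hE1 : ℚ⟮t0⟯ = ℚ⟮η⟯ := by
    apply le_antisymm
    · rw [adjoin_simple_le_iff, ht0, hcdef]
      exact div_mem (mem_adjoin_simple_self ℚ η) (intCast_mem _ _)
    · rw [adjoin_simple_le_iff, hηc, hcdef]
      exact mul_mem (intCast_mem _ _) (mem_adjoin_simple_self ℚ t0)
  have ht00 : t0 ≠ 0 := by
    intro h0
    rw [← hE1, h0] at hfin
    have h1 : Module.finrank ℚ ℚ⟮(0 : ℝ)⟯ = 1 := by
      rw [adjoin_zero]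
      exact IntermediateField.finrank_bot
    omega
  refine ⟨(1 + u * t0) / t0, ?_, ?_⟩
  · have h1 := eval_smul_hom (MvPolynomial.homogeneousComponent_isHomogeneous F.totalDegree F)
      t0 1 ((1 + u * t0) / t0)
    have h2 : t0 * ((1 + u * t0) / t0) = 1 + u * t0 := by field_simp
    rw [h2, mul_one, hF0] at h1
    rcases mul_eq_zero.1 h1.symm with h | h
    · exact absurd h (pow_ne_zero _ ht00)
    · exact h
  · rw [← hE1]
    apply le_antisymm
    · rw [adjoin_simple_le_iff]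
      have h1 := mem_adjoin_simple_self ℚ t0
      exact div_mem (add_mem (one_mem _) (mul_mem (_root_.natCast_mem _ _) h1)) h1
    · rw [adjoin_simple_le_iff]
      have h1 := mem_adjoin_simple_self ℚ ((1 + u * t0) / t0)
      have h2 : t0 = 1 / ((1 + u * t0) / t0 - u) := by
        have : (1 + u * t0) / t0 - u = 1 / t0 := by field_simp; ring
        rw [this, one_div_one_div]
      have h3 : 1 / ((1 + u * t0) / t0 - u) ∈ ℚ⟮(1 + u * t0) / t0⟯ :=
        div_mem (one_mem _) (sub_mem h1 (_root_.natCast_mem _ _))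
      rw [← h2] at h3
      exact h3

theorem main1 : ∃ c : IntermediateField ℚ ℝ → ℕ, (∀ L, 1 ≤ c L) ∧
    ∀ F : MvPolynomial (Fin 2) ℤ,
      Irreducible (MvPolynomial.map (Int.castRingHom ℚ) F) → 3 ≤ F.totalDegree →
      Squarefree (MvPolynomial.map (Int.castRingHom ℚ)
        (MvPolynomial.homogeneousComponent F.totalDegree F)) →
      ∀ x y : ℤ, MvPolynomial.eval ![x, y] F = 0 →
        (x.natAbs ≤ ((F.totalDegree + 1) * len F) ^ (kE F.totalDegree) ∧
          y.natAbs ≤ ((F.totalDegree + 1) * len F) ^ (kE F.totalDegree)) ∨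
        ∃ t : ℝ, MvPolynomial.aeval ![1, t]
            (MvPolynomial.homogeneousComponent F.totalDegree F) = 0 ∧
          Module.finrank ℚ ℚ⟮t⟯ = F.totalDegree ∧
          x.natAbs ≤ (c ℚ⟮t⟯ * ((F.totalDegree + 1) * len F)) ^ (kE F.totalDegree) ∧
          y.natAbs ≤ (c ℚ⟮t⟯ * ((F.totalDegree + 1) * len F)) ^ (kE F.totalDegree) := by
  obtain ⟨c, hc1, hc⟩ := monic_bound
  refine ⟨fun L => ⌈c L⌉₊, fun L => Nat.one_le_ceil_iff.2 (by have := hc1 L; linarith), ?_⟩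
  intro F hirr hd hsq x y hxy
  have hF0 : F ≠ 0 := by
    rintro rfl
    simp at hd
  obtain ⟨u, hu, hcu⟩ := exists_u F hF0
  have hcl : lc F u ≠ 0 := hcu
  obtain ⟨d, hddef⟩ : ∃ d, d = F.totalDegree := ⟨_, rfl⟩
  obtain ⟨w, hw⟩ : ∃ w : ℝ, w = ((d : ℝ) + 1) * (len F : ℝ) := ⟨_, rfl⟩
  have hlen : (1 : ℝ) ≤ len F := by exact_mod_cast len_pos hF0
  have hd3 : (3 : ℝ) ≤ d := by rw [hddef]; exact_mod_cast hd
  have hw4 : 4 ≤ w := by rw [hw]; nlinarith
  obtain ⟨H2, hH2⟩ : ∃ H2 : ℝ, H2 = (len F : ℝ) * (1 + d) ^ d := ⟨_, rfl⟩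
  have hH21 : 1 ≤ H2 := by
    rw [hH2]
    exact one_le_mul_of_one_le_of_one_le hlen (one_le_pow₀ (by linarith))
  have hpn2 : pn (pn zn) (F2 F u) ≤ H2 := by
    refine (pn_toB_le u F).trans ?_
    rw [hH2, ← hddef]
    apply mul_le_mul_of_nonneg_left _ (by linarith)
    apply pow_le_pow_left₀ (by positivity)
    have : (u : ℝ) ≤ d := by rw [hddef]; exact_mod_cast hu
    linarith
  obtain ⟨H, hH⟩ : ∃ H : ℝ, H = H2 ^ d := ⟨_, rfl⟩
  have hH1 : 1 ≤ H := by rw [hH]; exact one_le_pow₀ hH21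
  have hHw : H ≤ w ^ (d ^ 2) := by
    rw [hH, hH2, sq, pow_mul]
    apply pow_le_pow_left₀ (by positivity)
    rw [hw, mul_pow, mul_comm, add_comm 1 (d : ℝ)]
    apply mul_le_mul_of_nonneg_left _ (by positivity)
    calc (len F : ℝ) = (len F : ℝ) ^ 1 := by rw [pow_one]
      _ ≤ _ := pow_le_pow_right₀ hlen (by omega)
  have hpnG : pn (pn zn) (GG F u) ≤ H := by
    rw [hH, hddef]
    exact pn_GG hcl hH21 hpn2 (by omega)
  obtain ⟨a, ha⟩ : ∃ a : ℤ, a = y - u * x := ⟨_, rfl⟩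
  have hzero : ev a (lc F u * x) (GG F u) = 0 := by
    rw [ev_GG hcl (by omega)]
    have h1 := ev_toB (S := ℤ) x a (shE ℤ u F)
    have h2 : MvPolynomial.eval₂ (Int.castRingHom ℤ) ![x, a] (shE ℤ u F)
        = MvPolynomial.eval ![x, a] (shE ℤ u F) := by
      rw [MvPolynomial.eval, MvPolynomial.coe_eval₂Hom]
      congr 1
    rw [h2, eval_shE] at h1
    have h3 : (![(![x, a] : Fin 2 → ℤ) 0, (![x, a] : Fin 2 → ℤ) 1 + u * (![x, a] : Fin 2 → ℤ) 0]
        : Fin 2 → ℤ) = ![x, y] := by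
      ext i
      fin_cases i
      · simp
      · simp [ha]
    rw [h3, hxy] at h1
    rw [F2, h1, mul_zero]
  have hmain := hc F.totalDegree hd (GG F u) (GG_monic hcl) (GG_natDegree hcl)
    (GG_prime hcl (by omega) hirr) (GG_TD hcl) H hH1 hpnG (nrm_GG hcl (by omega) hsq)
    a (lc F u * x) hzero
  rw [← hddef] at hmain
  have hbb := abs_b_le (GG_monic hcl) (GG_natDegree hcl) (GG_TD hcl) hH1 hpnG a (lc F u * x) hzero
  have hlc1 : 1 ≤ |((lc F u : ℤ) : ℝ)| := by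
    have : 1 ≤ |lc F u| := Int.one_le_abs hcl
    exact_mod_cast this
  have hxb : |(x : ℝ)| ≤ H * max 1 |(a : ℝ)| := by
    refine le_trans ?_ hbb
    push_cast
    rw [abs_mul]
    exact le_mul_of_one_le_left (abs_nonneg _) hlc1
  have h2H : 2 + H ≤ w ^ (d ^ 2 + 1) := by
    rw [pow_succ]
    nlinarith
  have hdH : (d + 1) * H ≤ w ^ (d ^ 2 + 1) := by
    rw [pow_succ, mul_comm]
    apply mul_le_mul hHw _ (by positivity) (by positivity)
    rw [hw]
    exact le_mul_of_one_le_right (by linarith) hlen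
  -- general conclusion
  have key : ∀ C : ℝ, 1 ≤ C → |(a : ℝ)| ≤ (C * (2 + H)) ^ (eE d) →
      |(x : ℝ)| ≤ (C * w) ^ (kE d) ∧ |(y : ℝ)| ≤ (C * w) ^ (kE d) := by
    intro C hC hab
    obtain ⟨M, hM⟩ : ∃ M, M = (C * (2 + H)) ^ (eE d) := ⟨_, rfl⟩
    have hC2H : 1 ≤ C * (2 + H) := one_le_mul_of_one_le_of_one_le hC (by linarith)
    have hM1 : 1 ≤ M := by rw [hM]; exact one_le_pow₀ hC2H
    rw [← hM] at hab
    have hmax : max 1 |(a : ℝ)| ≤ M := max_le hM1 hab
    have hx1 : |(x : ℝ)| ≤ H * M := hxb.trans (mul_le_mul_of_nonneg_left hmax (by linarith))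
    have hy1 : |(y : ℝ)| ≤ (d + 1) * H * M := by
      have h1 : (y : ℝ) = a + u * x := by rw [ha]; push_cast; ring
      rw [h1]
      refine (abs_add_le _ _).trans ?_
      rw [abs_mul, Nat.abs_cast]
      have h2 : (u : ℝ) ≤ d := by rw [hddef]; exact_mod_cast hu
      have h3 : (u : ℝ) * |(x : ℝ)| ≤ d * (H * M) :=
        mul_le_mul h2 hx1 (abs_nonneg _) (by linarith)
      have h4 : M ≤ H * M := le_mul_of_one_le_left (by linarith) hH1
      have h5 : ((d : ℝ) + 1) * H * M = H * M + d * (H * M) := by ring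
      linarith
    have hCw : 1 ≤ C * w := one_le_mul_of_one_le_of_one_le hC (by linarith)
    have hMb : M ≤ (C * w) ^ ((d ^ 2 + 1) * eE d) := by
      rw [hM, pow_mul]
      apply pow_le_pow_left₀ (by linarith)
      rw [mul_pow]
      apply mul_le_mul _ h2H (by linarith) (by positivity)
      calc C = C ^ 1 := by rw [pow_one]
        _ ≤ _ := pow_le_pow_right₀ hC (by omega)
    have hb2 : (d + 1) * H ≤ (C * w) ^ (d ^ 2 + 1) := by
      refine hdH.trans ?_
      apply pow_le_pow_left₀ (by linarith)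
      exact le_mul_of_one_le_left (by linarith) hC
    have hfin : (d + 1) * H * M ≤ (C * w) ^ (kE d) := by
      calc (d + 1) * H * M ≤ (C * w) ^ (d ^ 2 + 1) * (C * w) ^ ((d ^ 2 + 1) * eE d) :=
            mul_le_mul hb2 hMb (by linarith) (by positivity)
        _ = (C * w) ^ ((d ^ 2 + 1) * (eE d + 1)) := by rw [← pow_add]; congr 1; ring
        _ ≤ _ := pow_le_pow_right₀ hCw (kE_ge d)
    refine ⟨hx1.trans (le_trans ?_ hfin), hy1.trans hfin⟩
    apply mul_le_mul_of_nonneg_right _ (by linarith)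
    nlinarith
  have hcastw : w = (((d + 1) * len F : ℕ) : ℝ) := by rw [hw]; push_cast; ring
  rcases hmain with h1 | ⟨η, hη, hfin, h1⟩
  · left
    obtain ⟨hx, hy⟩ := key 1 le_rfl (by rw [one_mul]; exact h1)
    rw [one_mul, hcastw] at hx hy
    rw [← hddef]
    constructor
    · have : ((x.natAbs : ℕ) : ℝ) ≤ ((((d + 1) * len F) ^ kE d : ℕ) : ℝ) := by
        rw [Nat.cast_natAbs, Int.cast_abs]; push_cast at hx ⊢; exact hx
      exact_mod_cast this
    · have : ((y.natAbs : ℕ) : ℝ) ≤ ((((d + 1) * len F) ^ kE d : ℕ) : ℝ) := by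
        rw [Nat.cast_natAbs, Int.cast_abs]; push_cast at hy ⊢; exact hy
      exact_mod_cast this
  · right
    rw [hddef] at hη hfin
    obtain ⟨t, ht, hE⟩ := slope_of_root hcl hd η hη hfin
    refine ⟨t, ht, by rw [hE]; exact hfin, ?_⟩
    obtain ⟨hx, hy⟩ := key (⌈c ℚ⟮η⟯⌉₊ : ℝ) (by
        have h2 : 1 ≤ ⌈c ℚ⟮η⟯⌉₊ := Nat.one_le_ceil_iff.2 (by have := hc1 ℚ⟮η⟯; linarith)
        exact_mod_cast h2) (h1.trans (by
        have h3 := hc1 ℚ⟮η⟯
        apply pow_le_pow_left₀ (by positivity)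
        apply mul_le_mul_of_nonneg_right (Nat.le_ceil _) (by linarith)))
    rw [hcastw] at hx hy
    rw [hE, ← hddef]
    constructor
    · have : ((x.natAbs : ℕ) : ℝ) ≤ (((⌈c ℚ⟮η⟯⌉₊ * ((d + 1) * len F)) ^ kE d : ℕ) : ℝ) := by
        rw [Nat.cast_natAbs, Int.cast_abs]; push_cast at hx ⊢; exact hx
      exact_mod_cast this
    · have : ((y.natAbs : ℕ) : ℝ) ≤ (((⌈c ℚ⟮η⟯⌉₊ * ((d + 1) * len F)) ^ kE d : ℕ) : ℝ) := by
        rw [Nat.cast_natAbs, Int.cast_abs]; push_cast at hy ⊢; exact hy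
      exact_mod_cast this

end Pool.Agent.H322R2
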