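import Pool.Agent.H322R2.AMon
import Pool.Agent.H322R2.Final1

/-!
The bound for integer points on plane curves, with an effective constant for a class of fields.
-/

open Polynomial Finset NumberField IntermediateField

namespace Pool.Agent.H322R2

theorem main1A {d : ℕ} (hd : 3 ≤ d) {c : ℝ} (hc1 : 1 ≤ c) {K : ℕ} (hK : 1 ≤ K)
    (F : MvPolynomial (Fin 2) ℤ) (hddef : d = F.totalDegree)
    (hirr : Irreducible (MvPolynomial.map (Int.castRingHom ℚ) F))
    (hsq : Squarefree (MvPolynomial.map (Int.castRingHom ℚ)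
        (MvPolynomial.homogeneousComponent d F)))
    (hS : ∀ t : ℝ, MvPolynomial.aeval ![1, t] (MvPolynomial.homogeneousComponent d F) = 0 →
      Module.finrank ℚ ℚ⟮t⟯ = d → EffB d K c ℚ⟮t⟯)
    (x y : ℤ) (hxy : MvPolynomial.eval ![x, y] F = 0) :
    |(x : ℝ)| ≤ (c * (((d + 1) * len F : ℕ) : ℝ)) ^ ((d ^ 2 + 1) * (eM d K + 1)) ∧
      |(y : ℝ)| ≤ (c * (((d + 1) * len F : ℕ) : ℝ)) ^ ((d ^ 2 + 1) * (eM d K + 1)) := by
  have hF0 : F ≠ 0 := by
    rintro rfl
    simp at hddef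
    omega
  obtain ⟨u, hu, hcu⟩ := exists_u F hF0
  have hcl : lc F u ≠ 0 := hcu
  obtain ⟨w, hw⟩ : ∃ w : ℝ, w = ((d : ℝ) + 1) * (len F : ℝ) := ⟨_, rfl⟩
  have hlen : (1 : ℝ) ≤ len F := by exact_mod_cast len_pos hF0
  have hd3 : (3 : ℝ) ≤ d := by exact_mod_cast hd
  have hw4 : 4 ≤ w := by rw [hw]; nlinarith
  obtain ⟨H2, hH2⟩ : ∃ H2 : ℝ, H2 = (len F : ℝ) * (1 + d) ^ d := ⟨_, rfl⟩
  have hH21 : 1 ≤ H2 := by
    rw [hH2]
    exact one_le_mul_of_one_le_of_one_le hlen (one_le_pow₀ (by linarith))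
  have hpn2 : pn (pn zn) (F2 F u) ≤ H2 := by
    refine (pn_toB_le u F).trans ?_
    rw [hH2, ← hddef]
    apply mul_le_mul_of_nonneg_left _ (by linarith)
    apply pow_le_pow_left₀ (by positivity)
    have : (u : ℝ) ≤ d := by rw [hddef]; exact_mod_cast hu
    linarith
  obtain ⟨H, hH⟩ : ∃ H : ℝ, H = H2 ^ d := ⟨_, rfl⟩
  have hH1 : 1 ≤ H := by rw [hH]; exact one_le_pow₀ hH21
  have hHw : H ≤ w ^ (d ^ 2) := by
    rw [hH, hH2, sq, pow_mul]
    apply pow_le_pow_left₀ (by positivity)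
    rw [hw, mul_pow, mul_comm, add_comm 1 (d : ℝ)]
    apply mul_le_mul_of_nonneg_left _ (by positivity)
    calc (len F : ℝ) = (len F : ℝ) ^ 1 := by rw [pow_one]
      _ ≤ _ := pow_le_pow_right₀ hlen (by omega)
  have hpnG : pn (pn zn) (GG F u) ≤ H := by
    rw [hH, hddef]
    exact pn_GG hcl hH21 hpn2 (by omega)
  obtain ⟨a, ha⟩ : ∃ a : ℤ, a = y - u * x := ⟨_, rfl⟩
  have hzero : ev a (lc F u * x) (GG F u) = 0 := by
    rw [ev_GG hcl (by omega)]
    have h1 := ev_toB (S := ℤ) x a (shE ℤ u F)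
    have h2 : MvPolynomial.eval₂ (Int.castRingHom ℤ) ![x, a] (shE ℤ u F)
        = MvPolynomial.eval ![x, a] (shE ℤ u F) := by
      rw [MvPolynomial.eval, MvPolynomial.coe_eval₂Hom]
      congr 1
    rw [h2, eval_shE] at h1
    have h3 : (![(![x, a] : Fin 2 → ℤ) 0, (![x, a] : Fin 2 → ℤ) 1 + u * (![x, a] : Fin 2 → ℤ) 0]
        : Fin 2 → ℤ) = ![x, y] := by
      ext i
      fin_cases i
      · simp
      · simp [ha]
    rw [h3, hxy] at h1
    rw [F2, h1, mul_zero]
  have hmain := monic_boundA hd hc1 hK (GG F u) (GG_monic hcl)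
    (by rw [GG_natDegree hcl, hddef]) (GG_prime hcl (by omega) hirr)
    (by rw [hddef]; exact GG_TD hcl) H hH1 hpnG
    (by rw [hddef]; exact nrm_GG hcl (by omega) (by rw [← hddef]; exact hsq))
    (by
      intro η hη hfin
      rw [hddef] at hη
      obtain ⟨t, ht, hE⟩ := slope_of_root hcl (by omega) η hη (by rw [hfin, hddef])
      rw [← hE]
      rw [← hE] at hfin
      exact hS t (by rw [hddef]; exact ht) hfin)
    a (lc F u * x) hzero
  have hbb := abs_b_le (GG_monic hcl) (GG_natDegree hcl) (GG_TD hcl) hH1 hpnG a (lc F u * x) hzero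
  have hlc1 : 1 ≤ |((lc F u : ℤ) : ℝ)| := by
    have : 1 ≤ |lc F u| := Int.one_le_abs hcl
    exact_mod_cast this
  have hxb : |(x : ℝ)| ≤ H * max 1 |(a : ℝ)| := by
    refine le_trans ?_ hbb
    push_cast
    rw [abs_mul]
    exact le_mul_of_one_le_left (abs_nonneg _) hlc1
  have h2H : 2 + H ≤ w ^ (d ^ 2 + 1) := by
    rw [pow_succ]
    nlinarith
  have hdH : (d + 1) * H ≤ w ^ (d ^ 2 + 1) := by
    rw [pow_succ, mul_comm]
    apply mul_le_mul hHw _ (by positivity) (by positivity)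
    rw [hw]
    exact le_mul_of_one_le_right (by linarith) hlen
  -- general conclusion
  have key : ∀ C : ℝ, 1 ≤ C → |(a : ℝ)| ≤ (C * (2 + H)) ^ (eM d K) →
      |(x : ℝ)| ≤ (C * w) ^ ((d ^ 2 + 1) * (eM d K + 1)) ∧
        |(y : ℝ)| ≤ (C * w) ^ ((d ^ 2 + 1) * (eM d K + 1)) := by
    intro C hC hab
    obtain ⟨M, hM⟩ : ∃ M, M = (C * (2 + H)) ^ (eM d K) := ⟨_, rfl⟩
    have hC2H : 1 ≤ C * (2 + H) := one_le_mul_of_one_le_of_one_le hC (by linarith)
    have hM1 : 1 ≤ M := by rw [hM]; exact one_le_pow₀ hC2H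
    rw [← hM] at hab
    have hmax : max 1 |(a : ℝ)| ≤ M := max_le hM1 hab
    have hx1 : |(x : ℝ)| ≤ H * M := hxb.trans (mul_le_mul_of_nonneg_left hmax (by linarith))
    have hy1 : |(y : ℝ)| ≤ (d + 1) * H * M := by
      have h1 : (y : ℝ) = a + u * x := by rw [ha]; push_cast; ring
      rw [h1]
      refine (abs_add_le _ _).trans ?_
      rw [abs_mul, Nat.abs_cast]
      have h2 : (u : ℝ) ≤ d := by rw [hddef]; exact_mod_cast hu
      have h3 : (u : ℝ) * |(x : ℝ)| ≤ d * (H * M) :=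
        mul_le_mul h2 hx1 (abs_nonneg _) (by linarith)
      have h4 : M ≤ H * M := le_mul_of_one_le_left (by linarith) hH1
      have h5 : ((d : ℝ) + 1) * H * M = H * M + d * (H * M) := by ring
      linarith
    have hCw : 1 ≤ C * w := one_le_mul_of_one_le_of_one_le hC (by linarith)
    have hMb : M ≤ (C * w) ^ ((d ^ 2 + 1) * eM d K) := by
      rw [hM, pow_mul]
      apply pow_le_pow_left₀ (by linarith)
      rw [mul_pow]
      apply mul_le_mul _ h2H (by linarith) (by positivity)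
      calc C = C ^ 1 := by rw [pow_one]
        _ ≤ _ := pow_le_pow_right₀ hC (by omega)
    have hb2 : (d + 1) * H ≤ (C * w) ^ (d ^ 2 + 1) := by
      refine hdH.trans ?_
      apply pow_le_pow_left₀ (by linarith)
      exact le_mul_of_one_le_left (by linarith) hC
    have hfin : (d + 1) * H * M ≤ (C * w) ^ ((d ^ 2 + 1) * (eM d K + 1)) := by
      calc (d + 1) * H * M ≤ (C * w) ^ (d ^ 2 + 1) * (C * w) ^ ((d ^ 2 + 1) * eM d K) :=
            mul_le_mul hb2 hMb (by linarith) (by positivity)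
        _ = (C * w) ^ ((d ^ 2 + 1) * (eM d K + 1)) := by rw [← pow_add]; congr 1; ring
    refine ⟨hx1.trans (le_trans ?_ hfin), hy1.trans hfin⟩
    apply mul_le_mul_of_nonneg_right _ (by linarith)
    nlinarith
  have hcastw : w = (((d + 1) * len F : ℕ) : ℝ) := by rw [hw]; push_cast; ring
  have hres := key c hc1 hmain
  rw [hcastw] at hres
  exact hres

end Pool.Agent.H322R2
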