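import Pool.Agent.H322R2.AFin

/-!
Explicit bounds for all plane curves whose slopes generate `ℚ(P(a)^(1/d))`.
-/

open Polynomial Finset NumberField IntermediateField

namespace Pool.Agent.H322R2

lemma effB_pure {d : ℕ} (hd : 3 ≤ d) {P g : ℤ[X]} (hm : P.Monic) (hPd : P.natDegree = d)
    (hg : Irreducible g) (hgP : g ∣ P) (hg2 : ¬ g ^ 2 ∣ P) {h : ℝ} (hh : 1 ≤ h)
    (hP : pn zn P ≤ h) (a m : ℤ) (ha0 : 0 < a) (ha : cA d h ^ kapA d (d ^ 2) ≤ (a : ℝ))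
    (hPa : P.eval a = m) (μ : ℝ) (hμ0 : 0 < μ) (hμ : μ ^ d = (m : ℝ)) :
    EffB d (kapA d (d ^ 2)) ((a : ℝ) ^ (4 * d ^ 3)) ℚ⟮μ⟯ := by
  intro hnf hfin G H α x y Q
  have hd0 : 0 < d := by omega
  obtain ⟨γ, hγ⟩ : ∃ γ : ℚ⟮μ⟯, γ = AdjoinSimple.gen ℚ μ := ⟨_, rfl⟩
  have hγμ : algebraMap ℚ⟮μ⟯ ℝ γ = μ := by rw [hγ]; exact AdjoinSimple.algebraMap_gen ℚ μ
  have hmpos : (0 : ℝ) < m := by rw [← hμ]; positivity
  have hγd : γ ^ d = (m : ℚ⟮μ⟯) := by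
    apply (algebraMap ℚ⟮μ⟯ ℝ).injective
    rw [map_pow, hγμ, hμ, map_intCast]
  have hmL : (m : ℚ⟮μ⟯) ≠ 0 := by
    intro h0
    have h1 := congrArg (algebraMap ℚ⟮μ⟯ ℝ) h0
    rw [map_intCast, map_zero] at h1
    exact hmpos.ne' h1
  have hint : IsIntegral ℚ μ := by
    refine ⟨X ^ d - C (m : ℚ), monic_X_pow_sub_C _ (by omega), ?_⟩
    rw [eval₂_sub, eval₂_pow, eval₂_X, eval₂_C, hμ]
    simp
  have htop : Algebra.adjoin ℚ {γ} = ⊤ := by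
    have h1 := (IntermediateField.adjoin.powerBasis hint).adjoin_gen_eq_top
    rw [IntermediateField.adjoin.powerBasis_gen] at h1
    rw [hγ]
    exact h1
  have hgen : Algebra.adjoin ℚ {γ ^ (d - 1)} = ⊤ := by
    rw [_root_.eq_top_iff, ← htop]
    apply Algebra.adjoin_le
    rw [Set.singleton_subset_iff]
    have h1 : γ = ((m : ℚ) ^ (d - 2))⁻¹ • (γ ^ (d - 1)) ^ (d - 1) := by
      have e1 : (γ ^ (d - 1)) ^ (d - 1) = (m : ℚ⟮μ⟯) ^ (d - 2) * γ := by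
        rw [← hγd, ← pow_mul, ← pow_mul, ← pow_succ]
        congr 1
        obtain ⟨e, rfl⟩ : ∃ e, d = e + 2 := ⟨d - 2, by omega⟩
        have e2 : e + 2 - 1 = e + 1 := by omega
        have e3 : e + 2 - 2 = e := by omega
        rw [e2, e3]
        ring
      rw [e1, Algebra.smul_def, map_inv₀, map_pow, map_intCast, ← mul_assoc,
        inv_mul_cancel₀ (pow_ne_zero _ hmL), one_mul]
    have h2 : ((m : ℚ) ^ (d - 2))⁻¹ • (γ ^ (d - 1)) ^ (d - 1) ∈ Algebra.adjoin ℚ {γ ^ (d - 1)} :=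
      Subalgebra.smul_mem _ (Subalgebra.pow_mem _ (Algebra.self_mem_adjoin_singleton ℚ _) _) _
    rw [← h1] at h2
    exact h2
  refine anchor_field hd hm hPd hg hgP hg2 hh hP a m ha0 ha hPa ℚ⟮μ⟯ (algebraMap ℚ⟮μ⟯ ℝ) hfin
    (γ ^ (d - 1)) ?_ ?_ hgen G H α x y Q
  · rw [← hγd, ← pow_mul, ← pow_mul, mul_comm]
  · rw [map_pow, hγμ]
    positivity

lemma finrank_le_of_pow {d : ℕ} (hd : 0 < d) {μ : ℝ} {m : ℤ} (hμ : μ ^ d = (m : ℝ)) :
    FiniteDimensional ℚ ℚ⟮μ⟯ ∧ Module.finrank ℚ ℚ⟮μ⟯ ≤ d := by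
  have hmon : (X ^ d - C (m : ℚ)).Monic := monic_X_pow_sub_C _ (by omega)
  have hev : aeval μ (X ^ d - C (m : ℚ)) = 0 := by
    rw [map_sub, map_pow, aeval_X, aeval_C, hμ]
    simp
  have hint : IsIntegral ℚ μ := ⟨_, hmon, hev⟩
  refine ⟨IntermediateField.adjoin.finiteDimensional hint, ?_⟩
  rw [IntermediateField.adjoin.finrank hint]
  have h1 := minpoly.min ℚ μ hmon hev
  have h2 := natDegree_le_natDegree h1
  rwa [natDegree_X_pow_sub_C] at h2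

/-- threshold -/
def thrA (d h : ℕ) : ℕ := ((2 * d ^ 3) ^ (d + 1) * (1 + h)) ^ (10 ^ 7 * 36 ^ d * (d + 1) ^ 5)

lemma thrA_ge {d h : ℕ} (hd : 3 ≤ d) : cA d h ^ kapA d (d ^ 2) ≤ (thrA d h : ℝ) := by
  obtain ⟨T, hT⟩ : ∃ T : ℝ, T = ((2 * d ^ 3) ^ (d + 1) * (1 + h) : ℕ) := ⟨_, rfl⟩
  have h1 : cA d h ≤ T ^ 2 := by
    unfold cA tA
    have e1 : T = 2 * ((d : ℝ) ^ (3 * (d + 1)) * ((1 + h) * 2 ^ d)) := by
      rw [hT]
      push_cast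
      rw [mul_pow, pow_succ (2 : ℝ) d, ← pow_mul]
      ring
    rw [e1]
    nlinarith
  have hT1 : 1 ≤ T := by
    rw [hT]
    have : 0 < (2 * d ^ 3) ^ (d + 1) * (1 + h) := by positivity
    exact_mod_cast this
  have h0 : 0 ≤ cA d h := by unfold cA; positivity
  calc cA d h ^ kapA d (d ^ 2) ≤ (T ^ 2) ^ kapA d (d ^ 2) := pow_le_pow_left₀ h0 h1 _
    _ = T ^ (2 * kapA d (d ^ 2)) := by rw [pow_mul]
    _ ≤ T ^ (10 ^ 7 * 36 ^ d * (d + 1) ^ 5) := by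
      apply pow_le_pow_right₀ hT1
      unfold kapA
      have e1 : d ^ 2 + 1 ≤ (d + 1) ^ 2 := by nlinarith
      calc 2 * (10 ^ 6 * 36 ^ d * (d + 1) ^ 3 * (d ^ 2 + 1))
          ≤ 2 * (10 ^ 6 * 36 ^ d * (d + 1) ^ 3 * (d + 1) ^ 2) := by gcongr
        _ = 2 * 10 ^ 6 * (36 ^ d * (d + 1) ^ 5) := by ring
        _ ≤ 10 ^ 7 * (36 ^ d * (d + 1) ^ 5) := Nat.mul_le_mul_right _ (by norm_num)
        _ = _ := by ring
    _ = _ := by
      rw [hT]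
      unfold thrA
      push_cast
      ring

/-- final exponent -/
def kF (d : ℕ) : ℕ := 10 ^ 11 * 36 ^ d * (d + 1) ^ 17

lemma kF_ge {d : ℕ} (hd : 3 ≤ d) :
    4 * d ^ 3 * ((d ^ 2 + 1) * (eM d (kapA d (d ^ 2)) + 1)) ≤ kF d := by
  obtain ⟨E, hE⟩ : ∃ E, E = eM d (kapA d (d ^ 2)) := ⟨_, rfl⟩
  have h1 : 1 ≤ E := by
    rw [hE]
    unfold eM
    have := two_le_kapA d (d ^ 2)
    have h2 : 1 ≤ (d + 1) ^ 7 := Nat.one_le_pow _ _ (by omega)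
    calc 1 ≤ 10 ^ 4 * 1 * 1 := by norm_num
      _ ≤ _ := Nat.mul_le_mul (Nat.mul_le_mul_left _ h2) (by omega)
  have h2 : d ^ 2 + 1 ≤ (d + 1) ^ 2 := by nlinarith
  have h3 : E ≤ 10 ^ 10 * 36 ^ d * (d + 1) ^ 12 := by
    rw [hE]
    unfold eM kapA
    calc 10 ^ 4 * (d + 1) ^ 7 * (10 ^ 6 * 36 ^ d * (d + 1) ^ 3 * (d ^ 2 + 1))
        ≤ 10 ^ 4 * (d + 1) ^ 7 * (10 ^ 6 * 36 ^ d * (d + 1) ^ 3 * (d + 1) ^ 2) := by gcongr
      _ = _ := by ring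
  rw [← hE]
  have h4 : d ^ 3 ≤ (d + 1) ^ 3 := Nat.pow_le_pow_left (by omega) _
  unfold kF
  calc 4 * d ^ 3 * ((d ^ 2 + 1) * (E + 1)) ≤ 4 * (d + 1) ^ 3 * ((d + 1) ^ 2 * (2 * E)) := by
        gcongr
        omega
    _ ≤ 4 * (d + 1) ^ 3 * ((d + 1) ^ 2 * (2 * (10 ^ 10 * 36 ^ d * (d + 1) ^ 12))) := by gcongr
    _ = 8 * 10 ^ 10 * (36 ^ d * (d + 1) ^ 17) := by ring
    _ ≤ 10 ^ 11 * (36 ^ d * (d + 1) ^ 17) := Nat.mul_le_mul_right _ (by norm_num)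
    _ = _ := by ring

/-- Explicit bound for all plane curves of degree `d` whose real slopes of degree `d` lie in
`ℚ(P(a)^(1/d))`. -/
theorem main_pure {d : ℕ} (hd : 3 ≤ d) {P g : ℤ[X]} (hm : P.Monic) (hPd : P.natDegree = d)
    (hg : Irreducible g) (hgP : g ∣ P) (hg2 : ¬ g ^ 2 ∣ P) (a : ℕ)
    (ha : thrA d (∑ i ∈ P.support, (P.coeff i).natAbs) ≤ a)
    (μ : ℝ) (hμ0 : 0 < μ) (hμ : μ ^ d = ((P.eval (a : ℤ) : ℤ) : ℝ))
    (F : MvPolynomial (Fin 2) ℤ) (hFd : F.totalDegree = d)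
    (hirr : Irreducible (MvPolynomial.map (Int.castRingHom ℚ) F))
    (hsq : Squarefree (MvPolynomial.map (Int.castRingHom ℚ)
        (MvPolynomial.homogeneousComponent d F)))
    (hS : ∀ t : ℝ, MvPolynomial.aeval ![1, t] (MvPolynomial.homogeneousComponent d F) = 0 →
      Module.finrank ℚ ℚ⟮t⟯ = d → t ∈ ℚ⟮μ⟯)
    (x y : ℤ) (hxy : MvPolynomial.eval ![x, y] F = 0) :
    x.natAbs ≤ (a * ((d + 1) * len F)) ^ kF d ∧ y.natAbs ≤ (a * ((d + 1) * len F)) ^ kF d := by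
  have hd0 : 0 < d := by omega
  obtain ⟨h, hh⟩ : ∃ h, h = ∑ i ∈ P.support, (P.coeff i).natAbs := ⟨_, rfl⟩
  rw [← hh] at ha
  have hP : pn zn P ≤ h := by
    rw [pn_apply, hh]
    push_cast
    apply Finset.sum_le_sum
    intro i _
    rw [zn_apply, Nat.cast_natAbs, Int.cast_abs]
  have hh1 : 1 ≤ h := by
    rw [hh]
    have h1 : (P.coeff d).natAbs ≤ ∑ i ∈ P.support, (P.coeff i).natAbs := by
      apply Finset.single_le_sum (f := fun i => (P.coeff i).natAbs) (fun _ _ => Nat.zero_le _)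
      rw [mem_support_iff, ← hPd]
      exact leadingCoeff_ne_zero.2 hm.ne_zero
    have h2 : P.coeff d = 1 := by rw [← hPd]; exact hm
    rw [h2] at h1
    exact h1
  have hthr : cA d h ^ kapA d (d ^ 2) ≤ (a : ℝ) :=
    (thrA_ge hd).trans (by exact_mod_cast ha)
  have ha1 : 0 < a := by
    refine lt_of_lt_of_le ?_ ha
    unfold thrA
    positivity
  have haR : (1 : ℝ) ≤ a := by exact_mod_cast ha1
  have heff := effB_pure hd hm hPd hg hgP hg2 (h := (h : ℝ)) (by exact_mod_cast hh1) hP (a : ℤ)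
    (P.eval (a : ℤ)) (by exact_mod_cast ha1) (by push_cast; exact hthr) rfl μ hμ0 hμ
  obtain ⟨hfd, hfr⟩ := finrank_le_of_pow hd0 hμ
  have hlen : 1 ≤ len F := by
    apply len_pos
    rintro rfl
    simp at hFd
    omega
  have hmain := main1A hd (c := (a : ℝ) ^ (4 * d ^ 3)) (one_le_pow₀ haR)
    (K := kapA d (d ^ 2)) (by have := two_le_kapA d (d ^ 2); omega) F hFd.symm hirr hsq (by
      intro t ht hfin
      have h1 : ℚ⟮t⟯ ≤ ℚ⟮μ⟯ := adjoin_simple_le_iff.2 (hS t ht hfin)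
      have h2 : ℚ⟮t⟯ = ℚ⟮μ⟯ := IntermediateField.eq_of_le_of_finrank_le h1 (by rw [hfin]; exact hfr)
      rw [h2]
      have := heff
      push_cast at this
      exact this) x y hxy
  have key : ((a : ℝ) ^ (4 * d ^ 3) * (((d + 1) * len F : ℕ) : ℝ)) ^
      ((d ^ 2 + 1) * (eM d (kapA d (d ^ 2)) + 1)) ≤ (((a * ((d + 1) * len F)) ^ kF d : ℕ) : ℝ) := by
    obtain ⟨w, hw⟩ : ∃ w : ℝ, w = (((d + 1) * len F : ℕ) : ℝ) := ⟨_, rfl⟩
    have hw1 : 1 ≤ w := by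
      rw [hw]
      have : 0 < (d + 1) * len F := by positivity
      exact_mod_cast this
    have e1 : (((a * ((d + 1) * len F)) ^ kF d : ℕ) : ℝ) = (a * w) ^ kF d := by
      rw [hw]; push_cast; ring
    rw [e1, ← hw]
    have haw : 1 ≤ (a : ℝ) * w := one_le_mul_of_one_le_of_one_le haR hw1
    refine le_trans ?_ (pow_le_pow_right₀ haw (kF_ge hd))
    rw [pow_mul ((a : ℝ) * w) (4 * d ^ 3)]
    apply pow_le_pow_left₀ (by positivity)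
    rw [mul_pow]
    apply mul_le_mul_of_nonneg_left _ (by positivity)
    calc w = w ^ 1 := by rw [pow_one]
      _ ≤ _ := pow_le_pow_right₀ hw1 (by
        have : 0 < d ^ 3 := by positivity
        omega)
  constructor
  · have h3 : ((x.natAbs : ℕ) : ℝ) ≤ (((a * ((d + 1) * len F)) ^ kF d : ℕ) : ℝ) := by
      rw [Nat.cast_natAbs, Int.cast_abs]
      exact hmain.1.trans key
    exact_mod_cast h3
  · have h3 : ((y.natAbs : ℕ) : ℝ) ≤ (((a * ((d + 1) * len F)) ^ kF d : ℕ) : ℝ) := by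
      rw [Nat.cast_natAbs, Int.cast_abs]
      exact hmain.2.trans key
    exact_mod_cast h3

end Pool.Agent.H322R2
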