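import Pool.Agent.H322R2.Final1

/-!
Computability of the bound on coefficient lists.
-/

open Finset IntermediateField

namespace Pool.Agent.H322R2

lemma natAbs_primrec : Primrec Int.natAbs := by
  have h1 : Primrec (fun z : ℤ => (Encodable.encode z + 1) / 2) :=
    Primrec.nat_div.comp (Primrec.succ.comp Primrec.encode) (Primrec.const 2)
  refine h1.of_eq ?_
  intro z
  have h2 : Encodable.encode z = Equiv.intEquivNat z := rfl
  rw [h2]
  rcases z with n | n
  · have h3 : Equiv.intEquivNat (Int.ofNat n) = 2 * n := rfl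
    rw [h3, Int.natAbs_ofNat']
    omega
  · have h3 : Equiv.intEquivNat (Int.negSucc n) = 2 * n + 1 := rfl
    rw [h3, Int.natAbs_negSucc]
    omega

lemma pow_primrec : Primrec₂ (fun a b : ℕ => a ^ b) := by
  have h : Primrec₂ (fun (a b : ℕ) => Nat.rec (motive := fun _ => ℕ) 1 (fun _ ih => ih * a) b) := by
    exact Primrec.nat_rec (f := fun _ : ℕ => (1 : ℕ)) (g := fun (a : ℕ) (p : ℕ × ℕ) => p.2 * a)
      (Primrec.const 1) (Primrec.nat_mul.comp (Primrec.snd.comp Primrec.snd) Primrec.fst)
  refine h.of_eq ?_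
  intro a b
  induction b with
  | zero => rfl
  | succ n ih => rw [pow_succ, ← ih]

lemma sum_primrec {f : ℕ × ℕ × ℤ → ℕ} (hf : Primrec f) :
    Primrec (fun L : List (ℕ × ℕ × ℤ) => (L.map f).sum) := by
  have h : Primrec (fun L : List (ℕ × ℕ × ℤ) => L.foldr (fun t s => f t + s) 0) := by
    apply Primrec.list_foldr (h := fun (_ : List (ℕ × ℕ × ℤ)) (p : (ℕ × ℕ × ℤ) × ℕ) => f p.1 + p.2)
      Primrec.id (Primrec.const 0)
    exact Primrec.nat_add.comp (hf.comp (Primrec.fst.comp Primrec.snd))
      (Primrec.snd.comp Primrec.snd)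
  refine h.of_eq ?_
  intro L
  induction L with
  | nil => rfl
  | cons a L ih => simp [ih]

/-- degree bound of a coefficient list -/
def dL (L : List (ℕ × ℕ × ℤ)) : ℕ := (L.map (fun t => t.1 + t.2.1)).sum

/-- length of a coefficient list -/
def sL (L : List (ℕ × ℕ × ℤ)) : ℕ := (L.map (fun t => t.2.2.natAbs)).sum

/-- the bound -/
def bL (c : ℕ) (L : List (ℕ × ℕ × ℤ)) : ℕ := (c * ((dL L + 1) * sL L)) ^ (kE (dL L))

lemma kE_primrec : Primrec kE := by
  unfold kE
  have h1 : Primrec (fun d : ℕ => 36 ^ d) := pow_primrec.comp (Primrec.const 36) Primrec.id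
  have h2 : Primrec (fun d : ℕ => (d + 1) ^ 13) :=
    pow_primrec.comp Primrec.succ (Primrec.const 13)
  exact Primrec.nat_mul.comp (Primrec.nat_mul.comp (Primrec.const (10 ^ 11)) h1) h2

lemma bL_computable (c : ℕ) : Computable (bL c) := by
  apply Primrec.to_comp
  have hd : Primrec dL := by
    apply sum_primrec
    exact Primrec.nat_add.comp Primrec.fst (Primrec.fst.comp Primrec.snd)
  have hs : Primrec sL := by
    apply sum_primrec
    exact natAbs_primrec.comp (Primrec.snd.comp Primrec.snd)
  exact pow_primrec.comp (Primrec.nat_mul.comp (Primrec.const c)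
    (Primrec.nat_mul.comp (Primrec.succ.comp hd) hs)) (kE_primrec.comp hd)

/-- the polynomial of a coefficient list -/
noncomputable def polyL (L : List (ℕ × ℕ × ℤ)) : MvPolynomial (Fin 2) ℤ :=
  (L.map (fun t => MvPolynomial.monomial (Finsupp.single 0 t.1 + Finsupp.single 1 t.2.1) t.2.2)).sum

lemma totalDegree_polyL (L : List (ℕ × ℕ × ℤ)) : (polyL L).totalDegree ≤ dL L := by
  induction L with
  | nil => simp [polyL, dL]
  | cons t L ih =>
    have e1 : polyL (t :: L) = MvPolynomial.monomial
      (Finsupp.single 0 t.1 + Finsupp.single 1 t.2.1) t.2.2 + polyL L := by simp [polyL]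
    have e2 : dL (t :: L) = t.1 + t.2.1 + dL L := by simp [dL]
    rw [e1, e2]
    refine (MvPolynomial.totalDegree_add _ _).trans ?_
    apply max_le
    · refine (MvPolynomial.totalDegree_monomial_le _ _).trans ?_
      have h1 : ((Finsupp.single (0 : Fin 2) t.1 + Finsupp.single 1 t.2.1).sum fun _ => id)
          = t.1 + t.2.1 := by
        have := degree_fin2 (Finsupp.single (0 : Fin 2) t.1 + Finsupp.single 1 t.2.1)
        simp only [Finsupp.add_apply, Finsupp.single_apply] at this
        simp only [Fin.isValue, one_ne_zero, if_false, if_true, zero_ne_one, add_zero,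
          zero_add] at this
        exact this
      rw [h1]; omega
    · omega

lemma len_eq {F : MvPolynomial (Fin 2) ℤ} {s : Finset (Fin 2 →₀ ℕ)} (h : F.support ⊆ s) :
    len F = ∑ m ∈ s, (F.coeff m).natAbs := by
  unfold len
  apply Finset.sum_subset h
  intro m _ hm
  rw [MvPolynomial.notMem_support_iff.1 hm]; rfl

lemma len_add_le (F G : MvPolynomial (Fin 2) ℤ) : len (F + G) ≤ len F + len G := by
  classical
  have h1 : (F + G).support ⊆ F.support ∪ G.support := MvPolynomial.support_add
  rw [len_eq h1, len_eq (F := F) (s := F.support ∪ G.support) Finset.subset_union_left,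
    len_eq (F := G) (s := F.support ∪ G.support) Finset.subset_union_right,
    ← Finset.sum_add_distrib]
  apply Finset.sum_le_sum
  intro m _
  rw [MvPolynomial.coeff_add]
  exact Int.natAbs_add_le _ _

lemma len_polyL (L : List (ℕ × ℕ × ℤ)) : len (polyL L) ≤ sL L := by
  classical
  induction L with
  | nil => simp [polyL, sL, len]
  | cons t L ih =>
    have e1 : polyL (t :: L) = MvPolynomial.monomial
      (Finsupp.single 0 t.1 + Finsupp.single 1 t.2.1) t.2.2 + polyL L := by simp [polyL]
    have e2 : sL (t :: L) = t.2.2.natAbs + sL L := by simp [sL]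
    rw [e1, e2]
    refine (len_add_le _ _).trans (add_le_add ?_ ih)
    rw [len_eq (F := MvPolynomial.monomial _ _) (MvPolynomial.support_monomial_subset)]
    simp

lemma eval_polyL (L : List (ℕ × ℕ × ℤ)) (x y : ℤ) :
    MvPolynomial.eval ![x, y] (polyL L)
      = (L.map (fun t => t.2.2 * x ^ t.1 * y ^ t.2.1)).sum := by
  induction L with
  | nil => simp [polyL]
  | cons t L ih =>
    have e1 : polyL (t :: L) = MvPolynomial.monomial
      (Finsupp.single 0 t.1 + Finsupp.single 1 t.2.1) t.2.2 + polyL L := by simp [polyL]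
    rw [e1, map_add, ih, List.map_cons, List.sum_cons, MvPolynomial.eval_monomial,
      Finsupp.prod_fintype _ _ (by simp), Fin.prod_univ_two]
    simp [mul_assoc]

/-- boundedness of the constants over the subfields of a number field -/
lemma exists_cK (c : IntermediateField ℚ ℝ → ℕ) (K : IntermediateField ℚ ℝ)
    (hK : FiniteDimensional ℚ K) : ∃ C : ℕ, ∀ L : IntermediateField ℚ ℝ, L ≤ K → c L ≤ C := by
  have : Finite (IntermediateField ℚ K) :=
    Field.finite_intermediateField_of_exists_primitive_element ℚ K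
      (Field.exists_primitive_element ℚ K)
  obtain ⟨C, hC⟩ := (Set.finite_range
    (fun M : IntermediateField ℚ K => c (IntermediateField.lift M))).bddAbove
  refine ⟨C, ?_⟩
  intro L hL
  have h1 : IntermediateField.lift (IntermediateField.restrict hL) = L :=
    IntermediateField.lift_restrict hL
  have h2 := hC ⟨IntermediateField.restrict hL, rfl⟩
  simp only [h1] at h2
  exact h2

theorem main2 (c : IntermediateField ℚ ℝ → ℕ) (hc1 : ∀ L, 1 ≤ c L)
    (hc : ∀ F : MvPolynomial (Fin 2) ℤ,
      Irreducible (MvPolynomial.map (Int.castRingHom ℚ) F) → 3 ≤ F.totalDegree →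
      Squarefree (MvPolynomial.map (Int.castRingHom ℚ)
        (MvPolynomial.homogeneousComponent F.totalDegree F)) →
      ∀ x y : ℤ, MvPolynomial.eval ![x, y] F = 0 →
        (x.natAbs ≤ ((F.totalDegree + 1) * len F) ^ (kE F.totalDegree) ∧
          y.natAbs ≤ ((F.totalDegree + 1) * len F) ^ (kE F.totalDegree)) ∨
        ∃ t : ℝ, MvPolynomial.aeval ![1, t]
            (MvPolynomial.homogeneousComponent F.totalDegree F) = 0 ∧
          Module.finrank ℚ ℚ⟮t⟯ = F.totalDegree ∧
          x.natAbs ≤ (c ℚ⟮t⟯ * ((F.totalDegree + 1) * len F)) ^ (kE F.totalDegree) ∧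
          y.natAbs ≤ (c ℚ⟮t⟯ * ((F.totalDegree + 1) * len F)) ^ (kE F.totalDegree))
    (K : IntermediateField ℚ ℝ) (hK : FiniteDimensional ℚ K) :
    ∃ B : List (ℕ × ℕ × ℤ) → ℕ, Computable B ∧ ∀ L : List (ℕ × ℕ × ℤ),
      Irreducible (MvPolynomial.map (Int.castRingHom ℚ) (polyL L)) → 3 ≤ (polyL L).totalDegree →
      Squarefree (MvPolynomial.map (Int.castRingHom ℚ)
        (MvPolynomial.homogeneousComponent (polyL L).totalDegree (polyL L))) →
      (∀ t : ℝ, MvPolynomial.aeval ![1, t]
        (MvPolynomial.homogeneousComponent (polyL L).totalDegree (polyL L)) = 0 → t ∈ K) →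
      ∀ x y : ℤ, (L.map (fun t => t.2.2 * x ^ t.1 * y ^ t.2.1)).sum = 0 →
        x.natAbs ≤ B L ∧ y.natAbs ≤ B L := by
  obtain ⟨C, hC⟩ := exists_cK c K hK
  refine ⟨bL C, bL_computable C, ?_⟩
  intro L hirr hd hsq hslope x y hxy
  rw [← eval_polyL] at hxy
  have hF0 : polyL L ≠ 0 := by
    intro h0
    rw [h0] at hd
    simp at hd
  have hlen := len_pos hF0
  have hCpos : 1 ≤ C := (hc1 ⊥).trans (hC ⊥ bot_le)
  have hdl := totalDegree_polyL L
  have hsl := len_polyL L
  have hkE : kE (polyL L).totalDegree ≤ kE (dL L) := by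
    unfold kE
    apply Nat.mul_le_mul
    · exact Nat.mul_le_mul_left _ (Nat.pow_le_pow_right (by norm_num) hdl)
    · exact Nat.pow_le_pow_left (by omega) _
  have hmono : ∀ e : ℕ, e ≤ C → (e * (((polyL L).totalDegree + 1) * len (polyL L)))
      ^ (kE (polyL L).totalDegree) ≤ bL C L := by
    intro e he
    unfold bL
    have h1 : e * (((polyL L).totalDegree + 1) * len (polyL L)) ≤ C * ((dL L + 1) * sL L) :=
      Nat.mul_le_mul he (Nat.mul_le_mul (by omega) hsl)
    refine (Nat.pow_le_pow_left h1 _).trans (Nat.pow_le_pow_right ?_ hkE)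
    have : 1 ≤ sL L := hlen.trans hsl
    exact Nat.mul_pos hCpos (Nat.mul_pos (by omega) this)
  rcases hc (polyL L) hirr hd hsq x y hxy with ⟨h1, h2⟩ | ⟨t, ht, _, h1, h2⟩
  · have h3 := hmono 1 hCpos
    rw [one_mul] at h3
    exact ⟨h1.trans h3, h2.trans h3⟩
  · have h3 := hmono (c ℚ⟮t⟯) (hC _ (by
      rw [adjoin_simple_le_iff]
      exact hslope t ht))
    exact ⟨h1.trans h3, h2.trans h3⟩

end Pool.Agent.H322R2
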