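import Pool.Agent.H322R2.Swp

/-!
Irreducibility, total degree and length of the multivariate polynomial attached to a vector.
-/

open Polynomial Finset

namespace Pool.Agent.H322R2

lemma homogenize_irr {p : ℚ[X]} {d : ℕ} (hd : p.natDegree = d) (hp : Irreducible p) :
    Irreducible (homogenize p d) := by
  have hp0 : p ≠ 0 := hp.ne_zero
  have hev : MvPolynomial.aeval ![(X : ℚ[X]), 1] (homogenize p d) = p :=
    aeval_homogenize_X_one _ hd.le
  have hH0 : homogenize p d ≠ 0 := by
    intro h0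
    rw [h0, map_zero] at hev
    exact hp0 hev.symm
  have hHd : (homogenize p d).totalDegree ≤ d :=
    (isHomogeneous_homogenize (p := p)).totalDegree_le
  constructor
  · intro hu
    apply hp.not_isUnit
    have := hu.map (MvPolynomial.aeval ![(X : ℚ[X]), 1] : MvPolynomial (Fin 2) ℚ →ₐ[ℚ] ℚ[X])
    rwa [hev] at this
  · intro A B hAB
    have hA : A ≠ 0 := by rintro rfl; rw [zero_mul] at hAB; exact hH0 hAB
    have hB : B ≠ 0 := by rintro rfl; rw [mul_zero] at hAB; exact hH0 hAB
    have h1 := MvPolynomial.totalDegree_mul_of_isDomain hA hB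
    rw [← hAB] at h1
    have h2 : p = MvPolynomial.aeval ![(X : ℚ[X]), 1] A * MvPolynomial.aeval ![(X : ℚ[X]), 1] B := by
      rw [← map_mul, ← hAB, hev]
    have hdg : ∀ Q : MvPolynomial (Fin 2) ℚ,
        (MvPolynomial.aeval ![(X : ℚ[X]), 1] Q).natDegree ≤ Q.totalDegree := by
      intro Q
      have := MvPolynomial.aeval_natDegree_le (n := 1) Q le_rfl ![(X : ℚ[X]), 1] (by
        intro i; fin_cases i <;> simp)
      rwa [mul_one] at this
    have key : ∀ A B : MvPolynomial (Fin 2) ℚ, A ≠ 0 → p = MvPolynomial.aeval ![(X : ℚ[X]), 1] A *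
        MvPolynomial.aeval ![(X : ℚ[X]), 1] B → A.totalDegree + B.totalDegree ≤ d →
        IsUnit (MvPolynomial.aeval ![(X : ℚ[X]), 1] A) → IsUnit A := by
      intro A B hA h2 h3 hu
      apply isUnit_of_totalDegree_zero hA
      have h4 := natDegree_eq_zero_of_isUnit hu
      have h5 : p.natDegree ≤ (MvPolynomial.aeval ![(X : ℚ[X]), 1] A).natDegree +
          (MvPolynomial.aeval ![(X : ℚ[X]), 1] B).natDegree := by
        conv_lhs => rw [h2]
        exact natDegree_mul_le
      have h6 := hdg B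
      omega
    rcases hp.isUnit_or_isUnit h2 with h3 | h3
    · left; exact key A B hA h2 (by omega) h3
    · right; exact key B A hB (by rw [h2, mul_comm]) (by omega) h3

variable {d : ℕ}

lemma coeff_FM (c : ↥(Ix d) → ℤ) (m : Fin 2 →₀ ℕ) : (FM c).coeff m = cf c (m 0) (m 1) := by
  rw [← coeff_PG, ← toB_FM, coeff_toB]

lemma cf_of_lt (c : ↥(Ix d) → ℤ) {j i : ℕ} (h : d < j + i) : cf c j i = 0 := by
  rw [cf, dif_neg]
  rw [mem_Ix]
  simp only
  omega

lemma totalDegree_FM_le (c : ↥(Ix d) → ℤ) : (FM c).totalDegree ≤ d := by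
  apply Finset.sup_le
  intro m hm
  by_contra hcon
  push_neg at hcon
  rw [MvPolynomial.mem_support_iff, coeff_FM] at hm
  apply hm
  apply cf_of_lt
  have h1 : (m.sum fun _ e => e) = m.degree := rfl
  rw [h1, degree_fin2] at hcon
  exact hcon

lemma coeff_ff (c : ↥(Ix d) → ℤ) (j : ℕ) : (ff c).coeff j = cf c j (d - j) := by
  rw [ff, coeff_lead]
  split_ifs with h
  · rw [coeff_PG]
  · rw [cf_of_lt]
    omega

lemma totalDegree_FM {c : ↥(Ix d) → ℤ} (hd : 1 ≤ d) (h : (ff c).natDegree = d) :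
    (FM c).totalDegree = d := by
  apply le_antisymm (totalDegree_FM_le c)
  have h0 : ff c ≠ 0 := by rintro h0; rw [h0] at h; simp at h; omega
  have h1 : (ff c).coeff d ≠ 0 := by
    have := leadingCoeff_ne_zero.2 h0
    rwa [leadingCoeff, h] at this
  rw [coeff_ff, Nat.sub_self] at h1
  have h2 : (Finsupp.single 0 d : Fin 2 →₀ ℕ) ∈ (FM c).support := by
    rw [MvPolynomial.mem_support_iff, coeff_FM]
    simpa using h1
  have h3 := MvPolynomial.le_totalDegree h2
  rwa [Finsupp.sum_single_index rfl] at h3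

lemma homComp_FM (c : ↥(Ix d) → ℤ) :
    MvPolynomial.homogeneousComponent d (FM c) = homogenize (ff c) d := by
  ext m
  rw [MvPolynomial.coeff_homogeneousComponent, coeff_homogenize, degree_fin2, coeff_FM]
  split_ifs with h
  · rw [coeff_ff]
    congr 1
    omega
  · rfl

lemma irr_FM {c : ↥(Ix d) → ℤ} (hd : 1 ≤ d) (h : (ff c).natDegree = d)
    (hirr : Irreducible ((ff c).map (Int.castRingHom ℚ))) :
    Irreducible (MvPolynomial.map (Int.castRingHom ℚ)
      (MvPolynomial.homogeneousComponent (FM c).totalDegree (FM c))) := by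
  rw [totalDegree_FM hd h, homComp_FM, ← homogenize_map]
  apply homogenize_irr _ hirr
  rw [natDegree_map_eq_of_injective (RingHom.injective_int _), h]

lemma len_eq_sum {F : MvPolynomial (Fin 2) ℤ} {s : Finset (Fin 2 →₀ ℕ)} (h : F.support ⊆ s) :
    len F = ∑ m ∈ s, (F.coeff m).natAbs := by
  unfold len
  apply Finset.sum_subset h
  intro m _ hm
  rw [MvPolynomial.notMem_support_iff.1 hm]; rfl

lemma len_FM {H : ℕ} {c : ↥(Ix d) → ℤ} (hc : c ∈ Bx _ H) : len (FM c) ≤ (Ix d).card * H := by
  classical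
  have h1 : (FM c).support ⊆ (Ix d).image
      (fun p => (Finsupp.single 0 p.1 + Finsupp.single 1 p.2 : Fin 2 →₀ ℕ)) := by
    intro m hm
    rw [Finset.mem_image]
    refine ⟨(m 0, m 1), ?_, ?_⟩
    · by_contra hcon
      rw [mem_Ix] at hcon
      simp only at hcon
      rw [MvPolynomial.mem_support_iff, coeff_FM] at hm
      exact hm (cf_of_lt c (by omega))
    · ext i
      fin_cases i <;> simp
  rw [len_eq_sum h1]
  refine (Finset.sum_le_card_nsmul _ _ H ?_).trans ?_
  · intro m _
    rw [coeff_FM, cf]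
    split_ifs with h
    · have := mem_Bx.1 hc ⟨_, h⟩
      rw [Int.abs_eq_natAbs] at this
      exact_mod_cast this
    · simp
  · rw [smul_eq_mul]
    exact Nat.mul_le_mul_right _ Finset.card_image_le

lemma FM_update0 (c : ↥(Ix d) → ℤ) (v : ℤ) :
    FM (Function.update c (ix0 d) v) = FM c + MvPolynomial.C (v - c (ix0 d)) := by
  apply (toB ℤ).injective
  rw [map_add, toB_FM, toB_FM, PG_update0]
  congr 1
  have := toB_monomial ℤ (0 : Fin 2 →₀ ℕ) (v - c (ix0 d))
  rw [← MvPolynomial.C_apply] at this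
  rw [this]
  rfl

end Pool.Agent.H322R2
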