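import Pool.Agent.H322R2.AFin2
import Pool.Agent.H322R2.FMir
import Pool.Agent.H322R2.CompB

/-!
Explicit bounds for `x^d - (a^d + r) y^d = R(x,y)`.
-/

open Polynomial Finset IntermediateField

namespace Pool.Agent.H322R2

/-- powers of a number close to an integer -/
lemma near_pow {d k : ℕ} (hk : k < d) {μ A ρ : ℝ} (hμ : 0 < μ) (hA : 1 ≤ A)
    (h : |μ ^ d - A ^ d| ≤ ρ) (hρ : ρ ≤ A) (hd : 2 ≤ d) :
    |μ ^ k - A ^ k| * A ≤ ρ * (d * 2 ^ d) := by
  have hA0 : 0 < A := by linarith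
  have hρ0 : 0 ≤ ρ := (abs_nonneg _).trans h
  have hS : ∀ n, 0 ≤ ∑ i ∈ range n, μ ^ i * A ^ (n - 1 - i) := fun n =>
    Finset.sum_nonneg (fun i _ => by positivity)
  have h1 : |μ - A| * A ^ (d - 1) ≤ ρ := by
    have e1 : (∑ i ∈ range d, μ ^ i * A ^ (d - 1 - i)) * (μ - A) = μ ^ d - A ^ d :=
      (Commute.all μ A).geom_sum₂_mul d
    have e2 : A ^ (d - 1) ≤ ∑ i ∈ range d, μ ^ i * A ^ (d - 1 - i) := by
      have := Finset.single_le_sum (f := fun i => μ ^ i * A ^ (d - 1 - i))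
        (fun i _ => by positivity) (Finset.mem_range.2 (by omega : 0 < d))
      simpa using this
    rw [← e1, abs_mul, abs_of_nonneg (hS d)] at h
    calc |μ - A| * A ^ (d - 1) ≤ |μ - A| * ∑ i ∈ range d, μ ^ i * A ^ (d - 1 - i) :=
          mul_le_mul_of_nonneg_left e2 (abs_nonneg _)
      _ ≤ ρ := by rw [mul_comm]; exact h
  have h2 : |μ - A| ≤ 1 := by
    have e1 : A ≤ A ^ (d - 1) := le_self_pow₀ hA (by omega)
    have e2 : |μ - A| * A ≤ 1 * A := by
      calc |μ - A| * A ≤ |μ - A| * A ^ (d - 1) := mul_le_mul_of_nonneg_left e1 (abs_nonneg _)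
        _ ≤ 1 * A := by rw [one_mul]; exact h1.trans hρ
    exact le_of_mul_le_mul_right e2 hA0
  have h3 : μ ≤ 2 * A := by
    have := (abs_le.1 h2).2
    linarith
  have h4 : ∑ i ∈ range k, μ ^ i * A ^ (k - 1 - i) ≤ d * 2 ^ d * A ^ (k - 1) := by
    calc ∑ i ∈ range k, μ ^ i * A ^ (k - 1 - i) ≤ ∑ i ∈ range k, 2 ^ d * A ^ (k - 1) := by
          apply Finset.sum_le_sum
          intro i hi
          rw [Finset.mem_range] at hi
          calc μ ^ i * A ^ (k - 1 - i) ≤ (2 * A) ^ i * A ^ (k - 1 - i) := by gcongr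
            _ = 2 ^ i * A ^ (k - 1) := by
                rw [mul_pow, mul_assoc, ← pow_add]
                congr 2
                omega
            _ ≤ 2 ^ d * A ^ (k - 1) := by
                apply mul_le_mul_of_nonneg_right _ (by positivity)
                exact pow_le_pow_right₀ (by norm_num) (by omega)
      _ = k * (2 ^ d * A ^ (k - 1)) := by rw [Finset.sum_const, card_range, nsmul_eq_mul]
      _ ≤ d * (2 ^ d * A ^ (k - 1)) := by
          apply mul_le_mul_of_nonneg_right _ (by positivity)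
          exact_mod_cast hk.le
      _ = _ := by ring
  have e1 : (∑ i ∈ range k, μ ^ i * A ^ (k - 1 - i)) * (μ - A) = μ ^ k - A ^ k :=
    (Commute.all μ A).geom_sum₂_mul k
  rw [← e1, abs_mul, abs_of_nonneg (hS k)]
  rcases Nat.eq_zero_or_pos k with hk0 | hk0
  · subst hk0
    simp only [range_zero, sum_empty, zero_mul]
    positivity
  · calc (∑ i ∈ range k, μ ^ i * A ^ (k - 1 - i)) * |μ - A| * A
        ≤ (d * 2 ^ d * A ^ (k - 1)) * |μ - A| * A := by gcongr
      _ = d * 2 ^ d * (|μ - A| * (A ^ (k - 1) * A)) := by ring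
      _ ≤ d * 2 ^ d * (|μ - A| * A ^ (d - 1)) := by
          rw [← pow_succ]
          have e3 : A ^ (k - 1 + 1) ≤ A ^ (d - 1) := pow_le_pow_right₀ hA (by omega)
          exact mul_le_mul_of_nonneg_left (mul_le_mul_of_nonneg_left e3 (abs_nonneg _))
            (by positivity)
      _ ≤ d * 2 ^ d * ρ := mul_le_mul_of_nonneg_left h1 (by positivity)
      _ = _ := by ring

lemma abs_coeff_zero {d : ℕ} {m : ℤ} {q : ℤ[X]} (hq : q.Monic)
    (hqd : q ∣ X ^ d - C m) {μ : ℝ} (hμ0 : 0 < μ) (hμ : μ ^ d = (m : ℝ)) (hd : 0 < d) :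
    |((q.coeff 0 : ℤ) : ℝ)| = μ ^ q.natDegree := by
  obtain ⟨Q, hQ⟩ : ∃ Q, Q = q.map (Int.castRingHom ℂ) := ⟨_, rfl⟩
  have hQm : Q.Monic := by rw [hQ]; exact hq.map _
  have hroot : ∀ z ∈ Q.roots, ‖z‖ = μ := by
    intro z hz
    have h1 : Q.eval z = 0 := (mem_roots'.1 hz).2
    obtain ⟨s, hs⟩ := hqd
    have h2 : ((X ^ d - C m : ℤ[X]).map (Int.castRingHom ℂ)).eval z = 0 := by
      rw [hs, Polynomial.map_mul, eval_mul, ← hQ, h1, zero_mul]
    have h3 : z ^ d = (m : ℂ) := by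
      rw [Polynomial.map_sub, Polynomial.map_pow, map_X, map_C, eval_sub, eval_pow, eval_X,
        eval_C, sub_eq_zero] at h2
      exact h2
    have h4 : ‖z‖ ^ d = μ ^ d := by
      rw [← norm_pow, h3, hμ, Complex.norm_intCast, ← hμ, abs_of_pos (by positivity)]
    exact (pow_left_inj₀ (norm_nonneg _) hμ0.le (by omega)).1 h4
  have h1 := (IsAlgClosed.splits Q).eval_eq_prod_roots_of_monic hQm 0
  have h2 : ‖Q.eval 0‖ = μ ^ q.natDegree := by
    rw [h1]
    have h3 : ‖(Q.roots.map (fun z => (0 : ℂ) - z)).prod‖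
        = ((Q.roots.map (fun z => (0 : ℂ) - z)).map (fun z => ‖z‖)).prod :=
      map_multiset_prod (normHom : ℂ →*₀ ℝ) _
    have h4 : (Q.roots.map (fun z => (0 : ℂ) - z)).map (fun z => ‖z‖)
        = Q.roots.map (fun _ => μ) := by
      rw [Multiset.map_map]
      apply Multiset.map_congr rfl
      intro z hz
      simp only [Function.comp_apply, zero_sub, norm_neg]
      exact hroot z hz
    rw [h3, h4, Multiset.map_const', Multiset.prod_replicate]
    congr 1
    have h5 := (IsAlgClosed.splits Q).natDegree_eq_card_roots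
    rw [← h5, hQ, hq.natDegree_map]
  rw [← h2, hQ, ← coeff_zero_eq_eval_zero, coeff_map]
  simp

lemma pure_irr {d : ℕ} (hd : 2 ≤ d) {a : ℕ} {r : ℤ} (hr : r ≠ 0) (ha : d * 2 ^ d * r.natAbs < a)
    {μ : ℝ} (hμ0 : 0 < μ) (hμ : μ ^ d = (((a : ℤ) ^ d + r : ℤ) : ℝ)) :
    Irreducible (X ^ d - C ((a : ℤ) ^ d + r) : ℤ[X]) := by
  have ha1 : 0 < a := by omega
  have hmon : (X ^ d - C ((a : ℤ) ^ d + r) : ℤ[X]).Monic := monic_X_pow_sub_C _ (by omega)
  have hnd : (X ^ d - C ((a : ℤ) ^ d + r) : ℤ[X]).natDegree = d := natDegree_X_pow_sub_C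
  rw [hmon.irreducible_iff_lt_natDegree_lt (by
    intro h1
    rw [h1, natDegree_one] at hnd
    omega)]
  intro q hq hqd hdvd
  rw [hnd, Finset.mem_Ioc] at hqd
  have h1 := abs_coeff_zero hq hdvd hμ0 hμ (by omega)
  have haR : (1 : ℝ) ≤ a := by exact_mod_cast ha1
  have hk : q.natDegree < d := by omega
  have h2 := near_pow (A := (a : ℝ)) (ρ := |(r : ℝ)|) hk hμ0 haR (by
    rw [hμ]; push_cast; rw [add_sub_cancel_left]) (by
    have h3 : r.natAbs ≤ a := by
      have : 1 ≤ d * 2 ^ d := Nat.mul_pos (by omega) (by positivity)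
      nlinarith
    have h4 : ((r.natAbs : ℕ) : ℝ) ≤ a := by exact_mod_cast h3
    rw [Nat.cast_natAbs, Int.cast_abs] at h4
    exact h4) hd
  have h3 : |(r : ℝ)| * (d * 2 ^ d) < a := by
    have h4 : ((d * 2 ^ d * r.natAbs : ℕ) : ℝ) < a := by exact_mod_cast ha
    push_cast at h4
    rw [Nat.cast_natAbs, Int.cast_abs] at h4
    linarith
  have h4 : |μ ^ q.natDegree - (a : ℝ) ^ q.natDegree| < 1 := by
    have : |μ ^ q.natDegree - (a : ℝ) ^ q.natDegree| * a < 1 * a := by
      rw [one_mul]; exact lt_of_le_of_lt h2 h3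
    exact lt_of_mul_lt_mul_right this (by linarith)
  rw [← h1] at h4
  have h5 : |((|q.coeff 0| - (a : ℤ) ^ q.natDegree : ℤ) : ℝ)| < 1 := by
    push_cast
    exact h4
  have h6 : |q.coeff 0| - (a : ℤ) ^ q.natDegree = 0 := by
    apply Int.abs_lt_one_iff.1
    exact_mod_cast h5
  have h7 : |((q.coeff 0 : ℤ) : ℝ)| = (a : ℝ) ^ q.natDegree := by
    have h8 : |q.coeff 0| = (a : ℤ) ^ q.natDegree := by omega
    have h9 := congrArg (fun z : ℤ => (z : ℝ)) h8
    simpa using h9
  rw [h1] at h7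
  have h8 : μ = a := (pow_left_inj₀ hμ0.le (by linarith) (by omega)).1 h7
  rw [h8] at hμ
  push_cast at hμ
  have h9 : (r : ℝ) = 0 := by linarith
  exact hr (by exact_mod_cast h9)

/-- `X^d + r` has a simple irreducible factor -/
lemma simple_factor {d : ℕ} (hd : 0 < d) {r : ℤ} (hr : r ≠ 0) :
    ∃ g : ℤ[X], Irreducible g ∧ g ∣ (X ^ d + C r) ∧ ¬ g ^ 2 ∣ (X ^ d + C r) := by
  obtain ⟨P, hP⟩ : ∃ P : ℤ[X], P = X ^ d + C r := ⟨_, rfl⟩
  rw [← hP]
  have hm : P.Monic := by rw [hP]; exact monic_X_pow_add_C _ (by omega)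
  have hnd : P.natDegree = d := by rw [hP]; exact natDegree_X_pow_add_C
  have hnu : ¬ IsUnit P := by
    intro h
    have := natDegree_eq_zero_of_isUnit h
    omega
  obtain ⟨g, hg, hgP⟩ := WfDvdMonoid.exists_irreducible_factor hnu hm.ne_zero
  refine ⟨g, hg, hgP, ?_⟩
  rintro ⟨s, hs⟩
  have hder : derivative P = C (d : ℤ) * X ^ (d - 1) := by
    rw [hP, derivative_add, derivative_C, add_zero, derivative_X_pow]
  have h1 : g ∣ derivative P := by
    rw [hs]
    simp only [derivative_mul, derivative_pow]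
    refine dvd_add ?_ ?_
    · refine Dvd.dvd.mul_right ?_ _
      refine Dvd.dvd.mul_right ?_ _
      refine Dvd.dvd.mul_left ?_ _
      simp
    · exact Dvd.dvd.mul_right (dvd_pow_self g (by norm_num)) _
  have h2 : C (d : ℤ) * P - X * derivative P = C ((d : ℤ) * r) := by
    rw [hder, hP, mul_add, ← C_mul]
    have : X * (C (d : ℤ) * X ^ (d - 1)) = C (d : ℤ) * X ^ d := by
      have : (X : ℤ[X]) ^ d = X ^ (d - 1) * X := by rw [← pow_succ]; congr 1; omega
      rw [this]; ring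
    rw [this]
    ring
  have h3 : g ∣ C ((d : ℤ) * r) := by
    rw [← h2]
    exact dvd_sub (hgP.mul_left _) (h1.mul_left _)
  obtain ⟨q, hq⟩ := hgP
  have hgl : IsUnit g.leadingCoeff := by
    have h4 : g.leadingCoeff * q.leadingCoeff = 1 := by
      rw [← leadingCoeff_mul, ← hq]; exact hm
    exact IsUnit.of_mul_eq_one _ h4
  obtain ⟨w, hw⟩ := h3
  have hne : (d : ℤ) * r ≠ 0 := mul_ne_zero (by exact_mod_cast hd.ne') hr
  have hw0 : w ≠ 0 := by
    rintro rfl
    rw [mul_zero, C_eq_zero] at hw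
    exact hne hw
  have hdeg := congrArg natDegree hw
  rw [natDegree_C, natDegree_mul hg.ne_zero hw0] at hdeg
  have hg0 : g.natDegree = 0 := by omega
  rw [eq_C_of_natDegree_eq_zero hg0] at hg hgl
  rw [leadingCoeff_C] at hgl
  exact hg.not_isUnit (hgl.map C)

lemma thrA_mono {d h h' : ℕ} (hh : h ≤ h') : thrA d h ≤ thrA d h' := by
  unfold thrA
  gcongr

lemma thrA_large {d h : ℕ} (hd : 3 ≤ d) : d * 2 ^ d * h < thrA d h := by
  unfold thrA
  have h1 : d * 2 ^ d * h < (2 * d ^ 3) ^ (d + 1) * (1 + h) := by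
    have e1 : d * 2 ^ d ≤ (2 * d ^ 3) ^ (d + 1) := by
      rw [mul_pow, pow_succ 2 d]
      have e2 : d ≤ (d ^ 3) ^ (d + 1) := by
        rw [← pow_mul]
        exact Nat.le_self_pow (by omega) _
      calc d * 2 ^ d ≤ (d ^ 3) ^ (d + 1) * 2 ^ d := Nat.mul_le_mul_right _ e2
        _ ≤ 2 * ((d ^ 3) ^ (d + 1) * 2 ^ d) := by omega
        _ = _ := by ring
    have e3 : 0 < (2 * d ^ 3) ^ (d + 1) := by positivity
    calc d * 2 ^ d * h ≤ (2 * d ^ 3) ^ (d + 1) * h := Nat.mul_le_mul_right _ e1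
      _ < _ := by nlinarith
  refine lt_of_lt_of_le h1 ?_
  exact Nat.le_self_pow (by positivity) _

/-- Explicit bounds for all integer points on `x^d - (a^d + r) y^d = R(x,y)`, `deg R < d`. -/
theorem main_binom {d : ℕ} (hd : 3 ≤ d) {a : ℕ} {r : ℤ} (hr : r ≠ 0)
    (ha : thrA d (1 + r.natAbs) ≤ a) (R : MvPolynomial (Fin 2) ℤ) (hR : R.totalDegree < d)
    (x y : ℤ) (hxy : x ^ d - ((a : ℤ) ^ d + r) * y ^ d = MvPolynomial.eval ![x, y] R) :
    x.natAbs ≤ (a ^ (d + 2) * ((d + 1) * (1 + len R))) ^ kF d ∧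
      y.natAbs ≤ (a ^ (d + 2) * ((d + 1) * (1 + len R))) ^ kF d := by
  have hd0 : 0 < d := by omega
  have hthr1 : 1 + r.natAbs < a := by
    refine lt_of_le_of_lt ?_ (lt_of_lt_of_le (thrA_large (h := 1 + r.natAbs) hd) ha)
    exact Nat.le_mul_of_pos_left _ (Nat.mul_pos hd0 (by positivity))
  have hlarge : d * 2 ^ d * r.natAbs < a := by
    refine lt_of_le_of_lt ?_ (lt_of_lt_of_le (thrA_large (h := 1 + r.natAbs) hd) ha)
    apply Nat.mul_le_mul_left
    omega
  have ha1 : 1 ≤ a := by omega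
  obtain ⟨m, hm⟩ : ∃ m : ℤ, m = (a : ℤ) ^ d + r := ⟨_, rfl⟩
  have hapow : (a : ℤ) ≤ (a : ℤ) ^ d := le_self_pow₀ (by exact_mod_cast ha1) (by omega)
  have hrabs : |r| < a := by rw [Int.abs_eq_natAbs]; omega
  have hm0 : 0 < m := by
    have := (abs_lt.1 hrabs).1
    omega
  obtain ⟨μ, hμ0, hμ⟩ : ∃ μ : ℝ, 0 < μ ∧ μ ^ d = (m : ℝ) := by
    have hmR : (0 : ℝ) < m := by exact_mod_cast hm0
    exact ⟨(m : ℝ) ^ ((d : ℝ)⁻¹), Real.rpow_pos_of_pos hmR _,
      Real.rpow_inv_natCast_pow hmR.le (by omega)⟩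
  obtain ⟨g, hg, hgP, hg2⟩ := simple_factor hd0 hr
  obtain ⟨P, hP⟩ : ∃ P : ℤ[X], P = X ^ d + C r := ⟨_, rfl⟩
  rw [← hP] at hgP hg2
  have hPm : P.Monic := by rw [hP]; exact monic_X_pow_add_C _ (by omega)
  have hPd : P.natDegree = d := by rw [hP]; exact natDegree_X_pow_add_C
  have hPa : P.eval (a : ℤ) = m := by rw [hP, hm]; simp
  have hPs : ∑ i ∈ P.support, (P.coeff i).natAbs ≤ 1 + r.natAbs := by
    have h1 : pn zn P ≤ 1 + |(r : ℝ)| := by
      rw [hP]
      refine (map_add_le_add _ _ _).trans ?_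
      rw [pn_C, zn_apply]
      apply add_le_add_left
      refine (seminorm_pow_le _ pnz_one _ _).trans (pow_le_one₀ (apply_nonneg _ _) ?_)
      rw [pn_X]
      exact (le_of_eq (zn_apply 1)).trans (by norm_num)
    rw [pn_apply] at h1
    have h2 : ((∑ i ∈ P.support, (P.coeff i).natAbs : ℕ) : ℝ) ≤ ((1 + r.natAbs : ℕ) : ℝ) := by
      push_cast
      rw [Nat.cast_natAbs, Int.cast_abs]
      refine le_trans (Finset.sum_le_sum (fun i _ => ?_)) h1
      rw [zn_apply, Nat.cast_natAbs, Int.cast_abs]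
    exact_mod_cast h2
  -- the polynomial
  obtain ⟨q, hq⟩ : ∃ q : ℤ[X], q = X ^ d - C m := ⟨_, rfl⟩
  have hqm : q.Monic := by rw [hq]; exact monic_X_pow_sub_C _ (by omega)
  have hqd : q.natDegree = d := by rw [hq]; exact natDegree_X_pow_sub_C
  have hqirr : Irreducible q := by
    rw [hq, hm]
    exact pure_irr (by omega) hr hlarge hμ0 (by rw [hμ, hm])
  obtain ⟨φ, hφ⟩ : ∃ φ : MvPolynomial (Fin 2) ℤ, φ = homogenize q d := ⟨_, rfl⟩
  have hφe : φ = MvPolynomial.X 0 ^ d - MvPolynomial.C m * MvPolynomial.X 1 ^ d := by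
    rw [hφ, hq, homogenize_sub, homogenize_X_pow le_rfl, homogenize_C, Nat.sub_self, pow_zero,
      mul_one]
  have hφh : φ.IsHomogeneous d := by rw [hφ]; exact isHomogeneous_homogenize _
  obtain ⟨F, hF⟩ : ∃ F : MvPolynomial (Fin 2) ℤ, F = φ - R := ⟨_, rfl⟩
  have hcomp : MvPolynomial.homogeneousComponent d F = φ := by
    rw [hF, map_sub, MvPolynomial.homogeneousComponent_of_mem
      ((MvPolynomial.mem_homogeneousSubmodule d φ).2 hφh), if_pos rfl,
      MvPolynomial.homogeneousComponent_eq_zero _ _ hR, sub_zero]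
  have hφ0 : φ ≠ 0 := by
    rw [hφ, Ne, homogenize_eq_zero_iff hqd.le]
    exact hqm.ne_zero
  have hFd : F.totalDegree = d := by
    apply le_antisymm
    · rw [hF]
      refine (MvPolynomial.totalDegree_sub _ _).trans (max_le hφh.totalDegree_le hR.le)
    · by_contra hcon
      push_neg at hcon
      rw [MvPolynomial.homogeneousComponent_eq_zero _ _ hcon] at hcomp
      exact hφ0 hcomp.symm
  have hinj : Function.Injective (Int.castRingHom ℚ) := Int.cast_injective
  have hirrφ : Irreducible (MvPolynomial.map (Int.castRingHom ℚ) φ) := by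
    rw [hφ, ← homogenize_map]
    apply homogenize_irr
    · rw [hqm.natDegree_map, hqd]
    · exact (hqm.irreducible_iff_irreducible_map_fraction_map (K := ℚ)).1 hqirr
  have hcm : MvPolynomial.homogeneousComponent d (MvPolynomial.map (Int.castRingHom ℚ) F)
      = MvPolynomial.map (Int.castRingHom ℚ) φ := by
    rw [← hcomp]
    ext n
    rw [MvPolynomial.coeff_homogeneousComponent, MvPolynomial.coeff_map,
      MvPolynomial.coeff_map, MvPolynomial.coeff_homogeneousComponent]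
    split_ifs <;> simp
  have hFd' : (MvPolynomial.map (Int.castRingHom ℚ) F).totalDegree = d := by
    rw [MvPolynomial.totalDegree, MvPolynomial.support_map_of_injective _ hinj,
      ← MvPolynomial.totalDegree, hFd]
  have hirrF : Irreducible (MvPolynomial.map (Int.castRingHom ℚ) F) := by
    apply irr_of_lead
    · rw [hFd']; omega
    · rw [hFd', hcm]; exact hirrφ
  have heval : MvPolynomial.eval ![x, y] F = 0 := by
    rw [hF, map_sub, ← hxy, hφe, ← hm]
    simp
  obtain ⟨L, hL⟩ : ∃ L, L = len F := ⟨_, rfl⟩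
  have hmain := main_pure hd hPm hPd hg hgP hg2 a ((thrA_mono hPs).trans ha) μ hμ0
    (by rw [hPa, hμ]) F hFd hirrF (by rw [hcomp]; exact hirrφ.squarefree) (by
      intro t ht _
      rw [hcomp, hφe] at ht
      simp only [map_sub, map_pow, map_mul, MvPolynomial.aeval_X, MvPolynomial.aeval_C,
        Matrix.cons_val_zero, Matrix.cons_val_one, one_pow, eq_intCast, map_intCast] at ht
      have h1 : (t * μ) ^ d = 1 := by rw [mul_pow, hμ]; linarith
      have h2 : |t * μ| = 1 := by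
        have h3 : |t * μ| ^ d = 1 := by rw [← abs_pow, h1, abs_one]
        exact (pow_eq_one_iff_of_nonneg (abs_nonneg _) (by omega)).1 h3
      have hμm := mem_adjoin_simple_self ℚ μ
      rcases abs_eq (by norm_num : (0 : ℝ) ≤ 1) |>.1 h2 with h3 | h3
      · have h4 : t = μ⁻¹ := by field_simp; linarith
        rw [h4]
        exact inv_mem hμm
      · have h4 : t = -μ⁻¹ := by field_simp; linarith
        rw [h4]
        exact neg_mem (inv_mem hμm)) x y heval
  rw [← hL] at hmain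
  obtain ⟨K, hK⟩ : ∃ K, K = kF d := ⟨_, rfl⟩
  rw [← hK] at hmain ⊢
  -- length of F
  have hlen : L ≤ a ^ (d + 1) * (1 + len R) := by
    have h1 : len F ≤ len φ + len R := by
      rw [hF, sub_eq_add_neg]
      refine (len_add_le _ _).trans ?_
      apply Nat.add_le_add_left
      unfold len
      rw [MvPolynomial.support_neg]
      apply Finset.sum_le_sum
      intro n _
      rw [MvPolynomial.coeff_neg, Int.natAbs_neg]
    have h2 : len φ ≤ 1 + m.natAbs := by
      rw [hφe, sub_eq_add_neg]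
      refine (len_add_le _ _).trans ?_
      apply Nat.add_le_add
      · unfold len
        rw [MvPolynomial.X_pow_eq_monomial]
        refine (Finset.sum_le_sum_of_subset (MvPolynomial.support_monomial_subset)).trans ?_
        rw [Finset.sum_singleton, MvPolynomial.coeff_monomial, if_pos rfl]
        simp
      · unfold len
        rw [MvPolynomial.support_neg, MvPolynomial.C_mul_X_pow_eq_monomial]
        refine (Finset.sum_le_sum_of_subset (MvPolynomial.support_monomial_subset)).trans ?_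
        rw [Finset.sum_singleton, MvPolynomial.coeff_neg, MvPolynomial.coeff_monomial, if_pos rfl,
          Int.natAbs_neg]
    have h3 : 1 + m.natAbs ≤ a ^ (d + 1) := by
      have h4 : m.natAbs ≤ a ^ d + r.natAbs := by
        rw [hm]
        refine (Int.natAbs_add_le _ _).trans ?_
        rw [Int.natAbs_pow, Int.natAbs_natCast]
      have h5 : a ^ (d + 1) = a ^ d * a := pow_succ _ _
      have h6 : a ≤ a ^ d := Nat.le_self_pow (by omega) _
      nlinarith
    have h4 : 1 ≤ a ^ (d + 1) := Nat.one_le_pow _ _ ha1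
    rw [hL]
    nlinarith
  have hfin : (a * ((d + 1) * L)) ^ K ≤ (a ^ (d + 2) * ((d + 1) * (1 + len R))) ^ K := by
    apply Nat.pow_le_pow_left
    calc a * ((d + 1) * L) ≤ a * ((d + 1) * (a ^ (d + 1) * (1 + len R))) := by gcongr
      _ = _ := by ring
  exact ⟨hmain.1.trans hfin, hmain.2.trans hfin⟩

end Pool.Agent.H322R2
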