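import Pool.Agent.H322R2.Root

/-!
Construction of the branch data from an algebraic root at infinity.
-/

open Polynomial Finset

namespace Pool.Agent.H322R2

noncomputable def cΔ (d : ℕ) (H : ℝ) : ℝ := (d * H) * (2 + H) ^ d

noncomputable def cT (d : ℕ) (H : ℝ) : ℝ := cΔ d H ^ (3 * (d + 1)) * (H * (2 + H) ^ d)

noncomputable def cB (d : ℕ) (H : ℝ) : ℝ :=
  4 * cT d H ^ 2 * (2 * cD d H ^ 2) * (1 / cR d H)

section consts

variable {d : ℕ} {H : ℝ} (hd : 0 < d) (hH : 1 ≤ H)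

include hd hH

lemma one_le_cΔ : 1 ≤ cΔ d H := by
  have h1 : (1 : ℝ) ≤ d := by exact_mod_cast hd
  exact one_le_mul_of_one_le_of_one_le (one_le_mul_of_one_le_of_one_le h1 hH)
    (one_le_pow₀ (by linarith))

lemma two_add_le : 2 + H ≤ H * (2 + H) ^ d := by
  have h2 : 2 + H ≤ (2 + H) ^ d := by
    calc 2 + H = (2 + H) ^ 1 := by rw [pow_one]
      _ ≤ (2 + H) ^ d := pow_le_pow_right₀ (by linarith) hd
  nlinarith

lemma two_add_le_cT : 2 + H ≤ cT d H := by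
  have h1 := one_le_pow₀ (one_le_cΔ hd hH) (n := 3 * (d + 1))
  have h2 := two_add_le hd hH
  unfold cT
  nlinarith

lemma cΔ_le_cT : cΔ d H ≤ cT d H := by
  have h0 := one_le_cΔ hd hH
  have h1 : cΔ d H ≤ cΔ d H ^ (3 * (d + 1)) := by
    calc cΔ d H = cΔ d H ^ 1 := by rw [pow_one]
      _ ≤ _ := pow_le_pow_right₀ h0 (by omega)
  have h2 := two_add_le hd hH
  have h3 : 0 ≤ cΔ d H ^ (3 * (d + 1)) := by linarith
  unfold cT
  nlinarith

lemma cB_facts : 4 * cT d H ^ 2 ≤ cB d H ∧ 2 * cD d H ^ 2 ≤ cB d H ∧ 1 / cR d H ≤ cB d H ∧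
    4 * cT d H * cD d H * (1 / cR d H) ≤ cB d H ∧ 12 ≤ cB d H ∧ 2 + H ≤ cB d H ∧
    2 * cΔ d H ≤ cB d H := by
  have hT := two_add_le_cT hd hH
  have hΔT := cΔ_le_cT hd hH
  have hΔ := one_le_cΔ hd hH
  have hD := one_le_cD hd hH
  have hR := cR_pos hd hH
  have hR2 := cR_le hd hH
  obtain ⟨R, hRdef⟩ : ∃ R, R = 1 / cR d H := ⟨_, rfl⟩
  have hR1 : 2 ≤ R := by
    rw [hRdef, le_div_iff₀ hR]; linarith
  obtain ⟨T, hTdef⟩ : ∃ T, T = cT d H := ⟨_, rfl⟩
  obtain ⟨D, hDdef⟩ : ∃ D, D = cD d H := ⟨_, rfl⟩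
  unfold cB
  rw [← hRdef, ← hTdef, ← hDdef]
  rw [← hTdef] at hT hΔT
  rw [← hDdef] at hD
  have hT3 : 3 ≤ T := by linarith
  have e1 : 1 ≤ 4 * T ^ 2 := by nlinarith
  have e2 : 1 ≤ 2 * D ^ 2 := by nlinarith
  have e3 : 0 ≤ 4 * T ^ 2 := by linarith
  have e4 : 4 * T ^ 2 ≤ 4 * T ^ 2 * (2 * D ^ 2) := le_mul_of_one_le_right e3 e2
  have e5 : 2 * D ^ 2 ≤ 4 * T ^ 2 * (2 * D ^ 2) := le_mul_of_one_le_left (by linarith) e1
  have e6 : 4 * T ^ 2 * (2 * D ^ 2) ≤ 4 * T ^ 2 * (2 * D ^ 2) * R :=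
    le_mul_of_one_le_right (by linarith) (by linarith)
  have e7 : T ≤ T ^ 2 := by nlinarith
  refine ⟨by linarith, by linarith, ?_, ?_, by nlinarith, by nlinarith, by nlinarith⟩
  · exact le_mul_of_one_le_left (by linarith) (by linarith)
  · apply mul_le_mul_of_nonneg_right _ (by linarith)
    have e8 : D ≤ 2 * D ^ 2 := by nlinarith
    calc 4 * T * D ≤ 4 * T ^ 2 * D := by
          apply mul_le_mul_of_nonneg_right _ (by linarith); linarith
      _ ≤ 4 * T ^ 2 * (2 * D ^ 2) := mul_le_mul_of_nonneg_left e8 e3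

end consts

/-- the inverse of `a + X` as a power series -/
noncomputable def invX (a : ℝ) : PowerSeries ℝ := PowerSeries.mk fun n => (-1) ^ n / a ^ (n + 1)

lemma mul_invX (a : ℝ) (ha : a ≠ 0) : (PowerSeries.C a + PowerSeries.X) * invX a = 1 := by
  ext n
  rw [add_mul, map_add, PowerSeries.coeff_C_mul]
  rcases n with _ | n
  · rw [PowerSeries.coeff_zero_X_mul]
    simp [invX, ha]
  · rw [PowerSeries.coeff_succ_X_mul]
    simp only [invX, PowerSeries.coeff_mk, PowerSeries.coeff_one]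
    rw [if_neg (by omega)]
    field_simp
    ring

lemma bd_invX (a : ℝ) (ha : a ≠ 0) : Bd rn (|a| / 2) (invX a) (2 / |a|) := by
  have ha0 : 0 < |a| := abs_pos.2 ha
  intro K
  have h1 : ∀ n ∈ range K, rn (PowerSeries.coeff n (invX a)) * (|a| / 2) ^ n
      = (1 / |a|) * (1 / 2) ^ n := by
    intro n _
    rw [invX, PowerSeries.coeff_mk, rn_apply, abs_div, abs_pow, abs_pow, abs_neg, abs_one, one_pow,
      div_pow, div_pow, pow_succ]
    field_simp
    simp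
  rw [Finset.sum_congr rfl h1, ← Finset.mul_sum]
  have h2 : ∑ n ∈ range K, (1 / 2 : ℝ) ^ n ≤ 2 := by
    have := geom_sum_eq (x := (1 / 2 : ℝ)) (by norm_num) K
    rw [this]
    have h3 : 0 ≤ (1 / 2 : ℝ) ^ K := by positivity
    have h4 : ((1 / 2 : ℝ) ^ K - 1) / (1 / 2 - 1) = 2 - 2 * (1 / 2) ^ K := by
      have : (1 / 2 - 1 : ℝ) = -(1 / 2) := by norm_num
      rw [this]
      ring
    rw [h4]
    linarith
  calc (1 / |a|) * ∑ n ∈ range K, (1 / 2 : ℝ) ^ n ≤ (1 / |a|) * 2 :=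
        mul_le_mul_of_nonneg_left h2 (by positivity)
    _ = 2 / |a| := by ring

section mk

variable {A : Type*} [CommRing A] {N : RingSeminorm A} {σ : A →+* ℝ}

theorem mkBP (h1 : N 1 ≤ 1) (hσ : ∀ x, |σ x| ≤ N x) {d : ℕ} (hd0 : 0 < d) {G : ℤ[X][X]}
    (hm : G.Monic) (hd : G.natDegree = d) (hT : TD d G) {H : ℝ} (hH : 1 ≤ H)
    (hG : pn (pn zn) G ≤ H) (α : A) (hα : evf α (lead d G) = 0) (hNα : N α ≤ 1 + H)
    (hαH : |σ α| ≤ H) (hder : 1 ≤ |evf (σ α) (derivative (lead d G))| * cD d H)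
    (a b : ℤ) (hab : ev a b G = 0) (hclose : |(b : ℝ) / a - σ α| ≤ cR d H)
    (B : ℝ) (hB : cB d H ≤ B) (hBa : B ^ 2 ≤ |(a : ℝ)|) : Nonempty (BP N σ d B G a b) := by
  obtain ⟨c1, c2, c3, c4, c5, c6, c7⟩ := cB_facts hd0 hH
  have hD := one_le_cD hd0 hH
  have hR := cR_pos hd0 hH
  have hR2 := cR_le hd0 hH
  have hΔ := one_le_cΔ hd0 hH
  have hΔT := cΔ_le_cT hd0 hH
  have hT2 := two_add_le_cT hd0 hH
  have hD0 : 0 < cD d H := by linarith
  have hB2 : 2 ≤ B := by linarith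
  have haB : B ≤ |(a : ℝ)| := by nlinarith
  have ha0 : 0 < |(a : ℝ)| := by linarith
  have haR : (a : ℝ) ≠ 0 := abs_pos.1 ha0
  have hPn : (hmg d G).natDegree < d + 1 := by have := natDegree_hmg d G; omega
  have hPm : ∀ j, ((hmg d G).coeff j).natDegree < d + 1 := fun j => by
    have := natDegree_coeff_hmg hT j; omega
  have hα0 : ev 0 α (hmg d G) = 0 := by rw [ev_zero_hmg, hα]
  obtain ⟨Y, hYX, hYP, hYbd⟩ := hensel_ev (hmg d G) (d + 1) (d + 1) hPn hPm 0 α hα0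
  obtain ⟨δ, hδ⟩ : ∃ δ, δ = ev 0 α (derivative (hmg d G)) := ⟨_, rfl⟩
  rw [← hδ] at hYP hYbd
  have hσδ : σ δ = evf (σ α) (derivative (lead d G)) := by
    rw [hδ, ev_zero_derivative_hmg _ _ hd0, map_evf]
  have hσδ1 : 1 ≤ |σ δ| * cD d H := by rw [hσδ]; exact hder
  have hσδ0 : 0 < |σ δ| := by
    by_contra hcon
    have : |σ δ| = 0 := le_antisymm (not_lt.1 hcon) (abs_nonneg _)
    rw [this, zero_mul] at hσδ1
    linarith
  have hσδne : σ δ ≠ 0 := abs_pos.1 hσδ0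
  -- pn of derivative
  have hpP' : pn (pn zn) (derivative (hmg d G)) ≤ d * H := by
    refine (pn_derivative_le (pn zn) _).trans ?_
    rw [pn_hmg hT]
    apply mul_le_mul _ hG (apply_nonneg _ _) (by positivity)
    exact_mod_cast natDegree_hmg d G
  have hP'n : (derivative (hmg d G)).natDegree < d + 1 :=
    lt_of_le_of_lt ((natDegree_derivative_le _).trans (Nat.sub_le _ _)) hPn
  have hP'm : ∀ j, ((derivative (hmg d G)).coeff j).natDegree < d + 1 := by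
    intro j
    rw [hmg_derivative hd0]
    have := natDegree_coeff_hmg (TD_derivative hT hd0) j
    omega
  have hNδ : N δ ≤ cΔ d H := by
    have h3 := sum_tay_le N h1 (derivative (hmg d G)) (d + 1) (d + 1) hP'n hP'm 0 α
    have h4 := tay_zero (derivative (hmg d G)) (d + 1) (d + 1) hP'n hP'm 0 α
    have h5 : N (tay (derivative (hmg d G)) (d + 1) (d + 1) 0 α (0, 0)) ≤
        ∑ p ∈ range (d + 1) ×ˢ range (d + 1),
          N (tay (derivative (hmg d G)) (d + 1) (d + 1) 0 α p) :=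
      Finset.single_le_sum (f := fun p => N (tay (derivative (hmg d G)) (d + 1) (d + 1) 0 α p))
        (fun _ _ => apply_nonneg _ _) (by simp)
    rw [h4, ← hδ] at h5
    refine h5.trans (h3.trans ?_)
    rw [map_zero, add_zero, one_pow, mul_one, Nat.add_sub_cancel]
    unfold cΔ
    apply mul_le_mul hpP' _ (by positivity) (by positivity)
    exact pow_le_pow_left₀ (by positivity) (by linarith) _
  obtain ⟨T, hTdef⟩ : ∃ T, T = cT d H := ⟨_, rfl⟩
  rw [← hTdef] at c1 c4 hT2 hΔT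
  have hT3 : 3 ≤ T := by linarith
  have hT0 : 0 < T := by linarith
  have hbd := hYbd N h1 T (by linarith) (by
    rw [hTdef]
    unfold cT
    rw [map_zero, add_zero, one_pow, mul_one, Nat.add_sub_cancel, pn_hmg hT]
    apply mul_le_mul
    · have : 2 * (d + 1) + (d + 1) = 3 * (d + 1) := by ring
      rw [this]
      exact pow_le_pow_left₀ (by positivity) (max_le hΔ hNδ) _
    · apply mul_le_mul hG _ (by positivity) (by linarith)
      exact pow_le_pow_left₀ (by positivity) (by linarith) _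
    · have := apply_nonneg (pn (pn zn)) G
      positivity
    · positivity)
  obtain ⟨ρ, hρ⟩ : ∃ ρ, ρ = 1 / (4 * T ^ 2) := ⟨_, rfl⟩
  rw [← hρ] at hbd
  have hρ0 : 0 < ρ := by rw [hρ]; positivity
  have hρB : 1 / B ≤ ρ := by
    rw [hρ]
    exact one_div_le_one_div_of_le (by positivity) (by linarith)
  obtain ⟨ζ, hζ⟩ : ∃ ζ : PowerSeries A, ζ = PowerSeries.C (δ ^ 2) * PowerSeries.X := ⟨_, rfl⟩
  obtain ⟨ω, hω⟩ : ∃ ω : PowerSeries A, ω = PowerSeries.C α + PowerSeries.C δ * Y := ⟨_, rfl⟩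
  have hP0 : ev ζ ω (hmg d G) = 0 := by
    rw [hζ, hω]
    rw [map_zero, zero_add] at hYP
    exact hYP
  have hNδ2 : N (δ ^ 2) ≤ T ^ 2 := by
    refine (seminorm_pow_le N h1 δ 2).trans ?_
    exact pow_le_pow_left₀ (apply_nonneg _ _) (by linarith) _
  have hζbd : Bd N ρ ζ 1 := by
    rw [hζ]
    refine ((Bd.C hρ0.le (δ ^ 2)).mul hρ0.le (Bd.X hρ0.le h1)).mono ?_
    calc N (δ ^ 2) * ρ ≤ T ^ 2 * ρ := mul_le_mul_of_nonneg_right hNδ2 hρ0.le
      _ = 1 / 4 := by rw [hρ]; field_simp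
      _ ≤ 1 := by norm_num
  have hωbd : Bd N ρ ω B := by
    rw [hω]
    refine ((Bd.C hρ0.le α).add hρ0.le ((Bd.C hρ0.le δ).mul hρ0.le hbd)).mono ?_
    have : N δ * (1 / (2 * T)) ≤ 1 := by
      rw [mul_one_div, div_le_one (by positivity)]
      linarith
    linarith
  -- θ
  obtain ⟨θ, hθ⟩ : ∃ θ : PowerSeries ℝ, θ = PowerSeries.C (1 / (σ δ) ^ 2) * invX (a : ℝ) := ⟨_, rfl⟩
  have hr0 : 0 < |(a : ℝ)| / 2 := by linarith
  have hσδ2 : (1 : ℝ) / (σ δ) ^ 2 ≤ cD d H ^ 2 := by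
    rw [div_le_iff₀ (by positivity)]
    have : 1 ^ 2 ≤ (|σ δ| * cD d H) ^ 2 := pow_le_pow_left₀ (by norm_num) hσδ1 2
    rw [mul_pow, sq_abs] at this
    linarith
  have hθbd' : Bd rn (|(a : ℝ)| / 2) θ ((1 / (σ δ) ^ 2) * (2 / |(a : ℝ)|)) := by
    rw [hθ]
    have h3 := (Bd.C (N := rn) hr0.le (1 / (σ δ) ^ 2)).mul hr0.le (bd_invX a haR)
    have h4 : rn (1 / (σ δ) ^ 2) = 1 / (σ δ) ^ 2 := by
      rw [rn_apply, abs_of_nonneg (by positivity)]
    rwa [h4] at h3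
  have hle1 : (1 / (σ δ) ^ 2) * (2 / |(a : ℝ)|) ≤ B / |(a : ℝ)| := by
    rw [← mul_div_assoc]
    apply div_le_div_of_nonneg_right _ ha0.le
    linarith
  have hθbd : Bd rn (|(a : ℝ)| / 2) θ (B / |(a : ℝ)|) := hθbd'.mono hle1
  have hrad : B / |(a : ℝ)| ≤ ρ := by
    refine le_trans ?_ hρB
    rw [div_le_div_iff₀ ha0 (by linarith)]
    nlinarith
  have hθρ : Bd rn (|(a : ℝ)| / 2) θ ρ := hθbd.mono hrad
  have hmapζ : PowerSeries.map σ ζ = PowerSeries.C ((σ δ) ^ 2) * PowerSeries.X := by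
    rw [hζ, map_mul, PowerSeries.map_C, PowerSeries.map_X, map_pow]
  have hsbζ : sb θ (PowerSeries.map σ ζ) = invX (a : ℝ) := by
    rw [hmapζ, sb_mul hr0 hθρ (Bd.C hρ0.le _) (Bd.X hρ0.le rn_one), sb_C, sb_X, hθ,
      ← mul_assoc, ← map_mul]
    have : (σ δ) ^ 2 * (1 / (σ δ) ^ 2) = 1 := by field_simp
    rw [this, map_one, one_mul]
  have hx : (PowerSeries.C (a : ℝ) + PowerSeries.X) * sb θ (PowerSeries.map σ ζ) = 1 := by
    rw [hsbζ]; exact mul_invX a haR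
  have hmζ : Bd rn ρ (PowerSeries.map σ ζ) 1 := hζbd.map σ hσ hρ0.le
  have hmω : Bd rn ρ (PowerSeries.map σ ω) B := hωbd.map σ hσ hρ0.le
  have hPsb : ev (sb θ (PowerSeries.map σ ζ)) (sb θ (PowerSeries.map σ ω)) (hmg d G) = 0 := by
    rw [← sb_ev hr0 hρ0.le hθρ hmζ hmω, ← map_ev, hP0, map_zero, sb_zero]
  have hF : ev (PowerSeries.C (a : ℝ) + PowerSeries.X)
      ((PowerSeries.C (a : ℝ) + PowerSeries.X) * sb θ (PowerSeries.map σ ω)) G = 0 := by
    rw [ev_hmg _ hx hT, hPsb, mul_zero]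
  -- value at the centre
  obtain ⟨w1, hw1⟩ : ∃ w1, w1 = PowerSeries.constantCoeff (sb θ (PowerSeries.map σ ω)) := ⟨_, rfl⟩
  have hcz : PowerSeries.constantCoeff (sb θ (PowerSeries.map σ ζ)) = (a : ℝ)⁻¹ := by
    rw [hsbζ, ← PowerSeries.coeff_zero_eq_constantCoeff_apply, invX, PowerSeries.coeff_mk]
    simp
  have hPw1 : ev ((a : ℝ)⁻¹) w1 (hmg d G) = 0 := by
    have h3 := congrArg PowerSeries.constantCoeff hPsb
    rw [map_ev, map_zero, hcz, ← hw1] at h3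
    exact h3
  have hPw2 : ev ((a : ℝ)⁻¹) ((b : ℝ) / a) (hmg d G) = 0 := by
    have h3 : ev (a : ℝ) (b : ℝ) G = 0 := by
      have h3 := map_ev (Int.castRingHom ℝ) a b G
      simp only [eq_intCast] at h3
      rw [← h3, hab]; simp
    have h4 := ev_hmg (x := (a : ℝ)) (z := (a : ℝ)⁻¹) ((b : ℝ) / a) (mul_inv_cancel₀ haR) hT
    have h5 : (a : ℝ) * ((b : ℝ) / a) = b := by field_simp
    rw [h5, h3] at h4
    rcases mul_eq_zero.1 h4.symm with h | h
    · exact absurd h (pow_ne_zero _ haR)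
    · exact h
  have hsmall1 : |w1 - σ α| ≤ cR d H := by
    obtain ⟨ρ', hρ'⟩ : ∃ ρ', ρ' = (1 / (σ δ) ^ 2) * (2 / |(a : ℝ)|) := ⟨_, rfl⟩
    rw [← hρ'] at hθbd' hle1
    have hρ'0 : 0 < ρ' := by rw [hρ']; positivity
    have hYσ : Bd rn ρ (PowerSeries.map σ Y) (1 / (2 * T)) := hbd.map σ hσ hρ0.le
    have hYσ' := hYσ.of_vanish hρ0 hρ'0.le (hle1.trans hrad) 1 (by
      intro n hn
      have hn0 : n = 0 := by omega
      rw [hn0, PowerSeries.coeff_map]
      have : PowerSeries.coeff 0 Y = 0 := by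
        rw [PowerSeries.coeff_zero_eq_constantCoeff_apply]
        exact PowerSeries.X_dvd_iff.1 hYX
      rw [this, map_zero])
    have h3 := sb_coeff_le hr0 hθbd' hYσ' 0
    rw [pow_zero, div_one, pow_one] at h3
    have h4 : w1 = σ α + σ δ * PowerSeries.constantCoeff (sb θ (PowerSeries.map σ Y)) := by
      rw [hw1, hω, map_add, map_mul, PowerSeries.map_C, PowerSeries.map_C,
        sb_add hr0 hθρ (Bd.C hρ0.le _) ((Bd.C hρ0.le _).mul hρ0.le hYσ),
        sb_mul hr0 hθρ (Bd.C hρ0.le _) hYσ, sb_C, sb_C]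
      simp
    rw [h4, add_sub_cancel_left, abs_mul]
    rw [PowerSeries.coeff_zero_eq_constantCoeff_apply] at h3
    calc |σ δ| * |PowerSeries.constantCoeff (sb θ (PowerSeries.map σ Y))|
        ≤ |σ δ| * (ρ' / ρ * (1 / (2 * T))) := mul_le_mul_of_nonneg_left h3 (abs_nonneg _)
      _ = 4 * T * (1 / |σ δ|) / |(a : ℝ)| := by
          rw [hρ', hρ, ← sq_abs (σ δ)]
          field_simp
      _ ≤ cR d H := by
          rw [div_le_iff₀ ha0]
          have h5 : 1 / |σ δ| ≤ cD d H := by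
            rw [div_le_iff₀ hσδ0]; linarith
          have h6 : 4 * T * cD d H * (1 / cR d H) ≤ |(a : ℝ)| := by linarith
          have h7 : 4 * T * cD d H ≤ cR d H * |(a : ℝ)| := by
            rw [mul_one_div, div_le_iff₀ hR] at h6
            linarith
          refine le_trans ?_ h7
          exact mul_le_mul_of_nonneg_left h5 (by positivity)
  have hinv : ‖((a : ℝ)⁻¹)‖ ≤ cR d H := by
    rw [norm_inv, Real.norm_eq_abs, inv_le_comm₀ ha0 hR]
    have : 1 / cR d H ≤ |(a : ℝ)| := by linarith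
    rwa [one_div] at this
  have hlt : pn (pn zn) (hmg d G) * (1 + ‖σ α‖) ^ (d + 1 - 1) * ((d + 1 : ℕ) * cR d H)
      < ‖ev 0 (σ α) (derivative (hmg d G))‖ := by
    rw [ev_zero_derivative_hmg _ _ hd0, pn_hmg hT]
    have h3 : 1 / cD d H ≤ ‖evf (σ α) (derivative (lead d G))‖ := by
      rw [div_le_iff₀ hD0]; exact hder
    refine lt_of_le_of_lt ?_ (lt_of_lt_of_le (cS_mul_lt hd0 hH) h3)
    apply mul_le_mul_of_nonneg_right _ (by positivity)
    unfold cS
    apply mul_le_mul hG _ (by positivity) (by linarith)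
    apply pow_le_pow_left₀ (by positivity)
    rw [Real.norm_eq_abs]; linarith
  have hweq : w1 = (b : ℝ) / a := by
    have := close_unique (𝕜 := ℝ) (hmg d G) (d + 1) (d + 1) hPn hPm (σ α) (r := cR d H)
      (by linarith) hlt ((a : ℝ)⁻¹) (w1 - σ α) ((b : ℝ) / a - σ α) hinv
      (by rw [Real.norm_eq_abs]; exact hsmall1) (by rw [Real.norm_eq_abs]; exact hclose)
      (by rw [add_sub_cancel, add_sub_cancel, hPw1, hPw2])
    linarith
  have hy : PowerSeries.constantCoeff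
      ((PowerSeries.C (a : ℝ) + PowerSeries.X) * sb θ (PowerSeries.map σ ω)) = (b : ℝ) := by
    rw [map_mul, ← hw1, hweq]
    simp only [map_add, PowerSeries.constantCoeff_C, PowerSeries.constantCoeff_X, add_zero]
    field_simp
  -- the derivative
  have hdc := ev_close (𝕜 := ℝ) (derivative (hmg d G)) (d + 1) (d + 1) hP'n hP'm (σ α)
    (r := cR d H) (by linarith) ((a : ℝ)⁻¹) ((b : ℝ) / a - σ α) hinv
    (by rw [Real.norm_eq_abs]; exact hclose)
  rw [add_sub_cancel, Real.norm_eq_abs, Nat.add_sub_cancel, Real.norm_eq_abs] at hdc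
  have hsd : ev 0 (σ α) (derivative (hmg d G)) = σ δ := by
    rw [hδ, map_ev, map_zero]
  rw [hsd] at hdc
  have hdd : pn (pn zn) (derivative (hmg d G)) * (1 + |σ α|) ^ d * cR d H ≤
      cS d H * ((d + 1 : ℕ) * cR d H) := by
    have h3 : pn (pn zn) (derivative (hmg d G)) * (1 + |σ α|) ^ d ≤ (d * H) * (1 + H) ^ d := by
      apply mul_le_mul hpP' _ (by positivity) (by positivity)
      exact pow_le_pow_left₀ (by positivity) (by linarith) _
    calc _ ≤ (d * H) * (1 + H) ^ d * cR d H := mul_le_mul_of_nonneg_right h3 hR.le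
      _ ≤ ((d + 1) * H) * (1 + H) ^ d * cR d H := by
          apply mul_le_mul_of_nonneg_right _ hR.le
          apply mul_le_mul_of_nonneg_right _ (by positivity)
          nlinarith
      _ = _ := by unfold cS; push_cast; ring
  have hdlt : |ev ((a : ℝ)⁻¹) ((b : ℝ) / a) (derivative (hmg d G)) - σ δ| < |σ δ| := by
    refine lt_of_le_of_lt (hdc.trans hdd) (lt_of_lt_of_le (cS_mul_lt hd0 hH) ?_)
    rw [div_le_iff₀ hD0]; exact hσδ1
  have hGy : (((ev a b (derivative G) : ℤ)) : ℝ)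
      = (a : ℝ) ^ (d - 1) * ev ((a : ℝ)⁻¹) ((b : ℝ) / a) (derivative (hmg d G)) := by
    have h4 := ev_derivative_hmg (x := (a : ℝ)) (z := (a : ℝ)⁻¹) ((b : ℝ) / a)
      (mul_inv_cancel₀ haR) hT hd0
    have h5 : (a : ℝ) * ((b : ℝ) / a) = b := by field_simp
    rw [h5] at h4
    rw [← h4]
    have h3 := map_ev (Int.castRingHom ℝ) a b (derivative G)
    simp only [eq_intCast] at h3
    exact h3
  refine ⟨⟨ζ, ω, ρ, θ, hB2, hBa, hρB, hζbd, hωbd, hθbd, hx, hy, hF, ?_, ?_, ?_⟩⟩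
  · intro h0
    rw [h0, Int.cast_zero] at hGy
    rcases mul_eq_zero.1 hGy.symm with h | h
    · exact absurd h (pow_ne_zero _ haR)
    · rw [h, zero_sub, abs_neg] at hdlt
      exact lt_irrefl _ hdlt
  · rw [hGy, abs_mul, abs_pow]
    have h3 : |ev ((a : ℝ)⁻¹) ((b : ℝ) / a) (derivative (hmg d G))| ≤ |(a : ℝ)| := by
      have h4 : |ev ((a : ℝ)⁻¹) ((b : ℝ) / a) (derivative (hmg d G))| ≤ 2 * |σ δ| := by
        have := abs_sub_abs_le_abs_sub (ev ((a : ℝ)⁻¹) ((b : ℝ) / a) (derivative (hmg d G))) (σ δ)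
        linarith
      have h5 := hσ δ
      linarith
    have h6 : |(a : ℝ)| ^ d = |(a : ℝ)| ^ (d - 1) * |(a : ℝ)| := by
      rw [← pow_succ]; congr 1; omega
    rw [h6]
    exact mul_le_mul_of_nonneg_left h3 (by positivity)
  · linarith

end mk

end Pool.Agent.H322R2
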