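import Pool.Agent.H322R2.ANum
import Pool.Agent.H322R2.Branch

/-!
Anchors: the integer point `(a, P(a))` on the curve `y^d = P(a)^(d-1) P(x)`.
-/

open Polynomial Finset

namespace Pool.Agent.H322R2

/-- the anchor curve -/
noncomputable def FA (d : ℕ) (m : ℤ) (P : ℤ[X]) : ℤ[X][X] := X ^ d - C (C (m ^ (d - 1)) * P)

/-- size of the expansion -/
noncomputable def tA (d : ℕ) (h : ℝ) : ℝ := (d : ℝ) ^ (3 * (d + 1)) * ((1 + h) * 2 ^ d)

/-- size of the inverse radius -/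
noncomputable def cA (d : ℕ) (h : ℝ) : ℝ := 4 * tA d h ^ 2

lemma pn_reverse (P : ℤ[X]) : pn zn P.reverse = pn zn P := by
  rw [pn_eq_range zn P.reverse (n := P.natDegree + 1) (by
      have := P.reverse_natDegree_le; omega),
    pn_eq_range zn P (n := P.natDegree + 1) (by omega), ← Finset.sum_range_reflect]
  apply Finset.sum_congr rfl
  intro i hi
  rw [Finset.mem_range] at hi
  rw [coeff_reverse, revAt_le (by omega)]
  congr 2
  omega

lemma evf_zero {S : Type*} [CommRing S] (p : ℤ[X]) : evf (0 : S) p = ((p.coeff 0 : ℤ) : S) := by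
  rw [evf, coe_eval₂RingHom, eval₂_at_zero]
  rfl

section FAfacts

variable {d : ℕ} {m : ℤ} {P : ℤ[X]}

lemma FA_monic (hd : 0 < d) : (FA d m P).Monic := monic_X_pow_sub_C _ (by omega)

lemma FA_natDegree (hd : 0 < d) : (FA d m P).natDegree = d := natDegree_X_pow_sub_C

lemma ev_FA {S : Type*} [CommRing S] (x y : S) :
    ev x y (FA d m P) = y ^ d - (m : S) ^ (d - 1) * evf x P := by
  rw [FA, map_sub, map_pow, ev_X, ev_C, map_mul, evf_C]
  push_cast
  rfl

lemma FA_derivative (hd : 0 < d) : derivative (FA d m P) = C (d : ℤ[X]) * X ^ (d - 1) := by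
  rw [FA, derivative_sub, derivative_C, sub_zero, derivative_X_pow]

lemma FA_coeff_natDegree (hd : 0 < d) (hPd : P.natDegree ≤ d) (j : ℕ) :
    ((FA d m P).coeff j).natDegree ≤ d := by
  rw [FA, coeff_sub, coeff_X_pow, coeff_C]
  refine (natDegree_sub_le _ _).trans (max_le ?_ ?_)
  · split_ifs <;> simp
  · split_ifs
    · exact (natDegree_C_mul_le _ _).trans hPd
    · simp

lemma pn_FA_le {h : ℝ} (hP : pn zn P ≤ h) :
    pn (pn zn) (FA d m P) ≤ 1 + |(m : ℝ)| ^ (d - 1) * h := by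
  rw [FA, sub_eq_add_neg]
  refine (map_add_le_add _ _ _).trans ?_
  rw [map_neg_eq_map]
  apply add_le_add
  · refine (seminorm_pow_le _ pn2_one _ _).trans (pow_le_one₀ (apply_nonneg _ _) ?_)
    rw [pn_X]
    exact pnz_one
  · rw [pn_C]
    refine (map_mul_le_mul _ _ _).trans ?_
    rw [pn_C, zn_apply]
    push_cast
    rw [abs_pow]
    exact mul_le_mul_of_nonneg_left hP (by positivity)

lemma FA_prime (hd : 0 < d) (hm0 : m ≠ 0) (hPm : P.Monic) {g : ℤ[X]} (hg : Irreducible g)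
    (hgP : g ∣ P) (hg2 : ¬ g ^ 2 ∣ P) : Prime (FA d m P) := by
  have hgp : Prime g := hg.prime
  have hprim : (Ideal.span {g}).IsPrime := (Ideal.span_singleton_prime hgp.ne_zero).2 hgp
  have hcoeff : ∀ j, (FA d m P).coeff j = (if j = d then 1 else 0) -
      (if j = 0 then C (m ^ (d - 1)) * P else 0) := by
    intro j
    rw [FA, coeff_sub, coeff_X_pow, coeff_C]
  have hirr : Irreducible (FA d m P) := by
    apply irreducible_of_eisenstein_criterion (P := Ideal.span {g}) hprim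
    · rw [(FA_monic hd).leadingCoeff]
      intro h1
      exact hprim.ne_top ((Ideal.eq_top_iff_one _).2 h1)
    · intro n hn
      rw [degree_eq_natDegree (FA_monic hd).ne_zero, FA_natDegree hd] at hn
      have hn' : n < d := by exact_mod_cast hn
      rw [hcoeff, if_neg (by omega), zero_sub]
      apply neg_mem
      split_ifs
      · rw [Ideal.mem_span_singleton]
        exact hgP.mul_left _
      · exact zero_mem _
    · rw [degree_eq_natDegree (FA_monic hd).ne_zero, FA_natDegree hd]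
      exact_mod_cast hd
    · rw [hcoeff, if_neg (by omega), if_pos rfl, zero_sub]
      intro h1
      rw [neg_mem_iff, Ideal.span_singleton_pow, Ideal.mem_span_singleton] at h1
      have hnd : ¬ g ∣ C (m ^ (d - 1)) := by
        intro h2
        obtain ⟨q, hq⟩ := hgP
        have hgl : IsUnit g.leadingCoeff := by
          have h3 : g.leadingCoeff * q.leadingCoeff = 1 := by
            rw [← leadingCoeff_mul, ← hq]; exact hPm
          exact IsUnit.of_mul_eq_one _ h3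
        obtain ⟨w, hw⟩ := h2
        have hw0 : w ≠ 0 := by
          rintro rfl
          rw [mul_zero, C_eq_zero] at hw
          exact pow_ne_zero _ hm0 hw
        have hdeg := congrArg natDegree hw
        rw [natDegree_C, natDegree_mul hgp.ne_zero hw0] at hdeg
        have hg0 : g.natDegree = 0 := by omega
        rw [eq_C_of_natDegree_eq_zero hg0] at hg hgl
        rw [leadingCoeff_C] at hgl
        exact hg.not_isUnit (hgl.map C)
      apply hg2
      have h3 := hgp.pow_dvd_of_dvd_mul_left 2 hnd h1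
      exact h3
    · exact (FA_monic hd).isPrimitive
  exact hirr.prime

end FAfacts

lemma tA_facts {d : ℕ} (hd : 0 < d) {h : ℝ} (hh : 1 ≤ h) : (d : ℝ) ≤ tA d h ∧ 4 ≤ tA d h := by
  have hd1 : (1 : ℝ) ≤ d := by exact_mod_cast hd
  have e1 : (d : ℝ) ≤ (d : ℝ) ^ (3 * (d + 1)) := le_self_pow₀ hd1 (by omega)
  have e2 : (2 : ℝ) ≤ 2 ^ d := le_self_pow₀ (by norm_num) (by omega)
  have e3 : 4 ≤ (1 + h) * 2 ^ d := by nlinarith
  unfold tA
  constructor
  · refine e1.trans ?_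
    exact le_mul_of_one_le_right (by positivity) (by linarith)
  · refine e3.trans ?_
    exact le_mul_of_one_le_left (by positivity) (by linarith)

section mk

variable {A : Type*} [CommRing A] {N : RingSeminorm A} {σ : A →+* ℝ}

theorem mkAP (h1 : N 1 ≤ 1) (hσ : ∀ x, |σ x| ≤ N x) {d : ℕ} (hd : 0 < d) {P : ℤ[X]}
    (hm : P.Monic) (hPd : P.natDegree = d) {h : ℝ} (hh : 1 ≤ h) (hP : pn zn P ≤ h)
    (β : A) (m a : ℤ) (ha : 0 < a) (hPa : P.eval a = m) (hm0 : 0 < m)
    (hβ : β ^ d = (m : A) ^ (d - 1)) (hσβ : 0 < σ β) {W B : ℝ} (hW1 : 2 * N β ≤ W)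
    (hW2 : 1 + (m : ℝ) ^ (d - 1) * h ≤ W) (hB : cA d h ≤ B) (hBa : B ^ 2 ≤ (a : ℝ))
    (hma : (m : ℝ) ≤ (a : ℝ) ^ (d + 1)) (hda : (d : ℝ) ≤ a) :
    Nonempty (AP N σ (d ^ 2) B W (FA d m P) a m) := by
  obtain ⟨T, hT⟩ : ∃ T, T = tA d h := ⟨_, rfl⟩
  obtain ⟨hT1, hT2⟩ := tA_facts hd hh
  rw [← hT] at hT1 hT2
  have hcB : 4 * T ^ 2 ≤ B := by rw [hT]; exact hB
  have hT0 : 0 < T := by linarith
  have hd1 : (1 : ℝ) ≤ d := by exact_mod_cast hd
  have hB2 : 2 ≤ B := by nlinarith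
  have haR : (0 : ℝ) < a := by exact_mod_cast ha
  have haR0 : (a : ℝ) ≠ 0 := haR.ne'
  have habs : |(a : ℝ)| = a := abs_of_pos haR
  have hmR : (0 : ℝ) < m := by exact_mod_cast hm0
  -- the curve at infinity
  obtain ⟨G, hG⟩ : ∃ G : ℤ[X][X], G = X ^ d - C P.reverse := ⟨_, rfl⟩
  have hGn : G.natDegree < d + 1 := by
    rw [hG, natDegree_X_pow_sub_C]; omega
  have hGm : ∀ j, (G.coeff j).natDegree < d + 1 := by
    intro j
    rw [hG, coeff_sub, coeff_X_pow, coeff_C]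
    refine lt_of_le_of_lt (natDegree_sub_le _ _) (max_lt ?_ ?_)
    · split_ifs <;> simp
    · split_ifs
      · have := P.reverse_natDegree_le; omega
      · simp
  have hG0 : ev (0 : A) 1 G = 0 := by
    rw [hG, map_sub, map_pow, ev_X, ev_C, one_pow, evf_zero, coeff_zero_reverse, hm.leadingCoeff]
    simp
  obtain ⟨Y, hYX, hYP, hYbd⟩ := hensel_ev G (d + 1) (d + 1) hGn hGm (0 : A) 1 hG0
  obtain ⟨δ, hδ⟩ : ∃ δ, δ = ev (0 : A) 1 (derivative G) := ⟨_, rfl⟩
  have hδd : δ = ((d : ℤ) : A) := by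
    rw [hδ, hG, derivative_sub, derivative_C, sub_zero, derivative_X_pow, map_mul, map_pow, ev_X,
      one_pow, mul_one, ev_C]
    simp
  rw [← hδ] at hYP hYbd
  have hNδ : N δ ≤ d := by
    rw [hδd]
    refine (N_int_le N h1 _).trans (le_of_eq ?_)
    push_cast
    rw [abs_of_nonneg (by linarith)]
  have hσδ : σ δ = d := by rw [hδd, map_intCast]; push_cast; rfl
  have hpG : pn (pn zn) G ≤ 1 + h := by
    rw [hG, sub_eq_add_neg]
    refine (map_add_le_add _ _ _).trans ?_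
    rw [map_neg_eq_map, pn_C, pn_reverse]
    apply add_le_add _ hP
    refine (seminorm_pow_le _ pn2_one _ _).trans (pow_le_one₀ (apply_nonneg _ _) ?_)
    rw [pn_X]
    exact pnz_one
  have hbd := hYbd N h1 T (by linarith) (by
    rw [map_zero, add_zero, one_pow, mul_one, Nat.add_sub_cancel, hT]
    unfold tA
    apply mul_le_mul
    · have : 2 * (d + 1) + (d + 1) = 3 * (d + 1) := by ring
      rw [this]
      exact pow_le_pow_left₀ (by positivity) (max_le hd1 hNδ) _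
    · apply mul_le_mul hpG _ (by have := apply_nonneg N (1 : A); positivity) (by linarith)
      apply pow_le_pow_left₀ (by have := apply_nonneg N (1 : A); positivity)
      linarith
    · have := apply_nonneg (pn (pn zn)) G
      have := apply_nonneg N (1 : A)
      positivity
    · positivity)
  obtain ⟨ρ, hρ⟩ : ∃ ρ, ρ = 1 / (4 * T ^ 2) := ⟨_, rfl⟩
  rw [← hρ] at hbd
  have hρ0 : 0 < ρ := by rw [hρ]; positivity
  have hρB : 1 / B ≤ ρ := by
    rw [hρ]
    exact one_div_le_one_div_of_le (by positivity) hcB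
  obtain ⟨ζ, hζ⟩ : ∃ ζ : PowerSeries A, ζ = PowerSeries.C (δ ^ 2) * PowerSeries.X := ⟨_, rfl⟩
  obtain ⟨Ω, hΩ⟩ : ∃ Ω : PowerSeries A, Ω = PowerSeries.C 1 + PowerSeries.C δ * Y := ⟨_, rfl⟩
  obtain ⟨ω, hω⟩ : ∃ ω : PowerSeries A, ω = PowerSeries.C β * Ω := ⟨_, rfl⟩
  have hP0 : ev ζ Ω G = 0 := by
    rw [hζ, hΩ]
    rw [map_zero, zero_add] at hYP
    exact hYP
  have hNδ2 : N (δ ^ 2) ≤ T ^ 2 := by
    refine (seminorm_pow_le N h1 δ 2).trans ?_
    exact pow_le_pow_left₀ (apply_nonneg _ _) (by linarith) _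
  have hζbd : Bd N ρ ζ 1 := by
    rw [hζ]
    refine ((Bd.C hρ0.le (δ ^ 2)).mul hρ0.le (Bd.X hρ0.le h1)).mono ?_
    calc N (δ ^ 2) * ρ ≤ T ^ 2 * ρ := mul_le_mul_of_nonneg_right hNδ2 hρ0.le
      _ = 1 / 4 := by rw [hρ]; field_simp
      _ ≤ 1 := by norm_num
  have hδY : Bd N ρ (PowerSeries.C δ * Y) (1 / 2) := by
    refine ((Bd.C hρ0.le δ).mul hρ0.le hbd).mono ?_
    rw [mul_one_div, div_le_div_iff₀ (by positivity) (by norm_num)]
    linarith
  have hΩbd : Bd N ρ Ω 2 := by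
    rw [hΩ]
    refine ((Bd.C hρ0.le (1 : A)).add hρ0.le hδY).mono ?_
    linarith
  have hωbd : Bd N ρ ω W := by
    rw [hω]
    refine ((Bd.C hρ0.le β).mul hρ0.le hΩbd).mono ?_
    linarith
  -- θ
  obtain ⟨θ, hθ⟩ : ∃ θ : PowerSeries ℝ, θ = PowerSeries.C (1 / (σ δ) ^ 2) * invX (a : ℝ) := ⟨_, rfl⟩
  have hr0 : 0 < |(a : ℝ)| / 2 := by rw [habs]; linarith
  have hσδ1 : 1 ≤ σ δ := by rw [hσδ]; exact hd1
  have hσδ0 : 0 < σ δ := by linarith
  have hσδne : σ δ ≠ 0 := hσδ0.ne'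
  have hσδ2 : (1 : ℝ) / (σ δ) ^ 2 ≤ 1 := by
    rw [div_le_one (by positivity)]
    exact one_le_pow₀ hσδ1
  have hθbd : Bd rn (|(a : ℝ)| / 2) θ (B / |(a : ℝ)|) := by
    rw [hθ]
    refine ((Bd.C (N := rn) hr0.le (1 / (σ δ) ^ 2)).mul hr0.le (bd_invX a haR0)).mono ?_
    rw [rn_apply, abs_of_nonneg (by positivity), ← mul_div_assoc]
    apply div_le_div_of_nonneg_right _ (abs_nonneg _)
    nlinarith
  have hrad : B / |(a : ℝ)| ≤ ρ := by
    refine le_trans ?_ hρB
    rw [habs, div_le_div_iff₀ haR (by linarith)]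
    nlinarith
  have hθρ : Bd rn (|(a : ℝ)| / 2) θ ρ := hθbd.mono hrad
  have hmapζ : PowerSeries.map σ ζ = PowerSeries.C ((σ δ) ^ 2) * PowerSeries.X := by
    rw [hζ, map_mul, PowerSeries.map_C, PowerSeries.map_X, map_pow]
  have hsbζ : sb θ (PowerSeries.map σ ζ) = invX (a : ℝ) := by
    rw [hmapζ, sb_mul hr0 hθρ (Bd.C hρ0.le _) (Bd.X hρ0.le rn_one), sb_C, sb_X, hθ,
      ← mul_assoc, ← map_mul]
    have : (σ δ) ^ 2 * (1 / (σ δ) ^ 2) = 1 := by field_simp
    rw [this, map_one, one_mul]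
  have hx : (PowerSeries.C (a : ℝ) + PowerSeries.X) * sb θ (PowerSeries.map σ ζ) = 1 := by
    rw [hsbζ]; exact mul_invX a haR0
  have hmζ : Bd rn ρ (PowerSeries.map σ ζ) 1 := hζbd.map σ hσ hρ0.le
  have hmΩ : Bd rn ρ (PowerSeries.map σ Ω) 2 := hΩbd.map σ hσ hρ0.le
  obtain ⟨Φ, hΦ⟩ : ∃ Φ, Φ = sb θ (PowerSeries.map σ Ω) := ⟨_, rfl⟩
  have hPsb : ev (invX (a : ℝ)) Φ G = 0 := by
    rw [hΦ, ← hsbζ, ← sb_ev hr0 hρ0.le hθρ hmζ hmΩ, ← map_ev, hP0, map_zero, sb_zero]
  obtain ⟨x, hxdef⟩ : ∃ x : PowerSeries ℝ, x = PowerSeries.C (a : ℝ) + PowerSeries.X := ⟨_, rfl⟩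
  have hxinv : x * invX (a : ℝ) = 1 := by rw [hxdef]; exact mul_invX a haR0
  have hΦd : Φ ^ d * x ^ d = evf x P := by
    have h3 : Φ ^ d = evf (invX (a : ℝ)) P.reverse := by
      rw [hG, map_sub, map_pow, ev_X, ev_C, sub_eq_zero] at hPsb
      exact hPsb
    letI : Invertible x := ⟨invX (a : ℝ), by rw [mul_comm]; exact hxinv, hxinv⟩
    have h4 := eval₂_reverse_mul_pow (Int.castRingHom (PowerSeries ℝ)) x P
    rw [hPd] at h4
    rw [h3, evf, evf, coe_eval₂RingHom, coe_eval₂RingHom]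
    exact h4
  have hsbω : sb θ (PowerSeries.map σ ω) = PowerSeries.C (σ β) * Φ := by
    rw [hω, map_mul, PowerSeries.map_C, sb_mul hr0 hθρ (Bd.C hρ0.le _) hmΩ, sb_C, hΦ]
  have hσβd : (σ β) ^ d = (m : ℝ) ^ (d - 1) := by
    rw [← map_pow, hβ, map_pow, map_intCast]
  have hF : ev x (x * sb θ (PowerSeries.map σ ω)) (FA d m P) = 0 := by
    rw [ev_FA, hsbω, mul_pow, mul_pow, ← map_pow, hσβd, ← hΦd]
    have : PowerSeries.C ((m : ℝ) ^ (d - 1)) = (m : PowerSeries ℝ) ^ (d - 1) := by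
      rw [map_pow, map_intCast]
    rw [this]
    ring
  -- value at the centre
  obtain ⟨w, hw⟩ : ∃ w, w = PowerSeries.constantCoeff Φ := ⟨_, rfl⟩
  have hwpos : 0 < w := by
    have h3 : Φ = PowerSeries.C 1 + sb θ (PowerSeries.map σ (PowerSeries.C δ * Y)) := by
      rw [hΦ, hΩ, map_add, PowerSeries.map_C, map_one,
        sb_add hr0 hθρ (Bd.C hρ0.le _) (hδY.map σ hσ hρ0.le), sb_C]
    have h4 := sb_coeff_le hr0 hθρ (hδY.map σ hσ hρ0.le) 0
    rw [pow_zero, div_one, PowerSeries.coeff_zero_eq_constantCoeff_apply] at h4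
    rw [hw, h3, map_add, PowerSeries.constantCoeff_C]
    have := (abs_le.1 h4).1
    linarith
  obtain ⟨c0, hc0⟩ : ∃ c0, c0 = PowerSeries.constantCoeff (x * sb θ (PowerSeries.map σ ω)) :=
    ⟨_, rfl⟩
  have hcx : PowerSeries.constantCoeff x = (a : ℝ) := by rw [hxdef]; simp
  have hc0' : c0 = a * (σ β * w) := by
    rw [hc0, hsbω, map_mul, map_mul, hcx, PowerSeries.constantCoeff_C, hw]
  have hc0pos : 0 < c0 := by rw [hc0']; positivity
  have hc0m : c0 = m := by
    have h3 := congrArg PowerSeries.constantCoeff hF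
    rw [map_ev, map_zero, hcx, ← hc0, ev_FA, sub_eq_zero] at h3
    have h4 : evf (a : ℝ) P = m := by
      have h5 := map_evf (Int.castRingHom ℝ) a P
      simp only [eq_intCast] at h5
      rw [← h5]
      have h6 : evf a P = P.eval a := by
        rw [evf, coe_eval₂RingHom, eval₂_eq_eval_map]
        have : (Int.castRingHom ℤ) = RingHom.id ℤ := RingHom.ext_int _ _
        rw [this, Polynomial.map_id]
      rw [h6, hPa]
    rw [h4, ← pow_succ, Nat.sub_add_cancel hd] at h3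
    exact (pow_left_inj₀ hc0pos.le hmR.le (by omega)).1 h3
  have hder : ev a m (derivative (FA d m P)) = d * m ^ (d - 1) := by
    rw [FA_derivative hd, map_mul, map_pow, ev_X, ev_C]
    simp
  refine ⟨⟨ζ, ω, ρ, θ, hB2, ?_, ?_, hρB, hζbd, hωbd, hθbd, hx, ?_, ?_, ?_, ?_, ?_⟩⟩
  · have : 0 ≤ (m : ℝ) ^ (d - 1) * h := by positivity
    linarith
  · rw [habs]; exact hBa
  · rw [← hxdef, ← hc0]; exact hc0m
  · rw [← hxdef]; exact hF
  · rw [hder]
    have : (d : ℤ) ≠ 0 := by exact_mod_cast hd.ne'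
    exact mul_ne_zero this (pow_ne_zero _ hm0.ne')
  · rw [hder, habs]
    push_cast
    rw [abs_of_nonneg (by positivity)]
    calc (d : ℝ) * (m : ℝ) ^ (d - 1) ≤ a * ((a : ℝ) ^ (d + 1)) ^ (d - 1) := by
          apply mul_le_mul hda _ (by positivity) haR.le
          exact pow_le_pow_left₀ hmR.le hma _
      _ = (a : ℝ) ^ (d ^ 2) := by
          rw [← pow_mul, ← pow_succ']
          congr 1
          obtain ⟨e, rfl⟩ : ∃ e, d = e + 1 := ⟨d - 1, by omega⟩
          simp only [Nat.add_sub_cancel]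
          ring
  · refine (pn_FA_le hP).trans ?_
    rw [abs_of_pos hmR]
    exact hW2

end mk

end Pool.Agent.H322R2
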