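import Pool.Agent.H322R2.AAnch

/-!
The bound for integer points on monic curves, with an effective constant for a class of fields.
-/

open Polynomial Finset NumberField IntermediateField

namespace Pool.Agent.H322R2

/-- the exponent -/
def eM (d K : ℕ) : ℕ := 10 ^ 4 * (d + 1) ^ 7 * K

lemma exp1M_le {d K : ℕ} (hd : 0 < d) (hK : 1 ≤ K) : (d + 1) * (2176 * d ^ 6) ≤ eM d K := by
  unfold eM
  have h2 : d ^ 6 ≤ (d + 1) ^ 6 := Nat.pow_le_pow_left (by omega) _
  calc (d + 1) * (2176 * d ^ 6) ≤ (d + 1) * (2176 * (d + 1) ^ 6) := by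
        apply Nat.mul_le_mul_left
        exact Nat.mul_le_mul_left _ h2
    _ = 2176 * (d + 1) ^ 7 := by ring
    _ ≤ 10 ^ 4 * (d + 1) ^ 7 := Nat.mul_le_mul_right _ (by norm_num)
    _ = 10 ^ 4 * (d + 1) ^ 7 * 1 := by ring
    _ ≤ _ := Nat.mul_le_mul_left _ hK

lemma exp2M_le {d K : ℕ} (hd : 0 < d) : (d + 1) * (64 * d ^ 2) * K ≤ eM d K := by
  unfold eM
  apply Nat.mul_le_mul_right
  have h2 : d ^ 2 ≤ (d + 1) ^ 6 := by
    calc d ^ 2 ≤ (d + 1) ^ 2 := Nat.pow_le_pow_left (by omega) _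
      _ ≤ (d + 1) ^ 6 := Nat.pow_le_pow_right (by omega) (by norm_num)
  calc (d + 1) * (64 * d ^ 2) ≤ (d + 1) * (64 * (d + 1) ^ 6) := by
        apply Nat.mul_le_mul_left
        exact Nat.mul_le_mul_left _ h2
    _ = 64 * (d + 1) ^ 7 := by ring
    _ ≤ 10 ^ 4 * (d + 1) ^ 7 := Nat.mul_le_mul_right _ (by norm_num)

/-- effective bound for points near a branch over the field `L` -/
def EffB (d K : ℕ) (c : ℝ) (L : IntermediateField ℚ ℝ) : Prop :=
  ∀ (_ : NumberField L), Module.finrank ℚ L = d → ∀ (G : ℤ[X][X]) (H : ℝ) (α : 𝓞 L) (a b : ℤ),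
    Pt (hs L) (rE L (algebraMap L ℝ)) d G H α a b → |(a : ℝ)| ≤ (c * bB d H) ^ K

theorem monic_boundA {d : ℕ} (hd : 3 ≤ d) {c : ℝ} (hc1 : 1 ≤ c) {K : ℕ} (hK : 1 ≤ K)
    (G : ℤ[X][X]) (hm : G.Monic) (hdeg : G.natDegree = d) (hp : Prime G)
    (hT : TD d G) (H : ℝ) (hH : 1 ≤ H) (hG : pn (pn zn) G ≤ H)
    (hn : nrm (lead d G) d (derivative (lead d G)) ≠ 0)
    (hS : ∀ η : ℝ, evf η (lead d G) = 0 → Module.finrank ℚ ℚ⟮η⟯ = d → EffB d K c ℚ⟮η⟯)
    (a b : ℤ) (hab : ev a b G = 0) :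
    |(a : ℝ)| ≤ (c * (2 + H)) ^ (eM d K) := by
  have hd0 : 0 < d := by omega
  obtain ⟨H', hH'⟩ : ∃ H', H' = (2 + H) ^ d := ⟨_, rfl⟩
  have hHH' : H ≤ H' := by
    rw [hH']
    calc H ≤ 2 + H := by linarith
      _ = (2 + H) ^ 1 := by rw [pow_one]
      _ ≤ _ := pow_le_pow_right₀ (by linarith) hd0
  have hH'1 : 1 ≤ H' := by linarith
  have hH'2 : 2 + H' ≤ (2 + H) ^ (d + 1) := by rw [hH']; exact two_add_pow_le hH hd0
  by_cases hlarge : (2 + H') ^ (2176 * d ^ 6) < |(a : ℝ)|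
  swap
  · push_neg at hlarge
    refine hlarge.trans ((pow_le_pow_left₀ (by linarith) hH'2 _).trans ?_)
    rw [← pow_mul]
    refine (pow_le_pow_right₀ (by linarith) (exp1M_le hd0 hK)).trans ?_
    apply pow_le_pow_left₀ (by linarith)
    exact le_mul_of_one_le_left (by linarith) hc1
  have h2H' : 1 ≤ 2 + H' := by linarith
  have hthr : cS d H' * (2 / cR d H') ^ d ≤ |(a : ℝ)| := by
    refine ((thr_le hd0 hH'1).trans (pow_le_pow_right₀ h2H' ?_)).trans hlarge.le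
    have : d ^ 3 ≤ d ^ 6 := Nat.pow_le_pow_right hd0 (by norm_num)
    omega
  have hsq : bB d H' ^ 2 ≤ |(a : ℝ)| := by
    refine ((bB_sq_le hd0 hH'1).trans (pow_le_pow_right₀ h2H' ?_)).trans hlarge.le
    have : d ^ 3 ≤ d ^ 6 := Nat.pow_le_pow_right hd0 (by norm_num)
    omega
  have ha0 : a ≠ 0 := by
    rintro rfl
    simp only [Int.cast_zero, abs_zero] at hlarge
    have : (0 : ℝ) ≤ (2 + H') ^ (2176 * d ^ 6) := by positivity
    linarith
  obtain ⟨η, hη0, hnear, hder, hηH⟩ := root_sel hd0 hm hdeg hT hH'1 (hG.trans hHH') hn a b ha0 hab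
    hthr
  obtain ⟨hgm, hgd⟩ := lead_monic hm hdeg
  have hpg : pn zn (lead d G) ≤ H := (pn_lead_le hdeg.le).trans hG
  have hint : IsIntegral ℤ η := ⟨lead d G, hgm, hη0⟩
  obtain ⟨g1, hg1⟩ : ∃ g1, g1 = minpoly ℤ η := ⟨_, rfl⟩
  have hg1m : g1.Monic := by rw [hg1]; exact minpoly.monic hint
  have hevf : ∀ p : ℤ[X], evf η p = aeval η p := by
    intro p
    rw [aeval_def, evf, coe_eval₂RingHom]
    congr 1
  have hg1r : evf η g1 = 0 := by rw [hevf, hg1]; exact minpoly.aeval ℤ η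
  have hg1d : g1 ∣ lead d G := by
    rw [hg1]
    exact minpoly.isIntegrallyClosed_dvd hint (by rw [← hevf]; exact hη0)
  have hfin : Module.finrank ℚ ℚ⟮η⟯ = g1.natDegree := by
    rw [IntermediateField.adjoin.finrank (hint.tower_top), hg1,
      minpoly.isIntegrallyClosed_eq_field_fractions' ℚ hint, (minpoly.monic hint).natDegree_map]
  have hg1le : g1.natDegree ≤ d := by
    rw [← hgd]; exact natDegree_le_of_dvd hg1d hgm.ne_zero
  have hg1pos : 0 < g1.natDegree := by rw [hg1]; exact minpoly.natDegree_pos hint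
  rcases lt_or_eq_of_le hg1le with hlt | heq
  · exfalso
    have hpg1 : pn zn g1 ≤ H' := by
      refine (pn_le_of_roots g1 hg1m H (by linarith) ?_).trans ?_
      · intro z hz
        apply root_norm_le (lead d G) hgm H hH hpg z
        obtain ⟨q, hq⟩ := hg1d
        rw [hq, map_mul, hz, zero_mul]
      · rw [hH']
        calc (1 + H) ^ g1.natDegree ≤ (2 + H) ^ g1.natDegree :=
              pow_le_pow_left₀ (by linarith) (by linarith) _
          _ ≤ (2 + H) ^ d := pow_le_pow_right₀ (by linarith) hg1le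
    have P : Pt (os hg1m) (sR η hg1r) d G H' (AdjoinRoot.root g1) a b := by
      refine ⟨hm, hdeg, hp, hT, hH'1, hG.trans hHH', ?_, ?_, ?_, ?_, hab, ?_⟩
      · obtain ⟨q, hq⟩ := hg1d
        rw [hq, map_mul, evf_root, zero_mul]
      · exact (os_root hg1m).trans (by linarith)
      · rw [sR_root]; exact hηH
      · rw [sR_root]; exact hder
      · rw [sR_root]; exact hnear
    obtain ⟨Q⟩ := P.bp (os_one hg1m) (abs_sR_le hg1m hg1pos η hg1r) hd0 hsq
    have h3 := runge_bound (os_one hg1m) (abs_sR_le hg1m hg1pos η hg1r)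
      (AdjoinRoot.powerBasisAux' hg1m) 1 (le_refl _) (abs_repr_le hg1m hg1pos) Q hm hdeg hp
      (by rw [Fintype.card_fin]; exact hg1pos) (by rw [Fintype.card_fin]; exact hlt)
    rw [one_mul, bB, ← pow_mul] at h3
    have h4 : 64 * d ^ 2 * (34 * d ^ 4) = 2176 * d ^ 6 := by ring
    rw [h4] at h3
    exact absurd hlarge (not_lt.2 h3)
  · have hfd : FiniteDimensional ℚ ℚ⟮η⟯ :=
      IntermediateField.adjoin.finiteDimensional (hint.tower_top)
    haveI hnf : NumberField ℚ⟮η⟯ := { to_charZero := inferInstance, to_finiteDimensional := hfd }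
    have hfind : Module.finrank ℚ ℚ⟮η⟯ = d := by rw [hfin, heq]
    obtain ⟨x, hx⟩ : ∃ x : ℚ⟮η⟯, algebraMap ℚ⟮η⟯ ℝ x = η :=
      ⟨IntermediateField.AdjoinSimple.gen ℚ η, IntermediateField.AdjoinSimple.algebraMap_gen ℚ η⟩
    have hx0 : evf x (lead d G) = 0 := by
      have h3 := map_evf (algebraMap ℚ⟮η⟯ ℝ) x (lead d G)
      rw [hx, hη0] at h3
      exact (algebraMap ℚ⟮η⟯ ℝ).injective (by rw [h3, map_zero])
    obtain ⟨α, hα1, hα2, hα3⟩ := exists_alpha ℚ⟮η⟯ (algebraMap ℚ⟮η⟯ ℝ) (lead d G) hgm H hH hpg x hx0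
    rw [hx] at hα1
    have P : Pt (hs ℚ⟮η⟯) (rE ℚ⟮η⟯ (algebraMap ℚ⟮η⟯ ℝ)) d G H' α a b := by
      refine ⟨hm, hdeg, hp, hT, hH'1, hG.trans hHH', hα2, by linarith, ?_, ?_, hab, ?_⟩
      · rw [hα1]; exact hηH
      · rw [hα1]; exact hder
      · rw [hα1]; exact hnear
    have h3 := hS η hη0 hfind hnf hfind G H' α a b P
    refine h3.trans ?_
    have h4 : bB d H' ≤ (2 + H) ^ ((d + 1) * (64 * d ^ 2)) := by
      unfold bB
      have h6 : (2 + H) ^ ((d + 1) * (64 * d ^ 2)) = ((2 + H) ^ (d + 1)) ^ (64 * d ^ 2) :=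
        pow_mul _ _ _
      rw [h6]
      exact pow_le_pow_left₀ (by linarith) hH'2 _
    have h5 : c * bB d H' ≤ (c * (2 + H)) ^ ((d + 1) * (64 * d ^ 2)) := by
      rw [mul_pow]
      apply mul_le_mul _ h4 (by unfold bB; positivity) (by positivity)
      calc c = (c) ^ 1 := by rw [pow_one]
        _ ≤ _ := pow_le_pow_right₀ hc1 (Nat.mul_pos (by omega) (by positivity))
    have hbB0 : 0 ≤ bB d H' := by unfold bB; positivity
    refine (pow_le_pow_left₀ (by positivity) h5 _).trans ?_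
    rw [← pow_mul]
    apply pow_le_pow_right₀ _ (exp2M_le hd0)
    exact one_le_mul_of_one_le_of_one_le hc1 (by linarith)

end Pool.Agent.H322R2
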