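import Pool.Agent.H322R2.ACore2

/-!
Numerical part of the anchor argument.
-/

open Finset

namespace Pool.Agent.H322R2

/-- constant -/
noncomputable def kk4E (d e R : ℝ) : ℝ := 2 * e * kk3 d R + 146 + kk2 d + d

/-- the explicit exponent -/
def kapA (d e : ℕ) : ℕ := 10 ^ 6 * 36 ^ d * (d + 1) ^ 3 * (e + 1)

section logs

variable {d k t : ℕ} {C0 B1 B2 : ℝ} (hC0 : 1 ≤ C0) (hB1 : 2 ≤ B1) (hB2 : 2 ≤ B2) (ht : 1 ≤ t)
  (hk : 0 < k) (hkd : k ≤ d) (ht4 : 4 * k ≤ t)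

include hC0 hB1 hB2 ht hk hkd ht4

lemma ineq2_logE (e : ℕ) {X : ℝ} (hX : 0 < X) (o : ℕ)
    (h : X ^ (2 * t) ≤ X ^ (2 * e * o) * (X ^ 20 * 2 ^ (20 * t) *
        (36 * B2 ^ 12 * B1 ^ (84 * t) *
          (k * (20 * t - k : ℕ) * (Hh k t C0 B1 B2 * B1 ^ k))))) :
    2 * t * Real.log X ≤ 2 * e * (o * Real.log X) + 20 * Real.log X
      + (146 + kk2 d + d) * SS t C0 B1 B2 := by
  obtain ⟨f1, f2, f3, f4, f5, f6, f7⟩ := SS_facts hC0 hB1 hB2 ht
  have hU := logU_le hC0 hB1 hB2 ht hk hkd ht4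
  have hHpos : 0 < Hh k t C0 B1 B2 := by
    have := one_le_Hh k t C0 B1 B2 hk ht4 hC0 (by linarith) (by linarith)
    linarith
  have hB10 : 0 < B1 := by linarith
  have hB20 : 0 < B2 := by linarith
  have hn : (0 : ℝ) < ((20 * t - k : ℕ) : ℝ) := by
    have : 0 < 20 * t - k := by omega
    exact_mod_cast this
  have hk0 : (0 : ℝ) < k := by exact_mod_cast hk
  have hUpos : (0 : ℝ) < k * (20 * t - k : ℕ) * Hh k t C0 B1 B2 := by positivity
  have e0 : (k : ℝ) * (20 * t - k : ℕ) * (Hh k t C0 B1 B2 * B1 ^ k)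
      = (k * (20 * t - k : ℕ) * Hh k t C0 B1 B2) * B1 ^ k := by ring
  rw [e0] at h
  have h' := Real.log_le_log (by positivity) h
  rw [Real.log_pow, Real.log_mul (by positivity) (by positivity), Real.log_pow,
    Real.log_mul (by positivity) (by positivity), Real.log_mul (by positivity) (by positivity),
    Real.log_pow, Real.log_pow, Real.log_mul (by positivity) (by positivity),
    Real.log_mul (by positivity) (by positivity), Real.log_mul (by positivity) (by positivity),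
    Real.log_pow, Real.log_pow, Real.log_mul hUpos.ne' (by positivity), Real.log_pow] at h'
  push_cast at h'
  have e2 : Real.log 2 ≤ 1 := by have := Real.log_two_lt_d9; linarith
  have e3 : Real.log 36 ≤ 5 := by
    have h6 : Real.log 36 ≤ Real.log (2 ^ 6 : ℝ) := Real.log_le_log (by norm_num) (by norm_num)
    rw [Real.log_pow] at h6
    have := Real.log_two_lt_d9
    push_cast at h6
    linarith
  have ht0 : (0 : ℝ) ≤ t := by positivity
  have e5 : 20 * (t : ℝ) * Real.log 2 ≤ 20 * (2 * SS t C0 B1 B2) := by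
    have : 20 * (t : ℝ) * Real.log 2 ≤ 20 * t * 1 := mul_le_mul_of_nonneg_left e2 (by positivity)
    linarith
  have e7 : (k : ℝ) * Real.log B1 ≤ d * SS t C0 B1 B2 := by
    apply mul_le_mul _ f3 (by have := half_le_log hB1; linarith) (by positivity)
    exact_mod_cast hkd
  unfold kk2
  linarith

end logs

lemma kappa_leE (D E R : ℝ) (hD : 0 ≤ D) (hDE : D ≤ E) (hR : 1 ≤ R) :
    42 * kk4E D E R + 20 * (2 * (E * R) + 20) + 3 * kk5 D + 40 * D + 100
      ≤ 10 ^ 6 * R ^ 2 * (D + 1) ^ 3 * (E + 1) := by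
  obtain ⟨Q, hQ⟩ : ∃ Q, Q = (D + 1) ^ 3 := ⟨_, rfl⟩
  have hE : 1 ≤ D + 1 := by linarith
  have hE0 : 0 ≤ E := by linarith
  have hQ1 : 1 ≤ Q := by rw [hQ]; exact one_le_pow₀ hE
  have e : ∀ i ≤ 3, D ^ i ≤ Q := by
    intro i hi
    rw [hQ]
    calc D ^ i ≤ (D + 1) ^ i := pow_le_pow_left₀ hD (by linarith) _
      _ ≤ (D + 1) ^ 3 := pow_le_pow_right₀ hE hi
  have hR2 : R ≤ R ^ 2 := by nlinarith
  have hR3 : 1 ≤ R ^ 2 := by nlinarith
  have a0 : ∀ i ≤ 3, R ^ 2 * D ^ i ≤ R ^ 2 * Q := fun i hi =>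
    mul_le_mul_of_nonneg_left (e i hi) (by positivity)
  have a1 : ∀ i ≤ 3, R * D ^ i ≤ R ^ 2 * Q := fun i hi =>
    mul_le_mul hR2 (e i hi) (by positivity) (by positivity)
  have a2 : ∀ i ≤ 3, 1 * D ^ i ≤ R ^ 2 * Q := fun i hi =>
    mul_le_mul hR3 (e i hi) (by positivity) (by positivity)
  have b00 := a0 0 (by norm_num)
  have b01 := a0 1 (by norm_num)
  have b02 := a0 2 (by norm_num)
  have b03 := a0 3 (by norm_num)
  have b10 := a1 0 (by norm_num)
  have b11 := a1 1 (by norm_num)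
  have b12 := a1 2 (by norm_num)
  have b13 := a1 3 (by norm_num)
  have b20 := a2 0 (by norm_num)
  have b21 := a2 1 (by norm_num)
  have b22 := a2 2 (by norm_num)
  have b23 := a2 3 (by norm_num)
  simp only [pow_zero, pow_one, mul_one, one_mul] at b00 b01 b02 b03 b10 b11 b12 b13 b20 b21 b22 b23
  have c3 : kk3 D R ≤ 10000 * (R ^ 2 * Q) := by
    unfold kk3 kk2
    linarith
  have c3E : E * kk3 D R ≤ E * (10000 * (R ^ 2 * Q)) := mul_le_mul_of_nonneg_left c3 hE0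
  have c4E : E * R ≤ E * (R ^ 2 * Q) := mul_le_mul_of_nonneg_left (by simpa using b10) hE0
  have c5 : kk5 D ≤ 10000 * (R ^ 2 * Q) := by
    unfold kk5
    linarith
  have c6 : 0 ≤ E * (R ^ 2 * Q) := by positivity
  have c7 : kk2 D ≤ 10000 * (R ^ 2 * Q) := by
    unfold kk2
    linarith
  rw [← hQ]
  unfold kk4E
  have c8 : 10 ^ 6 * R ^ 2 * Q * (E + 1) = 10 ^ 6 * (E * (R ^ 2 * Q)) + 10 ^ 6 * (R ^ 2 * Q) := by
    ring
  rw [c8]
  linarith

theorem numericE (d e : ℕ) (hde : d ≤ e) : ∃ κ : ℝ, 1 ≤ κ ∧ κ ≤ kapA d e ∧ ∀ (k : ℕ) (C0 B1 B2 X Y : ℝ), 0 < k → k ≤ d →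
    1 ≤ C0 → 2 ≤ B1 → 2 ≤ B2 → 0 < X → 0 < Y →
    κ * Real.log B1 ≤ Real.log X →
    κ * (Real.log X + Real.log B2 + Real.log C0) ≤ Real.log Y →
    ∃ t : ℕ, 4 * k ≤ t ∧ X ^ (10 * t) ≤ Y ∧ Y ≤ X ^ (10 * (t + 1)) ∧
      d.factorial * (6 * Hh k t C0 B1 B2 * (1 + B2) ^ 2) ^ d < Y ∧
      ∀ o : ℕ,
      X ^ o ≤ X ^ (6 ^ d) * (((6 ^ d).factorial : ℕ) *
          (((d * ((20 * t - k) + d * k) : ℕ) : ℝ) ^ (6 ^ d) *
            (d.factorial * ((k * (20 * t - k : ℕ) * Hh k t C0 B1 B2) * (1 + B1) ^ k) ^ d))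
              ^ (6 ^ d)) →
      X ^ (2 * t) ≤ X ^ (2 * e * o) * (X ^ 20 * 2 ^ (20 * t) *
        (36 * B2 ^ 12 * B1 ^ (84 * t) *
          (k * (20 * t - k : ℕ) * (Hh k t C0 B1 B2 * B1 ^ k)))) → False := by
  obtain ⟨R, hR⟩ : ∃ R : ℝ, R = (6 : ℝ) ^ d := ⟨_, rfl⟩
  have hR0 : 0 ≤ R := by rw [hR]; positivity
  obtain ⟨D, hDdef⟩ : ∃ D : ℝ, D = (d : ℝ) := ⟨_, rfl⟩
  have hD0 : 0 ≤ D := by rw [hDdef]; positivity
  have hK2 : 0 ≤ kk2 D := by unfold kk2; positivity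
  have hK3 : 0 ≤ kk3 D R := by unfold kk3; positivity
  have hK5 : 0 ≤ kk5 D := by unfold kk5; positivity
  obtain ⟨E, hEdef⟩ : ∃ E : ℝ, E = (e : ℝ) := ⟨_, rfl⟩
  have hE0 : 0 ≤ E := by rw [hEdef]; positivity
  have hDE : D ≤ E := by rw [hDdef, hEdef]; exact_mod_cast hde
  have hDR : 0 ≤ E * R := by positivity
  have hK4 : 0 ≤ kk4E D E R := by unfold kk4E; positivity
  obtain ⟨κ, hκ⟩ : ∃ κ : ℝ, κ = 42 * kk4E D E R + 20 * (2 * (E * R) + 20) + 3 * kk5 D + 40 * D + 100 :=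
    ⟨_, rfl⟩
  have hκ100 : 100 ≤ κ := by rw [hκ]; linarith
  have hR1 : 1 ≤ R := by rw [hR]; exact one_le_pow₀ (by norm_num)
  have hκle : κ ≤ kapA d e := by
    rw [hκ]
    refine (kappa_leE D E R hD0 hDE hR1).trans (le_of_eq ?_)
    rw [hR, hDdef, hEdef]
    unfold kapA
    push_cast
    rw [← pow_mul, mul_comm d 2, pow_mul]
    norm_num
  refine ⟨κ, by linarith, hκle, ?_⟩
  intro k C0 B1 B2 X Y hk hkd hC0 hB1 hB2 hX0 hY0 hx hy
  obtain ⟨x, hxdef⟩ : ∃ x, x = Real.log X := ⟨_, rfl⟩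
  obtain ⟨y, hydef⟩ : ∃ y, y = Real.log Y := ⟨_, rfl⟩
  rw [← hxdef] at hx hy
  rw [← hydef] at hy
  have hβ1 := half_le_log hB1
  have hβ2 := half_le_log hB2
  have hc := Real.log_nonneg hC0
  have hκ0 : 0 < κ := by linarith
  have hx50 : 50 ≤ x := by
    have : κ * (1 / 2) ≤ κ * Real.log B1 := mul_le_mul_of_nonneg_left hβ1 hκ0.le
    linarith
  have hx0 : 0 < x := by linarith
  set t := ⌊y / (10 * x)⌋₊ with htdef
  have hyx : κ * x ≤ y := by
    have : κ * x ≤ κ * (x + Real.log B2 + Real.log C0) :=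
      mul_le_mul_of_nonneg_left (by linarith) hκ0.le
    linarith
  have hy0 : 0 < y := by
    have : 0 < κ * x := mul_pos hκ0 hx0
    linarith
  have ht1 : (t : ℝ) ≤ y / (10 * x) := Nat.floor_le (by positivity)
  have ht2 : y / (10 * x) < t + 1 := Nat.lt_floor_add_one _
  have ht1' : t * (10 * x) ≤ y := by
    rwa [le_div_iff₀ (by positivity)] at ht1
  have ht2' : y < (t + 1) * (10 * x) := by
    rwa [div_lt_iff₀ (by positivity)] at ht2
  have htκ : κ / 10 - 1 < t := by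
    have h1 : κ / 10 ≤ y / (10 * x) := by
      rw [div_le_div_iff₀ (by norm_num) (by positivity)]
      linarith
    linarith
  have ht9 : (9 : ℝ) < t := by linarith
  have htd : (4 : ℝ) * D ≤ t := by
    have : 40 * D + 100 ≤ κ := by rw [hκ]; linarith
    linarith
  have htDR : 2 * (2 * (E * R) + 20) ≤ t := by
    have : 20 * (2 * (E * R) + 20) + 100 ≤ κ := by rw [hκ]; linarith
    linarith
  have hkD : (k : ℝ) ≤ D := by rw [hDdef]; exact_mod_cast hkd
  have ht4k : 4 * k ≤ t := by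
    have : (4 : ℝ) * k ≤ t := by linarith
    exact_mod_cast this
  have ht1n : 1 ≤ t := by omega
  obtain ⟨f1, f2, f3, f4, f5, f6, f7⟩ := SS_facts hC0 hB1 hB2 ht1n
  obtain ⟨S, hS⟩ : ∃ S : ℝ, S = SS t C0 B1 B2 := ⟨_, rfl⟩
  have hSpos : 0 < S := by rw [hS]; linarith
  have htx : 0 < t * x := by
    apply mul_pos _ hx0; linarith
  have hx_le : x ≤ t * x := by
    have : 1 * x ≤ t * x := mul_le_mul_of_nonneg_right (by linarith) hx0.le
    linarith
  have hSsmall : κ * S ≤ 21 * (t * x) := by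
    have h1 : t * (κ * Real.log B1) ≤ t * x := mul_le_mul_of_nonneg_left hx (by linarith)
    have h2 : κ * (Real.log B2 + Real.log C0) ≤ y := by
      have : 0 ≤ κ * x := by positivity
      linarith
    have h3 : y ≤ 20 * (t * x) := by linarith
    have h4 : κ * S = t * (κ * Real.log B1) + κ * (Real.log B2 + Real.log C0) := by
      rw [hS]; unfold SS; ring
    rw [h4]; linarith
  refine ⟨t, ht4k, ?_, ?_, ?_, ?_⟩
  · rw [← Real.log_le_log_iff (by positivity) hY0, Real.log_pow, ← hxdef, ← hydef]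
    push_cast
    linarith
  · rw [← Real.log_le_log_iff hY0 (by positivity), Real.log_pow, ← hxdef, ← hydef]
    push_cast
    linarith
  · have hHpos : 0 < Hh k t C0 B1 B2 := by
      have := one_le_Hh k t C0 B1 B2 hk ht4k hC0 (by linarith) (by linarith)
      linarith
    have hB20 : 0 < B2 := by linarith
    rw [← Real.log_lt_log_iff (by positivity) hY0, ← hydef]
    refine lt_of_le_of_lt (small_log hC0 hB1 hB2 ht1n hk hkd ht4k) ?_
    rw [← hS, ← hDdef]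
    have e6 : (3 * kk5 D) * S ≤ κ * S := by
      apply mul_le_mul_of_nonneg_right _ hSpos.le
      rw [hκ]; linarith
    linarith
  · intro o h1 h2
    have g1 := ineq1_log hC0 hB1 hB2 ht1n hk hkd ht4k hX0 o h1
    have g2 := ineq2_logE hC0 hB1 hB2 ht1n hk hkd ht4k e hX0 o h2
    rw [← hxdef, ← hS, ← hDdef, ← hR] at g1
    rw [← hxdef, ← hS, ← hDdef, ← hEdef] at g2
    have e4 : 2 * E * (o * x) ≤ 2 * E * (R * x + kk3 D R * S) :=
      mul_le_mul_of_nonneg_left g1 (by positivity)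
    have g3 : (42 * kk4E D E R) * S ≤ κ * S := by
      apply mul_le_mul_of_nonneg_right _ hSpos.le
      rw [hκ]; linarith
    have g4 : (2 * (2 * (E * R) + 20)) * x ≤ t * x :=
      mul_le_mul_of_nonneg_right htDR hx0.le
    have g5 : kk4E D E R * S = 2 * E * (kk3 D R * S) + (146 + kk2 D + D) * S := by
      unfold kk4E; ring
    have g6 : 2 * E * (R * x) = 2 * (E * R) * x := by ring
    linarith


end Pool.Agent.H322R2
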