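import Pool.Agent.H322R2.Runge

/-!
Anchors, and the bound for monic polynomials.
-/

open Polynomial Finset NumberField

namespace Pool.Agent.H322R2

/-- The constant attached to a real number field. -/
theorem anchor (L : Type) [Field L] [NumberField L] (τ : L →+* ℝ)
    (hL : 3 ≤ Module.finrank ℚ L) :
    ∃ c : ℝ, 1 ≤ c ∧ ∀ (G : ℤ[X][X]) (H : ℝ) (α : 𝓞 L) (a b : ℤ),
      Pt (hs L) (rE L τ) (Module.finrank ℚ L) G H α a b →
      |(a : ℝ)| ≤ (c * bB (Module.finrank ℚ L) H) ^ (kap (Module.finrank ℚ L)) := by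
  obtain ⟨d, hd⟩ : ∃ d, d = Module.finrank ℚ L := ⟨_, rfl⟩
  rw [← hd] at hL ⊢
  obtain ⟨C0, hC0, hcoord⟩ := exists_C0 L
  by_cases hex : ∃ (G : ℤ[X][X]) (H : ℝ) (α : 𝓞 L) (a b : ℤ),
      Pt (hs L) (rE L τ) d G H α a b ∧ (bB d H) ^ (kap d) ≤ |(a : ℝ)|
  · obtain ⟨G1, H1, α1, a1, b1, P1, ha1⟩ := hex
    have hH1 := P1.hH
    have hb1 : 1 ≤ bB d H1 := one_le_pow₀ (by linarith)
    have ha1ge : 1 ≤ |(a1 : ℝ)| := (one_le_pow₀ hb1).trans ha1
    refine ⟨|(a1 : ℝ)| * C0, one_le_mul_of_one_le_of_one_le ha1ge hC0, ?_⟩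
    intro G H α a b P
    exact two_int hL (hs_one L) (abs_rE_le L τ) (RingOfIntegers.basis L) C0 hC0 hcoord
      (by rw [card_basis]; omega) (by rw [card_basis]; omega) P1 P ha1
  · push_neg at hex
    refine ⟨1, le_refl _, ?_⟩
    intro G H α a b P
    rw [one_mul]
    exact (hex G H α a b P).le

lemma nrm_ne_zero_of_coprime (g : ℤ[X]) (d : ℕ) (hm : g.Monic) (hd : g.natDegree = d) (V : ℤ[X])
    (hc : IsCoprime (g.map (Int.castRingHom ℚ)) (V.map (Int.castRingHom ℚ))) :
    nrm g d V ≠ 0 := by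
  subst hd
  obtain ⟨u, v, huv⟩ := hc
  set f : ℤ →+* ℚ := Int.castRingHom ℚ with hf
  set M : Matrix (Fin g.natDegree) (Fin g.natDegree) ℚ := (comp g g.natDegree).map f with hM
  have key : ∀ W : ℤ[X], aeval M (W.map f) = (aeval (comp g g.natDegree) W).map f := by
    intro W
    have h1 := Polynomial.hom_eval₂ W (algebraMap ℤ (Matrix (Fin g.natDegree) (Fin g.natDegree) ℤ))
      f.mapMatrix (comp g g.natDegree)
    rw [aeval_def, aeval_def, eval₂_map]
    have h2 : f.mapMatrix (eval₂ (algebraMap ℤ _) (comp g g.natDegree) W)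
        = (eval₂ (algebraMap ℤ _) (comp g g.natDegree) W).map f := rfl
    rw [← h2, h1]
    congr 1
    exact RingHom.ext_int _ _
  have h1 := congrArg (aeval M) huv
  rw [map_add, map_mul, map_mul, map_one, key, key, aeval_comp_self hm] at h1
  intro h0
  have h2 := congrArg Matrix.det h1
  have h3 : (Matrix.map (0 : Matrix (Fin g.natDegree) (Fin g.natDegree) ℤ) f) = 0 := by
    ext i j; simp
  rw [h3, mul_zero, zero_add, Matrix.det_mul, Matrix.det_one] at h2
  have h4 : ((aeval (comp g g.natDegree) V).map f).det = f (nrm g g.natDegree V) := by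
    rw [nrm, RingHom.map_det]; rfl
  rw [h4, h0, map_zero, mul_zero] at h2
  exact zero_ne_one h2

/-- Height of a monic integer polynomial with small roots. -/
lemma pn_le_of_roots (g : ℤ[X]) (hm : g.Monic) (H : ℝ) (hH : 0 ≤ H)
    (h : ∀ z : ℂ, evf z g = 0 → ‖z‖ ≤ H) : pn zn g ≤ (1 + H) ^ g.natDegree := by
  rw [pn_eq_range zn g (Nat.lt_succ_self _)]
  have h1 : ∀ i ∈ range (g.natDegree + 1), zn (g.coeff i)
      ≤ 1 ^ i * H ^ (g.natDegree - i) * (g.natDegree.choose i : ℝ) := by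
    intro i _
    have h2 := coeff_le_of_roots_le (p := g) (f := Int.castRingHom ℂ) (B := H) i hm
      (IsAlgClosed.splits _) (by
        intro z hz
        apply h
        have := (mem_roots'.1 hz).2
        rw [IsRoot, eval_map] at this
        exact this)
    rw [one_pow, one_mul]
    rw [coeff_map] at h2
    simpa using h2
  refine (Finset.sum_le_sum h1).trans (le_of_eq ?_)
  rw [add_pow]

end Pool.Agent.H322R2
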