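import Pool.Agent.H322R2.AInst
import Pool.Agent.H322R2.Anchor

/-!
Trace functionals on the ring of integers of a pure field.
-/

open Polynomial Finset NumberField

namespace Pool.Agent.H322R2

section TF

variable (L : Type) [Field L] [NumberField L]

/-- the functional `x ↦ Tr (x β^i)` -/
noncomputable def trf (β : 𝓞 L) (i : ℕ) : 𝓞 L →+ ℤ :=
  (Algebra.trace ℤ (𝓞 L)).toAddMonoidHom.comp (AddMonoidHom.mulRight (β ^ i))

lemma trf_apply (β : 𝓞 L) (i : ℕ) (x : 𝓞 L) : trf L β i x = Algebra.trace ℤ (𝓞 L) (x * β ^ i) := rfl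

lemma coe_trf (β : 𝓞 L) (i : ℕ) (x : 𝓞 L) :
    ((trf L β i x : ℤ) : ℚ) = Algebra.trace ℚ L ((x : L) * (β : L) ^ i) := by
  rw [trf_apply, Algebra.coe_trace_int]
  simp

lemma abs_trace_le (z : L) : |((Algebra.trace ℚ L z : ℚ) : ℝ)| ≤ Module.finrank ℚ L * house z := by
  have h := trace_eq_sum_embeddings (K := ℚ) (L := L) ℂ (x := z)
  have h2 : ‖(algebraMap ℚ ℂ) (Algebra.trace ℚ L z)‖ = |((Algebra.trace ℚ L z : ℚ) : ℝ)| := by
    simp
  rw [← h2, h]
  refine (norm_sum_le _ _).trans ?_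
  refine (Finset.sum_le_card_nsmul _ _ (house z) (fun σ _ => ?_)).trans (le_of_eq ?_)
  · exact norm_embedding_le_house z σ.toRingHom
  · rw [Finset.card_univ, AlgHom.card, nsmul_eq_mul]

lemma abs_trf_le {d : ℕ} (hd : Module.finrank ℚ L = d) (β : 𝓞 L) {H : ℝ} (hH : 1 ≤ H)
    (hβ : hs L β ≤ H) (x : 𝓞 L) (i : Fin d) :
    |(trf L β i x : ℝ)| ≤ (d * H ^ (d - 1)) * hs L x := by
  have h1 : ((trf L β i x : ℤ) : ℝ) = ((Algebra.trace ℚ L ((x : L) * (β : L) ^ (i : ℕ)) : ℚ) : ℝ) := by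
    rw [← coe_trf]; push_cast; rfl
  rw [h1]
  refine (abs_trace_le L _).trans ?_
  rw [hd, mul_assoc]
  apply mul_le_mul_of_nonneg_left _ (by positivity)
  have h2 : house ((x : L) * (β : L) ^ (i : ℕ)) = hs L (x * β ^ (i : ℕ)) := by
    rw [hs_apply]; simp
  rw [h2]
  refine (map_mul_le_mul (hs L) _ _).trans ?_
  rw [mul_comm]
  apply mul_le_mul_of_nonneg_right _ (apply_nonneg _ _)
  refine (seminorm_pow_le (hs L) (hs_one L) β i).trans ?_
  refine (pow_le_pow_left₀ (apply_nonneg _ _) hβ _).trans ?_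
  exact pow_le_pow_right₀ hH (by omega)

lemma trf_inj {d : ℕ} (hd0 : 0 < d) (β : 𝓞 L) {M : ℤ} (hβ : β ^ d = (M : 𝓞 L))
    (hgen : Algebra.adjoin ℚ {(β : L)} = ⊤) (x : 𝓞 L) (hx : ∀ i : Fin d, trf L β i x = 0) :
    x = 0 := by
  by_contra hx0
  have hxL : (x : L) ≠ 0 := by
    intro h
    exact hx0 (RingOfIntegers.ext (by rw [h]; rfl))
  have hβL : (β : L) ^ d = (M : L) := by
    have := congrArg (algebraMap (𝓞 L) L) hβ
    rw [map_pow, map_intCast] at this
    exact this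
  have h1 : ∀ n : ℕ, Algebra.trace ℚ L ((x : L) * (β : L) ^ n) = 0 := by
    intro n
    have e1 : (β : L) ^ n = ((M ^ (n / d) : ℤ) : L) * (β : L) ^ (n % d) := by
      conv_lhs => rw [← Nat.div_add_mod n d]
      rw [pow_add, pow_mul, hβL]
      push_cast
      rfl
    have e2 : (x : L) * (β : L) ^ n = ((M ^ (n / d) : ℤ) : ℚ) • ((x : L) * (β : L) ^ (n % d)) := by
      rw [e1, Algebra.smul_def]
      simp only [map_intCast]
      ring
    rw [e2, map_smul]
    have := hx ⟨n % d, Nat.mod_lt _ hd0⟩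
    have h3 := coe_trf L β (n % d) x
    rw [← h3]
    simp only at this
    rw [this]
    simp
  have h2 : (x : L)⁻¹ ∈ Algebra.adjoin ℚ {(β : L)} := by rw [hgen]; trivial
  rw [Algebra.adjoin_singleton_eq_range_aeval] at h2
  obtain ⟨p, hp⟩ := h2
  have hp' : (x : L)⁻¹ = aeval (β : L) p := hp.symm
  have h3 : Algebra.trace ℚ L ((x : L) * aeval (β : L) p) = 0 := by
    rw [aeval_eq_sum_range, Finset.mul_sum, map_sum]
    apply Finset.sum_eq_zero
    intro i _
    rw [mul_smul_comm, map_smul, h1, smul_zero]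
  rw [← hp', mul_inv_cancel₀ hxL] at h3
  rw [← map_one (algebraMap ℚ L), Algebra.trace_algebraMap] at h3
  have h4 : (0 : ℚ) < Module.finrank ℚ L := by exact_mod_cast Module.finrank_pos
  rw [nsmul_eq_mul, mul_one] at h3
  exact h4.ne' h3

end TF

end Pool.Agent.H322R2
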