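import Pool.Agent.H322R2.RedG

/-!
Almost all polynomials of degree at most `d` have no integer zero.
-/

open Polynomial Finset

namespace Pool.Agent.H322R2

variable {d : ℕ}

open Classical in
/-- number of vectors in the box with a property -/
noncomputable def Cn (H : ℕ) (P : (↥(Ix d) → ℤ) → Prop) : ℝ := (((Bx ↥(Ix d) H).filter P).card : ℝ)

lemma Cn_mono {H : ℕ} {P Q : (↥(Ix d) → ℤ) → Prop} (h : ∀ c ∈ Bx ↥(Ix d) H, P c → Q c) :
    Cn H P ≤ Cn H Q := by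
  classical
  unfold Cn
  have : ((Bx ↥(Ix d) H).filter P).card ≤ ((Bx ↥(Ix d) H).filter Q).card := by
    apply Finset.card_le_card
    intro c hc
    rw [Finset.mem_filter] at hc ⊢
    exact ⟨hc.1, h c hc.1 hc.2⟩
  convert (show ((((Bx ↥(Ix d) H).filter P).card : ℕ) : ℝ) ≤
    (((Bx ↥(Ix d) H).filter Q).card : ℕ) by exact_mod_cast this)

lemma Cn_or {H : ℕ} (P Q : (↥(Ix d) → ℤ) → Prop) :
    Cn H (fun c => P c ∨ Q c) ≤ Cn H P + Cn H Q := by
  classical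
  unfold Cn
  have h1 := Finset.card_union_le ((Bx ↥(Ix d) H).filter P) ((Bx ↥(Ix d) H).filter Q)
  rw [← Finset.filter_or] at h1
  have h2 : ((((Bx ↥(Ix d) H).filter (fun c => P c ∨ Q c)).card : ℕ) : ℝ) ≤
    (((Bx ↥(Ix d) H).filter P).card : ℕ) + (((Bx ↥(Ix d) H).filter Q).card : ℕ) := by
    exact_mod_cast h1
  convert h2

lemma Cn_sw {H : ℕ} (P : (↥(Ix d) → ℤ) → Prop) : Cn H (fun c => P (sw c)) = Cn H P := by
  unfold Cn
  rw [← card_sw (H := H) P]

lemma Cn_le {H : ℕ} (P : (↥(Ix d) → ℤ) → Prop) : Cn H P ≤ (Bx ↥(Ix d) H).card := by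
  classical
  have h1 : ((((Bx ↥(Ix d) H).filter P).card : ℕ) : ℝ) ≤ ((Bx ↥(Ix d) H).card : ℕ) := by
    exact_mod_cast Finset.card_filter_le _ _
  unfold Cn
  convert h1

lemma frac {a K B y : ℝ} {H : ℕ} (hy : 0 < y) (hB : 0 ≤ B) (h : a * (2 * H + 1) ≤ K * B)
    (hK : K * y ≤ 2 * H + 1) : a ≤ 1 / y * B := by
  have hH : (0 : ℝ) < 2 * H + 1 := by positivity
  have h1 : K ≤ 1 / y * (2 * H + 1) := by
    rw [one_div, inv_mul_eq_div, le_div_iff₀ hy]; exact hK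
  have h2 : a * (2 * H + 1) ≤ (1 / y * B) * (2 * H + 1) := by
    calc a * (2 * H + 1) ≤ K * B := h
      _ ≤ (1 / y * (2 * H + 1)) * B := mul_le_mul_of_nonneg_right h1 hB
      _ = _ := by ring
  exact le_of_mul_le_mul_right h2 hH

/-- the exponent -/
def EE (d : ℕ) : ℕ := 10 ^ 4 * d

/-- the constant -/
noncomputable def K1 (d : ℕ) : ℝ := K0 d + (4 * ((EE d + 1) * kC d) * d : ℕ) + (kN d : ℕ) +
  (d : ℝ) * (3 * (2 ^ d * (d + 1))) ^ d + (3 + 2 * Real.log (2 ^ d * (d + 1)) + 2 * (EE d : ℕ)) + 100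

lemma logt_nonneg (d : ℕ) : 0 ≤ Real.log (2 ^ d * ((d : ℝ) + 1)) := by
  apply Real.log_nonneg
  apply one_le_mul_of_one_le_of_one_le (one_le_pow₀ (by norm_num))
  have : (0 : ℝ) ≤ d := by positivity
  linarith

theorem main_count (hd : 4 ≤ d) {H : ℕ} {y : ℝ} (hyH : y ^ (EE d) = H) (hyK : K1 d ≤ y) :
    Cn H (fun c : ↥(Ix d) → ℤ => ∃ p : ℤ × ℤ, ev p.1 p.2 (PG c) = 0)
      ≤ 76 / y * (Bx ↥(Ix d) H).card := by
  have hNN := NN_nonneg (d := d)
  have hCL0 := CL_nonneg d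
  have hlog := logt_nonneg d
  have p0 : 0 ≤ K0 d := by unfold K0; positivity
  have p1 : (0 : ℝ) ≤ (4 * ((EE d + 1) * kC d) * d : ℕ) := Nat.cast_nonneg _
  have p2 : (0 : ℝ) ≤ (kN d : ℕ) := Nat.cast_nonneg _
  have p3 : 0 ≤ (d : ℝ) * (3 * (2 ^ d * (d + 1))) ^ d := by positivity
  have p4 : (0 : ℝ) ≤ (EE d : ℕ) := Nat.cast_nonneg _
  have k0' : K0 d ≤ y := by unfold K1 at hyK; linarith
  have k1 : ((4 * ((EE d + 1) * kC d) * d : ℕ) : ℝ) ≤ y := by unfold K1 at hyK; linarith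
  have k2 : ((kN d : ℕ) : ℝ) ≤ y := by unfold K1 at hyK; linarith
  have k3 : (d : ℝ) * (3 * (2 ^ d * (d + 1))) ^ d ≤ y := by unfold K1 at hyK; linarith
  have k4 : 3 + 2 * Real.log (2 ^ d * (d + 1)) + 2 * (EE d : ℕ) ≤ y := by unfold K1 at hyK; linarith
  have k5 : 100 ≤ y := by unfold K1 at hyK; linarith
  have hy0 : 0 < y := by linarith
  have hy1 : 1 ≤ y := by linarith
  have hpow : ∀ k, k ≤ EE d → y ^ k ≤ H := by
    intro k hk
    rw [← hyH]
    exact pow_le_pow_right₀ hy1 hk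
  have hEE : EE d = 10 ^ 4 * d := rfl
  have hyH2 : y ^ 2 ≤ H := hpow 2 (by omega)
  have hH1 : (1 : ℝ) ≤ H := (one_le_pow₀ hy1).trans hyH2
  have hH1' : 1 ≤ H := by exact_mod_cast hH1
  have hH0 : (0 : ℝ) < H := by linarith
  have hdR : (4 : ℝ) ≤ d := by exact_mod_cast hd
  have h100 := k_100 k0'
  obtain ⟨Bc, hBc⟩ : ∃ Bc : ℝ, Bc = (Bx ↥(Ix d) H).card := ⟨_, rfl⟩
  have hBc0 : 0 ≤ Bc := by rw [hBc]; positivity
  rw [← hBc]
  -- first condition
  have b2 : Cn H (fun c : ↥(Ix d) → ℤ => ¬ T2c H y c) ≤ 32 / y * Bc := by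
    rw [hBc]
    unfold Cn
    convert card_ex2 (d := d) (by omega) (H := H) (y := y) (by linarith) (k_CL k0') hyH2
  -- second condition
  have b3 : Cn H (fun c : ↥(Ix d) → ℤ => ¬ T3c (y ^ (400 * d + 125))
      (y ^ (528 * d + 165) / y ^ (k0 d)) c) ≤ 2 / y * Bc := by
    have hB : y ^ (528 * d + 165) / y ^ (k0 d) = 1 / y ^ (2600 * d + 1) := by
      have : y ^ (k0 d) = y ^ (528 * d + 165) * y ^ (2600 * d + 1) := by
        rw [← pow_add]; congr 1; unfold k0; omega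
      rw [this, ← div_div, div_self (by positivity)]
    have h1 := card_ex3 (d := d) (by omega) (H := H) (A := y ^ (400 * d + 125))
      (B := y ^ (528 * d + 165) / y ^ (k0 d)) (s := 1 / y ^ (1300 * d)) (one_le_pow₀ hy1)
      (by positivity) (by positivity) (by
        rw [div_le_one (by positivity)]; exact one_le_pow₀ hy1) (by
        rw [hB, one_div_pow, ← pow_mul, mul_one_div, div_lt_div_iff₀ (by positivity) (by positivity),
          one_mul]
        have : y ^ (2600 * d + 1) = y * y ^ (1300 * d * 2) := by rw [← pow_succ']; congr 1; ring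
        rw [this]
        exact mul_lt_mul_of_pos_right (by linarith) (by positivity))
    have h2 : 27 * (y ^ (400 * d + 125)) ^ 3 * (2 * (2 * (CL d * H * (1 / y ^ (1300 * d))) + 1))
        ≤ (2 / y) * (2 * H + 1) := by
      have e1 : (y ^ (400 * d + 125)) ^ 3 * (1 / y ^ (1300 * d)) ≤ 1 / y ^ 25 := by
        rw [mul_one_div, div_le_div_iff₀ (by positivity) (by positivity), ← pow_mul, ← pow_add,
          one_mul]
        exact pow_le_pow_right₀ hy1 (by omega)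
      have e2 : 108 * CL d * (H * (1 / y ^ 25)) ≤ 2 / y * H := by
        have e3 : 108 * CL d * (1 / y ^ 25) ≤ 2 / y := by
          rw [mul_one_div, div_le_div_iff₀ (by positivity) hy0]
          calc 108 * CL d * y ≤ 108 * y * y := by
                have := k_CL k0'
                gcongr
            _ = 108 * y ^ 2 := by ring
            _ ≤ (2 * y) * y ^ 2 := by
                apply mul_le_mul_of_nonneg_right _ (by positivity)
                linarith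
            _ = 2 * y ^ 3 := by ring
            _ ≤ 2 * y ^ 25 := by
                apply mul_le_mul_of_nonneg_left _ (by norm_num)
                exact pow_le_pow_right₀ hy1 (by norm_num)
        calc 108 * CL d * (H * (1 / y ^ 25)) = (108 * CL d * (1 / y ^ 25)) * H := by ring
          _ ≤ _ := mul_le_mul_of_nonneg_right e3 hH0.le
      have e4 : 54 * (y ^ (400 * d + 125)) ^ 3 ≤ 2 / y * H := by
        rw [div_mul_eq_mul_div, le_div_iff₀ hy0]
        calc 54 * (y ^ (400 * d + 125)) ^ 3 * y = 54 * y ^ (1200 * d + 376) := by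
              rw [← pow_mul, mul_assoc, ← pow_succ]; congr 2; ring
          _ ≤ y * y ^ (1200 * d + 376) := mul_le_mul_of_nonneg_right (by linarith) (by positivity)
          _ = y ^ (1200 * d + 377) := by rw [← pow_succ']
          _ ≤ H := hpow _ (by omega)
          _ ≤ 2 * H := by linarith
      calc 27 * (y ^ (400 * d + 125)) ^ 3 * (2 * (2 * (CL d * H * (1 / y ^ (1300 * d))) + 1))
          = 108 * CL d * (H * ((y ^ (400 * d + 125)) ^ 3 * (1 / y ^ (1300 * d)))) +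
            54 * (y ^ (400 * d + 125)) ^ 3 := by ring
        _ ≤ 108 * CL d * (H * (1 / y ^ 25)) + 54 * (y ^ (400 * d + 125)) ^ 3 := by
            gcongr
        _ ≤ 2 / y * H + 2 / y * H := add_le_add e2 e4
        _ = 2 / y * (2 * H) := by ring
        _ ≤ _ := by
            apply mul_le_mul_of_nonneg_left _ (by positivity)
            linarith
    have h3 : Cn H (fun c : ↥(Ix d) → ℤ => ¬ T3c (y ^ (400 * d + 125))
      (y ^ (528 * d + 165) / y ^ (k0 d)) c) * (2 * H + 1) ≤ (2 / y * Bc) * (2 * H + 1) := by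
      refine le_trans (le_trans (le_of_eq ?_) h1) ?_
      · unfold Cn
        congr!
      · rw [← hBc]
        calc _ ≤ (2 / y) * (2 * H + 1) * Bc := mul_le_mul_of_nonneg_right h2 hBc0
          _ = _ := by ring
    exact le_of_mul_le_mul_right h3 (by positivity)
  -- third condition
  have b4 : Cn H (fun c : ↥(Ix d) → ℤ => T2c H y c ∧ ¬ T4c H y c) ≤ 1 / y * Bc := by
    rw [hBc]
    unfold Cn
    convert card_ex4 (d := d) (by omega) (H := H) (y := y) hy1 hyH2 (by linarith)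
  have z0 : Cn H (fun c : ↥(Ix d) → ℤ => (ff c).natDegree ≠ d) ≤ 1 / y * Bc := by
    apply frac (K := 1) (H := H) hy0 hBc0
    · rw [hBc]
      unfold Cn
      convert cnt_Z0 (d := d) (by omega) H
    · have := hpow 1 (by omega)
      rw [pow_one] at this
      linarith
  have z1 : Cn H (fun c : ↥(Ix d) → ℤ => (ff c).natDegree = d ∧
      ¬ Irreducible ((ff c).map (Int.castRingHom ℚ))) ≤ 1 / y * Bc := by
    rw [hBc]
    unfold Cn
    convert cnt_red (d := d) (by omega) (H := H) (y := y) hy1 hH1' (by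
      have hX1 : 1 ≤ 2 ^ d * (d + 1) * H :=
        Nat.mul_pos (Nat.mul_pos (by positivity) (by omega)) hH1'
      refine (hs2_le _ hX1).trans ?_
      push_cast
      rw [Real.log_mul (by positivity) (by positivity), ← hyH, Real.log_pow]
      have h1 : Real.log y ≤ y := (Real.log_le_sub_one_of_pos hy0).trans (by linarith)
      have h2 : (EE d : ℝ) * Real.log y ≤ (EE d : ℝ) * y := mul_le_mul_of_nonneg_left h1 p4
      have h3 : 3 + 2 * Real.log (2 ^ d * (d + 1)) ≤ (3 + 2 * Real.log (2 ^ d * (d + 1))) * y :=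
        le_mul_of_one_le_right (by linarith) hy1
      calc 3 + 2 * (Real.log (2 ^ d * (d + 1)) + (EE d : ℝ) * Real.log y)
          = (3 + 2 * Real.log (2 ^ d * (d + 1))) + 2 * ((EE d : ℝ) * Real.log y) := by ring
        _ ≤ (3 + 2 * Real.log (2 ^ d * (d + 1))) * y + 2 * ((EE d : ℝ) * y) := by linarith
        _ = (3 + 2 * Real.log (2 ^ d * (d + 1)) + 2 * (EE d : ℕ)) * y := by ring
        _ ≤ y * y := mul_le_mul_of_nonneg_right k4 hy0.le
        _ = y ^ 2 := by ring) k3 (hpow _ (by omega))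
  obtain ⟨m, hm⟩ : ∃ m : ℕ, m = ⌊y ^ (k0 d)⌋₊ := ⟨_, rfl⟩
  have sa : Cn H (fun c : ↥(Ix d) → ℤ => ∃ p : ℤ × ℤ, (|p.1| ≤ m ∧ |p.2| ≤ m) ∧
      ev p.1 p.2 (PG c) = 0) ≤ 1 / y * Bc := by
    apply frac (K := (2 * m + 1) ^ 2) (H := H) hy0 hBc0
    · rw [hBc]
      unfold Cn
      convert cnt_small (d := d) (H := H) m
    · have h1 : (m : ℝ) ≤ y ^ (k0 d) := by rw [hm]; exact Nat.floor_le (by positivity)
      have h2 : 1 ≤ y ^ (k0 d) := one_le_pow₀ hy1
      calc (2 * (m : ℝ) + 1) ^ 2 * y ≤ (3 * y ^ (k0 d)) ^ 2 * y := by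
            apply mul_le_mul_of_nonneg_right _ hy0.le
            apply pow_le_pow_left₀ (by positivity)
            linarith
        _ = 9 * y ^ (2 * k0 d + 1) := by
            have e : y ^ (2 * k0 d + 1) = (y ^ (k0 d)) ^ 2 * y := by
              rw [← pow_mul, mul_comm (k0 d) 2, ← pow_succ]
            rw [e]; ring
        _ ≤ y * y ^ (2 * k0 d + 1) := mul_le_mul_of_nonneg_right (by linarith) (by positivity)
        _ = y ^ (2 * k0 d + 2) := by rw [← pow_succ']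
        _ ≤ H := hpow _ (by unfold k0; omega)
        _ ≤ 2 * H + 1 := by linarith
  have hkC1 : 1 ≤ kC d := by
    show 0 < kC d
    unfold kC; positivity
  obtain ⟨n, hn⟩ : ∃ n, n + 1 = (EE d + 1) * kC d := by
    refine ⟨(EE d + 1) * kC d - 1, ?_⟩
    have : 1 ≤ (EE d + 1) * kC d := Nat.mul_pos (by omega) hkC1
    omega
  have hyy : y * y ≤ 2 * H + 1 := by nlinarith
  have sb : Cn H (fun c : ↥(Ix d) → ℤ => Typ H y c ∧ ∃ p : ℤ × ℤ, (|(p.2 : ℝ)| ≤ |(p.1 : ℝ)| ∧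
      y ^ (k0 d) ≤ |(p.1 : ℝ)| ∧ |(p.1 : ℝ)| ≤ y ^ (k0 d) * y ^ (n + 1)) ∧
      ev p.1 p.2 (PG c) = 0) ≤ 1 / y * Bc := by
    apply frac (K := ((4 * (n + 1) * d : ℕ) : ℝ)) (H := H) hy0 hBc0
    · rw [hBc]
      unfold Cn
      convert cnt_mid (d := d) hd (H := H) (y := y) k0' hyH2 n
    · rw [hn]
      exact (mul_le_mul_of_nonneg_right k1 hy0.le).trans hyy
  have sc : Cn H (fun c : ↥(Ix d) → ℤ => (Typ H y c ∧ Typ H y (sw c) ∧ (ff c).natDegree = d ∧
      Irreducible ((ff c).map (Int.castRingHom ℚ))) ∧ ∃ p : ℤ × ℤ,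
      (((d + 1) * ((Ix d).card * H)) ^ (kC d) < max p.2.natAbs p.1.natAbs) ∧
      ev p.1 p.2 (PG c) = 0) ≤ 1 / y * Bc := by
    apply frac (K := ((kN d : ℕ) : ℝ)) (H := H) hy0 hBc0
    · rw [hBc]
      unfold Cn
      convert cnt_large (d := d) hd (H := H) (y := y) hy0
    · exact (mul_le_mul_of_nonneg_right k2 hy0.le).trans hyy
  have hXr : ((((d + 1) * ((Ix d).card * H)) ^ (kC d) : ℕ) : ℝ) ≤ y ^ (k0 d) * y ^ (n + 1) := by
    have h1 : ((d : ℝ) + 1) * ((Ix d).card * H) ≤ y ^ (EE d + 1) := by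
      have h2 : ((d : ℝ) + 1) * (Ix d).card ≤ y := by
        refine le_trans ?_ (k_NN k0')
        have h3 : (1 : ℝ) ≤ 3 ^ d := one_le_pow₀ (by norm_num)
        have h4 : ((d : ℝ) + 1) * NN d ≤ ((d : ℝ) + 1) * NN d * (100 * 3 ^ d) :=
          le_mul_of_one_le_right (by positivity) (by linarith)
        calc ((d : ℝ) + 1) * (Ix d).card = ((d : ℝ) + 1) * NN d := rfl
          _ ≤ _ := h4
          _ = _ := by ring
      calc ((d : ℝ) + 1) * ((Ix d).card * H) = (((d : ℝ) + 1) * (Ix d).card) * H := by ring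
        _ ≤ y * H := mul_le_mul_of_nonneg_right h2 hH0.le
        _ = _ := by rw [← hyH, ← pow_succ']
    push_cast
    calc (((d : ℝ) + 1) * ((Ix d).card * H)) ^ (kC d) ≤ (y ^ (EE d + 1)) ^ (kC d) :=
          pow_le_pow_left₀ (by positivity) h1 _
      _ = y ^ (n + 1) := by rw [← pow_mul, hn]
      _ ≤ y ^ (k0 d) * y ^ (n + 1) := le_mul_of_one_le_left (by positivity) (one_le_pow₀ hy1)
  -- the covering
  obtain ⟨P2, hP2⟩ : ∃ P2 : (↥(Ix d) → ℤ) → Prop, P2 = fun c => ¬ T2c H y c := ⟨_, rfl⟩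
  obtain ⟨P3, hP3⟩ : ∃ P3 : (↥(Ix d) → ℤ) → Prop, P3 = fun c => ¬ T3c (y ^ (400 * d + 125))
      (y ^ (528 * d + 165) / y ^ (k0 d)) c := ⟨_, rfl⟩
  obtain ⟨P4, hP4⟩ : ∃ P4 : (↥(Ix d) → ℤ) → Prop, P4 = fun c => T2c H y c ∧ ¬ T4c H y c := ⟨_, rfl⟩
  obtain ⟨Z0, hZ0⟩ : ∃ Z0 : (↥(Ix d) → ℤ) → Prop, Z0 = fun c => (ff c).natDegree ≠ d := ⟨_, rfl⟩
  obtain ⟨Z1, hZ1⟩ : ∃ Z1 : (↥(Ix d) → ℤ) → Prop, Z1 = fun c => (ff c).natDegree = d ∧
      ¬ Irreducible ((ff c).map (Int.castRingHom ℚ)) := ⟨_, rfl⟩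
  obtain ⟨SA, hSA⟩ : ∃ SA : (↥(Ix d) → ℤ) → Prop, SA = fun c => ∃ p : ℤ × ℤ,
      (|p.1| ≤ m ∧ |p.2| ≤ m) ∧ ev p.1 p.2 (PG c) = 0 := ⟨_, rfl⟩
  obtain ⟨SB, hSB⟩ : ∃ SB : (↥(Ix d) → ℤ) → Prop, SB = fun c => Typ H y c ∧ ∃ p : ℤ × ℤ,
      (|(p.2 : ℝ)| ≤ |(p.1 : ℝ)| ∧
      y ^ (k0 d) ≤ |(p.1 : ℝ)| ∧ |(p.1 : ℝ)| ≤ y ^ (k0 d) * y ^ (n + 1)) ∧
      ev p.1 p.2 (PG c) = 0 := ⟨_, rfl⟩
  obtain ⟨SC, hSC⟩ : ∃ SC : (↥(Ix d) → ℤ) → Prop, SC = fun c => (Typ H y c ∧ Typ H y (sw c) ∧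
      (ff c).natDegree = d ∧ Irreducible ((ff c).map (Int.castRingHom ℚ))) ∧ ∃ p : ℤ × ℤ,
      (((d + 1) * ((Ix d).card * H)) ^ (kC d) < max p.2.natAbs p.1.natAbs) ∧
      ev p.1 p.2 (PG c) = 0 := ⟨_, rfl⟩
  rw [← hP2] at b2
  rw [← hP3] at b3
  rw [← hP4] at b4
  rw [← hZ0] at z0
  rw [← hZ1] at z1
  rw [← hSA] at sa
  rw [← hSB] at sb
  rw [← hSC] at sc
  have hcov : ∀ c ∈ Bx ↥(Ix d) H, (∃ p : ℤ × ℤ, ev p.1 p.2 (PG c) = 0) →
      (P2 c ∨ P3 c ∨ P4 c ∨ P2 (sw c) ∨ P3 (sw c) ∨ P4 (sw c) ∨ Z0 c ∨ Z1 c ∨ SA c ∨ SB c ∨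
        SB (sw c) ∨ SC c) := by
    rintro c hc ⟨p, hp⟩
    by_cases q2 : P2 c; · left; exact q2
    by_cases q3 : P3 c; · right; left; exact q3
    by_cases q4 : P4 c; · right; right; left; exact q4
    by_cases q2' : P2 (sw c); · right; right; right; left; exact q2'
    by_cases q3' : P3 (sw c); · right; right; right; right; left; exact q3'
    by_cases q4' : P4 (sw c); · right; right; right; right; right; left; exact q4'
    by_cases r0 : Z0 c; · right; right; right; right; right; right; left; exact r0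
    by_cases r1 : Z1 c; · right; right; right; right; right; right; right; left; exact r1
    have hT2 : T2c H y c := by rw [hP2] at q2; exact not_not.1 q2
    have hT3 : T3c (y ^ (400 * d + 125)) (y ^ (528 * d + 165) / y ^ (k0 d)) c := by
      rw [hP3] at q3; exact not_not.1 q3
    have hT4 : T4c H y c := by
      by_contra hcon
      apply q4
      rw [hP4]
      exact ⟨hT2, hcon⟩
    have hT2' : T2c H y (sw c) := by rw [hP2] at q2'; exact not_not.1 q2'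
    have hT3' : T3c (y ^ (400 * d + 125)) (y ^ (528 * d + 165) / y ^ (k0 d)) (sw c) := by
      rw [hP3] at q3'; exact not_not.1 q3'
    have hT4' : T4c H y (sw c) := by
      by_contra hcon
      apply q4'
      rw [hP4]
      exact ⟨hT2', hcon⟩
    have hdeg : (ff c).natDegree = d := by rw [hZ0] at r0; exact not_not.1 r0
    have hirr : Irreducible ((ff c).map (Int.castRingHom ℚ)) := by
      by_contra hcon
      apply r1
      rw [hZ1]
      exact ⟨hdeg, hcon⟩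
    have hty : Typ H y c := ⟨hT2, hT3, hT4⟩
    have hty' : Typ H y (sw c) := ⟨hT2', hT3', hT4'⟩
    right; right; right; right; right; right; right; right
    by_cases hbig : ((d + 1) * ((Ix d).card * H)) ^ (kC d) < max p.2.natAbs p.1.natAbs
    · right; right; right
      rw [hSC]
      exact ⟨⟨hty, hty', hdeg, hirr⟩, p, hbig, hp⟩
    push_neg at hbig
    by_cases hsm : |p.1| ≤ m ∧ |p.2| ≤ m
    · left
      rw [hSA]
      exact ⟨p, hsm, hp⟩
    right
    have hb1 : |(p.1 : ℝ)| ≤ y ^ (k0 d) * y ^ (n + 1) := by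
      refine le_trans ?_ hXr
      have h1 := (le_max_right p.2.natAbs p.1.natAbs).trans hbig
      have h2 : ((p.1.natAbs : ℕ) : ℝ) ≤ ((((d + 1) * ((Ix d).card * H)) ^ (kC d) : ℕ) : ℝ) := by
        exact_mod_cast h1
      rwa [Nat.cast_natAbs, Int.cast_abs] at h2
    have hb2 : |(p.2 : ℝ)| ≤ y ^ (k0 d) * y ^ (n + 1) := by
      refine le_trans ?_ hXr
      have h1 := (le_max_left p.2.natAbs p.1.natAbs).trans hbig
      have h2 : ((p.2.natAbs : ℕ) : ℝ) ≤ ((((d + 1) * ((Ix d).card * H)) ^ (kC d) : ℕ) : ℝ) := by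
        exact_mod_cast h1
      rwa [Nat.cast_natAbs, Int.cast_abs] at h2
    have hlow : ∀ z : ℤ, (m : ℤ) < |z| → y ^ (k0 d) ≤ |(z : ℝ)| := by
      intro z hz
      have h1 := Nat.lt_floor_add_one (y ^ (k0 d))
      rw [← hm] at h1
      have h2 : (m : ℤ) + 1 ≤ |z| := hz
      have h3 : (((m : ℤ) + 1 : ℤ) : ℝ) ≤ ((|z| : ℤ) : ℝ) := by exact_mod_cast h2
      rw [Int.cast_abs] at h3
      push_cast at h3
      linarith
    rcases le_total |p.2| |p.1| with hle | hle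
    · left
      rw [hSB]
      refine ⟨hty, p, ⟨by exact_mod_cast hle, ?_, hb1⟩, hp⟩
      apply hlow
      by_contra hcon
      push_neg at hcon
      exact hsm ⟨hcon, hle.trans hcon⟩
    · right; left
      rw [hSB]
      refine ⟨hty', (p.2, p.1), ⟨by exact_mod_cast hle, ?_, hb2⟩, ?_⟩
      · apply hlow
        by_contra hcon
        push_neg at hcon
        exact hsm ⟨hle.trans hcon, hcon⟩
      · rw [ev_sw]
        exact hp
  have b2' := Cn_sw (H := H) P2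
  have b3' := Cn_sw (H := H) P3
  have b4' := Cn_sw (H := H) P4
  have sb' := Cn_sw (H := H) SB
  refine (Cn_mono hcov).trans ?_
  have u1 := Cn_or (H := H) P2 (fun c => P3 c ∨ P4 c ∨ P2 (sw c) ∨ P3 (sw c) ∨ P4 (sw c) ∨ Z0 c ∨
    Z1 c ∨ SA c ∨ SB c ∨ SB (sw c) ∨ SC c)
  have u2 := Cn_or (H := H) P3 (fun c => P4 c ∨ P2 (sw c) ∨ P3 (sw c) ∨ P4 (sw c) ∨ Z0 c ∨
    Z1 c ∨ SA c ∨ SB c ∨ SB (sw c) ∨ SC c)
  have u3 := Cn_or (H := H) P4 (fun c => P2 (sw c) ∨ P3 (sw c) ∨ P4 (sw c) ∨ Z0 c ∨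
    Z1 c ∨ SA c ∨ SB c ∨ SB (sw c) ∨ SC c)
  have u4 := Cn_or (H := H) (fun c => P2 (sw c)) (fun c => P3 (sw c) ∨ P4 (sw c) ∨ Z0 c ∨
    Z1 c ∨ SA c ∨ SB c ∨ SB (sw c) ∨ SC c)
  have u5 := Cn_or (H := H) (fun c => P3 (sw c)) (fun c => P4 (sw c) ∨ Z0 c ∨
    Z1 c ∨ SA c ∨ SB c ∨ SB (sw c) ∨ SC c)
  have u6 := Cn_or (H := H) (fun c => P4 (sw c)) (fun c => Z0 c ∨
    Z1 c ∨ SA c ∨ SB c ∨ SB (sw c) ∨ SC c)
  have u7 := Cn_or (H := H) Z0 (fun c => Z1 c ∨ SA c ∨ SB c ∨ SB (sw c) ∨ SC c)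
  have u8 := Cn_or (H := H) Z1 (fun c => SA c ∨ SB c ∨ SB (sw c) ∨ SC c)
  have u9 := Cn_or (H := H) SA (fun c => SB c ∨ SB (sw c) ∨ SC c)
  have u10 := Cn_or (H := H) SB (fun c => SB (sw c) ∨ SC c)
  have u11 := Cn_or (H := H) (fun c => SB (sw c)) SC
  have hfin : 32 / y * Bc + (2 / y * Bc + (1 / y * Bc + (32 / y * Bc + (2 / y * Bc + (1 / y * Bc +
    (1 / y * Bc + (1 / y * Bc + (1 / y * Bc + (1 / y * Bc + (1 / y * Bc + 1 / y * Bc))))))))))
    = 76 / y * Bc := by ring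
  rw [← hfin]
  linarith

end Pool.Agent.H322R2
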