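import Pool.Agent.H322R2.SecV
import Pool.Agent.H322R2.Fin3

/-!
Directions, the exchange of variables, and bounds for the exceptional sets.
-/

open Polynomial Finset

namespace Pool.Agent.H322R2

variable {d : ℕ}

/-- directions and separating polynomials -/
structure DData (d : ℕ) (S : Finset (ℤ × ℤ)) (h : ℕ) (Rd : Fin (d + 1) → ↥(Ix d) → ℤ)
    (R2 : ↥(Ix d) → ℤ) (RR : Finset (↥(Ix d) → ℤ)) : Prop where
  hk : ∀ k, Dr S h (Rd k)
  hk' : ∀ k, ff (Rd k) = X ^ (k : ℕ)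
  h2 : Dr S h R2
  h20 : ff R2 = 0
  h21 : lead (d - 1) (PG R2) = 0
  h22 : lead (d - 2) (PG R2) = 1
  hs : ∀ R ∈ RR, Dr S h R ∧ TD (d - 4) (PG R)
  hsep : ∀ Q : ℤ × ℤ, Q ∉ S → ∃ R ∈ RR, ev Q.1 Q.2 (PG R) ≠ 0

lemma lead_zero_of_TD {k m : ℕ} {G : ℤ[X][X]} (h : TD k G) (hkm : k < m) : lead m G = 0 := by
  ext j
  rw [coeff_lead]
  split_ifs with h1
  · rw [coeff_zero_of_TD h (by omega), coeff_zero]
  · simp

lemma vec_mem_Lam {S : Finset (ℤ × ℤ)} {G : ℤ[X][X]} (hG : TD d G)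
    (hv : ∀ p ∈ S, ev p.1 p.2 G = 0) : (vec G : ↥(Ix d) → ℤ) ∈ Lam d S := by
  rw [mem_Lam, PG_vec hG]
  exact hv

/-- height of a vector -/
def ht (R : ↥(Ix d) → ℤ) : ℕ := ∑ i, (R i).natAbs

lemma le_ht (R : ↥(Ix d) → ℤ) (i : ↥(Ix d)) : |R i| ≤ (ht R : ℤ) := by
  have h1 : (R i).natAbs ≤ ht R := Finset.single_le_sum (f := fun i => (R i).natAbs)
    (fun _ _ => Nat.zero_le _) (Finset.mem_univ i)
  have h2 : ((R i).natAbs : ℤ) ≤ (ht R : ℤ) := by exact_mod_cast h1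
  rwa [Int.natCast_natAbs] at h2

theorem ddata_exists (S : Finset (ℤ × ℤ)) (hd : 2 * S.card + 4 ≤ d) :
    ∃ (h0 : ℕ) (Rd : Fin (d + 1) → ↥(Ix d) → ℤ) (R2 : ↥(Ix d) → ℤ) (RR : Finset (↥(Ix d) → ℤ)),
      ∀ h, h0 ≤ h → DData d S h Rd R2 RR := by
  classical
  have hex : ∀ k : Fin (d + 1), ∃ G : ℤ[X][X], TD d G ∧ lead d G = X ^ (k : ℕ) ∧
      ∀ p ∈ S, ev p.1 p.2 G = 0 := by
    intro k
    have hk := k.2
    obtain ⟨G, h1, h2, h3⟩ := dir_exists S (k : ℕ) (d - k) (by omega)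
    have e : (k : ℕ) + (d - k) = d := by omega
    rw [e] at h1 h2
    exact ⟨G, h1, h2, h3⟩
  choose Gk g1 g2 g3 using hex
  obtain ⟨G2, f1, f2, f3⟩ := dir_exists S 0 (d - 2) (Or.inl (by omega))
  rw [Nat.zero_add] at f1 f2
  rw [pow_zero] at f2
  obtain ⟨𝒢, s1, s2⟩ := sep_exists S
  obtain ⟨RR, hRR⟩ : ∃ RR : Finset (↥(Ix d) → ℤ), RR = 𝒢.image vec := ⟨_, rfl⟩
  refine ⟨(∑ k, ht (vec (Gk k) : ↥(Ix d) → ℤ)) + ht (vec G2 : ↥(Ix d) → ℤ) + ∑ R ∈ RR, ht R,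
    fun k => vec (Gk k), vec G2, RR, ?_⟩
  intro h hh
  have hf1d : TD d G2 := TD_mono f1 (by omega)
  constructor
  · intro k
    refine ⟨vec_mem_Lam (g1 k) (g3 k), ?_⟩
    intro i
    refine (le_ht _ i).trans ?_
    have h1 : ht (vec (Gk k) : ↥(Ix d) → ℤ) ≤ ∑ k, ht (vec (Gk k) : ↥(Ix d) → ℤ) :=
      Finset.single_le_sum (f := fun k => ht (vec (Gk k) : ↥(Ix d) → ℤ))
        (fun _ _ => Nat.zero_le _) (Finset.mem_univ k)
    exact_mod_cast (by omega : ht (vec (Gk k) : ↥(Ix d) → ℤ) ≤ h)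
  · intro k
    show lead d (PG (vec (Gk k))) = _
    rw [PG_vec (g1 k), g2 k]
  · refine ⟨vec_mem_Lam hf1d f3, ?_⟩
    intro i
    refine (le_ht _ i).trans ?_
    exact_mod_cast (by omega : ht (vec G2 : ↥(Ix d) → ℤ) ≤ h)
  · show lead d (PG (vec G2)) = _
    rw [PG_vec hf1d]
    exact lead_zero_of_TD f1 (by omega)
  · rw [PG_vec hf1d]
    exact lead_zero_of_TD f1 (by omega)
  · rw [PG_vec hf1d]
    exact f2
  · intro R hR
    have h1 : ht R ≤ ∑ R ∈ RR, ht R :=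
      Finset.single_le_sum (f := fun R => ht R) (fun _ _ => Nat.zero_le _) hR
    rw [hRR, Finset.mem_image] at hR
    obtain ⟨G, hG, rfl⟩ := hR
    obtain ⟨t1, t2⟩ := s1 G hG
    have t1d : TD d G := TD_mono t1 (by omega)
    refine ⟨⟨vec_mem_Lam t1d t2, ?_⟩, ?_⟩
    · intro i
      refine (le_ht _ i).trans ?_
      exact_mod_cast (by omega : ht (vec G : ↥(Ix d) → ℤ) ≤ h)
    · rw [PG_vec t1d]
      exact TD_mono t1 (by omega)
  · intro Q hQ
    obtain ⟨G, hG, hGQ⟩ := s2 Q hQ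
    have t1d : TD d G := TD_mono (s1 G hG).1 (by omega)
    refine ⟨vec G, ?_, ?_⟩
    · rw [hRR, Finset.mem_image]
      exact ⟨G, hG, rfl⟩
    · rw [PG_vec t1d]
      exact hGQ

lemma sw_mem_Lam {S : Finset (ℤ × ℤ)} {c : ↥(Ix d) → ℤ} :
    sw c ∈ Lam d (S.image Prod.swap) ↔ c ∈ Lam d S := by
  rw [mem_Lam, mem_Lam]
  constructor
  · intro h p hp
    have h1 := h (p.2, p.1) (by
      rw [Finset.mem_image]
      exact ⟨p, hp, rfl⟩)
    rw [ev_sw] at h1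
    exact h1
  · intro h p hp
    rw [Finset.mem_image] at hp
    obtain ⟨q, hq, rfl⟩ := hp
    rw [ev_sw]
    exact h q hq

lemma sw_mem_VB {S : Finset (ℤ × ℤ)} {H : ℕ} {c : ↥(Ix d) → ℤ} :
    sw c ∈ VB (Lam d (S.image Prod.swap)) H ↔ c ∈ VB (Lam d S) H := by
  rw [mem_VB, mem_VB, sw_mem_Lam]
  constructor
  · rintro ⟨h1, h2⟩
    refine ⟨?_, h2⟩
    have := sw_mem h1
    rwa [sw_sw] at this
  · rintro ⟨h1, h2⟩
    exact ⟨sw_mem h1, h2⟩

open Classical in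
/-- number of vectors in the box vanishing on `S` with a property -/
noncomputable def Cv (S : Finset (ℤ × ℤ)) (H : ℕ) (P : (↥(Ix d) → ℤ) → Prop) : ℝ :=
  (((VB (Lam d S) H).filter P).card : ℝ)

lemma Cv_mono {S : Finset (ℤ × ℤ)} {H : ℕ} {P Q : (↥(Ix d) → ℤ) → Prop}
    (h : ∀ c ∈ VB (Lam d S) H, P c → Q c) : Cv S H P ≤ Cv S H Q := by
  classical
  unfold Cv
  have : ((VB (Lam d S) H).filter P).card ≤ ((VB (Lam d S) H).filter Q).card := by
    apply Finset.card_le_card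
    intro c hc
    rw [Finset.mem_filter] at hc ⊢
    exact ⟨hc.1, h c hc.1 hc.2⟩
  convert (show ((((VB (Lam d S) H).filter P).card : ℕ) : ℝ) ≤
    (((VB (Lam d S) H).filter Q).card : ℕ) by exact_mod_cast this)

lemma Cv_or {S : Finset (ℤ × ℤ)} {H : ℕ} (P Q : (↥(Ix d) → ℤ) → Prop) :
    Cv S H (fun c => P c ∨ Q c) ≤ Cv S H P + Cv S H Q := by
  classical
  unfold Cv
  have h1 := Finset.card_union_le ((VB (Lam d S) H).filter P) ((VB (Lam d S) H).filter Q)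
  rw [← Finset.filter_or] at h1
  have h2 : ((((VB (Lam d S) H).filter (fun c => P c ∨ Q c)).card : ℕ) : ℝ) ≤
    (((VB (Lam d S) H).filter P).card : ℕ) + (((VB (Lam d S) H).filter Q).card : ℕ) := by
    exact_mod_cast h1
  convert h2

lemma Cv_le {S : Finset (ℤ × ℤ)} {H : ℕ} (P : (↥(Ix d) → ℤ) → Prop) : Cv S H P ≤ Vo d S H := by
  classical
  have h1 : ((((VB (Lam d S) H).filter P).card : ℕ) : ℝ) ≤ ((VB (Lam d S) H).card : ℕ) := by
    exact_mod_cast Finset.card_filter_le _ _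
  unfold Cv Vo
  convert h1

lemma Cv_nonneg {S : Finset (ℤ × ℤ)} {H : ℕ} (P : (↥(Ix d) → ℤ) → Prop) : 0 ≤ Cv S H P := by
  unfold Cv; positivity

lemma Cv_sum {κ : Type*} {S : Finset (ℤ × ℤ)} {H : ℕ} (s : Finset κ)
    (P : κ → (↥(Ix d) → ℤ) → Prop) :
    Cv S H (fun c => ∃ k ∈ s, P k c) ≤ ∑ k ∈ s, Cv S H (P k) := by
  classical
  induction s using Finset.induction_on with
  | empty =>
    rw [Finset.sum_empty]
    have : Cv S H (fun c : ↥(Ix d) → ℤ => ∃ k ∈ (∅ : Finset κ), P k c) = 0 := by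
      unfold Cv
      rw [Nat.cast_eq_zero, Finset.card_eq_zero]
      ext c
      simp
    rw [this]
  | insert a s ha ih =>
    rw [Finset.sum_insert ha]
    refine le_trans ?_ (add_le_add_right ih _)
    refine le_trans ?_ (Cv_or _ _)
    apply Cv_mono
    rintro c _ ⟨k, hk, hk2⟩
    rw [Finset.mem_insert] at hk
    rcases hk with rfl | hk
    · left; exact hk2
    · right; exact ⟨k, hk, hk2⟩

lemma Cv_sw {S : Finset (ℤ × ℤ)} {H : ℕ} (P : (↥(Ix d) → ℤ) → Prop) :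
    Cv S H (fun c => P (sw c)) = Cv (S.image Prod.swap) H P := by
  classical
  have h : ((VB (Lam d S) H).filter (fun c => P (sw c))).card
      = ((VB (Lam d (S.image Prod.swap)) H).filter P).card := by
    apply Finset.card_bij (fun c _ => sw c)
    · intro c hc
      rw [Finset.mem_filter] at hc ⊢
      exact ⟨sw_mem_VB.2 hc.1, hc.2⟩
    · intro c _ c' _ h
      have := congrArg sw h
      rwa [sw_sw, sw_sw] at this
    · intro c hc
      rw [Finset.mem_filter] at hc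
      refine ⟨sw c, ?_, sw_sw c⟩
      rw [Finset.mem_filter, sw_sw]
      refine ⟨?_, hc.2⟩
      rw [← sw_mem_VB, sw_sw]
      exact hc.1
  unfold Cv
  congr!

lemma Vo_sw (S : Finset (ℤ × ℤ)) (H : ℕ) : Vo d (S.image Prod.swap) H = Vo d S H := by
  have h := Cv_sw (d := d) (S := S) (H := H) (fun _ => True)
  unfold Cv at h
  simp only [Finset.filter_true] at h
  unfold Vo
  exact h.symm

lemma fracV {a K W V y : ℝ} {H : ℕ} (hy : 0 < y) (hH : 0 < (H : ℝ)) (hW : 0 ≤ W) (hV : 0 ≤ V)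
    (h : a * H ≤ W * K * V) (hK : K * y ≤ H) : a ≤ W / y * V := by
  have h1 : K ≤ 1 / y * H := by
    rw [one_div, inv_mul_eq_div, le_div_iff₀ hy]; exact hK
  have h2 : a * H ≤ (W / y * V) * H := by
    calc a * H ≤ W * K * V := h
      _ ≤ W * (1 / y * H) * V := by gcongr
      _ = _ := by ring
  exact le_of_mul_le_mul_right h2 hH

end Pool.Agent.H322R2
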