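import Pool.Agent.H322R2.AsmA

/-!
Almost all curves through prescribed points have no other integer point: the bounds.
-/

open Polynomial Finset

namespace Pool.Agent.H322R2

variable {d : ℕ}

/-- the relative constant -/
noncomputable def WW (d h : ℕ) : ℝ := h * 4 ^ (Ix d).card

lemma WW_nonneg (d h : ℕ) : 0 ≤ WW d h := by unfold WW; positivity

/-- the set of conditions on `H` and `y` -/
structure HY (d H : ℕ) (y : ℝ) : Prop where
  hyH : y ^ (EE d) = H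
  k0' : K0 d ≤ y
  k1 : ((4 * ((EE d + 1) * kC d) * d : ℕ) : ℝ) ≤ y
  k2 : ((kN d : ℕ) : ℝ) ≤ y
  k3 : (d : ℝ) * (3 * (2 ^ d * (d + 1))) ^ d ≤ y
  k4 : 3 + 2 * Real.log (2 ^ d * (d + 1)) + 2 * (EE d : ℕ) ≤ y
  k5 : 100 ≤ y

lemma HY_of {H : ℕ} {y : ℝ} (hyH : y ^ (EE d) = H) (hyK : K1 d ≤ y) : HY d H y := by
  have hNN := NN_nonneg (d := d)
  have hCL0 := CL_nonneg d
  have hlog := logt_nonneg d
  have p0 : 0 ≤ K0 d := by unfold K0; positivity
  have p1 : (0 : ℝ) ≤ (4 * ((EE d + 1) * kC d) * d : ℕ) := Nat.cast_nonneg _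
  have p2 : (0 : ℝ) ≤ (kN d : ℕ) := Nat.cast_nonneg _
  have p3 : 0 ≤ (d : ℝ) * (3 * (2 ^ d * (d + 1))) ^ d := by positivity
  have p4 : (0 : ℝ) ≤ (EE d : ℕ) := Nat.cast_nonneg _
  refine ⟨hyH, ?_, ?_, ?_, ?_, ?_, ?_⟩ <;> (unfold K1 at hyK; linarith)

section

variable {H : ℕ} {y : ℝ} (A : HY d H y) (hd : 4 ≤ d)

include A

lemma HY.y0 : 0 < y := by have := A.k5; linarith

lemma HY.y1 : 1 ≤ y := by have := A.k5; linarith

lemma HY.hpow (k : ℕ) (hk : k ≤ EE d) : y ^ k ≤ H := by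
  rw [← A.hyH]
  exact pow_le_pow_right₀ A.y1 hk

include hd

lemma HY.H2 : y ^ 2 ≤ H := A.hpow 2 (by unfold EE; omega)

lemma HY.H1 : (1 : ℝ) ≤ H := (one_le_pow₀ A.y1).trans (A.H2 hd)

lemma HY.H0 : (0 : ℝ) < H := by have := A.H1 hd; linarith

lemma HY.hyy : y * y ≤ H := by have := A.H2 hd; nlinarith

lemma b2V (S : Finset (ℤ × ℤ)) {h : ℕ} (hh : 1 ≤ h) {R0 R1 : ↥(Ix d) → ℤ}
    (hR0 : Dr S h R0) (hR0' : ff R0 = 1) (hR1 : Dr S h R1) (hR1' : ff R1 = X) :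
    Cv S H (fun c : ↥(Ix d) → ℤ => ¬ T2c (2 * H) y c) ≤
      (405 * (h : ℝ) ^ 2 * 6 ^ (Ix d).card) / y * Vo d S H := by
  have h5 := A.k5
  unfold Cv Vo
  convert card_ex2V (d := d) (by omega) S hh hR0 hR0' hR1 hR1' (H := H) (y := y) (by linarith)
    (k_CL A.k0') (A.H2 hd)

lemma b3V (S : Finset (ℤ × ℤ)) {h : ℕ} (hh : 1 ≤ h) {R0 : ↥(Ix d) → ℤ}
    (hR0 : Dr S h R0) (hR0' : ff R0 = 1) :
    Cv S H (fun c : ↥(Ix d) → ℤ => ¬ T3c (y ^ (400 * d + 125))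
      (y ^ (528 * d + 165) / y ^ (k0 d)) c) ≤ (5 * WW d h) / y * Vo d S H := by
  have hy0 := A.y0
  have hy1 := A.y1
  have h5 := A.k5
  have hH0 := A.H0 hd
  have hCL0 := CL_nonneg d
  have hEE : EE d = 10 ^ 4 * d := rfl
  have hB : y ^ (528 * d + 165) / y ^ (k0 d) = 1 / y ^ (2600 * d + 1) := by
    have : y ^ (k0 d) = y ^ (528 * d + 165) * y ^ (2600 * d + 1) := by
      rw [← pow_add]; congr 1; unfold k0; omega
    rw [this, ← div_div, div_self (by positivity)]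
  have h1 := card_ex3V (d := d) (by omega) S hh hR0 hR0' (H := H) (A := y ^ (400 * d + 125))
    (B := y ^ (528 * d + 165) / y ^ (k0 d)) (s := 1 / y ^ (1300 * d)) (one_le_pow₀ hy1)
    (by positivity) (by positivity) (by
      rw [div_le_one (by positivity)]; exact one_le_pow₀ hy1) (by
      rw [hB, one_div_pow, ← pow_mul, mul_one_div, div_lt_div_iff₀ (by positivity) (by positivity),
        one_mul]
      have : y ^ (2600 * d + 1) = y * y ^ (1300 * d * 2) := by rw [← pow_succ']; congr 1; ring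
      rw [this]
      exact mul_lt_mul_of_pos_right (by linarith) (by positivity))
  have h2 : 54 * (y ^ (400 * d + 125)) ^ 3 * (2 * (CL d * H * (1 / y ^ (1300 * d))) + 1)
      ≤ (5 / y) * H := by
    have e1 : (y ^ (400 * d + 125)) ^ 3 * (1 / y ^ (1300 * d)) ≤ 1 / y ^ 25 := by
      rw [mul_one_div, div_le_div_iff₀ (by positivity) (by positivity), ← pow_mul, ← pow_add,
        one_mul]
      exact pow_le_pow_right₀ hy1 (by omega)
    have e2 : 108 * CL d * (H * (1 / y ^ 25)) ≤ 2 / y * H := by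
      have e3 : 108 * CL d * (1 / y ^ 25) ≤ 2 / y := by
        rw [mul_one_div, div_le_div_iff₀ (by positivity) hy0]
        calc 108 * CL d * y ≤ 108 * y * y := by
              have := k_CL A.k0'
              gcongr
          _ = 108 * y ^ 2 := by ring
          _ ≤ (2 * y) * y ^ 2 := by
              apply mul_le_mul_of_nonneg_right _ (by positivity)
              linarith
          _ = 2 * y ^ 3 := by ring
          _ ≤ 2 * y ^ 25 := by
              apply mul_le_mul_of_nonneg_left _ (by norm_num)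
              exact pow_le_pow_right₀ hy1 (by norm_num)
      calc 108 * CL d * (H * (1 / y ^ 25)) = (108 * CL d * (1 / y ^ 25)) * H := by ring
        _ ≤ _ := mul_le_mul_of_nonneg_right e3 hH0.le
    have e4 : 54 * (y ^ (400 * d + 125)) ^ 3 ≤ 2 / y * H := by
      rw [div_mul_eq_mul_div, le_div_iff₀ hy0]
      calc 54 * (y ^ (400 * d + 125)) ^ 3 * y = 54 * y ^ (1200 * d + 376) := by
            rw [← pow_mul, mul_assoc, ← pow_succ]; congr 2; ring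
        _ ≤ y * y ^ (1200 * d + 376) := mul_le_mul_of_nonneg_right (by linarith) (by positivity)
        _ = y ^ (1200 * d + 377) := by rw [← pow_succ']
        _ ≤ H := A.hpow _ (by omega)
        _ ≤ 2 * H := by linarith
    calc 54 * (y ^ (400 * d + 125)) ^ 3 * (2 * (CL d * H * (1 / y ^ (1300 * d))) + 1)
        = 108 * CL d * (H * ((y ^ (400 * d + 125)) ^ 3 * (1 / y ^ (1300 * d)))) +
          54 * (y ^ (400 * d + 125)) ^ 3 := by ring
      _ ≤ 108 * CL d * (H * (1 / y ^ 25)) + 54 * (y ^ (400 * d + 125)) ^ 3 := by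
          gcongr
      _ ≤ 2 / y * H + 2 / y * H := add_le_add e2 e4
      _ = 4 / y * H := by ring
      _ ≤ _ := by
          apply mul_le_mul_of_nonneg_right _ hH0.le
          apply div_le_div_of_nonneg_right _ hy0.le
          norm_num
  have hV := Vo_nonneg (d := d) S H
  have hW := WW_nonneg d h
  have h3 : Cv S H (fun c : ↥(Ix d) → ℤ => ¬ T3c (y ^ (400 * d + 125))
    (y ^ (528 * d + 165) / y ^ (k0 d)) c) * H ≤ ((5 * WW d h) / y * Vo d S H) * H := by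
    refine le_trans (le_trans (le_of_eq ?_) h1) ?_
    · unfold Cv
      congr!
    · have e : ((VB (Lam d S) H).card : ℝ) = Vo d S H := rfl
      rw [e]
      calc _ = (54 * (y ^ (400 * d + 125)) ^ 3 * (2 * (CL d * H * (1 / y ^ (1300 * d))) + 1)) *
            (WW d h * Vo d S H) := by unfold WW; ring
        _ ≤ ((5 / y) * H) * (WW d h * Vo d S H) :=
            mul_le_mul_of_nonneg_right h2 (by positivity)
        _ = _ := by ring
  exact le_of_mul_le_mul_right h3 hH0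

lemma b4V (S : Finset (ℤ × ℤ)) {h : ℕ} (hh : 1 ≤ h) {R2 : ↥(Ix d) → ℤ}
    (hR : Dr S h R2) (hR0 : ff R2 = 0) (hR1 : lead (d - 1) (PG R2) = 0)
    (hR2 : lead (d - 2) (PG R2) = 1) :
    Cv S H (fun c : ↥(Ix d) → ℤ => T2c (2 * H) y c ∧ ¬ T4c (2 * H) y c) ≤
      (3 * WW d h) / y * Vo d S H := by
  have h100 := k_100 A.k0'
  have hd0 : (0 : ℝ) ≤ d := by positivity
  unfold Cv WW
  convert card_ex4V (d := d) (by omega) S hh hR hR0 hR1 hR2 (H := H) (y := y) A.y1 (A.H2 hd)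
    (by linarith)

lemma z0V (S : Finset (ℤ × ℤ)) {h : ℕ} (hh : 1 ≤ h) {R : ↥(Ix d) → ℤ}
    (hR : Dr S h R) (hR0 : ff R = X ^ d) :
    Cv S H (fun c : ↥(Ix d) → ℤ => (ff c).natDegree ≠ d) ≤ (WW d h) / y * Vo d S H := by
  apply fracV (K := 1) A.y0 (A.H0 hd) (WW_nonneg d h) (Vo_nonneg S H)
  · unfold Cv WW
    convert cnt_Z0V (d := d) S hh hR hR0 H
  · rw [one_mul]
    have := A.hpow 1 (by unfold EE; omega)
    rwa [pow_one] at this

lemma z1V (S : Finset (ℤ × ℤ)) {h : ℕ} (hh : 1 ≤ h)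
    {R : Fin (d + 1) → ↥(Ix d) → ℤ} (hR : ∀ k, Dr S h (R k)) (hR0 : ∀ k, ff (R k) = X ^ (k : ℕ)) :
    Cv S H (fun c : ↥(Ix d) → ℤ => (ff c).natDegree = d ∧
      ¬ Irreducible ((ff c).map (Int.castRingHom ℚ))) ≤
      ((h : ℝ) ^ (d + 1) * (2 * (d + 2)) ^ (Ix d).card) / y * Vo d S H := by
  have hy0 := A.y0
  have hy1 := A.y1
  have hH1' : 1 ≤ H := by exact_mod_cast A.H1 hd
  have hlog := logt_nonneg d
  have p4 : (0 : ℝ) ≤ (EE d : ℕ) := Nat.cast_nonneg _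
  unfold Cv
  convert cnt_redV (d := d) (by omega) S hh hR hR0 (H := H) (y := y) hy1 hH1' (by
      have hX1 : 1 ≤ 2 ^ d * (d + 1) * H :=
        Nat.mul_pos (Nat.mul_pos (by positivity) (by omega)) hH1'
      refine (hs2_le _ hX1).trans ?_
      push_cast
      rw [Real.log_mul (by positivity) (by positivity), ← A.hyH, Real.log_pow]
      have h1 : Real.log y ≤ y := (Real.log_le_sub_one_of_pos hy0).trans (by linarith)
      have h2 : (EE d : ℝ) * Real.log y ≤ (EE d : ℝ) * y := mul_le_mul_of_nonneg_left h1 p4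
      have h3 : 3 + 2 * Real.log (2 ^ d * (d + 1)) ≤ (3 + 2 * Real.log (2 ^ d * (d + 1))) * y :=
        le_mul_of_one_le_right (by linarith) hy1
      calc 3 + 2 * (Real.log (2 ^ d * (d + 1)) + (EE d : ℝ) * Real.log y)
          = (3 + 2 * Real.log (2 ^ d * (d + 1))) + 2 * ((EE d : ℝ) * Real.log y) := by ring
        _ ≤ (3 + 2 * Real.log (2 ^ d * (d + 1))) * y + 2 * ((EE d : ℝ) * y) := by linarith
        _ = (3 + 2 * Real.log (2 ^ d * (d + 1)) + 2 * (EE d : ℕ)) * y := by ring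
        _ ≤ y * y := mul_le_mul_of_nonneg_right A.k4 hy0.le
        _ = y ^ 2 := by ring) A.k3 (A.hpow _ (by unfold EE; omega))

lemma saV (S : Finset (ℤ × ℤ)) {h : ℕ} (hh : 1 ≤ h) {R : ↥(Ix d) → ℤ}
    (hR : Dr S h R) (m : ℕ) (hm : m = ⌊y ^ (k0 d)⌋₊) :
    Cv S H (fun c : ↥(Ix d) → ℤ => True ∧ ∃ p : ℤ × ℤ, ((|p.1| ≤ m ∧ |p.2| ≤ m) ∧
      ev p.1 p.2 (PG R) ≠ 0) ∧ ev p.1 p.2 (PG c) = 0) ≤ (WW d h) / y * Vo d S H := by
  have hy0 := A.y0
  have hy1 := A.y1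
  have h5 := A.k5
  have hH0 := A.H0 hd
  apply fracV (K := (((2 * m + 1) ^ 2 : ℕ) : ℝ)) A.y0 (A.H0 hd) (WW_nonneg d h) (Vo_nonneg S H)
  · unfold Cv WW
    convert cnt_smallV (d := d) hh hR H m
  · have h1 : (m : ℝ) ≤ y ^ (k0 d) := by rw [hm]; exact Nat.floor_le (by positivity)
    have h2 : 1 ≤ y ^ (k0 d) := one_le_pow₀ hy1
    push_cast
    calc (2 * (m : ℝ) + 1) ^ 2 * y ≤ (3 * y ^ (k0 d)) ^ 2 * y := by
          apply mul_le_mul_of_nonneg_right _ hy0.le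
          apply pow_le_pow_left₀ (by positivity)
          linarith
      _ = 9 * y ^ (2 * k0 d + 1) := by
          have e : y ^ (2 * k0 d + 1) = (y ^ (k0 d)) ^ 2 * y := by
            rw [← pow_mul, mul_comm (k0 d) 2, ← pow_succ]
          rw [e]; ring
      _ ≤ y * y ^ (2 * k0 d + 1) := mul_le_mul_of_nonneg_right (by linarith) (by positivity)
      _ = y ^ (2 * k0 d + 2) := by rw [← pow_succ']
      _ ≤ H := A.hpow _ (by unfold k0 EE; omega)

lemma sbV (S : Finset (ℤ × ℤ)) {h : ℕ} (hh : 1 ≤ h) {R : ↥(Ix d) → ℤ}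
    (hR : Dr S h R) (hRT : TD (d - 4) (PG R)) (n : ℕ) (hn : n + 1 = (EE d + 1) * kC d) :
    Cv S H (fun c : ↥(Ix d) → ℤ => Typ (2 * H) y c ∧ ∃ p : ℤ × ℤ,
      ((|(p.2 : ℝ)| ≤ |(p.1 : ℝ)| ∧
      y ^ (k0 d) ≤ |(p.1 : ℝ)| ∧ |(p.1 : ℝ)| ≤ y ^ (k0 d) * y ^ (n + 1)) ∧
      ev p.1 p.2 (PG R) ≠ 0) ∧ ev p.1 p.2 (PG c) = 0) ≤ (WW d h) / y * Vo d S H := by
  have hy0 := A.y0
  apply fracV (K := ((4 * (n + 1) * d : ℕ) : ℝ)) A.y0 (A.H0 hd) (WW_nonneg d h) (Vo_nonneg S H)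
  · unfold Cv WW
    convert cnt_midV (d := d) hd hh hR hRT (H := H) (y := y) A.k0' (A.H2 hd) n
  · rw [hn]
    exact (mul_le_mul_of_nonneg_right A.k1 hy0.le).trans (A.hyy hd)

lemma scV (S : Finset (ℤ × ℤ)) {h : ℕ} (hh : 1 ≤ h) {R : ↥(Ix d) → ℤ}
    (hR : Dr S h R) (hRT : TD (d - 4) (PG R)) :
    Cv S H (fun c : ↥(Ix d) → ℤ => (Typ (2 * H) y c ∧ Typ (2 * H) y (sw c) ∧
      (ff c).natDegree = d ∧ Irreducible ((ff c).map (Int.castRingHom ℚ))) ∧ ∃ p : ℤ × ℤ,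
      ((((d + 1) * ((Ix d).card * (4 * H))) ^ (kC d) < max p.2.natAbs p.1.natAbs) ∧
      ev p.1 p.2 (PG R) ≠ 0) ∧ ev p.1 p.2 (PG c) = 0) ≤ (WW d h) / y * Vo d S H := by
  have hy0 := A.y0
  apply fracV (K := ((kN d : ℕ) : ℝ)) A.y0 (A.H0 hd) (WW_nonneg d h) (Vo_nonneg S H)
  · unfold Cv WW
    convert cnt_largeV (d := d) hd hh hR hRT (H := H) (y := y) hy0
  · exact (mul_le_mul_of_nonneg_right A.k2 hy0.le).trans (A.hyy hd)

lemma XrV (n : ℕ) (hn : n + 1 = (EE d + 1) * kC d) :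
    ((((d + 1) * ((Ix d).card * (4 * H))) ^ (kC d) : ℕ) : ℝ) ≤ y ^ (k0 d) * y ^ (n + 1) := by
  have hy0 := A.y0
  have hH0 := A.H0 hd
  have hNN := NN_nonneg (d := d)
  have h1 : ((d : ℝ) + 1) * ((Ix d).card * (4 * H)) ≤ y ^ (EE d + 1) := by
    have h2 : 4 * (((d : ℝ) + 1) * (Ix d).card) ≤ y := by
      refine le_trans ?_ (k_NN A.k0')
      have h3 : (1 : ℝ) ≤ 3 ^ d := one_le_pow₀ (by norm_num)
      have h4 : ((d : ℝ) + 1) * NN d * 4 ≤ ((d : ℝ) + 1) * NN d * (100 * 3 ^ d) :=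
        mul_le_mul_of_nonneg_left (by linarith) (by positivity)
      calc 4 * (((d : ℝ) + 1) * (Ix d).card) = ((d : ℝ) + 1) * NN d * 4 := by unfold NN; ring
        _ ≤ _ := h4
        _ = _ := by ring
    calc ((d : ℝ) + 1) * ((Ix d).card * (4 * H)) = (4 * (((d : ℝ) + 1) * (Ix d).card)) * H := by ring
      _ ≤ y * H := mul_le_mul_of_nonneg_right h2 hH0.le
      _ = _ := by rw [← A.hyH, ← pow_succ']
  push_cast
  calc (((d : ℝ) + 1) * ((Ix d).card * (4 * H))) ^ (kC d) ≤ (y ^ (EE d + 1)) ^ (kC d) :=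
        pow_le_pow_left₀ (by positivity) h1 _
    _ = y ^ (n + 1) := by rw [← pow_mul, hn]
    _ ≤ y ^ (k0 d) * y ^ (n + 1) := le_mul_of_one_le_left (by positivity) (one_le_pow₀ A.y1)

end

end Pool.Agent.H322R2
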