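import Pool.Agent.H322R2.AsmB

/-!
Almost all curves through prescribed points have no other integer point: the covering.
-/

open Polynomial Finset

namespace Pool.Agent.H322R2

variable {d : ℕ}

/-- the final constant -/
noncomputable def KV (d h a b : ℕ) : ℝ :=
  2 * (405 * (h : ℝ) ^ 2 * 6 ^ (Ix d).card) + 17 * WW d h +
    ((h : ℝ) ^ (d + 1) * (2 * (d + 2)) ^ (Ix d).card) + (3 * a + b) * WW d h

lemma KV_nonneg (d h a b : ℕ) : 0 ≤ KV d h a b := by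
  have := WW_nonneg d h
  unfold KV; positivity

theorem main_countV (hd : 4 ≤ d) (S : Finset (ℤ × ℤ)) {h : ℕ} (hh : 1 ≤ h)
    {Rd Rd' : Fin (d + 1) → ↥(Ix d) → ℤ} {R2 R2' : ↥(Ix d) → ℤ} {RR RR' : Finset (↥(Ix d) → ℤ)}
    (D : DData d S h Rd R2 RR) (D' : DData d (S.image Prod.swap) h Rd' R2' RR')
    {H : ℕ} {y : ℝ} (hyH : y ^ (EE d) = H) (hyK : K1 d ≤ y) :
    Cv S H (fun c : ↥(Ix d) → ℤ => ∃ p : ℤ × ℤ, p ∉ S ∧ ev p.1 p.2 (PG c) = 0)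
      ≤ KV d h RR.card RR'.card / y * Vo d S H := by
  classical
  have A := HY_of hyH hyK
  obtain ⟨S', hS'⟩ : ∃ S', S' = S.image Prod.swap := ⟨_, rfl⟩
  rw [← hS'] at D'
  obtain ⟨Vc, hVc⟩ : ∃ Vc : ℝ, Vc = Vo d S H := ⟨_, rfl⟩
  have hVc0 : 0 ≤ Vc := by rw [hVc]; exact Vo_nonneg S H
  have hVc' : Vo d S' H = Vc := by rw [hS', Vo_sw, hVc]
  obtain ⟨m, hm⟩ : ∃ m : ℕ, m = ⌊y ^ (k0 d)⌋₊ := ⟨_, rfl⟩
  have hkC1 : 1 ≤ kC d := by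
    show 0 < kC d
    unfold kC; positivity
  obtain ⟨n, hn⟩ : ∃ n, n + 1 = (EE d + 1) * kC d := by
    refine ⟨(EE d + 1) * kC d - 1, ?_⟩
    have : 1 ≤ (EE d + 1) * kC d := Nat.mul_pos (by omega) hkC1
    omega
  have hXr := XrV A hd n hn
  -- directions
  obtain ⟨i0, hi0⟩ : ∃ i0 : Fin (d + 1), i0 = ⟨0, by omega⟩ := ⟨_, rfl⟩
  obtain ⟨i1, hi1⟩ : ∃ i1 : Fin (d + 1), i1 = ⟨1, by omega⟩ := ⟨_, rfl⟩
  obtain ⟨id', hid⟩ : ∃ id' : Fin (d + 1), id' = ⟨d, by omega⟩ := ⟨_, rfl⟩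
  have f0 : ff (Rd i0) = 1 := by rw [D.hk', hi0]; simp
  have f1 : ff (Rd i1) = X := by rw [D.hk', hi1]; simp
  have f0' : ff (Rd' i0) = 1 := by rw [D'.hk', hi0]; simp
  have f1' : ff (Rd' i1) = X := by rw [D'.hk', hi1]; simp
  have fd : ff (Rd id') = X ^ d := by rw [D.hk', hid]
  -- bounds
  have b2 := b2V A hd S hh (D.hk i0) f0 (D.hk i1) f1
  have b2' := b2V A hd S' hh (D'.hk i0) f0' (D'.hk i1) f1'
  have b3 := b3V A hd S hh (D.hk i0) f0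
  have b3' := b3V A hd S' hh (D'.hk i0) f0'
  have b4 := b4V A hd S hh D.h2 D.h20 D.h21 D.h22
  have b4' := b4V A hd S' hh D'.h2 D'.h20 D'.h21 D'.h22
  have z0 := z0V A hd S hh (D.hk id') fd
  have z1 := z1V A hd S hh D.hk D.hk'
  have sa := fun (R : ↥(Ix d) → ℤ) (hR : R ∈ RR) => saV A hd S hh (D.hs R hR).1 m hm
  have sb := fun (R : ↥(Ix d) → ℤ) (hR : R ∈ RR) => sbV A hd S hh (D.hs R hR).1 (D.hs R hR).2 n hn
  have sb' := fun (R : ↥(Ix d) → ℤ) (hR : R ∈ RR') =>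
    sbV A hd S' hh (D'.hs R hR).1 (D'.hs R hR).2 n hn
  have sc := fun (R : ↥(Ix d) → ℤ) (hR : R ∈ RR) => scV A hd S hh (D.hs R hR).1 (D.hs R hR).2
  -- names
  obtain ⟨P2, hP2⟩ : ∃ P2 : (↥(Ix d) → ℤ) → Prop, P2 = fun c => ¬ T2c (2 * H) y c := ⟨_, rfl⟩
  obtain ⟨P3, hP3⟩ : ∃ P3 : (↥(Ix d) → ℤ) → Prop, P3 = fun c => ¬ T3c (y ^ (400 * d + 125))
      (y ^ (528 * d + 165) / y ^ (k0 d)) c := ⟨_, rfl⟩
  obtain ⟨P4, hP4⟩ : ∃ P4 : (↥(Ix d) → ℤ) → Prop, P4 = fun c => T2c (2 * H) y c ∧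
      ¬ T4c (2 * H) y c := ⟨_, rfl⟩
  obtain ⟨Z0, hZ0⟩ : ∃ Z0 : (↥(Ix d) → ℤ) → Prop, Z0 = fun c => (ff c).natDegree ≠ d := ⟨_, rfl⟩
  obtain ⟨Z1, hZ1⟩ : ∃ Z1 : (↥(Ix d) → ℤ) → Prop, Z1 = fun c => (ff c).natDegree = d ∧
      ¬ Irreducible ((ff c).map (Int.castRingHom ℚ)) := ⟨_, rfl⟩
  obtain ⟨SA, hSA⟩ : ∃ SA : (↥(Ix d) → ℤ) → (↥(Ix d) → ℤ) → Prop, SA = fun R c => True ∧
      ∃ p : ℤ × ℤ, ((|p.1| ≤ m ∧ |p.2| ≤ m) ∧
      ev p.1 p.2 (PG R) ≠ 0) ∧ ev p.1 p.2 (PG c) = 0 := ⟨_, rfl⟩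
  obtain ⟨SB, hSB⟩ : ∃ SB : (↥(Ix d) → ℤ) → (↥(Ix d) → ℤ) → Prop, SB = fun R c =>
      Typ (2 * H) y c ∧ ∃ p : ℤ × ℤ, ((|(p.2 : ℝ)| ≤ |(p.1 : ℝ)| ∧
      y ^ (k0 d) ≤ |(p.1 : ℝ)| ∧ |(p.1 : ℝ)| ≤ y ^ (k0 d) * y ^ (n + 1)) ∧
      ev p.1 p.2 (PG R) ≠ 0) ∧ ev p.1 p.2 (PG c) = 0 := ⟨_, rfl⟩
  obtain ⟨SC, hSC⟩ : ∃ SC : (↥(Ix d) → ℤ) → (↥(Ix d) → ℤ) → Prop, SC = fun R c =>
      (Typ (2 * H) y c ∧ Typ (2 * H) y (sw c) ∧
      (ff c).natDegree = d ∧ Irreducible ((ff c).map (Int.castRingHom ℚ))) ∧ ∃ p : ℤ × ℤ,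
      ((((d + 1) * ((Ix d).card * (4 * H))) ^ (kC d) < max p.2.natAbs p.1.natAbs) ∧
      ev p.1 p.2 (PG R) ≠ 0) ∧ ev p.1 p.2 (PG c) = 0 := ⟨_, rfl⟩
  rw [← hP2, ← hVc] at b2
  rw [← hP2, hVc', hS', ← Cv_sw] at b2'
  rw [← hP3, ← hVc] at b3
  rw [← hP3, hVc', hS', ← Cv_sw] at b3'
  rw [← hP4, ← hVc] at b4
  rw [← hP4, hVc', hS', ← Cv_sw] at b4'
  rw [← hZ0, ← hVc] at z0
  rw [← hZ1, ← hVc] at z1
  have sa2 : ∀ R ∈ RR, Cv S H (SA R) ≤ WW d h / y * Vc := by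
    intro R hR
    rw [hSA, hVc]
    exact sa R hR
  have sb2 : ∀ R ∈ RR, Cv S H (SB R) ≤ WW d h / y * Vc := by
    intro R hR
    rw [hSB, hVc]
    exact sb R hR
  have sc2 : ∀ R ∈ RR, Cv S H (SC R) ≤ WW d h / y * Vc := by
    intro R hR
    rw [hSC, hVc]
    exact sc R hR
  have sb2' : ∀ R ∈ RR', Cv S H (fun c => SB R (sw c)) ≤ WW d h / y * Vc := by
    intro R hR
    rw [Cv_sw, ← hS', hSB, ← hVc']
    exact sb' R hR
  have sum1 : ∀ (s : Finset (↥(Ix d) → ℤ)) (P : (↥(Ix d) → ℤ) → (↥(Ix d) → ℤ) → Prop),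
      (∀ R ∈ s, Cv S H (P R) ≤ WW d h / y * Vc) →
      Cv S H (fun c => ∃ R ∈ s, P R c) ≤ s.card * (WW d h / y * Vc) := by
    intro s P hP
    refine (Cv_sum s P).trans ?_
    refine (Finset.sum_le_card_nsmul _ _ _ hP).trans ?_
    rw [nsmul_eq_mul]
  have ua := sum1 RR SA sa2
  have ub := sum1 RR SB sb2
  have uc := sum1 RR SC sc2
  have ub' := sum1 RR' (fun R c => SB R (sw c)) sb2'
  obtain ⟨UA, hUA⟩ : ∃ UA : (↥(Ix d) → ℤ) → Prop, UA = fun c => ∃ R ∈ RR, SA R c := ⟨_, rfl⟩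
  obtain ⟨UB, hUB⟩ : ∃ UB : (↥(Ix d) → ℤ) → Prop, UB = fun c => ∃ R ∈ RR, SB R c := ⟨_, rfl⟩
  obtain ⟨UC, hUC⟩ : ∃ UC : (↥(Ix d) → ℤ) → Prop, UC = fun c => ∃ R ∈ RR, SC R c := ⟨_, rfl⟩
  obtain ⟨UB', hUB'⟩ : ∃ UB' : (↥(Ix d) → ℤ) → Prop, UB' = fun c => ∃ R ∈ RR', SB R (sw c) :=
    ⟨_, rfl⟩
  rw [← hUA] at ua
  rw [← hUB] at ub
  rw [← hUC] at uc
  rw [← hUB'] at ub'
  have hcov : ∀ c ∈ VB (Lam d S) H, (∃ p : ℤ × ℤ, p ∉ S ∧ ev p.1 p.2 (PG c) = 0) →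
      (P2 c ∨ P3 c ∨ P4 c ∨ P2 (sw c) ∨ P3 (sw c) ∨ P4 (sw c) ∨ Z0 c ∨ Z1 c ∨ UA c ∨ UB c ∨
        UB' c ∨ UC c) := by
    rintro c hc ⟨p, hpS, hp⟩
    by_cases q2 : P2 c; · left; exact q2
    by_cases q3 : P3 c; · right; left; exact q3
    by_cases q4 : P4 c; · right; right; left; exact q4
    by_cases q2' : P2 (sw c); · right; right; right; left; exact q2'
    by_cases q3' : P3 (sw c); · right; right; right; right; left; exact q3'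
    by_cases q4' : P4 (sw c); · right; right; right; right; right; left; exact q4'
    by_cases r0 : Z0 c; · right; right; right; right; right; right; left; exact r0
    by_cases r1 : Z1 c; · right; right; right; right; right; right; right; left; exact r1
    have hT2 : T2c (2 * H) y c := by rw [hP2] at q2; exact not_not.1 q2
    have hT3 : T3c (y ^ (400 * d + 125)) (y ^ (528 * d + 165) / y ^ (k0 d)) c := by
      rw [hP3] at q3; exact not_not.1 q3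
    have hT4 : T4c (2 * H) y c := by
      by_contra hcon
      apply q4
      rw [hP4]
      exact ⟨hT2, hcon⟩
    have hT2' : T2c (2 * H) y (sw c) := by rw [hP2] at q2'; exact not_not.1 q2'
    have hT3' : T3c (y ^ (400 * d + 125)) (y ^ (528 * d + 165) / y ^ (k0 d)) (sw c) := by
      rw [hP3] at q3'; exact not_not.1 q3'
    have hT4' : T4c (2 * H) y (sw c) := by
      by_contra hcon
      apply q4'
      rw [hP4]
      exact ⟨hT2', hcon⟩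
    have hdeg : (ff c).natDegree = d := by rw [hZ0] at r0; exact not_not.1 r0
    have hirr : Irreducible ((ff c).map (Int.castRingHom ℚ)) := by
      by_contra hcon
      apply r1
      rw [hZ1]
      exact ⟨hdeg, hcon⟩
    have hty : Typ (2 * H) y c := ⟨hT2, hT3, hT4⟩
    have hty' : Typ (2 * H) y (sw c) := ⟨hT2', hT3', hT4'⟩
    obtain ⟨R, hR, hRp⟩ := D.hsep p hpS
    obtain ⟨R', hR', hRp'⟩ := D'.hsep (p.2, p.1) (by
      intro hmem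
      rw [hS', Finset.mem_image] at hmem
      obtain ⟨q, hq, hq2⟩ := hmem
      apply hpS
      have : q = p := by
        have e1 := congrArg Prod.fst hq2
        have e2 := congrArg Prod.snd hq2
        exact Prod.ext e2 e1
      rwa [← this])
    right; right; right; right; right; right; right; right
    by_cases hbig : ((d + 1) * ((Ix d).card * (4 * H))) ^ (kC d) < max p.2.natAbs p.1.natAbs
    · right; right; right
      rw [hUC]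
      refine ⟨R, hR, ?_⟩
      rw [hSC]
      exact ⟨⟨hty, hty', hdeg, hirr⟩, p, ⟨hbig, hRp⟩, hp⟩
    push_neg at hbig
    by_cases hsm : |p.1| ≤ m ∧ |p.2| ≤ m
    · left
      rw [hUA]
      refine ⟨R, hR, ?_⟩
      rw [hSA]
      exact ⟨trivial, p, ⟨hsm, hRp⟩, hp⟩
    right
    have hb1 : |(p.1 : ℝ)| ≤ y ^ (k0 d) * y ^ (n + 1) := by
      refine le_trans ?_ hXr
      have h1 := (le_max_right p.2.natAbs p.1.natAbs).trans hbig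
      have h2 : ((p.1.natAbs : ℕ) : ℝ) ≤
          ((((d + 1) * ((Ix d).card * (4 * H))) ^ (kC d) : ℕ) : ℝ) := by
        exact_mod_cast h1
      rwa [Nat.cast_natAbs, Int.cast_abs] at h2
    have hb2 : |(p.2 : ℝ)| ≤ y ^ (k0 d) * y ^ (n + 1) := by
      refine le_trans ?_ hXr
      have h1 := (le_max_left p.2.natAbs p.1.natAbs).trans hbig
      have h2 : ((p.2.natAbs : ℕ) : ℝ) ≤
          ((((d + 1) * ((Ix d).card * (4 * H))) ^ (kC d) : ℕ) : ℝ) := by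
        exact_mod_cast h1
      rwa [Nat.cast_natAbs, Int.cast_abs] at h2
    have hlow : ∀ z : ℤ, (m : ℤ) < |z| → y ^ (k0 d) ≤ |(z : ℝ)| := by
      intro z hz
      have h1 := Nat.lt_floor_add_one (y ^ (k0 d))
      rw [← hm] at h1
      have h2 : (m : ℤ) + 1 ≤ |z| := hz
      have h3 : (((m : ℤ) + 1 : ℤ) : ℝ) ≤ ((|z| : ℤ) : ℝ) := by exact_mod_cast h2
      rw [Int.cast_abs] at h3
      push_cast at h3
      linarith
    rcases le_total |p.2| |p.1| with hle | hle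
    · left
      rw [hUB]
      refine ⟨R, hR, ?_⟩
      rw [hSB]
      refine ⟨hty, p, ⟨⟨by exact_mod_cast hle, ?_, hb1⟩, hRp⟩, hp⟩
      apply hlow
      by_contra hcon
      push_neg at hcon
      exact hsm ⟨hcon, hle.trans hcon⟩
    · right; left
      rw [hUB']
      refine ⟨R', hR', ?_⟩
      rw [hSB]
      refine ⟨hty', (p.2, p.1), ⟨⟨by exact_mod_cast hle, ?_, hb2⟩, hRp'⟩, ?_⟩
      · apply hlow
        by_contra hcon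
        push_neg at hcon
        exact hsm ⟨hle.trans hcon, hcon⟩
      · rw [ev_sw]
        exact hp
  refine (Cv_mono hcov).trans ?_
  have u1 := Cv_or (S := S) (H := H) P2 (fun c => P3 c ∨ P4 c ∨ P2 (sw c) ∨ P3 (sw c) ∨ P4 (sw c) ∨
    Z0 c ∨ Z1 c ∨ UA c ∨ UB c ∨ UB' c ∨ UC c)
  have u2 := Cv_or (S := S) (H := H) P3 (fun c => P4 c ∨ P2 (sw c) ∨ P3 (sw c) ∨ P4 (sw c) ∨ Z0 c ∨
    Z1 c ∨ UA c ∨ UB c ∨ UB' c ∨ UC c)
  have u3 := Cv_or (S := S) (H := H) P4 (fun c => P2 (sw c) ∨ P3 (sw c) ∨ P4 (sw c) ∨ Z0 c ∨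
    Z1 c ∨ UA c ∨ UB c ∨ UB' c ∨ UC c)
  have u4 := Cv_or (S := S) (H := H) (fun c => P2 (sw c)) (fun c => P3 (sw c) ∨ P4 (sw c) ∨ Z0 c ∨
    Z1 c ∨ UA c ∨ UB c ∨ UB' c ∨ UC c)
  have u5 := Cv_or (S := S) (H := H) (fun c => P3 (sw c)) (fun c => P4 (sw c) ∨ Z0 c ∨
    Z1 c ∨ UA c ∨ UB c ∨ UB' c ∨ UC c)
  have u6 := Cv_or (S := S) (H := H) (fun c => P4 (sw c)) (fun c => Z0 c ∨
    Z1 c ∨ UA c ∨ UB c ∨ UB' c ∨ UC c)
  have u7 := Cv_or (S := S) (H := H) Z0 (fun c => Z1 c ∨ UA c ∨ UB c ∨ UB' c ∨ UC c)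
  have u8 := Cv_or (S := S) (H := H) Z1 (fun c => UA c ∨ UB c ∨ UB' c ∨ UC c)
  have u9 := Cv_or (S := S) (H := H) UA (fun c => UB c ∨ UB' c ∨ UC c)
  have u10 := Cv_or (S := S) (H := H) UB (fun c => UB' c ∨ UC c)
  have u11 := Cv_or (S := S) (H := H) UB' UC
  rw [← hVc]
  obtain ⟨W, hW⟩ : ∃ W, W = WW d h := ⟨_, rfl⟩
  obtain ⟨B2, hB2⟩ : ∃ B2, B2 = 405 * (h : ℝ) ^ 2 * 6 ^ (Ix d).card := ⟨_, rfl⟩
  obtain ⟨B3, hB3⟩ : ∃ B3, B3 = (h : ℝ) ^ (d + 1) * (2 * (d + 2)) ^ (Ix d).card := ⟨_, rfl⟩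
  have hfin : KV d h RR.card RR'.card / y * Vc = B2 / y * Vc + (5 * W / y * Vc + (3 * W / y * Vc +
      (B2 / y * Vc + (5 * W / y * Vc + (3 * W / y * Vc + (W / y * Vc + (B3 / y * Vc +
      ((RR.card * (W / y * Vc)) + (RR.card * (W / y * Vc) + (RR'.card * (W / y * Vc) +
      RR.card * (W / y * Vc))))))))))) := by
    unfold KV
    rw [← hW, ← hB2, ← hB3]
    ring
  rw [hfin]
  rw [← hB2] at b2 b2'
  rw [← hW] at b3 b3' b4 b4' z0 ua ub uc ub'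
  rw [← hB3] at z1
  linarith

end Pool.Agent.H322R2
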