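import Pool.Agent.H322R2.AsmC

/-!
Explicit directions.
-/

open Polynomial Finset

namespace Pool.Agent.H322R2

variable {d : ℕ}

lemma pnzz_one : pn (pn zn) (1 : ℤ[X][X]) ≤ 1 := by
  rw [pn_one]; exact pnz_one

lemma pnz_X : pn zn (X : ℤ[X]) ≤ 1 := by
  rw [pn_X]; simp

lemma pnzz_X : pn (pn zn) (X : ℤ[X][X]) ≤ 1 := by
  rw [pn_X]; exact pnz_one

lemma pnz_lin {B : ℕ} {a : ℤ} (ha : |a| ≤ (B : ℤ)) : pn zn (X - C a) ≤ 1 + B := by
  have h1 : pn zn (X - C a) ≤ pn zn X + pn zn (C a) := by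
    rw [sub_eq_add_neg]
    refine (map_add_le_add _ _ _).trans ?_
    rw [map_neg_eq_map]
  refine h1.trans (add_le_add pnz_X ?_)
  rw [pn_C, zn_apply]
  have : ((|a| : ℤ) : ℝ) ≤ ((B : ℤ) : ℝ) := by exact_mod_cast ha
  rw [Int.cast_abs] at this
  exact_mod_cast this

lemma pnzz_lin {B : ℕ} {a : ℤ} (ha : |a| ≤ (B : ℤ)) :
    pn (pn zn) (X - C (C a) : ℤ[X][X]) ≤ 1 + B := by
  have h1 : pn (pn zn) (X - C (C a) : ℤ[X][X]) ≤ pn (pn zn) X + pn (pn zn) (C (C a)) := by
    rw [sub_eq_add_neg]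
    refine (map_add_le_add _ _ _).trans ?_
    rw [map_neg_eq_map]
  refine h1.trans (add_le_add pnzz_X ?_)
  rw [pn_C, pn_C, zn_apply]
  have : ((|a| : ℤ) : ℝ) ≤ ((B : ℤ) : ℝ) := by exact_mod_cast ha
  rw [Int.cast_abs] at this
  exact_mod_cast this

lemma pnzz_linC {B : ℕ} {a : ℤ} (ha : |a| ≤ (B : ℤ)) :
    pn (pn zn) (C (X - C a) : ℤ[X][X]) ≤ 1 + B := by
  rw [pn_C]; exact pnz_lin ha

lemma dir_existsB (S : Finset (ℤ × ℤ)) {B : ℕ} (hB : ∀ p ∈ S, |p.1| ≤ (B : ℤ) ∧ |p.2| ≤ (B : ℤ))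
    (j i : ℕ) (hS : S.card ≤ i ∨ S.card ≤ j) :
    ∃ G : ℤ[X][X], TD (j + i) G ∧ lead (j + i) G = X ^ j ∧ (∀ p ∈ S, ev p.1 p.2 G = 0) ∧
      pn (pn zn) G ≤ (1 + (B : ℝ)) ^ S.card := by
  rcases hS with hS | hS
  · obtain ⟨q, hq⟩ : ∃ q : ℤ[X], q = X ^ (i - S.card) * ∏ p ∈ S, (X - C p.1) := ⟨_, rfl⟩
    have hqm : q.Monic := by
      rw [hq]
      exact (monic_X_pow _).mul (monic_prod_of_monic _ _ fun p _ => monic_X_sub_C _)
    have hqd : q.natDegree = i := by
      rw [hq, (monic_X_pow _).natDegree_mul (monic_prod_of_monic _ _ fun p _ => monic_X_sub_C _),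
        natDegree_X_pow, natDegree_prod_of_monic _ _ (fun p _ => monic_X_sub_C _)]
      simp only [natDegree_X_sub_C, Finset.sum_const, smul_eq_mul, mul_one]
      omega
    refine ⟨monomial j q, ⟨?_, ?_⟩, ?_, ?_, ?_⟩
    · exact (natDegree_monomial_le _).trans (by omega)
    · intro k
      rw [coeff_monomial]
      split_ifs with h
      · rw [hqd]; omega
      · simp
    · ext k
      rw [coeff_lead, coeff_monomial, coeff_X_pow]
      by_cases hk : j = k
      · subst hk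
        rw [if_pos (by omega), if_pos rfl, if_pos rfl]
        have : j + i - j = q.natDegree := by omega
        rw [this]
        exact hqm
      · have hk' : ¬ k = j := fun h => hk h.symm
        simp [hk, hk']
    · intro p hp
      rw [← C_mul_X_pow_eq_monomial, map_mul, ev_C]
      have : evf p.1 q = 0 := by
        rw [hq, map_mul, map_prod]
        rw [Finset.prod_eq_zero hp, mul_zero]
        rw [map_sub, evf_X, evf_C]; simp
      rw [this, zero_mul]
    · rw [pn_monomial, hq]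
      refine (map_mul_le_mul _ _ _).trans ?_
      have h1 : pn zn (X ^ (i - S.card) : ℤ[X]) ≤ 1 :=
        (seminorm_pow_le _ pnz_one _ _).trans (pow_le_one₀ (apply_nonneg _ _) pnz_X)
      have h2 : pn zn (∏ p ∈ S, (X - C p.1) : ℤ[X]) ≤ (1 + (B : ℝ)) ^ S.card := by
        refine (seminorm_prod_le _ pnz_one _ _).trans ?_
        refine (Finset.prod_le_prod (fun p _ => apply_nonneg _ _)
          (fun p hp => pnz_lin (hB p hp).1)).trans ?_
        rw [Finset.prod_const]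
      calc _ ≤ 1 * (1 + (B : ℝ)) ^ S.card := mul_le_mul h1 h2 (apply_nonneg _ _) (by norm_num)
        _ = _ := one_mul _
  · obtain ⟨q, hq⟩ : ∃ q : ℤ[X], q = X ^ (j - S.card) * ∏ p ∈ S, (X - C p.2) := ⟨_, rfl⟩
    have hqm : q.Monic := by
      rw [hq]
      exact (monic_X_pow _).mul (monic_prod_of_monic _ _ fun p _ => monic_X_sub_C _)
    have hqd : q.natDegree = j := by
      rw [hq, (monic_X_pow _).natDegree_mul (monic_prod_of_monic _ _ fun p _ => monic_X_sub_C _),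
        natDegree_X_pow, natDegree_prod_of_monic _ _ (fun p _ => monic_X_sub_C _)]
      simp only [natDegree_X_sub_C, Finset.sum_const, smul_eq_mul, mul_one]
      omega
    have hco : ∀ k, (C (X ^ i) * q.map C : ℤ[X][X]).coeff k = X ^ i * C (q.coeff k) := by
      intro k
      rw [coeff_C_mul, coeff_map]
    refine ⟨C (X ^ i) * q.map C, ⟨?_, ?_⟩, ?_, ?_, ?_⟩
    · refine (natDegree_C_mul_le _ _).trans ?_
      rw [natDegree_map_eq_of_injective C_injective, hqd]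
      omega
    · intro k
      rw [hco]
      by_cases hk : k ≤ j
      · refine (natDegree_mul_C_le _ _).trans ?_
        rw [natDegree_X_pow]; omega
      · rw [coeff_eq_zero_of_natDegree_lt (by omega), map_zero, mul_zero]
        simp
    · ext k
      rw [coeff_lead, hco, coeff_X_pow]
      by_cases hk : k = j
      · subst hk
        rw [if_pos (by omega), if_pos rfl]
        have e1 : k + i - k = i := by omega
        have e2 : q.coeff k = 1 := by
          have := hqm.coeff_natDegree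
          rwa [hqd] at this
        rw [e1, e2, coeff_mul_C, coeff_X_pow, if_pos rfl, one_mul]
      · rw [if_neg hk]
        split_ifs with h
        · rw [coeff_mul_C, coeff_X_pow]
          by_cases hk2 : k < j
          · rw [if_neg (by omega), zero_mul]
          · rw [coeff_eq_zero_of_natDegree_lt (p := q) (by omega), mul_zero]
        · rfl
    · intro p hp
      rw [map_mul]
      have : ev p.1 p.2 (q.map C) = 0 := by
        rw [hq, Polynomial.map_mul, Polynomial.map_prod, map_mul, map_prod]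
        rw [Finset.prod_eq_zero hp, mul_zero]
        rw [Polynomial.map_sub, map_X, map_C, map_sub, ev_X, ev_C, evf_C]; simp
      rw [this, mul_zero]
    · refine (map_mul_le_mul _ _ _).trans ?_
      have h0 : pn (pn zn) (C (X ^ i) : ℤ[X][X]) ≤ 1 := by
        rw [pn_C]
        exact (seminorm_pow_le _ pnz_one _ _).trans (pow_le_one₀ (apply_nonneg _ _) pnz_X)
      have h3 : pn (pn zn) (q.map C) ≤ (1 + (B : ℝ)) ^ S.card := by
        rw [hq, Polynomial.map_mul, Polynomial.map_prod, Polynomial.map_pow, map_X]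
        refine (map_mul_le_mul _ _ _).trans ?_
        have h1 : pn (pn zn) (X ^ (j - S.card) : ℤ[X][X]) ≤ 1 :=
          (seminorm_pow_le _ pnzz_one _ _).trans (pow_le_one₀ (apply_nonneg _ _) pnzz_X)
        have h2 : pn (pn zn) (∏ p ∈ S, (X - C p.2 : ℤ[X]).map C) ≤ (1 + (B : ℝ)) ^ S.card := by
          refine (seminorm_prod_le _ pnzz_one _ _).trans ?_
          refine (Finset.prod_le_prod (fun p _ => apply_nonneg _ _)
            (g := fun _ => (1 + (B : ℝ))) (fun p hp => ?_)).trans ?_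
          · rw [Polynomial.map_sub, map_X, map_C]
            exact pnzz_lin (hB p hp).2
          · rw [Finset.prod_const]
        calc _ ≤ 1 * (1 + (B : ℝ)) ^ S.card := mul_le_mul h1 h2 (apply_nonneg _ _) (by norm_num)
          _ = _ := one_mul _
      calc _ ≤ 1 * (1 + (B : ℝ)) ^ S.card := mul_le_mul h0 h3 (apply_nonneg _ _) (by norm_num)
        _ = _ := one_mul _

/-- a finite family of polynomials vanishing on `S` without further common integer zero -/
lemma sep_existsB (S : Finset (ℤ × ℤ)) {B : ℕ} :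
    (∀ p ∈ S, |p.1| ≤ (B : ℤ) ∧ |p.2| ≤ (B : ℤ)) → ∃ 𝒢 : Finset ℤ[X][X],
    (∀ G ∈ 𝒢, TD S.card G ∧ (∀ p ∈ S, ev p.1 p.2 G = 0) ∧ pn (pn zn) G ≤ (1 + (B : ℝ)) ^ S.card) ∧
    (∀ Q : ℤ × ℤ, Q ∉ S → ∃ G ∈ 𝒢, ev Q.1 Q.2 G ≠ 0) ∧ 𝒢.card ≤ 2 ^ S.card := by
  classical
  induction S using Finset.induction_on with
  | empty =>
    intro _
    refine ⟨{1}, ?_, ?_, ?_⟩
    · intro G hG
      rw [Finset.mem_singleton] at hG
      subst hG
      refine ⟨⟨by simp, ?_⟩, by simp, ?_⟩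
      · intro j
        rw [coeff_one]
        split_ifs <;> simp
      · rw [Finset.card_empty, pow_zero]
        exact pnzz_one
    · intro Q _
      exact ⟨1, by simp, by simp⟩
    · simp
  | insert P S hP ih =>
    intro hB
    obtain ⟨𝒢, h1, h2, h3⟩ := ih (fun p hp => hB p (Finset.mem_insert_of_mem hp))
    have hBP := hB P (Finset.mem_insert_self _ _)
    refine ⟨𝒢.image (fun G => G * C (X - C P.1)) ∪ 𝒢.image (fun G => G * (X - C (C P.2))),
      ?_, ?_, ?_⟩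
    · intro G' hG'
      rw [Finset.card_insert_of_notMem hP]
      rw [Finset.mem_union, Finset.mem_image, Finset.mem_image] at hG'
      rcases hG' with ⟨G, hG, rfl⟩ | ⟨G, hG, rfl⟩
      · refine ⟨TD_mul_lin (h1 G hG).1 (Or.inl ⟨_, rfl⟩), ?_, ?_⟩
        · intro p hp
          rw [Finset.mem_insert] at hp
          rw [map_mul, ev_C, map_sub, evf_X, evf_C]
          rcases hp with rfl | hp
          · simp
          · rw [(h1 G hG).2.1 p hp, zero_mul]
        · rw [pow_succ]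
          exact (map_mul_le_mul _ _ _).trans
            (mul_le_mul (h1 G hG).2.2 (pnzz_linC hBP.1) (apply_nonneg _ _) (by positivity))
      · refine ⟨TD_mul_lin (h1 G hG).1 (Or.inr ⟨_, rfl⟩), ?_, ?_⟩
        · intro p hp
          rw [Finset.mem_insert] at hp
          rw [map_mul, map_sub, ev_X, ev_C, evf_C]
          rcases hp with rfl | hp
          · simp
          · rw [(h1 G hG).2.1 p hp, zero_mul]
        · rw [pow_succ]
          exact (map_mul_le_mul _ _ _).trans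
            (mul_le_mul (h1 G hG).2.2 (pnzz_lin hBP.2) (apply_nonneg _ _) (by positivity))
    · intro Q hQ
      rw [Finset.mem_insert, not_or] at hQ
      obtain ⟨G, hG, hGQ⟩ := h2 Q hQ.2
      by_cases h : Q.1 = P.1
      · refine ⟨G * (X - C (C P.2)), ?_, ?_⟩
        · rw [Finset.mem_union, Finset.mem_image, Finset.mem_image]
          right; exact ⟨G, hG, rfl⟩
        · rw [map_mul, map_sub, ev_X, ev_C, evf_C]
          apply mul_ne_zero hGQ
          intro h0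
          apply hQ.1
          apply Prod.ext h
          simpa [sub_eq_zero] using h0
      · refine ⟨G * C (X - C P.1), ?_, ?_⟩
        · rw [Finset.mem_union, Finset.mem_image, Finset.mem_image]
          left; exact ⟨G, hG, rfl⟩
        · rw [map_mul, ev_C, map_sub, evf_X, evf_C]
          apply mul_ne_zero hGQ
          intro h0
          apply h
          simpa [sub_eq_zero] using h0
    · rw [Finset.card_insert_of_notMem hP, pow_succ]
      refine (Finset.card_union_le _ _).trans ?_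
      have e1 := (Finset.card_image_le (s := 𝒢) (f := fun G => G * C (X - C P.1))).trans h3
      have e2 := (Finset.card_image_le (s := 𝒢) (f := fun G => G * (X - C (C P.2)))).trans h3
      omega

lemma vec_le {G : ℤ[X][X]} {h : ℕ} (hG : pn (pn zn) G ≤ h) (i : ↥(Ix d)) :
    |(vec G : ↥(Ix d) → ℤ) i| ≤ (h : ℤ) := by
  have h1 := coeff_le_pn (pn zn) G i.1.1
  have h2 := coeff_le_pn zn (G.coeff i.1.1) i.1.2
  rw [zn_apply] at h2
  have h3 := (h2.trans h1).trans hG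
  have h4 : ((|(vec G : ↥(Ix d) → ℤ) i| : ℤ) : ℝ) ≤ ((h : ℤ) : ℝ) := by
    rw [Int.cast_abs]
    exact_mod_cast h3
  exact_mod_cast h4

theorem ddata_existsB (S : Finset (ℤ × ℤ)) (hd : 2 * S.card + 4 ≤ d) {B : ℕ}
    (hB : ∀ p ∈ S, |p.1| ≤ (B : ℤ) ∧ |p.2| ≤ (B : ℤ)) :
    ∃ (Rd : Fin (d + 1) → ↥(Ix d) → ℤ) (R2 : ↥(Ix d) → ℤ) (RR : Finset (↥(Ix d) → ℤ)),
      DData d S ((1 + B) ^ S.card) Rd R2 RR ∧ RR.card ≤ 2 ^ S.card := by
  classical
  have hex : ∀ k : Fin (d + 1), ∃ G : ℤ[X][X], TD d G ∧ lead d G = X ^ (k : ℕ) ∧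
      (∀ p ∈ S, ev p.1 p.2 G = 0) ∧ pn (pn zn) G ≤ (1 + (B : ℝ)) ^ S.card := by
    intro k
    have hk := k.2
    obtain ⟨G, h1, h2, h3, h4⟩ := dir_existsB S hB (k : ℕ) (d - k) (by omega)
    have e : (k : ℕ) + (d - k) = d := by omega
    rw [e] at h1 h2
    exact ⟨G, h1, h2, h3, h4⟩
  choose Gk g1 g2 g3 g4 using hex
  obtain ⟨G2, f1, f2, f3, f4⟩ := dir_existsB S hB 0 (d - 2) (Or.inl (by omega))
  rw [Nat.zero_add] at f1 f2
  rw [pow_zero] at f2
  obtain ⟨𝒢, s1, s2, s3⟩ := sep_existsB S hB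
  obtain ⟨RR, hRR⟩ : ∃ RR : Finset (↥(Ix d) → ℤ), RR = 𝒢.image vec := ⟨_, rfl⟩
  refine ⟨fun k => vec (Gk k), vec G2, RR, ?_, ?_⟩
  swap
  · rw [hRR]; exact Finset.card_image_le.trans s3
  have hf1d : TD d G2 := TD_mono f1 (by omega)
  have cst : ((1 + (B : ℝ)) ^ S.card) = (((1 + B) ^ S.card : ℕ) : ℝ) := by push_cast; rfl
  constructor
  · intro k
    refine ⟨vec_mem_Lam (g1 k) (g3 k), ?_⟩
    intro i
    exact vec_le (by rw [← cst]; exact g4 k) i
  · intro k
    show lead d (PG (vec (Gk k))) = _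
    rw [PG_vec (g1 k), g2 k]
  · refine ⟨vec_mem_Lam hf1d f3, ?_⟩
    intro i
    exact vec_le (by rw [← cst]; exact f4) i
  · show lead d (PG (vec G2)) = _
    rw [PG_vec hf1d]
    exact lead_zero_of_TD f1 (by omega)
  · rw [PG_vec hf1d]
    exact lead_zero_of_TD f1 (by omega)
  · rw [PG_vec hf1d]
    exact f2
  · intro R hR
    rw [hRR, Finset.mem_image] at hR
    obtain ⟨G, hG, rfl⟩ := hR
    obtain ⟨t1, t2, t3⟩ := s1 G hG
    have t1d : TD d G := TD_mono t1 (by omega)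
    refine ⟨⟨vec_mem_Lam t1d t2, ?_⟩, ?_⟩
    · intro i
      exact vec_le (by rw [← cst]; exact t3) i
    · rw [PG_vec t1d]
      exact TD_mono t1 (by omega)
  · intro Q hQ
    obtain ⟨G, hG, hGQ⟩ := s2 Q hQ
    have t1d : TD d G := TD_mono (s1 G hG).1 (by omega)
    refine ⟨vec G, ?_, ?_⟩
    · rw [hRR, Finset.mem_image]
      exact ⟨G, hG, rfl⟩
    · rw [PG_vec t1d]
      exact hGQ

lemma KV_le (d h a b s : ℕ) (hd : 4 ≤ d) (hh : 1 ≤ h) (ha : a ≤ 2 ^ s) (hb : b ≤ 2 ^ s)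
    (hs : 2 * s ≤ d) :
    KV d h a b ≤ 1000 * 2 ^ d * (2 * (d : ℝ) + 4) ^ ((d + 1) * (d + 2) / 2) * (h : ℝ) ^ (d + 1) := by
  have hN : (Ix d).card = (d + 1) * (d + 2) / 2 := card_Ix d
  unfold KV WW
  rw [hN]
  obtain ⟨N, hNN⟩ : ∃ N, N = (d + 1) * (d + 2) / 2 := ⟨_, rfl⟩
  rw [← hNN]
  obtain ⟨w, hw⟩ : ∃ w : ℝ, w = (2 * (d : ℝ) + 4) ^ N * (h : ℝ) ^ (d + 1) := ⟨_, rfl⟩
  have hdR : (4 : ℝ) ≤ d := by exact_mod_cast hd
  have hh1 : (1 : ℝ) ≤ h := by exact_mod_cast hh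
  have hw0 : 0 ≤ w := by rw [hw]; positivity
  have e6 : (6 : ℝ) ^ N ≤ (2 * (d : ℝ) + 4) ^ N := pow_le_pow_left₀ (by norm_num) (by linarith) _
  have e4 : (4 : ℝ) ^ N ≤ (2 * (d : ℝ) + 4) ^ N := pow_le_pow_left₀ (by norm_num) (by linarith) _
  have h2 : (h : ℝ) ^ 2 ≤ (h : ℝ) ^ (d + 1) := pow_le_pow_right₀ hh1 (by omega)
  have h1 : (h : ℝ) ≤ (h : ℝ) ^ (d + 1) := le_self_pow₀ hh1 (by omega)
  have t1 : (h : ℝ) ^ 2 * 6 ^ N ≤ w := by
    rw [hw, mul_comm ((2 * (d : ℝ) + 4) ^ N)]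
    exact mul_le_mul h2 e6 (by positivity) (by positivity)
  have t2 : (h : ℝ) * 4 ^ N ≤ w := by
    rw [hw, mul_comm ((2 * (d : ℝ) + 4) ^ N)]
    exact mul_le_mul h1 e4 (by positivity) (by positivity)
  have t3 : (h : ℝ) ^ (d + 1) * (2 * (d + 2)) ^ N = w := by
    rw [hw, mul_comm]
    congr 2
    ring
  have haR : (a : ℝ) ≤ 2 ^ s := by exact_mod_cast ha
  have hbR : (b : ℝ) ≤ 2 ^ s := by exact_mod_cast hb
  have t4 : (2 : ℝ) ^ s ≤ 2 ^ d := pow_le_pow_right₀ (by norm_num) (by omega)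
  have t5 : (16 : ℝ) ≤ 2 ^ d := by
    calc (16 : ℝ) = 2 ^ 4 := by norm_num
      _ ≤ 2 ^ d := pow_le_pow_right₀ (by norm_num) hd
  have t6 : 0 ≤ (h : ℝ) * 4 ^ N := by positivity
  have t7 : (3 * (a : ℝ) + b) * ((h : ℝ) * 4 ^ N) ≤ (4 * 2 ^ d) * w := by
    apply mul_le_mul (by linarith) t2 t6 (by positivity)
  have t8 : w * 16 ≤ w * 2 ^ d := mul_le_mul_of_nonneg_left t5 hw0
  calc 2 * (405 * (h : ℝ) ^ 2 * 6 ^ N) + 17 * ((h : ℝ) * 4 ^ N) +
        (h : ℝ) ^ (d + 1) * (2 * (d + 2)) ^ N + (3 * (a : ℝ) + b) * ((h : ℝ) * 4 ^ N)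
      = 810 * ((h : ℝ) ^ 2 * 6 ^ N) + 17 * ((h : ℝ) * 4 ^ N) +
        (h : ℝ) ^ (d + 1) * (2 * (d + 2)) ^ N + (3 * (a : ℝ) + b) * ((h : ℝ) * 4 ^ N) := by ring
    _ ≤ 810 * w + 17 * w + w + (4 * 2 ^ d) * w := by
        rw [t3]; linarith
    _ ≤ 1000 * (w * 2 ^ d) := by nlinarith
    _ = _ := by rw [hw]; ring

end Pool.Agent.H322R2
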