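import Pool.Agent.H322R2.AsmD

/-!
Almost all curves through prescribed points have no other integer point: vectors.
-/

open Polynomial Finset

namespace Pool.Agent.H322R2

variable {d : ℕ}

lemma K1_leV (d : ℕ) : 76 + K1 d ≤ 10 ^ 15 * 2 ^ (d ^ 2 + 6 * d) * ((d : ℝ) + 1) ^ (d + 13) := by
  obtain ⟨a, ha⟩ : ∃ a : ℝ, a = (d : ℝ) + 1 := ⟨_, rfl⟩
  obtain ⟨b, hb⟩ : ∃ b : ℝ, b = 2 ^ (d ^ 2 + 6 * d) := ⟨_, rfl⟩
  have hd0 : (0 : ℝ) ≤ d := by positivity
  have ha1 : 1 ≤ a := by rw [ha]; linarith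
  have hda : (d : ℝ) ≤ a := by rw [ha]; linarith
  have hb1 : 1 ≤ b := by rw [hb]; exact one_le_pow₀ (by norm_num)
  have hb64 : (64 : ℝ) ^ d ≤ b := by
    have : (64 : ℝ) = 2 ^ 6 := by norm_num
    rw [hb, this, ← pow_mul]
    exact pow_le_pow_right₀ (by norm_num) (by omega)
  have h3 : (3 : ℝ) ^ d ≤ b := (pow_le_pow_left₀ (by norm_num) (by norm_num) d).trans hb64
  have h36 : (36 : ℝ) ^ d ≤ b := (pow_le_pow_left₀ (by norm_num) (by norm_num) d).trans hb64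
  have h2 : (2 : ℝ) ^ d ≤ b := (pow_le_pow_left₀ (by norm_num) (by norm_num) d).trans hb64
  obtain ⟨V, hV⟩ : ∃ V : ℝ, V = b * a ^ (d + 13) := ⟨_, rfl⟩
  have key : ∀ (x : ℝ) (k : ℕ), 0 ≤ x → x ≤ b → k ≤ d + 13 → x * a ^ k ≤ V := by
    intro x k hx hxb hk
    rw [hV]
    exact mul_le_mul hxb (pow_le_pow_right₀ ha1 hk) (by positivity) (by linarith)
  have hN : NN d ≤ a ^ 2 := by
    have h := two_card_Ix d
    have h' : 2 * NN d = ((d : ℝ) + 1) * (d + 2) := by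
      unfold NN; exact_mod_cast h
    rw [ha]; nlinarith
  have hN0 := NN_nonneg (d := d)
  have t1 : K0 d ≤ 101 * V := by
    have e1 : 100 * ((d : ℝ) + 1) * NN d * 3 ^ d ≤ 100 * (3 ^ d * a ^ 3) := by
      rw [← ha]
      calc 100 * a * NN d * 3 ^ d ≤ 100 * a * a ^ 2 * 3 ^ d := by gcongr
        _ = _ := by ring
    have e2 : NN d * d ^ 2 * 3 ^ d ≤ 3 ^ d * a ^ 4 := by
      calc NN d * d ^ 2 * 3 ^ d ≤ a ^ 2 * a ^ 2 * 3 ^ d := by gcongr
        _ = _ := by ring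
    have e3 := key (3 ^ d) 3 (by positivity) h3 (by omega)
    have e4 := key (3 ^ d) 4 (by positivity) h3 (by omega)
    unfold K0 CL
    linarith
  have t2 : ((4 * ((EE d + 1) * kC d) * d : ℕ) : ℝ) ≤ 4 * 10 ^ 14 * V := by
    have e1 := key (36 ^ d) 13 (by positivity) h36 (by omega)
    have e2 : (10 ^ 4 * (d : ℝ) + 1) ≤ 10 ^ 4 * a := by rw [ha]; linarith
    have e3 : ((4 * ((EE d + 1) * kC d) * d : ℕ) : ℝ)
        = 4 * ((10 ^ 4 * (d : ℝ) + 1) * (10 ^ 10 * 36 ^ d * a ^ 11)) * d := by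
      unfold EE kC
      push_cast
      rw [← ha]
      norm_num
    rw [e3]
    calc 4 * ((10 ^ 4 * (d : ℝ) + 1) * (10 ^ 10 * 36 ^ d * a ^ 11)) * d
        ≤ 4 * ((10 ^ 4 * a) * (10 ^ 10 * 36 ^ d * a ^ 11)) * a := by gcongr
      _ = 4 * 10 ^ 14 * (36 ^ d * a ^ 13) := by ring
      _ ≤ _ := mul_le_mul_of_nonneg_left e1 (by norm_num)
  have t3 : ((kN d : ℕ) : ℝ) ≤ 10 ^ 9 * V := by
    have e1 := key (36 ^ d) 7 (by positivity) h36 (by omega)
    unfold kN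
    push_cast
    rw [← ha]
    linarith
  have t4 : (d : ℝ) * (3 * (2 ^ d * (d + 1))) ^ d ≤ V := by
    rw [← ha]
    have e0 : (3 : ℝ) ^ d * (2 ^ d) ^ d ≤ b := by
      rw [hb, ← pow_mul, pow_add, mul_comm]
      have : (3 : ℝ) ^ d ≤ 2 ^ (6 * d) := by
        rw [pow_mul]
        exact pow_le_pow_left₀ (by norm_num) (by norm_num) d
      have h5 : d * d = d ^ 2 := by ring
      rw [h5]
      exact mul_le_mul_of_nonneg_left this (by positivity)
    have e1 := key (3 ^ d * (2 ^ d) ^ d) (d + 1) (by positivity) e0 (by omega)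
    calc (d : ℝ) * (3 * (2 ^ d * a)) ^ d ≤ a * (3 * (2 ^ d * a)) ^ d := by gcongr
      _ = 3 ^ d * (2 ^ d) ^ d * a ^ (d + 1) := by rw [mul_pow, mul_pow, pow_succ]; ring
      _ ≤ V := e1
  have t5 : Real.log (2 ^ d * ((d : ℝ) + 1)) ≤ V := by
    have e1 := key (2 ^ d) 1 (by positivity) h2 (by omega)
    rw [← ha]
    have e2 : 0 < 2 ^ d * a := by positivity
    have e3 := Real.log_le_sub_one_of_pos e2
    rw [pow_one] at e1
    linarith
  have t6 : ((EE d : ℕ) : ℝ) ≤ 10 ^ 4 * V := by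
    have e1 := key 1 1 (by norm_num) hb1 (by omega)
    unfold EE
    push_cast
    linarith
  have t7 : 1 ≤ V := by
    have := key 1 0 (by norm_num) hb1 (by omega)
    simpa using this
  have hfin : 76 + K1 d ≤ 10 ^ 15 * V := by
    unfold K1
    linarith
  rw [hV, ← mul_assoc, hb, ha] at hfin
  exact hfin


/-- the explicit constant -/
noncomputable def CC (d B s : ℕ) : ℝ :=
  10 ^ 15 * 2 ^ (d ^ 2 + 6 * d) * ((d : ℝ) + 1) ^ (d + 13) +
    1000 * 2 ^ d * (2 * (d : ℝ) + 4) ^ ((d + 1) * (d + 2) / 2) * ((B : ℝ) + 1) ^ (s * (d + 1))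

theorem vec_boundV (S : Finset (ℤ × ℤ)) (hd : 2 * S.card + 4 ≤ d) {B : ℕ}
    (hB : ∀ p ∈ S, |p.1| ≤ (B : ℤ) ∧ |p.2| ≤ (B : ℤ)) {H : ℕ} (hH : 1 ≤ H) :
    Cv S H (fun c : ↥(Ix d) → ℤ => ∃ p : ℤ × ℤ, p ∉ S ∧ ev p.1 p.2 (PG c) = 0)
      ≤ CC d B S.card * (H : ℝ) ^ (-(1 / (10 ^ 4 * (d : ℝ)))) * Vo d S H := by
  classical
  have hH0 : (0 : ℝ) < H := by exact_mod_cast hH
  obtain ⟨y, hy⟩ : ∃ y : ℝ, y = (H : ℝ) ^ (((EE d : ℕ) : ℝ)⁻¹) := ⟨_, rfl⟩
  have hEE : EE d ≠ 0 := by unfold EE; omega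
  have hyH : y ^ (EE d) = H := by
    rw [hy]; exact Real.rpow_inv_natCast_pow hH0.le hEE
  have hy0 : 0 < y := by rw [hy]; exact Real.rpow_pos_of_pos hH0 _
  have hyinv : (H : ℝ) ^ (-(1 / (10 ^ 4 * (d : ℝ)))) = 1 / y := by
    rw [Real.rpow_neg hH0.le, hy, one_div, one_div]
    congr 2
    unfold EE
    push_cast
    norm_num
  rw [hyinv]
  have hV := Vo_nonneg (d := d) S H
  have hK := K1_leV d
  have hswc : (S.image Prod.swap).card = S.card := Finset.card_image_of_injective _ Prod.swap_injective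
  obtain ⟨Rd, R2, RR, D, hc⟩ := ddata_existsB (d := d) S hd hB
  obtain ⟨Rd', R2', RR', D', hc'⟩ := ddata_existsB (d := d) (S.image Prod.swap)
    (by rw [hswc]; exact hd) (B := B) (by
      intro p hp
      rw [Finset.mem_image] at hp
      obtain ⟨q, hq, rfl⟩ := hp
      exact ⟨(hB q hq).2, (hB q hq).1⟩)
  rw [hswc] at D' hc'
  have hh : 1 ≤ (1 + B) ^ S.card := Nat.one_le_pow _ _ (by omega)
  have hKV := KV_le d ((1 + B) ^ S.card) RR.card RR'.card S.card (by omega) hh hc hc' (by omega)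
  have hKV0 := KV_nonneg d ((1 + B) ^ S.card) RR.card RR'.card
  have hKV' : KV d ((1 + B) ^ S.card) RR.card RR'.card ≤
      1000 * 2 ^ d * (2 * (d : ℝ) + 4) ^ ((d + 1) * (d + 2) / 2) *
        ((B : ℝ) + 1) ^ (S.card * (d + 1)) := by
    refine hKV.trans (le_of_eq ?_)
    push_cast
    rw [← pow_mul, add_comm (1 : ℝ)]
  rw [mul_one_div]
  rcases le_total (K1 d) y with h | h
  · refine (main_countV (by omega) S hh D D' hyH h).trans ?_
    apply mul_le_mul_of_nonneg_right _ hV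
    apply div_le_div_of_nonneg_right _ hy0.le
    refine hKV'.trans ?_
    unfold CC
    have : (0 : ℝ) ≤ 10 ^ 15 * 2 ^ (d ^ 2 + 6 * d) * ((d : ℝ) + 1) ^ (d + 13) := by positivity
    linarith
  · refine (Cv_le _).trans ?_
    apply le_mul_of_one_le_left hV
    rw [le_div_iff₀ hy0, one_mul]
    unfold CC
    have : (0 : ℝ) ≤ 1000 * 2 ^ d * (2 * (d : ℝ) + 4) ^ ((d + 1) * (d + 2) / 2) *
        ((B : ℝ) + 1) ^ (S.card * (d + 1)) := by positivity
    linarith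

lemma FM_injectiveV : Function.Injective (FM : (↥(Ix d) → ℤ) → MvPolynomial (Fin 2) ℤ) := by
  intro c c' h
  funext p
  have h1 := congrArg (MvPolynomial.coeff (Finsupp.single 0 p.1.1 + Finsupp.single 1 p.1.2)) h
  rw [coeff_FM, coeff_FM] at h1
  simp only [Finsupp.add_apply, Finsupp.single_eq_same] at h1
  rw [Finsupp.single_eq_of_ne (by simp), Finsupp.single_eq_of_ne (by simp), add_zero, zero_add,
    cf, cf, dif_pos p.2, dif_pos p.2] at h1
  exact h1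

lemma FM_memV {H : ℕ} {F : MvPolynomial (Fin 2) ℤ} :
    (F.totalDegree ≤ d ∧ ∀ m, |F.coeff m| ≤ (H : ℤ)) ↔ ∃ c ∈ Bx ↥(Ix d) H, FM c = F := by
  constructor
  · rintro ⟨h1, h2⟩
    refine ⟨fun p => F.coeff (Finsupp.single 0 p.1.1 + Finsupp.single 1 p.1.2), ?_, ?_⟩
    · rw [mem_Bx]
      intro p
      exact h2 _
    · ext m
      rw [coeff_FM, cf]
      have hm : (Finsupp.single 0 (m 0) + Finsupp.single 1 (m 1) : Fin 2 →₀ ℕ) = m := by
        ext i
        fin_cases i <;> simp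
      split_ifs with h
      · simp only
        rw [hm]
      · symm
        by_contra hcon
        apply h
        rw [mem_Ix]
        simp only
        have h3 := MvPolynomial.le_totalDegree (MvPolynomial.mem_support_iff.2 hcon)
        have h4 : (m.sum fun _ e => e) = m.degree := rfl
        rw [h4, degree_fin2] at h3
        omega
  · rintro ⟨c, hc, rfl⟩
    refine ⟨totalDegree_FM_le c, ?_⟩
    intro m
    rw [coeff_FM, cf]
    split_ifs with h
    · exact mem_Bx.1 hc _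
    · simp


lemma eval_FMV (c : ↥(Ix d) → ℤ) (x y : ℤ) :
    MvPolynomial.eval ![x, y] (FM c) = ev y x (PG c) := by
  rw [← ev_FM]
  rw [MvPolynomial.eval, MvPolynomial.coe_eval₂Hom]
  congr 1

end Pool.Agent.H322R2
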