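import Pool.Agent.H322R2.AsmE

/-!
Lower bound for the number of polynomials vanishing at prescribed points.
-/

open Polynomial Finset

namespace Pool.Agent.H322R2

variable {d : ℕ}

lemma ev_PG_sum (c : ↥(Ix d) → ℤ) (x y : ℤ) :
    ev x y (PG c) = ∑ p : ↥(Ix d), c p * x ^ p.1.2 * y ^ p.1.1 := by
  rw [PG, map_sum]
  apply Finset.sum_congr rfl
  intro p _
  rw [← C_mul_X_pow_eq_monomial, ← C_mul_X_pow_eq_monomial, map_mul, ev_C, map_mul, evf_C,
    map_pow, map_pow, evf_X, ev_X, Int.cast_id]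

lemma ev_PG_le {H B : ℕ} {c : ↥(Ix d) → ℤ} (hc : c ∈ Bx _ H) {x y : ℤ} (hx : |x| ≤ (B : ℤ))
    (hy : |y| ≤ (B : ℤ)) : |ev x y (PG c)| ≤ (((Ix d).card * (H * (B + 1) ^ d) : ℕ) : ℤ) := by
  rw [ev_PG_sum]
  refine (Finset.abs_sum_le_sum_abs _ _).trans ?_
  refine (Finset.sum_le_card_nsmul _ _ ((H : ℤ) * (B + 1) ^ d) ?_).trans ?_
  · intro p _
    rw [abs_mul, abs_mul, abs_pow, abs_pow]
    have h1 := mem_Bx.1 hc p
    have hp := mem_Ix.1 p.2
    have h2 : |x| ^ p.1.2 * |y| ^ p.1.1 ≤ ((B : ℤ) + 1) ^ d := by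
      calc |x| ^ p.1.2 * |y| ^ p.1.1 ≤ ((B : ℤ) + 1) ^ p.1.2 * ((B : ℤ) + 1) ^ p.1.1 := by
            apply mul_le_mul
            · exact pow_le_pow_left₀ (abs_nonneg _) (by linarith) _
            · exact pow_le_pow_left₀ (abs_nonneg _) (by linarith) _
            · positivity
            · positivity
        _ = ((B : ℤ) + 1) ^ (p.1.2 + p.1.1) := by rw [pow_add]
        _ ≤ _ := pow_le_pow_right₀ (by omega) (by omega)
    rw [mul_assoc]
    exact mul_le_mul h1 h2 (by positivity) (by positivity)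
  · rw [Finset.card_univ, Fintype.card_coe, nsmul_eq_mul]
    push_cast
    exact le_refl _

theorem Vo_lower (S : Finset (ℤ × ℤ)) (hS : S.card ≤ (Ix d).card) {B : ℕ}
    (hB : ∀ p ∈ S, |p.1| ≤ (B : ℤ) ∧ |p.2| ≤ (B : ℤ)) (H : ℕ) :
    (H : ℝ) ^ ((Ix d).card - S.card) ≤ (((Ix d).card : ℝ) * (B + 1) ^ d) ^ S.card * Vo d S H := by
  classical
  obtain ⟨H', hH'⟩ : ∃ H', H' = H / 2 := ⟨_, rfl⟩
  obtain ⟨M, hM⟩ : ∃ M : ℕ, M = (Ix d).card * (H' * (B + 1) ^ d) := ⟨_, rfl⟩
  have hN1 : 1 ≤ (Ix d).card := by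
    rw [Nat.one_le_iff_ne_zero, ← Nat.pos_iff_ne_zero, Finset.card_pos]
    exact ⟨(0, 0), by rw [mem_Ix]; simp⟩
  have h1 := Finset.card_le_mul_card_image_of_maps_to (s := Bx ↥(Ix d) H')
    (t := Fintype.piFinset (fun _ : ↥S => Icc (-(M : ℤ)) M))
    (f := fun c => fun p : ↥S => ev p.1.1 p.1.2 (PG c)) (by
      intro c hc
      rw [Fintype.mem_piFinset]
      intro p
      rw [Finset.mem_Icc, ← abs_le, hM]
      exact ev_PG_le hc (hB p.1 p.2).1 (hB p.1 p.2).2) (VB (Lam d S) H).card (by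
      intro v _
      rcases Finset.eq_empty_or_nonempty ((Bx ↥(Ix d) H').filter
        (fun c => (fun p : ↥S => ev p.1.1 p.1.2 (PG c)) = v)) with h0 | ⟨c0, hc0⟩
      · rw [h0]; simp
      · apply Finset.card_le_card_of_injOn (fun c => c - c0)
        · intro c hc
          rw [Finset.mem_coe, Finset.mem_filter] at hc
          rw [Finset.mem_filter] at hc0
          rw [Finset.mem_coe, mem_VB, mem_Bx, mem_Lam]
          show (∀ i, |(c - c0) i| ≤ (H : ℤ)) ∧ (∀ p ∈ S, ev p.1 p.2 (PG (c - c0)) = 0)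
          constructor
          · intro i
            have e1 := mem_Bx.1 hc.1 i
            have e2 := mem_Bx.1 hc0.1 i
            have e3 : (c - c0) i = c i - c0 i := rfl
            rw [e3]
            refine (abs_sub _ _).trans ?_
            have : (2 * H' : ℤ) ≤ H := by
              have : 2 * H' ≤ H := by omega
              exact_mod_cast this
            linarith
          · intro p hp
            have e1 := congrFun hc.2 ⟨p, hp⟩
            have e2 := congrFun hc0.2 ⟨p, hp⟩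
            simp only at e1 e2
            have e3 : PG (c - c0) = PG c - PG c0 := by
              have := PG_sub_smul c c0 1
              rw [one_smul, map_one, map_one, one_mul] at this
              exact this
            rw [e3, map_sub, e1, e2, sub_self]
        · intro c _ c' _ h
          simpa using h)
  rw [Fintype.card_piFinset] at h1
  simp only [card_Icc_H, Finset.prod_const, Finset.card_univ, Fintype.card_coe] at h1
  rw [card_Bx, Fintype.card_coe] at h1
  have hbase : 2 * M + 1 ≤ ((Ix d).card * (B + 1) ^ d) * (2 * H' + 1) := by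
    have h2 : 1 ≤ (Ix d).card * (B + 1) ^ d := Nat.mul_pos hN1 (by positivity)
    rw [hM]
    nlinarith
  have h2 : (2 * H' + 1) ^ (Ix d).card ≤
      (VB (Lam d S) H).card * (((Ix d).card * (B + 1) ^ d) * (2 * H' + 1)) ^ S.card :=
    h1.trans (Nat.mul_le_mul_left _ (Nat.pow_le_pow_left hbase _))
  have h3 : (2 * H' + 1) ^ ((Ix d).card - S.card) * (2 * H' + 1) ^ S.card ≤
      (((Ix d).card * (B + 1) ^ d) ^ S.card * (VB (Lam d S) H).card) * (2 * H' + 1) ^ S.card := by
    rw [← pow_add, Nat.sub_add_cancel hS]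
    refine h2.trans (le_of_eq ?_)
    rw [mul_pow]; ring
  have h4 := Nat.le_of_mul_le_mul_right h3 (by positivity)
  have h5 : H ≤ 2 * H' + 1 := by omega
  have h6 : H ^ ((Ix d).card - S.card) ≤
      ((Ix d).card * (B + 1) ^ d) ^ S.card * (VB (Lam d S) H).card :=
    (Nat.pow_le_pow_left h5 _).trans h4
  have h7 : ((H ^ ((Ix d).card - S.card) : ℕ) : ℝ) ≤
      ((((Ix d).card * (B + 1) ^ d) ^ S.card * (VB (Lam d S) H).card : ℕ) : ℝ) := by
    exact_mod_cast h6
  push_cast at h7
  exact h7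

end Pool.Agent.H322R2
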