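import Pool.Agent.H322R2.Norms

/-!
Siegel's lemma with coefficients in a finite free `ℤ`-algebra.
-/

open Finset Matrix

namespace Pool.Agent.H322R2

attribute [local instance] Matrix.seminormedAddCommGroup

theorem siegel_aux {A : Type*} [CommRing A] {ι : Type*} [Fintype ι] (b : Module.Basis ι ℤ A)
    (N : RingSeminorm A) (C0 : ℝ) (hC0 : 1 ≤ C0)
    (hcoord : ∀ x i, |(b.repr x i : ℝ)| ≤ C0 * N x)
    {γ β : Type*} [Fintype γ] [Fintype β] (c : γ → β → A) (M : ℝ) (hM : 1 ≤ M)
    (hc : ∀ g x, N (c g x) ≤ M)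
    (hcard : 14 * (Fintype.card γ * Fintype.card ι) ≤ 13 * Fintype.card β)
    (hpos : 0 < Fintype.card γ * Fintype.card ι) :
    ∃ t : β → ℤ, t ≠ 0 ∧ (∀ g, ∑ x, (t x) • c g x = 0) ∧
      ∀ x, |(t x : ℝ)| ≤ (Fintype.card β * (C0 * M)) ^ 13 := by
  classical
  set T : Matrix (γ × ι) β ℤ := Matrix.of fun p x => b.repr (c p.1 x) p.2 with hT
  have hcardα : Fintype.card (γ × ι) = Fintype.card γ * Fintype.card ι := Fintype.card_prod _ _
  have hlt : Fintype.card (γ × ι) < Fintype.card β := by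
    rw [hcardα]; omega
  obtain ⟨t, ht0, ht, hnorm⟩ := Int.Matrix.exists_ne_zero_int_vec_norm_le T hlt
    (by rw [hcardα]; exact hpos)
  refine ⟨t, ht0, ?_, ?_⟩
  · intro g
    apply b.repr.injective
    ext i
    rw [map_sum, map_zero, Finsupp.finset_sum_apply, Finsupp.zero_apply]
    have h1 := congrFun ht (g, i)
    simp only [Matrix.mulVec, dotProduct, hT, Matrix.of_apply, Pi.zero_apply] at h1
    rw [← h1]
    apply Finset.sum_congr rfl
    intro x _
    rw [map_smul, Finsupp.smul_apply, smul_eq_mul, mul_comm]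
  · intro x
    have hTn : ‖T‖ ≤ C0 * M := by
      rw [Matrix.norm_le_iff (by positivity)]
      intro p x
      rw [hT, Matrix.of_apply, Int.norm_eq_abs]
      refine (hcoord _ _).trans ?_
      exact mul_le_mul_of_nonneg_left (hc _ _) (by linarith)
    have hCM : 1 ≤ C0 * M := by nlinarith
    have hmax : max 1 ‖T‖ ≤ C0 * M := max_le hCM hTn
    have h2 : |(t x : ℝ)| ≤ ‖t‖ := by
      have := norm_le_pi_norm t x
      rw [Int.norm_eq_abs] at this
      exact_mod_cast this
    refine h2.trans (hnorm.trans ?_)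
    have hn1 : (1 : ℝ) ≤ Fintype.card β := by
      have : 0 < Fintype.card β := lt_of_le_of_lt (Nat.zero_le _) hlt
      exact_mod_cast this
    have hb1 : (1 : ℝ) ≤ Fintype.card β * max 1 ‖T‖ := by
      have : (1 : ℝ) ≤ max 1 ‖T‖ := le_max_left _ _
      nlinarith
    have hexp : ((Fintype.card (γ × ι) : ℝ) / (Fintype.card β - Fintype.card (γ × ι))) ≤ 13 := by
      have h3 : (0 : ℝ) < Fintype.card β - Fintype.card (γ × ι) := by
        have : (Fintype.card (γ × ι) : ℝ) < Fintype.card β := by exact_mod_cast hlt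
        linarith
      rw [div_le_iff₀ h3]
      have h4 : (14 : ℝ) * (Fintype.card (γ × ι)) ≤ 13 * Fintype.card β := by
        rw [hcardα]; exact_mod_cast hcard
      linarith
    calc ((Fintype.card β : ℝ) * max 1 ‖T‖) ^ ((Fintype.card (γ × ι) : ℝ) /
            (Fintype.card β - Fintype.card (γ × ι)))
        ≤ ((Fintype.card β : ℝ) * max 1 ‖T‖) ^ (13 : ℝ) :=
          Real.rpow_le_rpow_of_exponent_le hb1 hexp
      _ = ((Fintype.card β : ℝ) * max 1 ‖T‖) ^ (13 : ℕ) := by
          rw [← Real.rpow_natCast]; norm_num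
      _ ≤ (Fintype.card β * (C0 * M)) ^ 13 := by
          apply pow_le_pow_left₀ (by linarith)
          exact mul_le_mul_of_nonneg_left hmax (by linarith)

end Pool.Agent.H322R2
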