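import Pool.Agent.H322R2.Sub
import Pool.Agent.H322R2.Siegel

/-!
Auxiliary polynomials and local expansions.
-/

open Polynomial Finset

namespace Pool.Agent.H322R2

section Box

variable {k n : ℕ}

/-- polynomial `∑ T(q,p) x^p y^q` -/
noncomputable def boxPoly (T : Fin k × Fin n → ℤ) : ℤ[X][X] :=
  ∑ s, monomial (s.1 : ℕ) (monomial (s.2 : ℕ) (T s))

lemma ev_boxPoly {S : Type*} [CommRing S] (x y : S) (T : Fin k × Fin n → ℤ) :
    ev x y (boxPoly T) = ∑ s, (T s : S) * x ^ (s.2 : ℕ) * y ^ (s.1 : ℕ) := by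
  rw [boxPoly, map_sum]
  apply Finset.sum_congr rfl
  intro s _
  rw [← C_mul_X_pow_eq_monomial, ← C_mul_X_pow_eq_monomial, map_mul, map_pow, ev_X, ev_C, map_mul,
    map_pow, evf_X, evf_C]

lemma coeff_boxPoly (T : Fin k × Fin n → ℤ) (s : Fin k × Fin n) :
    ((boxPoly T).coeff (s.1 : ℕ)).coeff (s.2 : ℕ) = T s := by
  rw [boxPoly, finsetSum_coeff, finsetSum_coeff]
  rw [Finset.sum_eq_single s]
  · simp
  · intro s' _ hs'
    rw [coeff_monomial]
    split_ifs with h1
    · rw [coeff_monomial, if_neg]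
      intro h2
      exact hs' (Prod.ext (Fin.ext h1) (Fin.ext h2))
    · simp
  · intro h; exact absurd (Finset.mem_univ _) h

lemma boxPoly_eq_zero_iff (T : Fin k × Fin n → ℤ) : boxPoly T = 0 ↔ T = 0 := by
  constructor
  · intro h
    funext s
    rw [← coeff_boxPoly T s, h]; simp
  · rintro rfl
    simp [boxPoly]

lemma degree_boxPoly (T : Fin k × Fin n → ℤ) (hk : 0 < k) : (boxPoly T).degree < k := by
  rw [boxPoly]
  refine (degree_sum_le _ _).trans_lt ?_
  rw [Finset.sup_lt_iff (by exact WithBot.bot_lt_coe k)]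
  intro s _
  refine (degree_monomial_le _ _).trans_lt ?_
  exact_mod_cast s.1.2

lemma natDegree_boxPoly (T : Fin k × Fin n → ℤ) (hk : 0 < k) : (boxPoly T).natDegree ≤ k := by
  exact natDegree_le_of_degree_le (degree_boxPoly T hk).le

lemma natDegree_coeff_boxPoly (T : Fin k × Fin n → ℤ) (q : ℕ) :
    ((boxPoly T).coeff q).natDegree ≤ n := by
  rw [boxPoly, finsetSum_coeff]
  apply natDegree_sum_le_of_forall_le
  intro s _
  rw [coeff_monomial]
  split_ifs
  · exact (natDegree_monomial_le _).trans s.2.2.le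
  · simp

lemma pn_boxPoly_le (T : Fin k × Fin n → ℤ) (H : ℝ) (hT : ∀ s, |(T s : ℝ)| ≤ H) :
    pn (pn zn) (boxPoly T) ≤ k * n * H := by
  rw [boxPoly]
  refine (seminorm_sum_le _ _ _).trans ?_
  have : ∀ s ∈ (univ : Finset (Fin k × Fin n)),
      pn (pn zn) (monomial (s.1 : ℕ) (monomial (s.2 : ℕ) (T s))) ≤ H := by
    intro s _
    rw [pn_monomial, pn_monomial]
    exact hT s
  refine (Finset.sum_le_sum this).trans ?_
  simp [mul_assoc]

end Box

section Conic

/-- exponents of `x` in the six monomials of degree at most two -/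
def mp : Fin 6 → ℕ := ![2, 1, 0, 1, 0, 0]
/-- exponents of `y` in the six monomials of degree at most two -/
def mq : Fin 6 → ℕ := ![0, 1, 2, 0, 1, 0]

lemma mpq_le (μ : Fin 6) : mp μ + mq μ ≤ 2 := by
  fin_cases μ <;> decide

lemma mpq_inj (μ ν : Fin 6) (h1 : mp μ = mp ν) (h2 : mq μ = mq ν) : μ = ν := by
  revert μ ν; decide

/-- conic with coefficients `T` -/
noncomputable def conic (T : Fin 6 → ℤ) : ℤ[X][X] :=
  ∑ μ, monomial (mq μ) (monomial (mp μ) (T μ))

lemma ev_conic {S : Type*} [CommRing S] (x y : S) (T : Fin 6 → ℤ) :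
    ev x y (conic T) = ∑ μ, (T μ : S) * x ^ (mp μ) * y ^ (mq μ) := by
  rw [conic, map_sum]
  apply Finset.sum_congr rfl
  intro s _
  rw [← C_mul_X_pow_eq_monomial, ← C_mul_X_pow_eq_monomial, map_mul, map_pow, ev_X, ev_C, map_mul,
    map_pow, evf_X, evf_C]

lemma conic_ne_zero (T : Fin 6 → ℤ) (μ : Fin 6) (hT : T μ ≠ 0) : conic T ≠ 0 := by
  intro h0
  apply hT
  have h1 : ((conic T).coeff (mq μ)).coeff (mp μ) = T μ := by
    rw [conic, finsetSum_coeff, finsetSum_coeff]
    rw [Finset.sum_eq_single μ]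
    · simp
    · intro ν _ hν
      rw [coeff_monomial]
      split_ifs with h1
      · rw [coeff_monomial, if_neg]
        intro h2
        exact hν (mpq_inj _ _ h2 h1)
      · simp
    · intro h; exact absurd (Finset.mem_univ _) h
  rw [← h1, h0]; simp

lemma natDegree_conic (T : Fin 6 → ℤ) : (conic T).natDegree ≤ 2 := by
  rw [conic]
  apply natDegree_sum_le_of_forall_le
  intro μ _
  refine (natDegree_monomial_le _).trans ?_
  have := mpq_le μ
  omega

lemma pn_conic_le (T : Fin 6 → ℤ) (H : ℝ) (hT : ∀ μ, |(T μ : ℝ)| ≤ H) :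
    pn (pn zn) (conic T) ≤ 6 * H := by
  rw [conic]
  refine (seminorm_sum_le _ _ _).trans ?_
  have : ∀ s ∈ (univ : Finset (Fin 6)),
      pn (pn zn) (monomial (mq s) (monomial (mp s) (T s))) ≤ H := by
    intro s _
    rw [pn_monomial, pn_monomial]
    exact hT s
  refine (Finset.sum_le_sum this).trans ?_
  simp

lemma pn2_one : pn (pn zn) (1 : ℤ[X][X]) ≤ 1 := by
  rw [pn_one]; exact pnz_one

/-- An integer point on `F = 0` lying on a conic with small coefficients is small. -/
lemma small_conic (F : ℤ[X][X]) (d : ℕ) (hd : 3 ≤ d) (hm : F.Monic) (hFd : F.natDegree = d)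
    (hF : Prime F) (a b : ℤ) (ha : a ≠ 0) (hab : ev a b F = 0) (T : Fin 6 → ℤ) (μ : Fin 6)
    (hTμ : T μ ≠ 0) (hG : ev a b (conic T) = 0) (H : ℝ) (hT : ∀ μ, |(T μ : ℝ)| ≤ H) :
    |(a : ℝ)| ≤ d.factorial * (6 * H * (1 + pn (pn zn) F) ^ 2) ^ d := by
  have hne := conic_ne_zero T μ hTμ
  have hnd : ¬ F ∣ conic T := by
    intro h
    have := natDegree_le_of_dvd h hne
    have := natDegree_conic T
    omega
  have h1 := nrm_ne_zero F d hm hFd hF (conic T) hnd
  have h2 := dvd_nrm (evf a) b F d (by omega) hm hFd (by rw [← ev_apply]; exact hab) (conic T)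
  rw [← ev_apply, hG] at h2
  have h3 : evf a (nrm F d (conic T)) = 0 := zero_dvd_iff.1 h2
  have h4 : (X - C a) ^ 1 ∣ nrm F d (conic T) := by
    rw [pow_one, dvd_iff_isRoot, IsRoot]
    have : evf a = (Polynomial.evalRingHom a : ℤ[X] →+* ℤ) := by
      apply Polynomial.ringHom_ext'
      · exact RingHom.ext_int _ _
      · simp
    rw [this] at h3
    simpa using h3
  have h5 := abs_pow_le_of_dvd _ h1 a ha 1 h4
  rw [pow_one] at h5
  refine h5.trans ((nrm_le (pn zn) pnz_one F d (conic T) 2 (natDegree_conic T)).trans ?_)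
  apply mul_le_mul_of_nonneg_left _ (by positivity)
  have h6 : 0 ≤ pn (pn zn) F := apply_nonneg _ _
  apply pow_le_pow_left₀ (mul_nonneg (apply_nonneg _ _) (by positivity))
  exact mul_le_mul_of_nonneg_right (pn_conic_le T H hT) (by positivity)

end Conic

section Local

lemma evf_coe (q p : ℤ[X]) : evf ((q : ℤ[X]) : PowerSeries ℤ) p = ((p.comp q : ℤ[X]) : PowerSeries ℤ) := by
  have h1 := map_evf (coeToPowerSeries.ringHom (R := ℤ)) q p
  have h2 : evf q p = p.comp q := by
    rw [evf, coe_eval₂RingHom, Polynomial.comp]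
    congr 1
  rw [h2] at h1
  simpa using h1.symm

/-- order of vanishing at `a` of an integer polynomial, via power series -/
lemma dvd_of_dvd_evf (a c : ℤ) (hc : c ≠ 0) (p : ℤ[X]) (o : ℕ)
    (h : PowerSeries.X ^ o ∣ evf (PowerSeries.C a + PowerSeries.C c * PowerSeries.X) p) :
    (X - C a) ^ o ∣ p := by
  have h1 : (PowerSeries.C a + PowerSeries.C c * PowerSeries.X : PowerSeries ℤ)
      = ((C c * X + C a : ℤ[X]) : PowerSeries ℤ) := by
    rw [Polynomial.coe_add, Polynomial.coe_mul, Polynomial.coe_C, Polynomial.coe_C,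
      Polynomial.coe_X, add_comm]
  rw [h1, evf_coe] at h
  rw [X_sub_C_pow_dvd_iff, Polynomial.X_pow_dvd_iff]
  intro i hi
  rw [PowerSeries.X_pow_dvd_iff] at h
  have h2 := h i hi
  rw [Polynomial.coeff_coe] at h2
  have h3 : p.comp (C c * X + C a) = (p.comp (X + C a)).comp (C c * X) := by
    rw [comp_assoc]; simp
  rw [h3, comp_C_mul_X_coeff] at h2
  rcases mul_eq_zero.1 h2 with h4 | h4
  · exact h4
  · exact absurd h4 (pow_ne_zero _ hc)

lemma evf_ne_zero (a c : ℤ) (hc : c ≠ 0) (p : ℤ[X]) (hp : p ≠ 0) :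
    evf (PowerSeries.C a + PowerSeries.C c * PowerSeries.X) p ≠ 0 := by
  intro h0
  have h1 : (X - C a) ^ (p.natDegree + 1) ∣ p :=
    dvd_of_dvd_evf a c hc p _ (by rw [h0]; exact dvd_zero _)
  have h2 := natDegree_le_of_dvd h1 hp
  rw [natDegree_pow, natDegree_X_sub_C, mul_one] at h2
  omega

/-- uniqueness of the branch through a point where `F_y ≠ 0` -/
lemma branch_unique (F : ℤ[X][X]) (x y1 y2 : PowerSeries ℝ)
    (h1 : ev x y1 F = 0) (h2 : ev x y2 F = 0)
    (h12 : PowerSeries.constantCoeff y1 = PowerSeries.constantCoeff y2)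
    (hD : ev (PowerSeries.constantCoeff x) (PowerSeries.constantCoeff y2) (derivative F) ≠ 0) :
    y1 = y2 := by
  set G : (PowerSeries ℝ)[X] := F.map (evf x) with hG
  have e1 : ∀ y, ev x y F = G.eval y := by
    intro y
    rw [ev_apply, hG, eval_map]
  obtain ⟨kk, hkk⟩ := binomExpansion G y2 (y1 - y2)
  have e2 : y2 + (y1 - y2) = y1 := by ring
  rw [e2, ← e1, ← e1, h1, h2] at hkk
  have e3 : (y1 - y2) * (eval y2 (derivative G) + kk * (y1 - y2)) = 0 := by
    rw [zero_add] at hkk
    rw [hkk]; ring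
  rcases mul_eq_zero.1 e3 with h | h
  · exact sub_eq_zero.1 h
  · exfalso
    apply hD
    have h3 : PowerSeries.constantCoeff (eval y2 (derivative G)) = 0 := by
      have h4 := congrArg PowerSeries.constantCoeff h
      rw [map_add, map_mul, map_sub, h12, sub_self, mul_zero, add_zero, map_zero] at h4
      exact h4
    have h5 : eval y2 (derivative G) = ev x y2 (derivative F) := by
      rw [hG, derivative_map, eval_map, ev_apply]
    rw [h5, map_ev] at h3
    exact h3

end Local

end Pool.Agent.H322R2
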