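import Mathlib

/-!
Counting in boxes.
-/

open Finset

namespace Pool.Agent.H322R2

section

variable {ι : Type*} [Fintype ι] [DecidableEq ι]

/-- the box -/
noncomputable def Bx (ι : Type*) [Fintype ι] [DecidableEq ι] (H : ℕ) : Finset (ι → ℤ) :=
  Fintype.piFinset fun _ => Icc (-(H : ℤ)) H

lemma mem_Bx {H : ℕ} {c : ι → ℤ} : c ∈ Bx ι H ↔ ∀ i, |c i| ≤ (H : ℤ) := by
  rw [Bx, Fintype.mem_piFinset]
  constructor
  · intro h i
    have := h i
    rw [Finset.mem_Icc] at this
    exact abs_le.2 this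
  · intro h i
    rw [Finset.mem_Icc]
    exact abs_le.1 (h i)

lemma card_Icc_H (H : ℕ) : (Icc (-(H : ℤ)) H).card = 2 * H + 1 := by
  rw [Int.card_Icc]
  omega

lemma card_Bx (H : ℕ) : (Bx ι H).card = (2 * H + 1) ^ (Fintype.card ι) := by
  rw [Bx, Fintype.card_piFinset]
  simp only [card_Icc_H, Finset.prod_const, Finset.card_univ]

lemma update_mem_Bx {H : ℕ} {c : ι → ℤ} (hc : c ∈ Bx ι H) (i0 : ι) {t : ℤ}
    (ht : t ∈ Icc (-(H : ℤ)) H) : Function.update c i0 t ∈ Bx ι H := by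
  rw [mem_Bx] at hc ⊢
  intro i
  by_cases h : i = i0
  · rw [h, Function.update_self]
    rw [Finset.mem_Icc] at ht
    exact abs_le.2 ht
  · rw [Function.update_of_ne h]; exact hc i

/-- relative counting along a coordinate -/
lemma rel_count {H : ℕ} (i0 : ι) (S S' : Finset (ι → ℤ)) (hSB : S ⊆ Bx ι H)
    (hS' : ∀ c ∈ S, ∀ t ∈ Icc (-(H : ℤ)) H, Function.update c i0 t ∈ S') (K : ℝ)
    (hK : ∀ c ∈ S', (((Icc (-(H : ℤ)) H).filter (fun t => Function.update c i0 t ∈ S)).card : ℝ) ≤ K) :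
    (S.card : ℝ) * (2 * H + 1) ≤ K * S'.card := by
  classical
  have h1 : ((S ×ˢ Icc (-(H : ℤ)) H).card : ℝ) = (S.card : ℝ) * (2 * H + 1) := by
    rw [Finset.card_product, card_Icc_H]; push_cast; ring
  rw [← h1]
  have h2 := Finset.card_eq_sum_card_fiberwise (s := S ×ˢ Icc (-(H : ℤ)) H) (t := S')
    (f := fun p => Function.update p.1 i0 p.2) (by
      intro p hp
      rw [Finset.mem_coe, Finset.mem_product] at hp
      exact hS' p.1 hp.1 p.2 hp.2)
  rw [h2]
  push_cast
  rw [mul_comm, ← nsmul_eq_mul]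
  apply Finset.sum_le_card_nsmul
  intro c' hc'
  refine le_trans ?_ (hK c' hc')
  have h3 : ((S ×ˢ Icc (-(H : ℤ)) H).filter (fun p => Function.update p.1 i0 p.2 = c')).card
      ≤ ((Icc (-(H : ℤ)) H).filter (fun t => Function.update c' i0 t ∈ S)).card := by
    apply Finset.card_le_card_of_injOn (fun p => p.1 i0)
    · intro p hp
      rw [Finset.mem_coe, Finset.mem_filter, Finset.mem_product] at hp
      rw [Finset.mem_coe, Finset.mem_filter]
      obtain ⟨⟨hp1, hp2⟩, hp3⟩ := hp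
      refine ⟨?_, ?_⟩
      · have := (mem_Bx.1 (hSB hp1)) i0
        rw [Finset.mem_Icc]
        exact abs_le.1 this
      · have : Function.update c' i0 (p.1 i0) = p.1 := by
          rw [← hp3]; simp
        rw [this]; exact hp1
    · intro p hp p' hp' h
      rw [Finset.mem_coe, Finset.mem_filter, Finset.mem_product] at hp hp'
      simp only at h
      have e1 : Function.update c' i0 (p.1 i0) = p.1 := by
        rw [← hp.2]; simp
      have e2 : Function.update c' i0 (p'.1 i0) = p'.1 := by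
        rw [← hp'.2]; simp
      have e3 : p.1 = p'.1 := by rw [← e1, ← e2, h]
      have e4 : p.2 = p'.2 := by
        have f1 := congrFun hp.2 i0
        have f2 := congrFun hp'.2 i0
        rw [Function.update_self] at f1 f2
        rw [f1, f2]
      exact Prod.ext e3 e4
  exact_mod_cast h3

lemma card_interval (T : Finset ℤ) (α β M : ℝ) (hβ : β ≠ 0) (hM : 0 ≤ M)
    (h : ∀ t ∈ T, |α + β * t| ≤ M) : (T.card : ℝ) ≤ 2 * M / |β| + 1 := by
  have hβ0 : 0 < |β| := abs_pos.2 hβ
  rcases T.eq_empty_or_nonempty with h0 | h0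
  · rw [h0]; simp; positivity
  · obtain ⟨t0, ht0⟩ : ∃ t0, t0 = T.min' h0 := ⟨_, rfl⟩
    obtain ⟨t1, ht1⟩ : ∃ t1, t1 = T.max' h0 := ⟨_, rfl⟩
    have m0 : t0 ∈ T := by rw [ht0]; exact T.min'_mem h0
    have m1 : t1 ∈ T := by rw [ht1]; exact T.max'_mem h0
    have hle : t0 ≤ t1 := by rw [ht0]; exact T.min'_le _ m1
    have hsub : T ⊆ Icc t0 t1 := by
      intro t ht
      rw [Finset.mem_Icc, ht0, ht1]
      exact ⟨T.min'_le _ ht, T.le_max' _ ht⟩
    have h1 := Finset.card_le_card hsub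
    rw [Int.card_Icc] at h1
    have h2 : (T.card : ℝ) ≤ (t1 : ℝ) - t0 + 1 := by
      have h3 : ((T.card : ℕ) : ℤ) ≤ t1 - t0 + 1 := by omega
      have h4 : (((T.card : ℕ) : ℤ) : ℝ) ≤ ((t1 - t0 + 1 : ℤ) : ℝ) := by exact_mod_cast h3
      push_cast at h4
      exact h4
    refine h2.trans ?_
    have h3 : ((t1 : ℝ) - t0) * |β| ≤ 2 * M := by
      have e1 := h t0 m0
      have e2 := h t1 m1
      have e3 : ((t1 : ℝ) - t0) * |β| = |(α + β * t1) - (α + β * t0)| := by
        have : (α + β * t1) - (α + β * t0) = β * ((t1 : ℝ) - t0) := by ring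
        rw [this, abs_mul, mul_comm]
        congr 1
        rw [abs_of_nonneg]
        have : (t0 : ℝ) ≤ t1 := by exact_mod_cast hle
        linarith
      rw [e3]
      exact (abs_sub _ _).trans (by linarith)
    have h4 : (t1 : ℝ) - t0 ≤ 2 * M / |β| := by
      rw [le_div_iff₀ hβ0]; exact h3
    linarith

/-- union bound -/
lemma card_biUnion_real {α β : Type*} [DecidableEq β] (s : Finset α) (f : α → Finset β) (K : ℝ)
    (h : ∀ a ∈ s, ((f a).card : ℝ) ≤ K) : ((s.biUnion f).card : ℝ) ≤ s.card * K := by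
  have h1 : ((s.biUnion f).card : ℝ) ≤ ∑ a ∈ s, ((f a).card : ℝ) := by
    have := Finset.card_biUnion_le (s := s) (t := f)
    exact_mod_cast this
  refine h1.trans ?_
  rw [← nsmul_eq_mul]
  exact Finset.sum_le_card_nsmul _ _ _ h

end

end Pool.Agent.H322R2
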