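import Pool.Agent.H322R2.Hmg

/-!
Local uniqueness of the branch, over a normed field.
-/

open Polynomial Finset

namespace Pool.Agent.H322R2

section Close

variable {𝕜 : Type*} [NormedField 𝕜]

lemma norm_pow_sub_le {r : ℝ} (hr : 0 ≤ r) (h1 h2 : 𝕜) (e1 : ‖h1‖ ≤ r) (e2 : ‖h2‖ ≤ r) (q : ℕ) :
    ‖h1 ^ q - h2 ^ q‖ ≤ q * r ^ (q - 1) * ‖h1 - h2‖ := by
  rw [← geom_sum₂_mul, norm_mul]
  apply mul_le_mul_of_nonneg_right _ (norm_nonneg _)
  refine (norm_sum_le _ _).trans ?_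
  have : ∀ i ∈ range q, ‖h1 ^ i * h2 ^ (q - 1 - i)‖ ≤ r ^ (q - 1) := by
    intro i hi
    rw [Finset.mem_range] at hi
    rw [norm_mul, norm_pow, norm_pow]
    calc ‖h1‖ ^ i * ‖h2‖ ^ (q - 1 - i) ≤ r ^ i * r ^ (q - 1 - i) :=
          mul_le_mul (pow_le_pow_left₀ (norm_nonneg _) e1 _)
            (pow_le_pow_left₀ (norm_nonneg _) e2 _) (by positivity) (by positivity)
      _ = r ^ (q - 1) := by rw [← pow_add]; congr 1; omega
  refine (Finset.sum_le_sum this).trans ?_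
  simp

lemma norm_one_le : (normRingSeminorm 𝕜) 1 ≤ 1 := by
  show ‖(1 : 𝕜)‖ ≤ 1
  simp

lemma ev_close (P : ℤ[X][X]) (n m : ℕ) (hn : P.natDegree < n)
    (hm : ∀ j, (P.coeff j).natDegree < m) (y0 : 𝕜) {r : ℝ} (hr1 : r ≤ 1)
    (z h : 𝕜) (hz : ‖z‖ ≤ r) (hh : ‖h‖ ≤ r) :
    ‖ev z (y0 + h) P - ev 0 y0 P‖ ≤ pn (pn zn) P * (1 + ‖y0‖) ^ (n - 1) * r := by
  have hr0 : 0 ≤ r := (norm_nonneg _).trans hz
  have h1 := ev_taylor (RingHom.id 𝕜) P n m hn hm 0 y0 z h
  simp only [RingHom.id_apply, zero_add] at h1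
  have h0 := tay_zero P n m hn hm (0 : 𝕜) y0
  have hmpos : 0 < m := lt_of_le_of_lt (Nat.zero_le _) (hm 0)
  have hnpos : 0 < n := lt_of_le_of_lt (Nat.zero_le _) hn
  have hmem : ((0, 0) : ℕ × ℕ) ∈ range m ×ˢ range n := by
    rw [Finset.mem_product, Finset.mem_range, Finset.mem_range]; exact ⟨hmpos, hnpos⟩
  rw [← Finset.add_sum_erase _ _ hmem] at h1
  rw [h1, ← h0]
  simp only [pow_zero, mul_one, add_sub_cancel_left]
  refine (norm_sum_le _ _).trans ?_
  have h2 : ∀ p ∈ (range m ×ˢ range n).erase (0, 0), ‖tay P n m 0 y0 p * z ^ p.1 * h ^ p.2‖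
      ≤ (normRingSeminorm 𝕜) (tay P n m 0 y0 p) * r := by
    intro p hp
    rw [norm_mul, norm_mul, mul_assoc]
    apply mul_le_mul_of_nonneg_left _ (norm_nonneg _)
    rw [norm_pow, norm_pow]
    have hp0 : p ≠ (0, 0) := (Finset.mem_erase.1 hp).1
    have h3 : 1 ≤ p.1 + p.2 := by
      by_contra hcon
      apply hp0
      have : p.1 = 0 ∧ p.2 = 0 := by omega
      exact Prod.ext this.1 this.2
    calc ‖z‖ ^ p.1 * ‖h‖ ^ p.2 ≤ r ^ p.1 * r ^ p.2 :=
          mul_le_mul (pow_le_pow_left₀ (norm_nonneg _) hz _)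
            (pow_le_pow_left₀ (norm_nonneg _) hh _) (by positivity) (by positivity)
      _ = r ^ (p.1 + p.2) := by rw [← pow_add]
      _ ≤ r ^ 1 := pow_le_pow_of_le_one hr0 hr1 h3
      _ = r := pow_one r
  refine (Finset.sum_le_sum h2).trans ?_
  rw [← Finset.sum_mul]
  apply mul_le_mul_of_nonneg_right _ hr0
  have h4 := sum_tay_le (normRingSeminorm 𝕜) norm_one_le P n m hn hm 0 y0
  have h5 : (normRingSeminorm 𝕜) (0 : 𝕜) = 0 := map_zero _
  have h6 : (normRingSeminorm 𝕜) y0 = ‖y0‖ := rfl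
  rw [h5, h6, add_zero, one_pow, mul_one] at h4
  refine le_trans ?_ h4
  exact Finset.sum_le_sum_of_subset_of_nonneg (Finset.erase_subset _ _)
    (fun _ _ _ => apply_nonneg _ _)

lemma close_unique (P : ℤ[X][X]) (n m : ℕ) (hn : P.natDegree < n)
    (hm : ∀ j, (P.coeff j).natDegree < m) (y0 : 𝕜) {r : ℝ} (hr1 : r ≤ 1)
    (hr : pn (pn zn) P * (1 + ‖y0‖) ^ (n - 1) * (n * r) < ‖ev 0 y0 (derivative P)‖)
    (z h1 h2 : 𝕜) (hz : ‖z‖ ≤ r) (hh1 : ‖h1‖ ≤ r) (hh2 : ‖h2‖ ≤ r)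
    (e : ev z (y0 + h1) P = ev z (y0 + h2) P) : h1 = h2 := by
  by_contra hne
  have hpos : 0 < ‖h1 - h2‖ := norm_pos_iff.2 (sub_ne_zero.2 hne)
  have hr0 : 0 ≤ r := (norm_nonneg _).trans hz
  have t1 := ev_taylor (RingHom.id 𝕜) P n m hn hm 0 y0 z h1
  have t2 := ev_taylor (RingHom.id 𝕜) P n m hn hm 0 y0 z h2
  simp only [RingHom.id_apply, zero_add] at t1 t2
  have hD := tay_one P n m hn hm (0 : 𝕜) y0
  have hmpos : 0 < m := lt_of_le_of_lt (Nat.zero_le _) (hm 0)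
  -- n ≥ 2
  have hn2 : 1 < n := by
    by_contra hcon
    have hP : P.natDegree = 0 := by omega
    have : derivative P = 0 := derivative_of_natDegree_zero hP
    rw [this, map_zero, norm_zero] at hr
    have h3 : 0 ≤ pn (pn zn) P * (1 + ‖y0‖) ^ (n - 1) * (n * r) := by
      have := apply_nonneg (pn (pn zn)) P
      positivity
    linarith
  have hmem : ((0, 1) : ℕ × ℕ) ∈ range m ×ˢ range n := by
    rw [Finset.mem_product, Finset.mem_range, Finset.mem_range]; exact ⟨hmpos, hn2⟩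
  have h3 : ∑ p ∈ range m ×ˢ range n, tay P n m 0 y0 p * z ^ p.1 * (h1 ^ p.2 - h2 ^ p.2) = 0 := by
    have : ∑ p ∈ range m ×ˢ range n, tay P n m 0 y0 p * z ^ p.1 * (h1 ^ p.2 - h2 ^ p.2)
        = ev z (y0 + h1) P - ev z (y0 + h2) P := by
      rw [t1, t2, ← Finset.sum_sub_distrib]
      apply Finset.sum_congr rfl
      intro p _; ring
    rw [this, e, sub_self]
  rw [← Finset.add_sum_erase _ _ hmem] at h3
  simp only [pow_zero, mul_one, pow_one] at h3
  rw [hD] at h3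
  have h4 : ev 0 y0 (derivative P) * (h1 - h2) = - ∑ p ∈ (range m ×ˢ range n).erase (0, 1),
      tay P n m 0 y0 p * z ^ p.1 * (h1 ^ p.2 - h2 ^ p.2) := by linear_combination h3
  have h5 := congrArg norm h4
  rw [norm_mul, norm_neg] at h5
  have h6 : ‖∑ p ∈ (range m ×ˢ range n).erase (0, 1),
      tay P n m 0 y0 p * z ^ p.1 * (h1 ^ p.2 - h2 ^ p.2)‖
      ≤ (pn (pn zn) P * (1 + ‖y0‖) ^ (n - 1) * (n * r)) * ‖h1 - h2‖ := by
    refine (norm_sum_le _ _).trans ?_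
    have h7 : ∀ p ∈ (range m ×ˢ range n).erase (0, 1),
        ‖tay P n m 0 y0 p * z ^ p.1 * (h1 ^ p.2 - h2 ^ p.2)‖
        ≤ (normRingSeminorm 𝕜) (tay P n m 0 y0 p) * ((n * r) * ‖h1 - h2‖) := by
      intro p hp
      rw [norm_mul, norm_mul, mul_assoc]
      apply mul_le_mul_of_nonneg_left _ (norm_nonneg _)
      obtain ⟨hp0, hp1⟩ := Finset.mem_erase.1 hp
      rw [Finset.mem_product, Finset.mem_range, Finset.mem_range] at hp1
      obtain ⟨p1, p2⟩ := p
      simp only at hp1 ⊢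
      rcases Nat.eq_zero_or_pos p2 with rfl | hp2
      · simp only [pow_zero, sub_self, norm_zero, mul_zero]; positivity
      · have h8 := norm_pow_sub_le hr0 h1 h2 hh1 hh2 p2
        have h9 : ‖z ^ p1‖ * r ^ (p2 - 1) ≤ r := by
          rw [norm_pow]
          calc ‖z‖ ^ p1 * r ^ (p2 - 1) ≤ r ^ p1 * r ^ (p2 - 1) :=
                mul_le_mul_of_nonneg_right (pow_le_pow_left₀ (norm_nonneg _) hz _) (by positivity)
            _ = r ^ (p1 + (p2 - 1)) := by rw [← pow_add]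
            _ ≤ r ^ 1 := by
              apply pow_le_pow_of_le_one hr0 hr1
              by_contra hcon
              apply hp0
              have : p1 = 0 ∧ p2 = 1 := by omega
              exact Prod.ext this.1 this.2
            _ = r := pow_one r
        calc ‖z ^ p1‖ * ‖h1 ^ p2 - h2 ^ p2‖
            ≤ ‖z ^ p1‖ * (p2 * r ^ (p2 - 1) * ‖h1 - h2‖) :=
              mul_le_mul_of_nonneg_left h8 (norm_nonneg _)
          _ = (p2 * ‖h1 - h2‖) * (‖z ^ p1‖ * r ^ (p2 - 1)) := by ring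
          _ ≤ (n * ‖h1 - h2‖) * r := by
              apply mul_le_mul _ h9 (by positivity) (by positivity)
              apply mul_le_mul_of_nonneg_right _ (norm_nonneg _)
              exact_mod_cast hp1.2.le
          _ = _ := by ring
    refine (Finset.sum_le_sum h7).trans ?_
    rw [← Finset.sum_mul]
    have h10 : ∑ p ∈ (range m ×ˢ range n).erase (0, 1), (normRingSeminorm 𝕜) (tay P n m 0 y0 p)
        ≤ pn (pn zn) P * (1 + ‖y0‖) ^ (n - 1) := by
      have h4 := sum_tay_le (normRingSeminorm 𝕜) norm_one_le P n m hn hm 0 y0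
      have h5 : (normRingSeminorm 𝕜) (0 : 𝕜) = 0 := map_zero _
      have h6 : (normRingSeminorm 𝕜) y0 = ‖y0‖ := rfl
      rw [h5, h6, add_zero, one_pow, mul_one] at h4
      refine le_trans ?_ h4
      exact Finset.sum_le_sum_of_subset_of_nonneg (Finset.erase_subset _ _)
        (fun _ _ _ => apply_nonneg _ _)
    calc _ ≤ (pn (pn zn) P * (1 + ‖y0‖) ^ (n - 1)) * ((n * r) * ‖h1 - h2‖) :=
          mul_le_mul_of_nonneg_right h10 (by positivity)
      _ = _ := by ring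
  rw [h5.symm] at h6
  have := le_of_mul_le_mul_right h6 hpos
  linarith

end Close

section Lower

/-- Liouville type lower bound through the companion matrix. -/
lemma one_le_of_root {𝕜 : Type*} [NormedField 𝕜] [NormedAlgebra ℝ 𝕜] (g : ℤ[X]) (d : ℕ)
    (hd0 : 0 < d) (hm : g.Monic) (hd : g.natDegree = d) (V : ℤ[X]) (hV : nrm g d V ≠ 0)
    (K L : ℝ) (hK1 : 1 ≤ K) (hK : 1 + pn zn g ≤ K) (hL : pn zn V ≤ L) (hL1 : 1 ≤ L)
    (hVd : V.natDegree ≤ d)
    (η : 𝕜) (hη : evf η g = 0) (hηK : ‖η‖ ≤ K) :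
    1 ≤ ‖evf η V‖ * (d * (d.factorial * (L * K ^ d) ^ d) * K ^ d) := by
  set M := aeval (comp g d) V with hM
  have hent : ∀ i j, |((M i j : ℤ) : ℝ)| ≤ L * K ^ d := by
    intro i j
    have h := aeval_comp_entry_le zn zn_one g d V d hVd i j
    refine h.trans ?_
    apply mul_le_mul hL (pow_le_pow_left₀ (by have := apply_nonneg (pn zn) g; linarith) hK _)
      (by have := apply_nonneg (pn zn) g; positivity) (by linarith)
  have hLK : 1 ≤ L * K ^ d := by
    have := one_le_pow₀ hK1 (n := d)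
    nlinarith
  have hadj : ∀ i j, |((M.adjugate i j : ℤ) : ℝ)| ≤ d.factorial * (L * K ^ d) ^ d := by
    intro i j
    rw [Matrix.adjugate_apply]
    have := det_le zn zn_one (M.updateRow j (Pi.single i 1)) (L * K ^ d) (by
      intro a b
      rw [Matrix.updateRow_apply]
      split_ifs with h
      · rw [Pi.single_apply]
        split_ifs with h'
        · simpa using hLK
        · simp only [zn_apply, Int.cast_zero, abs_zero]; positivity
      · exact hent a b)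
    simpa using this
  -- vector identity
  set f : ℤ →+* 𝕜 := Int.castRingHom 𝕜 with hf
  set Mf := M.map f with hMf
  set Y : Fin d → 𝕜 := fun i => η ^ (i : ℕ) with hY
  have h2 : Mf.mulVec Y = (eval₂ f η V) • Y := aeval_comp_mulVec f η g d hm hd hη V
  have h3 : (Mf.adjugate * Mf).mulVec Y = Mf.det • Y := by
    rw [Matrix.adjugate_mul, Matrix.smul_mulVec, Matrix.one_mulVec]
  rw [← Matrix.mulVec_mulVec, h2, Matrix.mulVec_smul] at h3
  have h4 := congrFun h3 ⟨0, hd0⟩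
  simp only [Pi.smul_apply, smul_eq_mul, hY, pow_zero, mul_one] at h4
  have h5 : Mf.det = ((nrm g d V : ℤ) : 𝕜) := by
    rw [nrm, hMf, ← hM]
    have := RingHom.map_det f M
    rw [show M.map f = f.mapMatrix M from rfl, ← this]
    rfl
  have h6 : 1 ≤ ‖Mf.det‖ := by
    rw [h5]
    have h7 : ‖((nrm g d V : ℤ) : 𝕜)‖ = |((nrm g d V : ℤ) : ℝ)| := by
      have : ((nrm g d V : ℤ) : 𝕜) = algebraMap ℝ 𝕜 ((nrm g d V : ℤ) : ℝ) := by simp
      rw [this, norm_algebraMap', Real.norm_eq_abs]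
    rw [h7]
    have h8 : 1 ≤ |nrm g d V| := Int.one_le_abs hV
    exact_mod_cast h8
  have h9 : ‖(Mf.adjugate.mulVec fun i => η ^ (i : ℕ)) ⟨0, hd0⟩‖
      ≤ d * (d.factorial * (L * K ^ d) ^ d) * K ^ d := by
    rw [Matrix.mulVec, dotProduct]
    refine (norm_sum_le _ _).trans ?_
    have h10 : ∀ j ∈ (univ : Finset (Fin d)), ‖Mf.adjugate ⟨0, hd0⟩ j * η ^ (j : ℕ)‖
        ≤ (d.factorial * (L * K ^ d) ^ d) * K ^ d := by
      intro j _
      rw [norm_mul, norm_pow]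
      have h11 : Mf.adjugate ⟨0, hd0⟩ j = ((M.adjugate ⟨0, hd0⟩ j : ℤ) : 𝕜) := by
        have := RingHom.map_adjugate f M
        have h12 := congrFun (congrFun this ⟨0, hd0⟩) j
        exact h12.symm
      rw [h11]
      have h7 : ‖((M.adjugate ⟨0, hd0⟩ j : ℤ) : 𝕜)‖ = |((M.adjugate ⟨0, hd0⟩ j : ℤ) : ℝ)| := by
        have : ((M.adjugate ⟨0, hd0⟩ j : ℤ) : 𝕜)
            = algebraMap ℝ 𝕜 ((M.adjugate ⟨0, hd0⟩ j : ℤ) : ℝ) := by simp
        rw [this, norm_algebraMap', Real.norm_eq_abs]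
      rw [h7]
      apply mul_le_mul (hadj _ _) _ (by positivity) (by positivity)
      calc ‖η‖ ^ (j : ℕ) ≤ K ^ (j : ℕ) := pow_le_pow_left₀ (norm_nonneg _) hηK _
        _ ≤ K ^ d := pow_le_pow_right₀ hK1 j.2.le
    refine (Finset.sum_le_sum h10).trans ?_
    simp only [Finset.sum_const, Finset.card_univ, Fintype.card_fin, nsmul_eq_mul]
    exact le_of_eq (by ring)
  calc 1 ≤ ‖Mf.det‖ := h6
    _ = ‖eval₂ f η V * (Mf.adjugate.mulVec fun i => η ^ (i : ℕ)) ⟨0, hd0⟩‖ := by rw [← h4]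
    _ = ‖eval₂ f η V‖ * ‖(Mf.adjugate.mulVec fun i => η ^ (i : ℕ)) ⟨0, hd0⟩‖ := norm_mul _ _
    _ ≤ _ := mul_le_mul_of_nonneg_left h9 (norm_nonneg _)

end Lower

end Pool.Agent.H322R2
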