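import Pool.Agent.H322R2.Root

/-!
Quantitative version of the local uniqueness of the branch.
-/

open Polynomial Finset

namespace Pool.Agent.H322R2

section Close

variable {𝕜 : Type*} [NormedField 𝕜]

lemma close_quant (P : ℤ[X][X]) (n m : ℕ) (hn : P.natDegree < n)
    (hm : ∀ j, (P.coeff j).natDegree < m) (hn2 : 1 < n) (y0 : 𝕜) {r : ℝ} (hr1 : r ≤ 1)
    (z h1 h2 : 𝕜) (hz : ‖z‖ ≤ r) (hh1 : ‖h1‖ ≤ r) (hh2 : ‖h2‖ ≤ r) :
    ‖h1 - h2‖ * ‖ev 0 y0 (derivative P)‖ ≤ ‖ev z (y0 + h1) P - ev z (y0 + h2) P‖ +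
      (pn (pn zn) P * (1 + ‖y0‖) ^ (n - 1) * (n * r)) * ‖h1 - h2‖ := by
  have hr0 : 0 ≤ r := (norm_nonneg _).trans hz
  have t1 := ev_taylor (RingHom.id 𝕜) P n m hn hm 0 y0 z h1
  have t2 := ev_taylor (RingHom.id 𝕜) P n m hn hm 0 y0 z h2
  simp only [RingHom.id_apply, zero_add] at t1 t2
  have hD := tay_one P n m hn hm (0 : 𝕜) y0
  have hmpos : 0 < m := lt_of_le_of_lt (Nat.zero_le _) (hm 0)
  have hmem : ((0, 1) : ℕ × ℕ) ∈ range m ×ˢ range n := by
    rw [Finset.mem_product, Finset.mem_range, Finset.mem_range]; exact ⟨hmpos, hn2⟩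
  have h3 : ∑ p ∈ range m ×ˢ range n, tay P n m 0 y0 p * z ^ p.1 * (h1 ^ p.2 - h2 ^ p.2)
        = ev z (y0 + h1) P - ev z (y0 + h2) P := by
    rw [t1, t2, ← Finset.sum_sub_distrib]
    apply Finset.sum_congr rfl
    intro p _; ring
  rw [← Finset.add_sum_erase _ _ hmem] at h3
  simp only [pow_zero, mul_one, pow_one] at h3
  rw [hD] at h3
  have h4 : ev 0 y0 (derivative P) * (h1 - h2) = (ev z (y0 + h1) P - ev z (y0 + h2) P)
      - ∑ p ∈ (range m ×ˢ range n).erase (0, 1),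
      tay P n m 0 y0 p * z ^ p.1 * (h1 ^ p.2 - h2 ^ p.2) := by linear_combination h3
  have h5 := congrArg norm h4
  rw [norm_mul] at h5
  have h6 : ‖∑ p ∈ (range m ×ˢ range n).erase (0, 1),
      tay P n m 0 y0 p * z ^ p.1 * (h1 ^ p.2 - h2 ^ p.2)‖
      ≤ (pn (pn zn) P * (1 + ‖y0‖) ^ (n - 1) * (n * r)) * ‖h1 - h2‖ := by
    refine (norm_sum_le _ _).trans ?_
    have h7 : ∀ p ∈ (range m ×ˢ range n).erase (0, 1),
        ‖tay P n m 0 y0 p * z ^ p.1 * (h1 ^ p.2 - h2 ^ p.2)‖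
        ≤ (normRingSeminorm 𝕜) (tay P n m 0 y0 p) * ((n * r) * ‖h1 - h2‖) := by
      intro p hp
      rw [norm_mul, norm_mul, mul_assoc]
      apply mul_le_mul_of_nonneg_left _ (norm_nonneg _)
      obtain ⟨hp0, hp1⟩ := Finset.mem_erase.1 hp
      rw [Finset.mem_product, Finset.mem_range, Finset.mem_range] at hp1
      obtain ⟨p1, p2⟩ := p
      simp only at hp1 ⊢
      rcases Nat.eq_zero_or_pos p2 with rfl | hp2
      · simp only [pow_zero, sub_self, norm_zero, mul_zero]; positivity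
      · have h8 := norm_pow_sub_le hr0 h1 h2 hh1 hh2 p2
        have h9 : ‖z ^ p1‖ * r ^ (p2 - 1) ≤ r := by
          rw [norm_pow]
          calc ‖z‖ ^ p1 * r ^ (p2 - 1) ≤ r ^ p1 * r ^ (p2 - 1) :=
                mul_le_mul_of_nonneg_right (pow_le_pow_left₀ (norm_nonneg _) hz _) (by positivity)
            _ = r ^ (p1 + (p2 - 1)) := by rw [← pow_add]
            _ ≤ r ^ 1 := by
              apply pow_le_pow_of_le_one hr0 hr1
              by_contra hcon
              apply hp0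
              have : p1 = 0 ∧ p2 = 1 := by omega
              exact Prod.ext this.1 this.2
            _ = r := pow_one r
        calc ‖z ^ p1‖ * ‖h1 ^ p2 - h2 ^ p2‖
            ≤ ‖z ^ p1‖ * (p2 * r ^ (p2 - 1) * ‖h1 - h2‖) :=
              mul_le_mul_of_nonneg_left h8 (norm_nonneg _)
          _ = (p2 * ‖h1 - h2‖) * (‖z ^ p1‖ * r ^ (p2 - 1)) := by ring
          _ ≤ (n * ‖h1 - h2‖) * r := by
              apply mul_le_mul _ h9 (by positivity) (by positivity)
              apply mul_le_mul_of_nonneg_right _ (norm_nonneg _)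
              exact_mod_cast hp1.2.le
          _ = _ := by ring
    refine (Finset.sum_le_sum h7).trans ?_
    rw [← Finset.sum_mul]
    have h10 : ∑ p ∈ (range m ×ˢ range n).erase (0, 1), (normRingSeminorm 𝕜) (tay P n m 0 y0 p)
        ≤ pn (pn zn) P * (1 + ‖y0‖) ^ (n - 1) := by
      have h4 := sum_tay_le (normRingSeminorm 𝕜) norm_one_le P n m hn hm 0 y0
      have h5 : (normRingSeminorm 𝕜) (0 : 𝕜) = 0 := map_zero _
      have h6 : (normRingSeminorm 𝕜) y0 = ‖y0‖ := rfl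
      rw [h5, h6, add_zero, one_pow, mul_one] at h4
      refine le_trans ?_ h4
      exact Finset.sum_le_sum_of_subset_of_nonneg (Finset.erase_subset _ _)
        (fun _ _ _ => apply_nonneg _ _)
    calc _ ≤ (pn (pn zn) P * (1 + ‖y0‖) ^ (n - 1)) * ((n * r) * ‖h1 - h2‖) :=
          mul_le_mul_of_nonneg_right h10 (by positivity)
      _ = _ := by ring
  rw [mul_comm, h5]
  exact (norm_sub_le _ _).trans (by linarith)

end Close

end Pool.Agent.H322R2
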