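import Pool.Agent.H322R2.Wronsk

/-!
Companion matrices and norms from `R[Y]/(F)` down to `R`.
-/

open Polynomial Finset

namespace Pool.Agent.H322R2

section Comp

variable {R : Type*} [CommRing R]

/-- companion matrix of `F` (monic of degree `d`), acting on the column vector `(1, y, …, y^(d-1))` -/
noncomputable def comp (F : R[X]) (d : ℕ) : Matrix (Fin d) (Fin d) R :=
  Matrix.of fun i j => if (i : ℕ) + 1 < d then (if (j : ℕ) = i + 1 then 1 else 0) else - F.coeff j

lemma comp_mulVec {S : Type*} [CommRing S] (f : R →+* S) (η : S) (F : R[X]) (d : ℕ)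
    (hm : F.Monic) (hd : F.natDegree = d) (hη : eval₂ f η F = 0) :
    ((comp F d).map f).mulVec (fun i => η ^ (i : ℕ)) = η • (fun i : Fin d => η ^ (i : ℕ)) := by
  funext i
  simp only [Matrix.mulVec, dotProduct, Matrix.map_apply, comp, Matrix.of_apply, Pi.smul_apply,
    smul_eq_mul]
  by_cases hi : (i : ℕ) + 1 < d
  · rw [Finset.sum_eq_single (⟨(i : ℕ) + 1, hi⟩ : Fin d)]
    · simp [hi, pow_succ, mul_comm]
    · intro j _ hj
      have : ¬ ((j : ℕ) = (i : ℕ) + 1) := by
        intro h; exact hj (Fin.ext h)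
      simp [hi, this]
    · intro h; exact absurd (Finset.mem_univ _) h
  · have hid : (i : ℕ) + 1 = d := by have := i.2; omega
    simp only [hi, if_false]
    have h1 : eval₂ f η F = ∑ j ∈ range (d + 1), f (F.coeff j) * η ^ j := by
      rw [eval₂_eq_sum_range, hd]
    rw [h1, Finset.sum_range_succ] at hη
    have h2 : F.coeff d = 1 := by rw [← hd]; exact hm.coeff_natDegree
    rw [h2, map_one, one_mul] at hη
    rw [Fin.sum_univ_eq_sum_range (fun j => f (-F.coeff j) * η ^ j) d]
    have h3 : ∑ j ∈ range d, f (-F.coeff j) * η ^ j = - ∑ j ∈ range d, f (F.coeff j) * η ^ j := by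
      rw [← Finset.sum_neg_distrib]
      apply Finset.sum_congr rfl
      intro j _
      rw [map_neg]; ring
    rw [h3, ← pow_succ', hid]
    linear_combination -hη

lemma aeval_comp_mulVec {S : Type*} [CommRing S] (f : R →+* S) (η : S) (F : R[X]) (d : ℕ)
    (hm : F.Monic) (hd : F.natDegree = d) (hη : eval₂ f η F = 0) (V : R[X]) :
    ((aeval (comp F d) V).map f).mulVec (fun i => η ^ (i : ℕ))
      = (eval₂ f η V) • (fun i : Fin d => η ^ (i : ℕ)) := by
  induction V using Polynomial.induction_on with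
  | C a =>
    rw [aeval_C, eval₂_C]
    have : ((algebraMap R (Matrix (Fin d) (Fin d) R)) a).map f
        = algebraMap S (Matrix (Fin d) (Fin d) S) (f a) := by
      ext i j
      simp [Matrix.algebraMap_matrix_apply]
      split_ifs <;> simp
    rw [this]
    funext i
    simp [Matrix.mulVec, dotProduct, Matrix.algebraMap_matrix_apply]
  | add p q hp hq =>
    rw [map_add, eval₂_add, add_smul, ← hp, ← hq, ← Matrix.add_mulVec]
    congr 1
    ext i j
    simp
  | monomial n a h =>
    have e1 : (C a * X ^ (n + 1) : R[X]) = (C a * X ^ n) * X := by ring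
    rw [e1, map_mul, aeval_X, eval₂_mul, eval₂_X]
    have e2 : ((aeval (comp F d) (C a * X ^ n)) * comp F d).map f
        = ((aeval (comp F d) (C a * X ^ n)).map f) * ((comp F d).map f) := by
      rw [Matrix.map_mul]
    rw [e2, ← Matrix.mulVec_mulVec, comp_mulVec f η F d hm hd hη, Matrix.mulVec_smul, h, smul_smul,
      mul_comm]

/-- Norm of `V` from `R[Y]/(F)` to `R`. -/
noncomputable def nrm (F : R[X]) (d : ℕ) (V : R[X]) : R := (aeval (comp F d) V).det

lemma dvd_nrm {S : Type*} [CommRing S] (f : R →+* S) (η : S) (F : R[X]) (d : ℕ) (hd0 : 0 < d)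
    (hm : F.Monic) (hd : F.natDegree = d) (hη : eval₂ f η F = 0) (V : R[X]) :
    eval₂ f η V ∣ f (nrm F d V) := by
  set M := (aeval (comp F d) V).map f with hM
  have h1 : f (nrm F d V) = M.det := by
    rw [nrm, RingHom.map_det]; rfl
  rw [h1]
  set Y : Fin d → S := fun i => η ^ (i : ℕ) with hY
  have h2 : M.mulVec Y = (eval₂ f η V) • Y := aeval_comp_mulVec f η F d hm hd hη V
  have h3 : (M.adjugate * M).mulVec Y = M.det • Y := by
    rw [Matrix.adjugate_mul, Matrix.smul_mulVec, Matrix.one_mulVec]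
  rw [← Matrix.mulVec_mulVec, h2, Matrix.mulVec_smul] at h3
  have h4 := congrFun h3 ⟨0, hd0⟩
  simp only [Pi.smul_apply, smul_eq_mul, hY, pow_zero, mul_one] at h4
  exact ⟨_, h4.symm⟩

lemma nrm_ne_zero [IsDomain R] (F : R[X]) (d : ℕ) (hm : F.Monic) (hd : F.natDegree = d)
    (hF : Prime F) (V : R[X]) (hV : ¬ F ∣ V) : nrm F d V ≠ 0 := by
  intro h0
  obtain ⟨v, hv0, hv⟩ := Matrix.exists_vecMul_eq_zero_iff.2 h0
  have hη : eval₂ (AdjoinRoot.of F) (AdjoinRoot.root F) F = 0 := AdjoinRoot.eval₂_root F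
  have h1 := aeval_comp_mulVec (AdjoinRoot.of F) (AdjoinRoot.root F) F d hm hd hη V
  set M := aeval (comp F d) V with hM
  set q : R[X] := ∑ i : Fin d, C (v i) * X ^ (i : ℕ) with hq
  have h2 : (AdjoinRoot.mk F) (V * q) = 0 := by
    have e1 : (AdjoinRoot.mk F) V = eval₂ (AdjoinRoot.of F) (AdjoinRoot.root F) V := by
      rw [← AdjoinRoot.aeval_eq, aeval_def]; rfl
    have e2 : (AdjoinRoot.mk F) q = ∑ i : Fin d, (AdjoinRoot.of F (v i))
        * (AdjoinRoot.root F) ^ (i : ℕ) := by
      rw [hq, map_sum]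
      apply Finset.sum_congr rfl
      intro i _
      rw [map_mul, map_pow, AdjoinRoot.mk_C, AdjoinRoot.mk_X]
    rw [map_mul, e1, e2, Finset.mul_sum]
    have e3 : ∀ i : Fin d, eval₂ (AdjoinRoot.of F) (AdjoinRoot.root F) V *
        ((AdjoinRoot.of F (v i)) * (AdjoinRoot.root F) ^ (i : ℕ))
        = ∑ j : Fin d, (AdjoinRoot.of F (v i * M i j)) * (AdjoinRoot.root F) ^ (j : ℕ) := by
      intro i
      have := congrFun h1 i
      simp only [Matrix.mulVec, dotProduct, Matrix.map_apply, Pi.smul_apply, smul_eq_mul] at this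
      calc _ = (AdjoinRoot.of F (v i)) * (eval₂ (AdjoinRoot.of F) (AdjoinRoot.root F) V *
          (AdjoinRoot.root F) ^ (i : ℕ)) := by ring
        _ = _ := by
          rw [← this, Finset.mul_sum]
          apply Finset.sum_congr rfl
          intro j _
          rw [map_mul]; ring
    simp_rw [e3]
    rw [Finset.sum_comm]
    apply Finset.sum_eq_zero
    intro j _
    rw [← Finset.sum_mul, ← map_sum]
    have := congrFun hv j
    simp only [Matrix.vecMul, dotProduct, Pi.zero_apply] at this
    rw [this, map_zero, zero_mul]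
  rw [AdjoinRoot.mk_eq_zero] at h2
  rcases hF.dvd_or_dvd h2 with h3 | h3
  · exact hV h3
  · have hqdeg : q.degree < F.degree := by
      rw [degree_eq_natDegree hm.ne_zero, hd]
      refine (degree_sum_le _ _).trans_lt ?_
      rw [Finset.sup_lt_iff (by exact WithBot.bot_lt_coe d)]
      intro i _
      refine (degree_C_mul_X_pow_le _ _).trans_lt ?_
      exact_mod_cast i.2
    have hq0 : q = 0 := by
      by_contra hne
      exact absurd (degree_le_of_dvd h3 hne) (not_le.2 hqdeg)
    apply hv0
    funext i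
    have : q.coeff (i : ℕ) = v i := by
      rw [hq, finset_sum_coeff]
      rw [Finset.sum_eq_single i]
      · simp
      · intro j _ hj
        have : (i : ℕ) ≠ (j : ℕ) := fun h => hj (Fin.ext h.symm)
        simp [coeff_C_mul, coeff_X_pow, this]
      · intro h; exact absurd (Finset.mem_univ _) h
    rw [← this, hq0]; simp

variable (N : RingSeminorm R) (h1 : N 1 ≤ 1)

include h1 in
lemma comp_row_le (F : R[X]) (d : ℕ) (i : Fin d) : ∑ j, N (comp F d i j) ≤ 1 + pn N F := by
  by_cases hi : (i : ℕ) + 1 < d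
  · have : ∑ j, N (comp F d i j) = N 1 := by
      rw [Finset.sum_eq_single (⟨(i : ℕ) + 1, hi⟩ : Fin d)]
      · simp [comp, hi]
      · intro j _ hj
        have : ¬ ((j : ℕ) = (i : ℕ) + 1) := by
          intro h; exact hj (Fin.ext h)
        simp [comp, hi, this]
      · intro h; exact absurd (Finset.mem_univ _) h
    rw [this]
    have := apply_nonneg (pn N) F
    linarith
  · have h2 : ∑ j, N (comp F d i j) = ∑ j : Fin d, N (F.coeff j) := by
      apply Finset.sum_congr rfl
      intro j _
      simp [comp, hi, map_neg_eq_map]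
    rw [h2, Fin.sum_univ_eq_sum_range (fun j => N (F.coeff j)) d]
    have h3 : ∑ j ∈ range d, N (F.coeff j) ≤ pn N F := by
      rw [pn_eq_range N F (n := max d (F.natDegree + 1)) (by omega)]
      apply Finset.sum_le_sum_of_subset_of_nonneg
      · intro x hx
        rw [Finset.mem_range] at *
        omega
      · intro _ _ _; exact apply_nonneg N _
    linarith

include h1 in
lemma pow_row_le {d : ℕ} (T : Matrix (Fin d) (Fin d) R) (b : ℝ) (hb : 0 ≤ b)
    (hT : ∀ i, ∑ j, N (T i j) ≤ b) (n : ℕ) (i : Fin d) : ∑ j, N ((T ^ n) i j) ≤ b ^ n := by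
  induction n generalizing i with
  | zero =>
    rw [pow_zero, pow_zero, Finset.sum_eq_single i]
    · simpa using h1
    · intro j _ hj
      rw [Matrix.one_apply_ne hj.symm, map_zero]
    · intro h; exact absurd (Finset.mem_univ _) h
  | succ n ih =>
    rw [pow_succ]
    have : ∀ j, N ((T ^ n * T) i j) ≤ ∑ k, N ((T ^ n) i k) * N (T k j) := by
      intro j
      rw [Matrix.mul_apply]
      refine (seminorm_sum_le N _ _).trans ?_
      exact Finset.sum_le_sum fun k _ => map_mul_le_mul N _ _
    calc ∑ j, N ((T ^ n * T) i j) ≤ ∑ j, ∑ k, N ((T ^ n) i k) * N (T k j) :=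
          Finset.sum_le_sum fun j _ => this j
      _ = ∑ k, N ((T ^ n) i k) * ∑ j, N (T k j) := by
          rw [Finset.sum_comm]
          apply Finset.sum_congr rfl
          intro k _
          rw [Finset.mul_sum]
      _ ≤ ∑ k, N ((T ^ n) i k) * b :=
          Finset.sum_le_sum fun k _ => mul_le_mul_of_nonneg_left (hT k) (apply_nonneg N _)
      _ = (∑ k, N ((T ^ n) i k)) * b := by rw [Finset.sum_mul]
      _ ≤ b ^ n * b := mul_le_mul_of_nonneg_right (ih i) hb
      _ = b ^ (n + 1) := by rw [pow_succ]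

include h1 in
lemma aeval_comp_entry_le (F : R[X]) (d : ℕ) (V : R[X]) (K : ℕ) (hV : V.natDegree ≤ K)
    (i j : Fin d) : N ((aeval (comp F d) V) i j) ≤ pn N V * (1 + pn N F) ^ K := by
  have hb : 0 ≤ pn N F := apply_nonneg _ _
  rw [aeval_eq_sum_range]
  rw [Matrix.sum_apply]
  refine (seminorm_sum_le N _ _).trans ?_
  rw [pn_eq_range N V (n := V.natDegree + 1) (Nat.lt_succ_self _), Finset.sum_mul]
  apply Finset.sum_le_sum
  intro q hq
  rw [Finset.mem_range] at hq
  rw [Matrix.smul_apply, smul_eq_mul]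
  refine (map_mul_le_mul N _ _).trans ?_
  apply mul_le_mul_of_nonneg_left _ (apply_nonneg N _)
  have h2 := pow_row_le N h1 (comp F d) (1 + pn N F) (by linarith) (comp_row_le N h1 F d) q i
  calc N ((comp F d ^ q) i j) ≤ ∑ j, N ((comp F d ^ q) i j) :=
        Finset.single_le_sum (f := fun j => N ((comp F d ^ q) i j))
          (fun _ _ => apply_nonneg N _) (Finset.mem_univ j)
    _ ≤ (1 + pn N F) ^ q := h2
    _ ≤ (1 + pn N F) ^ K := pow_le_pow_right₀ (by linarith) (by omega)

include h1 in
lemma nrm_le (F : R[X]) (d : ℕ) (V : R[X]) (K : ℕ) (hV : V.natDegree ≤ K) :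
    N (nrm F d V) ≤ d.factorial * (pn N V * (1 + pn N F) ^ K) ^ d := by
  have := det_le N h1 (aeval (comp F d) V) (pn N V * (1 + pn N F) ^ K)
    (aeval_comp_entry_le N h1 F d V K hV)
  simpa [nrm] using this

end Comp

section Deg

/-- degree bounds over `ℤ[X]` (or any `R[X]`) -/
lemma natDegree_comp_pow {R : Type*} [CommRing R] (F : R[X][X]) (d D : ℕ)
    (hF : ∀ j, (F.coeff j).natDegree ≤ D) (n : ℕ) (i j : Fin d) :
    ((comp F d ^ n) i j).natDegree ≤ D * n := by
  induction n generalizing i j with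
  | zero =>
    rw [pow_zero]
    by_cases h : i = j
    · rw [h, Matrix.one_apply_eq]; simp
    · rw [Matrix.one_apply_ne h]; simp
  | succ n ih =>
    rw [pow_succ, Matrix.mul_apply]
    apply natDegree_sum_le_of_forall_le
    intro k _
    refine natDegree_mul_le.trans ?_
    have h1 := ih i k
    have h2 : (comp F d k j).natDegree ≤ D := by
      simp only [comp, Matrix.of_apply]
      split_ifs
      · simp
      · simp
      · rw [natDegree_neg]; exact hF _
    have h3 : D * (n + 1) = D * n + D := by ring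
    omega

lemma natDegree_aeval_comp {R : Type*} [CommRing R] (F : R[X][X]) (d D : ℕ)
    (hF : ∀ j, (F.coeff j).natDegree ≤ D) (V : R[X][X]) (K m : ℕ) (hV : V.natDegree ≤ K)
    (hVm : ∀ q, (V.coeff q).natDegree ≤ m) (i j : Fin d) :
    ((aeval (comp F d) V) i j).natDegree ≤ m + D * K := by
  rw [aeval_eq_sum_range, Matrix.sum_apply]
  apply natDegree_sum_le_of_forall_le
  intro q hq
  rw [Finset.mem_range] at hq
  rw [Matrix.smul_apply, smul_eq_mul]
  refine natDegree_mul_le.trans ?_
  have h1 := natDegree_comp_pow F d D hF q i j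
  have h2 := hVm q
  have h3 : D * q ≤ D * K := Nat.mul_le_mul_left _ (by omega)
  omega

lemma natDegree_det_le {R : Type*} [CommRing R] {d : ℕ} (T : Matrix (Fin d) (Fin d) R[X]) (b : ℕ)
    (hT : ∀ i j, (T i j).natDegree ≤ b) : T.det.natDegree ≤ d * b := by
  rw [Matrix.det_apply]
  apply natDegree_sum_le_of_forall_le
  intro σ _
  have h1 : (∏ i, T (σ i) i).natDegree ≤ d * b := by
    refine (natDegree_prod_le _ _).trans ?_
    refine (Finset.sum_le_sum (fun i _ => hT (σ i) i)).trans ?_
    simp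
  rcases Int.units_eq_one_or (Equiv.Perm.sign σ) with h | h
  · rw [h, one_smul]; exact h1
  · rw [h]
    simpa using h1

/-- Multilinear expansion of the norm of a combination. -/
lemma nrm_sum {R : Type*} [CommRing R] (F : R[X]) (d : ℕ) {ι : Type*} [Fintype ι] [DecidableEq ι]
    (c : ι → R) (U : ι → R[X]) :
    nrm F d (∑ μ, C (c μ) * U μ) = ∑ φ : Fin d → ι, (∏ i, c (φ i)) *
      (Matrix.of fun i j => (aeval (comp F d) (U (φ i))) i j).det := by
  rw [nrm]
  have h1 : aeval (comp F d) (∑ μ, C (c μ) * U μ)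
      = Matrix.of fun i => ∑ μ, c μ • (aeval (comp F d) (U μ)) i := by
    rw [map_sum]
    ext i j
    rw [Matrix.sum_apply, Matrix.of_apply, Finset.sum_apply]
    apply Finset.sum_congr rfl
    intro μ _
    rw [map_mul, aeval_C, Pi.smul_apply, ← Algebra.smul_def, Matrix.smul_apply]
  rw [h1]
  have h2 := (Matrix.detRowAlternating (R := R) (n := Fin d)).toMultilinearMap.map_sum
    (fun (i : Fin d) (μ : ι) => c μ • (aeval (comp F d) (U μ)) i)
  have h3 : (Matrix.of fun i => ∑ μ, c μ • (aeval (comp F d) (U μ)) i).det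
      = (Matrix.detRowAlternating (R := R) (n := Fin d)).toMultilinearMap
        (fun i => ∑ μ, c μ • (aeval (comp F d) (U μ)) i) := rfl
  rw [h3, h2]
  apply Finset.sum_congr rfl
  intro φ _
  have h4 := (Matrix.detRowAlternating (R := R) (n := Fin d)).toMultilinearMap.map_smul_univ
    (fun i => c (φ i)) (fun i => (aeval (comp F d) (U (φ i))) i)
  rw [h4]
  rfl

end Deg

end Pool.Agent.H322R2
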