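import Pool.Agent.H322R2.Aux1

/-!
The core of the two-point argument.
-/

open Polynomial Finset

namespace Pool.Agent.H322R2

/-- Data describing an integer point `(a,b)` on `F = 0` that lies on a branch at infinity
defined over `A`. -/
structure BP {A : Type*} [CommRing A] (N : RingSeminorm A) (σ : A →+* ℝ) (d : ℕ) (B : ℝ)
    (F : ℤ[X][X]) (a b : ℤ) where
  ζ : PowerSeries A
  ω : PowerSeries A
  ρ : ℝ
  θ : PowerSeries ℝ
  hB : 2 ≤ B
  ha : B ^ 2 ≤ |(a : ℝ)|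
  hρB : 1 / B ≤ ρ
  hζ : Bd N ρ ζ 1
  hω : Bd N ρ ω B
  hθ : Bd rn (|(a : ℝ)| / 2) θ (B / |(a : ℝ)|)
  hx : (PowerSeries.C (a : ℝ) + PowerSeries.X) * sb θ (PowerSeries.map σ ζ) = 1
  hy : PowerSeries.constantCoeff
    ((PowerSeries.C (a : ℝ) + PowerSeries.X) * sb θ (PowerSeries.map σ ω)) = (b : ℝ)
  hF : ev (PowerSeries.C (a : ℝ) + PowerSeries.X)
    ((PowerSeries.C (a : ℝ) + PowerSeries.X) * sb θ (PowerSeries.map σ ω)) F = 0
  hD : ev a b (derivative F) ≠ 0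
  hDle : |((ev a b (derivative F) : ℤ) : ℝ)| ≤ |(a : ℝ)| ^ d
  hFn : pn (pn zn) F ≤ B

namespace BP

variable {A : Type*} [CommRing A] {N : RingSeminorm A} {σ : A →+* ℝ} {d : ℕ} {B : ℝ}
    {F : ℤ[X][X]} {a b : ℤ} (P : BP N σ d B F a b)

include P

lemma B_pos : 0 < B := by have := P.hB; linarith

lemma a_ge : 4 ≤ |(a : ℝ)| := by
  have h1 := P.hB
  have h2 := P.ha
  nlinarith

lemma a_pos : 0 < |(a : ℝ)| := by have := P.a_ge; linarith

lemma a_ne : a ≠ 0 := by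
  rintro rfl
  have := P.a_pos
  simp at this

lemma ρ_pos : 0 < P.ρ := lt_of_lt_of_le (by have := P.B_pos; positivity) P.hρB

lemma rad_le : B / |(a : ℝ)| ≤ P.ρ := by
  refine le_trans ?_ P.hρB
  rw [div_le_div_iff₀ P.a_pos P.B_pos]
  have := P.ha
  nlinarith

lemma r_pos : 0 < |(a : ℝ)| / 2 := by have := P.a_pos; linarith

lemma q_nonneg : 0 ≤ B / |(a : ℝ)| := by
  have := P.B_pos; positivity

lemma hev : ev a b F = 0 := by
  have h := congrArg PowerSeries.constantCoeff P.hF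
  rw [map_ev, map_zero, P.hy] at h
  have h2 : PowerSeries.constantCoeff (PowerSeries.C (a : ℝ) + PowerSeries.X : PowerSeries ℝ)
      = (a : ℝ) := by simp
  rw [h2] at h
  have h3 := map_ev (Int.castRingHom ℝ) a b F
  simp only [eq_intCast] at h3
  rw [← h3] at h
  exact_mod_cast h

end BP

lemma coeffN_le {A : Type*} [CommRing A] {N : RingSeminorm A} {ρ B B' : ℝ} (hB' : 0 < B')
    (hρ : 1 / B' ≤ ρ) {u : PowerSeries A} (hu : Bd N ρ u B) (i : ℕ) :
    N (PowerSeries.coeff i u) ≤ B * B' ^ i := by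
  have hρ0 : 0 < ρ := lt_of_lt_of_le (by positivity) hρ
  have h1 := hu.coeff_le hρ0.le i
  have h2 : (1 / B') ^ i ≤ ρ ^ i := pow_le_pow_left₀ (by positivity) hρ i
  have h3 : N (PowerSeries.coeff i u) * (1 / B') ^ i ≤ B :=
    (mul_le_mul_of_nonneg_left h2 (apply_nonneg N _)).trans h1
  rw [one_div, inv_pow, ← div_eq_mul_inv, div_le_iff₀ (by positivity)] at h3
  exact h3

section Main

variable {A : Type*} [CommRing A] {N : RingSeminorm A} {σ : A →+* ℝ} {d : ℕ} {B1 B2 : ℝ}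
    {F1 F2 : ℤ[X][X]} {a1 b1 a2 b2 : ℤ}

/-- coefficients `e_{jμ}` of the six conic monomials on the second branch -/
noncomputable def ecoef (P2 : BP N σ d B2 F2 a2 b2) (j : ℕ) (μ : Fin 6) : A :=
  PowerSeries.coeff j (P2.ζ ^ (2 - mp μ - mq μ) * P2.ω ^ (mq μ))

/-- monomial functions on the first branch -/
noncomputable def mono1 (P1 : BP N σ d B1 F1 a1 b1) (m p q : ℕ) : PowerSeries A :=
  P1.ζ ^ (m - p - q) * P1.ω ^ q

lemma bd_mono1 (h1 : N 1 ≤ 1) (P1 : BP N σ d B1 F1 a1 b1) (m p q : ℕ) :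
    Bd N P1.ρ (mono1 P1 m p q) (B1 ^ q) := by
  have h := (P1.hζ.pow P1.ρ_pos.le h1 (m - p - q)).mul P1.ρ_pos.le (P1.hω.pow P1.ρ_pos.le h1 q)
  simpa [mono1] using h

lemma bd_e (h1 : N 1 ≤ 1) (P2 : BP N σ d B2 F2 a2 b2) (μ : Fin 6) :
    Bd N P2.ρ (P2.ζ ^ (2 - mp μ - mq μ) * P2.ω ^ (mq μ)) (B2 ^ 2) := by
  have h := (P2.hζ.pow P2.ρ_pos.le h1 (2 - mp μ - mq μ)).mul P2.ρ_pos.le
    (P2.hω.pow P2.ρ_pos.le h1 (mq μ))
  rw [one_pow, one_mul] at h
  apply h.mono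
  have := P2.hB
  exact pow_le_pow_right₀ (by linarith) (by have := mpq_le μ; omega)

lemma ecoef_le (h1 : N 1 ≤ 1) (P2 : BP N σ d B2 F2 a2 b2) (j : ℕ) (μ : Fin 6) :
    N (ecoef P2 j μ) ≤ B2 ^ 2 * B2 ^ j :=
  coeffN_le P2.B_pos P2.hρB (bd_e h1 P2 μ) j

/-- number of vanishing conditions -/
def nj (t : ℕ) (j : ℕ) : ℕ := (42 - 10 * j) * t

lemma exists_aux (h1 : N 1 ≤ 1) {ι : Type*} [Fintype ι] (bas : Module.Basis ι ℤ A)
    (C0 : ℝ) (hC0 : 1 ≤ C0) (hcoord : ∀ x i, |(bas.repr x i : ℝ)| ≤ C0 * N x)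
    (P1 : BP N σ d B1 F1 a1 b1) (P2 : BP N σ d B2 F2 a2 b2) (k : ℕ) (hk : 0 < k)
    (hkι : Fintype.card ι = k) (t : ℕ) (ht : 4 * k ≤ t) :
    ∃ T : Fin 6 → Fin k × Fin (20 * t - k) → ℤ, T ≠ 0 ∧
      (∀ j < 5, ∀ i < nj t j, ∑ μ, ∑ s, (T μ s) • (ecoef P2 j μ *
        PowerSeries.coeff i (mono1 P1 (20 * t) s.2 s.1)) = 0) ∧
      ∀ μ s, |(T μ s : ℝ)| ≤
        ((6 * (k * (20 * t - k) : ℕ) : ℝ) * (C0 * (B2 ^ 6 * B1 ^ (k + 42 * t)))) ^ 13 := by
  have hB1 := P1.hB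
  have hB2 := P2.hB
  have hB1' : 1 ≤ B1 := by linarith
  have hB2' : 1 ≤ B2 := by linarith
  have hcardγ : Fintype.card (Σ j : Fin 5, Fin (nj t j)) = 110 * t := by
    have e0 : ∀ j : Fin 5, Fintype.card (Fin (nj t j)) = nj t j := fun j => Fintype.card_fin _
    rw [Fintype.card_sigma, Finset.sum_congr rfl (fun j _ => e0 j), Fin.sum_univ_five]
    simp [nj]
    ring
  obtain ⟨T, hT0, hT, hTn⟩ := siegel_aux bas N C0 hC0 hcoord
    (γ := Σ j : Fin 5, Fin (nj t j)) (β := Fin 6 × (Fin k × Fin (20 * t - k)))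
    (fun g x => ecoef P2 g.1 x.1 * PowerSeries.coeff (g.2 : ℕ) (mono1 P1 (20 * t) x.2.2 x.2.1))
    (B2 ^ 6 * B1 ^ (k + 42 * t))
    (by
      have e1 : 1 ≤ B2 ^ 6 := one_le_pow₀ hB2'
      have e2 : 1 ≤ B1 ^ (k + 42 * t) := one_le_pow₀ hB1'
      nlinarith)
    (by
      intro g x
      refine (map_mul_le_mul N _ _).trans ?_
      have e1 : N (ecoef P2 g.1 x.1) ≤ B2 ^ 6 := by
        refine (ecoef_le h1 P2 _ _).trans ?_
        rw [← pow_add]
        exact pow_le_pow_right₀ hB2' (by have := g.1.2; omega)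
      have e2 : N (PowerSeries.coeff (g.2 : ℕ) (mono1 P1 (20 * t) x.2.2 x.2.1))
          ≤ B1 ^ (k + 42 * t) := by
        refine (coeffN_le P1.B_pos P1.hρB (bd_mono1 h1 P1 _ _ _) _).trans ?_
        rw [← pow_add]
        apply pow_le_pow_right₀ hB1'
        have e3 := x.2.1.2
        have e4 := g.2.2
        have e5 : nj t g.1 ≤ 42 * t := Nat.mul_le_mul_right _ (by omega)
        omega
      exact mul_le_mul e1 e2 (apply_nonneg N _) (by positivity))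
    (by
      rw [hcardγ, hkι]
      simp only [Fintype.card_fin, Fintype.card_prod]
      obtain ⟨e, he⟩ : ∃ e, 20 * t = e + k := ⟨20 * t - k, by omega⟩
      have e2 : 20 * t - k = e := by omega
      rw [e2]
      have e3 : 14 * (110 * t) ≤ 78 * e := by omega
      calc 14 * (110 * t * k) = (14 * (110 * t)) * k := by ring
        _ ≤ (78 * e) * k := Nat.mul_le_mul_right _ e3
        _ = 13 * (6 * (k * e)) := by ring)
    (by
      rw [hcardγ, hkι]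
      apply Nat.mul_pos _ hk
      omega)
  refine ⟨fun μ s => T (μ, s), ?_, ?_, ?_⟩
  · intro h0
    apply hT0
    funext x
    have := congrFun (congrFun h0 x.1) x.2
    simpa using this
  · intro j hj i hi
    have := hT ⟨⟨j, hj⟩, ⟨i, hi⟩⟩
    rw [Fintype.sum_prod_type] at this
    exact this
  · intro μ s
    have := hTn (μ, s)
    simp only [Fintype.card_prod, Fintype.card_fin] at this
    refine this.trans (le_of_eq ?_)
    push_cast
    ring

end Main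

end Pool.Agent.H322R2
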