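import Pool.Agent.H322R2.Core

/-!
Arithmetic part and analytic part of the two-point argument.
-/

open Polynomial Finset

namespace Pool.Agent.H322R2

/-- Arithmetic part: the auxiliary function has small order of vanishing at `(a,b)`. -/
theorem arith_part (F : ℤ[X][X]) (d k n : ℕ) (hd : 0 < d) (hm : F.Monic) (hFd : F.natDegree = d)
    (hF : Prime F) (hFx : ∀ j, (F.coeff j).natDegree ≤ d) (a b : ℤ) (ha : a ≠ 0)
    (hab : ev a b F = 0) (hD : ev a b (derivative F) ≠ 0) (hk : 0 < k) (hkd : k ≤ d) (hn : 0 < n)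
    (T : Fin 6 → Fin k × Fin n → ℤ) (c : Fin 6 → ℤ) (bU : ℝ) (hbU : 1 ≤ bU)
    (hU : ∀ μ, pn (pn zn) (boxPoly (T μ)) ≤ bU)
    (hV : ∑ μ, C (C (c μ)) * boxPoly (T μ) ≠ 0) :
    ∃ Y : PowerSeries ℤ, PowerSeries.X ∣ Y ∧
      ev (PowerSeries.C a + PowerSeries.C ((ev a b (derivative F)) ^ 2) * PowerSeries.X)
        (PowerSeries.C b + PowerSeries.C (ev a b (derivative F)) * Y) F = 0 ∧
      ∃ o : ℕ, PowerSeries.coeff o
        (ev (PowerSeries.C a + PowerSeries.C ((ev a b (derivative F)) ^ 2) * PowerSeries.X)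
        (PowerSeries.C b + PowerSeries.C (ev a b (derivative F)) * Y)
        (∑ μ, C (C (c μ)) * boxPoly (T μ))) ≠ 0 ∧
        |(a : ℝ)| ^ o ≤ |(a : ℝ)| ^ (6 ^ d) * (((6 ^ d).factorial : ℕ) *
          (((d * (n + d * k) : ℕ) : ℝ) ^ (6 ^ d) *
            (d.factorial * (bU * (1 + pn (pn zn) F) ^ k) ^ d)) ^ (6 ^ d)) := by
  obtain ⟨D, hDD⟩ : ∃ D, D = ev a b (derivative F) := ⟨_, rfl⟩
  rw [← hDD] at hD ⊢
  obtain ⟨Y, hXY, hFY, -⟩ := hensel_ev (A := ℤ) F (d + 1) (d + 1) (by omega)
    (fun j => by have := hFx j; omega) a b hab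
  rw [← hDD] at hFY
  refine ⟨Y, hXY, hFY, ?_⟩
  set V : ℤ[X][X] := ∑ μ, C (C (c μ)) * boxPoly (T μ) with hVdef
  set x : PowerSeries ℤ := PowerSeries.C a + PowerSeries.C (D ^ 2) * PowerSeries.X with hx
  set y : PowerSeries ℤ := PowerSeries.C b + PowerSeries.C D * Y with hy
  have hVdeg : V.degree < k := by
    rw [hVdef]
    refine (degree_sum_le _ _).trans_lt ?_
    rw [Finset.sup_lt_iff (by exact WithBot.bot_lt_coe k)]
    intro μ _
    refine ((degree_mul_le _ _).trans ?_).trans_lt (degree_boxPoly (T μ) hk)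
    calc (C (C (c μ)) : ℤ[X][X]).degree + (boxPoly (T μ)).degree
        ≤ 0 + (boxPoly (T μ)).degree := by gcongr; exact degree_C_le
      _ = _ := zero_add _
  have hnd : ¬ F ∣ V := by
    intro h
    have h1 := degree_le_of_dvd h hV
    rw [degree_eq_natDegree hm.ne_zero, hFd] at h1
    have h2 : (d : WithBot ℕ) < k := lt_of_le_of_lt h1 hVdeg
    have h3 : d < k := by exact_mod_cast h2
    omega
  have hN := nrm_ne_zero F d hm hFd hF V hnd
  have hdv : ev x y V ∣ evf x (nrm F d V) :=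
    dvd_nrm (evf x) y F d hd hm hFd (by rw [← ev_apply]; exact hFY) V
  have hD2 : D ^ 2 ≠ 0 := pow_ne_zero _ hD
  have hne := evf_ne_zero a (D ^ 2) hD2 _ hN
  have hg : ev x y V ≠ 0 := by
    intro h0
    rw [h0, zero_dvd_iff] at hdv
    exact hne hdv
  obtain ⟨o, ho⟩ : ∃ o, PowerSeries.coeff o (ev x y V) ≠ 0 ∧
      ∀ i < o, PowerSeries.coeff i (ev x y V) = 0 := by
    have hex : ∃ o, PowerSeries.coeff o (ev x y V) ≠ 0 := by
      by_contra hcon
      push_neg at hcon
      exact hg (PowerSeries.ext hcon)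
    classical
    refine ⟨Nat.find hex, Nat.find_spec hex, ?_⟩
    intro i hi
    by_contra h
    exact Nat.find_min hex hi h
  refine ⟨o, ho.1, ?_⟩
  have hXo : PowerSeries.X ^ o ∣ evf x (nrm F d V) :=
    (PowerSeries.X_pow_dvd_iff.2 ho.2).trans hdv
  have hdvN : (X - C a) ^ o ∣ nrm F d V := dvd_of_dvd_evf a (D ^ 2) hD2 _ o hXo
  have hsum := nrm_sum F d (fun μ => (C (c μ) : ℤ[X])) (fun μ => boxPoly (T μ))
  rw [← hVdef] at hsum
  set f : (Fin d → Fin 6) → ℤ[X] := fun φ =>
    (Matrix.of fun i j => (aeval (comp F d) (boxPoly (T (φ i)))) i j).det with hf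
  have hsum' : nrm F d V = ∑ φ, C (∏ i, c (φ i)) * f φ := by
    rw [hsum]
    apply Finset.sum_congr rfl
    intro φ _
    rw [map_prod]
  have hfpn : 0 ≤ pn (pn zn) F := apply_nonneg _ _
  have hent : ∀ μ i j, pn zn ((aeval (comp F d) (boxPoly (T μ))) i j)
      ≤ bU * (1 + pn (pn zn) F) ^ k := by
    intro μ i j
    refine (aeval_comp_entry_le (pn zn) pnz_one F d _ k (natDegree_boxPoly _ hk) i j).trans ?_
    exact mul_le_mul_of_nonneg_right (hU μ) (by positivity)
  have hbase : 1 ≤ bU * (1 + pn (pn zn) F) ^ k := by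
    have : 1 ≤ (1 + pn (pn zn) F) ^ k := one_le_pow₀ (by linarith)
    nlinarith
  have hcard : Fintype.card (Fin d → Fin 6) = 6 ^ d := by simp
  have := mult_bound f (fun φ => ∏ i, c (φ i)) (d.factorial * (bU * (1 + pn (pn zn) F) ^ k) ^ d)
    (by
      have h1 : (1 : ℝ) ≤ d.factorial := by exact_mod_cast Nat.factorial_pos d
      have h2 : 1 ≤ (bU * (1 + pn (pn zn) F) ^ k) ^ d := one_le_pow₀ hbase
      nlinarith)
    (d * (n + d * k)) (by
      have : 0 < d * (n + d * k) := by positivity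
      omega)
    (by
      intro φ
      apply natDegree_det_le
      intro i j
      exact natDegree_aeval_comp F d d hFx _ k n (natDegree_boxPoly _ hk)
        (natDegree_coeff_boxPoly _) i j)
    (by
      intro φ
      have := det_le (pn zn) pnz_one
        (Matrix.of fun i j => (aeval (comp F d) (boxPoly (T (φ i)))) i j)
        (bU * (1 + pn (pn zn) F) ^ k) (fun i j => hent _ i j)
      simpa using this)
    (by rw [← hsum']; exact hN) a ha o (by rw [← hsum']; exact hdvN)
  rw [hcard] at this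
  exact this

/-- Link between the integral and the real local expansion. -/
lemma link_coeff (F V : ℤ[X][X]) (a b D : ℤ) (hDD : D = ev a b (derivative F)) (hD : D ≠ 0)
    (Y : PowerSeries ℤ) (hXY : PowerSeries.X ∣ Y)
    (hFY : ev (PowerSeries.C a + PowerSeries.C (D ^ 2) * PowerSeries.X)
        (PowerSeries.C b + PowerSeries.C D * Y) F = 0)
    (yh : PowerSeries ℝ) (hy0 : PowerSeries.constantCoeff yh = (b : ℝ))
    (hyF : ev (PowerSeries.C (a : ℝ) + PowerSeries.X) yh F = 0) (o : ℕ) :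
    ((PowerSeries.coeff o (ev (PowerSeries.C a + PowerSeries.C (D ^ 2) * PowerSeries.X)
        (PowerSeries.C b + PowerSeries.C D * Y) V) : ℤ) : ℝ)
      = ((D : ℝ) ^ 2) ^ o * PowerSeries.coeff o (ev (PowerSeries.C (a : ℝ) + PowerSeries.X) yh V) := by
  set φ : PowerSeries ℤ →+* PowerSeries ℝ := PowerSeries.map (Int.castRingHom ℝ) with hφ
  set y2 : PowerSeries ℝ := φ (PowerSeries.C b + PowerSeries.C D * Y) with hy2
  set y1 : PowerSeries ℝ := PowerSeries.rescale ((D : ℝ) ^ 2) yh with hy1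
  set x : PowerSeries ℝ := PowerSeries.C (a : ℝ) + PowerSeries.C ((D : ℝ) ^ 2) * PowerSeries.X with hx
  have ex1 : φ (PowerSeries.C a + PowerSeries.C (D ^ 2) * PowerSeries.X) = x := by
    rw [hφ, map_add, map_mul, PowerSeries.map_C, PowerSeries.map_C, PowerSeries.map_X]
    simp [hx]
  have ex2 : PowerSeries.rescale ((D : ℝ) ^ 2) (PowerSeries.C (a : ℝ) + PowerSeries.X) = x := by
    rw [map_add, hx]
    congr 1
    · ext i
      rw [PowerSeries.coeff_rescale, PowerSeries.coeff_C]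
      split_ifs with h
      · rw [h]; simp
      · simp
    · ext i
      rw [PowerSeries.coeff_rescale, PowerSeries.coeff_C_mul, PowerSeries.coeff_X]
      split_ifs with h
      · rw [h]; simp
      · simp
  have e1 : ev x y1 F = 0 := by
    rw [← ex2, hy1, ← map_ev, hyF, map_zero]
  have e2 : ev x y2 F = 0 := by
    rw [← ex1, hy2, ← map_ev, hFY, map_zero]
  have c1 : PowerSeries.constantCoeff y1 = (b : ℝ) := by
    rw [hy1, ← PowerSeries.coeff_zero_eq_constantCoeff_apply, PowerSeries.coeff_rescale]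
    simpa using hy0
  have c2 : PowerSeries.constantCoeff y2 = (b : ℝ) := by
    rw [hy2, hφ, ← PowerSeries.coeff_zero_eq_constantCoeff_apply, PowerSeries.coeff_map,
      PowerSeries.coeff_zero_eq_constantCoeff_apply, map_add, map_mul,
      PowerSeries.X_dvd_iff.1 hXY]
    simp
  have cx : PowerSeries.constantCoeff x = (a : ℝ) := by
    rw [hx]; simp
  have hy12 : y1 = y2 := by
    apply branch_unique F x y1 y2 e1 e2 (by rw [c1, c2])
    rw [cx, c2]
    have := map_ev (Int.castRingHom ℝ) a b (derivative F)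
    simp only [eq_intCast] at this
    rw [← this, ← hDD]
    exact_mod_cast hD
  have f1 : ((PowerSeries.coeff o (ev (PowerSeries.C a + PowerSeries.C (D ^ 2) * PowerSeries.X)
        (PowerSeries.C b + PowerSeries.C D * Y) V) : ℤ) : ℝ)
      = PowerSeries.coeff o (ev x y2 V) := by
    rw [← ex1, hy2, ← map_ev, hφ, PowerSeries.coeff_map]
    rfl
  rw [f1, ← hy12, hy1, ← ex2, ← map_ev, PowerSeries.coeff_rescale]

end Pool.Agent.H322R2
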