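import Pool.Agent.H322R2.Core2

/-!
Analytic part of the two-point argument.
-/

open Polynomial Finset

namespace Pool.Agent.H322R2

lemma coeff_zero_pow (θ : PowerSeries ℝ) (n : ℕ) :
    PowerSeries.coeff 0 (θ ^ n) = (PowerSeries.coeff 0 θ) ^ n := by
  simp

/-- splitting off the first five terms -/
lemma split5 {A : Type*} [CommRing A] {N : RingSeminorm A} (σ : A →+* ℝ)
    (hσ : ∀ x, |σ x| ≤ N x) {ρ ρ' r B : ℝ} (hρ : 0 < ρ) (hρ' : 0 ≤ ρ') (hle : ρ' ≤ ρ)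
    (hr : 0 < r) (θ : PowerSeries ℝ) (hθ : Bd rn r θ ρ') (u : PowerSeries A) (hu : Bd N ρ u B) :
    ∃ R : ℝ, PowerSeries.constantCoeff (sb θ (PowerSeries.map σ u))
      = ∑ j ∈ range 5, σ (PowerSeries.coeff j u) * (PowerSeries.constantCoeff θ) ^ j + R ∧
      |R| ≤ (ρ' / ρ) ^ 5 * B := by
  set u5 : PowerSeries A := PowerSeries.mk fun n => if n < 5 then 0 else PowerSeries.coeff n u
    with hu5
  have hbd5 : Bd N ρ u5 B := by
    intro K
    refine le_trans ?_ (hu K)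
    apply Finset.sum_le_sum
    intro n _
    rw [hu5, PowerSeries.coeff_mk]
    apply mul_le_mul_of_nonneg_right _ (pow_nonneg hρ.le n)
    split_ifs
    · rw [map_zero]; exact apply_nonneg N _
    · exact le_refl _
  have hbd5' := (hbd5.of_vanish hρ hρ' hle 5 (fun n hn => by
    rw [hu5, PowerSeries.coeff_mk, if_pos hn])).map σ hσ hρ'
  refine ⟨PowerSeries.constantCoeff (sb θ (PowerSeries.map σ u5)), ?_, ?_⟩
  · -- use the defining sum
    have hbu := (hu.of_le hρ' hle).map σ hσ hρ'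
    have h1 := (summ hr hθ hbu 0).of_norm
    have h2 := (summ hr hθ hbd5' 0).of_norm
    rw [← PowerSeries.coeff_zero_eq_constantCoeff_apply,
      ← PowerSeries.coeff_zero_eq_constantCoeff_apply,
      ← PowerSeries.coeff_zero_eq_constantCoeff_apply, sb, sb, PowerSeries.coeff_mk,
      PowerSeries.coeff_mk]
    rw [← h1.sum_add_tsum_nat_add 5, ← h2.sum_add_tsum_nat_add 5]
    have h3 : ∑ i ∈ range 5, PowerSeries.coeff i (PowerSeries.map σ u5) *
        PowerSeries.coeff 0 (θ ^ i) = 0 := by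
      apply Finset.sum_eq_zero
      intro i hi
      rw [Finset.mem_range] at hi
      rw [PowerSeries.coeff_map, hu5, PowerSeries.coeff_mk, if_pos hi, map_zero, zero_mul]
    rw [h3, zero_add]
    congr 1
    · apply Finset.sum_congr rfl
      intro i _
      rw [PowerSeries.coeff_map, coeff_zero_pow]
    · congr 1
      funext i
      rw [PowerSeries.coeff_map, PowerSeries.coeff_map, hu5, PowerSeries.coeff_mk,
        if_neg (by omega)]
  · have := sb_coeff_le hr hθ hbd5' 0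
    rw [PowerSeries.coeff_zero_eq_constantCoeff_apply] at this
    simpa using this

lemma coeff_mul_bound {r Bu Q : ℝ} (hr : 0 < r) {u v : PowerSeries ℝ} (hu : Bd rn r u Bu)
    (hQ : 0 ≤ Q) (hv : ∀ i, |PowerSeries.coeff i v| ≤ Q / r ^ i) (o : ℕ) :
    |PowerSeries.coeff o (u * v)| ≤ Bu * Q / r ^ o := by
  rw [PowerSeries.coeff_mul]
  refine (Finset.abs_sum_le_sum_abs _ _).trans ?_
  have h1 : ∀ p ∈ antidiagonal o, |PowerSeries.coeff p.1 u * PowerSeries.coeff p.2 v|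
      ≤ (|PowerSeries.coeff p.1 u| * r ^ p.1) * (Q / r ^ o) := by
    intro p hp
    rw [Finset.HasAntidiagonal.mem_antidiagonal] at hp
    rw [abs_mul]
    calc |PowerSeries.coeff p.1 u| * |PowerSeries.coeff p.2 v|
        ≤ |PowerSeries.coeff p.1 u| * (Q / r ^ p.2) :=
          mul_le_mul_of_nonneg_left (hv _) (abs_nonneg _)
      _ = _ := by
          rw [← hp, pow_add]; field_simp
  refine (Finset.sum_le_sum h1).trans ?_
  rw [← Finset.sum_mul]
  have h2 : ∑ p ∈ antidiagonal o, |PowerSeries.coeff p.1 u| * r ^ p.1 ≤ Bu := by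
    rw [Finset.Nat.sum_antidiagonal_eq_sum_range_succ_mk]
    exact hu (o + 1)
  calc _ ≤ Bu * (Q / r ^ o) := mul_le_mul_of_nonneg_right h2 (by positivity)
    _ = _ := by ring

section Main

variable {A : Type*} [CommRing A] {N : RingSeminorm A} {σ : A →+* ℝ} {d : ℕ} {B1 B2 : ℝ}
    {F1 F2 : ℤ[X][X]} {a1 b1 a2 b2 : ℤ}

/-- the auxiliary function on the first branch -/
noncomputable def Ust (P1 : BP N σ d B1 F1 a1 b1) (m : ℕ) {k n : ℕ}
    (T : Fin k × Fin n → ℤ) : PowerSeries A :=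
  ∑ s, PowerSeries.C ((T s : ℤ) : A) * mono1 P1 m s.2 s.1

lemma N_int_le (N : RingSeminorm A) (h1 : N 1 ≤ 1) (n : ℤ) : N (n : A) ≤ |(n : ℝ)| := by
  have := N_intCast_mul_le N n 1
  rw [mul_one] at this
  refine this.trans ?_
  exact mul_le_of_le_one_right (abs_nonneg _) h1

lemma bd_Ust (h1 : N 1 ≤ 1) (P1 : BP N σ d B1 F1 a1 b1) (m : ℕ) {k n : ℕ}
    (T : Fin k × Fin n → ℤ) (H : ℝ) (hH : 0 ≤ H) (hT : ∀ s, |(T s : ℝ)| ≤ H) :
    Bd N P1.ρ (Ust P1 m T) (k * n * (H * B1 ^ k)) := by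
  have hB := P1.hB
  have h2 : ∀ s ∈ (univ : Finset (Fin k × Fin n)),
      Bd N P1.ρ (PowerSeries.C ((T s : ℤ) : A) * mono1 P1 m s.2 s.1) (H * B1 ^ k) := by
    intro s _
    refine ((Bd.C P1.ρ_pos.le _).mul P1.ρ_pos.le (bd_mono1 h1 P1 m s.2 s.1)).mono ?_
    apply mul_le_mul ((N_int_le N h1 _).trans (hT s)) _ (pow_nonneg (by linarith) _) hH
    exact pow_le_pow_right₀ (by linarith) s.1.2.le
  refine (Bd.sum univ P1.ρ_pos.le _ _ h2).mono ?_
  simp [mul_assoc]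

lemma sb_Ust (h1 : N 1 ≤ 1) (hσ : ∀ x, |σ x| ≤ N x) (P1 : BP N σ d B1 F1 a1 b1) (m : ℕ) {k n : ℕ}
    (T : Fin k × Fin n → ℤ) (hm : k + n ≤ m) :
    ev (PowerSeries.C (a1 : ℝ) + PowerSeries.X)
      ((PowerSeries.C (a1 : ℝ) + PowerSeries.X) * sb P1.θ (PowerSeries.map σ P1.ω)) (boxPoly T)
      = (PowerSeries.C (a1 : ℝ) + PowerSeries.X) ^ m * sb P1.θ (PowerSeries.map σ (Ust P1 m T)) := by
  set x : PowerSeries ℝ := PowerSeries.C (a1 : ℝ) + PowerSeries.X with hx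
  set w := sb P1.θ (PowerSeries.map σ P1.ω) with hw
  set z := sb P1.θ (PowerSeries.map σ P1.ζ) with hz
  have hxz : x * z = 1 := P1.hx
  have hr := P1.r_pos
  have hq := P1.q_nonneg
  have hθ := P1.hθ
  have hζ := (P1.hζ.of_le hq P1.rad_le).map σ hσ hq
  have hω := (P1.hω.of_le hq P1.rad_le).map σ hσ hq
  have hmono : ∀ p q, sb P1.θ (PowerSeries.map σ (mono1 P1 m p q)) = z ^ (m - p - q) * w ^ q := by
    intro p q
    rw [mono1, map_mul, map_pow, map_pow, sb_mul hr hθ (hζ.pow hq rn_one _) (hω.pow hq rn_one _),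
      sb_pow hr hq hθ hζ, sb_pow hr hq hθ hω]
  have hbm : ∀ p q, Bd rn (B1 / |(a1 : ℝ)|) (PowerSeries.map σ (mono1 P1 m p q)) (B1 ^ q) :=
    fun p q => ((bd_mono1 h1 P1 m p q).of_le hq P1.rad_le).map σ hσ hq
  have hsum : sb P1.θ (PowerSeries.map σ (Ust P1 m T))
      = ∑ s, PowerSeries.C ((T s : ℤ) : ℝ) * (z ^ (m - s.2 - s.1) * w ^ (s.1 : ℕ)) := by
    rw [Ust, map_sum]
    rw [sb_sum hr hq hθ univ _ (fun s => rn ((T s : ℤ) : ℝ) * B1 ^ (s.1 : ℕ))]
    · apply Finset.sum_congr rfl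
      intro s _
      rw [map_mul, PowerSeries.map_C, map_intCast, sb_mul hr hθ (Bd.C hq _) (hbm _ _), sb_C, hmono]
    · intro s _
      rw [map_mul, PowerSeries.map_C, map_intCast]
      exact (Bd.C hq _).mul hq (hbm _ _)
  rw [hsum, ev_boxPoly, Finset.mul_sum]
  apply Finset.sum_congr rfl
  intro s _
  have h3 : (s.2 : ℕ) + (s.1 : ℕ) ≤ m := by
    have := s.1.2; have := s.2.2; omega
  obtain ⟨e, he⟩ : ∃ e, m = s.2 + s.1 + e := ⟨m - (s.2 + s.1), by omega⟩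
  have h4 : m - s.2 - s.1 = e := by omega
  rw [h4, he]
  have h5 : x ^ ((s.2 : ℕ) + s.1 + e) * z ^ e = x ^ ((s.2 : ℕ) + s.1) := by
    rw [pow_add x _ e, mul_assoc, ← mul_pow, hxz, one_pow, mul_one]
  have h6 : ((T s : ℤ) : PowerSeries ℝ) = PowerSeries.C ((T s : ℤ) : ℝ) := by
    rw [map_intCast]
  rw [h6]
  calc PowerSeries.C ((T s : ℤ) : ℝ) * x ^ (s.2 : ℕ) * (x * w) ^ (s.1 : ℕ)
      = PowerSeries.C ((T s : ℤ) : ℝ) * (x ^ ((s.2 : ℕ) + s.1)) * w ^ (s.1 : ℕ) := by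
        rw [mul_pow, pow_add]; ring
    _ = PowerSeries.C ((T s : ℤ) : ℝ) * (x ^ ((s.2 : ℕ) + s.1 + e) * z ^ e) * w ^ (s.1 : ℕ) := by
        rw [h5]
    _ = _ := by ring

/-- values of the six conic monomials at the second point -/
lemma conic_val (h1 : N 1 ≤ 1) (hσ : ∀ x, |σ x| ≤ N x) (P2 : BP N σ d B2 F2 a2 b2) (μ : Fin 6) :
    ((a2 ^ (mp μ) * b2 ^ (mq μ) : ℤ) : ℝ) = (a2 : ℝ) ^ 2 *
      PowerSeries.constantCoeff (sb P2.θ (PowerSeries.map σ
        (P2.ζ ^ (2 - mp μ - mq μ) * P2.ω ^ (mq μ)))) := by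
  have hr := P2.r_pos
  have hq := P2.q_nonneg
  have hθ := P2.hθ
  have hζ := (P2.hζ.of_le hq P2.rad_le).map σ hσ hq
  have hω := (P2.hω.of_le hq P2.rad_le).map σ hσ hq
  have hx := congrArg PowerSeries.constantCoeff P2.hx
  have hy := P2.hy
  rw [map_mul] at hx hy
  have hc : PowerSeries.constantCoeff (PowerSeries.C (a2 : ℝ) + PowerSeries.X : PowerSeries ℝ)
      = (a2 : ℝ) := by simp
  rw [hc] at hx hy
  rw [map_one] at hx
  rw [map_mul, map_pow, map_pow, sb_mul hr hθ (hζ.pow hq rn_one _) (hω.pow hq rn_one _),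
      sb_pow hr hq hθ hζ, sb_pow hr hq hθ hω, map_mul, map_pow, map_pow]
  set z := PowerSeries.constantCoeff (sb P2.θ (PowerSeries.map σ P2.ζ)) with hz
  set w := PowerSeries.constantCoeff (sb P2.θ (PowerSeries.map σ P2.ω)) with hw
  have h2 := mpq_le μ
  obtain ⟨e, he⟩ : ∃ e, 2 = mp μ + mq μ + e := ⟨2 - (mp μ + mq μ), by omega⟩
  have h3 : 2 - mp μ - mq μ = e := by omega
  rw [h3]
  conv_rhs => rw [he]
  push_cast
  rw [← hy, pow_add, mul_pow]
  calc (a2 : ℝ) ^ (mp μ) * ((a2 : ℝ) ^ (mq μ) * w ^ (mq μ))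
      = (a2 : ℝ) ^ (mp μ) * ((a2 : ℝ) ^ (mq μ) * w ^ (mq μ)) * ((a2 : ℝ) * z) ^ e := by
        rw [hx, one_pow, mul_one]
    _ = _ := by rw [mul_pow, pow_add]; ring

end Main

end Pool.Agent.H322R2
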