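import Pool.Agent.H322R2.Core4

/-!
Combination: the basic inequality of the two-point argument.
-/

open Polynomial Finset

namespace Pool.Agent.H322R2

lemma key_pow (X Y : ℝ) (hX : 1 ≤ X) (t j : ℕ) (hj : j < 5) (hY1 : X ^ (10 * t) ≤ Y)
    (hY2 : Y ≤ X ^ (10 * (t + 1))) :
    Y ^ 2 * X ^ (20 * t) * X ^ (2 * t) ≤ X ^ 20 * (Y ^ j * X ^ (nj t j)) := by
  have hX0 : 0 < X := by linarith
  have hY0 : 0 < Y := lt_of_lt_of_le (by positivity) hY1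
  have h1 : Y ^ 2 ≤ X ^ (20 * t + 20) := by
    calc Y ^ 2 ≤ (X ^ (10 * (t + 1))) ^ 2 := pow_le_pow_left₀ hY0.le hY2 2
      _ = X ^ (20 * t + 20) := by rw [← pow_mul]; congr 1; ring
  have h2 : X ^ (10 * j * t) ≤ Y ^ j := by
    calc X ^ (10 * j * t) = (X ^ (10 * t)) ^ j := by rw [← pow_mul]; congr 1; ring
      _ ≤ Y ^ j := pow_le_pow_left₀ (by positivity) hY1 j
  have h3 : 10 * j * t + nj t j = 42 * t := by
    unfold nj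
    rw [← add_mul]
    congr 1
    omega
  calc Y ^ 2 * X ^ (20 * t) * X ^ (2 * t) ≤ X ^ (20 * t + 20) * X ^ (20 * t) * X ^ (2 * t) := by
        gcongr
    _ = X ^ 20 * (X ^ (42 * t)) := by rw [← pow_add, ← pow_add, ← pow_add]; congr 1; ring
    _ = X ^ 20 * (X ^ (10 * j * t) * X ^ (nj t j)) := by rw [← pow_add _ (10 * j * t), h3]
    _ ≤ _ := by gcongr

lemma key_pow5 (X Y : ℝ) (hX : 1 ≤ X) (t : ℕ) (hY1 : X ^ (10 * t) ≤ Y)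
    (hY2 : Y ≤ X ^ (10 * (t + 1))) :
    Y ^ 2 * X ^ (20 * t) * X ^ (2 * t) ≤ X ^ 20 * Y ^ 5 := by
  have hX0 : 0 < X := by linarith
  have hY0 : 0 < Y := lt_of_lt_of_le (by positivity) hY1
  have h1 : Y ^ 2 ≤ X ^ (20 * t + 20) := by
    calc Y ^ 2 ≤ (X ^ (10 * (t + 1))) ^ 2 := pow_le_pow_left₀ hY0.le hY2 2
      _ = X ^ (20 * t + 20) := by rw [← pow_mul]; congr 1; ring
  calc Y ^ 2 * X ^ (20 * t) * X ^ (2 * t) ≤ X ^ (20 * t + 20) * X ^ (20 * t) * X ^ (2 * t) := by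
        gcongr
    _ = X ^ 20 * (X ^ (42 * t)) := by rw [← pow_add, ← pow_add, ← pow_add]; congr 1; ring
    _ ≤ X ^ 20 * (X ^ (50 * t)) := by
        apply mul_le_mul_of_nonneg_left _ (by positivity)
        exact pow_le_pow_right₀ hX (by omega)
    _ = X ^ 20 * ((X ^ (10 * t)) ^ 5) := by rw [← pow_mul]; congr 2; ring
    _ ≤ _ := by gcongr

lemma final_bound (X Y B1 B2 bU : ℝ) (hX : 4 ≤ X) (hB1 : 2 ≤ B1) (hB2 : 2 ≤ B2)
    (hbU : 0 ≤ bU) (t o : ℕ) (hY1 : X ^ (10 * t) ≤ Y)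
    (hY2 : Y ≤ X ^ (10 * (t + 1))) :
    (Y ^ 2 * ((2 * X) ^ (20 * t) *
      ((∑ j ∈ range 5, (B2 / Y) ^ j * ((B1 ^ 2 / X) ^ (nj t j) * (6 * B2 ^ 6 * bU)))
      + 6 * ((B2 ^ 2 / Y) ^ 5 * B2 ^ 2) * bU) / (X / 2) ^ o)) * X ^ (2 * t)
    ≤ X ^ 20 * 2 ^ (20 * t) * (36 * B2 ^ 12 * B1 ^ (84 * t) * bU) := by
  have hX0 : 0 < X := by linarith
  have hX1 : 1 ≤ X := by linarith
  have hY0 : 0 < Y := lt_of_lt_of_le (by positivity) hY1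
  have hB10 : 0 < B1 := by linarith
  have hB20 : 0 < B2 := by linarith
  have hB11 : 1 ≤ B1 := by linarith
  have hB21 : 1 ≤ B2 := by linarith
  have ho : 1 ≤ (X / 2) ^ o := one_le_pow₀ (by linarith)
  have hterm : ∀ j ∈ range 5, Y ^ 2 * X ^ (20 * t) * X ^ (2 * t) *
      ((B2 / Y) ^ j * ((B1 ^ 2 / X) ^ (nj t j) * (6 * B2 ^ 6 * bU)))
      ≤ X ^ 20 * (6 * B2 ^ 12 * B1 ^ (84 * t) * bU) := by
    intro j hj
    rw [Finset.mem_range] at hj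
    have h1 := key_pow X Y hX1 t j hj hY1 hY2
    have h2 : (B2 / Y) ^ j * ((B1 ^ 2 / X) ^ (nj t j) * (6 * B2 ^ 6 * bU))
        = (B2 ^ j * (B1 ^ 2) ^ (nj t j) * (6 * B2 ^ 6 * bU)) / (Y ^ j * X ^ (nj t j)) := by
      rw [div_pow, div_pow]; field_simp
    rw [h2, ← mul_div_assoc, div_le_iff₀ (by positivity)]
    have h3 : B2 ^ j * (B1 ^ 2) ^ (nj t j) * (6 * B2 ^ 6 * bU)
        ≤ 6 * B2 ^ 12 * B1 ^ (84 * t) * bU := by
      have e1 : B2 ^ j * B2 ^ 6 ≤ B2 ^ 12 := by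
        rw [← pow_add]; exact pow_le_pow_right₀ hB21 (by omega)
      have e2 : (B1 ^ 2) ^ (nj t j) ≤ B1 ^ (84 * t) := by
        rw [← pow_mul]
        apply pow_le_pow_right₀ hB11
        unfold nj
        have : (42 - 10 * j) * t ≤ 42 * t := Nat.mul_le_mul_right _ (by omega)
        omega
      calc B2 ^ j * (B1 ^ 2) ^ (nj t j) * (6 * B2 ^ 6 * bU)
          = (6 * bU) * ((B2 ^ j * B2 ^ 6) * (B1 ^ 2) ^ (nj t j)) := by ring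
        _ ≤ (6 * bU) * (B2 ^ 12 * B1 ^ (84 * t)) := by gcongr
        _ = _ := by ring
    calc Y ^ 2 * X ^ (20 * t) * X ^ (2 * t) * (B2 ^ j * (B1 ^ 2) ^ (nj t j) * (6 * B2 ^ 6 * bU))
        ≤ (X ^ 20 * (Y ^ j * X ^ (nj t j))) * (6 * B2 ^ 12 * B1 ^ (84 * t) * bU) := by
          apply mul_le_mul h1 h3 (by positivity) (by positivity)
      _ = _ := by ring
  have hterm5 : Y ^ 2 * X ^ (20 * t) * X ^ (2 * t) * (6 * ((B2 ^ 2 / Y) ^ 5 * B2 ^ 2) * bU)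
      ≤ X ^ 20 * (6 * B2 ^ 12 * B1 ^ (84 * t) * bU) := by
    have h1 := key_pow5 X Y hX1 t hY1 hY2
    have h2 : 6 * ((B2 ^ 2 / Y) ^ 5 * B2 ^ 2) * bU = (6 * B2 ^ 12 * bU) / Y ^ 5 := by
      rw [div_pow]; field_simp
    rw [h2, ← mul_div_assoc, div_le_iff₀ (by positivity)]
    have h3 : 1 ≤ B1 ^ (84 * t) := one_le_pow₀ hB11
    calc Y ^ 2 * X ^ (20 * t) * X ^ (2 * t) * (6 * B2 ^ 12 * bU)
        ≤ (X ^ 20 * Y ^ 5) * (6 * B2 ^ 12 * bU) := by gcongr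
      _ = (X ^ 20 * Y ^ 5) * ((6 * B2 ^ 12 * bU) * 1) := by ring
      _ ≤ (X ^ 20 * Y ^ 5) * ((6 * B2 ^ 12 * bU) * B1 ^ (84 * t)) := by gcongr
      _ = _ := by ring
  set S := (∑ j ∈ range 5, (B2 / Y) ^ j * ((B1 ^ 2 / X) ^ (nj t j) * (6 * B2 ^ 6 * bU)))
      + 6 * ((B2 ^ 2 / Y) ^ 5 * B2 ^ 2) * bU with hS
  have hS0 : 0 ≤ S := by positivity
  have h4 : Y ^ 2 * X ^ (20 * t) * X ^ (2 * t) * S ≤ X ^ 20 * (36 * B2 ^ 12 * B1 ^ (84 * t) * bU) := by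
    rw [hS, mul_add, Finset.mul_sum]
    have h5 := Finset.sum_le_sum hterm
    rw [Finset.sum_const, Finset.card_range, nsmul_eq_mul] at h5
    calc _ ≤ (5 : ℕ) * (X ^ 20 * (6 * B2 ^ 12 * B1 ^ (84 * t) * bU))
          + X ^ 20 * (6 * B2 ^ 12 * B1 ^ (84 * t) * bU) := add_le_add h5 hterm5
      _ = _ := by push_cast; ring
  calc (Y ^ 2 * ((2 * X) ^ (20 * t) * S / (X / 2) ^ o)) * X ^ (2 * t)
      ≤ (Y ^ 2 * ((2 * X) ^ (20 * t) * S)) * X ^ (2 * t) := by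
        apply mul_le_mul_of_nonneg_right _ (by positivity)
        apply mul_le_mul_of_nonneg_left _ (by positivity)
        exact div_le_self (by positivity) ho
    _ = 2 ^ (20 * t) * (Y ^ 2 * X ^ (20 * t) * X ^ (2 * t) * S) := by rw [mul_pow]; ring
    _ ≤ 2 ^ (20 * t) * (X ^ 20 * (36 * B2 ^ 12 * B1 ^ (84 * t) * bU)) := by gcongr
    _ = _ := by ring

/-- height bound of the auxiliary polynomial -/
noncomputable def Hh (k t : ℕ) (C0 B1 B2 : ℝ) : ℝ :=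
  ((6 * (k * (20 * t - k) : ℕ) : ℝ) * (C0 * (B2 ^ 6 * B1 ^ (k + 42 * t)))) ^ 13

lemma one_le_Hh (k t : ℕ) (C0 B1 B2 : ℝ) (hk : 0 < k) (ht : 4 * k ≤ t) (hC0 : 1 ≤ C0)
    (hB1 : 1 ≤ B1) (hB2 : 1 ≤ B2) : 1 ≤ Hh k t C0 B1 B2 := by
  unfold Hh
  apply one_le_pow₀
  have h1 : (1 : ℝ) ≤ ((k * (20 * t - k) : ℕ) : ℝ) := by
    have : 0 < k * (20 * t - k) := Nat.mul_pos hk (by omega)
    exact_mod_cast this
  have h2 : 1 ≤ B2 ^ 6 := one_le_pow₀ hB2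
  have h3 : 1 ≤ B1 ^ (k + 42 * t) := one_le_pow₀ hB1
  have h4 : 1 ≤ B2 ^ 6 * B1 ^ (k + 42 * t) := by nlinarith
  have h5 : 1 ≤ C0 * (B2 ^ 6 * B1 ^ (k + 42 * t)) := by nlinarith
  nlinarith

section Main

variable {A : Type*} [CommRing A] {N : RingSeminorm A} {σ : A →+* ℝ} {d : ℕ} {B1 B2 : ℝ}
    {F1 F2 : ℤ[X][X]} {a1 b1 a2 b2 : ℤ}

theorem core_ineq (h1 : N 1 ≤ 1) (hσ : ∀ x, |σ x| ≤ N x)
    {ι : Type*} [Fintype ι] (bas : Module.Basis ι ℤ A)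
    (C0 : ℝ) (hC0 : 1 ≤ C0) (hcoord : ∀ x i, |(bas.repr x i : ℝ)| ≤ C0 * N x)
    (P1 : BP N σ d B1 F1 a1 b1) (P2 : BP N σ d B2 F2 a2 b2)
    (hd : 3 ≤ d) (hm1 : F1.Monic) (hFd1 : F1.natDegree = d) (hF1 : Prime F1)
    (hFx1 : ∀ j, (F1.coeff j).natDegree ≤ d)
    (hm2 : F2.Monic) (hFd2 : F2.natDegree = d) (hF2 : Prime F2)
    (k : ℕ) (hk : 0 < k) (hkd : k ≤ d) (hkι : Fintype.card ι = k) (t : ℕ) (ht : 4 * k ≤ t)
    (hY1 : |(a1 : ℝ)| ^ (10 * t) ≤ |(a2 : ℝ)|) (hY2 : |(a2 : ℝ)| ≤ |(a1 : ℝ)| ^ (10 * (t + 1)))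
    (hsmall : d.factorial * (6 * Hh k t C0 B1 B2 * (1 + B2) ^ 2) ^ d < |(a2 : ℝ)|) :
    ∃ o : ℕ,
      |(a1 : ℝ)| ^ o ≤ |(a1 : ℝ)| ^ (6 ^ d) * (((6 ^ d).factorial : ℕ) *
          (((d * ((20 * t - k) + d * k) : ℕ) : ℝ) ^ (6 ^ d) *
            (d.factorial * ((k * (20 * t - k : ℕ) * Hh k t C0 B1 B2) * (1 + B1) ^ k) ^ d))
              ^ (6 ^ d)) ∧
      |(a1 : ℝ)| ^ (2 * t) ≤ |(a1 : ℝ)| ^ (2 * d * o) * (|(a1 : ℝ)| ^ 20 * 2 ^ (20 * t) *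
        (36 * B2 ^ 12 * B1 ^ (84 * t) *
          (k * (20 * t - k : ℕ) * (Hh k t C0 B1 B2 * B1 ^ k)))) := by
  have hB1 := P1.hB
  have hB2 := P2.hB
  obtain ⟨T, hT0, hT, hTH⟩ := exists_aux h1 bas C0 hC0 hcoord P1 P2 k hk hkι t ht
  have hHh1 := one_le_Hh k t C0 B1 B2 hk ht hC0 (by linarith) (by linarith)
  have hTH' : ∀ μ s, |(T μ s : ℝ)| ≤ Hh k t C0 B1 B2 := hTH
  have hn : 0 < 20 * t - k := by omega
  -- nonvanishing of V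
  have hV : ∑ μ, C (C (a2 ^ (mp μ) * b2 ^ (mq μ))) * boxPoly (T μ) ≠ 0 := by
    intro h0
    obtain ⟨μ0, hμ0⟩ : ∃ μ, T μ ≠ 0 := by
      by_contra hcon
      push_neg at hcon
      exact hT0 (funext hcon)
    obtain ⟨s0, hs0⟩ : ∃ s, T μ0 s ≠ 0 := by
      by_contra hcon
      push_neg at hcon
      exact hμ0 (funext hcon)
    have hG : ev a2 b2 (conic (fun μ => T μ s0)) = 0 := by
      rw [ev_conic]
      have h2 := congrArg (fun p : ℤ[X][X] => (p.coeff (s0.1 : ℕ)).coeff (s0.2 : ℕ)) h0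
      simp only [finsetSum_coeff, coeff_zero] at h2
      rw [← h2]
      apply Finset.sum_congr rfl
      intro μ _
      rw [coeff_C_mul, coeff_C_mul, coeff_boxPoly]
      simp only [Int.cast_id]
      ring
    have h3 := small_conic F2 d hd hm2 hFd2 hF2 a2 b2 P2.a_ne P2.hev (fun μ => T μ s0) μ0 hs0 hG
      (Hh k t C0 B1 B2) (fun μ => hTH' μ s0)
    have h4 : (d.factorial : ℝ) * (6 * Hh k t C0 B1 B2 * (1 + pn (pn zn) F2) ^ 2) ^ d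
        ≤ d.factorial * (6 * Hh k t C0 B1 B2 * (1 + B2) ^ 2) ^ d := by
      have h5 := P2.hFn
      have h6 : 0 ≤ pn (pn zn) F2 := apply_nonneg _ _
      gcongr
    linarith
  have hbU : 1 ≤ (k * (20 * t - k : ℕ) * Hh k t C0 B1 B2 : ℝ) := by
    have h2 : (1 : ℝ) ≤ (k : ℝ) * ((20 * t - k : ℕ) : ℝ) := by
      have : 0 < k * (20 * t - k) := Nat.mul_pos hk (by omega)
      exact_mod_cast this
    nlinarith
  obtain ⟨Y, hXY, hFY, o, ho, hineq⟩ := arith_part F1 d k (20 * t - k) (by omega) hm1 hFd1 hF1 hFx1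
    a1 b1 P1.a_ne P1.hev P1.hD hk hkd hn T (fun μ => a2 ^ (mp μ) * b2 ^ (mq μ))
    (k * (20 * t - k : ℕ) * Hh k t C0 B1 B2) hbU (fun μ => pn_boxPoly_le _ _ (hTH' μ)) hV
  refine ⟨o, ?_, ?_⟩
  · refine hineq.trans ?_
    have h5 := P1.hFn
    have h6 : 0 ≤ pn (pn zn) F1 := apply_nonneg _ _
    gcongr
  · have hlink := link_coeff F1 (∑ μ, C (C (a2 ^ (mp μ) * b2 ^ (mq μ))) * boxPoly (T μ)) a1 b1 _ rfl
      P1.hD Y hXY hFY _ P1.hy P1.hF o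
    have hana := analytic_part h1 hσ P1 P2 k t (20 * t - k) (by omega) T hT
      (Hh k t C0 B1 B2) (by linarith) hTH' o
    have hone : (1 : ℝ) ≤ |((PowerSeries.coeff o
        (ev (PowerSeries.C a1 + PowerSeries.C ((ev a1 b1 (derivative F1)) ^ 2) * PowerSeries.X)
        (PowerSeries.C b1 + PowerSeries.C (ev a1 b1 (derivative F1)) * Y)
        (∑ μ, C (C (a2 ^ (mp μ) * b2 ^ (mq μ))) * boxPoly (T μ))) : ℤ) : ℝ)| := by
      have := Int.one_le_abs ho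
      exact_mod_cast this
    rw [hlink, abs_mul] at hone
    have hD2 : |(((ev a1 b1 (derivative F1) : ℤ) : ℝ) ^ 2) ^ o| ≤ |(a1 : ℝ)| ^ (2 * d * o) := by
      rw [← pow_mul, abs_pow]
      calc |((ev a1 b1 (derivative F1) : ℤ) : ℝ)| ^ (2 * o) ≤ (|(a1 : ℝ)| ^ d) ^ (2 * o) :=
            pow_le_pow_left₀ (abs_nonneg _) P1.hDle _
        _ = _ := by rw [← pow_mul]; congr 1; ring
    have hX : 4 ≤ |(a1 : ℝ)| := P1.a_ge
    have hbU' : (0 : ℝ) ≤ (k * (20 * t - k : ℕ) * (Hh k t C0 B1 B2 * B1 ^ k)) := by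
      have : 0 ≤ B1 := by linarith
      have : 0 ≤ Hh k t C0 B1 B2 := by linarith
      positivity
    have hfb := final_bound |(a1 : ℝ)| |(a2 : ℝ)| B1 B2 _ hX hB1 hB2 hbU' t o hY1 hY2
    set G := |PowerSeries.coeff o (ev (PowerSeries.C (a1 : ℝ) + PowerSeries.X)
      ((PowerSeries.C (a1 : ℝ) + PowerSeries.X) * sb P1.θ (PowerSeries.map σ P1.ω))
      (∑ μ, C (C (a2 ^ (mp μ) * b2 ^ (mq μ))) * boxPoly (T μ)))| with hG
    have h7 : (1 : ℝ) ≤ |(a1 : ℝ)| ^ (2 * d * o) * G :=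
      hone.trans (mul_le_mul_of_nonneg_right hD2 (abs_nonneg _))
    have hX0 : 0 < |(a1 : ℝ)| := by linarith
    calc |(a1 : ℝ)| ^ (2 * t) = 1 * |(a1 : ℝ)| ^ (2 * t) := by ring
      _ ≤ (|(a1 : ℝ)| ^ (2 * d * o) * G) * |(a1 : ℝ)| ^ (2 * t) := by gcongr
      _ = |(a1 : ℝ)| ^ (2 * d * o) * (G * |(a1 : ℝ)| ^ (2 * t)) := by ring
      _ ≤ |(a1 : ℝ)| ^ (2 * d * o) * (|(a1 : ℝ)| ^ 20 * 2 ^ (20 * t) *
        (36 * B2 ^ 12 * B1 ^ (84 * t) *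
          (k * (20 * t - k : ℕ) * (Hh k t C0 B1 B2 * B1 ^ k)))) := by
        apply mul_le_mul_of_nonneg_left _ (by positivity)
        exact (mul_le_mul_of_nonneg_right hana (by positivity)).trans hfb

end Main

end Pool.Agent.H322R2
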