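import Pool.Agent.H322R2.Win3

/-!
Counting integer points close to a smooth branch in a long range.
-/

open Finset

namespace Pool.Agent.H322R2

lemma NA.mono {η A A' B B' : ℝ} (h : NA η A B) (hA : A' ≤ A) (hB : B' ≤ B) : NA η A' B' := by
  intro p q r h0 h1 h2 h3
  exact lt_of_le_of_lt hB (h p q r h0 (h1.trans hA) (h2.trans hA) (h3.trans hA))

section

variable {η β γ κ Q Z X : ℝ} (hQ : 2 ≤ Q) (hZ : 1 ≤ Z) (hX : 2 * Q < X)
  (hη : |η| ≤ Q) (hβ : |β| ≤ Q) (hγ1 : |γ| ≤ Q) (hκ : |κ| ≤ Q) (hγ : 1 / Q ≤ |γ|)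

include hQ hX in
lemma b_unique {a b b' : ℤ} (ha : X ≤ |(a : ℝ)|) (h : Nr η β γ κ Q a b) (h' : Nr η β γ κ Q a b') :
    b = b' := by
  have hX1 : 1 ≤ X := by linarith
  have hX0 : 0 < X := by linarith
  have ha0 : 0 < |(a : ℝ)| := by linarith
  have h1 : Q / |(a : ℝ)| ^ 3 < 1 / 2 := by
    rw [div_lt_div_iff₀ (by positivity) (by norm_num)]
    have h2 : X ≤ |(a : ℝ)| ^ 3 := by
      calc X = X ^ 1 := (pow_one _).symm
        _ ≤ X ^ 3 := pow_le_pow_right₀ hX1 (by norm_num)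
        _ ≤ |(a : ℝ)| ^ 3 := pow_le_pow_left₀ hX0.le ha 3
    linarith
  have h3 : |((b : ℝ) - b')| < 1 := by
    have h4 : (b : ℝ) - b' = ((b : ℝ) - η * a - β - γ / a - κ / (a : ℝ) ^ 2)
        - ((b' : ℝ) - η * a - β - γ / a - κ / (a : ℝ) ^ 2) := by ring
    rw [h4]
    have h5 := abs_sub ((b : ℝ) - η * a - β - γ / a - κ / (a : ℝ) ^ 2)
      ((b' : ℝ) - η * a - β - γ / a - κ / (a : ℝ) ^ 2)
    have h6 : |(b : ℝ) - η * a - β - γ / a - κ / (a : ℝ) ^ 2| ≤ Q / |(a : ℝ)| ^ 3 := h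
    have h7 : |(b' : ℝ) - η * a - β - γ / a - κ / (a : ℝ) ^ 2| ≤ Q / |(a : ℝ)| ^ 3 := h'
    linarith
  have h8 : |b - b'| < 1 := by exact_mod_cast h3
  have h9 := abs_nonneg (b - b')
  have h10 : |b - b'| = 0 := by omega
  have h11 := abs_eq_zero.1 h10
  omega

include hQ hZ hX hη hβ hγ1 hκ hγ in
lemma window_card (hNA : NA η ((Q * Z) ^ 25) ((Q * Z) ^ 33 / X)) (T : Finset (ℤ × ℤ))
    (ha : ∀ P ∈ T, X ≤ |(P.1 : ℝ)| ∧ |(P.1 : ℝ)| ≤ X * Z)
    (hn : ∀ P ∈ T, Nr η β γ κ Q P.1 P.2) : T.card ≤ 4 := by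
  by_contra hcon
  push_neg at hcon
  have h1 : Fintype.card (Fin 5) ≤ Fintype.card T := by
    rw [Fintype.card_fin, Fintype.card_coe]; omega
  obtain ⟨e⟩ := Function.Embedding.nonempty_of_card_le h1
  apply window (a := fun i => (e i).1.1) (b := fun i => (e i).1.2) hQ hZ (by linarith) hη hβ hγ1 hκ
    hγ hNA
  · intro i j hij
    apply e.injective
    apply Subtype.ext
    apply Prod.ext
    · exact hij
    · simp only at hij
      have h2 := hn _ (e i).2
      have h3 := hn _ (e j).2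
      rw [← hij] at h3
      exact b_unique hQ hX (ha _ (e i).2).1 h2 h3
  · intro i; exact ha _ (e i).2
  · intro i; exact hn _ (e i).2

include hQ hZ hX hη hβ hγ1 hκ hγ in
lemma count_card (hNA : NA η ((Q * Z) ^ 25) ((Q * Z) ^ 33 / X)) (n : ℕ) (T : Finset (ℤ × ℤ))
    (ha : ∀ P ∈ T, X ≤ |(P.1 : ℝ)| ∧ |(P.1 : ℝ)| ≤ X * Z ^ (n + 1))
    (hn : ∀ P ∈ T, Nr η β γ κ Q P.1 P.2) : T.card ≤ 4 * (n + 1) := by
  classical
  induction n generalizing T with
  | zero =>
    have := window_card hQ hZ hX hη hβ hγ1 hκ hγ hNA T (by simpa using ha) hn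
    omega
  | succ n ih =>
    have hsplit := Finset.card_filter_add_card_filter_not (s := T)
      (fun P : ℤ × ℤ => |(P.1 : ℝ)| ≤ X * Z ^ (n + 1))
    have h1 := ih (T.filter fun P : ℤ × ℤ => |(P.1 : ℝ)| ≤ X * Z ^ (n + 1))
      (by
        intro P hP
        rw [Finset.mem_filter] at hP
        exact ⟨(ha P hP.1).1, hP.2⟩)
      (by
        intro P hP
        rw [Finset.mem_filter] at hP
        exact hn P hP.1)
    have hXX : X ≤ X * Z ^ (n + 1) := by
      apply le_mul_of_one_le_right (by linarith) (one_le_pow₀ hZ)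
    have h2 := window_card (X := X * Z ^ (n + 1)) hQ hZ (by linarith) hη hβ hγ1 hκ hγ
      (hNA.mono le_rfl (div_le_div_of_nonneg_left (by positivity) (by linarith) hXX))
      (T.filter fun P : ℤ × ℤ => ¬ |(P.1 : ℝ)| ≤ X * Z ^ (n + 1))
      (by
        intro P hP
        rw [Finset.mem_filter] at hP
        refine ⟨(not_le.1 hP.2).le, ?_⟩
        have := (ha P hP.1).2
        rw [pow_succ] at this
        linarith)
      (by
        intro P hP
        rw [Finset.mem_filter] at hP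
        exact hn P hP.1)
    omega

end

end Pool.Agent.H322R2
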