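import Pool.Agent.H322R2.MonoC

/-!
Points close to a branch whose asymptote is a flex tangent: windows of collinear points.
-/

open Polynomial Finset

namespace Pool.Agent.H322R2

/-- collinear set -/
def Col (S : Finset (ℤ × ℤ)) : Prop :=
  ∀ P ∈ S, ∀ Q ∈ S, ∀ R ∈ S, (Q.1 - P.1) * (R.2 - P.2) - (R.1 - P.1) * (Q.2 - P.2) = 0

section

variable {η β Q2 Z X : ℝ} (hQ2 : 0 ≤ Q2) (hZ : 1 ≤ Z) (hX0 : 0 < X) (hX : 8 * Z * Q2 < X)

include hQ2 hZ hX0 hX in
lemma col_win (T : Finset (ℤ × ℤ)) (ha : ∀ P ∈ T, X ≤ |(P.1 : ℝ)| ∧ |(P.1 : ℝ)| ≤ X * Z)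
    (hn : ∀ P ∈ T, |(P.2 : ℝ) - η * P.1 - β| ≤ Q2 / (P.1 : ℝ) ^ 2) : Col T := by
  intro P hP Q hQ R hR
  have hv : ∀ P ∈ T, |(P.2 : ℝ) - η * P.1 - β| ≤ Q2 / X ^ 2 := by
    intro P hP
    refine (hn P hP).trans ?_
    apply div_le_div_of_nonneg_left hQ2 (by positivity)
    rw [← sq_abs (P.1 : ℝ)]
    exact pow_le_pow_left₀ hX0.le (ha P hP).1 2
  have hdiff : ∀ P ∈ T, ∀ Q ∈ T, |((Q.2 : ℝ) - η * Q.1 - β) - ((P.2 : ℝ) - η * P.1 - β)|
      ≤ 2 * (Q2 / X ^ 2) := by
    intro P hP Q hQ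
    refine (abs_sub _ _).trans ?_
    have := hv P hP
    have := hv Q hQ
    linarith
  have hda : ∀ P ∈ T, ∀ Q ∈ T, |(Q.1 : ℝ) - P.1| ≤ 2 * (X * Z) := by
    intro P hP Q hQ
    refine (abs_sub _ _).trans ?_
    have := (ha P hP).2
    have := (ha Q hQ).2
    linarith
  have hid : ((((Q.1 - P.1) * (R.2 - P.2) - (R.1 - P.1) * (Q.2 - P.2) : ℤ)) : ℝ)
      = ((Q.1 : ℝ) - P.1) * (((R.2 : ℝ) - η * R.1 - β) - ((P.2 : ℝ) - η * P.1 - β))
        - ((R.1 : ℝ) - P.1) * (((Q.2 : ℝ) - η * Q.1 - β) - ((P.2 : ℝ) - η * P.1 - β)) := by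
    push_cast; ring
  have hlt : |((((Q.1 - P.1) * (R.2 - P.2) - (R.1 - P.1) * (Q.2 - P.2) : ℤ)) : ℝ)| < 1 := by
    rw [hid]
    refine lt_of_le_of_lt (abs_sub _ _) ?_
    rw [abs_mul, abs_mul]
    have h1 : |(Q.1 : ℝ) - P.1| * |((R.2 : ℝ) - η * R.1 - β) - ((P.2 : ℝ) - η * P.1 - β)|
        ≤ 2 * (X * Z) * (2 * (Q2 / X ^ 2)) :=
      mul_le_mul (hda P hP Q hQ) (hdiff P hP R hR) (abs_nonneg _) (by positivity)
    have h2 : |(R.1 : ℝ) - P.1| * |((Q.2 : ℝ) - η * Q.1 - β) - ((P.2 : ℝ) - η * P.1 - β)|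
        ≤ 2 * (X * Z) * (2 * (Q2 / X ^ 2)) :=
      mul_le_mul (hda P hP R hR) (hdiff P hP Q hQ) (abs_nonneg _) (by positivity)
    have h3 : 2 * (X * Z) * (2 * (Q2 / X ^ 2)) + 2 * (X * Z) * (2 * (Q2 / X ^ 2))
        = 8 * Z * Q2 / X := by field_simp; ring
    have h4 : 8 * Z * Q2 / X < 1 := by rw [div_lt_one hX0]; exact hX
    linarith
  have h5 : |(Q.1 - P.1) * (R.2 - P.2) - (R.1 - P.1) * (Q.2 - P.2)| < 1 := by exact_mod_cast hlt
  exact Int.abs_lt_one_iff.1 h5

include hQ2 hZ hX0 hX in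
lemma col_wins (N n : ℕ) (T : Finset (ℤ × ℤ))
    (ha : ∀ P ∈ T, X ≤ |(P.1 : ℝ)| ∧ |(P.1 : ℝ)| ≤ X * Z ^ (n + 1))
    (hn : ∀ P ∈ T, |(P.2 : ℝ) - η * P.1 - β| ≤ Q2 / (P.1 : ℝ) ^ 2)
    (hN : ∀ S ⊆ T, Col S → S.card ≤ N) : T.card ≤ N * (n + 1) := by
  classical
  induction n generalizing T with
  | zero =>
    rw [zero_add, mul_one]
    apply hN T (Finset.Subset.refl _)
    exact col_win hQ2 hZ hX0 hX T (by simpa using ha) hn
  | succ n ih =>
    have hsplit := Finset.card_filter_add_card_filter_not (s := T)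
      (fun P : ℤ × ℤ => |(P.1 : ℝ)| ≤ X * Z ^ (n + 1))
    have h1 := ih (T.filter fun P : ℤ × ℤ => |(P.1 : ℝ)| ≤ X * Z ^ (n + 1))
      (by
        intro P hP
        rw [Finset.mem_filter] at hP
        exact ⟨(ha P hP.1).1, hP.2⟩)
      (by
        intro P hP
        rw [Finset.mem_filter] at hP
        exact hn P hP.1)
      (fun S hS => hN S (hS.trans (Finset.filter_subset _ _)))
    have hXX : X ≤ X * Z ^ (n + 1) := by
      apply le_mul_of_one_le_right hX0.le (one_le_pow₀ hZ)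
    have h2 : (T.filter fun P : ℤ × ℤ => ¬ |(P.1 : ℝ)| ≤ X * Z ^ (n + 1)).card ≤ N := by
      apply hN _ (Finset.filter_subset _ _)
      apply col_win (X := X * Z ^ (n + 1)) hQ2 hZ (by linarith) (by linarith)
      · intro P hP
        rw [Finset.mem_filter] at hP
        refine ⟨(not_le.1 hP.2).le, ?_⟩
        have := (ha P hP.1).2
        rw [pow_succ] at this
        linarith
      · intro P hP
        rw [Finset.mem_filter] at hP
        exact hn P hP.1
    have h3 : N * (n + 1 + 1) = N * (n + 1) + N := by ring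
    omega

end

theorem flex_root {d : ℕ} (hd : 4 ≤ d) {G : ℤ[X][X]} (hm : G.Monic) (hdeg : G.natDegree = d)
    (hT : TD d G) {H : ℝ} (hH : 1 ≤ H) (hG : pn (pn zn) G ≤ H)
    (hirr : Irreducible ((lead d G).map (Int.castRingHom ℚ))) (η : ℝ)
    (hη : evf η (lead d G) = 0) (hflex : evf η (gp d G) = 0) (N : ℕ) (T : Finset (ℤ × ℤ))
    (hN : ∀ S ⊆ T, Col S → S.card ≤ N)
    (hP : ∀ P ∈ T, (2 + 2 * H) ^ (E1 d) ≤ |(P.1 : ℝ)| ∧ |(P.2 : ℝ) / P.1 - η| ≤ cR d (2 * H) ∧
      ∃ R : ℤ[X][X], TD (d - 4) R ∧ pn (pn zn) R ≤ H ∧ Prime (G + R) ∧ ev P.1 P.2 (G + R) = 0) :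
    T.card ≤ N * (8 * kap d) := by
  rcases T.eq_empty_or_nonempty with hT0 | hT0
  · rw [hT0]; simp
  have hd0 : 0 < d := by omega
  obtain ⟨H', hH'⟩ : ∃ H', H' = 2 * H := ⟨_, rfl⟩
  have hH'2 : 2 ≤ H' := by linarith
  have hH'1 : 1 ≤ H' := by linarith
  obtain ⟨hgm, hgd⟩ := lead_monic hm hdeg
  obtain ⟨g, hg⟩ : ∃ g, g = lead d G := ⟨_, rfl⟩
  have hpg : pn zn (lead d G) ≤ H := (pn_lead_le hdeg.le).trans hG
  have hηH : |η| ≤ H := root_norm_le (lead d G) hgm H hH hpg η hη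
  have hgd' : (derivative (lead d G)).natDegree ≤ d := (natDegree_derivative_le _).trans (by omega)
  have hpd : pn zn (derivative (lead d G)) ≤ d * H' := by
    refine (pn_derivative_le zn _).trans ?_
    rw [hgd]
    exact mul_le_mul_of_nonneg_left (by linarith) (by positivity)
  have hdR : (4 : ℝ) ≤ d := by exact_mod_cast hd
  have hder0 : derivative (lead d G) ≠ 0 := by
    intro h
    have h1 := natDegree_eq_zero_of_derivative_eq_zero h
    omega
  have hder : 1 ≤ |evf η (derivative (lead d G))| * cD d H' :=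
    one_le_of_root (lead d G) d hd0 hgm hgd (derivative (lead d G))
      (nrm_ne_of_irr_deg hgm hgd hirr _ hder0 (by
        have := natDegree_derivative_le (lead d G); omega))
      (1 + H') (d * H') (by linarith) (by linarith) hpd (by nlinarith) hgd' η hη
      (by rw [Real.norm_eq_abs]; linarith)
  obtain ⟨D, hD⟩ : ∃ D, D = |evf η (derivative (lead d G))| := ⟨_, rfl⟩
  have hcD := one_le_cD hd0 hH'1
  have hcS := one_le_cS (d := d) hH'1
  have hD0 : 0 < |evf η (derivative (lead d G))| := by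
    by_contra hcon
    have : |evf η (derivative (lead d G))| = 0 := le_antisymm (not_lt.1 hcon) (abs_nonneg _)
    rw [this, zero_mul] at hder
    linarith
  have hS1 := one_le_cSS hd hH'1
  have hMS : H' * (1 + |η|) ^ d ≤ cSS d H' * |evf η (derivative (lead d G))| := by
    have h1 : H' * (1 + |η|) ^ d ≤ cS d H' := by
      unfold cS
      apply mul_le_mul_of_nonneg_left _ (by linarith)
      exact pow_le_pow_left₀ (by positivity) (by linarith) _
    refine h1.trans ?_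
    unfold cSS
    calc cS d H' = 1 * cS d H' := (one_mul _).symm
      _ ≤ (|evf η (derivative (lead d G))| * cD d H') * cS d H' :=
          mul_le_mul_of_nonneg_right hder (by linarith)
      _ = _ := by ring
  obtain ⟨K, hK⟩ : ∃ K, K = 2 + H' := ⟨_, rfl⟩
  have hKH : 2 + 2 * H = K := by rw [hK, hH']
  rw [hKH] at hP
  rw [← hH'] at hP
  have hK4 : 4 ≤ K := by linarith
  have hK1 : 1 ≤ K := by linarith
  obtain ⟨Q, hQ⟩ : ∃ Q, Q = K ^ (64 * d ^ 3) := ⟨_, rfl⟩
  have hd3 : 0 < 64 * d ^ 3 := by positivity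
  have hKQ : K ≤ Q := by
    rw [hQ]
    calc K = K ^ 1 := (pow_one _).symm
      _ ≤ _ := pow_le_pow_right₀ hK1 hd3
  have hQ2 : 2 ≤ Q := by linarith
  have hSK := cSS_le hd hH'1
  have hQle := cQ_le hd hH'1 hH'2
  rw [← hK] at hSK hQle
  rw [← hQ] at hQle
  -- bounds for the coefficients
  obtain ⟨hb, hgm1, hk⟩ := bgk_le (M := H') (by omega) hT (by linarith) hS1 hD0 hMS
  have hS5Q : 13 * cSS d H' ^ 5 ≤ Q := by
    refine le_trans ?_ hQle
    have h1 : cSS d H' ^ 5 ≤ (36 * cSS d H' ^ 5) ^ d := by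
      have h2 : 1 ≤ cSS d H' ^ 5 := one_le_pow₀ hS1
      calc cSS d H' ^ 5 ≤ 36 * cSS d H' ^ 5 := by linarith
        _ = (36 * cSS d H' ^ 5) ^ 1 := (pow_one _).symm
        _ ≤ _ := pow_le_pow_right₀ (by linarith) (by omega)
    have h3 : 13 * cSS d H' ^ 5 ≤ (36 * cSS d H' ^ 5) ^ d := by
      have h2 : 1 ≤ cSS d H' ^ 5 := one_le_pow₀ hS1
      calc 13 * cSS d H' ^ 5 ≤ 36 * cSS d H' ^ 5 := by linarith
        _ = (36 * cSS d H' ^ 5) ^ 1 := (pow_one _).symm
        _ ≤ _ := pow_le_pow_right₀ (by linarith) (by omega)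
    refine h3.trans ?_
    apply le_mul_of_one_le_left (by positivity)
    linarith
  have hS15 : cSS d H' ≤ cSS d H' ^ 5 := by
    calc cSS d H' = cSS d H' ^ 1 := (pow_one _).symm
      _ ≤ _ := pow_le_pow_right₀ hS1 (by norm_num)
  have hS35 : cSS d H' ^ 3 ≤ cSS d H' ^ 5 := pow_le_pow_right₀ hS1 (by norm_num)
  have hS50 : 0 < cSS d H' ^ 5 := by positivity
  have hbQ : |bet d G η| ≤ Q := by linarith
  have hgQ : |gam d G η| ≤ Q := by linarith
  have hkQ : |kpp d G η| ≤ Q := by linarith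
  have hηQ : |η| ≤ Q := by linarith
  have hgam : gam d G η = 0 := by
    have hgp := evf_gp (by omega) hT η (abs_pos.1 hD0)
    rw [hflex, eq_comm, neg_eq_zero] at hgp
    rcases mul_eq_zero.1 hgp with h | h
    · rcases mul_eq_zero.1 h with h | h
      · norm_num at h
      · exact absurd h (pow_ne_zero _ (abs_pos.1 hD0))
    · exact h
  -- the points
  have hPQ : ∀ P ∈ T, Nr η (bet d G η) (gam d G η) (kpp d G η) Q P.1 P.2 := by
    intro P hPT
    obtain ⟨h1, h2, R, hR1, hR2, hR3, hR4⟩ := hP P hPT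
    have hT' := TD_add hd hT hR1
    have hlead := lead_add_of_TD (G := G) hd hR1 0 (by omega)
    rw [Nat.sub_zero] at hlead
    have hpn' : pn (pn zn) (G + R) ≤ H' := (map_add_le_add _ _ _).trans (by linarith)
    have h3 := exp_lemma (M := H') (S := cSS d H') (G := G + R) (η := η) (by omega) hT' hpn' hS1
      (by rw [hlead]; exact hη) (by rw [hlead]; exact hD0) (by rw [hlead]; exact hMS) hR4
      (by
        refine le_trans ?_ h1
        have h4 : (d : ℝ) + 1 ≤ K ^ d := by rw [hK]; exact d1_le_pow hd0 hH'1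
        calc 34 * ((d : ℝ) + 1) * cSS d H' ^ 6 ≤ K ^ 3 * K ^ d * (K ^ (3 * d ^ 2 + 4 * d + 1)) ^ 6 := by
              apply mul_le_mul _ (pow_le_pow_left₀ (by linarith) hSK 6) (by positivity)
                (by positivity)
              apply mul_le_mul _ h4 (by positivity) (by positivity)
              calc (34 : ℝ) ≤ 4 ^ 3 := by norm_num
                _ ≤ K ^ 3 := pow_le_pow_left₀ (by norm_num) hK4 3
          _ = K ^ (3 + d + (3 * d ^ 2 + 4 * d + 1) * 6) := by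
              rw [← pow_mul, ← pow_add, ← pow_add]
          _ ≤ K ^ (E1 d) := by
              apply pow_le_pow_right₀ hK1
              unfold E1
              have h5 := one_le_kap d
              have h6 : 3 + d + (3 * d ^ 2 + 4 * d + 1) * 6 ≤ 64 * d ^ 5 := by
                have h7 : d ^ 2 ≤ d ^ 5 := Nat.pow_le_pow_right hd0 (by norm_num)
                have h8 : d ≤ d ^ 5 := Nat.le_self_pow (by norm_num) d
                omega
              calc _ ≤ 64 * d ^ 5 := h6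
                _ ≤ 1280 * d ^ 5 * 1 := by omega
                _ ≤ _ := Nat.mul_le_mul_left _ h5)
      (by
        refine h2.trans (le_of_eq ?_)
        unfold cR cSS
        congr 1; ring)
    rw [bet_add hd hT hR1, gam_add hd hT hR1, kpp_add hd hT hR1] at h3
    exact h3.mono hQle
  -- the smallest point
  obtain ⟨P0, hP0, hmin⟩ := Finset.exists_min_image T (fun P => |(P.1 : ℝ)|) hT0
  obtain ⟨X0, hX0⟩ : ∃ X0, X0 = |(P0.1 : ℝ)| := ⟨_, rfl⟩
  have hX0K : K ^ (E1 d) ≤ X0 := by rw [hX0]; exact (hP P0 hP0).1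
  have hX01 : 1 ≤ X0 := (one_le_pow₀ hK1).trans hX0K
  obtain ⟨e, he⟩ : ∃ e, e = 4 := ⟨_, rfl⟩
  have he0 : e ≠ 0 := by rw [he]; positivity
  obtain ⟨Z, hZ⟩ : ∃ Z : ℝ, Z = X0 ^ ((e : ℝ)⁻¹) := ⟨_, rfl⟩
  have hZ0 : 0 ≤ Z := by rw [hZ]; positivity
  have hZe : Z ^ e = X0 := by
    rw [hZ]
    exact Real.rpow_inv_natCast_pow (by linarith) he0
  have hQe : Q ^ e ≤ X0 := by
    refine le_trans ?_ hX0K
    rw [hQ, ← pow_mul]
    apply pow_le_pow_right₀ hK1
    unfold E1
    have h5 := one_le_kap d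
    calc 64 * d ^ 3 * e ≤ 1280 * d ^ 5 * 1 := by
          have : d ^ 3 ≤ d ^ 5 := Nat.pow_le_pow_right hd0 (by norm_num)
          rw [he]; omega
      _ ≤ _ := Nat.mul_le_mul_left _ h5
  have hQZ : Q ≤ Z := by
    rw [← hZe] at hQe
    exact le_of_pow_le_pow_left₀ he0 hZ0 hQe
  have hZ3 : 3 ≤ Z := by linarith
  have hZ1 : 1 ≤ Z := by linarith
  have hX0p : 0 < X0 := by linarith
  have hwin : 8 * Z * (2 * Q) < X0 := by
    have h1 : 16 < Z ^ 2 := by
      have h2 : K ^ 2 ≤ Q := by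
        rw [hQ]
        exact pow_le_pow_right₀ hK1 (by have : 0 < d ^ 3 := by positivity
                                        omega)
      have h3 : 16 ≤ K ^ 2 := by nlinarith
      nlinarith
    rw [← hZe, he]
    have h4 : Z ^ 4 = Z * (Z * Z ^ 2) := by ring
    rw [h4]
    have h5 : Q * 16 < Z * Z ^ 2 := by nlinarith
    nlinarith
  -- Thue's principle
  have hbB : bB d H' ≤ X0 ∧ bB d H' ^ (kap d) ≤ X0 := by
    have h5 := one_le_kap d
    have h6 : bB d H' ^ (kap d) ≤ X0 := by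
      refine le_trans ?_ hX0K
      unfold bB
      rw [← hK, ← pow_mul]
      apply pow_le_pow_right₀ hK1
      unfold E1
      apply Nat.mul_le_mul_right
      have : d ^ 2 ≤ d ^ 5 := Nat.pow_le_pow_right hd0 (by norm_num)
      omega
    have h7 : 1 ≤ bB d H' := one_le_pow₀ (by linarith)
    refine ⟨le_trans ?_ h6, h6⟩
    calc bB d H' = bB d H' ^ 1 := (pow_one _).symm
      _ ≤ _ := pow_le_pow_right₀ h7 h5
  have hgd0 : 0 < (lead d G).natDegree := by omega
  have hPt : ∀ P ∈ T, ∃ G' : ℤ[X][X], Pt (os hgm) (sR η hη) d G' H' (AdjoinRoot.root (lead d G))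
      P.1 P.2 := by
    intro P hPT
    obtain ⟨h1, h2, R, hR1, hR2, hR3, hR4⟩ := hP P hPT
    have hT' := TD_add hd hT hR1
    have hlead := lead_add_of_TD (G := G) hd hR1 0 (by omega)
    rw [Nat.sub_zero] at hlead
    have hpn' : pn (pn zn) (G + R) ≤ H' := (map_add_le_add _ _ _).trans (by linarith)
    have hRn : R.natDegree < G.natDegree := by have := hR1.1; omega
    have hdeg' : R.degree < G.degree := degree_lt_degree hRn
    refine ⟨G + R, ⟨hm.add_of_left hdeg', ?_, hR3, hT', hH'1, hpn', ?_, ?_, ?_, ?_, hR4,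
      by rw [sR_root]; exact h2⟩⟩
    · rw [natDegree_add_eq_left_of_natDegree_lt hRn, hdeg]
    · rw [hlead]; exact evf_root
    · exact (os_root hgm).trans (by linarith)
    · rw [sR_root]; linarith
    · rw [hlead, sR_root]; exact hder
  have hle : ∀ P ∈ T, |(P.1 : ℝ)| ≤ X0 * Z ^ (e * (2 * kap d)) := by
    intro P hPT
    obtain ⟨G1, hP1⟩ := hPt P0 hP0
    obtain ⟨G2, hP2⟩ := hPt P hPT
    have h1 := two_int (by omega) (os_one hgm) (abs_sR_le hgm hgd0 η hη)
      (AdjoinRoot.powerBasisAux' hgm) 1 (le_refl _) (abs_repr_le hgm hgd0)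
      (by rw [Fintype.card_fin]; exact hgd0) (by rw [Fintype.card_fin]; omega) hP1 hP2
      (by rw [← hX0]; exact hbB.2)
    rw [← hX0, mul_one] at h1
    refine h1.trans ?_
    rw [pow_mul, hZe]
    have h7 : 1 ≤ bB d H' := one_le_pow₀ (by linarith)
    calc (X0 * bB d H') ^ kap d ≤ (X0 ^ 2) ^ kap d := by
          apply pow_le_pow_left₀ (by positivity)
          rw [sq]; exact mul_le_mul_of_nonneg_left hbB.1 (by linarith)
      _ = X0 ^ (2 * kap d) := by rw [← pow_mul]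
      _ ≤ X0 * X0 ^ (2 * kap d) := le_mul_of_one_le_left (by positivity) hX01
  have hn : e * (2 * kap d) = (e * (2 * kap d) - 1) + 1 := by
    have h5 := one_le_kap d
    have : 0 < e * (2 * kap d) := Nat.mul_pos (Nat.pos_of_ne_zero he0) (by omega)
    omega
  have hfin := col_wins (η := η) (β := bet d G η) (Q2 := 2 * Q) (Z := Z) (X := X0) (by linarith) hZ1
    hX0p hwin N (e * (2 * kap d) - 1) T
    (by
      intro P hPT
      rw [← hn]
      refine ⟨?_, hle P hPT⟩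
      rw [hX0]; exact hmin P hPT)
    (by
      intro P hPT
      have h1 := hPQ P hPT
      unfold Nr at h1
      rw [hgam, zero_div, sub_zero] at h1
      have hXP : X0 ≤ |(P.1 : ℝ)| := by rw [hX0]; exact hmin P hPT
      have hP1 : 1 ≤ |(P.1 : ℝ)| := hX01.trans hXP
      have hP0 : 0 < |(P.1 : ℝ)| := by linarith
      have h2 : |kpp d G η / (P.1 : ℝ) ^ 2| ≤ Q / |(P.1 : ℝ)| ^ 2 := by
        rw [abs_div, abs_pow]
        exact div_le_div_of_nonneg_right hkQ (by positivity)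
      have h3 : Q / |(P.1 : ℝ)| ^ 3 ≤ Q / |(P.1 : ℝ)| ^ 2 := by
        apply div_le_div_of_nonneg_left (by linarith) (by positivity)
        exact pow_le_pow_right₀ hP1 (by norm_num)
      have h4 : (P.2 : ℝ) - η * P.1 - bet d G η
          = ((P.2 : ℝ) - η * P.1 - bet d G η - kpp d G η / (P.1 : ℝ) ^ 2)
            + kpp d G η / (P.1 : ℝ) ^ 2 := by ring
      rw [h4]
      refine (abs_add_le _ _).trans ?_
      have h5 : 2 * Q / (P.1 : ℝ) ^ 2 = Q / |(P.1 : ℝ)| ^ 2 + Q / |(P.1 : ℝ)| ^ 2 := by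
        rw [sq_abs]; ring
      rw [h5]
      linarith) hN
  rw [← hn] at hfin
  refine hfin.trans (le_of_eq ?_)
  rw [he]; ring

end Pool.Agent.H322R2
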