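import Pool.Agent.H322R2.Red2

/-!
Reduction of a general plane curve to a monic one: normalisation.
-/

open Polynomial Finset

namespace Pool.Agent.H322R2

lemma sqf_of_equiv {R S : Type*} [CommRing R] [CommRing S] (e : R ≃+* S) {x : R}
    (h : Squarefree (e x)) : Squarefree x := by
  intro y hy
  have h1 : e y * e y ∣ e x := by
    rw [← map_mul]; exact map_dvd e hy
  have h2 := h (e y) h1
  exact (MulEquiv.isUnit_map e).1 h2

lemma iN_equiv {R : Type*} [CommRing R] (p : R[X]) (h : 1 ≤ p.natDegree)
    (hv : IsUnit p.leadingCoeff) : ∃ e : R[X] ≃+* R[X], ∃ w : R[X], IsUnit w ∧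
      e (integralNormalization p) = w * p := by
  obtain ⟨v, hv⟩ := hv
  haveI : Invertible (v : R) := v.invertible
  refine ⟨(algEquivCMulXAddC (v : R) 0).toRingEquiv, C ((v : R) ^ (p.natDegree - 1)), ?_, ?_⟩
  · apply IsUnit.map
    exact (v.isUnit).pow _
  · have h1 := integralNormalization_eval₂_leadingCoeff_mul h (C : R →+* R[X]) X
    rw [eval₂_C_X] at h1
    have h2 : (algEquivCMulXAddC (v : R) 0).toRingEquiv (integralNormalization p)
        = eval₂ C (C (v : R) * X) (integralNormalization p) := by
      show (algEquivCMulXAddC (v : R) 0) (integralNormalization p) = _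
      rw [algEquivCMulXAddC_apply, map_zero, add_zero]
      rfl
    rw [h2, hv, h1, map_pow]

lemma irreducible_iN {R : Type*} [CommRing R] (p : R[X]) (h : 1 ≤ p.natDegree)
    (hv : IsUnit p.leadingCoeff) (hp : Irreducible p) : Irreducible (integralNormalization p) := by
  obtain ⟨e, w, hw, he⟩ := iN_equiv p h hv
  have h1 : Irreducible (e (integralNormalization p)) := by
    rw [he]
    exact (irreducible_isUnit_mul hw).2 hp
  exact (MulEquiv.irreducible_iff e).1 h1

lemma squarefree_iN {R : Type*} [CommRing R] (p : R[X]) (h : 1 ≤ p.natDegree)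
    (hv : IsUnit p.leadingCoeff) (hp : Squarefree p) : Squarefree (integralNormalization p) := by
  obtain ⟨e, w, hw, he⟩ := iN_equiv p h hv
  apply sqf_of_equiv e
  rw [he]
  have : Associated (w * p) p := by
    rw [mul_comm]
    exact associated_mul_unit_left p w hw
  exact this.squarefree_iff.2 hp

section

variable (F : MvPolynomial (Fin 2) ℤ) (u : ℕ)

/-- leading coefficient -/
noncomputable def lc : ℤ :=
  MvPolynomial.eval ![1, (u : ℤ)] (MvPolynomial.homogeneousComponent F.totalDegree F)

/-- the sheared polynomial -/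
noncomputable def F2 : ℤ[X][X] := toB ℤ (shE ℤ u F)

/-- the monic polynomial -/
noncomputable def GG : ℤ[X][X] := integralNormalization (F2 F u)

variable {F u} (hc : lc F u ≠ 0)

include hc

lemma F2_coeff : (F2 F u).coeff F.totalDegree = C (lc F u) := by
  have h1 := (TD_toB (u : ℤ) F).2 F.totalDegree
  rw [Nat.sub_self] at h1
  have h2 := eq_C_of_natDegree_le_zero h1
  have h3 := coeff_lead_eq (u : ℤ) F
  rw [coeff_lead, if_pos (by omega), Nat.sub_self] at h3
  rw [h3] at h2
  exact h2

lemma F2_natDegree : (F2 F u).natDegree = F.totalDegree := by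
  have h : (F2 F u).coeff F.totalDegree ≠ 0 := by
    rw [F2_coeff hc]
    simpa using hc
  exact le_antisymm (TD_toB (u : ℤ) F).1 (le_natDegree_of_ne_zero h)

lemma F2_leadingCoeff : (F2 F u).leadingCoeff = C (lc F u) := by
  rw [leadingCoeff, F2_natDegree hc, F2_coeff hc]

lemma F2_ne_zero : F2 F u ≠ 0 := by
  intro h0
  have := F2_leadingCoeff hc
  rw [h0, leadingCoeff_zero] at this
  exact hc (by simpa using this.symm)

lemma GG_monic : (GG F u).Monic := monic_integralNormalization (F2_ne_zero hc)

lemma GG_natDegree : (GG F u).natDegree = F.totalDegree := by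
  rw [GG, natDegree_integralNormalization, F2_natDegree hc]

lemma GG_coeff {j : ℕ} (hj : j ≠ F.totalDegree) :
    (GG F u).coeff j = (F2 F u).coeff j * C ((lc F u) ^ (F.totalDegree - 1 - j)) := by
  rw [GG, integralNormalization_coeff_ne_natDegree (by rw [F2_natDegree hc]; exact hj),
    F2_leadingCoeff hc, F2_natDegree hc, map_pow]

lemma GG_coeff_top : (GG F u).coeff F.totalDegree = 1 := by
  have := GG_monic hc
  rw [← GG_natDegree hc]; exact this

lemma GG_TD : TD F.totalDegree (GG F u) := by
  refine ⟨(GG_natDegree hc).le, ?_⟩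
  intro j
  by_cases hj : j = F.totalDegree
  · rw [hj, GG_coeff_top hc]; simp
  · rw [GG_coeff hc hj]
    exact (natDegree_mul_C_le _ _).trans ((TD_toB (u : ℤ) F).2 j)

lemma lead_F2_natDegree : (lead F.totalDegree (F2 F u)).natDegree = F.totalDegree := by
  apply le_antisymm
  · rw [natDegree_le_iff_coeff_eq_zero]
    intro j hj
    rw [coeff_lead, if_neg (by omega)]
  · apply le_natDegree_of_ne_zero
    have := coeff_lead_eq (u : ℤ) F
    rw [F2, this]
    exact hc

lemma lead_F2_leadingCoeff : (lead F.totalDegree (F2 F u)).leadingCoeff = lc F u := by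
  rw [leadingCoeff, lead_F2_natDegree hc]
  exact coeff_lead_eq (u : ℤ) F

lemma lead_GG : lead F.totalDegree (GG F u)
    = integralNormalization (lead F.totalDegree (F2 F u)) := by
  have hp0 : lead F.totalDegree (F2 F u) ≠ 0 := by
    intro h0
    have := lead_F2_leadingCoeff hc
    rw [h0, leadingCoeff_zero] at this
    exact hc this.symm
  ext j
  rw [coeff_lead]
  split_ifs with hj
  · by_cases hj2 : j = F.totalDegree
    · subst hj2
      rw [GG_coeff_top hc, Nat.sub_self, coeff_one_zero]
      have h1 := integralNormalization_coeff_natDegree hp0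
      rw [lead_F2_natDegree hc] at h1
      rw [h1]
    · rw [GG_coeff hc hj2, coeff_mul_C, integralNormalization_coeff_ne_natDegree
        (by rw [lead_F2_natDegree hc]; exact hj2), lead_F2_leadingCoeff hc, lead_F2_natDegree hc,
        coeff_lead, if_pos hj]
  · symm
    apply coeff_eq_zero_of_natDegree_lt
    rw [natDegree_integralNormalization, lead_F2_natDegree hc]
    omega

lemma ev_GG (hd : 1 ≤ F.totalDegree) (a b : ℤ) :
    ev a (lc F u * b) (GG F u) = (lc F u) ^ (F.totalDegree - 1) * ev a b (F2 F u) := by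
  have h1 := integralNormalization_eval₂_leadingCoeff_mul (p := F2 F u)
    (by rw [F2_natDegree hc]; exact hd) (evf a) b
  rw [F2_leadingCoeff hc, evf_C, F2_natDegree hc] at h1
  simpa [ev_apply, GG] using h1

lemma pn_GG {H2 : ℝ} (hH2 : 1 ≤ H2) (h : pn (pn zn) (F2 F u) ≤ H2) (hd : 1 ≤ F.totalDegree) :
    pn (pn zn) (GG F u) ≤ H2 ^ F.totalDegree := by
  have hcle : |((lc F u : ℤ) : ℝ)| ≤ H2 := by
    refine le_trans ?_ h
    have h1 := coeff_le_pn (pn zn) (F2 F u) F.totalDegree
    rw [F2_coeff hc, pn_C] at h1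
    exact h1
  have hc1 : 1 ≤ |((lc F u : ℤ) : ℝ)| := by
    have : 1 ≤ |lc F u| := Int.one_le_abs hc
    exact_mod_cast this
  rw [pn_eq_range _ _ (show (GG F u).natDegree < F.totalDegree + 1 by
    rw [GG_natDegree hc]; omega)]
  have h2 : ∀ j ∈ range (F.totalDegree + 1), pn zn ((GG F u).coeff j)
      ≤ pn zn ((F2 F u).coeff j) * H2 ^ (F.totalDegree - 1) := by
    intro j hj
    rw [Finset.mem_range] at hj
    by_cases hj2 : j = F.totalDegree
    · subst hj2
      rw [GG_coeff_top hc, F2_coeff hc, pn_C, pn_one, zn_apply, zn_apply]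
      simp only [Int.cast_one, abs_one]
      exact one_le_mul_of_one_le_of_one_le hc1 (one_le_pow₀ hH2)
    · rw [GG_coeff hc hj2]
      refine (map_mul_le_mul _ _ _).trans ?_
      apply mul_le_mul_of_nonneg_left _ (apply_nonneg _ _)
      rw [pn_C, zn_apply, Int.cast_pow, abs_pow]
      calc |((lc F u : ℤ) : ℝ)| ^ (F.totalDegree - 1 - j) ≤ H2 ^ (F.totalDegree - 1 - j) :=
            pow_le_pow_left₀ (abs_nonneg _) hcle _
        _ ≤ H2 ^ (F.totalDegree - 1) := pow_le_pow_right₀ hH2 (by omega)
  refine (Finset.sum_le_sum h2).trans ?_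
  rw [← Finset.sum_mul]
  have h3 : ∑ j ∈ range (F.totalDegree + 1), pn zn ((F2 F u).coeff j) ≤ H2 := by
    refine le_trans (le_of_eq ?_) h
    rw [pn_eq_range _ (F2 F u) (show (F2 F u).natDegree < F.totalDegree + 1 by
      rw [F2_natDegree hc]; omega)]
  calc _ ≤ H2 * H2 ^ (F.totalDegree - 1) := mul_le_mul_of_nonneg_right h3 (by positivity)
    _ = H2 ^ F.totalDegree := by
      rw [← pow_succ']
      congr 1; omega

lemma GG_prime (hd : 1 ≤ F.totalDegree)
    (hirr : Irreducible (MvPolynomial.map (Int.castRingHom ℚ) F)) : Prime (GG F u) := by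
  have hinj : Function.Injective (mapRingHom (Int.castRingHom ℚ)) :=
    Polynomial.map_injective _ (RingHom.injective_int _)
  have h1 : Irreducible ((F2 F u).map (mapRingHom (Int.castRingHom ℚ))) := by
    rw [F2, ← toB_map, ← shE_map]
    exact (MulEquiv.irreducible_iff (toB ℚ)).2 ((MulEquiv.irreducible_iff (shE ℚ _)).2 hirr)
  have hlc : ((F2 F u).map (mapRingHom (Int.castRingHom ℚ))).leadingCoeff
      = C ((lc F u : ℤ) : ℚ) := by
    rw [leadingCoeff_map_of_injective hinj, F2_leadingCoeff hc]
    simp
  have h2 : Irreducible (integralNormalization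
      ((F2 F u).map (mapRingHom (Int.castRingHom ℚ)))) := by
    apply irreducible_iN _ _ _ h1
    · rw [natDegree_map_eq_of_injective hinj, F2_natDegree hc]; exact hd
    · rw [hlc]
      apply IsUnit.map
      exact isUnit_iff_ne_zero.2 (by exact_mod_cast hc)
  rw [integralNormalization_map] at h2
  · exact ((GG_monic hc).irreducible_of_irreducible_map _ _ h2).prime
  · rw [F2_leadingCoeff hc]
    simpa using hc

lemma nrm_GG (hd : 1 ≤ F.totalDegree)
    (hsq : Squarefree (MvPolynomial.map (Int.castRingHom ℚ)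
      (MvPolynomial.homogeneousComponent F.totalDegree F))) :
    nrm (lead F.totalDegree (GG F u)) F.totalDegree
      (derivative (lead F.totalDegree (GG F u))) ≠ 0 := by
  obtain ⟨hgm, hgd⟩ := lead_monic (GG_monic hc) (GG_natDegree hc)
  apply nrm_ne_zero_of_coprime _ _ hgm hgd
  rw [← derivative_map]
  obtain ⟨p, hp⟩ : ∃ p : ℚ[X], p = (lead F.totalDegree (F2 F u)).map (Int.castRingHom ℚ) :=
    ⟨_, rfl⟩
  have hpd : p.natDegree = F.totalDegree := by
    rw [hp, natDegree_map_eq_of_injective (RingHom.injective_int _), lead_F2_natDegree hc]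
  have hpl : p.leadingCoeff = ((lc F u : ℤ) : ℚ) := by
    rw [hp, leadingCoeff_map_of_injective (RingHom.injective_int _), lead_F2_leadingCoeff hc]
    rfl
  have hplne : p.leadingCoeff ≠ 0 := by rw [hpl]; exact_mod_cast hc
  have hg : (lead F.totalDegree (GG F u)).map (Int.castRingHom ℚ) = integralNormalization p := by
    rw [lead_GG hc, hp, integralNormalization_map]
    rw [lead_F2_leadingCoeff hc]
    simpa using hc
  have hsp : Squarefree p := by
    have h1 : homogenize p F.totalDegree = shE ℚ (u : ℚ) (MvPolynomial.map (Int.castRingHom ℚ)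
      (MvPolynomial.homogeneousComponent F.totalDegree F)) := by
      have h2 := homogenize_lead (u : ℤ) F
      have h3 := shE_map ℤ (Int.castRingHom ℚ) (u : ℤ)
        (MvPolynomial.homogeneousComponent F.totalDegree F)
      rw [← h2, ← homogenize_map] at h3
      rw [hp]
      simpa [F2] using h3.symm
    have h4 : Squarefree (homogenize p F.totalDegree) := by
      apply sqf_of_equiv (shE ℚ (u : ℚ)).symm.toRingEquiv
      have h5 : (shE ℚ (u : ℚ)).symm.toRingEquiv (homogenize p F.totalDegree)
          = MvPolynomial.map (Int.castRingHom ℚ)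
              (MvPolynomial.homogeneousComponent F.totalDegree F) := by
        show (shE ℚ (u : ℚ)).symm (homogenize p F.totalDegree) = _
        rw [h1, AlgEquiv.symm_apply_apply]
      rw [h5]; exact hsq
    intro q hq
    obtain ⟨r, hr⟩ := hq
    have hp0 : p ≠ 0 := by
      intro h0; rw [h0, leadingCoeff_zero] at hplne; exact hplne rfl
    have hq0 : q ≠ 0 := by
      rintro rfl; simp at hr; exact hp0 hr
    have hr0 : r ≠ 0 := by
      rintro rfl; simp at hr; exact hp0 hr
    have hdeg : q.natDegree + q.natDegree + r.natDegree = F.totalDegree := by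
      rw [← hpd, hr, natDegree_mul (mul_ne_zero hq0 hq0) hr0, natDegree_mul hq0 hq0]
    have h6 : homogenize p F.totalDegree = (homogenize q q.natDegree * homogenize q q.natDegree)
        * homogenize r r.natDegree := by
      rw [← homogenize_mul _ _ le_rfl le_rfl, ← homogenize_mul _ _ (natDegree_mul_le) le_rfl,
        hdeg, ← hr]
    have h7 := h4 (homogenize q q.natDegree) ⟨_, h6⟩
    have h8 := h7.map (MvPolynomial.aeval ![X, 1] : MvPolynomial (Fin 2) ℚ →ₐ[ℚ] ℚ[X])
    rwa [aeval_homogenize_X_one _ le_rfl] at h8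
  have hsg : Squarefree ((lead F.totalDegree (GG F u)).map (Int.castRingHom ℚ)) := by
    rw [hg]
    apply squarefree_iN _ _ _ hsp
    · rw [hpd]; exact hd
    · exact isUnit_iff_ne_zero.2 hplne
  exact PerfectField.separable_iff_squarefree.2 hsg

end

end Pool.Agent.H322R2
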