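import Pool.Agent.H322R2.MonoC
import Pool.Agent.H322R2.Red3

/-!
Reduction of the counting theorem to the monic case.
-/

open Polynomial Finset

namespace Pool.Agent.H322R2

section irr

variable {K : Type*} [Field K]

lemma coeff_eq_zero_of_deg {P : MvPolynomial (Fin 2) K} {m : Fin 2 →₀ ℕ}
    (h : P.totalDegree < m.degree) : P.coeff m = 0 := by
  by_contra hc
  have h1 := MvPolynomial.le_totalDegree (MvPolynomial.mem_support_iff.2 hc)
  have h2 : (m.sum fun _ e => e) = m.degree := rfl
  omega

lemma homogeneousComponent_mul_top (A B : MvPolynomial (Fin 2) K) :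
    MvPolynomial.homogeneousComponent (A.totalDegree + B.totalDegree) (A * B)
      = MvPolynomial.homogeneousComponent A.totalDegree A *
        MvPolynomial.homogeneousComponent B.totalDegree B := by
  classical
  ext m
  rw [MvPolynomial.coeff_homogeneousComponent]
  by_cases hm : m.degree = A.totalDegree + B.totalDegree
  · rw [if_pos hm, MvPolynomial.coeff_mul, MvPolynomial.coeff_mul]
    apply Finset.sum_congr rfl
    rintro ⟨i, j⟩ hij
    rw [Finset.HasAntidiagonal.mem_antidiagonal] at hij
    simp only at hij ⊢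
    have hdeg : i.degree + j.degree = A.totalDegree + B.totalDegree := by
      rw [← hm, ← hij, map_add]
    rw [MvPolynomial.coeff_homogeneousComponent, MvPolynomial.coeff_homogeneousComponent]
    by_cases hi : i.degree = A.totalDegree
    · rw [if_pos hi, if_pos (by omega)]
    · rw [if_neg hi, zero_mul]
      rcases Nat.lt_or_gt_of_ne hi with h | h
      · rw [coeff_eq_zero_of_deg (P := B) (by omega), mul_zero]
      · rw [coeff_eq_zero_of_deg (P := A) h, zero_mul]
  · rw [if_neg hm]
    symm
    have h1 := (MvPolynomial.homogeneousComponent_isHomogeneous A.totalDegree A).mul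
      (MvPolynomial.homogeneousComponent_isHomogeneous B.totalDegree B)
    apply h1.coeff_eq_zero
    exact hm

lemma isUnit_of_totalDegree_zero {A : MvPolynomial (Fin 2) K} (hA : A ≠ 0)
    (h : A.totalDegree = 0) : IsUnit A := by
  rw [MvPolynomial.totalDegree_eq_zero_iff_eq_C] at h
  rw [h]
  apply IsUnit.map
  apply isUnit_iff_ne_zero.2
  intro h0
  rw [h0, map_zero] at h
  exact hA h

lemma totalDegree_of_isUnit {A : MvPolynomial (Fin 2) K} (hA : IsUnit A) : A.totalDegree = 0 := by
  obtain ⟨B, hB⟩ := hA.exists_right_inv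
  have h0 : A ≠ 0 := by rintro rfl; simp at hB
  have h1 : B ≠ 0 := by rintro rfl; simp at hB
  have h2 := MvPolynomial.totalDegree_mul_of_isDomain h0 h1
  rw [hB, MvPolynomial.totalDegree_one] at h2
  omega

lemma comp_top_ne_zero {A : MvPolynomial (Fin 2) K} (hA : A ≠ 0) :
    MvPolynomial.homogeneousComponent A.totalDegree A ≠ 0 := by
  obtain ⟨m, hm, hm2⟩ := Finset.exists_mem_eq_sup A.support
    (MvPolynomial.support_nonempty.2 hA) (fun s => s.sum fun _ e => e)
  intro h0
  have h1 := congrArg (MvPolynomial.coeff m) h0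
  rw [MvPolynomial.coeff_homogeneousComponent, if_pos] at h1
  · exact (MvPolynomial.mem_support_iff.1 hm) (by simpa using h1)
  · exact hm2.symm

lemma irr_of_lead {P : MvPolynomial (Fin 2) K} (hd : 1 ≤ P.totalDegree)
    (h : Irreducible (MvPolynomial.homogeneousComponent P.totalDegree P)) : Irreducible P := by
  have hP0 : P ≠ 0 := by rintro rfl; simp at hd
  constructor
  · intro hu
    have := totalDegree_of_isUnit hu
    omega
  · intro A B hAB
    have hA : A ≠ 0 := by rintro rfl; rw [zero_mul] at hAB; exact hP0 hAB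
    have hB : B ≠ 0 := by rintro rfl; rw [mul_zero] at hAB; exact hP0 hAB
    have h1 := MvPolynomial.totalDegree_mul_of_isDomain hA hB
    have h2 := homogeneousComponent_mul_top A B
    rw [hAB, h1, h2] at h
    have key : ∀ {Q : MvPolynomial (Fin 2) K}, Q ≠ 0 →
        IsUnit (MvPolynomial.homogeneousComponent Q.totalDegree Q) → IsUnit Q := by
      intro Q hQ hu
      apply isUnit_of_totalDegree_zero hQ
      have h3 := totalDegree_of_isUnit hu
      have h4 := (MvPolynomial.homogeneousComponent_isHomogeneous Q.totalDegree Q).totalDegree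
        (comp_top_ne_zero hQ)
      omega
    rcases h.isUnit_or_isUnit rfl with h3 | h3
    · left; exact key hA h3
    · right; exact key hB h3

end irr

section

variable {F : MvPolynomial (Fin 2) ℤ} {u : ℕ} (hc : lc F u ≠ 0)

include hc in
lemma lead_irr (hd : 1 ≤ F.totalDegree)
    (hirr : Irreducible (MvPolynomial.map (Int.castRingHom ℚ)
      (MvPolynomial.homogeneousComponent F.totalDegree F))) :
    Irreducible ((lead F.totalDegree (GG F u)).map (Int.castRingHom ℚ)) := by
  obtain ⟨p, hp⟩ : ∃ p : ℚ[X], p = (lead F.totalDegree (F2 F u)).map (Int.castRingHom ℚ) :=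
    ⟨_, rfl⟩
  have hpd : p.natDegree = F.totalDegree := by
    rw [hp, natDegree_map_eq_of_injective (RingHom.injective_int _), lead_F2_natDegree hc]
  have hpl : p.leadingCoeff = ((lc F u : ℤ) : ℚ) := by
    rw [hp, leadingCoeff_map_of_injective (RingHom.injective_int _), lead_F2_leadingCoeff hc]
    rfl
  have hplne : p.leadingCoeff ≠ 0 := by rw [hpl]; exact_mod_cast hc
  have hg : (lead F.totalDegree (GG F u)).map (Int.castRingHom ℚ) = integralNormalization p := by
    rw [lead_GG hc, hp, integralNormalization_map]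
    rw [lead_F2_leadingCoeff hc]
    simpa using hc
  have h1 : homogenize p F.totalDegree = shE ℚ (u : ℚ) (MvPolynomial.map (Int.castRingHom ℚ)
      (MvPolynomial.homogeneousComponent F.totalDegree F)) := by
    have h2 := homogenize_lead (u : ℤ) F
    have h3 := shE_map ℤ (Int.castRingHom ℚ) (u : ℤ)
      (MvPolynomial.homogeneousComponent F.totalDegree F)
    rw [← h2, ← homogenize_map] at h3
    rw [hp]
    simpa [F2] using h3.symm
  have h4 : Irreducible (homogenize p F.totalDegree) := by
    rw [h1]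
    exact (MulEquiv.irreducible_iff (shE ℚ (u : ℚ))).2 hirr
  have hp0 : p ≠ 0 := by
    intro h0; rw [h0, leadingCoeff_zero] at hplne; exact hplne rfl
  have hpi : Irreducible p := by
    constructor
    · intro hu
      have := natDegree_eq_zero_of_isUnit hu
      omega
    · intro q r hqr
      have hq0 : q ≠ 0 := by
        rintro rfl; simp at hqr; exact hp0 hqr
      have hr0 : r ≠ 0 := by
        rintro rfl; simp at hqr; exact hp0 hqr
      have hdeg : q.natDegree + r.natDegree = F.totalDegree := by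
        rw [← hpd, hqr, natDegree_mul hq0 hr0]
      have h6 : homogenize p F.totalDegree = homogenize q q.natDegree * homogenize r r.natDegree := by
        rw [← homogenize_mul _ _ le_rfl le_rfl, hdeg, ← hqr]
      have key : ∀ q : ℚ[X], IsUnit (homogenize q q.natDegree) → IsUnit q := by
        intro q hu
        have h8 := hu.map (MvPolynomial.aeval ![X, 1] : MvPolynomial (Fin 2) ℚ →ₐ[ℚ] ℚ[X])
        rwa [aeval_homogenize_X_one _ le_rfl] at h8
      rcases h4.isUnit_or_isUnit h6 with h7 | h7
      · left; exact key q h7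
      · right; exact key r h7
  rw [hg]
  apply irreducible_iN _ _ _ hpi
  · rw [hpd]; exact hd
  · exact isUnit_iff_ne_zero.2 hplne

variable {R : MvPolynomial (Fin 2) ℤ}

lemma totalDegree_pert (hd : 4 ≤ F.totalDegree) (hR : R.totalDegree + 4 ≤ F.totalDegree) :
    (F + R).totalDegree = F.totalDegree :=
  MvPolynomial.totalDegree_add_eq_left_of_totalDegree_lt (by omega)

lemma comp_pert (hd : 4 ≤ F.totalDegree) (hR : R.totalDegree + 4 ≤ F.totalDegree) :
    MvPolynomial.homogeneousComponent (F + R).totalDegree (F + R)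
      = MvPolynomial.homogeneousComponent F.totalDegree F := by
  rw [totalDegree_pert hd hR, map_add, MvPolynomial.homogeneousComponent_eq_zero _ R (by omega),
    add_zero]

lemma lc_pert (hd : 4 ≤ F.totalDegree) (hR : R.totalDegree + 4 ≤ F.totalDegree) :
    lc (F + R) u = lc F u := by
  rw [lc, lc, comp_pert hd hR]

lemma F2_add : F2 (F + R) u = F2 F u + F2 R u := by
  rw [F2, F2, F2, map_add, map_add]

lemma TD_mono {a b : ℕ} {G : ℤ[X][X]} (h : TD a G) (hab : a ≤ b) : TD b G :=
  ⟨h.1.trans hab, fun j => (h.2 j).trans (by omega)⟩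

/-- the perturbation in the monic coordinates -/
noncomputable def RR (F R : MvPolynomial (Fin 2) ℤ) (u : ℕ) : ℤ[X][X] :=
  ∑ j ∈ range (F.totalDegree - 4 + 1),
    monomial j ((F2 R u).coeff j * C ((lc F u) ^ (F.totalDegree - 1 - j)))

lemma RR_coeff (j : ℕ) : (RR F R u).coeff j = if j < F.totalDegree - 4 + 1 then
    (F2 R u).coeff j * C ((lc F u) ^ (F.totalDegree - 1 - j)) else 0 := by
  rw [RR, finsetSum_coeff]
  simp_rw [coeff_monomial]
  rw [Finset.sum_ite_eq']
  simp [Finset.mem_range]

lemma RR_TD (hR : R.totalDegree + 4 ≤ F.totalDegree) : TD (F.totalDegree - 4) (RR F R u) := by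
  have h1 : TD (F.totalDegree - 4) (F2 R u) := TD_mono (TD_toB (u : ℤ) R) (by omega)
  constructor
  · rw [natDegree_le_iff_coeff_eq_zero]
    intro j hj
    rw [RR_coeff, if_neg (by omega)]
  · intro j
    rw [RR_coeff]
    split_ifs with h
    · exact (natDegree_mul_C_le _ _).trans (h1.2 j)
    · simp

include hc in
lemma GG_pert (hd : 4 ≤ F.totalDegree) (hR : R.totalDegree + 4 ≤ F.totalDegree) :
    GG (F + R) u = GG F u + RR F R u := by
  have hc' : lc (F + R) u ≠ 0 := by rw [lc_pert hd hR]; exact hc
  have hdeg := totalDegree_pert hd hR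
  have h1 : TD (F.totalDegree - 4) (F2 R u) := TD_mono (TD_toB (u : ℤ) R) (by omega)
  ext1 j
  rw [coeff_add, RR_coeff]
  by_cases hj : j = F.totalDegree
  · rw [if_neg (by omega), add_zero]
    have e1 := GG_coeff_top hc'
    rw [hdeg] at e1
    rw [hj, e1, GG_coeff_top hc]
  · rw [GG_coeff hc' (by rw [hdeg]; exact hj), GG_coeff hc hj, F2_add, coeff_add, lc_pert hd hR, hdeg]
    split_ifs with h
    · ring
    · have h2 : (F2 R u).coeff j = 0 := by
        apply coeff_eq_zero_of_natDegree_lt
        have := h1.1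
        omega
      rw [h2]; ring

lemma lc_le {H2 : ℝ} (h : pn (pn zn) (F2 F u) ≤ H2) (hc : lc F u ≠ 0) :
    |((lc F u : ℤ) : ℝ)| ≤ H2 := by
  refine le_trans ?_ h
  have h1 := coeff_le_pn (pn zn) (F2 F u) F.totalDegree
  rw [F2_coeff hc, pn_C] at h1
  exact h1

lemma pn_RR {H2 : ℝ} (hH2 : 1 ≤ H2) (hF : pn (pn zn) (F2 F u) ≤ H2)
    (hR2 : pn (pn zn) (F2 R u) ≤ H2) (hc : lc F u ≠ 0) (hd : 1 ≤ F.totalDegree) :
    pn (pn zn) (RR F R u) ≤ H2 ^ F.totalDegree := by
  have hcle := lc_le hF hc
  have hc1 : 1 ≤ |((lc F u : ℤ) : ℝ)| := by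
    have : 1 ≤ |lc F u| := Int.one_le_abs hc
    exact_mod_cast this
  unfold RR
  refine (seminorm_sum_le _ _ _).trans ?_
  have h2 : ∀ j ∈ range (F.totalDegree - 4 + 1), pn (pn zn) (monomial j ((F2 R u).coeff j *
      C ((lc F u) ^ (F.totalDegree - 1 - j)))) ≤ pn zn ((F2 R u).coeff j) *
        H2 ^ (F.totalDegree - 1) := by
    intro j _
    rw [pn_monomial]
    refine (map_mul_le_mul _ _ _).trans ?_
    apply mul_le_mul_of_nonneg_left _ (apply_nonneg _ _)
    rw [pn_C, zn_apply, Int.cast_pow, abs_pow]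
    calc |((lc F u : ℤ) : ℝ)| ^ (F.totalDegree - 1 - j) ≤ H2 ^ (F.totalDegree - 1 - j) :=
          pow_le_pow_left₀ (abs_nonneg _) hcle _
      _ ≤ H2 ^ (F.totalDegree - 1) := pow_le_pow_right₀ hH2 (by omega)
  refine (Finset.sum_le_sum h2).trans ?_
  rw [← Finset.sum_mul]
  have h3 : ∑ j ∈ range (F.totalDegree - 4 + 1), pn zn ((F2 R u).coeff j) ≤ H2 := by
    refine le_trans ?_ hR2
    obtain ⟨n, hn⟩ : ∃ n, n = max (F.totalDegree - 4 + 1) ((F2 R u).natDegree + 1) := ⟨_, rfl⟩
    rw [pn_eq_range _ (F2 R u) (show (F2 R u).natDegree < n by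
      rw [hn]; exact lt_of_lt_of_le (Nat.lt_succ_self _) (le_max_right _ _))]
    apply Finset.sum_le_sum_of_subset_of_nonneg
    · apply Finset.range_subset_range.2
      rw [hn]; exact le_max_left _ _
    · intro _ _ _; exact apply_nonneg _ _
  calc _ ≤ H2 * H2 ^ (F.totalDegree - 1) := mul_le_mul_of_nonneg_right h3 (by positivity)
    _ = H2 ^ F.totalDegree := by
      rw [← pow_succ']
      congr 1; omega

end

end Pool.Agent.H322R2
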