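import Pool.Agent.H322R2.Final1
import Pool.Agent.H322R2.RedC

/-!
Values of a polynomial on a line: few small values.
-/

open Polynomial Finset

namespace Pool.Agent.H322R2

lemma prod_gt {s : Multiset ℂ} {x : ℂ} {m : ℝ} (hm : 0 ≤ m) (h : ∀ ρ ∈ s, m < ‖x - ρ‖)
    (h0 : s ≠ 0) : m ^ s.card < ‖(s.map (fun ρ => x - ρ)).prod‖ := by
  induction s using Multiset.induction_on with
  | empty => exact absurd rfl h0
  | cons p s ih =>
    rw [Multiset.map_cons, Multiset.prod_cons, Multiset.card_cons, norm_mul]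
    have h1 := h p (Multiset.mem_cons_self p s)
    by_cases hs : s = 0
    · rw [hs]; simpa using h1
    · have h2 := ih (fun ρ hρ => h ρ (Multiset.mem_cons_of_mem hρ)) hs
      rw [pow_succ, mul_comm]
      exact mul_lt_mul'' h1 h2 hm (by positivity)

/-- few integers where an integer polynomial takes a small value -/
theorem small_vals {U : ℤ[X]} {d m H : ℕ} (hd : 1 ≤ d) (hU : U.natDegree = d) (hHm : H ≤ m ^ d)
    (S : Finset ℤ) (hS : ∀ k ∈ S, |U.eval k| ≤ (H : ℤ)) : S.card ≤ d * (2 * m + 1) := by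
  classical
  obtain ⟨V, hV⟩ : ∃ V : ℂ[X], V = U.map (Int.castRingHom ℂ) := ⟨_, rfl⟩
  have hinj : Function.Injective (Int.castRingHom ℂ) := Int.cast_injective
  have hVd : V.natDegree = d := by rw [hV, natDegree_map_eq_of_injective hinj, hU]
  have hU0 : U ≠ 0 := by rintro rfl; simp at hU; omega
  have hVl : V.leadingCoeff = ((U.leadingCoeff : ℤ) : ℂ) := by
    rw [hV, leadingCoeff_map_of_injective hinj]; rfl
  have hV1 : 1 ≤ ‖V.leadingCoeff‖ := by
    rw [hVl, Complex.norm_intCast]
    have : 1 ≤ |U.leadingCoeff| := Int.one_le_abs (leadingCoeff_ne_zero.2 hU0)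
    exact_mod_cast this
  have hsp := IsAlgClosed.splits V
  have hcard : V.roots.card = d := by
    rw [← hsp.natDegree_eq_card_roots, hVd]
  have hex : ∀ k ∈ S, ∃ ρ ∈ V.roots, ‖(k : ℂ) - ρ‖ ≤ m := by
    intro k hk
    by_contra hcon
    push_neg at hcon
    have h1 := prod_gt (s := V.roots) (x := (k : ℂ)) (m := (m : ℝ)) (by positivity) hcon (by
      intro h
      rw [h] at hcard
      simp at hcard
      omega)
    rw [hcard] at h1
    have h2 := hsp.eval_eq_prod_roots (k : ℂ)
    have h3 : V.eval (k : ℂ) = ((U.eval k : ℤ) : ℂ) := by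
      rw [hV, eval_map, ← eq_intCast (Int.castRingHom ℂ) k, eval₂_at_apply]
      simp
    rw [h3] at h2
    have h4 : (‖((U.eval k : ℤ) : ℂ)‖ : ℝ) ≤ H := by
      rw [Complex.norm_intCast]
      exact_mod_cast hS k hk
    rw [h2, norm_mul] at h4
    have h5 : (H : ℝ) ≤ (m : ℝ) ^ d := by exact_mod_cast hHm
    have h6 : ‖(Multiset.map (fun ρ => (k : ℂ) - ρ) V.roots).prod‖
        ≤ ‖V.leadingCoeff‖ * ‖(Multiset.map (fun ρ => (k : ℂ) - ρ) V.roots).prod‖ :=
      le_mul_of_one_le_left (norm_nonneg _) hV1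
    linarith
  choose! f hf1 hf2 using hex
  have h1 := Finset.card_le_mul_card_image_of_maps_to (s := S) (t := V.roots.toFinset) (f := f)
    (fun k hk => Multiset.mem_toFinset.2 (hf1 k hk)) (2 * m + 1) (by
      intro ρ _
      have h2 : S.filter (fun k => f k = ρ) ⊆ Finset.Icc ⌈ρ.re - m⌉ ⌊ρ.re + m⌋ := by
        intro k hk
        rw [Finset.mem_filter] at hk
        have h3 := hf2 k hk.1
        rw [hk.2] at h3
        have h4 := (Complex.abs_re_le_norm ((k : ℂ) - ρ)).trans h3
        rw [Complex.sub_re, Complex.intCast_re, abs_le] at h4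
        rw [Finset.mem_Icc]
        constructor
        · rw [Int.ceil_le]; linarith
        · rw [Int.le_floor]; linarith
      refine (Finset.card_le_card h2).trans ?_
      rw [Int.card_Icc]
      have h3 := Int.floor_le (ρ.re + m)
      have h4 := Int.le_ceil (ρ.re - m)
      have h5 : ((⌊ρ.re + m⌋ : ℤ) : ℝ) + 1 - ⌈ρ.re - m⌉ ≤ 2 * m + 1 := by linarith
      have h6 : ⌊ρ.re + m⌋ + 1 - ⌈ρ.re - m⌉ ≤ ((2 * m + 1 : ℕ) : ℤ) := by
        have : (((⌊ρ.re + m⌋ + 1 - ⌈ρ.re - m⌉ : ℤ) : ℝ)) ≤ (((2 * m + 1 : ℕ) : ℤ) : ℝ) := by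
          push_cast; linarith
        exact_mod_cast this
      omega)
  refine h1.trans ?_
  rw [mul_comm]
  apply Nat.mul_le_mul_right
  exact (Multiset.toFinset_card_le _).trans hcard.le

lemma term_deg (x q : ℤ) (i : ℕ) : ((C x + C q * X : ℤ[X]) ^ i).natDegree ≤ i ∧
    ((C x + C q * X : ℤ[X]) ^ i).coeff i = q ^ i := by
  have h1 : (C x + C q * X : ℤ[X]).natDegree ≤ 1 := by compute_degree
  constructor
  · refine natDegree_pow_le.trans ?_
    calc i * _ ≤ i * 1 := Nat.mul_le_mul_left _ h1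
      _ = i := mul_one i
  · have h2 := coeff_pow_of_natDegree_le (m := i) h1
    rw [mul_one] at h2
    rw [h2]
    rw [coeff_add, coeff_C_mul, coeff_X_one, coeff_C_ne_zero one_ne_zero, zero_add, mul_one]

lemma line_poly (F : MvPolynomial (Fin 2) ℤ) (x y q p : ℤ) :
    (MvPolynomial.aeval ![(C x + C q * X : ℤ[X]), (C y + C p * X : ℤ[X])] F).natDegree
      ≤ F.totalDegree ∧
    (MvPolynomial.aeval ![(C x + C q * X : ℤ[X]), (C y + C p * X : ℤ[X])] F).coeff F.totalDegree
      = MvPolynomial.eval ![q, p] (MvPolynomial.homogeneousComponent F.totalDegree F) ∧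
    ∀ k : ℤ, (MvPolynomial.aeval ![(C x + C q * X : ℤ[X]), (C y + C p * X : ℤ[X])] F).eval k
      = MvPolynomial.eval ![x + q * k, y + p * k] F := by
  obtain ⟨d, hd⟩ : ∃ d, d = F.totalDegree := ⟨_, rfl⟩
  have hterm : ∀ m ∈ F.support, m 0 + m 1 ≤ d := by
    intro m hm
    have := MvPolynomial.le_totalDegree hm
    have h2 : (m.sum fun _ e => e) = m.degree := rfl
    rw [h2, degree_fin2] at this
    omega
  have hexp : MvPolynomial.aeval ![(C x + C q * X : ℤ[X]), (C y + C p * X : ℤ[X])] F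
      = ∑ m ∈ F.support, C (F.coeff m) * ((C x + C q * X) ^ (m 0) * (C y + C p * X) ^ (m 1)) := by
    rw [MvPolynomial.aeval_def, MvPolynomial.eval₂_eq']
    apply Finset.sum_congr rfl
    intro m _
    rw [Fin.prod_univ_two]
    rfl
  have hmd : ∀ i j : ℕ, ((C x + C q * X : ℤ[X]) ^ i * (C y + C p * X) ^ j).natDegree ≤ i + j := by
    intro i j
    exact natDegree_mul_le.trans (Nat.add_le_add (term_deg x q i).1 (term_deg y p j).1)
  refine ⟨?_, ?_, ?_⟩
  · rw [hexp]
    apply natDegree_sum_le_of_forall_le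
    intro m hm
    refine (natDegree_C_mul_le _ _).trans ((hmd _ _).trans ?_)
    rw [← hd]
    exact hterm m hm
  · rw [hexp, finsetSum_coeff, MvPolynomial.homogeneousComponent_apply, map_sum,
      Finset.sum_filter]
    apply Finset.sum_congr rfl
    intro m hm
    rw [coeff_C_mul, degree_fin2]
    split_ifs with h
    · rw [← h]
      have h1 : ((C x + C q * X : ℤ[X]) ^ (m 0) * (C y + C p * X) ^ (m 1)).coeff (m 0 + m 1)
          = q ^ (m 0) * p ^ (m 1) := by
        rw [coeff_mul_add_eq_of_natDegree_le (term_deg x q _).1 (term_deg y p _).1,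
          (term_deg x q _).2, (term_deg y p _).2]
      rw [h1, MvPolynomial.eval_monomial, Finsupp.prod_fintype _ _ (by intro i; simp)]
      rw [Fin.prod_univ_two]
      simp
    · rw [coeff_eq_zero_of_natDegree_lt, mul_zero]
      refine lt_of_le_of_lt (hmd _ _) ?_
      have := hterm m hm
      omega
  · intro k
    rw [hexp, eval_finsetSum, MvPolynomial.eval_eq']
    apply Finset.sum_congr rfl
    intro m _
    rw [Fin.prod_univ_two]
    simp

lemma phi_ne_zero {F : MvPolynomial (Fin 2) ℤ} {u : ℕ} (hc : lc F u ≠ 0)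
    (hd : 2 ≤ F.totalDegree)
    (hirr : Irreducible (MvPolynomial.map (Int.castRingHom ℚ)
      (MvPolynomial.homogeneousComponent F.totalDegree F))) (q p : ℤ) (h0 : q ≠ 0 ∨ p ≠ 0) :
    MvPolynomial.eval ![q, p] (MvPolynomial.homogeneousComponent F.totalDegree F) ≠ 0 := by
  intro hz
  have hz' : MvPolynomial.aeval ![(q : ℝ), (p : ℝ)]
      (MvPolynomial.homogeneousComponent F.totalDegree F) = 0 := by
    have h1 : (Int.castRingHom ℝ) (MvPolynomial.eval ![q, p]
      (MvPolynomial.homogeneousComponent F.totalDegree F)) = 0 := by rw [hz, map_zero]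
    rw [MvPolynomial.eval, MvPolynomial.coe_eval₂Hom, MvPolynomial.hom_eval₂] at h1
    rw [MvPolynomial.aeval_def]
    convert h1 using 2
    · exact RingHom.ext_int _ _
    · funext i
      fin_cases i <;> simp
  by_cases hs : ((p : ℝ) - u * q) = 0
  · have hq : (q : ℝ) ≠ 0 := by
      intro hq
      rw [hq, mul_zero, sub_zero] at hs
      rcases h0 with h | h
      · exact h (by exact_mod_cast hq)
      · exact h (by exact_mod_cast hs)
    have h1 := eval_smul_hom (MvPolynomial.homogeneousComponent_isHomogeneous F.totalDegree F)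
      (q : ℝ) 1 (u : ℝ)
    have h2 : (q : ℝ) * u = p := by linarith
    rw [mul_one, h2, hz'] at h1
    rcases mul_eq_zero.1 h1.symm with h | h
    · exact pow_ne_zero _ hq h
    · apply hc
      have h3 : ((lc F u : ℤ) : ℝ) = 0 := by
        rw [← h, lc, MvPolynomial.eval, MvPolynomial.coe_eval₂Hom, ← eq_intCast (Int.castRingHom ℝ),
          MvPolynomial.hom_eval₂, MvPolynomial.aeval_def]
        congr 1
        funext i
        fin_cases i <;> simp
      exact_mod_cast h3
  · obtain ⟨s, hs'⟩ : ∃ s : ℝ, s = (p : ℝ) - u * q := ⟨_, rfl⟩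
    rw [← hs'] at hs
    obtain ⟨x, hx⟩ : ∃ x : ℝ, x = q / s := ⟨_, rfl⟩
    have hF0 : MvPolynomial.aeval ![x, 1 + u * x]
        (MvPolynomial.homogeneousComponent F.totalDegree F) = 0 := by
      have h1 := eval_smul_hom (MvPolynomial.homogeneousComponent_isHomogeneous F.totalDegree F)
        s x (1 + u * x)
      have h2 : s * x = q := by rw [hx]; field_simp
      have h3 : s * (1 + u * x) = p := by
        have : s * (1 + u * x) = s + u * (s * x) := by ring
        rw [this, h2, hs']; ring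
      rw [h2, h3, hz'] at h1
      rcases mul_eq_zero.1 h1.symm with h | h
      · exact absurd h (pow_ne_zero _ hs)
      · exact h
    have hp0 : evf x (lead F.totalDegree (F2 F u)) = 0 := by
      have h1 := congrArg (MvPolynomial.aeval ![x, (1 : ℝ)]) (homogenize_lead (u : ℤ) F)
      rw [aeval_homogenize_of_eq_one (by
          have := lead_F2_natDegree hc
          rw [F2] at this
          exact this.le) _ (by simp), aeval_shE] at h1
      have h2 : aeval ((![x, (1 : ℝ)] : Fin 2 → ℝ) 0) (lead F.totalDegree (toB ℤ (shE ℤ u F)))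
          = evf x (lead F.totalDegree (F2 F u)) := by
        rw [aeval_def, evf, coe_eval₂RingHom]
        rfl
      rw [h2] at h1
      rw [h1, ← hF0]
      simp
    have h1 := integralNormalization_eval₂_leadingCoeff_mul (p := lead F.totalDegree (F2 F u))
      (by rw [lead_F2_natDegree hc]; omega) (Int.castRingHom ℝ) x
    have hp0' : eval₂ (Int.castRingHom ℝ) x (lead F.totalDegree (F2 F u)) = 0 := hp0
    rw [lead_F2_leadingCoeff hc, ← lead_GG hc, hp0', mul_zero] at h1
    obtain ⟨r, hr⟩ : ∃ r : ℚ, r = (lc F u : ℚ) * (q / ((p : ℚ) - u * q)) := ⟨_, rfl⟩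
    have hroot : IsRoot ((lead F.totalDegree (GG F u)).map (Int.castRingHom ℚ)) r := by
      have h2 : ((eval r ((lead F.totalDegree (GG F u)).map (Int.castRingHom ℚ)) : ℚ) : ℝ) = 0 := by
        rw [eval_map, ← eq_ratCast (algebraMap ℚ ℝ), hom_eval₂]
        rw [← h1]
        congr 1
        rw [hr, hx, hs']
        simp
      exact_mod_cast h2
    have h3 := degree_eq_one_of_irreducible_of_root (lead_irr hc (by omega) hirr) hroot
    have h4 : ((lead F.totalDegree (GG F u)).map (Int.castRingHom ℚ)).natDegree = F.totalDegree := by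
      rw [natDegree_map_eq_of_injective (RingHom.injective_int _),
        (lead_monic (GG_monic hc) (GG_natDegree hc)).2]
    have h5 : ((lead F.totalDegree (GG F u)).map (Int.castRingHom ℚ)).natDegree = 1 :=
      natDegree_eq_of_degree_eq_some h3
    omega

/-- few integer points on a line where `F` is small -/
theorem col_count {F : MvPolynomial (Fin 2) ℤ} {u : ℕ} (hc : lc F u ≠ 0)
    (hd : 2 ≤ F.totalDegree)
    (hirr : Irreducible (MvPolynomial.map (Int.castRingHom ℚ)
      (MvPolynomial.homogeneousComponent F.totalDegree F))) {m H : ℕ} (hHm : H ≤ m ^ F.totalDegree)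
    (S : Finset (ℤ × ℤ))
    (hcol : ∀ P ∈ S, ∀ Q ∈ S, ∀ R ∈ S, (Q.1 - P.1) * (R.2 - P.2) - (R.1 - P.1) * (Q.2 - P.2) = 0)
    (hS : ∀ P ∈ S, |MvPolynomial.eval ![P.1, P.2] F| ≤ (H : ℤ)) :
    S.card ≤ F.totalDegree * (2 * m + 1) := by
  classical
  have h1d : 1 ≤ F.totalDegree * (2 * m + 1) := Nat.mul_pos (by omega) (by omega)
  by_cases hS1 : S.card ≤ 1
  · omega
  push_neg at hS1
  obtain ⟨P, hP, Q, hQ, hPQ⟩ := Finset.one_lt_card.1 hS1
  have hg : Int.gcd (Q.1 - P.1) (Q.2 - P.2) ≠ 0 := by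
    intro h
    obtain ⟨h1, h2⟩ := Int.gcd_eq_zero_iff.1 h
    apply hPQ
    apply Prod.ext
    · omega
    · omega
  obtain ⟨g, q, p, hgq, hgp, hcop, hg0⟩ : ∃ g q p : ℤ, Q.1 - P.1 = g * q ∧ Q.2 - P.2 = g * p ∧
      IsCoprime q p ∧ g ≠ 0 := by
    refine ⟨Int.gcd (Q.1 - P.1) (Q.2 - P.2), (Q.1 - P.1) / Int.gcd (Q.1 - P.1) (Q.2 - P.2),
      (Q.2 - P.2) / Int.gcd (Q.1 - P.1) (Q.2 - P.2), ?_, ?_, ?_, ?_⟩
    · exact (Int.mul_ediv_cancel' (Int.gcd_dvd_left _ _)).symm
    · exact (Int.mul_ediv_cancel' (Int.gcd_dvd_right _ _)).symm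
    · rw [Int.isCoprime_iff_gcd_eq_one]
      exact Int.gcd_ediv_gcd_ediv_gcd (Nat.pos_of_ne_zero hg)
    · exact_mod_cast hg
  have hqp0 : q ≠ 0 ∨ p ≠ 0 := by
    by_contra hcon
    push_neg at hcon
    rw [hcon.1, hcon.2] at hcop
    exact not_isCoprime_zero_zero hcop
  have hex : ∀ R ∈ S, ∃ k : ℤ, R.1 = P.1 + q * k ∧ R.2 = P.2 + p * k := by
    intro R hR
    have h1 := hcol P hP Q hQ R hR
    rw [hgq, hgp] at h1
    have h2 : q * (R.2 - P.2) = p * (R.1 - P.1) := by
      have : g * (q * (R.2 - P.2) - p * (R.1 - P.1)) = 0 := by linear_combination h1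
      rcases mul_eq_zero.1 this with h | h
      · exact absurd h hg0
      · linarith
    obtain ⟨a, b, hab⟩ := hcop
    refine ⟨a * (R.1 - P.1) + b * (R.2 - P.2), ?_, ?_⟩
    · linear_combination (-(R.1 - P.1)) * hab - b * h2
    · linear_combination (-(R.2 - P.2)) * hab + a * h2
  choose! f hf1 hf2 using hex
  obtain ⟨U, hU⟩ : ∃ U : ℤ[X], U = MvPolynomial.aeval
    ![(C P.1 + C q * X : ℤ[X]), (C P.2 + C p * X : ℤ[X])] F := ⟨_, rfl⟩
  obtain ⟨l1, l2, l3⟩ := line_poly F P.1 P.2 q p
  rw [← hU] at l1 l2 l3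
  have hUd : U.natDegree = F.totalDegree := by
    apply le_antisymm l1
    apply le_natDegree_of_ne_zero
    rw [l2]
    exact phi_ne_zero hc hd hirr q p hqp0
  have hcard : (S.image f).card = S.card := by
    apply Finset.card_image_of_injOn
    intro R hR R' hR' h
    rw [Finset.mem_coe] at hR hR'
    apply Prod.ext
    · rw [hf1 R hR, hf1 R' hR', h]
    · rw [hf2 R hR, hf2 R' hR', h]
  rw [← hcard]
  apply small_vals (by omega) hUd hHm
  intro k hk
  rw [Finset.mem_image] at hk
  obtain ⟨R, hR, rfl⟩ := hk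
  rw [l3, ← hf1 R hR, ← hf2 R hR]
  exact hS R hR

end Pool.Agent.H322R2
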