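import Pool.Agent.H322R2.Flex
import Pool.Agent.H322R2.Final1

/-!
At most `N(d)` large integer points on all the curves `F + R = 0`, `deg R ≤ d - 4`.
-/

open Polynomial Finset

namespace Pool.Agent.H322R2

theorem mono_count {d : ℕ} (hd : 4 ≤ d) {G : ℤ[X][X]} (hm : G.Monic) (hdeg : G.natDegree = d)
    (hT : TD d G) {H : ℝ} (hH : 1 ≤ H) (hG : pn (pn zn) G ≤ H)
    (hirr : Irreducible ((lead d G).map (Int.castRingHom ℚ)))
    (hflex : ∀ η : ℝ, evf η (lead d G) = 0 → evf η (gp d G) ≠ 0) (T : Finset (ℤ × ℤ))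
    (hP : ∀ P ∈ T, (2 + 2 * H) ^ (E1 d) ≤ |(P.1 : ℝ)| ∧
      ∃ R : ℤ[X][X], TD (d - 4) R ∧ pn (pn zn) R ≤ H ∧ Prime (G + R) ∧ ev P.1 P.2 (G + R) = 0) :
    T.card ≤ 160 * d ^ 2 * kap d * d := by
  classical
  have hd0 : 0 < d := by omega
  obtain ⟨hgm, hgd⟩ := lead_monic hm hdeg
  have hder0 : derivative (lead d G) ≠ 0 := by
    intro h
    have h1 := natDegree_eq_zero_of_derivative_eq_zero h
    omega
  have hn := nrm_ne_of_irr_deg hgm hgd hirr _ hder0 (by
        have := natDegree_derivative_le (lead d G); omega)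
  have hsel : ∀ P ∈ T, ∃ η : ℝ, evf η (lead d G) = 0 ∧ |(P.2 : ℝ) / P.1 - η| ≤ cR d (2 * H) := by
    intro P hPT
    obtain ⟨h1, R, hR1, hR2, hR3, hR4⟩ := hP P hPT
    have hT' := TD_add hd hT hR1
    have hlead := lead_add_of_TD (G := G) hd hR1 0 (by omega)
    rw [Nat.sub_zero] at hlead
    have hpn' : pn (pn zn) (G + R) ≤ 2 * H := (map_add_le_add _ _ _).trans (by linarith)
    have hRn : R.natDegree < G.natDegree := by have := hR1.1; omega
    have hm' : (G + R).Monic := hm.add_of_left (degree_lt_degree hRn)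
    have hdeg' : (G + R).natDegree = d := by
      rw [natDegree_add_eq_left_of_natDegree_lt hRn, hdeg]
    have hP1 : (1 : ℝ) ≤ |(P.1 : ℝ)| := (one_le_pow₀ (by linarith)).trans h1
    have hP0 : P.1 ≠ 0 := by
      intro h; rw [h] at hP1; simp at hP1; linarith
    obtain ⟨η, e1, e2, -, -⟩ := root_sel hd0 hm' hdeg' hT' (show 1 ≤ 2 * H by linarith) hpn'
      (by rw [hlead]; exact hn) P.1 P.2 hP0 hR4 (by
        refine (thr_le hd0 (show 1 ≤ 2 * H by linarith)).trans (le_trans ?_ h1)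
        apply pow_le_pow_right₀ (by linarith)
        unfold E1
        have h5 := one_le_kap d
        have h6 : d ^ 3 ≤ d ^ 5 := Nat.pow_le_pow_right hd0 (by norm_num)
        calc 128 * d ^ 3 ≤ 1280 * d ^ 5 * 1 := by omega
          _ ≤ _ := Nat.mul_le_mul_left _ h5)
    rw [hlead] at e1
    exact ⟨η, e1, e2⟩
  choose! f hf1 hf2 using hsel
  obtain ⟨S, hS⟩ : ∃ S, S = ((lead d G).map (Int.castRingHom ℝ)).roots.toFinset := ⟨_, rfl⟩
  have hg0 : (lead d G).map (Int.castRingHom ℝ) ≠ 0 := (hgm.map _).ne_zero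
  have hmem : ∀ η : ℝ, η ∈ S ↔ evf η (lead d G) = 0 := by
    intro η
    rw [hS, Multiset.mem_toFinset, mem_roots hg0, IsRoot.def, eval_map, evf, coe_eval₂RingHom]
  have hScard : S.card ≤ d := by
    rw [hS]
    refine (Multiset.toFinset_card_le _).trans ((card_roots' _).trans ?_)
    rw [hgm.natDegree_map, hgd]
  have h1 := Finset.card_le_mul_card_image_of_maps_to (s := T) (t := S) (f := f)
    (fun P hPT => (hmem _).2 (hf1 P hPT)) (160 * d ^ 2 * kap d) (by
      intro η hη
      have hη0 := (hmem η).1 hη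
      apply root_count hd hm hdeg hT hH hG hirr η hη0 (hflex η hη0)
      intro P hPT
      rw [Finset.mem_filter] at hPT
      obtain ⟨h1, h2⟩ := hP P hPT.1
      refine ⟨h1, ?_, h2⟩
      have := hf2 P hPT.1
      rwa [hPT.2] at this)
  exact h1.trans (Nat.mul_le_mul_left _ hScard)

/-- exponent of the bound -/
def kC (d : ℕ) : ℕ := 10 ^ 10 * 36 ^ d * (d + 1) ^ 11

/-- number of exceptions -/
def kN (d : ℕ) : ℕ := 10 ^ 9 * 36 ^ d * (d + 1) ^ 7

lemma kN_ge (d : ℕ) : 160 * d ^ 2 * kap d * d ≤ kN d := by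
  unfold kN kap
  have h1 : d ^ 3 ≤ (d + 1) ^ 3 := Nat.pow_le_pow_left (by omega) _
  calc 160 * d ^ 2 * (10 ^ 6 * 36 ^ d * (d + 1) ^ 4) * d
      = 160 * 10 ^ 6 * 36 ^ d * (d + 1) ^ 4 * d ^ 3 := by ring
    _ ≤ 160 * 10 ^ 6 * 36 ^ d * (d + 1) ^ 4 * (d + 1) ^ 3 := Nat.mul_le_mul_left _ h1
    _ = 160 * 10 ^ 6 * 36 ^ d * (d + 1) ^ 7 := by ring
    _ ≤ _ := by
      apply Nat.mul_le_mul_right
      apply Nat.mul_le_mul_right
      norm_num

lemma kC_ge {d : ℕ} (hd : 4 ≤ d) : d ^ 2 + 2 + (d ^ 2 + 1) * E1 d ≤ kC d := by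
  have h0 := one_le_kap d
  have h1 : d ^ 2 + 1 ≤ (d + 1) ^ 2 := by nlinarith
  have h2 : 1 ≤ E1 d := by
    unfold E1
    have : 1 ≤ d ^ 5 := Nat.one_le_pow _ _ (by omega)
    calc 1 ≤ 1280 * d ^ 5 * 1 := by omega
      _ ≤ _ := Nat.mul_le_mul_left _ h0
  have h3 : d ^ 2 + 2 ≤ (d + 1) ^ 2 * 1 := by nlinarith
  have h4 : d ^ 5 ≤ (d + 1) ^ 5 := Nat.pow_le_pow_left (by omega) _
  calc d ^ 2 + 2 + (d ^ 2 + 1) * E1 d ≤ (d + 1) ^ 2 * E1 d + (d + 1) ^ 2 * E1 d :=
        Nat.add_le_add (h3.trans (Nat.mul_le_mul_left _ h2)) (Nat.mul_le_mul_right _ h1)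
    _ = 2560 * (d + 1) ^ 2 * kap d * d ^ 5 := by unfold E1; ring
    _ ≤ 2560 * (d + 1) ^ 2 * kap d * (d + 1) ^ 5 := Nat.mul_le_mul_left _ h4
    _ = 2560 * 10 ^ 6 * 36 ^ d * (d + 1) ^ 11 := by unfold kap; ring
    _ ≤ _ := by
      unfold kC
      apply Nat.mul_le_mul_right
      apply Nat.mul_le_mul_right
      norm_num

theorem main3 (F : MvPolynomial (Fin 2) ℤ) (H : ℕ) (hd : 4 ≤ F.totalDegree)
    (hirr : Irreducible (MvPolynomial.map (Int.castRingHom ℚ)
      (MvPolynomial.homogeneousComponent F.totalDegree F)))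
    (hlines : ∀ p q : Fin 2 → ℝ, q ≠ 0 → F.totalDegree ≤
      (MvPolynomial.aeval (fun i => (C (p i) + C (q i) * X : ℝ[X])) F).natDegree + 2)
    (hFH : len F ≤ H) :
    Set.encard {t : MvPolynomial (Fin 2) ℤ × ℤ × ℤ | t.1.totalDegree + 4 ≤ F.totalDegree ∧
      len t.1 ≤ H ∧ MvPolynomial.eval ![t.2.1, t.2.2] (F + t.1) = 0 ∧
      ((F.totalDegree + 1) * H) ^ (kC F.totalDegree) < max t.2.1.natAbs t.2.2.natAbs}
      ≤ (kN F.totalDegree : ℕ) := by
  classical
  obtain ⟨d, hdd⟩ : ∃ d, d = F.totalDegree := ⟨_, rfl⟩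
  by_contra hcon
  push_neg at hcon
  have hcon' : ((kN F.totalDegree + 1 : ℕ) : ℕ∞) ≤ Set.encard {t : MvPolynomial (Fin 2) ℤ × ℤ × ℤ |
      t.1.totalDegree + 4 ≤ F.totalDegree ∧
      len t.1 ≤ H ∧ MvPolynomial.eval ![t.2.1, t.2.2] (F + t.1) = 0 ∧
      ((F.totalDegree + 1) * H) ^ (kC F.totalDegree) < max t.2.1.natAbs t.2.2.natAbs} := by
    have := Order.add_one_le_of_lt hcon
    push_cast
    exact this
  obtain ⟨T0, hT0sub, hT0card⟩ := Set.exists_subset_encard_eq hcon'
  have hT0fin : T0.Finite := Set.finite_of_encard_eq_coe hT0card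
  obtain ⟨T1, hT1⟩ : ∃ T1 : Finset (MvPolynomial (Fin 2) ℤ × ℤ × ℤ), T1 = hT0fin.toFinset :=
    ⟨_, rfl⟩
  have hT1card : T1.card = kN F.totalDegree + 1 := by
    have h1 := hT0fin.encard_eq_coe_toFinset_card
    rw [hT0card, ← hT1] at h1
    exact_mod_cast h1.symm
  have hT1mem : ∀ t ∈ T1, t.1.totalDegree + 4 ≤ F.totalDegree ∧
      len t.1 ≤ H ∧ MvPolynomial.eval ![t.2.1, t.2.2] (F + t.1) = 0 ∧
      ((F.totalDegree + 1) * H) ^ (kC F.totalDegree) < max t.2.1.natAbs t.2.2.natAbs := by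
    intro t ht
    rw [hT1, Set.Finite.mem_toFinset] at ht
    exact hT0sub ht
  -- coordinates
  have hF0 : F ≠ 0 := by
    rintro rfl
    simp at hd
  obtain ⟨u, hu, hcu⟩ := exists_u F hF0
  have hcl : lc F u ≠ 0 := hcu
  have hH1 : (1 : ℝ) ≤ H := by
    have := len_pos hF0
    have h2 : 1 ≤ H := this.trans hFH
    exact_mod_cast h2
  have hd4 : (4 : ℝ) ≤ d := by rw [hdd]; exact_mod_cast hd
  obtain ⟨w, hw⟩ : ∃ w : ℝ, w = ((d : ℝ) + 1) * (H : ℝ) := ⟨_, rfl⟩
  have hw5 : 5 ≤ w := by rw [hw]; nlinarith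
  obtain ⟨H2, hH2⟩ : ∃ H2 : ℝ, H2 = (H : ℝ) * (1 + d) ^ d := ⟨_, rfl⟩
  have hH21 : 1 ≤ H2 := by
    rw [hH2]
    exact one_le_mul_of_one_le_of_one_le hH1 (one_le_pow₀ (by linarith))
  have hpn2 : ∀ R : MvPolynomial (Fin 2) ℤ, R.totalDegree ≤ d → len R ≤ H →
      pn (pn zn) (F2 R u) ≤ H2 := by
    intro R hR1 hR2
    refine (pn_toB_le u R).trans ?_
    rw [hH2]
    apply mul_le_mul
    · exact_mod_cast hR2
    · have h3 : (1 + (u : ℝ)) ^ R.totalDegree ≤ (1 + d) ^ R.totalDegree := by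
        apply pow_le_pow_left₀ (by positivity)
        have : (u : ℝ) ≤ d := by rw [hdd]; exact_mod_cast hu
        linarith
      refine h3.trans ?_
      exact pow_le_pow_right₀ (by linarith) hR1
    · positivity
    · linarith
  obtain ⟨M, hM⟩ : ∃ M : ℝ, M = H2 ^ d := ⟨_, rfl⟩
  have hM1 : 1 ≤ M := by rw [hM]; exact one_le_pow₀ hH21
  have hMw : M ≤ w ^ (d ^ 2) := by
    rw [hM, hH2, sq, pow_mul]
    apply pow_le_pow_left₀ (by positivity)
    rw [hw, mul_pow, mul_comm, add_comm 1 (d : ℝ)]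
    apply mul_le_mul_of_nonneg_left _ (by positivity)
    calc (H : ℝ) = (H : ℝ) ^ 1 := by rw [pow_one]
      _ ≤ _ := pow_le_pow_right₀ hH1 (by omega)
  have hpnF : pn (pn zn) (F2 F u) ≤ H2 := hpn2 F hdd.ge hFH
  have hpnG : pn (pn zn) (GG F u) ≤ M := by
    rw [hM, hdd]
    exact pn_GG hcl hH21 hpnF (by omega)
  obtain ⟨K, hK⟩ : ∃ K : ℝ, K = 2 + 2 * M := ⟨_, rfl⟩
  have hK1 : 1 ≤ K := by linarith
  have hKw : K ≤ w ^ (d ^ 2 + 1) := by
    rw [pow_succ]
    nlinarith
  have hKE : K ^ (E1 d) ≤ w ^ ((d ^ 2 + 1) * E1 d) := by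
    rw [pow_mul]; exact pow_le_pow_left₀ (by linarith) hKw _
  -- properties of each triple
  have hprop : ∀ t ∈ T1, K ^ (E1 d) ≤ |((t.2.2 - u * t.2.1 : ℤ) : ℝ)| ∧
      TD (d - 4) (RR F t.1 u) ∧ pn (pn zn) (RR F t.1 u) ≤ M ∧ Prime (GG F u + RR F t.1 u) ∧
      ev (t.2.2 - u * t.2.1) (lc F u * t.2.1) (GG F u + RR F t.1 u) = 0 := by
    intro t ht
    obtain ⟨h1, h2, h3, h4⟩ := hT1mem t ht
    obtain ⟨R, x, y⟩ := t
    simp only at h1 h2 h3 h4 ⊢
    obtain ⟨a, ha⟩ : ∃ a : ℤ, a = y - u * x := ⟨_, rfl⟩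
    rw [← ha]
    have hGp := GG_pert hcl hd h1
    have hcl' : lc (F + R) u ≠ 0 := by rw [lc_pert hd h1]; exact hcl
    have hdeg' := totalDegree_pert hd h1
    have hRR1 : TD (d - 4) (RR F R u) := by rw [hdd]; exact RR_TD h1
    have hRR2 : pn (pn zn) (RR F R u) ≤ M := by
      rw [hM, hdd]
      exact pn_RR hH21 hpnF (hpn2 R (by omega) h2) hcl (by omega)
    have hirrF : Irreducible (MvPolynomial.map (Int.castRingHom ℚ) (F + R)) := by
      have hinj : Function.Injective (Int.castRingHom ℚ) := Int.cast_injective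
      have e1 : (MvPolynomial.map (Int.castRingHom ℚ) (F + R)).totalDegree = F.totalDegree := by
        rw [MvPolynomial.totalDegree, MvPolynomial.support_map_of_injective _ hinj,
          ← MvPolynomial.totalDegree, hdeg']
      apply irr_of_lead
      · rw [e1]; omega
      · rw [e1]
        have e2 : MvPolynomial.homogeneousComponent F.totalDegree
            (MvPolynomial.map (Int.castRingHom ℚ) (F + R))
            = MvPolynomial.map (Int.castRingHom ℚ)
              (MvPolynomial.homogeneousComponent F.totalDegree (F + R)) := by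
          ext m
          rw [MvPolynomial.coeff_homogeneousComponent, MvPolynomial.coeff_map,
            MvPolynomial.coeff_map, MvPolynomial.coeff_homogeneousComponent]
          split_ifs <;> simp
        have e3 := comp_pert hd h1
        rw [hdeg'] at e3
        rw [e2, e3]
        exact hirr
    have hprime : Prime (GG F u + RR F R u) := by
      rw [← hGp]
      exact GG_prime hcl' (by omega) hirrF
    have hzero : ev a (lc F u * x) (GG F u + RR F R u) = 0 := by
      rw [← hGp, ← lc_pert (u := u) hd h1, ev_GG hcl' (by omega)]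
      have h5 := ev_toB (S := ℤ) x a (shE ℤ u (F + R))
      have h6 : MvPolynomial.eval₂ (Int.castRingHom ℤ) ![x, a] (shE ℤ u (F + R))
          = MvPolynomial.eval ![x, a] (shE ℤ u (F + R)) := by
        rw [MvPolynomial.eval, MvPolynomial.coe_eval₂Hom]
        congr 1
      rw [h6, eval_shE] at h5
      have h7 : (![(![x, a] : Fin 2 → ℤ) 0, (![x, a] : Fin 2 → ℤ) 1 + u * (![x, a] : Fin 2 → ℤ) 0]
          : Fin 2 → ℤ) = ![x, y] := by
        ext i
        fin_cases i
        · simp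
        · simp [ha]
      rw [h7, h3] at h5
      rw [F2, h5, mul_zero]
    refine ⟨?_, hRR1, hRR2, hprime, hzero⟩
    by_contra hsmall
    push_neg at hsmall
    have hm' : (GG F u + RR F R u).Monic := by rw [← hGp]; exact GG_monic hcl'
    have hdm' : (GG F u + RR F R u).natDegree = d := by rw [← hGp, GG_natDegree hcl', hdeg', hdd]
    have hTm' : TD d (GG F u + RR F R u) := by
      have := GG_TD hcl'
      rw [hdeg', hGp] at this
      rw [hdd]; exact this
    have hpnm' : pn (pn zn) (GG F u + RR F R u) ≤ 2 * M :=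
      (map_add_le_add _ _ _).trans (by linarith)
    have hbb := abs_b_le hm' hdm' hTm' (show 1 ≤ 2 * M by linarith) hpnm' a (lc F u * x) hzero
    have hlc1 : 1 ≤ |((lc F u : ℤ) : ℝ)| := by
      have : 1 ≤ |lc F u| := Int.one_le_abs hcl
      exact_mod_cast this
    have hxb : |(x : ℝ)| ≤ 2 * M * max 1 |(a : ℝ)| := by
      refine le_trans ?_ hbb
      push_cast
      rw [abs_mul]
      exact le_mul_of_one_le_left (abs_nonneg _) hlc1
    have hmax : max 1 |(a : ℝ)| ≤ K ^ (E1 d) := max_le (one_le_pow₀ hK1) hsmall.le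
    obtain ⟨B, hB⟩ : ∃ B, B = K ^ (E1 d) := ⟨_, rfl⟩
    rw [← hB] at hmax hsmall
    have hB1 : 1 ≤ B := by rw [hB]; exact one_le_pow₀ hK1
    have hx1 : |(x : ℝ)| ≤ 2 * M * B := hxb.trans (mul_le_mul_of_nonneg_left hmax (by linarith))
    have hy1 : |(y : ℝ)| ≤ (d + 1) * (2 * M) * B := by
      have h5 : (y : ℝ) = a + u * x := by rw [ha]; push_cast; ring
      rw [h5]
      refine (abs_add_le _ _).trans ?_
      rw [abs_mul, Nat.abs_cast]
      have h6 : (u : ℝ) ≤ d := by rw [hdd]; exact_mod_cast hu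
      have h7 : (u : ℝ) * |(x : ℝ)| ≤ d * (2 * M * B) :=
        mul_le_mul h6 hx1 (abs_nonneg _) (by linarith)
      have h8 : B ≤ 2 * M * B := le_mul_of_one_le_left (by linarith) (by linarith)
      have h9 : ((d : ℝ) + 1) * (2 * M) * B = 2 * M * B + d * (2 * M * B) := by ring
      linarith
    have hx2 : |(x : ℝ)| ≤ (d + 1) * (2 * M) * B := by
      refine hx1.trans ?_
      apply mul_le_mul_of_nonneg_right _ (by linarith)
      nlinarith
    have hfinal : (d + 1) * (2 * M) * B ≤ w ^ (kC d) := by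
      have h5 : (d + 1) * (2 * M) ≤ w ^ (d ^ 2 + 2) := by
        have h6 : 2 * M ≤ w ^ (d ^ 2 + 1) := by linarith
        have h7 : (d : ℝ) + 1 ≤ w := by
          rw [hw]; exact le_mul_of_one_le_right (by linarith) hH1
        calc ((d : ℝ) + 1) * (2 * M) ≤ w * w ^ (d ^ 2 + 1) :=
              mul_le_mul h7 h6 (by linarith) (by linarith)
          _ = w ^ (d ^ 2 + 2) := by rw [mul_comm, ← pow_succ]
      calc (d + 1) * (2 * M) * B ≤ w ^ (d ^ 2 + 2) * w ^ ((d ^ 2 + 1) * E1 d) := by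
            rw [hB]
            exact mul_le_mul h5 hKE (by positivity) (by positivity)
        _ = w ^ (d ^ 2 + 2 + (d ^ 2 + 1) * E1 d) := by rw [← pow_add]
        _ ≤ _ := pow_le_pow_right₀ (by linarith) (kC_ge (by omega))
    have hwc : w ^ (kC d) = ((((d + 1) * H) ^ (kC d) : ℕ) : ℝ) := by rw [hw]; push_cast; ring
    have hfx : x.natAbs ≤ ((d + 1) * H) ^ (kC d) := by
      have h5 : ((x.natAbs : ℕ) : ℝ) ≤ ((((d + 1) * H) ^ (kC d) : ℕ) : ℝ) := by
        rw [Nat.cast_natAbs, Int.cast_abs, ← hwc]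
        exact hx2.trans hfinal
      exact_mod_cast h5
    have hfy : y.natAbs ≤ ((d + 1) * H) ^ (kC d) := by
      have h5 : ((y.natAbs : ℕ) : ℝ) ≤ ((((d + 1) * H) ^ (kC d) : ℕ) : ℝ) := by
        rw [Nat.cast_natAbs, Int.cast_abs, ← hwc]
        exact hy1.trans hfinal
      exact_mod_cast h5
    rw [← hdd] at h4
    exact absurd h4 (not_lt.2 (max_le hfx hfy))
  -- injectivity
  obtain ⟨φ, hφ⟩ : ∃ φ : MvPolynomial (Fin 2) ℤ × ℤ × ℤ → ℤ × ℤ,
      φ = fun t : MvPolynomial (Fin 2) ℤ × ℤ × ℤ => (t.2.2 - u * t.2.1, lc F u * t.2.1) :=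
    ⟨_, rfl⟩
  have hinj : Set.InjOn φ T1 := by
    intro t ht t' ht' htt
    obtain ⟨p1, p2, p3, p4, p5⟩ := hprop t (Finset.mem_coe.1 ht)
    obtain ⟨q1, q2, q3, q4, q5⟩ := hprop t' (Finset.mem_coe.1 ht')
    obtain ⟨R, x, y⟩ := t
    obtain ⟨R', x', y'⟩ := t'
    simp only [hφ, Prod.mk.injEq] at htt
    obtain ⟨e1, e2⟩ := htt
    have ex : x = x' := mul_left_cancel₀ hcl e2
    have ey : y = y' := by rw [ex] at e1; linarith
    subst ex; subst ey
    have hRR : R = R' := by
      by_contra hne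
      obtain ⟨V, hV⟩ : ∃ V, V = RR F R u - RR F R' u := ⟨_, rfl⟩
      simp only at p1 p2 p3 p4 p5 q1 q2 q3 q4 q5
      have hVev : ev (y - u * x) (lc F u * x) V = 0 := by
        rw [hV, map_sub]
        rw [map_add] at p5 q5
        linear_combination p5 - q5
      have hV0 : V ≠ 0 := by
        intro h0
        rw [hV, sub_eq_zero] at h0
        apply hne
        apply (shE ℤ (u : ℤ)).injective
        apply (toB ℤ).injective
        show F2 R u = F2 R' u
        have hd1 := (hT1mem _ (Finset.mem_coe.1 ht)).1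
        have hd2 := (hT1mem _ (Finset.mem_coe.1 ht')).1
        simp only at hd1 hd2
        ext1 j
        by_cases hj : j < F.totalDegree - 4 + 1
        · have h5 := congrArg (fun p => coeff p j) h0
          simp only [RR_coeff, if_pos hj] at h5
          have h6 : (C ((lc F u) ^ (F.totalDegree - 1 - j)) : ℤ[X]) ≠ 0 := by
            rw [Ne, C_eq_zero]
            exact pow_ne_zero _ hcl
          exact mul_right_cancel₀ h6 h5
        · rw [coeff_eq_zero_of_natDegree_lt, coeff_eq_zero_of_natDegree_lt]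
          · have := (TD_toB (u : ℤ) R').1
            rw [F2]; omega
          · have := (TD_toB (u : ℤ) R).1
            rw [F2]; omega
      have hVn : V.natDegree ≤ d - 4 := by
        rw [hV]; exact (natDegree_sub_le _ _).trans (max_le p2.1 q2.1)
      have hm' : (GG F u + RR F R u).Monic := by
        apply (GG_monic hcl).add_of_left
        apply degree_lt_degree
        rw [GG_natDegree hcl, ← hdd]
        have := p2.1; omega
      have hdm' : (GG F u + RR F R u).natDegree = d := by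
        rw [natDegree_add_eq_left_of_natDegree_lt, GG_natDegree hcl, hdd]
        rw [GG_natDegree hcl, ← hdd]
        have := p2.1; omega
      have hVd : V.degree < d := by
        rw [degree_eq_natDegree hV0]
        exact_mod_cast (show V.natDegree < d by omega)
      have ha1 : (1 : ℝ) ≤ |((y - u * x : ℤ) : ℝ)| := (one_le_pow₀ hK1).trans p1
      have ha0 : (y - u * x : ℤ) ≠ 0 := by
        intro h; rw [h] at ha1; simp at ha1; linarith
      have h5 := small_curve (GG F u + RR F R u) d (by omega) hm' hdm' p4 (y - u * x)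
        (lc F u * x) ha0 p5 V hV0 hVd hVev (2 * M) (by
          rw [hV]
          exact (map_sub_le_add _ _ _).trans (by linarith))
      have h6 : (d.factorial : ℝ) * (2 * M * (1 + pn (pn zn) (GG F u + RR F R u)) ^ d) ^ d
          ≤ K ^ (2 * d ^ 2 + d) := by
        have h7 : (d.factorial : ℝ) ≤ K ^ (d ^ 2) := by
          rw [hK]; exact fact_le_pow (by linarith)
        have h8 : 1 + pn (pn zn) (GG F u + RR F R u) ≤ K := by
          have := map_add_le_add (pn (pn zn)) (GG F u) (RR F R u)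
          linarith
        have h9 : 0 ≤ pn (pn zn) (GG F u + RR F R u) := apply_nonneg _ _
        calc _ ≤ K ^ (d ^ 2) * (K * K ^ d) ^ d := by
              apply mul_le_mul h7 _ (by positivity) (by positivity)
              apply pow_le_pow_left₀ (by positivity)
              apply mul_le_mul (by linarith) (pow_le_pow_left₀ (by linarith) h8 _) (by positivity)
                (by linarith)
          _ = _ := by
              rw [← pow_succ', ← pow_mul, ← pow_add]; congr 1; ring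
      have h10 : K ^ (2 * d ^ 2 + d) < K ^ (E1 d) := by
        apply pow_lt_pow_right₀ (by linarith)
        unfold E1
        have h11 := one_le_kap d
        have h12 : d ^ 2 ≤ d ^ 5 := Nat.pow_le_pow_right (by omega) (by norm_num)
        have h13 : d ≤ d ^ 5 := Nat.le_self_pow (by norm_num) d
        have h14 : 1 ≤ d ^ 5 := Nat.one_le_pow _ _ (by omega)
        calc 2 * d ^ 2 + d < 1280 * d ^ 5 * 1 := by omega
          _ ≤ _ := Nat.mul_le_mul_left _ h11
      linarith
    rw [hRR]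
  have hcard : (T1.image φ).card = T1.card := Finset.card_image_of_injOn hinj
  have hfinal := mono_count (d := d) (by omega) (GG_monic hcl) (by rw [GG_natDegree hcl, hdd])
    (by rw [hdd]; exact GG_TD hcl) hM1 hpnG
    (by rw [hdd]; exact lead_irr hcl (by omega) hirr)
    (by
      intro η hη
      rw [hdd] at hη ⊢
      obtain ⟨hgm, hgd⟩ := lead_monic (GG_monic hcl) (GG_natDegree hcl)
      have hder0 : derivative (lead F.totalDegree (GG F u)) ≠ 0 := by
        intro h
        have h1 := natDegree_eq_zero_of_derivative_eq_zero h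
        omega
      have hn := nrm_ne_of_irr_deg hgm hgd (lead_irr hcl (by omega) hirr) _ hder0 (by
        have := natDegree_derivative_le (lead F.totalDegree (GG F u)); omega)
      apply flex_of_lines hcl hd hlines η hη
      intro h0
      have h5 := dvd_nrm (Int.castRingHom ℝ) η (lead F.totalDegree (GG F u)) F.totalDegree
        (by omega) hgm hgd hη (derivative (lead F.totalDegree (GG F u)))
      have h6 : eval₂ (Int.castRingHom ℝ) η (derivative (lead F.totalDegree (GG F u))) = 0 := h0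
      rw [h6, zero_dvd_iff, eq_intCast] at h5
      exact hn (by exact_mod_cast h5))
    (T1.image φ) (by
      intro P hP
      rw [Finset.mem_image] at hP
      obtain ⟨t, ht, rfl⟩ := hP
      obtain ⟨p1, p2, p3, p4, p5⟩ := hprop t ht
      rw [hφ]
      simp only
      rw [← hK]
      exact ⟨p1, RR F t.1 u, p2, p3, p4, p5⟩)
  rw [hcard, hT1card, ← hdd] at hfinal
  have := kN_ge d
  omega

end Pool.Agent.H322R2
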