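import Pool.Agent.H322R2.DRed
import Pool.Agent.H322R2.DLine
import Pool.Agent.H322R2.DFlex
import Pool.Agent.H322R2.Final2

/-!
All fibres: large integer points on the curves `F = t`.
-/

open Polynomial Finset IntermediateField

namespace Pool.Agent.H322R2

theorem mono_countD {d : ℕ} (hd : 4 ≤ d) {G : ℤ[X][X]} (hm : G.Monic) (hdeg : G.natDegree = d)
    (hT : TD d G) {H : ℝ} (hH : 1 ≤ H) (hG : pn (pn zn) G ≤ H)
    (hirr : Irreducible ((lead d G).map (Int.castRingHom ℚ)))
    (N : ℕ) (T : Finset (ℤ × ℤ)) (hN : ∀ S ⊆ T, Col S → S.card ≤ N)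
    (hP : ∀ P ∈ T, (2 + 2 * H) ^ (E1 d) ≤ |(P.1 : ℝ)| ∧
      ∃ R : ℤ[X][X], TD (d - 4) R ∧ pn (pn zn) R ≤ H ∧ Prime (G + R) ∧ ev P.1 P.2 (G + R) = 0) :
    T.card ≤ (160 * d ^ 2 * kap d + N * (8 * kap d)) * d := by
  classical
  have hd0 : 0 < d := by omega
  obtain ⟨hgm, hgd⟩ := lead_monic hm hdeg
  have hder0 : derivative (lead d G) ≠ 0 := by
    intro h
    have h1 := natDegree_eq_zero_of_derivative_eq_zero h
    omega
  have hn := nrm_ne_of_irr_deg hgm hgd hirr _ hder0 (by
        have := natDegree_derivative_le (lead d G); omega)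
  have hsel : ∀ P ∈ T, ∃ η : ℝ, evf η (lead d G) = 0 ∧ |(P.2 : ℝ) / P.1 - η| ≤ cR d (2 * H) := by
    intro P hPT
    obtain ⟨h1, R, hR1, hR2, hR3, hR4⟩ := hP P hPT
    have hT' := TD_add hd hT hR1
    have hlead := lead_add_of_TD (G := G) hd hR1 0 (by omega)
    rw [Nat.sub_zero] at hlead
    have hpn' : pn (pn zn) (G + R) ≤ 2 * H := (map_add_le_add _ _ _).trans (by linarith)
    have hRn : R.natDegree < G.natDegree := by have := hR1.1; omega
    have hm' : (G + R).Monic := hm.add_of_left (degree_lt_degree hRn)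
    have hdeg' : (G + R).natDegree = d := by
      rw [natDegree_add_eq_left_of_natDegree_lt hRn, hdeg]
    have hP1 : (1 : ℝ) ≤ |(P.1 : ℝ)| := (one_le_pow₀ (by linarith)).trans h1
    have hP0 : P.1 ≠ 0 := by
      intro h; rw [h] at hP1; simp at hP1; linarith
    obtain ⟨η, e1, e2, -, -⟩ := root_sel hd0 hm' hdeg' hT' (show 1 ≤ 2 * H by linarith) hpn'
      (by rw [hlead]; exact hn) P.1 P.2 hP0 hR4 (by
        refine (thr_le hd0 (show 1 ≤ 2 * H by linarith)).trans (le_trans ?_ h1)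
        apply pow_le_pow_right₀ (by linarith)
        unfold E1
        have h5 := one_le_kap d
        have h6 : d ^ 3 ≤ d ^ 5 := Nat.pow_le_pow_right hd0 (by norm_num)
        calc 128 * d ^ 3 ≤ 1280 * d ^ 5 * 1 := by omega
          _ ≤ _ := Nat.mul_le_mul_left _ h5)
    rw [hlead] at e1
    exact ⟨η, e1, e2⟩
  choose! f hf1 hf2 using hsel
  obtain ⟨S, hS⟩ : ∃ S, S = ((lead d G).map (Int.castRingHom ℝ)).roots.toFinset := ⟨_, rfl⟩
  have hg0 : (lead d G).map (Int.castRingHom ℝ) ≠ 0 := (hgm.map _).ne_zero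
  have hmem : ∀ η : ℝ, η ∈ S ↔ evf η (lead d G) = 0 := by
    intro η
    rw [hS, Multiset.mem_toFinset, mem_roots hg0, IsRoot.def, eval_map, evf, coe_eval₂RingHom]
  have hScard : S.card ≤ d := by
    rw [hS]
    refine (Multiset.toFinset_card_le _).trans ((card_roots' _).trans ?_)
    rw [hgm.natDegree_map, hgd]
  have h1 := Finset.card_le_mul_card_image_of_maps_to (s := T) (t := S) (f := f)
    (fun P hPT => (hmem _).2 (hf1 P hPT)) (160 * d ^ 2 * kap d + N * (8 * kap d)) (by
      intro η hη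
      have hη0 := (hmem η).1 hη
      have hP' : ∀ P ∈ T.filter (fun P => f P = η), (2 + 2 * H) ^ (E1 d) ≤ |(P.1 : ℝ)| ∧
          |(P.2 : ℝ) / P.1 - η| ≤ cR d (2 * H) ∧
          ∃ R : ℤ[X][X], TD (d - 4) R ∧ pn (pn zn) R ≤ H ∧ Prime (G + R) ∧
            ev P.1 P.2 (G + R) = 0 := by
        intro P hPT
        rw [Finset.mem_filter] at hPT
        obtain ⟨h1, h2⟩ := hP P hPT.1
        refine ⟨h1, ?_, h2⟩
        have := hf2 P hPT.1
        rwa [hPT.2] at this
      by_cases hflex : evf η (gp d G) = 0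
      · have := flex_root hd hm hdeg hT hH hG hirr η hη0 hflex N (T.filter (fun P => f P = η))
          (fun S hS => hN S (hS.trans (Finset.filter_subset _ _))) hP'
        omega
      · have := root_count hd hm hdeg hT hH hG hirr η hη0 hflex (T.filter (fun P => f P = η)) hP'
        omega)
  exact h1.trans (Nat.mul_le_mul_left _ hScard)

lemma pert_point {F : MvPolynomial (Fin 2) ℤ} {H u d : ℕ} (hdd : d = F.totalDegree)
    (hd : 4 ≤ F.totalDegree)
    (hirr : Irreducible (MvPolynomial.map (Int.castRingHom ℚ)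
      (MvPolynomial.homogeneousComponent F.totalDegree F)))
    (hFH : len F ≤ H) (hF0 : F ≠ 0) (hu : u ≤ F.totalDegree) (hcl : lc F u ≠ 0) {M K : ℝ}
    (hM : M = ((H : ℝ) * (1 + d) ^ d) ^ d) (hK : K = 2 + 2 * M) :
    1 ≤ M ∧ pn (pn zn) (GG F u) ≤ M ∧
    ∀ (R : MvPolynomial (Fin 2) ℤ) (x y : ℤ), R.totalDegree + 4 ≤ F.totalDegree →
      len R ≤ H → MvPolynomial.eval ![x, y] (F + R) = 0 →
      ((F.totalDegree + 1) * H) ^ (kC F.totalDegree) < max x.natAbs y.natAbs →
      K ^ (E1 d) ≤ |((y - u * x : ℤ) : ℝ)| ∧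
      TD (d - 4) (RR F R u) ∧ pn (pn zn) (RR F R u) ≤ M ∧ Prime (GG F u + RR F R u) ∧
      ev (y - u * x) (lc F u * x) (GG F u + RR F R u) = 0 := by
  have hH1 : (1 : ℝ) ≤ H := by
    have := len_pos hF0
    have h2 : 1 ≤ H := this.trans hFH
    exact_mod_cast h2
  have hd4 : (4 : ℝ) ≤ d := by rw [hdd]; exact_mod_cast hd
  obtain ⟨w, hw⟩ : ∃ w : ℝ, w = ((d : ℝ) + 1) * (H : ℝ) := ⟨_, rfl⟩
  have hw5 : 5 ≤ w := by rw [hw]; nlinarith
  obtain ⟨H2, hH2⟩ : ∃ H2 : ℝ, H2 = (H : ℝ) * (1 + d) ^ d := ⟨_, rfl⟩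
  have hH21 : 1 ≤ H2 := by
    rw [hH2]
    exact one_le_mul_of_one_le_of_one_le hH1 (one_le_pow₀ (by linarith))
  have hpn2 : ∀ R : MvPolynomial (Fin 2) ℤ, R.totalDegree ≤ d → len R ≤ H →
      pn (pn zn) (F2 R u) ≤ H2 := by
    intro R hR1 hR2
    refine (pn_toB_le u R).trans ?_
    rw [hH2]
    apply mul_le_mul
    · exact_mod_cast hR2
    · have h3 : (1 + (u : ℝ)) ^ R.totalDegree ≤ (1 + d) ^ R.totalDegree := by
        apply pow_le_pow_left₀ (by positivity)
        have : (u : ℝ) ≤ d := by rw [hdd]; exact_mod_cast hu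
        linarith
      refine h3.trans ?_
      exact pow_le_pow_right₀ (by linarith) hR1
    · positivity
    · linarith
  rw [← hH2] at hM
  have hM1 : 1 ≤ M := by rw [hM]; exact one_le_pow₀ hH21
  have hMw : M ≤ w ^ (d ^ 2) := by
    rw [hM, hH2, sq, pow_mul]
    apply pow_le_pow_left₀ (by positivity)
    rw [hw, mul_pow, mul_comm, add_comm 1 (d : ℝ)]
    apply mul_le_mul_of_nonneg_left _ (by positivity)
    calc (H : ℝ) = (H : ℝ) ^ 1 := by rw [pow_one]
      _ ≤ _ := pow_le_pow_right₀ hH1 (by omega)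
  have hpnF : pn (pn zn) (F2 F u) ≤ H2 := hpn2 F hdd.ge hFH
  have hpnG : pn (pn zn) (GG F u) ≤ M := by
    rw [hM, hdd]
    exact pn_GG hcl hH21 hpnF (by omega)
  have hK1 : 1 ≤ K := by linarith
  have hKw : K ≤ w ^ (d ^ 2 + 1) := by
    rw [pow_succ]
    nlinarith
  have hKE : K ^ (E1 d) ≤ w ^ ((d ^ 2 + 1) * E1 d) := by
    rw [pow_mul]; exact pow_le_pow_left₀ (by linarith) hKw _
  refine ⟨hM1, hpnG, ?_⟩
  intro R x y h1 h2 h3 h4
  obtain ⟨a, ha⟩ : ∃ a : ℤ, a = y - u * x := ⟨_, rfl⟩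
  rw [← ha]
  have hGp := GG_pert hcl hd h1
  have hcl' : lc (F + R) u ≠ 0 := by rw [lc_pert hd h1]; exact hcl
  have hdeg' := totalDegree_pert hd h1
  have hRR1 : TD (d - 4) (RR F R u) := by rw [hdd]; exact RR_TD h1
  have hRR2 : pn (pn zn) (RR F R u) ≤ M := by
    rw [hM, hdd]
    exact pn_RR hH21 hpnF (hpn2 R (by omega) h2) hcl (by omega)
  have hirrF : Irreducible (MvPolynomial.map (Int.castRingHom ℚ) (F + R)) := by
    have hinj : Function.Injective (Int.castRingHom ℚ) := Int.cast_injective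
    have e1 : (MvPolynomial.map (Int.castRingHom ℚ) (F + R)).totalDegree = F.totalDegree := by
      rw [MvPolynomial.totalDegree, MvPolynomial.support_map_of_injective _ hinj,
        ← MvPolynomial.totalDegree, hdeg']
    apply irr_of_lead
    · rw [e1]; omega
    · rw [e1]
      have e2 : MvPolynomial.homogeneousComponent F.totalDegree
          (MvPolynomial.map (Int.castRingHom ℚ) (F + R))
          = MvPolynomial.map (Int.castRingHom ℚ)
            (MvPolynomial.homogeneousComponent F.totalDegree (F + R)) := by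
        ext m
        rw [MvPolynomial.coeff_homogeneousComponent, MvPolynomial.coeff_map,
          MvPolynomial.coeff_map, MvPolynomial.coeff_homogeneousComponent]
        split_ifs <;> simp
      have e3 := comp_pert hd h1
      rw [hdeg'] at e3
      rw [e2, e3]
      exact hirr
  have hprime : Prime (GG F u + RR F R u) := by
    rw [← hGp]
    exact GG_prime hcl' (by omega) hirrF
  have hzero : ev a (lc F u * x) (GG F u + RR F R u) = 0 := by
    rw [← hGp, ← lc_pert (u := u) hd h1, ev_GG hcl' (by omega)]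
    have h5 := ev_toB (S := ℤ) x a (shE ℤ u (F + R))
    have h6 : MvPolynomial.eval₂ (Int.castRingHom ℤ) ![x, a] (shE ℤ u (F + R))
        = MvPolynomial.eval ![x, a] (shE ℤ u (F + R)) := by
      rw [MvPolynomial.eval, MvPolynomial.coe_eval₂Hom]
      congr 1
    rw [h6, eval_shE] at h5
    have h7 : (![(![x, a] : Fin 2 → ℤ) 0, (![x, a] : Fin 2 → ℤ) 1 + u * (![x, a] : Fin 2 → ℤ) 0]
        : Fin 2 → ℤ) = ![x, y] := by
      ext i
      fin_cases i
      · simp
      · simp [ha]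
    rw [h7, h3] at h5
    rw [F2, h5, mul_zero]
  refine ⟨?_, hRR1, hRR2, hprime, hzero⟩
  by_contra hsmall
  push_neg at hsmall
  have hm' : (GG F u + RR F R u).Monic := by rw [← hGp]; exact GG_monic hcl'
  have hdm' : (GG F u + RR F R u).natDegree = d := by rw [← hGp, GG_natDegree hcl', hdeg', hdd]
  have hTm' : TD d (GG F u + RR F R u) := by
    have := GG_TD hcl'
    rw [hdeg', hGp] at this
    rw [hdd]; exact this
  have hpnm' : pn (pn zn) (GG F u + RR F R u) ≤ 2 * M :=
    (map_add_le_add _ _ _).trans (by linarith)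
  have hbb := abs_b_le hm' hdm' hTm' (show 1 ≤ 2 * M by linarith) hpnm' a (lc F u * x) hzero
  have hlc1 : 1 ≤ |((lc F u : ℤ) : ℝ)| := by
    have : 1 ≤ |lc F u| := Int.one_le_abs hcl
    exact_mod_cast this
  have hxb : |(x : ℝ)| ≤ 2 * M * max 1 |(a : ℝ)| := by
    refine le_trans ?_ hbb
    push_cast
    rw [abs_mul]
    exact le_mul_of_one_le_left (abs_nonneg _) hlc1
  have hmax : max 1 |(a : ℝ)| ≤ K ^ (E1 d) := max_le (one_le_pow₀ hK1) hsmall.le
  obtain ⟨B, hB⟩ : ∃ B, B = K ^ (E1 d) := ⟨_, rfl⟩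
  rw [← hB] at hmax hsmall
  have hB1 : 1 ≤ B := by rw [hB]; exact one_le_pow₀ hK1
  have hx1 : |(x : ℝ)| ≤ 2 * M * B := hxb.trans (mul_le_mul_of_nonneg_left hmax (by linarith))
  have hy1 : |(y : ℝ)| ≤ (d + 1) * (2 * M) * B := by
    have h5 : (y : ℝ) = a + u * x := by rw [ha]; push_cast; ring
    rw [h5]
    refine (abs_add_le _ _).trans ?_
    rw [abs_mul, Nat.abs_cast]
    have h6 : (u : ℝ) ≤ d := by rw [hdd]; exact_mod_cast hu
    have h7 : (u : ℝ) * |(x : ℝ)| ≤ d * (2 * M * B) :=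
      mul_le_mul h6 hx1 (abs_nonneg _) (by linarith)
    have h8 : B ≤ 2 * M * B := le_mul_of_one_le_left (by linarith) (by linarith)
    have h9 : ((d : ℝ) + 1) * (2 * M) * B = 2 * M * B + d * (2 * M * B) := by ring
    linarith
  have hx2 : |(x : ℝ)| ≤ (d + 1) * (2 * M) * B := by
    refine hx1.trans ?_
    apply mul_le_mul_of_nonneg_right _ (by linarith)
    nlinarith
  have hfinal : (d + 1) * (2 * M) * B ≤ w ^ (kC d) := by
    have h5 : (d + 1) * (2 * M) ≤ w ^ (d ^ 2 + 2) := by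
      have h6 : 2 * M ≤ w ^ (d ^ 2 + 1) := by linarith
      have h7 : (d : ℝ) + 1 ≤ w := by
        rw [hw]; exact le_mul_of_one_le_right (by linarith) hH1
      calc ((d : ℝ) + 1) * (2 * M) ≤ w * w ^ (d ^ 2 + 1) :=
            mul_le_mul h7 h6 (by linarith) (by linarith)
        _ = w ^ (d ^ 2 + 2) := by rw [mul_comm, ← pow_succ]
    calc (d + 1) * (2 * M) * B ≤ w ^ (d ^ 2 + 2) * w ^ ((d ^ 2 + 1) * E1 d) := by
          rw [hB]
          exact mul_le_mul h5 hKE (by positivity) (by positivity)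
      _ = w ^ (d ^ 2 + 2 + (d ^ 2 + 1) * E1 d) := by rw [← pow_add]
      _ ≤ _ := pow_le_pow_right₀ (by linarith) (kC_ge (by omega))
  have hwc : w ^ (kC d) = ((((d + 1) * H) ^ (kC d) : ℕ) : ℝ) := by rw [hw]; push_cast; ring
  have hfx : x.natAbs ≤ ((d + 1) * H) ^ (kC d) := by
    have h5 : ((x.natAbs : ℕ) : ℝ) ≤ ((((d + 1) * H) ^ (kC d) : ℕ) : ℝ) := by
      rw [Nat.cast_natAbs, Int.cast_abs, ← hwc]
      exact hx2.trans hfinal
    exact_mod_cast h5
  have hfy : y.natAbs ≤ ((d + 1) * H) ^ (kC d) := by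
    have h5 : ((y.natAbs : ℕ) : ℝ) ≤ ((((d + 1) * H) ^ (kC d) : ℕ) : ℝ) := by
      rw [Nat.cast_natAbs, Int.cast_abs, ← hwc]
      exact hy1.trans hfinal
    exact_mod_cast h5
  rw [← hdd] at h4
  exact absurd h4 (not_lt.2 (max_le hfx hfy))

/-- a real slope of full degree forces the leading form to be irreducible -/
lemma irr_of_slope {φ : MvPolynomial (Fin 2) ℚ} {d : ℕ} (hd : 1 ≤ d) (hφ : φ.IsHomogeneous d)
    (hφ0 : φ ≠ 0) (s : ℝ) (hs : MvPolynomial.aeval ![1, s] φ = 0)
    (hfin : Module.finrank ℚ ℚ⟮s⟯ = d) : Irreducible φ := by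
  have hdeg : φ.totalDegree = d := hφ.totalDegree hφ0
  -- nonzero homogeneous polynomials of smaller degree do not vanish at `(1, s)`
  have key : ∀ (A : MvPolynomial (Fin 2) ℚ) (k : ℕ), A.IsHomogeneous k → A ≠ 0 → k < d →
      MvPolynomial.aeval ![1, s] A ≠ 0 := by
    intro A k hA hA0 hk h0
    obtain ⟨A1, hA1⟩ : ∃ A1 : ℚ[X], A1 = ∑ m ∈ A.support, C (A.coeff m) * X ^ (m 1) := ⟨_, rfl⟩
    have hm0 : ∀ m ∈ A.support, m 0 + m 1 = k := by
      intro m hm
      rw [← degree_fin2, Finsupp.degree_eq_weight_one]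
      exact hA (MvPolynomial.mem_support_iff.1 hm)
    have hroot : aeval s A1 = 0 := by
      rw [← h0, hA1, map_sum, MvPolynomial.aeval_def, MvPolynomial.eval₂_eq']
      apply Finset.sum_congr rfl
      intro m _
      rw [Fin.prod_univ_two]
      simp
    have hA1d : A1.natDegree ≤ k := by
      rw [hA1]
      apply natDegree_sum_le_of_forall_le
      intro m hm
      refine (natDegree_C_mul_X_pow_le _ _).trans ?_
      have := hm0 m hm
      omega
    have hA10 : A1 ≠ 0 := by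
      obtain ⟨m, hm⟩ := MvPolynomial.support_nonempty.2 hA0
      intro h
      have h1 := congrArg (fun f => coeff f (m 1)) h
      simp only [coeff_zero] at h1
      rw [hA1, finsetSum_coeff, Finset.sum_eq_single m] at h1
      · rw [coeff_C_mul, coeff_X_pow, if_pos rfl, mul_one] at h1
        exact (MvPolynomial.mem_support_iff.1 hm) h1
      · intro n hn hnm
        rw [coeff_C_mul, coeff_X_pow, if_neg, mul_zero]
        intro h2
        apply hnm
        ext i
        have e1 := hm0 m hm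
        have e2 := hm0 n hn
        fin_cases i
        · simp only [Fin.zero_eta, Fin.isValue]; omega
        · simp only [Fin.mk_one, Fin.isValue]; omega
      · intro h2; exact absurd hm h2
    have hint : IsIntegral ℚ s := by
      have : IsAlgebraic ℚ s := ⟨A1, hA10, hroot⟩
      exact this.isIntegral
    have h1 := IntermediateField.adjoin.finrank hint
    have h2 := natDegree_le_of_dvd (minpoly.dvd ℚ s hroot) hA10
    omega
  constructor
  · intro hu
    have := totalDegree_of_isUnit hu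
    omega
  · intro A B hAB
    have hA0 : A ≠ 0 := by rintro rfl; rw [zero_mul] at hAB; exact hφ0 hAB
    have hB0 : B ≠ 0 := by rintro rfl; rw [mul_zero] at hAB; exact hφ0 hAB
    have h1 := MvPolynomial.totalDegree_mul_of_isDomain hA0 hB0
    rw [← hAB, hdeg] at h1
    have h2 := homogeneousComponent_mul_top A B
    rw [← h1, ← hAB, MvPolynomial.homogeneousComponent_of_mem hφ, if_pos rfl] at h2
    rw [h2, map_mul] at hs
    by_contra hcon
    push_neg at hcon
    have hAd : A.totalDegree ≠ 0 := fun h => hcon.1 (isUnit_of_totalDegree_zero hA0 h)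
    have hBd : B.totalDegree ≠ 0 := fun h => hcon.2 (isUnit_of_totalDegree_zero hB0 h)
    rcases mul_eq_zero.1 hs with h | h
    · exact key _ _ (MvPolynomial.homogeneousComponent_isHomogeneous _ _) (comp_top_ne_zero hA0)
        (by omega) h
    · exact key _ _ (MvPolynomial.homogeneousComponent_isHomogeneous _ _) (comp_top_ne_zero hB0)
        (by omega) h

end Pool.Agent.H322R2
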