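import Pool.Agent.H322R2.DFin

/-!
All fibres: final statement.
-/

open Polynomial Finset IntermediateField

namespace Pool.Agent.H322R2

/-- exponent of the bound -/
def kD (d : ℕ) : ℕ := 2 * 10 ^ 11 * 36 ^ d * (d + 1) ^ 13

lemma kD_eq (d : ℕ) : kD d = 2 * kE d := by unfold kD kE; ring

lemma kC_le_kD (d : ℕ) : kC d ≤ kD d := by
  unfold kC kD
  have h1 : (d + 1) ^ 11 ≤ (d + 1) ^ 13 := Nat.pow_le_pow_right (by omega) (by norm_num)
  calc 10 ^ 10 * 36 ^ d * (d + 1) ^ 11 ≤ 10 ^ 10 * 36 ^ d * (d + 1) ^ 13 :=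
        Nat.mul_le_mul_left _ h1
    _ ≤ _ := by
      apply Nat.mul_le_mul_right
      apply Nat.mul_le_mul_right
      norm_num

lemma len_C_le {t : ℤ} : len (-MvPolynomial.C t : MvPolynomial (Fin 2) ℤ) ≤ t.natAbs := by
  classical
  unfold len
  rw [← map_neg]
  by_cases ht : -t = 0
  · rw [ht, map_zero]; simp
  · have h1 : (MvPolynomial.C (-t) : MvPolynomial (Fin 2) ℤ).support = {0} := by
      rw [MvPolynomial.support_C, if_neg ht]
    rw [h1, Finset.sum_singleton, MvPolynomial.coeff_C, if_pos rfl, Int.natAbs_neg]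

lemma len_add_le (A B : MvPolynomial (Fin 2) ℤ) : len (A + B) ≤ len A + len B := by
  classical
  unfold len
  have e1 : ∑ m ∈ (A + B).support, ((A + B).coeff m).natAbs
      ≤ ∑ m ∈ A.support ∪ B.support, ((A + B).coeff m).natAbs :=
    Finset.sum_le_sum_of_subset MvPolynomial.support_add
  have e2 : ∑ m ∈ A.support, (A.coeff m).natAbs = ∑ m ∈ A.support ∪ B.support, (A.coeff m).natAbs := by
    apply Finset.sum_subset Finset.subset_union_left
    intro m _ hm
    rw [MvPolynomial.notMem_support_iff] at hm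
    rw [hm]; rfl
  have e3 : ∑ m ∈ B.support, (B.coeff m).natAbs = ∑ m ∈ A.support ∪ B.support, (B.coeff m).natAbs := by
    apply Finset.sum_subset Finset.subset_union_right
    intro m _ hm
    rw [MvPolynomial.notMem_support_iff] at hm
    rw [hm]; rfl
  rw [e2, e3, ← Finset.sum_add_distrib]
  refine e1.trans (Finset.sum_le_sum ?_)
  intro m _
  rw [MvPolynomial.coeff_add]
  exact Int.natAbs_add_le _ _

/-- the number of large fibres, irreducible leading form -/
theorem mainD_irr (F : MvPolynomial (Fin 2) ℤ) (H m : ℕ) (hd : 4 ≤ F.totalDegree)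
    (hirr : Irreducible (MvPolynomial.map (Int.castRingHom ℚ)
      (MvPolynomial.homogeneousComponent F.totalDegree F)))
    (hFH : len F ≤ H) (hm1 : 1 ≤ m) (hHm : H ≤ m ^ F.totalDegree) (T : Finset ℤ)
    (hT : ∀ t ∈ T, |t| ≤ (H : ℤ) ∧ ∃ x y : ℤ, MvPolynomial.eval ![x, y] F = t ∧
      ((F.totalDegree + 1) * H) ^ (kC F.totalDegree) < max x.natAbs y.natAbs) :
    T.card ≤ 200 * F.totalDegree ^ 3 * kap F.totalDegree * m := by
  classical
  obtain ⟨d, hdd⟩ : ∃ d, d = F.totalDegree := ⟨_, rfl⟩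
  have hF0 : F ≠ 0 := by
    rintro rfl
    simp at hd
  obtain ⟨u, hu, hcu⟩ := exists_u F hF0
  have hcl : lc F u ≠ 0 := hcu
  obtain ⟨M, hM⟩ : ∃ M : ℝ, M = ((H : ℝ) * (1 + d) ^ d) ^ d := ⟨_, rfl⟩
  obtain ⟨K, hK⟩ : ∃ K : ℝ, K = 2 + 2 * M := ⟨_, rfl⟩
  obtain ⟨hM1, hpnG, hpt⟩ := pert_point hdd hd hirr hFH hF0 hu hcl hM hK
  choose! hT1 x y hxy hbig using hT
  obtain ⟨f, hf⟩ : ∃ f : ℤ → ℤ × ℤ, f = fun t => (y t - u * x t, lc F u * x t) := ⟨_, rfl⟩
  have hinv : ∀ t ∈ T, ∀ t' ∈ T, f t = f t' → x t = x t' ∧ y t = y t' := by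
    intro t _ t' _ h
    rw [hf] at h
    simp only [Prod.mk.injEq] at h
    have h1 := mul_left_cancel₀ hcl h.2
    refine ⟨h1, ?_⟩
    have := h.1
    rw [h1] at this
    linarith
  have hinj : Set.InjOn f T := by
    intro t ht t' ht' h
    rw [Finset.mem_coe] at ht ht'
    obtain ⟨h1, h2⟩ := hinv t ht t' ht' h
    rw [← hxy t ht, ← hxy t' ht', h1, h2]
  have hcard : (T.image f).card = T.card := Finset.card_image_of_injOn hinj
  have hmain := mono_countD (d := d) (by omega) (GG_monic hcl) (by rw [GG_natDegree hcl, hdd])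
    (by rw [hdd]; exact GG_TD hcl) hM1 hpnG
    (by rw [hdd]; exact lead_irr hcl (by omega) hirr) (d * (2 * m + 1)) (T.image f) (by
      intro S hS hcol
      obtain ⟨S0, hS0, hSS⟩ := Finset.subset_image_iff.1 hS
      have hS0T : ∀ t ∈ S0, t ∈ T := fun t ht => Finset.mem_coe.1 (hS0 (Finset.mem_coe.2 ht))
      have hSc : S.card = S0.card := by
        rw [← hSS]
        exact Finset.card_image_of_injOn (hinj.mono hS0)
      obtain ⟨S1, hS1⟩ : ∃ S1 : Finset (ℤ × ℤ), S1 = S0.image (fun t => (x t, y t)) := ⟨_, rfl⟩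
      have hS1c : S1.card = S0.card := by
        rw [hS1]
        apply Finset.card_image_of_injOn
        intro t ht t' ht' h
        rw [Finset.mem_coe] at ht ht'
        simp only [Prod.mk.injEq] at h
        rw [← hxy t (hS0T t ht), ← hxy t' (hS0T t' ht'), h.1, h.2]
      rw [hSc, ← hS1c, hdd]
      apply col_count hcl (by omega) hirr hHm
      · intro P hP Q hQ R hR
        rw [hS1, Finset.mem_image] at hP hQ hR
        obtain ⟨p, hp, rfl⟩ := hP
        obtain ⟨q, hq, rfl⟩ := hQ
        obtain ⟨r, hr, rfl⟩ := hR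
        have hmem : ∀ t ∈ S0, f t ∈ S := by
          intro t ht
          rw [← hSS]
          exact Finset.mem_image_of_mem f ht
        have h1 := hcol (f p) (hmem p hp) (f q) (hmem q hq) (f r) (hmem r hr)
        rw [hf] at h1
        simp only at h1 ⊢
        have h2 : lc F u * ((x q - x p) * (y r - y p) - (x r - x p) * (y q - y p)) = 0 := by
          linear_combination (-1) * h1
        rcases mul_eq_zero.1 h2 with h | h
        · exact absurd h hcl
        · exact h
      · intro P hP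
        rw [hS1, Finset.mem_image] at hP
        obtain ⟨p, hp, rfl⟩ := hP
        rw [hxy p (hS0T p hp)]
        exact hT1 p (hS0T p hp)) (by
      intro P hP
      rw [Finset.mem_image] at hP
      obtain ⟨t, ht, rfl⟩ := hP
      have hev : MvPolynomial.eval ![x t, y t] (F + -MvPolynomial.C t) = 0 := by
        rw [map_add, map_neg, MvPolynomial.eval_C, hxy t ht]; ring
      obtain ⟨p1, p2, p3, p4, p5⟩ := hpt (-MvPolynomial.C t) (x t) (y t) (by
          rw [← map_neg, MvPolynomial.totalDegree_C]; omega) (by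
          refine len_C_le.trans ?_
          have := hT1 t ht
          rw [Int.abs_eq_natAbs] at this
          exact_mod_cast this) hev (hbig t ht)
      rw [hf, ← hK]
      exact ⟨p1, RR F (-MvPolynomial.C t) u, p2, p3, p4, p5⟩)
  rw [hcard] at hmain
  refine hmain.trans ?_
  rw [← hdd]
  have hd4 : 4 ≤ d := by omega
  have h1 := one_le_kap d
  obtain ⟨κ, hκ⟩ : ∃ κ, κ = kap d := ⟨_, rfl⟩
  rw [← hκ] at h1 ⊢
  have h2 : 160 * d ^ 2 * κ * d ≤ 160 * d ^ 3 * κ * m := by
    calc 160 * d ^ 2 * κ * d = 160 * d ^ 3 * κ * 1 := by ring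
      _ ≤ _ := Nat.mul_le_mul_left _ hm1
  have h3 : d * (2 * m + 1) * (8 * κ) * d ≤ 24 * d ^ 3 * κ * m := by
    have h4 : 2 * m + 1 ≤ 3 * m := by omega
    calc d * (2 * m + 1) * (8 * κ) * d ≤ d * (3 * m) * (8 * κ) * d := by gcongr
      _ = 24 * (d ^ 2 * 1) * κ * m := by ring
      _ ≤ 24 * (d ^ 2 * d) * κ * m := by gcongr; omega
      _ = _ := by ring
  calc (160 * d ^ 2 * κ + d * (2 * m + 1) * (8 * κ)) * d
      = 160 * d ^ 2 * κ * d + d * (2 * m + 1) * (8 * κ) * d := by ring
    _ ≤ 160 * d ^ 3 * κ * m + 24 * d ^ 3 * κ * m := Nat.add_le_add h2 h3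
    _ = 184 * (d ^ 3 * κ * m) := by ring
    _ ≤ 200 * (d ^ 3 * κ * m) := Nat.mul_le_mul_right _ (by norm_num)
    _ = _ := by ring

/-- the number of large fibres -/
theorem mainD (F : MvPolynomial (Fin 2) ℤ) (H m : ℕ) (hd : 4 ≤ F.totalDegree)
    (hsq : Squarefree (MvPolynomial.map (Int.castRingHom ℚ)
      (MvPolynomial.homogeneousComponent F.totalDegree F)))
    (hFH : len F ≤ H) (hm1 : 1 ≤ m) (hHm : H ≤ m ^ F.totalDegree) (T : Finset ℤ)
    (hT : ∀ t ∈ T, |t| ≤ (H : ℤ) ∧ ∃ x y : ℤ, MvPolynomial.eval ![x, y] F = t ∧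
      ((F.totalDegree + 1) * H) ^ (kD F.totalDegree) < max x.natAbs y.natAbs) :
    T.card ≤ 200 * F.totalDegree ^ 3 * kap F.totalDegree * m := by
  classical
  obtain ⟨c, hc1, hc⟩ := main1
  have hF0 : F ≠ 0 := by
    rintro rfl
    simp at hd
  have hH1 : 1 ≤ H := (len_pos hF0).trans hFH
  have hinjQ : Function.Injective (Int.castRingHom ℚ) := Int.cast_injective
  by_cases hirr : Irreducible (MvPolynomial.map (Int.castRingHom ℚ)
      (MvPolynomial.homogeneousComponent F.totalDegree F))
  · apply mainD_irr F H m hd hirr hFH hm1 hHm T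
    intro t ht
    obtain ⟨h1, x, y, h2, h3⟩ := hT t ht
    refine ⟨h1, x, y, h2, lt_of_le_of_lt ?_ h3⟩
    exact Nat.pow_le_pow_right (Nat.mul_pos (by omega) hH1) (kC_le_kD _)
  · -- every such fibre is reducible
    obtain ⟨FQ, hFQ⟩ : ∃ FQ, FQ = MvPolynomial.map (Int.castRingHom ℚ) F := ⟨_, rfl⟩
    have hFQd : FQ.totalDegree = F.totalDegree := by
      rw [hFQ, MvPolynomial.totalDegree, MvPolynomial.support_map_of_injective _ hinjQ,
        ← MvPolynomial.totalDegree]
    have hFQc : MvPolynomial.homogeneousComponent F.totalDegree FQ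
        = MvPolynomial.map (Int.castRingHom ℚ)
          (MvPolynomial.homogeneousComponent F.totalDegree F) := by
      ext n
      rw [hFQ, MvPolynomial.coeff_homogeneousComponent, MvPolynomial.coeff_map,
        MvPolynomial.coeff_map, MvPolynomial.coeff_homogeneousComponent]
      split_ifs <;> simp
    have hred : ∀ c ∈ T.image (fun t : ℤ => (t : ℚ)), ¬ Irreducible (FQ - MvPolynomial.C c) := by
      intro c' hc' hirr'
      rw [Finset.mem_image] at hc'
      obtain ⟨t, ht, rfl⟩ := hc'
      obtain ⟨h1, x, y, h2, h3⟩ := hT t ht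
      obtain ⟨F', hF'⟩ : ∃ F', F' = F + -MvPolynomial.C t := ⟨_, rfl⟩
      have hCd : (-MvPolynomial.C t : MvPolynomial (Fin 2) ℤ).totalDegree + 4 ≤ F.totalDegree := by
        rw [← map_neg, MvPolynomial.totalDegree_C]; omega
      have hdeg' := totalDegree_pert hd hCd
      have hcomp' := comp_pert hd hCd
      rw [← hF'] at hdeg' hcomp'
      have hlen' : len F' ≤ 2 * H := by
        rw [hF']
        have e1 := len_add_le F (-MvPolynomial.C t)
        have e2 := len_C_le (t := t)
        have e3 : t.natAbs ≤ H := by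
          rw [Int.abs_eq_natAbs] at h1
          exact_mod_cast h1
        omega
      have hirrF' : Irreducible (MvPolynomial.map (Int.castRingHom ℚ) F') := by
        have e1 : MvPolynomial.map (Int.castRingHom ℚ) F' = FQ - MvPolynomial.C (t : ℚ) := by
          rw [hF', map_add, map_neg, MvPolynomial.map_C, hFQ, sub_eq_add_neg]
          simp
        rw [e1]; exact hirr'
      have hsq' : Squarefree (MvPolynomial.map (Int.castRingHom ℚ)
          (MvPolynomial.homogeneousComponent F'.totalDegree F')) := by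
        rw [hcomp']; exact hsq
      have hev : MvPolynomial.eval ![x, y] F' = 0 := by
        rw [hF', map_add, map_neg, MvPolynomial.eval_C, h2]; ring
      rcases hc F' hirrF' (by omega) hsq' x y hev with ⟨hx, hy⟩ | ⟨s, hs0, hsf, -, -⟩
      · rw [hdeg'] at hx hy
        have e1 : ((F.totalDegree + 1) * len F') ^ kE F.totalDegree
            ≤ ((F.totalDegree + 1) * H) ^ kD F.totalDegree := by
          rw [kD_eq, pow_mul]
          apply Nat.pow_le_pow_left
          calc (F.totalDegree + 1) * len F' ≤ (F.totalDegree + 1) * (2 * H) :=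
                Nat.mul_le_mul_left _ hlen'
            _ = 2 * ((F.totalDegree + 1) * H) := by ring
            _ ≤ ((F.totalDegree + 1) * H) * ((F.totalDegree + 1) * H) := by
              apply Nat.mul_le_mul_right
              calc 2 ≤ (F.totalDegree + 1) * 1 := by omega
                _ ≤ _ := Nat.mul_le_mul_left _ hH1
            _ = _ := by ring
        have e2 := max_le (hx.trans e1) (hy.trans e1)
        exact absurd h3 (not_lt.2 e2)
      · apply hirr
        rw [hdeg'] at hsf
        rw [hcomp'] at hs0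
        have hhom : (MvPolynomial.map (Int.castRingHom ℚ)
            (MvPolynomial.homogeneousComponent F.totalDegree F)).IsHomogeneous F.totalDegree := by
          exact (MvPolynomial.homogeneousComponent_isHomogeneous _ _).map _
        apply irr_of_slope (by omega) hhom hsq.ne_zero s _ hsf
        rw [← hs0, MvPolynomial.aeval_def, MvPolynomial.aeval_def, MvPolynomial.eval₂_map]
        congr 1
    have h4 := few_red (F := FQ) (by rw [hFQd]; omega) (by rw [hFQd, hFQc]; exact hsq)
      (T.image (fun t : ℤ => (t : ℚ))) hred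
    rw [Finset.card_image_of_injective _ Int.cast_injective, hFQd] at h4
    refine h4.trans ?_
    obtain ⟨d, hdd⟩ : ∃ d, d = F.totalDegree := ⟨_, rfl⟩
    rw [← hdd] at hd ⊢
    have h5 : 2 ^ d ≤ kap d := by
      unfold kap
      have h6 : 2 ^ d ≤ 36 ^ d := Nat.pow_le_pow_left (by norm_num) _
      have h7 : 1 ≤ (d + 1) ^ 4 := Nat.one_le_pow _ _ (by omega)
      calc 2 ^ d ≤ 36 ^ d := h6
        _ = 1 * 36 ^ d * 1 := by ring
        _ ≤ _ := Nat.mul_le_mul (Nat.mul_le_mul_right _ (by norm_num)) h7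
    have h8 : 1 ≤ 200 * d ^ 3 := by
      have : 1 ≤ d ^ 3 := Nat.one_le_pow _ _ (by omega)
      omega
    calc 2 ^ d ≤ kap d := h5
      _ = 1 * kap d * 1 := by ring
      _ ≤ _ := Nat.mul_le_mul (Nat.mul_le_mul_right _ h8) hm1

end Pool.Agent.H322R2
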