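import Pool.Agent.H322R2.RedC

/-!
Few reducible fibres: for a polynomial whose leading form is squarefree, at most `2^d` of the
polynomials `F + c` are reducible.
-/

open MvPolynomial Finset

namespace Pool.Agent.H322R2

variable {K : Type*} [Field K]

lemma totalDegree_lt_of_comp {P : MvPolynomial (Fin 2) K} {k : ℕ} (hP : P ≠ 0)
    (h : P.totalDegree ≤ k) (h0 : homogeneousComponent k P = 0) : P.totalDegree < k := by
  rcases Nat.lt_or_ge P.totalDegree k with h1 | h1
  · exact h1
  · exfalso
    have h2 : P.totalDegree = k := le_antisymm h h1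
    rw [← h2] at h0
    exact comp_top_ne_zero hP h0

lemma const_of_two {A A' B B' : MvPolynomial (Fin 2) K} {k l : ℕ} (hk : 1 ≤ k) (hl : 1 ≤ l)
    (hA : A.totalDegree = k) (hA' : A'.totalDegree = k) (hB : B.totalDegree = l)
    (hB' : B'.totalDegree = l)
    (hAA : homogeneousComponent k A = homogeneousComponent k A')
    (hBB : homogeneousComponent l B = homogeneousComponent l B')
    (hco : IsRelPrime (homogeneousComponent k A) (homogeneousComponent l B))
    (c : K) (h : A * B - A' * B' = C c) : c = 0 := by
  obtain ⟨P, hP⟩ : ∃ P, P = A - A' := ⟨_, rfl⟩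
  obtain ⟨Q, hQ⟩ : ∃ Q, Q = B - B' := ⟨_, rfl⟩
  have hA0 : A ≠ 0 := by rintro rfl; simp at hA; omega
  have hB0' : B' ≠ 0 := by rintro rfl; simp at hB'; omega
  have hid : A * Q + P * B' = C c := by rw [← h, hP, hQ]; ring
  have hPd : P ≠ 0 → P.totalDegree < k := by
    intro h0
    apply totalDegree_lt_of_comp h0
    · rw [hP]
      refine (totalDegree_sub _ _).trans ?_
      rw [hA, hA', max_self]
    · rw [hP, map_sub, hAA, sub_self]
  have hQd : Q ≠ 0 → Q.totalDegree < l := by
    intro h0
    apply totalDegree_lt_of_comp h0
    · rw [hQ]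
      refine (totalDegree_sub _ _).trans ?_
      rw [hB, hB', max_self]
    · rw [hQ, map_sub, hBB, sub_self]
  have hCdeg : (C c : MvPolynomial (Fin 2) K).totalDegree = 0 := totalDegree_C c
  by_cases hP0 : P = 0
  · by_cases hQ0 : Q = 0
    · rw [hP0, hQ0, mul_zero, zero_mul, add_zero] at hid
      exact (C_injective (Fin 2) K) (by rw [← hid, map_zero])
    · exfalso
      rw [hP0, zero_mul, add_zero] at hid
      have h1 := totalDegree_mul_of_isDomain hA0 hQ0
      rw [hid, hCdeg] at h1
      omega
  · exfalso
    by_cases hQ0 : Q = 0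
    · rw [hQ0, mul_zero, zero_add] at hid
      have h1 := totalDegree_mul_of_isDomain hP0 hB0'
      rw [hid, hCdeg] at h1
      omega
    · have hPd' := hPd hP0
      have hQd' := hQd hQ0
      have h1 := totalDegree_mul_of_isDomain hA0 hQ0
      have h2 := totalDegree_mul_of_isDomain hP0 hB0'
      have hAQ0 : A * Q ≠ 0 := mul_ne_zero hA0 hQ0
      have hPB0 : P * B' ≠ 0 := mul_ne_zero hP0 hB0'
      rcases lt_trichotomy (A * Q).totalDegree (P * B').totalDegree with h3 | h3 | h3
      · have h4 := totalDegree_add_eq_right_of_totalDegree_lt h3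
        rw [hid, hCdeg] at h4
        omega
      · have h4 := homogeneousComponent_mul_top A Q
        have h5 := homogeneousComponent_mul_top P B'
        have h6 := congrArg (homogeneousComponent (A * Q).totalDegree) hid
        rw [map_add] at h6
        have h7 : homogeneousComponent (A * Q).totalDegree (C c : MvPolynomial (Fin 2) K) = 0 := by
          apply homogeneousComponent_eq_zero
          rw [hCdeg]; omega
        rw [h7] at h6
        rw [h1, h4, ← h1, h3, h2, h5, hA, hB'] at h6
        have h8 : homogeneousComponent k A ∣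
            homogeneousComponent P.totalDegree P * homogeneousComponent l B := by
          rw [hBB]
          refine ⟨-homogeneousComponent Q.totalDegree Q, ?_⟩
          linear_combination h6
        have h9 : homogeneousComponent k A ∣ homogeneousComponent P.totalDegree P :=
          hco.dvd_of_dvd_mul_right h8
        obtain ⟨W, hW⟩ := h9
        have hp0 := comp_top_ne_zero hP0
        have hW0 : W ≠ 0 := by
          rintro rfl; rw [mul_zero] at hW; exact hp0 hW
        have ha0 : homogeneousComponent k A ≠ 0 := by
          rw [← hA]; exact comp_top_ne_zero hA0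
        have h10 := totalDegree_mul_of_isDomain ha0 hW0
        rw [← hW, (homogeneousComponent_isHomogeneous _ P).totalDegree hp0,
          (homogeneousComponent_isHomogeneous k A).totalDegree ha0] at h10
        omega
      · have h4 := totalDegree_add_eq_left_of_totalDegree_lt h3
        rw [hid, hCdeg] at h4
        omega

lemma sub_factor (s : Multiset (MvPolynomial (Fin 2) K)) :
    (∀ p ∈ s, Prime p) → ∀ a : MvPolynomial (Fin 2) K, a ∣ s.prod →
    ∃ t ≤ s, Associated a t.prod := by
  classical
  induction s using Multiset.induction_on with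
  | empty =>
    intro _ a ha
    refine ⟨0, le_rfl, ?_⟩
    rw [Multiset.prod_zero] at ha ⊢
    exact associated_one_iff_isUnit.2 (isUnit_of_dvd_one ha)
  | cons p s ih =>
    intro hs a ha
    have hs' : ∀ q ∈ s, Prime q := fun q hq => hs q (Multiset.mem_cons_of_mem hq)
    have hp : Prime p := hs p (Multiset.mem_cons_self p s)
    rw [Multiset.prod_cons] at ha
    rcases hp.left_dvd_or_dvd_right_of_dvd_mul ha with h | h
    · obtain ⟨b, rfl⟩ := h
      have hb : b ∣ s.prod := (mul_dvd_mul_iff_left hp.ne_zero).1 ha
      obtain ⟨t, ht, hbt⟩ := ih hs' b hb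
      refine ⟨p ::ₘ t, Multiset.cons_le_cons p ht, ?_⟩
      rw [Multiset.prod_cons]
      exact Associated.mul_left p hbt
    · obtain ⟨t, ht, hat⟩ := ih hs' a h
      exact ⟨t, ht.trans (Multiset.le_cons_self s p), hat⟩

lemma card_le_totalDegree (s : Multiset (MvPolynomial (Fin 2) K)) :
    (∀ p ∈ s, Prime p) → s.prod ≠ 0 ∧ s.card ≤ s.prod.totalDegree := by
  induction s using Multiset.induction_on with
  | empty =>
    intro _
    simp
  | cons p s ih =>
    intro hs
    have hs' : ∀ q ∈ s, Prime q := fun q hq => hs q (Multiset.mem_cons_of_mem hq)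
    have hp : Prime p := hs p (Multiset.mem_cons_self p s)
    obtain ⟨h0, h1⟩ := ih hs'
    rw [Multiset.prod_cons, Multiset.card_cons]
    refine ⟨mul_ne_zero hp.ne_zero h0, ?_⟩
    rw [totalDegree_mul_of_isDomain hp.ne_zero h0]
    have h2 : p.totalDegree ≠ 0 := by
      intro h3
      exact hp.not_unit (isUnit_of_totalDegree_zero hp.ne_zero h3)
    omega

theorem few_red {F : MvPolynomial (Fin 2) K} (hd : 1 ≤ F.totalDegree)
    (hsq : Squarefree (homogeneousComponent F.totalDegree F)) (S : Finset K)
    (hS : ∀ c ∈ S, ¬ Irreducible (F - C c)) : S.card ≤ 2 ^ F.totalDegree := by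
  classical
  obtain ⟨d, hdd⟩ : ∃ d, d = F.totalDegree := ⟨_, rfl⟩
  rw [← hdd] at hsq hd ⊢
  obtain ⟨φ, hφ⟩ : ∃ φ, φ = homogeneousComponent d F := ⟨_, rfl⟩
  rw [← hφ] at hsq
  have hF0 : F ≠ 0 := by rintro rfl; simp at hdd; omega
  have hφ0 : φ ≠ 0 := by rw [hφ, hdd]; exact comp_top_ne_zero hF0
  have hdeg : ∀ c : K, (F - C c).totalDegree = d := by
    intro c
    rw [sub_eq_add_neg, ← map_neg, hdd]
    apply totalDegree_add_eq_left_of_totalDegree_lt
    rw [totalDegree_C]; omega
  have hcomp : ∀ c : K, homogeneousComponent d (F - C c) = φ := by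
    intro c
    rw [map_sub, ← hφ, homogeneousComponent_eq_zero, sub_zero]
    rw [totalDegree_C]; omega
  have hne : ∀ c : K, F - C c ≠ 0 := by
    intro c h
    have := hdeg c
    rw [h, totalDegree_zero] at this
    omega
  have hfac : ∀ c ∈ S, ∃ A B : MvPolynomial (Fin 2) K, F - C c = A * B ∧ 1 ≤ A.totalDegree ∧
      1 ≤ B.totalDegree ∧ A.totalDegree + B.totalDegree = d ∧
      homogeneousComponent A.totalDegree A * homogeneousComponent B.totalDegree B = φ := by
    intro c hc
    have hnu : ¬ IsUnit (F - C c) := by
      intro h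
      have h1 := totalDegree_of_isUnit h
      rw [hdeg] at h1
      omega
    rcases irreducible_or_factor hnu with h | ⟨A, B, hA, hB, hAB⟩
    · exact absurd h (hS c hc)
    · have hA0 : A ≠ 0 := by rintro rfl; rw [zero_mul] at hAB; exact hne c hAB
      have hB0 : B ≠ 0 := by rintro rfl; rw [mul_zero] at hAB; exact hne c hAB
      have h1 := totalDegree_mul_of_isDomain hA0 hB0
      rw [← hAB, hdeg] at h1
      refine ⟨A, B, hAB, ?_, ?_, h1.symm, ?_⟩
      · by_contra h2
        exact hA (isUnit_of_totalDegree_zero hA0 (by omega))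
      · by_contra h2
        exact hB (isUnit_of_totalDegree_zero hB0 (by omega))
      · rw [← homogeneousComponent_mul_top, ← h1, ← hAB, hcomp]
  choose! A B hAB hA1 hB1 hABd hABφ using hfac
  obtain ⟨s, hs, hsφ⟩ := UniqueFactorizationMonoid.exists_prime_factors φ hφ0
  have hscard : s.card ≤ d := by
    obtain ⟨h1, h2⟩ := card_le_totalDegree s hs
    obtain ⟨v, hv⟩ := hsφ
    have h3 : (v : MvPolynomial (Fin 2) K).totalDegree = 0 := totalDegree_of_isUnit v.isUnit
    have h4 := totalDegree_mul_of_isDomain h1 v.ne_zero
    have h5 : φ.totalDegree ≤ d := by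
      rw [hφ]
      exact (homogeneousComponent_isHomogeneous d F).totalDegree_le
    rw [hv, h3] at h4
    omega
  have hsub : ∀ c ∈ S, ∃ t ≤ s, Associated (homogeneousComponent (A c).totalDegree (A c)) t.prod := by
    intro c hc
    apply sub_factor s hs
    rw [hsφ.dvd_iff_dvd_right, ← hABφ c hc]
    exact dvd_mul_right _ _
  choose! t ht hAt using hsub
  have hcard : S.card ≤ s.powerset.toFinset.card := by
    apply Finset.card_le_card_of_injOn t
    · intro c hc
      rw [Finset.mem_coe, Multiset.mem_toFinset, Multiset.mem_powerset]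
      exact ht c hc
    · intro c hc c' hc' hcc
      rw [Finset.mem_coe] at hc hc'
      have h1 := hAt c hc
      have h2 := hAt c' hc'
      rw [← hcc] at h2
      obtain ⟨v, hv⟩ := h2.trans h1.symm
      -- rescale
      have hv0 : (v : MvPolynomial (Fin 2) K).totalDegree = 0 := totalDegree_of_isUnit v.isUnit
      rw [totalDegree_eq_zero_iff_eq_C] at hv0
      obtain ⟨e, he⟩ : ∃ e : K, (v : MvPolynomial (Fin 2) K) = C e := ⟨_, hv0⟩
      have he0 : e ≠ 0 := by
        rintro rfl
        rw [map_zero] at he
        exact v.ne_zero he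
      have hA0 : A c ≠ 0 := by
        intro h; have := hA1 c hc; rw [h, totalDegree_zero] at this; omega
      have hA0' : A c' ≠ 0 := by
        intro h; have := hA1 c' hc'; rw [h, totalDegree_zero] at this; omega
      have hB0' : B c' ≠ 0 := by
        intro h; have := hB1 c' hc'; rw [h, totalDegree_zero] at this; omega
      have hAA0 := comp_top_ne_zero hA0
      have hAA0' := comp_top_ne_zero hA0'
      rw [he] at hv
      have hdA : (A c').totalDegree = (A c).totalDegree := by
        have e1 := (homogeneousComponent_isHomogeneous _ (A c')).totalDegree hAA0'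
        have e2 := (homogeneousComponent_isHomogeneous _ (A c)).totalDegree hAA0
        have e3 := totalDegree_mul_of_isDomain hAA0' (C_ne_zero.2 he0 :
          (C e : MvPolynomial (Fin 2) K) ≠ 0)
        rw [hv, totalDegree_C, e1, e2] at e3
        omega
      have hdB : (B c').totalDegree = (B c).totalDegree := by
        have e1 := hABd c hc
        have e2 := hABd c' hc'
        omega
      have f1 : homogeneousComponent (A c).totalDegree (C e * A c')
          = homogeneousComponent (A c).totalDegree (A c) := by
        rw [homogeneousComponent_C_mul, ← hdA, hdA, ← hv, hdA]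
        ring
      have hee : (C e : MvPolynomial (Fin 2) K) * C e⁻¹ = 1 := by
        rw [← map_mul, mul_inv_cancel₀ he0, map_one]
      have f2 : homogeneousComponent (B c).totalDegree (C e⁻¹ * B c')
          = homogeneousComponent (B c).totalDegree (B c) := by
        rw [homogeneousComponent_C_mul]
        apply mul_left_cancel₀ hAA0
        have e1 := hABφ c hc
        have e2 := hABφ c' hc'
        rw [hdA] at e2 hv
        rw [hdB] at e2
        rw [e1, ← hv, ← e2]
        linear_combination (homogeneousComponent (A c).totalDegree (A c') *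
          homogeneousComponent (B c).totalDegree (B c')) * hee
      have f3 : (C e * A c').totalDegree = (A c).totalDegree := by
        rw [totalDegree_mul_of_isDomain (C_ne_zero.2 he0) hA0', totalDegree_C, hdA]; omega
      have f4 : (C e⁻¹ * B c').totalDegree = (B c).totalDegree := by
        rw [totalDegree_mul_of_isDomain (C_ne_zero.2 (inv_ne_zero he0)) hB0', totalDegree_C, hdB]
        omega
      have hrel : IsRelPrime (homogeneousComponent (A c).totalDegree (A c))
          (homogeneousComponent (B c).totalDegree (B c)) := by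
        have h3 := hsq
        rw [← hABφ c hc] at h3
        exact (squarefree_mul_iff.1 h3).1
      have h5 := const_of_two (hA1 c hc) (hB1 c hc) rfl f3 rfl f4 f1.symm f2.symm hrel (c' - c) (by
        have e1 := hAB c hc
        have e2 := hAB c' hc'
        rw [map_sub]
        linear_combination -e1 + e2 - (A c' * B c') * hee)
      exact (sub_eq_zero.1 h5).symm
  refine hcard.trans ((Multiset.toFinset_card_le _).trans ?_)
  rw [Multiset.card_powerset]
  exact Nat.pow_le_pow_right (by norm_num) hscard

end Pool.Agent.H322R2
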