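import Pool.Agent.H322R2.PS
import Pool.Agent.H322R2.Comp

/-!
Evaluation of integer bivariate polynomials and the scaled Hensel lemma.
-/

open Polynomial Finset

namespace Pool.Agent.H322R2

section Ev

variable {S T : Type*} [CommRing S] [CommRing T]

/-- evaluation of an integer polynomial in `x` -/
noncomputable def evf (x : S) : ℤ[X] →+* S := eval₂RingHom (Int.castRingHom S) x

/-- evaluation of an integer polynomial in `x`, `y` (elements of `ℤ[x][y]`) -/
noncomputable def ev (x y : S) : ℤ[X][X] →+* S := eval₂RingHom (evf x) y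

lemma ev_apply (x y : S) (G : ℤ[X][X]) : ev x y G = eval₂ (evf x) y G := rfl

@[simp] lemma evf_X (x : S) : evf x X = x := by simp [evf]
@[simp] lemma evf_C (x : S) (a : ℤ) : evf x (C a) = a := by simp [evf]
@[simp] lemma ev_X (x y : S) : ev x y X = y := by simp [ev]
@[simp] lemma ev_C (x y : S) (p : ℤ[X]) : ev x y (C p) = evf x p := by simp [ev]

lemma map_evf (φ : S →+* T) (x : S) (p : ℤ[X]) : φ (evf x p) = evf (φ x) p := by
  have : φ.comp (evf x) = evf (φ x) := by
    apply Polynomial.ringHom_ext'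
    · exact RingHom.ext_int _ _
    · simp
  exact congrArg (fun f : ℤ[X] →+* T => f p) this

lemma map_ev (φ : S →+* T) (x y : S) (G : ℤ[X][X]) : φ (ev x y G) = ev (φ x) (φ y) G := by
  have : φ.comp (ev x y) = ev (φ x) (φ y) := by
    apply Polynomial.ringHom_ext'
    · apply Polynomial.ringHom_ext'
      · exact RingHom.ext_int _ _
      · simp
    · simp
  exact congrArg (fun f : ℤ[X][X] →+* T => f G) this

lemma evf_sum (x : S) (p : ℤ[X]) {n : ℕ} (hn : p.natDegree < n) :
    evf x p = ∑ i ∈ range n, (p.coeff i : S) * x ^ i := by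
  rw [evf, coe_eval₂RingHom, eval₂_eq_sum_range' _ hn]
  rfl

lemma ev_sum (x y : S) (G : ℤ[X][X]) {n m : ℕ} (hn : G.natDegree < n)
    (hm : ∀ j, (G.coeff j).natDegree < m) :
    ev x y G = ∑ j ∈ range n, ∑ i ∈ range m, ((G.coeff j).coeff i : S) * x ^ i * y ^ j := by
  rw [ev_apply, eval₂_eq_sum_range' _ hn]
  apply Finset.sum_congr rfl
  intro j _
  rw [evf_sum x _ (hm j), Finset.sum_mul]

end Ev

section Tay

variable {A : Type*} [CommRing A]

/-- Taylor coefficients of `G` at `(x0,y0)`. -/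
noncomputable def tay (G : ℤ[X][X]) (n m : ℕ) (x0 y0 : A) (p : ℕ × ℕ) : A :=
  ∑ j ∈ range n, ∑ i ∈ range m, ((G.coeff j).coeff i : A) *
    ((i.choose p.1 : A) * x0 ^ (i - p.1)) * ((j.choose p.2 : A) * y0 ^ (j - p.2))

lemma add_pow_range {S : Type*} [CommRing S] (x u : S) (i m : ℕ) (h : i < m) :
    (x + u) ^ i = ∑ a ∈ range m, ((i.choose a : S) * x ^ (i - a)) * u ^ a := by
  rw [add_comm x u, add_pow]
  rw [← Finset.sum_subset (Finset.range_subset_range.2 (show i + 1 ≤ m from h))]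
  · apply Finset.sum_congr rfl
    intro a _
    ring
  · intro a _ ha
    rw [Finset.mem_range, not_lt] at ha
    rw [Nat.choose_eq_zero_of_lt (by omega)]
    simp

lemma ev_taylor {S : Type*} [CommRing S] (φ : A →+* S) (G : ℤ[X][X]) (n m : ℕ)
    (hn : G.natDegree < n) (hm : ∀ j, (G.coeff j).natDegree < m) (x0 y0 : A) (u v : S) :
    ev (φ x0 + u) (φ y0 + v) G
      = ∑ p ∈ range m ×ˢ range n, φ (tay G n m x0 y0 p) * u ^ p.1 * v ^ p.2 := by
  rw [ev_sum _ _ G hn hm]
  have h1 : ∀ j ∈ range n, ∀ i ∈ range m, ((G.coeff j).coeff i : S) * (φ x0 + u) ^ i *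
      (φ y0 + v) ^ j = ∑ p ∈ range m ×ˢ range n, φ (((G.coeff j).coeff i : A) *
    ((i.choose p.1 : A) * x0 ^ (i - p.1)) * ((j.choose p.2 : A) * y0 ^ (j - p.2)))
      * u ^ p.1 * v ^ p.2 := by
    intro j hj i hi
    rw [Finset.mem_range] at hj hi
    rw [add_pow_range (φ x0) u i m hi, add_pow_range (φ y0) v j n hj]
    rw [mul_assoc, Finset.sum_mul_sum, Finset.mul_sum, Finset.sum_product]
    apply Finset.sum_congr rfl
    intro a _
    rw [Finset.mul_sum]
    apply Finset.sum_congr rfl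
    intro b _
    simp only [map_mul, map_pow, map_intCast, map_natCast]
    ring
  rw [Finset.sum_congr rfl (fun j hj => Finset.sum_congr rfl (fun i hi => h1 j hj i hi))]
  have h2 : ∀ p ∈ range m ×ˢ range n, φ (tay G n m x0 y0 p) * u ^ p.1 * v ^ p.2
      = ∑ j ∈ range n, ∑ i ∈ range m, φ (((G.coeff j).coeff i : A) *
    ((i.choose p.1 : A) * x0 ^ (i - p.1)) * ((j.choose p.2 : A) * y0 ^ (j - p.2)))
      * u ^ p.1 * v ^ p.2 := by
    intro p _
    rw [tay, map_sum, Finset.sum_mul, Finset.sum_mul]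
    apply Finset.sum_congr rfl
    intro j _
    rw [map_sum, Finset.sum_mul, Finset.sum_mul]
  rw [Finset.sum_congr rfl h2]
  have h3 : ∀ j ∈ range n, ∑ i ∈ range m, ∑ p ∈ range m ×ˢ range n, φ (((G.coeff j).coeff i : A) *
    ((i.choose p.1 : A) * x0 ^ (i - p.1)) * ((j.choose p.2 : A) * y0 ^ (j - p.2)))
      * u ^ p.1 * v ^ p.2 = ∑ p ∈ range m ×ˢ range n, ∑ i ∈ range m,
      φ (((G.coeff j).coeff i : A) *
    ((i.choose p.1 : A) * x0 ^ (i - p.1)) * ((j.choose p.2 : A) * y0 ^ (j - p.2)))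
      * u ^ p.1 * v ^ p.2 := fun j _ => Finset.sum_comm
  rw [Finset.sum_congr rfl h3, Finset.sum_comm]

lemma tay_zero (G : ℤ[X][X]) (n m : ℕ)
    (hn : G.natDegree < n) (hm : ∀ j, (G.coeff j).natDegree < m) (x0 y0 : A) :
    tay G n m x0 y0 (0, 0) = ev x0 y0 G := by
  rw [ev_sum x0 y0 G hn hm, tay]
  apply Finset.sum_congr rfl
  intro j _
  apply Finset.sum_congr rfl
  intro i _
  simp

lemma tay_one (G : ℤ[X][X]) (n m : ℕ)
    (hn : G.natDegree < n) (hm : ∀ j, (G.coeff j).natDegree < m) (x0 y0 : A) :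
    tay G n m x0 y0 (0, 1) = ev x0 y0 (derivative G) := by
  have h1 : ev x0 y0 (derivative G) = ∑ j ∈ range n, evf x0 (G.coeff j) * j * y0 ^ (j - 1) := by
    rw [derivative_apply, Polynomial.sum_over_range' G _ n hn, map_sum]
    · apply Finset.sum_congr rfl
      intro j _
      rw [map_mul, map_pow, ev_C, ev_X, map_mul, map_natCast]
    · intro j; simp
  rw [h1, tay]
  apply Finset.sum_congr rfl
  intro j _
  rw [evf_sum x0 _ (hm j), Finset.sum_mul, Finset.sum_mul]
  apply Finset.sum_congr rfl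
  intro i _
  simp
  ring

lemma N_natCast_mul_le (N : RingSeminorm A) (k : ℕ) (x : A) : N ((k : A) * x) ≤ k * N x := by
  rw [← nsmul_eq_mul]
  exact seminorm_nsmul_le N k x

lemma N_intCast_mul_le (N : RingSeminorm A) (k : ℤ) (x : A) : N ((k : A) * x) ≤ |(k : ℝ)| * N x := by
  rw [← zsmul_eq_mul]
  exact seminorm_zsmul_le N k x

lemma pn2_eq (G : ℤ[X][X]) (n m : ℕ)
    (hn : G.natDegree < n) (hm : ∀ j, (G.coeff j).natDegree < m) :
    pn (pn zn) G = ∑ j ∈ range n, ∑ i ∈ range m, |(((G.coeff j).coeff i : ℤ) : ℝ)| := by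
  rw [pn_eq_range _ G hn]
  apply Finset.sum_congr rfl
  intro j _
  rw [pn_eq_range _ _ (hm j)]
  rfl

lemma sum_tay_le (N : RingSeminorm A) (h1 : N 1 ≤ 1) (G : ℤ[X][X]) (n m : ℕ)
    (hn : G.natDegree < n) (hm : ∀ j, (G.coeff j).natDegree < m) (x0 y0 : A) :
    ∑ p ∈ range m ×ˢ range n, N (tay G n m x0 y0 p)
      ≤ pn (pn zn) G * (1 + N x0) ^ (m - 1) * (1 + N y0) ^ (n - 1) := by
  have hx : 0 ≤ N x0 := apply_nonneg N _
  have hy : 0 ≤ N y0 := apply_nonneg N _
  have e1 : ∀ p ∈ range m ×ˢ range n, N (tay G n m x0 y0 p)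
      ≤ ∑ j ∈ range n, ∑ i ∈ range m, |(((G.coeff j).coeff i : ℤ) : ℝ)| *
        ((i.choose p.1 : ℝ) * (N x0) ^ (i - p.1)) * ((j.choose p.2 : ℝ) * (N y0) ^ (j - p.2)) := by
    intro p _
    rw [tay]
    refine (seminorm_sum_le N _ _).trans ?_
    apply Finset.sum_le_sum
    intro j _
    refine (seminorm_sum_le N _ _).trans ?_
    apply Finset.sum_le_sum
    intro i _
    refine (map_mul_le_mul N _ _).trans ?_
    have a1 : N (((G.coeff j).coeff i : A) * ((i.choose p.1 : A) * x0 ^ (i - p.1)))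
        ≤ |(((G.coeff j).coeff i : ℤ) : ℝ)| * ((i.choose p.1 : ℝ) * (N x0) ^ (i - p.1)) := by
      refine (N_intCast_mul_le N _ _).trans ?_
      apply mul_le_mul_of_nonneg_left _ (abs_nonneg _)
      refine (N_natCast_mul_le N _ _).trans ?_
      exact mul_le_mul_of_nonneg_left (seminorm_pow_le N h1 _ _) (Nat.cast_nonneg _)
    have a2 : N ((j.choose p.2 : A) * y0 ^ (j - p.2))
        ≤ ((j.choose p.2 : ℝ) * (N y0) ^ (j - p.2)) := by
      refine (N_natCast_mul_le N _ _).trans ?_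
      exact mul_le_mul_of_nonneg_left (seminorm_pow_le N h1 _ _) (Nat.cast_nonneg _)
    exact mul_le_mul a1 a2 (apply_nonneg N _) (by positivity)
  refine (Finset.sum_le_sum e1).trans ?_
  rw [Finset.sum_comm]
  rw [pn2_eq G n m hn hm, Finset.sum_mul, Finset.sum_mul]
  apply Finset.sum_le_sum
  intro j hj
  rw [Finset.mem_range] at hj
  rw [Finset.sum_comm, Finset.sum_mul, Finset.sum_mul]
  apply Finset.sum_le_sum
  intro i hi
  rw [Finset.mem_range] at hi
  rw [Finset.sum_product]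
  have e2 : ∑ a ∈ range m, ∑ b ∈ range n, |(((G.coeff j).coeff i : ℤ) : ℝ)| *
        ((i.choose a : ℝ) * (N x0) ^ (i - a)) * ((j.choose b : ℝ) * (N y0) ^ (j - b))
      = |(((G.coeff j).coeff i : ℤ) : ℝ)| * (N x0 + 1) ^ i * (N y0 + 1) ^ j := by
    rw [add_pow_range (N x0) 1 i m hi, add_pow_range (N y0) 1 j n hj]
    rw [mul_assoc, Finset.sum_mul_sum, Finset.mul_sum]
    apply Finset.sum_congr rfl
    intro a _
    rw [Finset.mul_sum]
    apply Finset.sum_congr rfl
    intro b _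
    simp only [one_pow]
    ring
  simp only at e2 ⊢
  rw [e2, add_comm (N x0) 1, add_comm (N y0) 1]
  have h2 : (1 + N x0) ^ i ≤ (1 + N x0) ^ (m - 1) := pow_le_pow_right₀ (by linarith) (by omega)
  have h3 : (1 + N y0) ^ j ≤ (1 + N y0) ^ (n - 1) := pow_le_pow_right₀ (by linarith) (by omega)
  have h4 : (0 : ℝ) ≤ |(((G.coeff j).coeff i : ℤ) : ℝ)| := abs_nonneg _
  calc _ ≤ |(((G.coeff j).coeff i : ℤ) : ℝ)| * (1 + N x0) ^ (m - 1) * (1 + N y0) ^ j := by
        apply mul_le_mul_of_nonneg_right _ (by positivity)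
        exact mul_le_mul_of_nonneg_left h2 h4
    _ ≤ _ := mul_le_mul_of_nonneg_left h3 (by positivity)

/-- Scaled Hensel lemma: the branch of `G = 0` through `(x0,y0)`, with integral coefficients
and norm control. -/
theorem hensel_ev (G : ℤ[X][X]) (n m : ℕ)
    (hn : G.natDegree < n) (hm : ∀ j, (G.coeff j).natDegree < m) (x0 y0 : A)
    (hG : ev x0 y0 G = 0) :
    ∃ Y : PowerSeries A, PowerSeries.X ∣ Y ∧
      ev (PowerSeries.C x0 + PowerSeries.C ((ev x0 y0 (derivative G)) ^ 2) * PowerSeries.X)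
        (PowerSeries.C y0 + PowerSeries.C (ev x0 y0 (derivative G)) * Y) G = 0 ∧
      ∀ (N : RingSeminorm A) (_ : N 1 ≤ 1) (T : ℝ), 1 ≤ T →
        (max 1 (N (ev x0 y0 (derivative G)))) ^ (2 * m + n) *
          (pn (pn zn) G * (1 + N x0) ^ (m - 1) * (1 + N y0) ^ (n - 1)) ≤ T →
        Bd N (1 / (4 * T ^ 2)) Y (1 / (2 * T)) := by
  obtain ⟨D, hD⟩ : ∃ D, D = ev x0 y0 (derivative G) := ⟨_, rfl⟩
  rw [← hD]
  set g : ℕ × ℕ → A := tay G n m x0 y0 with hg
  set S : Finset (ℕ × ℕ) := (range m ×ˢ range n).filter (fun p => 1 ≤ p.1 ∨ 2 ≤ p.2) with hS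
  set c : ℕ × ℕ → A := fun p => - (D ^ (2 * p.1 + p.2 - 2) * g p) with hc
  have hS' : ∀ p ∈ S, 1 ≤ p.1 ∨ 2 ≤ p.2 := by
    intro p hp
    rw [hS, Finset.mem_filter] at hp
    exact hp.2
  refine ⟨fixPt S c, fixPt_dvd S c hS', ?_, ?_⟩
  · have h1 := ev_taylor (PowerSeries.C (R := A)) G n m hn hm x0 y0
      (PowerSeries.C (D ^ 2) * PowerSeries.X) (PowerSeries.C D * fixPt S c)
    rw [h1]
    rw [← Finset.sum_filter_add_sum_filter_not (range m ×ˢ range n)
      (fun p => 1 ≤ p.1 ∨ 2 ≤ p.2)]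
    have h2 : ∑ p ∈ (range m ×ˢ range n).filter (fun p => 1 ≤ p.1 ∨ 2 ≤ p.2),
        PowerSeries.C (tay G n m x0 y0 p) * (PowerSeries.C (D ^ 2) * PowerSeries.X) ^ p.1 *
          (PowerSeries.C D * fixPt S c) ^ p.2 = - (PowerSeries.C (D ^ 2) * fixPt S c) := by
      have h3 := fixPt_eq S c hS'
      conv_rhs => rw [← h3]
      rw [fixMap, Finset.mul_sum, ← Finset.sum_neg_distrib]
      apply Finset.sum_congr rfl
      intro p hp
      have h4 : 2 ≤ 2 * p.1 + p.2 := by
        rcases hS' p hp with h | h <;> omega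
      obtain ⟨e, he⟩ : ∃ e, 2 * p.1 + p.2 = e + 2 := ⟨2 * p.1 + p.2 - 2, by omega⟩
      have h5 : 2 * p.1 + p.2 - 2 = e := by omega
      have h55 : c p = - (D ^ e * g p) := by rw [hc]; simp only [h5]
      rw [h55]
      have h6 : (D ^ 2) ^ p.1 * D ^ p.2 = D ^ 2 * D ^ e := by
        rw [← pow_mul, ← pow_add, he, pow_add, mul_comm]
      have h7 : (PowerSeries.C (D ^ 2) : PowerSeries A) ^ p.1 * PowerSeries.C D ^ p.2
          = PowerSeries.C (D ^ 2) * PowerSeries.C (D ^ e) := by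
        rw [← map_pow, ← map_pow, ← map_mul, ← map_mul, h6]
      have h66 : tay G n m x0 y0 p = g p := rfl
      rw [h66]
      generalize fixPt S c = Y
      rw [mul_pow, mul_pow, map_neg, map_mul]
      linear_combination (PowerSeries.C (g p) * PowerSeries.X ^ p.1 * Y ^ p.2) * h7
    rw [h2]
    have h8 : ∑ p ∈ (range m ×ˢ range n).filter (fun p => ¬ (1 ≤ p.1 ∨ 2 ≤ p.2)),
        PowerSeries.C (tay G n m x0 y0 p) * (PowerSeries.C (D ^ 2) * PowerSeries.X) ^ p.1 *
          (PowerSeries.C D * fixPt S c) ^ p.2 = PowerSeries.C (D ^ 2) * fixPt S c := by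
      have hmpos : 0 < m := lt_of_le_of_lt (Nat.zero_le _) (hm 0)
      have hnpos : 0 < n := lt_of_le_of_lt (Nat.zero_le _) hn
      have h9 : ∀ p ∈ (range m ×ˢ range n).filter (fun p => ¬ (1 ≤ p.1 ∨ 2 ≤ p.2)),
          PowerSeries.C (tay G n m x0 y0 p) * (PowerSeries.C (D ^ 2) * PowerSeries.X) ^ p.1 *
          (PowerSeries.C D * fixPt S c) ^ p.2
          = if p = (0, 1) then PowerSeries.C (D ^ 2) * fixPt S c else 0 := by
        intro p hp
        rw [Finset.mem_filter] at hp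
        obtain ⟨_, hp2⟩ := hp
        push_neg at hp2
        obtain ⟨p1, p2⟩ := p
        simp only at hp2
        have hp1 : p1 = 0 := by omega
        subst hp1
        have hp3 : p2 = 0 ∨ p2 = 1 := by omega
        rcases hp3 with rfl | rfl
        · rw [tay_zero G n m hn hm, hG]; simp
        · rw [tay_one G n m hn hm, ← hD, if_pos rfl, sq, map_mul]
          ring
      rw [Finset.sum_congr rfl h9, Finset.sum_ite_eq']
      split_ifs with h10
      · rfl
      · -- then n ≤ 1, so derivative is zero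
        have hn1 : n ≤ 1 := by
          by_contra hcon
          apply h10
          rw [Finset.mem_filter, Finset.mem_product, Finset.mem_range, Finset.mem_range]
          exact ⟨⟨hmpos, by omega⟩, by simp⟩
        have hder : derivative G = 0 := by
          have : G.natDegree = 0 := by omega
          exact derivative_of_natDegree_zero this
        have : D = 0 := by rw [hD, hder, map_zero]
        rw [this]; simp
    rw [h8]; ring
  · intro N h1 T hT1 hT
    have hT0 : 0 < T := by linarith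
    apply fixPt_bd S c hS' N h1 _ _ (by positivity) (by positivity)
    set Δ := max 1 (N D) with hΔ
    have hΔ1 : 1 ≤ Δ := le_max_left _ _
    have hND : N D ≤ Δ := le_max_right _ _
    set ρ := 1 / (4 * T ^ 2) with hρ
    set s := 1 / (2 * T) with hs
    have hρ0 : 0 < ρ := by positivity
    have hs0 : 0 < s := by positivity
    have hρ1 : ρ ≤ 1 := by
      rw [hρ, div_le_one (by positivity)]; nlinarith
    have hs1 : s ≤ 1 := by
      rw [hs, div_le_one (by positivity)]; linarith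
    have hbound : ∀ p ∈ S, N (c p) * ρ ^ p.1 * s ^ p.2
        ≤ (Δ ^ (2 * m + n) * N (g p)) * (ρ + s ^ 2) := by
      intro p hp
      have hp' := hp
      rw [hS, Finset.mem_filter, Finset.mem_product, Finset.mem_range, Finset.mem_range] at hp'
      have b1 : N (c p) ≤ Δ ^ (2 * m + n) * N (g p) := by
        rw [hc]
        simp only [map_neg_eq_map]
        refine (map_mul_le_mul N _ _).trans ?_
        apply mul_le_mul_of_nonneg_right _ (apply_nonneg N _)
        refine (seminorm_pow_le N h1 _ _).trans ?_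
        refine (pow_le_pow_left₀ (apply_nonneg N _) hND _).trans ?_
        exact pow_le_pow_right₀ hΔ1 (by omega)
      have b2 : ρ ^ p.1 * s ^ p.2 ≤ ρ + s ^ 2 := by
        rcases hS' p hp with h | h
        · have c1 : ρ ^ p.1 ≤ ρ := by
            calc ρ ^ p.1 ≤ ρ ^ 1 := pow_le_pow_of_le_one hρ0.le hρ1 h
              _ = ρ := pow_one _
          have c2 : s ^ p.2 ≤ 1 := pow_le_one₀ hs0.le hs1
          have c3 : 0 ≤ s ^ p.2 := by positivity
          have c4 : 0 ≤ s ^ 2 := by positivity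
          nlinarith
        · have c1 : s ^ p.2 ≤ s ^ 2 := pow_le_pow_of_le_one hs0.le hs1 h
          have c2 : ρ ^ p.1 ≤ 1 := pow_le_one₀ hρ0.le hρ1
          have c3 : 0 ≤ ρ ^ p.1 := by positivity
          have c4 : 0 ≤ s ^ p.2 := by positivity
          nlinarith
      rw [mul_assoc]
      exact mul_le_mul b1 b2 (by positivity)
        (mul_nonneg (by positivity) (apply_nonneg N _))
    refine (Finset.sum_le_sum hbound).trans ?_
    rw [← Finset.sum_mul, ← Finset.mul_sum]
    have hsum : ∑ p ∈ S, N (g p) ≤ pn (pn zn) G * (1 + N x0) ^ (m - 1) * (1 + N y0) ^ (n - 1) := by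
      refine le_trans ?_ (sum_tay_le N h1 G n m hn hm x0 y0)
      apply Finset.sum_le_sum_of_subset_of_nonneg (Finset.filter_subset _ _)
      intro _ _ _; exact apply_nonneg N _
    have hle : Δ ^ (2 * m + n) * ∑ p ∈ S, N (g p) ≤ T :=
      (mul_le_mul_of_nonneg_left hsum (by positivity)).trans hT
    calc Δ ^ (2 * m + n) * (∑ p ∈ S, N (g p)) * (ρ + s ^ 2) ≤ T * (ρ + s ^ 2) :=
          mul_le_mul_of_nonneg_right hle (by positivity)
      _ = s := by
          rw [hρ, hs]; field_simp; ring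

end Tay

end Pool.Agent.H322R2
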