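import Pool.Agent.H322R2.Lip

/-!
Exceptional polynomials.
-/

open Polynomial Finset

namespace Pool.Agent.H322R2

/-- number of coefficients -/
noncomputable def NN (d : ℕ) : ℝ := ((Ix d).card : ℝ)

/-- Lipschitz constant -/
noncomputable def CL (d : ℕ) : ℝ := NN d * d ^ 2 * 3 ^ d

variable {d : ℕ}

/-- leading form -/
noncomputable def ff (c : ↥(Ix d) → ℤ) : ℤ[X] := lead d (PG c)

lemma ff_natDegree (c : ↥(Ix d) → ℤ) : (ff c).natDegree ≤ d := natDegree_lead_le d _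

lemma pn_ff {c : ↥(Ix d) → ℤ} {H : ℕ} (hc : c ∈ Bx _ H) : pn zn (ff c) ≤ NN d * H :=
  (pn_lead_le (TD_PG c).1).trans (pn_PG hc)

lemma NN_nonneg : 0 ≤ NN d := by unfold NN; positivity

lemma one_le_NN (d : ℕ) : 1 ≤ NN d := by
  unfold NN
  have : 0 < (Ix d).card := Finset.card_pos.2 ⟨(0, 0), by rw [mem_Ix]; simp⟩
  exact_mod_cast this

lemma ff_lip {c : ↥(Ix d) → ℤ} {H : ℕ} (hd : 1 ≤ d) (hc : c ∈ Bx _ H) {t t' : ℝ} (ht : |t| ≤ 3)
    (ht' : |t'| ≤ 3) : |evf t (ff c) - evf t' (ff c)| ≤ CL d * H * |t - t'| := by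
  refine (evf_lip (ff c) d (ff_natDegree c) ht ht').trans ?_
  apply mul_le_mul_of_nonneg_right _ (abs_nonneg _)
  have h1 := pn_ff hc
  have hdR : (1 : ℝ) ≤ d := by exact_mod_cast hd
  have h2 : (d : ℝ) ≤ d ^ 2 := by nlinarith
  have hN := NN_nonneg (d := d)
  calc pn zn (ff c) * (d * 3 ^ d) ≤ (NN d * H) * (d ^ 2 * 3 ^ d) := by
        apply mul_le_mul h1 _ (by positivity) (by positivity)
        exact mul_le_mul_of_nonneg_right h2 (by positivity)
    _ = _ := by unfold CL; ring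

lemma dff_lip {c : ↥(Ix d) → ℤ} {H : ℕ} (hc : c ∈ Bx _ H) {t t' : ℝ} (ht : |t| ≤ 3)
    (ht' : |t'| ≤ 3) :
    |evf t (derivative (ff c)) - evf t' (derivative (ff c))| ≤ CL d * H * |t - t'| := by
  refine (evf_lip (derivative (ff c)) d
    ((natDegree_derivative_le _).trans (by have := ff_natDegree c; omega)) ht ht').trans ?_
  apply mul_le_mul_of_nonneg_right _ (abs_nonneg _)
  have h1 := pn_ff hc
  have hN := NN_nonneg (d := d)
  have h2 : pn zn (derivative (ff c)) ≤ d * (NN d * H) := by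
    refine (pn_derivative_le zn _).trans ?_
    apply mul_le_mul _ h1 (apply_nonneg _ _) (by positivity)
    exact_mod_cast ff_natDegree c
  calc pn zn (derivative (ff c)) * (d * 3 ^ d) ≤ (d * (NN d * H)) * (d * 3 ^ d) :=
        mul_le_mul_of_nonneg_right h2 (by positivity)
    _ = _ := by unfold CL; ring

/-- first typicality condition -/
def T2c (H : ℕ) (y : ℝ) (c : ↥(Ix d) → ℤ) : Prop :=
  ∀ t : ℝ, |t| ≤ 2 → ¬ (|evf t (ff c)| ≤ H / y ^ 2 ∧ |evf t (derivative (ff c))| ≤ H / y ^ 2)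

/-- second typicality condition -/
def T3c (A B : ℝ) (c : ↥(Ix d) → ℤ) : Prop :=
  ∀ η : ℝ, |η| ≤ 2 → evf η (ff c) = 0 → NA η A B

/-- third typicality condition -/
def T4c (H : ℕ) (y : ℝ) (c : ↥(Ix d) → ℤ) : Prop :=
  ∀ η : ℝ, |η| ≤ 2 → evf η (ff c) = 0 → (H : ℝ) ^ 3 / y ^ 6 < |evf η (gp d (PG c))|

open Classical in
theorem card_ex2 (hd : 2 ≤ d) {H : ℕ} {y : ℝ} (hy : 5 ≤ y) (hyC : CL d ≤ y)
    (hyH : y ^ 2 ≤ H) :
    (((Bx ↥(Ix d) H).filter (fun c => ¬ T2c H y c)).card : ℝ) ≤ 32 / y * (Bx ↥(Ix d) H).card := by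
  have hy0 : 0 < y := by linarith
  have hH0 : (0 : ℝ) < H := lt_of_lt_of_le (by positivity) hyH
  have hCL : 1 ≤ CL d := by
    unfold CL
    have h1 := one_le_NN d
    have h2 : (1 : ℝ) ≤ (d : ℝ) ^ 2 := one_le_pow₀ (by exact_mod_cast (by omega : 1 ≤ d))
    exact one_le_mul_of_one_le_of_one_le (one_le_mul_of_one_le_of_one_le h1 h2)
      (one_le_pow₀ (by norm_num))
  have hCL0 : 0 < CL d := by linarith
  obtain ⟨ρ, hρ⟩ : ∃ ρ : ℝ, ρ = 1 / (CL d * y ^ 2) := ⟨_, rfl⟩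
  have hρ0 : 0 < ρ := by rw [hρ]; positivity
  have hρ1 : ρ ≤ 1 := by
    rw [hρ, div_le_one (by positivity)]
    have : 1 ≤ y ^ 2 := by nlinarith
    nlinarith
  obtain ⟨n0, hn0⟩ : ∃ n0 : ℕ, n0 = ⌈2 * CL d * y ^ 2⌉₊ + 1 := ⟨_, rfl⟩
  have hp0 : ((0, d) : ℕ × ℕ) ∈ Ix d := by rw [mem_Ix]; simp
  have hp1 : ((1, d - 1) : ℕ × ℕ) ∈ Ix d := by rw [mem_Ix]; simp only; omega
  obtain ⟨M, hM⟩ : ∃ M : ℝ, M = 2 * (H / y ^ 2) := ⟨_, rfl⟩
  have hM0 : 0 ≤ M := by rw [hM]; positivity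
  obtain ⟨S1, hS1⟩ : ∃ S1 : ℤ → Finset (↥(Ix d) → ℤ), S1 = fun k : ℤ => (Bx ↥(Ix d) H).filter
    (fun c => |evf (k * ρ) (derivative (ff c))| ≤ M) := ⟨_, rfl⟩
  obtain ⟨S2, hS2⟩ : ∃ S2 : ℤ → Finset (↥(Ix d) → ℤ), S2 = fun k : ℤ => (Bx ↥(Ix d) H).filter
    (fun c => |evf (k * ρ) (ff c)| ≤ M ∧ |evf (k * ρ) (derivative (ff c))| ≤ M) := ⟨_, rfl⟩
  have c1 : ∀ k, ((S1 k).card : ℝ) * (2 * H + 1) ≤ (2 * M + 1) * (Bx ↥(Ix d) H).card := by
    intro k
    apply rel_count ⟨(1, d - 1), hp1⟩ (S1 k) (Bx ↥(Ix d) H)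
    · rw [hS1]; exact Finset.filter_subset _ _
    · intro c hc t ht
      rw [hS1, Finset.mem_filter] at hc
      exact update_mem_Bx hc.1 _ ht
    · intro c hc
      have h1 := card_interval ((Icc (-(H : ℤ)) H).filter
        (fun t => Function.update c ⟨(1, d - 1), hp1⟩ t ∈ S1 k))
        (evf (k * ρ) (derivative (ff c)) - c ⟨(1, d - 1), hp1⟩) 1 M one_ne_zero hM0 (by
        intro t ht
        rw [Finset.mem_filter, hS1, Finset.mem_filter] at ht
        obtain ⟨_, _, ht2⟩ := ht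
        rw [ff, evf_dlead_update] at ht2
        simp only at ht2
        rw [if_pos (by omega)] at ht2
        simp only [Nat.cast_one, Nat.sub_self, pow_zero, mul_one] at ht2
        rw [← ff] at ht2
        have e : evf ((k : ℝ) * ρ) (derivative (ff c)) - c ⟨(1, d - 1), hp1⟩ + 1 * t
            = evf ((k : ℝ) * ρ) (derivative (ff c)) + (t - c ⟨(1, d - 1), hp1⟩) := by ring
        rw [e]; exact ht2)
      rw [abs_one, div_one] at h1
      exact h1
  have c2 : ∀ k, ((S2 k).card : ℝ) * (2 * H + 1) ≤ (2 * M + 1) * (S1 k).card := by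
    intro k
    apply rel_count ⟨(0, d), hp0⟩ (S2 k) (S1 k)
    · rw [hS2]; exact Finset.filter_subset _ _
    · intro c hc t ht
      rw [hS2, Finset.mem_filter] at hc
      rw [hS1, Finset.mem_filter]
      refine ⟨update_mem_Bx hc.1 _ ht, ?_⟩
      rw [ff, evf_dlead_update]
      simp only [Nat.cast_zero, zero_mul, mul_zero, ite_self, add_zero]
      exact hc.2.2
    · intro c hc
      have h1 := card_interval ((Icc (-(H : ℤ)) H).filter
        (fun t => Function.update c ⟨(0, d), hp0⟩ t ∈ S2 k))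
        (evf (k * ρ) (ff c) - c ⟨(0, d), hp0⟩) 1 M one_ne_zero hM0 (by
        intro t ht
        rw [Finset.mem_filter, hS2, Finset.mem_filter] at ht
        obtain ⟨_, _, ht2, _⟩ := ht
        rw [ff, evf_lead_update] at ht2
        simp only at ht2
        rw [if_pos (by omega)] at ht2
        simp only [pow_zero, mul_one] at ht2
        rw [← ff] at ht2
        have e : evf ((k : ℝ) * ρ) (ff c) - c ⟨(0, d), hp0⟩ + 1 * t
            = evf ((k : ℝ) * ρ) (ff c) + (t - c ⟨(0, d), hp0⟩) := by ring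
        rw [e]; exact ht2)
      rw [abs_one, div_one] at h1
      exact h1
  have hbox : (0 : ℝ) ≤ (Bx ↥(Ix d) H).card := Nat.cast_nonneg _
  have hM5 : 2 * M + 1 ≤ 5 * (H / y ^ 2) := by
    rw [hM]
    have : 1 ≤ (H : ℝ) / y ^ 2 := by rw [le_div_iff₀ (by positivity)]; linarith
    linarith
  have c3 : ∀ k, ((S2 k).card : ℝ) ≤ (25 / 4) / y ^ 4 * (Bx ↥(Ix d) H).card := by
    intro k
    have e1 := c1 k
    have e2 := c2 k
    have e3 : ((S2 k).card : ℝ) * (2 * H + 1) ^ 2 ≤ (5 * (H / y ^ 2)) ^ 2 * (Bx ↥(Ix d) H).card := by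
      calc ((S2 k).card : ℝ) * (2 * H + 1) ^ 2 = ((S2 k).card : ℝ) * (2 * H + 1) * (2 * H + 1) := by
            ring
        _ ≤ (2 * M + 1) * (S1 k).card * (2 * H + 1) :=
            mul_le_mul_of_nonneg_right e2 (by positivity)
        _ = (2 * M + 1) * ((S1 k).card * (2 * H + 1)) := by ring
        _ ≤ (2 * M + 1) * ((2 * M + 1) * (Bx ↥(Ix d) H).card) :=
            mul_le_mul_of_nonneg_left e1 (by linarith)
        _ = (2 * M + 1) ^ 2 * (Bx ↥(Ix d) H).card := by ring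
        _ ≤ _ := by
            apply mul_le_mul_of_nonneg_right _ hbox
            exact pow_le_pow_left₀ (by linarith) hM5 2
    have e4 : ((S2 k).card : ℝ) * (4 * (H : ℝ) ^ 2) ≤ ((S2 k).card : ℝ) * (2 * H + 1) ^ 2 := by
      apply mul_le_mul_of_nonneg_left _ (Nat.cast_nonneg _)
      nlinarith
    have e5 : ((S2 k).card : ℝ) * (4 * (H : ℝ) ^ 2)
        ≤ ((25 / 4) / y ^ 4 * (Bx ↥(Ix d) H).card) * (4 * (H : ℝ) ^ 2) := by
      refine (e4.trans e3).trans (le_of_eq ?_)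
      field_simp
      ring
    exact le_of_mul_le_mul_right e5 (by positivity)
  have hsub : (Bx ↥(Ix d) H).filter (fun c => ¬ T2c H y c) ⊆
      (Icc (-(n0 : ℤ)) n0).biUnion S2 := by
    intro c hc
    rw [Finset.mem_filter] at hc
    obtain ⟨hc1, hc2⟩ := hc
    unfold T2c at hc2
    push_neg at hc2
    obtain ⟨t, ht, h1, h2⟩ := hc2
    obtain ⟨k, hk⟩ : ∃ k, k = round (t / ρ) := ⟨_, rfl⟩
    have hkt : |t - k * ρ| ≤ ρ := by
      have h3 := abs_sub_round (t / ρ)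
      rw [← hk] at h3
      have h4 : t - k * ρ = (t / ρ - k) * ρ := by field_simp
      rw [h4, abs_mul, abs_of_pos hρ0]
      nlinarith
    have hkρ : |(k : ℝ) * ρ| ≤ 3 := by
      have h4 : (k : ℝ) * ρ = t - (t - k * ρ) := by ring
      rw [h4]
      exact (abs_sub _ _).trans (by linarith)
    rw [Finset.mem_biUnion]
    refine ⟨k, ?_, ?_⟩
    · have h3 : |(k : ℝ)| ≤ n0 := by
        have h5 : |(k : ℝ)| * ρ ≤ 2 + ρ := by
          have h4 : (k : ℝ) * ρ = t - (t - k * ρ) := by ring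
          have h6 : |(k : ℝ)| * ρ = |(k : ℝ) * ρ| := by rw [abs_mul, abs_of_pos hρ0]
          rw [h6, h4]
          exact (abs_sub _ _).trans (by linarith)
        have h6 : |(k : ℝ)| ≤ 2 * CL d * y ^ 2 + 1 := by
          have h7 : |(k : ℝ)| ≤ (2 + ρ) / ρ := by rw [le_div_iff₀ hρ0]; exact h5
          have h8 : (2 + ρ) / ρ = 2 * CL d * y ^ 2 + 1 := by rw [hρ]; field_simp
          rwa [h8] at h7
        rw [hn0]
        push_cast
        have := Nat.le_ceil (2 * CL d * y ^ 2)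
        linarith
      rw [Finset.mem_Icc]
      have h4 : |k| ≤ (n0 : ℤ) := by exact_mod_cast h3
      exact abs_le.1 h4
    · rw [hS2, Finset.mem_filter]
      have ht3 : |t| ≤ 3 := by linarith
      have hlip : CL d * H * |(k : ℝ) * ρ - t| ≤ H / y ^ 2 := by
        rw [abs_sub_comm]
        calc CL d * H * |t - (k : ℝ) * ρ| ≤ CL d * H * ρ :=
              mul_le_mul_of_nonneg_left hkt (by positivity)
          _ = H / y ^ 2 := by rw [hρ]; field_simp
      refine ⟨hc1, ?_, ?_⟩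
      · have h3 := (ff_lip (by omega) hc1 hkρ ht3).trans hlip
        have h4 : evf ((k : ℝ) * ρ) (ff c) = (evf ((k : ℝ) * ρ) (ff c) - evf t (ff c))
          + evf t (ff c) := by ring
        rw [h4, hM]
        exact (abs_add_le _ _).trans (by linarith)
      · have h3 := (dff_lip hc1 hkρ ht3).trans hlip
        have h4 : evf ((k : ℝ) * ρ) (derivative (ff c)) = (evf ((k : ℝ) * ρ) (derivative (ff c))
          - evf t (derivative (ff c))) + evf t (derivative (ff c)) := by ring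
        rw [h4, hM]
        exact (abs_add_le _ _).trans (by linarith)
  have h1 : (((Bx ↥(Ix d) H).filter (fun c => ¬ T2c H y c)).card : ℝ)
      ≤ (((Icc (-(n0 : ℤ)) n0).biUnion S2).card : ℝ) := by
    exact_mod_cast Finset.card_le_card hsub
  have h2 := card_biUnion_real (Icc (-(n0 : ℤ)) n0) S2 _ (fun k _ => c3 k)
  refine h1.trans (h2.trans ?_)
  rw [card_Icc_H]
  have h3 : ((2 * n0 + 1 : ℕ) : ℝ) ≤ 5 * y ^ 3 := by
    push_cast
    have h4 : (n0 : ℝ) ≤ 2 * CL d * y ^ 2 + 2 := by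
      rw [hn0]; push_cast
      have := Nat.ceil_lt_add_one (show 0 ≤ 2 * CL d * y ^ 2 by positivity)
      linarith
    have h5 : CL d * y ^ 2 ≤ y ^ 3 := by
      calc CL d * y ^ 2 ≤ y * y ^ 2 := mul_le_mul_of_nonneg_right hyC (by positivity)
        _ = y ^ 3 := by ring
    have h6 : 5 ≤ y ^ 3 := by
      have : 1 ≤ y ^ 2 := by nlinarith
      nlinarith
    nlinarith
  calc ((2 * n0 + 1 : ℕ) : ℝ) * ((25 / 4) / y ^ 4 * (Bx ↥(Ix d) H).card)
      ≤ 5 * y ^ 3 * ((25 / 4) / y ^ 4 * (Bx ↥(Ix d) H).card) :=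
        mul_le_mul_of_nonneg_right h3 (by positivity)
    _ = (125 / 4) / y * (Bx ↥(Ix d) H).card := by field_simp; ring
    _ ≤ 32 / y * (Bx ↥(Ix d) H).card := by
        apply mul_le_mul_of_nonneg_right _ hbox
        apply div_le_div_of_nonneg_right _ hy0.le
        norm_num

end Pool.Agent.H322R2
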