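import Pool.Agent.H322R2.Exc

/-!
Exceptional polynomials, continued.
-/

open Polynomial Finset

namespace Pool.Agent.H322R2

lemma quad_cover (p q r : ℤ) (h0 : p ≠ 0 ∨ q ≠ 0 ∨ r ≠ 0) {B s : ℝ} (hB : 0 ≤ B) (hs0 : 0 < s)
    (hs1 : s ≤ 1) (hs : 12 * B < s ^ 2) : ∃ u1 u2 : ℝ, |u1| ≤ 2 ∧ |u2| ≤ 2 ∧
      ∀ t : ℝ, |t| ≤ 2 → |(p : ℝ) + q * t + r * t ^ 2| ≤ B → |t - u1| ≤ s ∨ |t - u2| ≤ s := by
  by_contra hcon
  push_neg at hcon
  obtain ⟨t0, ht0, hV0, -, -⟩ := hcon 0 0 (by simp) (by simp)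
  obtain ⟨t1, ht1, hV1, h10, -⟩ := hcon t0 t0 ht0 ht0
  obtain ⟨t2, ht2, hV2, h20, h21⟩ := hcon t0 t1 ht0 ht1
  have hB12 : 12 * B < 1 := by nlinarith
  have hBs : 12 * B < s := by nlinarith
  -- r = 0
  have small : ∀ n : ℤ, |(n : ℝ)| < 1 → n = 0 := by
    intro n hn
    have h1 : |n| < 1 := by exact_mod_cast hn
    have h2 := abs_nonneg n
    have h3 : |n| = 0 := by omega
    exact abs_eq_zero.1 h3
  have hr : r = 0 := by
    apply small
    by_contra hge
    push_neg at hge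
    obtain ⟨a, ha⟩ : ∃ a, a = |t1 - t0| := ⟨_, rfl⟩
    obtain ⟨b, hb⟩ : ∃ b, b = |t2 - t0| := ⟨_, rfl⟩
    obtain ⟨e, he⟩ : ∃ e, e = |t2 - t1| := ⟨_, rfl⟩
    rw [← ha] at h10
    rw [← hb] at h20
    rw [← he] at h21
    have hid : (r : ℝ) * ((t1 - t0) * (t2 - t0) * (t2 - t1))
        = (p + q * t0 + r * t0 ^ 2) * (t2 - t1) - (p + q * t1 + r * t1 ^ 2) * (t2 - t0)
          + (p + q * t2 + r * t2 ^ 2) * (t1 - t0) := by ring
    have h1 := congrArg abs hid
    rw [abs_mul, abs_mul, abs_mul, ← ha, ← hb, ← he] at h1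
    have h2 : |(p + q * t0 + r * t0 ^ 2) * (t2 - t1) - (p + q * t1 + r * t1 ^ 2) * (t2 - t0)
          + (p + q * t2 + r * t2 ^ 2) * (t1 - t0)| ≤ B * e + B * b + B * a := by
      refine (abs_add_le _ _).trans ?_
      have h3 := abs_sub (((p : ℝ) + q * t0 + r * t0 ^ 2) * (t2 - t1))
        ((p + q * t1 + r * t1 ^ 2) * (t2 - t0))
      rw [abs_mul, abs_mul, ← he, ← hb] at h3
      rw [abs_mul _ (t1 - t0), ← ha]
      have e1 := mul_le_mul_of_nonneg_right hV0 (show 0 ≤ e by linarith)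
      have e2 := mul_le_mul_of_nonneg_right hV1 (show 0 ≤ b by linarith)
      have e3 := mul_le_mul_of_nonneg_right hV2 (show 0 ≤ a by linarith)
      linarith
    rw [← h1] at h2
    have ha0 : 0 < a := by linarith
    have hb0 : 0 < b := by linarith
    have he0 : 0 < e := by linarith
    have h3 : a * b * e ≤ |(r : ℝ)| * (a * b * e) :=
      le_mul_of_one_le_left (by positivity) hge
    have k1 : s ^ 2 * a ≤ a * b * e := by
      have : s * s ≤ b * e := mul_le_mul h20.le h21.le hs0.le hb0.le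
      nlinarith
    have k2 : s ^ 2 * b ≤ a * b * e := by
      have : s * s ≤ a * e := mul_le_mul h10.le h21.le hs0.le ha0.le
      nlinarith
    have k3 : s ^ 2 * e ≤ a * b * e := by
      have : s * s ≤ a * b := mul_le_mul h10.le h20.le hs0.le ha0.le
      nlinarith
    have k4 : 12 * B * (a + b + e) ≤ s ^ 2 * (a + b + e) :=
      mul_le_mul_of_nonneg_right hs.le (by positivity)
    have k5 : 0 < a * b * e := by positivity
    nlinarith
  have hq : q = 0 := by
    apply small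
    by_contra hge
    push_neg at hge
    rw [hr] at hV0 hV1
    simp only [Int.cast_zero, zero_mul, add_zero] at hV0 hV1
    have hid : (q : ℝ) * (t1 - t0) = (p + q * t1) - (p + q * t0) := by ring
    have h1 := congrArg abs hid
    rw [abs_mul] at h1
    have h2 := (abs_sub ((p : ℝ) + q * t1) (p + q * t0))
    rw [← h1] at h2
    have h3 : |t1 - t0| ≤ |(q : ℝ)| * |t1 - t0| := le_mul_of_one_le_left (abs_nonneg _) hge
    linarith
  have hp : p = 0 := by
    apply small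
    rw [hr, hq] at hV0
    simp only [Int.cast_zero, zero_mul, add_zero] at hV0
    linarith
  rcases h0 with h | h | h
  · exact h hp
  · exact h hq
  · exact h hr

variable {d : ℕ}

open Classical in
theorem card_ex3 (hd : 2 ≤ d) {H : ℕ} {A B s : ℝ} (hA : 1 ≤ A) (hB : 0 ≤ B) (hs0 : 0 < s)
    (hs1 : s ≤ 1) (hs : 12 * B < s ^ 2) :
    (((Bx ↥(Ix d) H).filter (fun c => ¬ T3c A B c)).card : ℝ) * (2 * H + 1)
      ≤ 27 * A ^ 3 * (2 * (2 * (CL d * H * s) + 1)) * (Bx ↥(Ix d) H).card := by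
  obtain ⟨n, hn⟩ : ∃ n : ℕ, n = ⌊A⌋₊ := ⟨_, rfl⟩
  have hnA : (n : ℝ) ≤ A := by rw [hn]; exact Nat.floor_le (by linarith)
  have hex : ∀ V : ℤ × ℤ × ℤ, ∃ u : Bool → ℝ, (∀ i, |u i| ≤ 2) ∧ ((V.1 ≠ 0 ∨ V.2.1 ≠ 0 ∨ V.2.2 ≠ 0) →
      ∀ t : ℝ, |t| ≤ 2 → |(V.1 : ℝ) + V.2.1 * t + V.2.2 * t ^ 2| ≤ B → ∃ i, |t - u i| ≤ s) := by
    intro V
    by_cases h0 : (V.1 ≠ 0 ∨ V.2.1 ≠ 0 ∨ V.2.2 ≠ 0)
    · obtain ⟨u1, u2, h1, h2, h3⟩ := quad_cover V.1 V.2.1 V.2.2 h0 hB hs0 hs1 hs
      refine ⟨fun i => if i then u1 else u2, ?_, ?_⟩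
      · intro i; cases i
        · simpa using h2
        · simpa using h1
      · intro _ t ht hV
        rcases h3 t ht hV with h | h
        · exact ⟨true, by simpa using h⟩
        · exact ⟨false, by simpa using h⟩
    · exact ⟨fun _ => 0, by simp, fun h => absurd h h0⟩
  choose u hu1 hu2 using hex
  obtain ⟨M, hM⟩ : ∃ M : ℝ, M = CL d * H * s := ⟨_, rfl⟩
  have hCL : 0 ≤ CL d := by unfold CL; have := NN_nonneg (d := d); positivity
  have hM0 : 0 ≤ M := by rw [hM]; positivity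
  have hp0 : ((0, d) : ℕ × ℕ) ∈ Ix d := by rw [mem_Ix]; simp
  obtain ⟨S, hS⟩ : ∃ S : (ℤ × ℤ × ℤ) × Bool → Finset (↥(Ix d) → ℤ), S = fun V : (ℤ × ℤ × ℤ) × Bool =>
    (Bx ↥(Ix d) H).filter (fun c => |evf (u V.1 V.2) (ff c)| ≤ M) := ⟨_, rfl⟩
  have c1 : ∀ V, ((S V).card : ℝ) * (2 * H + 1) ≤ (2 * M + 1) * (Bx ↥(Ix d) H).card := by
    intro V
    apply rel_count ⟨(0, d), hp0⟩ (S V) (Bx ↥(Ix d) H)
    · rw [hS]; exact Finset.filter_subset _ _
    · intro c hc t ht
      rw [hS, Finset.mem_filter] at hc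
      exact update_mem_Bx hc.1 _ ht
    · intro c hc
      have h1 := card_interval ((Icc (-(H : ℤ)) H).filter
        (fun t => Function.update c ⟨(0, d), hp0⟩ t ∈ S V))
        (evf (u V.1 V.2) (ff c) - c ⟨(0, d), hp0⟩) 1 M one_ne_zero hM0 (by
        intro t ht
        rw [Finset.mem_filter, hS, Finset.mem_filter] at ht
        obtain ⟨_, _, ht2⟩ := ht
        rw [ff, evf_lead_update] at ht2
        simp only at ht2
        rw [if_pos (by omega)] at ht2
        simp only [pow_zero, mul_one] at ht2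
        rw [← ff] at ht2
        have e : evf (u V.1 V.2) (ff c) - c ⟨(0, d), hp0⟩ + 1 * t
            = evf (u V.1 V.2) (ff c) + (t - c ⟨(0, d), hp0⟩) := by ring
        rw [e]; exact ht2)
      rw [abs_one, div_one] at h1
      exact h1
  obtain ⟨VV, hVV⟩ : ∃ VV : Finset ((ℤ × ℤ × ℤ) × Bool), VV =
    (Icc (-(n : ℤ)) n ×ˢ Icc (-(n : ℤ)) n ×ˢ Icc (-(n : ℤ)) n) ×ˢ Finset.univ := ⟨_, rfl⟩
  have hsub : (Bx ↥(Ix d) H).filter (fun c => ¬ T3c A B c) ⊆ VV.biUnion S := by
    intro c hc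
    rw [Finset.mem_filter] at hc
    obtain ⟨hc1, hc2⟩ := hc
    unfold T3c NA at hc2
    push_neg at hc2
    obtain ⟨η, hη, hη0, p, q, r, h0, hp, hq, hr, hle⟩ := hc2
    obtain ⟨i, hi⟩ := hu2 (p, q, r) h0 η hη hle
    rw [Finset.mem_biUnion]
    refine ⟨((p, q, r), i), ?_, ?_⟩
    · have key : ∀ m : ℤ, |(m : ℝ)| ≤ A → m ∈ Icc (-(n : ℤ)) n := by
        intro m hm
        rw [Finset.mem_Icc]
        have h1 : ((m.natAbs : ℕ) : ℝ) ≤ A := by rw [Nat.cast_natAbs, Int.cast_abs]; exact hm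
        have h2 : m.natAbs ≤ n := by rw [hn]; exact Nat.le_floor h1
        omega
      rw [hVV, Finset.mem_product, Finset.mem_product, Finset.mem_product]
      exact ⟨⟨key p hp, key q hq, key r hr⟩, Finset.mem_univ _⟩
    · rw [hS, Finset.mem_filter]
      refine ⟨hc1, ?_⟩
      simp only
      have h1 := ff_lip (by omega) hc1 (t := u (p, q, r) i) (t' := η)
        (by have := hu1 (p, q, r) i; linarith) (by linarith)
      rw [hη0, sub_zero] at h1
      refine h1.trans ?_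
      rw [hM, abs_sub_comm]
      exact mul_le_mul_of_nonneg_left hi (by positivity)
  have h1 : (((Bx ↥(Ix d) H).filter (fun c => ¬ T3c A B c)).card : ℝ)
      ≤ ((VV.biUnion S).card : ℝ) := by
    exact_mod_cast Finset.card_le_card hsub
  have h2 := card_biUnion_real VV S ((2 * M + 1) * (Bx ↥(Ix d) H).card / (2 * H + 1))
    (fun V _ => by
      rw [le_div_iff₀ (by positivity)]
      exact c1 V)
  have h3 : ((VV.card : ℕ) : ℝ) ≤ 27 * A ^ 3 * 2 := by
    rw [hVV, Finset.card_product, Finset.card_product, Finset.card_product, card_Icc_H,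
      Finset.card_univ, Fintype.card_bool]
    push_cast
    have h4 : 2 * (n : ℝ) + 1 ≤ 3 * A := by linarith
    calc (2 * (n : ℝ) + 1) * ((2 * n + 1) * (2 * n + 1)) * 2 = (2 * (n : ℝ) + 1) ^ 3 * 2 := by ring
      _ ≤ (3 * A) ^ 3 * 2 := by
          apply mul_le_mul_of_nonneg_right _ (by norm_num)
          exact pow_le_pow_left₀ (by positivity) h4 3
      _ = _ := by ring
  have h4 := h1.trans h2
  calc _ ≤ (VV.card * ((2 * M + 1) * (Bx ↥(Ix d) H).card / (2 * H + 1))) * (2 * H + 1) :=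
        mul_le_mul_of_nonneg_right h4 (by positivity)
    _ = VV.card * ((2 * M + 1) * (Bx ↥(Ix d) H).card) := by field_simp
    _ ≤ (27 * A ^ 3 * 2) * ((2 * M + 1) * (Bx ↥(Ix d) H).card) :=
        mul_le_mul_of_nonneg_right h3 (by positivity)
    _ = _ := by rw [hM]; ring

lemma gp_eq (c : ↥(Ix d) → ℤ) (η : ℝ) : evf η (gp d (PG c)) =
    (evf η (derivative (derivative (ff c))) * evf η (lead (d - 1) (PG c)) ^ 2
    - 2 * (evf η (derivative (ff c)) * (evf η (derivative (lead (d - 1) (PG c))) *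
      evf η (lead (d - 1) (PG c)))))
    + 2 * (evf η (derivative (ff c)) ^ 2 * evf η (lead (d - 2) (PG c))) := by
  have h2 : evf η (2 : ℤ[X]) = 2 := map_ofNat (evf η) 2
  rw [gp, ff]
  simp only [map_add, map_sub, map_mul, map_pow, h2]

open Classical in
theorem card_ex4 (hd : 3 ≤ d) {H : ℕ} {y : ℝ} (hy : 1 ≤ y) (hyH : y ^ 2 ≤ H) (hdy : d ≤ y) :
    (((Bx ↥(Ix d) H).filter (fun c => T2c H y c ∧ ¬ T4c H y c)).card : ℝ)
      ≤ 1 / y * (Bx ↥(Ix d) H).card := by
  have hy0 : 0 < y := by linarith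
  have hH0 : (0 : ℝ) < H := lt_of_lt_of_le (by positivity) hyH
  have hp2 : ((0, d - 2) : ℕ × ℕ) ∈ Ix d := by rw [mem_Ix]; simp
  obtain ⟨S, hS⟩ : ∃ S, S = (Bx ↥(Ix d) H).filter (fun c => T2c H y c ∧ ¬ T4c H y c) := ⟨_, rfl⟩
  rw [← hS]
  have hmain := rel_count (H := H) ⟨(0, d - 2), hp2⟩ S (Bx ↥(Ix d) H)
    (by rw [hS]; exact Finset.filter_subset _ _)
    (by
      intro c hc t ht
      rw [hS, Finset.mem_filter] at hc
      exact update_mem_Bx hc.1 _ ht) (d * (H / y ^ 2 + 1)) (by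
    intro c hc
    have hff : ∀ v, ff (Function.update c ⟨(0, d - 2), hp2⟩ v) = ff c := by
      intro v
      rw [ff, lead_update_of_ne _ _ _ _ (by simp only; omega), ← ff]
    have hl1 : ∀ v, lead (d - 1) (PG (Function.update c ⟨(0, d - 2), hp2⟩ v))
        = lead (d - 1) (PG c) := by
      intro v
      rw [lead_update_of_ne _ _ _ _ (by simp only; omega)]
    by_cases hT2 : T2c H y c
    swap
    · have : (Icc (-(H : ℤ)) H).filter (fun t => Function.update c ⟨(0, d - 2), hp2⟩ t ∈ S) = ∅ := by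
        rw [Finset.filter_eq_empty_iff]
        intro v _ hv
        rw [hS, Finset.mem_filter] at hv
        apply hT2
        have := hv.2.1
        unfold T2c at this ⊢
        simpa only [hff] using this
      rw [this]
      simp
      positivity
    have hne : (ff c).map (Int.castRingHom ℝ) ≠ 0 := by
      intro h0
      have hinj : Function.Injective (Int.castRingHom ℝ) := Int.cast_injective
      rw [Polynomial.map_eq_zero_iff hinj] at h0
      apply hT2 0 (by simp)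
      rw [h0]
      simp
      positivity
    obtain ⟨Rt, hRt⟩ : ∃ Rt : Finset ℝ, Rt = (((ff c).map (Int.castRingHom ℝ)).roots.toFinset).filter
      (fun η => |η| ≤ 2) := ⟨_, rfl⟩
    have hRtmem : ∀ η, η ∈ Rt ↔ (evf η (ff c) = 0 ∧ |η| ≤ 2) := by
      intro η
      rw [hRt, Finset.mem_filter, Multiset.mem_toFinset, mem_roots hne, IsRoot.def, eval_map, evf,
        coe_eval₂RingHom]
    have hRtcard : Rt.card ≤ d := by
      rw [hRt]
      refine (Finset.card_filter_le _ _).trans ((Multiset.toFinset_card_le _).trans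
        ((card_roots' _).trans ?_))
      exact natDegree_map_le.trans (ff_natDegree c)
    obtain ⟨U, hU⟩ : ∃ U : ℝ → Finset ℤ, U = fun η : ℝ => (Icc (-(H : ℤ)) H).filter
      (fun v => |evf η (gp d (PG (Function.update c ⟨(0, d - 2), hp2⟩ v)))| ≤ (H : ℝ) ^ 3 / y ^ 6) :=
      ⟨_, rfl⟩
    have hsub : (Icc (-(H : ℤ)) H).filter (fun t => Function.update c ⟨(0, d - 2), hp2⟩ t ∈ S)
        ⊆ Rt.biUnion U := by
      intro v hv
      rw [Finset.mem_filter, hS, Finset.mem_filter] at hv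
      obtain ⟨hv0, hv1, hv2, hv3⟩ := hv
      unfold T4c at hv3
      push_neg at hv3
      obtain ⟨η, e1, e2, e3⟩ := hv3
      rw [hff] at e2
      rw [Finset.mem_biUnion]
      refine ⟨η, (hRtmem η).2 ⟨e2, e1⟩, ?_⟩
      rw [hU, Finset.mem_filter]
      exact ⟨hv0, e3⟩
    have hUc : ∀ η ∈ Rt, ((U η).card : ℝ) ≤ H / y ^ 2 + 1 := by
      intro η hη
      obtain ⟨e1, e2⟩ := (hRtmem η).1 hη
      have hD : H / y ^ 2 < |evf η (derivative (ff c))| := by
        by_contra hcon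
        push_neg at hcon
        apply hT2 η e2
        rw [e1, abs_zero]
        exact ⟨by positivity, hcon⟩
      obtain ⟨D, hDD⟩ : ∃ D, D = evf η (derivative (ff c)) := ⟨_, rfl⟩
      rw [← hDD] at hD
      have hHy : 0 < (H : ℝ) / y ^ 2 := by positivity
      have hD0 : D ≠ 0 := abs_pos.1 (by linarith)
      have hb : (2 * D ^ 2 : ℝ) ≠ 0 := by positivity
      have h1 := card_interval (U η)
        (evf η (gp d (PG c)) - 2 * D ^ 2 * c ⟨(0, d - 2), hp2⟩) (2 * D ^ 2) ((H : ℝ) ^ 3 / y ^ 6) hb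
        (by positivity) (by
        intro v hv
        rw [hU, Finset.mem_filter] at hv
        obtain ⟨_, hv2⟩ := hv
        rw [gp_eq, hff, hl1, evf_lead_update] at hv2
        simp only at hv2
        rw [if_pos (by omega)] at hv2
        rw [gp_eq, ← hDD]
        rw [← hDD] at hv2
        refine le_trans (le_of_eq ?_) hv2
        congr 1
        ring)
      refine h1.trans ?_
      have h2 : 2 * ((H : ℝ) ^ 3 / y ^ 6) / |2 * D ^ 2| ≤ H / y ^ 2 := by
        rw [abs_mul, abs_pow, abs_of_pos (by norm_num : (0 : ℝ) < 2), mul_div_mul_left _ _ (by norm_num)]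
        have h3 : ((H : ℝ) / y ^ 2) ^ 2 ≤ |D| ^ 2 := pow_le_pow_left₀ hHy.le hD.le 2
        rw [div_le_iff₀ (by positivity)]
        calc (H : ℝ) ^ 3 / y ^ 6 = H / y ^ 2 * (H / y ^ 2) ^ 2 := by field_simp
          _ ≤ H / y ^ 2 * |D| ^ 2 := mul_le_mul_of_nonneg_left h3 hHy.le
      linarith
    have h5 := card_biUnion_real Rt U _ hUc
    have h6 : (((Icc (-(H : ℤ)) H).filter
        (fun t => Function.update c ⟨(0, d - 2), hp2⟩ t ∈ S)).card : ℝ) ≤ ((Rt.biUnion U).card : ℝ) := by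
      exact_mod_cast Finset.card_le_card hsub
    refine h6.trans (h5.trans ?_)
    apply mul_le_mul_of_nonneg_right _ (by positivity)
    exact_mod_cast hRtcard)
  have hbox : (0 : ℝ) ≤ (Bx ↥(Ix d) H).card := Nat.cast_nonneg _
  have h1 : d * ((H : ℝ) / y ^ 2 + 1) ≤ (1 / y) * (2 * H) := by
    have h2 : (1 : ℝ) ≤ H / y ^ 2 := by rw [le_div_iff₀ (by positivity)]; linarith
    calc d * ((H : ℝ) / y ^ 2 + 1) ≤ y * (2 * (H / y ^ 2)) := by
          apply mul_le_mul hdy (by linarith) (by positivity) hy0.le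
      _ = (1 / y) * (2 * H) := by field_simp
  have h2 : (S.card : ℝ) * (2 * H) ≤ (1 / y * (Bx ↥(Ix d) H).card) * (2 * H) := by
    calc (S.card : ℝ) * (2 * H) ≤ S.card * (2 * H + 1) := by
          apply mul_le_mul_of_nonneg_left _ (Nat.cast_nonneg _); linarith
      _ ≤ d * (H / y ^ 2 + 1) * (Bx ↥(Ix d) H).card := hmain
      _ ≤ (1 / y) * (2 * H) * (Bx ↥(Ix d) H).card := mul_le_mul_of_nonneg_right h1 hbox
      _ = _ := by ring
  exact le_of_mul_le_mul_right h2 (by positivity)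

end Pool.Agent.H322R2
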