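import Pool.Agent.H322R2.SecC

/-!
Counting vectors with reducible leading form.
-/

open Polynomial Finset

namespace Pool.Agent.H322R2

variable {d : ℕ}

lemma two_card_Ix (d : ℕ) : 2 * (Ix d).card = (d + 1) * (d + 2) := by
  rw [card_Ix]
  apply Nat.mul_div_cancel'
  exact (Nat.even_mul_succ_self (d + 1)).two_dvd

open Classical in
lemma cnt_Z0 (hd : 1 ≤ d) (H : ℕ) :
    (((Bx ↥(Ix d) H).filter (fun c => (ff c).natDegree ≠ d)).card : ℝ) * (2 * H + 1)
      ≤ 1 * (Bx ↥(Ix d) H).card := by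
  have hp : ((d, 0) : ℕ × ℕ) ∈ Ix d := by rw [mem_Ix]; simp
  have hz : ∀ c : ↥(Ix d) → ℤ, (ff c).natDegree ≠ d → c ⟨(d, 0), hp⟩ = 0 := by
    intro c hc
    have h1 : (ff c).natDegree < d := lt_of_le_of_ne (ff_natDegree c) hc
    have h2 := coeff_eq_zero_of_natDegree_lt h1
    rw [coeff_ff, Nat.sub_self, cf, dif_pos hp] at h2
    exact h2
  apply rel_count ⟨(d, 0), hp⟩ _ _ (Finset.filter_subset _ _)
  · intro c hc t ht
    rw [Finset.mem_filter] at hc
    exact update_mem_Bx hc.1 _ ht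
  · intro c hc
    have h1 : ((Icc (-(H : ℤ)) H).filter (fun t => Function.update c ⟨(d, 0), hp⟩ t ∈
      (Bx ↥(Ix d) H).filter (fun c => (ff c).natDegree ≠ d))).card ≤ 1 := by
      rw [Finset.card_le_one]
      have key : ∀ t ∈ (Icc (-(H : ℤ)) H).filter (fun t => Function.update c ⟨(d, 0), hp⟩ t ∈
        (Bx ↥(Ix d) H).filter (fun c => (ff c).natDegree ≠ d)), t = 0 := by
        intro t ht
        rw [Finset.mem_filter, Finset.mem_filter] at ht
        have := hz _ ht.2.2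
        rwa [Function.update_self] at this
      intro t ht t' ht'
      rw [key t ht, key t' ht']
    exact_mod_cast h1

open Classical in
lemma cnt_red (hd : 2 ≤ d) {H : ℕ} {y : ℝ} (hy1 : 1 ≤ y) (hH : 1 ≤ H)
    (hh : hs2 (2 ^ d * (d + 1) * H) ≤ y ^ 2) (hconst : (d : ℝ) * (3 * (2 ^ d * (d + 1))) ^ d ≤ y)
    (hyH : y ^ (2 * d + 2) ≤ H) :
    (((Bx ↥(Ix d) H).filter (fun c => (ff c).natDegree = d ∧
      ¬ Irreducible ((ff c).map (Int.castRingHom ℚ)))).card : ℝ) ≤ 1 / y * (Bx ↥(Ix d) H).card := by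
  obtain ⟨X, hX⟩ : ∃ X, X = 2 ^ d * (d + 1) * H := ⟨_, rfl⟩
  rw [← hX] at hh
  have hX1 : 1 ≤ X := by
    rw [hX]
    exact Nat.mul_pos (Nat.mul_pos (by positivity) (by omega)) hH
  obtain ⟨S, hS⟩ : ∃ S, S = (Bx ↥(Ix d) H).filter (fun c => (ff c).natDegree = d ∧
      ¬ Irreducible ((ff c).map (Int.castRingHom ℚ))) := ⟨_, rfl⟩
  rw [← hS]
  obtain ⟨U, hU⟩ : ∃ U, U = (Finset.Icc 1 (d / 2)).biUnion (Rk d X) := ⟨_, rfl⟩
  have hy0 : 0 < y := by linarith
  have hH0 : (0 : ℝ) < H := by exact_mod_cast hH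
  have hs0 : 0 ≤ hs2 X := by
    unfold hs2
    apply Finset.sum_nonneg
    intro n _
    positivity
  -- bound on U
  have hUc : (U.card : ℝ) ≤ y ^ (2 * d + 1) * (H : ℝ) ^ d := by
    have h1 := card_biUnion_real (Finset.Icc 1 (d / 2)) (Rk d X) ((3 * (X : ℝ)) ^ d * (y ^ 2) ^ d) (by
      intro k hk
      rw [Finset.mem_Icc] at hk
      refine (card_Rk_le d X k (by omega) hk.1 hX1).trans ?_
      apply mul_le_mul_of_nonneg_left _ (by positivity)
      calc hs2 X ^ (k + 1) ≤ (y ^ 2) ^ (k + 1) := pow_le_pow_left₀ hs0 hh _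
        _ ≤ (y ^ 2) ^ d := pow_le_pow_right₀ (one_le_pow₀ hy1) (by omega))
    rw [← hU, Nat.card_Icc] at h1
    refine h1.trans ?_
    have h2 : (((d / 2 + 1 - 1 : ℕ) : ℕ) : ℝ) ≤ d := by
      exact_mod_cast (show d / 2 + 1 - 1 ≤ d by omega)
    have h3 : (3 * (X : ℝ)) ^ d = (3 * (2 ^ d * (d + 1))) ^ d * (H : ℝ) ^ d := by
      rw [hX, ← mul_pow]; push_cast; ring
    calc (((d / 2 + 1 - 1 : ℕ) : ℕ) : ℝ) * ((3 * (X : ℝ)) ^ d * (y ^ 2) ^ d)
        ≤ d * ((3 * (X : ℝ)) ^ d * (y ^ 2) ^ d) := mul_le_mul_of_nonneg_right h2 (by positivity)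
      _ = (d * (3 * (2 ^ d * (d + 1))) ^ d) * ((y ^ 2) ^ d * (H : ℝ) ^ d) := by rw [h3]; ring
      _ ≤ y * ((y ^ 2) ^ d * (H : ℝ) ^ d) := mul_le_mul_of_nonneg_right hconst (by positivity)
      _ = _ := by rw [← pow_mul, ← mul_assoc, ← pow_succ']
  -- injection
  have hsub : ∀ p : ↥(Ix (d - 1)), p.1 ∈ Ix d := by
    intro p
    have := mem_Ix.1 p.2
    rw [mem_Ix]; omega
  have hcard : S.card ≤ U.card * (2 * H + 1) ^ ((Ix (d - 1)).card) := by
    have h1 : S.card ≤ (U ×ˢ Bx ↥(Ix (d - 1)) H).card := by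
      apply Finset.card_le_card_of_injOn (fun c => (ff c, fun p : ↥(Ix (d - 1)) => c ⟨p.1, hsub p⟩))
      · intro c hc
        rw [Finset.mem_coe, hS, Finset.mem_filter] at hc
        obtain ⟨hc1, hc2, hc3⟩ := hc
        rw [Finset.mem_coe, Finset.mem_product]
        refine ⟨?_, ?_⟩
        · obtain ⟨k, hk1, hk2, hk3⟩ := mem_Rk (ff c) d H (by omega) hc2 (by
            intro i
            rw [coeff_ff, cf]
            split_ifs with h
            · exact mem_Bx.1 hc1 _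
            · simp) hc3
          rw [hU, Finset.mem_biUnion]
          refine ⟨k, ?_, by rw [hX]; exact hk3⟩
          rw [Finset.mem_Icc]; omega
        · rw [mem_Bx]
          intro p
          exact mem_Bx.1 hc1 _
      · intro c _ c' _ hcc
        simp only [Prod.mk.injEq] at hcc
        obtain ⟨e1, e2⟩ := hcc
        funext p
        have hp := mem_Ix.1 p.2
        by_cases h : p.1.1 + p.1.2 ≤ d - 1
        · exact congrFun e2 ⟨p.1, mem_Ix.2 h⟩
        · have h1 := congrArg (fun f => coeff f p.1.1) e1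
          simp only [coeff_ff] at h1
          have h2 : d - p.1.1 = p.1.2 := by omega
          rw [h2, cf, cf, dif_pos p.2, dif_pos p.2] at h1
          exact h1
    rwa [Finset.card_product, card_Bx, Fintype.card_coe] at h1
  have hIx : (Ix (d - 1)).card + (d + 1) = (Ix d).card := by
    have h1 := two_card_Ix (d - 1)
    have h2 := two_card_Ix d
    have h3 : d - 1 + 1 = d := by omega
    have h4 : d - 1 + 2 = d + 1 := by omega
    rw [h3, h4] at h1
    nlinarith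
  have hfin : (S.card : ℝ) * (H : ℝ) ^ (d + 1) ≤ y ^ (2 * d + 1) * (H : ℝ) ^ d * (Bx ↥(Ix d) H).card := by
    have h1 : (S.card : ℝ) ≤ U.card * (2 * H + 1) ^ ((Ix (d - 1)).card) := by exact_mod_cast hcard
    have h2 : ((Bx ↥(Ix d) H).card : ℝ) = (2 * H + 1) ^ ((Ix (d - 1)).card) * (2 * H + 1) ^ (d + 1) := by
      rw [card_Bx, Fintype.card_coe, ← hIx, ← pow_add]; push_cast; ring
    have h3 : (H : ℝ) ^ (d + 1) ≤ (2 * H + 1) ^ (d + 1) := pow_le_pow_left₀ hH0.le (by linarith) _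
    calc (S.card : ℝ) * (H : ℝ) ^ (d + 1)
        ≤ (U.card * (2 * H + 1) ^ ((Ix (d - 1)).card)) * (2 * H + 1) ^ (d + 1) :=
          mul_le_mul h1 h3 (by positivity) (by positivity)
      _ = U.card * (Bx ↥(Ix d) H).card := by rw [h2]; ring
      _ ≤ _ := mul_le_mul_of_nonneg_right hUc (by positivity)
  have h5 : (S.card : ℝ) * (H * (H : ℝ) ^ d) ≤ (1 / y * (Bx ↥(Ix d) H).card) * (H * (H : ℝ) ^ d) := by
    have h6 : (S.card : ℝ) * (H * (H : ℝ) ^ d) = (S.card : ℝ) * (H : ℝ) ^ (d + 1) := by ring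
    rw [h6]
    refine hfin.trans ?_
    have h7 : y ^ (2 * d + 1) ≤ 1 / y * H := by
      rw [one_div, inv_mul_eq_div, le_div_iff₀ hy0, ← pow_succ]
      exact hyH
    calc y ^ (2 * d + 1) * (H : ℝ) ^ d * (Bx ↥(Ix d) H).card
        ≤ (1 / y * H) * (H : ℝ) ^ d * (Bx ↥(Ix d) H).card := by gcongr
      _ = _ := by ring
  exact le_of_mul_le_mul_right h5 (by positivity)

end Pool.Agent.H322R2
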