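import Pool.Agent.H322R2.Vec
import Pool.Agent.H322R2.RedG

/-!
Exceptional polynomials among those vanishing at prescribed points.
-/

open Polynomial Finset

namespace Pool.Agent.H322R2

variable {d : ℕ}

/-- a direction of height at most `h` -/
def Dr (S : Finset (ℤ × ℤ)) (h : ℕ) (R : ↥(Ix d) → ℤ) : Prop :=
  R ∈ Lam d S ∧ ∀ i, |R i| ≤ (h : ℤ)

lemma T_fact {H h : ℕ} (hh : 1 ≤ h) : (H / h) * h ≤ H ∧
    (H : ℝ) ≤ h * (2 * ((H / h : ℕ) : ℝ) + 1) := by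
  refine ⟨Nat.div_mul_le_self H h, ?_⟩
  have h1 : H < h * (H / h + 1) := Nat.lt_mul_div_succ H hh
  have h2 : (H : ℝ) < h * (((H / h : ℕ) : ℝ) + 1) := by exact_mod_cast h1
  have h3 : (0 : ℝ) ≤ ((H / h : ℕ) : ℝ) := by positivity
  have h4 : (0 : ℝ) ≤ (h : ℝ) := by positivity
  nlinarith

lemma VB_real (S : Finset (ℤ × ℤ)) (H L : ℕ) (hL : 1 ≤ L) :
    ((VB (Lam d S) (L * H)).card : ℝ) ≤ (2 * (L : ℝ)) ^ (Ix d).card * (VB (Lam d S) H).card := by
  have h1 := card_VB_mul (Lam d S) H L hL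
  rw [Fintype.card_coe] at h1
  have h2 : ((VB (Lam d S) (L * H)).card : ℝ)
      ≤ (VB (Lam d S) H).card * (2 * (L : ℝ)) ^ (Ix d).card := by exact_mod_cast h1
  linarith

lemma evf_C_mul (τ : ℝ) (t : ℤ) (p : ℤ[X]) : evf τ (C t * p) = t * evf τ p := by
  rw [map_mul, evf_C]

open Classical in
theorem card_ex2V (hd : 2 ≤ d) (S : Finset (ℤ × ℤ)) {h : ℕ} (hh : 1 ≤ h) {R0 R1 : ↥(Ix d) → ℤ}
    (hR0 : Dr S h R0) (hR0' : ff R0 = 1) (hR1 : Dr S h R1) (hR1' : ff R1 = X)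
    {H : ℕ} {y : ℝ} (hy : 5 ≤ y) (hyC : CL d ≤ y) (hyH : y ^ 2 ≤ H) :
    (((VB (Lam d S) H).filter (fun c => ¬ T2c (2 * H) y c)).card : ℝ)
      ≤ (405 * (h : ℝ) ^ 2 * 6 ^ (Ix d).card) / y * (VB (Lam d S) H).card := by
  have hy0 : 0 < y := by linarith
  have hH0 : (0 : ℝ) < H := lt_of_lt_of_le (by positivity) hyH
  have hh0 : (1 : ℝ) ≤ h := by exact_mod_cast hh
  have hCL : 1 ≤ CL d := by
    unfold CL
    have h1 := one_le_NN d
    have h2 : (1 : ℝ) ≤ (d : ℝ) ^ 2 := one_le_pow₀ (by exact_mod_cast (by omega : 1 ≤ d))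
    exact one_le_mul_of_one_le_of_one_le (one_le_mul_of_one_le_of_one_le h1 h2)
      (one_le_pow₀ (by norm_num))
  have hCL0 : 0 < CL d := by linarith
  obtain ⟨ρ, hρ⟩ : ∃ ρ : ℝ, ρ = 1 / (CL d * y ^ 2) := ⟨_, rfl⟩
  have hρ0 : 0 < ρ := by rw [hρ]; positivity
  have hρ1 : ρ ≤ 1 := by
    rw [hρ, div_le_one (by positivity)]
    have : 1 ≤ y ^ 2 := by nlinarith
    nlinarith
  obtain ⟨n0, hn0⟩ : ∃ n0 : ℕ, n0 = ⌈2 * CL d * y ^ 2⌉₊ + 1 := ⟨_, rfl⟩
  obtain ⟨M, hM⟩ : ∃ M : ℝ, M = 4 * (H / y ^ 2) := ⟨_, rfl⟩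
  have hM0 : 0 ≤ M := by rw [hM]; positivity
  obtain ⟨T, hT⟩ : ∃ T : ℕ, T = H / h := ⟨_, rfl⟩
  obtain ⟨hT1, hT2⟩ := T_fact (H := H) hh
  rw [← hT] at hT1 hT2
  obtain ⟨S1, hS1⟩ : ∃ S1 : ℤ → Finset (↥(Ix d) → ℤ), S1 = fun k : ℤ =>
    (VB (Lam d S) (2 * H)).filter (fun c => |evf (k * ρ) (derivative (ff c))| ≤ M) := ⟨_, rfl⟩
  obtain ⟨S2, hS2⟩ : ∃ S2 : ℤ → Finset (↥(Ix d) → ℤ), S2 = fun k : ℤ =>
    (VB (Lam d S) H).filter
    (fun c => |evf (k * ρ) (ff c)| ≤ M ∧ |evf (k * ρ) (derivative (ff c))| ≤ M) := ⟨_, rfl⟩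
  have c1 : ∀ k, ((S1 k).card : ℝ) * (2 * T + 1) ≤ (2 * M + 1) * (VB (Lam d S) (3 * H)).card := by
    intro k
    apply rel_dir (S1 k) (VB (Lam d S) (3 * H)) R1 T
    · intro c hc t ht
      rw [hS1, Finset.mem_filter] at hc
      exact smul_add_mem_VB hc.1 hR1.1 hR1.2 (by omega) ht
    · intro c hc
      have h1 := card_interval ((Icc (-(T : ℤ)) T).filter (fun t => c - t • R1 ∈ S1 k))
        (evf (k * ρ) (derivative (ff c))) (-1) M (by norm_num) hM0 (by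
        intro t ht
        rw [Finset.mem_filter, hS1, Finset.mem_filter] at ht
        obtain ⟨_, _, ht2⟩ := ht
        rw [ff_sub_smul, hR1', derivative_sub, derivative_mul, derivative_C, derivative_X, zero_mul,
          zero_add, mul_one, map_sub, evf_C] at ht2
        have e : evf ((k : ℝ) * ρ) (derivative (ff c)) + -1 * t
            = evf ((k : ℝ) * ρ) (derivative (ff c)) - t := by ring
        rw [e]; exact ht2)
      rw [abs_neg, abs_one, div_one] at h1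
      exact h1
  have c2 : ∀ k, ((S2 k).card : ℝ) * (2 * T + 1) ≤ (2 * M + 1) * (S1 k).card := by
    intro k
    apply rel_dir (S2 k) (S1 k) R0 T
    · intro c hc t ht
      rw [hS2, Finset.mem_filter] at hc
      rw [hS1, Finset.mem_filter]
      refine ⟨smul_add_mem_VB hc.1 hR0.1 hR0.2 (by omega) ht, ?_⟩
      rw [ff_add_smul, hR0', mul_one, derivative_add, derivative_C, add_zero]
      exact hc.2.2
    · intro c hc
      have h1 := card_interval ((Icc (-(T : ℤ)) T).filter (fun t => c - t • R0 ∈ S2 k))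
        (evf (k * ρ) (ff c)) (-1) M (by norm_num) hM0 (by
        intro t ht
        rw [Finset.mem_filter, hS2, Finset.mem_filter] at ht
        obtain ⟨_, _, ht2, _⟩ := ht
        rw [ff_sub_smul, hR0', mul_one, map_sub, evf_C] at ht2
        have e : evf ((k : ℝ) * ρ) (ff c) + -1 * t = evf ((k : ℝ) * ρ) (ff c) - t := by ring
        rw [e]; exact ht2)
      rw [abs_neg, abs_one, div_one] at h1
      exact h1
  obtain ⟨Vc, hVc⟩ : ∃ Vc : ℝ, Vc = (VB (Lam d S) H).card := ⟨_, rfl⟩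
  have hVc0 : 0 ≤ Vc := by rw [hVc]; positivity
  have hV3 := VB_real (d := d) S H 3 (by norm_num)
  rw [← hVc] at hV3 ⊢
  obtain ⟨N, hN⟩ : ∃ N, N = (Ix d).card := ⟨_, rfl⟩
  rw [← hN] at hV3 ⊢
  have hV3' : ((VB (Lam d S) (3 * H)).card : ℝ) ≤ 6 ^ N * Vc := by
    refine hV3.trans (le_of_eq ?_)
    norm_num
  have hM5 : 2 * M + 1 ≤ 9 * (H / y ^ 2) := by
    rw [hM]
    have : 1 ≤ (H : ℝ) / y ^ 2 := by rw [le_div_iff₀ (by positivity)]; linarith
    linarith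
  have c3 : ∀ k, ((S2 k).card : ℝ) ≤ 81 * (h : ℝ) ^ 2 * 6 ^ N / y ^ 4 * Vc := by
    intro k
    have e1 := c1 k
    have e2 := c2 k
    have hT0 : (0 : ℝ) < 2 * T + 1 := by positivity
    have e3 : ((S2 k).card : ℝ) * (2 * T + 1) ^ 2 ≤ (9 * (H / y ^ 2)) ^ 2 * (6 ^ N * Vc) := by
      calc ((S2 k).card : ℝ) * (2 * T + 1) ^ 2 = ((S2 k).card : ℝ) * (2 * T + 1) * (2 * T + 1) := by
            ring
        _ ≤ (2 * M + 1) * (S1 k).card * (2 * T + 1) :=
            mul_le_mul_of_nonneg_right e2 (by positivity)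
        _ = (2 * M + 1) * ((S1 k).card * (2 * T + 1)) := by ring
        _ ≤ (2 * M + 1) * ((2 * M + 1) * (VB (Lam d S) (3 * H)).card) :=
            mul_le_mul_of_nonneg_left e1 (by linarith)
        _ ≤ (2 * M + 1) * ((2 * M + 1) * (6 ^ N * Vc)) := by gcongr
        _ = (2 * M + 1) ^ 2 * (6 ^ N * Vc) := by ring
        _ ≤ _ := by
            apply mul_le_mul_of_nonneg_right _ (by positivity)
            exact pow_le_pow_left₀ (by linarith) hM5 2
    have e4 : ((S2 k).card : ℝ) * (H : ℝ) ^ 2 ≤ (h : ℝ) ^ 2 * (((S2 k).card : ℝ) * (2 * T + 1) ^ 2) := by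
      have e5 : (H : ℝ) ^ 2 ≤ (h * (2 * T + 1)) ^ 2 := pow_le_pow_left₀ hH0.le hT2 2
      calc ((S2 k).card : ℝ) * (H : ℝ) ^ 2 ≤ ((S2 k).card : ℝ) * (h * (2 * T + 1)) ^ 2 :=
            mul_le_mul_of_nonneg_left e5 (Nat.cast_nonneg _)
        _ = _ := by ring
    have e5 : ((S2 k).card : ℝ) * (H : ℝ) ^ 2
        ≤ (81 * (h : ℝ) ^ 2 * 6 ^ N / y ^ 4 * Vc) * (H : ℝ) ^ 2 := by
      refine (e4.trans (mul_le_mul_of_nonneg_left e3 (by positivity))).trans (le_of_eq ?_)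
      field_simp
      ring
    exact le_of_mul_le_mul_right e5 (by positivity)
  have hsub : (VB (Lam d S) H).filter (fun c => ¬ T2c (2 * H) y c) ⊆
      (Icc (-(n0 : ℤ)) n0).biUnion S2 := by
    intro c hc
    rw [Finset.mem_filter] at hc
    obtain ⟨hc1, hc2⟩ := hc
    unfold T2c at hc2
    push_neg at hc2
    obtain ⟨t, ht, h1, h2⟩ := hc2
    push_cast at h1 h2
    obtain ⟨k, hk⟩ : ∃ k, k = round (t / ρ) := ⟨_, rfl⟩
    have hkt : |t - k * ρ| ≤ ρ := by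
      have h3 := abs_sub_round (t / ρ)
      rw [← hk] at h3
      have h4 : t - k * ρ = (t / ρ - k) * ρ := by field_simp
      rw [h4, abs_mul, abs_of_pos hρ0]
      nlinarith
    have hkρ : |(k : ℝ) * ρ| ≤ 3 := by
      have h4 : (k : ℝ) * ρ = t - (t - k * ρ) := by ring
      rw [h4]
      exact (abs_sub _ _).trans (by linarith)
    rw [Finset.mem_biUnion]
    refine ⟨k, ?_, ?_⟩
    · have h3 : |(k : ℝ)| ≤ n0 := by
        have h5 : |(k : ℝ)| * ρ ≤ 2 + ρ := by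
          have h4 : (k : ℝ) * ρ = t - (t - k * ρ) := by ring
          have h6 : |(k : ℝ)| * ρ = |(k : ℝ) * ρ| := by rw [abs_mul, abs_of_pos hρ0]
          rw [h6, h4]
          exact (abs_sub _ _).trans (by linarith)
        have h6 : |(k : ℝ)| ≤ 2 * CL d * y ^ 2 + 1 := by
          have h7 : |(k : ℝ)| ≤ (2 + ρ) / ρ := by rw [le_div_iff₀ hρ0]; exact h5
          have h8 : (2 + ρ) / ρ = 2 * CL d * y ^ 2 + 1 := by rw [hρ]; field_simp
          rwa [h8] at h7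
        rw [hn0]
        push_cast
        have := Nat.le_ceil (2 * CL d * y ^ 2)
        linarith
      rw [Finset.mem_Icc]
      have h4 : |k| ≤ (n0 : ℤ) := by exact_mod_cast h3
      exact abs_le.1 h4
    · rw [hS2, Finset.mem_filter]
      have hcB := VB_sub_Bx _ _ hc1
      have ht3 : |t| ≤ 3 := by linarith
      have hlip : CL d * H * |(k : ℝ) * ρ - t| ≤ H / y ^ 2 := by
        rw [abs_sub_comm]
        calc CL d * H * |t - (k : ℝ) * ρ| ≤ CL d * H * ρ :=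
              mul_le_mul_of_nonneg_left hkt (by positivity)
          _ = H / y ^ 2 := by rw [hρ]; field_simp
      have hHy : 0 ≤ (H : ℝ) / y ^ 2 := by positivity
      have h2H : 2 * (H : ℝ) / y ^ 2 = 2 * (H / y ^ 2) := by ring
      rw [h2H] at h1 h2
      refine ⟨hc1, ?_, ?_⟩
      · have h3 := (ff_lip (by omega) hcB hkρ ht3).trans hlip
        have h4 : evf ((k : ℝ) * ρ) (ff c) = (evf ((k : ℝ) * ρ) (ff c) - evf t (ff c))
          + evf t (ff c) := by ring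
        rw [h4, hM]
        exact (abs_add_le _ _).trans (by linarith)
      · have h3 := (dff_lip hcB hkρ ht3).trans hlip
        have h4 : evf ((k : ℝ) * ρ) (derivative (ff c)) = (evf ((k : ℝ) * ρ) (derivative (ff c))
          - evf t (derivative (ff c))) + evf t (derivative (ff c)) := by ring
        rw [h4, hM]
        exact (abs_add_le _ _).trans (by linarith)
  have h1 : (((VB (Lam d S) H).filter (fun c => ¬ T2c (2 * H) y c)).card : ℝ)
      ≤ (((Icc (-(n0 : ℤ)) n0).biUnion S2).card : ℝ) := by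
    exact_mod_cast Finset.card_le_card hsub
  have h2 := card_biUnion_real (Icc (-(n0 : ℤ)) n0) S2 _ (fun k _ => c3 k)
  refine h1.trans (h2.trans ?_)
  rw [card_Icc_H]
  have h3 : ((2 * n0 + 1 : ℕ) : ℝ) ≤ 5 * y ^ 3 := by
    push_cast
    have h4 : (n0 : ℝ) ≤ 2 * CL d * y ^ 2 + 2 := by
      rw [hn0]; push_cast
      have := Nat.ceil_lt_add_one (show 0 ≤ 2 * CL d * y ^ 2 by positivity)
      linarith
    have h5 : CL d * y ^ 2 ≤ y ^ 3 := by
      calc CL d * y ^ 2 ≤ y * y ^ 2 := mul_le_mul_of_nonneg_right hyC (by positivity)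
        _ = y ^ 3 := by ring
    have h6 : 5 ≤ y ^ 3 := by
      have : 1 ≤ y ^ 2 := by nlinarith
      nlinarith
    nlinarith
  calc ((2 * n0 + 1 : ℕ) : ℝ) * (81 * (h : ℝ) ^ 2 * 6 ^ N / y ^ 4 * Vc)
      ≤ 5 * y ^ 3 * (81 * (h : ℝ) ^ 2 * 6 ^ N / y ^ 4 * Vc) :=
        mul_le_mul_of_nonneg_right h3 (by positivity)
    _ = _ := by field_simp; ring

open Classical in
theorem card_ex3V (hd : 2 ≤ d) (S : Finset (ℤ × ℤ)) {h : ℕ} (hh : 1 ≤ h) {R0 : ↥(Ix d) → ℤ}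
    (hR0 : Dr S h R0) (hR0' : ff R0 = 1)
    {H : ℕ} {A B s : ℝ} (hA : 1 ≤ A) (hB : 0 ≤ B) (hs0 : 0 < s)
    (hs1 : s ≤ 1) (hs : 12 * B < s ^ 2) :
    (((VB (Lam d S) H).filter (fun c => ¬ T3c A B c)).card : ℝ) * H
      ≤ 54 * A ^ 3 * (h * 4 ^ (Ix d).card) * (2 * (CL d * H * s) + 1) * (VB (Lam d S) H).card := by
  obtain ⟨n, hn⟩ : ∃ n : ℕ, n = ⌊A⌋₊ := ⟨_, rfl⟩
  have hnA : (n : ℝ) ≤ A := by rw [hn]; exact Nat.floor_le (by linarith)
  have hex : ∀ V : ℤ × ℤ × ℤ, ∃ u : Bool → ℝ, (∀ i, |u i| ≤ 2) ∧ ((V.1 ≠ 0 ∨ V.2.1 ≠ 0 ∨ V.2.2 ≠ 0) →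
      ∀ t : ℝ, |t| ≤ 2 → |(V.1 : ℝ) + V.2.1 * t + V.2.2 * t ^ 2| ≤ B → ∃ i, |t - u i| ≤ s) := by
    intro V
    by_cases h0 : (V.1 ≠ 0 ∨ V.2.1 ≠ 0 ∨ V.2.2 ≠ 0)
    · obtain ⟨u1, u2, h1, h2, h3⟩ := quad_cover V.1 V.2.1 V.2.2 h0 hB hs0 hs1 hs
      refine ⟨fun i => if i then u1 else u2, ?_, ?_⟩
      · intro i; cases i
        · simpa using h2
        · simpa using h1
      · intro _ t ht hV
        rcases h3 t ht hV with h | h
        · exact ⟨true, by simpa using h⟩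
        · exact ⟨false, by simpa using h⟩
    · exact ⟨fun _ => 0, by simp, fun h => absurd h h0⟩
  choose u hu1 hu2 using hex
  obtain ⟨M, hM⟩ : ∃ M : ℝ, M = CL d * H * s := ⟨_, rfl⟩
  have hCL : 0 ≤ CL d := by unfold CL; have := NN_nonneg (d := d); positivity
  have hM0 : 0 ≤ M := by rw [hM]; positivity
  obtain ⟨T, hT⟩ : ∃ T : ℕ, T = H / h := ⟨_, rfl⟩
  obtain ⟨hT1, hT2⟩ := T_fact (H := H) hh
  rw [← hT] at hT1 hT2
  obtain ⟨Z, hZ⟩ : ∃ Z : (ℤ × ℤ × ℤ) × Bool → Finset (↥(Ix d) → ℤ), Z = fun V : (ℤ × ℤ × ℤ) × Bool =>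
    (VB (Lam d S) H).filter (fun c => |evf (u V.1 V.2) (ff c)| ≤ M) := ⟨_, rfl⟩
  obtain ⟨Vc, hVc⟩ : ∃ Vc : ℝ, Vc = (VB (Lam d S) H).card := ⟨_, rfl⟩
  have hVc0 : 0 ≤ Vc := by rw [hVc]; positivity
  have hV2 := VB_real (d := d) S H 2 (by norm_num)
  rw [← hVc] at hV2 ⊢
  obtain ⟨N, hN⟩ : ∃ N, N = (Ix d).card := ⟨_, rfl⟩
  rw [← hN] at hV2 ⊢
  have hV2' : ((VB (Lam d S) (2 * H)).card : ℝ) ≤ 4 ^ N * Vc := by
    refine hV2.trans (le_of_eq ?_)
    norm_num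
  have c1 : ∀ V, ((Z V).card : ℝ) * H ≤ h * ((2 * M + 1) * (4 ^ N * Vc)) := by
    intro V
    have h0 : ((Z V).card : ℝ) * (2 * T + 1) ≤ (2 * M + 1) * (VB (Lam d S) (2 * H)).card := by
      apply rel_dir (Z V) (VB (Lam d S) (2 * H)) R0 T
      · intro c hc t ht
        rw [hZ, Finset.mem_filter] at hc
        exact smul_add_mem_VB hc.1 hR0.1 hR0.2 (by omega) ht
      · intro c hc
        have h1 := card_interval ((Icc (-(T : ℤ)) T).filter (fun t => c - t • R0 ∈ Z V))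
          (evf (u V.1 V.2) (ff c)) (-1) M (by norm_num) hM0 (by
          intro t ht
          rw [Finset.mem_filter, hZ, Finset.mem_filter] at ht
          obtain ⟨_, _, ht2⟩ := ht
          rw [ff_sub_smul, hR0', mul_one, map_sub, evf_C] at ht2
          have e : evf (u V.1 V.2) (ff c) + -1 * t = evf (u V.1 V.2) (ff c) - t := by ring
          rw [e]; exact ht2)
        rw [abs_neg, abs_one, div_one] at h1
        exact h1
    calc ((Z V).card : ℝ) * H ≤ (Z V).card * (h * (2 * T + 1)) :=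
          mul_le_mul_of_nonneg_left hT2 (Nat.cast_nonneg _)
      _ = h * ((Z V).card * (2 * T + 1)) := by ring
      _ ≤ h * ((2 * M + 1) * (VB (Lam d S) (2 * H)).card) :=
          mul_le_mul_of_nonneg_left h0 (Nat.cast_nonneg _)
      _ ≤ h * ((2 * M + 1) * (4 ^ N * Vc)) := by gcongr
  obtain ⟨VV, hVV⟩ : ∃ VV : Finset ((ℤ × ℤ × ℤ) × Bool), VV =
    (Icc (-(n : ℤ)) n ×ˢ Icc (-(n : ℤ)) n ×ˢ Icc (-(n : ℤ)) n) ×ˢ Finset.univ := ⟨_, rfl⟩
  have hsub : (VB (Lam d S) H).filter (fun c => ¬ T3c A B c) ⊆ VV.biUnion Z := by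
    intro c hc
    rw [Finset.mem_filter] at hc
    obtain ⟨hc1, hc2⟩ := hc
    unfold T3c NA at hc2
    push_neg at hc2
    obtain ⟨η, hη, hη0, p, q, r, h0, hp, hq, hr, hle⟩ := hc2
    obtain ⟨i, hi⟩ := hu2 (p, q, r) h0 η hη hle
    rw [Finset.mem_biUnion]
    refine ⟨((p, q, r), i), ?_, ?_⟩
    · have key : ∀ m : ℤ, |(m : ℝ)| ≤ A → m ∈ Icc (-(n : ℤ)) n := by
        intro m hm
        rw [Finset.mem_Icc]
        have h1 : ((m.natAbs : ℕ) : ℝ) ≤ A := by rw [Nat.cast_natAbs, Int.cast_abs]; exact hm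
        have h2 : m.natAbs ≤ n := by rw [hn]; exact Nat.le_floor h1
        omega
      rw [hVV, Finset.mem_product, Finset.mem_product, Finset.mem_product]
      exact ⟨⟨key p hp, key q hq, key r hr⟩, Finset.mem_univ _⟩
    · rw [hZ, Finset.mem_filter]
      refine ⟨hc1, ?_⟩
      simp only
      have h1 := ff_lip (by omega) (VB_sub_Bx _ _ hc1) (t := u (p, q, r) i) (t' := η)
        (by have := hu1 (p, q, r) i; linarith) (by linarith)
      rw [hη0, sub_zero] at h1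
      refine h1.trans ?_
      rw [hM, abs_sub_comm]
      exact mul_le_mul_of_nonneg_left hi (by positivity)
  have h1 : (((VB (Lam d S) H).filter (fun c => ¬ T3c A B c)).card : ℝ)
      ≤ ((VV.biUnion Z).card : ℝ) := by
    exact_mod_cast Finset.card_le_card hsub
  rcases Nat.eq_zero_or_pos H with hH0 | hH0
  · subst hH0
    simp
    positivity
  have hHR : (0 : ℝ) < H := by exact_mod_cast hH0
  have h2 := card_biUnion_real VV Z (h * ((2 * M + 1) * (4 ^ N * Vc)) / H)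
    (fun V _ => by
      rw [le_div_iff₀ hHR]
      exact c1 V)
  have h3 : ((VV.card : ℕ) : ℝ) ≤ 27 * A ^ 3 * 2 := by
    rw [hVV, Finset.card_product, Finset.card_product, Finset.card_product, card_Icc_H,
      Finset.card_univ, Fintype.card_bool]
    push_cast
    have h4 : 2 * (n : ℝ) + 1 ≤ 3 * A := by linarith
    calc (2 * (n : ℝ) + 1) * ((2 * n + 1) * (2 * n + 1)) * 2 = (2 * (n : ℝ) + 1) ^ 3 * 2 := by ring
      _ ≤ (3 * A) ^ 3 * 2 := by
          apply mul_le_mul_of_nonneg_right _ (by norm_num)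
          exact pow_le_pow_left₀ (by positivity) h4 3
      _ = _ := by ring
  have h4 := h1.trans h2
  calc _ ≤ (VV.card * (h * ((2 * M + 1) * (4 ^ N * Vc)) / H)) * H :=
        mul_le_mul_of_nonneg_right h4 (by positivity)
    _ = VV.card * (h * ((2 * M + 1) * (4 ^ N * Vc))) := by field_simp
    _ ≤ (27 * A ^ 3 * 2) * (h * ((2 * M + 1) * (4 ^ N * Vc))) :=
        mul_le_mul_of_nonneg_right h3 (by positivity)
    _ = _ := by rw [hM]; ring

end Pool.Agent.H322R2
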