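import Pool.Agent.H322R2.ExcV

/-!
Exceptional polynomials among those vanishing at prescribed points, continued.
-/

open Polynomial Finset

namespace Pool.Agent.H322R2

variable {d : ℕ}

/-- the number of lattice points -/
noncomputable def Vo (d : ℕ) (S : Finset (ℤ × ℤ)) (H : ℕ) : ℝ := ((VB (Lam d S) H).card : ℝ)

lemma Vo_nonneg (S : Finset (ℤ × ℤ)) (H : ℕ) : 0 ≤ Vo d S H := by unfold Vo; positivity

/-- one-direction conclusion -/
lemma dir_concl {S : Finset (ℤ × ℤ)} {h H : ℕ} (hh : 1 ≤ h) {a K : ℝ} (ha : 0 ≤ a) (hK : 0 ≤ K)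
    (h0 : a * (2 * ((H / h : ℕ) : ℝ) + 1) ≤ K * (VB (Lam d S) (2 * H)).card) :
    a * H ≤ (h * 4 ^ (Ix d).card) * K * Vo d S H := by
  obtain ⟨hT1, hT2⟩ := T_fact (H := H) hh
  have hV2 := VB_real (d := d) S H 2 (by norm_num)
  have hV2' : ((VB (Lam d S) (2 * H)).card : ℝ) ≤ 4 ^ (Ix d).card * Vo d S H := by
    refine hV2.trans (le_of_eq ?_)
    unfold Vo
    norm_num
  calc a * H ≤ a * (h * (2 * ((H / h : ℕ) : ℝ) + 1)) := mul_le_mul_of_nonneg_left hT2 ha
    _ = h * (a * (2 * ((H / h : ℕ) : ℝ) + 1)) := by ring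
    _ ≤ h * (K * (VB (Lam d S) (2 * H)).card) := mul_le_mul_of_nonneg_left h0 (Nat.cast_nonneg _)
    _ ≤ h * (K * (4 ^ (Ix d).card * Vo d S H)) := by gcongr
    _ = _ := by ring

open Classical in
theorem card_ex4V (hd : 3 ≤ d) (S : Finset (ℤ × ℤ)) {h : ℕ} (hh : 1 ≤ h) {R2 : ↥(Ix d) → ℤ}
    (hR : Dr S h R2) (hR0 : ff R2 = 0) (hR1 : lead (d - 1) (PG R2) = 0)
    (hR2 : lead (d - 2) (PG R2) = 1)
    {H : ℕ} {y : ℝ} (hy : 1 ≤ y) (hyH : y ^ 2 ≤ H) (hdy : d ≤ y) :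
    (((VB (Lam d S) H).filter (fun c => T2c (2 * H) y c ∧ ¬ T4c (2 * H) y c)).card : ℝ)
      ≤ (3 * (h * 4 ^ (Ix d).card)) / y * Vo d S H := by
  have hy0 : 0 < y := by linarith
  have hH0 : (0 : ℝ) < H := lt_of_lt_of_le (by positivity) hyH
  obtain ⟨Z, hZ⟩ : ∃ Z, Z = (VB (Lam d S) H).filter (fun c => T2c (2 * H) y c ∧ ¬ T4c (2 * H) y c) :=
    ⟨_, rfl⟩
  rw [← hZ]
  have hT1 := (T_fact (H := H) hh).1
  have hmain := rel_dir Z (VB (Lam d S) (2 * H)) R2 (H / h)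
    (by
      intro c hc t ht
      rw [hZ, Finset.mem_filter] at hc
      exact smul_add_mem_VB hc.1 hR.1 hR.2 (by omega) ht) (d * (2 * H / y ^ 2 + 1)) (by
    intro c hc
    have hff : ∀ v : ℤ, ff (c - v • R2) = ff c := by
      intro v
      rw [ff_sub_smul, hR0, mul_zero, sub_zero]
    have hl1 : ∀ v : ℤ, lead (d - 1) (PG (c - v • R2)) = lead (d - 1) (PG c) := by
      intro v
      rw [lead_PG_sub_smul, hR1, mul_zero, sub_zero]
    have hl2 : ∀ v : ℤ, lead (d - 2) (PG (c - v • R2)) = lead (d - 2) (PG c) - C v := by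
      intro v
      rw [lead_PG_sub_smul, hR2, mul_one]
    by_cases hT2 : T2c (2 * H) y c
    swap
    · have : (Icc (-((H / h : ℕ) : ℤ)) (H / h : ℕ)).filter (fun t => c - t • R2 ∈ Z) = ∅ := by
        rw [Finset.filter_eq_empty_iff]
        intro v _ hv
        rw [hZ, Finset.mem_filter] at hv
        apply hT2
        have := hv.2.1
        unfold T2c at this ⊢
        simpa only [hff] using this
      rw [this]
      simp
      positivity
    have hne : (ff c).map (Int.castRingHom ℝ) ≠ 0 := by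
      intro h0
      have hinj : Function.Injective (Int.castRingHom ℝ) := Int.cast_injective
      rw [Polynomial.map_eq_zero_iff hinj] at h0
      apply hT2 0 (by simp)
      rw [h0]
      simp
      positivity
    obtain ⟨Rt, hRt⟩ : ∃ Rt : Finset ℝ, Rt = (((ff c).map (Int.castRingHom ℝ)).roots.toFinset).filter
      (fun η => |η| ≤ 2) := ⟨_, rfl⟩
    have hRtmem : ∀ η, η ∈ Rt ↔ (evf η (ff c) = 0 ∧ |η| ≤ 2) := by
      intro η
      rw [hRt, Finset.mem_filter, Multiset.mem_toFinset, mem_roots hne, IsRoot.def, eval_map, evf,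
        coe_eval₂RingHom]
    have hRtcard : Rt.card ≤ d := by
      rw [hRt]
      refine (Finset.card_filter_le _ _).trans ((Multiset.toFinset_card_le _).trans
        ((card_roots' _).trans ?_))
      exact natDegree_map_le.trans (ff_natDegree c)
    obtain ⟨U, hU⟩ : ∃ U : ℝ → Finset ℤ, U = fun η : ℝ => (Icc (-((H / h : ℕ) : ℤ)) (H / h : ℕ)).filter
      (fun v => |evf η (gp d (PG (c - v • R2)))| ≤ (2 * H : ℝ) ^ 3 / y ^ 6) :=
      ⟨_, rfl⟩
    have hsub : (Icc (-((H / h : ℕ) : ℤ)) (H / h : ℕ)).filter (fun t => c - t • R2 ∈ Z)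
        ⊆ Rt.biUnion U := by
      intro v hv
      rw [Finset.mem_filter, hZ, Finset.mem_filter] at hv
      obtain ⟨hv0, hv1, hv2, hv3⟩ := hv
      unfold T4c at hv3
      push_neg at hv3
      obtain ⟨η, e1, e2, e3⟩ := hv3
      rw [hff] at e2
      rw [Finset.mem_biUnion]
      refine ⟨η, (hRtmem η).2 ⟨e2, e1⟩, ?_⟩
      rw [hU, Finset.mem_filter]
      refine ⟨hv0, ?_⟩
      push_cast at e3
      exact e3
    have hUc : ∀ η ∈ Rt, ((U η).card : ℝ) ≤ 2 * H / y ^ 2 + 1 := by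
      intro η hη
      obtain ⟨e1, e2⟩ := (hRtmem η).1 hη
      have hD : 2 * H / y ^ 2 < |evf η (derivative (ff c))| := by
        by_contra hcon
        push_neg at hcon
        apply hT2 η e2
        rw [e1, abs_zero]
        push_cast
        exact ⟨by positivity, hcon⟩
      obtain ⟨D, hDD⟩ : ∃ D, D = evf η (derivative (ff c)) := ⟨_, rfl⟩
      rw [← hDD] at hD
      have hHy : 0 < 2 * (H : ℝ) / y ^ 2 := by positivity
      have hD0 : D ≠ 0 := abs_pos.1 (by linarith)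
      have hb : (-(2 * D ^ 2) : ℝ) ≠ 0 := neg_ne_zero.2 (by positivity)
      have h1 := card_interval (U η)
        (evf η (gp d (PG c))) (-(2 * D ^ 2)) ((2 * H : ℝ) ^ 3 / y ^ 6) hb
        (by positivity) (by
        intro v hv
        rw [hU, Finset.mem_filter] at hv
        obtain ⟨_, hv2⟩ := hv
        rw [gp_eq, hff, hl1, hl2, map_sub, evf_C] at hv2
        rw [gp_eq, ← hDD]
        rw [← hDD] at hv2
        refine le_trans (le_of_eq ?_) hv2
        congr 1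
        ring)
      refine h1.trans ?_
      have h2 : 2 * ((2 * H : ℝ) ^ 3 / y ^ 6) / |-(2 * D ^ 2)| ≤ 2 * H / y ^ 2 := by
        rw [abs_neg, abs_mul, abs_pow, abs_of_pos (by norm_num : (0 : ℝ) < 2),
          mul_div_mul_left _ _ (by norm_num)]
        have h3 : (2 * (H : ℝ) / y ^ 2) ^ 2 ≤ |D| ^ 2 := pow_le_pow_left₀ hHy.le hD.le 2
        rw [div_le_iff₀ (by positivity)]
        calc (2 * H : ℝ) ^ 3 / y ^ 6 = 2 * H / y ^ 2 * (2 * H / y ^ 2) ^ 2 := by field_simp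
          _ ≤ 2 * H / y ^ 2 * |D| ^ 2 := mul_le_mul_of_nonneg_left h3 hHy.le
      linarith
    have h5 := card_biUnion_real Rt U _ hUc
    have h6 : (((Icc (-((H / h : ℕ) : ℤ)) (H / h : ℕ)).filter
        (fun t => c - t • R2 ∈ Z)).card : ℝ) ≤ ((Rt.biUnion U).card : ℝ) := by
      exact_mod_cast Finset.card_le_card hsub
    refine h6.trans (h5.trans ?_)
    apply mul_le_mul_of_nonneg_right _ (by positivity)
    exact_mod_cast hRtcard)
  have h1 := dir_concl (d := d) (S := S) hh (a := (Z.card : ℝ)) (K := d * (2 * H / y ^ 2 + 1))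
    (Nat.cast_nonneg _) (by positivity) hmain
  have h2 : d * (2 * (H : ℝ) / y ^ 2 + 1) ≤ (3 / y) * H := by
    have h2 : (1 : ℝ) ≤ H / y ^ 2 := by rw [le_div_iff₀ (by positivity)]; linarith
    have h3 : 2 * (H : ℝ) / y ^ 2 = 2 * (H / y ^ 2) := by ring
    calc d * (2 * (H : ℝ) / y ^ 2 + 1) ≤ y * (3 * (H / y ^ 2)) := by
          rw [h3]
          apply mul_le_mul hdy (by linarith) (by positivity) hy0.le
      _ = (3 / y) * H := by field_simp
  have hV := Vo_nonneg (d := d) S H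
  have h3 : (Z.card : ℝ) * H ≤ ((3 * (h * 4 ^ (Ix d).card)) / y * Vo d S H) * H := by
    refine h1.trans ?_
    calc (h * 4 ^ (Ix d).card) * (d * (2 * (H : ℝ) / y ^ 2 + 1)) * Vo d S H
        ≤ (h * 4 ^ (Ix d).card) * ((3 / y) * H) * Vo d S H := by gcongr
      _ = _ := by ring
  exact le_of_mul_le_mul_right h3 hH0

open Classical in
lemma cnt_Z0V (S : Finset (ℤ × ℤ)) {h : ℕ} (hh : 1 ≤ h) {R : ↥(Ix d) → ℤ}
    (hR : Dr S h R) (hR0 : ff R = X ^ d) (H : ℕ) :
    (((VB (Lam d S) H).filter (fun c => (ff c).natDegree ≠ d)).card : ℝ) * H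
      ≤ (h * 4 ^ (Ix d).card) * 1 * Vo d S H := by
  have hz : ∀ c : ↥(Ix d) → ℤ, (ff c).natDegree ≠ d → (ff c).coeff d = 0 := by
    intro c hc
    have h1 : (ff c).natDegree < d := lt_of_le_of_ne (ff_natDegree c) hc
    exact coeff_eq_zero_of_natDegree_lt h1
  have hT1 := (T_fact (H := H) hh).1
  apply dir_concl hh (Nat.cast_nonneg _) (by norm_num)
  apply rel_dir _ _ R
  · intro c hc t ht
    rw [Finset.mem_filter] at hc
    exact smul_add_mem_VB hc.1 hR.1 hR.2 (by omega) ht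
  · intro c hc
    have h1 : ((Icc (-((H / h : ℕ) : ℤ)) (H / h : ℕ)).filter (fun t => c - t • R ∈
      (VB (Lam d S) H).filter (fun c => (ff c).natDegree ≠ d))).card ≤ 1 := by
      rw [Finset.card_le_one]
      have key : ∀ t ∈ (Icc (-((H / h : ℕ) : ℤ)) (H / h : ℕ)).filter (fun t => c - t • R ∈
        (VB (Lam d S) H).filter (fun c => (ff c).natDegree ≠ d)), t = (ff c).coeff d := by
        intro t ht
        rw [Finset.mem_filter, Finset.mem_filter] at ht
        have := hz _ ht.2.2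
        rw [ff_sub_smul, hR0, coeff_sub, coeff_C_mul, coeff_X_pow, if_pos rfl, mul_one] at this
        linarith
      intro t ht t' ht'
      rw [key t ht, key t' ht']
    exact_mod_cast h1

lemma card_U_le (hd : 2 ≤ d) {H : ℕ} {y : ℝ} (hy1 : 1 ≤ y) (hH : 1 ≤ H)
    (hh : hs2 (2 ^ d * (d + 1) * H) ≤ y ^ 2) (hconst : (d : ℝ) * (3 * (2 ^ d * (d + 1))) ^ d ≤ y) :
    ((((Finset.Icc 1 (d / 2)).biUnion (Rk d (2 ^ d * (d + 1) * H))).card : ℕ) : ℝ)
      ≤ y ^ (2 * d + 1) * (H : ℝ) ^ d := by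
  obtain ⟨X, hX⟩ : ∃ X, X = 2 ^ d * (d + 1) * H := ⟨_, rfl⟩
  rw [← hX] at hh ⊢
  have hX1 : 1 ≤ X := by
    rw [hX]
    exact Nat.mul_pos (Nat.mul_pos (by positivity) (by omega)) hH
  have hy0 : 0 < y := by linarith
  have hH0 : (0 : ℝ) < H := by exact_mod_cast hH
  have hs0 : 0 ≤ hs2 X := by
    unfold hs2
    apply Finset.sum_nonneg
    intro n _
    positivity
  have h1 := card_biUnion_real (Finset.Icc 1 (d / 2)) (Rk d X) ((3 * (X : ℝ)) ^ d * (y ^ 2) ^ d) (by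
    intro k hk
    rw [Finset.mem_Icc] at hk
    refine (card_Rk_le d X k (by omega) hk.1 hX1).trans ?_
    apply mul_le_mul_of_nonneg_left _ (by positivity)
    calc hs2 X ^ (k + 1) ≤ (y ^ 2) ^ (k + 1) := pow_le_pow_left₀ hs0 hh _
      _ ≤ (y ^ 2) ^ d := pow_le_pow_right₀ (one_le_pow₀ hy1) (by omega))
  rw [Nat.card_Icc] at h1
  refine h1.trans ?_
  have h2 : (((d / 2 + 1 - 1 : ℕ) : ℕ) : ℝ) ≤ d := by
    exact_mod_cast (show d / 2 + 1 - 1 ≤ d by omega)
  have h3 : (3 * (X : ℝ)) ^ d = (3 * (2 ^ d * (d + 1))) ^ d * (H : ℝ) ^ d := by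
    rw [hX, ← mul_pow]; push_cast; ring
  calc (((d / 2 + 1 - 1 : ℕ) : ℕ) : ℝ) * ((3 * (X : ℝ)) ^ d * (y ^ 2) ^ d)
      ≤ d * ((3 * (X : ℝ)) ^ d * (y ^ 2) ^ d) := mul_le_mul_of_nonneg_right h2 (by positivity)
    _ = (d * (3 * (2 ^ d * (d + 1))) ^ d) * ((y ^ 2) ^ d * (H : ℝ) ^ d) := by rw [h3]; ring
    _ ≤ y * ((y ^ 2) ^ d * (H : ℝ) ^ d) := mul_le_mul_of_nonneg_right hconst (by positivity)
    _ = _ := by rw [← pow_mul, ← mul_assoc, ← pow_succ']

lemma ff_sub_sum (c : ↥(Ix d) → ℤ) (R : Fin (d + 1) → ↥(Ix d) → ℤ) (t : Fin (d + 1) → ℤ) :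
    ff (c - ∑ k, t k • R k) = ff c - ∑ k, C (t k) * ff (R k) := by
  have key : ∀ s : Finset (Fin (d + 1)), ff (c - ∑ k ∈ s, t k • R k)
      = ff c - ∑ k ∈ s, C (t k) * ff (R k) := by
    intro s
    induction s using Finset.induction_on with
    | empty => simp
    | insert k s hk ih =>
      rw [Finset.sum_insert hk, Finset.sum_insert hk]
      have h1 : c - (t k • R k + ∑ x ∈ s, t x • R x) = (c - ∑ x ∈ s, t x • R x) - t k • R k := by
        abel
      rw [h1, ff_sub_smul, ih]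
      ring
  exact key _

open Classical in
lemma cnt_redV (hd : 2 ≤ d) (S : Finset (ℤ × ℤ)) {h : ℕ} (hh1 : 1 ≤ h)
    {R : Fin (d + 1) → ↥(Ix d) → ℤ} (hR : ∀ k, Dr S h (R k)) (hR0 : ∀ k, ff (R k) = X ^ (k : ℕ))
    {H : ℕ} {y : ℝ} (hy1 : 1 ≤ y) (hH : 1 ≤ H)
    (hh : hs2 (2 ^ d * (d + 1) * H) ≤ y ^ 2) (hconst : (d : ℝ) * (3 * (2 ^ d * (d + 1))) ^ d ≤ y)
    (hyH : y ^ (2 * d + 2) ≤ H) :
    (((VB (Lam d S) H).filter (fun c => (ff c).natDegree = d ∧
      ¬ Irreducible ((ff c).map (Int.castRingHom ℚ)))).card : ℝ)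
      ≤ ((h : ℝ) ^ (d + 1) * (2 * (d + 2)) ^ (Ix d).card) / y * Vo d S H := by
  obtain ⟨Z, hZ⟩ : ∃ Z, Z = (VB (Lam d S) H).filter (fun c => (ff c).natDegree = d ∧
      ¬ Irreducible ((ff c).map (Int.castRingHom ℚ))) := ⟨_, rfl⟩
  rw [← hZ]
  obtain ⟨U, hU⟩ : ∃ U, U = (Finset.Icc 1 (d / 2)).biUnion (Rk d (2 ^ d * (d + 1) * H)) := ⟨_, rfl⟩
  have hUc := card_U_le hd hy1 hH hh hconst
  rw [← hU] at hUc
  have hy0 : 0 < y := by linarith
  have hH0 : (0 : ℝ) < H := by exact_mod_cast hH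
  obtain ⟨T, hT⟩ : ∃ T : ℕ, T = H / h := ⟨_, rfl⟩
  obtain ⟨hT1, hT2⟩ := T_fact (H := H) hh1
  rw [← hT] at hT1 hT2
  have hTh : H + Fintype.card (Fin (d + 1)) * (T * h) ≤ (d + 2) * H := by
    rw [Fintype.card_fin]
    calc H + (d + 1) * (T * h) ≤ H + (d + 1) * H := by gcongr
      _ = (d + 2) * H := by ring
  have hmain := rel_multi Z (VB (Lam d S) ((d + 2) * H)) R T
    (by
      intro c hc t ht
      rw [hZ, Finset.mem_filter] at hc
      exact sum_add_mem_VB hc.1 (fun k => (hR k).1) (fun k => (hR k).2) hTh ht) (U.card : ℝ) (by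
    intro c hc
    have h1 : ((Bx (Fin (d + 1)) T).filter (fun t => c - ∑ k, t k • R k ∈ Z)).card ≤ U.card := by
      apply Finset.card_le_card_of_injOn (fun t => ff (c - ∑ k, t k • R k))
      · intro t ht
        rw [Finset.mem_coe, Finset.mem_filter, hZ, Finset.mem_filter] at ht
        obtain ⟨-, hc1, hc2, hc3⟩ := ht
        obtain ⟨k, hk1, hk2, hk3⟩ := mem_Rk _ d H (by omega) hc2 (by
            intro i
            rw [coeff_ff, cf]
            split_ifs with h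
            · exact mem_Bx.1 (VB_sub_Bx _ _ hc1) _
            · simp) hc3
        rw [Finset.mem_coe, hU, Finset.mem_biUnion]
        refine ⟨k, ?_, hk3⟩
        rw [Finset.mem_Icc]; omega
      · intro t _ t' _ htt
        simp only at htt
        rw [ff_sub_sum, ff_sub_sum] at htt
        have h2 := sub_right_injective htt
        funext k
        have h3 := congrArg (fun f => coeff f (k : ℕ)) h2
        simp only [finsetSum_coeff, coeff_C_mul, hR0, coeff_X_pow] at h3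
        rw [Finset.sum_eq_single k, Finset.sum_eq_single k] at h3
        · simpa using h3
        · intro j _ hj
          rw [if_neg, mul_zero]
          intro h4; exact hj (Fin.ext h4.symm)
        · intro h4; exact absurd (Finset.mem_univ _) h4
        · intro j _ hj
          rw [if_neg, mul_zero]
          intro h4; exact hj (Fin.ext h4.symm)
        · intro h4; exact absurd (Finset.mem_univ _) h4
    exact_mod_cast h1)
  rw [Fintype.card_fin] at hmain
  have hV := VB_real (d := d) S H (d + 2) (by omega)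
  have hV0 := Vo_nonneg (d := d) S H
  have hV' : ((VB (Lam d S) ((d + 2) * H)).card : ℝ) ≤ (2 * (d + 2)) ^ (Ix d).card * Vo d S H := by
    refine hV.trans (le_of_eq ?_)
    unfold Vo
    push_cast
    rfl
  have hfin : (Z.card : ℝ) * (H : ℝ) ^ (d + 1) ≤ (h : ℝ) ^ (d + 1) *
      (y ^ (2 * d + 1) * (H : ℝ) ^ d * ((2 * (d + 2)) ^ (Ix d).card * Vo d S H)) := by
    have h3 : (H : ℝ) ^ (d + 1) ≤ (h * (2 * T + 1)) ^ (d + 1) := pow_le_pow_left₀ hH0.le hT2 _
    calc (Z.card : ℝ) * (H : ℝ) ^ (d + 1)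
        ≤ Z.card * (h * (2 * T + 1)) ^ (d + 1) := mul_le_mul_of_nonneg_left h3 (Nat.cast_nonneg _)
      _ = (h : ℝ) ^ (d + 1) * (Z.card * (2 * T + 1) ^ (d + 1)) := by rw [mul_pow]; ring
      _ ≤ (h : ℝ) ^ (d + 1) * (U.card * (VB (Lam d S) ((d + 2) * H)).card) :=
          mul_le_mul_of_nonneg_left hmain (by positivity)
      _ ≤ _ := by gcongr
  have h5 : (Z.card : ℝ) * (H * (H : ℝ) ^ d)
      ≤ (((h : ℝ) ^ (d + 1) * (2 * (d + 2)) ^ (Ix d).card) / y * Vo d S H) * (H * (H : ℝ) ^ d) := by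
    have h6 : (Z.card : ℝ) * (H * (H : ℝ) ^ d) = (Z.card : ℝ) * (H : ℝ) ^ (d + 1) := by ring
    rw [h6]
    refine hfin.trans ?_
    have h7 : y ^ (2 * d + 1) ≤ 1 / y * H := by
      rw [one_div, inv_mul_eq_div, le_div_iff₀ hy0, ← pow_succ]
      exact hyH
    calc (h : ℝ) ^ (d + 1) *
          (y ^ (2 * d + 1) * (H : ℝ) ^ d * ((2 * (d + 2)) ^ (Ix d).card * Vo d S H))
        ≤ (h : ℝ) ^ (d + 1) *
          ((1 / y * H) * (H : ℝ) ^ d * ((2 * (d + 2)) ^ (Ix d).card * Vo d S H)) := by gcongr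
      _ = _ := by ring
  exact le_of_mul_le_mul_right h5 (by positivity)

end Pool.Agent.H322R2
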