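import Mathlib

/-!
Integer points close to a smooth branch `y = η x + β + γ / x + κ / x ^ 2`: no three collinear points.
-/

namespace Pool.Agent.H322R2

/-- `η` is not close to roots of integer polynomials of degree at most two with coefficients
bounded by `A`. -/
def NA (η A B : ℝ) : Prop := ∀ p q r : ℤ, (p ≠ 0 ∨ q ≠ 0 ∨ r ≠ 0) → |(p : ℝ)| ≤ A →
  |(q : ℝ)| ≤ A → |(r : ℝ)| ≤ A → B < |(p : ℝ) + q * η + r * η ^ 2|

/-- the point `(a,b)` is close to the branch -/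
def Nr (η β γ κ Q : ℝ) (a b : ℤ) : Prop :=
  |(b : ℝ) - η * a - β - γ / a - κ / (a : ℝ) ^ 2| ≤ Q / |(a : ℝ)| ^ 3

lemma abs_inv_le {X : ℝ} (hX : 1 ≤ X) {a : ℤ} (ha : X ≤ |(a : ℝ)|) : |(a : ℝ)⁻¹| ≤ 1 / X := by
  rw [abs_inv, one_div]
  exact inv_anti₀ (by linarith) ha

section col

variable {η β γ κ Q Z X : ℝ} (hQ : 2 ≤ Q) (hZ : 1 ≤ Z) (hX : 1 ≤ X)
  (hη : |η| ≤ Q) (hγ1 : |γ| ≤ Q) (hκ : |κ| ≤ Q) (hγ : 1 / Q ≤ |γ|)

include hQ hX hγ1 hκ in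
lemma e_bound {a b : ℤ} (ha : X ≤ |(a : ℝ)|) (h : Nr η β γ κ Q a b) :
    |(b : ℝ) - η * a - β| ≤ 3 * Q / X := by
  have ha0 : 0 < |(a : ℝ)| := by linarith
  have h1 : |γ / a| ≤ Q / X := by
    rw [abs_div]
    exact div_le_div₀ (by linarith) hγ1 (by linarith) ha
  have hX2 : X ≤ |(a : ℝ)| ^ 2 := by nlinarith
  have hX3 : X ≤ |(a : ℝ)| ^ 3 := by
    have : |(a : ℝ)| ^ 3 = |(a : ℝ)| * |(a : ℝ)| ^ 2 := by ring
    rw [this]; nlinarith
  have h2 : |κ / (a : ℝ) ^ 2| ≤ Q / X := by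
    rw [abs_div, abs_pow]
    exact div_le_div₀ (by linarith) hκ (by linarith) hX2
  have h3 : Q / |(a : ℝ)| ^ 3 ≤ Q / X := div_le_div_of_nonneg_left (by linarith) (by linarith) hX3
  have h4 : |(b : ℝ) - η * a - β - γ / a - κ / (a : ℝ) ^ 2| ≤ Q / X := h.trans h3
  have h5 : (b : ℝ) - η * a - β = ((b : ℝ) - η * a - β - γ / a - κ / (a : ℝ) ^ 2)
      + γ / a + κ / (a : ℝ) ^ 2 := by ring
  rw [h5]
  refine (abs_add_le _ _).trans ?_
  have h6 := abs_add_le ((b : ℝ) - η * a - β - γ / a - κ / (a : ℝ) ^ 2) (γ / a)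
  have h7 : 3 * Q / X = Q / X + Q / X + Q / X := by ring
  rw [h7]
  linarith

include hQ hZ hX hη hγ1 hκ hγ in
theorem no_col (hNA : NA η ((Q * Z) ^ 25) ((Q * Z) ^ 33 / X)) {a0 a1 a2 b0 b1 b2 : ℤ}
    (h0 : X ≤ |(a0 : ℝ)| ∧ |(a0 : ℝ)| ≤ X * Z) (h1 : X ≤ |(a1 : ℝ)| ∧ |(a1 : ℝ)| ≤ X * Z)
    (h2 : X ≤ |(a2 : ℝ)| ∧ |(a2 : ℝ)| ≤ X * Z) (n0 : Nr η β γ κ Q a0 b0)
    (n1 : Nr η β γ κ Q a1 b1) (n2 : Nr η β γ κ Q a2 b2)
    (h01 : a0 ≠ a1) (h02 : a0 ≠ a2) (h12 : a1 ≠ a2) :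
    (a1 - a0) * (b2 - b0) - (a2 - a0) * (b1 - b0) ≠ 0 := by
  intro hD
  have hX0 : 0 < X := by linarith
  have hQ0 : 0 < Q := by linarith
  obtain ⟨L, hL⟩ : ∃ L, L = Q * Z := ⟨_, rfl⟩
  rw [← hL] at hNA
  have hL2 : 2 ≤ L := by rw [hL]; nlinarith
  have hL1 : 1 ≤ L := by linarith
  have hQL : Q ≤ L := by rw [hL]; nlinarith
  have hu : a1 - a0 ≠ 0 := sub_ne_zero.2 h01.symm
  have hv : a2 - a0 ≠ 0 := sub_ne_zero.2 h02.symm
  -- coprime direction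
  obtain ⟨g, q, p, hgq, hgp, hcop⟩ : ∃ g q p : ℤ, a1 - a0 = g * q ∧ b1 - b0 = g * p ∧
      IsCoprime q p := by
    have hg : Int.gcd (a1 - a0) (b1 - b0) ≠ 0 := by
      intro h; exact hu (Int.gcd_eq_zero_iff.1 h).1
    refine ⟨Int.gcd (a1 - a0) (b1 - b0), (a1 - a0) / Int.gcd (a1 - a0) (b1 - b0),
      (b1 - b0) / Int.gcd (a1 - a0) (b1 - b0), ?_, ?_, ?_⟩
    · exact (Int.mul_ediv_cancel' (Int.gcd_dvd_left _ _)).symm
    · exact (Int.mul_ediv_cancel' (Int.gcd_dvd_right _ _)).symm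
    · rw [Int.isCoprime_iff_gcd_eq_one]
      exact Int.gcd_ediv_gcd_ediv_gcd (Nat.pos_of_ne_zero hg)
  have hg0 : g ≠ 0 := by rintro rfl; rw [zero_mul] at hgq; exact hu hgq
  have hq0 : q ≠ 0 := by rintro rfl; rw [mul_zero] at hgq; exact hu hgq
  have hqt : q * (b2 - b0) = (a2 - a0) * p := by
    have : g * (q * (b2 - b0) - (a2 - a0) * p) = 0 := by
      rw [hgq, hgp] at hD; linear_combination hD
    rcases mul_eq_zero.1 this with h | h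
    · exact absurd h hg0
    · linarith
  obtain ⟨k, hk⟩ : q ∣ (a2 - a0) := by
    have : q ∣ (a2 - a0) * p := ⟨_, hqt.symm⟩
    exact hcop.dvd_of_dvd_mul_right this
  have hk0 : k ≠ 0 := by rintro rfl; rw [mul_zero] at hk; exact hv hk
  have hkg : k - g ≠ 0 := by
    intro h
    have : k = g := by linarith
    apply h12
    have : a2 - a0 = a1 - a0 := by rw [hk, hgq, this]; ring
    linarith
  have htk : b2 - b0 = k * p := by
    have : q * (b2 - b0 - k * p) = 0 := by rw [hk] at hqt; linear_combination hqt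
    rcases mul_eq_zero.1 this with h | h
    · exact absurd h hq0
    · linarith
  have e0 := e_bound (η := η) (β := β) hQ hX hγ1 hκ h0.1 n0
  have e1 := e_bound (η := η) (β := β) hQ hX hγ1 hκ h1.1 n1
  -- |p - η q| small
  have hg1 : (1 : ℝ) ≤ |(g : ℝ)| := by
    have : 1 ≤ |g| := Int.one_le_abs hg0
    exact_mod_cast this
  have hpq : |(p : ℝ) - η * q| ≤ 6 * Q / X := by
    have h3 : (g : ℝ) * ((p : ℝ) - η * q) = ((b1 : ℝ) - η * a1 - β) - ((b0 : ℝ) - η * a0 - β) := by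
      have c1 : ((a1 : ℝ) - a0) = g * q := by exact_mod_cast hgq
      have c2 : ((b1 : ℝ) - b0) = g * p := by exact_mod_cast hgp
      linear_combination (-1 : ℝ) * c2 + η * c1
    have h4 : |(g : ℝ)| * |(p : ℝ) - η * q| ≤ 6 * Q / X := by
      rw [← abs_mul, h3]
      refine (abs_sub _ _).trans ?_
      have : 6 * Q / X = 3 * Q / X + 3 * Q / X := by ring
      linarith
    have h5 : |(p : ℝ) - η * q| ≤ |(g : ℝ)| * |(p : ℝ) - η * q| :=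
      le_mul_of_one_le_left (abs_nonneg _) hg1
    linarith
  have hL6 : 6 * Q ≤ L ^ 4 := by
    have : (2 : ℝ) ^ 3 ≤ L ^ 3 := pow_le_pow_left₀ (by norm_num) hL2 3
    calc 6 * Q ≤ L ^ 3 * L := by
          apply mul_le_mul _ hQL (by linarith) (by positivity)
          linarith
      _ = L ^ 4 := by ring
  have hq6 : L ^ 6 < |(q : ℝ)| := by
    by_contra hcon
    push_neg at hcon
    have h3 : |(p : ℝ)| ≤ L ^ 25 := by
      have h4 : (p : ℝ) = ((p : ℝ) - η * q) + η * q := by ring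
      have h5 : |(p : ℝ)| ≤ |(p : ℝ) - η * q| + |η * q| := by
        conv_lhs => rw [h4]
        exact abs_add_le _ _
      have h6 : |η * q| ≤ L * L ^ 6 := by
        rw [abs_mul]
        exact mul_le_mul (hη.trans hQL) hcon (abs_nonneg _) (by linarith)
      have h7 : 6 * Q / X ≤ L ^ 4 := by
        rw [div_le_iff₀ hX0]
        calc 6 * Q ≤ L ^ 4 := hL6
          _ ≤ L ^ 4 * X := le_mul_of_one_le_right (by positivity) hX
      have h8 : L ^ 4 ≤ L ^ 7 := pow_le_pow_right₀ hL1 (by norm_num)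
      have h9 : L * L ^ 6 = L ^ 7 := by ring
      have h10 : 2 * L ^ 7 ≤ L ^ 8 := by
        have : L ^ 8 = L * L ^ 7 := by ring
        rw [this]
        exact mul_le_mul_of_nonneg_right hL2 (by positivity)
      have h11 : L ^ 8 ≤ L ^ 25 := pow_le_pow_right₀ hL1 (by norm_num)
      linarith
    have h12 := hNA (-p) q 0 (Or.inr (Or.inl hq0)) (by push_cast; rwa [abs_neg])
      (hcon.trans (pow_le_pow_right₀ hL1 (by norm_num)))
      (by simp only [Int.cast_zero, abs_zero]; positivity)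
    have h13 : |((-p : ℤ) : ℝ) + q * η + (0 : ℤ) * η ^ 2| = |(p : ℝ) - η * q| := by
      rw [← abs_neg]; congr 1; push_cast; ring
    rw [h13] at h12
    have h14 : 6 * Q / X ≤ L ^ 33 / X := by
      apply div_le_div_of_nonneg_right _ hX0.le
      exact hL6.trans (pow_le_pow_right₀ hL1 (by norm_num))
    linarith
  -- second difference
  have ha0 : (a0 : ℝ) ≠ 0 := abs_pos.1 (by linarith [h0.1])
  have ha1 : (a1 : ℝ) ≠ 0 := abs_pos.1 (by linarith [h1.1])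
  have ha2 : (a2 : ℝ) ≠ 0 := abs_pos.1 (by linarith [h2.1])
  obtain ⟨r0, hr0⟩ : ∃ r0 : ℝ, r0 = (b0 : ℝ) - η * a0 - β - γ / a0 - κ / (a0 : ℝ) ^ 2 := ⟨_, rfl⟩
  obtain ⟨r1, hr1⟩ : ∃ r1 : ℝ, r1 = (b1 : ℝ) - η * a1 - β - γ / a1 - κ / (a1 : ℝ) ^ 2 := ⟨_, rfl⟩
  obtain ⟨r2, hr2⟩ : ∃ r2 : ℝ, r2 = (b2 : ℝ) - η * a2 - β - γ / a2 - κ / (a2 : ℝ) ^ 2 := ⟨_, rfl⟩
  have hrb : ∀ (a b : ℤ) (r : ℝ), r = (b : ℝ) - η * a - β - γ / a - κ / (a : ℝ) ^ 2 →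
      X ≤ |(a : ℝ)| → Nr η β γ κ Q a b → |r| ≤ Q / X ^ 3 := by
    intro a b r hr hXa hn
    rw [hr]
    refine hn.trans ?_
    exact div_le_div_of_nonneg_left hQ0.le (by positivity) (pow_le_pow_left₀ hX0.le hXa 3)
  have br0 := hrb a0 b0 r0 hr0 h0.1 n0
  have br1 := hrb a1 b1 r1 hr1 h1.1 n1
  have br2 := hrb a2 b2 r2 hr2 h2.1 n2
  obtain ⟨A1, hA1⟩ : ∃ A1 : ℝ, A1 = (a1 : ℝ) - a0 := ⟨_, rfl⟩
  obtain ⟨A2, hA2⟩ : ∃ A2 : ℝ, A2 = (a2 : ℝ) - a0 := ⟨_, rfl⟩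
  have hDR : A1 * ((b2 : ℝ) - b0) - A2 * ((b1 : ℝ) - b0) = 0 := by
    rw [hA1, hA2]; exact_mod_cast hD
  have hid : A1 * A2 * (γ * ((a2 : ℝ) - a1) / (a0 * a1 * a2)
      + κ * (((a0 : ℝ) + a1) / (a0 * a1) ^ 2 - ((a0 : ℝ) + a2) / (a0 * a2) ^ 2))
      = A2 * (r1 - r0) - A1 * (r2 - r0) := by
    rw [hr0, hr1, hr2]
    have : A2 * ((b1 : ℝ) - η * a1 - β - γ / a1 - κ / (a1 : ℝ) ^ 2 -
          ((b0 : ℝ) - η * a0 - β - γ / a0 - κ / (a0 : ℝ) ^ 2)) -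
        A1 * ((b2 : ℝ) - η * a2 - β - γ / a2 - κ / (a2 : ℝ) ^ 2 -
          ((b0 : ℝ) - η * a0 - β - γ / a0 - κ / (a0 : ℝ) ^ 2))
        = A2 * ((b1 : ℝ) - b0) - A1 * ((b2 : ℝ) - b0)
          - η * (A2 * ((a1 : ℝ) - a0) - A1 * ((a2 : ℝ) - a0))
          - A2 * (γ / a1 - γ / a0) + A1 * (γ / a2 - γ / a0)
          - A2 * (κ / (a1 : ℝ) ^ 2 - κ / (a0 : ℝ) ^ 2)
          + A1 * (κ / (a2 : ℝ) ^ 2 - κ / (a0 : ℝ) ^ 2) := by ring
    rw [this]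
    have h3 : A2 * ((b1 : ℝ) - b0) - A1 * ((b2 : ℝ) - b0) = 0 := by linarith
    rw [h3, hA1, hA2]
    field_simp
    ring
  have hA1q : |(q : ℝ)| ≤ |A1| := by
    have : A1 = g * q := by rw [hA1]; exact_mod_cast hgq
    rw [this, abs_mul]
    exact le_mul_of_one_le_left (abs_nonneg _) hg1
  have hk1 : (1 : ℝ) ≤ |(k : ℝ)| := by
    have : 1 ≤ |k| := Int.one_le_abs hk0
    exact_mod_cast this
  have hA2q : |(q : ℝ)| ≤ |A2| := by
    have : A2 = q * k := by rw [hA2]; exact_mod_cast hk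
    rw [this, abs_mul]
    exact le_mul_of_one_le_right (abs_nonneg _) hk1
  have hkg1 : (1 : ℝ) ≤ |((k - g : ℤ) : ℝ)| := by
    have : 1 ≤ |k - g| := Int.one_le_abs hkg
    exact_mod_cast this
  have hA3q : |(q : ℝ)| ≤ |(a2 : ℝ) - a1| := by
    have : (a2 : ℝ) - a1 = q * ((k - g : ℤ) : ℝ) := by
      have h3 : a2 - a1 = q * (k - g) := by linear_combination hk - hgq
      exact_mod_cast h3
    rw [this, abs_mul]
    exact le_mul_of_one_le_right (abs_nonneg _) hkg1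
  have hqpos : 1 ≤ |(q : ℝ)| := by
    have : 1 ≤ |q| := Int.one_le_abs hq0
    exact_mod_cast this
  have hA1p : 1 ≤ |A1| := hqpos.trans hA1q
  have hA2p : 1 ≤ |A2| := hqpos.trans hA2q
  -- bound of the kappa part
  have hK : ∀ x y : ℝ, X ≤ |x| → X ≤ |y| → |(x + y) / (x * y) ^ 2| ≤ 2 / X ^ 3 := by
    intro x y hx hy
    have hx0 : x ≠ 0 := abs_pos.1 (by linarith)
    have hy0 : y ≠ 0 := abs_pos.1 (by linarith)
    have h3 : (x + y) / (x * y) ^ 2 = (x⁻¹) * (y⁻¹) ^ 2 + (x⁻¹) ^ 2 * (y⁻¹) := by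
      field_simp
    have hx1 : |x⁻¹| ≤ 1 / X := by
      rw [abs_inv, one_div]; exact inv_anti₀ hX0 hx
    have hy1 : |y⁻¹| ≤ 1 / X := by
      rw [abs_inv, one_div]; exact inv_anti₀ hX0 hy
    rw [h3]
    refine (abs_add_le _ _).trans ?_
    rw [abs_mul, abs_mul, abs_pow, abs_pow]
    have h4 : |x⁻¹| * |y⁻¹| ^ 2 ≤ (1 / X) * (1 / X) ^ 2 :=
      mul_le_mul hx1 (pow_le_pow_left₀ (abs_nonneg _) hy1 2) (by positivity) (by positivity)
    have h5 : |x⁻¹| ^ 2 * |y⁻¹| ≤ (1 / X) ^ 2 * (1 / X) :=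
      mul_le_mul (pow_le_pow_left₀ (abs_nonneg _) hx1 2) hy1 (by positivity) (by positivity)
    have h6 : 2 / X ^ 3 = (1 / X) * (1 / X) ^ 2 + (1 / X) ^ 2 * (1 / X) := by
      field_simp; ring
    rw [h6]; linarith
  have hid2 := congrArg abs hid
  rw [abs_mul, abs_mul] at hid2
  have hrhs : |A2 * (r1 - r0) - A1 * (r2 - r0)| ≤ |A1| * |A2| * (4 * Q / X ^ 3) := by
    refine (abs_sub _ _).trans ?_
    rw [abs_mul, abs_mul]
    have h3 : |r1 - r0| ≤ 2 * (Q / X ^ 3) := by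
      refine (abs_sub _ _).trans (by linarith)
    have h4 : |r2 - r0| ≤ 2 * (Q / X ^ 3) := by
      refine (abs_sub _ _).trans (by linarith)
    have hQX : 0 ≤ Q / X ^ 3 := by positivity
    have h5 : |A2| * |r1 - r0| ≤ |A1| * |A2| * (2 * (Q / X ^ 3)) := by
      calc |A2| * |r1 - r0| ≤ |A2| * (2 * (Q / X ^ 3)) := mul_le_mul_of_nonneg_left h3 (abs_nonneg _)
        _ ≤ |A1| * |A2| * (2 * (Q / X ^ 3)) := by
          apply mul_le_mul_of_nonneg_right _ (by linarith)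
          exact le_mul_of_one_le_left (abs_nonneg _) hA1p
    have h6 : |A1| * |r2 - r0| ≤ |A1| * |A2| * (2 * (Q / X ^ 3)) := by
      calc |A1| * |r2 - r0| ≤ |A1| * (2 * (Q / X ^ 3)) := mul_le_mul_of_nonneg_left h4 (abs_nonneg _)
        _ ≤ |A1| * |A2| * (2 * (Q / X ^ 3)) := by
          apply mul_le_mul_of_nonneg_right _ (by linarith)
          exact le_mul_of_one_le_right (abs_nonneg _) hA2p
    have h7 : |A1| * |A2| * (4 * Q / X ^ 3) = |A1| * |A2| * (2 * (Q / X ^ 3))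
        + |A1| * |A2| * (2 * (Q / X ^ 3)) := by ring
    linarith
  have hA12 : 0 < |A1| * |A2| := by positivity
  rw [← hid2] at hrhs
  have h3 := le_of_mul_le_mul_left hrhs hA12
  -- lower bound
  have h4 : |γ * ((a2 : ℝ) - a1) / (a0 * a1 * a2)| ≤ 8 * Q / X ^ 3 := by
    have h5 : γ * ((a2 : ℝ) - a1) / (a0 * a1 * a2)
        = (γ * ((a2 : ℝ) - a1) / (a0 * a1 * a2)
      + κ * (((a0 : ℝ) + a1) / (a0 * a1) ^ 2 - ((a0 : ℝ) + a2) / (a0 * a2) ^ 2))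
        - κ * (((a0 : ℝ) + a1) / (a0 * a1) ^ 2 - ((a0 : ℝ) + a2) / (a0 * a2) ^ 2) := by ring
    rw [h5]
    refine (abs_sub _ _).trans ?_
    have h6 : |κ * (((a0 : ℝ) + a1) / (a0 * a1) ^ 2 - ((a0 : ℝ) + a2) / (a0 * a2) ^ 2)|
        ≤ Q * (4 / X ^ 3) := by
      rw [abs_mul]
      apply mul_le_mul hκ _ (abs_nonneg _) hQ0.le
      refine (abs_sub _ _).trans ?_
      have k1 := hK a0 a1 h0.1 h1.1
      have k2 := hK a0 a2 h0.1 h2.1
      have : 4 / X ^ 3 = 2 / X ^ 3 + 2 / X ^ 3 := by ring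
      rw [this]; linarith
    have h7 : 8 * Q / X ^ 3 = 4 * Q / X ^ 3 + Q * (4 / X ^ 3) := by ring
    rw [h7]; linarith
  rw [abs_div, abs_mul, abs_mul, abs_mul, div_le_div_iff₀ (by positivity) (by positivity)] at h4
  have h5 : |(a0 : ℝ)| * |(a1 : ℝ)| * |(a2 : ℝ)| ≤ (X * Z) * (X * Z) * (X * Z) := by
    apply mul_le_mul (mul_le_mul h0.2 h1.2 (abs_nonneg _) (by positivity)) h2.2 (abs_nonneg _)
      (by positivity)
  have h6 : (1 / Q) * |(q : ℝ)| * X ^ 3 ≤ 8 * Q * ((X * Z) * (X * Z) * (X * Z)) := by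
    calc (1 / Q) * |(q : ℝ)| * X ^ 3 ≤ |γ| * |(a2 : ℝ) - a1| * X ^ 3 := by
          apply mul_le_mul_of_nonneg_right _ (by positivity)
          exact mul_le_mul hγ hA3q (abs_nonneg _) (abs_nonneg _)
      _ ≤ 8 * Q * (|(a0 : ℝ)| * |(a1 : ℝ)| * |(a2 : ℝ)|) := h4
      _ ≤ _ := mul_le_mul_of_nonneg_left h5 (by positivity)
  have h7 : |(q : ℝ)| ≤ 8 * Q ^ 2 * Z ^ 3 := by
    have h8 : (1 / Q) * |(q : ℝ)| * X ^ 3 * Q ≤ 8 * Q * ((X * Z) * (X * Z) * (X * Z)) * Q :=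
      mul_le_mul_of_nonneg_right h6 hQ0.le
    have h9 : (1 / Q) * |(q : ℝ)| * X ^ 3 * Q = |(q : ℝ)| * X ^ 3 := by field_simp
    have h10 : 8 * Q * ((X * Z) * (X * Z) * (X * Z)) * Q = (8 * Q ^ 2 * Z ^ 3) * X ^ 3 := by ring
    rw [h9, h10] at h8
    exact le_of_mul_le_mul_right h8 (by positivity)
  have h8 : 8 * Q ^ 2 * Z ^ 3 ≤ L ^ 6 := by
    have e1 : (8 : ℝ) ≤ Q ^ 3 := by
      calc (8 : ℝ) = 2 ^ 3 := by norm_num
        _ ≤ Q ^ 3 := pow_le_pow_left₀ (by norm_num) hQ 3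
    have e2 : Q ^ 2 ≤ Q ^ 3 := pow_le_pow_right₀ (by linarith) (by norm_num)
    have e3 : Z ^ 3 ≤ Z ^ 6 := pow_le_pow_right₀ hZ (by norm_num)
    have e4 : L ^ 6 = Q ^ 3 * Q ^ 3 * Z ^ 6 := by rw [hL]; ring
    rw [e4]
    apply mul_le_mul (mul_le_mul e1 e2 (by positivity) (by positivity)) e3 (by positivity)
      (by positivity)
  linarith

end col

end Pool.Agent.H322R2
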