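import Mathlib
import Pool.Agent.H322R2.Win1

/-!
Integer points close to a smooth branch `y = η x + β + γ / x + κ / x ^ 2`: no five points in a
window.
-/

namespace Pool.Agent.H322R2

open Matrix

lemma abs_det_le {n : ℕ} (A : Matrix (Fin n) (Fin n) ℝ) (ρ c : Fin n → ℝ)
    (h : ∀ i s, |A i s| ≤ ρ i * c s) :
    |A.det| ≤ n.factorial * ((∏ i, ρ i) * ∏ s, c s) := by
  rw [Matrix.det_apply]
  refine (Finset.abs_sum_le_sum_abs _ _).trans ?_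
  have h1 : ∀ σ ∈ (Finset.univ : Finset (Equiv.Perm (Fin n))),
      |Equiv.Perm.sign σ • ∏ i, A (σ i) i| ≤ (∏ i, ρ i) * ∏ s, c s := by
    intro σ _
    have h2 : |Equiv.Perm.sign σ • ∏ i, A (σ i) i| = ∏ i, |A (σ i) i| := by
      rcases Int.units_eq_one_or (Equiv.Perm.sign σ) with h | h
      · rw [h, one_smul, Finset.abs_prod]
      · rw [h, Units.neg_smul, one_smul, abs_neg, Finset.abs_prod]
    rw [h2]
    calc ∏ i, |A (σ i) i| ≤ ∏ i, (ρ (σ i) * c i) :=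
          Finset.prod_le_prod (fun i _ => abs_nonneg _) (fun i _ => h _ _)
      _ = _ := by
          rw [Finset.prod_mul_distrib, Equiv.prod_comp σ ρ]
  refine (Finset.sum_le_card_nsmul _ _ _ h1).trans ?_
  rw [Finset.card_univ, Fintype.card_perm, Fintype.card_fin, nsmul_eq_mul]

/-- degree two monomials -/
def ver {R : Type*} [CommRing R] (a b : R) : Fin 6 → R := ![1, a, b, a ^ 2, a * b, b ^ 2]

/-- change of basis -/
def UU (η β γ κ : ℝ) : Matrix (Fin 6) (Fin 6) ℝ :=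
  !![1, 0, -β, 0, -γ ^ 2 + κ * β, β ^ 2;
     0, 1, -η, 0, -γ * β + κ * η, 2 * η * β;
     0, 0, 1, 0, -κ, -2 * β;
     0, 0, 0, 1, -γ * η, η ^ 2;
     0, 0, 0, 0, γ, -2 * η;
     0, 0, 0, 0, 0, 1]

lemma det_UU (η β γ κ : ℝ) : (UU η β γ κ).det = γ := by
  rw [Matrix.det_of_upperTriangular]
  · simp [UU, Fin.prod_univ_succ]
  · intro i j hij
    fin_cases i <;> fin_cases j <;> first | rfl | (exfalso; revert hij; decide)

/-- column sizes -/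
noncomputable def cc (Q Z X : ℝ) : Fin 6 → ℝ :=
  ![1, X * Z, 3 * Q / X, (X * Z) ^ 2, 3 * Q ^ 2 / X ^ 2, 9 * Q ^ 2 / X ^ 2]

lemma ver_mul (η β γ κ : ℝ) (a b : ℝ) :
    ver a b ᵥ* UU η β γ κ = ![1, a, b - η * a - β, a ^ 2,
      γ * (a * (b - η * a - β) - γ) - κ * (b - η * a - β), (b - η * a - β) ^ 2] := by
  funext s
  fin_cases s <;>
  simp [ver, UU, Matrix.vecMul, dotProduct, Fin.sum_univ_succ] <;> ring

section

variable {η β γ κ Q Z X : ℝ} (hQ : 2 ≤ Q) (hZ : 1 ≤ Z) (hX : 2 ≤ X)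
  (hη : |η| ≤ Q) (hβ : |β| ≤ Q) (hγ1 : |γ| ≤ Q) (hκ : |κ| ≤ Q) (hγ : 1 / Q ≤ |γ|)

include hQ hX hγ1 hκ in
lemma ver_le {a b : ℤ} (ha : X ≤ |(a : ℝ)| ∧ |(a : ℝ)| ≤ X * Z) (h : Nr η β γ κ Q a b) (s : Fin 6) :
    |(ver (a : ℝ) (b : ℝ) ᵥ* UU η β γ κ) s| ≤ cc Q Z X s := by
  rw [ver_mul]
  have hX0 : 0 < X := by linarith
  have ha0 : (a : ℝ) ≠ 0 := abs_pos.1 (by linarith [ha.1])
  have he := e_bound (η := η) (β := β) hQ (by linarith) hγ1 hκ ha.1 h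
  have hQ0 : 0 < Q := by linarith
  obtain ⟨r, hr⟩ : ∃ r : ℝ, r = (b : ℝ) - η * a - β - γ / a - κ / (a : ℝ) ^ 2 := ⟨_, rfl⟩
  have hra : |r| ≤ Q / |(a : ℝ)| ^ 3 := by rw [hr]; exact h
  have ha0' : 0 < |(a : ℝ)| := abs_pos.2 ha0
  have h1 : |r * a| ≤ Q / X ^ 2 := by
    rw [abs_mul]
    calc |r| * |(a : ℝ)| ≤ Q / |(a : ℝ)| ^ 3 * |(a : ℝ)| :=
          mul_le_mul_of_nonneg_right hra (abs_nonneg _)
      _ = Q / |(a : ℝ)| ^ 2 := by field_simp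
      _ ≤ Q / X ^ 2 := div_le_div_of_nonneg_left hQ0.le (by positivity)
          (pow_le_pow_left₀ hX0.le ha.1 2)
  have h2 : |r| ≤ Q / X ^ 2 := by
    refine hra.trans ?_
    apply div_le_div_of_nonneg_left hQ0.le (by positivity)
    calc X ^ 2 ≤ |(a : ℝ)| ^ 2 := pow_le_pow_left₀ hX0.le ha.1 2
      _ ≤ |(a : ℝ)| ^ 3 := pow_le_pow_right₀ (by linarith [ha.1]) (by norm_num)
  have h3 : |κ / (a : ℝ) ^ 2| ≤ Q / X ^ 2 := by
    rw [abs_div, abs_pow]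
    exact div_le_div₀ hQ0.le hκ (by positivity) (pow_le_pow_left₀ hX0.le ha.1 2)
  have h4 : γ * (a * ((b : ℝ) - η * a - β) - γ) - κ * ((b : ℝ) - η * a - β)
      = γ * (r * a) - κ * (κ / (a : ℝ) ^ 2) - κ * r := by
    rw [hr]; field_simp; ring
  have hs4 : |γ * (a * ((b : ℝ) - η * a - β) - γ) - κ * ((b : ℝ) - η * a - β)|
      ≤ 3 * Q ^ 2 / X ^ 2 := by
    rw [h4]
    refine (abs_sub _ _).trans ?_
    have h5 := abs_sub (γ * (r * a)) (κ * (κ / (a : ℝ) ^ 2))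
    rw [abs_mul γ, abs_mul κ (κ / (a : ℝ) ^ 2)] at h5
    rw [abs_mul κ r]
    have k1 : |γ| * |r * a| ≤ Q * (Q / X ^ 2) := mul_le_mul hγ1 h1 (abs_nonneg _) hQ0.le
    have k2 : |κ| * |κ / (a : ℝ) ^ 2| ≤ Q * (Q / X ^ 2) := mul_le_mul hκ h3 (abs_nonneg _) hQ0.le
    have k3 : |κ| * |r| ≤ Q * (Q / X ^ 2) := mul_le_mul hκ h2 (abs_nonneg _) hQ0.le
    have k4 : 3 * Q ^ 2 / X ^ 2 = 3 * (Q * (Q / X ^ 2)) := by ring
    rw [k4]; linarith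
  have hs5 : |((b : ℝ) - η * a - β) ^ 2| ≤ 9 * Q ^ 2 / X ^ 2 := by
    rw [abs_pow]
    calc |(b : ℝ) - η * a - β| ^ 2 ≤ (3 * Q / X) ^ 2 := pow_le_pow_left₀ (abs_nonneg _) he 2
      _ = 9 * Q ^ 2 / X ^ 2 := by field_simp; ring
  fin_cases s
  · simp [cc]
  · simpa [cc] using ha.2
  · simpa [cc] using he
  · simp only [cc]
    show |(a : ℝ) ^ 2| ≤ (X * Z) ^ 2
    rw [abs_pow]
    exact pow_le_pow_left₀ (abs_nonneg _) ha.2 2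
  · exact hs4
  · exact hs5

include hQ hZ hX hη hβ hγ1 hκ in
lemma unit_le (j s : Fin 6) : |UU η β γ κ j s| ≤ (2 * X ^ 2 / 3) * cc Q Z X s := by
  have hX0 : 0 < X := by linarith
  have hQ0 : 0 < Q := by linarith
  have hc0 : (1 : ℝ) ≤ (2 * X ^ 2 / 3) * 1 := by nlinarith
  have hc1 : (1 : ℝ) ≤ (2 * X ^ 2 / 3) * (X * Z) := by
    have : 1 ≤ X * Z := by nlinarith
    nlinarith
  have hc2 : 2 * Q ≤ (2 * X ^ 2 / 3) * (3 * Q / X) := by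
    have : (2 * X ^ 2 / 3) * (3 * Q / X) = 2 * Q * X := by field_simp
    rw [this]; nlinarith
  have hc3 : (1 : ℝ) ≤ (2 * X ^ 2 / 3) * (X * Z) ^ 2 := by
    have : 1 ≤ X * Z := by nlinarith
    have : 1 ≤ (X * Z) ^ 2 := one_le_pow₀ this
    nlinarith
  have hc4 : 2 * Q ^ 2 ≤ (2 * X ^ 2 / 3) * (3 * Q ^ 2 / X ^ 2) := by
    have : (2 * X ^ 2 / 3) * (3 * Q ^ 2 / X ^ 2) = 2 * Q ^ 2 := by field_simp
    rw [this]
  have hc5 : 6 * Q ^ 2 ≤ (2 * X ^ 2 / 3) * (9 * Q ^ 2 / X ^ 2) := by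
    have : (2 * X ^ 2 / 3) * (9 * Q ^ 2 / X ^ 2) = 6 * Q ^ 2 := by field_simp; ring
    rw [this]
  have hQQ : Q ≤ Q ^ 2 := by nlinarith
  have m : ∀ x y : ℝ, |x| ≤ Q → |y| ≤ Q → |x * y| ≤ Q ^ 2 := by
    intro x y hx hy
    rw [abs_mul, sq]
    exact mul_le_mul hx hy (abs_nonneg _) hQ0.le
  have m1 : |-γ ^ 2 + κ * β| ≤ 2 * Q ^ 2 := by
    refine (abs_add_le _ _).trans ?_
    have := m γ γ hγ1 hγ1
    have h2 := m κ β hκ hβ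
    have h3 : |-γ ^ 2| = |γ * γ| := by rw [abs_neg, sq]
    rw [h3]; linarith
  have m2 : |-(γ * β) + κ * η| ≤ 2 * Q ^ 2 := by
    refine (abs_add_le _ _).trans ?_
    have := m γ β hγ1 hβ
    have h2 := m κ η hκ hη
    rw [abs_neg]; linarith
  have m3 := m γ η hγ1 hη
  have m4 := m η β hη hβ
  have m5 := m η η hη hη
  have m6 := m β β hβ hβ
  have m4' : |2 * η * β| ≤ 2 * Q ^ 2 := by
    rw [mul_assoc, abs_mul, abs_of_pos (by norm_num : (0 : ℝ) < 2)]; linarith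
  have m5' : |η ^ 2| ≤ Q ^ 2 := by rw [sq]; exact m5
  have m6' : |β ^ 2| ≤ Q ^ 2 := by rw [sq]; exact m6
  have m7 : |-(2 * β)| ≤ 2 * Q := by
    rw [abs_neg, abs_mul, abs_of_pos (by norm_num : (0 : ℝ) < 2)]; linarith
  have m8 : |-(2 * η)| ≤ 2 * Q := by
    rw [abs_neg, abs_mul, abs_of_pos (by norm_num : (0 : ℝ) < 2)]; linarith
  have hη' : |η| ≤ 2 * Q := by linarith
  have hβ' : |β| ≤ 2 * Q := by linarith
  have z0 : (0 : ℝ) ≤ (2 * X ^ 2 / 3) * 1 := by linarith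
  have z1 : (0 : ℝ) ≤ (2 * X ^ 2 / 3) * (X * Z) := by linarith
  have z2 : (0 : ℝ) ≤ (2 * X ^ 2 / 3) * (3 * Q / X) := by linarith
  have z3 : (0 : ℝ) ≤ (2 * X ^ 2 / 3) * (X * Z) ^ 2 := by linarith
  have z4 : (0 : ℝ) ≤ (2 * X ^ 2 / 3) * (3 * Q ^ 2 / X ^ 2) := by nlinarith
  have z5 : (0 : ℝ) ≤ (2 * X ^ 2 / 3) * (9 * Q ^ 2 / X ^ 2) := by nlinarith
  have w1 : η ^ 2 ≤ Q ^ 2 := (le_abs_self _).trans m5'
  have w2 : β ^ 2 ≤ Q ^ 2 := (le_abs_self _).trans m6'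
  have w3 : |γ| * |η| ≤ Q ^ 2 := by rw [← abs_mul]; exact m3
  have w4 : 2 * |η| * |β| ≤ 2 * Q ^ 2 := by
    rw [mul_assoc, ← abs_mul]; linarith
  have w5 : 2 * |β| ≤ 2 * Q := by linarith
  have w6 : 2 * |η| ≤ 2 * Q := by linarith
  have w7 : 2 * Q ≤ 2 * Q ^ 2 := by linarith
  fin_cases j <;> fin_cases s <;> simp [UU, cc] <;> linarith

end

end Pool.Agent.H322R2
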