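import Mathlib
import Pool.Agent.H322R2.Win2

/-!
Integer points close to a smooth branch: no five points in a window (end of the proof).
-/

namespace Pool.Agent.H322R2

open Matrix

/-- coefficients of the conic through five points -/
def ww {R : Type*} [CommRing R] (a b : Fin 5 → R) (j : Fin 6) : R :=
  (-1) ^ (j : ℕ) * ((Matrix.of fun i => ver (a i) (b i)).submatrix id j.succAbove).det

/-- the matrix with an additional row -/
def mm {R : Type*} [CommRing R] (r : Fin 6 → R) (a b : Fin 5 → R) : Matrix (Fin 6) (Fin 6) R :=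
  Matrix.of (Fin.cons r (fun i => ver (a i) (b i)))

lemma det_mm {R : Type*} [CommRing R] (r : Fin 6 → R) (a b : Fin 5 → R) :
    (mm r a b).det = ∑ j, r j * ww a b j := by
  rw [Matrix.det_succ_row_zero]
  apply Finset.sum_congr rfl
  intro j _
  have h1 : mm r a b 0 j = r j := rfl
  have h2 : (mm r a b).submatrix Fin.succ j.succAbove
      = (Matrix.of fun i => ver (a i) (b i)).submatrix id j.succAbove := by
    ext i k; rfl
  rw [h1, h2, ww]; ring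

lemma ww_vanish {R : Type*} [CommRing R] (a b : Fin 5 → R) (i : Fin 5) :
    ∑ j, ver (a i) (b i) j * ww a b j = 0 := by
  rw [← det_mm]
  apply Matrix.det_zero_of_row_eq (i := 0) (j := i.succ) (Fin.succ_ne_zero i).symm
  rfl

lemma ver_cast (a b : ℤ) (R : Type*) [CommRing R] (k : Fin 6) :
    ((ver a b k : ℤ) : R) = ver (a : R) (b : R) k := by
  fin_cases k <;> simp [ver]

lemma ww_cast (a b : Fin 5 → ℤ) (R : Type*) [CommRing R] (j : Fin 6) :
    ((ww a b j : ℤ) : R) = ww (fun i => (a i : R)) (fun i => (b i : R)) j := by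
  rw [ww, ww]
  push_cast
  congr 1
  congr 1
  ext i k
  exact ver_cast _ _ R _

lemma linInd (a b : Fin 5 → ℚ)
    (h : ∀ i j k : Fin 5, i ≠ j → i ≠ k → j ≠ k →
      (a j - a i) * (b k - b i) - (a k - a i) * (b j - b i) ≠ 0) :
    LinearIndependent ℚ (fun i => ver (a i) (b i)) := by
  rw [Fintype.linearIndependent_iff]
  intro g hg j
  have h0 : ∀ k : Fin 6, ∑ i, g i * ver (a i) (b i) k = 0 := by
    intro k
    have := congrFun hg k
    simpa [Finset.sum_apply] using this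
  have h1 : ∀ A B C A' B' C' : ℚ,
      ∑ i, g i * ((A + B * a i + C * b i) * (A' + B' * a i + C' * b i)) = 0 := by
    intro A B C A' B' C'
    have e : ∀ i, g i * ((A + B * a i + C * b i) * (A' + B' * a i + C' * b i))
        = A * A' * (g i * ver (a i) (b i) 0) + (A * B' + A' * B) * (g i * ver (a i) (b i) 1)
        + (A * C' + A' * C) * (g i * ver (a i) (b i) 2) + (B * B') * (g i * ver (a i) (b i) 3)
        + (B * C' + B' * C) * (g i * ver (a i) (b i) 4) + (C * C') * (g i * ver (a i) (b i) 5) := by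
      intro i
      have v0 : ver (a i) (b i) 0 = 1 := rfl
      have v1 : ver (a i) (b i) 1 = a i := rfl
      have v2 : ver (a i) (b i) 2 = b i := rfl
      have v3 : ver (a i) (b i) 3 = a i ^ 2 := rfl
      have v4 : ver (a i) (b i) 4 = a i * b i := rfl
      have v5 : ver (a i) (b i) 5 = b i ^ 2 := rfl
      rw [v0, v1, v2, v3, v4, v5]; ring
    rw [Finset.sum_congr rfl (fun i _ => e i)]
    simp only [Finset.sum_add_distrib, ← Finset.mul_sum, h0, mul_zero, add_zero]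
  -- lines
  have h2 : ∀ k l m n : Fin 5,
      ∑ i, g i * (((a l - a k) * (b i - b k) - (b l - b k) * (a i - a k)) *
        ((a n - a m) * (b i - b m) - (b n - b m) * (a i - a m))) = 0 := by
    intro k l m n
    rw [← h1 (-(a l - a k) * b k + (b l - b k) * a k) (-(b l - b k)) (a l - a k)
      (-(a n - a m) * b m + (b n - b m) * a m) (-(b n - b m)) (a n - a m)]
    apply Finset.sum_congr rfl
    intro i _
    ring
  have h3 := h2 (j + 1) (j + 2) (j + 3) (j + 4)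
  rw [Finset.sum_eq_single j] at h3
  · have d1 : ∀ j : Fin 5, j + 1 ≠ j + 2 ∧ j + 1 ≠ j ∧ j + 2 ≠ j ∧ j + 3 ≠ j + 4 ∧ j + 3 ≠ j ∧
      j + 4 ≠ j := by decide
    obtain ⟨e1, e2, e3, e4, e5, e6⟩ := d1 j
    have f1 := h (j + 1) (j + 2) j e1 e2 e3
    have f2 := h (j + 3) (j + 4) j e4 e5 e6
    rcases mul_eq_zero.1 h3 with h4 | h4
    · exact h4
    · rcases mul_eq_zero.1 h4 with h5 | h5
      · exact absurd (by linear_combination h5) f1
      · exact absurd (by linear_combination h5) f2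
  · intro i _ hij
    have d2 : ∀ j i : Fin 5, i ≠ j → i = j + 1 ∨ i = j + 2 ∨ i = j + 3 ∨ i = j + 4 := by decide
    rcases d2 j i hij with h4 | h4 | h4 | h4 <;> rw [h4] <;> ring
  · intro hj; exact absurd (Finset.mem_univ j) hj

lemma ww_ne_zero (a b : Fin 5 → ℤ)
    (h : ∀ i j k : Fin 5, i ≠ j → i ≠ k → j ≠ k →
      (a j - a i) * (b k - b i) - (a k - a i) * (b j - b i) ≠ 0) :
    ∃ j, ww a b j ≠ 0 := by
  by_contra hcon
  push_neg at hcon
  have h1 := linInd (fun i => (a i : ℚ)) (fun i => (b i : ℚ)) (by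
    intro i j k hij hik hjk hz
    apply h i j k hij hik hjk
    exact_mod_cast hz)
  have h2 : Submodule.span ℚ (Set.range (fun i => ver ((a i : ℚ)) ((b i : ℚ)))) ≠ ⊤ := by
    intro htop
    have h3 := finrank_span_eq_card h1
    rw [htop, finrank_top] at h3
    simp at h3
  obtain ⟨x, -, hx⟩ := SetLike.exists_of_lt (lt_top_iff_ne_top.2 h2)
  have h3 : LinearIndependent ℚ (Fin.cons x (fun i => ver ((a i : ℚ)) ((b i : ℚ))) :
      Fin 6 → Fin 6 → ℚ) := linearIndependent_finCons.2 ⟨h1, hx⟩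
  have h4 : IsUnit (mm x (fun i => (a i : ℚ)) (fun i => (b i : ℚ))) :=
    Matrix.linearIndependent_rows_iff_isUnit.1 h3
  rw [Matrix.isUnit_iff_isUnit_det, det_mm] at h4
  apply h4.ne_zero
  apply Finset.sum_eq_zero
  intro j _
  rw [← ww_cast, hcon j]; simp

section

variable {η β γ κ Q Z X : ℝ} (hQ : 2 ≤ Q) (hZ : 1 ≤ Z) (hX : 2 ≤ X)
  (hη : |η| ≤ Q) (hβ : |β| ≤ Q) (hγ1 : |γ| ≤ Q) (hκ : |κ| ≤ Q) (hγ : 1 / Q ≤ |γ|)

include hQ hX in
lemma prod_cc : ∏ s, cc Q Z X s = 81 * Q ^ 5 * Z ^ 3 / X ^ 2 := by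
  have hX0 : X ≠ 0 := by linarith
  simp only [cc, Fin.prod_univ_succ]
  simp
  field_simp
  ring

include hQ hZ hX hη hβ hγ1 hκ hγ in
lemma ww_le {a b : Fin 5 → ℤ} (ha : ∀ i, X ≤ |(a i : ℝ)| ∧ |(a i : ℝ)| ≤ X * Z)
    (hn : ∀ i, Nr η β γ κ Q (a i) (b i)) (j : Fin 6) : |((ww a b j : ℤ) : ℝ)| ≤ (Q * Z) ^ 22 := by
  have hX0 : 0 < X := by linarith
  have hQ0 : 0 < Q := by linarith
  obtain ⟨M, hM⟩ : ∃ M, M = mm (Pi.single j (1 : ℝ)) (fun i => (a i : ℝ)) (fun i => (b i : ℝ)) :=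
    ⟨_, rfl⟩
  have h1 : (M * UU η β γ κ).det = ((ww a b j : ℤ) : ℝ) * γ := by
    rw [Matrix.det_mul, det_UU, hM, det_mm]
    congr 1
    rw [Finset.sum_eq_single j]
    · simp [ww_cast]
    · intro i _ hij
      simp [Pi.single_apply, hij]
    · intro h; exact absurd (Finset.mem_univ j) h
  have h2 := abs_det_le (M * UU η β γ κ) (Fin.cons (2 * X ^ 2 / 3) (fun _ => 1)) (cc Q Z X) (by
    intro i s
    rw [Matrix.mul_apply_eq_vecMul]
    refine Fin.cases ?_ (fun i' => ?_) i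
    · have h3 : M 0 = Pi.single j (1 : ℝ) := by rw [hM]; rfl
      rw [h3, Matrix.single_one_vecMul]
      simpa using unit_le hQ hZ hX hη hβ hγ1 hκ j s
    · have h3 : M i'.succ = ver (a i' : ℝ) (b i' : ℝ) := by rw [hM]; rfl
      rw [h3]
      simpa using ver_le (η := η) (β := β) hQ hX hγ1 hκ (ha i') (hn i') s)
  rw [h1, prod_cc hQ hX, abs_mul] at h2
  have h3 : (∏ i : Fin 6, (Fin.cons (2 * X ^ 2 / 3) (fun _ => 1) : Fin 6 → ℝ) i) = 2 * X ^ 2 / 3 := by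
    rw [Fin.prod_univ_succ]; simp
  rw [h3] at h2
  have h4 : ((6 : ℕ).factorial : ℝ) * (2 * X ^ 2 / 3 * (81 * Q ^ 5 * Z ^ 3 / X ^ 2))
      = 38880 * Q ^ 5 * Z ^ 3 := by
    have : ((6 : ℕ).factorial : ℝ) = 720 := by norm_num [Nat.factorial]
    rw [this]; field_simp; ring
  rw [h4] at h2
  have h5 : |((ww a b j : ℤ) : ℝ)| ≤ 38880 * Q ^ 6 * Z ^ 3 := by
    have h6 : |((ww a b j : ℤ) : ℝ)| * (1 / Q) ≤ 38880 * Q ^ 5 * Z ^ 3 :=
      (mul_le_mul_of_nonneg_left hγ (abs_nonneg _)).trans h2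
    have h7 : |((ww a b j : ℤ) : ℝ)| = |((ww a b j : ℤ) : ℝ)| * (1 / Q) * Q := by field_simp
    rw [h7]
    calc |((ww a b j : ℤ) : ℝ)| * (1 / Q) * Q ≤ 38880 * Q ^ 5 * Z ^ 3 * Q :=
          mul_le_mul_of_nonneg_right h6 hQ0.le
      _ = _ := by ring
  refine h5.trans ?_
  have e1 : (38880 : ℝ) ≤ Q ^ 16 := by
    calc (38880 : ℝ) ≤ 2 ^ 16 := by norm_num
      _ ≤ Q ^ 16 := pow_le_pow_left₀ (by norm_num) hQ 16
  calc 38880 * Q ^ 6 * Z ^ 3 ≤ Q ^ 16 * Q ^ 6 * Z ^ 22 := by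
        apply mul_le_mul (mul_le_mul_of_nonneg_right e1 (by positivity))
          (pow_le_pow_right₀ hZ (by norm_num)) (by positivity) (by positivity)
    _ = (Q * Z) ^ 22 := by ring

include hQ hZ hX hη hβ hγ1 hκ hγ in
theorem window (hNA : NA η ((Q * Z) ^ 25) ((Q * Z) ^ 33 / X)) {a b : Fin 5 → ℤ}
    (hinj : Function.Injective a) (ha : ∀ i, X ≤ |(a i : ℝ)| ∧ |(a i : ℝ)| ≤ X * Z)
    (hn : ∀ i, Nr η β γ κ Q (a i) (b i)) : False := by
  have hX0 : 0 < X := by linarith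
  have hX1 : 1 ≤ X := by linarith
  have hQ0 : 0 < Q := by linarith
  obtain ⟨j0, hj0⟩ := ww_ne_zero a b (by
    intro i j k hij hik hjk
    exact no_col hQ hZ hX1 hη hγ1 hκ hγ hNA (ha i) (ha j) (ha k) (hn i) (hn j) (hn k)
      (fun h => hij (hinj h)) (fun h => hik (hinj h)) (fun h => hjk (hinj h)))
  have hw := fun j => ww_le hQ hZ hX hη hβ hγ1 hκ hγ ha hn j
  have hv := ww_vanish a b 0
  obtain ⟨L, hL⟩ : ∃ L, L = Q * Z := ⟨_, rfl⟩
  rw [← hL] at hNA hw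
  have hL2 : 2 ≤ L := by rw [hL]; nlinarith
  have hL1 : 1 ≤ L := by linarith
  have hQL : Q ≤ L := by rw [hL]; nlinarith
  obtain ⟨w, hwdef⟩ : ∃ w : Fin 6 → ℤ, w = ww a b := ⟨_, rfl⟩
  rw [← hwdef] at hv hj0 hw
  obtain ⟨x, hx⟩ : ∃ x, x = a 0 := ⟨_, rfl⟩
  obtain ⟨y, hy⟩ : ∃ y, y = b 0 := ⟨_, rfl⟩
  rw [← hx, ← hy] at hv
  have hxa := ha 0
  rw [← hx] at hxa
  have hnx := hn 0
  rw [← hx, ← hy] at hnx
  have hv' : w 0 + w 1 * x + w 2 * y + w 3 * x ^ 2 + w 4 * (x * y) + w 5 * y ^ 2 = 0 := by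
    rw [← hv]
    simp only [Fin.sum_univ_succ, ver]
    simp
    ring
  have hvR : (w 0 : ℝ) + w 1 * x + w 2 * y + w 3 * (x : ℝ) ^ 2 + w 4 * (x * y)
      + w 5 * (y : ℝ) ^ 2 = 0 := by exact_mod_cast hv'
  have hx0 : (x : ℝ) ≠ 0 := abs_pos.1 (by linarith [hxa.1])
  have he := e_bound (η := η) (β := β) hQ hX1 hγ1 hκ hxa.1 hnx
  have hxinv : |(x : ℝ)⁻¹| ≤ 1 / X := abs_inv_le hX1 hxa.1
  obtain ⟨t, ht⟩ : ∃ t : ℝ, t = (y : ℝ) / x - η := ⟨_, rfl⟩
  have ht1 : |t| ≤ 4 * Q / X := by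
    have h1 : t = (β + ((y : ℝ) - η * x - β)) * (x : ℝ)⁻¹ := by rw [ht]; field_simp; ring
    rw [h1, abs_mul]
    have h2 : |β + ((y : ℝ) - η * x - β)| ≤ 4 * Q := by
      refine (abs_add_le _ _).trans ?_
      have : 3 * Q / X ≤ 3 * Q := div_le_self (by linarith) hX1
      linarith
    calc |β + ((y : ℝ) - η * x - β)| * |(x : ℝ)⁻¹| ≤ 4 * Q * (1 / X) :=
          mul_le_mul h2 hxinv (abs_nonneg _) (by linarith)
      _ = 4 * Q / X := by ring
  have hyx : (y : ℝ) = (η + t) * x := by rw [ht]; field_simp; ring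
  have ht4 : |t| ≤ 4 * Q := ht1.trans (div_le_self (by linarith) hX1)
  have hηt : |η + t| ≤ 5 * Q := (abs_add_le _ _).trans (by linarith)
  have h2ηt : |2 * η + t| ≤ 6 * Q := by
    refine (abs_add_le _ _).trans ?_
    rw [abs_mul, abs_of_pos (by norm_num : (0 : ℝ) < 2)]; linarith
  have hL6 : 36 * Q ^ 2 ≤ L ^ 8 := by
    calc 36 * Q ^ 2 ≤ 2 ^ 6 * Q ^ 2 := by nlinarith [sq_nonneg Q]
      _ ≤ L ^ 6 * L ^ 2 := mul_le_mul (pow_le_pow_left₀ (by norm_num) hL2 6)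
          (pow_le_pow_left₀ hQ0.le hQL 2) (by positivity) (by positivity)
      _ = L ^ 8 := by ring
  have hLX : L ^ 30 / X ≤ L ^ 33 / X :=
    div_le_div_of_nonneg_right (pow_le_pow_right₀ hL1 (by norm_num)) hX0.le
  have hL22 : (0 : ℝ) ≤ L ^ 22 := by positivity
  have h1X : 1 / X ≤ 1 := by rw [div_le_one hX0]; exact hX1
  -- quadratic part
  have hquad : w 3 = 0 ∧ w 4 = 0 ∧ w 5 = 0 := by
    by_contra hne
    have hne' : w 3 ≠ 0 ∨ w 4 ≠ 0 ∨ w 5 ≠ 0 := by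
      by_contra h; push_neg at h; exact hne h
    have h1 := hNA (w 3) (w 4) (w 5) hne'
      ((hw 3).trans (pow_le_pow_right₀ hL1 (by norm_num)))
      ((hw 4).trans (pow_le_pow_right₀ hL1 (by norm_num)))
      ((hw 5).trans (pow_le_pow_right₀ hL1 (by norm_num)))
    have h2 : (w 3 : ℝ) + w 4 * η + w 5 * η ^ 2
        = -(w 4 * t + w 5 * (t * (2 * η + t)) + w 2 * ((η + t) * (x : ℝ)⁻¹)
          + w 1 * (x : ℝ)⁻¹ + w 0 * ((x : ℝ)⁻¹ * (x : ℝ)⁻¹)) := by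
      have h3 : ((w 3 : ℝ) + w 4 * η + w 5 * η ^ 2) * x ^ 2
          = -(w 4 * t + w 5 * (t * (2 * η + t)) + w 2 * ((η + t) * (x : ℝ)⁻¹)
          + w 1 * (x : ℝ)⁻¹ + w 0 * ((x : ℝ)⁻¹ * (x : ℝ)⁻¹)) * x ^ 2 := by
        rw [hyx] at hvR
        have e1 : (w 2 * ((η + t) * (x : ℝ)⁻¹)) * x ^ 2 = w 2 * (η + t) * x := by field_simp
        have e2 : (w 1 * (x : ℝ)⁻¹) * x ^ 2 = w 1 * x := by field_simp
        have e3 : (w 0 * ((x : ℝ)⁻¹ * (x : ℝ)⁻¹)) * x ^ 2 = w 0 := by field_simp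
        linear_combination hvR + e1 + e2 + e3
      exact mul_right_cancel₀ (pow_ne_zero 2 hx0) h3
    rw [h2, abs_neg] at h1
    have a4 : |(w 4 : ℝ) * t| ≤ L ^ 22 * (4 * Q / X) := by
      rw [abs_mul]; exact mul_le_mul (hw 4) ht1 (abs_nonneg _) hL22
    have a5 : |(w 5 : ℝ) * (t * (2 * η + t))| ≤ L ^ 22 * ((4 * Q / X) * (6 * Q)) := by
      rw [abs_mul, abs_mul]
      exact mul_le_mul (hw 5) (mul_le_mul ht1 h2ηt (abs_nonneg _) (by positivity)) (by positivity) hL22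
    have a2 : |(w 2 : ℝ) * ((η + t) * (x : ℝ)⁻¹)| ≤ L ^ 22 * (5 * Q * (1 / X)) := by
      rw [abs_mul, abs_mul]
      exact mul_le_mul (hw 2) (mul_le_mul hηt hxinv (abs_nonneg _) (by positivity)) (by positivity) hL22
    have a1 : |(w 1 : ℝ) * (x : ℝ)⁻¹| ≤ L ^ 22 * (1 / X) := by
      rw [abs_mul]; exact mul_le_mul (hw 1) hxinv (abs_nonneg _) hL22
    have a0 : |(w 0 : ℝ) * ((x : ℝ)⁻¹ * (x : ℝ)⁻¹)| ≤ L ^ 22 * (1 / X) := by
      rw [abs_mul, abs_mul]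
      apply mul_le_mul (hw 0) _ (by positivity) hL22
      calc |(x : ℝ)⁻¹| * |(x : ℝ)⁻¹| ≤ (1 / X) * 1 :=
            mul_le_mul hxinv (hxinv.trans h1X) (abs_nonneg _) (by positivity)
        _ = 1 / X := mul_one _
    have b1 := abs_add_le ((w 4 : ℝ) * t + w 5 * (t * (2 * η + t)) + w 2 * ((η + t) * (x : ℝ)⁻¹)
          + w 1 * (x : ℝ)⁻¹) (w 0 * ((x : ℝ)⁻¹ * (x : ℝ)⁻¹))
    have b2 := abs_add_le ((w 4 : ℝ) * t + w 5 * (t * (2 * η + t)) + w 2 * ((η + t) * (x : ℝ)⁻¹))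
          (w 1 * (x : ℝ)⁻¹)
    have b3 := abs_add_le ((w 4 : ℝ) * t + w 5 * (t * (2 * η + t))) (w 2 * ((η + t) * (x : ℝ)⁻¹))
    have b4 := abs_add_le ((w 4 : ℝ) * t) (w 5 * (t * (2 * η + t)))
    have c1 : L ^ 22 * (4 * Q / X) + L ^ 22 * ((4 * Q / X) * (6 * Q)) + L ^ 22 * (5 * Q * (1 / X))
        + L ^ 22 * (1 / X) + L ^ 22 * (1 / X) ≤ L ^ 30 / X := by
      have e1 : L ^ 22 * (4 * Q / X) + L ^ 22 * ((4 * Q / X) * (6 * Q)) + L ^ 22 * (5 * Q * (1 / X))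
        + L ^ 22 * (1 / X) + L ^ 22 * (1 / X) = L ^ 22 * (24 * Q ^ 2 + 9 * Q + 2) / X := by
        field_simp; ring
      rw [e1]
      apply div_le_div_of_nonneg_right _ hX0.le
      calc L ^ 22 * (24 * Q ^ 2 + 9 * Q + 2) ≤ L ^ 22 * (36 * Q ^ 2) := by
            apply mul_le_mul_of_nonneg_left _ hL22
            nlinarith
        _ ≤ L ^ 22 * L ^ 8 := mul_le_mul_of_nonneg_left hL6 hL22
        _ = L ^ 30 := by ring
    linarith
  obtain ⟨w3, w4, w5⟩ := hquad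
  have hlin : w 1 = 0 ∧ w 2 = 0 := by
    by_contra hne
    have hne' : w 1 ≠ 0 ∨ w 2 ≠ 0 ∨ (0 : ℤ) ≠ 0 := by
      by_contra h; push_neg at h; exact hne ⟨h.1, h.2.1⟩
    have h1 := hNA (w 1) (w 2) 0 hne'
      ((hw 1).trans (pow_le_pow_right₀ hL1 (by norm_num)))
      ((hw 2).trans (pow_le_pow_right₀ hL1 (by norm_num)))
      (by simp only [Int.cast_zero, abs_zero]; positivity)
    have h2 : (w 1 : ℝ) + w 2 * η + ((0 : ℤ) : ℝ) * η ^ 2 = -(w 2 * t + w 0 * (x : ℝ)⁻¹) := by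
      have h3 : ((w 1 : ℝ) + w 2 * η + ((0 : ℤ) : ℝ) * η ^ 2) * x
          = -(w 2 * t + w 0 * (x : ℝ)⁻¹) * x := by
        rw [hyx, w3, w4, w5] at hvR
        have e3 : (w 0 * (x : ℝ)⁻¹) * x = w 0 := by field_simp
        push_cast at hvR ⊢
        linear_combination hvR + e3
      exact mul_right_cancel₀ hx0 h3
    rw [h2, abs_neg] at h1
    have a2 : |(w 2 : ℝ) * t| ≤ L ^ 22 * (4 * Q / X) := by
      rw [abs_mul]; exact mul_le_mul (hw 2) ht1 (abs_nonneg _) hL22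
    have a0 : |(w 0 : ℝ) * (x : ℝ)⁻¹| ≤ L ^ 22 * (1 / X) := by
      rw [abs_mul]; exact mul_le_mul (hw 0) hxinv (abs_nonneg _) hL22
    have b1 := abs_add_le ((w 2 : ℝ) * t) (w 0 * (x : ℝ)⁻¹)
    have c1 : L ^ 22 * (4 * Q / X) + L ^ 22 * (1 / X) ≤ L ^ 30 / X := by
      have e1 : L ^ 22 * (4 * Q / X) + L ^ 22 * (1 / X) = L ^ 22 * (4 * Q + 1) / X := by
        field_simp
      rw [e1]
      apply div_le_div_of_nonneg_right _ hX0.le
      calc L ^ 22 * (4 * Q + 1) ≤ L ^ 22 * (36 * Q ^ 2) := by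
            apply mul_le_mul_of_nonneg_left _ hL22
            nlinarith
        _ ≤ L ^ 22 * L ^ 8 := mul_le_mul_of_nonneg_left hL6 hL22
        _ = L ^ 30 := by ring
    linarith
  obtain ⟨w1, w2⟩ := hlin
  have w0 : w 0 = 0 := by
    rw [w1, w2, w3, w4, w5] at hv'
    linarith
  apply hj0
  fin_cases j0 <;> assumption

end

end Pool.Agent.H322R2
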