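import Pool.Agent.H322R2.Close2
import Pool.Agent.H322R2.Branch
import Pool.Agent.H322R2.Win3

/-!
The first terms of the expansion of a branch at infinity.
-/

open Polynomial Finset

namespace Pool.Agent.H322R2

/-- normalised Taylor coefficients at infinity -/
noncomputable def tc (d : ℕ) (G : ℤ[X][X]) (η : ℝ) (p : ℕ × ℕ) : ℝ :=
  tay (hmg d G) (d + 1) (d + 1) (0 : ℝ) η p / tay (hmg d G) (d + 1) (d + 1) (0 : ℝ) η (0, 1)

noncomputable def bet (d : ℕ) (G : ℤ[X][X]) (η : ℝ) : ℝ := -tc d G η (1, 0)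

noncomputable def gam (d : ℕ) (G : ℤ[X][X]) (η : ℝ) : ℝ :=
  -(tc d G η (0, 2) * bet d G η ^ 2 + tc d G η (1, 1) * bet d G η + tc d G η (2, 0))

noncomputable def kpp (d : ℕ) (G : ℤ[X][X]) (η : ℝ) : ℝ :=
  -(2 * tc d G η (0, 2) * bet d G η * gam d G η + tc d G η (0, 3) * bet d G η ^ 3
    + tc d G η (1, 1) * gam d G η + tc d G η (1, 2) * bet d G η ^ 2 + tc d G η (2, 1) * bet d G η
    + tc d G η (3, 0))

lemma abs_eval_le {q : ℝ[X]} {k : ℕ} (hq : X ^ k ∣ q) {z : ℝ} (hz : |z| ≤ 1) :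
    |q.eval z| ≤ |z| ^ k * pn rn q := by
  rw [X_pow_dvd_iff] at hq
  rw [eval_eq_sum_range, pn_eq_range rn q (Nat.lt_succ_self _), Finset.mul_sum]
  refine (Finset.abs_sum_le_sum_abs _ _).trans ?_
  apply Finset.sum_le_sum
  intro i _
  rw [abs_mul, abs_pow, rn_apply]
  by_cases h : i < k
  · rw [hq i h]; simp
  · rw [mul_comm]
    apply mul_le_mul_of_nonneg_right _ (abs_nonneg _)
    exact pow_le_pow_of_le_one (abs_nonneg _) hz (by omega)

section

variable {d : ℕ} {G : ℤ[X][X]} {η S M : ℝ}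

lemma tay01 (hd : 0 < d) (hT : TD d G) :
    tay (hmg d G) (d + 1) (d + 1) (0 : ℝ) η (0, 1) = evf η (derivative (lead d G)) := by
  have hPn : (hmg d G).natDegree < d + 1 := by have := natDegree_hmg d G; omega
  have hPm : ∀ j, ((hmg d G).coeff j).natDegree < d + 1 := fun j => by
    have := natDegree_coeff_hmg hT j; omega
  rw [tay_one _ _ _ hPn hPm, ev_zero_derivative_hmg _ _ hd]

lemma tay_le (hT : TD d G) (hM : pn (pn zn) G ≤ M) (p : ℕ × ℕ) (hp : p ∈ range (d + 1) ×ˢ range (d + 1)) :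
    |tay (hmg d G) (d + 1) (d + 1) (0 : ℝ) η p| ≤ M * (1 + |η|) ^ d := by
  have hPn : (hmg d G).natDegree < d + 1 := by have := natDegree_hmg d G; omega
  have hPm : ∀ j, ((hmg d G).coeff j).natDegree < d + 1 := fun j => by
    have := natDegree_coeff_hmg hT j; omega
  have h1 := sum_tay_le rn rn_one (hmg d G) (d + 1) (d + 1) hPn hPm 0 η
  rw [pn_hmg hT, map_zero, add_zero, one_pow, mul_one, rn_apply, Nat.add_sub_cancel] at h1
  have h2 : |tay (hmg d G) (d + 1) (d + 1) (0 : ℝ) η p| ≤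
      ∑ p ∈ range (d + 1) ×ˢ range (d + 1), rn (tay (hmg d G) (d + 1) (d + 1) 0 η p) :=
    Finset.single_le_sum (f := fun p => rn (tay (hmg d G) (d + 1) (d + 1) 0 η p))
      (fun _ _ => apply_nonneg _ _) hp
  refine h2.trans (h1.trans ?_)
  exact mul_le_mul_of_nonneg_right hM (by positivity)

lemma tc_le (hd : 3 ≤ d) (hT : TD d G) (hM : pn (pn zn) G ≤ M) (hS : 1 ≤ S)
    (hD0 : 0 < |evf η (derivative (lead d G))|)
    (hD : M * (1 + |η|) ^ d ≤ S * |evf η (derivative (lead d G))|) (p q : ℕ) (hp : p ≤ 3)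
    (hq : q ≤ 3) : |tc d G η (p, q)| ≤ S := by
  rw [tc, abs_div, tay01 (by omega) hT, div_le_iff₀ hD0]
  refine (tay_le hT hM _ ?_).trans hD
  rw [Finset.mem_product, Finset.mem_range, Finset.mem_range]
  simp only
  omega

lemma bgk_le (hd : 3 ≤ d) (hT : TD d G) (hM : pn (pn zn) G ≤ M) (hS : 1 ≤ S)
    (hD0 : 0 < |evf η (derivative (lead d G))|)
    (hD : M * (1 + |η|) ^ d ≤ S * |evf η (derivative (lead d G))|) :
    |bet d G η| ≤ S ∧ |gam d G η| ≤ 3 * S ^ 3 ∧ |kpp d G η| ≤ 13 * S ^ 5 := by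
  have ht := fun p q hp hq => tc_le hd hT hM hS hD0 hD p q hp hq
  have hS0 : 0 ≤ S := by linarith
  have hb : |bet d G η| ≤ S := by rw [bet, abs_neg]; exact ht 1 0 (by norm_num) (by norm_num)
  obtain ⟨β, hβ⟩ : ∃ β, β = bet d G η := ⟨_, rfl⟩
  have hb2 : |bet d G η ^ 2| ≤ S ^ 2 := by
    rw [abs_pow]; exact pow_le_pow_left₀ (abs_nonneg _) hb 2
  have hb3 : |bet d G η ^ 3| ≤ S ^ 3 := by
    rw [abs_pow]; exact pow_le_pow_left₀ (abs_nonneg _) hb 3
  have m : ∀ x y : ℝ, ∀ A B : ℝ, 0 ≤ A → |x| ≤ A → |y| ≤ B → |x * y| ≤ A * B := by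
    intro x y A B hA hx hy
    rw [abs_mul]
    exact mul_le_mul hx hy (abs_nonneg _) hA
  have p12 : S ≤ S ^ 3 := by
    calc S = S ^ 1 := (pow_one _).symm
      _ ≤ S ^ 3 := pow_le_pow_right₀ hS (by norm_num)
  have p23 : S ^ 2 ≤ S ^ 3 := pow_le_pow_right₀ hS (by norm_num)
  have hg : |gam d G η| ≤ 3 * S ^ 3 := by
    rw [gam, abs_neg]
    have h1 := m _ _ _ _ hS0 (ht 0 2 (by norm_num) (by norm_num)) hb2
    have h2 := m _ _ _ _ hS0 (ht 1 1 (by norm_num) (by norm_num)) hb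
    have h3 := ht 2 0 (by norm_num) (by norm_num)
    have h4 := abs_add_le (tc d G η (0, 2) * bet d G η ^ 2 + tc d G η (1, 1) * bet d G η)
      (tc d G η (2, 0))
    have h5 := abs_add_le (tc d G η (0, 2) * bet d G η ^ 2) (tc d G η (1, 1) * bet d G η)
    have e1 : S * S ^ 2 = S ^ 3 := by ring
    have e2 : S * S = S ^ 2 := by ring
    linarith
  refine ⟨hb, hg, ?_⟩
  rw [kpp, abs_neg]
  have h1 := m _ _ _ _ (by positivity) (m _ _ _ _ (by positivity)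
    (m 2 _ 2 _ (by norm_num) (by norm_num) (ht 0 2 (by norm_num) (by norm_num))) hb) hg
  have h2 := m _ _ _ _ hS0 (ht 0 3 (by norm_num) (by norm_num)) hb3
  have h3 := m _ _ _ _ hS0 (ht 1 1 (by norm_num) (by norm_num)) hg
  have h4 := m _ _ _ _ hS0 (ht 1 2 (by norm_num) (by norm_num)) hb2
  have h5 := m _ _ _ _ hS0 (ht 2 1 (by norm_num) (by norm_num)) hb
  have h6 := ht 3 0 (by norm_num) (by norm_num)
  obtain ⟨A, hA⟩ : ∃ A, A = 2 * tc d G η (0, 2) * bet d G η * gam d G η := ⟨_, rfl⟩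
  obtain ⟨B, hB⟩ : ∃ B, B = tc d G η (0, 3) * bet d G η ^ 3 := ⟨_, rfl⟩
  obtain ⟨C, hC⟩ : ∃ C, C = tc d G η (1, 1) * gam d G η := ⟨_, rfl⟩
  obtain ⟨D, hDD⟩ : ∃ D, D = tc d G η (1, 2) * bet d G η ^ 2 := ⟨_, rfl⟩
  obtain ⟨E, hE⟩ : ∃ E, E = tc d G η (2, 1) * bet d G η := ⟨_, rfl⟩
  obtain ⟨F, hF⟩ : ∃ F, F = tc d G η (3, 0) := ⟨_, rfl⟩
  rw [← hA] at h1 ⊢
  rw [← hB] at h2 ⊢
  rw [← hC] at h3 ⊢
  rw [← hDD] at h4 ⊢
  rw [← hE] at h5 ⊢
  rw [← hF] at h6 ⊢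
  have k1 := abs_add_le (A + B + C + D + E) F
  have k2 := abs_add_le (A + B + C + D) E
  have k3 := abs_add_le (A + B + C) D
  have k4 := abs_add_le (A + B) C
  have k5 := abs_add_le A B
  have q1 : S ≤ S ^ 5 := by
    calc S = S ^ 1 := (pow_one _).symm
      _ ≤ S ^ 5 := pow_le_pow_right₀ hS (by norm_num)
  have q2 : S ^ 2 ≤ S ^ 5 := pow_le_pow_right₀ hS (by norm_num)
  have q3 : S ^ 3 ≤ S ^ 5 := pow_le_pow_right₀ hS (by norm_num)
  have q4 : S ^ 4 ≤ S ^ 5 := pow_le_pow_right₀ hS (by norm_num)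
  have e1 : 2 * S * S * (3 * S ^ 3) = 6 * S ^ 5 := by ring
  have e2 : S * S ^ 3 = S ^ 4 := by ring
  have e3 : S * (3 * S ^ 3) = 3 * S ^ 4 := by ring
  have e4 : S * S ^ 2 = S ^ 3 := by ring
  have e5 : S * S = S ^ 2 := by ring
  linarith

/-- the truncated branch -/
noncomputable def h2p (d : ℕ) (G : ℤ[X][X]) (η : ℝ) : ℝ[X] :=
  X * (C (bet d G η) + C (gam d G η) * X + C (kpp d G η) * X ^ 2)

lemma dvd_trunc (hd : 3 ≤ d) (hT : TD d G) (hη : evf η (lead d G) = 0)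
    (hD0 : evf η (derivative (lead d G)) ≠ 0) :
    X ^ 4 ∣ ev (X : ℝ[X]) (C η + h2p d G η) (hmg d G) := by
  have hPn : (hmg d G).natDegree < d + 1 := by have := natDegree_hmg d G; omega
  have hPm : ∀ j, ((hmg d G).coeff j).natDegree < d + 1 := fun j => by
    have := natDegree_coeff_hmg hT j; omega
  have h1 := ev_taylor (C : ℝ →+* ℝ[X]) (hmg d G) (d + 1) (d + 1) hPn hPm 0 η X (h2p d G η)
  rw [map_zero, zero_add] at h1
  rw [h1]
  have hsub : range 4 ×ˢ range 4 ⊆ range (d + 1) ×ˢ range (d + 1) := by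
    apply Finset.product_subset_product
    · intro i hi; rw [Finset.mem_range] at hi ⊢; omega
    · intro i hi; rw [Finset.mem_range] at hi ⊢; omega
  rw [← Finset.sum_sdiff hsub]
  obtain ⟨v, hv⟩ : ∃ v : ℝ[X], v = C (bet d G η) + C (gam d G η) * X + C (kpp d G η) * X ^ 2 :=
    ⟨_, rfl⟩
  have hh : h2p d G η = X * v := by rw [h2p, hv]
  rw [hh]
  apply dvd_add
  · apply Finset.dvd_sum
    intro p hp
    rw [Finset.mem_sdiff, Finset.mem_product, Finset.mem_product, Finset.mem_range,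
      Finset.mem_range, Finset.mem_range, Finset.mem_range] at hp
    have h4 : 4 ≤ p.1 + p.2 := by omega
    have h5 : C (tay (hmg d G) (d + 1) (d + 1) 0 η p) * X ^ p.1 * (X * v) ^ p.2
        = X ^ (p.1 + p.2) * (C (tay (hmg d G) (d + 1) (d + 1) 0 η p) * v ^ p.2) := by
      rw [mul_pow, pow_add]; ring
    rw [h5]
    exact Dvd.dvd.mul_right (pow_dvd_pow _ h4) _
  · -- explicit part
    obtain ⟨τ, hτ⟩ : ∃ τ : ℕ → ℕ → ℝ, τ = fun p q => tay (hmg d G) (d + 1) (d + 1) 0 η (p, q) :=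
      ⟨_, rfl⟩
    have hτ' : ∀ p q, tay (hmg d G) (d + 1) (d + 1) 0 η (p, q) = τ p q := by
      intro p q; rw [hτ]
    have h00 : τ 0 0 = 0 := by
      rw [← hτ', tay_zero _ _ _ hPn hPm, ev_zero_hmg, hη]
    have h01 : τ 0 1 ≠ 0 := by
      rw [← hτ', tay01 (by omega) hT]; exact hD0
    have r1 : τ 0 1 * bet d G η + τ 1 0 = 0 := by
      rw [bet, tc, hτ', hτ']; field_simp; ring
    have r2 : τ 0 1 * gam d G η + (τ 0 2 * bet d G η ^ 2 + τ 1 1 * bet d G η + τ 2 0) = 0 := by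
      rw [gam, tc, tc, tc, hτ', hτ', hτ', hτ']; field_simp; ring
    have r3 : τ 0 1 * kpp d G η + (2 * τ 0 2 * bet d G η * gam d G η + τ 0 3 * bet d G η ^ 3
        + τ 1 1 * gam d G η + τ 1 2 * bet d G η ^ 2 + τ 2 1 * bet d G η + τ 3 0) = 0 := by
      rw [kpp, tc, tc, tc, tc, tc, tc, hτ', hτ', hτ', hτ', hτ', hτ', hτ']; field_simp; ring
    obtain ⟨β, hβ⟩ : ∃ β, β = bet d G η := ⟨_, rfl⟩
    obtain ⟨γ, hγ⟩ : ∃ γ, γ = gam d G η := ⟨_, rfl⟩
    obtain ⟨κ, hκ⟩ : ∃ κ, κ = kpp d G η := ⟨_, rfl⟩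
    rw [← hβ] at r1 r2 r3 hv
    rw [← hγ] at r2 r3 hv
    rw [← hκ] at r3 hv
    have s1 := congrArg (C : ℝ → ℝ[X]) r1
    have s2 := congrArg (C : ℝ → ℝ[X]) r2
    have s3 := congrArg (C : ℝ → ℝ[X]) r3
    simp only [map_add, map_mul, map_pow, map_zero] at s1 s2 s3
    have e2 : (C (2 : ℝ) : ℝ[X]) = 2 := rfl
    rw [e2] at s3
    simp only [Finset.sum_product, Finset.sum_range_succ, Finset.sum_range_zero, hτ', h00,
      map_zero]
    refine ⟨C (τ 0 2) * (C γ ^ 2 + 2 * C β * C κ + 2 * C γ * C κ * X + C κ ^ 2 * X ^ 2)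
      + C (τ 1 1) * C κ + C (τ 0 3) * ((C γ + C κ * X) * (v ^ 2 + v * C β + C β ^ 2))
      + C (τ 1 2) * ((C γ + C κ * X) * (v + C β)) + C (τ 2 1) * (C γ + C κ * X)
      + C (τ 1 3) * v ^ 3 + C (τ 2 2) * v ^ 2 + C (τ 2 3) * X * v ^ 3 + C (τ 3 1) * v
      + C (τ 3 2) * X * v ^ 2 + C (τ 3 3) * X ^ 2 * v ^ 3, ?_⟩
    rw [hv]
    linear_combination X * s1 + X ^ 2 * s2 + X ^ 3 * s3

theorem exp_lemma (hd : 3 ≤ d) (hT : TD d G) (hM : pn (pn zn) G ≤ M) (hS : 1 ≤ S)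
    (hη : evf η (lead d G) = 0) (hD0 : 0 < |evf η (derivative (lead d G))|)
    (hD : M * (1 + |η|) ^ d ≤ S * |evf η (derivative (lead d G))|) {a b : ℤ}
    (hab : ev a b G = 0) (ha : 34 * (d + 1) * S ^ 6 ≤ |(a : ℝ)|)
    (hclose : |(b : ℝ) / a - η| ≤ 1 / (2 * (d + 1) * S)) :
    Nr η (bet d G η) (gam d G η) (kpp d G η) (2 * S * (36 * S ^ 5) ^ d) a b := by
  obtain ⟨hb, hg, hk⟩ := bgk_le hd hT hM hS hD0 hD
  have hPn : (hmg d G).natDegree < d + 1 := by have := natDegree_hmg d G; omega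
  have hPm : ∀ j, ((hmg d G).coeff j).natDegree < d + 1 := fun j => by
    have := natDegree_coeff_hmg hT j; omega
  obtain ⟨β, hβ⟩ : ∃ β, β = bet d G η := ⟨_, rfl⟩
  obtain ⟨γ, hγ⟩ : ∃ γ, γ = gam d G η := ⟨_, rfl⟩
  obtain ⟨κ, hκ⟩ : ∃ κ, κ = kpp d G η := ⟨_, rfl⟩
  have hS0 : 0 < S := by linarith
  have hd3 : (3 : ℝ) ≤ d := by exact_mod_cast hd
  have hS5 : 1 ≤ S ^ 5 := one_le_pow₀ hS
  have hS6 : 1 ≤ S ^ 6 := one_le_pow₀ hS
  have hSS5 : S ≤ S ^ 5 := by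
    calc S = S ^ 1 := (pow_one _).symm
      _ ≤ S ^ 5 := pow_le_pow_right₀ hS (by norm_num)
  have hS35 : S ^ 3 ≤ S ^ 5 := pow_le_pow_right₀ hS (by norm_num)
  have hsum : |bet d G η| + |gam d G η| + |kpp d G η| ≤ 17 * S ^ 5 := by linarith
  have ha1 : 1 ≤ |(a : ℝ)| := by
    refine le_trans ?_ ha
    have : 1 ≤ 34 * ((d : ℝ) + 1) := by linarith
    exact one_le_mul_of_one_le_of_one_le this hS6
  have ha0 : 0 < |(a : ℝ)| := by linarith
  have haR : (a : ℝ) ≠ 0 := abs_pos.1 ha0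
  obtain ⟨z, hz⟩ : ∃ z, z = (a : ℝ)⁻¹ := ⟨_, rfl⟩
  have hza : |z| * |(a : ℝ)| = 1 := by rw [hz, abs_inv]; field_simp
  have hz1 : |z| ≤ 1 := by
    rw [hz, abs_inv]; exact inv_le_one_of_one_le₀ ha1
  obtain ⟨r, hr⟩ : ∃ r : ℝ, r = 1 / (2 * (d + 1) * S) := ⟨_, rfl⟩
  rw [← hr] at hclose
  have hr1 : r ≤ 1 := by
    rw [hr, div_le_one (by positivity)]
    nlinarith
  have hr0 : 0 < r := by rw [hr]; positivity
  -- |z| * 17 S^5 ≤ r
  have hzr' : |z| * (17 * S ^ 5) ≤ r := by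
    have h1 : (17 * S ^ 5) ≤ r * |(a : ℝ)| := by
      rw [hr, one_div_mul_eq_div, le_div_iff₀ (by positivity)]
      calc 17 * S ^ 5 * (2 * (d + 1) * S) = 34 * (d + 1) * S ^ 6 := by ring
        _ ≤ _ := ha
    calc |z| * (17 * S ^ 5) ≤ |z| * (r * |(a : ℝ)|) := mul_le_mul_of_nonneg_left h1 (abs_nonneg _)
      _ = r * (|z| * |(a : ℝ)|) := by ring
      _ = r := by rw [hza, mul_one]
  have hzr : |z| ≤ r := by
    refine le_trans ?_ hzr'
    apply le_mul_of_one_le_right (abs_nonneg _)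
    linarith
  obtain ⟨h2, hh2⟩ : ∃ h2, h2 = (h2p d G η).eval z := ⟨_, rfl⟩
  have hh2' : h2 = z * (bet d G η + gam d G η * z + kpp d G η * z ^ 2) := by
    rw [hh2, h2p]; simp
  have hh2r : |h2| ≤ r := by
    rw [hh2', abs_mul]
    refine le_trans (mul_le_mul_of_nonneg_left ?_ (abs_nonneg _)) hzr'
    refine (abs_add_le _ _).trans ?_
    have h1 := abs_add_le (bet d G η) (gam d G η * z)
    have h3 : |gam d G η * z| ≤ |gam d G η| := by
      rw [abs_mul]; exact mul_le_of_le_one_right (abs_nonneg _) hz1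
    have h4 : |kpp d G η * z ^ 2| ≤ |kpp d G η| := by
      rw [abs_mul, abs_pow]
      exact mul_le_of_le_one_right (abs_nonneg _) (pow_le_one₀ (abs_nonneg _) hz1)
    linarith
  -- value of P at the truncated branch
  have hdvd := dvd_trunc hd hT hη (abs_pos.1 hD0)
  have hev := abs_eval_le hdvd hz1
  have hev1 : (ev (X : ℝ[X]) (C η + h2p d G η) (hmg d G)).eval z = ev z (η + h2) (hmg d G) := by
    have h3 := map_ev (evalRingHom z) (X : ℝ[X]) (C η + h2p d G η) (hmg d G)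
    simp only [coe_evalRingHom, eval_X, eval_add, eval_C] at h3
    rw [h3, hh2]
  rw [hev1] at hev
  have hpn1 : pn rn (1 : ℝ[X]) ≤ 1 := by rw [pn_one]; exact rn_one
  have hpnv : pn rn (C η + h2p d G η) ≤ |η| + 17 * S ^ 5 := by
    refine (map_add_le_add _ _ _).trans ?_
    rw [pn_C, rn_apply]
    have h3 : pn rn (h2p d G η) ≤ |bet d G η| + |gam d G η| + |kpp d G η| := by
      rw [h2p]
      refine (map_mul_le_mul _ _ _).trans ?_
      have h4 : pn rn (X : ℝ[X]) ≤ 1 := by rw [pn_X]; exact rn_one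
      have h5 : pn rn (C (bet d G η) + C (gam d G η) * X + C (kpp d G η) * X ^ 2)
          ≤ |bet d G η| + |gam d G η| + |kpp d G η| := by
        refine (map_add_le_add _ _ _).trans ?_
        have h6 := map_add_le_add (pn rn) (C (bet d G η)) (C (gam d G η) * X)
        rw [pn_C, rn_apply] at h6
        have h7 : pn rn (C (gam d G η) * X) ≤ |gam d G η| := by
          refine (map_mul_le_mul _ _ _).trans ?_
          rw [pn_C, rn_apply]
          exact mul_le_of_le_one_right (abs_nonneg _) h4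
        have h8 : pn rn (C (kpp d G η) * X ^ 2) ≤ |kpp d G η| := by
          refine (map_mul_le_mul _ _ _).trans ?_
          rw [pn_C, rn_apply]
          apply mul_le_of_le_one_right (abs_nonneg _)
          refine (seminorm_pow_le _ hpn1 _ _).trans ?_
          exact pow_le_one₀ (apply_nonneg _ _) h4
        linarith
      calc pn rn (X : ℝ[X]) * pn rn (C (bet d G η) + C (gam d G η) * X + C (kpp d G η) * X ^ 2)
          ≤ 1 * (|bet d G η| + |gam d G η| + |kpp d G η|) :=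
            mul_le_mul h4 h5 (apply_nonneg _ _) (by norm_num)
        _ = _ := one_mul _
    linarith
  have hpnQ : pn rn (ev (X : ℝ[X]) (C η + h2p d G η) (hmg d G))
      ≤ (M * (1 + |η|) ^ d) * (36 * S ^ 5) ^ d := by
    have h3 := sum_tay_le (pn rn) hpn1 (hmg d G) (d + 1) (d + 1) hPn hPm (X : ℝ[X])
      (C η + h2p d G η)
    have h4 : pn rn (tay (hmg d G) (d + 1) (d + 1) (X : ℝ[X]) (C η + h2p d G η) (0, 0)) ≤
        ∑ p ∈ range (d + 1) ×ˢ range (d + 1),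
          pn rn (tay (hmg d G) (d + 1) (d + 1) (X : ℝ[X]) (C η + h2p d G η) p) :=
      Finset.single_le_sum (f := fun p =>
          pn rn (tay (hmg d G) (d + 1) (d + 1) (X : ℝ[X]) (C η + h2p d G η) p))
        (fun _ _ => apply_nonneg _ _) (by simp)
    rw [tay_zero _ _ _ hPn hPm] at h4
    refine h4.trans (h3.trans ?_)
    rw [pn_hmg hT, Nat.add_sub_cancel]
    have h5 : (1 + pn rn (X : ℝ[X])) ^ d ≤ 2 ^ d := by
      apply pow_le_pow_left₀ (by have := apply_nonneg (pn rn) (X : ℝ[X]); linarith)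
      rw [pn_X]; have := rn_one; linarith
    have h6 : (1 + pn rn (C η + h2p d G η)) ^ d ≤ ((1 + |η|) * (18 * S ^ 5)) ^ d := by
      apply pow_le_pow_left₀ (by have := apply_nonneg (pn rn) (C η + h2p d G η); linarith)
      have h7 : 0 ≤ |η| * (18 * S ^ 5 - 1) := by
        apply mul_nonneg (abs_nonneg _); linarith
      nlinarith
    have h8 : 0 ≤ pn (pn zn) G := apply_nonneg _ _
    have hM0 : 0 ≤ M := h8.trans hM
    have h9 : 0 ≤ pn rn (X : ℝ[X]) := apply_nonneg _ _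
    have h10 : 0 ≤ pn rn (C η + h2p d G η) := apply_nonneg _ _
    calc pn (pn zn) G * (1 + pn rn (X : ℝ[X])) ^ d * (1 + pn rn (C η + h2p d G η)) ^ d
        ≤ M * 2 ^ d * ((1 + |η|) * (18 * S ^ 5)) ^ d := by
          apply mul_le_mul _ h6 (by positivity) (by positivity)
          exact mul_le_mul hM h5 (by positivity) (by linarith)
      _ = _ := by
          rw [mul_pow (1 + |η|)]
          have : (36 * S ^ 5) ^ d = 2 ^ d * (18 * S ^ 5) ^ d := by rw [← mul_pow]; ring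
          rw [this]; ring
  obtain ⟨Dd, hDd⟩ : ∃ Dd, Dd = |evf η (derivative (lead d G))| := ⟨_, rfl⟩
  rw [← hDd] at hD0 hD
  -- close_quant
  obtain ⟨h1, hh1⟩ : ∃ h1, h1 = (b : ℝ) / a - η := ⟨_, rfl⟩
  rw [← hh1] at hclose
  have hP1 : ev z (η + h1) (hmg d G) = 0 := by
    have h3 : ev (a : ℝ) (b : ℝ) G = 0 := by
      have h3 := map_ev (Int.castRingHom ℝ) a b G
      simp only [eq_intCast] at h3
      rw [← h3, hab]; simp
    have h4 := ev_hmg (x := (a : ℝ)) (z := z) ((b : ℝ) / a)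
      (by rw [hz]; exact mul_inv_cancel₀ haR) hT
    have h5 : (a : ℝ) * ((b : ℝ) / a) = b := by field_simp
    rw [h5, h3] at h4
    have h6 : η + h1 = (b : ℝ) / a := by rw [hh1]; ring
    rw [h6]
    rcases mul_eq_zero.1 h4.symm with h | h
    · exact absurd h (pow_ne_zero _ haR)
    · exact h
  have hq := close_quant (𝕜 := ℝ) (hmg d G) (d + 1) (d + 1) hPn hPm (by omega) η hr1 z h1 h2
    (by rw [Real.norm_eq_abs]; exact hzr) (by rw [Real.norm_eq_abs]; exact hclose)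
    (by rw [Real.norm_eq_abs]; exact hh2r)
  rw [hP1, zero_sub, norm_neg, ev_zero_derivative_hmg _ _ (by omega), Real.norm_eq_abs,
    Real.norm_eq_abs, Real.norm_eq_abs, Real.norm_eq_abs, pn_hmg hT, Nat.add_sub_cancel, ← hDd] at hq
  have hhalf : pn (pn zn) G * (1 + |η|) ^ d * ((d + 1 : ℕ) * r) ≤ Dd / 2 := by
    have h3 : pn (pn zn) G * (1 + |η|) ^ d ≤ S * Dd :=
      (mul_le_mul_of_nonneg_right hM (by positivity)).trans hD
    calc _ ≤ S * Dd * ((d + 1 : ℕ) * r) := mul_le_mul_of_nonneg_right h3 (by positivity)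
      _ = Dd / 2 := by rw [hr]; push_cast; field_simp
  have hfin : |h1 - h2| * Dd ≤ 2 * (|z| ^ 4 * (S * Dd * (36 * S ^ 5) ^ d)) := by
    have h3 : pn (pn zn) G * (1 + |η|) ^ d * ((d + 1 : ℕ) * r) * |h1 - h2|
        ≤ Dd / 2 * |h1 - h2| := mul_le_mul_of_nonneg_right hhalf (abs_nonneg _)
    have h4 : |z| ^ 4 * pn rn (ev (X : ℝ[X]) (C η + h2p d G η) (hmg d G))
        ≤ |z| ^ 4 * (S * Dd * (36 * S ^ 5) ^ d) := by
      apply mul_le_mul_of_nonneg_left _ (by positivity)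
      refine hpnQ.trans ?_
      exact mul_le_mul_of_nonneg_right hD (by positivity)
    linarith
  have hfin2 : |h1 - h2| ≤ 2 * S * (36 * S ^ 5) ^ d * |z| ^ 4 := by
    have h3 : |h1 - h2| * Dd ≤ (2 * S * (36 * S ^ 5) ^ d * |z| ^ 4) * Dd := by
      refine hfin.trans (le_of_eq (by ring))
    exact le_of_mul_le_mul_right h3 hD0
  have hb1 : (b : ℝ) - η * a - bet d G η - gam d G η / a - kpp d G η / (a : ℝ) ^ 2
      = a * (h1 - h2) := by
    rw [hh1, hh2', hz]; field_simp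
    ring
  rw [Nr, hb1, abs_mul]
  calc |(a : ℝ)| * |h1 - h2| ≤ |(a : ℝ)| * (2 * S * (36 * S ^ 5) ^ d * |z| ^ 4) :=
        mul_le_mul_of_nonneg_left hfin2 (abs_nonneg _)
    _ = 2 * S * (36 * S ^ 5) ^ d / |(a : ℝ)| ^ 3 := by
        rw [hz, abs_inv]; field_simp

end

end Pool.Agent.H322R2
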