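import Pool.Agent.H322R2.ZAlpha

/-!
Polynomial bounds for the constants.
-/

open Polynomial Finset

namespace Pool.Agent.H322R2

section

variable {d : ℕ} {H : ℝ} (hd : 0 < d) (hH : 1 ≤ H)

include hH in
lemma d_le_pow : (d : ℝ) ≤ (2 + H) ^ d := by
  have h1 : (d : ℝ) ≤ 2 ^ d := by exact_mod_cast Nat.lt_two_pow_self.le
  exact h1.trans (pow_le_pow_left₀ (by norm_num) (by linarith) _)

include hd hH in
lemma d1_le_pow : (d : ℝ) + 1 ≤ (2 + H) ^ d := by
  have h0 : d + 1 ≤ 2 ^ d := by
    have := Nat.lt_two_pow_self (n := d)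
    omega
  have h1 : (d : ℝ) + 1 ≤ 2 ^ d := by exact_mod_cast h0
  exact h1.trans (pow_le_pow_left₀ (by norm_num) (by linarith) _)

include hH in
lemma fact_le_pow : (d.factorial : ℝ) ≤ (2 + H) ^ (d ^ 2) := by
  have h1 : (d.factorial : ℝ) ≤ (d : ℝ) ^ d := by exact_mod_cast Nat.factorial_le_pow d
  refine h1.trans ?_
  rw [sq, pow_mul]
  exact pow_le_pow_left₀ (by positivity) (d_le_pow hH) _

include hH in
lemma cΔ_le : cΔ d H ≤ (2 + H) ^ (2 * d + 1) := by
  unfold cΔ
  calc (d * H) * (2 + H) ^ d ≤ ((2 + H) ^ d * (2 + H)) * (2 + H) ^ d := by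
        apply mul_le_mul_of_nonneg_right _ (by positivity)
        exact mul_le_mul (d_le_pow hH) (by linarith) (by linarith) (by positivity)
    _ = _ := by ring

include hd hH in
lemma cT_le : cT d H ≤ (2 + H) ^ ((2 * d + 1) * (3 * (d + 1)) + (d + 1)) := by
  unfold cT
  have h1 := one_le_cΔ hd hH
  have h2 : (2 + H) ^ ((2 * d + 1) * (3 * (d + 1)) + (d + 1))
      = ((2 + H) ^ (2 * d + 1)) ^ (3 * (d + 1)) * (2 + H) ^ (d + 1) := by
    rw [pow_add, ← pow_mul]
  rw [h2]
  apply mul_le_mul (pow_le_pow_left₀ (by linarith) (cΔ_le hH) _) _ (by positivity) (by positivity)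
  rw [pow_succ, mul_comm]
  exact mul_le_mul_of_nonneg_left (by linarith) (by positivity)

include hH in
lemma cD_le : cD d H ≤ (2 + H) ^ (3 * d ^ 2 + 3 * d) := by
  have hK : 0 ≤ 2 + H := by linarith
  unfold cD
  have h1 : ((d * H) * (1 + H) ^ d) ≤ (2 + H) ^ (2 * d + 1) := by
    calc (d * H) * (1 + H) ^ d ≤ ((2 + H) ^ d * (2 + H)) * (2 + H) ^ d := by
          apply mul_le_mul _ (pow_le_pow_left₀ (by linarith) (by linarith) _) (by positivity)
            (by positivity)
          exact mul_le_mul (d_le_pow hH) (by linarith) (by linarith) (by positivity)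
      _ = _ := by ring
  calc d * (d.factorial * ((d * H) * (1 + H) ^ d) ^ d) * (1 + H) ^ d
      ≤ (2 + H) ^ d * ((2 + H) ^ (d ^ 2) * ((2 + H) ^ (2 * d + 1)) ^ d) * (2 + H) ^ d := by
        apply mul_le_mul _ (pow_le_pow_left₀ (by linarith) (by linarith) _) (by positivity)
          (by positivity)
        apply mul_le_mul (d_le_pow hH) _ (by positivity) (by positivity)
        exact mul_le_mul (fact_le_pow hH) (pow_le_pow_left₀ (by positivity) h1 _) (by positivity)
          (by positivity)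
    _ = _ := by
      rw [← pow_mul, ← pow_add, ← pow_add, ← pow_add]
      congr 1
      ring

include hH in
lemma cS_le : cS d H ≤ (2 + H) ^ (d + 1) := by
  unfold cS
  rw [pow_succ, mul_comm]
  exact mul_le_mul (pow_le_pow_left₀ (by linarith) (by linarith) _) (by linarith) (by linarith)
    (by positivity)

include hd hH in
lemma inv_cR_le : 1 / cR d H ≤ (2 + H) ^ (3 * d ^ 2 + 5 * d + 2) := by
  have hD := one_le_cD hd hH
  have hS := one_le_cS (d := d) hH
  unfold cR
  rw [one_div_one_div]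
  calc 2 * cD d H * (d + 1) * cS d H ≤
      (2 + H) * (2 + H) ^ (3 * d ^ 2 + 3 * d) * (2 + H) ^ d * (2 + H) ^ (d + 1) := by
        apply mul_le_mul _ (cS_le hH) (by linarith) (by positivity)
        apply mul_le_mul _ (d1_le_pow hd hH) (by positivity) (by positivity)
        exact mul_le_mul (by linarith) (cD_le hH) (by linarith) (by linarith)
    _ = _ := by ring

include hd hH in
lemma cB_le : cB d H ≤ (2 + H) ^ (64 * d ^ 2) := by
  have hD := one_le_cD hd hH
  have hT := two_add_le_cT hd hH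
  have hR := cR_pos hd hH
  have hK1 : 1 ≤ 2 + H := by linarith
  unfold cB
  calc 4 * cT d H ^ 2 * (2 * cD d H ^ 2) * (1 / cR d H)
      = 8 * cT d H ^ 2 * cD d H ^ 2 * (1 / cR d H) := by ring
    _ ≤ (2 + H) ^ 2 * ((2 + H) ^ ((2 * d + 1) * (3 * (d + 1)) + (d + 1))) ^ 2 *
        ((2 + H) ^ (3 * d ^ 2 + 3 * d)) ^ 2 * (2 + H) ^ (3 * d ^ 2 + 5 * d + 2) := by
        apply mul_le_mul _ (inv_cR_le hd hH) (by positivity) (by positivity)
        apply mul_le_mul _ (pow_le_pow_left₀ (by linarith) (cD_le hH) _) (by positivity)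
          (by positivity)
        apply mul_le_mul _ (pow_le_pow_left₀ (by linarith) (cT_le hd hH) _) (by positivity)
          (by positivity)
        nlinarith
    _ = (2 + H) ^ (21 * d ^ 2 + 31 * d + 12) := by
        rw [← pow_mul, ← pow_mul, ← pow_add, ← pow_add, ← pow_add]
        congr 1
        ring
    _ ≤ _ := by
        apply pow_le_pow_right₀ hK1
        have : 1 ≤ d := hd
        nlinarith

include hd hH in
lemma thr_le : cS d H * (2 / cR d H) ^ d ≤ (2 + H) ^ (128 * d ^ 3) := by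
  have hR := cR_pos hd hH
  have hK1 : 1 ≤ 2 + H := by linarith
  have h1 : 2 / cR d H ≤ (2 + H) ^ (3 * d ^ 2 + 5 * d + 3) := by
    rw [pow_succ]
    calc 2 / cR d H = (1 / cR d H) * 2 := by ring
      _ ≤ _ := mul_le_mul (inv_cR_le hd hH) (by linarith) (by norm_num) (by positivity)
  calc cS d H * (2 / cR d H) ^ d
      ≤ (2 + H) ^ (d + 1) * ((2 + H) ^ (3 * d ^ 2 + 5 * d + 3)) ^ d :=
        mul_le_mul (cS_le hH) (pow_le_pow_left₀ (by positivity) h1 _) (by positivity)
          (by positivity)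
    _ = (2 + H) ^ (d + 1 + (3 * d ^ 2 + 5 * d + 3) * d) := by rw [← pow_mul, ← pow_add]
    _ ≤ _ := by
        apply pow_le_pow_right₀ hK1
        have h2 : 1 ≤ d := hd
        have h3 : d ≤ d ^ 3 := Nat.le_self_pow (by norm_num) d
        have h4 : d ^ 2 ≤ d ^ 3 := Nat.pow_le_pow_right h2 (by norm_num)
        have h5 : (3 * d ^ 2 + 5 * d + 3) * d = 3 * d ^ 3 + 5 * d ^ 2 + 3 * d := by ring
        rw [h5]
        omega

/-- the size of the branch data -/
noncomputable def bB (d : ℕ) (H : ℝ) : ℝ := (2 + H) ^ (64 * d ^ 2)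

include hd hH in
lemma bB_sq_le : bB d H ^ 2 ≤ (2 + H) ^ (128 * d ^ 3) := by
  unfold bB
  rw [← pow_mul]
  apply pow_le_pow_right₀ (by linarith)
  have h4 : d ^ 2 ≤ d ^ 3 := Nat.pow_le_pow_right hd (by norm_num)
  omega

end

end Pool.Agent.H322R2
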