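import Pool.Agent.H322R2.RedC

/-!
Flexes at infinity.
-/

open Polynomial Finset

namespace Pool.Agent.H322R2

lemma eval₂_shE {S : Type*} [CommRing S] (u : ℤ) (x y : S) (F : MvPolynomial (Fin 2) ℤ) :
    MvPolynomial.eval₂ (Int.castRingHom S) ![x, y] (shE ℤ u F)
      = MvPolynomial.eval₂ (Int.castRingHom S) ![x, y + u * x] F := by
  have hu : MvPolynomial.eval₂ (Int.castRingHom S) ![x, y] ((u : ℤ) : MvPolynomial (Fin 2) ℤ)
      = (u : S) := by
    rw [← MvPolynomial.coe_eval₂Hom]; exact map_intCast _ _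
  have : (MvPolynomial.eval₂Hom (Int.castRingHom S) ![x, y]).comp
      (shE ℤ u : MvPolynomial (Fin 2) ℤ →+* MvPolynomial (Fin 2) ℤ)
      = MvPolynomial.eval₂Hom (Int.castRingHom S) ![x, y + u * x] := by
    apply MvPolynomial.ringHom_ext
    · intro r
      simp [shE_apply]
    · intro i
      fin_cases i
      · simp [shE_apply]
      · simp [shE_apply, hu]
  exact congrArg (fun f : MvPolynomial (Fin 2) ℤ →+* S => f F) this

lemma dvd_line {d : ℕ} {G : ℤ[X][X]} {η : ℝ} (hd : 3 ≤ d) (hT : TD d G)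
    (hη : evf η (lead d G) = 0) (hD0 : evf η (derivative (lead d G)) ≠ 0)
    (hγ : gam d G η = 0) :
    X ^ 3 ∣ ev (X : ℝ[X]) (C η + X * C (bet d G η)) (hmg d G) := by
  have hPn : (hmg d G).natDegree < d + 1 := by have := natDegree_hmg d G; omega
  have hPm : ∀ j, ((hmg d G).coeff j).natDegree < d + 1 := fun j => by
    have := natDegree_coeff_hmg hT j; omega
  have h1 := ev_taylor (C : ℝ →+* ℝ[X]) (hmg d G) (d + 1) (d + 1) hPn hPm 0 η X
    (X * C (bet d G η))
  rw [map_zero, zero_add] at h1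
  rw [h1]
  have hsub : range 3 ×ˢ range 3 ⊆ range (d + 1) ×ˢ range (d + 1) := by
    apply Finset.product_subset_product
    · intro i hi; rw [Finset.mem_range] at hi ⊢; omega
    · intro i hi; rw [Finset.mem_range] at hi ⊢; omega
  rw [← Finset.sum_sdiff hsub]
  apply dvd_add
  · apply Finset.dvd_sum
    intro p hp
    rw [Finset.mem_sdiff, Finset.mem_product, Finset.mem_product, Finset.mem_range,
      Finset.mem_range, Finset.mem_range, Finset.mem_range] at hp
    have h4 : 3 ≤ p.1 + p.2 := by omega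
    have h5 : C (tay (hmg d G) (d + 1) (d + 1) 0 η p) * X ^ p.1 * (X * C (bet d G η)) ^ p.2
        = X ^ (p.1 + p.2) * (C (tay (hmg d G) (d + 1) (d + 1) 0 η p) * C (bet d G η) ^ p.2) := by
      rw [mul_pow, pow_add]; ring
    rw [h5]
    exact Dvd.dvd.mul_right (pow_dvd_pow _ h4) _
  · obtain ⟨τ, hτ⟩ : ∃ τ : ℕ → ℕ → ℝ, τ = fun p q => tay (hmg d G) (d + 1) (d + 1) 0 η (p, q) :=
      ⟨_, rfl⟩
    have hτ' : ∀ p q, tay (hmg d G) (d + 1) (d + 1) 0 η (p, q) = τ p q := by
      intro p q; rw [hτ]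
    have h00 : τ 0 0 = 0 := by
      rw [← hτ', tay_zero _ _ _ hPn hPm, ev_zero_hmg, hη]
    have h01 : τ 0 1 ≠ 0 := by
      rw [← hτ', tay01 (by omega) hT]; exact hD0
    have r1 : τ 0 1 * bet d G η + τ 1 0 = 0 := by
      rw [bet, tc, hτ', hτ']; field_simp; ring
    have r2 : (τ 0 2 * bet d G η ^ 2 + τ 1 1 * bet d G η + τ 2 0) = 0 := by
      have r2' : τ 0 1 * gam d G η + (τ 0 2 * bet d G η ^ 2 + τ 1 1 * bet d G η + τ 2 0) = 0 := by
        rw [gam, tc, tc, tc, hτ', hτ', hτ', hτ']; field_simp; ring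
      rw [hγ, mul_zero, zero_add] at r2'
      exact r2'
    have s1 := congrArg (C : ℝ → ℝ[X]) r1
    have s2 := congrArg (C : ℝ → ℝ[X]) r2
    simp only [map_add, map_mul, map_pow, map_zero] at s1 s2
    simp only [Finset.sum_product, Finset.sum_range_succ, Finset.sum_range_zero, hτ', h00,
      map_zero]
    refine ⟨C (τ 1 2) * C (bet d G η) ^ 2 + C (τ 2 1) * C (bet d G η)
      + C (τ 2 2) * X * C (bet d G η) ^ 2, ?_⟩
    linear_combination X * s1 + X ^ 2 * s2

lemma natDegree_line {d : ℕ} {G : ℤ[X][X]} {η : ℝ} (hd : 4 ≤ d) (hT : TD d G)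
    (hη : evf η (lead d G) = 0) (hD0 : evf η (derivative (lead d G)) ≠ 0)
    (hγ : gam d G η = 0) :
    ¬ d ≤ (ev (X : ℝ[X]) (C η * X + C (bet d G η)) G).natDegree + 2 := by
  intro hcon
  obtain ⟨W, hW⟩ := dvd_line (by omega) hT hη hD0 hγ
  obtain ⟨L, hL⟩ : ∃ L, L = ev (X : ℝ[X]) (C η * X + C (bet d G η)) G := ⟨_, rfl⟩
  rw [← hL] at hcon
  obtain ⟨n, hn⟩ : ∃ n, n = W.natDegree := ⟨_, rfl⟩
  have hid : L * X ^ (3 + n) = X ^ d * reflect n W := by
    apply Polynomial.funext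
    intro x
    by_cases hx : x = 0
    · rw [hx]
      simp only [eval_mul, eval_pow, eval_X]
      rw [zero_pow (by omega), zero_pow (by omega), mul_zero, zero_mul]
    · have h1 : L.eval x = ev x (η * x + bet d G η) G := by
        have h3 := map_ev (evalRingHom x) (X : ℝ[X]) (C η * X + C (bet d G η)) G
        simp only [coe_evalRingHom, eval_X, eval_add, eval_C, eval_mul] at h3
        rw [hL, h3]
      have h2 : (X ^ 3 * W).eval x⁻¹ = ev x⁻¹ (η + x⁻¹ * bet d G η) (hmg d G) := by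
        have h3 := map_ev (evalRingHom x⁻¹) (X : ℝ[X]) (C η + X * C (bet d G η)) (hmg d G)
        simp only [coe_evalRingHom, eval_X, eval_add, eval_C, eval_mul] at h3
        rw [← hW, h3]
      have h3 := ev_hmg (x := x) (z := x⁻¹) (η + x⁻¹ * bet d G η) (mul_inv_cancel₀ hx) hT
      have h4 : x * (η + x⁻¹ * bet d G η) = η * x + bet d G η := by field_simp
      rw [h4, ← h1, ← h2] at h3
      have : Invertible (x⁻¹ : ℝ) := invertibleOfNonzero (inv_ne_zero hx)
      have h5 := eval₂_reflect_mul_pow (RingHom.id ℝ) (x⁻¹) n W hn.ge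
      rw [invOf_eq_inv, inv_inv] at h5
      have h6 : (reflect n W).eval x * (x⁻¹) ^ n = W.eval x⁻¹ := h5
      rw [eval_mul, eval_mul, eval_pow, eval_pow, eval_X, h3, eval_mul, eval_pow, eval_X, ← h6]
      have e1 : (x⁻¹) ^ 3 * (x⁻¹) ^ n * x ^ (3 + n) = 1 := by
        rw [← pow_add, ← mul_pow, inv_mul_cancel₀ hx, one_pow]
      linear_combination (x ^ d * (reflect n W).eval x) * e1
  have hL0 : L ≠ 0 := by
    rintro h0
    rw [h0, natDegree_zero] at hcon
    omega
  have h7 := congrArg natDegree hid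
  rw [natDegree_mul hL0 (pow_ne_zero _ X_ne_zero), natDegree_X_pow] at h7
  have h8 : (X ^ d * reflect n W).natDegree ≤ d + n := by
    refine natDegree_mul_le.trans ?_
    rw [natDegree_X_pow]
    have := natDegree_reflect_le (N := n) (p := W)
    omega
  omega

theorem flex_of_lines {F : MvPolynomial (Fin 2) ℤ} {u : ℕ} (hc : lc F u ≠ 0)
    (hd : 4 ≤ F.totalDegree)
    (hlines : ∀ p q : Fin 2 → ℝ, q ≠ 0 → F.totalDegree ≤
      (MvPolynomial.aeval (fun i => (C (p i) + C (q i) * X : ℝ[X])) F).natDegree + 2)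
    (η : ℝ) (hη : evf η (lead F.totalDegree (GG F u)) = 0)
    (hD0 : evf η (derivative (lead F.totalDegree (GG F u))) ≠ 0) :
    evf η (gp F.totalDegree (GG F u)) ≠ 0 := by
  intro h0
  obtain ⟨d, hdd⟩ : ∃ d, d = F.totalDegree := ⟨_, rfl⟩
  obtain ⟨G, hG⟩ : ∃ G, G = GG F u := ⟨_, rfl⟩
  have hT : TD d G := by rw [hdd, hG]; exact GG_TD hc
  rw [← hG, ← hdd] at hη hD0 h0
  have hγ : gam d G η = 0 := by
    rw [evf_gp (by omega) hT η hD0, neg_eq_zero] at h0
    rcases mul_eq_zero.1 h0 with h | h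
    · rcases mul_eq_zero.1 h with h | h
      · norm_num at h
      · exact absurd h (pow_ne_zero _ hD0)
    · exact h
  apply natDegree_line (by omega) hT hη hD0 hγ
  obtain ⟨β, hβ⟩ : ∃ β, β = bet d G η := ⟨_, rfl⟩
  rw [← hβ]
  obtain ⟨c, hcdef⟩ : ∃ c : ℝ, c = ((lc F u : ℤ) : ℝ) := ⟨_, rfl⟩
  have hc0 : c ≠ 0 := by rw [hcdef]; exact_mod_cast hc
  obtain ⟨x, hx⟩ : ∃ x : ℝ[X], x = C (η / c) * X + C (β / c) := ⟨_, rfl⟩
  have hcx : C c * x = C η * X + C (β) := by
    rw [hx, mul_add, ← mul_assoc, ← map_mul, ← map_mul]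
    congr 3
    · field_simp
    · field_simp
  have h1 := integralNormalization_eval₂_leadingCoeff_mul (p := F2 F u)
    (by rw [F2_natDegree hc]; omega) (evf (X : ℝ[X])) x
  rw [F2_leadingCoeff hc, evf_C, F2_natDegree hc] at h1
  have hcast : ((lc F u : ℤ) : ℝ[X]) = C c := by rw [hcdef]; simp
  rw [hcast, hcx] at h1
  have h2 : ev (X : ℝ[X]) (C η * X + C (β)) G = C c ^ (d - 1) *
      MvPolynomial.aeval (fun i => (C (![β / c, u * (β / c)] i)
        + C (![η / c, 1 + u * (η / c)] i) * X : ℝ[X])) F := by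
    have h3 := ev_toB (S := ℝ[X]) x X (shE ℤ u F)
    rw [eval₂_shE] at h3
    have h4 : MvPolynomial.aeval (fun i => (C (![β / c, u * (β / c)] i)
        + C (![η / c, 1 + u * (η / c)] i) * X : ℝ[X])) F
        = MvPolynomial.eval₂ (Int.castRingHom ℝ[X]) ![x, X + ((u : ℤ) : ℝ[X]) * x] F := by
      rw [MvPolynomial.aeval_def]
      congr 1
      funext i
      fin_cases i
      · simp [hx]; ring
      · simp [hx]; ring
    rw [h4, ← h3, hG, hdd, ev_apply]
    exact h1
  have h5 := hlines ![β / c, u * (β / c)] ![η / c, 1 + u * (η / c)] (by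
    intro h6
    have h7 := congrFun h6 0
    have h8 := congrFun h6 1
    simp only [Matrix.cons_val_zero, Matrix.cons_val_one, Pi.zero_apply] at h7 h8
    rw [h7] at h8
    simp at h8)
  rw [h2, ← map_pow, natDegree_C_mul (pow_ne_zero _ hc0), hdd]
  exact h5

end Pool.Agent.H322R2
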