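import Pool.Agent.H322R2.AsmF

/-!
Counting polynomials with bounded coefficients and a prescribed value at a point, by digits.
-/

open Polynomial Finset

namespace Pool.Agent.H322R2

lemma res_card (H : ℕ) (x v : ℤ) (hx : x ≠ 0) :
    ((Icc (-(H : ℤ)) H).filter (fun z => x ∣ v - z)).card ≤ 2 * H / x.natAbs + 1 := by
  have hm : 0 < x.natAbs := Int.natAbs_pos.2 hx
  rw [← Finset.card_range (2 * H / x.natAbs + 1)]
  apply Finset.card_le_card_of_injOn (fun z : ℤ => ((z + H).toNat) / x.natAbs)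
  · intro z hz
    rw [Finset.mem_coe, Finset.mem_filter, Finset.mem_Icc] at hz
    rw [Finset.mem_coe, Finset.mem_range]
    apply Nat.lt_succ_of_le
    apply Nat.div_le_div_right
    omega
  · intro z hz z' hz' h
    rw [Finset.mem_coe, Finset.mem_filter, Finset.mem_Icc] at hz hz'
    simp only at h
    have h1 : ((x.natAbs : ℕ) : ℤ) ∣ (z' + H) - (z + H) := by
      rw [Int.natAbs_dvd]
      have e : (z' + H) - (z + H) = (v - z) - (v - z') := by ring
      rw [e]; exact dvd_sub hz.2 hz'.2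
    have h2 : (z + H).toNat % x.natAbs = (z' + H).toNat % x.natAbs := by
      have h3 : ((z + H).toNat : ℤ) ≡ ((z' + H).toNat : ℤ) [ZMOD (x.natAbs : ℤ)] := by
        rw [Int.toNat_of_nonneg (by omega), Int.toNat_of_nonneg (by omega)]
        exact Int.modEq_iff_dvd.2 h1
      exact Int.natCast_modEq_iff.1 h3
    have h4 := Nat.div_add_mod (z + H).toNat x.natAbs
    have h5 := Nat.div_add_mod (z' + H).toNat x.natAbs
    rw [h, h2] at h4
    omega

lemma dig_card (H : ℕ) {x : ℤ} (hx : x ≠ 0) (e : ℕ) (v : ℤ) :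
    ((Bx (Fin (e + 1)) H).filter (fun c => ∑ i : Fin (e + 1), c i * x ^ (i : ℕ) = v)).card
      ≤ (2 * H / x.natAbs + 1) ^ e := by
  classical
  induction e generalizing v with
  | zero =>
    rw [pow_zero, Finset.card_le_one]
    intro c hc c' hc'
    rw [Finset.mem_filter] at hc hc'
    have h1 := hc.2
    have h2 := hc'.2
    simp at h1 h2
    funext i
    fin_cases i
    simp only [Fin.zero_eta, Fin.isValue]
    rw [h1, h2]
  | succ e ih =>
    have h1 := Finset.card_le_mul_card_image_of_maps_to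
      (s := (Bx (Fin (e + 1 + 1)) H).filter (fun c => ∑ i : Fin (e + 1 + 1), c i * x ^ (i : ℕ) = v))
      (t := (Icc (-(H : ℤ)) H).filter (fun z => x ∣ v - z))
      (f := fun c => c 0) (by
        intro c hc
        rw [Finset.mem_filter] at hc ⊢
        refine ⟨by rw [Finset.mem_Icc]; exact abs_le.1 (mem_Bx.1 hc.1 0), ?_⟩
        rw [← hc.2, Fin.sum_univ_succ]
        simp only [Fin.val_zero, pow_zero, mul_one, add_sub_cancel_left]
        apply Finset.dvd_sum
        intro i _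
        rw [Fin.val_succ, pow_succ]
        exact ⟨c i.succ * x ^ (i : ℕ), by ring⟩) ((2 * H / x.natAbs + 1) ^ e) (by
        intro z hz
        rw [Finset.mem_filter] at hz
        obtain ⟨w, hw⟩ := hz.2
        refine le_trans ?_ (ih w)
        apply Finset.card_le_card_of_injOn (fun c => fun i : Fin (e + 1) => c i.succ)
        · intro c hc
          rw [Finset.mem_coe, Finset.mem_filter, Finset.mem_filter] at hc
          rw [Finset.mem_coe, Finset.mem_filter]
          obtain ⟨⟨h1, h2⟩, h3⟩ := hc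
          refine ⟨?_, ?_⟩
          · rw [mem_Bx]; intro i; exact mem_Bx.1 h1 i.succ
          · rw [Fin.sum_univ_succ, h3] at h2
            simp only [Fin.val_zero, pow_zero, mul_one] at h2
            have h4 : x * ∑ i : Fin (e + 1), c i.succ * x ^ (i : ℕ) = x * w := by
              rw [← hw, ← h2, add_sub_cancel_left, Finset.mul_sum]
              apply Finset.sum_congr rfl
              intro i _
              rw [Fin.val_succ, pow_succ]; ring
            exact mul_left_cancel₀ hx h4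
        · intro c hc c' hc' h
          rw [Finset.mem_coe, Finset.mem_filter] at hc hc'
          simp only at h
          funext i
          refine Fin.cases ?_ (fun j => ?_) i
          · rw [hc.2, hc'.2]
          · exact congrFun h j)
    refine h1.trans ?_
    rw [pow_succ]
    exact Nat.mul_le_mul_left _ (res_card H x v hx)

lemma lin_card {ι : Type*} [Fintype ι] [DecidableEq ι] (H : ℕ) {x : ℤ} (hx : x ≠ 0) (e : ℕ)
    (κ : Fin (e + 1) → ι) (hκ : Function.Injective κ) (w : ι → ℤ)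
    (hw : ∀ i, w (κ i) = x ^ (i : ℕ)) (v : ℤ) :
    ((Bx ι H).filter (fun c => ∑ p, c p * w p = v)).card
      ≤ (2 * H + 1) ^ (Fintype.card ι - (e + 1)) * (2 * H / x.natAbs + 1) ^ e := by
  classical
  obtain ⟨R, hR⟩ : ∃ R : Finset ι, R = Finset.univ.image κ := ⟨_, rfl⟩
  have hRc : R.card = e + 1 := by
    rw [hR, Finset.card_image_of_injective _ hκ, Finset.card_univ, Fintype.card_fin]
  have hcompl : Fintype.card ↥(Rᶜ) = Fintype.card ι - (e + 1) := by
    rw [Fintype.card_coe, Finset.card_compl, hRc]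
  have hsplit : ∀ c : ι → ℤ, ∑ p, c p * w p = ∑ i : Fin (e + 1), c (κ i) * x ^ (i : ℕ)
      + ∑ p : ↥(Rᶜ), c p.1 * w p.1 := by
    intro c
    rw [← Finset.sum_add_sum_compl R, Finset.sum_coe_sort (Rᶜ) (fun p => c p * w p)]
    congr 1
    rw [hR, Finset.sum_image (fun i _ j _ h => hκ h)]
    apply Finset.sum_congr rfl
    intro i _
    rw [hw]
  have h1 := Finset.card_le_mul_card_image_of_maps_to
    (s := (Bx ι H).filter (fun c => ∑ p, c p * w p = v)) (t := Bx ↥(Rᶜ) H)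
    (f := fun c => fun p : ↥(Rᶜ) => c p.1) (by
      intro c hc
      rw [Finset.mem_filter] at hc
      rw [mem_Bx]
      intro p
      exact mem_Bx.1 hc.1 p.1) ((2 * H / x.natAbs + 1) ^ e) (by
      intro r _
      refine le_trans ?_ (dig_card H hx e (v - ∑ p : ↥(Rᶜ), r p * w p.1))
      apply Finset.card_le_card_of_injOn (fun c => fun i => c (κ i))
      · intro c hc
        rw [Finset.mem_coe, Finset.mem_filter, Finset.mem_filter] at hc
        rw [Finset.mem_coe, Finset.mem_filter]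
        obtain ⟨⟨h1, h2⟩, h3⟩ := hc
        refine ⟨?_, ?_⟩
        · rw [mem_Bx]; intro i; exact mem_Bx.1 h1 (κ i)
        · simp only
          rw [hsplit] at h2
          rw [← h2, ← h3]
          ring
      · intro c hc c' hc' h
        rw [Finset.mem_coe, Finset.mem_filter] at hc hc'
        simp only at h
        funext p
        by_cases hp : p ∈ R
        · rw [hR, Finset.mem_image] at hp
          obtain ⟨i, _, rfl⟩ := hp
          exact congrFun h i
        · have e1 := congrFun hc.2 ⟨p, Finset.mem_compl.2 hp⟩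
          have e2 := congrFun hc'.2 ⟨p, Finset.mem_compl.2 hp⟩
          simp only at e1 e2
          rw [e1, e2])
  rw [card_Bx, hcompl] at h1
  rw [mul_comm]
  exact h1

variable {e : ℕ}

/-- vectors with a prescribed value at a point -/
noncomputable def Bpt (e H : ℕ) (P : ℤ × ℤ) (v : ℤ) : Finset (↥(Ix e) → ℤ) :=
  (Bx ↥(Ix e) H).filter (fun c => ev P.1 P.2 (PG c) = v)

lemma Bpt_x (H : ℕ) (P : ℤ × ℤ) (v : ℤ) (hx : P.1 ≠ 0) :
    (Bpt e H P v).card ≤ (2 * H + 1) ^ ((Ix e).card - (e + 1)) * (2 * H / P.1.natAbs + 1) ^ e := by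
  have h1 := lin_card (ι := ↥(Ix e)) H hx e
    (fun i => ⟨(0, (i : ℕ)), mem_Ix.2 (by have := i.2; simp only; omega)⟩)
    (by
      intro i j h
      have := congrArg (fun p : ↥(Ix e) => p.1.2) h
      exact Fin.ext this)
    (fun p => P.1 ^ p.1.2 * P.2 ^ p.1.1) (by intro i; simp) v
  rw [Fintype.card_coe] at h1
  refine le_trans (le_of_eq ?_) h1
  unfold Bpt
  congr 1
  apply Finset.filter_congr
  intro c _
  rw [ev_PG_sum]
  constructor
  · intro h; rw [← h]; apply Finset.sum_congr rfl; intro p _; ring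
  · intro h; rw [← h]; apply Finset.sum_congr rfl; intro p _; ring

lemma Bpt_y (H : ℕ) (P : ℤ × ℤ) (v : ℤ) (hy : P.2 ≠ 0) :
    (Bpt e H P v).card ≤ (2 * H + 1) ^ ((Ix e).card - (e + 1)) * (2 * H / P.2.natAbs + 1) ^ e := by
  have h1 := lin_card (ι := ↥(Ix e)) H hy e
    (fun i => ⟨((i : ℕ), 0), mem_Ix.2 (by have := i.2; simp only; omega)⟩)
    (by
      intro i j h
      have := congrArg (fun p : ↥(Ix e) => p.1.1) h
      exact Fin.ext this)
    (fun p => P.1 ^ p.1.2 * P.2 ^ p.1.1) (by intro i; simp) v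
  rw [Fintype.card_coe] at h1
  refine le_trans (le_of_eq ?_) h1
  unfold Bpt
  congr 1
  apply Finset.filter_congr
  intro c _
  rw [ev_PG_sum]
  constructor
  · intro h; rw [← h]; apply Finset.sum_congr rfl; intro p _; ring
  · intro h; rw [← h]; apply Finset.sum_congr rfl; intro p _; ring

lemma Bpt_zero (H : ℕ) (v : ℤ) : (Bpt e H (0, 0) v).card ≤ (2 * H + 1) ^ ((Ix e).card - 1) := by
  have h1 := lin_card (ι := ↥(Ix e)) H (one_ne_zero (α := ℤ)) 0
    (fun _ => ⟨(0, 0), mem_Ix.2 (by simp)⟩)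
    (by
      intro i j h
      exact Fin.ext (by have := i.2; have := j.2; omega))
    (fun p => (0 : ℤ) ^ p.1.2 * 0 ^ p.1.1) (by intro i; simp) v
  rw [Fintype.card_coe, pow_zero, mul_one] at h1
  refine le_trans (le_of_eq ?_) h1
  unfold Bpt
  congr 1
  apply Finset.filter_congr
  intro c _
  rw [ev_PG_sum]
  constructor
  · intro h; rw [← h]; apply Finset.sum_congr rfl; intro p _; ring
  · intro h; rw [← h]; apply Finset.sum_congr rfl; intro p _; ring

lemma Bpt_big (H : ℕ) (P : ℤ × ℤ) (v : ℤ) (h : 2 * H < max P.1.natAbs P.2.natAbs) :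
    (Bpt e H P v).card ≤ (2 * H + 1) ^ ((Ix e).card - (e + 1)) := by
  rcases lt_max_iff.1 h with h1 | h1
  · have h2 := Bpt_x (e := e) H P v (Int.natAbs_pos.1 (by omega))
    rw [Nat.div_eq_of_lt h1, zero_add, one_pow, mul_one] at h2
    exact h2
  · have h2 := Bpt_y (e := e) H P v (Int.natAbs_pos.1 (by omega))
    rw [Nat.div_eq_of_lt h1, zero_add, one_pow, mul_one] at h2
    exact h2

lemma card_Ix_ge (e : ℕ) : e + 1 ≤ (Ix e).card := by
  have h : ((range (e + 1)).image (fun i : ℕ => ((0 : ℕ), i))) ⊆ Ix e := by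
    intro p hp
    rw [Finset.mem_image] at hp
    obtain ⟨i, hi, rfl⟩ := hp
    rw [Finset.mem_range] at hi
    rw [mem_Ix]; simp only; omega
  have h1 := Finset.card_le_card h
  rw [Finset.card_image_of_injective _ (fun i j h => (Prod.mk.inj h).2), Finset.card_range] at h1
  exact h1

/-- weight of a row -/
lemma row_le (he : 3 ≤ e) (H m : ℕ) (hm : 1 ≤ m) (hmH : m ≤ 2 * H) :
    ((2 * (2 * m + 1) * (2 * H / m + 1) ^ e : ℕ) : ℝ) ≤ 6 * (4 * (H : ℝ)) ^ e * ((m : ℝ) ^ 2)⁻¹ := by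
  have hm0 : (0 : ℝ) < m := by exact_mod_cast hm
  have hm1 : (1 : ℝ) ≤ m := by exact_mod_cast hm
  have h1 : (((2 * H / m : ℕ) : ℝ) + 1) ≤ 4 * H / m := by
    have h2 : ((2 * H / m : ℕ) : ℝ) ≤ ((2 * H : ℕ) : ℝ) / m := Nat.cast_div_le
    have h3 : (1 : ℝ) ≤ ((2 * H : ℕ) : ℝ) / m := by
      rw [le_div_iff₀ hm0, one_mul]; exact_mod_cast hmH
    have h4 : 4 * (H : ℝ) / m = ((2 * H : ℕ) : ℝ) / m + ((2 * H : ℕ) : ℝ) / m := by
      push_cast; ring
    rw [h4]; linarith
  have h2 : (2 * (2 * (m : ℝ) + 1)) ≤ 6 * m := by linarith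
  push_cast
  calc 2 * (2 * (m : ℝ) + 1) * (((2 * H / m : ℕ) : ℝ) + 1) ^ e ≤ 6 * m * (4 * H / m) ^ e := by
        apply mul_le_mul h2 (pow_le_pow_left₀ (by positivity) h1 e) (by positivity) (by positivity)
    _ = 6 * (4 * (H : ℝ)) ^ e * ((m : ℝ) / (m : ℝ) ^ e) := by rw [div_pow]; ring
    _ ≤ 6 * (4 * (H : ℝ)) ^ e * ((m : ℝ) ^ 2)⁻¹ := by
        apply mul_le_mul_of_nonneg_left _ (by positivity)
        rw [div_le_iff₀ (by positivity), ← div_eq_inv_mul, le_div_iff₀ (by positivity)]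
        calc (m : ℝ) * (m : ℝ) ^ 2 = (m : ℝ) ^ 3 := by ring
          _ ≤ _ := pow_le_pow_right₀ hm1 he

open Classical in
theorem small_pts (he : 3 ≤ e) (H : ℕ) (v : ℤ × ℤ → ℤ) :
    ((((Bx ↥(Ix e) H).filter (fun c => ∃ P : ℤ × ℤ, max P.1.natAbs P.2.natAbs ≤ 2 * H ∧
      ev P.1 P.2 (PG c) = v P)).card : ℕ) : ℝ)
      ≤ 25 * 2 ^ e * (2 * (H : ℝ) + 1) ^ ((Ix e).card - 1) := by
  obtain ⟨n, hn⟩ : ∃ n, n = (Ix e).card := ⟨_, rfl⟩
  have hne : e + 1 ≤ n := by rw [hn]; exact card_Ix_ge e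
  obtain ⟨B, hB⟩ : ∃ B, B = ((Bx ↥(Ix e) H).filter (fun c => ∃ P : ℤ × ℤ,
    max P.1.natAbs P.2.natAbs ≤ 2 * H ∧ ev P.1 P.2 (PG c) = v P)) := ⟨_, rfl⟩
  obtain ⟨U, hU⟩ : ∃ U : ℕ → Finset (↥(Ix e) → ℤ), U = fun m : ℕ =>
    (({(m : ℤ), -(m : ℤ)} : Finset ℤ) ×ˢ Icc (-(m : ℤ)) m).biUnion (fun P => Bpt e H P (v P)) :=
    ⟨_, rfl⟩
  obtain ⟨U', hU'⟩ : ∃ U' : ℕ → Finset (↥(Ix e) → ℤ), U' = fun m : ℕ =>
    (Icc (-(m : ℤ)) m ×ˢ ({(m : ℤ), -(m : ℤ)} : Finset ℤ)).biUnion (fun P => Bpt e H P (v P)) :=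
    ⟨_, rfl⟩
  have hsub : B ⊆ Bpt e H (0, 0) (v (0, 0)) ∪ ((Ioo 0 (2 * H + 1)).biUnion U ∪
      (Ioo 0 (2 * H + 1)).biUnion U') := by
    intro c hc
    rw [hB, Finset.mem_filter] at hc
    obtain ⟨hc1, P, hP1, hP2⟩ := hc
    have hmem : c ∈ Bpt e H P (v P) := by
      rw [Bpt, Finset.mem_filter]; exact ⟨hc1, hP2⟩
    rw [Finset.mem_union, Finset.mem_union]
    by_cases h0 : P = (0, 0)
    · left; rw [← h0]; exact hmem
    · right
      have hpos : 0 < max P.1.natAbs P.2.natAbs := by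
        by_contra hcon
        apply h0
        apply Prod.ext
        · simp only; omega
        · simp only; omega
      rcases le_total P.2.natAbs P.1.natAbs with h | h
      · left
        rw [Finset.mem_biUnion]
        refine ⟨P.1.natAbs, by rw [Finset.mem_Ioo]; omega, ?_⟩
        rw [hU, Finset.mem_biUnion]
        refine ⟨P, ?_, hmem⟩
        rw [Finset.mem_product, Finset.mem_insert, Finset.mem_singleton, Finset.mem_Icc]
        constructor
        · omega
        · constructor <;> omega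
      · right
        rw [Finset.mem_biUnion]
        refine ⟨P.2.natAbs, by rw [Finset.mem_Ioo]; omega, ?_⟩
        rw [hU', Finset.mem_biUnion]
        refine ⟨P, ?_, hmem⟩
        rw [Finset.mem_product, Finset.mem_insert, Finset.mem_singleton, Finset.mem_Icc]
        constructor
        · constructor <;> omega
        · omega
  have hpm : ∀ m : ℕ, (({(m : ℤ), -(m : ℤ)} : Finset ℤ)).card ≤ 2 := fun m => Finset.card_le_two
  have hIcc : ∀ m : ℕ, (Icc (-(m : ℤ)) m).card = 2 * m + 1 := card_Icc_H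
  have hUm : ∀ m ∈ Ioo 0 (2 * H + 1), (U m).card
      ≤ (2 * (2 * m + 1) * (2 * H / m + 1) ^ e) * (2 * H + 1) ^ (n - (e + 1)) := by
    intro m hm
    rw [Finset.mem_Ioo] at hm
    rw [hU]
    refine Finset.card_biUnion_le.trans ?_
    refine (Finset.sum_le_card_nsmul _ _ ((2 * H + 1) ^ (n - (e + 1)) * (2 * H / m + 1) ^ e) ?_).trans ?_
    · intro P hP
      rw [Finset.mem_product, Finset.mem_insert, Finset.mem_singleton] at hP
      have h1 : P.1.natAbs = m := by omega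
      have h2 := Bpt_x (e := e) H P (v P) (Int.natAbs_pos.1 (by omega))
      rw [h1, ← hn] at h2
      exact h2
    · rw [Finset.card_product, hIcc, smul_eq_mul]
      calc (({(m : ℤ), -(m : ℤ)} : Finset ℤ)).card * (2 * m + 1) *
            ((2 * H + 1) ^ (n - (e + 1)) * (2 * H / m + 1) ^ e)
          ≤ 2 * (2 * m + 1) * ((2 * H + 1) ^ (n - (e + 1)) * (2 * H / m + 1) ^ e) :=
            Nat.mul_le_mul_right _ (Nat.mul_le_mul_right _ (hpm m))
        _ = _ := by ring
  have hUm' : ∀ m ∈ Ioo 0 (2 * H + 1), (U' m).card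
      ≤ (2 * (2 * m + 1) * (2 * H / m + 1) ^ e) * (2 * H + 1) ^ (n - (e + 1)) := by
    intro m hm
    rw [Finset.mem_Ioo] at hm
    rw [hU']
    refine Finset.card_biUnion_le.trans ?_
    refine (Finset.sum_le_card_nsmul _ _ ((2 * H + 1) ^ (n - (e + 1)) * (2 * H / m + 1) ^ e) ?_).trans ?_
    · intro P hP
      rw [Finset.mem_product, Finset.mem_insert, Finset.mem_singleton] at hP
      have h1 : P.2.natAbs = m := by omega
      have h2 := Bpt_y (e := e) H P (v P) (Int.natAbs_pos.1 (by omega))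
      rw [h1, ← hn] at h2
      exact h2
    · rw [Finset.card_product, hIcc, smul_eq_mul]
      calc (2 * m + 1) * (({(m : ℤ), -(m : ℤ)} : Finset ℤ)).card *
            ((2 * H + 1) ^ (n - (e + 1)) * (2 * H / m + 1) ^ e)
          ≤ (2 * m + 1) * 2 * ((2 * H + 1) ^ (n - (e + 1)) * (2 * H / m + 1) ^ e) :=
            Nat.mul_le_mul_right _ (Nat.mul_le_mul_left _ (hpm m))
        _ = _ := by ring
  obtain ⟨Y, hY⟩ : ∃ Y : ℝ, Y = (2 * (H : ℝ) + 1) ^ (n - (e + 1)) := ⟨_, rfl⟩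
  have hY0 : 0 ≤ Y := by rw [hY]; positivity
  have hsum : ∀ W : ℕ → Finset (↥(Ix e) → ℤ), (∀ m ∈ Ioo 0 (2 * H + 1), (W m).card
      ≤ (2 * (2 * m + 1) * (2 * H / m + 1) ^ e) * (2 * H + 1) ^ (n - (e + 1))) →
      ((((Ioo 0 (2 * H + 1)).biUnion W).card : ℕ) : ℝ) ≤ 12 * (4 * (H : ℝ)) ^ e * Y := by
    intro W hW
    have h1 : ((((Ioo 0 (2 * H + 1)).biUnion W).card : ℕ) : ℝ)
        ≤ ((∑ m ∈ Ioo 0 (2 * H + 1), (W m).card : ℕ) : ℝ) := by
      exact_mod_cast Finset.card_biUnion_le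
    refine h1.trans ?_
    rw [Nat.cast_sum]
    have h2 : ∀ m ∈ Ioo 0 (2 * H + 1), (((W m).card : ℕ) : ℝ)
        ≤ (6 * (4 * (H : ℝ)) ^ e * Y) * ((m : ℝ) ^ 2)⁻¹ := by
      intro m hm
      have h3 : (((W m).card : ℕ) : ℝ) ≤ (((2 * (2 * m + 1) * (2 * H / m + 1) ^ e) *
          (2 * H + 1) ^ (n - (e + 1)) : ℕ) : ℝ) := by exact_mod_cast hW m hm
      refine h3.trans ?_
      rw [Nat.cast_mul]
      have h4 : (((2 * H + 1) ^ (n - (e + 1)) : ℕ) : ℝ) = Y := by rw [hY]; push_cast; rfl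
      rw [h4]
      rw [Finset.mem_Ioo] at hm
      have h5 := row_le he H m (by omega) (by omega)
      calc _ ≤ 6 * (4 * (H : ℝ)) ^ e * ((m : ℝ) ^ 2)⁻¹ * Y := mul_le_mul_of_nonneg_right h5 hY0
        _ = _ := by ring
    refine (Finset.sum_le_sum h2).trans ?_
    rw [← Finset.mul_sum]
    have h3 := sum_Ioo_inv_sq_le (α := ℝ) 0 (2 * H + 1)
    rw [Nat.cast_zero, zero_add, div_one] at h3
    calc (6 * (4 * (H : ℝ)) ^ e * Y) * ∑ m ∈ Ioo 0 (2 * H + 1), ((m : ℝ) ^ 2)⁻¹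
        ≤ (6 * (4 * (H : ℝ)) ^ e * Y) * 2 := mul_le_mul_of_nonneg_left h3 (by positivity)
      _ = _ := by ring
  have hc := (Finset.card_le_card hsub).trans ((Finset.card_union_le _ _).trans
    (Nat.add_le_add_left (Finset.card_union_le _ _) _))
  have hc' : ((B.card : ℕ) : ℝ) ≤ ((Bpt e H (0, 0) (v (0, 0))).card : ℝ)
      + (((((Ioo 0 (2 * H + 1)).biUnion U).card : ℕ) : ℝ)
      + ((((Ioo 0 (2 * H + 1)).biUnion U').card : ℕ) : ℝ)) := by exact_mod_cast hc
  rw [← hB, ← hn]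
  have h0 : ((Bpt e H (0, 0) (v (0, 0))).card : ℝ) ≤ (2 * (H : ℝ) + 1) ^ (n - 1) := by
    have := Bpt_zero (e := e) H (v (0, 0))
    rw [← hn] at this
    have h1 : (((Bpt e H (0, 0) (v (0, 0))).card : ℕ) : ℝ) ≤ (((2 * H + 1) ^ (n - 1) : ℕ) : ℝ) := by
      exact_mod_cast this
    push_cast at h1
    exact h1
  have h1 := hsum U hUm
  have h2 := hsum U' hUm'
  have h3 : (4 * (H : ℝ)) ^ e * Y ≤ 2 ^ e * (2 * (H : ℝ) + 1) ^ (n - 1) := by
    have h4 : (4 * (H : ℝ)) ^ e ≤ 2 ^ e * (2 * (H : ℝ) + 1) ^ e := by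
      rw [← mul_pow]
      exact pow_le_pow_left₀ (by positivity) (by linarith) e
    calc (4 * (H : ℝ)) ^ e * Y ≤ 2 ^ e * (2 * (H : ℝ) + 1) ^ e * Y :=
          mul_le_mul_of_nonneg_right h4 hY0
      _ = 2 ^ e * (2 * (H : ℝ) + 1) ^ (n - 1) := by
          rw [hY, mul_assoc, ← pow_add]; congr 2; omega
  have h5 : (2 * (H : ℝ) + 1) ^ (n - 1) ≤ 2 ^ e * (2 * (H : ℝ) + 1) ^ (n - 1) :=
    le_mul_of_one_le_left (by positivity) (one_le_pow₀ (by norm_num))
  have h6 : 25 * 2 ^ e * (2 * (H : ℝ) + 1) ^ (n - 1)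
      = 25 * (2 ^ e * (2 * (H : ℝ) + 1) ^ (n - 1)) := by ring
  rw [h6]
  have h7 : 12 * (4 * (H : ℝ)) ^ e * Y = 12 * ((4 * (H : ℝ)) ^ e * Y) := by ring
  rw [h7] at h1 h2
  linarith

end Pool.Agent.H322R2
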