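import Pool.Agent.H322R2.GNear
import Pool.Agent.H322R2.RedC

/-!
Counting the points of medium size.
-/

open Polynomial Finset

namespace Pool.Agent.H322R2

lemma nr_unique {η β γ κ W : ℝ} {a b b' : ℤ} (ha : 2 * W < |(a : ℝ)| ^ 3)
    (h : Nr η β γ κ W a b) (h' : Nr η β γ κ W a b') (ha0 : a ≠ 0) : b = b' := by
  have ha1 : 0 < |(a : ℝ)| := by
    rw [abs_pos]; exact_mod_cast ha0
  have h1 : W / |(a : ℝ)| ^ 3 < 1 / 2 := by
    rw [div_lt_div_iff₀ (by positivity) (by norm_num)]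
    linarith
  have h3 : |((b : ℝ) - b')| < 1 := by
    have h4 : (b : ℝ) - b' = ((b : ℝ) - η * a - β - γ / a - κ / (a : ℝ) ^ 2)
        - ((b' : ℝ) - η * a - β - γ / a - κ / (a : ℝ) ^ 2) := by ring
    rw [h4]
    have h5 := abs_sub ((b : ℝ) - η * a - β - γ / a - κ / (a : ℝ) ^ 2)
      ((b' : ℝ) - η * a - β - γ / a - κ / (a : ℝ) ^ 2)
    have h6 : |(b : ℝ) - η * a - β - γ / a - κ / (a : ℝ) ^ 2| ≤ W / |(a : ℝ)| ^ 3 := h
    have h7 : |(b' : ℝ) - η * a - β - γ / a - κ / (a : ℝ) ^ 2| ≤ W / |(a : ℝ)| ^ 3 := h'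
    linarith
  have h8 : |b - b'| < 1 := by exact_mod_cast h3
  have h9 := abs_nonneg (b - b')
  have h10 : |b - b'| = 0 := by omega
  have h11 := abs_eq_zero.1 h10
  omega

lemma card_inj_le {T : Finset (ℤ × ℤ)} {B : ℝ} (hB : 0 ≤ B)
    (hinj : Set.InjOn Prod.fst (T : Set (ℤ × ℤ))) (hT : ∀ P ∈ T, |(P.1 : ℝ)| ≤ B) :
    (T.card : ℝ) ≤ 2 * B + 1 := by
  classical
  have h1 : (T.image Prod.fst).card = T.card := Finset.card_image_of_injOn hinj
  have h2 : T.image Prod.fst ⊆ Icc (-(⌊B⌋₊ : ℤ)) ⌊B⌋₊ := by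
    intro a ha
    rw [Finset.mem_image] at ha
    obtain ⟨P, hP, rfl⟩ := ha
    rw [Finset.mem_Icc, ← abs_le]
    have h3 : ((P.1.natAbs : ℕ) : ℝ) ≤ B := by
      rw [Nat.cast_natAbs, Int.cast_abs]; exact hT P hP
    have h4 := Nat.le_floor h3
    rw [Int.abs_eq_natAbs]
    exact_mod_cast h4
  have h3 := Finset.card_le_card h2
  rw [h1, Int.card_Icc] at h3
  have h4 : ((⌊B⌋₊ : ℤ) + 1 - -(⌊B⌋₊ : ℤ)).toNat = 2 * ⌊B⌋₊ + 1 := by omega
  rw [h4] at h3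
  have h5 : (T.card : ℝ) ≤ ((2 * ⌊B⌋₊ + 1 : ℕ) : ℝ) := by exact_mod_cast h3
  have h6 := Nat.floor_le hB
  push_cast at h5
  linarith

theorem med_pts {d : ℕ} (hd : 4 ≤ d) {G : ℤ[X][X]} (hm : G.Monic) (hdeg : G.natDegree = d)
    (hT : TD d G) {M Z : ℝ} (hM : 1 ≤ M) (hG : pn (pn zn) G ≤ M)
    (hn : nrm (lead d G) d (derivative (lead d G)) ≠ 0)
    (hflex : ∀ η : ℝ, evf η (lead d G) = 0 → evf η (gp d G) ≠ 0)
    (hZ : (2 + 2 * M) ^ (150 * d ^ 3) ≤ Z) (H : ℕ) (hH : Z ^ 20 = H) (n : ℕ)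
    (T : Finset (ℤ × ℤ)) (hP : ∀ P ∈ T, |(P.1 : ℝ)| ≤ Z ^ (n + 1) ∧
      ∃ R : ℤ[X][X], TD (d - 4) R ∧ pn (pn zn) R ≤ Z * H ∧ ev P.1 P.2 (G + R) = 0) :
    (T.card : ℝ) ≤ 15 * Z * (H : ℝ) ^ 2 + d * (61 * ((n : ℝ) + 1) * Z ^ 2 * H) := by
  classical
  have hd0 : 0 < d := by omega
  have hK4 : 4 ≤ 2 + 2 * M := by linarith
  have hdd : 1 ≤ d ^ 3 := Nat.one_le_pow _ _ hd0
  have hMZ : 2 + 2 * M ≤ Z := by
    refine le_trans ?_ hZ
    calc 2 + 2 * M = (2 + 2 * M) ^ 1 := (pow_one _).symm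
      _ ≤ _ := pow_le_pow_right₀ (by linarith) (by omega)
  have hZ4 : 4 ≤ Z := by linarith
  have hZ2 : 2 ≤ Z := by linarith
  have hZ1 : 1 ≤ Z := by linarith
  have hZ0 : 0 < Z := by linarith
  have hZ64 : (2 + 2 * M) ^ (64 * d ^ 3) ≤ Z := by
    refine le_trans ?_ hZ
    exact pow_le_pow_right₀ (by linarith) (by omega)
  obtain ⟨V0, hV0⟩ : ∃ V0 : ℝ, V0 = Z * H := ⟨_, rfl⟩
  have hH1 : (1 : ℝ) ≤ H := by rw [← hH]; exact one_le_pow₀ hZ1
  have hV01 : 1 ≤ V0 := by rw [hV0]; exact one_le_mul_of_one_le_of_one_le hZ1 hH1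
  have hV0Z : Z ≤ V0 := by rw [hV0]; exact le_mul_of_one_le_right hZ0.le hH1
  rw [← hV0] at hP
  obtain ⟨W, hW⟩ : ∃ W : ℝ, W = Z * V0 := ⟨_, rfl⟩
  have hWp : W = Z ^ 22 := by rw [hW, hV0, ← hH]; ring
  have hZW : Z ≤ W := by
    rw [hWp]
    calc Z = Z ^ 1 := (pow_one _).symm
      _ ≤ _ := pow_le_pow_right₀ hZ1 (by norm_num)
  obtain ⟨a0, ha0⟩ : ∃ a0 : ℝ, a0 = Z ^ 10 := ⟨_, rfl⟩
  have ha01 : 1 ≤ a0 := by rw [ha0]; exact one_le_pow₀ hZ1
  -- small a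
  obtain ⟨TA, hTA⟩ : ∃ TA, TA = T.filter (fun P => |(P.1 : ℝ)| < a0) := ⟨_, rfl⟩
  obtain ⟨TB, hTB⟩ : ∃ TB, TB = T.filter (fun P => ¬ |(P.1 : ℝ)| < a0) := ⟨_, rfl⟩
  have hsplit : TA.card + TB.card = T.card := by
    rw [hTA, hTB]; exact Finset.card_filter_add_card_filter_not _
  have hA : (TA.card : ℝ) ≤ 15 * Z * (H : ℝ) ^ 2 := by
    obtain ⟨B1, hB1⟩ : ∃ B1 : ℝ, B1 = 2 * V0 * a0 := ⟨_, rfl⟩
    have hB11 : 1 ≤ B1 := by rw [hB1]; nlinarith
    have h1 : TA ⊆ Icc (-(⌊a0⌋₊ : ℤ)) ⌊a0⌋₊ ×ˢ Icc (-(⌊B1⌋₊ : ℤ)) ⌊B1⌋₊ := by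
      intro P hPT
      rw [hTA, Finset.mem_filter] at hPT
      obtain ⟨-, R, r1, r2, r3⟩ := hP P hPT.1
      have hRn : R.natDegree < G.natDegree := by have := r1.1; omega
      have hm' : (G + R).Monic := hm.add_of_left (degree_lt_degree hRn)
      have hdeg' : (G + R).natDegree = d := by
        rw [natDegree_add_eq_left_of_natDegree_lt hRn, hdeg]
      have hT' := TD_add hd hT r1
      have hpn' : pn (pn zn) (G + R) ≤ 2 * V0 := (map_add_le_add _ _ _).trans (by linarith)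
      have h2 := abs_b_le hm' hdeg' hT' (by linarith) hpn' P.1 P.2 r3
      have h3 : max 1 |(P.1 : ℝ)| ≤ a0 := max_le ha01 hPT.2.le
      have h4 : |(P.2 : ℝ)| ≤ B1 := by
        rw [hB1]
        exact h2.trans (mul_le_mul_of_nonneg_left h3 (by linarith))
      rw [Finset.mem_product, Finset.mem_Icc, Finset.mem_Icc, ← abs_le, ← abs_le,
        Int.abs_eq_natAbs, Int.abs_eq_natAbs]
      constructor
      · have h5 : ((P.1.natAbs : ℕ) : ℝ) ≤ a0 := by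
          rw [Nat.cast_natAbs, Int.cast_abs]; exact hPT.2.le
        exact_mod_cast Nat.le_floor h5
      · have h5 : ((P.2.natAbs : ℕ) : ℝ) ≤ B1 := by
          rw [Nat.cast_natAbs, Int.cast_abs]; exact h4
        exact_mod_cast Nat.le_floor h5
    have h2 := Finset.card_le_card h1
    rw [Finset.card_product, Int.card_Icc, Int.card_Icc] at h2
    have h3 : ((⌊a0⌋₊ : ℤ) + 1 - -(⌊a0⌋₊ : ℤ)).toNat = 2 * ⌊a0⌋₊ + 1 := by omega
    have h4 : ((⌊B1⌋₊ : ℤ) + 1 - -(⌊B1⌋₊ : ℤ)).toNat = 2 * ⌊B1⌋₊ + 1 := by omega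
    rw [h3, h4] at h2
    have h5 : (TA.card : ℝ) ≤ (((2 * ⌊a0⌋₊ + 1) * (2 * ⌊B1⌋₊ + 1) : ℕ) : ℝ) := by exact_mod_cast h2
    have h6 := Nat.floor_le (by linarith : 0 ≤ a0)
    have h7 := Nat.floor_le (by linarith : 0 ≤ B1)
    push_cast at h5
    refine h5.trans ?_
    calc (2 * (⌊a0⌋₊ : ℝ) + 1) * (2 * (⌊B1⌋₊ : ℝ) + 1) ≤ (3 * a0) * (5 * (V0 * a0)) := by
          apply mul_le_mul (by linarith) _ (by positivity) (by positivity)
          have : 1 ≤ V0 * a0 := one_le_mul_of_one_le_of_one_le hV01 ha01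
          have e : B1 = 2 * (V0 * a0) := by rw [hB1]; ring
          rw [e] at h7
          have h8 : 2 * (⌊2 * (V0 * a0)⌋₊ : ℝ) + 1 ≤ 5 * (V0 * a0) := by linarith
          rw [e]; exact h8
      _ = 15 * (a0 ^ 2) * V0 := by ring
      _ = 15 * Z * (H : ℝ) ^ 2 := by
          have : a0 ^ 2 = H := by rw [ha0, ← pow_mul, hH]
          rw [this, hV0]; ring
  -- large a
  have hsel : ∀ P ∈ TB, ∃ η : ℝ, evf η (lead d G) = 0 ∧
      Nr η (bet d G η) (gam d G η) (kpp d G η) W P.1 P.2 := by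
    intro P hPT
    rw [hTB, Finset.mem_filter] at hPT
    have hPa : a0 ≤ |(P.1 : ℝ)| := not_lt.1 hPT.2
    obtain ⟨-, R, r1, r2, r3⟩ := hP P hPT.1
    rw [hW]
    apply near_branch hd (by omega) hm hdeg hT hM hG hV01 r1 r2 hn hZ P.1 P.2 r3
    · refine le_trans ?_ hPa
      rw [ha0]
      calc Z = Z ^ 1 := (pow_one _).symm
        _ ≤ _ := pow_le_pow_right₀ hZ1 (by norm_num)
    · rw [← hW, hWp]
      calc Z ^ 22 ≤ Z ^ 30 := pow_le_pow_right₀ hZ1 (by norm_num)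
        _ = a0 ^ 3 := by rw [ha0, ← pow_mul]
        _ ≤ _ := pow_le_pow_left₀ (by linarith) hPa 3
  choose! f hf1 hf2 using hsel
  obtain ⟨hgm, hgd⟩ := lead_monic hm hdeg
  obtain ⟨S, hS⟩ : ∃ S, S = ((lead d G).map (Int.castRingHom ℝ)).roots.toFinset := ⟨_, rfl⟩
  have hg0 : (lead d G).map (Int.castRingHom ℝ) ≠ 0 := (hgm.map _).ne_zero
  have hmem : ∀ η : ℝ, η ∈ S ↔ evf η (lead d G) = 0 := by
    intro η
    rw [hS, Multiset.mem_toFinset, mem_roots hg0, IsRoot.def, eval_map, evf, coe_eval₂RingHom]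
  have hScard : S.card ≤ d := by
    rw [hS]
    refine (Multiset.toFinset_card_le _).trans ((card_roots' _).trans ?_)
    rw [hgm.natDegree_map, hgd]
  obtain ⟨N, hN⟩ : ∃ N : ℕ, N = ⌊61 * ((n : ℝ) + 1) * Z ^ 2 * H⌋₊ := ⟨_, rfl⟩
  have hfib : ∀ η ∈ S, (TB.filter (fun P => f P = η)).card ≤ N := by
    intro η hηS
    have hη := (hmem η).1 hηS
    obtain ⟨b1, b2, b3, b4, b5, -, -⟩ := branch_bounds hd hm hdeg hT hM hG hn hZ64 η hη
    have b6 := gam_low hd hm hdeg hT hM hG hZ64 η hη b5 (hflex η hη)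
    obtain ⟨Φ, hΦ⟩ : ∃ Φ, Φ = TB.filter (fun P => f P = η) := ⟨_, rfl⟩
    rw [← hΦ]
    have hΦm : ∀ P ∈ Φ, a0 ≤ |(P.1 : ℝ)| ∧ |(P.1 : ℝ)| ≤ Z ^ (n + 1) ∧
        Nr η (bet d G η) (gam d G η) (kpp d G η) W P.1 P.2 := by
      intro P hPΦ
      rw [hΦ, Finset.mem_filter] at hPΦ
      have h1 := hf2 P hPΦ.1
      rw [hPΦ.2] at h1
      have h2 := hPΦ.1
      rw [hTB, Finset.mem_filter] at h2
      exact ⟨not_lt.1 h2.2, (hP P h2.1).1, h1⟩
    have hsp := Finset.card_filter_add_card_filter_not (s := Φ) (fun P => |(P.1 : ℝ)| ≤ W)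
    have h1 : ((Φ.filter (fun P => |(P.1 : ℝ)| ≤ W)).card : ℝ) ≤ 2 * W + 1 := by
      apply card_inj_le (by linarith)
      · intro P hP1 Q hQ1 h
        rw [Finset.mem_coe, Finset.mem_filter] at hP1 hQ1
        apply Prod.ext h
        obtain ⟨p1, p2, p3⟩ := hΦm P hP1.1
        obtain ⟨q1, q2, q3⟩ := hΦm Q hQ1.1
        rw [← h] at q3
        have hP0 : P.1 ≠ 0 := by
          intro h0
          rw [h0] at p1
          simp at p1
          linarith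
        apply nr_unique _ p3 q3 hP0
        have hW0 : 0 < W := by linarith
        calc 2 * W < 16 * W := by linarith
          _ ≤ Z ^ 2 * W := mul_le_mul_of_nonneg_right (by nlinarith) hW0.le
          _ = Z ^ 24 := by rw [hWp]; ring
          _ ≤ Z ^ 30 := pow_le_pow_right₀ hZ1 (by norm_num)
          _ = a0 ^ 3 := by rw [ha0, ← pow_mul]
          _ ≤ _ := pow_le_pow_left₀ (by linarith) p1 3
      · intro P hP1
        rw [Finset.mem_filter] at hP1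
        exact hP1.2
    have h2 := med_count (η := η) (β := bet d G η) (X := W) hZ2 hZW le_rfl b3 b4 b6
      (by
        rw [hWp]
        calc 6 * Z ^ 2 ≤ Z ^ 2 * Z ^ 2 := by
              apply mul_le_mul_of_nonneg_right _ (by positivity)
              nlinarith
          _ = Z ^ 4 := by ring
          _ ≤ Z ^ 22 := pow_le_pow_right₀ hZ1 (by norm_num)) H ⌈13 * Z ^ 2⌉₊
      (by
        rw [hWp, ← hH, ← pow_mul]
        calc 8 * Z ^ 22 * Z ^ 4 < Z ^ 2 * Z ^ 22 * Z ^ 4 := by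
              apply mul_lt_mul_of_pos_right _ (by positivity)
              apply mul_lt_mul_of_pos_right _ (by positivity)
              nlinarith
          _ = Z ^ 28 := by ring
          _ ≤ _ := pow_le_pow_right₀ hZ1 (by norm_num))
      (Nat.le_ceil _) n (Φ.filter (fun P => ¬ |(P.1 : ℝ)| ≤ W))
      (by
        intro P hP1
        rw [Finset.mem_filter] at hP1
        refine ⟨(not_le.1 hP1.2).le, ?_⟩
        refine (hΦm P hP1.1).2.1.trans ?_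
        exact le_mul_of_one_le_left (by positivity) (by linarith))
      (by
        intro P hP1
        rw [Finset.mem_filter] at hP1
        exact (hΦm P hP1.1).2.2)
    rw [hN]
    apply Nat.le_floor
    have h3 : (Φ.card : ℝ) = ((Φ.filter (fun P => |(P.1 : ℝ)| ≤ W)).card : ℝ)
        + ((Φ.filter (fun P => ¬ |(P.1 : ℝ)| ≤ W)).card : ℝ) := by exact_mod_cast hsp.symm
    have h4 : ((Φ.filter (fun P => ¬ |(P.1 : ℝ)| ≤ W)).card : ℝ)
        ≤ (((n + 1) * (2 * H * (2 * ⌈13 * Z ^ 2⌉₊ + 1)) : ℕ) : ℝ) := by exact_mod_cast h2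
    have h5 : (⌈13 * Z ^ 2⌉₊ : ℝ) ≤ 14 * Z ^ 2 := by
      have := Nat.ceil_lt_add_one (by positivity : 0 ≤ 13 * Z ^ 2)
      have : 1 ≤ Z ^ 2 := one_le_pow₀ hZ1
      linarith
    have h6 : (((n + 1) * (2 * H * (2 * ⌈13 * Z ^ 2⌉₊ + 1)) : ℕ) : ℝ)
        ≤ 58 * ((n : ℝ) + 1) * Z ^ 2 * H := by
      push_cast
      have h7 : 2 * (⌈13 * Z ^ 2⌉₊ : ℝ) + 1 ≤ 29 * Z ^ 2 := by
        have : 1 ≤ Z ^ 2 := one_le_pow₀ hZ1
        linarith
      calc ((n : ℝ) + 1) * (2 * (H : ℝ) * (2 * (⌈13 * Z ^ 2⌉₊ : ℝ) + 1))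
          ≤ ((n : ℝ) + 1) * (2 * (H : ℝ) * (29 * Z ^ 2)) := by
            apply mul_le_mul_of_nonneg_left _ (by positivity)
            exact mul_le_mul_of_nonneg_left h7 (by positivity)
        _ = _ := by ring
    have h7 : 2 * W + 1 ≤ 3 * ((n : ℝ) + 1) * Z ^ 2 * H := by
      have e1 : W = Z ^ 2 * H := by rw [hW, hV0]; ring
      have e2 : 1 ≤ W := by linarith
      have e3 : 3 * W ≤ 3 * ((n : ℝ) + 1) * W := by
        apply mul_le_mul_of_nonneg_right _ (by linarith)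
        have : (0 : ℝ) ≤ n := by positivity
        linarith
      have e4 : 3 * ((n : ℝ) + 1) * Z ^ 2 * H = 3 * ((n : ℝ) + 1) * W := by rw [e1]; ring
      rw [e4]; linarith
    rw [h3]
    have h8 : 61 * ((n : ℝ) + 1) * Z ^ 2 * H = 3 * ((n : ℝ) + 1) * Z ^ 2 * H
        + 58 * ((n : ℝ) + 1) * Z ^ 2 * H := by ring
    rw [h8]
    linarith
  have h1 := Finset.card_le_mul_card_image_of_maps_to (s := TB) (t := S) (f := f)
    (fun P hPT => (hmem _).2 (hf1 P hPT)) N (fun η hη => hfib η hη)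
  have h2 : (TB.card : ℝ) ≤ (N : ℝ) * d := by
    have : (TB.card : ℝ) ≤ ((N * S.card : ℕ) : ℝ) := by exact_mod_cast h1
    refine this.trans ?_
    push_cast
    apply mul_le_mul_of_nonneg_left _ (by positivity)
    exact_mod_cast hScard
  have h3 : (N : ℝ) ≤ 61 * ((n : ℝ) + 1) * Z ^ 2 * H := by
    rw [hN]; exact Nat.floor_le (by positivity)
  have h4 : (N : ℝ) * d ≤ d * (61 * ((n : ℝ) + 1) * Z ^ 2 * H) := by
    rw [mul_comm]
    exact mul_le_mul_of_nonneg_left h3 (by positivity)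
  have h5 : (T.card : ℝ) = TA.card + TB.card := by exact_mod_cast hsplit.symm
  rw [h5]
  linarith

section

variable {F R : MvPolynomial (Fin 2) ℤ} {u : ℕ}

lemma pn_RR2 {H2 H3 : ℝ} (hH2 : 1 ≤ H2) (hF : pn (pn zn) (F2 F u) ≤ H2)
    (hR2 : pn (pn zn) (F2 R u) ≤ H3) (hc : lc F u ≠ 0) (hd : 1 ≤ F.totalDegree) :
    pn (pn zn) (RR F R u) ≤ H3 * H2 ^ (F.totalDegree - 1) := by
  have hcle := lc_le hF hc
  unfold RR
  refine (seminorm_sum_le _ _ _).trans ?_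
  have h2 : ∀ j ∈ range (F.totalDegree - 4 + 1), pn (pn zn) (monomial j ((F2 R u).coeff j *
      C ((lc F u) ^ (F.totalDegree - 1 - j)))) ≤ pn zn ((F2 R u).coeff j) *
        H2 ^ (F.totalDegree - 1) := by
    intro j _
    rw [pn_monomial]
    refine (map_mul_le_mul _ _ _).trans ?_
    apply mul_le_mul_of_nonneg_left _ (apply_nonneg _ _)
    rw [pn_C, zn_apply, Int.cast_pow, abs_pow]
    calc |((lc F u : ℤ) : ℝ)| ^ (F.totalDegree - 1 - j) ≤ H2 ^ (F.totalDegree - 1 - j) :=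
          pow_le_pow_left₀ (abs_nonneg _) hcle _
      _ ≤ H2 ^ (F.totalDegree - 1) := pow_le_pow_right₀ hH2 (by omega)
  refine (Finset.sum_le_sum h2).trans ?_
  rw [← Finset.sum_mul]
  apply mul_le_mul_of_nonneg_right _ (by positivity)
  refine le_trans ?_ hR2
  obtain ⟨n, hn⟩ : ∃ n, n = max (F.totalDegree - 4 + 1) ((F2 R u).natDegree + 1) := ⟨_, rfl⟩
  rw [pn_eq_range _ (F2 R u) (show (F2 R u).natDegree < n by
    rw [hn]; exact lt_of_lt_of_le (Nat.lt_succ_self _) (le_max_right _ _))]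
  apply Finset.sum_le_sum_of_subset_of_nonneg
  · apply Finset.range_subset_range.2
    rw [hn]; exact le_max_left _ _
  · intro _ _ _; exact apply_nonneg _ _

end

end Pool.Agent.H322R2
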