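import Pool.Agent.H322R2.GRed
import Pool.Agent.H322R2.GSet

/-!
Random lower order terms: an integer point exists with probability of order `1 / H`.
-/

open Polynomial Finset

namespace Pool.Agent.H322R2

variable {e : ℕ}

/-- auxiliary exponent -/
def kk0 (d : ℕ) : ℕ := 150 * (d ^ 2 + 1) * d ^ 3 + d * (21 * kE d + 1)

lemma pn_F2_FM {F : MvPolynomial (Fin 2) ℤ} {H u : ℕ} (he : e + 4 ≤ F.totalDegree)
    (hu : u ≤ F.totalDegree) {c : ↥(Ix e) → ℤ} (hc : c ∈ Bx _ H) :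
    pn (pn zn) (F2 (FM c) u) ≤ ((Ix e).card : ℝ) * H * (1 + F.totalDegree) ^ F.totalDegree := by
  refine (pn_toB_le u (FM c)).trans ?_
  apply mul_le_mul
  · have := len_FM_le hc
    exact_mod_cast this
  · have h3 : (1 + (u : ℝ)) ^ (FM c).totalDegree ≤ (1 + F.totalDegree) ^ (FM c).totalDegree := by
      apply pow_le_pow_left₀ (by positivity)
      have : (u : ℝ) ≤ F.totalDegree := by exact_mod_cast hu
      linarith
    refine h3.trans ?_
    apply pow_le_pow_right₀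
    · have : (0 : ℝ) ≤ F.totalDegree := by positivity
      linarith
    · have := totalDegree_FM_le c; omega
  · positivity
  · positivity

lemma ev_GG_RR {F R : MvPolynomial (Fin 2) ℤ} {u : ℕ} (hcl : lc F u ≠ 0) (hd : 4 ≤ F.totalDegree)
    (h1 : R.totalDegree + 4 ≤ F.totalDegree) (x y : ℤ)
    (h3 : MvPolynomial.eval ![x, y] (F + R) = 0) :
    ev (y - u * x) (lc F u * x) (GG F u + RR F R u) = 0 := by
  obtain ⟨a, ha⟩ : ∃ a : ℤ, a = y - u * x := ⟨_, rfl⟩
  rw [← ha]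
  have hGp := GG_pert hcl hd h1
  have hcl' : lc (F + R) u ≠ 0 := by rw [lc_pert hd h1]; exact hcl
  have hdeg' := totalDegree_pert hd h1
  rw [← hGp, ← lc_pert (u := u) hd h1, ev_GG hcl' (by omega)]
  have h5 := ev_toB (S := ℤ) x a (shE ℤ u (F + R))
  have h6 : MvPolynomial.eval₂ (Int.castRingHom ℤ) ![x, a] (shE ℤ u (F + R))
      = MvPolynomial.eval ![x, a] (shE ℤ u (F + R)) := by
    rw [MvPolynomial.eval, MvPolynomial.coe_eval₂Hom]
    congr 1
  rw [h6, eval_shE] at h5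
  have h7 : (![(![x, a] : Fin 2 → ℤ) 0, (![x, a] : Fin 2 → ℤ) 1 + u * (![x, a] : Fin 2 → ℤ) 0]
      : Fin 2 → ℤ) = ![x, y] := by
    ext i
    fin_cases i
    · simp
    · simp [ha]
  rw [h7, h3] at h5
  rw [F2, h5, mul_zero]

/-- points of medium size -/
noncomputable def PM (F : MvPolynomial (Fin 2) ℤ) (e H Bd : ℕ) : Finset (ℤ × ℤ) := by
  classical
  exact ((Icc (-(Bd : ℤ)) Bd) ×ˢ (Icc (-(Bd : ℤ)) Bd)).filter
    (fun P => 2 * H < max P.1.natAbs P.2.natAbs ∧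
      ∃ c ∈ Bx ↥(Ix e) H, ev P.1 P.2 (PG c) = -MvPolynomial.eval ![P.2, P.1] F)

theorem PM_card (F : MvPolynomial (Fin 2) ℤ) (H Bd κ kk : ℕ) (hd : 7 ≤ F.totalDegree)
    (he : e + 4 ≤ F.totalDegree)
    (hsq : Squarefree (MvPolynomial.map (Int.castRingHom ℚ)
      (MvPolynomial.homogeneousComponent F.totalDegree F)))
    (hlines : ∀ p q : Fin 2 → ℝ, q ≠ 0 → F.totalDegree ≤
      (MvPolynomial.aeval (fun i => (C (p i) + C (q i) * X : ℝ[X])) F).natDegree + 2)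
    (hkk : 150 * (F.totalDegree ^ 2 + 1) * F.totalDegree ^ 3 + F.totalDegree * (21 * κ + 1) ≤ kk)
    (hBd : Bd ≤ ((F.totalDegree + 1) * (len F + (Ix e).card * H)) ^ κ)
    (hH : ((((F.totalDegree + 1) * len F : ℕ) : ℝ)) ^ (20 * kk) ≤ H) :
    ((PM F e H Bd).card : ℝ) ≤ (H : ℝ) ^ 3 := by
  classical
  obtain ⟨d, hdd⟩ : ∃ d, d = F.totalDegree := ⟨_, rfl⟩
  have hd7 : 7 ≤ d := by omega
  have hdR : (7 : ℝ) ≤ d := by exact_mod_cast hd7
  have hF0 : F ≠ 0 := by
    rintro rfl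
    simp at hd
  obtain ⟨u, hu, hcu⟩ := exists_u F hF0
  have hcl : lc F u ≠ 0 := hcu
  have hlen : (1 : ℝ) ≤ len F := by exact_mod_cast len_pos hF0
  obtain ⟨w, hw⟩ : ∃ w : ℝ, w = ((d : ℝ) + 1) * (len F : ℝ) := ⟨_, rfl⟩
  have hw8 : 8 ≤ w := by rw [hw]; nlinarith
  have hw1 : 1 ≤ w := by linarith
  have hwc : (((F.totalDegree + 1) * len F : ℕ) : ℝ) = w := by rw [hw, hdd]; push_cast; ring
  rw [hwc] at hH
  rw [← hdd] at hkk
  -- the unit `Z`
  have hH0 : (0 : ℝ) < H := lt_of_lt_of_le (by positivity) hH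
  obtain ⟨Z, hZdef⟩ : ∃ Z : ℝ, Z = (H : ℝ) ^ (((20 : ℕ) : ℝ)⁻¹) := ⟨_, rfl⟩
  have hZ20 : Z ^ 20 = H := by
    rw [hZdef]; exact Real.rpow_inv_natCast_pow hH0.le (by norm_num)
  have hZ0 : 0 ≤ Z := by rw [hZdef]; positivity
  have hwZ : w ^ kk ≤ Z := by
    rw [← hZ20] at hH
    have : (w ^ kk) ^ 20 ≤ Z ^ 20 := by
      rw [← pow_mul, mul_comm]; exact hH
    exact le_of_pow_le_pow_left₀ (by norm_num) hZ0 this
  have hk : ∀ k, k ≤ kk → w ^ k ≤ Z := fun k hk => (pow_le_pow_right₀ hw1 hk).trans hwZ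
  have hk0ge1 : 150 * (d ^ 2 + 1) * d ^ 3 ≤ kk := by omega
  have hk0ge2 : d * (21 * κ + 1) ≤ kk := by omega
  have hd2 : d ^ 2 ≤ d ^ 3 := Nat.pow_le_pow_right (by omega) (by norm_num)
  have hd3 : 1 ≤ d ^ 3 := Nat.one_le_pow _ _ (by omega)
  have hdd3 : d ≤ d ^ 3 := Nat.le_self_pow (by norm_num) d
  have hbig : d ^ 2 + 1 + d + 6 ≤ 150 * (d ^ 2 + 1) * d ^ 3 := by
    have : (d ^ 2 + 1) * 1 ≤ (d ^ 2 + 1) * d ^ 3 := Nat.mul_le_mul_left _ hd3
    have h3 : 1 * d ^ 3 ≤ (d ^ 2 + 1) * d ^ 3 := Nat.mul_le_mul_right _ (by omega)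
    have h4 : 150 * (d ^ 2 + 1) * d ^ 3 = 150 * ((d ^ 2 + 1) * d ^ 3) := by ring
    omega
  have hZ8 : 8 ≤ Z := by
    refine le_trans ?_ (hk 1 (by omega))
    rw [pow_one]; exact hw8
  have hZ1 : 1 ≤ Z := by linarith
  have hdn : (d : ℝ) * ((21 * κ : ℕ) + 1) ≤ Z := by
    refine le_trans ?_ hwZ
    have h1 : ((d * (21 * κ + 1) : ℕ) : ℝ) ≤ 2 ^ (d * (21 * κ + 1)) := by
      exact_mod_cast Nat.lt_two_pow_self.le
    push_cast at h1 ⊢
    calc (d : ℝ) * (21 * (κ : ℝ) + 1) ≤ 2 ^ (d * (21 * κ + 1)) := h1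
      _ ≤ w ^ (d * (21 * κ + 1)) := pow_le_pow_left₀ (by norm_num) (by linarith) _
      _ ≤ w ^ kk := pow_le_pow_right₀ hw1 hk0ge2
  -- norms
  obtain ⟨H2, hH2⟩ : ∃ H2 : ℝ, H2 = (len F : ℝ) * (1 + d) ^ d := ⟨_, rfl⟩
  have hH21 : 1 ≤ H2 := by
    rw [hH2]
    exact one_le_mul_of_one_le_of_one_le hlen (one_le_pow₀ (by linarith))
  obtain ⟨M, hM⟩ : ∃ M : ℝ, M = H2 ^ d := ⟨_, rfl⟩
  have hM1 : 1 ≤ M := by rw [hM]; exact one_le_pow₀ hH21
  have h1dw : (1 + (d : ℝ)) ≤ w := by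
    rw [hw, add_comm]; exact le_mul_of_one_le_right (by linarith) hlen
  have hH2w : H2 ≤ w ^ d := by
    rw [hH2, hw, mul_pow, mul_comm, add_comm 1 (d : ℝ)]
    apply mul_le_mul_of_nonneg_left _ (by positivity)
    calc (len F : ℝ) = (len F : ℝ) ^ 1 := by rw [pow_one]
      _ ≤ _ := pow_le_pow_right₀ hlen (by omega)
  have hMw : M ≤ w ^ (d ^ 2) := by
    rw [hM, sq, pow_mul]
    exact pow_le_pow_left₀ (by positivity) hH2w _
  have hpnF : pn (pn zn) (F2 F u) ≤ H2 := by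
    refine (pn_toB_le u F).trans ?_
    rw [hH2, ← hdd]
    apply mul_le_mul_of_nonneg_left _ (by linarith)
    apply pow_le_pow_left₀ (by positivity)
    have : (u : ℝ) ≤ d := by rw [hdd]; exact_mod_cast hu
    linarith
  have hpnG : pn (pn zn) (GG F u) ≤ M := by
    rw [hM, hdd]
    exact pn_GG hcl hH21 hpnF (by omega)
  have hZK : (2 + 2 * M) ^ (150 * d ^ 3) ≤ Z := by
    have h1 : 2 + 2 * M ≤ w ^ (d ^ 2 + 1) := by rw [pow_succ]; nlinarith
    calc (2 + 2 * M) ^ (150 * d ^ 3) ≤ (w ^ (d ^ 2 + 1)) ^ (150 * d ^ 3) :=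
          pow_le_pow_left₀ (by linarith) h1 _
      _ = w ^ (150 * (d ^ 2 + 1) * d ^ 3) := by rw [← pow_mul]; congr 1; ring
      _ ≤ Z := hk _ hk0ge1
  obtain ⟨N, hN⟩ : ∃ N, N = (Ix e).card := ⟨_, rfl⟩
  have hNw : (N : ℝ) ≤ w ^ 2 := by
    have h1 : N ≤ (d + 1) ^ 2 := by
      rw [hN, card_Ix]
      calc (e + 1) * (e + 2) / 2 ≤ (e + 1) * (e + 2) := Nat.div_le_self _ _
        _ ≤ (d + 1) * (d + 1) := Nat.mul_le_mul (by omega) (by omega)
        _ = _ := by ring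
    have h2 : (N : ℝ) ≤ ((d : ℝ) + 1) ^ 2 := by exact_mod_cast h1
    refine h2.trans ?_
    exact pow_le_pow_left₀ (by positivity) (by linarith) 2
  -- the bound of the coordinates
  have hH1R : (1 : ℝ) ≤ H := by rw [← hZ20]; exact one_le_pow₀ hZ1
  have hBdZ : (Bd : ℝ) ≤ Z ^ (21 * κ) := by
    have hBdR : (Bd : ℝ) ≤ ((((F.totalDegree + 1) * (len F + (Ix e).card * H)) ^ κ : ℕ) : ℝ) := by
      exact_mod_cast hBd
    refine hBdR.trans ?_
    rw [← hdd, ← hN]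
    push_cast
    rw [pow_mul]
    apply pow_le_pow_left₀ (by positivity)
    have h1 : ((d : ℝ) + 1) * ((len F : ℝ) + N * H) ≤ (w + w * w ^ 2) * H := by
      have h2 : ((d : ℝ) + 1) * (len F : ℝ) ≤ w * H := by
        rw [← hw]; exact le_mul_of_one_le_right (by linarith) hH1R
      have h3 : ((d : ℝ) + 1) * (N * H) ≤ (w * w ^ 2) * H := by
        calc ((d : ℝ) + 1) * (N * H) = (((d : ℝ) + 1) * N) * H := by ring
          _ ≤ (w * w ^ 2) * H := by
            apply mul_le_mul_of_nonneg_right _ hH0.le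
            exact mul_le_mul (by linarith) hNw (by positivity) (by linarith)
      calc ((d : ℝ) + 1) * ((len F : ℝ) + N * H)
          = ((d : ℝ) + 1) * (len F : ℝ) + ((d : ℝ) + 1) * (N * H) := by ring
        _ ≤ w * H + (w * w ^ 2) * H := add_le_add h2 h3
        _ = _ := by ring
    refine h1.trans ?_
    have h4 : w + w * w ^ 2 ≤ Z := by
      refine le_trans ?_ (hk 4 (by omega))
      have : w ^ 4 = w * (w * w ^ 2) := by ring
      rw [this]
      have h5 : w ≤ w * w ^ 2 := le_mul_of_one_le_right (by linarith) (one_le_pow₀ hw1)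
      nlinarith
    calc (w + w * w ^ 2) * H ≤ Z * H := mul_le_mul_of_nonneg_right h4 hH0.le
      _ = Z ^ 21 := by rw [← hZ20]; ring
  -- the map
  obtain ⟨f, hf⟩ : ∃ f : ℤ × ℤ → ℤ × ℤ, f = fun P : ℤ × ℤ => (P.1 - u * P.2, lc F u * P.2) := ⟨_, rfl⟩
  have hinj : Function.Injective f := by
    intro P Q h
    rw [hf] at h
    simp only [Prod.mk.injEq] at h
    have h1 := mul_left_cancel₀ hcl h.2
    have h2 := h.1
    rw [h1] at h2
    exact Prod.ext (by linarith) h1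
  have hcard : ((PM F e H Bd).image f).card = (PM F e H Bd).card := Finset.card_image_of_injective _ hinj
  have hRd : ∀ c : ↥(Ix e) → ℤ, (FM c).totalDegree + 4 ≤ F.totalDegree := by
    intro c
    have := totalDegree_FM_le c; omega
  have hmain := med_pts (d := d) (by omega) (GG_monic hcl) (by rw [GG_natDegree hcl, hdd])
    (by rw [hdd]; exact GG_TD hcl) hM1 hpnG (by rw [hdd]; exact nrm_GG hcl (by omega) hsq)
    (by
      intro η hη
      rw [hdd] at hη ⊢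
      apply flex_of_lines hcl (by omega) hlines η hη
      have := (branch_bounds (d := F.totalDegree) (by omega) (GG_monic hcl) (GG_natDegree hcl)
        (GG_TD hcl) hM1 hpnG (nrm_GG hcl (by omega) hsq) le_rfl η hη).2.2.2.2.1
      exact abs_pos.1 this) hZK H hZ20 (21 * κ) ((PM F e H Bd).image f) (by
      intro P hP
      rw [Finset.mem_image] at hP
      obtain ⟨Q, hQ, rfl⟩ := hP
      rw [PM, Finset.mem_filter, Finset.mem_product, Finset.mem_Icc, Finset.mem_Icc, ← abs_le,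
        ← abs_le] at hQ
      obtain ⟨⟨hQ1, hQ2⟩, -, c, hc, hev⟩ := hQ
      have hQ1' : |(Q.1 : ℝ)| ≤ Bd := by exact_mod_cast hQ1
      have hQ2' : |(Q.2 : ℝ)| ≤ Bd := by exact_mod_cast hQ2
      rw [hf]
      constructor
      · simp only
        push_cast
        refine (abs_sub _ _).trans ?_
        rw [abs_mul, Nat.abs_cast]
        have h2 : (u : ℝ) ≤ d := by rw [hdd]; exact_mod_cast hu
        have h3 : (u : ℝ) * |(Q.2 : ℝ)| ≤ d * Bd := mul_le_mul h2 hQ2' (abs_nonneg _) (by linarith)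
        have h4 : (1 + (d : ℝ)) * Bd ≤ Z * Z ^ (21 * κ) := by
          apply mul_le_mul _ hBdZ (Nat.cast_nonneg _) hZ0
          refine h1dw.trans ?_
          have := hk 1 (by omega)
          rwa [pow_one] at this
        have h5 : (1 + (d : ℝ)) * Bd = Bd + d * Bd := by ring
        have h6 : Z ^ (21 * κ + 1) = Z * Z ^ (21 * κ) := pow_succ' _ _
        rw [h6]
        linarith
      · refine ⟨RR F (FM c) u, ?_, ?_, ?_⟩
        · rw [hdd]; exact RR_TD (hRd c)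
        · have h1 := pn_RR2 hH21 hpnF (pn_F2_FM he hu hc) hcl (by omega)
          refine h1.trans ?_
          rw [← hdd, ← hN]
          have h2 : (1 + (d : ℝ)) ^ d ≤ w ^ d := pow_le_pow_left₀ (by positivity) h1dw d
          have h3 : H2 ^ (d - 1) ≤ w ^ (d ^ 2) := by
            refine le_trans ?_ hMw
            rw [hM]
            exact pow_le_pow_right₀ hH21 (by omega)
          calc (N : ℝ) * H * (1 + (d : ℝ)) ^ d * H2 ^ (d - 1)
              ≤ w ^ 2 * H * w ^ d * w ^ (d ^ 2) := by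
                apply mul_le_mul _ h3 (by positivity) (by positivity)
                apply mul_le_mul _ h2 (by positivity) (by positivity)
                exact mul_le_mul_of_nonneg_right hNw hH0.le
            _ = w ^ (2 + d + d ^ 2) * H := by rw [pow_add, pow_add]; ring
            _ ≤ Z * H := mul_le_mul_of_nonneg_right (hk _ (by omega)) hH0.le
        · simp only
          apply ev_GG_RR hcl (by omega) (hRd c)
          rw [map_add, eval_FMV, hev]
          ring)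
  rw [hcard] at hmain
  refine hmain.trans ?_
  have hH19 : (H : ℝ) = Z * Z ^ 19 := by rw [← hZ20]; ring
  have h19 : 8 ^ 19 ≤ Z ^ 19 := pow_le_pow_left₀ (by norm_num) hZ8 19
  have e1 : 15 * Z * (H : ℝ) ^ 2 ≤ (H : ℝ) ^ 3 / 2 := by
    have h1 : 30 * Z ≤ H := by rw [hH19]; nlinarith
    have h2 : 30 * Z * (H : ℝ) ^ 2 ≤ H * (H : ℝ) ^ 2 := mul_le_mul_of_nonneg_right h1 (by positivity)
    have h3 : (H : ℝ) ^ 3 = H * (H : ℝ) ^ 2 := by ring
    linarith
  have e2 : (d : ℝ) * (61 * (((21 * κ : ℕ) : ℝ) + 1) * Z ^ 2 * H) ≤ (H : ℝ) ^ 3 / 2 := by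
    have h1 : (d : ℝ) * (61 * (((21 * κ : ℕ) : ℝ) + 1) * Z ^ 2 * H)
        = 61 * ((d : ℝ) * (((21 * κ : ℕ) : ℝ) + 1)) * Z ^ 2 * H := by ring
    rw [h1]
    have h2 : 61 * ((d : ℝ) * (((21 * κ : ℕ) : ℝ) + 1)) * Z ^ 2 * H ≤ 61 * Z * Z ^ 2 * H := by
      apply mul_le_mul_of_nonneg_right _ hH0.le
      apply mul_le_mul_of_nonneg_right _ (by positivity)
      exact mul_le_mul_of_nonneg_left hdn (by norm_num)
    refine h2.trans ?_
    have h3 : 122 * Z ^ 3 ≤ (H : ℝ) ^ 2 := by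
      have h4 : (H : ℝ) ^ 2 = Z ^ 37 * Z ^ 3 := by rw [← hZ20]; ring
      rw [h4]
      apply mul_le_mul_of_nonneg_right _ (by positivity)
      calc (122 : ℝ) ≤ 8 ^ 37 := by norm_num
        _ ≤ Z ^ 37 := pow_le_pow_left₀ (by norm_num) hZ8 37
    have h5 : 122 * Z ^ 3 * H ≤ (H : ℝ) ^ 2 * H := mul_le_mul_of_nonneg_right h3 hH0.le
    have h6 : (H : ℝ) ^ 3 = (H : ℝ) ^ 2 * H := by ring
    have h7 : 61 * Z * Z ^ 2 * H = 61 * Z ^ 3 * H := by ring
    rw [h7, h6]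
    linarith
  linarith

/-- final exponent -/
def kG (d : ℕ) : ℕ := 10 ^ 14 * 36 ^ d * (d + 1) ^ 14

lemma kG_ge {d : ℕ} (hd : 1 ≤ d) : 20 * kk0 d + 26 * 2 ^ d + kN d + 2 ≤ kG d := by
  obtain ⟨a, ha⟩ : ∃ a, a = d + 1 := ⟨_, rfl⟩
  have hda : d ≤ a := by omega
  have ha1 : 1 ≤ a := by omega
  obtain ⟨V, hV⟩ : ∃ V, V = 36 ^ d * a ^ 14 := ⟨_, rfl⟩
  have h36 : 1 ≤ 36 ^ d := Nat.one_le_pow _ _ (by norm_num)
  have key : ∀ k, k ≤ 14 → a ^ k ≤ V := by
    intro k hk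
    rw [hV]
    calc a ^ k ≤ a ^ 14 := Nat.pow_le_pow_right ha1 hk
      _ = 1 * a ^ 14 := (one_mul _).symm
      _ ≤ _ := Nat.mul_le_mul_right _ h36
  have t1 : 150 * (d ^ 2 + 1) * d ^ 3 ≤ 300 * V := by
    have e1 : d ^ 2 + 1 ≤ 2 * a ^ 2 := by
      have : d ^ 2 ≤ a ^ 2 := Nat.pow_le_pow_left hda 2
      have : 1 ≤ a ^ 2 := Nat.one_le_pow _ _ ha1
      omega
    have e2 : d ^ 3 ≤ a ^ 3 := Nat.pow_le_pow_left hda 3
    calc 150 * (d ^ 2 + 1) * d ^ 3 ≤ 150 * (2 * a ^ 2) * a ^ 3 :=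
          Nat.mul_le_mul (Nat.mul_le_mul_left _ e1) e2
      _ = 300 * a ^ 5 := by ring
      _ ≤ _ := Nat.mul_le_mul_left _ (key 5 (by norm_num))
  have t2 : d * (21 * kE d + 1) ≤ 21 * 10 ^ 11 * V + V := by
    have e1 : d * kE d ≤ 10 ^ 11 * V := by
      unfold kE
      rw [← ha, hV]
      calc d * (10 ^ 11 * 36 ^ d * a ^ 13) ≤ a * (10 ^ 11 * 36 ^ d * a ^ 13) :=
            Nat.mul_le_mul_right _ hda
        _ = _ := by ring
    have e2 : d ≤ V := by
      have := key 1 (by norm_num)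
      rw [pow_one] at this
      omega
    calc d * (21 * kE d + 1) = 21 * (d * kE d) + d := by ring
      _ ≤ 21 * (10 ^ 11 * V) + V := Nat.add_le_add (Nat.mul_le_mul_left _ e1) e2
      _ = _ := by ring
  have t3 : 2 ^ d ≤ V := by
    rw [hV]
    calc 2 ^ d ≤ 36 ^ d := Nat.pow_le_pow_left (by norm_num) d
      _ = 36 ^ d * 1 := (mul_one _).symm
      _ ≤ _ := Nat.mul_le_mul_left _ (Nat.one_le_pow _ _ ha1)
  have t4 : kN d ≤ 10 ^ 9 * V := by
    unfold kN
    rw [← ha, hV, mul_assoc]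
    apply Nat.mul_le_mul_left
    apply Nat.mul_le_mul_left
    exact Nat.pow_le_pow_right ha1 (by norm_num)
  have t5 : 1 ≤ V := by
    have := key 0 (by norm_num)
    rwa [pow_zero] at this
  have t6 : kG d = 10 ^ 14 * V := by unfold kG; rw [← ha, hV, mul_assoc]
  rw [t6]
  unfold kk0
  omega

open Classical in
theorem mainG_aux (F : MvPolynomial (Fin 2) ℤ) (H κ ν kk kg : ℕ) (he3 : 3 ≤ e)
    (he : e + 4 ≤ F.totalDegree)
    (hsq : Squarefree (MvPolynomial.map (Int.castRingHom ℚ)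
      (MvPolynomial.homogeneousComponent F.totalDegree F)))
    (hlines : ∀ p q : Fin 2 → ℝ, q ≠ 0 → F.totalDegree ≤
      (MvPolynomial.aeval (fun i => (C (p i) + C (q i) * X : ℝ[X])) F).natDegree + 2)
    (hkk : 150 * (F.totalDegree ^ 2 + 1) * F.totalDegree ^ 3 + F.totalDegree * (21 * κ + 1) ≤ kk)
    (hkG : 20 * kk + 26 * 2 ^ F.totalDegree + ν + 2 ≤ kg)
    (hlarge : ((Bx ↥(Ix e) H).filter (fun c => Irreducible (MvPolynomial.map (Int.castRingHom ℚ)
      (F + FM c)) ∧ ∃ x y : ℤ, MvPolynomial.eval ![x, y] (F + FM c) = 0 ∧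
      ((F.totalDegree + 1) * (len F + (Ix e).card * H)) ^ κ
        < max x.natAbs y.natAbs)).card ≤ ν)
    (hH1 : 1 ≤ H) :
    ((((Bx ↥(Ix e) H).filter (fun c => ∃ x y : ℤ,
      MvPolynomial.eval ![x, y] (F + FM c) = 0)).card : ℕ) : ℝ)
      ≤ (((F.totalDegree + 1) * len F : ℕ) : ℝ) ^ kg *
        (2 * (H : ℝ) + 1) ^ ((Ix e).card - 1) := by
  obtain ⟨d, hdd⟩ : ∃ d, d = F.totalDegree := ⟨_, rfl⟩
  have hd7 : 7 ≤ d := by omega
  have hF0 : F ≠ 0 := by
    rintro rfl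
    simp at he
  have hlen : (1 : ℝ) ≤ len F := by exact_mod_cast len_pos hF0
  have hdR : (7 : ℝ) ≤ d := by exact_mod_cast hd7
  obtain ⟨w, hw⟩ : ∃ w : ℝ, w = ((d : ℝ) + 1) * (len F : ℝ) := ⟨_, rfl⟩
  have hw8 : 8 ≤ w := by rw [hw]; nlinarith
  have hw1 : 1 ≤ w := by linarith
  have hwc : (((F.totalDegree + 1) * len F : ℕ) : ℝ) = w := by rw [hw, hdd]; push_cast; ring
  rw [hwc]
  obtain ⟨n, hn⟩ : ∃ n, n = (Ix e).card := ⟨_, rfl⟩
  have hne : e + 1 ≤ n := by rw [hn]; exact card_Ix_ge e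
  obtain ⟨Bd, hBd⟩ : ∃ Bd : ℕ, Bd = ((F.totalDegree + 1) *
    (len F + (Ix e).card * H)) ^ κ := ⟨_, rfl⟩
  rw [← hBd] at hlarge
  rw [← hn]
  obtain ⟨Y, hY⟩ : ∃ Y : ℝ, Y = (2 * (H : ℝ) + 1) ^ (n - 1) := ⟨_, rfl⟩
  rw [← hY]
  have hHR : (1 : ℝ) ≤ H := by exact_mod_cast hH1
  have hY1 : 1 ≤ Y := by rw [hY]; exact one_le_pow₀ (by linarith)
  obtain ⟨Bad, hBad⟩ : ∃ Bad, Bad = (Bx ↥(Ix e) H).filter (fun c => ∃ x y : ℤ,
      MvPolynomial.eval ![x, y] (F + FM c) = 0) := ⟨_, rfl⟩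
  rw [← hBad]
  by_cases hcase : w ^ (20 * kk) ≤ H
  · -- the four parts
    have p1 := small_pts (e := e) he3 H (fun P => -MvPolynomial.eval ![P.2, P.1] F)
    have p2 := red_count (e := e) F H he hsq
    have p4 := PM_card (e := e) F H Bd κ kk (by omega) he hsq hlines hkk hBd.le
      (by rw [hwc]; exact hcase)
    obtain ⟨A1, hA1⟩ : ∃ A1, A1 = (Bx ↥(Ix e) H).filter (fun c => ∃ P : ℤ × ℤ,
        max P.1.natAbs P.2.natAbs ≤ 2 * H ∧
        ev P.1 P.2 (PG c) = (fun P : ℤ × ℤ => -MvPolynomial.eval ![P.2, P.1] F) P) := ⟨_, rfl⟩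
    obtain ⟨A2, hA2⟩ : ∃ A2, A2 = (Bx ↥(Ix e) H).filter (fun c => ¬ Irreducible
      (MvPolynomial.map (Int.castRingHom ℚ) (F + FM c))) := ⟨_, rfl⟩
    obtain ⟨A3, hA3⟩ : ∃ A3, A3 = (Bx ↥(Ix e) H).filter (fun c => Irreducible
      (MvPolynomial.map (Int.castRingHom ℚ)
      (F + FM c)) ∧ ∃ x y : ℤ, MvPolynomial.eval ![x, y] (F + FM c) = 0 ∧
      Bd < max x.natAbs y.natAbs) := ⟨_, rfl⟩
    obtain ⟨A4, hA4⟩ : ∃ A4, A4 = (PM F e H Bd).biUnion
      (fun P => Bpt e H P (-MvPolynomial.eval ![P.2, P.1] F)) := ⟨_, rfl⟩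
    rw [← hA1, ← hn, ← hY] at p1
    rw [← hA2, ← hn] at p2
    rw [← hA3] at hlarge
    have hsub : Bad ⊆ (A1 ∪ A2) ∪ (A3 ∪ A4) := by
      intro c hc
      rw [hBad, Finset.mem_filter] at hc
      obtain ⟨hc1, x, y, hxy⟩ := hc
      have hev : ev y x (PG c) = -MvPolynomial.eval ![x, y] F := by
        rw [map_add, eval_FMV] at hxy
        linarith
      rw [Finset.mem_union, Finset.mem_union, Finset.mem_union]
      by_cases h1 : max y.natAbs x.natAbs ≤ 2 * H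
      · left; left
        rw [hA1, Finset.mem_filter]
        exact ⟨hc1, (y, x), h1, hev⟩
      · by_cases h2 : Irreducible (MvPolynomial.map (Int.castRingHom ℚ) (F + FM c))
        · right
          by_cases h3 : Bd < max x.natAbs y.natAbs
          · left
            rw [hA3, Finset.mem_filter]
            exact ⟨hc1, h2, x, y, hxy, h3⟩
          · right
            rw [hA4, Finset.mem_biUnion]
            refine ⟨(y, x), ?_, ?_⟩
            · rw [PM, Finset.mem_filter, Finset.mem_product, Finset.mem_Icc, Finset.mem_Icc]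
              have h4 := not_lt.1 h3
              have hx := (le_max_left _ _).trans h4
              have hy := (le_max_right _ _).trans h4
              refine ⟨⟨?_, ?_⟩, ?_, c, hc1, hev⟩
              · simp only; constructor <;> omega
              · simp only; constructor <;> omega
              · simp only; omega
            · rw [Bpt, Finset.mem_filter]
              exact ⟨hc1, hev⟩
        · left; right
          rw [hA2, Finset.mem_filter]
          exact ⟨hc1, h2⟩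
    have hc1 := Finset.card_le_card hsub
    have hc2 := hc1.trans ((Finset.card_union_le _ _).trans (Nat.add_le_add
      (Finset.card_union_le _ _) (Finset.card_union_le _ _)))
    have p5 : A4.card ≤ (PM F e H Bd).card * (2 * H + 1) ^ (n - (e + 1)) := by
      rw [hA4]
      refine Finset.card_biUnion_le.trans ?_
      refine (Finset.sum_le_card_nsmul _ _ ((2 * H + 1) ^ (n - (e + 1))) ?_).trans (by
        rw [smul_eq_mul])
      intro P hP
      rw [PM, Finset.mem_filter] at hP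
      have := Bpt_big (e := e) H P (-MvPolynomial.eval ![P.2, P.1] F) hP.2.1
      rwa [← hn] at this
    have hc3 : (Bad.card : ℝ) ≤ (A1.card : ℝ)
        + ((2 ^ F.totalDegree * (2 * H + 1) ^ (n - 1) : ℕ) : ℝ) +
        ((ν : ℝ) + (((PM F e H Bd).card * (2 * H + 1) ^ (n - (e + 1)) : ℕ) : ℝ)) := by
      have := hc2.trans (Nat.add_le_add (Nat.add_le_add_left p2 _) (Nat.add_le_add hlarge p5))
      exact_mod_cast this
    refine hc3.trans ?_
    rw [← hdd]
    rw [← hdd] at hkG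
    have q2 : ((2 ^ d * (2 * H + 1) ^ (n - 1) : ℕ) : ℝ) = 2 ^ d * Y := by rw [hY]; push_cast; ring
    have q4 : (((PM F e H Bd).card * (2 * H + 1) ^ (n - (e + 1)) : ℕ) : ℝ) ≤ Y := by
      push_cast
      calc ((PM F e H Bd).card : ℝ) * (2 * (H : ℝ) + 1) ^ (n - (e + 1))
          ≤ (2 * (H : ℝ) + 1) ^ e * (2 * (H : ℝ) + 1) ^ (n - (e + 1)) := by
            apply mul_le_mul_of_nonneg_right _ (by positivity)
            refine p4.trans ?_
            calc (H : ℝ) ^ 3 ≤ (2 * (H : ℝ) + 1) ^ 3 := pow_le_pow_left₀ (by linarith) (by linarith) 3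
              _ ≤ _ := pow_le_pow_right₀ (by linarith) he3
        _ = Y := by rw [hY, ← pow_add]; congr 1; omega
    have q3 : (ν : ℝ) ≤ ν * Y := le_mul_of_one_le_right (Nat.cast_nonneg _) hY1
    rw [q2]
    have h2e : (2 : ℝ) ^ e ≤ 2 ^ d := pow_le_pow_right₀ (by norm_num) (by omega)
    have q5 : 25 * 2 ^ e * Y ≤ 25 * 2 ^ d * Y := by
      apply mul_le_mul_of_nonneg_right _ (by linarith)
      linarith
    have q6 : (26 * 2 ^ d + (ν : ℝ) + 1) ≤ w ^ kg := by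
      have h1 : ((26 * 2 ^ d + ν + 1 : ℕ) : ℝ) ≤ 2 ^ (26 * 2 ^ d + ν + 1) := by
        exact_mod_cast Nat.lt_two_pow_self.le
      push_cast at h1
      refine h1.trans ?_
      calc (2 : ℝ) ^ (26 * 2 ^ d + ν + 1) ≤ w ^ (26 * 2 ^ d + ν + 1) :=
            pow_le_pow_left₀ (by norm_num) (by linarith) _
        _ ≤ _ := pow_le_pow_right₀ hw1 (by omega)
    have q7 : (26 * 2 ^ d + (ν : ℝ) + 1) * Y ≤ w ^ kg * Y :=
      mul_le_mul_of_nonneg_right q6 (by linarith)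
    have q8 : (26 * 2 ^ d + (ν : ℝ) + 1) * Y = 25 * 2 ^ d * Y + 2 ^ d * Y + (ν * Y + Y) := by
      ring
    linarith
  · push_neg at hcase
    have h1 : Bad.card ≤ (2 * H + 1) ^ n := by
      rw [hBad]
      refine (Finset.card_filter_le _ _).trans ?_
      rw [card_Bx, Fintype.card_coe, hn]
    have h2 : (Bad.card : ℝ) ≤ (((2 * H + 1) ^ n : ℕ) : ℝ) := by exact_mod_cast h1
    refine h2.trans ?_
    push_cast
    have h3 : (2 * (H : ℝ) + 1) ^ n = (2 * (H : ℝ) + 1) * Y := by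
      rw [hY, ← pow_succ']; congr 1; omega
    rw [h3]
    apply mul_le_mul_of_nonneg_right _ (by linarith)
    calc 2 * (H : ℝ) + 1 ≤ w * H := by nlinarith
      _ ≤ w * w ^ (20 * kk) := mul_le_mul_of_nonneg_left hcase.le (by linarith)
      _ = w ^ (20 * kk + 1) := by rw [pow_succ]; ring
      _ ≤ _ := pow_le_pow_right₀ hw1 (by omega)

open Classical in
theorem mainG (F : MvPolynomial (Fin 2) ℤ) (H : ℕ) (he3 : 3 ≤ e) (he : e + 4 ≤ F.totalDegree)
    (hsq : Squarefree (MvPolynomial.map (Int.castRingHom ℚ)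
      (MvPolynomial.homogeneousComponent F.totalDegree F)))
    (hlines : ∀ p q : Fin 2 → ℝ, q ≠ 0 → F.totalDegree ≤
      (MvPolynomial.aeval (fun i => (C (p i) + C (q i) * X : ℝ[X])) F).natDegree + 2)
    (hH1 : 1 ≤ H) :
    ((((Bx ↥(Ix e) H).filter (fun c => ∃ x y : ℤ,
      MvPolynomial.eval ![x, y] (F + FM c) = 0)).card : ℕ) : ℝ)
      ≤ (((F.totalDegree + 1) * len F : ℕ) : ℝ) ^ (kG F.totalDegree) *
        (2 * (H : ℝ) + 1) ^ ((Ix e).card - 1) :=
  mainG_aux F H (kE F.totalDegree) (kN F.totalDegree) (kk0 F.totalDegree) (kG F.totalDegree)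
    he3 he hsq hlines (le_refl _) (kG_ge (by omega)) (large_count F H (by omega) he hsq hlines) hH1

open Classical in
theorem low_count (F : MvPolynomial (Fin 2) ℤ) (H : ℕ) (hF0 : |F.coeff 0| ≤ (H : ℤ)) :
    (2 * H + 1) ^ ((Ix e).card - 1) ≤ ((Bx ↥(Ix e) H).filter (fun c => ∃ x y : ℤ,
      MvPolynomial.eval ![x, y] (F + FM c) = 0)).card := by
  obtain ⟨R, hR⟩ : ∃ R : Finset ↥(Ix e), R = {i00 e}ᶜ := ⟨_, rfl⟩
  have hRc : R.card = (Ix e).card - 1 := by
    rw [hR, Finset.card_compl, Finset.card_singleton, Fintype.card_coe]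
  have h1 : (2 * H + 1) ^ ((Ix e).card - 1) = (Bx ↥R H).card := by
    rw [card_Bx, Fintype.card_coe, hRc]
  rw [h1]
  apply Finset.card_le_card_of_injOn
    (fun r : ↥R → ℤ => fun p : ↥(Ix e) => if h : p ∈ R then r ⟨p, h⟩ else -F.coeff 0)
  · intro r hr
    rw [Finset.mem_coe] at hr
    rw [Finset.mem_coe, Finset.mem_filter]
    constructor
    · rw [mem_Bx]
      intro p
      simp only
      split_ifs with h
      · exact mem_Bx.1 hr _
      · rw [abs_neg]; exact hF0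
    · refine ⟨0, 0, ?_⟩
      rw [map_add, eval_FMV, ev_zero_PG]
      have h2 : i00 e ∉ R := by rw [hR]; simp
      simp only
      rw [dif_neg h2]
      have h3 : MvPolynomial.eval (![0, 0] : Fin 2 → ℤ) F = F.coeff 0 := by
        have : (![0, 0] : Fin 2 → ℤ) = 0 := by
          funext i; fin_cases i <;> rfl
        rw [this, MvPolynomial.eval_zero, MvPolynomial.constantCoeff_eq]
      rw [h3]; ring
  · intro r _ r' _ h
    funext p
    have := congrFun h p.1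
    simp only [dif_pos p.2] at this
    exact this

end Pool.Agent.H322R2
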