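import Pool.Agent.H322R2.GWin2

/-!
Integer points close to a smooth branch, counted through lines only.
-/

open Finset

namespace Pool.Agent.H322R2

section

variable {η β γ κ Z W X : ℝ} (hZ : 2 ≤ Z) (hW : Z ≤ W) (hX : W ≤ X)
  (hβ : |β| ≤ Z) (hγ1 : |γ| ≤ Z) (hκ : |κ| ≤ Z) (hγ : 1 / Z ≤ |γ|)

include hZ hW hX hγ1 hκ hγ in
lemma gap3 (hXZ : 6 * Z ^ 2 ≤ X) {a0 a1 a2 b0 b1 b2 : ℤ}
    (h0 : X ≤ |(a0 : ℝ)| ∧ |(a0 : ℝ)| ≤ X * Z) (h1 : X ≤ |(a1 : ℝ)| ∧ |(a1 : ℝ)| ≤ X * Z)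
    (h2 : X ≤ |(a2 : ℝ)| ∧ |(a2 : ℝ)| ≤ X * Z) (n0 : Nr η β γ κ W a0 b0)
    (n1 : Nr η β γ κ W a1 b1) (n2 : Nr η β γ κ W a2 b2)
    (h01 : a0 < a1) (h12 : a1 < a2) (hL : 13 * Z * ((a2 : ℝ) - a0) ≤ X) :
    ((a1 : ℝ) - a0) * ((a2 : ℝ) - a1) ≤ 8 * W * Z ^ 4 := by
  have hX0 : 0 < X := by linarith
  have hX1 : 1 ≤ X := by linarith
  have hZ0 : 0 < Z := by linarith
  have hW0 : 0 < W := by linarith
  obtain ⟨A1, hA1⟩ : ∃ A1 : ℝ, A1 = (a1 : ℝ) - a0 := ⟨_, rfl⟩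
  obtain ⟨A2, hA2⟩ : ∃ A2 : ℝ, A2 = (a2 : ℝ) - a0 := ⟨_, rfl⟩
  have hA1p : 1 ≤ A1 := by
    rw [hA1]
    have : a0 + 1 ≤ a1 := h01
    have h : ((a0 + 1 : ℤ) : ℝ) ≤ a1 := by exact_mod_cast this
    push_cast at h; linarith
  have hA3p : 1 ≤ (a2 : ℝ) - a1 := by
    have : a1 + 1 ≤ a2 := h12
    have h : ((a1 + 1 : ℤ) : ℝ) ≤ a2 := by exact_mod_cast this
    push_cast at h; linarith
  have hA12 : A1 ≤ A2 := by rw [hA1, hA2]; linarith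
  have hA2p : 1 ≤ A2 := by linarith
  -- collinear
  have hD : (a1 - a0) * (b2 - b0) - (a2 - a0) * (b1 - b0) = 0 := by
    have e0 := e_bound2 (η := η) (β := β) hZ hW hX hγ1 hκ h0.1 n0
    have e1 := e_bound2 (η := η) (β := β) hZ hW hX hγ1 hκ h1.1 n1
    have e2 := e_bound2 (η := η) (β := β) hZ hW hX hγ1 hκ h2.1 n2
    obtain ⟨s0, hs0⟩ : ∃ s0 : ℝ, s0 = (b0 : ℝ) - η * a0 - β := ⟨_, rfl⟩
    obtain ⟨s1, hs1⟩ : ∃ s1 : ℝ, s1 = (b1 : ℝ) - η * a1 - β := ⟨_, rfl⟩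
    obtain ⟨s2, hs2⟩ : ∃ s2 : ℝ, s2 = (b2 : ℝ) - η * a2 - β := ⟨_, rfl⟩
    rw [← hs0] at e0
    rw [← hs1] at e1
    rw [← hs2] at e2
    obtain ⟨ε, hε⟩ : ∃ ε : ℝ, ε = 3 * Z / X := ⟨_, rfl⟩
    rw [← hε] at e0 e1 e2
    have hid : (((a1 - a0) * (b2 - b0) - (a2 - a0) * (b1 - b0) : ℤ) : ℝ)
        = A1 * (s2 - s0) - A2 * (s1 - s0) := by
      rw [hA1, hA2, hs0, hs1, hs2]; push_cast; ring
    have hε0 : 0 ≤ ε := (abs_nonneg _).trans e0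
    have hlt : |(((a1 - a0) * (b2 - b0) - (a2 - a0) * (b1 - b0) : ℤ) : ℝ)| < 1 := by
      rw [hid]
      have f1 := abs_sub s2 s0
      have f2 := abs_sub s1 s0
      have f3 : |A1 * (s2 - s0)| ≤ A2 * (2 * ε) := by
        rw [abs_mul, abs_of_pos (by linarith : 0 < A1)]
        exact mul_le_mul hA12 (by linarith) (abs_nonneg _) (by linarith)
      have f4 : |A2 * (s1 - s0)| ≤ A2 * (2 * ε) := by
        rw [abs_mul, abs_of_pos (by linarith : 0 < A2)]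
        exact mul_le_mul le_rfl (by linarith) (abs_nonneg _) (by linarith)
      have f5 := abs_sub (A1 * (s2 - s0)) (A2 * (s1 - s0))
      have f6 : A2 * (4 * ε) < 1 := by
        have f7 : A2 * (4 * ε) = (12 * (Z * A2)) / X := by rw [hε]; ring
        rw [f7, div_lt_one hX0]
        rw [← hA2] at hL
        have : 0 < Z * A2 := by positivity
        nlinarith
      linarith
    have h3 : |(a1 - a0) * (b2 - b0) - (a2 - a0) * (b1 - b0)| < 1 := by exact_mod_cast hlt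
    have h4 := abs_nonneg ((a1 - a0) * (b2 - b0) - (a2 - a0) * (b1 - b0))
    have h5 : |(a1 - a0) * (b2 - b0) - (a2 - a0) * (b1 - b0)| = 0 := by omega
    exact abs_eq_zero.1 h5
  -- second difference
  have ha0 : (a0 : ℝ) ≠ 0 := abs_pos.1 (by linarith [h0.1])
  have ha1 : (a1 : ℝ) ≠ 0 := abs_pos.1 (by linarith [h1.1])
  have ha2 : (a2 : ℝ) ≠ 0 := abs_pos.1 (by linarith [h2.1])
  obtain ⟨r0, hr0⟩ : ∃ r0 : ℝ, r0 = (b0 : ℝ) - η * a0 - β - γ / a0 - κ / (a0 : ℝ) ^ 2 := ⟨_, rfl⟩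
  obtain ⟨r1, hr1⟩ : ∃ r1 : ℝ, r1 = (b1 : ℝ) - η * a1 - β - γ / a1 - κ / (a1 : ℝ) ^ 2 := ⟨_, rfl⟩
  obtain ⟨r2, hr2⟩ : ∃ r2 : ℝ, r2 = (b2 : ℝ) - η * a2 - β - γ / a2 - κ / (a2 : ℝ) ^ 2 := ⟨_, rfl⟩
  have hrb : ∀ (a b : ℤ) (r : ℝ), r = (b : ℝ) - η * a - β - γ / a - κ / (a : ℝ) ^ 2 →
      X ≤ |(a : ℝ)| → Nr η β γ κ W a b → |r| ≤ W / X ^ 3 := by
    intro a b r hr hXa hn
    rw [hr]
    refine hn.trans ?_
    exact div_le_div_of_nonneg_left hW0.le (by positivity) (pow_le_pow_left₀ hX0.le hXa 3)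
  have br0 := hrb a0 b0 r0 hr0 h0.1 n0
  have br1 := hrb a1 b1 r1 hr1 h1.1 n1
  have br2 := hrb a2 b2 r2 hr2 h2.1 n2
  have hDR : A1 * ((b2 : ℝ) - b0) - A2 * ((b1 : ℝ) - b0) = 0 := by
    rw [hA1, hA2]; exact_mod_cast hD
  have hid : A1 * A2 * (((a2 : ℝ) - a1) / (a0 * a1 * a2) * (γ + κ * ((a0 : ℝ)⁻¹ + (a1 : ℝ)⁻¹
      + (a2 : ℝ)⁻¹))) = A2 * (r1 - r0) - A1 * (r2 - r0) := by
    rw [hr0, hr1, hr2]
    have : A2 * ((b1 : ℝ) - η * a1 - β - γ / a1 - κ / (a1 : ℝ) ^ 2 -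
          ((b0 : ℝ) - η * a0 - β - γ / a0 - κ / (a0 : ℝ) ^ 2)) -
        A1 * ((b2 : ℝ) - η * a2 - β - γ / a2 - κ / (a2 : ℝ) ^ 2 -
          ((b0 : ℝ) - η * a0 - β - γ / a0 - κ / (a0 : ℝ) ^ 2))
        = A2 * ((b1 : ℝ) - b0) - A1 * ((b2 : ℝ) - b0)
          - η * (A2 * ((a1 : ℝ) - a0) - A1 * ((a2 : ℝ) - a0))
          - A2 * (γ / a1 - γ / a0) + A1 * (γ / a2 - γ / a0)
          - A2 * (κ / (a1 : ℝ) ^ 2 - κ / (a0 : ℝ) ^ 2)
          + A1 * (κ / (a2 : ℝ) ^ 2 - κ / (a0 : ℝ) ^ 2) := by ring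
    rw [this]
    have h3 : A2 * ((b1 : ℝ) - b0) - A1 * ((b2 : ℝ) - b0) = 0 := by linarith
    rw [h3, hA1, hA2]
    field_simp
    ring
  have hin : 1 / (2 * Z) ≤ |γ + κ * ((a0 : ℝ)⁻¹ + (a1 : ℝ)⁻¹ + (a2 : ℝ)⁻¹)| := by
    have k0 : ∀ a : ℤ, X ≤ |(a : ℝ)| → |(a : ℝ)⁻¹| ≤ 1 / X := by
      intro a ha
      rw [abs_inv, one_div]
      exact inv_anti₀ hX0 ha
    have k1 : |κ * ((a0 : ℝ)⁻¹ + (a1 : ℝ)⁻¹ + (a2 : ℝ)⁻¹)| ≤ Z * (3 / X) := by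
      rw [abs_mul]
      apply mul_le_mul hκ _ (abs_nonneg _) hZ0.le
      have e1 := k0 a0 h0.1
      have e2 := k0 a1 h1.1
      have e3 := k0 a2 h2.1
      have e4 := abs_add_le ((a0 : ℝ)⁻¹ + (a1 : ℝ)⁻¹) (a2 : ℝ)⁻¹
      have e5 := abs_add_le (a0 : ℝ)⁻¹ (a1 : ℝ)⁻¹
      have e6 : 3 / X = 1 / X + 1 / X + 1 / X := by ring
      rw [e6]; linarith
    have k2 : Z * (3 / X) ≤ 1 / (2 * Z) := by
      rw [mul_div_assoc', div_le_div_iff₀ hX0 (by positivity)]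
      nlinarith
    have k3 : 1 / Z = 1 / (2 * Z) + 1 / (2 * Z) := by field_simp; ring
    have k4 : |γ| ≤ |γ + κ * ((a0 : ℝ)⁻¹ + (a1 : ℝ)⁻¹ + (a2 : ℝ)⁻¹)|
        + |κ * ((a0 : ℝ)⁻¹ + (a1 : ℝ)⁻¹ + (a2 : ℝ)⁻¹)| := by
      have := abs_sub (γ + κ * ((a0 : ℝ)⁻¹ + (a1 : ℝ)⁻¹ + (a2 : ℝ)⁻¹))
        (κ * ((a0 : ℝ)⁻¹ + (a1 : ℝ)⁻¹ + (a2 : ℝ)⁻¹))
      rwa [add_sub_cancel_right] at this
    linarith
  have hrhs : |A2 * (r1 - r0) - A1 * (r2 - r0)| ≤ A2 * (4 * W / X ^ 3) := by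
    refine (abs_sub _ _).trans ?_
    rw [abs_mul, abs_mul, abs_of_pos (by linarith : 0 < A1), abs_of_pos (by linarith : 0 < A2)]
    have h3 : |r1 - r0| ≤ 2 * (W / X ^ 3) := (abs_sub _ _).trans (by linarith)
    have h4 : |r2 - r0| ≤ 2 * (W / X ^ 3) := (abs_sub _ _).trans (by linarith)
    have h5 : A2 * |r1 - r0| ≤ A2 * (2 * (W / X ^ 3)) := mul_le_mul_of_nonneg_left h3 (by linarith)
    have h6 : A1 * |r2 - r0| ≤ A2 * (2 * (W / X ^ 3)) :=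
      mul_le_mul hA12 h4 (abs_nonneg _) (by linarith)
    have h7 : A2 * (4 * W / X ^ 3) = A2 * (2 * (W / X ^ 3)) + A2 * (2 * (W / X ^ 3)) := by ring
    linarith
  rw [← hid, abs_mul, abs_mul, abs_mul, abs_div, abs_mul, abs_mul,
    abs_of_pos (by linarith : 0 < A1), abs_of_pos (by linarith : 0 < A2),
    abs_of_pos (by linarith : 0 < (a2 : ℝ) - a1)] at hrhs
  have h5 : |(a0 : ℝ)| * |(a1 : ℝ)| * |(a2 : ℝ)| ≤ X ^ 3 * Z ^ 3 := by
    calc |(a0 : ℝ)| * |(a1 : ℝ)| * |(a2 : ℝ)| ≤ (X * Z) * (X * Z) * (X * Z) := by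
          apply mul_le_mul (mul_le_mul h0.2 h1.2 (abs_nonneg _) (by positivity)) h2.2 (abs_nonneg _)
            (by positivity)
      _ = _ := by ring
  have h6 : A1 * A2 * (((a2 : ℝ) - a1) / (X ^ 3 * Z ^ 3) * (1 / (2 * Z))) ≤ A2 * (4 * W / X ^ 3) := by
    refine le_trans ?_ hrhs
    apply mul_le_mul_of_nonneg_left _ (by positivity)
    apply mul_le_mul _ hin (by positivity) (by positivity)
    apply div_le_div_of_nonneg_left (by linarith) _ h5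
    have := abs_pos.2 ha0
    have := abs_pos.2 ha1
    have := abs_pos.2 ha2
    positivity
  have h7 : A1 * A2 * (((a2 : ℝ) - a1) / (X ^ 3 * Z ^ 3) * (1 / (2 * Z)))
      = A2 / (2 * Z ^ 4 * X ^ 3) * (A1 * ((a2 : ℝ) - a1)) := by
    field_simp
  have h8 : A2 * (4 * W / X ^ 3) = A2 / (2 * Z ^ 4 * X ^ 3) * (8 * W * Z ^ 4) := by
    field_simp; ring
  rw [h7, h8] at h6
  rw [← hA1]
  exact le_of_mul_le_mul_left h6 (by positivity)

include hZ hW hX hγ1 hκ hγ in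
lemma sub_card (hXZ : 6 * Z ^ 2 ≤ X) (s : ℕ) (hs : 8 * W * Z ^ 4 < (s : ℝ) ^ 2)
    (T : Finset (ℤ × ℤ)) (ha : ∀ P ∈ T, X ≤ |(P.1 : ℝ)| ∧ |(P.1 : ℝ)| ≤ X * Z)
    (hn : ∀ P ∈ T, Nr η β γ κ W P.1 P.2)
    (hL : ∀ P ∈ T, ∀ Q ∈ T, 13 * Z * ((P.1 : ℝ) - Q.1) ≤ X) : T.card ≤ 2 * s := by
  classical
  rcases T.eq_empty_or_nonempty with hT0 | hT0
  · rw [hT0]; simp
  have hinj : Set.InjOn Prod.fst (T : Set (ℤ × ℤ)) := by
    intro P hP Q hQ h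
    apply Prod.ext h
    have h2 := hn P hP
    have h3 := hn Q hQ
    rw [← h] at h3
    exact b_unique2 hZ hW hX (ha P hP).1 h2 h3
  have hcard : (T.image Prod.fst).card = T.card := Finset.card_image_of_injOn hinj
  obtain ⟨P0, hP0, hmin⟩ := Finset.exists_min_image T (fun P => P.1) hT0
  obtain ⟨P2, hP2, hmax⟩ := Finset.exists_max_image T (fun P => P.1) hT0
  have hsub : T.image Prod.fst ⊆ Ico P0.1 (P0.1 + s) ∪ Ioc (P2.1 - s) P2.1 := by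
    intro a haT
    rw [Finset.mem_image] at haT
    obtain ⟨P, hP, rfl⟩ := haT
    rw [Finset.mem_union, Finset.mem_Ico, Finset.mem_Ioc]
    have h1 := hmin P hP
    have h2 := hmax P hP
    by_contra hcon
    push_neg at hcon
    obtain ⟨c1, c2⟩ := hcon
    have d1 := c1 h1
    have d2 : P.1 ≤ P2.1 - s := by
      by_contra h
      push_neg at h
      have := c2 h
      omega
    have hs1 : 1 ≤ s := by
      rcases Nat.eq_zero_or_pos s with h | h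
      · rw [h] at hs
        have : 0 ≤ 8 * W * Z ^ 4 := by
          have : 0 ≤ W := by linarith
          positivity
        norm_num at hs
        linarith
      · exact h
    have h3 := gap3 (η := η) (β := β) hZ hW hX hγ1 hκ hγ hXZ (ha P0 hP0) (ha P hP) (ha P2 hP2)
      (hn P0 hP0) (hn P hP) (hn P2 hP2) (by omega) (by omega) (hL P2 hP2 P0 hP0)
    have e1 : (s : ℝ) ≤ (P.1 : ℝ) - P0.1 := by
      have : ((P0.1 + s : ℤ) : ℝ) ≤ (P.1 : ℤ) := by exact_mod_cast d1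
      push_cast at this; linarith
    have e2 : (s : ℝ) ≤ (P2.1 : ℝ) - P.1 := by
      have : ((P.1 : ℤ) : ℝ) ≤ ((P2.1 - s : ℤ) : ℝ) := by exact_mod_cast d2
      push_cast at this; linarith
    have e3 : (s : ℝ) ^ 2 ≤ ((P.1 : ℝ) - P0.1) * ((P2.1 : ℝ) - P.1) := by
      rw [sq]
      exact mul_le_mul e1 e2 (by positivity) (by have : (0 : ℝ) ≤ s := by positivity
                                                 linarith)
    linarith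
  rw [← hcard]
  refine (Finset.card_le_card hsub).trans ((Finset.card_union_le _ _).trans ?_)
  rw [Int.card_Ico, Int.card_Ioc]
  have e1 : P0.1 + (s : ℤ) - P0.1 = s := by ring
  have e2 : P2.1 - (P2.1 - (s : ℤ)) = s := by ring
  rw [e1, e2]
  simp
  omega

include hZ hW hX hγ1 hκ hγ in
lemma win_lin (hXZ : 6 * Z ^ 2 ≤ X) (s m : ℕ) (hs : 8 * W * Z ^ 4 < (s : ℝ) ^ 2)
    (hm : 13 * Z ^ 2 ≤ (m : ℝ))
    (T : Finset (ℤ × ℤ)) (ha : ∀ P ∈ T, X ≤ |(P.1 : ℝ)| ∧ |(P.1 : ℝ)| ≤ X * Z)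
    (hn : ∀ P ∈ T, Nr η β γ κ W P.1 P.2) : T.card ≤ 2 * s * (2 * m + 1) := by
  classical
  have hX0 : 0 < X := by linarith
  have hZ0 : 0 < Z := by linarith
  obtain ⟨f, hf⟩ : ∃ f : ℤ × ℤ → ℤ, f = fun P => ⌊13 * Z * (P.1 : ℝ) / X⌋ := ⟨_, rfl⟩
  have h1 := Finset.card_le_mul_card_image_of_maps_to (s := T) (t := Icc (-(m : ℤ)) m) (f := f)
    (by
      intro P hP
      have h2 : |13 * Z * (P.1 : ℝ) / X| ≤ m := by
        refine le_trans ?_ hm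
        rw [abs_div, abs_mul, abs_of_pos (by positivity : 0 < 13 * Z), abs_of_pos hX0,
          div_le_iff₀ hX0]
        calc 13 * Z * |(P.1 : ℝ)| ≤ 13 * Z * (X * Z) :=
              mul_le_mul_of_nonneg_left (ha P hP).2 (by positivity)
          _ = 13 * Z ^ 2 * X := by ring
      rw [abs_le] at h2
      rw [Finset.mem_Icc, hf]
      constructor
      · rw [Int.le_floor]; push_cast; exact h2.1
      · have := Int.floor_le (13 * Z * (P.1 : ℝ) / X)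
        have h3 : (⌊13 * Z * (P.1 : ℝ) / X⌋ : ℝ) ≤ m := this.trans h2.2
        exact_mod_cast h3) (2 * s) (by
      intro v _
      apply sub_card (η := η) (β := β) hZ hW hX hγ1 hκ hγ hXZ s hs
      · intro P hP
        rw [Finset.mem_filter] at hP
        exact ha P hP.1
      · intro P hP
        rw [Finset.mem_filter] at hP
        exact hn P hP.1
      · intro P hP Q hQ
        rw [Finset.mem_filter, hf] at hP hQ
        have e1 := Int.lt_floor_add_one (13 * Z * (P.1 : ℝ) / X)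
        have e2 := Int.floor_le (13 * Z * (Q.1 : ℝ) / X)
        have e3 : (⌊13 * Z * (P.1 : ℝ) / X⌋ : ℝ) = ⌊13 * Z * (Q.1 : ℝ) / X⌋ := by
          have : ⌊13 * Z * (P.1 : ℝ) / X⌋ = ⌊13 * Z * (Q.1 : ℝ) / X⌋ := hP.2.trans hQ.2.symm
          exact_mod_cast this
        rw [e3] at e1
        have e4 : 13 * Z * (P.1 : ℝ) / X - 13 * Z * (Q.1 : ℝ) / X < 1 := by linarith
        have e5 : 13 * Z * (P.1 : ℝ) / X - 13 * Z * (Q.1 : ℝ) / X
            = (13 * Z * ((P.1 : ℝ) - Q.1)) / X := by ring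
        rw [e5, div_lt_one hX0] at e4
        exact e4.le)
  refine h1.trans (le_of_eq ?_)
  congr 1
  rw [Int.card_Icc]
  omega

include hZ hW hX hγ1 hκ hγ in
lemma med_count (hXZ : 6 * Z ^ 2 ≤ X) (s m : ℕ) (hs : 8 * W * Z ^ 4 < (s : ℝ) ^ 2)
    (hm : 13 * Z ^ 2 ≤ (m : ℝ)) (n : ℕ)
    (T : Finset (ℤ × ℤ)) (ha : ∀ P ∈ T, X ≤ |(P.1 : ℝ)| ∧ |(P.1 : ℝ)| ≤ X * Z ^ (n + 1))
    (hn : ∀ P ∈ T, Nr η β γ κ W P.1 P.2) : T.card ≤ (n + 1) * (2 * s * (2 * m + 1)) := by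
  classical
  induction n generalizing T with
  | zero =>
    have := win_lin (η := η) (β := β) hZ hW hX hγ1 hκ hγ hXZ s m hs hm T (by simpa using ha) hn
    rw [zero_add, one_mul]; exact this
  | succ n ih =>
    have hsplit := Finset.card_filter_add_card_filter_not (s := T)
      (fun P : ℤ × ℤ => |(P.1 : ℝ)| ≤ X * Z ^ (n + 1))
    have h1 := ih (T.filter fun P : ℤ × ℤ => |(P.1 : ℝ)| ≤ X * Z ^ (n + 1))
      (by
        intro P hP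
        rw [Finset.mem_filter] at hP
        exact ⟨(ha P hP.1).1, hP.2⟩)
      (by
        intro P hP
        rw [Finset.mem_filter] at hP
        exact hn P hP.1)
    have hXX : X ≤ X * Z ^ (n + 1) := by
      apply le_mul_of_one_le_right (by linarith) (one_le_pow₀ (by linarith))
    have h2 := win_lin (η := η) (β := β) (X := X * Z ^ (n + 1)) hZ hW (by linarith) hγ1 hκ hγ
      (by linarith) s m hs hm
      (T.filter fun P : ℤ × ℤ => ¬ |(P.1 : ℝ)| ≤ X * Z ^ (n + 1))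
      (by
        intro P hP
        rw [Finset.mem_filter] at hP
        refine ⟨(not_le.1 hP.2).le, ?_⟩
        have := (ha P hP.1).2
        rw [pow_succ] at this
        linarith)
      (by
        intro P hP
        rw [Finset.mem_filter] at hP
        exact hn P hP.1)
    have h3 : (n + 1 + 1) * (2 * s * (2 * m + 1)) = (n + 1) * (2 * s * (2 * m + 1))
        + 2 * s * (2 * m + 1) := by ring
    omega

end

end Pool.Agent.H322R2
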