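import Pool.Agent.H322R2.Gam
import Pool.Agent.H322R2.Count
import Pool.Agent.H322R2.Monic

/-!
Counting the large integer points on all curves `G + R = 0`, `deg R ≤ d - 4`, monic case.
-/

open Polynomial Finset

namespace Pool.Agent.H322R2

section irr

variable {g : ℤ[X]} {d : ℕ} (hm : g.Monic) (hd : g.natDegree = d)
  (hirr : Irreducible (g.map (Int.castRingHom ℚ)))

include hm hd hirr in
lemma nrm_ne_of_irr (V : ℤ[X]) (η : ℝ) (hη : evf η g = 0) (hV : evf η V ≠ 0) :
    nrm g d V ≠ 0 := by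
  apply nrm_ne_zero_of_coprime g d hm hd V
  rw [hirr.coprime_iff_not_dvd]
  rintro ⟨q, hq⟩
  apply hV
  have h1 : ∀ p : ℤ[X], evf η p = eval₂ (algebraMap ℚ ℝ) η (p.map (Int.castRingHom ℚ)) := by
    intro p
    rw [eval₂_map, evf, coe_eval₂RingHom]
    congr 1
  rw [h1, hq, eval₂_mul, ← h1, hη, zero_mul]

include hm hd hirr in
lemma nrm_ne_of_irr_deg (V : ℤ[X]) (hV : V ≠ 0) (hVd : V.natDegree < d) : nrm g d V ≠ 0 := by
  apply nrm_ne_zero_of_coprime g d hm hd V
  rw [hirr.coprime_iff_not_dvd]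
  intro h
  have hinj : Function.Injective (Int.castRingHom ℚ) := Int.cast_injective
  have h1 : V.map (Int.castRingHom ℚ) ≠ 0 := by
    rw [Ne, Polynomial.map_eq_zero_iff hinj]; exact hV
  have h2 := natDegree_le_of_dvd h h1
  rw [natDegree_map_eq_of_injective hinj, natDegree_map_eq_of_injective hinj, hd] at h2
  omega

include hm hd hirr in
lemma NA_irr (hd4 : 4 ≤ d) (η : ℝ) (hη : evf η g = 0) {Z W X0 : ℝ} (hZ : 3 ≤ Z)
    (hgZ : 1 + pn zn g ≤ Z) (hηZ : |η| ≤ Z) (hW : 0 ≤ W) (hWZ : W ≤ Z ^ 2)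
    (hX : Z ^ (20 * d ^ 2) ≤ X0) : NA η (W ^ 25) (W ^ 33 / X0) := by
  have hZ0 : 0 < Z := by linarith
  have hZ1 : 1 ≤ Z := by linarith
  have h25 : W ^ 25 ≤ Z ^ 50 := by
    calc W ^ 25 ≤ (Z ^ 2) ^ 25 := pow_le_pow_left₀ hW hWZ 25
      _ = Z ^ 50 := by rw [← pow_mul]
  have h33 : W ^ 33 / X0 ≤ Z ^ 66 / Z ^ (20 * d ^ 2) := by
    have : W ^ 33 ≤ Z ^ 66 := by
      calc W ^ 33 ≤ (Z ^ 2) ^ 33 := pow_le_pow_left₀ hW hWZ 33
        _ = Z ^ 66 := by rw [← pow_mul]
    exact div_le_div₀ (by positivity) this (by positivity) hX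
  refine NA.mono (A := Z ^ 50) (B := Z ^ 66 / Z ^ (20 * d ^ 2)) ?_ h25 h33
  intro p q r h0 hp hq hr
  by_contra hcon
  push_neg at hcon
  obtain ⟨V, hV⟩ : ∃ V : ℤ[X], V = C p + C q * X + C r * X ^ 2 := ⟨_, rfl⟩
  have hVev : evf η V = p + q * η + r * η ^ 2 := by rw [hV]; simp
  have hVn : V.natDegree ≤ 2 := by
    rw [hV]; compute_degree
  have hV0 : V ≠ 0 := by
    intro h
    have c0 := congrArg (fun f => coeff f 0) h
    have c1 := congrArg (fun f => coeff f 1) h
    have c2 := congrArg (fun f => coeff f 2) h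
    simp only [hV, coeff_add, coeff_C_mul, coeff_X_pow, coeff_C, coeff_X, coeff_zero] at c0 c1 c2
    norm_num at c0 c1 c2
    rcases h0 with h | h | h
    · exact h c0
    · exact h c1
    · exact h c2
  have hpn : pn zn V ≤ Z ^ 51 := by
    have h1 : pn zn V ≤ |(p : ℝ)| + |(q : ℝ)| + |(r : ℝ)| := by
      rw [pn_eq_range zn V (show V.natDegree < 3 by omega)]
      simp only [Finset.sum_range_succ, Finset.sum_range_zero, hV, coeff_add, coeff_C_mul,
        coeff_X_pow, coeff_C, coeff_X, zn_apply]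
      norm_num
    have h2 : Z ^ 51 = Z * Z ^ 50 := by ring
    rw [h2]
    have h3 : 0 ≤ Z ^ 50 := by positivity
    nlinarith
  have hpg : 0 ≤ pn zn g := apply_nonneg _ _
  have hlow := one_le_of_root' (𝕜 := ℝ) g d (by omega) hm hd V
    (nrm_ne_of_irr_deg hm hd hirr V hV0 (by omega)) Z (Z ^ 51) 2 hZ1 hgZ hpn
    (one_le_pow₀ hZ1) hVn η hη (by rw [Real.norm_eq_abs]; exact hηZ)
  rw [Real.norm_eq_abs, hVev] at hlow
  have hdZ : (d : ℝ) ≤ Z ^ d := by
    have := d_le_pow (d := d) (H := Z - 2) (by linarith)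
    have e : 2 + (Z - 2) = Z := by ring
    rwa [e] at this
  have hfZ : (d.factorial : ℝ) ≤ Z ^ (d ^ 2) := by
    have := fact_le_pow (d := d) (H := Z - 2) (by linarith)
    have e : 2 + (Z - 2) = Z := by ring
    rwa [e] at this
  have hbig : (d : ℝ) * (d.factorial * (Z ^ 51 * Z ^ 2) ^ d) * Z ^ d ≤ Z ^ (55 * d + d ^ 2) := by
    calc (d : ℝ) * (d.factorial * (Z ^ 51 * Z ^ 2) ^ d) * Z ^ d
        ≤ Z ^ d * (Z ^ (d ^ 2) * (Z ^ 51 * Z ^ 2) ^ d) * Z ^ d := by
          apply mul_le_mul_of_nonneg_right _ (by positivity)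
          apply mul_le_mul hdZ _ (by positivity) (by positivity)
          exact mul_le_mul_of_nonneg_right hfZ (by positivity)
      _ = Z ^ (55 * d + d ^ 2) := by
          rw [← pow_add, ← pow_mul, ← pow_add, ← pow_add, ← pow_add]
          congr 1; ring
  have h1 : (1 : ℝ) ≤ Z ^ 66 / Z ^ (20 * d ^ 2) * Z ^ (55 * d + d ^ 2) := by
    refine hlow.trans ?_
    exact mul_le_mul hcon hbig (by positivity) (by positivity)
  have h2 : Z ^ 66 / Z ^ (20 * d ^ 2) * Z ^ (55 * d + d ^ 2) < 1 := by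
    rw [div_mul_eq_mul_div, div_lt_one (by positivity), ← pow_add]
    apply pow_lt_pow_right₀ (by linarith)
    nlinarith
  linarith

end irr

lemma Nr.mono {η β γ κ Q Q' : ℝ} {a b : ℤ} (h : Nr η β γ κ Q a b) (hQ : Q ≤ Q') :
    Nr η β γ κ Q' a b :=
  h.trans (div_le_div_of_nonneg_right hQ (by positivity))

/-- threshold exponent -/
def E1 (d : ℕ) : ℕ := 1280 * d ^ 5 * kap d

section consts

variable {d : ℕ} {H : ℝ} (hd : 4 ≤ d) (hH : 1 ≤ H)

/-- the ratio of the size of the coefficients and of the derivative -/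
noncomputable def cSS (d : ℕ) (H : ℝ) : ℝ := cD d H * cS d H

include hd hH in
lemma cSS_le : cSS d H ≤ (2 + H) ^ (3 * d ^ 2 + 4 * d + 1) := by
  unfold cSS
  have h1 := one_le_cS (d := d) hH
  calc cD d H * cS d H ≤ (2 + H) ^ (3 * d ^ 2 + 3 * d) * (2 + H) ^ (d + 1) :=
        mul_le_mul (cD_le hH) (cS_le hH) (by linarith) (by positivity)
    _ = _ := by rw [← pow_add]; congr 1; ring

include hd hH in
lemma one_le_cSS : 1 ≤ cSS d H :=
  one_le_mul_of_one_le_of_one_le (one_le_cD (by omega) hH) (one_le_cS hH)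

include hd hH in
lemma cQ_le (hH2 : 2 ≤ H) : 2 * cSS d H * (36 * cSS d H ^ 5) ^ d ≤ (2 + H) ^ (64 * d ^ 3) := by
  have hK : 4 ≤ 2 + H := by linarith
  have hK1 : 1 ≤ 2 + H := by linarith
  have hS := cSS_le hd hH
  have hS1 := one_le_cSS hd hH
  obtain ⟨s, hs⟩ : ∃ s, s = 3 * d ^ 2 + 4 * d + 1 := ⟨_, rfl⟩
  rw [← hs] at hS
  have h36 : (36 : ℝ) ≤ (2 + H) ^ 3 := by
    calc (36 : ℝ) ≤ 4 ^ 3 := by norm_num
      _ ≤ (2 + H) ^ 3 := pow_le_pow_left₀ (by norm_num) hK 3
  calc 2 * cSS d H * (36 * cSS d H ^ 5) ^ d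
      ≤ (2 + H) * (2 + H) ^ s * ((2 + H) ^ 3 * ((2 + H) ^ s) ^ 5) ^ d := by
        apply mul_le_mul _ _ (by positivity) (by positivity)
        · exact mul_le_mul (by linarith) hS (by linarith) (by linarith)
        · apply pow_le_pow_left₀ (by positivity)
          apply mul_le_mul h36 _ (by positivity) (by positivity)
          exact pow_le_pow_left₀ (by linarith) hS 5
    _ = (2 + H) ^ (1 + s + (3 + s * 5) * d) := by
        rw [← pow_mul, ← pow_add, ← pow_mul, mul_comm (2 + H) ((2 + H) ^ s), ← pow_succ, ← pow_add]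
        congr 1; ring
    _ ≤ (2 + H) ^ (64 * d ^ 3) := by
        apply pow_le_pow_right₀ hK1
        rw [hs]
        nlinarith [Nat.mul_le_mul hd hd, Nat.mul_le_mul (Nat.mul_le_mul hd hd) hd,
          Nat.mul_le_mul (le_refl (d ^ 2)) hd]

end consts

theorem root_count {d : ℕ} (hd : 4 ≤ d) {G : ℤ[X][X]} (hm : G.Monic) (hdeg : G.natDegree = d)
    (hT : TD d G) {H : ℝ} (hH : 1 ≤ H) (hG : pn (pn zn) G ≤ H)
    (hirr : Irreducible ((lead d G).map (Int.castRingHom ℚ))) (η : ℝ)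
    (hη : evf η (lead d G) = 0) (hflex : evf η (gp d G) ≠ 0) (T : Finset (ℤ × ℤ))
    (hP : ∀ P ∈ T, (2 + 2 * H) ^ (E1 d) ≤ |(P.1 : ℝ)| ∧ |(P.2 : ℝ) / P.1 - η| ≤ cR d (2 * H) ∧
      ∃ R : ℤ[X][X], TD (d - 4) R ∧ pn (pn zn) R ≤ H ∧ Prime (G + R) ∧ ev P.1 P.2 (G + R) = 0) :
    T.card ≤ 160 * d ^ 2 * kap d := by
  rcases T.eq_empty_or_nonempty with hT0 | hT0
  · rw [hT0]; simp
  have hd0 : 0 < d := by omega
  obtain ⟨H', hH'⟩ : ∃ H', H' = 2 * H := ⟨_, rfl⟩
  have hH'2 : 2 ≤ H' := by linarith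
  have hH'1 : 1 ≤ H' := by linarith
  obtain ⟨hgm, hgd⟩ := lead_monic hm hdeg
  obtain ⟨g, hg⟩ : ∃ g, g = lead d G := ⟨_, rfl⟩
  have hpg : pn zn (lead d G) ≤ H := (pn_lead_le hdeg.le).trans hG
  have hηH : |η| ≤ H := root_norm_le (lead d G) hgm H hH hpg η hη
  have hgd' : (derivative (lead d G)).natDegree ≤ d := (natDegree_derivative_le _).trans (by omega)
  have hpd : pn zn (derivative (lead d G)) ≤ d * H' := by
    refine (pn_derivative_le zn _).trans ?_
    rw [hgd]
    exact mul_le_mul_of_nonneg_left (by linarith) (by positivity)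
  have hdR : (4 : ℝ) ≤ d := by exact_mod_cast hd
  have hder0 : derivative (lead d G) ≠ 0 := by
    intro h
    have h1 := natDegree_eq_zero_of_derivative_eq_zero h
    omega
  have hder : 1 ≤ |evf η (derivative (lead d G))| * cD d H' :=
    one_le_of_root (lead d G) d hd0 hgm hgd (derivative (lead d G))
      (nrm_ne_of_irr_deg hgm hgd hirr _ hder0 (by
        have := natDegree_derivative_le (lead d G); omega))
      (1 + H') (d * H') (by linarith) (by linarith) hpd (by nlinarith) hgd' η hη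
      (by rw [Real.norm_eq_abs]; linarith)
  obtain ⟨D, hD⟩ : ∃ D, D = |evf η (derivative (lead d G))| := ⟨_, rfl⟩
  have hcD := one_le_cD hd0 hH'1
  have hcS := one_le_cS (d := d) hH'1
  have hD0 : 0 < |evf η (derivative (lead d G))| := by
    by_contra hcon
    have : |evf η (derivative (lead d G))| = 0 := le_antisymm (not_lt.1 hcon) (abs_nonneg _)
    rw [this, zero_mul] at hder
    linarith
  have hS1 := one_le_cSS hd hH'1
  have hMS : H' * (1 + |η|) ^ d ≤ cSS d H' * |evf η (derivative (lead d G))| := by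
    have h1 : H' * (1 + |η|) ^ d ≤ cS d H' := by
      unfold cS
      apply mul_le_mul_of_nonneg_left _ (by linarith)
      exact pow_le_pow_left₀ (by positivity) (by linarith) _
    refine h1.trans ?_
    unfold cSS
    calc cS d H' = 1 * cS d H' := (one_mul _).symm
      _ ≤ (|evf η (derivative (lead d G))| * cD d H') * cS d H' :=
          mul_le_mul_of_nonneg_right hder (by linarith)
      _ = _ := by ring
  obtain ⟨K, hK⟩ : ∃ K, K = 2 + H' := ⟨_, rfl⟩
  have hKH : 2 + 2 * H = K := by rw [hK, hH']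
  rw [hKH] at hP
  rw [← hH'] at hP
  have hK4 : 4 ≤ K := by linarith
  have hK1 : 1 ≤ K := by linarith
  obtain ⟨Q, hQ⟩ : ∃ Q, Q = K ^ (64 * d ^ 3) := ⟨_, rfl⟩
  have hd3 : 0 < 64 * d ^ 3 := by positivity
  have hKQ : K ≤ Q := by
    rw [hQ]
    calc K = K ^ 1 := (pow_one _).symm
      _ ≤ _ := pow_le_pow_right₀ hK1 hd3
  have hQ2 : 2 ≤ Q := by linarith
  have hSK := cSS_le hd hH'1
  have hQle := cQ_le hd hH'1 hH'2
  rw [← hK] at hSK hQle
  rw [← hQ] at hQle
  -- bounds for the coefficients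
  obtain ⟨hb, hgm1, hk⟩ := bgk_le (M := H') (by omega) hT (by linarith) hS1 hD0 hMS
  have hS5Q : 13 * cSS d H' ^ 5 ≤ Q := by
    refine le_trans ?_ hQle
    have h1 : cSS d H' ^ 5 ≤ (36 * cSS d H' ^ 5) ^ d := by
      have h2 : 1 ≤ cSS d H' ^ 5 := one_le_pow₀ hS1
      calc cSS d H' ^ 5 ≤ 36 * cSS d H' ^ 5 := by linarith
        _ = (36 * cSS d H' ^ 5) ^ 1 := (pow_one _).symm
        _ ≤ _ := pow_le_pow_right₀ (by linarith) (by omega)
    have h3 : 13 * cSS d H' ^ 5 ≤ (36 * cSS d H' ^ 5) ^ d := by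
      have h2 : 1 ≤ cSS d H' ^ 5 := one_le_pow₀ hS1
      calc 13 * cSS d H' ^ 5 ≤ 36 * cSS d H' ^ 5 := by linarith
        _ = (36 * cSS d H' ^ 5) ^ 1 := (pow_one _).symm
        _ ≤ _ := pow_le_pow_right₀ (by linarith) (by omega)
    refine h3.trans ?_
    apply le_mul_of_one_le_left (by positivity)
    linarith
  have hS15 : cSS d H' ≤ cSS d H' ^ 5 := by
    calc cSS d H' = cSS d H' ^ 1 := (pow_one _).symm
      _ ≤ _ := pow_le_pow_right₀ hS1 (by norm_num)
  have hS35 : cSS d H' ^ 3 ≤ cSS d H' ^ 5 := pow_le_pow_right₀ hS1 (by norm_num)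
  have hS50 : 0 < cSS d H' ^ 5 := by positivity
  have hbQ : |bet d G η| ≤ Q := by linarith
  have hgQ : |gam d G η| ≤ Q := by linarith
  have hkQ : |kpp d G η| ≤ Q := by linarith
  have hηQ : |η| ≤ Q := by linarith
  -- lower bound for gamma
  have hgam : 1 / Q ≤ |gam d G η| := by
    have hgp := evf_gp (by omega) hT η (abs_pos.1 hD0)
    have hDle : |evf η (derivative (lead d G))| ≤ K ^ (d + 1) := by
      have h1 := tay_le (η := η) hT hG (0, 1) (by simp; omega)
      rw [tay01 hd0 hT] at h1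
      refine h1.trans ?_
      rw [pow_succ, mul_comm]
      apply mul_le_mul _ (by linarith) (by linarith) (by positivity)
      exact pow_le_pow_left₀ (by positivity) (by linarith) _
    have hL : pn zn (gp d G) ≤ K ^ (2 * d + 5) := by
      refine (pn_gp_le (by omega) hT hG).trans ?_
      have h1 : (d : ℝ) ≤ K ^ d := by rw [hK]; exact d_le_pow hH'1
      calc 5 * (d : ℝ) ^ 2 * H ^ 3 ≤ K ^ 2 * (K ^ d) ^ 2 * K ^ 3 := by
            apply mul_le_mul _ (pow_le_pow_left₀ (by linarith) (by linarith) _) (by positivity)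
              (by positivity)
            apply mul_le_mul _ (pow_le_pow_left₀ (by positivity) h1 _) (by positivity)
              (by positivity)
            nlinarith
        _ = _ := by rw [← pow_mul, ← pow_add, ← pow_add]; congr 1; ring
    have hlow := one_le_of_root' (𝕜 := ℝ) (lead d G) d hd0 hgm hgd (gp d G)
      (nrm_ne_of_irr hgm hgd hirr _ η hη hflex) K (K ^ (2 * d + 5)) (3 * d) hK1 (by linarith) hL
      (one_le_pow₀ hK1) natDegree_gp_le η hη (by rw [Real.norm_eq_abs]; linarith)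
    rw [Real.norm_eq_abs, hgp, abs_neg, abs_mul, abs_mul, abs_pow,
      abs_of_pos (by norm_num : (0 : ℝ) < 2)] at hlow
    have hbig : (d : ℝ) * (d.factorial * (K ^ (2 * d + 5) * K ^ (3 * d)) ^ d) * K ^ d
        ≤ K ^ (6 * d ^ 2 + 7 * d) := by
      have h1 : (d : ℝ) ≤ K ^ d := by rw [hK]; exact d_le_pow hH'1
      have h2 : (d.factorial : ℝ) ≤ K ^ (d ^ 2) := by rw [hK]; exact fact_le_pow hH'1
      calc (d : ℝ) * (d.factorial * (K ^ (2 * d + 5) * K ^ (3 * d)) ^ d) * K ^ d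
          ≤ K ^ d * (K ^ (d ^ 2) * (K ^ (2 * d + 5) * K ^ (3 * d)) ^ d) * K ^ d := by
            apply mul_le_mul_of_nonneg_right _ (by positivity)
            apply mul_le_mul h1 _ (by positivity) (by positivity)
            exact mul_le_mul_of_nonneg_right h2 (by positivity)
        _ = _ := by
            rw [← pow_add, ← pow_mul, ← pow_add, ← pow_add, ← pow_add]
            congr 1; ring
    have h3 : 2 * |evf η (derivative (lead d G))| ^ 3 ≤ K ^ (3 * d + 4) := by
      calc 2 * |evf η (derivative (lead d G))| ^ 3 ≤ K * (K ^ (d + 1)) ^ 3 :=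
            mul_le_mul (by linarith) (pow_le_pow_left₀ (abs_nonneg _) hDle 3) (by positivity)
              (by positivity)
        _ = _ := by rw [← pow_mul, mul_comm, ← pow_succ]; congr 1; ring
    have h4 : 1 ≤ |gam d G η| * Q := by
      refine hlow.trans ?_
      calc 2 * |evf η (derivative (lead d G))| ^ 3 * |gam d G η| *
            ((d : ℝ) * (d.factorial * (K ^ (2 * d + 5) * K ^ (3 * d)) ^ d) * K ^ d)
          ≤ K ^ (3 * d + 4) * |gam d G η| * K ^ (6 * d ^ 2 + 7 * d) := by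
            apply mul_le_mul (mul_le_mul_of_nonneg_right h3 (abs_nonneg _)) hbig (by positivity)
              (by positivity)
        _ = |gam d G η| * K ^ (3 * d + 4 + (6 * d ^ 2 + 7 * d)) := by rw [pow_add]; ring
        _ ≤ |gam d G η| * Q := by
            apply mul_le_mul_of_nonneg_left _ (abs_nonneg _)
            rw [hQ]
            apply pow_le_pow_right₀ hK1
            nlinarith [Nat.mul_le_mul hd hd, Nat.mul_le_mul (le_refl (d ^ 2)) hd]
    rw [div_le_iff₀ (by linarith)]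
    exact h4
  -- the points
  have hPQ : ∀ P ∈ T, Nr η (bet d G η) (gam d G η) (kpp d G η) Q P.1 P.2 := by
    intro P hPT
    obtain ⟨h1, h2, R, hR1, hR2, hR3, hR4⟩ := hP P hPT
    have hT' := TD_add hd hT hR1
    have hlead := lead_add_of_TD (G := G) hd hR1 0 (by omega)
    rw [Nat.sub_zero] at hlead
    have hpn' : pn (pn zn) (G + R) ≤ H' := (map_add_le_add _ _ _).trans (by linarith)
    have h3 := exp_lemma (M := H') (S := cSS d H') (G := G + R) (η := η) (by omega) hT' hpn' hS1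
      (by rw [hlead]; exact hη) (by rw [hlead]; exact hD0) (by rw [hlead]; exact hMS) hR4
      (by
        refine le_trans ?_ h1
        have h4 : (d : ℝ) + 1 ≤ K ^ d := by rw [hK]; exact d1_le_pow hd0 hH'1
        calc 34 * ((d : ℝ) + 1) * cSS d H' ^ 6 ≤ K ^ 3 * K ^ d * (K ^ (3 * d ^ 2 + 4 * d + 1)) ^ 6 := by
              apply mul_le_mul _ (pow_le_pow_left₀ (by linarith) hSK 6) (by positivity)
                (by positivity)
              apply mul_le_mul _ h4 (by positivity) (by positivity)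
              calc (34 : ℝ) ≤ 4 ^ 3 := by norm_num
                _ ≤ K ^ 3 := pow_le_pow_left₀ (by norm_num) hK4 3
          _ = K ^ (3 + d + (3 * d ^ 2 + 4 * d + 1) * 6) := by
              rw [← pow_mul, ← pow_add, ← pow_add]
          _ ≤ K ^ (E1 d) := by
              apply pow_le_pow_right₀ hK1
              unfold E1
              have h5 := one_le_kap d
              have h6 : 3 + d + (3 * d ^ 2 + 4 * d + 1) * 6 ≤ 64 * d ^ 5 := by
                have h7 : d ^ 2 ≤ d ^ 5 := Nat.pow_le_pow_right hd0 (by norm_num)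
                have h8 : d ≤ d ^ 5 := Nat.le_self_pow (by norm_num) d
                omega
              calc _ ≤ 64 * d ^ 5 := h6
                _ ≤ 1280 * d ^ 5 * 1 := by omega
                _ ≤ _ := Nat.mul_le_mul_left _ h5)
      (by
        refine h2.trans (le_of_eq ?_)
        unfold cR cSS
        congr 1; ring)
    rw [bet_add hd hT hR1, gam_add hd hT hR1, kpp_add hd hT hR1] at h3
    exact h3.mono hQle
  -- the smallest point
  obtain ⟨P0, hP0, hmin⟩ := Finset.exists_min_image T (fun P => |(P.1 : ℝ)|) hT0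
  obtain ⟨X0, hX0⟩ : ∃ X0, X0 = |(P0.1 : ℝ)| := ⟨_, rfl⟩
  have hX0K : K ^ (E1 d) ≤ X0 := by rw [hX0]; exact (hP P0 hP0).1
  have hX01 : 1 ≤ X0 := (one_le_pow₀ hK1).trans hX0K
  obtain ⟨e, he⟩ : ∃ e, e = 20 * d ^ 2 := ⟨_, rfl⟩
  have he0 : e ≠ 0 := by rw [he]; positivity
  obtain ⟨Z, hZ⟩ : ∃ Z : ℝ, Z = X0 ^ ((e : ℝ)⁻¹) := ⟨_, rfl⟩
  have hZ0 : 0 ≤ Z := by rw [hZ]; positivity
  have hZe : Z ^ e = X0 := by
    rw [hZ]
    exact Real.rpow_inv_natCast_pow (by linarith) he0
  have hQe : Q ^ e ≤ X0 := by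
    refine le_trans ?_ hX0K
    rw [hQ, ← pow_mul]
    apply pow_le_pow_right₀ hK1
    unfold E1
    have h5 := one_le_kap d
    calc 64 * d ^ 3 * e = 1280 * d ^ 5 * 1 := by rw [he]; ring
      _ ≤ _ := Nat.mul_le_mul_left _ h5
  have hQZ : Q ≤ Z := by
    rw [← hZe] at hQe
    exact le_of_pow_le_pow_left₀ he0 hZ0 hQe
  have hZ3 : 3 ≤ Z := by linarith
  have hZ1 : 1 ≤ Z := by linarith
  have hNA : NA η ((Q * Z) ^ 25) ((Q * Z) ^ 33 / X0) := by
    apply NA_irr hgm hgd hirr hd η hη hZ3 (by linarith) (by linarith) (by positivity)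
    · rw [sq]; exact mul_le_mul_of_nonneg_right hQZ hZ0
    · rw [← he, hZe]
  have hQX : 2 * Q < X0 := by
    have h1 : Z ^ 2 ≤ X0 := by
      rw [← hZe]
      apply pow_le_pow_right₀ hZ1
      rw [he]; nlinarith
    nlinarith
  -- Thue's principle
  have hbB : bB d H' ≤ X0 ∧ bB d H' ^ (kap d) ≤ X0 := by
    have h5 := one_le_kap d
    have h6 : bB d H' ^ (kap d) ≤ X0 := by
      refine le_trans ?_ hX0K
      unfold bB
      rw [← hK, ← pow_mul]
      apply pow_le_pow_right₀ hK1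
      unfold E1
      apply Nat.mul_le_mul_right
      have : d ^ 2 ≤ d ^ 5 := Nat.pow_le_pow_right hd0 (by norm_num)
      omega
    have h7 : 1 ≤ bB d H' := one_le_pow₀ (by linarith)
    refine ⟨le_trans ?_ h6, h6⟩
    calc bB d H' = bB d H' ^ 1 := (pow_one _).symm
      _ ≤ _ := pow_le_pow_right₀ h7 h5
  have hgd0 : 0 < (lead d G).natDegree := by omega
  have hPt : ∀ P ∈ T, ∃ G' : ℤ[X][X], Pt (os hgm) (sR η hη) d G' H' (AdjoinRoot.root (lead d G))
      P.1 P.2 := by
    intro P hPT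
    obtain ⟨h1, h2, R, hR1, hR2, hR3, hR4⟩ := hP P hPT
    have hT' := TD_add hd hT hR1
    have hlead := lead_add_of_TD (G := G) hd hR1 0 (by omega)
    rw [Nat.sub_zero] at hlead
    have hpn' : pn (pn zn) (G + R) ≤ H' := (map_add_le_add _ _ _).trans (by linarith)
    have hRn : R.natDegree < G.natDegree := by have := hR1.1; omega
    have hdeg' : R.degree < G.degree := degree_lt_degree hRn
    refine ⟨G + R, ⟨hm.add_of_left hdeg', ?_, hR3, hT', hH'1, hpn', ?_, ?_, ?_, ?_, hR4,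
      by rw [sR_root]; exact h2⟩⟩
    · rw [natDegree_add_eq_left_of_natDegree_lt hRn, hdeg]
    · rw [hlead]; exact evf_root
    · exact (os_root hgm).trans (by linarith)
    · rw [sR_root]; linarith
    · rw [hlead, sR_root]; exact hder
  have hle : ∀ P ∈ T, |(P.1 : ℝ)| ≤ X0 * Z ^ (e * (2 * kap d)) := by
    intro P hPT
    obtain ⟨G1, hP1⟩ := hPt P0 hP0
    obtain ⟨G2, hP2⟩ := hPt P hPT
    have h1 := two_int (by omega) (os_one hgm) (abs_sR_le hgm hgd0 η hη)
      (AdjoinRoot.powerBasisAux' hgm) 1 (le_refl _) (abs_repr_le hgm hgd0)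
      (by rw [Fintype.card_fin]; exact hgd0) (by rw [Fintype.card_fin]; omega) hP1 hP2
      (by rw [← hX0]; exact hbB.2)
    rw [← hX0, mul_one] at h1
    refine h1.trans ?_
    rw [pow_mul, hZe]
    have h7 : 1 ≤ bB d H' := one_le_pow₀ (by linarith)
    calc (X0 * bB d H') ^ kap d ≤ (X0 ^ 2) ^ kap d := by
          apply pow_le_pow_left₀ (by positivity)
          rw [sq]; exact mul_le_mul_of_nonneg_left hbB.1 (by linarith)
      _ = X0 ^ (2 * kap d) := by rw [← pow_mul]
      _ ≤ X0 * X0 ^ (2 * kap d) := le_mul_of_one_le_left (by positivity) hX01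
  have hn : e * (2 * kap d) = (e * (2 * kap d) - 1) + 1 := by
    have h5 := one_le_kap d
    have : 0 < e * (2 * kap d) := Nat.mul_pos (Nat.pos_of_ne_zero he0) (by omega)
    omega
  have hfin := count_card hQ2 hZ1 hQX hηQ hbQ hgQ hkQ hgam hNA (e * (2 * kap d) - 1) T
    (by
      intro P hPT
      rw [← hn]
      refine ⟨?_, hle P hPT⟩
      rw [hX0]; exact hmin P hPT) hPQ
  rw [← hn] at hfin
  refine hfin.trans (le_of_eq ?_)
  rw [he]; ring

end Pool.Agent.H322R2
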