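import Pool.Agent.H322R2.GPert
import Pool.Agent.H322R2.GMed
import Pool.Agent.H322R2.MonoC

/-!
Zeros of `G + R` are close to a branch of `G`, explicit constants.
-/

open Polynomial Finset

namespace Pool.Agent.H322R2

lemma abs_b_le2 {d e : ℕ} {G R : ℤ[X][X]} (he : e + 4 ≤ d) (hm : G.Monic)
    (hd : G.natDegree = d) (hT : TD d G) {M V0 A : ℝ} (hM : 1 ≤ M) (hG : pn (pn zn) G ≤ M)
    (hR : TD e R) (hRV : pn (pn zn) R ≤ V0) (a b : ℤ) (hab : ev a b (G + R) = 0)
    (hA1 : 1 ≤ A) (haA : |(a : ℝ)| ≤ A) (hbig : 2 * V0 < (2 * M * A) ^ 4) :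
    |(b : ℝ)| ≤ 2 * M * A := by
  by_contra hcon
  push_neg at hcon
  have hMA : A ≤ 2 * M * A := by nlinarith
  have hbA : A ≤ |(b : ℝ)| := by linarith
  have hb1 : 1 ≤ |(b : ℝ)| := by linarith
  have hb0 : 0 < |(b : ℝ)| := by linarith
  have h0 : ev (a : ℝ) (b : ℝ) G = - ev (a : ℝ) (b : ℝ) R := by
    have h3 := map_ev (Int.castRingHom ℝ) a b (G + R)
    simp only [eq_intCast] at h3
    rw [hab] at h3
    rw [map_add] at h3
    simp only [Int.cast_zero] at h3
    linarith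
  have hRb : |ev (a : ℝ) (b : ℝ) R| ≤ V0 * |(b : ℝ)| ^ e := by
    refine (ev_TD_le hR hb1 (haA.trans hbA) le_rfl).trans ?_
    exact mul_le_mul_of_nonneg_right hRV (by positivity)
  rw [ev_apply, eval₂_eq_sum_range, Finset.sum_range_succ] at h0
  rw [show G.coeff G.natDegree = 1 from hm, map_one, one_mul] at h0
  have hpn : pn (pn zn) G = (∑ i ∈ range G.natDegree, pn zn (G.coeff i)) + 1 := by
    rw [pn_eq_range _ G (Nat.lt_succ_self _), Finset.sum_range_succ]
    rw [show G.coeff G.natDegree = 1 from hm, pn_one]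
    simp
  obtain ⟨n, hn⟩ : ∃ n, d = n + 1 := ⟨d - 1, by omega⟩
  have hsum : |∑ i ∈ range G.natDegree, evf (a : ℝ) (G.coeff i) * (b : ℝ) ^ i|
      ≤ (pn (pn zn) G - 1) * (A * |(b : ℝ)| ^ n) := by
    refine (Finset.abs_sum_le_sum_abs _ _).trans ?_
    rw [hpn, add_sub_cancel_right, Finset.sum_mul]
    apply Finset.sum_le_sum
    intro i hi
    rw [Finset.mem_range, hd] at hi
    rw [abs_mul, abs_pow]
    have h4 : |evf (a : ℝ) (G.coeff i)| ≤ pn zn (G.coeff i) * A ^ (d - i) := by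
      have h5 := hT.2 i
      rw [evf_sum _ _ (show (G.coeff i).natDegree < d - i + 1 by omega),
        pn_eq_range _ _ (show (G.coeff i).natDegree < d - i + 1 by omega), Finset.sum_mul]
      refine (Finset.abs_sum_le_sum_abs _ _).trans ?_
      apply Finset.sum_le_sum
      intro q hq
      rw [Finset.mem_range] at hq
      rw [abs_mul, abs_pow]
      apply mul_le_mul_of_nonneg_left _ (abs_nonneg _)
      calc |(a : ℝ)| ^ q ≤ A ^ q := pow_le_pow_left₀ (abs_nonneg _) haA _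
        _ ≤ A ^ (d - i) := pow_le_pow_right₀ hA1 (by omega)
    have h6 : A ^ (d - i) * |(b : ℝ)| ^ i ≤ A * |(b : ℝ)| ^ n := by
      have h7 : d - i = (n - i) + 1 := by omega
      rw [h7, pow_succ]
      calc A ^ (n - i) * A * |(b : ℝ)| ^ i = A * (A ^ (n - i) * |(b : ℝ)| ^ i) := by ring
        _ ≤ A * (|(b : ℝ)| ^ (n - i) * |(b : ℝ)| ^ i) := by
          apply mul_le_mul_of_nonneg_left _ (by linarith)
          apply mul_le_mul_of_nonneg_right _ (by positivity)
          exact pow_le_pow_left₀ (by linarith) hbA _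
        _ = _ := by rw [← pow_add]; congr 2; omega
    calc |evf (a : ℝ) (G.coeff i)| * |(b : ℝ)| ^ i
        ≤ (pn zn (G.coeff i) * A ^ (d - i)) * |(b : ℝ)| ^ i :=
          mul_le_mul_of_nonneg_right h4 (by positivity)
      _ = pn zn (G.coeff i) * (A ^ (d - i) * |(b : ℝ)| ^ i) := by ring
      _ ≤ _ := mul_le_mul_of_nonneg_left h6 (apply_nonneg _ _)
  have h2 : |(b : ℝ)| ^ d ≤ M * (A * |(b : ℝ)| ^ n) + V0 * |(b : ℝ)| ^ e := by
    have h3 : (b : ℝ) ^ d = - (∑ i ∈ range G.natDegree, evf (a : ℝ) (G.coeff i) * (b : ℝ) ^ i)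
        - ev (a : ℝ) (b : ℝ) R := by
      rw [hd] at h0 ⊢
      linear_combination h0
    rw [← abs_pow, h3]
    refine (abs_sub _ _).trans ?_
    rw [abs_neg]
    have h4 : (pn (pn zn) G - 1) * (A * |(b : ℝ)| ^ n) ≤ M * (A * |(b : ℝ)| ^ n) :=
      mul_le_mul_of_nonneg_right (by linarith) (by positivity)
    linarith
  have h3 : M * (A * |(b : ℝ)| ^ n) ≤ |(b : ℝ)| ^ d / 2 := by
    rw [hn, pow_succ]
    have : M * A ≤ |(b : ℝ)| / 2 := by linarith
    calc M * (A * |(b : ℝ)| ^ n) = |(b : ℝ)| ^ n * (M * A) := by ring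
      _ ≤ |(b : ℝ)| ^ n * (|(b : ℝ)| / 2) := mul_le_mul_of_nonneg_left this (by positivity)
      _ = _ := by ring
  have h4 : |(b : ℝ)| ^ (d - e) * |(b : ℝ)| ^ e ≤ 2 * V0 * |(b : ℝ)| ^ e := by
    rw [← pow_add, Nat.sub_add_cancel (by omega)]
    linarith
  have h5 := le_of_mul_le_mul_right h4 (by positivity)
  have h6 : |(b : ℝ)| ^ 4 ≤ |(b : ℝ)| ^ (d - e) := pow_le_pow_right₀ hb1 (by omega)
  have h7 : (2 * M * A) ^ 4 ≤ |(b : ℝ)| ^ 4 := pow_le_pow_left₀ (by linarith) hcon.le 4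
  linarith

/-- the constants at a branch -/
lemma branch_bounds {d : ℕ} (hd : 4 ≤ d) {G : ℤ[X][X]} (hm : G.Monic) (hdeg : G.natDegree = d)
    (hT : TD d G) {M Z : ℝ} (hM : 1 ≤ M) (hG : pn (pn zn) G ≤ M)
    (hn : nrm (lead d G) d (derivative (lead d G)) ≠ 0) (hZ : (2 + 2 * M) ^ (64 * d ^ 3) ≤ Z)
    (η : ℝ) (hη : evf η (lead d G) = 0) :
    |η| ≤ Z ∧ |bet d G η| ≤ Z ∧ |gam d G η| ≤ Z ∧ |kpp d G η| ≤ Z ∧
      0 < |evf η (derivative (lead d G))| ∧ 1 ≤ |evf η (derivative (lead d G))| * cD d (2 * M) ∧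
      (2 * M) * (1 + |η|) ^ d ≤ cSS d (2 * M) * |evf η (derivative (lead d G))| := by
  have hd0 : 0 < d := by omega
  obtain ⟨H', hH'⟩ : ∃ H', H' = 2 * M := ⟨_, rfl⟩
  have hH'2 : 2 ≤ H' := by linarith
  have hH'1 : 1 ≤ H' := by linarith
  obtain ⟨hgm, hgd⟩ := lead_monic hm hdeg
  have hpg : pn zn (lead d G) ≤ M := (pn_lead_le hdeg.le).trans hG
  have hηH : |η| ≤ M := root_norm_le (lead d G) hgm M hM hpg η hη
  have hgd' : (derivative (lead d G)).natDegree ≤ d := (natDegree_derivative_le _).trans (by omega)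
  have hpd : pn zn (derivative (lead d G)) ≤ d * H' := by
    refine (pn_derivative_le zn _).trans ?_
    rw [hgd]
    exact mul_le_mul_of_nonneg_left (by linarith) (by positivity)
  have hdR : (4 : ℝ) ≤ d := by exact_mod_cast hd
  have hder : 1 ≤ |evf η (derivative (lead d G))| * cD d H' :=
    one_le_of_root (lead d G) d hd0 hgm hgd (derivative (lead d G)) hn
      (1 + H') (d * H') (by linarith) (by linarith) hpd (by nlinarith) hgd' η hη
      (by rw [Real.norm_eq_abs]; linarith)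
  have hcD := one_le_cD hd0 hH'1
  have hcS := one_le_cS (d := d) hH'1
  have hD0 : 0 < |evf η (derivative (lead d G))| := by
    by_contra hcon
    have : |evf η (derivative (lead d G))| = 0 := le_antisymm (not_lt.1 hcon) (abs_nonneg _)
    rw [this, zero_mul] at hder
    linarith
  have hS1 := one_le_cSS hd hH'1
  have hMS : H' * (1 + |η|) ^ d ≤ cSS d H' * |evf η (derivative (lead d G))| := by
    have h1 : H' * (1 + |η|) ^ d ≤ cS d H' := by
      unfold cS
      apply mul_le_mul_of_nonneg_left _ (by linarith)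
      exact pow_le_pow_left₀ (by positivity) (by linarith) _
    refine h1.trans ?_
    unfold cSS
    calc cS d H' = 1 * cS d H' := (one_mul _).symm
      _ ≤ (|evf η (derivative (lead d G))| * cD d H') * cS d H' :=
          mul_le_mul_of_nonneg_right hder (by linarith)
      _ = _ := by ring
  obtain ⟨K, hK⟩ : ∃ K, K = 2 + H' := ⟨_, rfl⟩
  have hKH : 2 + 2 * M = K := by rw [hK, hH']
  rw [hKH] at hZ
  rw [← hH']
  have hK4 : 4 ≤ K := by linarith
  have hK1 : 1 ≤ K := by linarith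
  obtain ⟨Q, hQ⟩ : ∃ Q, Q = K ^ (64 * d ^ 3) := ⟨_, rfl⟩
  have hd3 : 0 < 64 * d ^ 3 := by positivity
  have hKQ : K ≤ Q := by
    rw [hQ]
    calc K = K ^ 1 := (pow_one _).symm
      _ ≤ _ := pow_le_pow_right₀ hK1 hd3
  have hQle := cQ_le hd hH'1 hH'2
  rw [← hK] at hQle
  rw [← hQ] at hQle hZ
  obtain ⟨hb, hgm1, hk⟩ := bgk_le (M := H') (by omega) hT (by linarith) hS1 hD0 hMS
  have hS5Q : 13 * cSS d H' ^ 5 ≤ Q := by
    refine le_trans ?_ hQle
    have h3 : 13 * cSS d H' ^ 5 ≤ (36 * cSS d H' ^ 5) ^ d := by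
      have h2 : 1 ≤ cSS d H' ^ 5 := one_le_pow₀ hS1
      calc 13 * cSS d H' ^ 5 ≤ 36 * cSS d H' ^ 5 := by linarith
        _ = (36 * cSS d H' ^ 5) ^ 1 := (pow_one _).symm
        _ ≤ _ := pow_le_pow_right₀ (by linarith) (by omega)
    refine h3.trans ?_
    apply le_mul_of_one_le_left (by positivity)
    linarith
  have hS15 : cSS d H' ≤ cSS d H' ^ 5 := by
    calc cSS d H' = cSS d H' ^ 1 := (pow_one _).symm
      _ ≤ _ := pow_le_pow_right₀ hS1 (by norm_num)
  have hS35 : cSS d H' ^ 3 ≤ cSS d H' ^ 5 := pow_le_pow_right₀ hS1 (by norm_num)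
  have hS50 : 0 < cSS d H' ^ 5 := by positivity
  exact ⟨by linarith, by linarith, by linarith, by linarith, hD0, hder, hMS⟩

theorem near_branch {d e : ℕ} (hd : 4 ≤ d) (he : e + 4 ≤ d) {G R : ℤ[X][X]} (hm : G.Monic)
    (hdeg : G.natDegree = d) (hT : TD d G) {M V0 Z : ℝ} (hM : 1 ≤ M) (hG : pn (pn zn) G ≤ M)
    (hV0 : 1 ≤ V0) (hR : TD e R) (hRV : pn (pn zn) R ≤ V0)
    (hn : nrm (lead d G) d (derivative (lead d G)) ≠ 0)
    (hZ : (2 + 2 * M) ^ (150 * d ^ 3) ≤ Z) (a b : ℤ) (hab : ev a b (G + R) = 0)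
    (haZ : Z ≤ |(a : ℝ)|) (haV : Z * V0 ≤ |(a : ℝ)| ^ 3) :
    ∃ η : ℝ, evf η (lead d G) = 0 ∧
      Nr η (bet d G η) (gam d G η) (kpp d G η) (Z * V0) a b := by
  have hd0 : 0 < d := by omega
  obtain ⟨H', hH'⟩ : ∃ H', H' = 2 * M := ⟨_, rfl⟩
  have hH'2 : 2 ≤ H' := by linarith
  have hH'1 : 1 ≤ H' := by linarith
  obtain ⟨K, hK⟩ : ∃ K, K = 2 + H' := ⟨_, rfl⟩
  have hKH : 2 + 2 * M = K := by rw [hK, hH']
  have hK4 : 4 ≤ K := by linarith
  have hK1 : 1 ≤ K := by linarith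
  have hZ' : (2 + 2 * M) ^ (64 * d ^ 3) ≤ Z := by
    refine le_trans ?_ hZ
    exact pow_le_pow_right₀ (by linarith) (by omega)
  rw [hKH] at hZ
  have hdd : 1 ≤ d ^ 3 := Nat.one_le_pow _ _ hd0
  have hKZ : K ≤ Z := by
    refine le_trans ?_ hZ
    calc K = K ^ 1 := (pow_one _).symm
      _ ≤ _ := pow_le_pow_right₀ hK1 (by omega)
  have hZ0 : 0 < Z := by linarith
  have ha4 : 4 ≤ |(a : ℝ)| := by linarith
  have ha1 : 1 ≤ |(a : ℝ)| := by linarith
  have ha0 : 0 < |(a : ℝ)| := by linarith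
  have haz : a ≠ 0 := by
    rintro rfl
    simp at ha0
  have hdpow : d ≤ d ^ 3 := Nat.le_self_pow (by norm_num) d
  have hd2pow : d ^ 2 ≤ d ^ 3 := Nat.pow_le_pow_right hd0 (by norm_num)
  have hKpow : ∀ k, k ≤ 150 * d ^ 3 → K ^ k ≤ Z := fun k hk =>
    (pow_le_pow_right₀ hK1 hk).trans hZ
  -- size of b
  have hbM : |(b : ℝ)| ≤ H' * |(a : ℝ)| := by
    rw [hH']
    apply abs_b_le2 he hm hdeg hT hM hG hR hRV a b hab ha1 le_rfl
    have h1 : (2 * M * |(a : ℝ)|) ^ 4 = (16 * M ^ 4) * (|(a : ℝ)| * |(a : ℝ)| ^ 3) := by ring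
    rw [h1]
    have h2 : 1 ≤ M ^ 4 := one_le_pow₀ hM
    have h3 : 4 * (Z * V0) ≤ |(a : ℝ)| * |(a : ℝ)| ^ 3 :=
      mul_le_mul ha4 haV (by positivity) (by positivity)
    have h4 : V0 ≤ Z * V0 := le_mul_of_one_le_left (by linarith) (by linarith)
    have h5 : 1 * (|(a : ℝ)| * |(a : ℝ)| ^ 3) ≤ (16 * M ^ 4) * (|(a : ℝ)| * |(a : ℝ)| ^ 3) :=
      mul_le_mul_of_nonneg_right (by linarith) (by positivity)
    linarith
  -- size of G(a,b)
  obtain ⟨V, hV⟩ : ∃ V, V = V0 * H' ^ d := ⟨_, rfl⟩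
  have hV1 : 0 ≤ V := by rw [hV]; positivity
  have hH'Z : H' ^ d ≤ Z := by
    refine le_trans (pow_le_pow_left₀ (by linarith) (by linarith : H' ≤ K) d) ?_
    exact hKpow d (by omega)
  have hGab : |ev (a : ℝ) (b : ℝ) G| ≤ |(a : ℝ)| ^ (d - 4) * V := by
    have h0 : ev (a : ℝ) (b : ℝ) G = - ev (a : ℝ) (b : ℝ) R := by
      have h3 := map_ev (Int.castRingHom ℝ) a b (G + R)
      simp only [eq_intCast] at h3
      rw [hab] at h3
      rw [map_add] at h3
      simp only [Int.cast_zero] at h3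
      linarith
    rw [h0, abs_neg]
    have hB1 : 1 ≤ H' * |(a : ℝ)| := one_le_mul_of_one_le_of_one_le hH'1 ha1
    refine (ev_TD_le hR hB1 (le_mul_of_one_le_left ha0.le hH'1) hbM).trans ?_
    calc pn (pn zn) R * (H' * |(a : ℝ)|) ^ e ≤ V0 * (H' ^ d * |(a : ℝ)| ^ (d - 4)) := by
          apply mul_le_mul hRV _ (by positivity) (by linarith)
          rw [mul_pow]
          exact mul_le_mul (pow_le_pow_right₀ hH'1 (by omega)) (pow_le_pow_right₀ ha1 (by omega))
            (by positivity) (by positivity)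
      _ = _ := by rw [hV]; ring
  have hpn' : pn (pn zn) G ≤ H' := by linarith
  obtain ⟨η, e1, e2, e3, e4⟩ := root_sel2 hd0 hm hdeg hT hH'1 hpn' hn a b haz hbM
    (by
      refine hGab.trans ?_
      have h1 : |(a : ℝ)| ^ (d - 1) = |(a : ℝ)| ^ (d - 4) * |(a : ℝ)| ^ 3 := by
        rw [← pow_add]; congr 1; omega
      rw [h1]
      apply mul_le_mul_of_nonneg_left _ (by positivity)
      refine le_trans ?_ haV
      rw [hV, mul_comm]
      exact mul_le_mul_of_nonneg_right hH'Z (by linarith))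
    (by
      refine le_trans ?_ haZ
      have h1 := thr_le hd0 hH'1
      rw [← hK] at h1
      calc 2 * cS d H' * (2 / cR d H') ^ d = 2 * (cS d H' * (2 / cR d H') ^ d) := by ring
        _ ≤ K * K ^ (128 * d ^ 3) := mul_le_mul (by linarith) h1
            (by have := cR_pos hd0 hH'1
                have := one_le_cS (d := d) hH'1
                positivity) (by linarith)
        _ = K ^ (128 * d ^ 3 + 1) := by rw [pow_succ]; ring
        _ ≤ Z := hKpow _ (by omega))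
  refine ⟨η, e1, ?_⟩
  obtain ⟨-, -, -, -, hD0, hder, hMS⟩ := branch_bounds hd hm hdeg hT hM hG hn hZ' η e1
  rw [← hH'] at hder hMS
  have hSK := cSS_le hd hH'1
  rw [← hK] at hSK
  have hS1 := one_le_cSS hd hH'1
  have h3 := exp_lemma2 (M := H') (S := cSS d H') (G := G) (η := η) hd hT hpn' hS1 e1 hD0 hMS
    hV1 hGab
    (by
      refine le_trans ?_ haZ
      have h4 : (d : ℝ) + 1 ≤ K ^ d := by rw [hK]; exact d1_le_pow hd0 hH'1
      calc 34 * ((d : ℝ) + 1) * cSS d H' ^ 6 ≤ K ^ 3 * K ^ d * (K ^ (3 * d ^ 2 + 4 * d + 1)) ^ 6 := by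
            apply mul_le_mul _ (pow_le_pow_left₀ (by linarith) hSK 6) (by positivity)
              (by positivity)
            apply mul_le_mul _ h4 (by positivity) (by positivity)
            calc (34 : ℝ) ≤ 4 ^ 3 := by norm_num
              _ ≤ K ^ 3 := pow_le_pow_left₀ (by norm_num) hK4 3
        _ = K ^ (3 + d + (3 * d ^ 2 + 4 * d + 1) * 6) := by
            rw [← pow_mul, ← pow_add, ← pow_add]
        _ ≤ Z := hKpow _ (by omega))
    (by
      refine e2.trans (le_of_eq ?_)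
      unfold cR cSS
      congr 1; ring)
  apply h3.mono
  have hQle := cQ_le hd hH'1 hH'2
  rw [← hK] at hQle
  have hD1 : 1 / |evf η (derivative (lead d G))| ≤ cD d H' := by
    rw [div_le_iff₀ hD0, mul_comm]; exact hder
  have hcDK := cD_le (d := d) hH'1
  rw [← hK] at hcDK
  have h5 : 2 * V / |evf η (derivative (lead d G))| ≤ K ^ (4 * d ^ 2 + 4 * d + 1) * V0 := by
    calc 2 * V / |evf η (derivative (lead d G))| = 2 * V * (1 / |evf η (derivative (lead d G))|) := by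
          ring
      _ ≤ 2 * V * cD d H' := mul_le_mul_of_nonneg_left hD1 (by positivity)
      _ = 2 * H' ^ d * cD d H' * V0 := by rw [hV]; ring
      _ ≤ K * K ^ d * K ^ (3 * d ^ 2 + 3 * d) * V0 := by
          apply mul_le_mul_of_nonneg_right _ (by linarith)
          apply mul_le_mul _ hcDK (by have := one_le_cD hd0 hH'1; linarith) (by positivity)
          exact mul_le_mul (by linarith) (pow_le_pow_left₀ (by linarith) (by linarith) d)
            (by positivity) (by linarith)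
      _ = K ^ (3 * d ^ 2 + 4 * d + 1) * V0 := by
          have h0 : K * K ^ d * K ^ (3 * d ^ 2 + 3 * d) = K ^ (3 * d ^ 2 + 4 * d + 1) := by
            rw [← pow_succ', ← pow_add]; congr 1; ring
          rw [h0]
      _ ≤ _ := by
          apply mul_le_mul_of_nonneg_right _ (by linarith)
          exact pow_le_pow_right₀ hK1 (by omega)
  have hd16 : 16 ≤ d ^ 2 := by
    calc 16 = 4 ^ 2 := by norm_num
      _ ≤ d ^ 2 := Nat.pow_le_pow_left hd 2
  have hd3' : d ^ 3 = d * d ^ 2 := by ring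
  have h64 : 64 ≤ d ^ 3 := by
    calc 64 = 4 ^ 3 := by norm_num
      _ ≤ d ^ 3 := Nat.pow_le_pow_left hd 3
  have h6 : K ^ (64 * d ^ 3) ≤ Z / 2 := by
    have : K ^ (64 * d ^ 3) * 2 ≤ Z := by
      calc K ^ (64 * d ^ 3) * 2 ≤ K ^ (64 * d ^ 3) * K :=
            mul_le_mul_of_nonneg_left (by linarith) (by positivity)
        _ = K ^ (64 * d ^ 3 + 1) := (pow_succ _ _).symm
        _ ≤ Z := hKpow _ (by omega)
    linarith
  have h7 : K ^ (4 * d ^ 2 + 4 * d + 1) ≤ Z / 2 := by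
    have : K ^ (4 * d ^ 2 + 4 * d + 1) * 2 ≤ Z := by
      calc K ^ (4 * d ^ 2 + 4 * d + 1) * 2 ≤ K ^ (4 * d ^ 2 + 4 * d + 1) * K :=
            mul_le_mul_of_nonneg_left (by linarith) (by positivity)
        _ = K ^ (4 * d ^ 2 + 4 * d + 1 + 1) := (pow_succ _ _).symm
        _ ≤ Z := hKpow _ (by omega)
    linarith
  have h8 : K ^ (4 * d ^ 2 + 4 * d + 1) * V0 ≤ Z / 2 * V0 :=
    mul_le_mul_of_nonneg_right h7 (by linarith)
  have h9 : Z / 2 ≤ Z / 2 * V0 := le_mul_of_one_le_right (by linarith) hV0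
  have h10 : Z * V0 = Z / 2 * V0 + Z / 2 * V0 := by ring
  rw [h10]
  linarith

/-- lower bound for the third coefficient -/
lemma gam_low {d : ℕ} (hd : 4 ≤ d) {G : ℤ[X][X]} (hm : G.Monic) (hdeg : G.natDegree = d)
    (hT : TD d G) {M Z : ℝ} (hM : 1 ≤ M) (hG : pn (pn zn) G ≤ M)
    (hZ : (2 + 2 * M) ^ (64 * d ^ 3) ≤ Z) (η : ℝ) (hη : evf η (lead d G) = 0)
    (hD0 : 0 < |evf η (derivative (lead d G))|) (hflex : evf η (gp d G) ≠ 0) :
    1 / Z ≤ |gam d G η| := by
  have hd0 : 0 < d := by omega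
  obtain ⟨hgm, hgd⟩ := lead_monic hm hdeg
  have hpg : pn zn (lead d G) ≤ M := (pn_lead_le hdeg.le).trans hG
  have hηH : |η| ≤ M := root_norm_le (lead d G) hgm M hM hpg η hη
  obtain ⟨K, hK⟩ : ∃ K, K = 2 + 2 * M := ⟨_, rfl⟩
  rw [← hK] at hZ
  have hK4 : 4 ≤ K := by linarith
  have hK1 : 1 ≤ K := by linarith
  have hint : IsIntegral ℤ η := ⟨lead d G, hgm, by
    rw [← hη, evf, coe_eval₂RingHom]; rfl⟩
  obtain ⟨g1, hg1⟩ : ∃ g1 : ℤ[X], g1 = minpoly ℤ η := ⟨_, rfl⟩
  obtain ⟨k, hk⟩ : ∃ k, k = g1.natDegree := ⟨_, rfl⟩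
  have hg1m : g1.Monic := by rw [hg1]; exact minpoly.monic hint
  have hg1d : g1 ∣ lead d G := by
    rw [hg1]
    apply minpoly.isIntegrallyClosed_dvd hint
    rw [← hη, evf, coe_eval₂RingHom]; rfl
  have hg1η : evf η g1 = 0 := by
    rw [hg1]
    have := minpoly.aeval ℤ η
    rw [← this, evf, coe_eval₂RingHom]; rfl
  have hirr : Irreducible (g1.map (Int.castRingHom ℚ)) := by
    have h1 := minpoly.isIntegrallyClosed_eq_field_fractions' ℚ hint
    rw [hg1]
    have h2 : (minpoly ℤ η).map (Int.castRingHom ℚ) = minpoly ℚ η := by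
      rw [h1]; rfl
    rw [h2]
    exact minpoly.irreducible hint.tower_top
  have hk0 : 0 < k := by
    rw [hk, hg1]; exact minpoly.natDegree_pos hint
  have hkd : k ≤ d := by
    rw [hk, ← hgd]
    exact natDegree_le_of_dvd hg1d hgm.ne_zero
  have hpn1 : pn zn g1 ≤ K ^ (2 * d) := by
    have hroot : ∀ z ∈ (map (algebraMap ℚ ℂ) (g1.map (Int.castRingHom ℚ))).roots, ‖z‖ ≤ M := by
      intro z hz
      have h1 := (mem_roots'.1 hz).2
      rw [IsRoot.def, Polynomial.map_map] at h1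
      have h2 : evf z g1 = 0 := by
        rw [evf, coe_eval₂RingHom, ← h1, eval_map]
        congr 1
      obtain ⟨q, hq⟩ := hg1d
      apply root_norm_le (lead d G) hgm M hM hpg z
      rw [hq, map_mul, h2, zero_mul]
    have hco : ∀ i, |((g1.coeff i : ℤ) : ℝ)| ≤ (2 * M) ^ d := by
      intro i
      have h1 := coeff_bdd_of_roots_le (B := M) (d := d) (algebraMap ℚ ℂ)
        (p := g1.map (Int.castRingHom ℚ)) (hg1m.map _)
        (IsAlgClosed.splits _) (by rw [hg1m.natDegree_map]; omega) hroot i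
      rw [coeff_map, coeff_map] at h1
      have h2 : ‖(algebraMap ℚ ℂ) ((Int.castRingHom ℚ) (g1.coeff i))‖
          = |((g1.coeff i : ℤ) : ℝ)| := by
        have : (algebraMap ℚ ℂ) ((Int.castRingHom ℚ) (g1.coeff i)) = ((g1.coeff i : ℤ) : ℂ) := by
          simp
        rw [this, Complex.norm_intCast]
      rw [h2, max_eq_left hM] at h1
      refine h1.trans ?_
      rw [mul_pow, mul_comm]
      apply mul_le_mul_of_nonneg_right _ (by positivity)
      have : d.choose (d / 2) ≤ 2 ^ d := Nat.choose_le_two_pow _ _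
      exact_mod_cast this
    rw [pn_eq_range zn g1 (show g1.natDegree < d + 1 by omega)]
    refine (Finset.sum_le_sum (fun i _ => hco i)).trans ?_
    rw [Finset.sum_const, Finset.card_range, nsmul_eq_mul]
    have h4 : ((d + 1 : ℕ) : ℝ) ≤ K ^ d := by
      push_cast
      rw [hK]; exact d1_le_pow hd0 (by linarith)
    calc ((d + 1 : ℕ) : ℝ) * (2 * M) ^ d ≤ K ^ d * K ^ d :=
          mul_le_mul h4 (pow_le_pow_left₀ (by linarith) (by linarith) d) (by positivity)
            (by positivity)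
      _ = K ^ (2 * d) := by rw [← pow_add]; congr 1; ring
  have hL : pn zn (gp d G) ≤ K ^ (2 * d + 5) := by
    refine (pn_gp_le (by omega) hT hG).trans ?_
    have h1 : (d : ℝ) ≤ K ^ d := by rw [hK]; exact d_le_pow (by linarith)
    calc 5 * (d : ℝ) ^ 2 * M ^ 3 ≤ K ^ 2 * (K ^ d) ^ 2 * K ^ 3 := by
          apply mul_le_mul _ (pow_le_pow_left₀ (by linarith) (by linarith) _) (by positivity)
            (by positivity)
          apply mul_le_mul _ (pow_le_pow_left₀ (by positivity) h1 _) (by positivity)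
            (by positivity)
          nlinarith
      _ = _ := by rw [← pow_mul, ← pow_add, ← pow_add]; congr 1; ring
  have hlow := one_le_of_root' (𝕜 := ℝ) g1 k hk0 hg1m hk.symm (gp d G)
    (nrm_ne_of_irr hg1m hk.symm hirr _ η hg1η hflex) (K ^ (2 * d + 1)) (K ^ (2 * d + 5)) (3 * d)
    (one_le_pow₀ hK1) (by
      have : 1 ≤ K ^ (2 * d) := one_le_pow₀ hK1
      rw [pow_succ]
      nlinarith) hL
    (one_le_pow₀ hK1) natDegree_gp_le η hg1η (by
      rw [Real.norm_eq_abs]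
      refine hηH.trans ?_
      calc M ≤ K := by linarith
        _ = K ^ 1 := (pow_one _).symm
        _ ≤ _ := pow_le_pow_right₀ hK1 (by omega))
  rw [Real.norm_eq_abs, evf_gp (by omega) hT η (abs_pos.1 hD0), abs_neg, abs_mul, abs_mul, abs_pow,
    abs_of_pos (by norm_num : (0 : ℝ) < 2)] at hlow
  have hbig : (k : ℝ) * (k.factorial * (K ^ (2 * d + 5) * (K ^ (2 * d + 1)) ^ (3 * d)) ^ k) *
      (K ^ (2 * d + 1)) ^ k ≤ K ^ (9 * d ^ 3) := by
    have h1 : (k : ℝ) ≤ K ^ d := by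
      have : (d : ℝ) ≤ K ^ d := by rw [hK]; exact d_le_pow (by linarith)
      have h2 : (k : ℝ) ≤ d := by exact_mod_cast hkd
      linarith
    have h2 : (k.factorial : ℝ) ≤ K ^ (d ^ 2) := by
      have : (d.factorial : ℝ) ≤ K ^ (d ^ 2) := by rw [hK]; exact fact_le_pow (by linarith)
      have h3 : (k.factorial : ℝ) ≤ d.factorial := by exact_mod_cast Nat.factorial_le hkd
      linarith
    have h3 : (K ^ (2 * d + 5) * (K ^ (2 * d + 1)) ^ (3 * d)) ^ k
        ≤ (K ^ (2 * d + 5) * (K ^ (2 * d + 1)) ^ (3 * d)) ^ d := by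
      apply pow_le_pow_right₀ _ hkd
      exact one_le_mul_of_one_le_of_one_le (one_le_pow₀ hK1) (one_le_pow₀ (one_le_pow₀ hK1))
    have h4 : (K ^ (2 * d + 1)) ^ k ≤ (K ^ (2 * d + 1)) ^ d :=
      pow_le_pow_right₀ (one_le_pow₀ hK1) hkd
    calc _ ≤ K ^ d * (K ^ (d ^ 2) * (K ^ (2 * d + 5) * (K ^ (2 * d + 1)) ^ (3 * d)) ^ d) *
        (K ^ (2 * d + 1)) ^ d := by
          apply mul_le_mul _ h4 (by positivity) (by positivity)
          apply mul_le_mul h1 _ (by positivity) (by positivity)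
          exact mul_le_mul h2 h3 (by positivity) (by positivity)
      _ = K ^ (d + (d ^ 2 + (2 * d + 5 + (2 * d + 1) * (3 * d)) * d) + (2 * d + 1) * d) := by
          rw [← pow_mul, ← pow_add, ← pow_mul, ← pow_add, ← pow_add, ← pow_mul, ← pow_add]
      _ ≤ _ := by
          apply pow_le_pow_right₀ hK1
          have h5 : d ^ 3 = d * d ^ 2 := by ring
          have h6 : 4 * d ^ 2 ≤ d ^ 3 := by rw [h5]; exact Nat.mul_le_mul_right _ hd
          have h7 : 16 * d ≤ d ^ 3 := by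
            rw [h5, mul_comm]
            apply Nat.mul_le_mul_left
            calc 16 = 4 ^ 2 := by norm_num
              _ ≤ d ^ 2 := Nat.pow_le_pow_left hd 2
          have h8 : d + (d ^ 2 + (2 * d + 5 + (2 * d + 1) * (3 * d)) * d) + (2 * d + 1) * d
              = 6 * d ^ 3 + 8 * d ^ 2 + 7 * d := by ring
          omega
  have hDle : |evf η (derivative (lead d G))| ≤ K ^ (d + 1) := by
    have h1 := tay_le (η := η) hT hG (0, 1) (by simp; omega)
    rw [tay01 hd0 hT] at h1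
    refine h1.trans ?_
    rw [pow_succ, mul_comm]
    apply mul_le_mul _ (by linarith) (by linarith) (by positivity)
    exact pow_le_pow_left₀ (by positivity) (by linarith) _
  have h3 : 2 * |evf η (derivative (lead d G))| ^ 3 ≤ K ^ (3 * d + 4) := by
    calc 2 * |evf η (derivative (lead d G))| ^ 3 ≤ K * (K ^ (d + 1)) ^ 3 :=
          mul_le_mul (by linarith) (pow_le_pow_left₀ (abs_nonneg _) hDle 3) (by positivity)
            (by positivity)
      _ = _ := by rw [← pow_mul, mul_comm, ← pow_succ]; congr 1; ring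
  have hZ0 : 0 < Z := lt_of_lt_of_le (by positivity) hZ
  have h4 : 1 ≤ |gam d G η| * Z := by
    refine hlow.trans ?_
    calc 2 * |evf η (derivative (lead d G))| ^ 3 * |gam d G η| *
          ((k : ℝ) * (k.factorial * (K ^ (2 * d + 5) * (K ^ (2 * d + 1)) ^ (3 * d)) ^ k) *
      (K ^ (2 * d + 1)) ^ k)
        ≤ K ^ (3 * d + 4) * |gam d G η| * K ^ (9 * d ^ 3) := by
          apply mul_le_mul (mul_le_mul_of_nonneg_right h3 (abs_nonneg _)) hbig (by positivity)
            (by positivity)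
      _ = |gam d G η| * K ^ (3 * d + 4 + 9 * d ^ 3) := by rw [pow_add]; ring
      _ ≤ |gam d G η| * Z := by
          apply mul_le_mul_of_nonneg_left _ (abs_nonneg _)
          refine le_trans ?_ hZ
          apply pow_le_pow_right₀ hK1
          have h8 : d ≤ d ^ 3 := Nat.le_self_pow (by norm_num) d
          have h9 : 1 ≤ d ^ 3 := Nat.one_le_pow _ _ hd0
          omega
  rw [div_le_iff₀ hZ0]
  exact h4

end Pool.Agent.H322R2
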