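import Pool.Agent.H322R2.Exp1
import Pool.Agent.H322R2.Anchor

/-!
The coefficients of the expansion at infinity, and Liouville type bounds.
-/

open Polynomial Finset

namespace Pool.Agent.H322R2

/-- Liouville type lower bound through the companion matrix, any degree. -/
lemma one_le_of_root' {𝕜 : Type*} [NormedField 𝕜] [NormedAlgebra ℝ 𝕜] (g : ℤ[X]) (d : ℕ)
    (hd0 : 0 < d) (hm : g.Monic) (hd : g.natDegree = d) (V : ℤ[X]) (hV : nrm g d V ≠ 0)
    (K L : ℝ) (E : ℕ) (hK1 : 1 ≤ K) (hK : 1 + pn zn g ≤ K) (hL : pn zn V ≤ L) (hL1 : 1 ≤ L)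
    (hVd : V.natDegree ≤ E)
    (η : 𝕜) (hη : evf η g = 0) (hηK : ‖η‖ ≤ K) :
    1 ≤ ‖evf η V‖ * (d * (d.factorial * (L * K ^ E) ^ d) * K ^ d) := by
  set M := aeval (comp g d) V with hM
  have hent : ∀ i j, |((M i j : ℤ) : ℝ)| ≤ L * K ^ E := by
    intro i j
    have h := aeval_comp_entry_le zn zn_one g d V E hVd i j
    refine h.trans ?_
    apply mul_le_mul hL (pow_le_pow_left₀ (by have := apply_nonneg (pn zn) g; linarith) hK _)
      (by have := apply_nonneg (pn zn) g; positivity) (by linarith)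
  have hLK : 1 ≤ L * K ^ E := by
    have := one_le_pow₀ hK1 (n := E)
    nlinarith
  have hadj : ∀ i j, |((M.adjugate i j : ℤ) : ℝ)| ≤ d.factorial * (L * K ^ E) ^ d := by
    intro i j
    rw [Matrix.adjugate_apply]
    have := det_le zn zn_one (M.updateRow j (Pi.single i 1)) (L * K ^ E) (by
      intro a b
      rw [Matrix.updateRow_apply]
      split_ifs with h
      · rw [Pi.single_apply]
        split_ifs with h'
        · simpa using hLK
        · simp only [zn_apply, Int.cast_zero, abs_zero]; positivity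
      · exact hent a b)
    simpa using this
  -- vector identity
  set f : ℤ →+* 𝕜 := Int.castRingHom 𝕜 with hf
  set Mf := M.map f with hMf
  set Y : Fin d → 𝕜 := fun i => η ^ (i : ℕ) with hY
  have h2 : Mf.mulVec Y = (eval₂ f η V) • Y := aeval_comp_mulVec f η g d hm hd hη V
  have h3 : (Mf.adjugate * Mf).mulVec Y = Mf.det • Y := by
    rw [Matrix.adjugate_mul, Matrix.smul_mulVec, Matrix.one_mulVec]
  rw [← Matrix.mulVec_mulVec, h2, Matrix.mulVec_smul] at h3
  have h4 := congrFun h3 ⟨0, hd0⟩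
  simp only [Pi.smul_apply, smul_eq_mul, hY, pow_zero, mul_one] at h4
  have h5 : Mf.det = ((nrm g d V : ℤ) : 𝕜) := by
    rw [nrm, hMf, ← hM]
    have := RingHom.map_det f M
    rw [show M.map f = f.mapMatrix M from rfl, ← this]
    rfl
  have h6 : 1 ≤ ‖Mf.det‖ := by
    rw [h5]
    have h7 : ‖((nrm g d V : ℤ) : 𝕜)‖ = |((nrm g d V : ℤ) : ℝ)| := by
      have : ((nrm g d V : ℤ) : 𝕜) = algebraMap ℝ 𝕜 ((nrm g d V : ℤ) : ℝ) := by simp
      rw [this, norm_algebraMap', Real.norm_eq_abs]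
    rw [h7]
    have h8 : 1 ≤ |nrm g d V| := Int.one_le_abs hV
    exact_mod_cast h8
  have h9 : ‖(Mf.adjugate.mulVec fun i => η ^ (i : ℕ)) ⟨0, hd0⟩‖
      ≤ d * (d.factorial * (L * K ^ E) ^ d) * K ^ d := by
    rw [Matrix.mulVec, dotProduct]
    refine (norm_sum_le _ _).trans ?_
    have h10 : ∀ j ∈ (univ : Finset (Fin d)), ‖Mf.adjugate ⟨0, hd0⟩ j * η ^ (j : ℕ)‖
        ≤ (d.factorial * (L * K ^ E) ^ d) * K ^ d := by
      intro j _
      rw [norm_mul, norm_pow]
      have h11 : Mf.adjugate ⟨0, hd0⟩ j = ((M.adjugate ⟨0, hd0⟩ j : ℤ) : 𝕜) := by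
        have := RingHom.map_adjugate f M
        have h12 := congrFun (congrFun this ⟨0, hd0⟩) j
        exact h12.symm
      rw [h11]
      have h7 : ‖((M.adjugate ⟨0, hd0⟩ j : ℤ) : 𝕜)‖ = |((M.adjugate ⟨0, hd0⟩ j : ℤ) : ℝ)| := by
        have : ((M.adjugate ⟨0, hd0⟩ j : ℤ) : 𝕜)
            = algebraMap ℝ 𝕜 ((M.adjugate ⟨0, hd0⟩ j : ℤ) : ℝ) := by simp
        rw [this, norm_algebraMap', Real.norm_eq_abs]
      rw [h7]
      apply mul_le_mul (hadj _ _) _ (by positivity) (by positivity)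
      calc ‖η‖ ^ (j : ℕ) ≤ K ^ (j : ℕ) := pow_le_pow_left₀ (norm_nonneg _) hηK _
        _ ≤ K ^ d := pow_le_pow_right₀ hK1 j.2.le
    refine (Finset.sum_le_sum h10).trans ?_
    simp only [Finset.sum_const, Finset.card_univ, Fintype.card_fin, nsmul_eq_mul]
    exact le_of_eq (by ring)
  calc 1 ≤ ‖Mf.det‖ := h6
    _ = ‖eval₂ f η V * (Mf.adjugate.mulVec fun i => η ^ (i : ℕ)) ⟨0, hd0⟩‖ := by rw [← h4]
    _ = ‖eval₂ f η V‖ * ‖(Mf.adjugate.mulVec fun i => η ^ (i : ℕ)) ⟨0, hd0⟩‖ := norm_mul _ _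
    _ ≤ _ := mul_le_mul_of_nonneg_left h9 (norm_nonneg _)

/-- the Taylor coefficients at infinity in terms of the homogeneous parts -/
lemma tay_eq {d : ℕ} {G : ℤ[X][X]} (hT : TD d G) (η : ℝ) (p q : ℕ) (hp : p ≤ d) :
    tay (hmg d G) (d + 1) (d + 1) (0 : ℝ) η (p, q)
      = ∑ j ∈ range (d + 1), (((lead (d - p) G).coeff j : ℤ) : ℝ) * ((j.choose q : ℝ) *
        η ^ (j - q)) := by
  rw [tay]
  apply Finset.sum_congr rfl
  intro j hj
  rw [Finset.mem_range] at hj
  rw [Finset.sum_eq_single p]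
  · simp only [Nat.choose_self, Nat.cast_one, Nat.sub_self, pow_zero, mul_one]
    congr 2
    rw [coeff_hmg, if_pos hj, coeff_reflect, coeff_lead]
    by_cases h : p ≤ d - j
    · rw [revAt_le h, if_pos (by omega)]
      congr 1
      omega
    · rw [if_neg (by omega)]
      rw [revAt_eq_self_of_lt (by omega)]
      apply coeff_eq_zero_of_natDegree_lt
      have := hT.2 j
      omega
  · intro i _ hip
    rcases Nat.lt_or_gt_of_ne hip with h | h
    · simp only
      rw [Nat.choose_eq_zero_of_lt h]; simp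
    · simp only
      rw [zero_pow (by omega)]; simp
  · intro h
    rw [Finset.mem_range] at h
    omega

lemma natDegree_lead_le (k : ℕ) (G : ℤ[X][X]) : (lead k G).natDegree ≤ k := by
  rw [natDegree_le_iff_coeff_eq_zero]
  intro j hj
  rw [coeff_lead, if_neg (by omega)]

lemma tay_q0 {d : ℕ} {G : ℤ[X][X]} (hT : TD d G) (η : ℝ) (p : ℕ) (hp : p ≤ d) :
    tay (hmg d G) (d + 1) (d + 1) (0 : ℝ) η (p, 0) = evf η (lead (d - p) G) := by
  rw [tay_eq hT η p 0 hp, evf_sum η _ (show (lead (d - p) G).natDegree < d + 1 by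
    have := natDegree_lead_le (d - p) G; omega)]
  apply Finset.sum_congr rfl
  intro j _
  simp

lemma tay_q1 {d : ℕ} {G : ℤ[X][X]} (hT : TD d G) (η : ℝ) (p : ℕ) (hp : p ≤ d) :
    tay (hmg d G) (d + 1) (d + 1) (0 : ℝ) η (p, 1) = evf η (derivative (lead (d - p) G)) := by
  rw [tay_eq hT η p 1 hp, derivative_apply, Polynomial.sum_over_range' _ _ (d + 1)
    (by have := natDegree_lead_le (d - p) G; omega), map_sum]
  · apply Finset.sum_congr rfl
    intro j _
    rw [map_mul, map_pow, evf_X, evf_C]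
    simp
    ring
  · intro j; simp

lemma tay_q2 {d : ℕ} {G : ℤ[X][X]} (hT : TD d G) (η : ℝ) (p : ℕ) (hp : p ≤ d) :
    2 * tay (hmg d G) (d + 1) (d + 1) (0 : ℝ) η (p, 2)
      = evf η (derivative (derivative (lead (d - p) G))) := by
  rw [tay_eq hT η p 2 hp]
  have h1 : derivative (derivative (lead (d - p) G)) = ∑ j ∈ range (d + 1),
      C ((lead (d - p) G).coeff j * (j * (j - 1 : ℕ) : ℤ)) * X ^ (j - 2) := by
    conv_lhs => rw [as_sum_range' (lead (d - p) G) (d + 1)
      (by have := natDegree_lead_le (d - p) G; omega)]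
    rw [derivative_sum, derivative_sum]
    apply Finset.sum_congr rfl
    intro j _
    rw [derivative_monomial, derivative_monomial, ← C_mul_X_pow_eq_monomial]
    have : j - 1 - 1 = j - 2 := by omega
    rw [this]
    congr 2
    push_cast
    ring
  rw [h1, map_sum, Finset.mul_sum]
  apply Finset.sum_congr rfl
  intro j _
  rw [map_mul, map_pow, evf_X, evf_C]
  have h2 : (2 : ℝ) * (j.choose 2 : ℝ) = j * (j - 1 : ℕ) := by
    have h3 : j.choose 2 * 2 = j * (j - 1) := by
      rw [Nat.choose_two_right]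
      exact Nat.div_mul_cancel (Nat.even_mul_pred_self j).two_dvd
    have h4 : ((j.choose 2 : ℕ) : ℝ) * 2 = ((j * (j - 1) : ℕ) : ℝ) := by exact_mod_cast h3
    push_cast at h4
    linarith
  push_cast
  linear_combination (((lead (d - p) G).coeff j : ℤ) : ℝ) * η ^ (j - 2) * h2

/-- the flex polynomial -/
noncomputable def gp (d : ℕ) (G : ℤ[X][X]) : ℤ[X] :=
  derivative (derivative (lead d G)) * lead (d - 1) G ^ 2
    - 2 * (derivative (lead d G) * (derivative (lead (d - 1) G) * lead (d - 1) G))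
    + 2 * (derivative (lead d G) ^ 2 * lead (d - 2) G)

lemma evf_gp {d : ℕ} (hd : 3 ≤ d) {G : ℤ[X][X]} (hT : TD d G) (η : ℝ)
    (hD : evf η (derivative (lead d G)) ≠ 0) :
    evf η (gp d G) = -(2 * evf η (derivative (lead d G)) ^ 3 * gam d G η) := by
  have t01 := tay_q1 hT η 0 (by omega)
  have t02 := tay_q2 hT η 0 (by omega)
  have t10 := tay_q0 hT η 1 (by omega)
  have t11 := tay_q1 hT η 1 (by omega)
  have t20 := tay_q0 hT η 2 (by omega)
  rw [Nat.sub_zero] at t01 t02
  rw [gp, map_add, map_sub, map_mul, map_mul, map_mul, map_mul, map_mul, map_mul, map_pow, map_pow,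
    ← t01, ← t02, ← t10, ← t11, ← t20, gam, bet, tc, tc, tc, tc]
  rw [← t01] at hD
  have h2 : evf η (2 : ℤ[X]) = 2 := map_ofNat (evf η) 2
  rw [h2]
  field_simp
  ring

lemma pn_gp_le {d : ℕ} {G : ℤ[X][X]} {H : ℝ} (hd : 3 ≤ d) (hT : TD d G) (hH : pn (pn zn) G ≤ H) :
    pn zn (gp d G) ≤ 5 * d ^ 2 * H ^ 3 := by
  have hlead : ∀ k, k ≤ 2 → pn zn (lead (d - k) G) ≤ H := by
    intro k hk
    refine le_trans ?_ hH
    have h1 := natDegree_lead_le (d - k) G
    rw [pn_eq_range zn _ (show (lead (d - k) G).natDegree < d + 1 by omega),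
      pn2_eq G (d + 1) (d + 1) (by have := hT.1; omega) (fun j => by have := hT.2 j; omega)]
    apply Finset.sum_le_sum
    intro j _
    rw [coeff_lead]
    split_ifs with h
    · exact Finset.single_le_sum (f := fun i => |(((G.coeff j).coeff i : ℤ) : ℝ)|)
        (fun _ _ => abs_nonneg _) (Finset.mem_range.2 (show d - k - j < d + 1 by omega))
    · rw [map_zero]
      exact Finset.sum_nonneg fun _ _ => abs_nonneg _
  have hH0 : 0 ≤ H := (apply_nonneg _ _).trans hH
  have h0 := hlead 0 (by norm_num)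
  have h1 := hlead 1 (by norm_num)
  have h2 := hlead 2 (by norm_num)
  rw [Nat.sub_zero] at h0
  have n0 := natDegree_lead_le d G
  have n1 := natDegree_lead_le (d - 1) G
  have hd0 : pn zn (derivative (lead d G)) ≤ d * H := by
    refine (pn_derivative_le zn _).trans ?_
    apply mul_le_mul _ h0 (apply_nonneg _ _) (by positivity)
    exact_mod_cast n0
  have hd1 : pn zn (derivative (lead (d - 1) G)) ≤ d * H := by
    refine (pn_derivative_le zn _).trans ?_
    apply mul_le_mul _ h1 (apply_nonneg _ _) (by positivity)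
    have : (lead (d - 1) G).natDegree ≤ d := by omega
    exact_mod_cast this
  have hdd : pn zn (derivative (derivative (lead d G))) ≤ d * (d * H) := by
    refine (pn_derivative_le zn _).trans ?_
    apply mul_le_mul _ hd0 (apply_nonneg _ _) (by positivity)
    have : (derivative (lead d G)).natDegree ≤ d := (natDegree_derivative_le _).trans (by omega)
    exact_mod_cast this
  have sq_le : ∀ (p : ℤ[X]) (B : ℝ), pn zn p ≤ B → pn zn (p ^ 2) ≤ B ^ 2 := by
    intro p B hp
    refine (seminorm_pow_le _ pnz_one _ _).trans ?_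
    exact pow_le_pow_left₀ (apply_nonneg _ _) hp 2
  have two_le : ∀ (p : ℤ[X]) (B : ℝ), pn zn p ≤ B → pn zn (2 * p) ≤ 2 * B := by
    intro p B hp
    rw [two_mul, two_mul]
    exact (map_add_le_add _ _ _).trans (add_le_add hp hp)
  have mul_le' : ∀ (p q : ℤ[X]) (A B : ℝ), pn zn p ≤ A → pn zn q ≤ B → 0 ≤ A →
      pn zn (p * q) ≤ A * B := by
    intro p q A B hp hq hA
    exact (map_mul_le_mul _ _ _).trans (mul_le_mul hp hq (apply_nonneg _ _) hA)
  unfold gp
  refine (map_add_le_add _ _ _).trans ?_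
  have e1 := map_sub_le_add (pn zn) (derivative (derivative (lead d G)) * lead (d - 1) G ^ 2)
    (2 * (derivative (lead d G) * (derivative (lead (d - 1) G) * lead (d - 1) G)))
  have e2 := mul_le' _ _ _ _ hdd (sq_le _ _ h1) (by positivity)
  have e3 := two_le _ _ (mul_le' _ _ _ _ hd0 (mul_le' _ _ _ _ hd1 h1 (by positivity))
    (by positivity))
  have e4 := two_le _ _ (mul_le' _ _ _ _ (sq_le _ _ hd0) h2 (by positivity))
  have e5 : 5 * (d : ℝ) ^ 2 * H ^ 3 = (d * (d * H)) * H ^ 2 + 2 * (d * H * (d * H * H))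
      + 2 * ((d * H) ^ 2 * H) := by ring
  rw [e5]
  linarith

lemma natDegree_gp_le {d : ℕ} {G : ℤ[X][X]} : (gp d G).natDegree ≤ 3 * d := by
  have n0 := natDegree_lead_le d G
  have n1 := natDegree_lead_le (d - 1) G
  have n2 := natDegree_lead_le (d - 2) G
  have h0 : (derivative (lead d G)).natDegree ≤ d := (natDegree_derivative_le _).trans (by omega)
  have h1 : (derivative (lead (d - 1) G)).natDegree ≤ d :=
    (natDegree_derivative_le _).trans (by omega)
  have h2 : (derivative (derivative (lead d G))).natDegree ≤ d :=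
    (natDegree_derivative_le _).trans (by omega)
  unfold gp
  have two : (2 : ℤ[X]).natDegree = 0 := by
    have : (2 : ℤ[X]) = C 2 := rfl
    rw [this, natDegree_C]
  refine (natDegree_add_le _ _).trans (max_le ((natDegree_sub_le _ _).trans (max_le ?_ ?_)) ?_)
  · refine natDegree_mul_le.trans ?_
    have := natDegree_pow_le (p := lead (d - 1) G) (n := 2)
    omega
  · refine natDegree_mul_le.trans ?_
    rw [two, zero_add]
    refine natDegree_mul_le.trans ?_
    have := natDegree_mul_le (p := derivative (lead (d - 1) G)) (q := lead (d - 1) G)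
    omega
  · refine natDegree_mul_le.trans ?_
    rw [two, zero_add]
    refine natDegree_mul_le.trans ?_
    have := natDegree_pow_le (p := derivative (lead d G)) (n := 2)
    omega

section pert

variable {d : ℕ} {G R : ℤ[X][X]}

lemma lead_add_of_TD (hd : 4 ≤ d) (hR : TD (d - 4) R) (p : ℕ) (hp : p ≤ 3) :
    lead (d - p) (G + R) = lead (d - p) G := by
  ext j
  rw [coeff_lead, coeff_lead]
  split_ifs with h
  · rw [coeff_add, coeff_add]
    have h1 : (R.coeff j).coeff (d - p - j) = 0 := by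
      by_cases hj : j ≤ d - 4
      · apply coeff_eq_zero_of_natDegree_lt
        have := hR.2 j
        omega
      · rw [coeff_eq_zero_of_natDegree_lt (p := R) (by have := hR.1; omega), coeff_zero]
    rw [h1, add_zero]
  · rfl

lemma TD_add (hd : 4 ≤ d) (hT : TD d G) (hR : TD (d - 4) R) : TD d (G + R) := by
  constructor
  · refine (natDegree_add_le _ _).trans (max_le hT.1 ?_)
    have := hR.1; omega
  · intro j
    rw [coeff_add]
    refine (natDegree_add_le _ _).trans (max_le (hT.2 j) ?_)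
    have := hR.2 j; omega

lemma tay_add (hd : 4 ≤ d) (hT : TD d G) (hR : TD (d - 4) R) (η : ℝ) (p q : ℕ) (hp : p ≤ 3) :
    tay (hmg d (G + R)) (d + 1) (d + 1) (0 : ℝ) η (p, q)
      = tay (hmg d G) (d + 1) (d + 1) (0 : ℝ) η (p, q) := by
  rw [tay_eq (TD_add hd hT hR) η p q (by omega), tay_eq hT η p q (by omega),
    lead_add_of_TD hd hR p hp]

lemma tc_add (hd : 4 ≤ d) (hT : TD d G) (hR : TD (d - 4) R) (η : ℝ) (p q : ℕ) (hp : p ≤ 3) :
    tc d (G + R) η (p, q) = tc d G η (p, q) := by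
  rw [tc, tc, tay_add hd hT hR η p q hp, tay_add hd hT hR η 0 1 (by omega)]

lemma bet_add (hd : 4 ≤ d) (hT : TD d G) (hR : TD (d - 4) R) (η : ℝ) :
    bet d (G + R) η = bet d G η := by
  rw [bet, bet, tc_add hd hT hR η 1 0 (by omega)]

lemma gam_add (hd : 4 ≤ d) (hT : TD d G) (hR : TD (d - 4) R) (η : ℝ) :
    gam d (G + R) η = gam d G η := by
  rw [gam, gam, bet_add hd hT hR, tc_add hd hT hR η 0 2 (by omega),
    tc_add hd hT hR η 1 1 (by omega), tc_add hd hT hR η 2 0 (by omega)]

lemma kpp_add (hd : 4 ≤ d) (hT : TD d G) (hR : TD (d - 4) R) (η : ℝ) :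
    kpp d (G + R) η = kpp d G η := by
  rw [kpp, kpp, bet_add hd hT hR, gam_add hd hT hR, tc_add hd hT hR η 0 2 (by omega),
    tc_add hd hT hR η 1 1 (by omega), tc_add hd hT hR η 0 3 (by omega),
    tc_add hd hT hR η 1 2 (by omega), tc_add hd hT hR η 2 1 (by omega),
    tc_add hd hT hR η 3 0 (by omega)]

end pert

end Pool.Agent.H322R2
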