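import Pool.Agent.H322R2.Close

/-!
Selection of the real root at infinity near a large integer point.
-/

open Polynomial Finset

namespace Pool.Agent.H322R2

noncomputable def cD (d : ℕ) (H : ℝ) : ℝ :=
  d * (d.factorial * ((d * H) * (1 + H) ^ d) ^ d) * (1 + H) ^ d

noncomputable def cS (d : ℕ) (H : ℝ) : ℝ := H * (1 + H) ^ d

noncomputable def cR (d : ℕ) (H : ℝ) : ℝ := 1 / (2 * cD d H * (d + 1) * cS d H)

lemma one_le_cD {d : ℕ} {H : ℝ} (hd : 0 < d) (hH : 1 ≤ H) : 1 ≤ cD d H := by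
  have h1 : (1 : ℝ) ≤ d := by exact_mod_cast hd
  have h2 : (1 : ℝ) ≤ d.factorial := by exact_mod_cast Nat.one_le_iff_ne_zero.2 d.factorial_ne_zero
  have h3 : (1 : ℝ) ≤ (1 + H) ^ d := one_le_pow₀ (by linarith)
  have h4 : (1 : ℝ) ≤ (d * H) * (1 + H) ^ d := one_le_mul_of_one_le_of_one_le
    (one_le_mul_of_one_le_of_one_le h1 hH) h3
  have h5 := one_le_pow₀ h4 (n := d)
  unfold cD
  exact one_le_mul_of_one_le_of_one_le (one_le_mul_of_one_le_of_one_le h1
    (one_le_mul_of_one_le_of_one_le h2 h5)) h3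

lemma one_le_cS {d : ℕ} {H : ℝ} (hH : 1 ≤ H) : 1 ≤ cS d H := by
  have h3 : (1 : ℝ) ≤ (1 + H) ^ d := one_le_pow₀ (by linarith)
  exact one_le_mul_of_one_le_of_one_le hH h3

lemma cR_pos {d : ℕ} {H : ℝ} (hd : 0 < d) (hH : 1 ≤ H) : 0 < cR d H := by
  have h1 := one_le_cD hd hH
  have h2 := one_le_cS (d := d) hH
  unfold cR
  have : 0 < cD d H := by linarith
  have : 0 < cS d H := by linarith
  positivity

lemma cR_le {d : ℕ} {H : ℝ} (hd : 0 < d) (hH : 1 ≤ H) : cR d H ≤ 1 / 2 := by
  have h1 := one_le_cD hd hH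
  have h2 := one_le_cS (d := d) hH
  unfold cR
  apply one_div_le_one_div_of_le (by norm_num)
  have h3 : (1 : ℝ) ≤ (d + 1) := by have : (0 : ℝ) ≤ d := by positivity
                                    linarith
  have h4 := one_le_mul_of_one_le_of_one_le (one_le_mul_of_one_le_of_one_le h1 h3) h2
  calc (2 : ℝ) = 2 * 1 := by ring
    _ ≤ 2 * (cD d H * (d + 1) * cS d H) := by linarith
    _ = _ := by ring

lemma cS_mul_lt {d : ℕ} {H : ℝ} (hd : 0 < d) (hH : 1 ≤ H) :
    cS d H * ((d + 1 : ℕ) * cR d H) < 1 / cD d H := by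
  have h1 := one_le_cD hd hH
  have h2 := one_le_cS (d := d) hH
  have h3 : 0 < cD d H := by linarith
  have h4 : 0 < cS d H := by linarith
  have h5 : (0 : ℝ) < d + 1 := by positivity
  have : cS d H * ((d + 1 : ℕ) * cR d H) = (1 / cD d H) / 2 := by
    unfold cR
    push_cast
    field_simp
  rw [this]
  have : 0 < 1 / cD d H := by positivity
  linarith

/-- Cauchy bound for roots. -/
lemma root_norm_le {𝕜 : Type*} [NormedField 𝕜] [NormedAlgebra ℝ 𝕜] (g : ℤ[X]) (hm : g.Monic)
    (H : ℝ) (hH : 1 ≤ H) (hg : pn zn g ≤ H) (η : 𝕜) (hη : evf η g = 0) : ‖η‖ ≤ H := by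
  by_contra hcon
  push_neg at hcon
  have h1 : 1 < ‖η‖ := by linarith
  rw [evf_sum η g (Nat.lt_succ_self _), Finset.sum_range_succ] at hη
  rw [show g.coeff g.natDegree = 1 from hm] at hη
  simp only [Int.cast_one, one_mul] at hη
  have hpn : pn zn g = (∑ i ∈ range g.natDegree, |((g.coeff i : ℤ) : ℝ)|) + 1 := by
    rw [pn_eq_range zn g (Nat.lt_succ_self _), Finset.sum_range_succ]
    rw [show g.coeff g.natDegree = 1 from hm]
    simp
  have hint : ∀ n : ℤ, ‖(n : 𝕜)‖ = |(n : ℝ)| := by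
    intro n
    have : (n : 𝕜) = algebraMap ℝ 𝕜 (n : ℝ) := by simp
    rw [this, norm_algebraMap', Real.norm_eq_abs]
  have hd : g.natDegree ≠ 0 := by
    intro h0
    rw [h0] at hη
    simp at hη
  obtain ⟨n, hn⟩ : ∃ n, g.natDegree = n + 1 := ⟨g.natDegree - 1, by omega⟩
  have h2 : ‖η‖ ^ g.natDegree ≤ (pn zn g - 1) * ‖η‖ ^ n := by
    have h3 : η ^ g.natDegree = - ∑ i ∈ range g.natDegree, (g.coeff i : 𝕜) * η ^ i := by
      linear_combination hη
    rw [← norm_pow, h3, norm_neg]
    refine (norm_sum_le _ _).trans ?_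
    rw [hpn, add_sub_cancel_right, Finset.sum_mul]
    apply Finset.sum_le_sum
    intro i hi
    rw [Finset.mem_range] at hi
    rw [norm_mul, norm_pow, hint]
    apply mul_le_mul_of_nonneg_left _ (abs_nonneg _)
    exact pow_le_pow_right₀ h1.le (by omega)
  rw [hn, pow_succ, mul_comm] at h2
  have h3 := le_of_mul_le_mul_right h2 (by positivity)
  linarith

/-- Bound for `b` in terms of `a`. -/
lemma abs_b_le {d : ℕ} {G : ℤ[X][X]} (hm : G.Monic) (hd : G.natDegree = d) (hT : TD d G)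
    {H : ℝ} (hH : 1 ≤ H) (hG : pn (pn zn) G ≤ H) (a b : ℤ) (hab : ev a b G = 0) :
    |(b : ℝ)| ≤ H * max 1 |(a : ℝ)| := by
  set A := max 1 |(a : ℝ)| with hA
  have hA1 : 1 ≤ A := le_max_left _ _
  have haA : |(a : ℝ)| ≤ A := le_max_right _ _
  by_contra hcon
  push_neg at hcon
  have hHA : A ≤ H * A := by nlinarith
  have hbA : A ≤ |(b : ℝ)| := by linarith
  have hb0 : 0 < |(b : ℝ)| := by linarith
  have h0 : ev (a : ℝ) (b : ℝ) G = 0 := by
    have h3 := map_ev (Int.castRingHom ℝ) a b G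
    simp only [eq_intCast] at h3
    rw [← h3, hab]; simp
  rw [ev_apply, eval₂_eq_sum_range, Finset.sum_range_succ] at h0
  rw [show G.coeff G.natDegree = 1 from hm, map_one, one_mul] at h0
  have hpn : pn (pn zn) G = (∑ i ∈ range G.natDegree, pn zn (G.coeff i)) + 1 := by
    rw [pn_eq_range _ G (Nat.lt_succ_self _), Finset.sum_range_succ]
    rw [show G.coeff G.natDegree = 1 from hm, pn_one]
    simp
  have hd0 : d ≠ 0 := by
    intro h00
    rw [hd, h00] at h0
    simp at h0
  obtain ⟨n, hn⟩ : ∃ n, d = n + 1 := ⟨d - 1, by omega⟩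
  have h2 : |(b : ℝ)| ^ d ≤ (pn (pn zn) G - 1) * (A * |(b : ℝ)| ^ n) := by
    have h3 : (b : ℝ) ^ d = - ∑ i ∈ range G.natDegree, evf (a : ℝ) (G.coeff i) * (b : ℝ) ^ i := by
      rw [hd] at h0 ⊢
      linear_combination h0
    rw [← abs_pow, h3, abs_neg]
    refine (Finset.abs_sum_le_sum_abs _ _).trans ?_
    rw [hpn, add_sub_cancel_right, Finset.sum_mul]
    apply Finset.sum_le_sum
    intro i hi
    rw [Finset.mem_range, hd] at hi
    rw [abs_mul, abs_pow]
    have h4 : |evf (a : ℝ) (G.coeff i)| ≤ pn zn (G.coeff i) * A ^ (d - i) := by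
      have h5 := hT.2 i
      rw [evf_sum _ _ (show (G.coeff i).natDegree < d - i + 1 by omega),
        pn_eq_range _ _ (show (G.coeff i).natDegree < d - i + 1 by omega), Finset.sum_mul]
      refine (Finset.abs_sum_le_sum_abs _ _).trans ?_
      apply Finset.sum_le_sum
      intro q hq
      rw [Finset.mem_range] at hq
      rw [abs_mul, abs_pow]
      apply mul_le_mul_of_nonneg_left _ (abs_nonneg _)
      calc |(a : ℝ)| ^ q ≤ A ^ q := pow_le_pow_left₀ (abs_nonneg _) haA _
        _ ≤ A ^ (d - i) := pow_le_pow_right₀ hA1 (by omega)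
    have h6 : A ^ (d - i) * |(b : ℝ)| ^ i ≤ A * |(b : ℝ)| ^ n := by
      have h7 : d - i = (n - i) + 1 := by omega
      rw [h7, pow_succ]
      calc A ^ (n - i) * A * |(b : ℝ)| ^ i = A * (A ^ (n - i) * |(b : ℝ)| ^ i) := by ring
        _ ≤ A * (|(b : ℝ)| ^ (n - i) * |(b : ℝ)| ^ i) := by
          apply mul_le_mul_of_nonneg_left _ (by linarith)
          apply mul_le_mul_of_nonneg_right _ (by positivity)
          exact pow_le_pow_left₀ (by linarith) hbA _
        _ = _ := by rw [← pow_add]; congr 2; omega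
    calc |evf (a : ℝ) (G.coeff i)| * |(b : ℝ)| ^ i
        ≤ (pn zn (G.coeff i) * A ^ (d - i)) * |(b : ℝ)| ^ i :=
          mul_le_mul_of_nonneg_right h4 (by positivity)
      _ = pn zn (G.coeff i) * (A ^ (d - i) * |(b : ℝ)| ^ i) := by ring
      _ ≤ _ := mul_le_mul_of_nonneg_left h6 (apply_nonneg _ _)
  rw [hn, pow_succ] at h2
  have h3 : |(b : ℝ)| * |(b : ℝ)| ^ n ≤ ((pn (pn zn) G - 1) * A) * |(b : ℝ)| ^ n := by
    calc |(b : ℝ)| * |(b : ℝ)| ^ n = |(b : ℝ)| ^ n * |(b : ℝ)| := by ring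
      _ ≤ _ := h2
      _ = _ := by ring
  have h4 := le_of_mul_le_mul_right h3 (by positivity)
  nlinarith

lemma pow_card_le_prod' (s : Multiset ℝ) (m : ℝ) (hm : 0 ≤ m) (h : ∀ x ∈ s, m ≤ x) :
    m ^ (Multiset.card s) ≤ s.prod := by
  induction s using Multiset.induction_on with
  | empty => simp
  | cons a s ih =>
    rw [Multiset.card_cons, Multiset.prod_cons, pow_succ, mul_comm]
    have h1 := ih (fun x hx => h x (Multiset.mem_cons_of_mem hx))
    have h2 := h a (Multiset.mem_cons_self a s)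
    exact mul_le_mul h2 h1 (by positivity) (hm.trans h2)

/-- A complex root close to a point where a monic polynomial is small. -/
lemma exists_root_close (g : ℤ[X]) (d : ℕ) (hd0 : 0 < d) (hm : g.Monic) (hd : g.natDegree = d)
    (w : ℂ) : ∃ η : ℂ, evf η g = 0 ∧ ‖w - η‖ ^ d ≤ ‖evf w g‖ := by
  set p : ℂ[X] := g.map (Int.castRingHom ℂ) with hp
  have hpm : p.Monic := hm.map _
  have hpd : p.natDegree = d := by rw [hp, hm.natDegree_map, hd]
  have hsp : p.Splits := IsAlgClosed.splits p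
  have hcard : Multiset.card p.roots = d := by rw [← hpd]; exact hsp.natDegree_eq_card_roots.symm
  have hprod : p = (p.roots.map fun a => X - C a).prod := hsp.eq_prod_roots_of_monic hpm
  have hev : ∀ z : ℂ, evf z g = p.eval z := by
    intro z
    rw [hp, eval_map]; rfl
  have hne : p.roots.toFinset.Nonempty := by
    rw [Multiset.toFinset_nonempty]
    intro h0
    rw [h0] at hcard
    simp at hcard
    omega
  obtain ⟨η, hη, hmin⟩ := Finset.exists_min_image p.roots.toFinset (fun x => ‖w - x‖) hne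
  rw [Multiset.mem_toFinset] at hη
  refine ⟨η, ?_, ?_⟩
  · rw [hev]
    exact (mem_roots'.1 hη).2
  · rw [hev]
    conv_rhs => rw [hprod]
    rw [eval_multiset_prod, Multiset.map_map]
    have h1 : ‖(Multiset.map ((eval w) ∘ fun a => X - C a) p.roots).prod‖
        = (p.roots.map fun a => ‖w - a‖).prod := by
      have h3 := map_multiset_prod (normHom : ℂ →*₀ ℝ)
        (Multiset.map ((eval w) ∘ fun a => X - C a) p.roots)
      rw [Multiset.map_map] at h3
      calc _ = (normHom : ℂ →*₀ ℝ) (Multiset.map ((eval w) ∘ fun a => X - C a) p.roots).prod := rfl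
        _ = _ := h3
        _ = _ := by
          congr 1
          apply Multiset.map_congr rfl
          intro x _
          simp
    rw [h1]
    have h2 := pow_card_le_prod' (p.roots.map fun a => ‖w - a‖) ‖w - η‖ (norm_nonneg _) (by
      intro x hx
      rw [Multiset.mem_map] at hx
      obtain ⟨y, hy, rfl⟩ := hx
      exact hmin y (Multiset.mem_toFinset.2 hy))
    rwa [Multiset.card_map, hcard] at h2

/-- A real root at infinity close to the slope of a large integer point. -/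
lemma root_sel {d : ℕ} {G : ℤ[X][X]} (hd0 : 0 < d) (hm : G.Monic) (hd : G.natDegree = d)
    (hT : TD d G) {H : ℝ} (hH : 1 ≤ H) (hG : pn (pn zn) G ≤ H)
    (hn : nrm (lead d G) d (derivative (lead d G)) ≠ 0)
    (a b : ℤ) (ha : a ≠ 0) (hab : ev a b G = 0)
    (hlarge : cS d H * (2 / cR d H) ^ d ≤ |(a : ℝ)|) :
    ∃ η : ℝ, evf η (lead d G) = 0 ∧ |(b : ℝ) / a - η| ≤ cR d H ∧
      1 ≤ |evf η (derivative (lead d G))| * cD d H ∧ |η| ≤ H := by
  obtain ⟨hgm, hgd⟩ := lead_monic hm hd
  set g := lead d G with hg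
  have hpg : pn zn g ≤ H := (pn_lead_le hd.le).trans hG
  have hR := cR_pos hd0 hH
  have hR2 := cR_le hd0 hH
  have ha1 : (1 : ℝ) ≤ |(a : ℝ)| := by
    have : 1 ≤ |a| := Int.one_le_abs ha
    exact_mod_cast this
  have ha0 : (0 : ℝ) < |(a : ℝ)| := by linarith
  have haC : ((a : ℤ) : ℂ) ≠ 0 := by exact_mod_cast ha
  obtain ⟨w, hw⟩ : ∃ w : ℝ, w = (b : ℝ) / a := ⟨_, rfl⟩
  have hwH : |w| ≤ H := by
    have h1 := abs_b_le hm hd hT hH hG a b hab
    rw [max_eq_right ha1] at h1
    rw [hw, abs_div, div_le_iff₀ ha0]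
    exact h1
  have hwC : (w : ℂ) = (b : ℂ) / a := by rw [hw]; push_cast; rfl
  -- smallness of g at w
  have hPn : (hmg d G).natDegree < d + 1 := by have := natDegree_hmg d G; omega
  have hPm : ∀ j, ((hmg d G).coeff j).natDegree < d + 1 := fun j => by
    have := natDegree_coeff_hmg hT j; omega
  have hP0 : ev ((a : ℂ)⁻¹) (w : ℂ) (hmg d G) = 0 := by
    have h1 : ev (a : ℂ) (b : ℂ) G = 0 := by
      have h3 := map_ev (Int.castRingHom ℂ) a b G
      simp only [eq_intCast] at h3
      rw [← h3, hab]; simp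
    have h2 := ev_hmg (x := (a : ℂ)) (z := (a : ℂ)⁻¹) (w : ℂ) (mul_inv_cancel₀ haC) hT
    have h3 : (a : ℂ) * w = b := by rw [hwC]; field_simp
    rw [h3, h1] at h2
    rcases mul_eq_zero.1 h2.symm with h | h
    · exact absurd h (pow_ne_zero _ haC)
    · exact h
  have hnorm_inv : ‖((a : ℂ)⁻¹)‖ = 1 / |(a : ℝ)| := by
    rw [norm_inv, one_div]
    congr 1
    have : ((a : ℤ) : ℂ) = ((a : ℝ) : ℂ) := by push_cast; rfl
    rw [this, Complex.norm_real, Real.norm_eq_abs]
  have hsmall : ‖evf (w : ℂ) g‖ ≤ cS d H * (1 / |(a : ℝ)|) := by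
    have h1 := ev_close (𝕜 := ℂ) (hmg d G) (d + 1) (d + 1) hPn hPm (w : ℂ) (r := 1 / |(a : ℝ)|)
      (by rw [div_le_one ha0]; exact ha1) ((a : ℂ)⁻¹) 0 hnorm_inv.le (by simp)
    rw [add_zero, hP0, zero_sub, norm_neg, ev_zero_hmg, pn_hmg hT] at h1
    refine h1.trans ?_
    apply mul_le_mul_of_nonneg_right _ (by positivity)
    unfold cS
    apply mul_le_mul hG _ (by positivity) (by linarith)
    rw [Complex.norm_real, Real.norm_eq_abs]
    exact pow_le_pow_left₀ (by positivity) (by linarith) _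
  obtain ⟨η, hη0, hη⟩ := exists_root_close g d hd0 hgm hgd (w : ℂ)
  have hclose : ‖(w : ℂ) - η‖ ≤ cR d H / 2 := by
    have h1 : ‖(w : ℂ) - η‖ ^ d ≤ (cR d H / 2) ^ d := by
      refine hη.trans (hsmall.trans ?_)
      rw [mul_one_div, div_le_iff₀ ha0]
      have h2 : (cR d H / 2) ^ d * (cS d H * (2 / cR d H) ^ d) = cS d H := by
        have : (cR d H / 2) * (2 / cR d H) = 1 := by field_simp
        calc (cR d H / 2) ^ d * (cS d H * (2 / cR d H) ^ d)
            = cS d H * ((cR d H / 2) * (2 / cR d H)) ^ d := by rw [mul_pow]; ring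
          _ = _ := by rw [this, one_pow, mul_one]
      calc cS d H = (cR d H / 2) ^ d * (cS d H * (2 / cR d H) ^ d) := h2.symm
        _ ≤ (cR d H / 2) ^ d * |(a : ℝ)| := mul_le_mul_of_nonneg_left hlarge (by positivity)
    exact le_of_pow_le_pow_left₀ hd0.ne' (by positivity) h1
  -- derivative bound
  have hgd' : (derivative g).natDegree ≤ d := (natDegree_derivative_le _).trans (by omega)
  have hpd : pn zn (derivative g) ≤ d * H := by
    refine (pn_derivative_le zn g).trans ?_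
    rw [hgd]
    exact mul_le_mul_of_nonneg_left hpg (by positivity)
  have hdH : (1 : ℝ) ≤ d * H := by
    have : (1 : ℝ) ≤ d := by exact_mod_cast hd0
    nlinarith
  have hηH : ‖η‖ ≤ H := root_norm_le g hgm H hH hpg η hη0
  have hder : 1 ≤ ‖evf η (derivative g)‖ * cD d H :=
    one_le_of_root g d hd0 hgm hgd (derivative g) hn (1 + H) (d * H) (by linarith) (by linarith)
      hpd hdH hgd' η hη0 (by linarith)
  have hD1 := one_le_cD hd0 hH
  have hD0 : 0 < cD d H := by linarith
  have hder' : 1 / cD d H ≤ ‖evf η (derivative g)‖ := by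
    rw [div_le_iff₀ hD0]; exact hder
  -- η is real
  have hreal : (starRingEnd ℂ) η = η := by
    have hc0 : evf ((starRingEnd ℂ) η) g = 0 := by
      have := map_evf (starRingEnd ℂ) η g
      rw [← this, hη0, map_zero]
    have hu := close_unique (𝕜 := ℂ) (hmg d G) (d + 1) (d + 1) hPn hPm η (r := cR d H)
      (by linarith)
      (by
        rw [ev_zero_derivative_hmg _ _ hd0, pn_hmg hT]
        refine lt_of_le_of_lt ?_ (lt_of_lt_of_le (cS_mul_lt hd0 hH) hder')
        apply mul_le_mul_of_nonneg_right _ (by positivity)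
        unfold cS
        apply mul_le_mul hG _ (by positivity) (by linarith)
        exact pow_le_pow_left₀ (by positivity) (by linarith) _)
      0 ((starRingEnd ℂ) η - η) 0 (by simpa using hR.le)
      (by
        have h1 : (starRingEnd ℂ) η - η = ((w : ℂ) - η) - (starRingEnd ℂ) ((w : ℂ) - η) := by
          rw [map_sub, Complex.conj_ofReal]; ring
        rw [h1]
        refine (norm_sub_le _ _).trans ?_
        rw [Complex.norm_conj]
        linarith)
      (by simpa using hR.le)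
      (by
        rw [add_zero, ev_zero_hmg, ev_zero_hmg, add_sub_cancel, hη0, hc0])
    exact sub_eq_zero.1 hu
  obtain ⟨x, hx⟩ := Complex.conj_eq_iff_real.1 hreal
  have hevf : ∀ q : ℤ[X], evf η q = ((evf x q : ℝ) : ℂ) := by
    intro q
    have := map_evf Complex.ofRealHom x q
    rw [hx]
    exact this.symm
  refine ⟨x, ?_, ?_, ?_, ?_⟩
  · rw [hevf] at hη0
    exact_mod_cast hη0
  · rw [← hw]
    have h1 : ‖(w : ℂ) - η‖ = |w - x| := by
      rw [hx, ← Complex.ofReal_sub, Complex.norm_real, Real.norm_eq_abs]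
    rw [← h1]; linarith
  · rw [hevf, Complex.norm_real, Real.norm_eq_abs] at hder
    exact hder
  · rw [hx, Complex.norm_real, Real.norm_eq_abs] at hηH
    exact hηH

end Pool.Agent.H322R2
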