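import Pool.Agent.H322R2.Exp1
import Pool.Agent.H322R2.Root
import Pool.Agent.H322R2.Gam

/-!
Points where `G` is small: root selection and expansion.
-/

open Polynomial Finset

namespace Pool.Agent.H322R2

section

variable {d : ℕ} {G : ℤ[X][X]} {η S M : ℝ}

theorem exp_lemma2 (hd4 : 4 ≤ d) (hT : TD d G) (hM : pn (pn zn) G ≤ M) (hS : 1 ≤ S)
    (hη : evf η (lead d G) = 0) (hD0 : 0 < |evf η (derivative (lead d G))|)
    (hD : M * (1 + |η|) ^ d ≤ S * |evf η (derivative (lead d G))|) {a b : ℤ}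
    {V : ℝ} (hV : 0 ≤ V) (hab : |ev (a : ℝ) (b : ℝ) G| ≤ |(a : ℝ)| ^ (d - 4) * V) (ha : 34 * (d + 1) * S ^ 6 ≤ |(a : ℝ)|)
    (hclose : |(b : ℝ) / a - η| ≤ 1 / (2 * (d + 1) * S)) :
    Nr η (bet d G η) (gam d G η) (kpp d G η)
      (2 * S * (36 * S ^ 5) ^ d + 2 * V / |evf η (derivative (lead d G))|) a b := by
  have hd : 3 ≤ d := by omega
  obtain ⟨hb, hg, hk⟩ := bgk_le hd hT hM hS hD0 hD
  have hPn : (hmg d G).natDegree < d + 1 := by have := natDegree_hmg d G; omega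
  have hPm : ∀ j, ((hmg d G).coeff j).natDegree < d + 1 := fun j => by
    have := natDegree_coeff_hmg hT j; omega
  obtain ⟨β, hβ⟩ : ∃ β, β = bet d G η := ⟨_, rfl⟩
  obtain ⟨γ, hγ⟩ : ∃ γ, γ = gam d G η := ⟨_, rfl⟩
  obtain ⟨κ, hκ⟩ : ∃ κ, κ = kpp d G η := ⟨_, rfl⟩
  have hS0 : 0 < S := by linarith
  have hd3 : (3 : ℝ) ≤ d := by exact_mod_cast hd
  have hS5 : 1 ≤ S ^ 5 := one_le_pow₀ hS
  have hS6 : 1 ≤ S ^ 6 := one_le_pow₀ hS
  have hSS5 : S ≤ S ^ 5 := by
    calc S = S ^ 1 := (pow_one _).symm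
      _ ≤ S ^ 5 := pow_le_pow_right₀ hS (by norm_num)
  have hS35 : S ^ 3 ≤ S ^ 5 := pow_le_pow_right₀ hS (by norm_num)
  have hsum : |bet d G η| + |gam d G η| + |kpp d G η| ≤ 17 * S ^ 5 := by linarith
  have ha1 : 1 ≤ |(a : ℝ)| := by
    refine le_trans ?_ ha
    have : 1 ≤ 34 * ((d : ℝ) + 1) := by linarith
    exact one_le_mul_of_one_le_of_one_le this hS6
  have ha0 : 0 < |(a : ℝ)| := by linarith
  have haR : (a : ℝ) ≠ 0 := abs_pos.1 ha0
  obtain ⟨z, hz⟩ : ∃ z, z = (a : ℝ)⁻¹ := ⟨_, rfl⟩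
  have hza : |z| * |(a : ℝ)| = 1 := by rw [hz, abs_inv]; field_simp
  have hz1 : |z| ≤ 1 := by
    rw [hz, abs_inv]; exact inv_le_one_of_one_le₀ ha1
  obtain ⟨r, hr⟩ : ∃ r : ℝ, r = 1 / (2 * (d + 1) * S) := ⟨_, rfl⟩
  rw [← hr] at hclose
  have hr1 : r ≤ 1 := by
    rw [hr, div_le_one (by positivity)]
    nlinarith
  have hr0 : 0 < r := by rw [hr]; positivity
  -- |z| * 17 S^5 ≤ r
  have hzr' : |z| * (17 * S ^ 5) ≤ r := by
    have h1 : (17 * S ^ 5) ≤ r * |(a : ℝ)| := by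
      rw [hr, one_div_mul_eq_div, le_div_iff₀ (by positivity)]
      calc 17 * S ^ 5 * (2 * (d + 1) * S) = 34 * (d + 1) * S ^ 6 := by ring
        _ ≤ _ := ha
    calc |z| * (17 * S ^ 5) ≤ |z| * (r * |(a : ℝ)|) := mul_le_mul_of_nonneg_left h1 (abs_nonneg _)
      _ = r * (|z| * |(a : ℝ)|) := by ring
      _ = r := by rw [hza, mul_one]
  have hzr : |z| ≤ r := by
    refine le_trans ?_ hzr'
    apply le_mul_of_one_le_right (abs_nonneg _)
    linarith
  obtain ⟨h2, hh2⟩ : ∃ h2, h2 = (h2p d G η).eval z := ⟨_, rfl⟩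
  have hh2' : h2 = z * (bet d G η + gam d G η * z + kpp d G η * z ^ 2) := by
    rw [hh2, h2p]; simp
  have hh2r : |h2| ≤ r := by
    rw [hh2', abs_mul]
    refine le_trans (mul_le_mul_of_nonneg_left ?_ (abs_nonneg _)) hzr'
    refine (abs_add_le _ _).trans ?_
    have h1 := abs_add_le (bet d G η) (gam d G η * z)
    have h3 : |gam d G η * z| ≤ |gam d G η| := by
      rw [abs_mul]; exact mul_le_of_le_one_right (abs_nonneg _) hz1
    have h4 : |kpp d G η * z ^ 2| ≤ |kpp d G η| := by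
      rw [abs_mul, abs_pow]
      exact mul_le_of_le_one_right (abs_nonneg _) (pow_le_one₀ (abs_nonneg _) hz1)
    linarith
  -- value of P at the truncated branch
  have hdvd := dvd_trunc hd hT hη (abs_pos.1 hD0)
  have hev := abs_eval_le hdvd hz1
  have hev1 : (ev (X : ℝ[X]) (C η + h2p d G η) (hmg d G)).eval z = ev z (η + h2) (hmg d G) := by
    have h3 := map_ev (evalRingHom z) (X : ℝ[X]) (C η + h2p d G η) (hmg d G)
    simp only [coe_evalRingHom, eval_X, eval_add, eval_C] at h3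
    rw [h3, hh2]
  rw [hev1] at hev
  have hpn1 : pn rn (1 : ℝ[X]) ≤ 1 := by rw [pn_one]; exact rn_one
  have hpnv : pn rn (C η + h2p d G η) ≤ |η| + 17 * S ^ 5 := by
    refine (map_add_le_add _ _ _).trans ?_
    rw [pn_C, rn_apply]
    have h3 : pn rn (h2p d G η) ≤ |bet d G η| + |gam d G η| + |kpp d G η| := by
      rw [h2p]
      refine (map_mul_le_mul _ _ _).trans ?_
      have h4 : pn rn (X : ℝ[X]) ≤ 1 := by rw [pn_X]; exact rn_one
      have h5 : pn rn (C (bet d G η) + C (gam d G η) * X + C (kpp d G η) * X ^ 2)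
          ≤ |bet d G η| + |gam d G η| + |kpp d G η| := by
        refine (map_add_le_add _ _ _).trans ?_
        have h6 := map_add_le_add (pn rn) (C (bet d G η)) (C (gam d G η) * X)
        rw [pn_C, rn_apply] at h6
        have h7 : pn rn (C (gam d G η) * X) ≤ |gam d G η| := by
          refine (map_mul_le_mul _ _ _).trans ?_
          rw [pn_C, rn_apply]
          exact mul_le_of_le_one_right (abs_nonneg _) h4
        have h8 : pn rn (C (kpp d G η) * X ^ 2) ≤ |kpp d G η| := by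
          refine (map_mul_le_mul _ _ _).trans ?_
          rw [pn_C, rn_apply]
          apply mul_le_of_le_one_right (abs_nonneg _)
          refine (seminorm_pow_le _ hpn1 _ _).trans ?_
          exact pow_le_one₀ (apply_nonneg _ _) h4
        linarith
      calc pn rn (X : ℝ[X]) * pn rn (C (bet d G η) + C (gam d G η) * X + C (kpp d G η) * X ^ 2)
          ≤ 1 * (|bet d G η| + |gam d G η| + |kpp d G η|) :=
            mul_le_mul h4 h5 (apply_nonneg _ _) (by norm_num)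
        _ = _ := one_mul _
    linarith
  have hpnQ : pn rn (ev (X : ℝ[X]) (C η + h2p d G η) (hmg d G))
      ≤ (M * (1 + |η|) ^ d) * (36 * S ^ 5) ^ d := by
    have h3 := sum_tay_le (pn rn) hpn1 (hmg d G) (d + 1) (d + 1) hPn hPm (X : ℝ[X])
      (C η + h2p d G η)
    have h4 : pn rn (tay (hmg d G) (d + 1) (d + 1) (X : ℝ[X]) (C η + h2p d G η) (0, 0)) ≤
        ∑ p ∈ range (d + 1) ×ˢ range (d + 1),
          pn rn (tay (hmg d G) (d + 1) (d + 1) (X : ℝ[X]) (C η + h2p d G η) p) :=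
      Finset.single_le_sum (f := fun p =>
          pn rn (tay (hmg d G) (d + 1) (d + 1) (X : ℝ[X]) (C η + h2p d G η) p))
        (fun _ _ => apply_nonneg _ _) (by simp)
    rw [tay_zero _ _ _ hPn hPm] at h4
    refine h4.trans (h3.trans ?_)
    rw [pn_hmg hT, Nat.add_sub_cancel]
    have h5 : (1 + pn rn (X : ℝ[X])) ^ d ≤ 2 ^ d := by
      apply pow_le_pow_left₀ (by have := apply_nonneg (pn rn) (X : ℝ[X]); linarith)
      rw [pn_X]; have := rn_one; linarith
    have h6 : (1 + pn rn (C η + h2p d G η)) ^ d ≤ ((1 + |η|) * (18 * S ^ 5)) ^ d := by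
      apply pow_le_pow_left₀ (by have := apply_nonneg (pn rn) (C η + h2p d G η); linarith)
      have h7 : 0 ≤ |η| * (18 * S ^ 5 - 1) := by
        apply mul_nonneg (abs_nonneg _); linarith
      nlinarith
    have h8 : 0 ≤ pn (pn zn) G := apply_nonneg _ _
    have hM0 : 0 ≤ M := h8.trans hM
    have h9 : 0 ≤ pn rn (X : ℝ[X]) := apply_nonneg _ _
    have h10 : 0 ≤ pn rn (C η + h2p d G η) := apply_nonneg _ _
    calc pn (pn zn) G * (1 + pn rn (X : ℝ[X])) ^ d * (1 + pn rn (C η + h2p d G η)) ^ d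
        ≤ M * 2 ^ d * ((1 + |η|) * (18 * S ^ 5)) ^ d := by
          apply mul_le_mul _ h6 (by positivity) (by positivity)
          exact mul_le_mul hM h5 (by positivity) (by linarith)
      _ = _ := by
          rw [mul_pow (1 + |η|)]
          have : (36 * S ^ 5) ^ d = 2 ^ d * (18 * S ^ 5) ^ d := by rw [← mul_pow]; ring
          rw [this]; ring
  obtain ⟨Dd, hDd⟩ : ∃ Dd, Dd = |evf η (derivative (lead d G))| := ⟨_, rfl⟩
  rw [← hDd] at hD0 hD
  -- close_quant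
  obtain ⟨h1, hh1⟩ : ∃ h1, h1 = (b : ℝ) / a - η := ⟨_, rfl⟩
  rw [← hh1] at hclose
  have hP1 : |ev z (η + h1) (hmg d G)| ≤ |z| ^ 4 * V := by
    have h4 := ev_hmg (x := (a : ℝ)) (z := z) ((b : ℝ) / a)
      (by rw [hz]; exact mul_inv_cancel₀ haR) hT
    have h5 : (a : ℝ) * ((b : ℝ) / a) = b := by field_simp
    rw [h5] at h4
    have h6 : η + h1 = (b : ℝ) / a := by rw [hh1]; ring
    rw [h6]
    rw [h4, abs_mul, abs_pow] at hab
    have h7 : |(a : ℝ)| ^ d = |(a : ℝ)| ^ (d - 4) * |(a : ℝ)| ^ 4 := by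
      rw [← pow_add]; congr 1; omega
    rw [h7, mul_assoc] at hab
    have h8 := le_of_mul_le_mul_left hab (by positivity)
    calc |ev z ((b : ℝ) / a) (hmg d G)|
        = |z| ^ 4 * (|(a : ℝ)| ^ 4 * |ev z ((b : ℝ) / a) (hmg d G)|) := by
          rw [← mul_assoc, ← mul_pow, hza, one_pow, one_mul]
      _ ≤ _ := mul_le_mul_of_nonneg_left h8 (by positivity)
  have hq := close_quant (𝕜 := ℝ) (hmg d G) (d + 1) (d + 1) hPn hPm (by omega) η hr1 z h1 h2
    (by rw [Real.norm_eq_abs]; exact hzr) (by rw [Real.norm_eq_abs]; exact hclose)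
    (by rw [Real.norm_eq_abs]; exact hh2r)
  rw [ev_zero_derivative_hmg _ _ (by omega), Real.norm_eq_abs,
    Real.norm_eq_abs, Real.norm_eq_abs, Real.norm_eq_abs, pn_hmg hT, Nat.add_sub_cancel, ← hDd] at hq
  have hq' := abs_sub (ev z (η + h1) (hmg d G)) (ev z (η + h2) (hmg d G))
  have hhalf : pn (pn zn) G * (1 + |η|) ^ d * ((d + 1 : ℕ) * r) ≤ Dd / 2 := by
    have h3 : pn (pn zn) G * (1 + |η|) ^ d ≤ S * Dd :=
      (mul_le_mul_of_nonneg_right hM (by positivity)).trans hD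
    calc _ ≤ S * Dd * ((d + 1 : ℕ) * r) := mul_le_mul_of_nonneg_right h3 (by positivity)
      _ = Dd / 2 := by rw [hr]; push_cast; field_simp
  have hfin : |h1 - h2| * Dd ≤ 2 * (|z| ^ 4 * (S * Dd * (36 * S ^ 5) ^ d) + |z| ^ 4 * V) := by
    have h3 : pn (pn zn) G * (1 + |η|) ^ d * ((d + 1 : ℕ) * r) * |h1 - h2|
        ≤ Dd / 2 * |h1 - h2| := mul_le_mul_of_nonneg_right hhalf (abs_nonneg _)
    have h4 : |z| ^ 4 * pn rn (ev (X : ℝ[X]) (C η + h2p d G η) (hmg d G))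
        ≤ |z| ^ 4 * (S * Dd * (36 * S ^ 5) ^ d) := by
      apply mul_le_mul_of_nonneg_left _ (by positivity)
      refine hpnQ.trans ?_
      exact mul_le_mul_of_nonneg_right hD (by positivity)
    linarith
  have hfin2 : |h1 - h2| ≤ (2 * S * (36 * S ^ 5) ^ d + 2 * V / Dd) * |z| ^ 4 := by
    have h3 : |h1 - h2| * Dd ≤ ((2 * S * (36 * S ^ 5) ^ d + 2 * V / Dd) * |z| ^ 4) * Dd := by
      refine hfin.trans (le_of_eq ?_)
      field_simp
    exact le_of_mul_le_mul_right h3 hD0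
  have hb1 : (b : ℝ) - η * a - bet d G η - gam d G η / a - kpp d G η / (a : ℝ) ^ 2
      = a * (h1 - h2) := by
    rw [hh1, hh2', hz]; field_simp
    ring
  rw [Nr, hb1, abs_mul]
  rw [← hDd]
  obtain ⟨WW, hWW⟩ : ∃ WW, WW = 2 * S * (36 * S ^ 5) ^ d + 2 * V / Dd := ⟨_, rfl⟩
  rw [← hWW] at hfin2 ⊢
  calc |(a : ℝ)| * |h1 - h2| ≤ |(a : ℝ)| * (WW * |z| ^ 4) :=
        mul_le_mul_of_nonneg_left hfin2 (abs_nonneg _)
    _ = WW / |(a : ℝ)| ^ 3 := by
        rw [hz, abs_inv]; field_simp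

end

/-- A real root at infinity close to the slope of a large integer point. -/
lemma root_sel2 {d : ℕ} {G : ℤ[X][X]} (hd0 : 0 < d) (hm : G.Monic) (hd : G.natDegree = d)
    (hT : TD d G) {H : ℝ} (hH : 1 ≤ H) (hG : pn (pn zn) G ≤ H)
    (hn : nrm (lead d G) d (derivative (lead d G)) ≠ 0)
    (a b : ℤ) (ha : a ≠ 0) (hbH : |(b : ℝ)| ≤ H * |(a : ℝ)|)
    (hab : |ev (a : ℝ) (b : ℝ) G| ≤ |(a : ℝ)| ^ (d - 1))
    (hlarge : 2 * cS d H * (2 / cR d H) ^ d ≤ |(a : ℝ)|) :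
    ∃ η : ℝ, evf η (lead d G) = 0 ∧ |(b : ℝ) / a - η| ≤ cR d H ∧
      1 ≤ |evf η (derivative (lead d G))| * cD d H ∧ |η| ≤ H := by
  obtain ⟨hgm, hgd⟩ := lead_monic hm hd
  set g := lead d G with hg
  have hpg : pn zn g ≤ H := (pn_lead_le hd.le).trans hG
  have hR := cR_pos hd0 hH
  have hR2 := cR_le hd0 hH
  have ha1 : (1 : ℝ) ≤ |(a : ℝ)| := by
    have : 1 ≤ |a| := Int.one_le_abs ha
    exact_mod_cast this
  have ha0 : (0 : ℝ) < |(a : ℝ)| := by linarith
  have haC : ((a : ℤ) : ℂ) ≠ 0 := by exact_mod_cast ha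
  obtain ⟨w, hw⟩ : ∃ w : ℝ, w = (b : ℝ) / a := ⟨_, rfl⟩
  have hwH : |w| ≤ H := by
    rw [hw, abs_div, div_le_iff₀ ha0]
    exact hbH
  have hwC : (w : ℂ) = (b : ℂ) / a := by rw [hw]; push_cast; rfl
  -- smallness of g at w
  have hPn : (hmg d G).natDegree < d + 1 := by have := natDegree_hmg d G; omega
  have hPm : ∀ j, ((hmg d G).coeff j).natDegree < d + 1 := fun j => by
    have := natDegree_coeff_hmg hT j; omega
  have hP0 : ‖ev ((a : ℂ)⁻¹) (w : ℂ) (hmg d G)‖ ≤ 1 / |(a : ℝ)| := by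
    have haR : (a : ℝ) ≠ 0 := abs_pos.1 ha0
    have h2 := ev_hmg (x := (a : ℝ)) (z := (a : ℝ)⁻¹) w (mul_inv_cancel₀ haR) hT
    have h3 : (a : ℝ) * w = b := by rw [hw]; field_simp
    rw [h3] at h2
    rw [h2, abs_mul, abs_pow] at hab
    have h7 : |(a : ℝ)| ^ d = |(a : ℝ)| ^ (d - 1) * |(a : ℝ)| := by
      rw [← pow_succ]; congr 1; omega
    rw [h7, mul_assoc] at hab
    have h8 : |(a : ℝ)| * |ev ((a : ℝ)⁻¹) w (hmg d G)| ≤ 1 := by
      have h9 : |(a : ℝ)| ^ (d - 1) * (|(a : ℝ)| * |ev ((a : ℝ)⁻¹) w (hmg d G)|)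
          ≤ |(a : ℝ)| ^ (d - 1) * 1 := by rw [mul_one]; exact hab
      exact le_of_mul_le_mul_left h9 (by positivity)
    have h10 : ev ((a : ℂ)⁻¹) (w : ℂ) (hmg d G) = ((ev ((a : ℝ)⁻¹) w (hmg d G) : ℝ) : ℂ) := by
      have h11 := map_ev Complex.ofRealHom ((a : ℝ)⁻¹) w (hmg d G)
      simp only [Complex.ofRealHom_eq_coe] at h11
      rw [h11]; push_cast; rfl
    rw [h10, Complex.norm_real, Real.norm_eq_abs, le_div_iff₀ ha0, mul_comm]
    exact h8
  have hnorm_inv : ‖((a : ℂ)⁻¹)‖ = 1 / |(a : ℝ)| := by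
    rw [norm_inv, one_div]
    congr 1
    have : ((a : ℤ) : ℂ) = ((a : ℝ) : ℂ) := by push_cast; rfl
    rw [this, Complex.norm_real, Real.norm_eq_abs]
  have hsmall : ‖evf (w : ℂ) g‖ ≤ 2 * cS d H * (1 / |(a : ℝ)|) := by
    have h1 := ev_close (𝕜 := ℂ) (hmg d G) (d + 1) (d + 1) hPn hPm (w : ℂ) (r := 1 / |(a : ℝ)|)
      (by rw [div_le_one ha0]; exact ha1) ((a : ℂ)⁻¹) 0 hnorm_inv.le (by simp)
    rw [add_zero, ev_zero_hmg, pn_hmg hT] at h1
    have h4 : pn (pn zn) G * (1 + ‖(w : ℂ)‖) ^ (d + 1 - 1) * (1 / |(a : ℝ)|)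
        ≤ cS d H * (1 / |(a : ℝ)|) := by
      apply mul_le_mul_of_nonneg_right _ (by positivity)
      unfold cS
      apply mul_le_mul hG _ (by positivity) (by linarith)
      rw [Complex.norm_real, Real.norm_eq_abs]
      exact pow_le_pow_left₀ (by positivity) (by linarith) _
    have h5 : ‖evf (w : ℂ) g‖ ≤ ‖ev ((a : ℂ)⁻¹) (w : ℂ) (hmg d G)‖
        + ‖ev ((a : ℂ)⁻¹) (w : ℂ) (hmg d G) - evf (w : ℂ) (lead d G)‖ := by
      have h6 : evf (w : ℂ) g = ev ((a : ℂ)⁻¹) (w : ℂ) (hmg d G)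
          - (ev ((a : ℂ)⁻¹) (w : ℂ) (hmg d G) - evf (w : ℂ) (lead d G)) := by
        rw [← hg]; ring
      conv_lhs => rw [h6]
      exact norm_sub_le _ _
    have h7 := one_le_cS (d := d) hH
    have h8 : 1 / |(a : ℝ)| ≤ cS d H * (1 / |(a : ℝ)|) :=
      le_mul_of_one_le_left (by positivity) h7
    have h9 : 2 * cS d H * (1 / |(a : ℝ)|) = cS d H * (1 / |(a : ℝ)|) + cS d H * (1 / |(a : ℝ)|) := by
      ring
    linarith
  obtain ⟨η, hη0, hη⟩ := exists_root_close g d hd0 hgm hgd (w : ℂ)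
  have hclose : ‖(w : ℂ) - η‖ ≤ cR d H / 2 := by
    have h1 : ‖(w : ℂ) - η‖ ^ d ≤ (cR d H / 2) ^ d := by
      refine hη.trans (hsmall.trans ?_)
      rw [mul_one_div, div_le_iff₀ ha0]
      have h2 : (cR d H / 2) ^ d * (2 * cS d H * (2 / cR d H) ^ d) = 2 * cS d H := by
        have : (cR d H / 2) * (2 / cR d H) = 1 := by field_simp
        calc (cR d H / 2) ^ d * (2 * cS d H * (2 / cR d H) ^ d)
            = 2 * cS d H * ((cR d H / 2) * (2 / cR d H)) ^ d := by rw [mul_pow]; ring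
          _ = _ := by rw [this, one_pow, mul_one]
      calc 2 * cS d H = (cR d H / 2) ^ d * (2 * cS d H * (2 / cR d H) ^ d) := h2.symm
        _ ≤ (cR d H / 2) ^ d * |(a : ℝ)| := mul_le_mul_of_nonneg_left hlarge (by positivity)
    exact le_of_pow_le_pow_left₀ hd0.ne' (by positivity) h1
  -- derivative bound
  have hgd' : (derivative g).natDegree ≤ d := (natDegree_derivative_le _).trans (by omega)
  have hpd : pn zn (derivative g) ≤ d * H := by
    refine (pn_derivative_le zn g).trans ?_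
    rw [hgd]
    exact mul_le_mul_of_nonneg_left hpg (by positivity)
  have hdH : (1 : ℝ) ≤ d * H := by
    have : (1 : ℝ) ≤ d := by exact_mod_cast hd0
    nlinarith
  have hηH : ‖η‖ ≤ H := root_norm_le g hgm H hH hpg η hη0
  have hder : 1 ≤ ‖evf η (derivative g)‖ * cD d H :=
    one_le_of_root g d hd0 hgm hgd (derivative g) hn (1 + H) (d * H) (by linarith) (by linarith)
      hpd hdH hgd' η hη0 (by linarith)
  have hD1 := one_le_cD hd0 hH
  have hD0 : 0 < cD d H := by linarith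
  have hder' : 1 / cD d H ≤ ‖evf η (derivative g)‖ := by
    rw [div_le_iff₀ hD0]; exact hder
  -- η is real
  have hreal : (starRingEnd ℂ) η = η := by
    have hc0 : evf ((starRingEnd ℂ) η) g = 0 := by
      have := map_evf (starRingEnd ℂ) η g
      rw [← this, hη0, map_zero]
    have hu := close_unique (𝕜 := ℂ) (hmg d G) (d + 1) (d + 1) hPn hPm η (r := cR d H)
      (by linarith)
      (by
        rw [ev_zero_derivative_hmg _ _ hd0, pn_hmg hT]
        refine lt_of_le_of_lt ?_ (lt_of_lt_of_le (cS_mul_lt hd0 hH) hder')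
        apply mul_le_mul_of_nonneg_right _ (by positivity)
        unfold cS
        apply mul_le_mul hG _ (by positivity) (by linarith)
        exact pow_le_pow_left₀ (by positivity) (by linarith) _)
      0 ((starRingEnd ℂ) η - η) 0 (by simpa using hR.le)
      (by
        have h1 : (starRingEnd ℂ) η - η = ((w : ℂ) - η) - (starRingEnd ℂ) ((w : ℂ) - η) := by
          rw [map_sub, Complex.conj_ofReal]; ring
        rw [h1]
        refine (norm_sub_le _ _).trans ?_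
        rw [Complex.norm_conj]
        linarith)
      (by simpa using hR.le)
      (by
        rw [add_zero, ev_zero_hmg, ev_zero_hmg, add_sub_cancel, hη0, hc0])
    exact sub_eq_zero.1 hu
  obtain ⟨x, hx⟩ := Complex.conj_eq_iff_real.1 hreal
  have hevf : ∀ q : ℤ[X], evf η q = ((evf x q : ℝ) : ℂ) := by
    intro q
    have := map_evf Complex.ofRealHom x q
    rw [hx]
    exact this.symm
  refine ⟨x, ?_, ?_, ?_, ?_⟩
  · rw [hevf] at hη0
    exact_mod_cast hη0
  · rw [← hw]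
    have h1 : ‖(w : ℂ) - η‖ = |w - x| := by
      rw [hx, ← Complex.ofReal_sub, Complex.norm_real, Real.norm_eq_abs]
    rw [← h1]; linarith
  · rw [hevf, Complex.norm_real, Real.norm_eq_abs] at hder
    exact hder
  · rw [hx, Complex.norm_real, Real.norm_eq_abs] at hηH
    exact hηH


lemma ev_TD_le {k : ℕ} {R : ℤ[X][X]} (hT : TD k R) {x y B : ℝ} (hB : 1 ≤ B) (hx : |x| ≤ B)
    (hy : |y| ≤ B) : |ev x y R| ≤ pn (pn zn) R * B ^ k := by
  rw [ev_apply, eval₂_eq_sum_range' _ (show R.natDegree < k + 1 by have := hT.1; omega),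
    pn_eq_range _ R (show R.natDegree < k + 1 by have := hT.1; omega), Finset.sum_mul]
  refine (Finset.abs_sum_le_sum_abs _ _).trans ?_
  apply Finset.sum_le_sum
  intro i hi
  rw [Finset.mem_range] at hi
  rw [abs_mul, abs_pow]
  have h4 : |evf x (R.coeff i)| ≤ pn zn (R.coeff i) * B ^ (k - i) := by
    have h5 := hT.2 i
    rw [evf_sum _ _ (show (R.coeff i).natDegree < k - i + 1 by omega),
      pn_eq_range _ _ (show (R.coeff i).natDegree < k - i + 1 by omega), Finset.sum_mul]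
    refine (Finset.abs_sum_le_sum_abs _ _).trans ?_
    apply Finset.sum_le_sum
    intro q hq
    rw [Finset.mem_range] at hq
    rw [abs_mul, abs_pow]
    apply mul_le_mul_of_nonneg_left _ (abs_nonneg _)
    calc |x| ^ q ≤ B ^ q := pow_le_pow_left₀ (abs_nonneg _) hx _
      _ ≤ B ^ (k - i) := pow_le_pow_right₀ hB (by omega)
  calc |evf x (R.coeff i)| * |y| ^ i ≤ (pn zn (R.coeff i) * B ^ (k - i)) * B ^ i := by
        apply mul_le_mul h4 (pow_le_pow_left₀ (abs_nonneg _) hy i) (by positivity)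
        exact mul_nonneg (apply_nonneg _ _) (by positivity)
    _ = pn zn (R.coeff i) * B ^ k := by
        rw [mul_assoc, ← pow_add]; congr 2; omega

end Pool.Agent.H322R2
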