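import Pool.Agent.H322R2.GDig
import Pool.Agent.H322R2.DFin2

/-!
Reducible members and members with very large points.
-/

open Polynomial Finset IntermediateField

namespace Pool.Agent.H322R2

variable {e : ℕ}

lemma len_FM_le {H : ℕ} {c : ↥(Ix e) → ℤ} (hc : c ∈ Bx _ H) : len (FM c) ≤ (Ix e).card * H := by
  classical
  unfold len
  have h1 : ((FM c).support.image (fun m : Fin 2 →₀ ℕ => (m 0, m 1))) ⊆ Ix e := by
    intro p hp
    rw [Finset.mem_image] at hp
    obtain ⟨m, hm, rfl⟩ := hp
    rw [MvPolynomial.mem_support_iff, coeff_FM, cf] at hm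
    by_contra hcon
    rw [dif_neg hcon] at hm
    exact hm rfl
  have hinj : Set.InjOn (fun m : Fin 2 →₀ ℕ => (m 0, m 1)) ((FM c).support : Set (Fin 2 →₀ ℕ)) := by
    intro m _ m' _ h
    simp only [Prod.mk.injEq] at h
    ext i
    fin_cases i
    · exact h.1
    · exact h.2
  have h2 : (FM c).support.card ≤ (Ix e).card := by
    rw [← Finset.card_image_of_injOn hinj]
    exact Finset.card_le_card h1
  refine (Finset.sum_le_card_nsmul _ _ H ?_).trans ?_
  · intro m _
    rw [coeff_FM, cf]
    split_ifs with h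
    · have := mem_Bx.1 hc ⟨(m 0, m 1), h⟩
      rw [Int.abs_eq_natAbs] at this
      exact_mod_cast this
    · simp
  · rw [smul_eq_mul]; exact Nat.mul_le_mul_right _ h2

/-- the index of the constant term -/
def i00 (e : ℕ) : ↥(Ix e) := ⟨(0, 0), mem_Ix.2 (by simp)⟩

lemma ev_zero_PG (c : ↥(Ix e) → ℤ) : ev (0 : ℤ) 0 (PG c) = c (i00 e) := by
  classical
  rw [ev_PG_sum, Finset.sum_eq_single (i00 e)]
  · simp [i00]
  · intro p _ hp
    have : p.1.2 ≠ 0 ∨ p.1.1 ≠ 0 := by
      by_contra hcon
      push_neg at hcon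
      apply hp
      apply Subtype.ext
      exact Prod.ext hcon.2 hcon.1
    rcases this with h | h
    · rw [zero_pow h]; ring
    · rw [zero_pow h]; ring
  · intro h; exact absurd (Finset.mem_univ _) h

lemma FM_update (c : ↥(Ix e) → ℤ) :
    FM c = FM (Function.update c (i00 e) 0) + MvPolynomial.C (c (i00 e)) := by
  classical
  ext m
  rw [MvPolynomial.coeff_add, coeff_FM, coeff_FM, MvPolynomial.coeff_C, cf, cf]
  by_cases hm : m = 0
  · subst hm
    have h : ((0 : Fin 2 →₀ ℕ) 0, (0 : Fin 2 →₀ ℕ) 1) ∈ Ix e := mem_Ix.2 (by simp)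
    rw [dif_pos h, dif_pos h, if_pos rfl]
    have h1 : (⟨((0 : Fin 2 →₀ ℕ) 0, (0 : Fin 2 →₀ ℕ) 1), h⟩ : ↥(Ix e)) = i00 e := rfl
    rw [h1, Function.update_self, zero_add]
  · rw [if_neg (Ne.symm hm), add_zero]
    split_ifs with h
    · rw [Function.update_of_ne]
      intro h1
      apply hm
      have h2 := congrArg Subtype.val h1
      simp only [i00, Prod.mk.injEq] at h2
      ext i
      fin_cases i
      · exact h2.1
      · exact h2.2
    · rfl

open Classical in
theorem red_count (F : MvPolynomial (Fin 2) ℤ) (H : ℕ) (he : e + 4 ≤ F.totalDegree)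
    (hsq : Squarefree (MvPolynomial.map (Int.castRingHom ℚ)
      (MvPolynomial.homogeneousComponent F.totalDegree F))) :
    ((Bx ↥(Ix e) H).filter (fun c => ¬ Irreducible (MvPolynomial.map (Int.castRingHom ℚ)
      (F + FM c)))).card ≤ 2 ^ F.totalDegree * (2 * H + 1) ^ ((Ix e).card - 1) := by
  have hinjQ : Function.Injective (Int.castRingHom ℚ) := Int.cast_injective
  have h1 := Finset.card_le_mul_card_image_of_maps_to
    (s := (Bx ↥(Ix e) H).filter (fun c => ¬ Irreducible (MvPolynomial.map (Int.castRingHom ℚ)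
      (F + FM c)))) (t := Bpt e H (0, 0) 0) (f := fun c => Function.update c (i00 e) 0) (by
      intro c hc
      rw [Finset.mem_filter] at hc
      rw [Bpt, Finset.mem_filter]
      refine ⟨update_mem_Bx hc.1 _ (by rw [Finset.mem_Icc]; constructor <;> omega), ?_⟩
      simp only
      rw [ev_zero_PG, Function.update_self]) (2 ^ F.totalDegree) (by
      intro c0 _
      obtain ⟨F', hF'⟩ : ∃ F', F' = F + FM c0 := ⟨_, rfl⟩
      have hRd : (FM c0).totalDegree + 4 ≤ F.totalDegree := by
        have := totalDegree_FM_le c0; omega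
      have hdeg' := totalDegree_pert (F := F) (R := FM c0) (by omega) hRd
      have hcomp' := comp_pert (F := F) (R := FM c0) (by omega) hRd
      rw [← hF'] at hdeg' hcomp'
      obtain ⟨FQ, hFQ⟩ : ∃ FQ, FQ = MvPolynomial.map (Int.castRingHom ℚ) F' := ⟨_, rfl⟩
      have hFQd : FQ.totalDegree = F.totalDegree := by
        rw [hFQ, MvPolynomial.totalDegree, MvPolynomial.support_map_of_injective _ hinjQ,
          ← MvPolynomial.totalDegree, hdeg']
      have hFQc : MvPolynomial.homogeneousComponent F.totalDegree FQ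
          = MvPolynomial.map (Int.castRingHom ℚ)
            (MvPolynomial.homogeneousComponent F.totalDegree F) := by
        rw [← hcomp', hdeg']
        ext n
        rw [hFQ, MvPolynomial.coeff_homogeneousComponent, MvPolynomial.coeff_map,
          MvPolynomial.coeff_map, MvPolynomial.coeff_homogeneousComponent]
        split_ifs <;> simp
      obtain ⟨Φ, hΦ⟩ : ∃ Φ, Φ = ((Bx ↥(Ix e) H).filter (fun c => ¬ Irreducible
        (MvPolynomial.map (Int.castRingHom ℚ) (F + FM c)))).filter
          (fun c => Function.update c (i00 e) 0 = c0) := ⟨_, rfl⟩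
      rw [← hΦ]
      have hmem : ∀ c ∈ Φ, ¬ Irreducible (FQ - MvPolynomial.C (-(c (i00 e) : ℚ))) ∧
          Function.update c (i00 e) 0 = c0 := by
        intro c hc
        rw [hΦ, Finset.mem_filter, Finset.mem_filter] at hc
        refine ⟨?_, hc.2⟩
        have h2 := hc.1.2
        rw [FM_update c, hc.2, ← add_assoc, ← hF', map_add, MvPolynomial.map_C, ← hFQ] at h2
        rw [map_neg, sub_neg_eq_add]
        exact h2
      obtain ⟨g, hg⟩ : ∃ g : (↥(Ix e) → ℤ) → ℚ, g = fun c => -(c (i00 e) : ℚ) := ⟨_, rfl⟩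
      have hginj : Set.InjOn g (Φ : Set (↥(Ix e) → ℤ)) := by
        intro c hc c' hc' h
        rw [hg] at h
        simp only [neg_inj, Int.cast_inj] at h
        have e1 := (hmem c (Finset.mem_coe.1 hc)).2
        have e2 := (hmem c' (Finset.mem_coe.1 hc')).2
        funext p
        by_cases hp : p = i00 e
        · rw [hp, h]
        · have e3 := congrFun (e1.trans e2.symm) p
          rwa [Function.update_of_ne hp, Function.update_of_ne hp] at e3
      rw [← Finset.card_image_of_injOn hginj, ← hFQd]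
      apply few_red (by rw [hFQd]; omega) (by rw [hFQd, hFQc]; exact hsq)
      intro q hq
      rw [Finset.mem_image] at hq
      obtain ⟨c, hc, rfl⟩ := hq
      rw [hg]
      exact (hmem c hc).1)
  exact h1.trans (Nat.mul_le_mul_left _ (Bpt_zero H 0))

lemma kC_le_kE (d : ℕ) : kC d ≤ kE d := by
  unfold kC kE
  have h1 : (d + 1) ^ 11 ≤ (d + 1) ^ 13 := Nat.pow_le_pow_right (by omega) (by norm_num)
  calc 10 ^ 10 * 36 ^ d * (d + 1) ^ 11 ≤ 10 ^ 10 * 36 ^ d * (d + 1) ^ 13 :=
        Nat.mul_le_mul_left _ h1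
    _ ≤ _ := by
      apply Nat.mul_le_mul_right
      apply Nat.mul_le_mul_right
      norm_num

open Classical in
theorem large_count (F : MvPolynomial (Fin 2) ℤ) (H : ℕ) (hd : 4 ≤ F.totalDegree)
    (he : e + 4 ≤ F.totalDegree)
    (hsq : Squarefree (MvPolynomial.map (Int.castRingHom ℚ)
      (MvPolynomial.homogeneousComponent F.totalDegree F)))
    (hlines : ∀ p q : Fin 2 → ℝ, q ≠ 0 → F.totalDegree ≤
      (MvPolynomial.aeval (fun i => (C (p i) + C (q i) * X : ℝ[X])) F).natDegree + 2) :
    ((Bx ↥(Ix e) H).filter (fun c => Irreducible (MvPolynomial.map (Int.castRingHom ℚ)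
      (F + FM c)) ∧ ∃ x y : ℤ, MvPolynomial.eval ![x, y] (F + FM c) = 0 ∧
      ((F.totalDegree + 1) * (len F + (Ix e).card * H)) ^ (kE F.totalDegree)
        < max x.natAbs y.natAbs)).card ≤ kN F.totalDegree := by
  obtain ⟨H1, hH1⟩ : ∃ H1, H1 = len F + (Ix e).card * H := ⟨_, rfl⟩
  rw [← hH1]
  obtain ⟨Φ, hΦ⟩ : ∃ Φ, Φ = ((Bx ↥(Ix e) H).filter (fun c => Irreducible (MvPolynomial.map (Int.castRingHom ℚ)
      (F + FM c)) ∧ ∃ x y : ℤ, MvPolynomial.eval ![x, y] (F + FM c) = 0 ∧
      ((F.totalDegree + 1) * H1) ^ (kE F.totalDegree)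
        < max x.natAbs y.natAbs)) := ⟨_, rfl⟩
  rw [← hΦ]
  have hF0 : F ≠ 0 := by
    rintro rfl
    simp at hd
  have hRd : ∀ c : ↥(Ix e) → ℤ, (FM c).totalDegree + 4 ≤ F.totalDegree := by
    intro c
    have := totalDegree_FM_le c; omega
  have hlen1 : 1 ≤ len F := len_pos hF0
  have hH11 : 1 ≤ H1 := by omega
  by_cases hirr : Irreducible (MvPolynomial.map (Int.castRingHom ℚ)
      (MvPolynomial.homogeneousComponent F.totalDegree F))
  · have h1 := main3 F H1 hd hirr hlines (by omega)
    have hmem : ∀ c ∈ Φ, c ∈ Bx ↥(Ix e) H ∧ ∃ x y : ℤ, MvPolynomial.eval ![x, y] (F + FM c) = 0 ∧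
        ((F.totalDegree + 1) * H1) ^ (kE F.totalDegree) < max x.natAbs y.natAbs := by
      intro c hc
      rw [hΦ, Finset.mem_filter] at hc
      exact ⟨hc.1, hc.2.2⟩
    choose! hB x y hxy hbig using hmem
    obtain ⟨f, hf⟩ : ∃ f : (↥(Ix e) → ℤ) → MvPolynomial (Fin 2) ℤ × ℤ × ℤ,
      f = fun c => (FM c, x c, y c) := ⟨_, rfl⟩
    have hinj : Set.InjOn f (Φ : Set (↥(Ix e) → ℤ)) := by
      intro c _ c' _ h
      rw [hf] at h
      simp only [Prod.mk.injEq] at h
      exact FM_injectiveV h.1
    have h2 : (f '' (Φ : Set (↥(Ix e) → ℤ))).encard = Φ.card := by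
      rw [hinj.encard_image, Set.encard_coe_eq_coe_finsetCard]
    have h3 : (f '' (Φ : Set (↥(Ix e) → ℤ))) ⊆ {t : MvPolynomial (Fin 2) ℤ × ℤ × ℤ |
        t.1.totalDegree + 4 ≤ F.totalDegree ∧
      len t.1 ≤ H1 ∧ MvPolynomial.eval ![t.2.1, t.2.2] (F + t.1) = 0 ∧
      ((F.totalDegree + 1) * H1) ^ (kC F.totalDegree) < max t.2.1.natAbs t.2.2.natAbs} := by
      rintro t ⟨c, hc, rfl⟩
      rw [Finset.mem_coe] at hc
      rw [hf]
      refine ⟨hRd c, ?_, hxy c hc, ?_⟩
      · have := len_FM_le (hB c hc)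
        simp only
        omega
      · refine lt_of_le_of_lt ?_ (hbig c hc)
        exact Nat.pow_le_pow_right (Nat.mul_pos (by omega) hH11) (kC_le_kE _)
    have h4 := (Set.encard_le_encard h3).trans h1
    rw [h2] at h4
    exact_mod_cast h4
  · have : Φ = ∅ := by
      rw [Finset.eq_empty_iff_forall_notMem]
      intro c hc
      rw [hΦ, Finset.mem_filter] at hc
      obtain ⟨hc1, hc2, x, y, hxy, hbig⟩ := hc
      obtain ⟨k, -, hk⟩ := main1
      have hdeg' := totalDegree_pert hd (hRd c)
      have hcomp' := comp_pert hd (hRd c)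
      obtain ⟨F', hF'⟩ : ∃ F', F' = F + FM c := ⟨_, rfl⟩
      rw [← hF'] at hdeg' hcomp' hc2 hxy
      have hsq' : Squarefree (MvPolynomial.map (Int.castRingHom ℚ)
          (MvPolynomial.homogeneousComponent F'.totalDegree F')) := by
        rw [hcomp']; exact hsq
      have hlen' : len F' ≤ H1 := by
        rw [hF']
        have e1 := len_add_le F (FM c)
        have e2 := len_FM_le hc1
        omega
      rcases hk F' hc2 (by omega) hsq' x y hxy with ⟨hx, hy⟩ | ⟨s, hs0, hsf, -, -⟩
      · rw [hdeg'] at hx hy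
        have e1 : ((F.totalDegree + 1) * len F') ^ kE F.totalDegree
            ≤ ((F.totalDegree + 1) * H1) ^ kE F.totalDegree :=
          Nat.pow_le_pow_left (Nat.mul_le_mul_left _ hlen') _
        have e2 := max_le (hx.trans e1) (hy.trans e1)
        exact absurd hbig (not_lt.2 e2)
      · apply hirr
        rw [hdeg'] at hsf
        rw [hcomp'] at hs0
        have hhom : (MvPolynomial.map (Int.castRingHom ℚ)
            (MvPolynomial.homogeneousComponent F.totalDegree F)).IsHomogeneous F.totalDegree := by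
          exact (MvPolynomial.homogeneousComponent_isHomogeneous _ _).map _
        apply irr_of_slope (by omega) hhom hsq.ne_zero s _ hsf
        rw [← hs0, MvPolynomial.aeval_def, MvPolynomial.aeval_def, MvPolynomial.eval₂_map]
        congr 1
    rw [this]; simp

end Pool.Agent.H322R2
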