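import Pool.Agent.H322R2.Count

/-!
Integer points close to a smooth branch, with a large error term: no five points in a window.
-/

open Finset

namespace Pool.Agent.H322R2

section win

variable {η β γ κ Z W X : ℝ} (hZ : 2 ≤ Z) (hW : Z ≤ W) (hX : W ≤ X)
  (hη : |η| ≤ Z) (hβ : |β| ≤ Z) (hγ1 : |γ| ≤ Z) (hκ : |κ| ≤ Z) (hγ : 1 / Z ≤ |γ|)

include hZ hW hX hγ1 hκ in
lemma e_bound2 {a b : ℤ} (ha : X ≤ |(a : ℝ)|) (h : Nr η β γ κ W a b) :
    |(b : ℝ) - η * a - β| ≤ 3 * Z / X := by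
  have hX0 : 0 < X := by linarith
  have hX1 : 1 ≤ X := by linarith
  have ha0 : 0 < |(a : ℝ)| := by linarith
  have h1 : |γ / a| ≤ Z / X := by
    rw [abs_div]
    exact div_le_div₀ (by linarith) hγ1 (by linarith) ha
  have hX2 : X ≤ |(a : ℝ)| ^ 2 := by nlinarith
  have h2 : |κ / (a : ℝ) ^ 2| ≤ Z / X := by
    rw [abs_div, abs_pow]
    exact div_le_div₀ (by linarith) hκ (by linarith) hX2
  have h3 : W / |(a : ℝ)| ^ 3 ≤ Z / X := by
    rw [div_le_div_iff₀ (by positivity) hX0]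
    have e1 : X * X ≤ |(a : ℝ)| ^ 3 := by
      have e2 : |(a : ℝ)| ^ 3 = |(a : ℝ)| * |(a : ℝ)| ^ 2 := by ring
      rw [e2]
      exact mul_le_mul ha hX2 hX0.le (abs_nonneg _)
    calc W * X ≤ X * X := mul_le_mul_of_nonneg_right hX hX0.le
      _ ≤ |(a : ℝ)| ^ 3 := e1
      _ ≤ Z * |(a : ℝ)| ^ 3 := le_mul_of_one_le_left (by positivity) (by linarith)
  have h4 : |(b : ℝ) - η * a - β - γ / a - κ / (a : ℝ) ^ 2| ≤ Z / X := h.trans h3
  have h5 : (b : ℝ) - η * a - β = ((b : ℝ) - η * a - β - γ / a - κ / (a : ℝ) ^ 2)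
      + γ / a + κ / (a : ℝ) ^ 2 := by ring
  rw [h5]
  refine (abs_add_le _ _).trans ?_
  have h6 := abs_add_le ((b : ℝ) - η * a - β - γ / a - κ / (a : ℝ) ^ 2) (γ / a)
  have h7 : 3 * Z / X = Z / X + Z / X + Z / X := by ring
  rw [h7]
  linarith

include hZ hW hX hη hγ1 hκ hγ in
theorem no_col2 (hNA : ∀ p q : ℤ, q ≠ 0 → |(q : ℝ)| ≤ 8 * W * Z ^ 4 →
      5 * Z * |(q : ℝ)| / X ^ 2 < |(p : ℝ) - η * q|) {a0 a1 a2 b0 b1 b2 : ℤ}
    (h0 : X ≤ |(a0 : ℝ)| ∧ |(a0 : ℝ)| ≤ X * Z) (h1 : X ≤ |(a1 : ℝ)| ∧ |(a1 : ℝ)| ≤ X * Z)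
    (h2 : X ≤ |(a2 : ℝ)| ∧ |(a2 : ℝ)| ≤ X * Z) (n0 : Nr η β γ κ W a0 b0)
    (n1 : Nr η β γ κ W a1 b1) (n2 : Nr η β γ κ W a2 b2)
    (h01 : a0 ≠ a1) (h02 : a0 ≠ a2) (h12 : a1 ≠ a2) :
    (a1 - a0) * (b2 - b0) - (a2 - a0) * (b1 - b0) ≠ 0 := by
  intro hD
  have hX0 : 0 < X := by linarith
  have hX1 : 1 ≤ X := by linarith
  have hZ0 : 0 < Z := by linarith
  have hW0 : 0 < W := by linarith
  have hu : a1 - a0 ≠ 0 := sub_ne_zero.2 h01.symm
  have hv : a2 - a0 ≠ 0 := sub_ne_zero.2 h02.symm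
  -- coprime direction
  obtain ⟨g, q, p, hgq, hgp, hcop⟩ : ∃ g q p : ℤ, a1 - a0 = g * q ∧ b1 - b0 = g * p ∧
      IsCoprime q p := by
    have hg : Int.gcd (a1 - a0) (b1 - b0) ≠ 0 := by
      intro h; exact hu (Int.gcd_eq_zero_iff.1 h).1
    refine ⟨Int.gcd (a1 - a0) (b1 - b0), (a1 - a0) / Int.gcd (a1 - a0) (b1 - b0),
      (b1 - b0) / Int.gcd (a1 - a0) (b1 - b0), ?_, ?_, ?_⟩
    · exact (Int.mul_ediv_cancel' (Int.gcd_dvd_left _ _)).symm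
    · exact (Int.mul_ediv_cancel' (Int.gcd_dvd_right _ _)).symm
    · rw [Int.isCoprime_iff_gcd_eq_one]
      exact Int.gcd_ediv_gcd_ediv_gcd (Nat.pos_of_ne_zero hg)
  have hg0 : g ≠ 0 := by rintro rfl; rw [zero_mul] at hgq; exact hu hgq
  have hq0 : q ≠ 0 := by rintro rfl; rw [mul_zero] at hgq; exact hu hgq
  have hqt : q * (b2 - b0) = (a2 - a0) * p := by
    have : g * (q * (b2 - b0) - (a2 - a0) * p) = 0 := by
      rw [hgq, hgp] at hD; linear_combination hD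
    rcases mul_eq_zero.1 this with h | h
    · exact absurd h hg0
    · linarith
  obtain ⟨k, hk⟩ : q ∣ (a2 - a0) := by
    have : q ∣ (a2 - a0) * p := ⟨_, hqt.symm⟩
    exact hcop.dvd_of_dvd_mul_right this
  have hk0 : k ≠ 0 := by rintro rfl; rw [mul_zero] at hk; exact hv hk
  have hkg : k - g ≠ 0 := by
    intro h
    have : k = g := by linarith
    apply h12
    have : a2 - a0 = a1 - a0 := by rw [hk, hgq, this]; ring
    linarith
  have htk : b2 - b0 = k * p := by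
    have : q * (b2 - b0 - k * p) = 0 := by rw [hk] at hqt; linear_combination hqt
    rcases mul_eq_zero.1 this with h | h
    · exact absurd h hq0
    · linarith
  have hg1 : (1 : ℝ) ≤ |(g : ℝ)| := by
    have : 1 ≤ |g| := Int.one_le_abs hg0
    exact_mod_cast this
  -- second difference
  have ha0 : (a0 : ℝ) ≠ 0 := abs_pos.1 (by linarith [h0.1])
  have ha1 : (a1 : ℝ) ≠ 0 := abs_pos.1 (by linarith [h1.1])
  have ha2 : (a2 : ℝ) ≠ 0 := abs_pos.1 (by linarith [h2.1])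
  obtain ⟨r0, hr0⟩ : ∃ r0 : ℝ, r0 = (b0 : ℝ) - η * a0 - β - γ / a0 - κ / (a0 : ℝ) ^ 2 := ⟨_, rfl⟩
  obtain ⟨r1, hr1⟩ : ∃ r1 : ℝ, r1 = (b1 : ℝ) - η * a1 - β - γ / a1 - κ / (a1 : ℝ) ^ 2 := ⟨_, rfl⟩
  obtain ⟨r2, hr2⟩ : ∃ r2 : ℝ, r2 = (b2 : ℝ) - η * a2 - β - γ / a2 - κ / (a2 : ℝ) ^ 2 := ⟨_, rfl⟩
  have hrb : ∀ (a b : ℤ) (r : ℝ), r = (b : ℝ) - η * a - β - γ / a - κ / (a : ℝ) ^ 2 →
      X ≤ |(a : ℝ)| → Nr η β γ κ W a b → |r| ≤ W / X ^ 3 := by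
    intro a b r hr hXa hn
    rw [hr]
    refine hn.trans ?_
    exact div_le_div_of_nonneg_left hW0.le (by positivity) (pow_le_pow_left₀ hX0.le hXa 3)
  have br0 := hrb a0 b0 r0 hr0 h0.1 n0
  have br1 := hrb a1 b1 r1 hr1 h1.1 n1
  have br2 := hrb a2 b2 r2 hr2 h2.1 n2
  obtain ⟨A1, hA1⟩ : ∃ A1 : ℝ, A1 = (a1 : ℝ) - a0 := ⟨_, rfl⟩
  obtain ⟨A2, hA2⟩ : ∃ A2 : ℝ, A2 = (a2 : ℝ) - a0 := ⟨_, rfl⟩
  have hDR : A1 * ((b2 : ℝ) - b0) - A2 * ((b1 : ℝ) - b0) = 0 := by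
    rw [hA1, hA2]; exact_mod_cast hD
  have hid : A1 * A2 * (γ * ((a2 : ℝ) - a1) / (a0 * a1 * a2)
      + κ * (((a0 : ℝ) + a1) / (a0 * a1) ^ 2 - ((a0 : ℝ) + a2) / (a0 * a2) ^ 2))
      = A2 * (r1 - r0) - A1 * (r2 - r0) := by
    rw [hr0, hr1, hr2]
    have : A2 * ((b1 : ℝ) - η * a1 - β - γ / a1 - κ / (a1 : ℝ) ^ 2 -
          ((b0 : ℝ) - η * a0 - β - γ / a0 - κ / (a0 : ℝ) ^ 2)) -
        A1 * ((b2 : ℝ) - η * a2 - β - γ / a2 - κ / (a2 : ℝ) ^ 2 -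
          ((b0 : ℝ) - η * a0 - β - γ / a0 - κ / (a0 : ℝ) ^ 2))
        = A2 * ((b1 : ℝ) - b0) - A1 * ((b2 : ℝ) - b0)
          - η * (A2 * ((a1 : ℝ) - a0) - A1 * ((a2 : ℝ) - a0))
          - A2 * (γ / a1 - γ / a0) + A1 * (γ / a2 - γ / a0)
          - A2 * (κ / (a1 : ℝ) ^ 2 - κ / (a0 : ℝ) ^ 2)
          + A1 * (κ / (a2 : ℝ) ^ 2 - κ / (a0 : ℝ) ^ 2) := by ring
    rw [this]
    have h3 : A2 * ((b1 : ℝ) - b0) - A1 * ((b2 : ℝ) - b0) = 0 := by linarith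
    rw [h3, hA1, hA2]
    field_simp
    ring
  have hA1q : |(q : ℝ)| ≤ |A1| := by
    have : A1 = g * q := by rw [hA1]; exact_mod_cast hgq
    rw [this, abs_mul]
    exact le_mul_of_one_le_left (abs_nonneg _) hg1
  have hk1 : (1 : ℝ) ≤ |(k : ℝ)| := by
    have : 1 ≤ |k| := Int.one_le_abs hk0
    exact_mod_cast this
  have hA2q : |(q : ℝ)| ≤ |A2| := by
    have : A2 = q * k := by rw [hA2]; exact_mod_cast hk
    rw [this, abs_mul]
    exact le_mul_of_one_le_right (abs_nonneg _) hk1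
  have hkg1 : (1 : ℝ) ≤ |((k - g : ℤ) : ℝ)| := by
    have : 1 ≤ |k - g| := Int.one_le_abs hkg
    exact_mod_cast this
  have hA3q : |(q : ℝ)| ≤ |(a2 : ℝ) - a1| := by
    have : (a2 : ℝ) - a1 = q * ((k - g : ℤ) : ℝ) := by
      have h3 : a2 - a1 = q * (k - g) := by linear_combination hk - hgq
      exact_mod_cast h3
    rw [this, abs_mul]
    exact le_mul_of_one_le_right (abs_nonneg _) hkg1
  have hqpos : 1 ≤ |(q : ℝ)| := by
    have : 1 ≤ |q| := Int.one_le_abs hq0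
    exact_mod_cast this
  have hA1p : 1 ≤ |A1| := hqpos.trans hA1q
  have hA2p : 1 ≤ |A2| := hqpos.trans hA2q
  -- bound of the kappa part
  have hK : ∀ x y : ℝ, X ≤ |x| → X ≤ |y| → |(x + y) / (x * y) ^ 2| ≤ 2 / X ^ 3 := by
    intro x y hx hy
    have hx0 : x ≠ 0 := abs_pos.1 (by linarith)
    have hy0 : y ≠ 0 := abs_pos.1 (by linarith)
    have h3 : (x + y) / (x * y) ^ 2 = (x⁻¹) * (y⁻¹) ^ 2 + (x⁻¹) ^ 2 * (y⁻¹) := by
      field_simp
    have hx1 : |x⁻¹| ≤ 1 / X := by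
      rw [abs_inv, one_div]; exact inv_anti₀ hX0 hx
    have hy1 : |y⁻¹| ≤ 1 / X := by
      rw [abs_inv, one_div]; exact inv_anti₀ hX0 hy
    rw [h3]
    refine (abs_add_le _ _).trans ?_
    rw [abs_mul, abs_mul, abs_pow, abs_pow]
    have h4 : |x⁻¹| * |y⁻¹| ^ 2 ≤ (1 / X) * (1 / X) ^ 2 :=
      mul_le_mul hx1 (pow_le_pow_left₀ (abs_nonneg _) hy1 2) (by positivity) (by positivity)
    have h5 : |x⁻¹| ^ 2 * |y⁻¹| ≤ (1 / X) ^ 2 * (1 / X) :=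
      mul_le_mul (pow_le_pow_left₀ (abs_nonneg _) hx1 2) hy1 (by positivity) (by positivity)
    have h6 : 2 / X ^ 3 = (1 / X) * (1 / X) ^ 2 + (1 / X) ^ 2 * (1 / X) := by
      field_simp; ring
    rw [h6]; linarith
  have hpq : |(p : ℝ) - η * q| ≤ 3 * Z * |(q : ℝ)| / X ^ 2 := by
    have c1 : ((a1 : ℝ) - a0) = g * q := by exact_mod_cast hgq
    have c2 : ((b1 : ℝ) - b0) = g * p := by exact_mod_cast hgp
    have h3 : (g : ℝ) * ((p : ℝ) - η * q) = -(γ * (g * q / (a0 * a1)))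
        - κ * (g * q * (((a0 : ℝ) + a1) / (a0 * a1) ^ 2)) + (r1 - r0) := by
      have c3 : γ / a1 - γ / a0 = -(γ * (g * q / (a0 * a1))) := by
        rw [← c1]; field_simp; ring
      have c4 : κ / (a1 : ℝ) ^ 2 - κ / (a0 : ℝ) ^ 2
          = - κ * (g * q * (((a0 : ℝ) + a1) / (a0 * a1) ^ 2)) := by
        rw [← c1]; field_simp; ring
      rw [hr0, hr1]
      linear_combination (-1 : ℝ) * c2 + η * c1 + c3 + c4
    have h4 : |(g : ℝ)| * |(p : ℝ) - η * q| ≤ |(g : ℝ)| * (3 * Z * |(q : ℝ)| / X ^ 2) := by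
      rw [← abs_mul, h3]
      refine (abs_add_le _ _).trans ?_
      have k0 := abs_sub (-(γ * ((g : ℝ) * q / (a0 * a1))))
        (κ * (g * q * (((a0 : ℝ) + a1) / (a0 * a1) ^ 2)))
      have k1 : |-(γ * ((g : ℝ) * q / (a0 * a1)))| ≤ Z * (|(g : ℝ)| * |(q : ℝ)| / X ^ 2) := by
        rw [abs_neg, abs_mul, abs_div, abs_mul, abs_mul]
        apply mul_le_mul hγ1 _ (by positivity) hZ0.le
        apply div_le_div_of_nonneg_left (by positivity) (by positivity)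
        rw [sq]
        exact mul_le_mul h0.1 h1.1 hX0.le (abs_nonneg _)
      have k2 : |κ * ((g : ℝ) * q * (((a0 : ℝ) + a1) / (a0 * a1) ^ 2))|
          ≤ Z * (|(g : ℝ)| * |(q : ℝ)| * (2 / X ^ 3)) := by
        rw [abs_mul, abs_mul, abs_mul]
        apply mul_le_mul hκ _ (by positivity) hZ0.le
        exact mul_le_mul_of_nonneg_left (hK a0 a1 h0.1 h1.1) (by positivity)
      have k3 : |r1 - r0| ≤ 2 * (W / X ^ 3) := (abs_sub _ _).trans (by linarith)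
      have hq1 : (1 : ℝ) ≤ |(q : ℝ)| := by
        have : 1 ≤ |q| := Int.one_le_abs hq0
        exact_mod_cast this
      have hgq1 : 1 ≤ |(g : ℝ)| * |(q : ℝ)| := one_le_mul_of_one_le_of_one_le hg1 hq1
      have k4 : 2 / X ^ 3 ≤ 1 / X ^ 2 := by
        rw [div_le_div_iff₀ (by positivity) (by positivity)]
        have : X ^ 3 = X * X ^ 2 := by ring
        rw [this]
        have : 2 ≤ X := by linarith
        nlinarith [pow_pos hX0 2]
      have k5 : 2 * (W / X ^ 3) ≤ Z * (|(g : ℝ)| * |(q : ℝ)| / X ^ 2) := by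
        have e1 : W / X ^ 3 ≤ 1 / X ^ 2 := by
          rw [div_le_div_iff₀ (by positivity) (by positivity)]
          have : X ^ 3 = X * X ^ 2 := by ring
          rw [this, one_mul]
          exact mul_le_mul_of_nonneg_right hX (by positivity)
        have e2 : 1 / X ^ 2 ≤ |(g : ℝ)| * |(q : ℝ)| / X ^ 2 :=
          div_le_div_of_nonneg_right hgq1 (by positivity)
        exact mul_le_mul hZ (e1.trans e2) (by positivity) hZ0.le
      have k6 : Z * (|(g : ℝ)| * |(q : ℝ)| * (2 / X ^ 3)) ≤ Z * (|(g : ℝ)| * |(q : ℝ)| / X ^ 2) := by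
        apply mul_le_mul_of_nonneg_left _ hZ0.le
        calc |(g : ℝ)| * |(q : ℝ)| * (2 / X ^ 3) ≤ |(g : ℝ)| * |(q : ℝ)| * (1 / X ^ 2) :=
              mul_le_mul_of_nonneg_left k4 (by positivity)
          _ = _ := by ring
      have k7 : |(g : ℝ)| * (3 * Z * |(q : ℝ)| / X ^ 2) = Z * (|(g : ℝ)| * |(q : ℝ)| / X ^ 2)
          + Z * (|(g : ℝ)| * |(q : ℝ)| / X ^ 2) + Z * (|(g : ℝ)| * |(q : ℝ)| / X ^ 2) := by ring
      rw [k7]
      linarith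
    exact le_of_mul_le_mul_left h4 (by linarith)
  have hid2 := congrArg abs hid
  rw [abs_mul, abs_mul] at hid2
  have hrhs : |A2 * (r1 - r0) - A1 * (r2 - r0)| ≤ |A1| * |A2| * (4 * W / X ^ 3) := by
    refine (abs_sub _ _).trans ?_
    rw [abs_mul, abs_mul]
    have h3 : |r1 - r0| ≤ 2 * (W / X ^ 3) := by
      refine (abs_sub _ _).trans (by linarith)
    have h4 : |r2 - r0| ≤ 2 * (W / X ^ 3) := by
      refine (abs_sub _ _).trans (by linarith)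
    have hQX : 0 ≤ W / X ^ 3 := by positivity
    have h5 : |A2| * |r1 - r0| ≤ |A1| * |A2| * (2 * (W / X ^ 3)) := by
      calc |A2| * |r1 - r0| ≤ |A2| * (2 * (W / X ^ 3)) := mul_le_mul_of_nonneg_left h3 (abs_nonneg _)
        _ ≤ |A1| * |A2| * (2 * (W / X ^ 3)) := by
          apply mul_le_mul_of_nonneg_right _ (by linarith)
          exact le_mul_of_one_le_left (abs_nonneg _) hA1p
    have h6 : |A1| * |r2 - r0| ≤ |A1| * |A2| * (2 * (W / X ^ 3)) := by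
      calc |A1| * |r2 - r0| ≤ |A1| * (2 * (W / X ^ 3)) := mul_le_mul_of_nonneg_left h4 (abs_nonneg _)
        _ ≤ |A1| * |A2| * (2 * (W / X ^ 3)) := by
          apply mul_le_mul_of_nonneg_right _ (by linarith)
          exact le_mul_of_one_le_right (abs_nonneg _) hA2p
    have h7 : |A1| * |A2| * (4 * W / X ^ 3) = |A1| * |A2| * (2 * (W / X ^ 3))
        + |A1| * |A2| * (2 * (W / X ^ 3)) := by ring
    linarith
  have hA12 : 0 < |A1| * |A2| := by positivity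
  rw [← hid2] at hrhs
  have h3 := le_of_mul_le_mul_left hrhs hA12
  -- lower bound
  have h4 : |γ * ((a2 : ℝ) - a1) / (a0 * a1 * a2)| ≤ 8 * W / X ^ 3 := by
    have h5 : γ * ((a2 : ℝ) - a1) / (a0 * a1 * a2)
        = (γ * ((a2 : ℝ) - a1) / (a0 * a1 * a2)
      + κ * (((a0 : ℝ) + a1) / (a0 * a1) ^ 2 - ((a0 : ℝ) + a2) / (a0 * a2) ^ 2))
        - κ * (((a0 : ℝ) + a1) / (a0 * a1) ^ 2 - ((a0 : ℝ) + a2) / (a0 * a2) ^ 2) := by ring
    rw [h5]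
    refine (abs_sub _ _).trans ?_
    have h6 : |κ * (((a0 : ℝ) + a1) / (a0 * a1) ^ 2 - ((a0 : ℝ) + a2) / (a0 * a2) ^ 2)|
        ≤ W * (4 / X ^ 3) := by
      rw [abs_mul]
      apply mul_le_mul (hκ.trans hW) _ (abs_nonneg _) hW0.le
      refine (abs_sub _ _).trans ?_
      have k1 := hK a0 a1 h0.1 h1.1
      have k2 := hK a0 a2 h0.1 h2.1
      have : 4 / X ^ 3 = 2 / X ^ 3 + 2 / X ^ 3 := by ring
      rw [this]; linarith
    have h7 : 8 * W / X ^ 3 = 4 * W / X ^ 3 + W * (4 / X ^ 3) := by ring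
    rw [h7]; linarith
  rw [abs_div, abs_mul, abs_mul, abs_mul, div_le_div_iff₀ (by positivity) (by positivity)] at h4
  have h5 : |(a0 : ℝ)| * |(a1 : ℝ)| * |(a2 : ℝ)| ≤ (X * Z) * (X * Z) * (X * Z) := by
    apply mul_le_mul (mul_le_mul h0.2 h1.2 (abs_nonneg _) (by positivity)) h2.2 (abs_nonneg _)
      (by positivity)
  have h6 : (1 / Z) * |(q : ℝ)| * X ^ 3 ≤ 8 * W * ((X * Z) * (X * Z) * (X * Z)) := by
    calc (1 / Z) * |(q : ℝ)| * X ^ 3 ≤ |γ| * |(a2 : ℝ) - a1| * X ^ 3 := by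
          apply mul_le_mul_of_nonneg_right _ (by positivity)
          exact mul_le_mul hγ hA3q (abs_nonneg _) (abs_nonneg _)
      _ ≤ 8 * W * (|(a0 : ℝ)| * |(a1 : ℝ)| * |(a2 : ℝ)|) := h4
      _ ≤ _ := mul_le_mul_of_nonneg_left h5 (by positivity)
  have h7 : |(q : ℝ)| ≤ 8 * W * Z ^ 4 := by
    have h8 : (1 / Z) * |(q : ℝ)| * X ^ 3 * Z ≤ 8 * W * ((X * Z) * (X * Z) * (X * Z)) * Z :=
      mul_le_mul_of_nonneg_right h6 hZ0.le
    have h9 : (1 / Z) * |(q : ℝ)| * X ^ 3 * Z = |(q : ℝ)| * X ^ 3 := by field_simp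
    have h10 : 8 * W * ((X * Z) * (X * Z) * (X * Z)) * Z = (8 * W * Z ^ 4) * X ^ 3 := by ring
    rw [h9, h10] at h8
    exact le_of_mul_le_mul_right h8 (by positivity)
  have h8 := hNA p q hq0 h7
  have h9 : 3 * Z * |(q : ℝ)| / X ^ 2 ≤ 5 * Z * |(q : ℝ)| / X ^ 2 := by
    apply div_le_div_of_nonneg_right _ (by positivity)
    have : 0 ≤ Z * |(q : ℝ)| := by positivity
    linarith
  linarith

end win

end Pool.Agent.H322R2
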