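import Pool.Agent.H322R2.GWin

/-!
Integer points close to a smooth branch, with a large error term: no five points in a window
(end of the proof).
-/

namespace Pool.Agent.H322R2

open Matrix

/-- column sizes -/
noncomputable def cc2 (Z W X : ℝ) : Fin 6 → ℝ :=
  ![1, X * Z, 3 * Z / X, (X * Z) ^ 2, 3 * Z * W / X ^ 2, 9 * Z ^ 2 / X ^ 2]

section

variable {η β γ κ Z W X : ℝ} (hZ : 2 ≤ Z) (hW : Z ≤ W) (hX : W ≤ X)
  (hη : |η| ≤ Z) (hβ : |β| ≤ Z) (hγ1 : |γ| ≤ Z) (hκ : |κ| ≤ Z) (hγ : 1 / Z ≤ |γ|)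

include hZ hW hX hγ1 hκ in
lemma ver_le2 {a b : ℤ} (ha : X ≤ |(a : ℝ)| ∧ |(a : ℝ)| ≤ X * Z) (h : Nr η β γ κ W a b)
    (s : Fin 6) : |(ver (a : ℝ) (b : ℝ) ᵥ* UU η β γ κ) s| ≤ cc2 Z W X s := by
  rw [ver_mul]
  have hX0 : 0 < X := by linarith
  have hW0 : 0 < W := by linarith
  have ha0 : (a : ℝ) ≠ 0 := abs_pos.1 (by linarith [ha.1])
  have he := e_bound2 (η := η) (β := β) hZ hW hX hγ1 hκ ha.1 h
  have hZ0 : 0 < Z := by linarith
  obtain ⟨r, hr⟩ : ∃ r : ℝ, r = (b : ℝ) - η * a - β - γ / a - κ / (a : ℝ) ^ 2 := ⟨_, rfl⟩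
  have hra : |r| ≤ W / |(a : ℝ)| ^ 3 := by rw [hr]; exact h
  have ha0' : 0 < |(a : ℝ)| := abs_pos.2 ha0
  have h1 : |r * a| ≤ W / X ^ 2 := by
    rw [abs_mul]
    calc |r| * |(a : ℝ)| ≤ W / |(a : ℝ)| ^ 3 * |(a : ℝ)| :=
          mul_le_mul_of_nonneg_right hra (abs_nonneg _)
      _ = W / |(a : ℝ)| ^ 2 := by field_simp
      _ ≤ W / X ^ 2 := div_le_div_of_nonneg_left hW0.le (by positivity)
          (pow_le_pow_left₀ hX0.le ha.1 2)
  have h2 : |r| ≤ W / X ^ 2 := by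
    refine hra.trans ?_
    apply div_le_div_of_nonneg_left hW0.le (by positivity)
    calc X ^ 2 ≤ |(a : ℝ)| ^ 2 := pow_le_pow_left₀ hX0.le ha.1 2
      _ ≤ |(a : ℝ)| ^ 3 := pow_le_pow_right₀ (by linarith [ha.1]) (by norm_num)
  have h3 : |κ / (a : ℝ) ^ 2| ≤ W / X ^ 2 := by
    rw [abs_div, abs_pow]
    exact div_le_div₀ hW0.le (hκ.trans hW) (by positivity) (pow_le_pow_left₀ hX0.le ha.1 2)
  have h4 : γ * (a * ((b : ℝ) - η * a - β) - γ) - κ * ((b : ℝ) - η * a - β)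
      = γ * (r * a) - κ * (κ / (a : ℝ) ^ 2) - κ * r := by
    rw [hr]; field_simp; ring
  have hs4 : |γ * (a * ((b : ℝ) - η * a - β) - γ) - κ * ((b : ℝ) - η * a - β)|
      ≤ 3 * Z * W / X ^ 2 := by
    rw [h4]
    refine (abs_sub _ _).trans ?_
    have h5 := abs_sub (γ * (r * a)) (κ * (κ / (a : ℝ) ^ 2))
    rw [abs_mul γ, abs_mul κ (κ / (a : ℝ) ^ 2)] at h5
    rw [abs_mul κ r]
    have k1 : |γ| * |r * a| ≤ Z * (W / X ^ 2) := mul_le_mul hγ1 h1 (abs_nonneg _) hZ0.le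
    have k2 : |κ| * |κ / (a : ℝ) ^ 2| ≤ Z * (W / X ^ 2) := mul_le_mul hκ h3 (abs_nonneg _) hZ0.le
    have k3 : |κ| * |r| ≤ Z * (W / X ^ 2) := mul_le_mul hκ h2 (abs_nonneg _) hZ0.le
    have k4 : 3 * Z * W / X ^ 2 = 3 * (Z * (W / X ^ 2)) := by ring
    rw [k4]; linarith
  have hs5 : |((b : ℝ) - η * a - β) ^ 2| ≤ 9 * Z ^ 2 / X ^ 2 := by
    rw [abs_pow]
    calc |(b : ℝ) - η * a - β| ^ 2 ≤ (3 * Z / X) ^ 2 := pow_le_pow_left₀ (abs_nonneg _) he 2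
      _ = 9 * Z ^ 2 / X ^ 2 := by field_simp; ring
  fin_cases s
  · simp [cc2]
  · simpa [cc2] using ha.2
  · simpa [cc2] using he
  · simp only [cc2]
    show |(a : ℝ) ^ 2| ≤ (X * Z) ^ 2
    rw [abs_pow]
    exact pow_le_pow_left₀ (abs_nonneg _) ha.2 2
  · exact hs4
  · exact hs5

include hZ hW hX hη hβ hγ1 hκ in
lemma unit_le2 (j s : Fin 6) : |UU η β γ κ j s| ≤ (2 * X ^ 2 / 3) * cc2 Z W X s := by
  have hX0 : 0 < X := by linarith
  have hZ0 : 0 < Z := by linarith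
  have hW0 : 0 < W := by linarith
  have hc0 : (1 : ℝ) ≤ (2 * X ^ 2 / 3) * 1 := by nlinarith
  have hc1 : (1 : ℝ) ≤ (2 * X ^ 2 / 3) * (X * Z) := by
    have : 1 ≤ X * Z := by nlinarith
    nlinarith
  have hc2 : 2 * Z ≤ (2 * X ^ 2 / 3) * (3 * Z / X) := by
    have : (2 * X ^ 2 / 3) * (3 * Z / X) = 2 * Z * X := by field_simp
    rw [this]; nlinarith
  have hc3 : (1 : ℝ) ≤ (2 * X ^ 2 / 3) * (X * Z) ^ 2 := by
    have : 1 ≤ X * Z := by nlinarith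
    have : 1 ≤ (X * Z) ^ 2 := one_le_pow₀ this
    nlinarith
  have hc4 : 2 * Z ^ 2 ≤ (2 * X ^ 2 / 3) * (3 * Z * W / X ^ 2) := by
    have : (2 * X ^ 2 / 3) * (3 * Z * W / X ^ 2) = 2 * (Z * W) := by field_simp
    rw [this]; nlinarith
  have hc5 : 6 * Z ^ 2 ≤ (2 * X ^ 2 / 3) * (9 * Z ^ 2 / X ^ 2) := by
    have : (2 * X ^ 2 / 3) * (9 * Z ^ 2 / X ^ 2) = 6 * Z ^ 2 := by field_simp; ring
    rw [this]
  have hQQ : Z ≤ Z ^ 2 := by nlinarith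
  have m : ∀ x y : ℝ, |x| ≤ Z → |y| ≤ Z → |x * y| ≤ Z ^ 2 := by
    intro x y hx hy
    rw [abs_mul, sq]
    exact mul_le_mul hx hy (abs_nonneg _) hZ0.le
  have m1 : |-γ ^ 2 + κ * β| ≤ 2 * Z ^ 2 := by
    refine (abs_add_le _ _).trans ?_
    have := m γ γ hγ1 hγ1
    have h2 := m κ β hκ hβ
    have h3 : |-γ ^ 2| = |γ * γ| := by rw [abs_neg, sq]
    rw [h3]; linarith
  have m2 : |-(γ * β) + κ * η| ≤ 2 * Z ^ 2 := by
    refine (abs_add_le _ _).trans ?_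
    have := m γ β hγ1 hβ
    have h2 := m κ η hκ hη
    rw [abs_neg]; linarith
  have m3 := m γ η hγ1 hη
  have m4 := m η β hη hβ
  have m5 := m η η hη hη
  have m6 := m β β hβ hβ
  have m4' : |2 * η * β| ≤ 2 * Z ^ 2 := by
    rw [mul_assoc, abs_mul, abs_of_pos (by norm_num : (0 : ℝ) < 2)]; linarith
  have m5' : |η ^ 2| ≤ Z ^ 2 := by rw [sq]; exact m5
  have m6' : |β ^ 2| ≤ Z ^ 2 := by rw [sq]; exact m6
  have m7 : |-(2 * β)| ≤ 2 * Z := by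
    rw [abs_neg, abs_mul, abs_of_pos (by norm_num : (0 : ℝ) < 2)]; linarith
  have m8 : |-(2 * η)| ≤ 2 * Z := by
    rw [abs_neg, abs_mul, abs_of_pos (by norm_num : (0 : ℝ) < 2)]; linarith
  have hη' : |η| ≤ 2 * Z := by linarith
  have hβ' : |β| ≤ 2 * Z := by linarith
  have z0 : (0 : ℝ) ≤ (2 * X ^ 2 / 3) * 1 := by linarith
  have z1 : (0 : ℝ) ≤ (2 * X ^ 2 / 3) * (X * Z) := by linarith
  have z2 : (0 : ℝ) ≤ (2 * X ^ 2 / 3) * (3 * Z / X) := by linarith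
  have z3 : (0 : ℝ) ≤ (2 * X ^ 2 / 3) * (X * Z) ^ 2 := by linarith
  have z4 : (0 : ℝ) ≤ (2 * X ^ 2 / 3) * (3 * Z * W / X ^ 2) := by nlinarith
  have z5 : (0 : ℝ) ≤ (2 * X ^ 2 / 3) * (9 * Z ^ 2 / X ^ 2) := by nlinarith
  have w1 : η ^ 2 ≤ Z ^ 2 := (le_abs_self _).trans m5'
  have w2 : β ^ 2 ≤ Z ^ 2 := (le_abs_self _).trans m6'
  have w3 : |γ| * |η| ≤ Z ^ 2 := by rw [← abs_mul]; exact m3
  have w4 : 2 * |η| * |β| ≤ 2 * Z ^ 2 := by
    rw [mul_assoc, ← abs_mul]; linarith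
  have w5 : 2 * |β| ≤ 2 * Z := by linarith
  have w6 : 2 * |η| ≤ 2 * Z := by linarith
  have w7 : 2 * Z ≤ 2 * Z ^ 2 := by linarith
  fin_cases j <;> fin_cases s <;> simp [UU, cc2] <;> linarith

include hZ hW hX in
lemma prod_cc2 : ∏ s, cc2 Z W X s = 81 * Z ^ 7 * W / X ^ 2 := by
  have hX0 : X ≠ 0 := by linarith
  simp only [cc2, Fin.prod_univ_succ]
  simp
  field_simp
  ring

include hZ hW hX hη hβ hγ1 hκ hγ in
lemma ww_le2 {a b : Fin 5 → ℤ} (ha : ∀ i, X ≤ |(a i : ℝ)| ∧ |(a i : ℝ)| ≤ X * Z)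
    (hn : ∀ i, Nr η β γ κ W (a i) (b i)) (j : Fin 6) :
    |((ww a b j : ℤ) : ℝ)| ≤ 38880 * Z ^ 8 * W := by
  have hX0 : 0 < X := by linarith
  have hZ0 : 0 < Z := by linarith
  have hW0 : 0 < W := by linarith
  obtain ⟨M, hM⟩ : ∃ M, M = mm (Pi.single j (1 : ℝ)) (fun i => (a i : ℝ)) (fun i => (b i : ℝ)) :=
    ⟨_, rfl⟩
  have h1 : (M * UU η β γ κ).det = ((ww a b j : ℤ) : ℝ) * γ := by
    rw [Matrix.det_mul, det_UU, hM, det_mm]
    congr 1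
    rw [Finset.sum_eq_single j]
    · simp [ww_cast]
    · intro i _ hij
      simp [Pi.single_apply, hij]
    · intro h; exact absurd (Finset.mem_univ j) h
  have h2 := abs_det_le (M * UU η β γ κ) (Fin.cons (2 * X ^ 2 / 3) (fun _ => 1)) (cc2 Z W X) (by
    intro i s
    rw [Matrix.mul_apply_eq_vecMul]
    refine Fin.cases ?_ (fun i' => ?_) i
    · have h3 : M 0 = Pi.single j (1 : ℝ) := by rw [hM]; rfl
      rw [h3, Matrix.single_one_vecMul]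
      simpa using unit_le2 hZ hW hX hη hβ hγ1 hκ j s
    · have h3 : M i'.succ = ver (a i' : ℝ) (b i' : ℝ) := by rw [hM]; rfl
      rw [h3]
      simpa using ver_le2 (η := η) (β := β) hZ hW hX hγ1 hκ (ha i') (hn i') s)
  rw [h1, prod_cc2 hZ hW hX, abs_mul] at h2
  have h3 : (∏ i : Fin 6, (Fin.cons (2 * X ^ 2 / 3) (fun _ => 1) : Fin 6 → ℝ) i) = 2 * X ^ 2 / 3 := by
    rw [Fin.prod_univ_succ]; simp
  rw [h3] at h2
  have h4 : ((6 : ℕ).factorial : ℝ) * (2 * X ^ 2 / 3 * (81 * Z ^ 7 * W / X ^ 2))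
      = 38880 * Z ^ 7 * W := by
    have : ((6 : ℕ).factorial : ℝ) = 720 := by norm_num [Nat.factorial]
    rw [this]; field_simp; ring
  rw [h4] at h2
  have h6 : |((ww a b j : ℤ) : ℝ)| * (1 / Z) ≤ 38880 * Z ^ 7 * W :=
    (mul_le_mul_of_nonneg_left hγ (abs_nonneg _)).trans h2
  have h7 : |((ww a b j : ℤ) : ℝ)| = |((ww a b j : ℤ) : ℝ)| * (1 / Z) * Z := by field_simp
  rw [h7]
  calc |((ww a b j : ℤ) : ℝ)| * (1 / Z) * Z ≤ 38880 * Z ^ 7 * W * Z :=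
        mul_le_mul_of_nonneg_right h6 hZ0.le
    _ = _ := by ring

lemma slope_row (η β γ κ : ℝ) : (![0, 0, 0, 1, η, η ^ 2] : Fin 6 → ℝ) ᵥ* UU η β γ κ
    = Pi.single 3 1 := by
  funext s
  fin_cases s <;>
  simp [UU, Matrix.vecMul, dotProduct, Fin.sum_univ_succ] <;> ring

include hZ hW hX hγ1 hκ hγ in
lemma A_le2 {a b : Fin 5 → ℤ} (ha : ∀ i, X ≤ |(a i : ℝ)| ∧ |(a i : ℝ)| ≤ X * Z)
    (hn : ∀ i, Nr η β γ κ W (a i) (b i)) :
    |((ww a b 3 : ℤ) : ℝ) + (ww a b 4 : ℤ) * η + (ww a b 5 : ℤ) * η ^ 2|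
      ≤ 58320 * Z ^ 6 * W / X ^ 4 := by
  have hX0 : 0 < X := by linarith
  have hZ0 : 0 < Z := by linarith
  have hW0 : 0 < W := by linarith
  obtain ⟨M, hM⟩ : ∃ M, M = mm (![0, 0, 0, 1, η, η ^ 2] : Fin 6 → ℝ) (fun i => (a i : ℝ))
    (fun i => (b i : ℝ)) := ⟨_, rfl⟩
  obtain ⟨A, hA⟩ : ∃ A : ℝ, A = ((ww a b 3 : ℤ) : ℝ) + (ww a b 4 : ℤ) * η
    + (ww a b 5 : ℤ) * η ^ 2 := ⟨_, rfl⟩
  rw [← hA]
  have h1 : (M * UU η β γ κ).det = A * γ := by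
    rw [Matrix.det_mul, det_UU, hM, det_mm, hA]
    congr 1
    rw [ww_cast, ww_cast, ww_cast]
    simp only [Fin.sum_univ_succ]
    simp
    ring
  have h2 := abs_det_le (M * UU η β γ κ) (Fin.cons (1 / (X * Z) ^ 2) (fun _ => 1)) (cc2 Z W X) (by
    intro i s
    rw [Matrix.mul_apply_eq_vecMul]
    refine Fin.cases ?_ (fun i' => ?_) i
    · have h3 : M 0 = ![0, 0, 0, 1, η, η ^ 2] := by rw [hM]; rfl
      rw [h3, slope_row]
      have hcc0 : ∀ s, 0 ≤ cc2 Z W X s := by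
        intro s
        fin_cases s <;> simp [cc2] <;> positivity
      by_cases hs : s = 3
      · rw [hs]
        simp only [Fin.cons_zero, Pi.single_eq_same, abs_one]
        have : cc2 Z W X 3 = (X * Z) ^ 2 := rfl
        rw [this, one_div, inv_mul_cancel₀ (by positivity)]
      · rw [Pi.single_eq_of_ne hs, abs_zero]
        simp only [Fin.cons_zero]
        exact mul_nonneg (by positivity) (hcc0 s)
    · have h3 : M i'.succ = ver (a i' : ℝ) (b i' : ℝ) := by rw [hM]; rfl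
      rw [h3]
      simpa using ver_le2 (η := η) (β := β) hZ hW hX hγ1 hκ (ha i') (hn i') s)
  rw [h1, prod_cc2 hZ hW hX, abs_mul] at h2
  have h3 : (∏ i : Fin 6, (Fin.cons (1 / (X * Z) ^ 2) (fun _ => 1) : Fin 6 → ℝ) i)
      = 1 / (X * Z) ^ 2 := by
    rw [Fin.prod_univ_succ]; simp
  rw [h3] at h2
  have h4 : ((6 : ℕ).factorial : ℝ) * (1 / (X * Z) ^ 2 * (81 * Z ^ 7 * W / X ^ 2))
      = 58320 * Z ^ 5 * W / X ^ 4 := by
    have : ((6 : ℕ).factorial : ℝ) = 720 := by norm_num [Nat.factorial]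
    rw [this]; field_simp; ring
  rw [h4] at h2
  have h6 : |A| * (1 / Z) ≤ 58320 * Z ^ 5 * W / X ^ 4 :=
    (mul_le_mul_of_nonneg_left hγ (abs_nonneg _)).trans h2
  have h7 : |A| = |A| * (1 / Z) * Z := by field_simp
  rw [h7]
  calc |A| * (1 / Z) * Z ≤ 58320 * Z ^ 5 * W / X ^ 4 * Z :=
        mul_le_mul_of_nonneg_right h6 hZ0.le
    _ = _ := by ring

include hZ hW hX hη hβ hγ1 hκ hγ in
theorem window2 (hNA1 : ∀ p q r : ℤ, (p ≠ 0 ∨ q ≠ 0 ∨ r ≠ 0) → |(p : ℝ)| ≤ 38880 * Z ^ 8 * W →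
      |(q : ℝ)| ≤ 38880 * Z ^ 8 * W → |(r : ℝ)| ≤ 38880 * Z ^ 8 * W →
      58320 * Z ^ 6 * W / X ^ 4 < |(p : ℝ) + q * η + r * η ^ 2|)
    (hNA2 : ∀ p q : ℤ, q ≠ 0 → |(q : ℝ)| ≤ 8 * W * Z ^ 4 →
      5 * Z * |(q : ℝ)| / X ^ 2 < |(p : ℝ) - η * q|) {a b : Fin 5 → ℤ}
    (hinj : Function.Injective a) (ha : ∀ i, X ≤ |(a i : ℝ)| ∧ |(a i : ℝ)| ≤ X * Z)
    (hn : ∀ i, Nr η β γ κ W (a i) (b i)) : False := by
  have hcol : ∀ i j k : Fin 5, i ≠ j → i ≠ k → j ≠ k →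
      (a j - a i) * (b k - b i) - (a k - a i) * (b j - b i) ≠ 0 := by
    intro i j k hij hik hjk
    exact no_col2 hZ hW hX hη hγ1 hκ hγ hNA2 (ha i) (ha j) (ha k) (hn i) (hn j) (hn k)
      (fun h => hij (hinj h)) (fun h => hik (hinj h)) (fun h => hjk (hinj h))
  obtain ⟨j0, hj0⟩ := ww_ne_zero a b hcol
  have hw := fun j => ww_le2 hZ hW hX hη hβ hγ1 hκ hγ ha hn j
  have hA := A_le2 (β := β) hZ hW hX hγ1 hκ hγ ha hn
  have hv := ww_vanish a b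
  obtain ⟨w, hwdef⟩ : ∃ w : Fin 6 → ℤ, w = ww a b := ⟨_, rfl⟩
  rw [← hwdef] at hv hj0 hw hA
  have hv' : ∀ i, w 0 + w 1 * a i + w 2 * b i + w 3 * a i ^ 2 + w 4 * (a i * b i)
      + w 5 * b i ^ 2 = 0 := by
    intro i
    rw [← hv i]
    simp only [Fin.sum_univ_succ, ver]
    simp
    ring
  have hquad : w 3 = 0 ∧ w 4 = 0 ∧ w 5 = 0 := by
    by_contra hne
    have hne' : w 3 ≠ 0 ∨ w 4 ≠ 0 ∨ w 5 ≠ 0 := by
      by_contra h; push_neg at h; exact hne h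
    have h1 := hNA1 (w 3) (w 4) (w 5) hne' (hw 3) (hw 4) (hw 5)
    linarith
  obtain ⟨w3, w4, w5⟩ := hquad
  have hl : ∀ i, w 1 * (a i - a 0) + w 2 * (b i - b 0) = 0 := by
    intro i
    have e1 := hv' i
    have e2 := hv' 0
    rw [w3, w4, w5] at e1 e2
    linear_combination e1 - e2
  have hc := hcol 0 1 2 (by decide) (by decide) (by decide)
  have e1 := hl 1
  have e2 := hl 2
  have f1 : w 1 = 0 := by
    have : w 1 * ((a 1 - a 0) * (b 2 - b 0) - (a 2 - a 0) * (b 1 - b 0)) = 0 := by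
      linear_combination (b 2 - b 0) * e1 - (b 1 - b 0) * e2
    rcases mul_eq_zero.1 this with h | h
    · exact h
    · exact absurd h hc
  have f2 : w 2 = 0 := by
    have : w 2 * ((a 1 - a 0) * (b 2 - b 0) - (a 2 - a 0) * (b 1 - b 0)) = 0 := by
      linear_combination (a 1 - a 0) * e2 - (a 2 - a 0) * e1
    rcases mul_eq_zero.1 this with h | h
    · exact h
    · exact absurd h hc
  have w0 : w 0 = 0 := by
    have := hv' 0
    rw [f1, f2, w3, w4, w5] at this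
    linarith
  apply hj0
  fin_cases j0 <;> assumption

end

/-- the slope is not approximable, at scale `X` -/
def NB (η Z W X : ℝ) : Prop :=
  (∀ p q r : ℤ, (p ≠ 0 ∨ q ≠ 0 ∨ r ≠ 0) → |(p : ℝ)| ≤ 38880 * Z ^ 8 * W →
      |(q : ℝ)| ≤ 38880 * Z ^ 8 * W → |(r : ℝ)| ≤ 38880 * Z ^ 8 * W →
      58320 * Z ^ 6 * W / X ^ 4 < |(p : ℝ) + q * η + r * η ^ 2|) ∧
  (∀ p q : ℤ, q ≠ 0 → |(q : ℝ)| ≤ 8 * W * Z ^ 4 →
      5 * Z * |(q : ℝ)| / X ^ 2 < |(p : ℝ) - η * q|)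

lemma NB.mono {η Z W X X' : ℝ} (hZ : 0 ≤ Z) (hW : 0 ≤ W) (hX : 0 < X) (hXX : X ≤ X')
    (h : NB η Z W X) : NB η Z W X' := by
  obtain ⟨h1, h2⟩ := h
  refine ⟨?_, ?_⟩
  · intro p q r h0 hp hq hr
    refine lt_of_le_of_lt ?_ (h1 p q r h0 hp hq hr)
    apply div_le_div_of_nonneg_left (by positivity) (by positivity)
    exact pow_le_pow_left₀ hX.le hXX 4
  · intro p q h0 hq
    refine lt_of_le_of_lt ?_ (h2 p q h0 hq)
    apply div_le_div_of_nonneg_left (by positivity) (by positivity)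
    exact pow_le_pow_left₀ hX.le hXX 2

section

variable {η β γ κ Z W X : ℝ} (hZ : 2 ≤ Z) (hW : Z ≤ W) (hX : W ≤ X)
  (hη : |η| ≤ Z) (hβ : |β| ≤ Z) (hγ1 : |γ| ≤ Z) (hκ : |κ| ≤ Z) (hγ : 1 / Z ≤ |γ|)

include hZ hW hX in
lemma b_unique2 {a b b' : ℤ} (ha : X ≤ |(a : ℝ)|) (h : Nr η β γ κ W a b) (h' : Nr η β γ κ W a b') :
    b = b' := by
  have hX1 : 2 ≤ X := by linarith
  have hX0 : 0 < X := by linarith
  have ha0 : 0 < |(a : ℝ)| := by linarith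
  have h1 : W / |(a : ℝ)| ^ 3 < 1 / 2 := by
    rw [div_lt_div_iff₀ (by positivity) (by norm_num)]
    have h2 : X ^ 3 ≤ |(a : ℝ)| ^ 3 := pow_le_pow_left₀ hX0.le ha 3
    have h3 : 4 * X ≤ X ^ 3 := by
      have : X ^ 3 = X * X * X := by ring
      rw [this]
      apply mul_le_mul_of_nonneg_right _ hX0.le
      nlinarith
    linarith
  have h3 : |((b : ℝ) - b')| < 1 := by
    have h4 : (b : ℝ) - b' = ((b : ℝ) - η * a - β - γ / a - κ / (a : ℝ) ^ 2)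
        - ((b' : ℝ) - η * a - β - γ / a - κ / (a : ℝ) ^ 2) := by ring
    rw [h4]
    have h5 := abs_sub ((b : ℝ) - η * a - β - γ / a - κ / (a : ℝ) ^ 2)
      ((b' : ℝ) - η * a - β - γ / a - κ / (a : ℝ) ^ 2)
    have h6 : |(b : ℝ) - η * a - β - γ / a - κ / (a : ℝ) ^ 2| ≤ W / |(a : ℝ)| ^ 3 := h
    have h7 : |(b' : ℝ) - η * a - β - γ / a - κ / (a : ℝ) ^ 2| ≤ W / |(a : ℝ)| ^ 3 := h'
    linarith
  have h8 : |b - b'| < 1 := by exact_mod_cast h3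
  have h9 := abs_nonneg (b - b')
  have h10 : |b - b'| = 0 := by omega
  have h11 := abs_eq_zero.1 h10
  omega

include hZ hW hX hη hβ hγ1 hκ hγ in
lemma window_card2 (hNB : NB η Z W X) (T : Finset (ℤ × ℤ))
    (ha : ∀ P ∈ T, X ≤ |(P.1 : ℝ)| ∧ |(P.1 : ℝ)| ≤ X * Z)
    (hn : ∀ P ∈ T, Nr η β γ κ W P.1 P.2) : T.card ≤ 4 := by
  by_contra hcon
  push_neg at hcon
  have h1 : Fintype.card (Fin 5) ≤ Fintype.card T := by
    rw [Fintype.card_fin, Fintype.card_coe]; omega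
  obtain ⟨e⟩ := Function.Embedding.nonempty_of_card_le h1
  apply window2 (a := fun i => (e i).1.1) (b := fun i => (e i).1.2) hZ hW hX hη hβ hγ1 hκ
    hγ hNB.1 hNB.2
  · intro i j hij
    apply e.injective
    apply Subtype.ext
    apply Prod.ext
    · exact hij
    · simp only at hij
      have h2 := hn _ (e i).2
      have h3 := hn _ (e j).2
      rw [← hij] at h3
      exact b_unique2 hZ hW hX (ha _ (e i).2).1 h2 h3
  · intro i; exact ha _ (e i).2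
  · intro i; exact hn _ (e i).2

include hZ hW hX hη hβ hγ1 hκ hγ in
lemma count_card2 (hNB : NB η Z W X) (n : ℕ) (T : Finset (ℤ × ℤ))
    (ha : ∀ P ∈ T, X ≤ |(P.1 : ℝ)| ∧ |(P.1 : ℝ)| ≤ X * Z ^ (n + 1))
    (hn : ∀ P ∈ T, Nr η β γ κ W P.1 P.2) : T.card ≤ 4 * (n + 1) := by
  classical
  induction n generalizing T with
  | zero =>
    have := window_card2 hZ hW hX hη hβ hγ1 hκ hγ hNB T (by simpa using ha) hn
    omega
  | succ n ih =>
    have hsplit := Finset.card_filter_add_card_filter_not (s := T)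
      (fun P : ℤ × ℤ => |(P.1 : ℝ)| ≤ X * Z ^ (n + 1))
    have h1 := ih (T.filter fun P : ℤ × ℤ => |(P.1 : ℝ)| ≤ X * Z ^ (n + 1))
      (by
        intro P hP
        rw [Finset.mem_filter] at hP
        exact ⟨(ha P hP.1).1, hP.2⟩)
      (by
        intro P hP
        rw [Finset.mem_filter] at hP
        exact hn P hP.1)
    have hXX : X ≤ X * Z ^ (n + 1) := by
      apply le_mul_of_one_le_right (by linarith) (one_le_pow₀ (by linarith))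
    have h2 := window_card2 (X := X * Z ^ (n + 1)) hZ hW (by linarith) hη hβ hγ1 hκ hγ
      (hNB.mono (by linarith) (by linarith) (by linarith) hXX)
      (T.filter fun P : ℤ × ℤ => ¬ |(P.1 : ℝ)| ≤ X * Z ^ (n + 1))
      (by
        intro P hP
        rw [Finset.mem_filter] at hP
        refine ⟨(not_le.1 hP.2).le, ?_⟩
        have := (ha P hP.1).2
        rw [pow_succ] at this
        linarith)
      (by
        intro P hP
        rw [Finset.mem_filter] at hP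
        exact hn P hP.1)
    omega

end

end Pool.Agent.H322R2
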