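import Pool.Agent.H322R2.TwoPoint

/-!
Homogenisation: coordinates at infinity.
-/

open Polynomial Finset

namespace Pool.Agent.H322R2

/-- total degree at most `d` -/
def TD (d : ℕ) (G : ℤ[X][X]) : Prop := G.natDegree ≤ d ∧ ∀ j, (G.coeff j).natDegree ≤ d - j

/-- homogenisation: `P(z,w) = z^d G(1/z, w/z)` -/
noncomputable def hmg (d : ℕ) (G : ℤ[X][X]) : ℤ[X][X] :=
  ∑ j ∈ range (d + 1), monomial j (reflect (d - j) (G.coeff j))

lemma coeff_hmg (d : ℕ) (G : ℤ[X][X]) (j : ℕ) :
    (hmg d G).coeff j = if j < d + 1 then reflect (d - j) (G.coeff j) else 0 := by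
  rw [hmg, finsetSum_coeff]
  simp_rw [coeff_monomial]
  rw [Finset.sum_ite_eq']
  simp [Finset.mem_range]

lemma natDegree_hmg (d : ℕ) (G : ℤ[X][X]) : (hmg d G).natDegree ≤ d := by
  rw [natDegree_le_iff_coeff_eq_zero]
  intro j hj
  rw [coeff_hmg, if_neg (by omega)]

lemma natDegree_coeff_hmg {d : ℕ} {G : ℤ[X][X]} (hG : TD d G) (j : ℕ) :
    ((hmg d G).coeff j).natDegree ≤ d := by
  rw [coeff_hmg]
  split_ifs with h
  · refine natDegree_reflect_le.trans ?_
    have := hG.2 j
    omega
  · simp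

lemma evf_reflect {S : Type*} [CommRing S] {x z : S} (hxz : x * z = 1) (n : ℕ) (p : ℤ[X])
    (hp : p.natDegree ≤ n) : x ^ n * evf z (reflect n p) = evf x p := by
  have h1 : (reflect n p).natDegree < n + 1 := by
    have := natDegree_reflect_le (N := n) (p := p)
    omega
  rw [evf_sum z _ h1, evf_sum x p (show p.natDegree < n + 1 by omega), ← Finset.sum_range_reflect,
    Finset.mul_sum]
  apply Finset.sum_congr rfl
  intro i hi
  rw [Finset.mem_range] at hi
  have h2 : n + 1 - 1 - i = n - i := by omega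
  rw [h2, coeff_reflect, revAt_le (by omega : n - i ≤ n)]
  have h3 : n - (n - i) = i := by omega
  rw [h3]
  have h4 : x ^ n * z ^ (n - i) = x ^ i := by
    have : n = i + (n - i) := by omega
    conv_lhs => rw [this, pow_add]
    have h5 : i + (n - i) - i = n - i := by omega
    rw [h5, mul_assoc, ← mul_pow, hxz, one_pow, mul_one]
  calc x ^ n * ((p.coeff i : S) * z ^ (n - i)) = (p.coeff i : S) * (x ^ n * z ^ (n - i)) := by ring
    _ = _ := by rw [h4]

lemma ev_hmg {S : Type*} [CommRing S] {x z : S} (w : S) (hxz : x * z = 1) {d : ℕ} {G : ℤ[X][X]}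
    (hG : TD d G) : ev x (x * w) G = x ^ d * ev z w (hmg d G) := by
  rw [ev_apply, ev_apply, eval₂_eq_sum_range' _ (show G.natDegree < d + 1 by have := hG.1; omega),
    eval₂_eq_sum_range' _ (show (hmg d G).natDegree < d + 1 by have := natDegree_hmg d G; omega),
    Finset.mul_sum]
  apply Finset.sum_congr rfl
  intro j hj
  have hj' := Finset.mem_range.1 hj
  rw [coeff_hmg, if_pos hj', ← evf_reflect hxz (d - j) _ (hG.2 j), mul_pow]
  have : x ^ d = x ^ (d - j) * x ^ j := by rw [← pow_add]; congr 1; omega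
  rw [this]; ring

lemma TD_derivative {d : ℕ} {G : ℤ[X][X]} (hG : TD d G) (hd : 0 < d) :
    TD (d - 1) (derivative G) := by
  refine ⟨(natDegree_derivative_le _).trans (by have := hG.1; omega), ?_⟩
  intro j
  rw [coeff_derivative]
  have h1 : (G.coeff (j + 1) * ((j : ℤ[X]) + 1)).natDegree ≤ (G.coeff (j + 1)).natDegree := by
    have h2 : ((j : ℤ[X]) + 1) = C ((j : ℤ) + 1) := by simp
    rw [h2]
    exact natDegree_mul_C_le _ _
  have := hG.2 (j + 1)
  omega

lemma hmg_derivative {d : ℕ} {G : ℤ[X][X]} (hd : 0 < d) :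
    derivative (hmg d G) = hmg (d - 1) (derivative G) := by
  ext1 j
  rw [coeff_derivative, coeff_hmg, coeff_hmg, coeff_derivative]
  have h2 : ((j : ℤ[X]) + 1) = C ((j : ℤ) + 1) := by simp
  by_cases h : j + 1 < d + 1
  · rw [if_pos h, if_pos (by omega), h2, mul_comm (G.coeff (j + 1)), reflect_C_mul,
      mul_comm, show d - (j + 1) = d - 1 - j by omega]
  · rw [if_neg h, if_neg (by omega), zero_mul]

lemma ev_derivative_hmg {S : Type*} [CommRing S] {x z : S} (w : S) (hxz : x * z = 1) {d : ℕ}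
    {G : ℤ[X][X]} (hG : TD d G) (hd : 0 < d) :
    ev x (x * w) (derivative G) = x ^ (d - 1) * ev z w (derivative (hmg d G)) := by
  rw [hmg_derivative hd]
  exact ev_hmg w hxz (TD_derivative hG hd)

lemma pn_reflect (n : ℕ) (p : ℤ[X]) (hp : p.natDegree ≤ n) : pn zn (reflect n p) = pn zn p := by
  have h1 : (reflect n p).natDegree < n + 1 := by
    have := natDegree_reflect_le (N := n) (p := p)
    omega
  rw [pn_eq_range _ _ h1, pn_eq_range _ p (show p.natDegree < n + 1 by omega),
    ← Finset.sum_range_reflect]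
  apply Finset.sum_congr rfl
  intro i hi
  rw [Finset.mem_range] at hi
  have h2 : n + 1 - 1 - i = n - i := by omega
  rw [h2, coeff_reflect, revAt_le (by omega : n - i ≤ n)]
  have h3 : n - (n - i) = i := by omega
  rw [h3]

lemma pn_hmg {d : ℕ} {G : ℤ[X][X]} (hG : TD d G) : pn (pn zn) (hmg d G) = pn (pn zn) G := by
  rw [pn_eq_range _ _ (show (hmg d G).natDegree < d + 1 by have := natDegree_hmg d G; omega),
    pn_eq_range _ G (show G.natDegree < d + 1 by have := hG.1; omega)]
  apply Finset.sum_congr rfl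
  intro j hj
  rw [coeff_hmg, if_pos (Finset.mem_range.1 hj), pn_reflect _ _ (hG.2 j)]

/-- the leading form of `G`, dehomogenised -/
noncomputable def lead (d : ℕ) (G : ℤ[X][X]) : ℤ[X] :=
  ∑ j ∈ range (d + 1), monomial j ((G.coeff j).coeff (d - j))

lemma coeff_lead (d : ℕ) (G : ℤ[X][X]) (j : ℕ) :
    (lead d G).coeff j = if j < d + 1 then (G.coeff j).coeff (d - j) else 0 := by
  rw [lead, finsetSum_coeff]
  simp_rw [coeff_monomial]
  rw [Finset.sum_ite_eq']
  simp [Finset.mem_range]

lemma ev_zero_hmg {S : Type*} [CommRing S] (w : S) {d : ℕ} (G : ℤ[X][X]) :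
    ev 0 w (hmg d G) = evf w (lead d G) := by
  rw [hmg, lead, map_sum, map_sum]
  apply Finset.sum_congr rfl
  intro j _
  rw [← C_mul_X_pow_eq_monomial, ← C_mul_X_pow_eq_monomial, map_mul, map_pow, ev_C, ev_X,
    map_mul, map_pow, evf_C, evf_X]
  congr 1
  have h1 : evf (0 : S) (reflect (d - j) (G.coeff j)) = ((reflect (d - j) (G.coeff j)).coeff 0 : S) := by
    rw [evf, coe_eval₂RingHom, eval₂_at_zero]
    rfl
  rw [h1, coeff_reflect, revAt_le (Nat.zero_le _), Nat.sub_zero]

lemma derivative_lead {d : ℕ} (G : ℤ[X][X]) (hd : 0 < d) :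
    derivative (lead d G) = lead (d - 1) (derivative G) := by
  ext1 j
  rw [coeff_derivative, coeff_lead, coeff_lead, coeff_derivative]
  by_cases h : j + 1 < d + 1
  · rw [if_pos h, if_pos (by omega)]
    have h2 : ((j : ℤ[X]) + 1) = C ((j : ℤ) + 1) := by simp
    rw [h2, coeff_mul_C]
    congr 2
    omega
  · rw [if_neg h, if_neg (by omega), zero_mul]

lemma ev_zero_derivative_hmg {S : Type*} [CommRing S] (w : S) {d : ℕ} (G : ℤ[X][X]) (hd : 0 < d) :
    ev 0 w (derivative (hmg d G)) = evf w (derivative (lead d G)) := by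
  rw [hmg_derivative hd, ev_zero_hmg, derivative_lead G hd]

lemma lead_monic {d : ℕ} {G : ℤ[X][X]} (hm : G.Monic) (hd : G.natDegree = d) :
    (lead d G).Monic ∧ (lead d G).natDegree = d := by
  have h1 : (lead d G).natDegree ≤ d := by
    rw [natDegree_le_iff_coeff_eq_zero]
    intro j hj
    rw [coeff_lead, if_neg (by omega)]
  have h2 : (lead d G).coeff d = 1 := by
    rw [coeff_lead, if_pos (by omega), Nat.sub_self]
    have : G.coeff d = 1 := by rw [← hd]; exact hm
    rw [this, coeff_one_zero]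
  have h3 : (lead d G).Monic := monic_of_natDegree_le_of_coeff_eq_one d h1 h2
  refine ⟨h3, ?_⟩
  apply le_antisymm h1
  apply le_natDegree_of_ne_zero
  rw [h2]; exact one_ne_zero

lemma pn_lead_le {d : ℕ} {G : ℤ[X][X]} (hG : G.natDegree ≤ d) :
    pn zn (lead d G) ≤ pn (pn zn) G := by
  have h1 : (lead d G).natDegree < d + 1 := by
    have : (lead d G).natDegree ≤ d := by
      rw [natDegree_le_iff_coeff_eq_zero]
      intro j hj
      rw [coeff_lead, if_neg (by omega)]
    omega
  rw [pn_eq_range _ _ h1, pn_eq_range _ G (show G.natDegree < d + 1 by omega)]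
  apply Finset.sum_le_sum
  intro j hj
  rw [coeff_lead, if_pos (Finset.mem_range.1 hj)]
  exact coeff_le_pn zn _ _

end Pool.Agent.H322R2
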