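import Pool.Agent.H322R2.Box
import Pool.Agent.H322R2.Flex

/-!
Polynomials of degree at most `d` as coefficient vectors.
-/

open Polynomial Finset

namespace Pool.Agent.H322R2

/-- exponents -/
def Ix (d : ℕ) : Finset (ℕ × ℕ) := ((range (d + 1)) ×ˢ (range (d + 1))).filter fun p => p.1 + p.2 ≤ d

lemma mem_Ix {d : ℕ} {p : ℕ × ℕ} : p ∈ Ix d ↔ p.1 + p.2 ≤ d := by
  rw [Ix, Finset.mem_filter, Finset.mem_product, Finset.mem_range, Finset.mem_range]
  constructor
  · rintro ⟨_, h⟩; exact h
  · intro h; exact ⟨⟨by omega, by omega⟩, h⟩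

lemma card_Ix (d : ℕ) : (Ix d).card = (d + 1) * (d + 2) / 2 := by
  have h1 : (Ix d).card = ∑ j ∈ range (d + 1), (d + 1 - j) := by
    rw [Ix, Finset.card_filter, Finset.sum_product]
    apply Finset.sum_congr rfl
    intro j hj
    rw [Finset.mem_range] at hj
    rw [← Finset.card_filter]
    have : (range (d + 1)).filter (fun i => (j, i).1 + (j, i).2 ≤ d) = range (d + 1 - j) := by
      ext i
      simp only [Finset.mem_filter, Finset.mem_range]
      omega
    rw [this, Finset.card_range]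
  have h2 : ∑ j ∈ range (d + 1), (d + 1 - j) = ∑ j ∈ range (d + 1), (j + 1) := by
    rw [← Finset.sum_range_reflect]
    apply Finset.sum_congr rfl
    intro j hj
    rw [Finset.mem_range] at hj
    omega
  have h3 : (∑ j ∈ range (d + 1), (j + 1)) * 2 = (d + 1) * (d + 2) := by
    rw [Finset.sum_add_distrib, add_mul, Finset.sum_range_id_mul_two]
    simp
    ring
  rw [h1, h2]
  omega

variable {d : ℕ}

/-- coefficient function -/
def cf (c : ↥(Ix d) → ℤ) (j i : ℕ) : ℤ := if h : (j, i) ∈ Ix d then c ⟨(j, i), h⟩ else 0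

/-- the polynomial -/
noncomputable def PG (c : ↥(Ix d) → ℤ) : ℤ[X][X] :=
  ∑ p : ↥(Ix d), monomial p.1.1 (monomial p.1.2 (c p))

lemma coeff_PG (c : ↥(Ix d) → ℤ) (j i : ℕ) : ((PG c).coeff j).coeff i = cf c j i := by
  rw [PG, finsetSum_coeff, finsetSum_coeff, cf]
  split_ifs with h
  · rw [Finset.sum_eq_single ⟨(j, i), h⟩]
    · simp
    · intro p _ hp
      rw [coeff_monomial]
      split_ifs with h1
      · rw [coeff_monomial, if_neg]
        intro h2
        apply hp
        apply Subtype.ext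
        exact Prod.ext h1 h2
      · simp
    · intro h'; exact absurd (Finset.mem_univ _) h'
  · apply Finset.sum_eq_zero
    intro p _
    rw [coeff_monomial]
    split_ifs with h1
    · rw [coeff_monomial, if_neg]
      intro h2
      apply h
      have : (j, i) = p.1 := Prod.ext h1.symm h2.symm
      rw [this]; exact p.2
    · simp

lemma TD_PG (c : ↥(Ix d) → ℤ) : TD d (PG c) := by
  have key : ∀ j i, d < j + i → ((PG c).coeff j).coeff i = 0 := by
    intro j i h
    rw [coeff_PG, cf, dif_neg]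
    rw [mem_Ix]
    simp only
    omega
  constructor
  · rw [natDegree_le_iff_coeff_eq_zero]
    intro j hj
    ext i
    rw [key j i (by omega), coeff_zero]
  · intro j
    rw [natDegree_le_iff_coeff_eq_zero]
    intro i hi
    exact key j i (by omega)

lemma pn_PG {c : ↥(Ix d) → ℤ} {H : ℕ} (hc : c ∈ Bx _ H) :
    pn (pn zn) (PG c) ≤ ((Ix d).card : ℝ) * H := by
  rw [PG]
  refine (seminorm_sum_le _ _ _).trans ?_
  have h1 : ∀ p ∈ (Finset.univ : Finset ↥(Ix d)),
      pn (pn zn) (monomial p.1.1 (monomial p.1.2 (c p))) ≤ H := by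
    intro p _
    rw [pn_monomial, pn_monomial, zn_apply]
    have := mem_Bx.1 hc p
    have h2 : ((|c p| : ℤ) : ℝ) ≤ ((H : ℤ) : ℝ) := by exact_mod_cast this
    rw [Int.cast_abs] at h2
    simpa using h2
  refine (Finset.sum_le_card_nsmul _ _ _ h1).trans ?_
  rw [nsmul_eq_mul, Finset.card_univ, Fintype.card_coe]

lemma lead_add (k : ℕ) (A B : ℤ[X][X]) : lead k (A + B) = lead k A + lead k B := by
  ext j
  rw [coeff_add, coeff_lead, coeff_lead, coeff_lead]
  split_ifs
  · rw [coeff_add, coeff_add]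
  · simp

lemma lead_monomial (k j0 i0 : ℕ) (a : ℤ) :
    lead k (monomial j0 (monomial i0 a)) = if j0 + i0 = k then monomial j0 a else 0 := by
  ext j
  rw [coeff_lead]
  by_cases h : j0 + i0 = k
  · rw [if_pos h, coeff_monomial, coeff_monomial]
    by_cases hj : j0 = j
    · subst hj
      rw [if_pos (by omega), if_pos rfl, if_pos rfl, coeff_monomial, if_pos (by omega)]
    · rw [if_neg hj, if_neg hj]
      split_ifs <;> simp
  · rw [if_neg h, coeff_zero]
    split_ifs with h1
    · rw [coeff_monomial]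
      split_ifs with h2
      · rw [coeff_monomial, if_neg (by omega)]
      · simp
    · rfl

lemma PG_update (c : ↥(Ix d) → ℤ) (p0 : ↥(Ix d)) (v : ℤ) :
    PG (Function.update c p0 v) = PG c + monomial p0.1.1 (monomial p0.1.2 (v - c p0)) := by
  rw [PG, PG, ← Finset.add_sum_erase _ _ (Finset.mem_univ p0),
    ← Finset.add_sum_erase (f := fun p : ↥(Ix d) => monomial p.1.1 (monomial p.1.2 (c p)))
      _ (Finset.mem_univ p0), Function.update_self]
  have h1 : ∑ x ∈ univ.erase p0, monomial x.1.1 (monomial x.1.2 (Function.update c p0 v x))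
      = ∑ x ∈ univ.erase p0, (monomial x.1.1 (monomial x.1.2 (c x)) : ℤ[X][X]) := by
    apply Finset.sum_congr rfl
    intro x hx
    rw [Function.update_of_ne (Finset.ne_of_mem_erase hx)]
  rw [h1, map_sub, map_sub]
  ring

lemma ev_update {S : Type*} [CommRing S] (x y : S) (c : ↥(Ix d) → ℤ) (p0 : ↥(Ix d)) (v : ℤ) :
    ev x y (PG (Function.update c p0 v)) = ev x y (PG c) + (v - c p0) * x ^ p0.1.2 * y ^ p0.1.1 := by
  rw [PG_update, map_add, ← C_mul_X_pow_eq_monomial, ← C_mul_X_pow_eq_monomial, map_mul, ev_C,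
    map_mul, evf_C, map_pow, map_pow, evf_X, ev_X]
  push_cast
  ring

lemma evf_lead_update {S : Type*} [CommRing S] (y : S) (c : ↥(Ix d) → ℤ) (p0 : ↥(Ix d)) (v : ℤ)
    (k : ℕ) : evf y (lead k (PG (Function.update c p0 v))) = evf y (lead k (PG c)) +
      if p0.1.1 + p0.1.2 = k then ((v : S) - c p0) * y ^ p0.1.1 else 0 := by
  rw [PG_update, lead_add, lead_monomial, map_add]
  congr 1
  split_ifs
  · rw [← C_mul_X_pow_eq_monomial, map_mul, evf_C, map_pow, evf_X]; push_cast; ring
  · simp

lemma evf_dlead_update {S : Type*} [CommRing S] (y : S) (c : ↥(Ix d) → ℤ) (p0 : ↥(Ix d)) (v : ℤ)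
    (k : ℕ) : evf y (derivative (lead k (PG (Function.update c p0 v))))
      = evf y (derivative (lead k (PG c))) +
      if p0.1.1 + p0.1.2 = k then ((v : S) - c p0) * (p0.1.1 * y ^ (p0.1.1 - 1)) else 0 := by
  rw [PG_update, lead_add, lead_monomial, derivative_add, map_add]
  congr 1
  split_ifs
  · rw [derivative_monomial, ← C_mul_X_pow_eq_monomial, map_mul, evf_C, map_pow, evf_X]
    push_cast; ring
  · simp

lemma lead_update_of_ne (c : ↥(Ix d) → ℤ) (p0 : ↥(Ix d)) (v : ℤ)
    (k : ℕ) (h : p0.1.1 + p0.1.2 ≠ k) : lead k (PG (Function.update c p0 v)) = lead k (PG c) := by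
  rw [PG_update, lead_add, lead_monomial, if_neg h, add_zero]

end Pool.Agent.H322R2
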