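import Mathlib

open Polynomial

namespace Pool.Agent.H322R2

/-- the binomial `a X^κ - b` -/
noncomputable def kR (a b : ℤ) (κ : ℕ) : ℤ[X] := C a * X ^ κ - C b

theorem kR_mul_coeff (a b : ℤ) (κ : ℕ) (Q : ℤ[X]) (i : ℕ) :
    (kR a b κ * Q).coeff (i + κ) = a * Q.coeff i - b * Q.coeff (i + κ) := by
  have h1 : kR a b κ * Q = C a * (X ^ κ * Q) - C b * Q := by
    unfold kR; ring
  rw [h1, coeff_sub, coeff_C_mul, coeff_C_mul, coeff_X_pow_mul]

theorem kR_mul_coeff_bound (a b : ℤ) (hb : 0 < b) (hba : b ≤ a) (κ : ℕ) (hκ : 1 ≤ κ)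
    (Q : ℤ[X]) (H : ℤ) (hH : ∀ i, |(kR a b κ * Q).coeff i| ≤ H) (D : ℕ)
    (hD : Q.natDegree ≤ D) (i : ℕ) : a * |Q.coeff i| ≤ (D + 1) * H := by
  have ha : 0 < a := lt_of_lt_of_le hb hba
  have hH0 : 0 ≤ H := le_trans (abs_nonneg _) (hH 0)
  have key : ∀ t : ℕ, ∀ i : ℕ, D < i + t → a * |Q.coeff i| ≤ t * H := by
    intro t
    induction t with
    | zero =>
      intro i hi
      have : Q.coeff i = 0 := coeff_eq_zero_of_natDegree_lt (by omega)
      simp [this]
    | succ t ih =>
      intro i hi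
      by_cases hi2 : D < i
      · have : Q.coeff i = 0 := coeff_eq_zero_of_natDegree_lt (by omega)
        rw [this]
        simp only [abs_zero, mul_zero]
        positivity
      · have h1 := ih (i + κ) (by omega)
        have h2 := hH (i + κ)
        rw [kR_mul_coeff] at h2
        have h3 : a * |Q.coeff i| = |a * Q.coeff i| := by
          rw [abs_mul, abs_of_pos ha]
        have h4 : |a * Q.coeff i| ≤ |a * Q.coeff i - b * Q.coeff (i + κ)|
            + |b * Q.coeff (i + κ)| := by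
          have := abs_add_le (a * Q.coeff i - b * Q.coeff (i + κ)) (b * Q.coeff (i + κ))
          simpa using this
        have h5 : |b * Q.coeff (i + κ)| ≤ a * |Q.coeff (i + κ)| := by
          rw [abs_mul, abs_of_pos hb]
          exact mul_le_mul_of_nonneg_right hba (abs_nonneg _)
        push_cast
        linarith
  have := key (D + 1) i (by omega)
  push_cast at this
  exact this

theorem kR_natDegree (a b : ℤ) (ha : a ≠ 0) (κ : ℕ) (hκ : 1 ≤ κ) :
    (kR a b κ).natDegree = κ := by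
  unfold kR
  rw [natDegree_sub_C]
  exact natDegree_C_mul_X_pow κ a ha

theorem kR_leadingCoeff (a b : ℤ) (ha : a ≠ 0) (κ : ℕ) (hκ : 1 ≤ κ) :
    (kR a b κ).leadingCoeff = a := by
  rw [leadingCoeff, kR_natDegree a b ha κ hκ]
  unfold kR
  rw [coeff_sub, coeff_C_mul, coeff_X_pow_self, coeff_C, if_neg (by omega)]
  simp

theorem kR_aeval {A : Type*} [CommRing A] (a b : ℤ) (κ : ℕ) (x : A) :
    aeval x (kR a b κ) = (a : A) * x ^ κ - (b : A) := by
  unfold kR
  simp

theorem k_prod_le (s : Multiset ℂ) (g : ℂ → ℂ) (B : ℝ) (hB : 0 ≤ B)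
    (hs : ∀ z ∈ s, ‖g z‖ ≤ B) : ‖(s.map g).prod‖ ≤ B ^ s.card := by
  induction s using Multiset.induction_on with
  | empty => simp
  | cons z s ih =>
    rw [Multiset.map_cons, Multiset.prod_cons, norm_mul, Multiset.card_cons, pow_succ, mul_comm]
    apply mul_le_mul
    · exact ih (fun w hw => hs w (Multiset.mem_cons_of_mem hw))
    · exact hs z (Multiset.mem_cons_self z s)
    · exact norm_nonneg _
    · positivity

theorem k_eval_le (P : ℤ[X]) (N : ℕ) (hN : P.natDegree ≤ N) (h : ℝ)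
    (hh : ∀ i, |(P.coeff i : ℝ)| ≤ h) (z : ℂ) (hz : ‖z‖ ≤ 1) :
    ‖aeval z P‖ ≤ (N + 1) * h := by
  rw [aeval_eq_sum_range' (lt_of_le_of_lt hN (Nat.lt_succ_self N))]
  refine (norm_sum_le _ _).trans ?_
  calc ∑ i ∈ Finset.range N.succ, ‖P.coeff i • z ^ i‖
      ≤ ∑ i ∈ Finset.range N.succ, h := by
        apply Finset.sum_le_sum
        intro i _
        rw [zsmul_eq_mul, norm_mul, norm_pow]
        have h1 : ‖((P.coeff i : ℤ) : ℂ)‖ = |(P.coeff i : ℝ)| := by
          rw [Complex.norm_intCast]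
        rw [h1]
        have h2 : ‖z‖ ^ i ≤ 1 := pow_le_one₀ (norm_nonneg _) hz
        calc |(P.coeff i : ℝ)| * ‖z‖ ^ i ≤ |(P.coeff i : ℝ)| * 1 :=
              mul_le_mul_of_nonneg_left h2 (abs_nonneg _)
          _ ≤ h := by rw [mul_one]; exact hh i
    _ = (N + 1) * h := by
        rw [Finset.sum_const, Finset.card_range, nsmul_eq_mul]; push_cast; ring

theorem kR_dvd_of_root (a b : ℤ) (ha : a ≠ 0) (κ : ℕ) (hκ : 1 ≤ κ)
    (hirr : Irreducible (kR a b κ)) (z : ℂ) (hz : aeval z (kR a b κ) = 0) (P : ℤ[X])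
    (hP : aeval z P = 0) : kR a b κ ∣ P := by
  have hprim : (kR a b κ).IsPrimitive := by
    apply hirr.isPrimitive
    rw [kR_natDegree a b ha κ hκ]; omega
  rw [IsPrimitive.Int.dvd_iff_map_cast_dvd_map_cast _ _ hprim]
  have hirr2 := (IsPrimitive.Int.irreducible_iff_irreducible_map_cast hprim).mp hirr
  have hz2 : aeval z ((kR a b κ).map (Int.castRingHom ℚ)) = 0 := by
    rw [show (Int.castRingHom ℚ) = algebraMap ℤ ℚ from rfl, aeval_map_algebraMap]; exact hz
  have hP2 : aeval z (P.map (Int.castRingHom ℚ)) = 0 := by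
    rw [show (Int.castRingHom ℚ) = algebraMap ℤ ℚ from rfl, aeval_map_algebraMap]; exact hP
  have h1 := minpoly.dvd ℚ z hP2
  have h2 := minpoly.dvd ℚ z hz2
  have h3 : Associated (minpoly ℚ z) ((kR a b κ).map (Int.castRingHom ℚ)) := by
    have hint : IsIntegral ℚ z := by
      rw [← isAlgebraic_iff_isIntegral]
      exact ⟨_, hirr2.ne_zero, hz2⟩
    exact (minpoly.irreducible hint).associated_of_dvd hirr2 h2
  exact h3.symm.dvd.trans h1

theorem kLB (a b : ℤ) (hb : 0 < b) (hba : b ≤ a) (κ : ℕ) (hκ : 1 ≤ κ)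
    (hirr : Irreducible (kR a b κ)) (x : ℝ) (hx : (a : ℝ) * x ^ κ = b) (P : ℤ[X])
    (N : ℕ) (hN : P.natDegree ≤ N) (h : ℝ) (hh : ∀ i, |(P.coeff i : ℝ)| ≤ h)
    (hnd : ¬ kR a b κ ∣ P) :
    1 ≤ |aeval x P| * ((N + 1) * h) ^ (κ - 1) * (a : ℝ) ^ N := by
  have ha : 0 < a := lt_of_lt_of_le hb hba
  have ha' : (0 : ℝ) < a := by exact_mod_cast ha
  have hb' : (0 : ℝ) < b := by exact_mod_cast hb
  have hba' : (b : ℝ) ≤ a := by exact_mod_cast hba
  set f : ℂ[X] := (kR a b κ).map (Int.castRingHom ℂ) with hf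
  set g : ℂ[X] := P.map (Int.castRingHom ℂ) with hg
  have hinj : Function.Injective (Int.castRingHom ℂ) := Int.cast_injective
  have hfdeg : f.natDegree = κ := by
    rw [hf, natDegree_map_eq_of_injective hinj, kR_natDegree a b ha.ne' κ hκ]
  have hflead : f.leadingCoeff = (a : ℂ) := by
    rw [hf, leadingCoeff_map_of_injective hinj, kR_leadingCoeff a b ha.ne' κ hκ]; simp
  have hf0 : f ≠ 0 := by
    intro h0
    rw [h0] at hfdeg
    simp at hfdeg
    omega
  have hgN : g.natDegree ≤ N := natDegree_map_le.trans hN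
  have hres := resultant_eq_prod_eval f g N hgN (IsAlgClosed.splits f)
  rw [hfdeg, hflead, hf, hg, resultant_map_map, ← hf, ← hg] at hres
  have hroot : ∀ z ∈ f.roots, aeval z (kR a b κ) = 0 := by
    intro z hz
    rw [mem_roots hf0, IsRoot, hf, eval_map, ← algebraMap_int_eq, ← aeval_def] at hz
    exact hz
  have hgeval : ∀ z, g.eval z = aeval z P := by
    intro z
    rw [hg, eval_map, ← algebraMap_int_eq, ← aeval_def]
  have hne : (f.roots.map g.eval).prod ≠ 0 := by
    intro h0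
    rw [Multiset.prod_eq_zero_iff, Multiset.mem_map] at h0
    obtain ⟨z, hz, hz0⟩ := h0
    rw [hgeval] at hz0
    exact hnd (kR_dvd_of_root a b ha.ne' κ hκ hirr z (hroot z hz) P hz0)
  have hresne : (resultant (kR a b κ) P κ N) ≠ 0 := by
    intro h0
    rw [h0] at hres
    simp only [map_zero] at hres
    have := mul_ne_zero (pow_ne_zero N (show (a : ℂ) ≠ 0 by exact_mod_cast ha.ne')) hne
    exact this hres.symm
  have hone : (1 : ℝ) ≤ ‖(Int.castRingHom ℂ) (resultant (kR a b κ) P κ N)‖ := by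
    simp only [eq_intCast, Complex.norm_intCast]
    exact_mod_cast Int.one_le_abs hresne
  rw [hres, norm_mul, norm_pow] at hone
  have hxroot : (x : ℂ) ∈ f.roots := by
    rw [mem_roots hf0, IsRoot, hf, eval_map, ← algebraMap_int_eq, ← aeval_def, kR_aeval]
    have : ((a : ℝ) * x ^ κ - b : ℝ) = 0 := by rw [hx]; ring
    exact_mod_cast congrArg (fun t : ℝ => (t : ℂ)) this
  have hcard : f.roots.card = κ := by
    rw [← hfdeg]
    exact (IsAlgClosed.splits f).natDegree_eq_card_roots.symm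
  rw [← Multiset.cons_erase hxroot, Multiset.map_cons, Multiset.prod_cons, norm_mul] at hone
  have hcard2 : (f.roots.erase (x : ℂ)).card = κ - 1 := by
    rw [Multiset.card_erase_of_mem hxroot, hcard]; rfl
  have hh0 : 0 ≤ h := le_trans (abs_nonneg _) (hh 0)
  have hprod : ‖((f.roots.erase (x : ℂ)).map g.eval).prod‖ ≤ ((N + 1) * h) ^ (κ - 1) := by
    rw [← hcard2]
    apply k_prod_le _ _ _ (by positivity)
    intro z hz
    rw [hgeval]
    apply k_eval_le P N hN h hh
    have hz2 := hroot z (Multiset.mem_of_mem_erase hz)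
    rw [kR_aeval] at hz2
    have hz3 : (a : ℂ) * z ^ κ = b := by linear_combination hz2
    have hz4 : (a : ℝ) * ‖z‖ ^ κ = b := by
      have := congrArg norm hz3
      rw [norm_mul, norm_pow, Complex.norm_intCast, Complex.norm_intCast, abs_of_pos ha',
        abs_of_pos hb'] at this
      exact this
    by_contra hlt
    push_neg at hlt
    have : 1 < ‖z‖ ^ κ := one_lt_pow₀ hlt (by omega)
    nlinarith
  have hxe : ‖g.eval (x : ℂ)‖ = |aeval x P| := by
    rw [hgeval]
    have : aeval (x : ℂ) P = ((aeval x P : ℝ) : ℂ) := by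
      rw [show (x : ℂ) = algebraMap ℝ ℂ x from rfl, aeval_algebraMap_apply]
      rfl
    rw [this, Complex.norm_real, Real.norm_eq_abs]
  rw [hxe, Complex.norm_intCast, abs_of_pos ha'] at hone
  calc (1 : ℝ) ≤ (a : ℝ) ^ N * (|aeval x P| *
        ‖((f.roots.erase (x : ℂ)).map g.eval).prod‖) := hone
    _ ≤ (a : ℝ) ^ N * (|aeval x P| * ((N + 1) * h) ^ (κ - 1)) := by
        gcongr
    _ = |aeval x P| * ((N + 1) * h) ^ (κ - 1) * (a : ℝ) ^ N := by ring

/-- irreducibility: Eisenstein at 2 -/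
theorem kR_irr (m : ℕ) (hm : 1 ≤ m) (p : ℕ) (hp : p % 12 = 2) (κ : ℕ) (hκ : 1 ≤ κ) :
    Irreducible (kR (3 ^ m) p κ) := by
  have h3 : (3 : ℤ) ^ m ≠ 0 := by positivity
  have hdeg := kR_natDegree (3 ^ m) p h3 κ hκ
  have hlead := kR_leadingCoeff (3 ^ m) p h3 κ hκ
  have hodd : ¬ (2 : ℤ) ∣ 3 ^ m := by
    intro hd
    have := Int.Prime.dvd_pow' (p := 2) Nat.prime_two (by exact_mod_cast hd : ((2 : ℕ) : ℤ) ∣ 3 ^ m)
    norm_num at this
  have hP : (Ideal.span {(2 : ℤ)}).IsPrime := by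
    rw [Ideal.span_singleton_prime (by norm_num)]
    exact Int.prime_two
  refine irreducible_of_eisenstein_criterion hP ?_ ?_ ?_ ?_ ?_
  · rw [hlead, Ideal.mem_span_singleton]
    exact hodd
  · intro i hi
    rw [Ideal.mem_span_singleton]
    have hi2 : i < κ := by
      have := coe_lt_degree.mp hi
      rw [hdeg] at this
      exact this
    unfold kR
    rw [coeff_sub, coeff_C_mul, coeff_X_pow, if_neg (by omega), coeff_C]
    split_ifs
    · omega
    · simp
  · rw [← natDegree_pos_iff_degree_pos, hdeg]; omega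
  · rw [Ideal.span_singleton_pow, Ideal.mem_span_singleton]
    unfold kR
    rw [coeff_sub, coeff_C_mul, coeff_X_pow, if_neg (by omega), coeff_C, if_pos rfl]
    omega
  · intro r hr
    rw [C_dvd_iff_dvd_coeff] at hr
    have h1 := hr κ
    have h2 := hr 0
    unfold kR at h1 h2
    rw [coeff_sub, coeff_C_mul, coeff_X_pow_self, coeff_C, if_neg (by omega)] at h1
    rw [coeff_sub, coeff_C_mul, coeff_X_pow, if_neg (by omega), coeff_C, if_pos rfl] at h2
    have hcop : IsCoprime ((3 : ℤ) ^ m) (p : ℤ) := by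
      apply IsCoprime.pow_left
      rw [Int.isCoprime_iff_gcd_eq_one]
      have h3p : ¬ (3 : ℕ) ∣ p := by omega
      have := (Nat.Prime.coprime_iff_not_dvd Nat.prime_three).mpr h3p
      exact_mod_cast this
    apply hcop.isUnit_of_dvd'
    · simpa using h1
    · simpa using h2

theorem kR_irr_one (a b : ℤ) (ha : 0 < a) (hab : IsCoprime a b) : Irreducible (kR a b 1) := by
  have hdeg := kR_natDegree a b ha.ne' 1 le_rfl
  have hprim : (kR a b 1).IsPrimitive := by
    intro r hr
    rw [C_dvd_iff_dvd_coeff] at hr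
    have h1 := hr 1
    have h2 := hr 0
    unfold kR at h1 h2
    rw [coeff_sub, coeff_C_mul, coeff_X_pow_self, coeff_C, if_neg (by omega)] at h1
    rw [coeff_sub, coeff_C_mul, coeff_X_pow, if_neg (by omega), coeff_C, if_pos rfl] at h2
    apply hab.isUnit_of_dvd'
    · simpa using h1
    · simpa using h2
  rw [IsPrimitive.Int.irreducible_iff_irreducible_map_cast hprim]
  apply irreducible_of_degree_eq_one
  have hne : (kR a b 1).map (Int.castRingHom ℚ) ≠ 0 := by
    intro h0
    have := (Polynomial.map_eq_zero_iff (f := Int.castRingHom ℚ) Int.cast_injective).mp h0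
    rw [this] at hdeg
    simp at hdeg
  rw [degree_eq_natDegree hne, natDegree_map_eq_of_injective Int.cast_injective, hdeg]
  rfl

end Pool.Agent.H322R2
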