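import Pool.Agent.H322R2.KA

open Polynomial

namespace Pool.Agent.H322R2

theorem k_pow_diff (x y : ℝ) (hx : |x| ≤ 1) (hy : |y| ≤ 1) (i : ℕ) :
    |x ^ i - y ^ i| ≤ i * |x - y| := by
  induction i with
  | zero => simp
  | succ i ih =>
    have h1 : x ^ (i + 1) - y ^ (i + 1) = x * (x ^ i - y ^ i) + (x - y) * y ^ i := by ring
    rw [h1]
    refine (abs_add_le _ _).trans ?_
    rw [abs_mul, abs_mul, abs_pow]
    have h2 : |y| ^ i ≤ 1 := pow_le_one₀ (abs_nonneg _) hy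
    have h3 : |x| * |x ^ i - y ^ i| ≤ 1 * (i * |x - y|) :=
      mul_le_mul hx ih (abs_nonneg _) (by norm_num)
    have h4 : |x - y| * |y| ^ i ≤ |x - y| * 1 := mul_le_mul_of_nonneg_left h2 (abs_nonneg _)
    push_cast
    linarith

theorem k_diff (P : ℤ[X]) (D : ℕ) (hD : P.natDegree ≤ D) (h : ℝ)
    (hh : ∀ i, |(P.coeff i : ℝ)| ≤ h) (x y : ℝ) (hx : |x| ≤ 1) (hy : |y| ≤ 1) :
    |aeval x P - aeval y P| ≤ (D + 1) ^ 2 * h * |x - y| := by
  have hh0 : 0 ≤ h := le_trans (abs_nonneg _) (hh 0)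
  rw [aeval_eq_sum_range' (lt_of_le_of_lt hD (Nat.lt_succ_self D)),
    aeval_eq_sum_range' (lt_of_le_of_lt hD (Nat.lt_succ_self D)), ← Finset.sum_sub_distrib]
  refine (Finset.abs_sum_le_sum_abs _ _).trans ?_
  calc ∑ i ∈ Finset.range D.succ, |P.coeff i • x ^ i - P.coeff i • y ^ i|
      ≤ ∑ i ∈ Finset.range D.succ, (D + 1) * h * |x - y| := by
        apply Finset.sum_le_sum
        intro i hi
        rw [zsmul_eq_mul, zsmul_eq_mul, ← mul_sub, abs_mul]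
        have h1 := k_pow_diff x y hx hy i
        have h2 : (i : ℝ) ≤ D + 1 := by
          have := Finset.mem_range.mp hi
          exact_mod_cast this.le
        calc |(P.coeff i : ℝ)| * |x ^ i - y ^ i| ≤ h * ((D + 1) * |x - y|) := by
              apply mul_le_mul (hh i) _ (abs_nonneg _) hh0
              exact h1.trans (mul_le_mul_of_nonneg_right h2 (abs_nonneg _))
          _ = (D + 1) * h * |x - y| := by ring
    _ = (D + 1) ^ 2 * h * |x - y| := by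
        rw [Finset.sum_const, Finset.card_range, nsmul_eq_mul]; push_cast; ring

theorem k_one_le (P : ℤ[X]) (hP : P ≠ 0) (h : ℝ) (hh : ∀ i, |(P.coeff i : ℝ)| ≤ h) : 1 ≤ h := by
  have h1 : P.coeff P.natDegree ≠ 0 := by
    rw [coeff_natDegree]; exact leadingCoeff_ne_zero.mpr hP
  have h2 : (1 : ℝ) ≤ |(P.coeff P.natDegree : ℝ)| := by
    exact_mod_cast Int.one_le_abs h1
  exact h2.trans (hh _)

/-- data of a sequence of binomial approximants -/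
structure KSys (D N K : ℕ) (Ω x : ℝ) where
  T : ℕ → ℝ
  a : ℕ → ℤ
  b : ℕ → ℤ
  κ : ℕ → ℕ
  y : ℕ → ℝ
  u : ℕ → ℝ
  C₁ : ℝ
  C₂ : ℝ
  c₃ : ℝ
  hC₁ : 1 ≤ C₁
  hC₂ : 0 < C₂
  hc₃ : 0 < c₃
  hx0 : 0 ≤ x
  hx1 : x ≤ 1
  hT1 : ∀ j, 1 ≤ T j
  hTj : ∀ j : ℕ, (j : ℝ) ≤ T j
  hb : ∀ j, 0 < b j
  hba : ∀ j, b j ≤ a j
  hκ : ∀ j, 1 ≤ κ j
  hκK : ∀ j, κ j ≤ K
  hirr : ∀ j, Irreducible (kR (a j) (b j) (κ j))
  hy0 : ∀ j, 0 ≤ y j
  hy : ∀ j, (a j : ℝ) * y j ^ κ j = b j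
  hclose : ∀ j, |x - y j| ≤ C₁ * T j ^ (-(u j))
  haT : ∀ j, (a j : ℝ) ^ D ≤ T j ^ N
  hnext : ∀ j, T (j + 1) ≤ C₂ * T j ^ (u j)
  hu : ∀ j, 2 * (N : ℝ) ≤ u j
  hR : ∀ j, c₃ * (a j : ℝ) ^ (-Ω) ≤ |aeval x (kR (a j) (b j) (κ j))|
  hΩ : 2 * (K : ℝ) * N + (K - 1) ≤ Ω
  hN : 1 ≤ N
  hK : 1 ≤ K

variable {D N K : ℕ} {Ω x : ℝ}

theorem KSys.y_le (S : KSys D N K Ω x) (j : ℕ) : S.y j ≤ 1 := by
  by_contra hlt
  push_neg at hlt
  have ha : (0 : ℝ) < S.a j := by exact_mod_cast lt_of_lt_of_le (S.hb j) (S.hba j)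
  have h1 : 1 < S.y j ^ S.κ j := one_lt_pow₀ hlt (by have := S.hκ j; omega)
  have h2 := S.hy j
  have h3 : (S.b j : ℝ) ≤ S.a j := by exact_mod_cast S.hba j
  nlinarith

/-- constant `A` -/
noncomputable def KSys.A (S : KSys D N K Ω x) : ℝ :=
  2 * ((D : ℝ) + 1) ^ 2 * S.C₁ * ((D : ℝ) + 1) ^ (K - 1)

noncomputable def KSys.C₄ (S : KSys D N K Ω x) : ℝ := S.T 0 + S.C₂ * S.A ^ 2

theorem KSys.A_pos (S : KSys D N K Ω x) : 0 < S.A := by
  unfold KSys.A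
  have := S.hC₁
  positivity

theorem KSys.C₄_pos (S : KSys D N K Ω x) : 0 < S.C₄ := by
  unfold KSys.C₄
  have := S.hT1 0
  have := S.hC₂
  have := S.A_pos
  positivity

/-- selection of the index -/
theorem KSys.select (S : KSys D N K Ω x) (h : ℝ) (h1 : 1 ≤ h) :
    ∃ j, S.A * h ^ K ≤ S.T j ^ (S.u j - N) ∧ S.T j ≤ S.C₄ * h ^ (2 * K) := by
  classical
  have hNr : (1 : ℝ) ≤ N := by exact_mod_cast S.hN
  have hex : ∃ j, S.A * h ^ K ≤ S.T j ^ (S.u j - N) := by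
    obtain ⟨j, hj⟩ := exists_nat_ge (S.A * h ^ K)
    refine ⟨j, hj.trans ((S.hTj j).trans ?_)⟩
    have h2 : (1 : ℝ) ≤ S.u j - N := by have := S.hu j; linarith
    calc S.T j = S.T j ^ (1 : ℝ) := (Real.rpow_one _).symm
      _ ≤ S.T j ^ (S.u j - N) := Real.rpow_le_rpow_of_exponent_le (S.hT1 j) h2
  refine ⟨Nat.find hex, Nat.find_spec hex, ?_⟩
  have hApos := S.A_pos
  have hh : (1 : ℝ) ≤ h ^ (2 * K) := one_le_pow₀ h1
  rcases Nat.eq_zero_or_pos (Nat.find hex) with h0 | hpos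
  · rw [h0]
    have h3 : S.T 0 ≤ S.C₄ := by
      unfold KSys.C₄
      have := S.hC₂
      have : 0 ≤ S.C₂ * S.A ^ 2 := by positivity
      linarith
    calc S.T 0 ≤ S.C₄ := h3
      _ = S.C₄ * 1 := (mul_one _).symm
      _ ≤ S.C₄ * h ^ (2 * K) := mul_le_mul_of_nonneg_left hh S.C₄_pos.le
  · obtain ⟨i, hi⟩ : ∃ i, Nat.find hex = i + 1 := ⟨Nat.find hex - 1, by omega⟩
    rw [hi]
    have hmin := Nat.find_min hex (m := i) (by omega)
    push_neg at hmin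
    have hT := S.hT1 i
    have h4 : S.T i ^ (S.u i) ≤ (S.T i ^ (S.u i - N)) ^ 2 := by
      rw [← Real.rpow_natCast (S.T i ^ (S.u i - N)) 2, ← Real.rpow_mul (by linarith)]
      apply Real.rpow_le_rpow_of_exponent_le hT
      have := S.hu i
      push_cast
      linarith
    have h5 : (S.T i ^ (S.u i - N)) ^ 2 ≤ (S.A * h ^ K) ^ 2 := by
      apply pow_le_pow_left₀ (by positivity) hmin.le
    have h6 := S.hnext i
    have hC₂ := S.hC₂
    calc S.T (i + 1) ≤ S.C₂ * S.T i ^ (S.u i) := h6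
      _ ≤ S.C₂ * (S.A * h ^ K) ^ 2 := mul_le_mul_of_nonneg_left (h4.trans h5) hC₂.le
      _ = (S.C₂ * S.A ^ 2) * h ^ (2 * K) := by ring
      _ ≤ S.C₄ * h ^ (2 * K) := by
          apply mul_le_mul_of_nonneg_right _ (by positivity)
          unfold KSys.C₄
          have := S.hT1 0
          linarith

theorem KSys.notdvd (S : KSys D N K Ω x) (P : ℤ[X]) (hP : P ≠ 0) (hD : P.natDegree ≤ D)
    (h : ℝ) (hh : ∀ i, |(P.coeff i : ℝ)| ≤ h) (j : ℕ)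
    (hj : S.A * h ^ K ≤ S.T j ^ (S.u j - N)) (hj2 : S.T j ≤ S.C₄ * h ^ (2 * K))
    (hnd : ¬ kR (S.a j) (S.b j) (S.κ j) ∣ P) :
    1 / (2 * ((D : ℝ) + 1) ^ (K - 1) * S.C₄ ^ N) * h ^ (-Ω) ≤ |aeval x P| := by
  have h1 := k_one_le P hP h hh
  have hTj := S.hT1 j
  have hTpos : 0 < S.T j := by linarith
  have hD1 : (1 : ℝ) ≤ (D : ℝ) + 1 := by
    have : (0 : ℝ) ≤ D := Nat.cast_nonneg D
    linarith
  have hDh : 1 ≤ ((D : ℝ) + 1) * h := by nlinarith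
  have hLB := kLB (S.a j) (S.b j) (S.hb j) (S.hba j) (S.κ j) (S.hκ j) (S.hirr j) (S.y j)
    (S.hy j) P D hD h hh hnd
  set G : ℝ := (((D : ℝ) + 1) * h) ^ (K - 1) * S.T j ^ N with hG
  have hGpos : 0 < G := by rw [hG]; positivity
  have ha0 : (0 : ℝ) < S.a j := by exact_mod_cast lt_of_lt_of_le (S.hb j) (S.hba j)
  have hPy : 1 ≤ |aeval (S.y j) P| * G := by
    refine hLB.trans ?_
    rw [mul_assoc, hG]
    apply mul_le_mul_of_nonneg_left _ (abs_nonneg _)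
    apply mul_le_mul _ (S.haT j) (by positivity) (by positivity)
    apply pow_le_pow_right₀ hDh
    have := S.hκK j
    omega
  have hdiff := k_diff P D hD h hh x (S.y j)
    (by rw [abs_of_nonneg S.hx0]; exact S.hx1)
    (by rw [abs_of_nonneg (S.hy0 j)]; exact S.y_le j)
  have hcl := S.hclose j
  have hdiff2 : |aeval x P - aeval (S.y j) P| * (2 * G) ≤ 1 := by
    have e1 : |aeval x P - aeval (S.y j) P| ≤ ((D : ℝ) + 1) ^ 2 * h * (S.C₁ * S.T j ^ (-(S.u j))) :=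
      hdiff.trans (mul_le_mul_of_nonneg_left hcl (by positivity))
    have e2 : ((D : ℝ) + 1) ^ 2 * h * (S.C₁ * S.T j ^ (-(S.u j))) * (2 * G)
        = (S.A * h ^ K) * (S.T j ^ (-(S.u j)) * S.T j ^ N) := by
      rw [hG, mul_pow]
      have hK : h ^ K = h * h ^ (K - 1) := by
        rw [← pow_succ']
        congr 1
        have := S.hK
        omega
      rw [hK]
      unfold KSys.A
      ring
    have e3 : S.T j ^ (-(S.u j)) * S.T j ^ N = (S.T j ^ (S.u j - N))⁻¹ := by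
      rw [← Real.rpow_natCast, ← Real.rpow_add hTpos, ← Real.rpow_neg hTpos.le]
      congr 1
      ring
    have hTu : 0 < S.T j ^ (S.u j - N) := Real.rpow_pos_of_pos hTpos _
    calc |aeval x P - aeval (S.y j) P| * (2 * G)
        ≤ ((D : ℝ) + 1) ^ 2 * h * (S.C₁ * S.T j ^ (-(S.u j))) * (2 * G) :=
          mul_le_mul_of_nonneg_right e1 (by positivity)
      _ = (S.A * h ^ K) * (S.T j ^ (S.u j - N))⁻¹ := by rw [e2, e3]
      _ ≤ (S.T j ^ (S.u j - N)) * (S.T j ^ (S.u j - N))⁻¹ :=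
          mul_le_mul_of_nonneg_right hj (by positivity)
      _ = 1 := mul_inv_cancel₀ hTu.ne'
  have hPx : 1 ≤ |aeval x P| * (2 * G) := by
    have t1 : |aeval (S.y j) P| ≤ |aeval x P| + |aeval x P - aeval (S.y j) P| := by
      have := abs_sub_abs_le_abs_sub (aeval (S.y j) P) (aeval x P)
      rw [abs_sub_comm (aeval (S.y j) P) (aeval x P)] at this
      linarith
    nlinarith
  -- bound G
  have hGle : G ≤ ((D : ℝ) + 1) ^ (K - 1) * S.C₄ ^ N * (h ^ (K - 1) * h ^ (2 * K * N)) := by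
    have t2 : S.T j ^ N ≤ (S.C₄ * h ^ (2 * K)) ^ N := pow_le_pow_left₀ hTpos.le hj2 N
    calc G = (((D : ℝ) + 1) * h) ^ (K - 1) * S.T j ^ N := hG
      _ ≤ (((D : ℝ) + 1) * h) ^ (K - 1) * (S.C₄ * h ^ (2 * K)) ^ N :=
          mul_le_mul_of_nonneg_left t2 (by positivity)
      _ = ((D : ℝ) + 1) ^ (K - 1) * S.C₄ ^ N * (h ^ (K - 1) * h ^ (2 * K * N)) := by
          rw [mul_pow, mul_pow, pow_mul]; ring
  have hC₄ := S.C₄_pos
  have hhpos : 0 < h := by linarith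
  have hexp : h ^ (-Ω) ≤ (h ^ (K - 1) * h ^ (2 * K * N))⁻¹ := by
    rw [← pow_add, ← Real.rpow_natCast, ← Real.rpow_neg hhpos.le]
    apply Real.rpow_le_rpow_of_exponent_le h1
    have := S.hΩ
    have hK1 : ((K - 1 : ℕ) : ℝ) = (K : ℝ) - 1 := by
      rw [Nat.cast_sub S.hK]; simp
    push_cast [hK1]
    linarith
  set E : ℝ := ((D : ℝ) + 1) ^ (K - 1) * S.C₄ ^ N with hE
  have hEpos : 0 < E := by rw [hE]; positivity
  set F : ℝ := h ^ (K - 1) * h ^ (2 * K * N) with hF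
  have hFpos : 0 < F := by rw [hF]; positivity
  have h7 : 1 / (2 * ((D : ℝ) + 1) ^ (K - 1) * S.C₄ ^ N) = 1 / (2 * E) := by
    rw [hE]; ring
  rw [h7]
  have h8 : 1 ≤ |aeval x P| * (2 * (E * F)) :=
    hPx.trans (mul_le_mul_of_nonneg_left (by linarith) (abs_nonneg _))
  calc 1 / (2 * E) * h ^ (-Ω) ≤ 1 / (2 * E) * F⁻¹ :=
        mul_le_mul_of_nonneg_left hexp (by positivity)
    _ = 1 / (2 * (E * F)) := by
        field_simp
    _ ≤ |aeval x P| := by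
        rw [div_le_iff₀ (by positivity)]
        exact h8

theorem KSys.dvd_case (S : KSys D N K Ω x) (d : ℕ) (hd : d < D) (c : ℝ) (hc : 0 < c)
    (ih : ∀ P : ℤ[X], P ≠ 0 → P.natDegree ≤ d → ∀ h : ℝ, (∀ i, |(P.coeff i : ℝ)| ≤ h) →
      c * h ^ (-Ω) ≤ |aeval x P|)
    (P : ℤ[X]) (hP : P ≠ 0) (hD : P.natDegree ≤ d + 1)
    (h : ℝ) (hh : ∀ i, |(P.coeff i : ℝ)| ≤ h) (j : ℕ)
    (hdv : kR (S.a j) (S.b j) (S.κ j) ∣ P) :
    S.c₃ * c * ((D : ℝ) + 1) ^ (-Ω) * h ^ (-Ω) ≤ |aeval x P| := by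
  obtain ⟨Q, rfl⟩ := hdv
  have ha : 0 < S.a j := lt_of_lt_of_le (S.hb j) (S.hba j)
  have ha0 : (0 : ℝ) < S.a j := by exact_mod_cast ha
  have hQ : Q ≠ 0 := by rintro rfl; simp at hP
  have hR0 : kR (S.a j) (S.b j) (S.κ j) ≠ 0 := by
    intro h0; rw [h0] at hP; simp at hP
  have h1 := k_one_le _ hP h hh
  have hhpos : 0 < h := by linarith
  have hQdeg : Q.natDegree ≤ d := by
    rw [natDegree_mul hR0 hQ, kR_natDegree _ _ ha.ne' _ (S.hκ j)] at hD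
    have := S.hκ j
    omega
  have hfl : ∀ i, |(kR (S.a j) (S.b j) (S.κ j) * Q).coeff i| ≤ ⌊h⌋ := by
    intro i
    rw [Int.le_floor]
    have := hh i
    push_cast
    exact this
  have hQc : ∀ i, |(Q.coeff i : ℝ)| ≤ ((D : ℝ) + 1) * h / S.a j := by
    intro i
    rw [le_div_iff₀ ha0]
    have h2 := kR_mul_coeff_bound (S.a j) (S.b j) (S.hb j) (S.hba j) (S.κ j) (S.hκ j) Q ⌊h⌋
      hfl D (by omega) i
    have h3 : ((S.a j * |Q.coeff i| : ℤ) : ℝ) ≤ (((D + 1) * ⌊h⌋ : ℤ) : ℝ) := by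
      exact_mod_cast h2
    push_cast at h3
    have h4 : (⌊h⌋ : ℝ) ≤ h := Int.floor_le h
    have h5 : ((D : ℝ) + 1) * (⌊h⌋ : ℝ) ≤ ((D : ℝ) + 1) * h :=
      mul_le_mul_of_nonneg_left h4 (by positivity)
    linarith
  have h6 := ih Q hQ hQdeg _ hQc
  have h7 := S.hR j
  rw [map_mul, abs_mul]
  have hD1 : (0 : ℝ) < (D : ℝ) + 1 := by positivity
  have h8 : (((D : ℝ) + 1) * h / S.a j) ^ (-Ω) * (S.a j : ℝ) ^ (-Ω)
      = ((D : ℝ) + 1) ^ (-Ω) * h ^ (-Ω) := by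
    rw [← Real.mul_rpow (by positivity) ha0.le, ← Real.mul_rpow hD1.le hhpos.le]
    congr 1
    field_simp
  calc S.c₃ * c * ((D : ℝ) + 1) ^ (-Ω) * h ^ (-Ω)
      = (S.c₃ * (S.a j : ℝ) ^ (-Ω)) * (c * (((D : ℝ) + 1) * h / S.a j) ^ (-Ω)) := by
        rw [mul_assoc (S.c₃ * c), ← h8]; ring
    _ ≤ |aeval x (kR (S.a j) (S.b j) (S.κ j))| * |aeval x Q| := by
        apply mul_le_mul h7 h6 _ (abs_nonneg _)
        have : 0 ≤ (((D : ℝ) + 1) * h / S.a j) ^ (-Ω) := Real.rpow_nonneg (by positivity) _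
        positivity

theorem KSys.lower (S : KSys D N K Ω x) : ∀ d : ℕ, d ≤ D → ∃ c : ℝ, 0 < c ∧
    ∀ P : ℤ[X], P ≠ 0 → P.natDegree ≤ d → ∀ h : ℝ, (∀ i, |(P.coeff i : ℝ)| ≤ h) →
      c * h ^ (-Ω) ≤ |aeval x P| := by
  intro d
  induction d with
  | zero =>
    intro _
    refine ⟨1, one_pos, ?_⟩
    intro P hP hdeg h hh
    have h1 := k_one_le P hP h hh
    have hC : P = C (P.coeff 0) := eq_C_of_natDegree_le_zero hdeg
    have hne : P.coeff 0 ≠ 0 := by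
      intro h0; rw [h0] at hC; simp at hC; exact hP hC
    have h2 : (1 : ℝ) ≤ |(P.coeff 0 : ℝ)| := by exact_mod_cast Int.one_le_abs hne
    have h3 : aeval x P = (P.coeff 0 : ℝ) := by
      conv_lhs => rw [hC]
      simp
    rw [h3, one_mul]
    refine le_trans ?_ h2
    apply Real.rpow_le_one_of_one_le_of_nonpos h1
    have := S.hΩ
    have hK : (1 : ℝ) ≤ K := by exact_mod_cast S.hK
    have hN : (0 : ℝ) ≤ N := Nat.cast_nonneg N
    have : 0 ≤ 2 * (K : ℝ) * N := by positivity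
    linarith
  | succ d ih =>
    intro hd
    obtain ⟨c, hc, hind⟩ := ih (by omega)
    have hC₄ := S.C₄_pos
    have hc₃ := S.hc₃
    refine ⟨min (1 / (2 * ((D : ℝ) + 1) ^ (K - 1) * S.C₄ ^ N))
      (S.c₃ * c * ((D : ℝ) + 1) ^ (-Ω)), ?_, ?_⟩
    · apply lt_min
      · positivity
      · have : 0 < ((D : ℝ) + 1) ^ (-Ω) := Real.rpow_pos_of_pos (by positivity) _
        positivity
    · intro P hP hdeg h hh
      have h1 := k_one_le P hP h hh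
      have hpw : 0 ≤ h ^ (-Ω) := Real.rpow_nonneg (by linarith) _
      obtain ⟨j, hj1, hj2⟩ := S.select h h1
      by_cases hdv : kR (S.a j) (S.b j) (S.κ j) ∣ P
      · refine le_trans ?_ (S.dvd_case d (by omega) c hc hind P hP hdeg h hh j hdv)
        exact mul_le_mul_of_nonneg_right (min_le_right _ _) hpw
      · refine le_trans ?_ (S.notdvd P hP (hdeg.trans hd) h hh j hj1 hj2 hdv)
        exact mul_le_mul_of_nonneg_right (min_le_left _ _) hpw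

end Pool.Agent.H322R2
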