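import Pool.Agent.H322R2.KB

open Polynomial

namespace Pool.Agent.H322R2

theorem k_exists_num (lo hi : ℝ) (h0 : 0 ≤ lo) (h : lo + 12 ≤ hi) :
    ∃ p : ℕ, p % 12 = 2 ∧ lo ≤ p ∧ (p : ℝ) ≤ hi := by
  refine ⟨12 * ((⌈lo⌉₊ + 9) / 12) + 2, by omega, ?_, ?_⟩
  · have h1 : ⌈lo⌉₊ ≤ 12 * ((⌈lo⌉₊ + 9) / 12) + 2 := by omega
    calc lo ≤ (⌈lo⌉₊ : ℝ) := Nat.le_ceil lo
      _ ≤ _ := by exact_mod_cast h1
  · have h1 : 12 * ((⌈lo⌉₊ + 9) / 12) + 2 ≤ ⌈lo⌉₊ + 11 := by omega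
    have h2 : (⌈lo⌉₊ : ℝ) < lo + 1 := Nat.ceil_lt_add_one h0
    have h3 : ((12 * ((⌈lo⌉₊ + 9) / 12) + 2 : ℕ) : ℝ) ≤ (⌈lo⌉₊ : ℝ) + 11 := by exact_mod_cast h1
    linarith

/-- radius -/
noncomputable def kr (k : ℕ) (u : ℝ) (m : ℕ) : ℝ := (1 / (k : ℝ)) * ((3 : ℝ) ^ m) ^ (-u)

/-- state -/
structure KSt where
  x : ℝ
  m : ℕ
  p : ℕ

/-- validity of a state -/
def KV (k κ : ℕ) (u : ℝ) (s : KSt) : Prop :=
  1 / 2 ≤ s.x ∧ s.x + kr k u s.m ≤ 1 ∧ (3 : ℝ) ^ s.m * s.x ^ κ = s.p ∧ s.p % 12 = 2 ∧ 1 ≤ s.m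

theorem kr_pos (k : ℕ) (hk : 1 ≤ k) (u : ℝ) (m : ℕ) : 0 < kr k u m := by
  unfold kr
  have : (0 : ℝ) < k := by exact_mod_cast hk
  positivity

theorem kr_le (k : ℕ) (hk : 1 ≤ k) (u : ℝ) (hu : 1 ≤ u) (m : ℕ) :
    kr k u m ≤ ((3 : ℝ) ^ m)⁻¹ := by
  unfold kr
  have hk' : (1 : ℝ) ≤ k := by exact_mod_cast hk
  have h3 : (1 : ℝ) ≤ 3 ^ m := one_le_pow₀ (by norm_num)
  have h1 : ((3 : ℝ) ^ m) ^ (-u) ≤ ((3 : ℝ) ^ m) ^ (-(1 : ℝ)) :=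
    Real.rpow_le_rpow_of_exponent_le h3 (by linarith)
  rw [Real.rpow_neg_one] at h1
  have h2 : 1 / (k : ℝ) ≤ 1 := by
    rw [div_le_one (by linarith)]; exact hk'
  calc 1 / (k : ℝ) * ((3 : ℝ) ^ m) ^ (-u) ≤ 1 * ((3 : ℝ) ^ m)⁻¹ :=
        mul_le_mul h2 h1 (by positivity) (by norm_num)
    _ = _ := one_mul _

theorem k_step0 (k : ℕ) (hk : 1 ≤ k) (κ : ℕ) (hκ : 1 ≤ κ) (hκk : κ ≤ k) (u : ℝ) (hu : 1 ≤ u)
    (z X r : ℝ) (hX : 1 / 2 ≤ X) (hr : 0 < r) (hXr : X + r ≤ 1) :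
    ∃ s : KSt, KV k κ u s ∧ X + r / 2 ≤ s.x ∧ s.x + kr k u s.m ≤ X + r ∧
      (z < s.x ∨ s.x + kr k u s.m < z) ∧ 96 * 2 ^ k / r < (3 : ℝ) ^ s.m ∧
      (3 : ℝ) ^ s.m ≤ 288 * 2 ^ k / r := by
  have hr1 : r ≤ 1 := by linarith
  have h2k : (1 : ℝ) ≤ 2 ^ k := one_le_pow₀ (by norm_num)
  have hX1 : (1 : ℝ) ≤ 96 * 2 ^ k / r := by
    rw [le_div_iff₀ hr]; nlinarith
  obtain ⟨t, ht1, ht2⟩ := exists_nat_pow_near hX1 (show (1 : ℝ) < 3 by norm_num)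
  set m := t + 1 with hm
  set q : ℝ := (3 : ℝ) ^ m with hq
  have hqpos : 0 < q := by rw [hq]; positivity
  have hq2 : q ≤ 288 * 2 ^ k / r := by
    rw [hq, hm, pow_succ]
    calc (3 : ℝ) ^ t * 3 ≤ (96 * 2 ^ k / r) * 3 := mul_le_mul_of_nonneg_right ht1 (by norm_num)
      _ = 288 * 2 ^ k / r := by ring
  have hqr : 96 * 2 ^ k < q * r := by
    rw [div_lt_iff₀ hr] at ht2
    exact ht2
  -- base point
  obtain ⟨x₀, hx₀1, hx₀2, hx₀3⟩ : ∃ x₀ : ℝ, X + r / 2 ≤ x₀ ∧ x₀ ≤ X + 3 * r / 4 ∧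
      (z < x₀ ∨ x₀ + 3 * r / 16 < z) := by
    by_cases hz : z < X + 3 * r / 4
    · exact ⟨X + 3 * r / 4, by linarith, le_rfl, Or.inl hz⟩
    · push Not at hz
      exact ⟨X + r / 2, le_rfl, by linarith, Or.inr (by linarith)⟩
  have hx₀0 : 1 / 2 ≤ x₀ := by linarith
  -- numerator
  have hpw : x₀ ^ κ + (r / 8) * (1 / 2) ^ k ≤ (x₀ + r / 8) ^ κ := by
    obtain ⟨κ', rfl⟩ : ∃ κ', κ = κ' + 1 := ⟨κ - 1, by omega⟩
    have e1 : x₀ ^ κ' ≤ (x₀ + r / 8) ^ κ' := pow_le_pow_left₀ (by linarith) (by linarith) _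
    have e2 : (1 / 2 : ℝ) ^ k ≤ x₀ ^ κ' := by
      calc (1 / 2 : ℝ) ^ k ≤ (1 / 2 : ℝ) ^ κ' :=
            pow_le_pow_of_le_one (by norm_num) (by norm_num) (by omega)
        _ ≤ x₀ ^ κ' := pow_le_pow_left₀ (by norm_num) hx₀0 _
    calc x₀ ^ (κ' + 1) + (r / 8) * (1 / 2) ^ k ≤ x₀ ^ (κ' + 1) + (r / 8) * x₀ ^ κ' := by
          have := mul_le_mul_of_nonneg_left e2 (show 0 ≤ r / 8 by linarith)
          linarith
      _ = (x₀ + r / 8) * x₀ ^ κ' := by ring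
      _ ≤ (x₀ + r / 8) * (x₀ + r / 8) ^ κ' :=
          mul_le_mul_of_nonneg_left e1 (by linarith)
      _ = (x₀ + r / 8) ^ (κ' + 1) := by ring
  have hx₀κ : 0 ≤ x₀ ^ κ := by
    have : 0 ≤ x₀ := by linarith
    positivity
  obtain ⟨p, hp12, hplo, hphi⟩ := k_exists_num (q * x₀ ^ κ) (q * (x₀ + r / 8) ^ κ)
    (by positivity) (by
      have e3 : q * (x₀ ^ κ + (r / 8) * (1 / 2) ^ k) ≤ q * (x₀ + r / 8) ^ κ :=
        mul_le_mul_of_nonneg_left hpw hqpos.le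
      have e4 : 12 ≤ q * ((r / 8) * (1 / 2) ^ k) := by
        have e5 : q * ((r / 8) * (1 / 2) ^ k) = (q * r) * (1 / 2) ^ k / 8 := by ring
        have e6 : (96 * 2 ^ k) * (1 / 2 : ℝ) ^ k ≤ (q * r) * (1 / 2) ^ k :=
          mul_le_mul_of_nonneg_right hqr.le (by positivity)
        have e7 : (96 * 2 ^ k) * (1 / 2 : ℝ) ^ k = 96 := by
          rw [mul_assoc, ← mul_pow]; norm_num
        rw [e5]
        linarith
      linarith)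
  set α : ℝ := ((p : ℝ) / q) ^ ((κ : ℝ)⁻¹) with hα
  have hpq : 0 ≤ (p : ℝ) / q := by positivity
  have hα0 : 0 ≤ α := Real.rpow_nonneg hpq _
  have hακ : α ^ κ = (p : ℝ) / q := Real.rpow_inv_natCast_pow hpq (by omega)
  have hαlo : x₀ ≤ α := by
    rw [← pow_le_pow_iff_left₀ (by linarith) hα0 (show κ ≠ 0 by omega), hακ,
      le_div_iff₀ hqpos]
    linarith
  have hαhi : α ≤ x₀ + r / 8 := by
    rw [← pow_le_pow_iff_left₀ hα0 (by linarith) (show κ ≠ 0 by omega), hακ,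
      div_le_iff₀ hqpos]
    linarith
  have hr' : kr k u m ≤ r / 16 := by
    refine (kr_le k hk u hu m).trans ?_
    rw [inv_le_comm₀ hqpos (by positivity)]
    rw [inv_div]
    rw [div_le_iff₀ hr]
    nlinarith
  have hrpos := kr_pos k hk u m
  refine ⟨⟨α, m, p⟩, ⟨by linarith, by simp only; linarith, ?_, hp12, by simp only; omega⟩,
    by simp only; linarith, by simp only; linarith, ?_, ht2, hq2⟩
  · change q * α ^ κ = (p : ℝ)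
    rw [hακ]
    field_simp
  · simp only
    rcases hx₀3 with h | h
    · left; linarith
    · right; linarith

/-- relation between successive states -/
def KRel (k : ℕ) (u u' z : ℝ) (s s' : KSt) : Prop :=
  s.x + kr k u s.m / 2 ≤ s'.x ∧ s'.x + kr k u' s'.m ≤ s.x + kr k u s.m ∧
    (z < s'.x ∨ s'.x + kr k u' s'.m < z) ∧ s.m < s'.m ∧
    (3 : ℝ) ^ s'.m ≤ 288 * 2 ^ k * k * ((3 : ℝ) ^ s.m) ^ u

theorem k_step (k : ℕ) (hk : 1 ≤ k) (κ : ℕ) (u : ℝ) (hu : 1 ≤ u) (s : KSt) (hs : KV k κ u s)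
    (κ' : ℕ) (hκ' : 1 ≤ κ') (hκk' : κ' ≤ k) (u' : ℝ) (hu' : 1 ≤ u') (z : ℝ) :
    ∃ s' : KSt, KV k κ' u' s' ∧ KRel k u u' z s s' := by
  obtain ⟨hs1, hs2, hs3, hs4, hs5⟩ := hs
  have hr := kr_pos k hk u s.m
  obtain ⟨s', hV, h1, h2, h3, h4, h5⟩ := k_step0 k hk κ' hκ' hκk' u' hu' z s.x (kr k u s.m)
    hs1 hr hs2
  refine ⟨s', hV, h1, h2, h3, ?_, ?_⟩
  · have h6 : (3 : ℝ) ^ s.m < (3 : ℝ) ^ s'.m := by
      refine lt_of_le_of_lt ?_ h4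
      rw [le_div_iff₀ hr]
      have h7 := kr_le k hk u hu s.m
      have h8 : (3 : ℝ) ^ s.m * kr k u s.m ≤ (3 : ℝ) ^ s.m * ((3 : ℝ) ^ s.m)⁻¹ :=
        mul_le_mul_of_nonneg_left h7 (by positivity)
      rw [mul_inv_cancel₀ (by positivity)] at h8
      have h2k : (1 : ℝ) ≤ 2 ^ k := one_le_pow₀ (by norm_num)
      linarith
    exact (pow_lt_pow_iff_right₀ (by norm_num : (1 : ℝ) < 3)).mp h6
  · refine h5.trans (le_of_eq ?_)
    have hk0 : (k : ℝ) ≠ 0 := by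
      have : (1 : ℝ) ≤ k := by exact_mod_cast hk
      linarith
    have h9 : (0 : ℝ) < ((3 : ℝ) ^ s.m) ^ u := Real.rpow_pos_of_pos (by positivity) _
    unfold kr
    rw [Real.rpow_neg (by positivity)]
    field_simp

theorem k_dep {S : Type*} (V : ℕ → S → Prop) (R : ℕ → S → S → Prop) (s₀ : S) (h₀ : V 0 s₀)
    (hstep : ∀ j s, V j s → ∃ s', V (j + 1) s' ∧ R j s s') :
    ∃ f : ℕ → S, ∀ j, V j (f j) ∧ R j (f j) (f (j + 1)) := by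
  classical
  choose g hg1 hg2 using hstep
  let F : (j : ℕ) → {s : S // V j s} := fun j =>
    Nat.rec (motive := fun j => {s : S // V j s}) ⟨s₀, h₀⟩
      (fun j p => ⟨g j p.1 p.2, hg1 j p.1 p.2⟩) j
  refine ⟨fun j => (F j).1, fun j => ⟨(F j).2, ?_⟩⟩
  exact hg2 j (F j).1 (F j).2

theorem k_seq (k : ℕ) (hk : 1 ≤ k) (κ : ℕ → ℕ) (hκ : ∀ j, 1 ≤ κ j) (hκk : ∀ j, κ j ≤ k)
    (u : ℕ → ℝ) (hu : ∀ j, 1 ≤ u j) (z : ℕ → ℝ) :
    ∃ (s : ℕ → KSt) (ξ : ℝ), ∀ j, KV k (κ j) (u j) (s j) ∧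
      (s j).x + kr k (u j) (s j).m / 2 ≤ ξ ∧ ξ ≤ (s j).x + kr k (u j) (s j).m ∧ ξ ≠ z j ∧
      j < (s j).m ∧ (3 : ℝ) ^ (s (j + 1)).m ≤ 288 * 2 ^ k * k * ((3 : ℝ) ^ (s j).m) ^ (u j) := by
  obtain ⟨s₀, hs₀, -⟩ := k_step0 k hk (κ 0) (hκ 0) (hκk 0) (u 0) (hu 0) 0 (1 / 2) (1 / 2)
    le_rfl (by norm_num) (by norm_num)
  obtain ⟨s, hs⟩ := k_dep (fun j s => KV k (κ j) (u j) s)
    (fun j s s' => KRel k (u j) (u (j + 1)) (z j) s s') s₀ hs₀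
    (fun j s hV => k_step k hk (κ j) (u j) (hu j) s hV (κ (j + 1)) (hκ _) (hκk _) (u (j + 1))
      (hu _) (z j))
  have hrpos : ∀ j, 0 < kr k (u j) (s j).m := fun j => kr_pos k hk _ _
  have hmono : Monotone (fun j => (s j).x) := by
    apply monotone_nat_of_le_succ
    intro j
    have := (hs j).2.1
    have := hrpos j
    linarith
  have hanti : Antitone (fun j => (s j).x + kr k (u j) (s j).m) := by
    apply antitone_nat_of_succ_le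
    intro j
    exact (hs j).2.2.1
  have hcross : ∀ i j, (s i).x ≤ (s j).x + kr k (u j) (s j).m := by
    intro i j
    rcases le_total i j with h | h
    · have h1 : (s i).x ≤ (s j).x := hmono h
      have := hrpos j
      linarith
    · have h1 : (s i).x + kr k (u i) (s i).m ≤ (s j).x + kr k (u j) (s j).m := hanti h
      have := hrpos i
      linarith
  have hbdd : BddAbove (Set.range (fun j => (s j).x)) := by
    refine ⟨(s 0).x + kr k (u 0) (s 0).m, ?_⟩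
    rintro _ ⟨i, rfl⟩
    exact hcross i 0
  have hle : ∀ j, (s j).x ≤ ⨆ j, (s j).x := fun j => le_ciSup hbdd j
  have hge : ∀ j, (⨆ j, (s j).x) ≤ (s j).x + kr k (u j) (s j).m :=
    fun j => ciSup_le (fun i => hcross i j)
  have hm : ∀ j, j < (s j).m := by
    intro j
    induction j with
    | zero => exact (hs 0).1.2.2.2.2
    | succ j ih =>
      have := (hs j).2.2.2.2.1
      omega
  refine ⟨s, ⨆ j, (s j).x, fun j => ⟨(hs j).1, ?_, hge j, ?_, hm j, (hs j).2.2.2.2.2⟩⟩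
  · exact (hs j).2.1.trans (hle (j + 1))
  · rcases (hs j).2.2.2.1 with h | h
    · have := hle (j + 1)
      exact (lt_of_lt_of_le h this).ne'
    · have := hge (j + 1)
      exact (lt_of_le_of_lt this h).ne

end Pool.Agent.H322R2
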