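import Pool.Agent.H322R2.KC

open Polynomial

namespace Pool.Agent.H322R2

theorem k_pow_lower (k e : ℕ) (he : 1 ≤ e) (hek : e ≤ k) (x ξ : ℝ) (hx : 1 / 2 ≤ x)
    (hξ : x ≤ ξ) : (ξ - x) * (1 / 2) ^ k ≤ ξ ^ e - x ^ e := by
  obtain ⟨e', rfl⟩ : ∃ e', e = e' + 1 := ⟨e - 1, by omega⟩
  have e1 : x ^ e' ≤ ξ ^ e' := pow_le_pow_left₀ (by linarith) hξ _
  have e2 : (1 / 2 : ℝ) ^ k ≤ x ^ e' := by
    calc (1 / 2 : ℝ) ^ k ≤ (1 / 2 : ℝ) ^ e' :=
          pow_le_pow_of_le_one (by norm_num) (by norm_num) (by omega)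
      _ ≤ x ^ e' := pow_le_pow_left₀ (by norm_num) hx _
  have e3 : ξ * x ^ e' ≤ ξ * ξ ^ e' := mul_le_mul_of_nonneg_left e1 (by linarith)
  have e4 : (ξ - x) * (1 / 2) ^ k ≤ (ξ - x) * x ^ e' :=
    mul_le_mul_of_nonneg_left e2 (by linarith)
  calc (ξ - x) * (1 / 2) ^ k ≤ (ξ - x) * x ^ e' := e4
    _ = ξ * x ^ e' - x ^ (e' + 1) := by ring
    _ ≤ ξ * ξ ^ e' - x ^ (e' + 1) := by linarith
    _ = ξ ^ (e' + 1) - x ^ (e' + 1) := by ring

theorem k_p_le (k κ : ℕ) (hk : 1 ≤ k) (u : ℝ) (s : KSt) (hs : KV k κ u s) : s.p ≤ 3 ^ s.m := by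
  obtain ⟨h1, h2, h3, h4, h5⟩ := hs
  have hr := kr_pos k hk u s.m
  have hx : s.x ^ κ ≤ 1 := pow_le_one₀ (by linarith) (by linarith)
  have h6 : (s.p : ℝ) ≤ (3 : ℝ) ^ s.m := by
    rw [← h3]
    calc (3 : ℝ) ^ s.m * s.x ^ κ ≤ (3 : ℝ) ^ s.m * 1 :=
          mul_le_mul_of_nonneg_left hx (by positivity)
      _ = _ := mul_one _
  exact_mod_cast h6

theorem k_lt_three (m : ℕ) : (m : ℝ) ≤ (3 : ℝ) ^ m := by
  have : m < 3 ^ m := Nat.lt_pow_self (by norm_num)
  exact_mod_cast this.le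

/-- side `ξ` -/
noncomputable def kSysXi (n k : ℕ) (hn : 1 ≤ n) (hk : 2 ≤ k) (W V : ℝ)
    (hW : 2 * (k : ℝ) * ((k * n : ℕ) : ℝ) + k ≤ W) (hWV : W ≤ V)
    (κ : ℕ → ℕ) (u : ℕ → ℝ) (hκ1 : ∀ j, 1 ≤ κ j) (hκk : ∀ j, κ j ≤ k)
    (hu1 : ∀ j, W + 1 ≤ u j) (hu2 : ∀ j, u j ≤ V + 1)
    (s : ℕ → KSt) (ξ : ℝ) (hV : ∀ j, KV k (κ j) (u j) (s j))
    (hl : ∀ j, (s j).x + kr k (u j) (s j).m / 2 ≤ ξ)
    (hr : ∀ j, ξ ≤ (s j).x + kr k (u j) (s j).m)
    (hm : ∀ j, j < (s j).m)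
    (hnx : ∀ j, (3 : ℝ) ^ (s (j + 1)).m ≤ 288 * 2 ^ k * k * ((3 : ℝ) ^ (s j).m) ^ (u j)) :
    KSys (k * n) (k * n) k V ξ where
  T := fun j => (3 : ℝ) ^ (s j).m
  a := fun j => (3 : ℤ) ^ (s j).m
  b := fun j => ((s j).p : ℤ)
  κ := κ
  y := fun j => (s j).x
  u := u
  C₁ := 1
  C₂ := 288 * 2 ^ k * k
  c₃ := 1 / (k : ℝ) / 2 * (1 / 2) ^ k
  hC₁ := le_rfl
  hC₂ := by
    have : (0 : ℝ) < k := by exact_mod_cast (by omega : 0 < k)
    positivity
  hc₃ := by
    have : (0 : ℝ) < k := by exact_mod_cast (by omega : 0 < k)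
    positivity
  hx0 := by
    have h1 := (hV 0).1
    have h2 := hl 0
    have h3 := kr_pos k (by omega) (u 0) (s 0).m
    linarith
  hx1 := (hr 0).trans (hV 0).2.1
  hT1 := fun j => one_le_pow₀ (by norm_num)
  hTj := fun j => by
    have h1 := k_lt_three (s j).m
    have h2 : (j : ℝ) ≤ (s j).m := by exact_mod_cast (hm j).le
    linarith
  hb := fun j => by
    have := (hV j).2.2.2.1
    omega
  hba := fun j => by
    have := k_p_le k (κ j) (by omega) (u j) (s j) (hV j)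
    exact_mod_cast this
  hκ := hκ1
  hκK := hκk
  hirr := fun j => kR_irr (s j).m (hV j).2.2.2.2 (s j).p (hV j).2.2.2.1 (κ j) (hκ1 j)
  hy0 := fun j => by have := (hV j).1; linarith
  hy := fun j => by
    have := (hV j).2.2.1
    push_cast
    exact this
  hclose := fun j => by
    have h1 := hl j
    have h2 := hr j
    have h3 := kr_pos k (by omega) (u j) (s j).m
    rw [abs_of_nonneg (by linarith), one_mul]
    have hk' : (1 : ℝ) ≤ k := by exact_mod_cast (by omega : 1 ≤ k)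
    have h4 : kr k (u j) (s j).m ≤ ((3 : ℝ) ^ (s j).m) ^ (-(u j)) := by
      unfold kr
      have h5 : 1 / (k : ℝ) ≤ 1 := by
        rw [div_le_one (by linarith)]; exact hk'
      calc 1 / (k : ℝ) * ((3 : ℝ) ^ (s j).m) ^ (-(u j))
          ≤ 1 * ((3 : ℝ) ^ (s j).m) ^ (-(u j)) :=
            mul_le_mul_of_nonneg_right h5 (by positivity)
        _ = _ := one_mul _
    linarith
  haT := fun j => by push_cast; exact le_rfl
  hnext := hnx
  hu := fun j => by
    have h1 := hu1 j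
    have hk' : (1 : ℝ) ≤ k := by exact_mod_cast (by omega : 1 ≤ k)
    have hN : (0 : ℝ) ≤ ((k * n : ℕ) : ℝ) := Nat.cast_nonneg _
    nlinarith
  hR := fun j => by
    have hx := (hV j).1
    have h1 := hl j
    have h3 := kr_pos k (by omega) (u j) (s j).m
    have h4 := k_pow_lower k (κ j) (hκ1 j) (hκk j) (s j).x ξ hx (by linarith)
    have hT : (0 : ℝ) < (3 : ℝ) ^ (s j).m := by positivity
    have hT1 : (1 : ℝ) ≤ (3 : ℝ) ^ (s j).m := one_le_pow₀ (by norm_num)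
    rw [kR_aeval]
    push_cast
    rw [← (hV j).2.2.1, ← mul_sub, abs_mul, abs_of_pos hT]
    have h5 : (kr k (u j) (s j).m / 2) * (1 / 2) ^ k ≤ |ξ ^ κ j - (s j).x ^ κ j| := by
      refine le_trans ?_ (le_abs_self _)
      refine le_trans ?_ h4
      apply mul_le_mul_of_nonneg_right _ (by positivity)
      linarith
    refine le_trans ?_ (mul_le_mul_of_nonneg_left h5 hT.le)
    unfold kr
    have h6 : ((3 : ℝ) ^ (s j).m) ^ (-V) ≤ (3 : ℝ) ^ (s j).m * ((3 : ℝ) ^ (s j).m) ^ (-(u j)) := by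
      have : (3 : ℝ) ^ (s j).m * ((3 : ℝ) ^ (s j).m) ^ (-(u j))
          = ((3 : ℝ) ^ (s j).m) ^ (1 + -(u j)) := by
        rw [Real.rpow_add hT, Real.rpow_one]
      rw [this]
      apply Real.rpow_le_rpow_of_exponent_le hT1
      have := hu2 j
      linarith
    have hk' : (0 : ℝ) < k := by exact_mod_cast (by omega : 0 < k)
    calc 1 / (k : ℝ) / 2 * (1 / 2) ^ k * ((3 : ℝ) ^ (s j).m) ^ (-V)
        ≤ 1 / (k : ℝ) / 2 * (1 / 2) ^ k *
          ((3 : ℝ) ^ (s j).m * ((3 : ℝ) ^ (s j).m) ^ (-(u j))) :=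
          mul_le_mul_of_nonneg_left h6 (by positivity)
      _ = _ := by ring
  hΩ := by
    have hk' : (1 : ℝ) ≤ k := by exact_mod_cast (by omega : 1 ≤ k)
    linarith
  hN := Nat.mul_pos (by omega) hn
  hK := by omega

/-- side `ξ ^ k` -/
noncomputable def kSysEta (n k : ℕ) (hn : 1 ≤ n) (hk : 2 ≤ k) (W : ℝ)
    (hW : 2 * (k : ℝ) * ((k * n : ℕ) : ℝ) + k ≤ W)
    (κ : ℕ → ℕ) (σ : ℕ → ℕ) (u : ℕ → ℝ)
    (hκσ : ∀ j, κ j * σ j = k)
    (hu1 : ∀ j, W + 1 ≤ u j) (hu2 : ∀ j, u j ≤ σ j * (W + 1))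
    (s : ℕ → KSt) (ξ : ℝ) (hV : ∀ j, KV k (κ j) (u j) (s j))
    (hl : ∀ j, (s j).x + kr k (u j) (s j).m / 2 ≤ ξ)
    (hr : ∀ j, ξ ≤ (s j).x + kr k (u j) (s j).m)
    (hm : ∀ j, j < (s j).m)
    (hnx : ∀ j, (3 : ℝ) ^ (s (j + 1)).m ≤ 288 * 2 ^ k * k * ((3 : ℝ) ^ (s j).m) ^ (u j)) :
    KSys n (k * n) 1 W (ξ ^ k) where
  T := fun j => (3 : ℝ) ^ (s j).m
  a := fun j => ((3 : ℤ) ^ (s j).m) ^ σ j
  b := fun j => ((s j).p : ℤ) ^ σ j
  κ := fun _ => 1
  y := fun j => (s j).x ^ k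
  u := u
  C₁ := 1
  C₂ := 288 * 2 ^ k * k
  c₃ := 1 / (k : ℝ) / 2 * (1 / 2) ^ k
  hC₁ := le_rfl
  hC₂ := by
    have : (0 : ℝ) < k := by exact_mod_cast (by omega : 0 < k)
    positivity
  hc₃ := by
    have : (0 : ℝ) < k := by exact_mod_cast (by omega : 0 < k)
    positivity
  hx0 := by
    have h1 := (hV 0).1
    have h2 := hl 0
    have h3 := kr_pos k (by omega) (u 0) (s 0).m
    have : 0 ≤ ξ := by linarith
    positivity
  hx1 := by
    have h1 := (hV 0).1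
    have h2 := hl 0
    have h3 := kr_pos k (by omega) (u 0) (s 0).m
    exact pow_le_one₀ (by linarith) ((hr 0).trans (hV 0).2.1)
  hT1 := fun j => one_le_pow₀ (by norm_num)
  hTj := fun j => by
    have h1 := k_lt_three (s j).m
    have h2 : (j : ℝ) ≤ (s j).m := by exact_mod_cast (hm j).le
    linarith
  hb := fun j => by
    have : 0 < ((s j).p : ℤ) := by
      have := (hV j).2.2.2.1
      omega
    positivity
  hba := fun j => by
    have := k_p_le k (κ j) (by omega) (u j) (s j) (hV j)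
    have h2 : ((s j).p : ℤ) ≤ (3 : ℤ) ^ (s j).m := by exact_mod_cast this
    exact pow_le_pow_left₀ (by positivity) h2 _
  hκ := fun _ => le_rfl
  hκK := fun _ => le_rfl
  hirr := fun j => by
    apply kR_irr_one _ _ (by positivity)
    apply IsCoprime.pow
    apply IsCoprime.pow_left
    rw [Int.isCoprime_iff_gcd_eq_one]
    have h3p : ¬ (3 : ℕ) ∣ (s j).p := by
      have := (hV j).2.2.2.1
      omega
    have := (Nat.Prime.coprime_iff_not_dvd Nat.prime_three).mpr h3p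
    exact_mod_cast this
  hy0 := fun j => by
    have := (hV j).1
    have : 0 ≤ (s j).x := by linarith
    positivity
  hy := fun j => by
    have h1 := (hV j).2.2.1
    push_cast
    have e : ((s j).x ^ κ j) ^ σ j = (s j).x ^ k := by rw [← pow_mul, hκσ j]
    rw [← h1, pow_one, mul_pow, e]
  hclose := fun j => by
    have h0 := (hV j).1
    have h1 := hl j
    have h2 := hr j
    have h3 := kr_pos k (by omega) (u j) (s j).m
    have hk' : (0 : ℝ) < k := by exact_mod_cast (by omega : 0 < k)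
    have hξ1 := (hr 0).trans (hV 0).2.1
    have h4 := k_pow_diff ξ (s j).x (by rw [abs_of_nonneg (by linarith)]; exact hξ1)
      (by rw [abs_of_nonneg (by linarith)]; linarith) k
    refine h4.trans ?_
    rw [abs_of_nonneg (by linarith), one_mul]
    have h5 : ξ - (s j).x ≤ kr k (u j) (s j).m := by linarith
    refine (mul_le_mul_of_nonneg_left h5 hk'.le).trans (le_of_eq ?_)
    unfold kr
    field_simp
  haT := fun j => by
    have hσ : σ j ≤ k := by
      rcases Nat.eq_zero_or_pos (κ j) with h | h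
      · have := hκσ j
        rw [h] at this
        omega
      · have := hκσ j
        nlinarith
    push_cast
    rw [← pow_mul]
    apply pow_le_pow_right₀ (one_le_pow₀ (by norm_num))
    exact Nat.mul_le_mul_right _ hσ
  hnext := hnx
  hu := fun j => by
    have h1 := hu1 j
    have hk' : (1 : ℝ) ≤ k := by exact_mod_cast (by omega : 1 ≤ k)
    have hN : (0 : ℝ) ≤ ((k * n : ℕ) : ℝ) := Nat.cast_nonneg _
    nlinarith
  hR := fun j => by
    have hx := (hV j).1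
    have h1 := hl j
    have h3 := kr_pos k (by omega) (u j) (s j).m
    have h4 := k_pow_lower k k (by omega) le_rfl (s j).x ξ hx (by linarith)
    have hT : (0 : ℝ) < (3 : ℝ) ^ (s j).m := by positivity
    have hT1 : (1 : ℝ) ≤ (3 : ℝ) ^ (s j).m := one_le_pow₀ (by norm_num)
    rw [kR_aeval]
    push_cast
    set T : ℝ := (3 : ℝ) ^ (s j).m with hTdef
    have hTs : (0 : ℝ) < T ^ σ j := by positivity
    have hb' : ((s j).p : ℝ) ^ σ j = T ^ σ j * (s j).x ^ k := by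
      have e : ((s j).x ^ κ j) ^ σ j = (s j).x ^ k := by rw [← pow_mul, hκσ j]
      rw [← (hV j).2.2.1, mul_pow, e]
    rw [hb', pow_one, ← mul_sub, abs_mul, abs_of_pos hTs]
    have h5 : (kr k (u j) (s j).m / 2) * (1 / 2) ^ k ≤ |ξ ^ k - (s j).x ^ k| := by
      refine le_trans ?_ (le_abs_self _)
      refine le_trans ?_ h4
      apply mul_le_mul_of_nonneg_right _ (by positivity)
      linarith
    refine le_trans ?_ (mul_le_mul_of_nonneg_left h5 hTs.le)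
    unfold kr
    rw [← hTdef]
    have h6 : (T ^ σ j) ^ (-W) ≤ T ^ σ j * T ^ (-(u j)) := by
      rw [← Real.rpow_natCast T (σ j), ← Real.rpow_mul hT.le, ← Real.rpow_add hT]
      apply Real.rpow_le_rpow_of_exponent_le hT1
      have := hu2 j
      linarith
    have hk' : (0 : ℝ) < k := by exact_mod_cast (by omega : 0 < k)
    calc 1 / (k : ℝ) / 2 * (1 / 2) ^ k * (T ^ σ j) ^ (-W)
        ≤ 1 / (k : ℝ) / 2 * (1 / 2) ^ k * (T ^ σ j * T ^ (-(u j))) :=
          mul_le_mul_of_nonneg_left h6 (by positivity)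
      _ = _ := by ring
  hΩ := by
    have hk' : (1 : ℝ) ≤ k := by exact_mod_cast (by omega : 1 ≤ k)
    have hN : (0 : ℝ) ≤ ((k * n : ℕ) : ℝ) := Nat.cast_nonneg _
    push_cast at hN hW ⊢
    nlinarith
  hN := Nat.mul_pos (by omega) hn
  hK := le_rfl

theorem k_main (n k : ℕ) (hn : 1 ≤ n) (hk : 2 ≤ k) (W V : ℝ)
    (hW : 2 * (k : ℝ) * ((k * n : ℕ) : ℝ) + k ≤ W) (hWV : W ≤ V)
    (hVW : V + 1 ≤ k * (W + 1)) :
    ∃ ξ : ℝ, Transcendental ℤ ξ ∧ 0 ≤ ξ ∧ ξ ≤ 1 ∧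
      (∃ c : ℝ, 0 < c ∧ ∀ P : ℤ[X], P ≠ 0 → P.natDegree ≤ k * n → ∀ h : ℝ,
        (∀ i, |(P.coeff i : ℝ)| ≤ h) → c * h ^ (-V) ≤ |aeval ξ P|) ∧
      (∃ c : ℝ, 0 < c ∧ ∀ P : ℤ[X], P ≠ 0 → P.natDegree ≤ n → ∀ h : ℝ,
        (∀ i, |(P.coeff i : ℝ)| ≤ h) → c * h ^ (-W) ≤ |aeval (ξ ^ k) P|) ∧
      (∀ M : ℕ, ∃ m p : ℕ, M < m ∧ p % 12 = 2 ∧ p ≤ 3 ^ m ∧ 0 < ξ - p / 3 ^ m ∧
        ξ - p / 3 ^ m ≤ ((3 : ℝ) ^ m) ^ (-V - 1)) ∧
      (∀ M : ℕ, ∃ m p : ℕ, M < m ∧ p % 12 = 2 ∧ p ≤ 3 ^ m ∧ 0 < ξ ^ k - p / 3 ^ m ∧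
        ξ ^ k - p / 3 ^ m ≤ ((3 : ℝ) ^ m) ^ (-W - 1)) := by
  classical
  have hk' : (1 : ℝ) ≤ k := by exact_mod_cast (by omega : 1 ≤ k)
  have hN0 : (0 : ℝ) ≤ ((k * n : ℕ) : ℝ) := Nat.cast_nonneg _
  have hW0 : 0 ≤ W := by nlinarith
  obtain ⟨z, hz⟩ := (Algebraic.countable ℤ ℝ).exists_eq_range ⟨0, isAlgebraic_zero⟩
  set κ : ℕ → ℕ := fun j => if Even j then k else 1 with hκ
  set σ : ℕ → ℕ := fun j => if Even j then 1 else k with hσ
  set u : ℕ → ℝ := fun j => if Even j then W + 1 else V + 1 with hu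
  have hκ1 : ∀ j, 1 ≤ κ j := by
    intro j; simp only [hκ]; split_ifs <;> omega
  have hκk : ∀ j, κ j ≤ k := by
    intro j; simp only [hκ]; split_ifs <;> omega
  have hκσ : ∀ j, κ j * σ j = k := by
    intro j; simp only [hκ, hσ]; split_ifs <;> ring
  have hu1 : ∀ j, W + 1 ≤ u j := by
    intro j; simp only [hu]; split_ifs <;> linarith
  have hu2 : ∀ j, u j ≤ V + 1 := by
    intro j; simp only [hu]; split_ifs <;> linarith
  have hu3 : ∀ j, u j ≤ σ j * (W + 1) := by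
    intro j; simp only [hu, hσ]; split_ifs
    · push_cast; linarith
    · exact hVW
  have hu4 : ∀ j, 1 ≤ u j := fun j => by have := hu1 j; linarith
  obtain ⟨s, ξ, hs⟩ := k_seq k (by omega) κ hκ1 hκk u hu4 z
  have hV : ∀ j, KV k (κ j) (u j) (s j) := fun j => (hs j).1
  have hl : ∀ j, (s j).x + kr k (u j) (s j).m / 2 ≤ ξ := fun j => (hs j).2.1
  have hr : ∀ j, ξ ≤ (s j).x + kr k (u j) (s j).m := fun j => (hs j).2.2.1
  have hne : ∀ j, ξ ≠ z j := fun j => (hs j).2.2.2.1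
  have hm : ∀ j, j < (s j).m := fun j => (hs j).2.2.2.2.1
  have hnx := fun j => (hs j).2.2.2.2.2
  have S1 := kSysXi n k hn hk W V hW hWV κ u hκ1 hκk hu1 hu2 s ξ hV hl hr hm hnx
  have S2 := kSysEta n k hn hk W hW κ σ u hκσ hu1 hu3 s ξ hV hl hr hm hnx
  have hrpos : ∀ j, 0 < kr k (u j) (s j).m := fun j => kr_pos k (by omega) _ _
  refine ⟨ξ, ?_, S1.hx0, S1.hx1, S1.lower (k * n) le_rfl, S2.lower n le_rfl, ?_, ?_⟩
  · intro halg
    have : ξ ∈ {x : ℝ | IsAlgebraic ℤ x} := halg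
    rw [hz] at this
    obtain ⟨j, hj⟩ := this
    exact hne j hj.symm
  · intro M
    set j := 2 * M + 1 with hj
    have hodd : ¬ Even j := by rw [hj]; simp
    have h3 : (3 : ℝ) ^ (s j).m * (s j).x ^ κ j = (s j).p := (hV j).2.2.1
    have hκj : κ j = 1 := by simp only [hκ]; rw [if_neg hodd]
    have huj : u j = V + 1 := by simp only [hu]; rw [if_neg hodd]
    rw [hκj, pow_one] at h3
    have hx : (s j).x = (s j).p / 3 ^ (s j).m := by
      rw [eq_div_iff (by positivity)]; linarith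
    refine ⟨(s j).m, (s j).p, by have := hm j; omega, (hV j).2.2.2.1,
      k_p_le k (κ j) (by omega) (u j) (s j) (hV j), ?_, ?_⟩
    · rw [← hx]
      have h1 := hl j
      have h2 := hrpos j
      linarith
    · rw [← hx]
      have h1 := hr j
      have h4 := S1.hclose
      have h5 : kr k (u j) (s j).m ≤ ((3 : ℝ) ^ (s j).m) ^ (-V - 1) := by
        unfold kr
        rw [huj]
        have h5 : 1 / (k : ℝ) ≤ 1 := by
          rw [div_le_one (by linarith)]; exact hk'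
        calc 1 / (k : ℝ) * ((3 : ℝ) ^ (s j).m) ^ (-(V + 1))
            ≤ 1 * ((3 : ℝ) ^ (s j).m) ^ (-(V + 1)) :=
              mul_le_mul_of_nonneg_right h5 (by positivity)
          _ = _ := by rw [one_mul]; congr 1; ring
      linarith
  · intro M
    set j := 2 * M + 2 with hj
    have heven : Even j := by rw [hj]; exact ⟨M + 1, by ring⟩
    have h3 : (3 : ℝ) ^ (s j).m * (s j).x ^ κ j = (s j).p := (hV j).2.2.1
    have hκj : κ j = k := by simp only [hκ]; rw [if_pos heven]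
    have huj : u j = W + 1 := by simp only [hu]; rw [if_pos heven]
    rw [hκj] at h3
    have hx : (s j).x ^ k = (s j).p / 3 ^ (s j).m := by
      rw [eq_div_iff (by positivity)]; linarith
    have h0 := (hV j).1
    have h1 := hl j
    have h2 := hrpos j
    have h4 := hr j
    refine ⟨(s j).m, (s j).p, by have := hm j; omega, (hV j).2.2.2.1,
      k_p_le k (κ j) (by omega) (u j) (s j) (hV j), ?_, ?_⟩
    · rw [← hx]
      have h5 := k_pow_lower k k (by omega) le_rfl (s j).x ξ h0 (by linarith)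
      have h6 : 0 < (ξ - (s j).x) * (1 / 2) ^ k := by
        apply mul_pos (by linarith) (by positivity)
      linarith
    · rw [← hx]
      have hξ1 := (hr 0).trans (hV 0).2.1
      have h5 := k_pow_diff ξ (s j).x (by rw [abs_of_nonneg (by linarith)]; exact hξ1)
        (by rw [abs_of_nonneg (by linarith)]; linarith) k
      refine (le_abs_self _).trans (h5.trans ?_)
      rw [abs_of_nonneg (by linarith)]
      have h7 : ξ - (s j).x ≤ kr k (u j) (s j).m := by linarith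
      refine (mul_le_mul_of_nonneg_left h7 (by linarith)).trans (le_of_eq ?_)
      unfold kr
      rw [huj, ← mul_assoc, mul_one_div_cancel (by linarith), one_mul]
      congr 1
      ring

end Pool.Agent.H322R2
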