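import Pool.Agent.H322R2.Box

/-!
Counting in sublattices of a box.
-/

open Finset

namespace Pool.Agent.H322R2

section

variable {ι : Type*} [Fintype ι] [DecidableEq ι]

open Classical in
/-- lattice points in a box -/
noncomputable def VB (Λ : AddSubgroup (ι → ℤ)) (H : ℕ) : Finset (ι → ℤ) :=
  (Bx ι H).filter (fun c => c ∈ Λ)

lemma mem_VB {Λ : AddSubgroup (ι → ℤ)} {H : ℕ} {c : ι → ℤ} :
    c ∈ VB Λ H ↔ c ∈ Bx ι H ∧ c ∈ Λ := by
  classical
  unfold VB
  rw [Finset.mem_filter]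

lemma VB_sub_Bx (Λ : AddSubgroup (ι → ℤ)) (H : ℕ) : VB Λ H ⊆ Bx ι H := fun _ hc => (mem_VB.1 hc).1

lemma Bx_mono {H H' : ℕ} (h : H ≤ H') : Bx ι H ⊆ Bx ι H' := by
  intro c hc
  rw [mem_Bx] at hc ⊢
  intro i
  exact (hc i).trans (by exact_mod_cast h)

lemma VB_mono (Λ : AddSubgroup (ι → ℤ)) {H H' : ℕ} (h : H ≤ H') : VB Λ H ⊆ VB Λ H' := by
  intro c hc
  rw [mem_VB] at hc ⊢
  exact ⟨Bx_mono h hc.1, hc.2⟩

/-- doubling -/
lemma card_VB_mul (Λ : AddSubgroup (ι → ℤ)) (H L : ℕ) (hL : 1 ≤ L) :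
    (VB Λ (L * H)).card ≤ (VB Λ H).card * (2 * L) ^ (Fintype.card ι) := by
  classical
  have h1 : (Fintype.piFinset (fun _ : ι => Finset.Ico (-(L : ℤ)) L)).card
      = (2 * L) ^ (Fintype.card ι) := by
    rw [Fintype.card_piFinset]
    simp only [Int.card_Ico, Finset.prod_const, Finset.card_univ]
    congr 1
    omega
  rw [← h1]
  apply Finset.card_le_mul_card_image_of_maps_to (f := fun c => fun i => c i / ((H : ℤ) + 1))
  · intro c hc
    rw [Fintype.mem_piFinset]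
    intro i
    have h2 := mem_Bx.1 (mem_VB.1 hc).1 i
    rw [abs_le] at h2
    push_cast at h2
    rw [Finset.mem_Ico]
    have hH' : (0 : ℤ) < (H : ℤ) + 1 := by positivity
    constructor
    · rw [Int.le_ediv_iff_mul_le hH']
      nlinarith
    · rw [Int.ediv_lt_iff_lt_mul hH']
      have : (1 : ℤ) ≤ L := by exact_mod_cast hL
      nlinarith
  · intro q _
    rcases Finset.eq_empty_or_nonempty ((VB Λ (L * H)).filter
      (fun c => (fun i => c i / ((H : ℤ) + 1)) = q)) with h0 | ⟨c0, hc0⟩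
    · rw [h0]; simp
    · apply Finset.card_le_card_of_injOn (fun c => c - c0)
      · intro c hc
        rw [Finset.mem_coe, Finset.mem_filter, mem_VB] at hc
        rw [Finset.mem_filter, mem_VB] at hc0
        rw [Finset.mem_coe, mem_VB, mem_Bx]
        refine ⟨?_, Λ.sub_mem hc.1.2 hc0.1.2⟩
        intro i
        have e1 : c i / ((H : ℤ) + 1) = q i := congrFun hc.2 i
        have e2 : c0 i / ((H : ℤ) + 1) = q i := congrFun hc0.2 i
        have hH' : (0 : ℤ) < (H : ℤ) + 1 := by positivity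
        have f1 := Int.emod_add_mul_ediv (c i) ((H : ℤ) + 1)
        have f2 := Int.emod_add_mul_ediv (c0 i) ((H : ℤ) + 1)
        have g1 := Int.emod_nonneg (c i) hH'.ne'
        have g2 := Int.emod_nonneg (c0 i) hH'.ne'
        have g3 := Int.emod_lt_of_pos (c i) hH'
        have g4 := Int.emod_lt_of_pos (c0 i) hH'
        rw [e1] at f1
        rw [e2] at f2
        show |c i - c0 i| ≤ (H : ℤ)
        rw [abs_le]
        constructor <;> linarith
      · intro c _ c' _ h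
        simpa using h

omit [DecidableEq ι] in
/-- relative counting along a direction -/
lemma rel_dir (S S' : Finset (ι → ℤ)) (R : ι → ℤ) (T : ℕ)
    (hS' : ∀ c ∈ S, ∀ t ∈ Icc (-(T : ℤ)) T, c + t • R ∈ S') (K : ℝ)
    (hK : ∀ c ∈ S', (((Icc (-(T : ℤ)) T).filter (fun t => c - t • R ∈ S)).card : ℝ) ≤ K) :
    (S.card : ℝ) * (2 * T + 1) ≤ K * S'.card := by
  classical
  have h1 : ((S ×ˢ Icc (-(T : ℤ)) T).card : ℝ) = (S.card : ℝ) * (2 * T + 1) := by
    rw [Finset.card_product, card_Icc_H]; push_cast; ring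
  rw [← h1]
  have h2 := Finset.card_eq_sum_card_fiberwise (s := S ×ˢ Icc (-(T : ℤ)) T) (t := S')
    (f := fun p => p.1 + p.2 • R) (by
      intro p hp
      rw [Finset.mem_coe, Finset.mem_product] at hp
      exact hS' p.1 hp.1 p.2 hp.2)
  rw [h2]
  push_cast
  rw [mul_comm, ← nsmul_eq_mul]
  apply Finset.sum_le_card_nsmul
  intro c' hc'
  refine le_trans ?_ (hK c' hc')
  have h3 : ((S ×ˢ Icc (-(T : ℤ)) T).filter (fun p => p.1 + p.2 • R = c')).card
      ≤ ((Icc (-(T : ℤ)) T).filter (fun t => c' - t • R ∈ S)).card := by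
    apply Finset.card_le_card_of_injOn (fun p => p.2)
    · intro p hp
      rw [Finset.mem_coe, Finset.mem_filter, Finset.mem_product] at hp
      rw [Finset.mem_coe, Finset.mem_filter]
      obtain ⟨⟨hp1, hp2⟩, hp3⟩ := hp
      refine ⟨hp2, ?_⟩
      have : c' - p.2 • R = p.1 := by rw [← hp3]; abel
      rw [this]; exact hp1
    · intro p hp p' hp' h
      rw [Finset.mem_coe, Finset.mem_filter, Finset.mem_product] at hp hp'
      simp only at h
      have e1 : p.1 = p'.1 := by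
        have := hp.2.trans hp'.2.symm
        rw [h] at this
        exact add_right_cancel this
      exact Prod.ext e1 h
  exact_mod_cast h3

omit [DecidableEq ι] in
/-- relative counting along several directions -/
lemma rel_multi {κ : Type*} [Fintype κ] [DecidableEq κ] (S S' : Finset (ι → ℤ)) (R : κ → ι → ℤ)
    (T : ℕ) (hS' : ∀ c ∈ S, ∀ t ∈ Bx κ T, c + ∑ k, t k • R k ∈ S') (K : ℝ)
    (hK : ∀ c ∈ S', (((Bx κ T).filter (fun t => c - ∑ k, t k • R k ∈ S)).card : ℝ) ≤ K) :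
    (S.card : ℝ) * (2 * T + 1) ^ (Fintype.card κ) ≤ K * S'.card := by
  classical
  have h1 : ((S ×ˢ Bx κ T).card : ℝ) = (S.card : ℝ) * (2 * T + 1) ^ (Fintype.card κ) := by
    rw [Finset.card_product, card_Bx]; push_cast; ring
  rw [← h1]
  have h2 := Finset.card_eq_sum_card_fiberwise (s := S ×ˢ Bx κ T) (t := S')
    (f := fun p => p.1 + ∑ k, p.2 k • R k) (by
      intro p hp
      rw [Finset.mem_coe, Finset.mem_product] at hp
      exact hS' p.1 hp.1 p.2 hp.2)
  rw [h2]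
  push_cast
  rw [mul_comm, ← nsmul_eq_mul]
  apply Finset.sum_le_card_nsmul
  intro c' hc'
  refine le_trans ?_ (hK c' hc')
  have h3 : ((S ×ˢ Bx κ T).filter (fun p => p.1 + ∑ k, p.2 k • R k = c')).card
      ≤ ((Bx κ T).filter (fun t => c' - ∑ k, t k • R k ∈ S)).card := by
    apply Finset.card_le_card_of_injOn (fun p => p.2)
    · intro p hp
      rw [Finset.mem_coe, Finset.mem_filter, Finset.mem_product] at hp
      rw [Finset.mem_coe, Finset.mem_filter]
      obtain ⟨⟨hp1, hp2⟩, hp3⟩ := hp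
      refine ⟨hp2, ?_⟩
      have : c' - ∑ k, p.2 k • R k = p.1 := by rw [← hp3]; abel
      rw [this]; exact hp1
    · intro p hp p' hp' h
      rw [Finset.mem_coe, Finset.mem_filter, Finset.mem_product] at hp hp'
      simp only at h
      have e1 : p.1 = p'.1 := by
        have := hp.2.trans hp'.2.symm
        rw [h] at this
        exact add_right_cancel this
      exact Prod.ext e1 h
  exact_mod_cast h3

lemma smul_add_mem_VB {Λ : AddSubgroup (ι → ℤ)} {H H' h T : ℕ} {c R : ι → ℤ} (hc : c ∈ VB Λ H)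
    (hR : R ∈ Λ) (hRh : ∀ i, |R i| ≤ (h : ℤ)) (hT : H + T * h ≤ H') {t : ℤ}
    (ht : t ∈ Icc (-(T : ℤ)) T) : c + t • R ∈ VB Λ H' := by
  rw [mem_VB, mem_Bx] at hc ⊢
  refine ⟨?_, Λ.add_mem hc.2 (Λ.zsmul_mem hR t)⟩
  intro i
  rw [Pi.add_apply, Pi.smul_apply, smul_eq_mul]
  refine (abs_add_le _ _).trans ?_
  rw [abs_mul]
  have h1 := hc.1 i
  have h2 := hRh i
  rw [Finset.mem_Icc] at ht
  have h3 : |t| ≤ T := abs_le.2 ht
  have h4 : |t| * |R i| ≤ T * h := mul_le_mul h3 h2 (abs_nonneg _) (by positivity)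
  have h5 : ((H + T * h : ℕ) : ℤ) ≤ H' := by exact_mod_cast hT
  push_cast at h5
  linarith

lemma sum_add_mem_VB {κ : Type*} [Fintype κ] [DecidableEq κ] {Λ : AddSubgroup (ι → ℤ)}
    {H H' h T : ℕ} {c : ι → ℤ} {R : κ → ι → ℤ} (hc : c ∈ VB Λ H)
    (hR : ∀ k, R k ∈ Λ) (hRh : ∀ k i, |R k i| ≤ (h : ℤ)) (hT : H + Fintype.card κ * (T * h) ≤ H')
    {t : κ → ℤ} (ht : t ∈ Bx κ T) : c + ∑ k, t k • R k ∈ VB Λ H' := by
  rw [mem_VB, mem_Bx] at hc ⊢
  rw [mem_Bx] at ht
  refine ⟨?_, Λ.add_mem hc.2 (Λ.sum_mem fun k _ => Λ.zsmul_mem (hR k) _)⟩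
  intro i
  rw [Pi.add_apply, Finset.sum_apply]
  refine (abs_add_le _ _).trans ?_
  have h1 := hc.1 i
  have h2 : |∑ k, (t k • R k) i| ≤ Fintype.card κ * ((T : ℤ) * h) := by
    refine (Finset.abs_sum_le_sum_abs _ _).trans ?_
    refine (Finset.sum_le_card_nsmul _ _ ((T : ℤ) * h) ?_).trans ?_
    · intro k _
      rw [Pi.smul_apply, smul_eq_mul, abs_mul]
      exact mul_le_mul (ht k) (hRh k i) (abs_nonneg _) (by positivity)
    · rw [Finset.card_univ, nsmul_eq_mul]
  have h5 : ((H + Fintype.card κ * (T * h) : ℕ) : ℤ) ≤ H' := by exact_mod_cast hT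
  push_cast at h5
  linarith

end

end Pool.Agent.H322R2
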