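import Pool.Agent.H322R2.Idx

/-!
Lipschitz estimates and real roots.
-/

open Polynomial Finset

namespace Pool.Agent.H322R2

lemma evf_lip (p : ℤ[X]) (d : ℕ) (hp : p.natDegree ≤ d) {t t' : ℝ} (ht : |t| ≤ 3) (ht' : |t'| ≤ 3) :
    |evf t p - evf t' p| ≤ pn zn p * (d * 3 ^ d) * |t - t'| := by
  rw [evf_sum t p (Nat.lt_succ_self _), evf_sum t' p (Nat.lt_succ_self _),
    ← Finset.sum_sub_distrib, pn_eq_range zn p (Nat.lt_succ_self _), Finset.sum_mul,
    Finset.sum_mul]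
  refine (Finset.abs_sum_le_sum_abs _ _).trans ?_
  apply Finset.sum_le_sum
  intro i hi
  rw [Finset.mem_range] at hi
  rw [← mul_sub, abs_mul, zn_apply, mul_assoc]
  apply mul_le_mul_of_nonneg_left _ (abs_nonneg _)
  have h1 := norm_pow_sub_le (𝕜 := ℝ) (r := 3) (by norm_num) t t' ht ht' i
  rw [Real.norm_eq_abs, Real.norm_eq_abs] at h1
  refine h1.trans ?_
  apply mul_le_mul_of_nonneg_right _ (abs_nonneg _)
  have h2 : i ≤ d := by omega
  apply mul_le_mul (by exact_mod_cast h2) _ (by positivity) (by positivity)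
  exact pow_le_pow_right₀ (by norm_num) (by omega)

lemma mvt_poly (F : ℝ[X]) {u v : ℝ} (h : u < v) : ∃ c, u < c ∧ c < v ∧
    F.eval v - F.eval u = (derivative F).eval c * (v - u) := by
  obtain ⟨c, hc, h1⟩ := exists_deriv_eq_slope (fun x => F.eval x) h
    (F.continuous.continuousOn) (F.differentiable.differentiableOn)
  rw [Polynomial.deriv] at h1
  refine ⟨c, hc.1, hc.2, ?_⟩
  rw [h1]
  have : v - u ≠ 0 := by linarith
  field_simp

lemma root_near_pos (F : ℝ[X]) {w m ε ρ : ℝ} (hm : 0 < m) (hρ : 0 < ρ) (h1 : |F.eval w| ≤ ε)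
    (h3 : ∀ t, |t - w| ≤ ρ → m ≤ (derivative F).eval t)
    (h4 : ε < m * ρ) : ∃ η, F.eval η = 0 ∧ |η - w| ≤ ρ ∧ |η - w| * m ≤ ε := by
  have hw := abs_le.1 h1
  obtain ⟨c1, hc1, hc1', e1⟩ := mvt_poly F (show w < w + ρ by linarith)
  obtain ⟨c2, hc2, hc2', e2⟩ := mvt_poly F (show w - ρ < w by linarith)
  have m1 := h3 c1 (by rw [abs_le]; constructor <;> linarith)
  have m2 := h3 c2 (by rw [abs_le]; constructor <;> linarith)
  have p1 : 0 ≤ F.eval (w + ρ) := by nlinarith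
  have p2 : F.eval (w - ρ) ≤ 0 := by nlinarith
  obtain ⟨η, hη, hη0⟩ := intermediate_value_Icc (show w - ρ ≤ w + ρ by linarith)
    (F.continuous.continuousOn (s := Set.Icc (w - ρ) (w + ρ))) ⟨p2, p1⟩
  have hηw : |η - w| ≤ ρ := by rw [abs_le]; constructor <;> linarith [hη.1, hη.2]
  refine ⟨η, hη0, hηw, ?_⟩
  simp only at hη0
  have hηw' := abs_le.1 hηw
  rcases lt_trichotomy η w with h | h | h
  · obtain ⟨c, hc, hc', e⟩ := mvt_poly F h
    have m3 := h3 c (by rw [abs_le]; constructor <;> linarith)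
    rw [hη0, sub_zero] at e
    rw [abs_of_neg (by linarith)]
    nlinarith
  · rw [h]; simp; exact (abs_nonneg _).trans h1
  · obtain ⟨c, hc, hc', e⟩ := mvt_poly F h
    have m3 := h3 c (by rw [abs_le]; constructor <;> linarith)
    rw [hη0, zero_sub] at e
    rw [abs_of_pos (by linarith)]
    nlinarith

lemma root_near (p : ℤ[X]) {w m ε ρ : ℝ} (hm : 0 < m) (hρ : 0 < ρ) (h1 : |evf w p| ≤ ε)
    (h2 : 2 * m ≤ |evf w (derivative p)|)
    (h3 : ∀ t, |t - w| ≤ ρ → |evf t (derivative p) - evf w (derivative p)| ≤ m)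
    (h4 : ε < m * ρ) : ∃ η, evf η p = 0 ∧ |η - w| ≤ ρ ∧ |η - w| * m ≤ ε := by
  obtain ⟨F, hF⟩ : ∃ F : ℝ[X], F = p.map (Int.castRingHom ℝ) := ⟨_, rfl⟩
  have e0 : ∀ t, evf t p = F.eval t := by
    intro t; rw [hF, eval_map, evf, coe_eval₂RingHom]
  have e1 : ∀ t, evf t (derivative p) = (derivative F).eval t := by
    intro t; rw [hF, derivative_map, eval_map, evf, coe_eval₂RingHom]
  simp only [e0] at h1 ⊢
  simp only [e1] at h2 h3
  rcases le_total 0 ((derivative F).eval w) with hs | hs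
  · rw [abs_of_nonneg hs] at h2
    apply root_near_pos F hm hρ h1 _ h4
    intro t ht
    have := abs_le.1 (h3 t ht)
    linarith [this.1]
  · rw [abs_of_nonpos hs] at h2
    obtain ⟨η, a1, a2, a3⟩ := root_near_pos (-F) hm hρ (by rw [eval_neg, abs_neg]; exact h1) (by
      intro t ht
      rw [derivative_neg, eval_neg]
      have := abs_le.1 (h3 t ht)
      linarith [this.2]) h4
    rw [eval_neg, neg_eq_zero] at a1
    exact ⟨η, a1, a2, a3⟩

end Pool.Agent.H322R2
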