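import Pool.Agent.H322R2.KD

open Polynomial

namespace Pool.Agent.H322R2

theorem m_irr_natDegree_pos (P : ℤ[X]) (hirr : Irreducible P) (z : ℂ) (hz : aeval z P = 0) :
    0 < P.natDegree := by
  by_contra h0
  have h1 : P.natDegree = 0 := by omega
  have hC : P = C (P.coeff 0) := eq_C_of_natDegree_eq_zero h1
  rw [hC] at hz
  simp at hz
  rw [hz] at hC
  simp at hC
  exact hirr.ne_zero hC

theorem m_dvd_of_root (P : ℤ[X]) (hirr : Irreducible P) (z : ℂ) (hz : aeval z P = 0)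
    (R : ℤ[X]) (hR : aeval z R = 0) : P ∣ R := by
  have hpos := m_irr_natDegree_pos P hirr z hz
  have hprim : P.IsPrimitive := hirr.isPrimitive (by omega)
  rw [IsPrimitive.Int.dvd_iff_map_cast_dvd_map_cast _ _ hprim]
  have hirr2 := (IsPrimitive.Int.irreducible_iff_irreducible_map_cast hprim).mp hirr
  have hz2 : aeval z (P.map (Int.castRingHom ℚ)) = 0 := by
    rw [show (Int.castRingHom ℚ) = algebraMap ℤ ℚ from rfl, aeval_map_algebraMap]; exact hz
  have hP2 : aeval z (R.map (Int.castRingHom ℚ)) = 0 := by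
    rw [show (Int.castRingHom ℚ) = algebraMap ℤ ℚ from rfl, aeval_map_algebraMap]; exact hR
  have h1 := minpoly.dvd ℚ z hP2
  have h2 := minpoly.dvd ℚ z hz2
  have h3 : Associated (minpoly ℚ z) (P.map (Int.castRingHom ℚ)) := by
    have hint : IsIntegral ℚ z := by
      rw [← isAlgebraic_iff_isIntegral]
      exact ⟨_, hirr2.ne_zero, hz2⟩
    exact (minpoly.irreducible hint).associated_of_dvd hirr2 h2
  exact h3.symm.dvd.trans h1

theorem m_eval_le (R : ℤ[X]) (n : ℕ) (hn : R.natDegree ≤ n) (h : ℝ)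
    (hh : ∀ i, |(R.coeff i : ℝ)| ≤ h) (z : ℂ) :
    ‖aeval z R‖ ≤ (n + 1) * h * (max 1 ‖z‖) ^ n := by
  have hh0 : 0 ≤ h := le_trans (abs_nonneg _) (hh 0)
  rw [aeval_eq_sum_range' (lt_of_le_of_lt hn (Nat.lt_succ_self n))]
  refine (norm_sum_le _ _).trans ?_
  calc ∑ i ∈ Finset.range n.succ, ‖R.coeff i • z ^ i‖
      ≤ ∑ i ∈ Finset.range n.succ, h * (max 1 ‖z‖) ^ n := by
        apply Finset.sum_le_sum
        intro i hi
        rw [zsmul_eq_mul, norm_mul, norm_pow]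
        have h1 : ‖((R.coeff i : ℤ) : ℂ)‖ = |(R.coeff i : ℝ)| := by
          rw [Complex.norm_intCast]
        rw [h1]
        have hi' := Finset.mem_range.mp hi
        have h2 : ‖z‖ ^ i ≤ (max 1 ‖z‖) ^ n := by
          calc ‖z‖ ^ i ≤ (max 1 ‖z‖) ^ i := pow_le_pow_left₀ (norm_nonneg _) (le_max_right _ _) _
            _ ≤ (max 1 ‖z‖) ^ n := pow_le_pow_right₀ (le_max_left _ _) (by omega)
        exact mul_le_mul (hh i) h2 (by positivity) hh0
    _ = (n + 1) * h * (max 1 ‖z‖) ^ n := by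
        rw [Finset.sum_const, Finset.card_range, nsmul_eq_mul]; push_cast; ring

theorem m_prod_le (s : Multiset ℂ) (g : ℂ → ℂ) (B : ℝ) (hB : 0 ≤ B) (n : ℕ)
    (hs : ∀ z ∈ s, ‖g z‖ ≤ B * (max 1 ‖z‖) ^ n) :
    ‖(s.map g).prod‖ ≤ B ^ s.card * ((s.map (fun z => max 1 ‖z‖)).prod) ^ n := by
  induction s using Multiset.induction_on with
  | empty => simp
  | cons z s ih =>
    rw [Multiset.map_cons, Multiset.prod_cons, norm_mul, Multiset.card_cons, Multiset.map_cons,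
      Multiset.prod_cons]
    have h1 := ih (fun w hw => hs w (Multiset.mem_cons_of_mem hw))
    have h2 := hs z (Multiset.mem_cons_self z s)
    have hp : 0 ≤ (s.map (fun z : ℂ => max 1 ‖z‖)).prod := by
      apply Multiset.prod_nonneg
      intro a ha
      rw [Multiset.mem_map] at ha
      obtain ⟨w, _, rfl⟩ := ha
      positivity
    calc ‖g z‖ * ‖(s.map g).prod‖
        ≤ (B * (max 1 ‖z‖) ^ n) * (B ^ s.card * ((s.map (fun z : ℂ => max 1 ‖z‖)).prod) ^ n) :=
          mul_le_mul h2 h1 (norm_nonneg _) (by positivity)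
      _ = B ^ (s.card + 1) * (max 1 ‖z‖ * (s.map (fun z : ℂ => max 1 ‖z‖)).prod) ^ n := by
          rw [mul_pow]; ring

/-- Liouville-type lower bound from the resultant. -/
theorem m_liouville (n : ℕ) (P R : ℤ[X]) (hirr : Irreducible P) (hP : P.natDegree ≤ n)
    (hR : R.natDegree ≤ n) (α : ℂ) (hα : aeval α P = 0) (hRα : aeval α R ≠ 0)
    (hp hr : ℝ) (hhp : ∀ i, |(P.coeff i : ℝ)| ≤ hp) (hhr : ∀ i, |(R.coeff i : ℝ)| ≤ hr) :
    1 ≤ ‖aeval α R‖ * ((n + 1) * hr) ^ (n - 1) * ((n + 1) * hp) ^ n := by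
  have hd := m_irr_natDegree_pos P hirr α hα
  have hR0 : R ≠ 0 := by rintro rfl; simp at hRα
  have hr1 := k_one_le R hR0 hr hhr
  have hp1 := k_one_le P hirr.ne_zero hp hhp
  set f : ℂ[X] := P.map (Int.castRingHom ℂ) with hf
  set g : ℂ[X] := R.map (Int.castRingHom ℂ) with hg
  have hinj : Function.Injective (Int.castRingHom ℂ) := Int.cast_injective
  have hfdeg : f.natDegree = P.natDegree := natDegree_map_eq_of_injective hinj _
  have hf0 : f ≠ 0 := by
    intro h0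
    rw [h0] at hfdeg
    simp at hfdeg
    omega
  have hgN : g.natDegree ≤ n := natDegree_map_le.trans hR
  have hres := resultant_eq_prod_eval f g n hgN (IsAlgClosed.splits f)
  rw [hfdeg, hf, hg, resultant_map_map, ← hf, ← hg] at hres
  have hroot : ∀ z ∈ f.roots, aeval z P = 0 := by
    intro z hz
    rw [mem_roots hf0, IsRoot, hf, eval_map, ← algebraMap_int_eq, ← aeval_def] at hz
    exact hz
  have hgeval : ∀ z, g.eval z = aeval z R := by
    intro z
    rw [hg, eval_map, ← algebraMap_int_eq, ← aeval_def]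
  have hne : (f.roots.map g.eval).prod ≠ 0 := by
    intro h0
    rw [Multiset.prod_eq_zero_iff, Multiset.mem_map] at h0
    obtain ⟨z, hz, hz0⟩ := h0
    rw [hgeval] at hz0
    obtain ⟨S, hS⟩ := m_dvd_of_root P hirr z (hroot z hz) R hz0
    apply hRα
    rw [hS, map_mul, hα, zero_mul]
  have hresne : (resultant P R P.natDegree n) ≠ 0 := by
    intro h0
    rw [h0] at hres
    simp only [map_zero] at hres
    have := mul_ne_zero (pow_ne_zero n (leadingCoeff_ne_zero.mpr hf0)) hne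
    exact this hres.symm
  have hone : (1 : ℝ) ≤ ‖(Int.castRingHom ℂ) (resultant P R P.natDegree n)‖ := by
    simp only [eq_intCast, Complex.norm_intCast]
    exact_mod_cast Int.one_le_abs hresne
  rw [hres, norm_mul, norm_pow] at hone
  have hαroot : α ∈ f.roots := by
    rw [mem_roots hf0, IsRoot, hf, eval_map, ← algebraMap_int_eq, ← aeval_def]
    exact hα
  have hcard : f.roots.card = P.natDegree := by
    rw [← hfdeg]
    exact (IsAlgClosed.splits f).natDegree_eq_card_roots.symm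
  have hM := mahlerMeasure_eq_leadingCoeff_mul_prod_roots f
  have hMle : f.mahlerMeasure ≤ (n + 1) * hp := by
    refine (mahlerMeasure_le_sum_norm_coeff f).trans ?_
    rw [sum_over_range' f (by simp) (n + 1) (by omega)]
    calc ∑ i ∈ Finset.range (n + 1), ‖f.coeff i‖ ≤ ∑ i ∈ Finset.range (n + 1), hp := by
          apply Finset.sum_le_sum
          intro i _
          rw [hf, coeff_map]
          simp only [eq_intCast, Complex.norm_intCast]
          exact hhp i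
      _ = (n + 1) * hp := by
          rw [Finset.sum_const, Finset.card_range, nsmul_eq_mul]; push_cast; ring
  rw [← Multiset.cons_erase hαroot, Multiset.map_cons, Multiset.prod_cons, norm_mul] at hone
  have hcard2 : (f.roots.erase α).card = P.natDegree - 1 := by
    rw [Multiset.card_erase_of_mem hαroot, hcard]; rfl
  have hB1 : 1 ≤ ((n : ℝ) + 1) * hr := by
    have : (0 : ℝ) ≤ n := Nat.cast_nonneg n
    nlinarith
  have hprod := m_prod_le (f.roots.erase α) g.eval (((n : ℝ) + 1) * hr) (by positivity) n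
    (by
      intro z _
      rw [hgeval]
      exact m_eval_le R n hR hr hhr z)
  rw [hcard2] at hprod
  have hpr1 : (f.roots.map (fun z => max 1 ‖z‖)).prod
      = max 1 ‖α‖ * ((f.roots.erase α).map (fun z => max 1 ‖z‖)).prod := by
    conv_lhs => rw [← Multiset.cons_erase hαroot, Multiset.map_cons, Multiset.prod_cons]
  have hp0 : 0 ≤ ((f.roots.erase α).map (fun z : ℂ => max 1 ‖z‖)).prod := by
    apply Multiset.prod_nonneg
    intro a ha
    rw [Multiset.mem_map] at ha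
    obtain ⟨w, _, rfl⟩ := ha
    positivity
  have hpr2 : ((f.roots.erase α).map (fun z : ℂ => max 1 ‖z‖)).prod
      ≤ (f.roots.map (fun z => max 1 ‖z‖)).prod := by
    rw [hpr1]
    have : (1 : ℝ) ≤ max 1 ‖α‖ := le_max_left _ _
    nlinarith
  have hlead : 0 ≤ ‖f.leadingCoeff‖ := norm_nonneg _
  calc (1 : ℝ) ≤ ‖f.leadingCoeff‖ ^ n * (‖g.eval α‖ *
        ‖((f.roots.erase α).map g.eval).prod‖) := hone
    _ ≤ ‖f.leadingCoeff‖ ^ n * (‖g.eval α‖ * ((((n : ℝ) + 1) * hr) ^ (P.natDegree - 1) *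
          (((f.roots.erase α).map (fun z : ℂ => max 1 ‖z‖)).prod) ^ n)) := by
        gcongr
    _ ≤ ‖f.leadingCoeff‖ ^ n * (‖g.eval α‖ * ((((n : ℝ) + 1) * hr) ^ (n - 1) *
          ((f.roots.map (fun z => max 1 ‖z‖)).prod) ^ n)) := by
        have e1 : (((n : ℝ) + 1) * hr) ^ (P.natDegree - 1) ≤ (((n : ℝ) + 1) * hr) ^ (n - 1) :=
          pow_le_pow_right₀ hB1 (by omega)
        gcongr
    _ = ‖g.eval α‖ * (((n : ℝ) + 1) * hr) ^ (n - 1) *
          (‖f.leadingCoeff‖ * (f.roots.map (fun z => max 1 ‖z‖)).prod) ^ n := by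
        rw [mul_pow]; ring
    _ = ‖aeval α R‖ * (((n : ℝ) + 1) * hr) ^ (n - 1) * f.mahlerMeasure ^ n := by
        rw [hgeval, hM]
    _ ≤ ‖aeval α R‖ * (((n : ℝ) + 1) * hr) ^ (n - 1) * (((n : ℝ) + 1) * hp) ^ n := by
        have : 0 ≤ f.mahlerMeasure := mahlerMeasure_nonneg f
        gcongr

theorem m_aeval_real (x : ℝ) (P : ℤ[X]) : aeval (x : ℂ) P = ((aeval x P : ℝ) : ℂ) := by
  rw [show (x : ℂ) = algebraMap ℝ ℂ x from rfl, aeval_algebraMap_apply]
  rfl

theorem m_norm_real (x : ℝ) (P : ℤ[X]) : ‖aeval (x : ℂ) P‖ = |aeval x P| := by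
  rw [m_aeval_real, Complex.norm_real, Real.norm_eq_abs]

theorem m_root_real (x : ℝ) (P : ℤ[X]) (h : aeval x P = 0) : aeval (x : ℂ) P = 0 := by
  rw [m_aeval_real, h]; simp

/-- spacing of algebraic numbers with different minimal polynomials -/
theorem m_spacing1 (n : ℕ) (hn : 1 ≤ n) (P Q : ℤ[X]) (hP : Irreducible P)
    (hPn : P.natDegree ≤ n) (hQn : Q.natDegree ≤ n) (α β : ℝ) (hα : aeval α P = 0)
    (hβ : aeval β Q = 0) (hQα : aeval α Q ≠ 0) (hα1 : |α| ≤ 1) (hβ1 : |β| ≤ 1)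
    (hp hq : ℝ) (hhp : ∀ i, |(P.coeff i : ℝ)| ≤ hp) (hhq : ∀ i, |(Q.coeff i : ℝ)| ≤ hq) :
    1 ≤ ((n : ℝ) + 1) ^ (3 * n + 1) * |α - β| * (hp * hq) ^ n := by
  have hQα' : aeval (α : ℂ) Q ≠ 0 := by
    rw [m_aeval_real]; exact_mod_cast hQα
  have h1 := m_liouville n P Q hP hPn hQn (α : ℂ) (m_root_real α P hα) hQα' hp hq hhp hhq
  rw [m_norm_real] at h1
  have hQ0 : Q ≠ 0 := by rintro rfl; simp at hQα
  have hq1 := k_one_le Q hQ0 hq hhq
  have hp1 := k_one_le P hP.ne_zero hp hhp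
  have h2 := k_diff Q n hQn hq hhq α β hα1 hβ1
  rw [hβ, sub_zero] at h2
  obtain ⟨k, rfl⟩ : ∃ k, n = k + 1 := ⟨n - 1, by omega⟩
  simp only [Nat.add_sub_cancel] at h1
  have hD : (1 : ℝ) ≤ ((k + 1 : ℕ) : ℝ) + 1 := by
    have : (0 : ℝ) ≤ ((k + 1 : ℕ) : ℝ) := Nat.cast_nonneg _
    linarith
  set D : ℝ := ((k + 1 : ℕ) : ℝ) + 1 with hDdef
  calc (1 : ℝ) ≤ |aeval α Q| * (D * hq) ^ k * (D * hp) ^ (k + 1) := h1
    _ ≤ (D ^ 2 * hq * |α - β|) * (D * hq) ^ k * (D * hp) ^ (k + 1) := by gcongr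
    _ = D ^ (2 * k + 3) * |α - β| * (hp * hq) ^ (k + 1) := by ring
    _ ≤ D ^ (3 * (k + 1) + 1) * |α - β| * (hp * hq) ^ (k + 1) := by
        have : D ^ (2 * k + 3) ≤ D ^ (3 * (k + 1) + 1) := pow_le_pow_right₀ hD (by omega)
        gcongr

/-- spacing of two roots of the same irreducible polynomial -/
theorem m_spacing2 (n : ℕ) (hn : 1 ≤ n) (P : ℤ[X]) (hP : Irreducible P)
    (hPn : P.natDegree ≤ n) (α β : ℝ) (hα : aeval α P = 0)
    (hβ : aeval β P = 0) (hne : α ≠ β) (hα1 : |α| ≤ 1) (hβ1 : |β| ≤ 1)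
    (hp : ℝ) (hhp : ∀ i, |(P.coeff i : ℝ)| ≤ hp) :
    1 ≤ ((n : ℝ) + 1) ^ (3 * n + 1) * |α - β| * (hp * hp) ^ n := by
  have hp1 := k_one_le P hP.ne_zero hp hhp
  have hd := m_irr_natDegree_pos P hP (α : ℂ) (m_root_real α P hα)
  -- Rolle
  obtain ⟨ζ, hζ0, hζα, hζ1⟩ : ∃ ζ : ℝ, aeval ζ (derivative P) = 0 ∧ |α - ζ| ≤ |α - β| ∧ |ζ| ≤ 1 := by
    have key : ∀ a b : ℝ, a < b → aeval a P = 0 → aeval b P = 0 →
        ∃ ζ ∈ Set.Ioo a b, aeval ζ (derivative P) = 0 := by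
      intro a b hab ha hb
      obtain ⟨ζ, hζ, hd⟩ := exists_deriv_eq_zero (f := fun x : ℝ => aeval x P) hab
        (by exact (Polynomial.continuous_aeval P).continuousOn) (by rw [ha, hb])
      refine ⟨ζ, hζ, ?_⟩
      rw [← hd]
      exact (Polynomial.deriv_aeval P).symm
    rw [abs_le] at hα1 hβ1
    rcases lt_or_gt_of_ne hne with h | h
    · obtain ⟨ζ, hζ, h0⟩ := key α β h hα hβ
      refine ⟨ζ, h0, ?_, ?_⟩
      · rw [abs_of_neg (by linarith [hζ.1]), abs_of_neg (by linarith)]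
        linarith [hζ.2]
      · rw [abs_le]; constructor <;> linarith [hζ.1, hζ.2, hα1.1, hβ1.2]
    · obtain ⟨ζ, hζ, h0⟩ := key β α h hβ hα
      refine ⟨ζ, h0, ?_, ?_⟩
      · rw [abs_of_pos (by linarith [hζ.2]), abs_of_pos (by linarith)]
        linarith [hζ.1]
      · rw [abs_le]; constructor <;> linarith [hζ.1, hζ.2, hβ1.1, hα1.2]
  set R : ℤ[X] := derivative P with hR
  have hRdeg : R.natDegree < P.natDegree := natDegree_derivative_lt (by omega)
  have hR0 : R ≠ 0 := by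
    intro h0
    have := natDegree_eq_zero_of_derivative_eq_zero h0
    omega
  have hRn : R.natDegree ≤ n := by omega
  have hRc : ∀ i, |(R.coeff i : ℝ)| ≤ (n : ℝ) * hp := by
    intro i
    by_cases hi : i < n
    · rw [hR, coeff_derivative]
      push_cast
      rw [abs_mul]
      have h3 : |((i : ℝ) + 1)| ≤ n := by
        rw [abs_of_nonneg (by positivity)]
        exact_mod_cast hi
      calc |(P.coeff (i + 1) : ℝ)| * |((i : ℝ) + 1)| ≤ hp * n :=
            mul_le_mul (hhp _) h3 (abs_nonneg _) (by linarith)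
        _ = n * hp := by ring
    · rw [coeff_eq_zero_of_natDegree_lt (by omega)]
      simp only [Int.cast_zero, abs_zero]
      positivity
  have hRα : aeval (α : ℂ) R ≠ 0 := by
    intro h0
    have := m_dvd_of_root P hP (α : ℂ) (m_root_real α P hα) R h0
    have := natDegree_le_of_dvd this hR0
    omega
  have h1 := m_liouville n P R hP hPn hRn (α : ℂ) (m_root_real α P hα) hRα hp (n * hp) hhp hRc
  rw [m_norm_real] at h1
  have h2 := k_diff R n hRn (n * hp) hRc α ζ hα1 hζ1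
  rw [hζ0, sub_zero] at h2
  obtain ⟨k, rfl⟩ : ∃ k, n = k + 1 := ⟨n - 1, by omega⟩
  simp only [Nat.add_sub_cancel] at h1
  have hk0 : (0 : ℝ) ≤ ((k + 1 : ℕ) : ℝ) := Nat.cast_nonneg _
  have hkD : ((k + 1 : ℕ) : ℝ) ≤ ((k + 1 : ℕ) : ℝ) + 1 := by linarith
  have hD : (1 : ℝ) ≤ ((k + 1 : ℕ) : ℝ) + 1 := by linarith
  set D : ℝ := ((k + 1 : ℕ) : ℝ) + 1 with hDdef
  set E : ℝ := ((k + 1 : ℕ) : ℝ) with hE
  have h3 : |aeval α R| ≤ D ^ 2 * (D * hp) * |α - β| := by
    refine h2.trans ?_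
    gcongr
  calc (1 : ℝ) ≤ |aeval α R| * (D * (E * hp)) ^ k * (D * hp) ^ (k + 1) := h1
    _ ≤ (D ^ 2 * (D * hp) * |α - β|) * (D * (D * hp)) ^ k * (D * hp) ^ (k + 1) := by gcongr
    _ = D ^ (3 * (k + 1) + 1) * |α - β| * (hp * hp) ^ (k + 1) := by ring

end Pool.Agent.H322R2
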