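import Pool.Agent.H322R2.MA

open MeasureTheory

namespace Pool.Agent.H322R2

/-- packing: a set of pairwise `d`-separated points in an interval of length `L` -/
theorem m_packing (S : Set ℝ) (u L d : ℝ) (hd : 0 < d) (hL : 0 ≤ L)
    (hS : ∀ x ∈ S, u ≤ x ∧ x ≤ u + L) (hsep : ∀ x ∈ S, ∀ y ∈ S, x ≠ y → d ≤ |x - y|) :
    S.Finite ∧ (S.ncard : ℝ) ≤ 1 + L / d := by
  have hmap : ∀ x ∈ S, ⌊(x - u) / d⌋ ∈ Finset.Icc (0 : ℤ) ⌊L / d⌋ := by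
    intro x hx
    obtain ⟨h1, h2⟩ := hS x hx
    rw [Finset.mem_Icc]
    constructor
    · apply Int.floor_nonneg.mpr
      apply div_nonneg (by linarith) hd.le
    · apply Int.floor_le_floor
      apply div_le_div_of_nonneg_right (by linarith) hd.le
  have hinj : Set.InjOn (fun x : ℝ => ⌊(x - u) / d⌋) S := by
    intro x hx y hy hxy
    by_contra hne
    have h1 := hsep x hx y hy hne
    simp only at hxy
    have h2 : |(x - u) / d - (y - u) / d| < 1 := by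
      exact Int.abs_sub_lt_one_of_floor_eq_floor hxy
    have h3 : (x - u) / d - (y - u) / d = (x - y) / d := by ring
    rw [h3, abs_div, abs_of_pos hd, div_lt_one hd] at h2
    linarith
  have hfin : S.Finite := by
    refine Set.Finite.of_injOn (t := (Finset.Icc (0 : ℤ) ⌊L / d⌋ : Set ℤ)) ?_ hinj
      (Finset.finite_toSet _)
    intro x hx
    exact Finset.mem_coe.mpr (hmap x hx)
  refine ⟨hfin, ?_⟩
  have hcard : S.ncard ≤ (Finset.Icc (0 : ℤ) ⌊L / d⌋).card := by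
    rw [← Set.ncard_coe_finset]
    apply Set.ncard_le_ncard_of_injOn (fun x : ℝ => ⌊(x - u) / d⌋) _ hinj (Finset.finite_toSet _)
    intro x hx
    exact Finset.mem_coe.mpr (hmap x hx)
  have hLd : 0 ≤ L / d := by positivity
  rw [Int.card_Icc] at hcard
  have h4 : ((⌊L / d⌋ + 1 - 0).toNat : ℝ) ≤ 1 + L / d := by
    have h5 : 0 ≤ ⌊L / d⌋ := Int.floor_nonneg.mpr hLd
    have h6 : (((⌊L / d⌋ + 1 - 0).toNat : ℤ) : ℝ) = ((⌊L / d⌋ + 1 - 0 : ℤ) : ℝ) := by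
      rw [Int.toNat_of_nonneg (by omega)]
    have h7 : ((⌊L / d⌋ + 1 - 0).toNat : ℝ) = (((⌊L / d⌋ + 1 - 0).toNat : ℤ) : ℝ) := by
      push_cast; rfl
    rw [h7, h6]
    push_cast
    have := Int.floor_le (L / d)
    linarith
  calc (S.ncard : ℝ) ≤ ((⌊L / d⌋ + 1 - 0).toNat : ℝ) := by exact_mod_cast hcard
    _ ≤ 1 + L / d := h4

/-- the setting: a set of real numbers with a height and a spacing property -/
structure MSet (𝒜 : Set ℝ) (Ht : ℝ → ℝ) (n : ℕ) (κ : ℝ) : Prop where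
  hn : 1 ≤ n
  hκ : 0 < κ
  hHt : ∀ α ∈ 𝒜, 1 ≤ Ht α
  hfin : ∀ B : ℝ, {α | α ∈ 𝒜 ∧ Ht α ≤ B}.Finite
  hsp : ∀ α ∈ 𝒜, ∀ β ∈ 𝒜, α ≠ β → |α| ≤ 1 → |β| ≤ 1 → κ ≤ |α - β| * (Ht α * Ht β) ^ n
  hdense : ∀ u v : ℝ, 1 / 2 ≤ u → u < v → v ≤ 1 → ∃ α ∈ 𝒜, u < α ∧ α < v

variable {𝒜 : Set ℝ} {Ht : ℝ → ℝ} {n : ℕ} {κ : ℝ}

/-- block of heights `[T, 2T)` in an interval -/
theorem m_block (h : MSet 𝒜 Ht n κ) (ψ : ℝ → ℝ) (s x₀ : ℝ) (hs : 0 < s)
    (hψ : ∀ x, x₀ ≤ x → ψ x ≤ x ^ (-s)) (u L T : ℝ) (hu : 0 ≤ u) (hL : 0 ≤ L) (huL : u + L ≤ 1)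
    (hT : 1 ≤ T) (hTx : x₀ ≤ T) :
    volume (⋃ α ∈ {α | α ∈ 𝒜 ∧ u ≤ α ∧ α ≤ u + L ∧ T ≤ Ht α ∧ Ht α < 2 * T},
      Set.Ioo (α - ψ (Ht α)) (α + ψ (Ht α)))
      ≤ ENNReal.ofReal ((1 + L * (2 * T) ^ (2 * n) / κ) * (2 * T ^ (-s))) := by
  set S : Set ℝ := {α | α ∈ 𝒜 ∧ u ≤ α ∧ α ≤ u + L ∧ T ≤ Ht α ∧ Ht α < 2 * T} with hS
  have hκ := h.hκ
  have hd : 0 < κ / (2 * T) ^ (2 * n) := by positivity
  obtain ⟨hfin, hcard⟩ := m_packing S u L (κ / (2 * T) ^ (2 * n)) hd hL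
    (fun x hx => ⟨hx.2.1, hx.2.2.1⟩) (by
      intro x hx y hy hxy
      have h1 := h.hsp x hx.1 y hy.1 hxy
        (by rw [abs_of_nonneg (by linarith [hx.2.1])]; linarith [hx.2.2.1])
        (by rw [abs_of_nonneg (by linarith [hy.2.1])]; linarith [hy.2.2.1])
      rw [div_le_iff₀ (by positivity)]
      refine h1.trans ?_
      apply mul_le_mul_of_nonneg_left _ (abs_nonneg _)
      rw [pow_mul]
      apply pow_le_pow_left₀
      · have := h.hHt x hx.1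
        have := h.hHt y hy.1
        positivity
      · rw [sq]
        have := h.hHt x hx.1
        have := h.hHt y hy.1
        exact mul_le_mul hx.2.2.2.2.le hy.2.2.2.2.le (by linarith) (by linarith))
  have hT0 : 0 < T := by linarith
  rw [div_div_eq_mul_div] at hcard
  have hvol : ∀ α ∈ S, volume (Set.Ioo (α - ψ (Ht α)) (α + ψ (Ht α)))
      ≤ ENNReal.ofReal (2 * T ^ (-s)) := by
    intro α hα
    rw [Real.volume_Ioo]
    apply ENNReal.ofReal_le_ofReal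
    have h2 := hψ (Ht α) (hTx.trans hα.2.2.2.1)
    have h3 : (Ht α) ^ (-s) ≤ T ^ (-s) :=
      Real.rpow_le_rpow_of_nonpos hT0 hα.2.2.2.1 (by linarith)
    linarith
  have hfs : (⋃ α ∈ S, Set.Ioo (α - ψ (Ht α)) (α + ψ (Ht α)))
      = ⋃ α ∈ hfin.toFinset, Set.Ioo (α - ψ (Ht α)) (α + ψ (Ht α)) := by
    simp
  rw [hfs]
  refine (measure_biUnion_finset_le _ _).trans ?_
  calc ∑ α ∈ hfin.toFinset, volume (Set.Ioo (α - ψ (Ht α)) (α + ψ (Ht α)))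
      ≤ ∑ α ∈ hfin.toFinset, ENNReal.ofReal (2 * T ^ (-s)) := by
        apply Finset.sum_le_sum
        intro α hα
        exact hvol α (by simpa using hα)
    _ = (hfin.toFinset.card : ENNReal) * ENNReal.ofReal (2 * T ^ (-s)) := by
        rw [Finset.sum_const, nsmul_eq_mul]
    _ = ENNReal.ofReal ((hfin.toFinset.card : ℝ) * (2 * T ^ (-s))) := by
        rw [ENNReal.ofReal_mul (Nat.cast_nonneg _), ENNReal.ofReal_natCast]
    _ ≤ ENNReal.ofReal ((1 + L * (2 * T) ^ (2 * n) / κ) * (2 * T ^ (-s))) := by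
        apply ENNReal.ofReal_le_ofReal
        apply mul_le_mul_of_nonneg_right _ (by positivity)
        rw [← Set.ncard_eq_toFinset_card S hfin]
        exact hcard

/-- the constant in the measure bound -/
noncomputable def mA (n : ℕ) (κ s : ℝ) : ℝ :=
  2 * (1 - (2 : ℝ) ^ (-s))⁻¹ + (2 * 4 ^ n / κ) * (1 - (2 : ℝ) ^ (-(s - 2 * n)))⁻¹

theorem mA_pos (n : ℕ) (κ s : ℝ) (hκ : 0 < κ) (hs : 2 * (n : ℝ) < s) : 0 < mA n κ s := by
  unfold mA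
  have h0 : (0 : ℝ) ≤ n := Nat.cast_nonneg n
  have h1 : (2 : ℝ) ^ (-s) < 1 := Real.rpow_lt_one_of_one_lt_of_neg (by norm_num) (by linarith)
  have h2 : (2 : ℝ) ^ (-(s - 2 * n)) < 1 :=
    Real.rpow_lt_one_of_one_lt_of_neg (by norm_num) (by linarith)
  have h3 : 0 < (1 - (2 : ℝ) ^ (-s))⁻¹ := inv_pos.mpr (by linarith)
  have h4 : 0 < (1 - (2 : ℝ) ^ (-(s - 2 * n)))⁻¹ := inv_pos.mpr (by linarith)
  positivity

/-- total measure of the intervals of height at least `T` around points of an interval -/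
theorem m_measure (h : MSet 𝒜 Ht n κ) (ψ : ℝ → ℝ) (s x₀ : ℝ) (hs : 2 * (n : ℝ) < s)
    (hψ : ∀ x, x₀ ≤ x → ψ x ≤ x ^ (-s)) (u L T : ℝ) (hu : 0 ≤ u) (hL : 0 ≤ L) (huL : u + L ≤ 1)
    (hT : 1 ≤ T) (hTx : x₀ ≤ T) :
    volume (⋃ α ∈ {α | α ∈ 𝒜 ∧ u ≤ α ∧ α ≤ u + L ∧ T ≤ Ht α},
      Set.Ioo (α - ψ (Ht α)) (α + ψ (Ht α)))
      ≤ ENNReal.ofReal (mA n κ s * (T ^ (-s) + L * T ^ (-(s - 2 * n)))) := by
  have hκ := h.hκ
  have hn0 : (0 : ℝ) ≤ n := Nat.cast_nonneg n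
  have hs0 : 0 < s := by linarith
  have hT0 : 0 < T := by linarith
  have h2j : ∀ j : ℕ, (1 : ℝ) ≤ 2 ^ j := fun j => one_le_pow₀ (by norm_num)
  have hcover : (⋃ α ∈ {α | α ∈ 𝒜 ∧ u ≤ α ∧ α ≤ u + L ∧ T ≤ Ht α},
      Set.Ioo (α - ψ (Ht α)) (α + ψ (Ht α))) ⊆
      ⋃ j : ℕ, ⋃ α ∈ {α | α ∈ 𝒜 ∧ u ≤ α ∧ α ≤ u + L ∧ T * 2 ^ j ≤ Ht α ∧
        Ht α < 2 * (T * 2 ^ j)}, Set.Ioo (α - ψ (Ht α)) (α + ψ (Ht α)) := by
    intro y hy
    rw [Set.mem_iUnion₂] at hy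
    obtain ⟨α, hα, hy⟩ := hy
    have h1 : 1 ≤ Ht α / T := by
      rw [le_div_iff₀ hT0, one_mul]; exact hα.2.2.2
    obtain ⟨j, hj1, hj2⟩ := exists_nat_pow_near h1 (show (1 : ℝ) < 2 by norm_num)
    rw [Set.mem_iUnion]
    refine ⟨j, ?_⟩
    rw [Set.mem_iUnion₂]
    refine ⟨α, ⟨hα.1, hα.2.1, hα.2.2.1, ?_, ?_⟩, hy⟩
    · rw [le_div_iff₀ hT0] at hj1; linarith
    · rw [div_lt_iff₀ hT0, pow_succ] at hj2; linarith
  refine (measure_mono hcover).trans ((measure_iUnion_le _).trans ?_)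
  set q1 : ℝ := (2 : ℝ) ^ (-s) with hq1
  set q2 : ℝ := (2 : ℝ) ^ (-(s - 2 * n)) with hq2
  have hq1l : q1 < 1 := Real.rpow_lt_one_of_one_lt_of_neg (by norm_num) (by linarith)
  have hq2l : q2 < 1 := Real.rpow_lt_one_of_one_lt_of_neg (by norm_num) (by linarith)
  have hq1p : 0 ≤ q1 := Real.rpow_nonneg (by norm_num) _
  have hq2p : 0 ≤ q2 := Real.rpow_nonneg (by norm_num) _
  have hterm : ∀ j : ℕ, (1 + L * (2 * (T * 2 ^ j)) ^ (2 * n) / κ) * (2 * (T * 2 ^ j) ^ (-s))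
      = 2 * T ^ (-s) * q1 ^ j + (2 * 4 ^ n / κ) * (L * T ^ (-(s - 2 * n))) * q2 ^ j := by
    intro j
    have e1 : (T * 2 ^ j) ^ (-s) = T ^ (-s) * q1 ^ j := by
      rw [Real.mul_rpow hT0.le (by positivity), hq1, ← Real.rpow_natCast ((2 : ℝ) ^ (-s)) j,
        ← Real.rpow_mul (by norm_num), ← Real.rpow_natCast (2 : ℝ) j,
        ← Real.rpow_mul (by norm_num)]
      congr 2
      ring
    have e2 : (2 * (T * 2 ^ j)) ^ (2 * n) * (T * 2 ^ j) ^ (-s)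
        = 4 ^ n * (T ^ (-(s - 2 * n)) * q2 ^ j) := by
      have hTj : 0 < T * 2 ^ j := by positivity
      have e3 : (2 * (T * 2 ^ j)) ^ (2 * n) = 4 ^ n * (T * 2 ^ j) ^ ((2 * n : ℕ) : ℝ) := by
        rw [mul_pow, Real.rpow_natCast, pow_mul (2 : ℝ) 2 n]; norm_num
      rw [e3, mul_assoc, ← Real.rpow_add hTj]
      congr 1
      have e4 : ((2 * n : ℕ) : ℝ) + -s = -(s - 2 * n) := by push_cast; ring
      rw [e4, Real.mul_rpow hT0.le (by positivity), hq2,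
        ← Real.rpow_natCast ((2 : ℝ) ^ (-(s - 2 * (n : ℝ)))) j,
        ← Real.rpow_mul (by norm_num), ← Real.rpow_natCast (2 : ℝ) j,
        ← Real.rpow_mul (by norm_num)]
      congr 2
      ring
    calc (1 + L * (2 * (T * 2 ^ j)) ^ (2 * n) / κ) * (2 * (T * 2 ^ j) ^ (-s))
        = 2 * (T * 2 ^ j) ^ (-s)
          + 2 * L / κ * ((2 * (T * 2 ^ j)) ^ (2 * n) * (T * 2 ^ j) ^ (-s)) := by ring
      _ = 2 * (T ^ (-s) * q1 ^ j) + 2 * L / κ * (4 ^ n * (T ^ (-(s - 2 * n)) * q2 ^ j)) := by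
          rw [e2, e1]
      _ = _ := by ring
  have hg1 : Summable (fun j : ℕ => 2 * T ^ (-s) * q1 ^ j) :=
    (summable_geometric_of_lt_one hq1p hq1l).mul_left _
  have hg2 : Summable (fun j : ℕ => (2 * 4 ^ n / κ) * (L * T ^ (-(s - 2 * n))) * q2 ^ j) :=
    (summable_geometric_of_lt_one hq2p hq2l).mul_left _
  calc ∑' j : ℕ, volume (⋃ α ∈ {α | α ∈ 𝒜 ∧ u ≤ α ∧ α ≤ u + L ∧ T * 2 ^ j ≤ Ht α ∧
        Ht α < 2 * (T * 2 ^ j)}, Set.Ioo (α - ψ (Ht α)) (α + ψ (Ht α)))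
      ≤ ∑' j : ℕ, ENNReal.ofReal (2 * T ^ (-s) * q1 ^ j
          + (2 * 4 ^ n / κ) * (L * T ^ (-(s - 2 * n))) * q2 ^ j) := by
        apply ENNReal.tsum_le_tsum
        intro j
        rw [← hterm j]
        apply m_block h ψ s x₀ hs0 hψ u L (T * 2 ^ j) hu hL huL
        · nlinarith [h2j j]
        · nlinarith [h2j j]
    _ = ENNReal.ofReal (∑' j : ℕ, (2 * T ^ (-s) * q1 ^ j
          + (2 * 4 ^ n / κ) * (L * T ^ (-(s - 2 * n))) * q2 ^ j)) := by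
        rw [ENNReal.ofReal_tsum_of_nonneg _ (hg1.add hg2)]
        intro j
        positivity
    _ ≤ ENNReal.ofReal (mA n κ s * (T ^ (-s) + L * T ^ (-(s - 2 * n)))) := by
        apply ENNReal.ofReal_le_ofReal
        rw [hg1.tsum_add hg2, tsum_mul_left, tsum_mul_left,
          tsum_geometric_of_lt_one hq1p hq1l, tsum_geometric_of_lt_one hq2p hq2l]
        unfold mA
        rw [← hq1, ← hq2]
        have t1 : 0 ≤ T ^ (-s) := Real.rpow_nonneg hT0.le _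
        have t2 : 0 ≤ L * T ^ (-(s - 2 * n)) := mul_nonneg hL (Real.rpow_nonneg hT0.le _)
        have t3 : 0 ≤ (1 - q1)⁻¹ := inv_nonneg.mpr (by linarith)
        have t4 : 0 ≤ (1 - q2)⁻¹ := inv_nonneg.mpr (by linarith)
        have t5 : 0 ≤ 2 * (1 - q1)⁻¹ * (L * T ^ (-(s - 2 * n))) := by positivity
        have t6 : 0 ≤ (2 * 4 ^ n / κ) * (1 - q2)⁻¹ * T ^ (-s) := by positivity
        nlinarith

end Pool.Agent.H322R2
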