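import Pool.Agent.H322R2.MB

open MeasureTheory Filter Topology

namespace Pool.Agent.H322R2

variable {𝒜 : Set ℝ} {Ht : ℝ → ℝ} {n : ℕ} {κ : ℝ}

theorem m_tend (c : ℝ) (hc : 0 < c) : Tendsto (fun η : ℝ => η ^ c) (𝓝[>] 0) (𝓝 0) := by
  have h1 : Tendsto (fun η : ℝ => η ^ c) (𝓝 0) (𝓝 ((0 : ℝ) ^ c)) :=
    (Real.continuousAt_rpow_const 0 c (Or.inr hc.le)).tendsto
  rw [Real.zero_rpow hc.ne'] at h1
  exact h1.mono_left nhdsWithin_le_nhds

/-- choice of a small scale -/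
theorem m_scale (p δ B g c₁ : ℝ) (hδ : 0 ≤ δ) (hp : 1 + δ < p) (hg : 0 < g) (hc₁ : 0 < c₁) :
    ∃ η : ℝ, 0 < η ∧ η ≤ 1 ∧ η ≤ g ∧ η ^ (1 / (1 + δ)) ≤ c₁ ∧
      B * η ^ p < (η / 4) ^ (1 + δ) ∧ B * η ^ p < η / 2 := by
  have t1 := (m_tend (1 / (1 + δ)) (by positivity)).eventually (ge_mem_nhds hc₁)
  have t2 := ((m_tend (p - (1 + δ)) (by linarith)).const_mul B)
  rw [mul_zero] at t2
  have t2' := t2.eventually (gt_mem_nhds (show (0 : ℝ) < (1 / 4) ^ (1 + δ) by positivity))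
  have t3 := ((m_tend (p - 1) (by linarith)).const_mul B)
  rw [mul_zero] at t3
  have t3' := t3.eventually (gt_mem_nhds (show (0 : ℝ) < 1 / 2 by norm_num))
  have t4 : ∀ᶠ η : ℝ in 𝓝[>] 0, η ≤ min 1 g :=
    nhdsWithin_le_nhds (ge_mem_nhds (lt_min one_pos hg))
  obtain ⟨η, h1, h2, h3, h4, h5⟩ :=
    (t1.and (t2'.and (t3'.and (t4.and self_mem_nhdsWithin)))).exists
  have h5' : (0 : ℝ) < η := h5
  refine ⟨η, h5', h4.trans (min_le_left _ _), h4.trans (min_le_right _ _), h1, ?_, ?_⟩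
  · have e1 : η ^ p = η ^ (p - (1 + δ)) * η ^ (1 + δ) := by
      rw [← Real.rpow_add h5']; congr 1; ring
    have e2 : (η / 4) ^ (1 + δ) = (1 / 4) ^ (1 + δ) * η ^ (1 + δ) := by
      rw [← Real.mul_rpow (by norm_num) h5'.le]; congr 1; ring
    rw [e1, e2, ← mul_assoc]
    exact mul_lt_mul_of_pos_right h2 (Real.rpow_pos_of_pos h5' _)
  · have e1 : η ^ p = η ^ (p - 1) * η := by
      conv_rhs => rw [← Real.rpow_one η, ← Real.rpow_mul h5'.le, one_mul, ← Real.rpow_add h5']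
      congr 1; ring
    rw [e1, ← mul_assoc]
    have := mul_lt_mul_of_pos_right h3 h5'
    linarith

/-- the covering of a one-sided neighbourhood is impossible -/
theorem m_key (h : MSet 𝒜 Ht n κ) (ψ₁ ψ₂ : ℝ → ℝ) (s δ x₀ : ℝ) (hδ : 0 ≤ δ)
    (hs : 2 * (n : ℝ) * (1 + δ) ^ 2 < s)
    (hψpos : ∀ x, x₀ ≤ x → 0 < ψ₁ x) (hψ₁ : ∀ x, x₀ ≤ x → ψ₁ x ≤ x ^ (-s))
    (hψ₂ : ∀ x, x₀ ≤ x → ψ₁ x + (ψ₁ x) ^ (1 + δ) ≤ ψ₂ x)
    (b g M : ℝ) (hb : 0 ≤ b) (hb2 : b ≤ 7 / 8) (hg : 0 < g) (hM : x₀ ≤ M)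
    (hgap : ∀ β ∈ 𝒜, M ≤ Ht β → ψ₂ (Ht β) ≤ |b - β|) (V : Set ℝ) (hV : V.Countable)
    (hcov : ∀ y ∈ Set.Ioo b (b + g), y ∈ V ∨ ∃ β ∈ 𝒜, M ≤ Ht β ∧ |y - β| < ψ₁ (Ht β)) :
    False := by
  have hκ := h.hκ
  have hn := h.hn
  have hn1 : (1 : ℝ) ≤ n := by exact_mod_cast hn
  have hδ1 : 1 ≤ (1 + δ) ^ 2 := by nlinarith
  have hs2 : 2 * (n : ℝ) < s := by nlinarith
  set A := mA n κ s with hA
  have hApos : 0 < A := mA_pos n κ s hκ hs2
  set p : ℝ := s / (2 * n * (1 + δ)) with hp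
  have hp1 : 1 + δ < p := by
    rw [hp, lt_div_iff₀ (by positivity)]
    nlinarith
  set X : ℝ := max 1 x₀ with hX
  have hX1 : 1 ≤ X := le_max_left _ _
  set B : ℝ := A * (1 + κ) * (2 / κ) ^ (s / (2 * n)) with hB
  obtain ⟨η, hη0, hη1, hηg, hηc, hη5, hη6⟩ := m_scale p δ B g (min (1 / 16) (κ / (2 * X ^ (2 * n))))
    hδ hp1 hg (by positivity)
  set L : ℝ := 2 * η ^ (1 / (1 + δ)) with hL
  have hηr : 0 < η ^ (1 / (1 + δ)) := Real.rpow_pos_of_pos hη0 _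
  have hL0 : 0 < L := by rw [hL]; positivity
  have hL8 : L ≤ 1 / 8 := by
    have := hηc.trans (min_le_left _ _)
    rw [hL]; linarith
  have hLX : L * X ^ (2 * n) ≤ κ := by
    have h1 := hηc.trans (min_le_right _ _)
    rw [le_div_iff₀ (by positivity)] at h1
    rw [hL]; linarith
  set R : Set ℝ := {β | β ∈ 𝒜 ∧ M ≤ Ht β ∧ ∃ y ∈ Set.Ioo b (b + η), |y - β| < ψ₁ (Ht β)} with hR
  have hRprop : ∀ β ∈ R, b ≤ β ∧ β ≤ b + L ∧ b + (ψ₁ (Ht β)) ^ (1 + δ) ≤ β - ψ₁ (Ht β) ∧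
      (ψ₁ (Ht β)) ^ (1 + δ) < η := by
    rintro β ⟨hβ, hMβ, y, ⟨hy1, hy2⟩, hy⟩
    have hψ := hψpos (Ht β) (hM.trans hMβ)
    have h2 := hψ₂ (Ht β) (hM.trans hMβ)
    have h3 := hgap β hβ hMβ
    have hψδ : 0 < (ψ₁ (Ht β)) ^ (1 + δ) := Real.rpow_pos_of_pos hψ _
    rw [abs_lt] at hy
    have hbβ : b < β := by
      by_contra hle
      push Not at hle
      rw [abs_of_nonneg (by linarith)] at h3
      linarith [hy.2]
    rw [abs_of_neg (by linarith)] at h3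
    have h4 : (ψ₁ (Ht β)) ^ (1 + δ) < η := by linarith [hy.1]
    have h5 : ψ₁ (Ht β) < η ^ (1 / (1 + δ)) := by
      have e : ψ₁ (Ht β) = ((ψ₁ (Ht β)) ^ (1 + δ)) ^ (1 / (1 + δ)) := by
        rw [← Real.rpow_mul hψ.le, mul_one_div_cancel (by linarith), Real.rpow_one]
      rw [e]
      exact Real.rpow_lt_rpow hψδ.le h4 (by positivity)
    have h6 : η ≤ η ^ (1 / (1 + δ)) := by
      conv_lhs => rw [← Real.rpow_one η]
      apply Real.rpow_le_rpow_of_exponent_ge hη0 hη1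
      rw [div_le_one (by linarith)]
      linarith
    refine ⟨hbβ.le, ?_, by linarith, h4⟩
    rw [hL]
    linarith [hy.1]
  -- `R` nonempty
  have hRne : R.Nonempty := by
    by_contra hemp
    rw [Set.not_nonempty_iff_eq_empty] at hemp
    have hsub : Set.Ioo b (b + η) ⊆ V := by
      intro y hy
      rcases hcov y ⟨hy.1, by linarith [hy.2]⟩ with h1 | ⟨β, hβ, hMβ, hyβ⟩
      · exact h1
      · have : β ∈ R := ⟨hβ, hMβ, y, hy, hyβ⟩
        rw [hemp] at this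
        exact absurd this (Set.notMem_empty _)
    have h0 : volume (Set.Ioo b (b + η)) = 0 := measure_mono_null hsub (hV.measure_zero _)
    rw [Real.volume_Ioo, ENNReal.ofReal_eq_zero] at h0
    linarith
  obtain ⟨β₀, hβ₀⟩ := hRne
  obtain ⟨β₁, hβ₁, hmin⟩ : ∃ β₁ ∈ R, ∀ β ∈ R, Ht β₁ ≤ Ht β := by
    have hfin : {β | β ∈ R ∧ Ht β ≤ Ht β₀}.Finite :=
      (h.hfin (Ht β₀)).subset (fun β hβ => ⟨hβ.1.1, hβ.2⟩)
    obtain ⟨β₁, hβ₁, hmin⟩ := Set.exists_min_image _ Ht hfin ⟨β₀, hβ₀, le_rfl⟩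
    refine ⟨β₁, hβ₁.1, fun β hβ => ?_⟩
    by_cases hle : Ht β ≤ Ht β₀
    · exact hmin β ⟨hβ, hle⟩
    · push Not at hle
      exact hβ₁.2.trans hle.le
  set ψ : ℝ := ψ₁ (Ht β₁) with hψdef
  have hψ0 : 0 < ψ := hψpos _ (hM.trans hβ₁.2.1)
  have hψδ0 : 0 < ψ ^ (1 + δ) := Real.rpow_pos_of_pos hψ0 _
  obtain ⟨hβ₁a, hβ₁b, hβ₁c, hβ₁d⟩ := hRprop β₁ hβ₁
  rw [← hψdef] at hβ₁c hβ₁d
  set T : ℝ := (κ / L) ^ (1 / (2 * (n : ℝ))) with hT
  have hκL : 0 < κ / L := by positivity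
  have h2n : (0 : ℝ) < 2 * n := by linarith
  have hTX : X ≤ T := by
    have e : X = (X ^ (2 * n)) ^ (1 / (2 * (n : ℝ))) := by
      rw [← Real.rpow_natCast X (2 * n), ← Real.rpow_mul (by linarith)]
      push_cast
      rw [mul_one_div_cancel h2n.ne', Real.rpow_one]
    rw [e, hT]
    apply Real.rpow_le_rpow (by positivity) _ (by positivity)
    rw [le_div_iff₀ hL0]
    linarith
  have hothers : ∀ β ∈ R, β ≠ β₁ → T ≤ Ht β := by
    intro β hβ hne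
    obtain ⟨ha, hb', hc', -⟩ := hRprop β hβ
    have hβ1 := h.hHt β hβ.1
    have hβ₁1 := h.hHt β₁ hβ₁.1
    have h1 := h.hsp β hβ.1 β₁ hβ₁.1 hne
      (by rw [abs_of_nonneg (by linarith)]; linarith)
      (by rw [abs_of_nonneg (by linarith)]; linarith)
    have h2 : |β - β₁| ≤ L := by
      rw [abs_le]; constructor <;> linarith
    have h3 : (Ht β * Ht β₁) ^ n ≤ (Ht β) ^ (2 * n) := by
      rw [pow_mul, sq]
      apply pow_le_pow_left₀ (by positivity)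
      exact mul_le_mul_of_nonneg_left (hmin β hβ) (by linarith)
    have h4 : κ ≤ L * (Ht β) ^ (2 * n) := by
      refine h1.trans ?_
      exact mul_le_mul h2 h3 (by positivity) hL0.le
    have e : Ht β = ((Ht β) ^ (2 * n)) ^ (1 / (2 * (n : ℝ))) := by
      rw [← Real.rpow_natCast (Ht β) (2 * n), ← Real.rpow_mul (by linarith)]
      push_cast
      rw [mul_one_div_cancel h2n.ne', Real.rpow_one]
    rw [e, hT]
    apply Real.rpow_le_rpow hκL.le _ (by positivity)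
    rw [div_le_iff₀ hL0]
    linarith
  have hmeas := m_measure h ψ₁ s x₀ hs2 hψ₁ b L T hb hL0.le (by linarith) (hX1.trans hTX)
    ((le_max_right _ _).trans hTX)
  set W : Set ℝ := ⋃ α ∈ {α | α ∈ 𝒜 ∧ b ≤ α ∧ α ≤ b + L ∧ T ≤ Ht α},
      Set.Ioo (α - ψ₁ (Ht α)) (α + ψ₁ (Ht α)) with hW
  -- rewrite the bound
  have hbound : A * (T ^ (-s) + L * T ^ (-(s - 2 * n))) = B * η ^ p := by
    have hLκ : 0 < L / κ := by positivity
    have e0 : (κ / L) = (L / κ)⁻¹ := by rw [inv_div]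
    have e1 : T ^ (-s) = (L / κ) ^ (s / (2 * n)) := by
      rw [hT, ← Real.rpow_mul hκL.le, e0, Real.inv_rpow hLκ.le, ← Real.rpow_neg hLκ.le]
      congr 1
      ring
    have e2 : L * T ^ (-(s - 2 * n)) = κ * (L / κ) ^ (s / (2 * n)) := by
      rw [hT, ← Real.rpow_mul hκL.le, e0, Real.inv_rpow hLκ.le, ← Real.rpow_neg hLκ.le]
      have e3 : (L / κ) ^ (s / (2 * n)) = (L / κ) * (L / κ) ^ (-(1 / (2 * (n : ℝ)) * -(s - 2 * n))) := by
        conv_rhs => rw [← Real.rpow_one (L / κ), ← Real.rpow_mul hLκ.le, one_mul,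
          ← Real.rpow_add hLκ]
        congr 1
        field_simp
        ring
      rw [e3]
      field_simp
    have e4 : (L / κ) ^ (s / (2 * n)) = (2 / κ) ^ (s / (2 * n)) * η ^ p := by
      have e5 : L / κ = (2 / κ) * η ^ (1 / (1 + δ)) := by rw [hL]; ring
      rw [e5, Real.mul_rpow (by positivity) hηr.le, ← Real.rpow_mul hη0.le]
      congr 2
      rw [hp]
      field_simp
    rw [e1, e2, e4, hB]
    ring
  rw [← hA, hbound] at hmeas
  -- covering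
  have hsub : Set.Ioo b (b + η) ⊆
      (V ∪ (Set.Ioo (β₁ - ψ) (β₁ + ψ) ∩ Set.Ioo b (b + η))) ∪ W := by
    intro y hy
    rcases hcov y ⟨hy.1, by linarith [hy.2]⟩ with h1 | ⟨β, hβ, hMβ, hyβ⟩
    · exact Or.inl (Or.inl h1)
    · have hβR : β ∈ R := ⟨hβ, hMβ, y, hy, hyβ⟩
      have hyIoo : y ∈ Set.Ioo (β - ψ₁ (Ht β)) (β + ψ₁ (Ht β)) := by
        rw [abs_lt] at hyβ
        constructor <;> linarith [hyβ.1, hyβ.2]
      by_cases hββ : β = β₁
      · left; right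
        rw [hββ] at hyIoo
        exact ⟨hyIoo, hy⟩
      · right
        rw [hW, Set.mem_iUnion₂]
        obtain ⟨ha, hb', -, -⟩ := hRprop β hβR
        exact ⟨β, ⟨hβ, ha, hb', hothers β hβR hββ⟩, hyIoo⟩
  have hBη : 0 ≤ B * η ^ p := by
    rw [hB]; positivity
  have hvol : ∀ c : ℝ, 0 ≤ c →
      volume (Set.Ioo (β₁ - ψ) (β₁ + ψ) ∩ Set.Ioo b (b + η)) ≤ ENNReal.ofReal c →
      η ≤ c + B * η ^ p := by
    intro c hc hvc
    have h1 : ENNReal.ofReal η ≤ ENNReal.ofReal (c + B * η ^ p) := by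
      calc ENNReal.ofReal η = volume (Set.Ioo b (b + η)) := by
            rw [Real.volume_Ioo]; congr 1; ring
        _ ≤ volume ((V ∪ (Set.Ioo (β₁ - ψ) (β₁ + ψ) ∩ Set.Ioo b (b + η))) ∪ W) :=
            measure_mono hsub
        _ ≤ (volume V + volume (Set.Ioo (β₁ - ψ) (β₁ + ψ) ∩ Set.Ioo b (b + η))) + volume W :=
            (measure_union_le _ _).trans (add_le_add_left (measure_union_le _ _) _)
        _ ≤ (0 + ENNReal.ofReal c) + ENNReal.ofReal (B * η ^ p) := by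
            apply add_le_add (add_le_add _ hvc) hmeas
            rw [hV.measure_zero]
        _ = ENNReal.ofReal (c + B * η ^ p) := by
            rw [zero_add, ENNReal.ofReal_add hc hBη]
    rwa [ENNReal.ofReal_le_ofReal_iff (by linarith)] at h1
  by_cases hcase : η / 4 ≤ ψ
  · have h1 := hvol (η - ψ ^ (1 + δ)) (by linarith) (by
      have hs' : Set.Ioo (β₁ - ψ) (β₁ + ψ) ∩ Set.Ioo b (b + η)
          ⊆ Set.Ioo (b + ψ ^ (1 + δ)) (b + η) := by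
        rintro y ⟨⟨hy1, hy2⟩, hy3, hy4⟩
        exact ⟨by linarith, hy4⟩
      refine (measure_mono hs').trans ?_
      rw [Real.volume_Ioo]
      apply ENNReal.ofReal_le_ofReal
      linarith)
    have h2 : (η / 4) ^ (1 + δ) ≤ ψ ^ (1 + δ) :=
      Real.rpow_le_rpow (by positivity) hcase (by linarith)
    linarith
  · push Not at hcase
    have h1 := hvol (2 * ψ) (by linarith) (by
      refine (measure_mono Set.inter_subset_left).trans ?_
      rw [Real.volume_Ioo]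
      apply ENNReal.ofReal_le_ofReal
      linarith)
    linarith

end Pool.Agent.H322R2
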