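import Pool.Agent.H322R2.MC

open MeasureTheory Filter Topology

namespace Pool.Agent.H322R2

variable {𝒜 : Set ℝ} {Ht : ℝ → ℝ} {n : ℕ} {κ : ℝ}

/-- choice of the initial height -/
theorem m_init (A s c : ℝ) (n : ℕ) (x₀ : ℝ) (hs : 2 * (n : ℝ) < s) (hc : 0 < c) :
    ∃ H : ℝ, 1 ≤ H ∧ x₀ ≤ H ∧ H ^ (-s) ≤ 1 / 8 ∧
      A * (H ^ (-s) + 1 * H ^ (-(s - 2 * n))) < c := by
  have hn0 : (0 : ℝ) ≤ n := Nat.cast_nonneg n
  have t1 : Tendsto (fun H : ℝ => H ^ (-s)) atTop (𝓝 0) :=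
    tendsto_rpow_neg_atTop (by linarith)
  have t2 : Tendsto (fun H : ℝ => H ^ (-(s - 2 * n))) atTop (𝓝 0) :=
    tendsto_rpow_neg_atTop (by linarith)
  have t3 : Tendsto (fun H : ℝ => A * (H ^ (-s) + 1 * H ^ (-(s - 2 * n)))) atTop (𝓝 0) := by
    have := (t1.add (t2.const_mul 1)).const_mul A
    simpa using this
  have e1 := t1.eventually (ge_mem_nhds (show (0 : ℝ) < 1 / 8 by norm_num))
  have e3 := t3.eventually (gt_mem_nhds hc)
  obtain ⟨H, h1, h2, h3⟩ := (e1.and (e3.and (eventually_ge_atTop (max 1 x₀)))).exists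
  exact ⟨H, (le_max_left _ _).trans h3, (le_max_right _ _).trans h3, h1, h2⟩

theorem m_main (h : MSet 𝒜 Ht n κ) (ψ₁ ψ₂ : ℝ → ℝ) (s δ x₀ : ℝ) (hδ : 0 ≤ δ)
    (hs : 2 * (n : ℝ) * (1 + δ) ^ 2 < s)
    (hψpos : ∀ x, x₀ ≤ x → 0 < ψ₁ x) (hψ₁ : ∀ x, x₀ ≤ x → ψ₁ x ≤ x ^ (-s))
    (hψ₂ : ∀ x, x₀ ≤ x → ψ₁ x + (ψ₁ x) ^ (1 + δ) ≤ ψ₂ x) :
    ∃ ξ : ℝ, {α | α ∈ 𝒜 ∧ |ξ - α| < ψ₂ (Ht α)}.Infinite ∧
      {α | α ∈ 𝒜 ∧ |ξ - α| < ψ₁ (Ht α)}.Finite := by
  have hn1 : (1 : ℝ) ≤ n := by exact_mod_cast h.hn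
  have hδ1 : 1 ≤ (1 + δ) ^ 2 := by nlinarith
  have hs2 : 2 * (n : ℝ) < s := by nlinarith
  obtain ⟨H₀, hH1, hHx, hH8, hHA⟩ := m_init (mA n κ s) s (1 / 4) n x₀ hs2 (by norm_num)
  have hψ8 : ∀ x, H₀ ≤ x → ψ₁ x ≤ 1 / 8 := by
    intro x hx
    refine (hψ₁ x (hHx.trans hx)).trans (le_trans ?_ hH8)
    exact Real.rpow_le_rpow_of_nonpos (by linarith) hx (by linarith)
  set U : Set ℝ := ⋃ α ∈ {α | α ∈ 𝒜 ∧ (0 : ℝ) ≤ α ∧ α ≤ 0 + 1 ∧ H₀ ≤ Ht α},
      Set.Ioo (α - ψ₁ (Ht α)) (α + ψ₁ (Ht α)) with hU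
  have hUopen : IsOpen U := isOpen_biUnion fun _ _ => isOpen_Ioo
  have hUvol : volume U < ENNReal.ofReal (1 / 4) := by
    refine lt_of_le_of_lt (m_measure h ψ₁ s x₀ hs2 hψ₁ 0 1 H₀ le_rfl (by norm_num)
      (by norm_num) hH1 hHx) ?_
    rw [ENNReal.ofReal_lt_ofReal_iff (by norm_num)]
    exact hHA
  set F : Set ℝ := Set.Icc (5 / 8) (7 / 8) \ U with hF
  have hFclosed : IsClosed F := isClosed_Icc.sdiff hUopen
  have hFunc : ¬ F.Countable := by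
    intro hcount
    have h1 : Set.Icc (5 / 8 : ℝ) (7 / 8) ⊆ F ∪ U := by
      intro y hy
      by_cases hyU : y ∈ U
      · exact Or.inr hyU
      · exact Or.inl ⟨hy, hyU⟩
    have h2 : ENNReal.ofReal (1 / 4) ≤ volume U := by
      calc ENNReal.ofReal (1 / 4) = volume (Set.Icc (5 / 8 : ℝ) (7 / 8)) := by
            rw [Real.volume_Icc]; congr 1; norm_num
        _ ≤ volume (F ∪ U) := measure_mono h1
        _ ≤ volume F + volume U := measure_union_le _ _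
        _ = volume U := by rw [hcount.measure_zero, zero_add]
    exact absurd hUvol (not_lt.mpr h2)
  obtain ⟨V, K, hV, hKperf, hFVK⟩ := exists_countable_union_perfect_of_isClosed hFclosed
  have hKF : K ⊆ F := by rw [hFVK]; exact Set.subset_union_right
  have hKne : K.Nonempty := by
    by_contra hemp
    rw [Set.not_nonempty_iff_eq_empty] at hemp
    rw [hemp, Set.union_empty] at hFVK
    rw [hFVK] at hFunc
    exact hFunc hV
  have hKclosed : IsClosed K := hKperf.closed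
  -- membership in `U`
  have hmemU : ∀ y α : ℝ, α ∈ 𝒜 → H₀ ≤ Ht α → 5 / 8 ≤ y → y ≤ 7 / 8 → |y - α| < ψ₁ (Ht α) →
      y ∈ U := by
    intro y α hα hHα hy1 hy2 hyα
    have h8 := hψ8 (Ht α) hHα
    have hyα' := hyα
    rw [abs_lt] at hyα
    rw [hU, Set.mem_iUnion₂]
    exact ⟨α, ⟨hα, by linarith [hyα.1, hyα.2], by linarith [hyα.1, hyα.2], hHα⟩,
      by constructor <;> linarith [hyα.1, hyα.2]⟩
  by_contra hno
  push Not at hno
  -- for points of `K` the `ψ₁`-set is finite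
  have hK1 : ∀ ξ ∈ K, {α | α ∈ 𝒜 ∧ |ξ - α| < ψ₁ (Ht α)}.Finite := by
    intro ξ hξ
    refine (h.hfin H₀).subset ?_
    rintro α ⟨hα, hlt⟩
    refine ⟨hα, ?_⟩
    by_contra hgt
    push Not at hgt
    have hξF := hKF hξ
    exact hξF.2 (hmemU ξ α hα hgt.le hξF.1.1 hξF.1.2 hlt)
  have hK2 : ∀ ξ ∈ K, {α | α ∈ 𝒜 ∧ |ξ - α| < ψ₂ (Ht α)}.Finite := by
    intro ξ hξ
    by_contra hinf
    exact hno ξ hinf (hK1 ξ hξ)
  -- Baire
  haveI : Nonempty K := hKne.to_subtype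
  haveI : CompleteSpace K := hKclosed.completeSpace_coe
  let f : ℕ → Set K := fun m => {ξ : K | ∀ α ∈ 𝒜, (m : ℝ) ≤ Ht α → ψ₂ (Ht α) ≤ |(ξ : ℝ) - α|}
  have hfc : ∀ m, IsClosed (f m) := by
    intro m
    have : f m = ⋂ α ∈ {α | α ∈ 𝒜 ∧ (m : ℝ) ≤ Ht α}, {ξ : K | ψ₂ (Ht α) ≤ |(ξ : ℝ) - α|} := by
      ext ξ
      simp only [f, Set.mem_setOf_eq, Set.mem_iInter, and_imp]
    rw [this]
    apply isClosed_biInter
    intro α _
    apply isClosed_le continuous_const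
    exact (continuous_subtype_val.sub continuous_const).abs
  have hfU : ⋃ m, f m = Set.univ := by
    rw [Set.eq_univ_iff_forall]
    intro ξ
    obtain ⟨Bd, hBd⟩ := ((hK2 ξ ξ.2).image Ht).bddAbove
    obtain ⟨m, hm⟩ := exists_nat_gt Bd
    rw [Set.mem_iUnion]
    refine ⟨m, fun α hα hmα => ?_⟩
    by_contra hlt
    push Not at hlt
    have := hBd (Set.mem_image_of_mem Ht ⟨hα, hlt⟩)
    linarith
  obtain ⟨m, x, hx⟩ := nonempty_interior_of_iUnion_of_closed hfc hfU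
  rw [mem_interior_iff_mem_nhds, Metric.mem_nhds_iff] at hx
  obtain ⟨ε, hε, hball⟩ := hx
  have hgood : ∀ y ∈ K, |y - x| < ε → ∀ α ∈ 𝒜, (m : ℝ) ≤ Ht α → ψ₂ (Ht α) ≤ |y - α| := by
    intro y hy hyx
    have : (⟨y, hy⟩ : K) ∈ Metric.ball x ε := by
      rw [Metric.mem_ball, Subtype.dist_eq, Real.dist_eq]
      exact hyx
    exact hball this
  set M : ℝ := max m H₀ with hM
  have hMm : (m : ℝ) ≤ M := le_max_left _ _
  have hMH : H₀ ≤ M := le_max_right _ _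
  set S : Set ℝ := {α | α ∈ 𝒜 ∧ Ht α ≤ M} with hS
  have hSfin : S.Finite := h.hfin M
  set E : Set ℝ := S ∪ ((fun α => α + ψ₁ (Ht α)) '' S ∪ (fun α => α - ψ₁ (Ht α)) '' S) ∪ {7 / 8}
    with hE
  have hEfin : E.Finite :=
    (hSfin.union ((hSfin.image _).union (hSfin.image _))).union (Set.finite_singleton _)
  have hacc := accPt_iff_nhds.mp (hKperf.acc x x.2) (Metric.ball (x : ℝ) ε ∩ (E \ {(x : ℝ)})ᶜ)
    (Filter.inter_mem (Metric.ball_mem_nhds _ hε)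
      ((hEfin.sdiff (t := {(x : ℝ)})).isClosed.isOpen_compl.mem_nhds (by simp)))
  obtain ⟨y, ⟨⟨hyball, hyE⟩, hyK⟩, hyx⟩ := hacc
  have hyE' : y ∉ E := by
    intro hyE2
    exact hyE ⟨hyE2, hyx⟩
  have hyF := hKF hyK
  have hy1 : 5 / 8 ≤ y := hyF.1.1
  have hy2 : y < 7 / 8 := lt_of_le_of_ne hyF.1.2 (by
    intro h0
    exact hyE' (Or.inr h0))
  -- the closed set to avoid
  set C : Set ℝ := S ∪ ⋃ α ∈ {α | α ∈ S ∧ H₀ ≤ Ht α}, Metric.closedBall α (ψ₁ (Ht α)) with hC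
  have hCclosed : IsClosed C := by
    apply hSfin.isClosed.union
    apply Set.Finite.isClosed_biUnion
    · exact hSfin.subset (fun α hα => hα.1)
    · intro α _
      exact Metric.isClosed_closedBall
  have hyC : y ∉ C := by
    rintro (hyS | hyB)
    · exact hyE' (Or.inl (Or.inl hyS))
    · rw [Set.mem_iUnion₂] at hyB
      obtain ⟨α, ⟨hαS, hHα⟩, hyα⟩ := hyB
      rw [Metric.mem_closedBall, Real.dist_eq] at hyα
      rcases lt_or_eq_of_le hyα with hlt | heq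
      · exact hyF.2 (hmemU y α hαS.1 hHα hy1 hyF.1.2 hlt)
      · apply hyE'
        left; right
        rcases abs_choice (y - α) with hc | hc
        · left
          exact ⟨α, hαS, by simp only; linarith⟩
        · right
          exact ⟨α, hαS, by simp only; linarith⟩
  have hyopen : Metric.ball (x : ℝ) ε ∩ Cᶜ ∩ Set.Iio (7 / 8) ∈ 𝓝 y := by
    apply Filter.inter_mem
    · exact Filter.inter_mem (Metric.isOpen_ball.mem_nhds hyball) (hCclosed.isOpen_compl.mem_nhds hyC)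
    · exact Iio_mem_nhds hy2
  rw [Metric.mem_nhds_iff] at hyopen
  obtain ⟨ε₂, hε₂, hball₂⟩ := hyopen
  have hnear : ∀ t, y ≤ t → t < y + ε₂ → |t - x| < ε ∧ t ∉ C ∧ t < 7 / 8 := by
    intro t ht1 ht2
    have : t ∈ Metric.ball y ε₂ := by
      rw [Metric.mem_ball, Real.dist_eq, abs_of_nonneg (by linarith)]; linarith
    obtain ⟨⟨h1, h2⟩, h3⟩ := hball₂ this
    exact ⟨by rw [Metric.mem_ball, Real.dist_eq] at h1; exact h1, h2, h3⟩
  obtain ⟨α, hα, hyα, hαε⟩ := h.hdense y (y + ε₂ / 2) (by linarith) (by linarith)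
    (by have := (hnear (y + ε₂ / 2) (by linarith) (by linarith)).2.2; linarith)
  obtain ⟨hαx, hαC, hα7⟩ := hnear α hyα.le (by linarith)
  have hαM : M < Ht α := by
    by_contra hle
    push Not at hle
    exact hαC (Or.inl ⟨hα, hle⟩)
  have hαK : α ∉ K := by
    intro hαK
    have h1 := hψpos (Ht α) (hHx.trans (hMH.trans hαM.le))
    exact (hKF hαK).2 (hmemU α α hα (hMH.trans hαM.le) (by linarith) hα7.le
      (by rw [sub_self, abs_zero]; exact h1))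
  -- the left endpoint of the gap
  have hcomp : IsCompact (K ∩ Set.Icc y α) := isCompact_Icc.inter_left hKclosed
  have hcne : (K ∩ Set.Icc y α).Nonempty := ⟨y, hyK, le_rfl, hyα.le⟩
  set b : ℝ := sSup (K ∩ Set.Icc y α) with hb
  have hbmem : b ∈ K ∩ Set.Icc y α := hcomp.sSup_mem hcne
  have hbα : b < α := lt_of_le_of_ne hbmem.2.2 (by
    intro h0
    rw [h0] at hbmem
    exact hαK hbmem.1)
  have hgapK : ∀ t, b < t → t < α → t ∉ K := by
    intro t ht1 ht2 htK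
    have : t ≤ b := le_csSup hcomp.bddAbove ⟨htK, hbmem.2.1.trans ht1.le, ht2.le⟩
    linarith
  obtain ⟨hbx, hbC, hb7⟩ := hnear b hbmem.2.1 (by linarith)
  refine m_key h ψ₁ ψ₂ s δ x₀ hδ hs hψpos hψ₁ hψ₂ b (α - b) M (by linarith [hbmem.2.1]) hb7.le
    (by linarith) (hHx.trans hMH) (fun β hβ hMβ => hgood b hbmem.1 hbx β hβ (hMm.trans hMβ))
    V hV ?_
  intro t ht
  have htα : t < α := by linarith [ht.2]
  have htK := hgapK t ht.1 htα
  obtain ⟨htx, htC, ht7⟩ := hnear t (hbmem.2.1.trans ht.1.le) (by linarith)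
  by_cases htU : t ∈ U
  · right
    rw [hU, Set.mem_iUnion₂] at htU
    obtain ⟨β, ⟨hβ, hβ0, hβ1, hHβ⟩, htβ⟩ := htU
    have hlt : |t - β| < ψ₁ (Ht β) := by
      rw [abs_lt]; constructor <;> linarith [htβ.1, htβ.2]
    refine ⟨β, hβ, ?_, hlt⟩
    by_contra hgt
    push Not at hgt
    apply htC
    right
    rw [Set.mem_iUnion₂]
    exact ⟨β, ⟨⟨hβ, hgt.le⟩, hHβ⟩, by rw [Metric.mem_closedBall, Real.dist_eq]; exact hlt.le⟩
  · left
    have htF : t ∈ F := ⟨⟨by linarith [hbmem.2.1, ht.1], ht7.le⟩, htU⟩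
    rw [hFVK] at htF
    rcases htF with h1 | h1
    · exact h1
    · exact absurd h1 htK

end Pool.Agent.H322R2
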