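import Pool.Agent.H322R2.MD

open Polynomial Filter Topology

namespace Pool.Agent.H322R2

/-- height of an integer polynomial -/
def mht (P : ℤ[X]) : ℕ := P.support.sup fun i => (P.coeff i).natAbs

theorem m_coeff_le_ht (P : ℤ[X]) (i : ℕ) : |(P.coeff i : ℝ)| ≤ mht P := by
  by_cases h : i ∈ P.support
  · have h1 : (P.coeff i).natAbs ≤ mht P :=
      Finset.le_sup (f := fun i => (P.coeff i).natAbs) h
    have h2 : |(P.coeff i : ℝ)| = ((P.coeff i).natAbs : ℝ) := by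
      rw [Nat.cast_natAbs]; push_cast; rfl
    rw [h2]
    exact_mod_cast h1
  · rw [notMem_support_iff] at h
    rw [h]
    simp

theorem m_one_le_ht (P : ℤ[X]) (hP : P ≠ 0) : (1 : ℝ) ≤ mht P :=
  k_one_le P hP _ (m_coeff_le_ht P)

theorem m_finite_ht (D B : ℕ) : {P : ℤ[X] | P.natDegree ≤ D ∧ mht P ≤ B}.Finite := by
  have h1 : (Set.pi Set.univ (fun _ : Fin (D + 1) => Set.Icc (-(B : ℤ)) B)).Finite :=
    Set.Finite.pi fun _ => Set.finite_Icc _ _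
  refine Set.Finite.of_injOn (f := fun P : ℤ[X] => fun i : Fin (D + 1) => P.coeff i) ?_ ?_ h1
  · rintro P ⟨_, hP⟩ i _
    have h2 := m_coeff_le_ht P i
    have h3 : |P.coeff i| ≤ (B : ℤ) := by
      have : (mht P : ℝ) ≤ B := by exact_mod_cast hP
      have h4 := h2.trans this
      exact_mod_cast h4
    exact abs_le.mp h3
  · rintro P ⟨hP, _⟩ Q ⟨hQ, _⟩ hPQ
    ext i
    by_cases hi : i ≤ D
    · exact congrFun hPQ ⟨i, by omega⟩
    · rw [coeff_eq_zero_of_natDegree_lt (by omega), coeff_eq_zero_of_natDegree_lt (by omega)]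

theorem m_ht_unique (P Q : ℤ[X]) (hP : Irreducible P) (hQ : Irreducible Q) (α : ℝ)
    (hα : aeval α P = 0) (hα' : aeval α Q = 0) : mht P = mht Q := by
  have h1 := m_dvd_of_root P hP (α : ℂ) (m_root_real α P hα) Q (m_root_real α Q hα')
  have h2 := m_dvd_of_root Q hQ (α : ℂ) (m_root_real α Q hα') P (m_root_real α P hα)
  obtain ⟨u, hu⟩ := associated_of_dvd_dvd h1 h2
  obtain ⟨r, hr, hru⟩ := Polynomial.isUnit_iff.mp u.isUnit
  have hcoef : ∀ i, (Q.coeff i).natAbs = (P.coeff i).natAbs := by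
    intro i
    rw [← hu, ← hru, mul_comm, coeff_C_mul, Int.natAbs_mul, Int.isUnit_iff_natAbs_eq.mp hr,
      one_mul]
  have hsupp : Q.support = P.support := by
    ext i
    rw [mem_support_iff, mem_support_iff, ← Int.natAbs_ne_zero, hcoef i, Int.natAbs_ne_zero]
  unfold mht
  rw [hsupp]
  exact Finset.sup_congr rfl fun i _ => (hcoef i).symm

/-- the real algebraic numbers whose degree satisfies `D` -/
def mA' (D : ℕ → Prop) : Set ℝ :=
  {α | ∃ P : ℤ[X], Irreducible P ∧ aeval α P = 0 ∧ D P.natDegree}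

open Classical in
/-- the height of a real algebraic number -/
noncomputable def mHt (α : ℝ) : ℝ :=
  if h : ∃ P : ℤ[X], Irreducible P ∧ aeval α P = 0 then (mht h.choose : ℝ) else 1

theorem mHt_eq (α : ℝ) (P : ℤ[X]) (hP : Irreducible P) (hα : aeval α P = 0) :
    mHt α = mht P := by
  have h : ∃ P : ℤ[X], Irreducible P ∧ aeval α P = 0 := ⟨P, hP, hα⟩
  unfold mHt
  rw [dif_pos h]
  exact_mod_cast m_ht_unique _ _ h.choose_spec.1 hP α h.choose_spec.2 hα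

theorem m_mset (n : ℕ) (hn : 1 ≤ n) (D : ℕ → Prop) (hD : ∀ d, D d → d ≤ n) (hDn : D n) :
    MSet (mA' D) mHt n ((((n : ℝ) + 1) ^ (3 * n + 1))⁻¹) where
  hn := hn
  hκ := by positivity
  hHt := by
    rintro α ⟨P, hP, hα, -⟩
    rw [mHt_eq α P hP hα]
    exact m_one_le_ht P hP.ne_zero
  hfin := by
    intro B
    refine ((m_finite_ht n ⌊B⌋₊).biUnion (t := fun P : ℤ[X] => P.rootSet ℝ)
      (fun P _ => P.rootSet_finite ℝ)).subset ?_
    rintro α ⟨⟨P, hP, hα, hPD⟩, hB⟩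
    rw [mHt_eq α P hP hα] at hB
    rw [Set.mem_iUnion₂]
    refine ⟨P, ⟨hD _ hPD, Nat.le_floor hB⟩, ?_⟩
    rw [mem_rootSet]
    exact ⟨hP.ne_zero, hα⟩
  hsp := by
    rintro α ⟨P, hP, hα, hPD⟩ β ⟨Q, hQ, hβ, hQD⟩ hne hα1 hβ1
    have key : 1 ≤ ((n : ℝ) + 1) ^ (3 * n + 1) * |α - β| * (mHt α * mHt β) ^ n := by
      by_cases hQα : aeval α Q = 0
      · rw [mHt_eq α Q hQ hQα, mHt_eq β Q hQ hβ]
        exact m_spacing2 n hn Q hQ (hD _ hQD) α β hQα hβ hne hα1 hβ1 _ (m_coeff_le_ht Q)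
      · rw [mHt_eq α P hP hα, mHt_eq β Q hQ hβ]
        exact m_spacing1 n hn P Q hP (hD _ hPD) (hD _ hQD) α β hα hβ hQα hα1 hβ1 _ _
          (m_coeff_le_ht P) (m_coeff_le_ht Q)
    have hpos : (0 : ℝ) < ((n : ℝ) + 1) ^ (3 * n + 1) := by positivity
    rw [inv_le_iff_one_le_mul₀' hpos]
    linarith
  hdense := by
    intro u v hu huv hv
    obtain ⟨s, ⟨hs1, hs2, hs3, hs4, hs5⟩, h1, h2, -⟩ := k_step0 n hn n hn le_rfl 1 le_rfl 0 u (v - u)
      hu (by linarith) (by linarith)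
    have hkr := kr_pos n hn 1 s.m
    refine ⟨s.x, ⟨kR (3 ^ s.m) s.p n, kR_irr s.m hs5 s.p hs4 n hn, ?_, ?_⟩, by linarith,
      by linarith⟩
    · rw [kR_aeval]
      push_cast
      linarith
    · rw [kR_natDegree _ _ (by positivity) n hn]
      exact hDn

/-- general functions -/
theorem m_general (n : ℕ) (hn : 1 ≤ n) (D : ℕ → Prop) (hD : ∀ d, D d → d ≤ n) (hDn : D n)
    (ψ₁ ψ₂ : ℝ → ℝ) (s δ x₀ : ℝ) (hδ : 0 ≤ δ)
    (hs : 2 * (n : ℝ) * (1 + δ) ^ 2 < s)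
    (hψpos : ∀ x, x₀ ≤ x → 0 < ψ₁ x) (hψ₁ : ∀ x, x₀ ≤ x → ψ₁ x ≤ x ^ (-s))
    (hψ₂ : ∀ x, x₀ ≤ x → ψ₁ x + (ψ₁ x) ^ (1 + δ) ≤ ψ₂ x) :
    ∃ ξ : ℝ, {α : ℝ | ∃ P : ℤ[X], Irreducible P ∧ aeval α P = 0 ∧ D P.natDegree ∧
        |ξ - α| < ψ₂ (mht P)}.Infinite ∧
      {α : ℝ | ∃ P : ℤ[X], Irreducible P ∧ aeval α P = 0 ∧ D P.natDegree ∧
        |ξ - α| < ψ₁ (mht P)}.Finite := by
  obtain ⟨ξ, h1, h2⟩ := m_main (m_mset n hn D hD hDn) ψ₁ ψ₂ s δ x₀ hδ hs hψpos hψ₁ hψ₂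
  have key : ∀ ψ : ℝ → ℝ, {α | α ∈ mA' D ∧ |ξ - α| < ψ (mHt α)} =
      {α : ℝ | ∃ P : ℤ[X], Irreducible P ∧ aeval α P = 0 ∧ D P.natDegree ∧
        |ξ - α| < ψ (mht P)} := by
    intro ψ
    ext α
    constructor
    · rintro ⟨⟨P, hP, hα, hPD⟩, hlt⟩
      exact ⟨P, hP, hα, hPD, by rwa [mHt_eq α P hP hα] at hlt⟩
    · rintro ⟨P, hP, hα, hPD, hlt⟩
      exact ⟨⟨P, hP, hα, hPD⟩, by rwa [mHt_eq α P hP hα]⟩
  rw [key] at h1 h2
  exact ⟨ξ, h1, h2⟩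

/-- constant multiples of a power -/
theorem m_power (n : ℕ) (hn : 1 ≤ n) (D : ℕ → Prop) (hD : ∀ d, D d → d ≤ n) (hDn : D n)
    (S c₁ c₂ : ℝ) (hS : 2 * (n : ℝ) < S) (hc₁ : 0 < c₁) (hc : c₁ < c₂) :
    ∃ ξ : ℝ, {α : ℝ | ∃ P : ℤ[X], Irreducible P ∧ aeval α P = 0 ∧ D P.natDegree ∧
        |ξ - α| < c₂ * (mht P : ℝ) ^ (-S)}.Infinite ∧
      {α : ℝ | ∃ P : ℤ[X], Irreducible P ∧ aeval α P = 0 ∧ D P.natDegree ∧
        |ξ - α| < c₁ * (mht P : ℝ) ^ (-S)}.Finite := by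
  have hn1 : (1 : ℝ) ≤ n := by exact_mod_cast hn
  set s : ℝ := (S + 2 * n) / 2 with hs
  have hs1 : 2 * (n : ℝ) < s := by rw [hs]; linarith
  have hs2 : s < S := by rw [hs]; linarith
  set δ : ℝ := min 1 ((s - 2 * n) / (8 * n)) with hδ
  have hδ0 : 0 < δ := by
    rw [hδ]
    apply lt_min one_pos
    apply div_pos (by linarith) (by linarith)
  have hδ1 : δ ≤ 1 := min_le_left _ _
  have hδ2 : 8 * n * δ ≤ s - 2 * n := by
    have : δ ≤ (s - 2 * n) / (8 * n) := min_le_right _ _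
    rw [le_div_iff₀ (by linarith)] at this
    linarith
  have hsδ : 2 * (n : ℝ) * (1 + δ) ^ 2 < s := by
    have h1 : (1 + δ) ^ 2 ≤ 1 + 3 * δ := by nlinarith
    have h2 : 2 * (n : ℝ) * (1 + δ) ^ 2 ≤ 2 * n * (1 + 3 * δ) :=
      mul_le_mul_of_nonneg_left h1 (by linarith)
    have h3 : 0 < (n : ℝ) * δ := by positivity
    nlinarith
  -- eventually conditions
  have t1 : Tendsto (fun x : ℝ => x ^ (S - s)) atTop atTop :=
    tendsto_rpow_atTop (by linarith)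
  have e1 := t1.eventually (eventually_ge_atTop c₁)
  have t2 : Tendsto (fun x : ℝ => x ^ (-(S * δ))) atTop (𝓝 0) :=
    tendsto_rpow_neg_atTop (mul_pos (by linarith) hδ0)
  have t2' := t2.const_mul (c₁ ^ (1 + δ))
  rw [mul_zero] at t2'
  have e2 := t2'.eventually (ge_mem_nhds (show (0 : ℝ) < c₂ - c₁ by linarith))
  obtain ⟨x₁, hx₁⟩ := eventually_atTop.mp (e1.and e2)
  refine m_general n hn D hD hDn (fun x => c₁ * x ^ (-S)) (fun x => c₂ * x ^ (-S)) s δ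
    (max 1 x₁) hδ0.le hsδ ?_ ?_ ?_
  · intro x hx
    have hx1 : 1 ≤ x := (le_max_left _ _).trans hx
    have : 0 < x := by linarith
    positivity
  · intro x hx
    have hx1 : 1 ≤ x := (le_max_left _ _).trans hx
    have hx0 : 0 < x := by linarith
    have h1 := (hx₁ x ((le_max_right _ _).trans hx)).1
    have e : x ^ (-s) = x ^ (S - s) * x ^ (-S) := by
      rw [← Real.rpow_add hx0]; congr 1; ring
    rw [e]
    exact mul_le_mul_of_nonneg_right h1 (Real.rpow_nonneg hx0.le _)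
  · intro x hx
    have hx1 : 1 ≤ x := (le_max_left _ _).trans hx
    have hx0 : 0 < x := by linarith
    have h1 := (hx₁ x ((le_max_right _ _).trans hx)).2
    have e : (c₁ * x ^ (-S)) ^ (1 + δ) = (c₁ ^ (1 + δ) * x ^ (-(S * δ))) * x ^ (-S) := by
      rw [Real.mul_rpow hc₁.le (Real.rpow_nonneg hx0.le _), ← Real.rpow_mul hx0.le, mul_assoc,
        ← Real.rpow_add hx0]
      congr 2
      ring
    rw [e]
    have h2 : 0 ≤ x ^ (-S) := Real.rpow_nonneg hx0.le _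
    have h3 := mul_le_mul_of_nonneg_right h1 h2
    linarith

end Pool.Agent.H322R2
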