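import Pool.Agent.H322R2.Exc2

/-!
Integer points of medium size on the curves of a typical family.
-/

open Polynomial Finset

namespace Pool.Agent.H322R2

/-- a constant -/
noncomputable def K0 (d : ℕ) : ℝ := 100 * (d + 1) * NN d * 3 ^ d + CL d

section consts

variable {d : ℕ} {y : ℝ} (hy : K0 d ≤ y)

lemma CL_nonneg (d : ℕ) : 0 ≤ CL d := by
  unfold CL; have := NN_nonneg (d := d); positivity

include hy

lemma k_NN : 100 * (d + 1) * NN d * 3 ^ d ≤ y := by
  unfold K0 at hy; have := CL_nonneg d; linarith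

lemma k_CL : CL d ≤ y := by
  unfold K0 at hy
  have := NN_nonneg (d := d)
  have : 0 ≤ 100 * ((d : ℝ) + 1) * NN d * 3 ^ d := by positivity
  linarith

lemma k_100 : 100 * ((d : ℝ) + 1) ≤ y := by
  refine le_trans ?_ (k_NN hy)
  have h1 := one_le_NN d
  have h2 : (1 : ℝ) ≤ 3 ^ d := one_le_pow₀ (by norm_num)
  have h3 := one_le_mul_of_one_le_of_one_le h1 h2
  calc 100 * ((d : ℝ) + 1) ≤ 100 * ((d : ℝ) + 1) * (NN d * 3 ^ d) :=
        le_mul_of_one_le_right (by positivity) h3
    _ = _ := by ring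

lemma k_N3 : 100 * (NN d * 3 ^ d) ≤ y := by
  refine le_trans ?_ (k_NN hy)
  have h1 := NN_nonneg (d := d)
  have h3 : (1 : ℝ) ≤ (d : ℝ) + 1 := by have : (0 : ℝ) ≤ d := by positivity
                                        linarith
  calc 100 * (NN d * 3 ^ d) ≤ ((d : ℝ) + 1) * (100 * (NN d * 3 ^ d)) :=
        le_mul_of_one_le_left (by positivity) h3
    _ = _ := by ring

end consts

/-- exponent of the lower end of the medium range -/
def k0 (d : ℕ) : ℕ := 3128 * d + 166

variable {d : ℕ}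

theorem mid_pt (hd : 4 ≤ d) {H : ℕ} {y : ℝ} (hyK : K0 d ≤ y) (hyH : y ^ 2 ≤ H)
    {c : ↥(Ix d) → ℤ} (hc : c ∈ Bx _ H) (hT2 : T2c H y c) {a b : ℤ} (hab : ev a b (PG c) = 0)
    (hba : |(b : ℝ)| ≤ |(a : ℝ)|) (ha : y ^ (k0 d) ≤ |(a : ℝ)|) :
    ∃ η : ℝ, |η| ≤ 2 ∧ evf η (ff c) = 0 ∧ |(b : ℝ) / a - η| ≤ 1 / (2 * (d + 1) * y ^ 3) := by
  have h100 := k_100 hyK
  have hdR : (4 : ℝ) ≤ d := by exact_mod_cast hd
  have hy500 : 500 ≤ y := by linarith
  have hy0 : 0 < y := by linarith
  have hy1 : 1 ≤ y := by linarith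
  have hH0 : (0 : ℝ) < H := lt_of_lt_of_le (by positivity) hyH
  have ha1 : 1 ≤ |(a : ℝ)| := (one_le_pow₀ hy1).trans ha
  have ha0 : 0 < |(a : ℝ)| := by linarith
  have haR : (a : ℝ) ≠ 0 := abs_pos.1 ha0
  obtain ⟨w, hw⟩ : ∃ w : ℝ, w = (b : ℝ) / a := ⟨_, rfl⟩
  have hw1 : |w| ≤ 1 := by rw [hw, abs_div, div_le_one ha0]; exact hba
  have hT := TD_PG c
  have hPn : (hmg d (PG c)).natDegree < d + 1 := by have := natDegree_hmg d (PG c); omega
  have hPm : ∀ j, ((hmg d (PG c)).coeff j).natDegree < d + 1 := fun j => by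
    have := natDegree_coeff_hmg hT j; omega
  have hP0 : ev ((a : ℝ)⁻¹) w (hmg d (PG c)) = 0 := by
    have h3 : ev (a : ℝ) (b : ℝ) (PG c) = 0 := by
      have h3 := map_ev (Int.castRingHom ℝ) a b (PG c)
      simp only [eq_intCast] at h3
      rw [← h3, hab]; simp
    have h4 := ev_hmg (x := (a : ℝ)) (z := (a : ℝ)⁻¹) w (mul_inv_cancel₀ haR) hT
    have h5 : (a : ℝ) * w = b := by rw [hw]; field_simp
    rw [h5, h3] at h4
    rcases mul_eq_zero.1 h4.symm with h | h
    · exact absurd h (pow_ne_zero _ haR)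
    · exact h
  obtain ⟨ε, hε⟩ : ∃ ε : ℝ, ε = H * y * (1 / |(a : ℝ)|) := ⟨_, rfl⟩
  have hf : |evf w (ff c)| ≤ ε := by
    have h1 := ev_close (𝕜 := ℝ) (hmg d (PG c)) (d + 1) (d + 1) hPn hPm w (r := 1 / |(a : ℝ)|)
      (by rw [div_le_one ha0]; exact ha1) ((a : ℝ)⁻¹) 0
      (by rw [Real.norm_eq_abs, abs_inv, one_div]) (by simp)
    rw [add_zero, hP0, zero_sub, norm_neg, ev_zero_hmg, pn_hmg hT, Real.norm_eq_abs,
      Real.norm_eq_abs, Nat.add_sub_cancel] at h1
    refine h1.trans ?_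
    rw [hε]
    apply mul_le_mul_of_nonneg_right _ (by positivity)
    have h2 := pn_PG hc
    have h3 : (1 + |w|) ^ d ≤ 3 ^ d := pow_le_pow_left₀ (by positivity) (by linarith) _
    have hN := NN_nonneg (d := d)
    calc pn (pn zn) (PG c) * (1 + |w|) ^ d ≤ (NN d * H) * 3 ^ d := by
          apply mul_le_mul h2 h3 (by positivity) (by positivity)
      _ = H * (NN d * 3 ^ d) := by ring
      _ ≤ H * y := by
          apply mul_le_mul_of_nonneg_left _ hH0.le
          have := k_N3 hyK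
          have : 0 ≤ NN d * 3 ^ d := by positivity
          linarith
  -- y ^ 20 ≤ |a|
  have ha20 : y ^ 20 ≤ |(a : ℝ)| := by
    refine le_trans (pow_le_pow_right₀ hy1 ?_) ha
    unfold k0; omega
  have hεle : ε ≤ H / y ^ 19 := by
    rw [hε, mul_one_div, div_le_div_iff₀ ha0 (by positivity)]
    calc H * y * y ^ 19 = H * y ^ 20 := by ring
      _ ≤ H * |(a : ℝ)| := mul_le_mul_of_nonneg_left ha20 hH0.le
  have hεle2 : ε ≤ H / y ^ 2 := by
    refine hεle.trans ?_
    apply div_le_div_of_nonneg_left hH0.le (by positivity)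
    exact pow_le_pow_right₀ hy1 (by norm_num)
  have hder : (H : ℝ) / y ^ 2 < |evf w (derivative (ff c))| := by
    by_contra hcon
    push_neg at hcon
    exact hT2 w (by linarith) ⟨hf.trans hεle2, hcon⟩
  obtain ⟨m, hm⟩ : ∃ m : ℝ, m = H / (2 * y ^ 2) := ⟨_, rfl⟩
  have hm0 : 0 < m := by rw [hm]; positivity
  have h2m : 2 * m = H / y ^ 2 := by rw [hm]; field_simp
  obtain ⟨ρ, hρ⟩ : ∃ ρ : ℝ, ρ = 1 / (2 * y ^ 3) := ⟨_, rfl⟩
  have hρ0 : 0 < ρ := by rw [hρ]; positivity
  have hρ1 : ρ ≤ 1 := by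
    rw [hρ, div_le_one (by positivity)]
    have : 1 ≤ y ^ 3 := one_le_pow₀ hy1
    linarith
  obtain ⟨η, h1, h2, h3⟩ := root_near (ff c) (w := w) (m := m) (ε := ε) (ρ := ρ) hm0 hρ0 hf
    (by rw [h2m]; exact hder.le) (by
      intro t ht
      have ht3 : |t| ≤ 3 := by
        have : t = w + (t - w) := by ring
        rw [this]; exact (abs_add_le _ _).trans (by linarith)
      refine (dff_lip hc ht3 (by linarith)).trans ?_
      calc CL d * H * |t - w| ≤ y * H * ρ := by
            apply mul_le_mul _ ht (abs_nonneg _) (by positivity)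
            exact mul_le_mul_of_nonneg_right (k_CL hyK) hH0.le
        _ = m := by rw [hρ, hm]; field_simp) (by
      refine lt_of_le_of_lt hεle ?_
      rw [hm, hρ, div_mul_div_comm, mul_one, div_lt_div_iff₀ (by positivity) (by positivity)]
      apply mul_lt_mul_of_pos_left _ hH0
      calc 2 * y ^ 2 * (2 * y ^ 3) = 4 * y ^ 5 := by ring
        _ < y * y ^ 5 := mul_lt_mul_of_pos_right (by linarith) (by positivity)
        _ = y ^ 6 := by ring
        _ ≤ y ^ 19 := pow_le_pow_right₀ hy1 (by norm_num))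
  refine ⟨η, ?_, h1, ?_⟩
  · have : η = w + (η - w) := by ring
    rw [this]; exact (abs_add_le _ _).trans (by linarith)
  · rw [← hw, abs_sub_comm]
    have h4 : |η - w| ≤ ε / m := by rw [le_div_iff₀ hm0]; exact h3
    refine h4.trans ?_
    calc ε / m ≤ (H / y ^ 19) / m := div_le_div_of_nonneg_right hεle hm0.le
      _ = 2 / y ^ 17 := by rw [hm]; field_simp
      _ ≤ 1 / (2 * (d + 1) * y ^ 3) := by
          rw [div_le_div_iff₀ (by positivity) (by positivity)]
          calc 2 * (2 * ((d : ℝ) + 1) * y ^ 3) = (4 * ((d : ℝ) + 1)) * y ^ 3 := by ring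
            _ ≤ y * y ^ 3 := mul_le_mul_of_nonneg_right (by linarith) (by positivity)
            _ = y ^ 4 := by ring
            _ ≤ y ^ 17 := pow_le_pow_right₀ hy1 (by norm_num)
            _ = 1 * y ^ 17 := (one_mul _).symm

/-- index of the constant coefficient -/
def ix0 (d : ℕ) : ↥(Ix d) := ⟨(0, 0), by rw [mem_Ix]; simp⟩

lemma PG_update0 (c : ↥(Ix d) → ℤ) (v : ℤ) :
    PG (Function.update c (ix0 d) v) = PG c + C (C (v - c (ix0 d))) := by
  rw [PG_update]; rfl

lemma TD_CC (k : ℕ) (v : ℤ) : TD k (C (C v)) := by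
  constructor
  · rw [natDegree_C]; omega
  · intro j
    rw [coeff_C]
    split_ifs
    · rw [natDegree_C]; omega
    · simp

lemma ff_update0 (hd : 1 ≤ d) (c : ↥(Ix d) → ℤ) (v : ℤ) :
    ff (Function.update c (ix0 d) v) = ff c := by
  rw [ff, lead_update_of_ne _ _ _ _ (by simp only [ix0]; omega), ← ff]

/-- typical -/
def Typ (H : ℕ) (y : ℝ) (c : ↥(Ix d) → ℤ) : Prop :=
  T2c H y c ∧ T3c (y ^ (400 * d + 125)) (y ^ (528 * d + 165) / y ^ (k0 d)) c ∧ T4c H y c

theorem mid_count (hd : 4 ≤ d) {H : ℕ} {y : ℝ} (hyK : K0 d ≤ y) (hyH : y ^ 2 ≤ H)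
    {c : ↥(Ix d) → ℤ} (hc : c ∈ Bx _ H) (hty : Typ H y c) (n : ℕ) (T : Finset (ℤ × ℤ))
    (hTT : ∀ P ∈ T, |(P.2 : ℝ)| ≤ |(P.1 : ℝ)| ∧ y ^ (k0 d) ≤ |(P.1 : ℝ)| ∧
      |(P.1 : ℝ)| ≤ y ^ (k0 d) * y ^ (n + 1) ∧ ∃ t ∈ Icc (-(H : ℤ)) H,
        ev P.1 P.2 (PG (Function.update c (ix0 d) t)) = 0) :
    T.card ≤ 4 * (n + 1) * d := by
  classical
  obtain ⟨hT2, hT3, hT4⟩ := hty
  have h100 := k_100 hyK
  have hdR : (4 : ℝ) ≤ d := by exact_mod_cast hd
  have hy500 : 500 ≤ y := by linarith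
  have hy0 : 0 < y := by linarith
  have hy1 : 1 ≤ y := by linarith
  have hH0 : (0 : ℝ) < H := lt_of_lt_of_le (by positivity) hyH
  have hT := TD_PG c
  have hT2' : ∀ t, T2c H y (Function.update c (ix0 d) t) := by
    intro t
    unfold T2c at hT2 ⊢
    simpa only [ff_update0 (show 1 ≤ d by omega)] using hT2
  have hsel : ∀ P ∈ T, ∃ η : ℝ, (|η| ≤ 2 ∧ evf η (ff c) = 0) ∧
      |(P.2 : ℝ) / P.1 - η| ≤ 1 / (2 * (d + 1) * y ^ 3) := by
    intro P hP
    obtain ⟨h1, h2, h3, t, ht, h4⟩ := hTT P hP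
    obtain ⟨η, e1, e2, e3⟩ := mid_pt hd hyK hyH (update_mem_Bx hc (ix0 d) ht) (hT2' t) h4 h1 h2
    rw [ff_update0 (by omega)] at e2
    exact ⟨η, ⟨e1, e2⟩, e3⟩
  choose! f hf1 hf2 using hsel
  have hne : (ff c).map (Int.castRingHom ℝ) ≠ 0 := by
    intro h0
    have hinj : Function.Injective (Int.castRingHom ℝ) := Int.cast_injective
    rw [Polynomial.map_eq_zero_iff hinj] at h0
    apply hT2 0 (by simp)
    rw [h0]
    simp
    positivity
  obtain ⟨Rt, hRt⟩ : ∃ Rt : Finset ℝ, Rt = (((ff c).map (Int.castRingHom ℝ)).roots.toFinset).filter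
    (fun η => |η| ≤ 2) := ⟨_, rfl⟩
  have hRtmem : ∀ η, η ∈ Rt ↔ (evf η (ff c) = 0 ∧ |η| ≤ 2) := by
    intro η
    rw [hRt, Finset.mem_filter, Multiset.mem_toFinset, mem_roots hne, IsRoot.def, eval_map, evf,
      coe_eval₂RingHom]
  have hRtcard : Rt.card ≤ d := by
    rw [hRt]
    refine (Finset.card_filter_le _ _).trans ((Multiset.toFinset_card_le _).trans
      ((card_roots' _).trans ?_))
    exact natDegree_map_le.trans (ff_natDegree c)
  have hmain := Finset.card_le_mul_card_image_of_maps_to (s := T) (t := Rt) (f := f)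
    (fun P hPT => (hRtmem _).2 ⟨(hf1 P hPT).2, (hf1 P hPT).1⟩) (4 * (n + 1)) (by
    intro η hη
    obtain ⟨e1, e2⟩ := (hRtmem η).1 hη
    have hD : (H : ℝ) / y ^ 2 < |evf η (derivative (ff c))| := by
      by_contra hcon
      push_neg at hcon
      apply hT2 η e2
      rw [e1, abs_zero]
      exact ⟨by positivity, hcon⟩
    have hHy : 0 < (H : ℝ) / y ^ 2 := by positivity
    have hS1 : 1 ≤ y ^ 3 := one_le_pow₀ hy1
    have hN := NN_nonneg (d := d)
    have hN3 := k_N3 hyK
    have hD0 : 0 < |evf η (derivative (lead d (PG c)))| := by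
      rw [← ff]; linarith
    have h3d : (1 + |η|) ^ d ≤ 3 ^ d := pow_le_pow_left₀ (by positivity) (by linarith) _
    have hMS : (NN d * H) * (1 + |η|) ^ d ≤ y ^ 3 * |evf η (derivative (lead d (PG c)))| := by
      rw [← ff]
      calc (NN d * H) * (1 + |η|) ^ d ≤ (NN d * H) * 3 ^ d :=
            mul_le_mul_of_nonneg_left h3d (by positivity)
        _ = (NN d * 3 ^ d) * H := by ring
        _ ≤ y * H := by
            apply mul_le_mul_of_nonneg_right _ hH0.le
            have : 0 ≤ NN d * 3 ^ d := by positivity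
            linarith
        _ = y ^ 3 * (H / y ^ 2) := by field_simp
        _ ≤ _ := mul_le_mul_of_nonneg_left hD.le (by positivity)
    obtain ⟨hb, hg, hk⟩ := bgk_le (M := NN d * H) (by omega) hT (pn_PG hc) hS1 hD0 hMS
    obtain ⟨Q, hQ⟩ : ∃ Q : ℝ, Q = y ^ (16 * d + 4) := ⟨_, rfl⟩
    have hQ68 : y ^ 68 ≤ Q := by
      rw [hQ]; exact pow_le_pow_right₀ hy1 (by omega)
    have hle : ∀ (k : ℕ) (C : ℝ), C ≤ y → k ≤ 67 → C * y ^ k ≤ Q := by
      intro k C hC hk
      calc C * y ^ k ≤ y * y ^ k := mul_le_mul_of_nonneg_right hC (by positivity)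
        _ = y ^ (k + 1) := by ring
        _ ≤ y ^ 68 := pow_le_pow_right₀ hy1 (by omega)
        _ ≤ Q := hQ68
    have hQ2 : 2 ≤ Q := by
      have := hle 0 2 (by linarith) (by omega)
      simpa using this
    have hηQ : |η| ≤ Q := by linarith
    have hbQ : |bet d (PG c) η| ≤ Q := by
      refine hb.trans ?_
      have := hle 3 1 hy1 (by omega)
      simpa using this
    have hgQ : |gam d (PG c) η| ≤ Q := by
      refine hg.trans ?_
      have := hle 9 3 (by linarith) (by omega)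
      rw [← pow_mul]; exact this
    have hkQ : |kpp d (PG c) η| ≤ Q := by
      refine hk.trans ?_
      have := hle 15 13 (by linarith) (by omega)
      rw [← pow_mul]; exact this
    have hgam : 1 / Q ≤ |gam d (PG c) η| := by
      have h1 := hT4 η e2 e1
      rw [evf_gp (by omega) hT η (abs_pos.1 hD0), abs_neg, abs_mul, abs_mul, abs_pow,
        abs_of_pos (by norm_num : (0 : ℝ) < 2)] at h1
      have h2 : |evf η (derivative (lead d (PG c)))| ≤ y * H := by
        have h3 := tay_le (η := η) hT (pn_PG hc) (0, 1) (by simp; omega)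
        rw [tay01 (by omega) hT] at h3
        refine h3.trans ?_
        calc ((Ix d).card : ℝ) * H * (1 + |η|) ^ d ≤ (NN d * H) * 3 ^ d :=
              mul_le_mul_of_nonneg_left h3d (by positivity)
          _ = (NN d * 3 ^ d) * H := by ring
          _ ≤ y * H := by
              apply mul_le_mul_of_nonneg_right _ hH0.le
              have : 0 ≤ NN d * 3 ^ d := by positivity
              linarith
      have h3 : |evf η (derivative (lead d (PG c)))| ^ 3 ≤ (y * H) ^ 3 :=
        pow_le_pow_left₀ (abs_nonneg _) h2 3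
      have h4 : (H : ℝ) ^ 3 / y ^ 6 < 2 * (y * H) ^ 3 * |gam d (PG c) η| := by
        refine lt_of_lt_of_le h1 ?_
        apply mul_le_mul_of_nonneg_right _ (abs_nonneg _)
        linarith
      rw [div_lt_iff₀ (by positivity)] at h4
      have h5 : (H : ℝ) ^ 3 * 1 < H ^ 3 * (2 * y ^ 9 * |gam d (PG c) η|) := by
        calc (H : ℝ) ^ 3 * 1 = H ^ 3 := mul_one _
          _ < _ := h4
          _ = _ := by ring
      have h6 := lt_of_mul_lt_mul_left h5 (by positivity)
      rw [div_le_iff₀ (by linarith)]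
      have h7 := hle 9 2 (by linarith) (by omega)
      calc 1 ≤ 2 * y ^ 9 * |gam d (PG c) η| := h6.le
        _ = |gam d (PG c) η| * (2 * y ^ 9) := by ring
        _ ≤ _ := mul_le_mul_of_nonneg_left h7 (abs_nonneg _)
    have hQle : 2 * y ^ 3 * (36 * (y ^ 3) ^ 5) ^ d ≤ Q := by
      have h1 : (36 * (y ^ 3) ^ 5) ^ d ≤ (y ^ 16) ^ d := by
        apply pow_le_pow_left₀ (by positivity)
        rw [← pow_mul]
        calc 36 * y ^ (3 * 5) ≤ y * y ^ (3 * 5) :=
              mul_le_mul_of_nonneg_right (by linarith) (by positivity)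
          _ = y ^ 16 := by ring
      calc 2 * y ^ 3 * (36 * (y ^ 3) ^ 5) ^ d ≤ (y * y ^ 3) * (y ^ 16) ^ d := by
            apply mul_le_mul _ h1 (by positivity) (by positivity)
            exact mul_le_mul_of_nonneg_right (by linarith) (by positivity)
        _ = Q := by rw [hQ, ← pow_succ', ← pow_mul, ← pow_add]; congr 1; ring
    have hQZ : Q * y = y ^ (16 * d + 5) := by rw [hQ, ← pow_succ]
    have hNA : NA η ((Q * y) ^ 25) ((Q * y) ^ 33 / y ^ (k0 d)) := by
      have h1 := hT3 η e2 e1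
      rw [hQZ, ← pow_mul, ← pow_mul]
      have e3 : (16 * d + 5) * 25 = 400 * d + 125 := by ring
      have e4 : (16 * d + 5) * 33 = 528 * d + 165 := by ring
      rw [e3, e4]
      exact h1
    apply count_card hQ2 hy1 (X := y ^ (k0 d)) _ hηQ hbQ hgQ hkQ hgam hNA n
    · intro P hP
      rw [Finset.mem_filter] at hP
      obtain ⟨h1, h2, h3, -⟩ := hTT P hP.1
      exact ⟨h2, h3⟩
    · intro P hP
      rw [Finset.mem_filter] at hP
      obtain ⟨h1, h2, h3, t, ht, h4⟩ := hTT P hP.1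
      have h5 := hf2 P hP.1
      rw [hP.2] at h5
      have hlead : lead d (PG (Function.update c (ix0 d) t)) = lead d (PG c) :=
        ff_update0 (by omega) c t
      have h6 := exp_lemma (M := NN d * H) (S := y ^ 3) (η := η) (by omega)
        (TD_PG (Function.update c (ix0 d) t)) (pn_PG (update_mem_Bx hc (ix0 d) ht)) hS1
        (by rw [hlead]; exact e1) (by rw [hlead]; exact hD0) (by rw [hlead]; exact hMS) h4
        (by
          refine le_trans ?_ h2
          rw [← pow_mul]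
          calc 34 * ((d : ℝ) + 1) * y ^ (3 * 6) ≤ y * y ^ (3 * 6) :=
                mul_le_mul_of_nonneg_right (by linarith) (by positivity)
            _ = y ^ 19 := by ring
            _ ≤ y ^ (k0 d) := pow_le_pow_right₀ hy1 (by unfold k0; omega))
        h5
      rw [PG_update0, bet_add hd hT (TD_CC _ _), gam_add hd hT (TD_CC _ _),
        kpp_add hd hT (TD_CC _ _)] at h6
      exact h6.mono hQle
    · have h1 : 2 * Q < y * Q := mul_lt_mul_of_pos_right (by linarith) (by linarith)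
      refine lt_of_lt_of_le h1 ?_
      rw [mul_comm, hQZ]
      exact pow_le_pow_right₀ hy1 (by unfold k0; omega))
  exact hmain.trans (Nat.mul_le_mul_left _ hRtcard)

end Pool.Agent.H322R2
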