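import Pool.Agent.H322R2.ExcW

/-!
Counting points on the polynomials vanishing at prescribed points.
-/

open Polynomial Finset

namespace Pool.Agent.H322R2

variable {d : ℕ}

theorem mid_countG (hd : 4 ≤ d) {H : ℕ} {y : ℝ} (hyK : K0 d ≤ y) (hyH : y ^ 2 ≤ H)
    {c : ↥(Ix d) → ℤ} (hc : c ∈ Bx _ H) (hty : Typ H y c) (n : ℕ) (T : Finset (ℤ × ℤ))
    (hTT : ∀ P ∈ T, |(P.2 : ℝ)| ≤ |(P.1 : ℝ)| ∧ y ^ (k0 d) ≤ |(P.1 : ℝ)| ∧
      |(P.1 : ℝ)| ≤ y ^ (k0 d) * y ^ (n + 1) ∧ ∃ c' ∈ Bx ↥(Ix d) H, ∃ R : ℤ[X][X],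
        TD (d - 4) R ∧ PG c' = PG c + R ∧ ev P.1 P.2 (PG c') = 0) :
    T.card ≤ 4 * (n + 1) * d := by
  classical
  obtain ⟨hT2, hT3, hT4⟩ := hty
  have h100 := k_100 hyK
  have hdR : (4 : ℝ) ≤ d := by exact_mod_cast hd
  have hy500 : 500 ≤ y := by linarith
  have hy0 : 0 < y := by linarith
  have hy1 : 1 ≤ y := by linarith
  have hH0 : (0 : ℝ) < H := lt_of_lt_of_le (by positivity) hyH
  have hT := TD_PG c
  have hffR : ∀ (c' : ↥(Ix d) → ℤ) (R : ℤ[X][X]), TD (d - 4) R → PG c' = PG c + R →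
      ff c' = ff c := by
    intro c' R hR hcR
    have h1 := lead_add_of_TD (G := PG c) hd hR 0 (by omega)
    rw [Nat.sub_zero] at h1
    rw [ff, hcR, h1, ← ff]
  have hT2' : ∀ (c' : ↥(Ix d) → ℤ) (R : ℤ[X][X]), TD (d - 4) R → PG c' = PG c + R →
      T2c H y c' := by
    intro c' R hR hcR
    unfold T2c at hT2 ⊢
    rw [hffR c' R hR hcR]
    exact hT2
  have hsel : ∀ P ∈ T, ∃ η : ℝ, (|η| ≤ 2 ∧ evf η (ff c) = 0) ∧
      |(P.2 : ℝ) / P.1 - η| ≤ 1 / (2 * (d + 1) * y ^ 3) := by
    intro P hP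
    obtain ⟨h1, h2, h3, c', hc', R, hR, hcR, h4⟩ := hTT P hP
    obtain ⟨η, e1, e2, e3⟩ := mid_pt hd hyK hyH hc' (hT2' c' R hR hcR) h4 h1 h2
    rw [hffR c' R hR hcR] at e2
    exact ⟨η, ⟨e1, e2⟩, e3⟩
  choose! f hf1 hf2 using hsel
  have hne : (ff c).map (Int.castRingHom ℝ) ≠ 0 := by
    intro h0
    have hinj : Function.Injective (Int.castRingHom ℝ) := Int.cast_injective
    rw [Polynomial.map_eq_zero_iff hinj] at h0
    apply hT2 0 (by simp)
    rw [h0]
    simp
    positivity
  obtain ⟨Rt, hRt⟩ : ∃ Rt : Finset ℝ, Rt = (((ff c).map (Int.castRingHom ℝ)).roots.toFinset).filter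
    (fun η => |η| ≤ 2) := ⟨_, rfl⟩
  have hRtmem : ∀ η, η ∈ Rt ↔ (evf η (ff c) = 0 ∧ |η| ≤ 2) := by
    intro η
    rw [hRt, Finset.mem_filter, Multiset.mem_toFinset, mem_roots hne, IsRoot.def, eval_map, evf,
      coe_eval₂RingHom]
  have hRtcard : Rt.card ≤ d := by
    rw [hRt]
    refine (Finset.card_filter_le _ _).trans ((Multiset.toFinset_card_le _).trans
      ((card_roots' _).trans ?_))
    exact natDegree_map_le.trans (ff_natDegree c)
  have hmain := Finset.card_le_mul_card_image_of_maps_to (s := T) (t := Rt) (f := f)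
    (fun P hPT => (hRtmem _).2 ⟨(hf1 P hPT).2, (hf1 P hPT).1⟩) (4 * (n + 1)) (by
    intro η hη
    obtain ⟨e1, e2⟩ := (hRtmem η).1 hη
    have hD : (H : ℝ) / y ^ 2 < |evf η (derivative (ff c))| := by
      by_contra hcon
      push_neg at hcon
      apply hT2 η e2
      rw [e1, abs_zero]
      exact ⟨by positivity, hcon⟩
    have hHy : 0 < (H : ℝ) / y ^ 2 := by positivity
    have hS1 : 1 ≤ y ^ 3 := one_le_pow₀ hy1
    have hN := NN_nonneg (d := d)
    have hN3 := k_N3 hyK
    have hD0 : 0 < |evf η (derivative (lead d (PG c)))| := by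
      rw [← ff]; linarith
    have h3d : (1 + |η|) ^ d ≤ 3 ^ d := pow_le_pow_left₀ (by positivity) (by linarith) _
    have hMS : (NN d * H) * (1 + |η|) ^ d ≤ y ^ 3 * |evf η (derivative (lead d (PG c)))| := by
      rw [← ff]
      calc (NN d * H) * (1 + |η|) ^ d ≤ (NN d * H) * 3 ^ d :=
            mul_le_mul_of_nonneg_left h3d (by positivity)
        _ = (NN d * 3 ^ d) * H := by ring
        _ ≤ y * H := by
            apply mul_le_mul_of_nonneg_right _ hH0.le
            have : 0 ≤ NN d * 3 ^ d := by positivity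
            linarith
        _ = y ^ 3 * (H / y ^ 2) := by field_simp
        _ ≤ _ := mul_le_mul_of_nonneg_left hD.le (by positivity)
    obtain ⟨hb, hg, hk⟩ := bgk_le (M := NN d * H) (by omega) hT (pn_PG hc) hS1 hD0 hMS
    obtain ⟨Q, hQ⟩ : ∃ Q : ℝ, Q = y ^ (16 * d + 4) := ⟨_, rfl⟩
    have hQ68 : y ^ 68 ≤ Q := by
      rw [hQ]; exact pow_le_pow_right₀ hy1 (by omega)
    have hle : ∀ (k : ℕ) (C : ℝ), C ≤ y → k ≤ 67 → C * y ^ k ≤ Q := by
      intro k C hC hk
      calc C * y ^ k ≤ y * y ^ k := mul_le_mul_of_nonneg_right hC (by positivity)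
        _ = y ^ (k + 1) := by ring
        _ ≤ y ^ 68 := pow_le_pow_right₀ hy1 (by omega)
        _ ≤ Q := hQ68
    have hQ2 : 2 ≤ Q := by
      have := hle 0 2 (by linarith) (by omega)
      simpa using this
    have hηQ : |η| ≤ Q := by linarith
    have hbQ : |bet d (PG c) η| ≤ Q := by
      refine hb.trans ?_
      have := hle 3 1 hy1 (by omega)
      simpa using this
    have hgQ : |gam d (PG c) η| ≤ Q := by
      refine hg.trans ?_
      have := hle 9 3 (by linarith) (by omega)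
      rw [← pow_mul]; exact this
    have hkQ : |kpp d (PG c) η| ≤ Q := by
      refine hk.trans ?_
      have := hle 15 13 (by linarith) (by omega)
      rw [← pow_mul]; exact this
    have hgam : 1 / Q ≤ |gam d (PG c) η| := by
      have h1 := hT4 η e2 e1
      rw [evf_gp (by omega) hT η (abs_pos.1 hD0), abs_neg, abs_mul, abs_mul, abs_pow,
        abs_of_pos (by norm_num : (0 : ℝ) < 2)] at h1
      have h2 : |evf η (derivative (lead d (PG c)))| ≤ y * H := by
        have h3 := tay_le (η := η) hT (pn_PG hc) (0, 1) (by simp; omega)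
        rw [tay01 (by omega) hT] at h3
        refine h3.trans ?_
        calc ((Ix d).card : ℝ) * H * (1 + |η|) ^ d ≤ (NN d * H) * 3 ^ d :=
              mul_le_mul_of_nonneg_left h3d (by positivity)
          _ = (NN d * 3 ^ d) * H := by ring
          _ ≤ y * H := by
              apply mul_le_mul_of_nonneg_right _ hH0.le
              have : 0 ≤ NN d * 3 ^ d := by positivity
              linarith
      have h3 : |evf η (derivative (lead d (PG c)))| ^ 3 ≤ (y * H) ^ 3 :=
        pow_le_pow_left₀ (abs_nonneg _) h2 3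
      have h4 : (H : ℝ) ^ 3 / y ^ 6 < 2 * (y * H) ^ 3 * |gam d (PG c) η| := by
        refine lt_of_lt_of_le h1 ?_
        apply mul_le_mul_of_nonneg_right _ (abs_nonneg _)
        linarith
      rw [div_lt_iff₀ (by positivity)] at h4
      have h5 : (H : ℝ) ^ 3 * 1 < H ^ 3 * (2 * y ^ 9 * |gam d (PG c) η|) := by
        calc (H : ℝ) ^ 3 * 1 = H ^ 3 := mul_one _
          _ < _ := h4
          _ = _ := by ring
      have h6 := lt_of_mul_lt_mul_left h5 (by positivity)
      rw [div_le_iff₀ (by linarith)]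
      have h7 := hle 9 2 (by linarith) (by omega)
      calc 1 ≤ 2 * y ^ 9 * |gam d (PG c) η| := h6.le
        _ = |gam d (PG c) η| * (2 * y ^ 9) := by ring
        _ ≤ _ := mul_le_mul_of_nonneg_left h7 (abs_nonneg _)
    have hQle : 2 * y ^ 3 * (36 * (y ^ 3) ^ 5) ^ d ≤ Q := by
      have h1 : (36 * (y ^ 3) ^ 5) ^ d ≤ (y ^ 16) ^ d := by
        apply pow_le_pow_left₀ (by positivity)
        rw [← pow_mul]
        calc 36 * y ^ (3 * 5) ≤ y * y ^ (3 * 5) :=
              mul_le_mul_of_nonneg_right (by linarith) (by positivity)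
          _ = y ^ 16 := by ring
      calc 2 * y ^ 3 * (36 * (y ^ 3) ^ 5) ^ d ≤ (y * y ^ 3) * (y ^ 16) ^ d := by
            apply mul_le_mul _ h1 (by positivity) (by positivity)
            exact mul_le_mul_of_nonneg_right (by linarith) (by positivity)
        _ = Q := by rw [hQ, ← pow_succ', ← pow_mul, ← pow_add]; congr 1; ring
    have hQZ : Q * y = y ^ (16 * d + 5) := by rw [hQ, ← pow_succ]
    have hNA : NA η ((Q * y) ^ 25) ((Q * y) ^ 33 / y ^ (k0 d)) := by
      have h1 := hT3 η e2 e1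
      rw [hQZ, ← pow_mul, ← pow_mul]
      have e3 : (16 * d + 5) * 25 = 400 * d + 125 := by ring
      have e4 : (16 * d + 5) * 33 = 528 * d + 165 := by ring
      rw [e3, e4]
      exact h1
    apply count_card hQ2 hy1 (X := y ^ (k0 d)) _ hηQ hbQ hgQ hkQ hgam hNA n
    · intro P hP
      rw [Finset.mem_filter] at hP
      obtain ⟨h1, h2, h3, -⟩ := hTT P hP.1
      exact ⟨h2, h3⟩
    · intro P hP
      rw [Finset.mem_filter] at hP
      obtain ⟨h1, h2, h3, c', hc', R, hR, hcR, h4⟩ := hTT P hP.1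
      have h5 := hf2 P hP.1
      rw [hP.2] at h5
      have hlead : lead d (PG c') = lead d (PG c) := hffR c' R hR hcR
      have h6 := exp_lemma (M := NN d * H) (S := y ^ 3) (η := η) (by omega)
        (TD_PG c') (pn_PG hc') hS1
        (by rw [hlead]; exact e1) (by rw [hlead]; exact hD0) (by rw [hlead]; exact hMS) h4
        (by
          refine le_trans ?_ h2
          rw [← pow_mul]
          calc 34 * ((d : ℝ) + 1) * y ^ (3 * 6) ≤ y * y ^ (3 * 6) :=
                mul_le_mul_of_nonneg_right (by linarith) (by positivity)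
            _ = y ^ 19 := by ring
            _ ≤ y ^ (k0 d) := pow_le_pow_right₀ hy1 (by unfold k0; omega))
        h5
      rw [hcR, bet_add hd hT hR, gam_add hd hT hR, kpp_add hd hT hR] at h6
      exact h6.mono hQle
    · have h1 : 2 * Q < y * Q := mul_lt_mul_of_pos_right (by linarith) (by linarith)
      refine lt_of_lt_of_le h1 ?_
      rw [mul_comm, hQZ]
      exact pow_le_pow_right₀ hy1 (by unfold k0; omega))
  exact hmain.trans (Nat.mul_le_mul_left _ hRtcard)

end Pool.Agent.H322R2
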