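import Mathlib

namespace Pool.Agent.H322R2

open Finset

/-- Abstract data of a slowly growing complete sequence with persistent middle holes. -/
structure MidData (b S : ℕ → ℤ) (X : ℕ → Set ℤ) (u : ℤ) : Prop where
  hu : 0 ≤ u
  hX : ∀ l z, z ∈ X (l+1) ↔ z ∈ X l ∨ z - b l ∈ X l
  hsym : ∀ l z, z ∈ X l → S l - z ∈ X l
  hS : ∀ l, S (l+1) = S l + b l
  hmono : Monotone b
  hlow : ∀ l z, u < z → z < b l → z ∈ X l
  hslow : ∀ l, 2 * b l ≤ S l
  hbig : ∀ l, 10*u + 10 ≤ b l
  hneg : ∀ l z, z < 0 → z ∉ X l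
  hfill : ∀ z, u < z → ∃ l, z ∈ X l
  hne : ∀ l, ∃ z, u < z ∧ z < S l - u ∧ z ∉ X l

open Classical in
/-- middle holes -/
noncomputable def MH (S : ℕ → ℤ) (X : ℕ → Set ℤ) (u : ℤ) (l : ℕ) : Finset ℤ :=
  (Finset.Ioo u (S l - u)).filter (fun z => z ∉ X l)

/-- the middle holes in a window of length `u` -/
noncomputable def Win (S : ℕ → ℤ) (X : ℕ → Set ℤ) (u : ℤ) (l : ℕ) (z : ℤ) : Finset ℤ :=
  (MH S X u l).filter (fun y => z ≤ y ∧ y ≤ z + u)

theorem mem_MH {S : ℕ → ℤ} {X : ℕ → Set ℤ} {u : ℤ} {l : ℕ} {z : ℤ} :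
    z ∈ MH S X u l ↔ u < z ∧ z < S l - u ∧ z ∉ X l := by
  unfold MH
  simp only [Finset.mem_filter, Finset.mem_Ioo]
  tauto

theorem mem_Win {S : ℕ → ℤ} {X : ℕ → Set ℤ} {u : ℤ} {l : ℕ} {z y : ℤ} :
    y ∈ Win S X u l z ↔ y ∈ MH S X u l ∧ z ≤ y ∧ y ≤ z + u := by
  unfold Win
  simp only [Finset.mem_filter]

variable {b S : ℕ → ℤ} {X : ℕ → Set ℤ} {u : ℤ}

theorem MidData.le_of_mem (D : MidData b S X u) {l : ℕ} {y : ℤ} (hy : y ∈ MH S X u l) :
    b l ≤ y := by
  rw [mem_MH] at hy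
  by_contra hc
  exact hy.2.2 (D.hlow l y hy.1 (by omega))

theorem MidData.mirror (D : MidData b S X u) {l : ℕ} {y : ℤ} (hy : y ∈ MH S X u l) :
    S l - y ∈ MH S X u l := by
  rw [mem_MH] at hy ⊢
  refine ⟨by omega, by omega, fun hc => hy.2.2 ?_⟩
  have := D.hsym l _ hc
  have e : S l - (S l - y) = y := by ring
  rwa [e] at this

theorem MidData.not_mem_succ (D : MidData b S X u) {l : ℕ} {y : ℤ} (hy : y ∉ X (l+1)) :
    y ∉ X l ∧ y - b l ∉ X l := by
  rw [D.hX] at hy
  exact ⟨fun h => hy (Or.inl h), fun h => hy (Or.inr h)⟩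

theorem MidData.stepMem (D : MidData b S X u) {l : ℕ} {y : ℤ} (hy : y ∈ MH S X u (l+1)) :
    (y < S l - u ∧ y ∈ MH S X u l) ∨ (S l - u ≤ y ∧ y - b l ∈ MH S X u l) := by
  rw [mem_MH] at hy
  have h1 := D.not_mem_succ hy.2.2
  have h2 := D.hslow l
  have h3 := D.hbig l
  have h4 := D.hS l
  have h5 := D.hu
  by_cases hc : y < S l - u
  · exact Or.inl ⟨hc, mem_MH.2 ⟨hy.1, hc, h1.1⟩⟩
  · refine Or.inr ⟨by omega, mem_MH.2 ⟨by omega, by omega, h1.2⟩⟩

theorem MidData.stepA (D : MidData b S X u) {l : ℕ} {z : ℤ}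
    (hA : ∀ y ∈ Win S X u (l+1) z, y < S l - u) :
    Win S X u (l+1) z ⊆ Win S X u l z := by
  intro y hy
  have h1 := hA y hy
  rw [mem_Win] at hy ⊢
  refine ⟨?_, hy.2⟩
  rcases D.stepMem hy.1 with h | h
  · exact h.2
  · omega

theorem MidData.stepB (D : MidData b S X u) {l : ℕ} {z : ℤ}
    (hB : ∃ y ∈ Win S X u (l+1) z, S l - u ≤ y) :
    ∀ y ∈ Win S X u (l+1) z, y - b l ∈ Win S X u l (z - b l) := by
  obtain ⟨y0, hy0, h0⟩ := hB
  intro y hy
  rw [mem_Win] at hy0 hy ⊢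
  have h2 := D.hslow l
  have h3 := D.hbig l
  have h4 := D.hS l
  have h5 := D.hu
  refine ⟨?_, by omega, by omega⟩
  have hy' := mem_MH.1 hy.1
  exact mem_MH.2 ⟨by omega, by omega, (D.not_mem_succ hy'.2.2).2⟩

theorem card_le_of_shift {T T' : Finset ℤ} (c : ℤ) (h : ∀ y ∈ T, y - c ∈ T') :
    T.card ≤ T'.card := by
  apply Finset.card_le_card_of_injOn (fun y => y - c) (fun y hy => h y hy)
  intro x _ y _ hxy
  simp only at hxy
  omega

theorem card_le_of_refl {T T' : Finset ℤ} (c : ℤ) (h : ∀ y ∈ T, c - y ∈ T') :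
    T.card ≤ T'.card := by
  apply Finset.card_le_card_of_injOn (fun y => c - y) (fun y hy => h y hy)
  intro x _ y _ hxy
  simp only at hxy
  omega

theorem self_mem_Win (D : MidData b S X u) {l : ℕ} {z : ℤ} (hz : z ∈ MH S X u l) :
    z ∈ Win S X u l z := by
  have := D.hu
  exact mem_Win.2 ⟨hz, le_refl _, by omega⟩

theorem MidData.Wmono (D : MidData b S X u) {l : ℕ} {k : ℕ}
    (h : ∀ z ∈ MH S X u l, (Win S X u l z).card ≤ k) :
    ∀ z ∈ MH S X u (l+1), (Win S X u (l+1) z).card ≤ k := by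
  intro z hz
  have hzz := self_mem_Win D hz
  by_cases hA : ∀ y ∈ Win S X u (l+1) z, y < S l - u
  · have h1 := D.stepA hA
    exact (Finset.card_le_card h1).trans (h z (mem_Win.1 (h1 hzz)).1)
  · push Not at hA
    have h1 := D.stepB hA
    exact (card_le_of_shift _ h1).trans (h _ (mem_Win.1 (h1 z hzz)).1)

/-- full windows -/
noncomputable def Phi (S : ℕ → ℤ) (X : ℕ → Set ℤ) (u : ℤ) (W : ℕ) (l : ℕ) : Finset ℤ :=
  (MH S X u l).filter (fun z => W ≤ (Win S X u l z).card)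

theorem mem_Phi {W l : ℕ} {z : ℤ} :
    z ∈ Phi S X u W l ↔ z ∈ MH S X u l ∧ W ≤ (Win S X u l z).card := by
  unfold Phi
  simp only [Finset.mem_filter]

/-- the step at `l` keeps the lowest window -/
def Kept (b S : ℕ → ℤ) (X : ℕ → Set ℤ) (u : ℤ) (W : ℕ) (h : ℕ → ℤ) (l : ℕ) : Prop :=
  h l ∈ Phi S X u W l ∧ ∀ t ∈ Win S X u l (h l), t - b l ∉ X l

/-- `h l` is the least middle hole, `hm l` the largest hole in the lowest window. -/
structure HData (S : ℕ → ℤ) (X : ℕ → Set ℤ) (u : ℤ) (h hm : ℕ → ℤ) : Prop where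
  mem : ∀ l, h l ∈ MH S X u l
  min : ∀ l, ∀ y ∈ MH S X u l, h l ≤ y
  mmem : ∀ l, hm l ∈ Win S X u l (h l)
  max : ∀ l, ∀ y ∈ Win S X u l (h l), y ≤ hm l

theorem MidData.exists_HData (D : MidData b S X u) : ∃ h hm : ℕ → ℤ, HData S X u h hm := by
  have h1 : ∀ l, (MH S X u l).Nonempty := fun l => by
    obtain ⟨z, hz⟩ := D.hne l
    exact ⟨z, mem_MH.2 hz⟩
  have h2 : ∀ l, (Win S X u l ((MH S X u l).min' (h1 l))).Nonempty := fun l =>
    ⟨_, self_mem_Win D (Finset.min'_mem _ (h1 l))⟩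
  refine ⟨fun l => (MH S X u l).min' (h1 l), fun l => (Win S X u l _).max' (h2 l), ?_, ?_, ?_, ?_⟩
  · intro l; exact Finset.min'_mem _ _
  · intro l y hy; exact Finset.min'_le _ _ hy
  · intro l; exact Finset.max'_mem _ _
  · intro l y hy; exact Finset.le_max' _ _ hy

variable {W : ℕ} {h hm : ℕ → ℤ} {l1 : ℕ}

theorem MidData.step (D : MidData b S X u) (H : HData S X u h hm)
    (hW1 : ∀ l, l1 ≤ l → ∀ z ∈ MH S X u l, (Win S X u l z).card ≤ W)
    {l : ℕ} (hl : l1 ≤ l) {z : ℤ} (hz : z ∈ Phi S X u W (l+1)) :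
    (z ∈ Phi S X u W l ∧ z - b l ∈ Phi S X u W l) ∨
      (Kept b S X u W h l ∧ (z = h l ∨ z = S (l+1) - hm l)) := by
  rw [mem_Phi] at hz
  obtain ⟨hzM, hzW⟩ := hz
  have hzz := self_mem_Win D hzM
  have s2 := D.hslow l
  have s3 := D.hbig l
  have s4 := D.hS l
  have s5 := D.hu
  by_cases hA : ∀ y ∈ Win S X u (l+1) z, y < S l - u
  · have h1 := D.stepA hA
    have hzl : z ∈ MH S X u l := (mem_Win.1 (h1 hzz)).1
    have hzP : z ∈ Phi S X u W l := mem_Phi.2 ⟨hzl, hzW.trans (Finset.card_le_card h1)⟩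
    by_cases hc : u < z - b l
    · left
      refine ⟨hzP, ?_⟩
      have h2 : ∀ y ∈ Win S X u (l+1) z, y - b l ∈ Win S X u l (z - b l) := by
        intro y hy
        have hy1 := hA y hy
        have hy2 := mem_Win.1 hy
        have hy3 := mem_MH.1 hy2.1
        exact mem_Win.2 ⟨mem_MH.2 ⟨by omega, by omega, (D.not_mem_succ hy3.2.2).2⟩, by omega,
          by omega⟩
      exact mem_Phi.2 ⟨(mem_Win.1 (h2 z hzz)).1, hzW.trans (card_le_of_shift _ h2)⟩
    · right
      have h2 : Win S X u (l+1) z ⊆ Win S X u l (h l) := by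
        intro y hy
        have hy1 := mem_Win.1 (h1 hy)
        have hy2 := mem_Win.1 hy
        have hy3 := (D.not_mem_succ (mem_MH.1 hy2.1).2.2).2
        have hy4 : y - b l ≤ u := by
          by_contra hcc
          exact hy3 (D.hlow l _ (by omega) (by omega))
        have hy5 := H.min l y hy1.1
        have hy6 := D.le_of_mem (H.mem l)
        exact mem_Win.2 ⟨hy1.1, hy5, by omega⟩
      have h3 : Win S X u (l+1) z = Win S X u l (h l) :=
        Finset.eq_of_subset_of_card_le h2 ((hW1 l hl _ (H.mem l)).trans hzW)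
      have h4 : h l ∈ Win S X u (l+1) z := by
        rw [h3]; exact self_mem_Win D (H.mem l)
      have h5 := (mem_Win.1 h4).2.1
      have h6 := H.min l z hzl
      have h7 : z = h l := le_antisymm h5 h6
      refine ⟨⟨?_, ?_⟩, Or.inl h7⟩
      · rw [← h7]; exact hzP
      · intro t ht
        rw [← h3] at ht
        exact (D.not_mem_succ (mem_MH.1 (mem_Win.1 ht).1).2.2).2
  · push Not at hA
    right
    obtain ⟨y0, hy0, hy0'⟩ := hA
    have hy0W := mem_Win.1 hy0
    have key : ∀ y ∈ Win S X u (l+1) z, S (l+1) - y ∈ Win S X u l (h l) ∧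
        S (l+1) - y - b l ∉ X l := by
      intro y hy
      have hyW := mem_Win.1 hy
      have hm1 := D.mirror hyW.1
      have hm2 := mem_MH.1 hm1
      have hm3 := D.not_mem_succ hm2.2.2
      have hm4 : S (l+1) - y - b l ≤ u := by
        by_contra hcc
        exact hm3.2 (D.hlow l _ (by omega) (by omega))
      have hm5 : S (l+1) - y ∈ MH S X u l := mem_MH.2 ⟨hm2.1, by omega, hm3.1⟩
      have hm6 := H.min l _ hm5
      have hm7 := D.le_of_mem (H.mem l)
      exact ⟨mem_Win.2 ⟨hm5, hm6, by omega⟩, hm3.2⟩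
    classical
    have h2 : (Win S X u (l+1) z).image (fun y => S (l+1) - y) = Win S X u l (h l) := by
      apply Finset.eq_of_subset_of_card_le
      · intro t ht
        rw [Finset.mem_image] at ht
        obtain ⟨y, hy, rfl⟩ := ht
        exact (key y hy).1
      · rw [Finset.card_image_of_injective]
        · exact (hW1 l hl _ (H.mem l)).trans hzW
        · intro x y hxy
          simp only at hxy
          omega
    have h3 : W ≤ (Win S X u l (h l)).card :=
      hzW.trans (card_le_of_refl _ (fun y hy => (key y hy).1))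
    refine ⟨⟨mem_Phi.2 ⟨H.mem l, h3⟩, ?_⟩, Or.inr ?_⟩
    · intro t ht
      rw [← h2, Finset.mem_image] at ht
      obtain ⟨y, hy, rfl⟩ := ht
      exact (key y hy).2
    · have h4 := H.mmem l
      rw [← h2, Finset.mem_image] at h4
      obtain ⟨y, hy, hye⟩ := h4
      have h5 := (mem_Win.1 hy).2.1
      have h6 := H.max l _ (key z hzz).1
      omega

theorem MidData.kept_le (D : MidData b S X u) (H : HData S X u h hm) {l : ℕ}
    (hk : Kept b S X u W h l) : h l ≤ b l + u ∧ hm l ≤ b l + u ∧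
      ∀ t ∈ Win S X u l (h l), t - b l ≤ u := by
  have s2 := D.hslow l
  have s3 := D.hbig l
  have s4 := D.hS l
  have s5 := D.hu
  have h1 := hk.2 (h l) (self_mem_Win D (H.mem l))
  have h0 := mem_MH.1 (H.mem l)
  have h2 : h l ≤ b l + u := by
    by_contra hc
    have := H.min l (h l - b l) (mem_MH.2 ⟨by omega, by omega, h1⟩)
    omega
  have h3 : ∀ t ∈ Win S X u l (h l), t - b l ≤ u := by
    intro t ht
    have ht1 := hk.2 t ht
    have ht2 := (mem_Win.1 ht).2
    by_contra hc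
    exact ht1 (D.hlow l _ (by omega) (by omega))
  have h4 := h3 _ (H.mmem l)
  exact ⟨h2, by omega, h3⟩

theorem MidData.kept_succ (D : MidData b S X u) (H : HData S X u h hm)
    (hW1 : ∀ l, l1 ≤ l → ∀ z ∈ MH S X u l, (Win S X u l z).card ≤ W)
    {l : ℕ} (hl : l1 ≤ l) (hk : Kept b S X u W h l) :
    h (l+1) = h l ∧ Win S X u (l+1) (h (l+1)) = Win S X u l (h l) ∧ hm (l+1) = hm l := by
  have s2 := D.hslow l
  have s3 := D.hbig l
  have s4 := D.hS l
  have s5 := D.hu
  have h1 : ∀ t ∈ Win S X u l (h l), t ∈ MH S X u (l+1) := by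
    intro t ht
    have ht1 := hk.2 t ht
    have ht2 := mem_MH.1 (mem_Win.1 ht).1
    refine mem_MH.2 ⟨ht2.1, by omega, ?_⟩
    rw [D.hX]
    rintro (h | h)
    · exact ht2.2.2 h
    · exact ht1 h
  have h2 : h (l+1) = h l := by
    apply le_antisymm
    · exact H.min (l+1) _ (h1 _ (self_mem_Win D (H.mem l)))
    · rcases D.stepMem (H.mem (l+1)) with h | h
      · exact H.min l _ h.2
      · have := H.min l _ h.2
        omega
  have h3 : Win S X u (l+1) (h (l+1)) = Win S X u l (h l) := by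
    symm
    apply Finset.eq_of_subset_of_card_le
    · intro t ht
      rw [h2]
      exact mem_Win.2 ⟨h1 t ht, (mem_Win.1 ht).2⟩
    · exact (hW1 (l+1) (by omega) _ (H.mem (l+1))).trans (mem_Phi.1 hk.1).2
  refine ⟨h2, h3, ?_⟩
  apply le_antisymm
  · apply H.max l
    rw [← h3]; exact H.mmem (l+1)
  · apply H.max (l+1)
    rw [h3]; exact H.mmem l

theorem MidData.low_stable (D : MidData b S X u) {y : ℤ} (hy : y ≤ u) (l j : ℕ) :
    y ∈ X (l + j) ↔ y ∈ X l := by
  induction j with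
  | zero => rfl
  | succ j ih =>
    rw [← ih, ← add_assoc, D.hX]
    constructor
    · rintro (h | h)
      · exact h
      · exfalso
        have := D.hbig (l + j)
        have := D.hu
        exact D.hneg _ _ (by omega) h
    · exact Or.inl

theorem MidData.S_mono (D : MidData b S X u) (l j : ℕ) : S l + j * (10 * u + 10) ≤ S (l + j) := by
  induction j with
  | zero => simp
  | succ j ih =>
    have := D.hS (l + j)
    have := D.hbig (l + j)
    rw [← add_assoc]
    push_cast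
    nlinarith

end Pool.Agent.H322R2
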