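import Pool.Agent.H322R2.NA

namespace Pool.Agent.H322R2

open Finset

variable {b S : ℕ → ℤ} {X : ℕ → Set ℤ} {u : ℤ} {W : ℕ} {h hm : ℕ → ℤ} {l1 : ℕ}

theorem MidData.kept_run (D : MidData b S X u) (H : HData S X u h hm)
    (hW1 : ∀ l, l1 ≤ l → ∀ z ∈ MH S X u l, (Win S X u l z).card ≤ W)
    {l : ℕ} (hl : l1 ≤ l) (j : ℕ) (hk : ∀ i < j, Kept b S X u W h (l + i)) :
    ∀ i ≤ j, h (l+i) = h l ∧ Win S X u (l+i) (h (l+i)) = Win S X u l (h l) ∧ hm (l+i) = hm l := by
  intro i
  induction i with
  | zero => intro _; exact ⟨rfl, rfl, rfl⟩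
  | succ i ih =>
    intro hi
    obtain ⟨a1, a2, a3⟩ := ih (by omega)
    obtain ⟨c1, c2, c3⟩ := D.kept_succ H hW1 (l := l + i) (by omega) (hk i (by omega))
    rw [← add_assoc]
    exact ⟨c1.trans a1, c2.trans a2, c3.trans a3⟩

theorem MidData.phi_run (D : MidData b S X u) (H : HData S X u h hm)
    (hW1 : ∀ l, l1 ≤ l → ∀ z ∈ MH S X u l, (Win S X u l z).card ≤ W)
    {l : ℕ} (hl : l1 ≤ l) (j : ℕ) (hk : ∀ i < j, Kept b S X u W h (l + i)) :
    ∀ i ≤ j, ∀ z ∈ Phi S X u W (l+i), z ∈ Phi S X u W l ∨
      ∃ i' < i, z = S (l + i' + 1) - hm l := by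
  intro i
  induction i with
  | zero => intro _ z hz; exact Or.inl hz
  | succ i ih =>
    intro hi z hz
    have hrun := D.kept_run H hW1 hl j hk i (by omega)
    rw [← add_assoc] at hz
    rcases D.step H hW1 (l := l + i) (by omega) hz with h1 | ⟨h1, h2 | h2⟩
    · rcases ih (by omega) z h1.1 with h3 | ⟨i', hi', h3⟩
      · exact Or.inl h3
      · exact Or.inr ⟨i', by omega, h3⟩
    · have h4 : z ∈ Phi S X u W (l+i) := by rw [h2]; exact h1.1
      rcases ih (by omega) z h4 with h3 | ⟨i', hi', h3⟩
      · exact Or.inl h3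
      · exact Or.inr ⟨i', by omega, h3⟩
    · right
      refine ⟨i, by omega, ?_⟩
      rw [h2, hrun.2.2]

theorem MidData.top_mem (D : MidData b S X u) (H : HData S X u h hm)
    {l : ℕ} (hk : h l ∈ Phi S X u W l) : S l - hm l ∈ Phi S X u W l := by
  have h0 := (mem_Phi.1 hk).2
  have h1 : ∀ t ∈ Win S X u l (h l), S l - t ∈ Win S X u l (S l - hm l) := by
    intro t ht
    have h2 := D.mirror (mem_Win.1 ht).1
    have h3 := H.max l t ht
    have h4 := (mem_Win.1 ht).2
    have h5 := (mem_Win.1 (H.mmem l)).2
    exact mem_Win.2 ⟨h2, by omega, by omega⟩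
  exact mem_Phi.2 ⟨(mem_Win.1 (h1 _ (H.mmem l))).1, h0.trans (card_le_of_refl _ h1)⟩

theorem MidData.main_claim (D : MidData b S X u) (H : HData S X u h hm)
    (hW1 : ∀ l, l1 ≤ l → ∀ z ∈ MH S X u l, (Win S X u l z).card ≤ W)
    {l : ℕ} (hl : l1 ≤ l) (hne : (Phi S X u W l).Nonempty)
    (j : ℕ) (hk : ∀ i < j, Kept b S X u W h (l + i)) (hnk : ¬ Kept b S X u W h (l + j)) :
    (Phi S X u W (l + j + 1)).card < (Phi S X u W l).card := by
  have hrun := D.kept_run H hW1 hl j hk
  have hphi := D.phi_run H hW1 hl j hk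
  have s5 := D.hu
  -- the missed element
  obtain ⟨e, heP, he0, he1⟩ : ∃ e ∈ Phi S X u W l, (j = 0 → ∀ y ∈ Phi S X u W l, y ≤ e) ∧
      (0 < j → e = S l - hm l) := by
    rcases Nat.eq_zero_or_pos j with hj | hj
    · refine ⟨(Phi S X u W l).max' hne, Finset.max'_mem _ _, fun _ y hy => Finset.le_max' _ _ hy,
        fun hj' => absurd hj' (by omega)⟩
    · have h1 : Kept b S X u W h l := by simpa using hk 0 hj
      exact ⟨S l - hm l, D.top_mem H h1.1, fun hj' => absurd hj' (by omega), fun _ => rfl⟩
  have key : ∀ z ∈ Phi S X u W (l + j + 1), z - b (l+j) ∈ (Phi S X u W l).erase e := by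
    intro z hz
    have h1 : z ∈ Phi S X u W (l+j) ∧ z - b (l+j) ∈ Phi S X u W (l+j) := by
      rcases D.step H hW1 (l := l + j) (by omega) hz with h1 | h1
      · exact h1
      · exact absurd h1.1 hnk
    have hbj : b l ≤ b (l+j) := D.hmono (by omega)
    have hbig := D.hbig l
    have hbigj := D.hbig (l+j)
    rw [Finset.mem_erase]
    have hleh : b (l+j) ≤ h l := by
      have := D.le_of_mem (H.mem (l+j))
      rw [(hrun j le_rfl).1] at this
      exact this
    rcases hphi j le_rfl z h1.1 with h2 | ⟨i0, hi0, h2⟩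
    · -- z in Phi l
      have hzM := mem_MH.1 (mem_Phi.1 h2).1
      have h3 : z - b (l+j) ∈ Phi S X u W l := by
        rcases hphi j le_rfl _ h1.2 with h3 | ⟨i', hi', h3⟩
        · exact h3
        · exfalso
          have hk0 : Kept b S X u W h l := by simpa using hk 0 (by omega)
          have k1 := D.kept_le H hk0
          have k2 := D.hS l
          have k3 : S (l + 1) ≤ S (l + i' + 1) := by
            have := D.S_mono (l+1) i'
            have e1 : l + 1 + i' = l + i' + 1 := by ring
            rw [e1] at this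
            have : (0:ℤ) ≤ i' * (10 * u + 10) := by positivity
            omega
          omega
      refine ⟨?_, h3⟩
      intro hee
      rcases Nat.eq_zero_or_pos j with hj | hj
      · have := he0 hj z h2
        omega
      · have h4 := he1 hj
        have hk0 : Kept b S X u W h l := by simpa using hk 0 hj
        have k1 := D.kept_le H hk0
        omega
    · -- z is a created window
      have hki := hk i0 hi0
      have k1 := D.kept_le H hki
      have r1 := hrun i0 (by omega)
      have rj := hrun j le_rfl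
      have hbi : b (l + i0) ≤ b (l + j) := D.hmono (by omega)
      have hbi0 : b l ≤ b (l + i0) := D.hmono (by omega)
      have hS0 := D.hS (l + i0)
      have hne' : b (l+i0) ≠ b (l+j) := by
        intro hbe
        apply hnk
        constructor
        · have hk' := (mem_Phi.1 hki.1).2
          rw [r1.2.1] at hk'
          refine mem_Phi.2 ⟨H.mem _, ?_⟩
          rw [rj.2.1]
          exact hk'
        · intro t ht
          rw [rj.2.1, ← r1.2.1] at ht
          have t1 := hki.2 t ht
          have t2 := k1.2.2 t ht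
          rw [← hbe]
          have hj' : l + j = l + i0 + (j - i0) := by omega
          rw [hj', D.low_stable t2]
          exact t1
      have hlt : b (l+i0) < b (l+j) := lt_of_le_of_ne hbi hne'
      have hgap : b (l+j) ≤ b (l+i0) + u := by
        have := k1.1
        rw [r1.1] at this
        omega
      have h3 : z - b (l+j) ∈ Phi S X u W l := by
        rcases hphi j le_rfl _ h1.2 with h3 | ⟨i', hi', h3⟩
        · exact h3
        · exfalso
          rcases Nat.lt_or_ge i' i0 with hc | hc
          · have m1 := D.S_mono (l + i' + 1) (i0 - i' - 1)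
            have e1 : l + i' + 1 + (i0 - i' - 1) = l + i0 := by omega
            rw [e1] at m1
            have m2 : (0:ℤ) ≤ ((i0 - i' - 1 : ℕ) : ℤ) * (10 * u + 10) := by positivity
            -- S (l+i'+1) ≤ S (l+i0), but need strictness
            rcases Nat.lt_or_ge (i' + 1) i0 with hc2 | hc2
            · have m3 : (1:ℤ) ≤ ((i0 - i' - 1 : ℕ) : ℤ) := by
                have : 1 ≤ i0 - i' - 1 := by omega
                exact_mod_cast this
              have m4 : (10 * u + 10) ≤ ((i0 - i' - 1 : ℕ) : ℤ) * (10 * u + 10) := by nlinarith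
              omega
            · have m5 : i' + 1 = i0 := by omega
              have m6 : S (l + i' + 1) = S (l + i0) := by rw [← m5]; rfl
              omega
          · have m1 := D.S_mono (l + i0 + 1) (i' - i0)
            have e1 : l + i0 + 1 + (i' - i0) = l + i' + 1 := by omega
            rw [e1] at m1
            have m2 : (0:ℤ) ≤ ((i' - i0 : ℕ) : ℤ) * (10 * u + 10) := by positivity
            omega
      refine ⟨?_, h3⟩
      intro hee
      have h4 := he1 (by omega)
      rcases Nat.eq_zero_or_pos i0 with hi | hi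
      · subst hi
        simp only [add_zero] at *
        omega
      · have m1 := D.S_mono (l + 1) (i0 - 1)
        have e1 : l + 1 + (i0 - 1) = l + i0 := by omega
        rw [e1] at m1
        have m2 : (0:ℤ) ≤ ((i0 - 1 : ℕ) : ℤ) * (10 * u + 10) := by positivity
        have m3 := D.hS l
        omega
  calc (Phi S X u W (l + j + 1)).card ≤ ((Phi S X u W l).erase e).card := card_le_of_shift _ key
    _ < (Phi S X u W l).card := Finset.card_erase_lt_of_mem heP

theorem MidData.contra (D : MidData b S X u) : False := by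
  classical
  obtain ⟨h, hm, H⟩ := D.exists_HData
  -- eventual maximal window size
  have hP : ∃ k : ℕ, ∃ l, ∀ z ∈ MH S X u l, (Win S X u l z).card ≤ k := by
    refine ⟨(MH S X u 0).card, 0, fun z _ => Finset.card_le_card (Finset.filter_subset _ _)⟩
  set W := Nat.find hP with hWdef
  obtain ⟨l1, hl1⟩ := Nat.find_spec hP
  have hW1 : ∀ l, l1 ≤ l → ∀ z ∈ MH S X u l, (Win S X u l z).card ≤ W := by
    intro l hl
    induction l, hl using Nat.le_induction with
    | base => exact hl1
    | succ l hl ih => exact D.Wmono ih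
  have hW2 : ∀ l, l1 ≤ l → (Phi S X u W l).Nonempty := by
    intro l hl
    by_contra hc
    rw [Finset.not_nonempty_iff_eq_empty] at hc
    have h1 : ∀ z ∈ MH S X u l, (Win S X u l z).card < W := by
      intro z hz
      by_contra hcc
      have : z ∈ Phi S X u W l := mem_Phi.2 ⟨hz, by omega⟩
      rw [hc] at this
      exact absurd this (Finset.notMem_empty _)
    have h2 : 0 < W := lt_of_le_of_lt (Nat.zero_le _) (h1 _ (H.mem l))
    have h3 : W ≤ W - 1 := Nat.find_min' hP ⟨l, fun z hz => by
      have := h1 z hz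
      omega⟩
    omega
  -- minimal number of full windows
  obtain ⟨l, hl, hmin⟩ : ∃ l, l1 ≤ l ∧ ∀ l', l1 ≤ l' →
      (Phi S X u W l).card ≤ (Phi S X u W l').card := by
    have hQ : ∃ n : ℕ, ∃ l, l1 ≤ l ∧ (Phi S X u W l).card = n := ⟨_, l1, le_rfl, rfl⟩
    obtain ⟨l, hl, hle⟩ := Nat.find_spec hQ
    refine ⟨l, hl, fun l' hl' => ?_⟩
    rw [hle]
    exact Nat.find_min' hQ ⟨l', hl', rfl⟩
  -- first non-kept step
  have hR : ∃ j, ¬ Kept b S X u W h (l + j) := by
    by_contra hc
    push Not at hc
    have h1 : ∀ j, h (l + j) = h l := fun j =>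
      (D.kept_run H hW1 hl j (fun i _ => hc i) j le_rfl).1
    obtain ⟨l2, hl2⟩ := D.hfill (h l) (mem_MH.1 (H.mem l)).1
    have hXmono : ∀ m n, m ≤ n → h l ∈ X m → h l ∈ X n := by
      intro m n hmn hx
      induction n, hmn using Nat.le_induction with
      | base => exact hx
      | succ n _ ih => exact (D.hX n _).2 (Or.inl ih)
    have h2 := hXmono l2 (l + l2) (by omega) hl2
    have h3 := (mem_MH.1 (H.mem (l + l2))).2.2
    rw [h1] at h3
    exact h3 h2
  have hj := Nat.find_spec hR
  have hjmin : ∀ i < Nat.find hR, Kept b S X u W h (l + i) := fun i hi => by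
    have := Nat.find_min hR hi
    push Not at this
    exact this
  have := D.main_claim H hW1 hl (hW2 l hl) _ hjmin hj
  have h2 := hmin (l + Nat.find hR + 1) (by omega)
  omega

end Pool.Agent.H322R2
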