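import Pool.Agent.H322R2.NB

namespace Pool.Agent.H322R2

open Finset

/-- After deleting the terms of `a` with index in `D`, the remaining sequence is complete:
every large enough integer is a sum of terms with distinct indices outside `D`. -/
def CompleteOff (a : ℕ → ℕ) (D : Finset ℕ) : Prop :=
  ∃ N0 : ℕ, ∀ N : ℕ, N0 ≤ N → ∃ F : Finset ℕ, Disjoint F D ∧ ∑ i ∈ F, a i = N

/-- The pair `(m,n)` is realised by some non-decreasing sequence of positive integers. -/
def Realisable (m n : ℕ) : Prop :=
  ∃ a : ℕ → ℕ, Monotone a ∧ (∀ i, 0 < a i) ∧ CompleteOff a ∅ ∧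
    (∀ D : Finset ℕ, D.card = m → CompleteOff a D) ∧
    (∀ D : Finset ℕ, D.card = n → ¬ CompleteOff a D)

theorem CompleteOff.mono {a : ℕ → ℕ} {D D' : Finset ℕ} (h : CompleteOff a D) (hD : D' ⊆ D) :
    CompleteOff a D' := by
  obtain ⟨N0, h⟩ := h
  refine ⟨N0, fun N hN => ?_⟩
  obtain ⟨F, hF, hs⟩ := h N hN
  exact ⟨F, Finset.disjoint_of_subset_right hD hF, hs⟩

theorem p2_step (a : ℕ → ℕ) (hP2 : ∀ D : Finset ℕ, D.card = 2 → CompleteOff a D)
    (D : Finset ℕ) (l : ℕ) (hD : D ⊆ range l) (u i : ℕ) (hi : i < l)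
    (hai : ∑ k ∈ D, a k + 2 * u + 2 ≤ a i)
    (hmid : ∀ z, u < z → z + u < ∑ k ∈ range l \ D, a k →
      ∃ G ⊆ range l \ D, ∑ k ∈ G, a k = z)
    (d : ℕ) (hd : l ≤ d) : CompleteOff a (insert d D) := by
  classical
  have hid : i ≠ d := by omega
  obtain ⟨N0, hN0⟩ := hP2 {i, d} (Finset.card_pair hid)
  have htot : ∑ k ∈ range l \ D, a k + ∑ k ∈ D, a k = ∑ k ∈ range l, a k :=
    Finset.sum_sdiff hD
  refine ⟨N0 + u + 1, fun N hN => ?_⟩
  obtain ⟨F, hF, hs⟩ := hN0 (N - (u + 1)) (by omega)
  rw [Finset.disjoint_right] at hF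
  have hiF : i ∉ F := hF (by simp)
  have hdF : d ∉ F := hF (by simp)
  have hsplit : ∑ k ∈ F.filter (fun k => k < l), a k + ∑ k ∈ F.filter (fun k => ¬ k < l), a k
      = ∑ k ∈ F, a k := Finset.sum_filter_add_sum_filter_not F _ _
  have hF1 : ∑ k ∈ F.filter (fun k => k < l), a k + a i ≤ ∑ k ∈ range l, a k := by
    have h1 : F.filter (fun k => k < l) ⊆ (range l).erase i := by
      intro k hk
      rw [Finset.mem_filter] at hk
      rw [Finset.mem_erase, Finset.mem_range]
      refine ⟨fun h => hiF (h ▸ hk.1), hk.2⟩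
    have h2 := Finset.sum_le_sum_of_subset (f := a) h1
    have h3 := Finset.sum_erase_add (range l) a (Finset.mem_range.2 hi)
    omega
  obtain ⟨G, hG, hGs⟩ := hmid (u + 1 + ∑ k ∈ F.filter (fun k => k < l), a k) (by omega) (by omega)
  have hdisj : Disjoint G (F.filter (fun k => ¬ k < l)) := by
    rw [Finset.disjoint_left]
    intro k hk hk'
    have h1 := hG hk
    rw [Finset.mem_sdiff, Finset.mem_range] at h1
    rw [Finset.mem_filter] at hk'
    exact hk'.2 h1.1
  refine ⟨G ∪ F.filter (fun k => ¬ k < l), ?_, ?_⟩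
  · rw [Finset.disjoint_left]
    intro k hk hk'
    rw [Finset.mem_insert] at hk'
    rw [Finset.mem_union] at hk
    rcases hk with hk | hk
    · have h1 := hG hk
      rw [Finset.mem_sdiff, Finset.mem_range] at h1
      rcases hk' with rfl | hk'
      · omega
      · exact h1.2 hk'
    · rw [Finset.mem_filter] at hk
      rcases hk' with rfl | hk'
      · exact hdF hk.1
      · have := Finset.mem_range.1 (hD hk')
        exact hk.2 this
  · rw [Finset.sum_union hdisj, hGs]
    omega

theorem bounded_step (a : ℕ → ℕ) (hmono : Monotone a) (D : Finset ℕ) (hc : CompleteOff a D)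
    (M : ℕ) (hM : ∀ i, a i ≤ M) : ∃ d, d ∉ D ∧ CompleteOff a (insert d D) := by
  classical
  obtain ⟨l0, hl0⟩ : ∃ l0, ∀ i, a i ≤ a l0 := by
    have hne : (Set.range a).Nonempty := Set.range_nonempty a
    have hb : BddAbove (Set.range a) := ⟨M, by rintro _ ⟨i, rfl⟩; exact hM i⟩
    obtain ⟨l0, h⟩ := Nat.sSup_mem hne hb
    refine ⟨l0, fun i => ?_⟩
    rw [h]
    exact le_csSup hb ⟨i, rfl⟩
  have hconst : ∀ i, l0 ≤ i → a i = a l0 := fun i hi => le_antisymm (hl0 i) (hmono hi)
  obtain ⟨K, hK⟩ : ∃ K, ∀ k ∈ D, k < K := ⟨D.sup id + 1, fun k hk =>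
    Nat.lt_succ_of_le (Finset.le_sup (f := id) hk)⟩
  set d := l0 + K with hd
  refine ⟨d, fun h => by have := hK d h; omega, ?_⟩
  obtain ⟨N0, hN0⟩ := hc
  refine ⟨N0, fun N hN => ?_⟩
  obtain ⟨F, hF, hs⟩ := hN0 N hN
  rw [Finset.disjoint_left] at hF
  have hinj : Set.InjOn (fun i => if i < d then i else i + 1) (F : Set ℕ) := by
    intro x _ y _ hxy
    simp only at hxy
    split_ifs at hxy <;> omega
  refine ⟨F.image (fun i => if i < d then i else i + 1), ?_, ?_⟩
  · rw [Finset.disjoint_left]
    intro k hk hk'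
    rw [Finset.mem_image] at hk
    obtain ⟨i, hi, rfl⟩ := hk
    rw [Finset.mem_insert] at hk'
    by_cases hid : i < d
    · rw [if_pos hid] at hk'
      rcases hk' with h | h
      · omega
      · exact hF hi h
    · rw [if_neg hid] at hk'
      rcases hk' with h | h
      · omega
      · have := hK _ h
        omega
  · rw [Finset.sum_image hinj, ← hs]
    apply Finset.sum_congr rfl
    intro i _
    by_cases hid : i < d
    · rw [if_pos hid]
    · rw [if_neg hid, hconst i (by omega), hconst (i+1) (by omega)]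

theorem unbounded_step (a : ℕ → ℕ) (hmono : Monotone a)
    (hP2 : ∀ D : Finset ℕ, D.card = 2 → CompleteOff a D)
    (D : Finset ℕ) (hc : CompleteOff a D)
    (hub : ∀ M, ∃ i, M < a i) : ∃ d, d ∉ D ∧ CompleteOff a (insert d D) := by
  classical
  obtain ⟨u, hu⟩ := hc
  obtain ⟨i, hi⟩ := hub (∑ k ∈ D, a k + 2 * u + 2 + (10 * u + 10))
  obtain ⟨K, hK⟩ : ∃ K, ∀ k ∈ D, k < K := ⟨D.sup id + 1, fun k hk =>
    Nat.lt_succ_of_le (Finset.le_sup (f := id) hk)⟩
  set L := K + i + 1 with hL
  have hDL : ∀ l, L ≤ l → D ⊆ range l := fun l hl k hk => by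
    have := hK k hk
    rw [Finset.mem_range]; omega
  by_cases hex : ∃ l, L ≤ l ∧ ∀ z, u < z → z + u < ∑ k ∈ range l \ D, a k →
      ∃ G ⊆ range l \ D, ∑ k ∈ G, a k = z
  · obtain ⟨l, hl, hmid⟩ := hex
    refine ⟨l, fun h => ?_, p2_step a hP2 D l (hDL l hl) u i (by omega) (by omega) hmid l le_rfl⟩
    have := hK l h
    omega
  · exfalso
    push Not at hex
    have hlowN : ∀ l, L ≤ l → ∀ z, u < z → z < a l → ∃ G ⊆ range l \ D, ∑ k ∈ G, a k = z := by
      intro l _ z hz1 hz2
      obtain ⟨F, hF, hs⟩ := hu z (by omega)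
      refine ⟨F, fun k hk => ?_, hs⟩
      rw [Finset.mem_sdiff, Finset.mem_range]
      refine ⟨?_, fun h => (Finset.disjoint_left.1 hF) hk h⟩
      by_contra hcc
      have h1 : a l ≤ a k := hmono (by omega)
      have h2 : a k ≤ ∑ k ∈ F, a k := Finset.single_le_sum (fun _ _ => Nat.zero_le _) hk
      omega
    have hsymN : ∀ l, ∀ G ⊆ range l \ D, ∃ G' ⊆ range l \ D,
        ∑ k ∈ G', a k + ∑ k ∈ G, a k = ∑ k ∈ range l \ D, a k := by
      intro l G hG
      exact ⟨(range l \ D) \ G, Finset.sdiff_subset, Finset.sum_sdiff hG⟩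
    have hslowN : ∀ l, L ≤ l → 2 * a l ≤ ∑ k ∈ range l \ D, a k := by
      intro l hl
      by_contra hcc
      obtain ⟨z, hz1, hz2, hz3⟩ := hex l hl
      by_cases hz4 : z < a l
      · obtain ⟨G, hG, hs⟩ := hlowN l hl z hz1 hz4
        exact hz3 G hG hs
      · obtain ⟨G, hG, hs⟩ := hlowN l hl (∑ k ∈ range l \ D, a k - z) (by omega) (by omega)
        obtain ⟨G', hG', hs'⟩ := hsymN l G hG
        exact hz3 G' hG' (by omega)
    have hsucc : ∀ l, L ≤ l → range (l+1) \ D = insert l (range l \ D) := by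
      intro l hl
      ext k
      simp only [Finset.mem_sdiff, Finset.mem_range, Finset.mem_insert]
      constructor
      · rintro ⟨h1, h2⟩
        by_cases h3 : k = l
        · exact Or.inl h3
        · exact Or.inr ⟨by omega, h2⟩
      · rintro (h | ⟨h1, h2⟩)
        · subst h
          exact ⟨by omega, fun h => by have := hK _ h; omega⟩
        · exact ⟨by omega, h2⟩
    have hnl : ∀ l, l ∉ range l \ D := fun l => by simp
    have MD : MidData (fun j => (a (L + j) : ℤ)) (fun j => ((∑ k ∈ range (L + j) \ D, a k : ℕ) : ℤ))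
        (fun j => {z : ℤ | ∃ G ⊆ range (L + j) \ D, ((∑ k ∈ G, a k : ℕ) : ℤ) = z}) (u : ℤ) := by
      refine ⟨by positivity, ?_, ?_, ?_, ?_, ?_, ?_, ?_, ?_, ?_, ?_⟩
      · intro j z
        simp only [Set.mem_setOf_eq]
        rw [← add_assoc, hsucc (L + j) (by omega)]
        constructor
        · rintro ⟨G, hG, hs⟩
          by_cases hm : L + j ∈ G
          · right
            refine ⟨G.erase (L + j), ?_, ?_⟩
            · intro k hk
              rw [Finset.mem_erase] at hk
              have := hG hk.2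
              rw [Finset.mem_insert] at this
              exact this.resolve_left hk.1
            · have := Finset.sum_erase_add G a hm
              omega
          · left
            refine ⟨G, ?_, hs⟩
            intro k hk
            have := hG hk
            rw [Finset.mem_insert] at this
            exact this.resolve_left (fun h => hm (h ▸ hk))
        · rintro (⟨G, hG, hs⟩ | ⟨G, hG, hs⟩)
          · exact ⟨G, hG.trans (Finset.subset_insert _ _), hs⟩
          · refine ⟨insert (L + j) G, Finset.insert_subset_insert _ hG, ?_⟩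
            rw [Finset.sum_insert (fun h => hnl (L + j) (hG h))]
            push_cast
            push_cast at hs
            omega
      · rintro j z ⟨G, hG, hs⟩
        obtain ⟨G', hG', hs'⟩ := hsymN (L + j) G hG
        exact ⟨G', hG', by omega⟩
      · intro j
        rw [← add_assoc, hsucc (L + j) (by omega), Finset.sum_insert (hnl _)]
        push_cast
        ring
      · intro x y hxy
        simp only
        exact_mod_cast hmono (by omega : L + x ≤ L + y)
      · intro j z hz1 hz2
        obtain ⟨G, hG, hs⟩ := hlowN (L + j) (by omega) z.toNat (by omega) (by omega)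
        exact ⟨G, hG, by omega⟩
      · intro j
        exact_mod_cast hslowN (L + j) (by omega)
      · intro j
        have : a i ≤ a (L + j) := hmono (by omega)
        omega
      · rintro j z hz ⟨G, _, hs⟩
        omega
      · intro z hz
        obtain ⟨F, hF, hs⟩ := hu z.toNat (by omega)
        refine ⟨F.sup id + 1, F, ?_, by omega⟩
        intro k hk
        rw [Finset.mem_sdiff, Finset.mem_range]
        have h1 : k ≤ F.sup id := Finset.le_sup (f := id) hk
        exact ⟨by omega, fun h => (Finset.disjoint_left.1 hF) hk h⟩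
      · intro j
        obtain ⟨z, hz1, hz2, hz3⟩ := hex (L + j) (by omega)
        refine ⟨z, by exact_mod_cast hz1, ?_, ?_⟩
        · omega
        · rintro ⟨G, hG, hs⟩
          exact hz3 G hG (by exact_mod_cast hs)
    exact MD.contra

theorem step_all (a : ℕ → ℕ) (hmono : Monotone a)
    (hP2 : ∀ D : Finset ℕ, D.card = 2 → CompleteOff a D)
    (D : Finset ℕ) (hc : CompleteOff a D) : ∃ d, d ∉ D ∧ CompleteOff a (insert d D) := by
  by_cases hb : ∃ M, ∀ i, a i ≤ M
  · obtain ⟨M, hM⟩ := hb
    exact bounded_step a hmono D hc M hM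
  · push Not at hb
    exact unbounded_step a hmono hP2 D hc hb

/-- If every deletion of two terms leaves a complete sequence, then for every `n` some deletion
of `n` terms leaves a complete sequence. -/
theorem exists_deletion (a : ℕ → ℕ) (hmono : Monotone a)
    (hP2 : ∀ D : Finset ℕ, D.card = 2 → CompleteOff a D) (n : ℕ) :
    ∃ D : Finset ℕ, D.card = n ∧ CompleteOff a D := by
  induction n with
  | zero => exact ⟨∅, rfl, (hP2 {0, 1} rfl).mono (Finset.empty_subset _)⟩
  | succ n ih =>
    obtain ⟨D, hD, hc⟩ := ih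
    obtain ⟨d, hd, hc'⟩ := step_all a hmono hP2 D hc
    exact ⟨insert d D, by rw [Finset.card_insert_of_notMem hd, hD], hc'⟩

theorem not_realisable {m n : ℕ} (hm : 2 ≤ m) : ¬ Realisable m n := by
  rintro ⟨a, hmono, _, _, hP, hN⟩
  have hP2 : ∀ D : Finset ℕ, D.card = 2 → CompleteOff a D := by
    intro D hD
    obtain ⟨D', hDD', hD'⟩ := Infinite.exists_superset_card_eq D m (by omega)
    exact (hP D' hD').mono hDD'
  obtain ⟨D, hD, hc⟩ := exists_deletion a hmono hP2 n
  exact hN D hD hc

end Pool.Agent.H322R2
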