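import Pool.Agent.H322R2.NC

namespace Pool.Agent.H322R2

open Finset

theorem realisable_zero {n : ℕ} (hn : 1 ≤ n) : Realisable 0 n := by
  classical
  refine ⟨fun i => 2 ^ i, ?_, ?_, ?_, ?_, ?_⟩
  · intro i j hij
    exact Nat.pow_le_pow_right (by norm_num) hij
  · intro i; positivity
  · exact ⟨0, fun N _ => ⟨N.bitIndices.toFinset, Finset.disjoint_empty_right _,
      Finset.twoPowSum_toFinset_bitIndices N⟩⟩
  · intro D hD
    rw [Finset.card_eq_zero] at hD
    subst hD
    exact ⟨0, fun N _ => ⟨N.bitIndices.toFinset, Finset.disjoint_empty_right _,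
      Finset.twoPowSum_toFinset_bitIndices N⟩⟩
  · intro D hD hc
    have hne : D.Nonempty := Finset.card_pos.1 (by omega)
    obtain ⟨i, hi⟩ := hne
    obtain ⟨N0, hN0⟩ := hc
    have hlt : N0 < 2 ^ N0 := Nat.lt_two_pow_self
    have hle : 2 ^ N0 ≤ 2 ^ (i + N0 + 1) := Nat.pow_le_pow_right (by norm_num) (by omega)
    obtain ⟨F, hF, hs⟩ := hN0 (2 ^ i + 2 ^ (i + N0 + 1))
      (hlt.le.trans (hle.trans (Nat.le_add_left _ _)))
    have hinj : Function.Injective (fun s : Finset ℕ => ∑ k ∈ s, 2 ^ k) :=
      Finset.geomSum_injective (n := 2) le_rfl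
    have h1 : ∑ k ∈ ({i, i + N0 + 1} : Finset ℕ), 2 ^ k = 2 ^ i + 2 ^ (i + N0 + 1) :=
      Finset.sum_pair (by omega)
    have h2 : F = {i, i + N0 + 1} := hinj (by
      simp only
      rw [h1]
      exact hs)
    have h3 : i ∈ F := by rw [h2]; simp
    exact (Finset.disjoint_left.1 hF) h3 hi

theorem sum_fib (l : ℕ) : ∑ k ∈ range l, Nat.fib (k + 1) + 1 = Nat.fib (l + 2) := by
  induction l with
  | zero => simp
  | succ l ih =>
    rw [Finset.sum_range_succ]
    have h1 : Nat.fib (l + 1 + 2) = Nat.fib (l + 1) + Nat.fib (l + 1 + 1) := Nat.fib_add_two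
    have h2 : l + 1 + 1 = l + 2 := rfl
    rw [h2] at h1
    omega

theorem fib_rep (l : ℕ) : ∀ N, N + 1 ≤ Nat.fib (l + 2) →
    ∃ F ⊆ range l, ∑ k ∈ F, Nat.fib (k + 1) = N := by
  induction l with
  | zero =>
    intro N hN
    have : Nat.fib (0 + 2) = 1 := rfl
    exact ⟨∅, Finset.empty_subset _, by simp; omega⟩
  | succ l ih =>
    intro N hN
    have h1 : Nat.fib (l + 1 + 2) = Nat.fib (l + 1) + Nat.fib (l + 1 + 1) := Nat.fib_add_two
    have h2 : l + 1 + 1 = l + 2 := rfl
    rw [h2] at h1
    have h3 : Nat.fib (l + 1) ≤ Nat.fib (l + 2) := Nat.fib_mono (by omega)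
    by_cases hc : N < Nat.fib (l + 1)
    · obtain ⟨F, hF, hs⟩ := ih N (by omega)
      exact ⟨F, hF.trans (Finset.range_mono (by omega)), hs⟩
    · obtain ⟨F, hF, hs⟩ := ih (N - Nat.fib (l + 1)) (by omega)
      have hl : l ∉ F := fun h => by
        have := Finset.mem_range.1 (hF h)
        omega
      refine ⟨insert l F, ?_, ?_⟩
      · intro k hk
        rw [Finset.mem_insert] at hk
        rw [Finset.mem_range]
        rcases hk with hk | hk
        · omega
        · have := Finset.mem_range.1 (hF hk)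
          omega
      · rw [Finset.sum_insert hl]
        omega

theorem fib_rep_del (i l : ℕ) (hl : i + 1 ≤ l) : ∀ N, N + Nat.fib (i + 1) + 1 ≤ Nat.fib (l + 2) →
    ∃ F ⊆ (range l).erase i, ∑ k ∈ F, Nat.fib (k + 1) = N := by
  induction l, hl using Nat.le_induction with
  | base =>
    intro N hN
    have h1 : Nat.fib (i + 1 + 2) = Nat.fib (i + 1) + Nat.fib (i + 1 + 1) := Nat.fib_add_two
    have h2 : i + 1 + 1 = i + 2 := rfl
    rw [h2] at h1
    obtain ⟨F, hF, hs⟩ := fib_rep i N (by omega)
    refine ⟨F, fun k hk => ?_, hs⟩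
    have := Finset.mem_range.1 (hF hk)
    rw [Finset.mem_erase, Finset.mem_range]
    omega
  | succ l hl ih =>
    intro N hN
    have h1 : Nat.fib (l + 1 + 2) = Nat.fib (l + 1) + Nat.fib (l + 1 + 1) := Nat.fib_add_two
    have h2 : l + 1 + 1 = l + 2 := rfl
    rw [h2] at h1
    have h3 : Nat.fib (l + 2) = Nat.fib l + Nat.fib (l + 1) := Nat.fib_add_two
    have h4 : Nat.fib (i + 1) ≤ Nat.fib l := Nat.fib_mono (by omega)
    by_cases hc : N < Nat.fib (l + 1)
    · obtain ⟨F, hF, hs⟩ := ih N (by omega)
      exact ⟨F, hF.trans (Finset.erase_subset_erase _ (Finset.range_mono (by omega))), hs⟩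
    · obtain ⟨F, hF, hs⟩ := ih (N - Nat.fib (l + 1)) (by omega)
      have hlF : l ∉ F := fun h => by
        have := hF h
        rw [Finset.mem_erase, Finset.mem_range] at this
        omega
      refine ⟨insert l F, ?_, ?_⟩
      · intro k hk
        rw [Finset.mem_insert] at hk
        rw [Finset.mem_erase, Finset.mem_range]
        rcases hk with hk | hk
        · omega
        · have := hF hk
          rw [Finset.mem_erase, Finset.mem_range] at this
          omega
      · rw [Finset.sum_insert hlF]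
        omega

theorem fib_complete_del (i : ℕ) : CompleteOff (fun k => Nat.fib (k + 1)) {i} := by
  refine ⟨0, fun N _ => ?_⟩
  obtain ⟨F, hF, hs⟩ := fib_rep_del i (N + Nat.fib (i + 1) + i + 10) (by omega) N (by
    have := Nat.le_fib_self (n := N + Nat.fib (i + 1) + i + 10 + 2) (by omega)
    omega)
  refine ⟨F, ?_, hs⟩
  rw [Finset.disjoint_singleton_right]
  intro h
  have := hF h
  simp at this

theorem fib_not_rep (i j : ℕ) (hij : i < j) (m : ℕ) :
    ∀ F : Finset ℕ, i ∉ F → j ∉ F → ∑ k ∈ F, Nat.fib (k + 1) + 1 ≠ Nat.fib (j + 2 + 2 * m) := by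
  induction m with
  | zero =>
    intro F hi hj hs
    have h0 : F ⊆ (range j).erase i := by
      intro k hk
      have h1 : Nat.fib (k + 1) ≤ ∑ k ∈ F, Nat.fib (k + 1) :=
        Finset.single_le_sum (f := fun k => Nat.fib (k + 1)) (fun _ _ => Nat.zero_le _) hk
      have h2 : k + 1 < j + 2 := by
        by_contra hc
        have : Nat.fib (j + 2 + 2 * 0) ≤ Nat.fib (k + 1) := Nat.fib_mono (by omega)
        omega
      rw [Finset.mem_erase, Finset.mem_range]
      have h3 : k ≠ i := fun h => hi (h ▸ hk)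
      have h4 : k ≠ j := fun h => hj (h ▸ hk)
      omega
    have h1 := Finset.sum_le_sum_of_subset (f := fun k => Nat.fib (k + 1)) h0
    have h2 := Finset.sum_erase_add (range j) (fun k => Nat.fib (k + 1)) (Finset.mem_range.2 hij)
    have h3 := sum_fib j
    have h4 : 0 < Nat.fib (i + 1) := Nat.fib_pos.2 (by omega)
    have h5 : j + 2 + 2 * 0 = j + 2 := rfl
    rw [h5] at hs
    omega
  | succ m ih =>
    intro F hi hj hs
    set t := j + 2 + 2 * m with ht
    have hfib : Nat.fib (t + 2) = Nat.fib t + Nat.fib (t + 1) := Nat.fib_add_two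
    have he : j + 2 + 2 * (m + 1) = t + 2 := by omega
    rw [he] at hs
    have hlt : ∀ k ∈ F, k ≤ t := by
      intro k hk
      have h1 : Nat.fib (k + 1) ≤ ∑ k ∈ F, Nat.fib (k + 1) :=
        Finset.single_le_sum (f := fun k => Nat.fib (k + 1)) (fun _ _ => Nat.zero_le _) hk
      by_contra hc
      have : Nat.fib (t + 2) ≤ Nat.fib (k + 1) := Nat.fib_mono (by omega)
      omega
    by_cases htF : t ∈ F
    · have h1 := Finset.sum_erase_add F (fun k => Nat.fib (k + 1)) htF
      exact ih (F.erase t) (fun h => hi (Finset.mem_of_mem_erase h))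
        (fun h => hj (Finset.mem_of_mem_erase h)) (by omega)
    · have h0 : F ⊆ (range t).erase i := by
        intro k hk
        have h2 := hlt k hk
        rw [Finset.mem_erase, Finset.mem_range]
        have h3 : k ≠ i := fun h => hi (h ▸ hk)
        have h4 : k ≠ t := fun h => htF (h ▸ hk)
        omega
      have h1 := Finset.sum_le_sum_of_subset (f := fun k => Nat.fib (k + 1)) h0
      have h2 := Finset.sum_erase_add (range t) (fun k => Nat.fib (k + 1))
        (Finset.mem_range.2 (by omega : i < t))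
      have h3 := sum_fib t
      have h4 : 0 < Nat.fib (i + 1) := Nat.fib_pos.2 (by omega)
      omega

theorem fib_not_complete (i j : ℕ) (hij : i < j) :
    ¬ CompleteOff (fun k => Nat.fib (k + 1)) {i, j} := by
  rintro ⟨N0, hN0⟩
  have h1 := Nat.le_fib_self (n := j + 2 + 2 * (N0 + 5)) (by omega)
  obtain ⟨F, hF, hs⟩ := hN0 (Nat.fib (j + 2 + 2 * (N0 + 5)) - 1) (by omega)
  have hs' : ∑ k ∈ F, Nat.fib (k + 1) = Nat.fib (j + 2 + 2 * (N0 + 5)) - 1 := hs
  rw [Finset.disjoint_right] at hF
  exact fib_not_rep i j hij (N0 + 5) F (hF (by simp)) (hF (by simp)) (by omega)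

theorem realisable_one {n : ℕ} (hn : 2 ≤ n) : Realisable 1 n := by
  refine ⟨fun k => Nat.fib (k + 1), ?_, ?_, ?_, ?_, ?_⟩
  · intro x y hxy
    exact Nat.fib_mono (by omega)
  · intro i
    exact Nat.fib_pos.2 (by omega)
  · exact (fib_complete_del 0).mono (Finset.empty_subset _)
  · intro D hD
    rw [Finset.card_eq_one] at hD
    obtain ⟨i, rfl⟩ := hD
    exact fib_complete_del i
  · intro D hD hc
    obtain ⟨i, hi, j, hj, hij⟩ := Finset.one_lt_card.1 (by omega : 1 < D.card)
    rcases Nat.lt_or_gt_of_ne hij with h | h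
    · exact fib_not_complete i j h (hc.mono (by
        intro k hk; simp only [Finset.mem_insert, Finset.mem_singleton] at hk
        rcases hk with rfl | rfl <;> assumption))
    · exact fib_not_complete j i h (hc.mono (by
        intro k hk; simp only [Finset.mem_insert, Finset.mem_singleton] at hk
        rcases hk with rfl | rfl <;> assumption))

/-- The classification of realisable pairs. -/
theorem realisable_iff (m n : ℕ) (hmn : m < n) : Realisable m n ↔ m ≤ 1 := by
  constructor
  · intro h
    by_contra hc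
    exact not_realisable (by omega) h
  · intro h
    rcases Nat.eq_zero_or_pos m with h0 | h0
    · subst h0
      exact realisable_zero (by omega)
    · have : m = 1 := by omega
      subst this
      exact realisable_one (by omega)

end Pool.Agent.H322R2
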