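import Mathlib

/-!
Seminorms on polynomials (length, i.e. `ℓ¹` norm) and a boundedness predicate for power series.
-/

open Polynomial Finset

namespace Pool.Agent.H322R2

section PolyNorm

variable {A : Type*} [CommRing A] (N : RingSeminorm A)

/-- `ℓ¹` length of a polynomial with respect to a ring seminorm on coefficients. -/
noncomputable def pnFun (p : A[X]) : ℝ := ∑ i ∈ p.support, N (p.coeff i)

lemma pnFun_eq_range (p : A[X]) {n : ℕ} (h : p.natDegree < n) :
    pnFun N p = ∑ i ∈ range n, N (p.coeff i) := by
  unfold pnFun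
  apply Finset.sum_subset
  · intro i hi
    rw [Finset.mem_range]
    exact lt_of_le_of_lt (le_natDegree_of_mem_supp i hi) h
  · intro i _ hi
    rw [Polynomial.notMem_support_iff] at hi
    rw [hi, map_zero]

lemma pnFun_add_le (p q : A[X]) : pnFun N (p + q) ≤ pnFun N p + pnFun N q := by
  set n := max (max p.natDegree q.natDegree) (p + q).natDegree + 1 with hn
  rw [pnFun_eq_range N p (n := n) (by omega), pnFun_eq_range N q (n := n) (by omega),
    pnFun_eq_range N (p + q) (n := n) (by omega), ← Finset.sum_add_distrib]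
  apply Finset.sum_le_sum
  intro i _
  rw [coeff_add]
  exact map_add_le_add N _ _

lemma pnFun_zero : pnFun N (0 : A[X]) = 0 := by
  simp [pnFun]

lemma pnFun_neg (p : A[X]) : pnFun N (-p) = pnFun N p := by
  unfold pnFun
  rw [support_neg]
  apply Finset.sum_congr rfl
  intro i _
  rw [coeff_neg, map_neg_eq_map]

lemma pnFun_nonneg (p : A[X]) : 0 ≤ pnFun N p :=
  Finset.sum_nonneg fun _ _ => apply_nonneg N _

lemma pnFun_sum_le {ι : Type*} (s : Finset ι) (f : ι → A[X]) :
    pnFun N (∑ i ∈ s, f i) ≤ ∑ i ∈ s, pnFun N (f i) := by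
  classical
  induction s using Finset.induction_on with
  | empty => simp [pnFun_zero]
  | insert a s ha ih =>
    rw [Finset.sum_insert ha, Finset.sum_insert ha]
    exact (pnFun_add_le N _ _).trans (by linarith)

lemma pnFun_monomial_mul_le (n : ℕ) (a : A) (q : A[X]) :
    pnFun N (monomial n a * q) ≤ N a * pnFun N q := by
  set k := max (q.natDegree + n) (monomial n a * q).natDegree + 1 with hk
  rw [pnFun_eq_range N (monomial n a * q) (n := k) (by omega),
    pnFun_eq_range N q (n := k) (by omega), Finset.mul_sum]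
  have h1 : ∑ i ∈ range k, N ((monomial n a * q).coeff i)
      = ∑ i ∈ (range k).filter (fun i => n ≤ i), N ((monomial n a * q).coeff i) := by
    rw [Finset.sum_filter]
    apply Finset.sum_congr rfl
    intro i _
    split_ifs with h
    · rfl
    · rw [← C_mul_X_pow_eq_monomial, mul_assoc, coeff_C_mul, coeff_X_pow_mul', if_neg h,
        mul_zero, map_zero]
  rw [h1]
  have h2 : ∑ i ∈ (range k).filter (fun i => n ≤ i), N ((monomial n a * q).coeff i)
      ≤ ∑ i ∈ (range k).filter (fun i => n ≤ i), N a * N (q.coeff (i - n)) := by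
    apply Finset.sum_le_sum
    intro i hi
    rw [Finset.mem_filter] at hi
    rw [← C_mul_X_pow_eq_monomial, mul_assoc, coeff_C_mul, coeff_X_pow_mul', if_pos hi.2]
    exact map_mul_le_mul N _ _
  refine h2.trans ?_
  have h3 : ∑ i ∈ (range k).filter (fun i => n ≤ i), N a * N (q.coeff (i - n))
      = ∑ j ∈ ((range k).filter (fun i => n ≤ i)).image (fun i => i - n), N a * N (q.coeff j) := by
    rw [Finset.sum_image]
    intro x hx y hy hxy
    rw [Finset.mem_coe, Finset.mem_filter] at hx hy
    simp only at hxy
    omega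
  rw [h3]
  apply Finset.sum_le_sum_of_subset_of_nonneg
  · intro j hj
    rw [Finset.mem_image] at hj
    obtain ⟨i, hi, rfl⟩ := hj
    rw [Finset.mem_filter, Finset.mem_range] at hi
    rw [Finset.mem_range]
    omega
  · intro i _ _
    exact mul_nonneg (apply_nonneg N _) (apply_nonneg N _)

lemma pnFun_mul_le (p q : A[X]) : pnFun N (p * q) ≤ pnFun N p * pnFun N q := by
  conv_lhs => rw [p.as_sum_support, Finset.sum_mul]
  refine (pnFun_sum_le N _ _).trans ?_
  rw [pnFun, Finset.sum_mul]
  apply Finset.sum_le_sum
  intro i _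
  exact pnFun_monomial_mul_le N _ _ _

/-- The length as a ring seminorm. -/
noncomputable def pn : RingSeminorm A[X] where
  toFun := pnFun N
  map_zero' := pnFun_zero N
  add_le' := pnFun_add_le N
  neg' := pnFun_neg N
  mul_le' := pnFun_mul_le N

lemma pn_apply (p : A[X]) : pn N p = ∑ i ∈ p.support, N (p.coeff i) := rfl

lemma pn_eq_range (p : A[X]) {n : ℕ} (h : p.natDegree < n) :
    pn N p = ∑ i ∈ range n, N (p.coeff i) := pnFun_eq_range N p h

lemma pn_monomial (n : ℕ) (a : A) : pn N (monomial n a) = N a := by
  rw [pn_eq_range N _ (n := n + 1) (by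
    exact lt_of_le_of_lt (natDegree_monomial_le a) (Nat.lt_succ_self n))]
  rw [Finset.sum_eq_single n]
  · rw [coeff_monomial, if_pos rfl]
  · intro b _ hb
    rw [coeff_monomial, if_neg hb.symm, map_zero]
  · intro h
    exact absurd (Finset.mem_range.2 (Nat.lt_succ_self n)) h

lemma pn_C (a : A) : pn N (C a) = N a := by
  rw [← monomial_zero_left, pn_monomial]

lemma pn_X : pn N (X : A[X]) = N 1 := by
  rw [← monomial_one_one_eq_X, pn_monomial]

lemma pn_one : pn N (1 : A[X]) = N 1 := by
  rw [← C_1, pn_C]

lemma coeff_le_pn (p : A[X]) (i : ℕ) : N (p.coeff i) ≤ pn N p := by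
  by_cases h : i ∈ p.support
  · rw [pn_apply]
    exact Finset.single_le_sum (f := fun i => N (p.coeff i)) (fun _ _ => apply_nonneg N _) h
  · rw [notMem_support_iff] at h
    rw [h, map_zero]
    exact apply_nonneg _ _

/-- triangle inequality for seminorms over finite sums -/
lemma seminorm_sum_le {B : Type*} [CommRing B] (M : RingSeminorm B) {ι : Type*} (s : Finset ι)
    (f : ι → B) : M (∑ i ∈ s, f i) ≤ ∑ i ∈ s, M (f i) := by
  classical
  induction s using Finset.induction_on with
  | empty => simp
  | insert a s ha ih =>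
    rw [Finset.sum_insert ha, Finset.sum_insert ha]
    exact (map_add_le_add M _ _).trans (by linarith)

lemma seminorm_prod_le {B : Type*} [CommRing B] (M : RingSeminorm B) (h1 : M 1 ≤ 1)
    {ι : Type*} (s : Finset ι)
    (f : ι → B) : M (∏ i ∈ s, f i) ≤ ∏ i ∈ s, M (f i) := by
  classical
  induction s using Finset.induction_on with
  | empty => simpa using h1
  | insert a s ha ih =>
    rw [Finset.prod_insert ha, Finset.prod_insert ha]
    exact (map_mul_le_mul M _ _).trans
      (mul_le_mul_of_nonneg_left ih (apply_nonneg M _))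

lemma seminorm_pow_le {B : Type*} [CommRing B] (M : RingSeminorm B) (h1 : M 1 ≤ 1)
    (x : B) (n : ℕ) : M (x ^ n) ≤ M x ^ n := by
  induction n with
  | zero => simpa using h1
  | succ n ih =>
    rw [pow_succ, pow_succ]
    exact (map_mul_le_mul M _ _).trans
      (mul_le_mul_of_nonneg_right ih (apply_nonneg M _))

lemma seminorm_nsmul_le {B : Type*} [CommRing B] (M : RingSeminorm B) (n : ℕ) (x : B) :
    M (n • x) ≤ n * M x := by
  induction n with
  | zero => simp
  | succ n ih =>
    rw [succ_nsmul]
    refine (map_add_le_add M _ _).trans ?_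
    push_cast
    linarith

lemma seminorm_zsmul_le {B : Type*} [CommRing B] (M : RingSeminorm B) (n : ℤ) (x : B) :
    M (n • x) ≤ |(n : ℝ)| * M x := by
  rcases Int.eq_nat_or_neg n with ⟨m, rfl | rfl⟩
  · rw [natCast_zsmul]
    simpa using seminorm_nsmul_le M m x
  · rw [neg_smul, map_neg_eq_map, natCast_zsmul]
    simpa using seminorm_nsmul_le M m x

/-- The usual absolute value as ring seminorm on `ℤ` -/
noncomputable def zn : RingSeminorm ℤ where
  toFun := fun n => |(n : ℝ)|
  map_zero' := by simp
  add_le' := fun a b => by push_cast; exact abs_add_le _ _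
  neg' := fun a => by simp
  mul_le' := fun a b => by push_cast; rw [abs_mul]

@[simp] lemma zn_apply (n : ℤ) : zn n = |(n : ℝ)| := rfl

/-- derivative bound -/
lemma pn_derivative_le (p : A[X]) : pn N (derivative p) ≤ p.natDegree * pn N p := by
  have hd : (derivative p).natDegree < p.natDegree + 1 :=
    lt_of_le_of_lt (natDegree_derivative_le p) (by omega)
  rw [pn_eq_range N _ hd]
  have h1 : ∀ i ∈ range (p.natDegree + 1), N ((derivative p).coeff i)
      ≤ p.natDegree * (if i + 1 < p.natDegree + 1 then N (p.coeff (i + 1)) else 0) := by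
    intro i _
    rw [coeff_derivative]
    split_ifs with h
    · have : p.coeff (i + 1) * ((i : A) + 1) = (i + 1) • p.coeff (i + 1) := by
        rw [nsmul_eq_mul]; push_cast; ring
      rw [this]
      refine (seminorm_nsmul_le N _ _).trans ?_
      apply mul_le_mul_of_nonneg_right _ (apply_nonneg N _)
      have : i + 1 ≤ p.natDegree := by omega
      exact_mod_cast this
    · rw [coeff_eq_zero_of_natDegree_lt (by omega), zero_mul, map_zero, mul_zero]
  refine (Finset.sum_le_sum h1).trans ?_
  rw [← Finset.mul_sum]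
  apply mul_le_mul_of_nonneg_left _ (Nat.cast_nonneg _)
  rw [pn_eq_range N p (n := p.natDegree + 1) (Nat.lt_succ_self _), ← Finset.sum_filter]
  have h2 : ∑ a ∈ (range (p.natDegree + 1)).filter (fun i => i + 1 < p.natDegree + 1),
      N (p.coeff (a + 1)) = ∑ b ∈ ((range (p.natDegree + 1)).filter
      (fun i => i + 1 < p.natDegree + 1)).image (fun i => i + 1), N (p.coeff b) := by
    rw [Finset.sum_image]
    intro x _ y _ hxy
    simpa using hxy
  rw [h2]
  apply Finset.sum_le_sum_of_subset_of_nonneg
  · intro j hj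
    rw [Finset.mem_image] at hj
    obtain ⟨i, hi, rfl⟩ := hj
    rw [Finset.mem_filter] at hi
    exact Finset.mem_range.2 hi.2
  · intro i _ _
    exact apply_nonneg N _

end PolyNorm

end Pool.Agent.H322R2
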