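import Pool.Agent.H322R2.Branch

/-!
The ring of integers of a real number field with the house as a ring seminorm.
-/

open Polynomial Finset

namespace Pool.Agent.H322R2

open NumberField

section NF

variable (L : Type) [Field L] [NumberField L]

/-- the house as a ring seminorm on the ring of integers -/
noncomputable def hs : RingSeminorm (𝓞 L) where
  toFun := fun x => house (algebraMap (𝓞 L) L x)
  map_zero' := by simp [house]
  add_le' := fun x y => by
    rw [map_add]
    exact house_add_le _ _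
  neg' := fun x => by
    rw [map_neg]
    simp only [house, map_neg, norm_neg]
  mul_le' := fun x y => by
    rw [map_mul]
    exact house_mul_le _ _

lemma hs_apply (x : 𝓞 L) : hs L x = house (algebraMap (𝓞 L) L x) := rfl

lemma hs_one : hs L 1 ≤ 1 := by
  rw [hs_apply]
  have := house_intCast (K := L) 1
  simp only [Int.cast_one, abs_one] at this
  rw [map_one, this]

variable (τ : L →+* ℝ)

/-- the real embedding of the ring of integers -/
noncomputable def rE : 𝓞 L →+* ℝ := τ.comp (algebraMap (𝓞 L) L)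

lemma abs_rE_le (x : 𝓞 L) : |rE L τ x| ≤ hs L x := by
  have h := norm_embedding_le_house (K := L) (algebraMap (𝓞 L) L x) (Complex.ofRealHom.comp τ)
  rw [RingHom.comp_apply] at h
  have h2 : ‖Complex.ofRealHom (τ (algebraMap (𝓞 L) L x))‖ = |rE L τ x| := by
    rw [Complex.ofRealHom_eq_coe, Complex.norm_real, Real.norm_eq_abs]; rfl
  rw [h2] at h
  exact h

lemma exists_C0 : ∃ C0 : ℝ, 1 ≤ C0 ∧
    ∀ (x : 𝓞 L) (i), |(((RingOfIntegers.basis L).repr x i : ℤ) : ℝ)| ≤ C0 * hs L x := by
  classical
  obtain ⟨c, hc⟩ : ∃ c : ℝ, ∀ (x : 𝓞 L) (i : L →+* ℂ),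
      ‖((((integralBasis L).reindex (equivReindex L).symm).repr x i : ℚ) : ℂ)‖
        ≤ c * house (algebraMap (𝓞 L) L x) :=
    ⟨_, fun x i => NumberField.house.basis_repr_norm_le_const_mul_house L x i⟩
  refine ⟨max c 1, le_max_right _ _, ?_⟩
  intro x i
  have h := hc x ((equivReindex L).symm i)
  have h0 : ((integralBasis L).reindex (equivReindex L).symm).repr (x : L)
      ((equivReindex L).symm i) = (integralBasis L).repr (algebraMap (𝓞 L) L x) i := by
    rw [Module.Basis.repr_reindex_apply]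
    simp
  rw [h0, integralBasis_repr_apply] at h
  have h1 : ‖(((algebraMap ℤ ℚ) ((RingOfIntegers.basis L).repr x i) : ℚ) : ℂ)‖
      = |(((RingOfIntegers.basis L).repr x i : ℤ) : ℝ)| := by
    simp
  rw [h1] at h
  refine h.trans ?_
  apply mul_le_mul_of_nonneg_right (le_max_left _ _) (house_nonneg _)

lemma card_basis : Fintype.card (Module.Free.ChooseBasisIndex ℤ (𝓞 L)) = Module.finrank ℚ L := by
  rw [← Module.finrank_eq_card_chooseBasisIndex, RingOfIntegers.rank]

/-- a real root in `L` of a monic integer polynomial as an algebraic integer -/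
lemma exists_alpha (g : ℤ[X]) (hm : g.Monic) (H : ℝ) (hH : 1 ≤ H) (hg : pn zn g ≤ H)
    (x : L) (hx : evf x g = 0) : ∃ α : 𝓞 L, rE L τ α = τ x ∧ evf α g = 0 ∧ hs L α ≤ H := by
  have hint : IsIntegral ℤ x := ⟨g, hm, hx⟩
  obtain ⟨α, hα⟩ : ∃ α : 𝓞 L, algebraMap (𝓞 L) L α = x := ⟨⟨x, hint⟩, rfl⟩
  refine ⟨α, ?_, ?_, ?_⟩
  · rw [rE, RingHom.comp_apply, hα]
  · have h := map_evf (algebraMap (𝓞 L) L) α g
    rw [hα, hx] at h
    exact (FaithfulSMul.algebraMap_injective (𝓞 L) L) (by rw [h, map_zero])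
  · rw [hs_apply, house_eq_sup', hα]
    have hH0 : 0 ≤ H := by linarith
    have h3 : univ.sup' univ_nonempty (fun φ : L →+* ℂ ↦ ‖φ x‖₊) ≤ H.toNNReal := by
      apply Finset.sup'_le
      intro φ _
      rw [← NNReal.coe_le_coe, Real.coe_toNNReal _ hH0, coe_nnnorm]
      apply root_norm_le g hm H hH hg
      rw [← map_evf, hx, map_zero]
    rw [← NNReal.coe_le_coe, Real.coe_toNNReal _ hH0] at h3
    exact h3

end NF

end Pool.Agent.H322R2
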