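import Pool.Agent.H322R2.Core5

/-!
Numerical part of the two-point argument.
-/

open Finset

namespace Pool.Agent.H322R2

lemma log_le_of (x : ℝ) (hx : 0 < x) : Real.log x ≤ x := (Real.log_le_sub_one_of_pos hx).trans (by linarith)

lemma log_fact_le (n : ℕ) : Real.log (n.factorial : ℝ) ≤ (n : ℝ) ^ 2 := by
  rcases Nat.eq_zero_or_pos n with rfl | hn
  · simp
  · have h1 : (n.factorial : ℝ) ≤ (n : ℝ) ^ n := by exact_mod_cast Nat.factorial_le_pow n
    have hn0 : (0 : ℝ) < n := by exact_mod_cast hn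
    calc Real.log (n.factorial : ℝ) ≤ Real.log ((n : ℝ) ^ n) :=
          Real.log_le_log (by positivity) h1
      _ = n * Real.log n := by rw [Real.log_pow]
      _ ≤ n * n := by
          apply mul_le_mul_of_nonneg_left (log_le_of _ hn0) hn0.le
      _ = (n : ℝ) ^ 2 := by ring

lemma half_le_log {B : ℝ} (hB : 2 ≤ B) : 1 / 2 ≤ Real.log B := by
  have h1 : (1 : ℝ) / 2 ≤ Real.log 2 := by
    have := Real.log_two_gt_d9; linarith
  exact h1.trans (Real.log_le_log (by norm_num) hB)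

/-- basic quantity -/
noncomputable def SS (t : ℕ) (C0 B1 B2 : ℝ) : ℝ :=
  t * Real.log B1 + Real.log B2 + Real.log C0

section basic

variable {d k t : ℕ} {C0 B1 B2 : ℝ} (hC0 : 1 ≤ C0) (hB1 : 2 ≤ B1) (hB2 : 2 ≤ B2) (ht : 1 ≤ t)

include hC0 hB1 hB2 ht

lemma SS_facts : (t : ℝ) ≤ 2 * (t * Real.log B1) ∧ (t : ℝ) * Real.log B1 ≤ SS t C0 B1 B2 ∧
    Real.log B1 ≤ SS t C0 B1 B2 ∧ Real.log B2 ≤ SS t C0 B1 B2 ∧ Real.log C0 ≤ SS t C0 B1 B2 ∧
    1 ≤ 2 * SS t C0 B1 B2 ∧ (t : ℝ) ≤ 2 * SS t C0 B1 B2 := by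
  have h1 := half_le_log hB1
  have h2 := half_le_log hB2
  have h3 := Real.log_nonneg hC0
  have h4 : (1 : ℝ) ≤ t := by exact_mod_cast ht
  have h5 : (t : ℝ) * (1 / 2) ≤ t * Real.log B1 := mul_le_mul_of_nonneg_left h1 (by linarith)
  have h6 : 1 * Real.log B1 ≤ t * Real.log B1 := mul_le_mul_of_nonneg_right h4 (by linarith)
  unfold SS
  refine ⟨by linarith, by linarith, by linarith, by linarith, by linarith, by linarith, by linarith⟩

lemma logHh_le (hk : 0 < k) (hkd : k ≤ d) (ht4 : 4 * k ≤ t) :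
    Real.log (Hh k t C0 B1 B2) ≤ 13 * (241 * d + 48) * SS t C0 B1 B2 := by
  obtain ⟨f1, f2, f3, f4, f5, f6, f7⟩ := SS_facts hC0 hB1 hB2 ht
  have hkD : (k : ℝ) ≤ d := by exact_mod_cast hkd
  have hk1 : (1 : ℝ) ≤ k := by exact_mod_cast hk
  have ht1 : (1 : ℝ) ≤ t := by exact_mod_cast ht
  have hC00 : 0 < C0 := by linarith
  have hB10 : 0 < B1 := by linarith
  have hB20 : 0 < B2 := by linarith
  have e4 : (0 : ℝ) < ((k * (20 * t - k) : ℕ) : ℝ) := by
    have : 0 < k * (20 * t - k) := Nat.mul_pos hk (by omega)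
    exact_mod_cast this
  have h6 : (0 : ℝ) < 6 * ((k * (20 * t - k) : ℕ) : ℝ) := by positivity
  have e1 : Real.log (Hh k t C0 B1 B2) = 13 * (Real.log (6 * ((k * (20 * t - k) : ℕ) : ℝ))
      + (Real.log C0 + (6 * Real.log B2 + (k + 42 * t) * Real.log B1))) := by
    unfold Hh
    generalize 6 * ((k * (20 * t - k) : ℕ) : ℝ) = q at h6
    rw [Real.log_pow, Real.log_mul h6.ne' (by positivity), Real.log_mul hC00.ne' (by positivity),
      Real.log_mul (by positivity) (by positivity), Real.log_pow, Real.log_pow]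
    push_cast
    ring
  have hD0 : (0 : ℝ) ≤ d := by positivity
  have e3 : Real.log (6 * ((k * (20 * t - k) : ℕ) : ℝ)) ≤ 240 * d * (t * Real.log B1) := by
    refine (log_le_of _ h6).trans ?_
    have hn2 : ((k * (20 * t - k) : ℕ) : ℝ) ≤ d * (20 * t) := by
      have h7 : k * (20 * t - k) ≤ d * (20 * t) := Nat.mul_le_mul hkd (Nat.sub_le _ _)
      exact_mod_cast h7
    have h8 : (d : ℝ) * t ≤ d * (2 * (t * Real.log B1)) := mul_le_mul_of_nonneg_left f1 hD0
    linarith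
  have hl1 : 0 ≤ (t : ℝ) * Real.log B1 := by linarith
  have e6 : ((k : ℝ) + 42 * t) * Real.log B1 ≤ (d + 42) * (t * Real.log B1) := by
    have h9 : (k : ℝ) * Real.log B1 ≤ d * (t * Real.log B1) := by
      apply mul_le_mul hkD _ (by have := half_le_log hB1; linarith) hD0
      have : 1 * Real.log B1 ≤ t * Real.log B1 :=
        mul_le_mul_of_nonneg_right ht1 (by have := half_le_log hB1; linarith)
      linarith
    linarith
  rw [e1]
  have e8 : 0 ≤ (d : ℝ) * Real.log C0 := mul_nonneg hD0 (Real.log_nonneg hC0)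
  have e9 : 0 ≤ (d : ℝ) * Real.log B2 := mul_nonneg hD0 (by have := half_le_log hB2; linarith)
  have e10 : 0 ≤ Real.log C0 := Real.log_nonneg hC0
  have e11 : 0 ≤ Real.log B2 := by have := half_le_log hB2; linarith
  have e12 : 13 * (241 * (d : ℝ) + 48) * SS t C0 B1 B2 = 13 * (241 * (d * (t * Real.log B1))
      + 48 * (t * Real.log B1) + 241 * (d * Real.log B2) + 241 * (d * Real.log C0)
      + 48 * Real.log B2 + 48 * Real.log C0) := by unfold SS; ring
  rw [e12]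
  linarith

lemma logU_le (hk : 0 < k) (hkd : k ≤ d) (ht4 : 4 * k ≤ t) :
    Real.log (k * (20 * t - k : ℕ) * Hh k t C0 B1 B2 : ℝ)
      ≤ (13 * (241 * d + 48) + 40 * d) * SS t C0 B1 B2 := by
  obtain ⟨f1, f2, f3, f4, f5, f6, f7⟩ := SS_facts hC0 hB1 hB2 ht
  have hH := logHh_le hC0 hB1 hB2 ht hk hkd ht4
  have hHpos : 0 < Hh k t C0 B1 B2 := by
    have := one_le_Hh k t C0 B1 B2 hk ht4 hC0 (by linarith) (by linarith)
    linarith
  have e4 : (0 : ℝ) < (k : ℝ) * ((20 * t - k : ℕ) : ℝ) := by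
    have : 0 < k * (20 * t - k) := Nat.mul_pos hk (by omega)
    exact_mod_cast this
  rw [Real.log_mul e4.ne' hHpos.ne']
  have hn2 : (k : ℝ) * ((20 * t - k : ℕ) : ℝ) ≤ d * (20 * t) := by
    have h7 : k * (20 * t - k) ≤ d * (20 * t) := Nat.mul_le_mul hkd (Nat.sub_le _ _)
    exact_mod_cast h7
  have e1 : Real.log ((k : ℝ) * ((20 * t - k : ℕ) : ℝ)) ≤ 40 * d * SS t C0 B1 B2 := by
    refine (log_le_of _ e4).trans (hn2.trans ?_)
    have : (d : ℝ) * t ≤ d * (2 * SS t C0 B1 B2) := mul_le_mul_of_nonneg_left f7 (by positivity)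
    linarith
  linarith

end basic

lemma log_one_add_le {B : ℝ} (hB : 2 ≤ B) : Real.log (1 + B) ≤ 2 * Real.log B := by
  have : 1 + B ≤ B ^ 2 := by nlinarith
  calc Real.log (1 + B) ≤ Real.log (B ^ 2) := Real.log_le_log (by linarith) this
    _ = 2 * Real.log B := by rw [Real.log_pow]; push_cast; ring

/-- constants -/
noncomputable def kk2 (d : ℝ) : ℝ := 13 * (241 * d + 48) + 40 * d
noncomputable def kk3 (d R : ℝ) : ℝ := 2 * R ^ 2 + R * (2 * R * (20 * d + d ^ 3) + 2 * d ^ 2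
    + d * (kk2 d + 2 * d))
noncomputable def kk4 (d R : ℝ) : ℝ := 2 * d * kk3 d R + 146 + kk2 d + d
noncomputable def kk5 (d : ℝ) : ℝ := 2 * d ^ 2 + d * (10 + 13 * (241 * d + 48))

section logs

variable {d k t : ℕ} {C0 B1 B2 : ℝ} (hC0 : 1 ≤ C0) (hB1 : 2 ≤ B1) (hB2 : 2 ≤ B2) (ht : 1 ≤ t)
  (hk : 0 < k) (hkd : k ≤ d) (ht4 : 4 * k ≤ t)

include hC0 hB1 hB2 ht hk hkd ht4

lemma small_log : Real.log (d.factorial * (6 * Hh k t C0 B1 B2 * (1 + B2) ^ 2) ^ d)
    ≤ kk5 d * SS t C0 B1 B2 := by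
  obtain ⟨f1, f2, f3, f4, f5, f6, f7⟩ := SS_facts hC0 hB1 hB2 ht
  have hH := logHh_le hC0 hB1 hB2 ht hk hkd ht4
  have hHpos : 0 < Hh k t C0 B1 B2 := by
    have := one_le_Hh k t C0 B1 B2 hk ht4 hC0 (by linarith) (by linarith)
    linarith
  have hB20 : 0 < B2 := by linarith
  rw [Real.log_mul (by positivity) (by positivity), Real.log_pow,
    Real.log_mul (by positivity) (by positivity), Real.log_mul (by positivity) (by positivity),
    Real.log_pow]
  have e1 := log_fact_le d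
  have e2 : Real.log 6 ≤ 3 := by
    have h6 : Real.log 6 ≤ Real.log (2 ^ 3 : ℝ) := Real.log_le_log (by norm_num) (by norm_num)
    rw [Real.log_pow] at h6
    have := Real.log_two_lt_d9
    push_cast at h6
    linarith
  have e3 := log_one_add_le hB2
  have hD0 : (0 : ℝ) ≤ d := by positivity
  have e4 : (d : ℝ) * (Real.log 6 + Real.log (Hh k t C0 B1 B2) + (2 : ℕ) * Real.log (1 + B2))
      ≤ d * ((10 + 13 * (241 * d + 48)) * SS t C0 B1 B2) := by
    apply mul_le_mul_of_nonneg_left _ hD0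
    push_cast
    linarith
  have e5 : (d : ℝ) ^ 2 * 1 ≤ d ^ 2 * (2 * SS t C0 B1 B2) :=
    mul_le_mul_of_nonneg_left f6 (by positivity)
  unfold kk5
  linarith

lemma ineq1_log {X : ℝ} (hX : 0 < X) (o : ℕ)
    (h : X ^ o ≤ X ^ (6 ^ d) * (((6 ^ d).factorial : ℕ) *
          (((d * ((20 * t - k) + d * k) : ℕ) : ℝ) ^ (6 ^ d) *
            (d.factorial * ((k * (20 * t - k : ℕ) * Hh k t C0 B1 B2) * (1 + B1) ^ k) ^ d))
              ^ (6 ^ d))) :
    (o : ℝ) * Real.log X ≤ (6 : ℝ) ^ d * Real.log X + kk3 d ((6 : ℝ) ^ d) * SS t C0 B1 B2 := by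
  obtain ⟨f1, f2, f3, f4, f5, f6, f7⟩ := SS_facts hC0 hB1 hB2 ht
  have hU := logU_le hC0 hB1 hB2 ht hk hkd ht4
  have hHpos : 0 < Hh k t C0 B1 B2 := by
    have := one_le_Hh k t C0 B1 B2 hk ht4 hC0 (by linarith) (by linarith)
    linarith
  have hB10 : 0 < B1 := by linarith
  have hn : (0 : ℝ) < ((20 * t - k : ℕ) : ℝ) := by
    have : 0 < 20 * t - k := by omega
    exact_mod_cast this
  have hk0 : (0 : ℝ) < k := by exact_mod_cast hk
  have hUpos : (0 : ℝ) < k * (20 * t - k : ℕ) * Hh k t C0 B1 B2 := by positivity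
  have hE : (0 : ℝ) < ((d * ((20 * t - k) + d * k) : ℕ) : ℝ) := by
    have : 0 < d := by omega
    have : 0 < d * ((20 * t - k) + d * k) := Nat.mul_pos this (by omega)
    exact_mod_cast this
  obtain ⟨R, hR⟩ : ∃ R : ℝ, R = (6 : ℝ) ^ d := ⟨_, rfl⟩
  have hR0 : 0 ≤ R := by rw [hR]; positivity
  obtain ⟨D, hD⟩ : ∃ D : ℝ, D = (d : ℝ) := ⟨_, rfl⟩
  have hD0 : 0 ≤ D := by rw [hD]; positivity
  obtain ⟨S, hS⟩ : ∃ S : ℝ, S = SS t C0 B1 B2 := ⟨_, rfl⟩
  rw [← hS] at f2 f3 f4 f5 f6 f7 hU ⊢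
  rw [← hR]
  have hlogE : Real.log ((d * ((20 * t - k) + d * k) : ℕ) : ℝ) ≤ 2 * (20 * D + D ^ 3) * S := by
    refine (log_le_of _ hE).trans ?_
    have e1 : ((d * ((20 * t - k) + d * k) : ℕ) : ℝ) ≤ ((d * (20 * t + d * d * t) : ℕ) : ℝ) := by
      have : d * ((20 * t - k) + d * k) ≤ d * (20 * t + d * d * t) := by
        apply Nat.mul_le_mul_left
        have h1 : d * k ≤ d * d * t := by
          calc d * k ≤ d * d := Nat.mul_le_mul_left _ hkd
            _ = d * d * 1 := by ring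
            _ ≤ d * d * t := Nat.mul_le_mul_left _ ht
        omega
      exact_mod_cast this
    refine e1.trans ?_
    push_cast
    rw [← hD]
    have e2 : (20 * D + D ^ 3) * t ≤ (20 * D + D ^ 3) * (2 * S) :=
      mul_le_mul_of_nonneg_left f7 (by positivity)
    calc D * (20 * t + D * D * t) = (20 * D + D ^ 3) * t := by ring
      _ ≤ (20 * D + D ^ 3) * (2 * S) := e2
      _ = _ := by ring
  have h' := Real.log_le_log (by positivity) h
  rw [Real.log_pow, Real.log_mul (by positivity) (by positivity), Real.log_pow,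
    Real.log_mul (by positivity) (by positivity), Real.log_pow,
    Real.log_mul (by positivity) (by positivity), Real.log_pow,
    Real.log_mul (by positivity) (by positivity), Real.log_pow,
    Real.log_mul hUpos.ne' (by positivity), Real.log_pow] at h'
  have e1 := log_fact_le (6 ^ d)
  have e2 := log_fact_le d
  have hRc : (((6 ^ d : ℕ)) : ℝ) = R := by rw [hR]; push_cast; rfl
  rw [hRc] at h' e1
  rw [← hD] at h' e2
  have hlog1 := log_one_add_le hB1
  have e3 : D * (Real.log (k * (20 * t - k : ℕ) * Hh k t C0 B1 B2 : ℝ)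
      + k * Real.log (1 + B1)) ≤ D * ((kk2 D + 2 * D) * S) := by
    apply mul_le_mul_of_nonneg_left _ hD0
    have a1 : (k : ℝ) * Real.log (1 + B1) ≤ k * (2 * Real.log B1) :=
      mul_le_mul_of_nonneg_left hlog1 hk0.le
    have a2 : (k : ℝ) * (2 * Real.log B1) ≤ D * (2 * S) := by
      apply mul_le_mul _ (by linarith) (by have := half_le_log hB1; linarith) hD0
      rw [hD]; exact_mod_cast hkd
    rw [← hD] at hU
    unfold kk2
    linarith
  have e4 : R * Real.log ((d * ((20 * t - k) + d * k) : ℕ) : ℝ)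
      ≤ R * (2 * (20 * D + D ^ 3) * S) := mul_le_mul_of_nonneg_left hlogE hR0
  have e5 : D ^ 2 * 1 ≤ D ^ 2 * (2 * S) := mul_le_mul_of_nonneg_left f6 (by positivity)
  have e6 : R ^ 2 * 1 ≤ R ^ 2 * (2 * S) := mul_le_mul_of_nonneg_left f6 (by positivity)
  have e7 : R * (R * Real.log ((d * ((20 * t - k) + d * k) : ℕ) : ℝ) +
      (Real.log (d.factorial : ℝ) + D * (Real.log (k * (20 * t - k : ℕ) *
        Hh k t C0 B1 B2 : ℝ) + k * Real.log (1 + B1))))
      ≤ R * (R * (2 * (20 * D + D ^ 3) * S) + (2 * D ^ 2 * S + D * ((kk2 D + 2 * D) * S))) := by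
    apply mul_le_mul_of_nonneg_left _ hR0
    linarith
  have e8 : kk3 D R * S = 2 * R ^ 2 * S
      + R * (R * (2 * (20 * D + D ^ 3) * S) + (2 * D ^ 2 * S + D * ((kk2 D + 2 * D) * S))) := by
    unfold kk3; ring
  rw [← hD, e8]
  linarith

lemma ineq2_log {X : ℝ} (hX : 0 < X) (o : ℕ)
    (h : X ^ (2 * t) ≤ X ^ (2 * d * o) * (X ^ 20 * 2 ^ (20 * t) *
        (36 * B2 ^ 12 * B1 ^ (84 * t) *
          (k * (20 * t - k : ℕ) * (Hh k t C0 B1 B2 * B1 ^ k))))) :
    2 * t * Real.log X ≤ 2 * d * (o * Real.log X) + 20 * Real.log X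
      + (146 + kk2 d + d) * SS t C0 B1 B2 := by
  obtain ⟨f1, f2, f3, f4, f5, f6, f7⟩ := SS_facts hC0 hB1 hB2 ht
  have hU := logU_le hC0 hB1 hB2 ht hk hkd ht4
  have hHpos : 0 < Hh k t C0 B1 B2 := by
    have := one_le_Hh k t C0 B1 B2 hk ht4 hC0 (by linarith) (by linarith)
    linarith
  have hB10 : 0 < B1 := by linarith
  have hB20 : 0 < B2 := by linarith
  have hn : (0 : ℝ) < ((20 * t - k : ℕ) : ℝ) := by
    have : 0 < 20 * t - k := by omega
    exact_mod_cast this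
  have hk0 : (0 : ℝ) < k := by exact_mod_cast hk
  have hUpos : (0 : ℝ) < k * (20 * t - k : ℕ) * Hh k t C0 B1 B2 := by positivity
  have e0 : (k : ℝ) * (20 * t - k : ℕ) * (Hh k t C0 B1 B2 * B1 ^ k)
      = (k * (20 * t - k : ℕ) * Hh k t C0 B1 B2) * B1 ^ k := by ring
  rw [e0] at h
  have h' := Real.log_le_log (by positivity) h
  rw [Real.log_pow, Real.log_mul (by positivity) (by positivity), Real.log_pow,
    Real.log_mul (by positivity) (by positivity), Real.log_mul (by positivity) (by positivity),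
    Real.log_pow, Real.log_pow, Real.log_mul (by positivity) (by positivity),
    Real.log_mul (by positivity) (by positivity), Real.log_mul (by positivity) (by positivity),
    Real.log_pow, Real.log_pow, Real.log_mul hUpos.ne' (by positivity), Real.log_pow] at h'
  push_cast at h'
  have e2 : Real.log 2 ≤ 1 := by have := Real.log_two_lt_d9; linarith
  have e3 : Real.log 36 ≤ 5 := by
    have h6 : Real.log 36 ≤ Real.log (2 ^ 6 : ℝ) := Real.log_le_log (by norm_num) (by norm_num)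
    rw [Real.log_pow] at h6
    have := Real.log_two_lt_d9
    push_cast at h6
    linarith
  have ht0 : (0 : ℝ) ≤ t := by positivity
  have e5 : 20 * (t : ℝ) * Real.log 2 ≤ 20 * (2 * SS t C0 B1 B2) := by
    have : 20 * (t : ℝ) * Real.log 2 ≤ 20 * t * 1 := mul_le_mul_of_nonneg_left e2 (by positivity)
    linarith
  have e7 : (k : ℝ) * Real.log B1 ≤ d * SS t C0 B1 B2 := by
    apply mul_le_mul _ f3 (by have := half_le_log hB1; linarith) (by positivity)
    exact_mod_cast hkd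
  unfold kk2
  linarith

end logs

/-- the explicit exponent -/
def kap (d : ℕ) : ℕ := 10 ^ 6 * 36 ^ d * (d + 1) ^ 4

lemma kappa_le (D R : ℝ) (hD : 0 ≤ D) (hR : 1 ≤ R) :
    42 * kk4 D R + 20 * (2 * (D * R) + 20) + 3 * kk5 D + 40 * D + 100
      ≤ 10 ^ 6 * R ^ 2 * (D + 1) ^ 4 := by
  obtain ⟨Q, hQ⟩ : ∃ Q, Q = (D + 1) ^ 4 := ⟨_, rfl⟩
  have hE : 1 ≤ D + 1 := by linarith
  have hQ1 : 1 ≤ Q := by rw [hQ]; exact one_le_pow₀ hE
  have e : ∀ i ≤ 4, D ^ i ≤ Q := by
    intro i hi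
    rw [hQ]
    calc D ^ i ≤ (D + 1) ^ i := pow_le_pow_left₀ hD (by linarith) _
      _ ≤ (D + 1) ^ 4 := pow_le_pow_right₀ hE hi
  have hR2 : R ≤ R ^ 2 := by nlinarith
  have hR3 : 1 ≤ R ^ 2 := by nlinarith
  have a0 : ∀ i ≤ 4, R ^ 2 * D ^ i ≤ R ^ 2 * Q := fun i hi =>
    mul_le_mul_of_nonneg_left (e i hi) (by positivity)
  have a1 : ∀ i ≤ 4, R * D ^ i ≤ R ^ 2 * Q := fun i hi =>
    mul_le_mul hR2 (e i hi) (by positivity) (by positivity)
  have a2 : ∀ i ≤ 4, 1 * D ^ i ≤ R ^ 2 * Q := fun i hi =>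
    mul_le_mul hR3 (e i hi) (by positivity) (by positivity)
  have b00 := a0 0 (by norm_num)
  have b01 := a0 1 (by norm_num)
  have b02 := a0 2 (by norm_num)
  have b03 := a0 3 (by norm_num)
  have b04 := a0 4 (by norm_num)
  have b10 := a1 0 (by norm_num)
  have b11 := a1 1 (by norm_num)
  have b12 := a1 2 (by norm_num)
  have b13 := a1 3 (by norm_num)
  have b14 := a1 4 (by norm_num)
  have b20 := a2 0 (by norm_num)
  have b21 := a2 1 (by norm_num)
  have b22 := a2 2 (by norm_num)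
  have b23 := a2 3 (by norm_num)
  have b24 := a2 4 (by norm_num)
  simp only [pow_zero, pow_one, mul_one, one_mul] at b00 b01 b02 b03 b04 b10 b11 b12 b13 b14 b20 b21 b22 b23 b24
  rw [← hQ]
  unfold kk4 kk5 kk3 kk2
  linarith

theorem numeric (d : ℕ) : ∃ κ : ℝ, 1 ≤ κ ∧ κ ≤ kap d ∧ ∀ (k : ℕ) (C0 B1 B2 X Y : ℝ), 0 < k → k ≤ d →
    1 ≤ C0 → 2 ≤ B1 → 2 ≤ B2 → 0 < X → 0 < Y →
    κ * Real.log B1 ≤ Real.log X →
    κ * (Real.log X + Real.log B2 + Real.log C0) ≤ Real.log Y →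
    ∃ t : ℕ, 4 * k ≤ t ∧ X ^ (10 * t) ≤ Y ∧ Y ≤ X ^ (10 * (t + 1)) ∧
      d.factorial * (6 * Hh k t C0 B1 B2 * (1 + B2) ^ 2) ^ d < Y ∧
      ∀ o : ℕ,
      X ^ o ≤ X ^ (6 ^ d) * (((6 ^ d).factorial : ℕ) *
          (((d * ((20 * t - k) + d * k) : ℕ) : ℝ) ^ (6 ^ d) *
            (d.factorial * ((k * (20 * t - k : ℕ) * Hh k t C0 B1 B2) * (1 + B1) ^ k) ^ d))
              ^ (6 ^ d)) →
      X ^ (2 * t) ≤ X ^ (2 * d * o) * (X ^ 20 * 2 ^ (20 * t) *
        (36 * B2 ^ 12 * B1 ^ (84 * t) *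
          (k * (20 * t - k : ℕ) * (Hh k t C0 B1 B2 * B1 ^ k)))) → False := by
  obtain ⟨R, hR⟩ : ∃ R : ℝ, R = (6 : ℝ) ^ d := ⟨_, rfl⟩
  have hR0 : 0 ≤ R := by rw [hR]; positivity
  obtain ⟨D, hDdef⟩ : ∃ D : ℝ, D = (d : ℝ) := ⟨_, rfl⟩
  have hD0 : 0 ≤ D := by rw [hDdef]; positivity
  have hK2 : 0 ≤ kk2 D := by unfold kk2; positivity
  have hK3 : 0 ≤ kk3 D R := by unfold kk3; positivity
  have hK4 : 0 ≤ kk4 D R := by unfold kk4; positivity
  have hK5 : 0 ≤ kk5 D := by unfold kk5; positivity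
  have hDR : 0 ≤ D * R := by positivity
  obtain ⟨κ, hκ⟩ : ∃ κ : ℝ, κ = 42 * kk4 D R + 20 * (2 * (D * R) + 20) + 3 * kk5 D + 40 * D + 100 :=
    ⟨_, rfl⟩
  have hκ100 : 100 ≤ κ := by rw [hκ]; linarith
  have hR1 : 1 ≤ R := by rw [hR]; exact one_le_pow₀ (by norm_num)
  have hκle : κ ≤ kap d := by
    rw [hκ]
    refine (kappa_le D R hD0 hR1).trans (le_of_eq ?_)
    rw [hR, hDdef]
    unfold kap
    push_cast
    rw [← pow_mul, mul_comm d 2, pow_mul]
    norm_num
  refine ⟨κ, by linarith, hκle, ?_⟩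
  intro k C0 B1 B2 X Y hk hkd hC0 hB1 hB2 hX0 hY0 hx hy
  obtain ⟨x, hxdef⟩ : ∃ x, x = Real.log X := ⟨_, rfl⟩
  obtain ⟨y, hydef⟩ : ∃ y, y = Real.log Y := ⟨_, rfl⟩
  rw [← hxdef] at hx hy
  rw [← hydef] at hy
  have hβ1 := half_le_log hB1
  have hβ2 := half_le_log hB2
  have hc := Real.log_nonneg hC0
  have hκ0 : 0 < κ := by linarith
  have hx50 : 50 ≤ x := by
    have : κ * (1 / 2) ≤ κ * Real.log B1 := mul_le_mul_of_nonneg_left hβ1 hκ0.le
    linarith
  have hx0 : 0 < x := by linarith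
  set t := ⌊y / (10 * x)⌋₊ with htdef
  have hyx : κ * x ≤ y := by
    have : κ * x ≤ κ * (x + Real.log B2 + Real.log C0) :=
      mul_le_mul_of_nonneg_left (by linarith) hκ0.le
    linarith
  have hy0 : 0 < y := by
    have : 0 < κ * x := mul_pos hκ0 hx0
    linarith
  have ht1 : (t : ℝ) ≤ y / (10 * x) := Nat.floor_le (by positivity)
  have ht2 : y / (10 * x) < t + 1 := Nat.lt_floor_add_one _
  have ht1' : t * (10 * x) ≤ y := by
    rwa [le_div_iff₀ (by positivity)] at ht1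
  have ht2' : y < (t + 1) * (10 * x) := by
    rwa [div_lt_iff₀ (by positivity)] at ht2
  have htκ : κ / 10 - 1 < t := by
    have h1 : κ / 10 ≤ y / (10 * x) := by
      rw [div_le_div_iff₀ (by norm_num) (by positivity)]
      linarith
    linarith
  have ht9 : (9 : ℝ) < t := by linarith
  have htd : (4 : ℝ) * D ≤ t := by
    have : 40 * D + 100 ≤ κ := by rw [hκ]; linarith
    linarith
  have htDR : 2 * (2 * (D * R) + 20) ≤ t := by
    have : 20 * (2 * (D * R) + 20) + 100 ≤ κ := by rw [hκ]; linarith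
    linarith
  have hkD : (k : ℝ) ≤ D := by rw [hDdef]; exact_mod_cast hkd
  have ht4k : 4 * k ≤ t := by
    have : (4 : ℝ) * k ≤ t := by linarith
    exact_mod_cast this
  have ht1n : 1 ≤ t := by omega
  obtain ⟨f1, f2, f3, f4, f5, f6, f7⟩ := SS_facts hC0 hB1 hB2 ht1n
  obtain ⟨S, hS⟩ : ∃ S : ℝ, S = SS t C0 B1 B2 := ⟨_, rfl⟩
  have hSpos : 0 < S := by rw [hS]; linarith
  have htx : 0 < t * x := by
    apply mul_pos _ hx0; linarith
  have hx_le : x ≤ t * x := by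
    have : 1 * x ≤ t * x := mul_le_mul_of_nonneg_right (by linarith) hx0.le
    linarith
  have hSsmall : κ * S ≤ 21 * (t * x) := by
    have h1 : t * (κ * Real.log B1) ≤ t * x := mul_le_mul_of_nonneg_left hx (by linarith)
    have h2 : κ * (Real.log B2 + Real.log C0) ≤ y := by
      have : 0 ≤ κ * x := by positivity
      linarith
    have h3 : y ≤ 20 * (t * x) := by linarith
    have h4 : κ * S = t * (κ * Real.log B1) + κ * (Real.log B2 + Real.log C0) := by
      rw [hS]; unfold SS; ring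
    rw [h4]; linarith
  refine ⟨t, ht4k, ?_, ?_, ?_, ?_⟩
  · rw [← Real.log_le_log_iff (by positivity) hY0, Real.log_pow, ← hxdef, ← hydef]
    push_cast
    linarith
  · rw [← Real.log_le_log_iff hY0 (by positivity), Real.log_pow, ← hxdef, ← hydef]
    push_cast
    linarith
  · have hHpos : 0 < Hh k t C0 B1 B2 := by
      have := one_le_Hh k t C0 B1 B2 hk ht4k hC0 (by linarith) (by linarith)
      linarith
    have hB20 : 0 < B2 := by linarith
    rw [← Real.log_lt_log_iff (by positivity) hY0, ← hydef]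
    refine lt_of_le_of_lt (small_log hC0 hB1 hB2 ht1n hk hkd ht4k) ?_
    rw [← hS, ← hDdef]
    have e6 : (3 * kk5 D) * S ≤ κ * S := by
      apply mul_le_mul_of_nonneg_right _ hSpos.le
      rw [hκ]; linarith
    linarith
  · intro o h1 h2
    have g1 := ineq1_log hC0 hB1 hB2 ht1n hk hkd ht4k hX0 o h1
    have g2 := ineq2_log hC0 hB1 hB2 ht1n hk hkd ht4k hX0 o h2
    rw [← hxdef, ← hS, ← hDdef, ← hR] at g1
    rw [← hxdef, ← hS, ← hDdef] at g2
    have e4 : 2 * D * (o * x) ≤ 2 * D * (R * x + kk3 D R * S) :=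
      mul_le_mul_of_nonneg_left g1 (by positivity)
    have g3 : (42 * kk4 D R) * S ≤ κ * S := by
      apply mul_le_mul_of_nonneg_right _ hSpos.le
      rw [hκ]; linarith
    have g4 : (2 * (2 * (D * R) + 20)) * x ≤ t * x :=
      mul_le_mul_of_nonneg_right htDR hx0.le
    have g5 : kk4 D R * S = 2 * D * (kk3 D R * S) + (146 + kk2 D + D) * S := by
      unfold kk4; ring
    have g6 : 2 * D * (R * x) = 2 * (D * R) * x := by ring
    linarith

end Pool.Agent.H322R2
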