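import Pool.Agent.H322R2.Norms

/-!
Bounded power series and a Hensel type fixed point lemma with norm control.
-/

open Finset

namespace Pool.Agent.H322R2

section Bd

variable {A : Type*} [CommRing A]

/-- `Bd N ρ u B`: the weighted `ℓ¹` norm `∑ N(uₙ) ρⁿ` of the power series `u` is at most `B`. -/
def Bd (N : RingSeminorm A) (ρ : ℝ) (u : PowerSeries A) (B : ℝ) : Prop :=
  ∀ K : ℕ, ∑ n ∈ range K, N (PowerSeries.coeff n u) * ρ ^ n ≤ B

variable {N : RingSeminorm A} {ρ : ℝ}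

lemma Bd.nonneg {u : PowerSeries A} {B : ℝ} (h : Bd N ρ u B) : 0 ≤ B := by
  simpa using h 0

lemma Bd.mono {u : PowerSeries A} {B B' : ℝ} (h : Bd N ρ u B) (hB : B ≤ B') : Bd N ρ u B' :=
  fun K => (h K).trans hB

lemma Bd.add {u v : PowerSeries A} {B B' : ℝ} (hρ : 0 ≤ ρ) (h : Bd N ρ u B) (h' : Bd N ρ v B') :
    Bd N ρ (u + v) (B + B') := by
  intro K
  refine le_trans ?_ (add_le_add (h K) (h' K))
  rw [← Finset.sum_add_distrib]
  apply Finset.sum_le_sum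
  intro n _
  rw [map_add, ← add_mul]
  exact mul_le_mul_of_nonneg_right (map_add_le_add N _ _) (pow_nonneg hρ n)

lemma Bd.zero : Bd N ρ (0 : PowerSeries A) 0 := by
  intro K
  simp

lemma Bd.sum {ι : Type*} (s : Finset ι) (hρ : 0 ≤ ρ) (f : ι → PowerSeries A) (b : ι → ℝ)
    (h : ∀ i ∈ s, Bd N ρ (f i) (b i)) : Bd N ρ (∑ i ∈ s, f i) (∑ i ∈ s, b i) := by
  classical
  induction s using Finset.induction_on with
  | empty => simpa using Bd.zero
  | insert a s ha ih =>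
    rw [Finset.sum_insert ha, Finset.sum_insert ha]
    exact (h a (Finset.mem_insert_self _ _)).add hρ
      (ih fun i hi => h i (Finset.mem_insert_of_mem hi))

lemma sum_antidiag_le (f g : ℕ → ℝ) (hf : ∀ n, 0 ≤ f n) (hg : ∀ n, 0 ≤ g n) (K : ℕ) :
    ∑ n ∈ range K, ∑ p ∈ antidiagonal n, f p.1 * g p.2
      ≤ (∑ n ∈ range K, f n) * ∑ n ∈ range K, g n := by
  rw [Finset.sum_mul_sum, ← Finset.sum_product']
  rw [← Finset.sum_biUnion]
  · apply Finset.sum_le_sum_of_subset_of_nonneg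
    · intro p hp
      rw [Finset.mem_biUnion] at hp
      obtain ⟨n, hn, hp⟩ := hp
      rw [Finset.HasAntidiagonal.mem_antidiagonal] at hp
      rw [Finset.mem_range] at hn
      rw [Finset.mem_product, Finset.mem_range, Finset.mem_range]
      omega
    · intro p _ _
      exact mul_nonneg (hf _) (hg _)
  · intro x _ y _ hxy
    rw [Function.onFun, Finset.disjoint_left]
    intro p hp hp'
    rw [Finset.HasAntidiagonal.mem_antidiagonal] at hp hp'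
    exact hxy (hp.symm.trans hp')

lemma Bd.mul {u v : PowerSeries A} {B B' : ℝ} (hρ : 0 ≤ ρ) (h : Bd N ρ u B) (h' : Bd N ρ v B') :
    Bd N ρ (u * v) (B * B') := by
  intro K
  have h1 : ∑ n ∈ range K, N (PowerSeries.coeff n (u * v)) * ρ ^ n
      ≤ ∑ n ∈ range K, ∑ p ∈ antidiagonal n,
        (N (PowerSeries.coeff p.1 u) * ρ ^ p.1) * (N (PowerSeries.coeff p.2 v) * ρ ^ p.2) := by
    apply Finset.sum_le_sum
    intro n _
    rw [PowerSeries.coeff_mul]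
    refine (mul_le_mul_of_nonneg_right (seminorm_sum_le N _ _) (pow_nonneg hρ n)).trans ?_
    rw [Finset.sum_mul]
    apply Finset.sum_le_sum
    intro p hp
    rw [Finset.HasAntidiagonal.mem_antidiagonal] at hp
    have h2 : ρ ^ n = ρ ^ p.1 * ρ ^ p.2 := by rw [← pow_add, hp]
    rw [h2]
    have h3 := map_mul_le_mul N (PowerSeries.coeff p.1 u) (PowerSeries.coeff p.2 v)
    calc _ ≤ (N (PowerSeries.coeff p.1 u) * N (PowerSeries.coeff p.2 v)) * (ρ ^ p.1 * ρ ^ p.2) :=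
          mul_le_mul_of_nonneg_right h3 (by positivity)
      _ = _ := by ring
  refine h1.trans ((sum_antidiag_le (fun n => N (PowerSeries.coeff n u) * ρ ^ n)
    (fun n => N (PowerSeries.coeff n v) * ρ ^ n) ?_ ?_ K).trans ?_)
  · intro n; exact mul_nonneg (apply_nonneg N _) (pow_nonneg hρ n)
  · intro n; exact mul_nonneg (apply_nonneg N _) (pow_nonneg hρ n)
  · apply mul_le_mul (h K) (h' K) _ h.nonneg
    exact Finset.sum_nonneg fun n _ => mul_nonneg (apply_nonneg N _) (pow_nonneg hρ n)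

lemma Bd.C (hρ : 0 ≤ ρ) (a : A) : Bd N ρ (PowerSeries.C a) (N a) := by
  intro K
  rcases Nat.eq_zero_or_pos K with rfl | hK
  · simpa using apply_nonneg N a
  · rw [Finset.sum_eq_single 0]
    · simp
    · intro b _ hb
      rw [PowerSeries.coeff_C, if_neg hb, map_zero, zero_mul]
    · intro h
      exact absurd (Finset.mem_range.2 hK) h

lemma Bd.one (hρ : 0 ≤ ρ) (h1 : N 1 ≤ 1) : Bd N ρ (1 : PowerSeries A) 1 := by
  have := (Bd.C (N := N) hρ (1 : A)).mono h1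
  simpa using this

lemma Bd.X (hρ : 0 ≤ ρ) (h1 : N 1 ≤ 1) : Bd N ρ (PowerSeries.X : PowerSeries A) ρ := by
  intro K
  have h2 : ∀ n ∈ range K, N (PowerSeries.coeff n (PowerSeries.X : PowerSeries A)) * ρ ^ n
      ≤ if n = 1 then ρ else 0 := by
    intro n _
    rw [PowerSeries.coeff_X]
    split_ifs with h
    · rw [h, pow_one]
      exact mul_le_of_le_one_left hρ h1
    · simp
  refine (Finset.sum_le_sum h2).trans ?_
  rw [Finset.sum_ite_eq']
  split_ifs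
  · exact le_refl _
  · exact hρ

lemma Bd.pow (hρ : 0 ≤ ρ) (h1 : N 1 ≤ 1) {u : PowerSeries A} {B : ℝ} (h : Bd N ρ u B) (n : ℕ) :
    Bd N ρ (u ^ n) (B ^ n) := by
  induction n with
  | zero => simpa using Bd.one hρ h1
  | succ n ih => rw [pow_succ, pow_succ]; exact ih.mul hρ h

lemma Bd.coeff_le (hρ : 0 ≤ ρ) {u : PowerSeries A} {B : ℝ} (h : Bd N ρ u B) (n : ℕ) :
    N (PowerSeries.coeff n u) * ρ ^ n ≤ B := by
  refine le_trans ?_ (h (n + 1))
  exact Finset.single_le_sum (f := fun n => N (PowerSeries.coeff n u) * ρ ^ n)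
    (fun n _ => mul_nonneg (apply_nonneg N _) (pow_nonneg hρ n)) (Finset.mem_range.2 (Nat.lt_succ_self n))

lemma Bd.of_le {ρ' : ℝ} (hρ : 0 ≤ ρ') (hρ' : ρ' ≤ ρ) {u : PowerSeries A} {B : ℝ}
    (h : Bd N ρ u B) : Bd N ρ' u B := by
  intro K
  refine le_trans ?_ (h K)
  apply Finset.sum_le_sum
  intro n _
  exact mul_le_mul_of_nonneg_left (pow_le_pow_left₀ hρ hρ' n) (apply_nonneg N _)

/-- If the first `m` coefficients vanish, the norm shrinks by `(ρ'/ρ)^m`. -/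
lemma Bd.of_vanish {ρ' : ℝ} (hρ0 : 0 < ρ) (hρ : 0 ≤ ρ') (hρ' : ρ' ≤ ρ) {u : PowerSeries A} {B : ℝ}
    (h : Bd N ρ u B) (m : ℕ) (hm : ∀ n < m, PowerSeries.coeff n u = 0) :
    Bd N ρ' u ((ρ' / ρ) ^ m * B) := by
  intro K
  have h1 : ∀ n ∈ range K, N (PowerSeries.coeff n u) * ρ' ^ n
      ≤ (ρ' / ρ) ^ m * (N (PowerSeries.coeff n u) * ρ ^ n) := by
    intro n _
    by_cases hn : n < m
    · rw [hm n hn]; simp
    · push_neg at hn
      have h2 : ρ' ^ n = (ρ' / ρ) ^ n * ρ ^ n := by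
        rw [div_pow, div_mul_cancel₀ _ (pow_pos hρ0 n).ne']
      rw [h2]
      have h3 : (ρ' / ρ) ^ n ≤ (ρ' / ρ) ^ m :=
        pow_le_pow_of_le_one (by positivity) ((div_le_one hρ0).2 hρ') hn
      calc N (PowerSeries.coeff n u) * ((ρ' / ρ) ^ n * ρ ^ n)
          = (ρ' / ρ) ^ n * (N (PowerSeries.coeff n u) * ρ ^ n) := by ring
        _ ≤ _ := mul_le_mul_of_nonneg_right h3
            (mul_nonneg (apply_nonneg N _) (pow_nonneg hρ0.le n))
  refine (Finset.sum_le_sum h1).trans ?_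
  rw [← Finset.mul_sum]
  exact mul_le_mul_of_nonneg_left (h K) (by positivity)

end Bd

section Hensel

variable {A : Type*} [CommRing A]

open PowerSeries in
/-- the polynomial map `Y ↦ ∑ c_{il} X^i Y^l` -/
noncomputable def fixMap (S : Finset (ℕ × ℕ)) (c : ℕ × ℕ → A) (Y : PowerSeries A) : PowerSeries A :=
  ∑ p ∈ S, C (c p) * X ^ p.1 * Y ^ p.2

open PowerSeries in
lemma fixMap_contr (S : Finset (ℕ × ℕ)) (c : ℕ × ℕ → A) (hS : ∀ p ∈ S, 1 ≤ p.1 ∨ 2 ≤ p.2)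
    (Y Y' : PowerSeries A) (hY : X ∣ Y) (hY' : X ∣ Y') (n : ℕ) (h : X ^ n ∣ Y - Y') :
    X ^ (n + 1) ∣ fixMap S c Y - fixMap S c Y' := by
  unfold fixMap
  rw [← Finset.sum_sub_distrib]
  apply Finset.dvd_sum
  intro p hp
  have e1 : C (c p) * X ^ p.1 * Y ^ p.2 - C (c p) * X ^ p.1 * Y' ^ p.2
      = C (c p) * (X ^ p.1 * (Y ^ p.2 - Y' ^ p.2)) := by ring
  rw [e1]
  apply Dvd.dvd.mul_left
  rcases hS p hp with h1 | h1
  · have h2 : X ∣ (X : PowerSeries A) ^ p.1 := dvd_pow_self _ (by omega)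
    have h3 : X ^ n ∣ Y ^ p.2 - Y' ^ p.2 := h.trans (sub_dvd_pow_sub_pow _ _ _)
    rw [pow_succ']
    exact mul_dvd_mul h2 h3
  · obtain ⟨k, hk⟩ : ∃ k, p.2 = k + 2 := ⟨p.2 - 2, by omega⟩
    rw [hk]
    apply Dvd.dvd.mul_left
    -- Y^(k+2) - Y'^(k+2) = Y^(k+1) (Y-Y') + Y' (Y^(k+1) - Y'^(k+1))
    have e2 : Y ^ (k + 2) - Y' ^ (k + 2)
        = Y ^ (k + 1) * (Y - Y') + Y' * (Y ^ (k + 1) - Y' ^ (k + 1)) := by ring
    rw [e2, pow_succ']
    apply dvd_add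
    · exact mul_dvd_mul (hY.trans (dvd_pow_self _ (by omega))) h
    · exact mul_dvd_mul hY' (h.trans (sub_dvd_pow_sub_pow _ _ _))

open PowerSeries in
lemma fixMap_dvd (S : Finset (ℕ × ℕ)) (c : ℕ × ℕ → A) (hS : ∀ p ∈ S, 1 ≤ p.1 ∨ 2 ≤ p.2)
    (Y : PowerSeries A) (hY : X ∣ Y) : X ∣ fixMap S c Y := by
  unfold fixMap
  apply Finset.dvd_sum
  intro p hp
  rcases hS p hp with h1 | h1
  · exact Dvd.dvd.mul_right (Dvd.dvd.mul_left (dvd_pow_self _ (by omega)) _) _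
  · exact Dvd.dvd.mul_left (hY.trans (dvd_pow_self _ (by omega))) _

/-- iterates -/
noncomputable def fixIter (S : Finset (ℕ × ℕ)) (c : ℕ × ℕ → A) : ℕ → PowerSeries A
  | 0 => 0
  | (n + 1) => fixMap S c (fixIter S c n)

lemma fixIter_dvd (S : Finset (ℕ × ℕ)) (c : ℕ × ℕ → A) (hS : ∀ p ∈ S, 1 ≤ p.1 ∨ 2 ≤ p.2)
    (n : ℕ) : PowerSeries.X ∣ fixIter S c n := by
  induction n with
  | zero => exact dvd_zero _
  | succ n ih => exact fixMap_dvd S c hS _ ih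

lemma fixIter_sub (S : Finset (ℕ × ℕ)) (c : ℕ × ℕ → A) (hS : ∀ p ∈ S, 1 ≤ p.1 ∨ 2 ≤ p.2)
    (n : ℕ) : PowerSeries.X ^ (n + 1) ∣ fixIter S c (n + 1) - fixIter S c n := by
  induction n with
  | zero =>
    simp only [fixIter, sub_zero, zero_add, pow_one]
    exact fixMap_dvd S c hS _ (dvd_zero _)
  | succ n ih =>
    exact fixMap_contr S c hS _ _ (fixIter_dvd S c hS _) (fixIter_dvd S c hS _) _ ih

lemma fixIter_coeff (S : Finset (ℕ × ℕ)) (c : ℕ × ℕ → A) (hS : ∀ p ∈ S, 1 ≤ p.1 ∨ 2 ≤ p.2)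
    (n m i : ℕ) (hn : i ≤ n) (hnm : n ≤ m) :
    PowerSeries.coeff i (fixIter S c m) = PowerSeries.coeff i (fixIter S c n) := by
  induction m, hnm using Nat.le_induction with
  | base => rfl
  | succ m hm ih =>
    rw [← ih]
    have h := fixIter_sub S c hS m
    rw [PowerSeries.X_pow_dvd_iff] at h
    have := h i (by omega)
    rw [map_sub, sub_eq_zero] at this
    exact this

/-- the fixed point -/
noncomputable def fixPt (S : Finset (ℕ × ℕ)) (c : ℕ × ℕ → A) : PowerSeries A :=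
  PowerSeries.mk fun n => PowerSeries.coeff n (fixIter S c n)

lemma fixPt_sub (S : Finset (ℕ × ℕ)) (c : ℕ × ℕ → A) (hS : ∀ p ∈ S, 1 ≤ p.1 ∨ 2 ≤ p.2)
    (n : ℕ) : PowerSeries.X ^ (n + 1) ∣ fixPt S c - fixIter S c n := by
  rw [PowerSeries.X_pow_dvd_iff]
  intro i hi
  rw [map_sub, fixPt, PowerSeries.coeff_mk, sub_eq_zero]
  exact (fixIter_coeff S c hS i n i le_rfl (by omega)).symm

lemma fixPt_dvd (S : Finset (ℕ × ℕ)) (c : ℕ × ℕ → A) (hS : ∀ p ∈ S, 1 ≤ p.1 ∨ 2 ≤ p.2) :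
    PowerSeries.X ∣ fixPt S c := by
  have h := fixPt_sub S c hS 0
  simpa [fixIter] using h

lemma fixPt_eq (S : Finset (ℕ × ℕ)) (c : ℕ × ℕ → A) (hS : ∀ p ∈ S, 1 ≤ p.1 ∨ 2 ≤ p.2) :
    fixMap S c (fixPt S c) = fixPt S c := by
  ext n
  have h1 := fixMap_contr S c hS _ _ (fixPt_dvd S c hS) (fixIter_dvd S c hS n) (n + 1)
    (fixPt_sub S c hS n)
  have h2 := fixPt_sub S c hS (n + 1)
  rw [PowerSeries.X_pow_dvd_iff] at h1 h2
  have h3 := h1 n (by omega)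
  have h4 := h2 n (by omega)
  rw [map_sub, sub_eq_zero] at h3 h4
  rw [h3, h4]
  rfl

lemma fixPt_bd (S : Finset (ℕ × ℕ)) (c : ℕ × ℕ → A) (hS : ∀ p ∈ S, 1 ≤ p.1 ∨ 2 ≤ p.2)
    (N : RingSeminorm A) (h1 : N 1 ≤ 1) (ρ s : ℝ) (hρ : 0 ≤ ρ) (hs : 0 ≤ s)
    (hsum : ∑ p ∈ S, N (c p) * ρ ^ p.1 * s ^ p.2 ≤ s) : Bd N ρ (fixPt S c) s := by
  have hit : ∀ n, Bd N ρ (fixIter S c n) s := by
    intro n
    induction n with
    | zero => exact Bd.zero.mono hs
    | succ n ih =>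
      refine Bd.mono ?_ hsum
      apply Bd.sum _ hρ
      intro p _
      exact ((Bd.C hρ _).mul hρ ((Bd.X hρ h1).pow hρ h1 _)).mul hρ (ih.pow hρ h1 _)
  intro K
  have : ∑ n ∈ range K, N (PowerSeries.coeff n (fixPt S c)) * ρ ^ n
      = ∑ n ∈ range K, N (PowerSeries.coeff n (fixIter S c K)) * ρ ^ n := by
    apply Finset.sum_congr rfl
    intro n hn
    rw [Finset.mem_range] at hn
    rw [fixPt, PowerSeries.coeff_mk, fixIter_coeff S c hS n K n le_rfl (by omega)]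
  rw [this]
  exact hit K K

end Hensel

end Pool.Agent.H322R2
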