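import Pool.Agent.H322R2.Exps

/-!
The two-point principle for integer points near a common root at infinity.
-/

open Polynomial Finset

namespace Pool.Agent.H322R2

/-- `(a,b)` is an integer point on `G = 0` close to the branch at infinity of slope `σ α`. -/
structure Pt {A : Type} [CommRing A] (N : RingSeminorm A) (σ : A →+* ℝ) (d : ℕ) (G : ℤ[X][X])
    (H : ℝ) (α : A) (a b : ℤ) : Prop where
  monic : G.Monic
  deg : G.natDegree = d
  prime : Prime G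
  td : TD d G
  hH : 1 ≤ H
  pnG : pn (pn zn) G ≤ H
  root : evf α (lead d G) = 0
  Nα : N α ≤ 1 + H
  σα : |σ α| ≤ H
  der : 1 ≤ |evf (σ α) (derivative (lead d G))| * cD d H
  zero : ev a b G = 0
  near : |(b : ℝ) / a - σ α| ≤ cR d H

lemma Pt.bp {A : Type} [CommRing A] {N : RingSeminorm A} {σ : A →+* ℝ} {d : ℕ} {G : ℤ[X][X]}
    {H : ℝ} {α : A} {a b : ℤ} (h1 : N 1 ≤ 1) (hσ : ∀ x, |σ x| ≤ N x) (hd : 0 < d)
    (P : Pt N σ d G H α a b) (ha : bB d H ^ 2 ≤ |(a : ℝ)|) :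
    Nonempty (BP N σ d (bB d H) G a b) :=
  mkBP h1 hσ hd P.monic P.deg P.td P.hH P.pnG α P.root P.Nα P.σα P.der a b P.zero P.near
    (bB d H) (cB_le hd P.hH) ha

lemma two_d_le_kap (d : ℕ) : 2 * d ≤ kap d := by
  unfold kap
  have h1 : 1 ≤ 36 ^ d := Nat.one_le_pow _ _ (by norm_num)
  have h2 : d ≤ (d + 1) ^ 4 := by
    calc d ≤ d + 1 := by omega
      _ = (d + 1) ^ 1 := by rw [pow_one]
      _ ≤ (d + 1) ^ 4 := Nat.pow_le_pow_right (by omega) (by norm_num)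
  calc 2 * d ≤ 10 ^ 6 * (1 * (d + 1) ^ 4) := by omega
    _ ≤ 10 ^ 6 * (36 ^ d * (d + 1) ^ 4) := by
        apply Nat.mul_le_mul_left
        exact Nat.mul_le_mul_right _ h1
    _ = _ := by ring

theorem two_int {d : ℕ} (hd : 3 ≤ d) {A : Type} [CommRing A] {N : RingSeminorm A} {σ : A →+* ℝ}
    (h1 : N 1 ≤ 1) (hσ : ∀ x, |σ x| ≤ N x) {ι : Type} [Fintype ι] (bas : Module.Basis ι ℤ A)
    (C0 : ℝ) (hC0 : 1 ≤ C0) (hcoord : ∀ x i, |(bas.repr x i : ℝ)| ≤ C0 * N x)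
    (hk : 0 < Fintype.card ι) (hkd : Fintype.card ι ≤ d)
    {G1 G2 : ℤ[X][X]} {H1 H2 : ℝ} {α1 α2 : A} {a1 b1 a2 b2 : ℤ}
    (P1 : Pt N σ d G1 H1 α1 a1 b1) (P2 : Pt N σ d G2 H2 α2 a2 b2)
    (ha1 : (bB d H1) ^ (kap d) ≤ |(a1 : ℝ)|) :
    |(a2 : ℝ)| ≤ (|(a1 : ℝ)| * C0 * bB d H2) ^ (kap d) := by
  obtain ⟨κ, hκ1, hκ2, hκ⟩ := two_point d hd
  by_contra hcon
  push_neg at hcon
  have hH1 := P1.hH
  have hH2 := P2.hH
  have hb1 : 1 ≤ bB d H1 := one_le_pow₀ (by linarith)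
  have hb2 : 1 ≤ bB d H2 := one_le_pow₀ (by linarith)
  have hkap : 2 ≤ kap d := by have := two_d_le_kap d; omega
  have ha1sq : bB d H1 ^ 2 ≤ |(a1 : ℝ)| := (pow_le_pow_right₀ hb1 hkap).trans ha1
  have ha1ge : 1 ≤ |(a1 : ℝ)| := (one_le_pow₀ hb1).trans ha1sq
  have ha1C : 1 ≤ |(a1 : ℝ)| * C0 := one_le_mul_of_one_le_of_one_le ha1ge hC0
  have ha2sq : bB d H2 ^ 2 ≤ |(a2 : ℝ)| := by
    refine le_trans ?_ hcon.le
    calc bB d H2 ^ 2 ≤ bB d H2 ^ (kap d) := pow_le_pow_right₀ hb2 hkap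
      _ ≤ _ := pow_le_pow_left₀ (by linarith) (le_mul_of_one_le_left (by linarith) ha1C) _
  obtain ⟨Q1⟩ := P1.bp h1 hσ (by omega) ha1sq
  obtain ⟨Q2⟩ := P2.bp h1 hσ (by omega) ha2sq
  refine hκ h1 hσ bas C0 hC0 hcoord hk hkd P1.monic P1.deg P1.prime (fun j => ?_) P2.monic P2.deg
    P2.prime Q1 Q2 ?_ ?_
  · have := P1.td.2 j; omega
  · have h3 := Real.log_le_log (by positivity) ha1
    rw [Real.log_pow] at h3
    have h4 : κ * Real.log (bB d H1) ≤ kap d * Real.log (bB d H1) :=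
      mul_le_mul_of_nonneg_right hκ2 (Real.log_nonneg hb1)
    linarith
  · have hpos : 0 < |(a1 : ℝ)| * C0 * bB d H2 := by positivity
    have h3 := Real.log_le_log (by positivity) hcon.le
    rw [Real.log_pow, Real.log_mul (by positivity) (by positivity),
      Real.log_mul (by positivity) (by positivity)] at h3
    have h4 : 0 ≤ Real.log |(a1 : ℝ)| + Real.log (bB d H2) + Real.log C0 := by
      have := Real.log_nonneg ha1ge
      have := Real.log_nonneg hb2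
      have := Real.log_nonneg hC0
      linarith
    have h5 := mul_le_mul_of_nonneg_right hκ2 h4
    linarith

end Pool.Agent.H322R2
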