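import Pool.Agent.H322R2.Monic

/-!
Reduction of a general plane curve to a monic one: coordinates.
-/

open Polynomial Finset

namespace Pool.Agent.H322R2

section toB

variable (R : Type*) [CommRing R]

/-- `X 0` becomes the outer variable, `X 1` the inner one -/
noncomputable def toB : MvPolynomial (Fin 2) R ≃ₐ[R] R[X][X] :=
  (MvPolynomial.renameEquiv R (Equiv.swap (0 : Fin 2) 1)).trans
    (Polynomial.Bivariate.equivMvPolynomial R).symm

@[simp] lemma toB_X0 : toB R (MvPolynomial.X 0) = X := by
  simp [toB]

@[simp] lemma toB_X1 : toB R (MvPolynomial.X 1) = C X := by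
  simp [toB]

@[simp] lemma toB_C (r : R) : toB R (MvPolynomial.C r) = C (C r) := by
  simp [toB]

lemma toB_monomial (m : Fin 2 →₀ ℕ) (r : R) :
    toB R (MvPolynomial.monomial m r) = monomial (m 0) (monomial (m 1) r) := by
  rw [MvPolynomial.monomial_eq, map_mul, toB_C, Finsupp.prod_fintype _ _ (by simp),
    Fin.prod_univ_two, map_mul, map_pow, map_pow, toB_X0, toB_X1,
    ← C_mul_X_pow_eq_monomial, ← C_mul_X_pow_eq_monomial, map_mul, map_pow]
  ring

lemma coeff_toB (F : MvPolynomial (Fin 2) R) (m : Fin 2 →₀ ℕ) :
    ((toB R F).coeff (m 0)).coeff (m 1) = F.coeff m := by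
  induction F using MvPolynomial.induction_on' with
  | monomial u a =>
    rw [toB_monomial, MvPolynomial.coeff_monomial, coeff_monomial]
    by_cases h : u = m
    · rw [h]; simp
    · rw [if_neg h]
      by_cases h0 : u 0 = m 0
      · rw [if_pos h0, coeff_monomial]
        have h1 : u 1 ≠ m 1 := by
          intro h1
          apply h
          ext i
          fin_cases i
          · exact h0
          · exact h1
        rw [if_neg h1]
      · rw [if_neg h0, coeff_zero]
  | add p q hp hq =>
    rw [map_add, coeff_add, coeff_add, hp, hq, MvPolynomial.coeff_add]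

lemma coeff_toB' (F : MvPolynomial (Fin 2) R) (j i : ℕ) :
    ((toB R F).coeff j).coeff i = F.coeff (Finsupp.single 0 j + Finsupp.single 1 i) := by
  have := coeff_toB R F (Finsupp.single 0 j + Finsupp.single 1 i)
  simpa using this

lemma toB_map {S : Type*} [CommRing S] (f : R →+* S) (F : MvPolynomial (Fin 2) R) :
    toB S (MvPolynomial.map f F) = (toB R F).map (mapRingHom f) := by
  have : (toB S : MvPolynomial (Fin 2) S →+* S[X][X]).comp (MvPolynomial.map f)
      = (mapRingHom (mapRingHom f)).comp (toB R : MvPolynomial (Fin 2) R →+* R[X][X]) := by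
    apply MvPolynomial.ringHom_ext
    · intro r
      simp
    · intro i
      fin_cases i
      · simp
      · simp
  exact congrArg (fun g : MvPolynomial (Fin 2) R →+* S[X][X] => g F) this

/-- shear `X 1 ↦ X 1 + u X 0` -/
noncomputable def shE (u : R) : MvPolynomial (Fin 2) R ≃ₐ[R] MvPolynomial (Fin 2) R :=
  AlgEquiv.ofAlgHom
    (MvPolynomial.aeval ![MvPolynomial.X 0, MvPolynomial.X 1 + MvPolynomial.C u * MvPolynomial.X 0])
    (MvPolynomial.aeval ![MvPolynomial.X 0, MvPolynomial.X 1 - MvPolynomial.C u * MvPolynomial.X 0])
    (by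
      apply MvPolynomial.algHom_ext
      intro i
      fin_cases i
      · simp
      · simp [MvPolynomial.algebraMap_eq])
    (by
      apply MvPolynomial.algHom_ext
      intro i
      fin_cases i
      · simp
      · simp [MvPolynomial.algebraMap_eq])

lemma shE_apply (u : R) (F : MvPolynomial (Fin 2) R) : shE R u F =
    MvPolynomial.aeval ![MvPolynomial.X 0, MvPolynomial.X 1 + MvPolynomial.C u * MvPolynomial.X 0] F :=
  rfl

lemma shE_map {S : Type*} [CommRing S] (f : R →+* S) (u : R) (F : MvPolynomial (Fin 2) R) :
    shE S (f u) (MvPolynomial.map f F) = MvPolynomial.map f (shE R u F) := by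
  have : (shE S (f u) : MvPolynomial (Fin 2) S →+* MvPolynomial (Fin 2) S).comp (MvPolynomial.map f)
      = (MvPolynomial.map f).comp (shE R u : MvPolynomial (Fin 2) R →+* MvPolynomial (Fin 2) R) := by
    apply MvPolynomial.ringHom_ext
    · intro r
      simp [shE_apply]
    · intro i
      fin_cases i
      · simp [shE_apply]
      · simp [shE_apply]
  exact congrArg (fun g : MvPolynomial (Fin 2) R →+* MvPolynomial (Fin 2) S => g F) this

lemma shE_isHomogeneous (u : R) {F : MvPolynomial (Fin 2) R} {n : ℕ} (hF : F.IsHomogeneous n) :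
    (shE R u F).IsHomogeneous n := by
  rw [shE_apply]
  have := hF.aeval (m := n) (n := 1)
    (![MvPolynomial.X 0, MvPolynomial.X 1 + MvPolynomial.C u * MvPolynomial.X 0] :
      Fin 2 → MvPolynomial (Fin 2) R) (by
      intro i
      fin_cases i
      · exact MvPolynomial.isHomogeneous_X _ _
      · apply MvPolynomial.IsHomogeneous.add (MvPolynomial.isHomogeneous_X _ _)
        have := (MvPolynomial.isHomogeneous_C (Fin 2) u).mul
          (MvPolynomial.isHomogeneous_X R (0 : Fin 2))
        simpa using this)
  simpa using this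

lemma homogeneousComponent_shE (u : R) (F : MvPolynomial (Fin 2) R) (n : ℕ) :
    MvPolynomial.homogeneousComponent n (shE R u F)
      = shE R u (MvPolynomial.homogeneousComponent n F) := by
  conv_lhs => rw [← MvPolynomial.sum_homogeneousComponent F, map_sum, map_sum]
  have h1 : ∀ i ∈ range (F.totalDegree + 1), MvPolynomial.homogeneousComponent n
      (shE R u (MvPolynomial.homogeneousComponent i F))
      = if i = n then shE R u (MvPolynomial.homogeneousComponent n F) else 0 := by
    intro i _
    have h2 := shE_isHomogeneous R u (MvPolynomial.homogeneousComponent_isHomogeneous i F)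
    rw [MvPolynomial.homogeneousComponent_of_mem
      ((MvPolynomial.mem_homogeneousSubmodule _ _).2 h2)]
    by_cases h : n = i
    · rw [if_pos h, if_pos h.symm, h]
    · rw [if_neg h, if_neg (fun h' => h h'.symm)]
  rw [Finset.sum_congr rfl h1, Finset.sum_ite_eq']
  split_ifs with h
  · rfl
  · rw [MvPolynomial.homogeneousComponent_eq_zero]
    · simp
    · rw [Finset.mem_range] at h; omega

end toB

end Pool.Agent.H322R2
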