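import Pool.Agent.H322R2.Red1

/-!
Reduction of a general plane curve to a monic one: degrees and heights.
-/

open Polynomial Finset

namespace Pool.Agent.H322R2

/-- sum of the absolute values of the coefficients -/
def len (F : MvPolynomial (Fin 2) ℤ) : ℕ := ∑ m ∈ F.support, (F.coeff m).natAbs

lemma degree_fin2 (m : Fin 2 →₀ ℕ) : m.degree = m 0 + m 1 := by
  rw [Finsupp.degree_eq_sum, Fin.sum_univ_two]

lemma coeff_shE_eq_zero (u : ℤ) (F : MvPolynomial (Fin 2) ℤ) (m : Fin 2 →₀ ℕ)
    (h : F.totalDegree < m 0 + m 1) : (shE ℤ u F).coeff m = 0 := by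
  have h1 := homogeneousComponent_shE ℤ u F (m 0 + m 1)
  rw [MvPolynomial.homogeneousComponent_eq_zero _ _ h] at h1
  have h3 : shE ℤ u 0 = 0 := map_zero _
  rw [h3] at h1
  have h2 := congrArg (MvPolynomial.coeff m) h1
  rw [MvPolynomial.coeff_homogeneousComponent, if_pos (degree_fin2 m)] at h2
  simpa using h2

lemma TD_toB (u : ℤ) (F : MvPolynomial (Fin 2) ℤ) : TD F.totalDegree (toB ℤ (shE ℤ u F)) := by
  have key : ∀ j i, F.totalDegree < j + i → ((toB ℤ (shE ℤ u F)).coeff j).coeff i = 0 := by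
    intro j i h
    rw [coeff_toB']
    apply coeff_shE_eq_zero
    simpa using h
  constructor
  · rw [natDegree_le_iff_coeff_eq_zero]
    intro j hj
    ext i
    rw [key j i (by omega), coeff_zero]
  · intro j
    rw [natDegree_le_iff_coeff_eq_zero]
    intro i hi
    exact key j i (by omega)

lemma homogenize_lead (u : ℤ) (F : MvPolynomial (Fin 2) ℤ) :
    homogenize (lead F.totalDegree (toB ℤ (shE ℤ u F))) F.totalDegree
      = shE ℤ u (MvPolynomial.homogeneousComponent F.totalDegree F) := by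
  rw [← homogeneousComponent_shE]
  ext m
  rw [coeff_homogenize, MvPolynomial.coeff_homogeneousComponent, degree_fin2]
  by_cases h : m 0 + m 1 = F.totalDegree
  · rw [if_pos h, if_pos h, coeff_lead, if_pos (by omega)]
    have h1 : F.totalDegree - m 0 = m 1 := by omega
    rw [h1, coeff_toB]
  · rw [if_neg h, if_neg h]

lemma eval_homogenize_one_zero (p : ℤ[X]) (d : ℕ) :
    MvPolynomial.eval ![1, 0] (homogenize p d) = p.coeff d := by
  rw [homogenize, map_sum, Finset.sum_eq_single (d, 0)]
  · rw [MvPolynomial.eval_monomial, Finsupp.prod_fintype _ _ (by simp), Fin.prod_univ_two]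
    simp
  · rintro ⟨k, l⟩ hkl hne
    rw [MvPolynomial.eval_monomial, Finsupp.prod_fintype _ _ (by simp), Fin.prod_univ_two]
    have hl : l ≠ 0 := by
      rintro rfl
      rw [Finset.HasAntidiagonal.mem_antidiagonal] at hkl
      simp only [add_zero] at hkl
      exact hne (by rw [hkl])
    simp [hl]
  · intro h
    exact absurd (Finset.HasAntidiagonal.mem_antidiagonal.2 (add_zero d)) h

lemma eval_shE (u : ℤ) (v : Fin 2 → ℤ) (F : MvPolynomial (Fin 2) ℤ) :
    MvPolynomial.eval v (shE ℤ u F) = MvPolynomial.eval ![v 0, v 1 + u * v 0] F := by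
  have : (MvPolynomial.eval v).comp (shE ℤ u : MvPolynomial (Fin 2) ℤ →+* MvPolynomial (Fin 2) ℤ)
      = MvPolynomial.eval ![v 0, v 1 + u * v 0] := by
    apply MvPolynomial.ringHom_ext
    · intro r
      simp [shE_apply]
    · intro i
      fin_cases i
      · simp [shE_apply]
      · simp [shE_apply]
  exact congrArg (fun g : MvPolynomial (Fin 2) ℤ →+* ℤ => g F) this

lemma ev_toB {S : Type*} [CommRing S] (x y : S) (F : MvPolynomial (Fin 2) ℤ) :
    ev y x (toB ℤ F) = MvPolynomial.eval₂ (Int.castRingHom S) ![x, y] F := by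
  have : (ev y x).comp (toB ℤ : MvPolynomial (Fin 2) ℤ →+* ℤ[X][X])
      = MvPolynomial.eval₂Hom (Int.castRingHom S) ![x, y] := by
    apply MvPolynomial.ringHom_ext
    · intro r
      simp
    · intro i
      fin_cases i
      · simp
      · simp
  exact congrArg (fun g : MvPolynomial (Fin 2) ℤ →+* S => g F) this

lemma coeff_lead_eq (u : ℤ) (F : MvPolynomial (Fin 2) ℤ) :
    (lead F.totalDegree (toB ℤ (shE ℤ u F))).coeff F.totalDegree
      = MvPolynomial.eval ![1, u] (MvPolynomial.homogeneousComponent F.totalDegree F) := by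
  rw [← eval_homogenize_one_zero, homogenize_lead, eval_shE]
  simp

lemma lead_component_ne_zero (F : MvPolynomial (Fin 2) ℤ) (hF : F ≠ 0) :
    MvPolynomial.homogeneousComponent F.totalDegree F ≠ 0 := by
  obtain ⟨m, hm, hm2⟩ := Finset.exists_mem_eq_sup F.support
    (MvPolynomial.support_nonempty.2 hF) (fun s => s.sum fun _ e => e)
  intro h0
  have h1 := congrArg (MvPolynomial.coeff m) h0
  rw [MvPolynomial.coeff_homogeneousComponent, if_pos] at h1
  · exact (MvPolynomial.mem_support_iff.1 hm) (by simpa using h1)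
  · exact hm2.symm

lemma exists_u (F : MvPolynomial (Fin 2) ℤ) (hF : F ≠ 0) : ∃ u : ℕ, u ≤ F.totalDegree ∧
    MvPolynomial.eval ![1, (u : ℤ)] (MvPolynomial.homogeneousComponent F.totalDegree F) ≠ 0 := by
  obtain ⟨d, hd⟩ : ∃ d, d = F.totalDegree := ⟨_, rfl⟩
  have hφ0 := lead_component_ne_zero F hF
  rw [← hd] at hφ0 ⊢
  obtain ⟨φ, hφ⟩ : ∃ φ, φ = MvPolynomial.homogeneousComponent d F := ⟨_, rfl⟩
  rw [← hφ] at hφ0 ⊢
  have hhom : φ.IsHomogeneous d := by
    rw [hφ]; exact MvPolynomial.homogeneousComponent_isHomogeneous _ _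
  by_contra hcon
  push_neg at hcon
  obtain ⟨q, hq⟩ : ∃ q : ℤ[X], q = MvPolynomial.aeval ![1, X] φ := ⟨_, rfl⟩
  have hqd : q.natDegree ≤ d := by
    rw [hq, MvPolynomial.aeval_def, MvPolynomial.eval₂_eq']
    apply natDegree_sum_le_of_forall_le
    intro m hm
    rw [Fin.prod_univ_two]
    have h1 : m 0 + m 1 = d := by
      rw [← degree_fin2]
      have := hhom (MvPolynomial.mem_support_iff.1 hm)
      rw [Finsupp.degree_eq_weight_one]
      exact this
    simp only [Matrix.cons_val_zero, Matrix.cons_val_one, one_pow, one_mul]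
    refine (natDegree_C_mul_X_pow_le (φ.coeff m) (m 1)).trans (by omega)
  have hqe : ∀ u : ℕ, u ≤ d → q.eval (u : ℤ) = 0 := by
    intro u hu
    have h1 := hcon u hu
    rw [hq, ← h1]
    have : (evalRingHom (u : ℤ)).comp (MvPolynomial.aeval ![1, X] :
        MvPolynomial (Fin 2) ℤ →ₐ[ℤ] ℤ[X]).toRingHom = MvPolynomial.eval ![1, (u : ℤ)] := by
      apply MvPolynomial.ringHom_ext
      · intro r; simp
      · intro i
        fin_cases i
        · simp
        · simp
    exact congrArg (fun g : MvPolynomial (Fin 2) ℤ →+* ℤ => g φ) this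
  have hq0 : q = 0 := by
    apply Polynomial.eq_zero_of_natDegree_lt_card_of_eval_eq_zero' q
      ((Finset.range (d + 1)).image (fun n : ℕ => (n : ℤ)))
    · intro i hi
      rw [Finset.mem_image] at hi
      obtain ⟨n, hn, rfl⟩ := hi
      exact hqe n (by rw [Finset.mem_range] at hn; omega)
    · rw [Finset.card_image_of_injective _ Nat.cast_injective, Finset.card_range]
      omega
  apply hφ0
  have hswap : (MvPolynomial.rename (Equiv.swap (0 : Fin 2) 1) φ).IsHomogeneous d :=
    hhom.rename_isHomogeneous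
  have h3 : MvPolynomial.aeval ![X, 1] (MvPolynomial.rename (Equiv.swap (0 : Fin 2) 1) φ) = q := by
    rw [hq, MvPolynomial.aeval_rename]
    congr 2
    ext i
    fin_cases i
    · simp
    · simp
  have h4 := homogenize_eq_of_isHomogeneous hswap h3
  rw [hq0, homogenize_zero] at h4
  have h5 := MvPolynomial.rename_injective (R := ℤ) (Equiv.swap (0 : Fin 2) 1)
    (Equiv.injective _)
  exact h5 (by rw [← h4, map_zero])

/-- height of the sheared polynomial -/
lemma pn_toB_le (u : ℕ) (F : MvPolynomial (Fin 2) ℤ) :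
    pn (pn zn) (toB ℤ (shE ℤ u F)) ≤ (len F : ℝ) * (1 + u) ^ F.totalDegree := by
  have h1 : toB ℤ (shE ℤ u F) = ∑ m ∈ F.support, C (C (F.coeff m)) *
      (X ^ (m 0) * (C X + C (C (u : ℤ)) * X) ^ (m 1)) := by
    have h2 : toB ℤ (shE ℤ u F) = MvPolynomial.eval₂ (C.comp C) ![X, C X + C (C (u : ℤ)) * X] F := by
      have : (toB ℤ : MvPolynomial (Fin 2) ℤ →+* ℤ[X][X]).comp
          (shE ℤ u : MvPolynomial (Fin 2) ℤ →+* MvPolynomial (Fin 2) ℤ)
          = MvPolynomial.eval₂Hom (C.comp C) ![X, C X + C (C (u : ℤ)) * X] := by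
        apply MvPolynomial.ringHom_ext
        · intro r
          simp [shE_apply]
        · intro i
          fin_cases i
          · simp [shE_apply]
          · simp [shE_apply]
      exact congrArg (fun g : MvPolynomial (Fin 2) ℤ →+* ℤ[X][X] => g F) this
    rw [h2, MvPolynomial.eval₂_eq']
    apply Finset.sum_congr rfl
    intro m _
    rw [Fin.prod_univ_two]
    simp
  rw [h1]
  refine (seminorm_sum_le _ _ _).trans ?_
  rw [len, Nat.cast_sum, Finset.sum_mul]
  apply Finset.sum_le_sum
  intro m hm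
  refine (map_mul_le_mul _ _ _).trans ?_
  rw [pn_C, pn_C]
  have e1 : zn (F.coeff m) = ((F.coeff m).natAbs : ℝ) := by
    rw [zn_apply, Nat.cast_natAbs, Int.cast_abs]
  rw [e1]
  apply mul_le_mul_of_nonneg_left _ (Nat.cast_nonneg _)
  refine (map_mul_le_mul _ _ _).trans ?_
  have e2 : pn (pn zn) (X ^ (m 0) : ℤ[X][X]) ≤ 1 := by
    refine (seminorm_pow_le _ pn2_one _ _).trans ?_
    apply pow_le_one₀ (apply_nonneg _ _)
    rw [pn_X]; exact pnz_one
  have e3 : pn (pn zn) (C X + C (C (u : ℤ)) * X : ℤ[X][X]) ≤ 1 + u := by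
    refine (map_add_le_add _ _ _).trans ?_
    apply add_le_add
    · rw [pn_C, pn_X]; exact zn_one
    · refine (map_mul_le_mul _ _ _).trans ?_
      rw [pn_C, pn_C, pn_X, zn_apply]
      simp only [Int.cast_natCast, Nat.abs_cast]
      exact mul_le_of_le_one_right (Nat.cast_nonneg _) pnz_one
  have e4 : pn (pn zn) ((C X + C (C (u : ℤ)) * X : ℤ[X][X]) ^ (m 1)) ≤ (1 + u) ^ F.totalDegree := by
    refine (seminorm_pow_le _ pn2_one _ _).trans ?_
    refine (pow_le_pow_left₀ (apply_nonneg _ _) e3 _).trans ?_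
    apply pow_le_pow_right₀ (by have : (0 : ℝ) ≤ u := Nat.cast_nonneg _
                                linarith)
    have h3 := MvPolynomial.le_totalDegree hm
    have h4 : (m.sum fun _ e => e) = m 0 + m 1 := by
      rw [← degree_fin2]; rfl
    omega
  calc _ ≤ 1 * (1 + (u : ℝ)) ^ F.totalDegree :=
        mul_le_mul e2 e4 (apply_nonneg _ _) (by norm_num)
    _ = _ := one_mul _

end Pool.Agent.H322R2
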