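import Pool.Agent.H322R2.MidB

/-!
Counting polynomials that are reducible over the rationals.
-/

open Polynomial Finset

namespace Pool.Agent.H322R2

lemma exists_factor (f : ℤ[X]) (hf : 1 ≤ f.natDegree)
    (hred : ¬ Irreducible (f.map (Int.castRingHom ℚ))) :
    ∃ g h : ℤ[X], 1 ≤ g.natDegree ∧ 1 ≤ h.natDegree ∧ f = g * h := by
  have hf0 : f ≠ 0 := by rintro rfl; simp at hf
  have hp := f.isPrimitive_primPart
  have hpd : f.primPart.natDegree = f.natDegree := f.natDegree_primPart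
  have hcont : f.content ≠ 0 := by rw [Ne, content_eq_zero_iff]; exact hf0
  have h1 : ¬ Irreducible f.primPart := by
    intro hirr
    apply hred
    have h2 := (IsPrimitive.Int.irreducible_iff_irreducible_map_cast hp).1 hirr
    have h3 : f.map (Int.castRingHom ℚ) = C ((f.content : ℤ) : ℚ) *
        f.primPart.map (Int.castRingHom ℚ) := by
      conv_lhs => rw [f.eq_C_content_mul_primPart]
      rw [Polynomial.map_mul, map_C]
      rfl
    rw [h3]
    apply (irreducible_isUnit_mul _).2 h2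
    apply IsUnit.map
    apply isUnit_iff_ne_zero.2
    exact_mod_cast hcont
  have hnu : ¬ IsUnit f.primPart := by
    intro h
    have := natDegree_eq_zero_of_isUnit h
    omega
  rw [irreducible_iff] at h1
  push_neg at h1
  obtain ⟨g, h, hgh, hg, hh⟩ := h1 hnu
  have key : ∀ g h : ℤ[X], f.primPart = g * h → ¬ IsUnit g → 1 ≤ g.natDegree := by
    intro g h hgh hg
    by_contra hcon
    have h2 : g.natDegree = 0 := by omega
    have h3 := eq_C_of_natDegree_eq_zero h2
    apply hg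
    rw [h3]
    apply IsUnit.map
    apply hp
    rw [← h3, hgh]
    exact dvd_mul_right _ _
  have hg1 := key g h hgh hg
  have hh1 := key h g (by rw [hgh, mul_comm]) hh
  refine ⟨C f.content * g, h, ?_, hh1, ?_⟩
  · rw [natDegree_C_mul hcont]; exact hg1
  · conv_lhs => rw [f.eq_C_content_mul_primPart, hgh]
    ring

lemma coeff_mul_le (f g h : ℤ[X]) (d H : ℕ) (hfd : f.natDegree = d) (hf : f ≠ 0)
    (hH : ∀ i, |f.coeff i| ≤ (H : ℤ)) (hfg : f = g * h) (i j : ℕ) :
    (g.coeff i).natAbs * (h.coeff j).natAbs ≤ 2 ^ d * (d + 1) * H := by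
  have hg0 : g ≠ 0 := by rintro rfl; rw [zero_mul] at hfg; exact hf hfg
  have hh0 : h ≠ 0 := by rintro rfl; rw [mul_zero] at hfg; exact hf hfg
  have hdeg : g.natDegree + h.natDegree = d := by rw [← hfd, hfg, natDegree_mul hg0 hh0]
  have hinj : Function.Injective (Int.castRingHom ℂ) := Int.cast_injective
  have hM : (f.map (Int.castRingHom ℂ)).mahlerMeasure
      = (g.map (Int.castRingHom ℂ)).mahlerMeasure * (h.map (Int.castRingHom ℂ)).mahlerMeasure := by
    rw [hfg, Polynomial.map_mul, mahlerMeasure_mul]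
  have hMf : (f.map (Int.castRingHom ℂ)).mahlerMeasure ≤ (d + 1) * H := by
    refine (mahlerMeasure_le_sum_norm_coeff _).trans ?_
    rw [Polynomial.sum_over_range' _ _ (d + 1)]
    · refine (Finset.sum_le_card_nsmul _ _ (H : ℝ) ?_).trans ?_
      · intro i _
        rw [coeff_map, eq_intCast, Complex.norm_intCast]
        have := hH i
        have h2 : ((|f.coeff i| : ℤ) : ℝ) ≤ ((H : ℤ) : ℝ) := by exact_mod_cast this
        rw [Int.cast_abs] at h2
        simpa using h2
      · rw [Finset.card_range, nsmul_eq_mul]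
        push_cast
        exact le_refl _
    · rw [natDegree_map_eq_of_injective hinj, hfd]; omega
    · intro n; simp
  have hco : ∀ (p : ℤ[X]) (n : ℕ), (((p.coeff n).natAbs : ℕ) : ℝ) ≤ 2 ^ p.natDegree *
      (p.map (Int.castRingHom ℂ)).mahlerMeasure := by
    intro p n
    have h1 := norm_coeff_le_choose_mul_mahlerMeasure n (p.map (Int.castRingHom ℂ))
    rw [coeff_map, eq_intCast, Complex.norm_intCast, natDegree_map_eq_of_injective hinj] at h1
    rw [Nat.cast_natAbs, Int.cast_abs]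
    refine h1.trans ?_
    apply mul_le_mul_of_nonneg_right _ (mahlerMeasure_nonneg _)
    have h2 := Nat.choose_le_two_pow p.natDegree n
    exact_mod_cast h2
  have h1 := hco g i
  have h2 := hco h j
  have h3 : (((g.coeff i).natAbs * (h.coeff j).natAbs : ℕ) : ℝ) ≤ ((2 ^ d * (d + 1) * H : ℕ) : ℝ) := by
    push_cast
    calc ((g.coeff i).natAbs : ℝ) * ((h.coeff j).natAbs : ℝ)
        ≤ (2 ^ g.natDegree * (g.map (Int.castRingHom ℂ)).mahlerMeasure) *
          (2 ^ h.natDegree * (h.map (Int.castRingHom ℂ)).mahlerMeasure) :=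
          mul_le_mul h1 h2 (Nat.cast_nonneg _)
            (mul_nonneg (by positivity) (mahlerMeasure_nonneg _))
      _ = 2 ^ d * ((g.map (Int.castRingHom ℂ)).mahlerMeasure *
          (h.map (Int.castRingHom ℂ)).mahlerMeasure) := by
          rw [← hdeg, pow_add]; ring
      _ = 2 ^ d * (f.map (Int.castRingHom ℂ)).mahlerMeasure := by rw [hM]
      _ ≤ 2 ^ d * ((d + 1) * H) := mul_le_mul_of_nonneg_left hMf (by positivity)
      _ = _ := by ring
  exact_mod_cast h3

/-- sup norm of a vector -/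
def nu {k : ℕ} (u : Fin (k + 1) → ℤ) : ℕ := Finset.univ.sup fun i => (u i).natAbs

/-- polynomial with given coefficients -/
noncomputable def pv {k : ℕ} (u : Fin (k + 1) → ℤ) : ℤ[X] :=
  ∑ i : Fin (k + 1), monomial (i : ℕ) (u i)

lemma pv_coeff {k : ℕ} (g : ℤ[X]) (hg : g.natDegree ≤ k) :
    pv (fun i : Fin (k + 1) => g.coeff i) = g := by
  rw [pv, Fin.sum_univ_eq_sum_range (fun i => monomial i (g.coeff i)) (k + 1)]
  exact (as_sum_range' g (k + 1) (by omega)).symm

/-- products -/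
noncomputable def Rk (d X k : ℕ) : Finset ℤ[X] :=
  (((Bx (Fin (k + 1)) X).filter (fun u => 1 ≤ nu u)).biUnion fun u =>
    (Bx (Fin (d - k + 1)) (X / nu u)).image fun v => pv u * pv v)

lemma mem_Rk (f : ℤ[X]) (d H : ℕ) (hd : 1 ≤ d) (hfd : f.natDegree = d)
    (hH : ∀ i, |f.coeff i| ≤ (H : ℤ)) (hred : ¬ Irreducible (f.map (Int.castRingHom ℚ))) :
    ∃ k, 1 ≤ k ∧ 2 * k ≤ d ∧ f ∈ Rk d (2 ^ d * (d + 1) * H) k := by
  have hf0 : f ≠ 0 := by rintro rfl; simp at hfd; omega
  obtain ⟨g', h', hg', hh', hfg'⟩ := exists_factor f (by omega) hred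
  obtain ⟨g, h, hg, hh, hfg, hle⟩ : ∃ g h : ℤ[X], 1 ≤ g.natDegree ∧ 1 ≤ h.natDegree ∧ f = g * h ∧
      g.natDegree ≤ h.natDegree := by
    rcases le_total g'.natDegree h'.natDegree with h1 | h1
    · exact ⟨g', h', hg', hh', hfg', h1⟩
    · exact ⟨h', g', hh', hg', by rw [hfg', mul_comm], h1⟩
  have hg0 : g ≠ 0 := by rintro rfl; simp at hg
  have hh0 : h ≠ 0 := by rintro rfl; simp at hh
  have hdeg : g.natDegree + h.natDegree = d := by rw [← hfd, hfg, natDegree_mul hg0 hh0]
  have hc := coeff_mul_le f g h d H hfd hf0 hH hfg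
  obtain ⟨X, hX⟩ : ∃ X, X = 2 ^ d * (d + 1) * H := ⟨_, rfl⟩
  rw [← hX] at hc ⊢
  obtain ⟨k, hk⟩ : ∃ k, k = g.natDegree := ⟨_, rfl⟩
  obtain ⟨u, hu⟩ : ∃ u : Fin (k + 1) → ℤ, u = fun i : Fin (k + 1) => g.coeff i := ⟨_, rfl⟩
  have hnu1 : 1 ≤ nu u := by
    have h1 : (u ⟨k, by omega⟩).natAbs ≤ nu u :=
      Finset.le_sup (f := fun i => (u i).natAbs) (Finset.mem_univ _)
    have h2 : u ⟨k, by omega⟩ ≠ 0 := by
      rw [hu, hk]
      simp only
      rw [coeff_natDegree, Ne, leadingCoeff_eq_zero]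
      exact hg0
    have h3 : (u ⟨k, by omega⟩).natAbs ≠ 0 := by rw [Int.natAbs_ne_zero]; exact h2
    omega
  have hhl : 1 ≤ (h.coeff h.natDegree).natAbs := by
    have : (h.coeff h.natDegree).natAbs ≠ 0 := by
      rw [Int.natAbs_ne_zero, coeff_natDegree, Ne, leadingCoeff_eq_zero]; exact hh0
    omega
  have hnui : ∀ i, (u i).natAbs ≤ nu u := fun i =>
    Finset.le_sup (f := fun i => (u i).natAbs) (Finset.mem_univ i)
  have hnuX : ∀ j, nu u * (h.coeff j).natAbs ≤ X := by
    intro j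
    obtain ⟨i, _, hi⟩ := Finset.exists_mem_eq_sup (Finset.univ : Finset (Fin (k + 1)))
      ⟨0, Finset.mem_univ _⟩ (fun i => (u i).natAbs)
    have h1 : nu u = (u i).natAbs := hi
    rw [h1, hu]
    exact hc i j
  refine ⟨k, by omega, by omega, ?_⟩
  rw [Rk, Finset.mem_biUnion]
  refine ⟨u, ?_, ?_⟩
  · rw [Finset.mem_filter, mem_Bx]
    refine ⟨?_, hnu1⟩
    intro i
    have h1 := hnui i
    have h2 := hnuX h.natDegree
    have h3 : nu u ≤ X := le_trans (Nat.le_mul_of_pos_right _ hhl) h2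
    have h4 : (u i).natAbs ≤ X := h1.trans h3
    rw [Int.abs_eq_natAbs]
    exact_mod_cast h4
  · rw [Finset.mem_image]
    refine ⟨fun j : Fin (d - k + 1) => h.coeff j, ?_, ?_⟩
    · rw [mem_Bx]
      intro j
      have h1 : (h.coeff j).natAbs ≤ X / nu u := by
        rw [Nat.le_div_iff_mul_le (by omega), mul_comm]
        exact hnuX j
      rw [Int.abs_eq_natAbs]
      exact_mod_cast h1
    · rw [hu, pv_coeff g hk.ge, pv_coeff h (by omega), ← hfg]

/-- harmonic type sum -/
noncomputable def hs2 (X : ℕ) : ℝ := ∑ n ∈ Icc (-(X : ℤ)) X, 1 / (max 1 |(n : ℝ)|)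

lemma card_Rk_le (d X k : ℕ) (hk : 2 * k ≤ d) (hk1 : 1 ≤ k) (hX : 1 ≤ X) :
    ((Rk d X k).card : ℝ) ≤ (3 * (X : ℝ)) ^ d * hs2 X ^ (k + 1) := by
  have h1 : ((Rk d X k).card : ℝ) ≤ ∑ u ∈ (Bx (Fin (k + 1)) X).filter (fun u => 1 ≤ nu u),
      (((Bx (Fin (d - k + 1)) (X / nu u)).image fun v => pv u * pv v).card : ℝ) := by
    have := Finset.card_biUnion_le (s := (Bx (Fin (k + 1)) X).filter (fun u => 1 ≤ nu u))
      (t := fun u => (Bx (Fin (d - k + 1)) (X / nu u)).image fun v => pv u * pv v)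
    unfold Rk
    exact_mod_cast this
  have hXR : (1 : ℝ) ≤ X := by exact_mod_cast hX
  have h2 : ∀ u ∈ (Bx (Fin (k + 1)) X).filter (fun u => 1 ≤ nu u),
      (((Bx (Fin (d - k + 1)) (X / nu u)).image fun v => pv u * pv v).card : ℝ)
      ≤ (3 * (X : ℝ)) ^ d * ∏ i, (1 / (max 1 |((u i : ℤ) : ℝ)|)) := by
    intro u hu
    rw [Finset.mem_filter, mem_Bx] at hu
    obtain ⟨hu1, hu2⟩ := hu
    have hnuX : nu u ≤ X := by
      apply Finset.sup_le
      intro i _
      have := hu1 i
      rw [Int.abs_eq_natAbs] at this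
      exact_mod_cast this
    obtain ⟨ν, hν⟩ : ∃ ν : ℝ, ν = (nu u : ℝ) := ⟨_, rfl⟩
    have hν1 : 1 ≤ ν := by rw [hν]; exact_mod_cast hu2
    have hνX : ν ≤ X := by rw [hν]; exact_mod_cast hnuX
    have e1 : (((Bx (Fin (d - k + 1)) (X / nu u)).image fun v => pv u * pv v).card : ℝ)
        ≤ (3 * X / ν) ^ (d - k + 1) := by
      have h3 := Finset.card_image_le (s := Bx (Fin (d - k + 1)) (X / nu u))
        (f := fun v => pv u * pv v)
      rw [card_Bx, Fintype.card_fin] at h3
      have h4 : (((Bx (Fin (d - k + 1)) (X / nu u)).image fun v => pv u * pv v).card : ℝ)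
          ≤ (2 * ((X / nu u : ℕ) : ℝ) + 1) ^ (d - k + 1) := by exact_mod_cast h3
      refine h4.trans ?_
      apply pow_le_pow_left₀ (by positivity)
      have h5 : ((X / nu u : ℕ) : ℝ) ≤ X / ν := by rw [hν]; exact Nat.cast_div_le
      have h6 : 1 ≤ X / ν := by rw [le_div_iff₀ (by linarith)]; linarith
      have h7 : 3 * X / ν = 3 * (X / ν) := by ring
      rw [h7]; linarith
    have e2 : (3 * X / ν) ^ (d - k + 1) ≤ (3 * (X : ℝ)) ^ d * (1 / ν ^ (k + 1)) := by
      rw [div_pow, mul_one_div]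
      apply div_le_div₀ (by positivity) _ (by positivity)
      · exact pow_le_pow_right₀ hν1 (by omega)
      · exact pow_le_pow_right₀ (by linarith) (by omega)
    have e3 : 1 / ν ^ (k + 1) ≤ ∏ i, (1 / (max 1 |((u i : ℤ) : ℝ)|)) := by
      have h3 : ∏ i : Fin (k + 1), (1 / ν) = 1 / ν ^ (k + 1) := by
        rw [Finset.prod_const, Finset.card_univ, Fintype.card_fin, one_div, one_div, inv_pow]
      rw [← h3]
      apply Finset.prod_le_prod
      · intro i _; positivity
      · intro i _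
        apply one_div_le_one_div_of_le (by positivity)
        apply max_le hν1
        rw [hν]
        have : (u i).natAbs ≤ nu u :=
          Finset.le_sup (f := fun i => (u i).natAbs) (Finset.mem_univ i)
        have h4 : (((u i).natAbs : ℕ) : ℝ) ≤ ((nu u : ℕ) : ℝ) := by exact_mod_cast this
        rw [Nat.cast_natAbs, Int.cast_abs] at h4
        exact h4
    exact e1.trans (e2.trans (mul_le_mul_of_nonneg_left e3 (by positivity)))
  refine h1.trans ((Finset.sum_le_sum h2).trans ?_)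
  rw [← Finset.mul_sum]
  apply mul_le_mul_of_nonneg_left _ (by positivity)
  have h3 : ∑ u ∈ (Bx (Fin (k + 1)) X).filter (fun u => 1 ≤ nu u),
      ∏ i, (1 / (max 1 |((u i : ℤ) : ℝ)|)) ≤ ∑ u ∈ Bx (Fin (k + 1)) X,
      ∏ i, (1 / (max 1 |((u i : ℤ) : ℝ)|)) := by
    apply Finset.sum_le_sum_of_subset_of_nonneg (Finset.filter_subset _ _)
    intro u _ _
    apply Finset.prod_nonneg
    intro i _; positivity
  refine h3.trans (le_of_eq ?_)
  have h4 := Finset.prod_univ_sum (fun _ : Fin (k + 1) => Icc (-(X : ℤ)) X)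
    (fun _ n => 1 / (max 1 |(n : ℝ)|))
  rw [Finset.prod_const, Finset.card_univ, Fintype.card_fin] at h4
  rw [hs2, h4, Bx]

lemma hs2_le (X : ℕ) (hX : 1 ≤ X) : hs2 X ≤ 3 + 2 * Real.log X := by
  have h1 : hs2 X = 1 + 2 * ∑ n ∈ Finset.Icc 1 X, 1 / (n : ℝ) := by
    have hsplit : Icc (-(X : ℤ)) X = (Finset.Icc 1 X).image (fun n : ℕ => (n : ℤ)) ∪
        ((Finset.Icc 1 X).image (fun n : ℕ => -(n : ℤ)) ∪ {0}) := by
      ext z
      simp only [Finset.mem_Icc, Finset.mem_union, Finset.mem_image, Finset.mem_singleton]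
      constructor
      · intro hz
        rcases lt_trichotomy z 0 with h | h | h
        · right; left
          exact ⟨z.natAbs, by omega, by omega⟩
        · right; right; exact h
        · left
          exact ⟨z.natAbs, by omega, by omega⟩
      · rintro (⟨n, hn, rfl⟩ | ⟨n, hn, rfl⟩ | rfl) <;> omega
    rw [hs2, hsplit, Finset.sum_union, Finset.sum_union, Finset.sum_image, Finset.sum_image,
      Finset.sum_singleton]
    · have e1 : ∀ n ∈ Finset.Icc 1 X, 1 / (max 1 |(((n : ℕ) : ℤ) : ℝ)|) = 1 / (n : ℝ) := by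
        intro n hn
        rw [Finset.mem_Icc] at hn
        have h2 : (1 : ℝ) ≤ n := by exact_mod_cast hn.1
        congr 1
        push_cast
        rw [Nat.abs_cast]
        exact max_eq_right h2
      have e2 : ∀ n ∈ Finset.Icc 1 X, 1 / (max 1 |((-((n : ℕ) : ℤ) : ℤ) : ℝ)|) = 1 / (n : ℝ) := by
        intro n hn
        rw [← e1 n hn]
        push_cast
        rw [abs_neg]
      rw [Finset.sum_congr rfl e1, Finset.sum_congr rfl e2]
      simp
      ring
    · intro a _ b _ hab; simp only at hab; omega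
    · intro a _ b _ hab; simp only at hab; omega
    · rw [Finset.disjoint_singleton_right, Finset.mem_image]
      rintro ⟨n, hn, h⟩
      rw [Finset.mem_Icc] at hn; omega
    · rw [Finset.disjoint_left]
      intro z hz hz'
      simp only [Finset.mem_union, Finset.mem_image, Finset.mem_singleton, Finset.mem_Icc] at hz hz'
      obtain ⟨n, hn, rfl⟩ := hz
      rcases hz' with ⟨m, hm, h⟩ | h <;> omega
  have h2 : ∑ n ∈ Finset.Icc 1 X, 1 / (n : ℝ) ≤ 1 + Real.log X := by
    have h3 := harmonic_le_one_add_log X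
    rw [harmonic_eq_sum_Icc] at h3
    push_cast at h3
    simpa [one_div] using h3
  rw [h1]; linarith

end Pool.Agent.H322R2
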