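import Pool.Agent.H322R2.Pts

/-!
The one-point argument (Runge) when the root at infinity has degree smaller than `d`.
-/

open Finset Matrix

namespace Pool.Agent.H322R2

section Siegel

attribute [local instance] Matrix.seminormedAddCommGroup

theorem siegel_gen {A : Type*} [CommRing A] {ι : Type*} [Fintype ι] (b : Module.Basis ι ℤ A)
    (N : RingSeminorm A) (C0 : ℝ) (hC0 : 1 ≤ C0)
    (hcoord : ∀ x i, |(b.repr x i : ℝ)| ≤ C0 * N x)
    {γ β : Type*} [Fintype γ] [Fintype β] (c : γ → β → A) (M : ℝ) (hM : 1 ≤ M)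
    (hc : ∀ g x, N (c g x) ≤ M) (e : ℕ)
    (hcard : (e + 1) * (Fintype.card γ * Fintype.card ι) ≤ e * Fintype.card β)
    (hpos : 0 < Fintype.card γ * Fintype.card ι) :
    ∃ t : β → ℤ, t ≠ 0 ∧ (∀ g, ∑ x, (t x) • c g x = 0) ∧
      ∀ x, |(t x : ℝ)| ≤ (Fintype.card β * (C0 * M)) ^ e := by
  classical
  set T : Matrix (γ × ι) β ℤ := Matrix.of fun p x => b.repr (c p.1 x) p.2 with hT
  have hcardα : Fintype.card (γ × ι) = Fintype.card γ * Fintype.card ι := Fintype.card_prod _ _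
  have hlt : Fintype.card (γ × ι) < Fintype.card β := by
    rw [hcardα]
    by_contra hcon
    push_neg at hcon
    have h1 : e * Fintype.card β ≤ e * (Fintype.card γ * Fintype.card ι) :=
      Nat.mul_le_mul_left _ hcon
    have h2 : (e + 1) * (Fintype.card γ * Fintype.card ι)
        = e * (Fintype.card γ * Fintype.card ι) + Fintype.card γ * Fintype.card ι := by ring
    omega
  obtain ⟨t, ht0, ht, hnorm⟩ := Int.Matrix.exists_ne_zero_int_vec_norm_le T hlt
    (by rw [hcardα]; exact hpos)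
  refine ⟨t, ht0, ?_, ?_⟩
  · intro g
    apply b.repr.injective
    ext i
    rw [map_sum, map_zero, Finsupp.finset_sum_apply, Finsupp.zero_apply]
    have h1 := congrFun ht (g, i)
    simp only [Matrix.mulVec, dotProduct, hT, Matrix.of_apply, Pi.zero_apply] at h1
    rw [← h1]
    apply Finset.sum_congr rfl
    intro x _
    rw [map_smul, Finsupp.smul_apply, smul_eq_mul, mul_comm]
  · intro x
    have hTn : ‖T‖ ≤ C0 * M := by
      rw [Matrix.norm_le_iff (by positivity)]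
      intro p x
      rw [hT, Matrix.of_apply, Int.norm_eq_abs]
      refine (hcoord _ _).trans ?_
      exact mul_le_mul_of_nonneg_left (hc _ _) (by linarith)
    have hCM : 1 ≤ C0 * M := by nlinarith
    have hmax : max 1 ‖T‖ ≤ C0 * M := max_le hCM hTn
    have h2 : |(t x : ℝ)| ≤ ‖t‖ := by
      have := norm_le_pi_norm t x
      rw [Int.norm_eq_abs] at this
      exact_mod_cast this
    refine h2.trans (hnorm.trans ?_)
    have hn1 : (1 : ℝ) ≤ Fintype.card β := by
      have : 0 < Fintype.card β := lt_of_le_of_lt (Nat.zero_le _) hlt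
      exact_mod_cast this
    have hb1 : (1 : ℝ) ≤ Fintype.card β * max 1 ‖T‖ := by
      have : (1 : ℝ) ≤ max 1 ‖T‖ := le_max_left _ _
      nlinarith
    have hexp : ((Fintype.card (γ × ι) : ℝ) / (Fintype.card β - Fintype.card (γ × ι))) ≤ e := by
      have h3 : (0 : ℝ) < Fintype.card β - Fintype.card (γ × ι) := by
        have : (Fintype.card (γ × ι) : ℝ) < Fintype.card β := by exact_mod_cast hlt
        linarith
      rw [div_le_iff₀ h3]
      have h4 : ((e : ℝ) + 1) * (Fintype.card (γ × ι)) ≤ e * Fintype.card β := by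
        rw [hcardα]; exact_mod_cast hcard
      linarith
    calc ((Fintype.card β : ℝ) * max 1 ‖T‖) ^ ((Fintype.card (γ × ι) : ℝ) /
            (Fintype.card β - Fintype.card (γ × ι)))
        ≤ ((Fintype.card β : ℝ) * max 1 ‖T‖) ^ (e : ℝ) :=
          Real.rpow_le_rpow_of_exponent_le hb1 hexp
      _ = ((Fintype.card β : ℝ) * max 1 ‖T‖) ^ e := Real.rpow_natCast _ _
      _ ≤ (Fintype.card β * (C0 * M)) ^ e := by
          apply pow_le_pow_left₀ (by linarith)
          exact mul_le_mul_of_nonneg_left hmax (by linarith)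

end Siegel

open Polynomial

/-- An integer point on `F = 0` lying on another curve with small coefficients is small. -/
lemma small_curve (F : ℤ[X][X]) (d : ℕ) (hd : 0 < d) (hm : F.Monic) (hFd : F.natDegree = d)
    (hF : Prime F) (a b : ℤ) (ha : a ≠ 0) (hab : ev a b F = 0) (V : ℤ[X][X]) (hV : V ≠ 0)
    (hVd : V.degree < d) (hG : ev a b V = 0) (H : ℝ) (hH : pn (pn zn) V ≤ H) :
    |(a : ℝ)| ≤ d.factorial * (H * (1 + pn (pn zn) F) ^ d) ^ d := by
  have hnd : ¬ F ∣ V := by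
    intro h
    have h1 := degree_le_of_dvd h hV
    rw [degree_eq_natDegree hm.ne_zero, hFd] at h1
    exact absurd hVd (not_lt.2 h1)
  have hVn : V.natDegree ≤ d := by
    have := (natDegree_lt_iff_degree_lt hV).2 hVd
    omega
  have h1 := nrm_ne_zero F d hm hFd hF V hnd
  have h2 := dvd_nrm (evf a) b F d hd hm hFd (by rw [← ev_apply]; exact hab) V
  rw [← ev_apply, hG] at h2
  have h3 : evf a (nrm F d V) = 0 := zero_dvd_iff.1 h2
  have h4 : (X - C a) ^ 1 ∣ nrm F d V := by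
    rw [pow_one, dvd_iff_isRoot, IsRoot]
    have : evf a = (Polynomial.evalRingHom a : ℤ[X] →+* ℤ) := by
      apply Polynomial.ringHom_ext'
      · exact RingHom.ext_int _ _
      · simp
    rw [this] at h3
    simpa using h3
  have h5 := abs_pow_le_of_dvd _ h1 a ha 1 h4
  rw [pow_one] at h5
  refine h5.trans ((nrm_le (pn zn) pnz_one F d V d hVn).trans ?_)
  apply mul_le_mul_of_nonneg_left _ (by positivity)
  have h6 : 0 ≤ pn (pn zn) F := apply_nonneg _ _
  apply pow_le_pow_left₀ (mul_nonneg (apply_nonneg _ _) (by positivity))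
  exact mul_le_mul_of_nonneg_right hH (by positivity)

section Runge

variable {A : Type*} [CommRing A] {N : RingSeminorm A} {σ : A →+* ℝ} {d : ℕ} {B : ℝ}
    {F : ℤ[X][X]} {a b : ℤ}

/-- size of the auxiliary polynomial -/
noncomputable def rH (d : ℕ) (C0 B : ℝ) : ℝ :=
  ((d * (2 * d ^ 2) : ℕ) * (C0 * B ^ (2 * d ^ 2 + 2 * d + 1))) ^ (2 * d)

theorem runge_core (h1 : N 1 ≤ 1) (hσ : ∀ x, |σ x| ≤ N x)
    {ι : Type*} [Fintype ι] (bas : Module.Basis ι ℤ A)
    (C0 : ℝ) (hC0 : 1 ≤ C0) (hcoord : ∀ x i, |(bas.repr x i : ℝ)| ≤ C0 * N x)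
    (P : BP N σ d B F a b) (hm : F.Monic) (hFd : F.natDegree = d) (hF : Prime F)
    (hk : 0 < Fintype.card ι) (hkd : Fintype.card ι < d) :
    |(a : ℝ)| ≤ d.factorial * ((B ^ (4 * d ^ 2 + 3 * d + 2) * ((d * (2 * d ^ 2) : ℕ) * rH d C0 B)) *
      (1 + B) ^ d) ^ d := by
  have hB := P.hB
  have hB1 : 1 ≤ B := by linarith
  have hd1 : 1 ≤ d := by omega
  have ha0 := P.a_pos
  obtain ⟨k, hkdef⟩ : ∃ k, k = Fintype.card ι := ⟨_, rfl⟩
  rw [← hkdef] at hk hkd
  obtain ⟨ν, hν⟩ : ∃ ν, ν = 2 * d ^ 2 := ⟨_, rfl⟩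
  obtain ⟨m, hmdef⟩ : ∃ m, m = d + ν := ⟨_, rfl⟩
  have hνpos : 0 < ν := by rw [hν]; positivity
  obtain ⟨T, hT0, hT, hTn⟩ := siegel_gen bas N C0 hC0 hcoord
    (γ := Fin (m + 1)) (β := Fin d × Fin ν)
    (fun i s => PowerSeries.coeff (i : ℕ) (mono1 P m s.2 s.1))
    (B ^ (2 * d ^ 2 + 2 * d + 1)) (one_le_pow₀ hB1)
    (by
      intro i s
      refine (coeffN_le P.B_pos P.hρB (bd_mono1 h1 P _ _ _) _).trans ?_
      rw [← pow_add]
      apply pow_le_pow_right₀ hB1
      have := s.1.2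
      have := i.2
      omega) (2 * d)
    (by
      rw [← hkdef]
      simp only [Fintype.card_fin, Fintype.card_prod]
      obtain ⟨e, he⟩ : ∃ e, d = e + 1 := ⟨d - 1, by omega⟩
      have hke : k ≤ e := by omega
      calc (2 * d + 1) * ((m + 1) * k) ≤ (2 * d + 1) * ((m + 1) * e) := by
            apply Nat.mul_le_mul_left
            exact Nat.mul_le_mul_left _ hke
        _ ≤ 2 * d * (d * ν) := by
            rw [hmdef, hν, he]
            nlinarith)
    (by
      rw [← hkdef]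
      simp only [Fintype.card_fin]
      positivity)
  simp only [Fintype.card_prod, Fintype.card_fin] at hTn
  obtain ⟨HT, hHT⟩ : ∃ HT, HT = rH d C0 B := ⟨_, rfl⟩
  have hTn' : ∀ s, |(T s : ℝ)| ≤ HT := by
    intro s
    have h3 := hTn s
    rw [hν] at h3
    rw [hHT, rH]
    exact h3
  have hdν : (1 : ℝ) ≤ ((d * ν : ℕ) : ℝ) := by
    have : 1 ≤ d * ν := Nat.mul_pos hd1 hνpos
    exact_mod_cast this
  have hHT1 : 1 ≤ HT := by
    rw [hHT, rH, ← hν]
    apply one_le_pow₀
    exact one_le_mul_of_one_le_of_one_le hdν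
      (one_le_mul_of_one_le_of_one_le hC0 (one_le_pow₀ hB1))
  -- the value at the point
  have hval := sb_Ust h1 hσ P m T (by omega)
  have hval' := congrArg PowerSeries.constantCoeff hval
  have hcx : PowerSeries.constantCoeff (PowerSeries.C (a : ℝ) + PowerSeries.X : PowerSeries ℝ)
      = (a : ℝ) := by simp
  rw [map_ev, P.hy, map_mul, map_pow, hcx] at hval'
  have hV : ((ev a b (boxPoly T) : ℤ) : ℝ) = (a : ℝ) ^ m *
      PowerSeries.constantCoeff (sb P.θ (PowerSeries.map σ (Ust P m T))) := by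
    rw [← hval']
    have h3 := map_ev (Int.castRingHom ℝ) a b (boxPoly T)
    simp only [eq_intCast] at h3
    exact h3
  have hUbd := bd_Ust h1 P m T HT (by linarith) hTn'
  have hvan : ∀ i < m + 1, PowerSeries.coeff i (Ust P m T) = 0 := by
    intro i hi
    have h3 := hT ⟨i, hi⟩
    rw [Ust, map_sum, ← h3]
    apply Finset.sum_congr rfl
    intro s _
    rw [PowerSeries.coeff_C_mul, zsmul_eq_mul]
  have hU2 := (hUbd.of_vanish P.ρ_pos P.q_nonneg P.rad_le (m + 1) hvan).map σ hσ P.q_nonneg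
  have hU3 := sb_coeff_le P.r_pos P.hθ hU2 0
  rw [pow_zero, div_one, PowerSeries.coeff_zero_eq_constantCoeff_apply] at hU3
  have hratio : B / |(a : ℝ)| / P.ρ ≤ B ^ 2 / |(a : ℝ)| := by
    rw [div_div, div_le_div_iff₀ (mul_pos ha0 P.ρ_pos) ha0]
    have h3 : 1 ≤ B * P.ρ := by
      have := P.hρB
      rw [div_le_iff₀ P.B_pos] at this
      linarith
    calc B * |(a : ℝ)| = B * |(a : ℝ)| * 1 := by ring
      _ ≤ B * |(a : ℝ)| * (B * P.ρ) := mul_le_mul_of_nonneg_left h3 (by positivity)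
      _ = _ := by ring
  have hsize : |((ev a b (boxPoly T) : ℤ) : ℝ)| * |(a : ℝ)|
      ≤ B ^ (2 * (m + 1)) * (d * ν * (HT * B ^ d)) := by
    rw [hV, abs_mul, abs_pow]
    calc |(a : ℝ)| ^ m * |PowerSeries.constantCoeff (sb P.θ (PowerSeries.map σ (Ust P m T)))|
            * |(a : ℝ)|
        ≤ |(a : ℝ)| ^ m * ((B ^ 2 / |(a : ℝ)|) ^ (m + 1) * (d * ν * (HT * B ^ d)))
            * |(a : ℝ)| := by
          apply mul_le_mul_of_nonneg_right _ ha0.le
          apply mul_le_mul_of_nonneg_left _ (by positivity)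
          refine hU3.trans ?_
          apply mul_le_mul_of_nonneg_right _ (by positivity)
          exact pow_le_pow_left₀ (div_nonneg P.q_nonneg P.ρ_pos.le) hratio _
      _ = _ := by
          rw [div_pow, ← pow_mul, pow_succ |(a : ℝ)| m]
          field_simp
  obtain ⟨Q, hQ⟩ : ∃ Q, Q = B ^ (4 * d ^ 2 + 3 * d + 2) * ((d * ν : ℕ) * HT) := ⟨_, rfl⟩
  have hQ1 : 1 ≤ Q := by
    rw [hQ]
    exact one_le_mul_of_one_le_of_one_le (one_le_pow₀ hB1)
      (one_le_mul_of_one_le_of_one_le hdν hHT1)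
  have hbase1 : 1 ≤ (1 + B) ^ d := one_le_pow₀ (by linarith)
  have hfact : (1 : ℝ) ≤ d.factorial := by exact_mod_cast Nat.factorial_pos d
  have hQb : Q ≤ d.factorial * (Q * (1 + B) ^ d) ^ d := by
    have e1 : Q ≤ Q * (1 + B) ^ d := le_mul_of_one_le_right (by linarith) hbase1
    have e2 : Q * (1 + B) ^ d ≤ (Q * (1 + B) ^ d) ^ d := by
      calc Q * (1 + B) ^ d = (Q * (1 + B) ^ d) ^ 1 := by rw [pow_one]
        _ ≤ _ := pow_le_pow_right₀ (by linarith) hd1
    have e3 : (Q * (1 + B) ^ d) ^ d ≤ d.factorial * (Q * (1 + B) ^ d) ^ d :=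
      le_mul_of_one_le_left (by positivity) hfact
    linarith
  rw [← hHT, ← hν, ← hQ]
  by_cases hz : ev a b (boxPoly T) = 0
  · have hV0 : boxPoly T ≠ 0 := by
      rw [Ne, boxPoly_eq_zero_iff]; exact hT0
    have h3 := small_curve F d hd1 hm hFd hF a b P.a_ne P.hev (boxPoly T) hV0
      (degree_boxPoly T hd1) hz (d * ν * HT) (pn_boxPoly_le T HT hTn')
    refine h3.trans ?_
    apply mul_le_mul_of_nonneg_left _ (by positivity)
    have h6 : 0 ≤ pn (pn zn) F := apply_nonneg _ _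
    apply pow_le_pow_left₀ (by positivity)
    apply mul_le_mul _ _ (by positivity) (by linarith)
    · rw [hQ]
      push_cast
      exact le_mul_of_one_le_left (by positivity) (one_le_pow₀ hB1)
    · exact pow_le_pow_left₀ (by positivity) (by have := P.hFn; linarith) _
  · have h3 : (1 : ℝ) ≤ |((ev a b (boxPoly T) : ℤ) : ℝ)| := by
      have : 1 ≤ |ev a b (boxPoly T)| := Int.one_le_abs hz
      exact_mod_cast this
    have h4 : |(a : ℝ)| ≤ B ^ (2 * (m + 1)) * (d * ν * (HT * B ^ d)) := by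
      refine le_trans ?_ hsize
      exact le_mul_of_one_le_left ha0.le h3
    refine h4.trans (le_trans (le_of_eq ?_) hQb)
    rw [hQ]
    push_cast
    have : 4 * d ^ 2 + 3 * d + 2 = 2 * (m + 1) + d := by rw [hmdef, hν]; ring
    rw [this, pow_add]
    ring

lemma runge_num {d : ℕ} {C0 B : ℝ} (hd : 0 < d) (hC0 : 1 ≤ C0) (hB : 2 ≤ B) :
    d.factorial * ((B ^ (4 * d ^ 2 + 3 * d + 2) * ((d * (2 * d ^ 2) : ℕ) * rH d C0 B)) *
      (1 + B) ^ d) ^ d ≤ (C0 * B) ^ (34 * d ^ 4) := by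
  obtain ⟨x, hx⟩ : ∃ x, x = C0 * B := ⟨_, rfl⟩
  have hx2 : 2 ≤ x := by rw [hx]; nlinarith
  have hx1 : 1 ≤ x := by linarith
  have hBx : B ≤ x := by rw [hx]; exact le_mul_of_one_le_left (by linarith) hC0
  have h2d : (d : ℝ) ≤ x ^ d := by
    have h1 : (d : ℝ) ≤ 2 ^ d := by exact_mod_cast Nat.lt_two_pow_self.le
    exact h1.trans (pow_le_pow_left₀ (by norm_num) hx2 _)
  have hfac : (d.factorial : ℝ) ≤ x ^ (d ^ 2) := by
    have h1 : (d.factorial : ℝ) ≤ (d : ℝ) ^ d := by exact_mod_cast Nat.factorial_le_pow d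
    refine h1.trans ?_
    rw [sq, pow_mul]
    exact pow_le_pow_left₀ (by positivity) h2d _
  have hdd : ((d * (2 * d ^ 2) : ℕ) : ℝ) ≤ x ^ (3 * d + 1) := by
    push_cast
    calc (d : ℝ) * (2 * (d : ℝ) ^ 2) = (d : ℝ) ^ 3 * 2 := by ring
      _ ≤ (x ^ d) ^ 3 * x := by
          apply mul_le_mul (pow_le_pow_left₀ (by positivity) h2d _) hx2 (by norm_num)
            (by positivity)
      _ = _ := by rw [← pow_mul, pow_succ, mul_comm d 3]
  have hCB : C0 * B ^ (2 * d ^ 2 + 2 * d + 1) ≤ x ^ (2 * d ^ 2 + 2 * d + 1) := by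
    rw [hx, mul_pow]
    apply mul_le_mul_of_nonneg_right _ (by positivity)
    calc C0 = C0 ^ 1 := by rw [pow_one]
      _ ≤ _ := pow_le_pow_right₀ hC0 (by omega)
  have hrH : rH d C0 B ≤ x ^ (4 * d ^ 3 + 10 * d ^ 2 + 4 * d) := by
    unfold rH
    calc _ ≤ (x ^ (3 * d + 1) * x ^ (2 * d ^ 2 + 2 * d + 1)) ^ (2 * d) := by
          apply pow_le_pow_left₀ (by positivity)
          exact mul_le_mul hdd hCB (by positivity) (by positivity)
      _ = _ := by
          rw [← pow_add, ← pow_mul]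
          congr 1; ring
  have hrH0 : 0 ≤ rH d C0 B := by unfold rH; positivity
  have h1B : (1 + B) ^ d ≤ x ^ (2 * d) := by
    rw [pow_mul]
    apply pow_le_pow_left₀ (by linarith)
    nlinarith
  rw [← hx]
  calc _ ≤ x ^ (d ^ 2) * ((x ^ (4 * d ^ 2 + 3 * d + 2) *
      (x ^ (3 * d + 1) * x ^ (4 * d ^ 3 + 10 * d ^ 2 + 4 * d))) * x ^ (2 * d)) ^ d := by
        apply mul_le_mul hfac _ (by positivity) (by positivity)
        apply pow_le_pow_left₀ (by positivity)
        apply mul_le_mul _ h1B (by positivity) (by positivity)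
        apply mul_le_mul (pow_le_pow_left₀ (by linarith) hBx _) _ (by positivity) (by positivity)
        exact mul_le_mul hdd hrH hrH0 (by positivity)
    _ = x ^ (4 * d ^ 4 + 14 * d ^ 3 + 13 * d ^ 2 + 3 * d) := by
        rw [← pow_add, ← pow_add, ← pow_add, ← pow_mul, ← pow_add]
        congr 1; ring
    _ ≤ _ := by
        apply pow_le_pow_right₀ hx1
        have h3 : d ≤ d ^ 4 := Nat.le_self_pow (by norm_num) d
        have h4 : d ^ 2 ≤ d ^ 4 := Nat.pow_le_pow_right hd (by norm_num)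
        have h5 : d ^ 3 ≤ d ^ 4 := Nat.pow_le_pow_right hd (by norm_num)
        omega

theorem runge_bound (h1 : N 1 ≤ 1) (hσ : ∀ x, |σ x| ≤ N x)
    {ι : Type*} [Fintype ι] (bas : Module.Basis ι ℤ A)
    (C0 : ℝ) (hC0 : 1 ≤ C0) (hcoord : ∀ x i, |(bas.repr x i : ℝ)| ≤ C0 * N x)
    (P : BP N σ d B F a b) (hm : F.Monic) (hFd : F.natDegree = d) (hF : Prime F)
    (hk : 0 < Fintype.card ι) (hkd : Fintype.card ι < d) :
    |(a : ℝ)| ≤ (C0 * B) ^ (34 * d ^ 4) :=
  (runge_core h1 hσ bas C0 hC0 hcoord P hm hFd hF hk hkd).trans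
    (runge_num (by omega) hC0 P.hB)

end Runge

end Pool.Agent.H322R2
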