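import Pool.Agent.H322R2.FMir

/-!
Counting along the constant coefficient.
-/

open Polynomial Finset

namespace Pool.Agent.H322R2

variable {d : ℕ}

lemma ev_update0 (c : ↥(Ix d) → ℤ) (v a b : ℤ) :
    ev a b (PG (Function.update c (ix0 d) v)) = ev a b (PG c) + (v - c (ix0 d)) := by
  rw [ev_update]
  simp [ix0]

open Classical in
lemma sec_count {H : ℕ} (Q : (↥(Ix d) → ℤ) → Prop) (P : ℤ × ℤ → Prop) (N : ℕ)
    (hQ : ∀ c ∈ Bx ↥(Ix d) H, Q c → ∀ t ∈ Icc (-(H : ℤ)) H, Q (Function.update c (ix0 d) t))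
    (hN : ∀ c ∈ Bx ↥(Ix d) H, Q c → ∀ T : Finset (ℤ × ℤ), (∀ p ∈ T, P p ∧
      ∃ t ∈ Icc (-(H : ℤ)) H, ev p.1 p.2 (PG (Function.update c (ix0 d) t)) = 0) → T.card ≤ N) :
    (((Bx ↥(Ix d) H).filter (fun c => Q c ∧ ∃ p, P p ∧ ev p.1 p.2 (PG c) = 0)).card : ℝ)
      * (2 * H + 1) ≤ N * (Bx ↥(Ix d) H).card := by
  obtain ⟨S, hS⟩ : ∃ S, S = (Bx ↥(Ix d) H).filter
    (fun c => Q c ∧ ∃ p, P p ∧ ev p.1 p.2 (PG c) = 0) := ⟨_, rfl⟩
  rw [← hS]
  have hmain := rel_count (H := H) (ix0 d) S ((Bx ↥(Ix d) H).filter Q)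
    (by rw [hS]; exact Finset.filter_subset _ _)
    (by
      intro c hc t ht
      rw [hS, Finset.mem_filter] at hc
      rw [Finset.mem_filter]
      exact ⟨update_mem_Bx hc.1 _ ht, hQ c hc.1 hc.2.1 t ht⟩) N (by
      intro c hc
      rw [Finset.mem_filter] at hc
      obtain ⟨F, hF⟩ : ∃ F, F = (Icc (-(H : ℤ)) H).filter
        (fun t => Function.update c (ix0 d) t ∈ S) := ⟨_, rfl⟩
      rw [← hF]
      have hsel : ∀ t ∈ F, ∃ p : ℤ × ℤ, P p ∧ ev p.1 p.2 (PG (Function.update c (ix0 d) t)) = 0 := by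
        intro t ht
        rw [hF, Finset.mem_filter, hS, Finset.mem_filter] at ht
        exact ht.2.2.2
      choose! f hf1 hf2 using hsel
      have hinj : Set.InjOn f F := by
        intro t ht t' ht' htt
        have e1 := hf2 t ht
        have e2 := hf2 t' ht'
        rw [htt, ev_update0] at e1
        rw [ev_update0] at e2
        omega
      have h1 : (F.image f).card = F.card := Finset.card_image_of_injOn hinj
      have h2 := hN c hc.1 hc.2 (F.image f) (by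
        intro p hp
        rw [Finset.mem_image] at hp
        obtain ⟨t, ht, rfl⟩ := hp
        refine ⟨hf1 t ht, t, ?_, hf2 t ht⟩
        rw [hF, Finset.mem_filter] at ht
        exact ht.1)
      rw [h1] at h2
      exact_mod_cast h2)
  refine hmain.trans ?_
  apply mul_le_mul_of_nonneg_left _ (Nat.cast_nonneg _)
  exact_mod_cast Finset.card_filter_le _ _

open Classical in
lemma cnt_small {H : ℕ} (m : ℕ) :
    (((Bx ↥(Ix d) H).filter (fun c => ∃ p : ℤ × ℤ, (|p.1| ≤ m ∧ |p.2| ≤ m) ∧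
      ev p.1 p.2 (PG c) = 0)).card : ℝ) * (2 * H + 1) ≤ (2 * m + 1) ^ 2 * (Bx ↥(Ix d) H).card := by
  have h := sec_count (d := d) (H := H) (fun _ => True) (fun p => |p.1| ≤ m ∧ |p.2| ≤ m)
    ((2 * m + 1) ^ 2) (fun _ _ _ _ _ => trivial) (by
    intro c _ _ T hT
    have hsub : T ⊆ Icc (-(m : ℤ)) m ×ˢ Icc (-(m : ℤ)) m := by
      intro p hp
      obtain ⟨⟨h1, h2⟩, -⟩ := hT p hp
      rw [Finset.mem_product, Finset.mem_Icc, Finset.mem_Icc]
      exact ⟨abs_le.1 h1, abs_le.1 h2⟩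
    have h1 := Finset.card_le_card hsub
    rw [Finset.card_product, card_Icc_H] at h1
    rw [sq]; exact h1)
  simp only [true_and] at h
  push_cast at h
  exact h

lemma Typ_update {H : ℕ} {y : ℝ} (hd : 4 ≤ d) (c : ↥(Ix d) → ℤ) (v : ℤ) (h : Typ H y c) :
    Typ H y (Function.update c (ix0 d) v) := by
  obtain ⟨h2, h3, h4⟩ := h
  have hff := ff_update0 (show 1 ≤ d by omega) c v
  have hl1 : lead (d - 1) (PG (Function.update c (ix0 d) v)) = lead (d - 1) (PG c) :=
    lead_update_of_ne _ _ _ _ (by simp only [ix0]; omega)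
  have hl2 : lead (d - 2) (PG (Function.update c (ix0 d) v)) = lead (d - 2) (PG c) :=
    lead_update_of_ne _ _ _ _ (by simp only [ix0]; omega)
  refine ⟨?_, ?_, ?_⟩
  · intro t ht
    rw [hff]
    exact h2 t ht
  · intro t ht h0
    rw [hff] at h0
    exact h3 t ht h0
  · intro t ht h0
    rw [gp_eq, hff, hl1, hl2, ← gp_eq]
    rw [hff] at h0
    exact h4 t ht h0

open Classical in
lemma cnt_mid (hd : 4 ≤ d) {H : ℕ} {y : ℝ} (hyK : K0 d ≤ y) (hyH : y ^ 2 ≤ H) (n : ℕ) :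
    (((Bx ↥(Ix d) H).filter (fun c => Typ H y c ∧ ∃ p : ℤ × ℤ, (|(p.2 : ℝ)| ≤ |(p.1 : ℝ)| ∧
      y ^ (k0 d) ≤ |(p.1 : ℝ)| ∧ |(p.1 : ℝ)| ≤ y ^ (k0 d) * y ^ (n + 1)) ∧
      ev p.1 p.2 (PG c) = 0)).card : ℝ) * (2 * H + 1)
      ≤ ((4 * (n + 1) * d : ℕ) : ℝ) * (Bx ↥(Ix d) H).card := by
  apply sec_count (d := d) (H := H) (Typ H y) (fun p => |(p.2 : ℝ)| ≤ |(p.1 : ℝ)| ∧
      y ^ (k0 d) ≤ |(p.1 : ℝ)| ∧ |(p.1 : ℝ)| ≤ y ^ (k0 d) * y ^ (n + 1))
  · intro c _ hc t _
    exact Typ_update hd c t hc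
  · intro c hc hty T hT
    apply mid_count hd hyK hyH hc hty n T
    intro p hp
    obtain ⟨⟨h1, h2, h3⟩, h4⟩ := hT p hp
    exact ⟨h1, h2, h3, h4⟩

lemma Typ_sw_update {H : ℕ} {y : ℝ} (hd : 4 ≤ d) (c : ↥(Ix d) → ℤ) (v : ℤ) (h : Typ H y (sw c)) :
    Typ H y (sw (Function.update c (ix0 d) v)) := by
  have h1 : sw (Function.update c (ix0 d) v) = Function.update (sw c) (ix0 d) v := by
    ext p
    by_cases hp : p = ix0 d
    · rw [hp, Function.update_self]
      show Function.update c (ix0 d) v (ix0 d) = v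
      rw [Function.update_self]
    · rw [Function.update_of_ne hp]
      show Function.update c (ix0 d) v _ = c _
      rw [Function.update_of_ne]
      intro h0
      apply hp
      have h1 := congrArg Subtype.val h0
      simp only [ix0, Prod.mk.injEq] at h1
      apply Subtype.ext
      exact Prod.ext h1.2 h1.1
  rw [h1]
  exact Typ_update hd _ _ h

open Classical in
lemma cnt_large (hd : 4 ≤ d) {H : ℕ} {y : ℝ} (hy : 0 < y) :
    (((Bx ↥(Ix d) H).filter (fun c => (Typ H y c ∧ Typ H y (sw c) ∧ (ff c).natDegree = d ∧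
      Irreducible ((ff c).map (Int.castRingHom ℚ))) ∧ ∃ p : ℤ × ℤ,
      (((d + 1) * ((Ix d).card * H)) ^ (kC d) < max p.2.natAbs p.1.natAbs) ∧
      ev p.1 p.2 (PG c) = 0)).card : ℝ) * (2 * H + 1)
      ≤ (kN d : ℕ) * (Bx ↥(Ix d) H).card := by
  refine le_trans (le_of_eq ?_) (sec_count (d := d) (H := H)
      (fun c => Typ H y c ∧ Typ H y (sw c) ∧ (ff c).natDegree = d ∧
      Irreducible ((ff c).map (Int.castRingHom ℚ)))
      (fun p => ((d + 1) * ((Ix d).card * H)) ^ (kC d) < max p.2.natAbs p.1.natAbs) (kN d) ?_ ?_)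
  · congr!
  · intro c _ hc t _
    rw [ff_update0 (by omega)]
    exact ⟨Typ_update hd c t hc.1, Typ_sw_update hd c t hc.2.1, hc.2.2⟩
  · rintro c hc ⟨hty, hty', hfd, hirr⟩ T hT
    have htd := totalDegree_FM (by omega) hfd
    have hcard : 2 ≤ (Ix d).card := by
      rw [card_Ix]
      have : 5 * 6 ≤ (d + 1) * (d + 2) := Nat.mul_le_mul (by omega) (by omega)
      omega
    have hm := main3 (FM c) ((Ix d).card * H) (by rw [htd]; exact hd)
      (irr_FM (by omega) hfd hirr) (by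
        intro p q hq
        rw [htd]
        exact lines_of_typ (by omega) hy hty.2.2 hty'.2.2 p q hq) (len_FM hc)
    rw [htd] at hm
    have hsel : ∀ p ∈ T, ∃ t ∈ Icc (-(H : ℤ)) H, ev p.1 p.2 (PG (Function.update c (ix0 d) t)) = 0 :=
      fun p hp => (hT p hp).2
    choose! f hf1 hf2 using hsel
    obtain ⟨φ, hφ⟩ : ∃ φ : ℤ × ℤ → MvPolynomial (Fin 2) ℤ × ℤ × ℤ,
      φ = fun p => (MvPolynomial.C (f p - c (ix0 d)), p.2, p.1) := ⟨_, rfl⟩
    have hinj : Set.InjOn φ T := by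
      intro p _ q _ hpq
      rw [hφ] at hpq
      simp only [Prod.mk.injEq] at hpq
      exact Prod.ext hpq.2.2 hpq.2.1
    have h1 : ((T.image φ : Finset _) : Set (MvPolynomial (Fin 2) ℤ × ℤ × ℤ)) ⊆
      {t : MvPolynomial (Fin 2) ℤ × ℤ × ℤ | t.1.totalDegree + 4 ≤ d ∧
      len t.1 ≤ (Ix d).card * H ∧ MvPolynomial.eval ![t.2.1, t.2.2] (FM c + t.1) = 0 ∧
      ((d + 1) * ((Ix d).card * H)) ^ (kC d) < max t.2.1.natAbs t.2.2.natAbs} := by
      intro q hq
      rw [Finset.mem_coe, Finset.mem_image] at hq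
      obtain ⟨p, hp, rfl⟩ := hq
      rw [hφ]
      simp only [Set.mem_setOf_eq]
      refine ⟨?_, ?_, ?_, (hT p hp).1⟩
      · rw [MvPolynomial.totalDegree_C]; omega
      · have h2 : len (MvPolynomial.C (f p - c (ix0 d))) ≤ (f p - c (ix0 d)).natAbs := by
          rw [len_eq_sum (s := {0})]
          · rw [Finset.sum_singleton, MvPolynomial.coeff_zero_C]
          · exact MvPolynomial.support_monomial_subset
        refine h2.trans ?_
        have h3 := hf1 p hp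
        rw [Finset.mem_Icc] at h3
        have h4 := mem_Bx.1 hc (ix0 d)
        rw [abs_le] at h4
        have h5 : (f p - c (ix0 d)).natAbs ≤ 2 * H := by omega
        exact h5.trans (Nat.mul_le_mul_right _ hcard)
      · rw [← FM_update0]
        have h2 := ev_FM (S := ℤ) p.2 p.1 (Function.update c (ix0 d) (f p))
        rw [hf2 p hp] at h2
        rw [← h2]
        rw [MvPolynomial.eval, MvPolynomial.coe_eval₂Hom]
        congr 1
    have h2 : (T.card : ℕ∞) ≤ (kN d : ℕ) := by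
      rw [← Finset.card_image_of_injOn hinj, ← Set.encard_coe_eq_coe_finsetCard]
      exact (Set.encard_le_encard h1).trans hm
    exact_mod_cast h2

end Pool.Agent.H322R2
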