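import Pool.Agent.H322R2.MidG

/-!
Counting points along directions.
-/

open Polynomial Finset

namespace Pool.Agent.H322R2

variable {d : ℕ}

lemma TD_PG_iff (k : ℕ) (v : ↥(Ix d) → ℤ) : TD k (PG v) ↔ ∀ j i, k < j + i → cf v j i = 0 := by
  constructor
  · intro h j i hij
    rw [← coeff_PG]
    exact coeff_zero_of_TD h hij
  · intro h
    constructor
    · rw [natDegree_le_iff_coeff_eq_zero]
      intro j hj
      ext i
      rw [coeff_PG, h j i (by omega), coeff_zero]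
    · intro j
      rw [natDegree_le_iff_coeff_eq_zero]
      intro i hi
      rw [coeff_PG]
      exact h j i (by omega)

lemma cf_sw (v : ↥(Ix d) → ℤ) (j i : ℕ) : cf (sw v) j i = cf v i j := by
  rw [cf, cf]
  by_cases h : (j, i) ∈ Ix d
  · have h' : (i, j) ∈ Ix d := by
      rw [mem_Ix] at h ⊢
      simp only at h ⊢
      omega
    rw [dif_pos h, dif_pos h']
    rfl
  · have h' : (i, j) ∉ Ix d := by
      rw [mem_Ix] at h ⊢
      simp only at h ⊢
      omega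
    rw [dif_neg h, dif_neg h']

lemma TD_PG_sw {k : ℕ} {v : ↥(Ix d) → ℤ} (h : TD k (PG v)) : TD k (PG (sw v)) := by
  rw [TD_PG_iff] at h ⊢
  intro j i hij
  rw [cf_sw]
  exact h i j (by omega)

lemma TD_smul {k : ℕ} {v : ↥(Ix d) → ℤ} (h : TD k (PG v)) (t : ℤ) : TD k (PG (t • v)) := by
  rw [TD_PG_iff] at h ⊢
  intro j i hij
  have h1 := h j i hij
  rw [cf] at h1 ⊢
  split_ifs at h1 ⊢ with h2
  · rw [Pi.smul_apply, h1, smul_zero]
  · rfl

lemma sw_add_smul (c R : ↥(Ix d) → ℤ) (t : ℤ) : sw (c + t • R) = sw c + t • sw R := rfl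

lemma Typ_of_add {H : ℕ} {y : ℝ} (hd : 4 ≤ d) {c c' : ↥(Ix d) → ℤ} {R : ℤ[X][X]}
    (hR : TD (d - 4) R) (hcR : PG c' = PG c + R) (h : Typ H y c) : Typ H y c' := by
  obtain ⟨h2, h3, h4⟩ := h
  have hff : ff c' = ff c := by
    have h1 := lead_add_of_TD (G := PG c) hd hR 0 (by omega)
    rw [Nat.sub_zero] at h1
    rw [ff, hcR, h1, ← ff]
  have hl1 : lead (d - 1) (PG c') = lead (d - 1) (PG c) := by
    rw [hcR]; exact lead_add_of_TD hd hR 1 (by omega)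
  have hl2 : lead (d - 2) (PG c') = lead (d - 2) (PG c) := by
    rw [hcR]; exact lead_add_of_TD hd hR 2 (by omega)
  refine ⟨?_, ?_, ?_⟩
  · intro t ht
    rw [hff]
    exact h2 t ht
  · intro t ht h0
    rw [hff] at h0
    exact h3 t ht h0
  · intro t ht h0
    rw [gp_eq, hff, hl1, hl2, ← gp_eq]
    rw [hff] at h0
    exact h4 t ht h0

open Classical in
lemma sec_countV {S : Finset (ℤ × ℤ)} {h : ℕ} (hh : 1 ≤ h) {R : ↥(Ix d) → ℤ} (hR : Dr S h R)
    (H : ℕ) (Q : (↥(Ix d) → ℤ) → Prop) (P : ℤ × ℤ → Prop) (N : ℕ)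
    (hQ : ∀ c, Q c → ∀ t : ℤ, Q (c + t • R))
    (hN : ∀ c ∈ VB (Lam d S) (2 * H), Q c → ∀ T : Finset (ℤ × ℤ), (∀ p ∈ T, P p ∧
      ∃ t : ℤ, c - t • R ∈ VB (Lam d S) H ∧ ev p.1 p.2 (PG (c - t • R)) = 0) → T.card ≤ N) :
    (((VB (Lam d S) H).filter (fun c => Q c ∧ ∃ p, (P p ∧ ev p.1 p.2 (PG R) ≠ 0) ∧
      ev p.1 p.2 (PG c) = 0)).card : ℝ) * H ≤ (h * 4 ^ (Ix d).card) * N * Vo d S H := by
  obtain ⟨Z, hZ⟩ : ∃ Z, Z = (VB (Lam d S) H).filter
    (fun c => Q c ∧ ∃ p, (P p ∧ ev p.1 p.2 (PG R) ≠ 0) ∧ ev p.1 p.2 (PG c) = 0) := ⟨_, rfl⟩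
  rw [← hZ]
  have hT1 := (T_fact (H := H) hh).1
  apply dir_concl hh (Nat.cast_nonneg _) (Nat.cast_nonneg _)
  have hmain := rel_dir Z ((VB (Lam d S) (2 * H)).filter Q) R (H / h)
    (by
      intro c hc t ht
      rw [hZ, Finset.mem_filter] at hc
      rw [Finset.mem_filter]
      exact ⟨smul_add_mem_VB hc.1 hR.1 hR.2 (by omega) ht, hQ c hc.2.1 t⟩) N (by
      intro c hc
      rw [Finset.mem_filter] at hc
      obtain ⟨F, hF⟩ : ∃ F, F = (Icc (-((H / h : ℕ) : ℤ)) (H / h : ℕ)).filter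
        (fun t => c - t • R ∈ Z) := ⟨_, rfl⟩
      rw [← hF]
      have hsel : ∀ t ∈ F, ∃ p : ℤ × ℤ, (P p ∧ ev p.1 p.2 (PG R) ≠ 0) ∧
          ev p.1 p.2 (PG (c - t • R)) = 0 := by
        intro t ht
        rw [hF, Finset.mem_filter, hZ, Finset.mem_filter] at ht
        exact ht.2.2.2
      choose! f hf1 hf2 using hsel
      have hinj : Set.InjOn f F := by
        intro t ht t' ht' htt
        have e1 := hf2 t ht
        have e2 := hf2 t' ht'
        have e3 := (hf1 t ht).2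
        rw [htt] at e1 e3
        rw [PG_sub_smul, map_sub, map_mul, ev_C, evf_C] at e1 e2
        have e4 : ((t : ℤ) - t') * ev (f t').1 (f t').2 (PG R) = 0 := by
          simp only [Int.cast_id] at e1 e2
          linear_combination e2 - e1
        rcases mul_eq_zero.1 e4 with h0 | h0
        · omega
        · exact absurd h0 e3
      have h1 : (F.image f).card = F.card := Finset.card_image_of_injOn hinj
      have h2 := hN c hc.1 hc.2 (F.image f) (by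
        intro p hp
        rw [Finset.mem_image] at hp
        obtain ⟨t, ht, rfl⟩ := hp
        refine ⟨(hf1 t ht).1, t, ?_, hf2 t ht⟩
        rw [hF, Finset.mem_filter, hZ, Finset.mem_filter] at ht
        exact ht.2.1)
      rw [h1] at h2
      exact_mod_cast h2)
  refine hmain.trans ?_
  apply mul_le_mul_of_nonneg_left _ (Nat.cast_nonneg _)
  exact_mod_cast Finset.card_filter_le _ _

open Classical in
lemma cnt_smallV {S : Finset (ℤ × ℤ)} {h : ℕ} (hh : 1 ≤ h) {R : ↥(Ix d) → ℤ} (hR : Dr S h R)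
    (H m : ℕ) :
    (((VB (Lam d S) H).filter (fun c => True ∧ ∃ p : ℤ × ℤ, ((|p.1| ≤ m ∧ |p.2| ≤ m) ∧
      ev p.1 p.2 (PG R) ≠ 0) ∧ ev p.1 p.2 (PG c) = 0)).card : ℝ) * H
      ≤ (h * 4 ^ (Ix d).card) * ((2 * m + 1) ^ 2 : ℕ) * Vo d S H := by
  refine le_trans (le_of_eq ?_) (sec_countV (d := d) hh hR H (fun _ => True)
    (fun p => |p.1| ≤ m ∧ |p.2| ≤ m) ((2 * m + 1) ^ 2) (fun _ _ _ => trivial) ?_)
  · congr!
  · intro c _ _ T hT
    have hsub : T ⊆ Icc (-(m : ℤ)) m ×ˢ Icc (-(m : ℤ)) m := by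
      intro p hp
      obtain ⟨⟨h1, h2⟩, -⟩ := hT p hp
      rw [Finset.mem_product, Finset.mem_Icc, Finset.mem_Icc]
      exact ⟨abs_le.1 h1, abs_le.1 h2⟩
    have h1 := Finset.card_le_card hsub
    rw [Finset.card_product, card_Icc_H] at h1
    rw [sq]; exact h1

open Classical in
lemma cnt_midV (hd : 4 ≤ d) {S : Finset (ℤ × ℤ)} {h : ℕ} (hh : 1 ≤ h) {R : ↥(Ix d) → ℤ}
    (hR : Dr S h R) (hRT : TD (d - 4) (PG R)) {H : ℕ} {y : ℝ} (hyK : K0 d ≤ y) (hyH : y ^ 2 ≤ H)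
    (n : ℕ) :
    (((VB (Lam d S) H).filter (fun c => Typ (2 * H) y c ∧ ∃ p : ℤ × ℤ, ((|(p.2 : ℝ)| ≤ |(p.1 : ℝ)| ∧
      y ^ (k0 d) ≤ |(p.1 : ℝ)| ∧ |(p.1 : ℝ)| ≤ y ^ (k0 d) * y ^ (n + 1)) ∧
      ev p.1 p.2 (PG R) ≠ 0) ∧ ev p.1 p.2 (PG c) = 0)).card : ℝ) * H
      ≤ (h * 4 ^ (Ix d).card) * ((4 * (n + 1) * d : ℕ) : ℝ) * Vo d S H := by
  apply sec_countV (d := d) hh hR H (Typ (2 * H) y) (fun p => |(p.2 : ℝ)| ≤ |(p.1 : ℝ)| ∧
      y ^ (k0 d) ≤ |(p.1 : ℝ)| ∧ |(p.1 : ℝ)| ≤ y ^ (k0 d) * y ^ (n + 1))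
  · intro c hc t
    apply Typ_of_add hd (TD_smul hRT t) _ hc
    rw [PG_add]
  · intro c hc hty T hT
    have hyH' : y ^ 2 ≤ ((2 * H : ℕ) : ℝ) := by
      push_cast
      have : (0 : ℝ) ≤ H := by positivity
      linarith
    apply mid_countG hd hyK hyH' (VB_sub_Bx _ _ hc) hty n T
    intro p hp
    obtain ⟨⟨h1, h2, h3⟩, t, ht1, ht2⟩ := hT p hp
    refine ⟨h1, h2, h3, c - t • R, Bx_mono (by omega) (VB_sub_Bx _ _ ht1), PG ((-t) • R),
      TD_smul hRT _, ?_, ht2⟩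
    rw [← PG_add, neg_smul, ← sub_eq_add_neg]

lemma FM_add (c c' : ↥(Ix d) → ℤ) : FM (c + c') = FM c + FM c' := by
  apply (toB ℤ).injective
  rw [map_add, toB_FM, toB_FM, toB_FM, PG_add]

lemma totalDegree_FM_of_TD {k : ℕ} {v : ↥(Ix d) → ℤ} (h : TD k (PG v)) :
    (FM v).totalDegree ≤ k := by
  rw [TD_PG_iff] at h
  apply Finset.sup_le
  intro m hm
  by_contra hcon
  push_neg at hcon
  rw [MvPolynomial.mem_support_iff, coeff_FM] at hm
  apply hm
  apply h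
  have h1 : (m.sum fun _ e => e) = m.degree := rfl
  rw [h1, degree_fin2] at hcon
  exact hcon

open Classical in
lemma cnt_largeV (hd : 4 ≤ d) {S : Finset (ℤ × ℤ)} {h : ℕ} (hh : 1 ≤ h) {R : ↥(Ix d) → ℤ}
    (hR : Dr S h R) (hRT : TD (d - 4) (PG R)) {H : ℕ} {y : ℝ} (hy : 0 < y) :
    (((VB (Lam d S) H).filter (fun c => (Typ (2 * H) y c ∧ Typ (2 * H) y (sw c) ∧
      (ff c).natDegree = d ∧ Irreducible ((ff c).map (Int.castRingHom ℚ))) ∧ ∃ p : ℤ × ℤ,
      ((((d + 1) * ((Ix d).card * (4 * H))) ^ (kC d) < max p.2.natAbs p.1.natAbs) ∧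
      ev p.1 p.2 (PG R) ≠ 0) ∧ ev p.1 p.2 (PG c) = 0)).card : ℝ) * H
      ≤ (h * 4 ^ (Ix d).card) * (kN d : ℕ) * Vo d S H := by
  have hffR : ∀ (c : ↥(Ix d) → ℤ) (t : ℤ), ff (c + t • R) = ff c := by
    intro c t
    have h1 := lead_add_of_TD (G := PG c) hd (TD_smul hRT t) 0 (by omega)
    rw [Nat.sub_zero] at h1
    rw [ff, PG_add, h1, ← ff]
  refine le_trans (le_of_eq ?_) (sec_countV (d := d) hh hR H
      (fun c => Typ (2 * H) y c ∧ Typ (2 * H) y (sw c) ∧ (ff c).natDegree = d ∧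
      Irreducible ((ff c).map (Int.castRingHom ℚ)))
      (fun p => ((d + 1) * ((Ix d).card * (4 * H))) ^ (kC d) < max p.2.natAbs p.1.natAbs)
      (kN d) ?_ ?_)
  · congr!
  · intro c hc t
    rw [hffR]
    refine ⟨?_, ?_, hc.2.2⟩
    · apply Typ_of_add hd (TD_smul hRT t) _ hc.1
      rw [PG_add]
    · rw [sw_add_smul]
      apply Typ_of_add hd (TD_smul (TD_PG_sw hRT) t) _ hc.2.1
      rw [PG_add]
  · rintro c hc ⟨hty, hty', hfd, hirr⟩ T hT
    have htd := totalDegree_FM (by omega) hfd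
    have hcB := VB_sub_Bx _ _ hc
    have hm := main3 (FM c) ((Ix d).card * (4 * H)) (by rw [htd]; exact hd)
      (irr_FM (by omega) hfd hirr) (by
        intro p q hq
        rw [htd]
        exact lines_of_typ (by omega) hy hty.2.2 hty'.2.2 p q hq) (by
        refine (len_FM hcB).trans (Nat.mul_le_mul_left _ (by omega)))
    rw [htd] at hm
    have hsel : ∀ p ∈ T, ∃ t : ℤ, c - t • R ∈ VB (Lam d S) H ∧ ev p.1 p.2 (PG (c - t • R)) = 0 :=
      fun p hp => (hT p hp).2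
    choose! f hf1 hf2 using hsel
    obtain ⟨φ, hφ⟩ : ∃ φ : ℤ × ℤ → MvPolynomial (Fin 2) ℤ × ℤ × ℤ,
      φ = fun p => (FM ((-(f p)) • R), p.2, p.1) := ⟨_, rfl⟩
    have hinj : Set.InjOn φ T := by
      intro p _ q _ hpq
      rw [hφ] at hpq
      simp only [Prod.mk.injEq] at hpq
      exact Prod.ext hpq.2.2 hpq.2.1
    have h1 : ((T.image φ : Finset _) : Set (MvPolynomial (Fin 2) ℤ × ℤ × ℤ)) ⊆
      {t : MvPolynomial (Fin 2) ℤ × ℤ × ℤ | t.1.totalDegree + 4 ≤ d ∧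
      len t.1 ≤ (Ix d).card * (4 * H) ∧ MvPolynomial.eval ![t.2.1, t.2.2] (FM c + t.1) = 0 ∧
      ((d + 1) * ((Ix d).card * (4 * H))) ^ (kC d) < max t.2.1.natAbs t.2.2.natAbs} := by
      intro q hq
      rw [Finset.mem_coe, Finset.mem_image] at hq
      obtain ⟨p, hp, rfl⟩ := hq
      rw [hφ]
      simp only [Set.mem_ofPred_eq]
      have hsum : FM c + FM ((-(f p)) • R) = FM (c - f p • R) := by
        rw [← FM_add, neg_smul, ← sub_eq_add_neg]
      refine ⟨?_, ?_, ?_, (hT p hp).1⟩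
      · have := totalDegree_FM_of_TD (TD_smul hRT (-(f p)))
        omega
      · apply len_FM
        have h2 : (-(f p)) • R = (c - f p • R) - c := by rw [neg_smul]; abel
        rw [h2, mem_Bx]
        intro i
        have h3 := mem_Bx.1 (VB_sub_Bx _ _ (hf1 p hp)) i
        have h4 := mem_Bx.1 hcB i
        have h5 : ((c - f p • R) - c) i = (c - f p • R) i - c i := rfl
        rw [h5]
        refine (abs_sub _ _).trans ?_
        push_cast at h4 ⊢
        linarith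
      · rw [hsum]
        have h2 := ev_FM (S := ℤ) p.2 p.1 (c - f p • R)
        rw [hf2 p hp] at h2
        rw [← h2]
        rw [MvPolynomial.eval, MvPolynomial.coe_eval₂Hom]
        congr 1
    have h2 : (T.card : ℕ∞) ≤ (kN d : ℕ) := by
      rw [← Finset.card_image_of_injOn hinj, ← Set.encard_coe_eq_coe_finsetCard]
      exact (Set.encard_le_encard h1).trans hm
    exact_mod_cast h2

end Pool.Agent.H322R2
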