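import Pool.Agent.H322R2.Ev

/-!
Convergent substitution of real power series.
-/

open Finset

namespace Pool.Agent.H322R2

/-- absolute value on `ℝ` as a ring seminorm -/
noncomputable def rn : RingSeminorm ℝ where
  toFun := fun x => |x|
  map_zero' := by simp
  add_le' := fun a b => abs_add_le _ _
  neg' := fun a => by simp
  mul_le' := fun a b => by rw [abs_mul]

@[simp] lemma rn_apply (x : ℝ) : rn x = |x| := rfl

lemma rn_one : rn 1 ≤ 1 := by simp

/-- convergent power series of radius `ρ` -/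
def Conv (ρ : ℝ) (hρ : 0 ≤ ρ) : Subring (PowerSeries ℝ) where
  carrier := {u | ∃ B, Bd rn ρ u B}
  mul_mem' := by
    rintro a b ⟨B, hB⟩ ⟨B', hB'⟩
    exact ⟨_, hB.mul hρ hB'⟩
  one_mem' := ⟨1, Bd.one hρ rn_one⟩
  add_mem' := by
    rintro a b ⟨B, hB⟩ ⟨B', hB'⟩
    exact ⟨_, hB.add hρ hB'⟩
  zero_mem' := ⟨0, Bd.zero⟩
  neg_mem' := by
    rintro a ⟨B, hB⟩
    refine ⟨B, fun K => ?_⟩
    simpa using hB K

variable {θ : PowerSeries ℝ} {r ρ : ℝ}

lemma coeff_pow_le (hr : 0 < r) (hθ : Bd rn r θ ρ) (n i : ℕ) :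
    |PowerSeries.coeff i (θ ^ n)| ≤ ρ ^ n / r ^ i := by
  rw [le_div_iff₀ (pow_pos hr i)]
  exact (hθ.pow hr.le rn_one n).coeff_le hr.le i

lemma term_le (hr : 0 < r) (hθ : Bd rn r θ ρ) (u : PowerSeries ℝ) (n i : ℕ) :
    ‖PowerSeries.coeff n u * PowerSeries.coeff i (θ ^ n)‖
      ≤ (|PowerSeries.coeff n u| * ρ ^ n) * (1 / r ^ i) := by
  rw [norm_mul, Real.norm_eq_abs, Real.norm_eq_abs]
  have := coeff_pow_le hr hθ n i
  calc _ ≤ |PowerSeries.coeff n u| * (ρ ^ n / r ^ i) :=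
        mul_le_mul_of_nonneg_left this (abs_nonneg _)
    _ = _ := by ring

lemma partial_le (hr : 0 < r) (hθ : Bd rn r θ ρ) {u : PowerSeries ℝ} {B : ℝ} (hu : Bd rn ρ u B)
    (i K : ℕ) : ∑ n ∈ range K, ‖PowerSeries.coeff n u * PowerSeries.coeff i (θ ^ n)‖
      ≤ B * (1 / r ^ i) := by
  refine (Finset.sum_le_sum fun n _ => term_le hr hθ u n i).trans ?_
  rw [← Finset.sum_mul]
  exact mul_le_mul_of_nonneg_right (hu K) (by positivity)

lemma summ (hr : 0 < r) (hθ : Bd rn r θ ρ) {u : PowerSeries ℝ} {B : ℝ} (hu : Bd rn ρ u B)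
    (i : ℕ) : Summable fun n => ‖PowerSeries.coeff n u * PowerSeries.coeff i (θ ^ n)‖ :=
  summable_of_sum_range_le (fun _ => norm_nonneg _) (partial_le hr hθ hu i)

/-- substitution of `θ` -/
noncomputable def sb (θ : PowerSeries ℝ) (u : PowerSeries ℝ) : PowerSeries ℝ :=
  PowerSeries.mk fun i => ∑' n, PowerSeries.coeff n u * PowerSeries.coeff i (θ ^ n)

lemma sb_coeff_le (hr : 0 < r) (hθ : Bd rn r θ ρ) {u : PowerSeries ℝ} {B : ℝ} (hu : Bd rn ρ u B)
    (i : ℕ) : |PowerSeries.coeff i (sb θ u)| ≤ B / r ^ i := by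
  rw [sb, PowerSeries.coeff_mk]
  have h := summ hr hθ hu i
  have h1 : ‖∑' n, PowerSeries.coeff n u * PowerSeries.coeff i (θ ^ n)‖
      ≤ ∑' n, ‖PowerSeries.coeff n u * PowerSeries.coeff i (θ ^ n)‖ := norm_tsum_le_tsum_norm h
  rw [← Real.norm_eq_abs]
  refine h1.trans ?_
  have h2 : ∑' n, ‖PowerSeries.coeff n u * PowerSeries.coeff i (θ ^ n)‖ ≤ B * (1 / r ^ i) :=
    Real.tsum_le_of_sum_range_le (fun _ => norm_nonneg _) (partial_le hr hθ hu i)
  refine h2.trans (le_of_eq ?_)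
  ring

lemma sb_one : sb θ 1 = 1 := by
  ext i
  rw [sb, PowerSeries.coeff_mk, tsum_eq_single 0]
  · simp
  · intro n hn
    rw [PowerSeries.coeff_one, if_neg hn, zero_mul]

lemma sb_C (c : ℝ) : sb θ (PowerSeries.C c) = PowerSeries.C c := by
  ext i
  rw [sb, PowerSeries.coeff_mk, tsum_eq_single 0]
  · simp [PowerSeries.coeff_C, PowerSeries.coeff_one]
  · intro n hn
    rw [PowerSeries.coeff_C, if_neg hn, zero_mul]

lemma sb_X : sb θ PowerSeries.X = θ := by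
  ext i
  rw [sb, PowerSeries.coeff_mk, tsum_eq_single 1]
  · simp
  · intro n hn
    rw [PowerSeries.coeff_X, if_neg hn, zero_mul]

lemma sb_zero : sb θ 0 = 0 := by
  ext i
  rw [sb, PowerSeries.coeff_mk]
  simp

lemma sb_add (hr : 0 < r) (hθ : Bd rn r θ ρ) {u v : PowerSeries ℝ} {B B' : ℝ}
    (hu : Bd rn ρ u B) (hv : Bd rn ρ v B') : sb θ (u + v) = sb θ u + sb θ v := by
  ext i
  rw [map_add, sb, sb, sb, PowerSeries.coeff_mk, PowerSeries.coeff_mk, PowerSeries.coeff_mk]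
  rw [← ((summ hr hθ hu i).of_norm).tsum_add ((summ hr hθ hv i).of_norm)]
  congr 1
  funext n
  rw [map_add]; ring

lemma sb_mul (hr : 0 < r) (hθ : Bd rn r θ ρ) {u v : PowerSeries ℝ} {B B' : ℝ}
    (hu : Bd rn ρ u B) (hv : Bd rn ρ v B') : sb θ (u * v) = sb θ u * sb θ v := by
  ext i
  rw [PowerSeries.coeff_mul]
  simp only [sb, PowerSeries.coeff_mk]
  have h1 : ∀ q ∈ antidiagonal i,
      (∑' n, PowerSeries.coeff n u * PowerSeries.coeff q.1 (θ ^ n)) *
      (∑' n, PowerSeries.coeff n v * PowerSeries.coeff q.2 (θ ^ n))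
      = ∑' n, ∑ p ∈ antidiagonal n, (PowerSeries.coeff p.1 u * PowerSeries.coeff q.1 (θ ^ p.1)) *
        (PowerSeries.coeff p.2 v * PowerSeries.coeff q.2 (θ ^ p.2)) := by
    intro q _
    exact tsum_mul_tsum_eq_tsum_sum_antidiagonal_of_summable_norm (summ hr hθ hu q.1)
      (summ hr hθ hv q.2)
  rw [Finset.sum_congr rfl h1]
  rw [← Summable.tsum_finsetSum]
  · congr 1
    funext n
    rw [PowerSeries.coeff_mul, Finset.sum_mul]
    rw [Finset.sum_comm]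
    apply Finset.sum_congr rfl
    intro p hp
    rw [Finset.HasAntidiagonal.mem_antidiagonal] at hp
    rw [← hp, pow_add, PowerSeries.coeff_mul, Finset.mul_sum]
    apply Finset.sum_congr rfl
    intro q _
    ring
  · intro q _
    exact (summable_norm_sum_mul_antidiagonal_of_summable_norm (summ hr hθ hu q.1)
      (summ hr hθ hv q.2)).of_norm

/-- substitution as a ring homomorphism on convergent power series -/
noncomputable def sbh (hr : 0 < r) (hρ : 0 ≤ ρ) (hθ : Bd rn r θ ρ) :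
    Conv ρ hρ →+* PowerSeries ℝ where
  toFun u := sb θ u.1
  map_one' := sb_one
  map_mul' := by
    rintro ⟨u, B, hu⟩ ⟨v, B', hv⟩
    exact sb_mul hr hθ hu hv
  map_zero' := sb_zero
  map_add' := by
    rintro ⟨u, B, hu⟩ ⟨v, B', hv⟩
    exact sb_add hr hθ hu hv

/-- naturality of evaluation -/
lemma sb_ev (hr : 0 < r) (hρ : 0 ≤ ρ) (hθ : Bd rn r θ ρ) {ζ ω : PowerSeries ℝ} {B B' : ℝ}
    (hζ : Bd rn ρ ζ B) (hω : Bd rn ρ ω B') (G : Polynomial (Polynomial ℤ)) :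
    sb θ (ev ζ ω G) = ev (sb θ ζ) (sb θ ω) G := by
  set ζ' : Conv ρ hρ := ⟨ζ, B, hζ⟩ with hζ'
  set ω' : Conv ρ hρ := ⟨ω, B', hω⟩ with hω'
  have h1 := map_ev (sbh hr hρ hθ) ζ' ω' G
  have h2 := map_ev (Conv ρ hρ).subtype ζ' ω' G
  have h3 : (sbh hr hρ hθ) (ev ζ' ω' G) = sb θ (((Conv ρ hρ).subtype) (ev ζ' ω' G)) := rfl
  rw [h3, h2] at h1
  exact h1

lemma sb_pow (hr : 0 < r) (hρ : 0 ≤ ρ) (hθ : Bd rn r θ ρ) {u : PowerSeries ℝ} {B : ℝ}
    (hu : Bd rn ρ u B) (n : ℕ) : sb θ (u ^ n) = (sb θ u) ^ n := by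
  induction n with
  | zero => simpa using sb_one
  | succ n ih => rw [pow_succ, pow_succ, sb_mul hr hθ (hu.pow hρ rn_one n) hu, ih]

lemma sb_sum (hr : 0 < r) (hρ : 0 ≤ ρ) (hθ : Bd rn r θ ρ) {ι : Type*} (s : Finset ι)
    (f : ι → PowerSeries ℝ) (b : ι → ℝ) (hf : ∀ i ∈ s, Bd rn ρ (f i) (b i)) :
    sb θ (∑ i ∈ s, f i) = ∑ i ∈ s, sb θ (f i) := by
  classical
  induction s using Finset.induction_on with
  | empty => simpa using sb_zero
  | insert a s ha ih =>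
    rw [Finset.sum_insert ha, Finset.sum_insert ha,
      sb_add hr hθ (hf a (Finset.mem_insert_self _ _))
        (Bd.sum s hρ f b fun i hi => hf i (Finset.mem_insert_of_mem hi)),
      ih fun i hi => hf i (Finset.mem_insert_of_mem hi)]

/-- transfer of bounds along an embedding into `ℝ` -/
lemma Bd.map {A : Type*} [CommRing A] {N : RingSeminorm A} (σ : A →+* ℝ)
    (hσ : ∀ x, |σ x| ≤ N x) {ρ : ℝ} (hρ : 0 ≤ ρ) {u : PowerSeries A} {B : ℝ} (hu : Bd N ρ u B) :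
    Bd rn ρ (PowerSeries.map σ u) B := by
  intro K
  refine le_trans ?_ (hu K)
  apply Finset.sum_le_sum
  intro n _
  rw [PowerSeries.coeff_map, rn_apply]
  exact mul_le_mul_of_nonneg_right (hσ _) (pow_nonneg hρ n)

end Pool.Agent.H322R2
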