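import Pool.Agent.H322R2.RedF
import Pool.Agent.H322R2.Final2

/-!
Symmetry, multivariate polynomials, and lines.
-/

open Polynomial Finset

namespace Pool.Agent.H322R2

variable {d : ℕ}

/-- the polynomial with given coefficients -/
noncomputable def FM (c : ↥(Ix d) → ℤ) : MvPolynomial (Fin 2) ℤ :=
  ∑ p : ↥(Ix d), MvPolynomial.monomial (Finsupp.single 0 p.1.1 + Finsupp.single 1 p.1.2) (c p)

lemma toB_FM (c : ↥(Ix d) → ℤ) : toB ℤ (FM c) = PG c := by
  rw [FM, map_sum, PG]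
  apply Finset.sum_congr rfl
  intro p _
  rw [toB_monomial]
  simp

lemma ev_FM {S : Type*} [CommRing S] (x y : S) (c : ↥(Ix d) → ℤ) :
    MvPolynomial.eval₂ (Int.castRingHom S) ![x, y] (FM c) = ev y x (PG c) := by
  rw [← toB_FM, ev_toB]

/-- exchange of the variables -/
def sw (c : ↥(Ix d) → ℤ) : ↥(Ix d) → ℤ :=
  fun p => c ⟨(p.1.2, p.1.1), by have := mem_Ix.1 p.2; rw [mem_Ix]; simp only; omega⟩

lemma sw_sw (c : ↥(Ix d) → ℤ) : sw (sw c) = c := rfl

lemma sw_mem {H : ℕ} {c : ↥(Ix d) → ℤ} (hc : c ∈ Bx _ H) : sw c ∈ Bx _ H := by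
  rw [mem_Bx] at hc ⊢
  intro i
  exact hc _

lemma ev_sw {S : Type*} [CommRing S] (x y : S) (c : ↥(Ix d) → ℤ) :
    ev x y (PG (sw c)) = ev y x (PG c) := by
  have h1 : ∀ (c : ↥(Ix d) → ℤ) (x y : S), ev x y (PG c) = ∑ p : ↥(Ix d), (c p : S) * x ^ p.1.2 *
      y ^ p.1.1 := by
    intro c x y
    rw [PG, map_sum]
    apply Finset.sum_congr rfl
    intro p _
    rw [← C_mul_X_pow_eq_monomial, ← C_mul_X_pow_eq_monomial, map_mul, ev_C, map_mul, evf_C,
      map_pow, map_pow, evf_X, ev_X]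
  rw [h1, h1]
  have hmem : ∀ p : ↥(Ix d), (p.1.2, p.1.1) ∈ Ix d := by
    intro p
    have := mem_Ix.1 p.2
    rw [mem_Ix]; simp only; omega
  apply Fintype.sum_equiv (⟨fun p => ⟨(p.1.2, p.1.1), hmem p⟩, fun p => ⟨(p.1.2, p.1.1), hmem p⟩,
    fun p => rfl, fun p => rfl⟩ : ↥(Ix d) ≃ ↥(Ix d))
  intro p
  simp only [sw, Equiv.coe_fn_mk]
  ring

open Classical in
lemma card_sw {H : ℕ} (P : (↥(Ix d) → ℤ) → Prop) :
    ((Bx ↥(Ix d) H).filter (fun c => P (sw c))).card = ((Bx ↥(Ix d) H).filter P).card := by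
  apply Finset.card_bij (fun c _ => sw c)
  · intro c hc
    rw [Finset.mem_filter] at hc ⊢
    exact ⟨sw_mem hc.1, hc.2⟩
  · intro c _ c' _ h
    rw [← sw_sw c, h, sw_sw]
  · intro c hc
    rw [Finset.mem_filter] at hc
    refine ⟨sw c, ?_, sw_sw c⟩
    rw [Finset.mem_filter, sw_sw]
    exact ⟨sw_mem hc.1, hc.2⟩

/-- restriction to a line gives the flex condition -/
lemma line_coeffs (hd : 3 ≤ d) (c : ↥(Ix d) → ℤ) (t β : ℝ)
    (h : (ev (X : ℝ[X]) (C t * X + C β) (PG c)).natDegree + 2 < d) :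
    evf t (ff c) = 0 ∧ evf t (gp d (PG c)) = 0 := by
  obtain ⟨G, hG⟩ : ∃ G, G = PG c := ⟨_, rfl⟩
  have hT : TD d G := by rw [hG]; exact TD_PG c
  rw [← hG] at h
  have hPn : (hmg d G).natDegree < d + 1 := by have := natDegree_hmg d G; omega
  have hPm : ∀ j, ((hmg d G).coeff j).natDegree < d + 1 := fun j => by
    have := natDegree_coeff_hmg hT j; omega
  obtain ⟨Q, hQ⟩ : ∃ Q, Q = ev (X : ℝ[X]) (C t + X * C β) (hmg d G) := ⟨_, rfl⟩
  obtain ⟨L, hL⟩ : ∃ L, L = ev (X : ℝ[X]) (C t * X + C β) G := ⟨_, rfl⟩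
  rw [← hL] at h
  obtain ⟨n, hn⟩ : ∃ n, n = Q.natDegree + 2 := ⟨_, rfl⟩
  have hid : L * X ^ n = X ^ d * reflect n Q := by
    apply Polynomial.funext
    intro x
    by_cases hx : x = 0
    · rw [hx]
      simp only [eval_mul, eval_pow, eval_X]
      rw [zero_pow (by omega), zero_pow (by omega), mul_zero, zero_mul]
    · have h1 : L.eval x = ev x (t * x + β) G := by
        have h3 := map_ev (evalRingHom x) (X : ℝ[X]) (C t * X + C β) G
        simp only [coe_evalRingHom, eval_X, eval_add, eval_C, eval_mul] at h3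
        rw [hL, h3]
      have h2 : Q.eval x⁻¹ = ev x⁻¹ (t + x⁻¹ * β) (hmg d G) := by
        have h3 := map_ev (evalRingHom x⁻¹) (X : ℝ[X]) (C t + X * C β) (hmg d G)
        simp only [coe_evalRingHom, eval_X, eval_add, eval_C, eval_mul] at h3
        rw [hQ, h3]
      have h3 := ev_hmg (x := x) (z := x⁻¹) (t + x⁻¹ * β) (mul_inv_cancel₀ hx) hT
      have h4 : x * (t + x⁻¹ * β) = t * x + β := by field_simp
      rw [h4, ← h1, ← h2] at h3
      have : Invertible (x⁻¹ : ℝ) := invertibleOfNonzero (inv_ne_zero hx)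
      have h5 := eval₂_reflect_mul_pow (RingHom.id ℝ) (x⁻¹) n Q (by omega)
      rw [invOf_eq_inv, inv_inv] at h5
      have h6 : (reflect n Q).eval x * (x⁻¹) ^ n = Q.eval x⁻¹ := h5
      rw [eval_mul, eval_mul, eval_pow, eval_pow, eval_X, h3, ← h6]
      have e1 : (x⁻¹) ^ n * x ^ n = 1 := by
        rw [← mul_pow, inv_mul_cancel₀ hx, one_pow]
      linear_combination (x ^ d * (reflect n Q).eval x) * e1
  have hQk : ∀ k, k ≤ 2 → Q.coeff k = 0 := by
    intro k hk
    have h1 := congrArg (fun f => coeff f (d - k + n)) hid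
    rw [coeff_mul_X_pow] at h1
    have h2 : d - k + n = (n - k) + d := by omega
    rw [h2, mul_comm (X ^ d), coeff_mul_X_pow, coeff_reflect, revAt_le (by omega)] at h1
    have h3 : n - (n - k) = k := by omega
    rw [h3] at h1
    rw [← h1]
    apply coeff_eq_zero_of_natDegree_lt
    omega
  -- expansion
  obtain ⟨τ, hτ⟩ : ∃ τ : ℕ → ℕ → ℝ, τ = fun p q => tay (hmg d G) (d + 1) (d + 1) 0 t (p, q) :=
    ⟨_, rfl⟩
  have hτ' : ∀ p q, tay (hmg d G) (d + 1) (d + 1) 0 t (p, q) = τ p q := by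
    intro p q; rw [hτ]
  have hdvd : X ^ 3 ∣ Q - (C (τ 0 0) + C (τ 0 1 * β + τ 1 0) * X
      + C (τ 0 2 * β ^ 2 + τ 1 1 * β + τ 2 0) * X ^ 2) := by
    have h1 := ev_taylor (C : ℝ →+* ℝ[X]) (hmg d G) (d + 1) (d + 1) hPn hPm 0 t X (X * C β)
    rw [map_zero, zero_add] at h1
    rw [hQ, h1]
    have hsub : range 3 ×ˢ range 3 ⊆ range (d + 1) ×ˢ range (d + 1) := by
      apply Finset.product_subset_product
      · intro i hi; rw [Finset.mem_range] at hi ⊢; omega
      · intro i hi; rw [Finset.mem_range] at hi ⊢; omega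
    rw [← Finset.sum_sdiff hsub, add_sub_assoc]
    apply dvd_add
    · apply Finset.dvd_sum
      intro p hp
      rw [Finset.mem_sdiff, Finset.mem_product, Finset.mem_product, Finset.mem_range,
        Finset.mem_range, Finset.mem_range, Finset.mem_range] at hp
      have h4 : 3 ≤ p.1 + p.2 := by omega
      have h5 : C (tay (hmg d G) (d + 1) (d + 1) 0 t p) * X ^ p.1 * (X * C β) ^ p.2
          = X ^ (p.1 + p.2) * (C (tay (hmg d G) (d + 1) (d + 1) 0 t p) * C β ^ p.2) := by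
        rw [mul_pow, pow_add]; ring
      rw [h5]
      exact Dvd.dvd.mul_right (pow_dvd_pow _ h4) _
    · simp only [Finset.sum_product, Finset.sum_range_succ, Finset.sum_range_zero, hτ']
      refine ⟨C (τ 1 2) * C β ^ 2 + C (τ 2 1) * C β + C (τ 2 2) * X * C β ^ 2, ?_⟩
      simp only [map_add, map_mul, map_pow]
      ring
  rw [X_pow_dvd_iff] at hdvd
  have e0 := hdvd 0 (by norm_num)
  have e1 := hdvd 1 (by norm_num)
  have e2 := hdvd 2 (by norm_num)
  simp only [coeff_sub, coeff_add, coeff_C_mul, coeff_X_pow, coeff_X, coeff_C] at e0 e1 e2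
  rw [hQk 0 (by norm_num)] at e0
  rw [hQk 1 (by norm_num)] at e1
  rw [hQk 2 (by norm_num)] at e2
  norm_num at e0 e1 e2
  have a0 : evf t (ff c) = 0 := by
    have := tay_q0 hT t 0 (by omega)
    rw [hτ', Nat.sub_zero] at this
    rw [ff, ← hG, ← this]; linarith
  refine ⟨a0, ?_⟩
  have t01 := tay_q1 hT t 0 (by omega)
  have t02 := tay_q2 hT t 0 (by omega)
  have t10 := tay_q0 hT t 1 (by omega)
  have t11 := tay_q1 hT t 1 (by omega)
  have t20 := tay_q0 hT t 2 (by omega)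
  rw [Nat.sub_zero] at t01 t02
  rw [hτ'] at t01 t02 t10 t11 t20
  rw [gp_eq, ff, ← hG, ← t01, ← t02, ← t10, ← t11, ← t20]
  have b1 : τ 1 0 = -(τ 0 1 * β) := by linarith
  have b2 : τ 2 0 = -(τ 0 2 * β ^ 2 + τ 1 1 * β) := by linarith
  rw [b1, b2]
  ring

lemma T4c_line (hd : 3 ≤ d) {H : ℕ} {y : ℝ} (hy : 0 < y) {c : ↥(Ix d) → ℤ} (h4 : T4c H y c)
    (t β : ℝ) (ht : |t| ≤ 2) :
    d ≤ (ev (X : ℝ[X]) (C t * X + C β) (PG c)).natDegree + 2 := by
  by_contra hcon
  push_neg at hcon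
  obtain ⟨h1, h2⟩ := line_coeffs hd c t β hcon
  have h3 := h4 t ht h1
  rw [h2, abs_zero] at h3
  have : 0 ≤ (H : ℝ) ^ 3 / y ^ 6 := by positivity
  linarith

lemma eval₂_comp (F : MvPolynomial (Fin 2) ℤ) (g : Fin 2 → ℝ[X]) (s : ℝ[X]) :
    (MvPolynomial.eval₂ (Int.castRingHom ℝ[X]) g F).comp s
      = MvPolynomial.eval₂ (Int.castRingHom ℝ[X]) (fun i => (g i).comp s) F := by
  have : (compRingHom s).comp (MvPolynomial.eval₂Hom (Int.castRingHom ℝ[X]) g)
      = MvPolynomial.eval₂Hom (Int.castRingHom ℝ[X]) (fun i => (g i).comp s) := by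
    apply MvPolynomial.ringHom_ext
    · intro r; simp
    · intro i; simp
  exact congrArg (fun f : MvPolynomial (Fin 2) ℤ →+* ℝ[X] => f F) this

theorem lines_of_typ (hd : 3 ≤ d) {H : ℕ} {y : ℝ} (hy : 0 < y) {c : ↥(Ix d) → ℤ}
    (h4 : T4c H y c) (h4' : T4c H y (sw c)) (p q : Fin 2 → ℝ) (hq : q ≠ 0) :
    d ≤ (MvPolynomial.aeval (fun i => (C (p i) + C (q i) * X : ℝ[X])) (FM c)).natDegree + 2 := by
  have key : ∀ (c : ↥(Ix d) → ℤ), T4c H y c → ∀ (p0 p1 q0 q1 : ℝ), q1 ≠ 0 → |q0| ≤ |q1| →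
      d ≤ (ev (C p1 + C q1 * X : ℝ[X]) (C p0 + C q0 * X) (PG c)).natDegree + 2 := by
    intro c h4 p0 p1 q0 q1 hq1 hle
    have h1 := T4c_line hd hy h4 (q0 / q1) (p0 - q0 * p1 / q1) (by
      rw [abs_div]
      have h2 : |q0| / |q1| ≤ 1 := by rw [div_le_one (abs_pos.2 hq1)]; exact hle
      linarith)
    obtain ⟨s, hs⟩ : ∃ s : ℝ[X], s = C (1 / q1) * X + C (-(p1 / q1)) := ⟨_, rfl⟩
    have hsn : s.natDegree = 1 := by
      rw [hs]
      exact natDegree_linear (by positivity)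
    have h2 : (ev (C p1 + C q1 * X : ℝ[X]) (C p0 + C q0 * X) (PG c)).comp s
        = ev (X : ℝ[X]) (C (q0 / q1) * X + C (p0 - q0 * p1 / q1)) (PG c) := by
      have h3 := map_ev (compRingHom s) (C p1 + C q1 * X : ℝ[X]) (C p0 + C q0 * X) (PG c)
      rw [coe_compRingHom_apply] at h3
      rw [h3]
      congr 2
      · rw [coe_compRingHom_apply, add_comp, mul_comp, C_comp, C_comp, X_comp, hs, mul_add,
          ← mul_assoc, ← map_mul, ← map_mul]
        have e1 : q1 * (1 / q1) = 1 := by field_simp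
        have e2 : q1 * -(p1 / q1) = -p1 := by field_simp
        rw [e1, e2, map_one, map_neg]; ring
      · rw [coe_compRingHom_apply, add_comp, mul_comp, C_comp, C_comp, X_comp, hs, mul_add,
          ← mul_assoc, ← map_mul, ← map_mul]
        have e1 : q0 * (1 / q1) = q0 / q1 := by ring
        have e2 : q0 * -(p1 / q1) = -(q0 * p1 / q1) := by ring
        rw [e1, e2, map_sub, map_neg]; ring
    rw [← h2, natDegree_comp, hsn, mul_one] at h1
    exact h1
  have hF : MvPolynomial.aeval (fun i => (C (p i) + C (q i) * X : ℝ[X])) (FM c)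
      = ev (C (p 1) + C (q 1) * X) (C (p 0) + C (q 0) * X) (PG c) := by
    rw [← ev_FM, MvPolynomial.aeval_def]
    congr 1
    funext i
    fin_cases i <;> rfl
  rw [hF]
  rcases le_total |q 0| |q 1| with h | h
  · have hq1 : q 1 ≠ 0 := by
      intro h0
      rw [h0, abs_zero] at h
      have h1 : q 0 = 0 := abs_eq_zero.1 (le_antisymm h (abs_nonneg _))
      apply hq
      ext i
      fin_cases i
      · exact h1
      · exact h0
    exact key c h4 _ _ _ _ hq1 h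
  · have hq0 : q 0 ≠ 0 := by
      intro h0
      rw [h0, abs_zero] at h
      have h1 : q 1 = 0 := abs_eq_zero.1 (le_antisymm h (abs_nonneg _))
      apply hq
      ext i
      fin_cases i
      · exact h0
      · exact h1
    rw [← ev_sw]
    exact key (sw c) h4' _ _ _ _ hq0 h

end Pool.Agent.H322R2
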