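import Pool.Agent.H322R2.Numer

/-!
The two-point principle.
-/

open Polynomial Finset

namespace Pool.Agent.H322R2

/-- Two huge integer points of very different size, on two plane curves of degree `d` whose
branches at infinity are defined over the same ring `A` near the same real place, do not exist. -/
theorem two_point (d : ℕ) (hd : 3 ≤ d) : ∃ κ : ℝ, 1 ≤ κ ∧ κ ≤ kap d ∧
    ∀ {A : Type} [CommRing A] {N : RingSeminorm A} {σ : A →+* ℝ} (_ : N 1 ≤ 1)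
      (_ : ∀ x, |σ x| ≤ N x) {ι : Type} [Fintype ι] (bas : Module.Basis ι ℤ A)
      (C0 : ℝ) (_ : 1 ≤ C0) (_ : ∀ x i, |(bas.repr x i : ℝ)| ≤ C0 * N x)
      (_ : 0 < Fintype.card ι) (_ : Fintype.card ι ≤ d)
      {B1 B2 : ℝ} {F1 F2 : ℤ[X][X]} {a1 b1 a2 b2 : ℤ}
      (_ : F1.Monic) (_ : F1.natDegree = d) (_ : Prime F1)
      (_ : ∀ j, (F1.coeff j).natDegree ≤ d)
      (_ : F2.Monic) (_ : F2.natDegree = d) (_ : Prime F2)
      (_ : BP N σ d B1 F1 a1 b1) (_ : BP N σ d B2 F2 a2 b2)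
      (_ : κ * Real.log B1 ≤ Real.log |(a1 : ℝ)|)
      (_ : κ * (Real.log |(a1 : ℝ)| + Real.log B2 + Real.log C0) ≤ Real.log |(a2 : ℝ)|), False := by
  obtain ⟨κ, hκ1, hκ2, hκ⟩ := numeric d
  refine ⟨κ, hκ1, hκ2, ?_⟩
  intro A _ N σ h1 hσ ι _ bas C0 hC0 hcoord hk hkd B1 B2 F1 F2 a1 b1 a2 b2 hm1 hFd1 hF1 hFx1
    hm2 hFd2 hF2 P1 P2 hl1 hl2
  obtain ⟨t, ht4, hY1, hY2, hsmall, hcon⟩ := hκ (Fintype.card ι) C0 B1 B2 |(a1 : ℝ)| |(a2 : ℝ)|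
    hk hkd hC0 P1.hB P2.hB P1.a_pos P2.a_pos hl1 hl2
  obtain ⟨o, ho1, ho2⟩ := core_ineq h1 hσ bas C0 hC0 hcoord P1 P2 hd hm1 hFd1 hF1 hFx1 hm2 hFd2 hF2
    (Fintype.card ι) hk hkd rfl t ht4 hY1 hY2 hsmall
  exact hcon o ho1 ho2

end Pool.Agent.H322R2
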