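import Pool.Agent.H322R2.Lat
import Pool.Agent.H322R2.SecC

/-!
Additive structure of coefficient vectors, polynomials vanishing at prescribed integer points.
-/

open Polynomial Finset

namespace Pool.Agent.H322R2

variable {d : ℕ}

lemma PG_add (c c' : ↥(Ix d) → ℤ) : PG (c + c') = PG c + PG c' := by
  ext j i
  rw [coeff_PG, coeff_add, coeff_add, coeff_PG, coeff_PG, cf, cf, cf]
  split_ifs
  · rfl
  · simp

lemma PG_smul (t : ℤ) (c : ↥(Ix d) → ℤ) : PG (t • c) = C (C t) * PG c := by
  ext j i
  rw [coeff_PG, coeff_C_mul, coeff_C_mul, coeff_PG, cf, cf]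
  split_ifs
  · rfl
  · simp

lemma PG_sub_smul (c R : ↥(Ix d) → ℤ) (t : ℤ) : PG (c - t • R) = PG c - C (C t) * PG R := by
  rw [sub_eq_add_neg, ← neg_smul, PG_add, PG_smul, map_neg, map_neg]
  ring

/-- coefficient vector of a polynomial -/
noncomputable def vec (G : ℤ[X][X]) : ↥(Ix d) → ℤ := fun p => (G.coeff p.1.1).coeff p.1.2

lemma coeff_zero_of_TD {k : ℕ} {G : ℤ[X][X]} (h : TD k G) {j i : ℕ} (hij : k < j + i) :
    (G.coeff j).coeff i = 0 := by
  by_cases hj : j ≤ k
  · apply coeff_eq_zero_of_natDegree_lt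
    have := h.2 j
    omega
  · rw [coeff_eq_zero_of_natDegree_lt (p := G) (by have := h.1; omega), coeff_zero]

lemma PG_vec {G : ℤ[X][X]} (hG : TD d G) : PG (vec G : ↥(Ix d) → ℤ) = G := by
  ext j i
  rw [coeff_PG, cf]
  split_ifs with h
  · rfl
  · rw [coeff_zero_of_TD hG]
    rw [mem_Ix] at h
    simp only at h
    omega

lemma lead_CC_mul (k : ℕ) (t : ℤ) (G : ℤ[X][X]) : lead k (C (C t) * G) = C t * lead k G := by
  ext j
  rw [coeff_lead, coeff_C_mul, coeff_C_mul, coeff_C_mul, coeff_lead]
  split_ifs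
  · rfl
  · simp

lemma lead_PG_add_smul (k : ℕ) (c R : ↥(Ix d) → ℤ) (t : ℤ) :
    lead k (PG (c + t • R)) = lead k (PG c) + C t * lead k (PG R) := by
  rw [PG_add, PG_smul, lead_add, lead_CC_mul]

lemma lead_PG_sub_smul (k : ℕ) (c R : ↥(Ix d) → ℤ) (t : ℤ) :
    lead k (PG (c - t • R)) = lead k (PG c) - C t * lead k (PG R) := by
  have h : c - t • R = c + (-t) • R := by rw [neg_smul, sub_eq_add_neg]
  rw [h, lead_PG_add_smul, map_neg, neg_mul, sub_eq_add_neg]

lemma ff_add_smul (c R : ↥(Ix d) → ℤ) (t : ℤ) : ff (c + t • R) = ff c + C t * ff R :=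
  lead_PG_add_smul d c R t

lemma ff_sub_smul (c R : ↥(Ix d) → ℤ) (t : ℤ) : ff (c - t • R) = ff c - C t * ff R :=
  lead_PG_sub_smul d c R t

/-- vectors of polynomials vanishing on `S` -/
def Lam (d : ℕ) (S : Finset (ℤ × ℤ)) : AddSubgroup (↥(Ix d) → ℤ) where
  carrier := {c | ∀ p ∈ S, ev p.1 p.2 (PG c) = 0}
  zero_mem' := by
    intro p _
    have : PG (0 : ↥(Ix d) → ℤ) = 0 := by
      ext j i
      rw [coeff_PG, cf]
      simp
    rw [this, map_zero]
  add_mem' := by
    intro c c' hc hc' p hp
    rw [PG_add, map_add, hc p hp, hc' p hp, add_zero]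
  neg_mem' := by
    intro c hc p hp
    have : PG (-c) = C (C (-1)) * PG c := by rw [← PG_smul, neg_one_smul]
    rw [this, map_mul, hc p hp, mul_zero]

lemma mem_Lam {S : Finset (ℤ × ℤ)} {c : ↥(Ix d) → ℤ} :
    c ∈ Lam d S ↔ ∀ p ∈ S, ev p.1 p.2 (PG c) = 0 := Iff.rfl

lemma dir_exists (S : Finset (ℤ × ℤ)) (j i : ℕ) (hS : S.card ≤ i ∨ S.card ≤ j) :
    ∃ G : ℤ[X][X], TD (j + i) G ∧ lead (j + i) G = X ^ j ∧ ∀ p ∈ S, ev p.1 p.2 G = 0 := by
  rcases hS with hS | hS
  · obtain ⟨q, hq⟩ : ∃ q : ℤ[X], q = X ^ (i - S.card) * ∏ p ∈ S, (X - C p.1) := ⟨_, rfl⟩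
    have hqm : q.Monic := by
      rw [hq]
      exact (monic_X_pow _).mul (monic_prod_of_monic _ _ fun p _ => monic_X_sub_C _)
    have hqd : q.natDegree = i := by
      rw [hq, (monic_X_pow _).natDegree_mul (monic_prod_of_monic _ _ fun p _ => monic_X_sub_C _),
        natDegree_X_pow, natDegree_prod_of_monic _ _ (fun p _ => monic_X_sub_C _)]
      simp only [natDegree_X_sub_C, Finset.sum_const, smul_eq_mul, mul_one]
      omega
    refine ⟨monomial j q, ⟨?_, ?_⟩, ?_, ?_⟩
    · exact (natDegree_monomial_le _).trans (by omega)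
    · intro k
      rw [coeff_monomial]
      split_ifs with h
      · rw [hqd]; omega
      · simp
    · ext k
      rw [coeff_lead, coeff_monomial, coeff_X_pow]
      by_cases hk : j = k
      · subst hk
        rw [if_pos (by omega), if_pos rfl, if_pos rfl]
        have : j + i - j = q.natDegree := by omega
        rw [this]
        exact hqm
      · have hk' : ¬ k = j := fun h => hk h.symm
        simp [hk, hk']
    · intro p hp
      rw [← C_mul_X_pow_eq_monomial, map_mul, ev_C]
      have : evf p.1 q = 0 := by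
        rw [hq, map_mul, map_prod]
        rw [Finset.prod_eq_zero hp, mul_zero]
        rw [map_sub, evf_X, evf_C]; simp
      rw [this, zero_mul]
  · obtain ⟨q, hq⟩ : ∃ q : ℤ[X], q = X ^ (j - S.card) * ∏ p ∈ S, (X - C p.2) := ⟨_, rfl⟩
    have hqm : q.Monic := by
      rw [hq]
      exact (monic_X_pow _).mul (monic_prod_of_monic _ _ fun p _ => monic_X_sub_C _)
    have hqd : q.natDegree = j := by
      rw [hq, (monic_X_pow _).natDegree_mul (monic_prod_of_monic _ _ fun p _ => monic_X_sub_C _),
        natDegree_X_pow, natDegree_prod_of_monic _ _ (fun p _ => monic_X_sub_C _)]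
      simp only [natDegree_X_sub_C, Finset.sum_const, smul_eq_mul, mul_one]
      omega
    have hco : ∀ k, (C (X ^ i) * q.map C : ℤ[X][X]).coeff k = X ^ i * C (q.coeff k) := by
      intro k
      rw [coeff_C_mul, coeff_map]
    refine ⟨C (X ^ i) * q.map C, ⟨?_, ?_⟩, ?_, ?_⟩
    · refine (natDegree_C_mul_le _ _).trans ?_
      rw [natDegree_map_eq_of_injective C_injective, hqd]
      omega
    · intro k
      rw [hco]
      by_cases hk : k ≤ j
      · refine (natDegree_mul_C_le _ _).trans ?_
        rw [natDegree_X_pow]; omega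
      · rw [coeff_eq_zero_of_natDegree_lt (by omega), map_zero, mul_zero]
        simp
    · ext k
      rw [coeff_lead, hco, coeff_X_pow]
      by_cases hk : k = j
      · subst hk
        rw [if_pos (by omega), if_pos rfl]
        have e1 : k + i - k = i := by omega
        have e2 : q.coeff k = 1 := by
          have := hqm.coeff_natDegree
          rwa [hqd] at this
        rw [e1, e2, coeff_mul_C, coeff_X_pow, if_pos rfl, one_mul]
      · rw [if_neg hk]
        split_ifs with h
        · rw [coeff_mul_C, coeff_X_pow]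
          by_cases hk2 : k < j
          · rw [if_neg (by omega), zero_mul]
          · rw [coeff_eq_zero_of_natDegree_lt (p := q) (by omega), mul_zero]
        · rfl
    · intro p hp
      rw [map_mul]
      have : ev p.1 p.2 (q.map C) = 0 := by
        rw [hq, Polynomial.map_mul, Polynomial.map_prod, map_mul, map_prod]
        rw [Finset.prod_eq_zero hp, mul_zero]
        rw [Polynomial.map_sub, map_X, map_C, map_sub, ev_X, ev_C, evf_C]; simp
      rw [this, mul_zero]

lemma TD_mul_lin {k : ℕ} {G L : ℤ[X][X]} (hG : TD k G) (hL : (∃ v : ℤ, L = C (X - C v)) ∨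
    ∃ v : ℤ, L = X - C (C v)) : TD (k + 1) (G * L) := by
  rcases hL with ⟨v, rfl⟩ | ⟨v, rfl⟩
  · constructor
    · exact (natDegree_mul_C_le _ _).trans (by have := hG.1; omega)
    · intro j
      rw [coeff_mul_C]
      by_cases hj : j ≤ k
      · refine natDegree_mul_le.trans ?_
        rw [natDegree_X_sub_C]
        have := hG.2 j
        omega
      · rw [coeff_eq_zero_of_natDegree_lt (p := G) (by have := hG.1; omega), zero_mul]
        simp
  · constructor
    · refine natDegree_mul_le.trans ?_
      rw [natDegree_X_sub_C]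
      have := hG.1
      omega
    · intro j
      rw [mul_sub, coeff_sub, coeff_mul_C]
      rcases Nat.eq_zero_or_pos j with h0 | h0
      · rw [h0, coeff_mul_X_zero, zero_sub, natDegree_neg]
        refine (natDegree_mul_C_le _ _).trans ?_
        have := hG.2 0
        omega
      · obtain ⟨j', rfl⟩ : ∃ j', j = j' + 1 := ⟨j - 1, by omega⟩
        rw [coeff_mul_X]
        refine (natDegree_sub_le _ _).trans (max_le ?_ ?_)
        · have := hG.2 j'
          omega
        · refine (natDegree_mul_C_le _ _).trans ?_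
          have := hG.2 (j' + 1)
          omega

/-- a finite family of polynomials vanishing on `S` without further common integer zero -/
lemma sep_exists (S : Finset (ℤ × ℤ)) : ∃ 𝒢 : Finset ℤ[X][X],
    (∀ G ∈ 𝒢, TD S.card G ∧ ∀ p ∈ S, ev p.1 p.2 G = 0) ∧
    ∀ Q : ℤ × ℤ, Q ∉ S → ∃ G ∈ 𝒢, ev Q.1 Q.2 G ≠ 0 := by
  classical
  induction S using Finset.induction_on with
  | empty =>
    refine ⟨{1}, ?_, ?_⟩
    · intro G hG
      rw [Finset.mem_singleton] at hG
      subst hG
      refine ⟨⟨by simp, ?_⟩, by simp⟩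
      intro j
      rw [coeff_one]
      split_ifs <;> simp
    · intro Q _
      exact ⟨1, by simp, by simp⟩
  | insert P S hP ih =>
    obtain ⟨𝒢, h1, h2⟩ := ih
    refine ⟨𝒢.image (fun G => G * C (X - C P.1)) ∪ 𝒢.image (fun G => G * (X - C (C P.2))), ?_, ?_⟩
    · intro G' hG'
      rw [Finset.card_insert_of_notMem hP]
      rw [Finset.mem_union, Finset.mem_image, Finset.mem_image] at hG'
      rcases hG' with ⟨G, hG, rfl⟩ | ⟨G, hG, rfl⟩
      · refine ⟨TD_mul_lin (h1 G hG).1 (Or.inl ⟨_, rfl⟩), ?_⟩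
        intro p hp
        rw [Finset.mem_insert] at hp
        rw [map_mul, ev_C, map_sub, evf_X, evf_C]
        rcases hp with rfl | hp
        · simp
        · rw [(h1 G hG).2 p hp, zero_mul]
      · refine ⟨TD_mul_lin (h1 G hG).1 (Or.inr ⟨_, rfl⟩), ?_⟩
        intro p hp
        rw [Finset.mem_insert] at hp
        rw [map_mul, map_sub, ev_X, ev_C, evf_C]
        rcases hp with rfl | hp
        · simp
        · rw [(h1 G hG).2 p hp, zero_mul]
    · intro Q hQ
      rw [Finset.mem_insert, not_or] at hQ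
      obtain ⟨G, hG, hGQ⟩ := h2 Q hQ.2
      by_cases h : Q.1 = P.1
      · refine ⟨G * (X - C (C P.2)), ?_, ?_⟩
        · rw [Finset.mem_union, Finset.mem_image, Finset.mem_image]
          right; exact ⟨G, hG, rfl⟩
        · rw [map_mul, map_sub, ev_X, ev_C, evf_C]
          apply mul_ne_zero hGQ
          intro h0
          apply hQ.1
          apply Prod.ext h
          simpa [sub_eq_zero] using h0
      · refine ⟨G * C (X - C P.1), ?_, ?_⟩
        · rw [Finset.mem_union, Finset.mem_image, Finset.mem_image]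
          left; exact ⟨G, hG, rfl⟩
        · rw [map_mul, ev_C, map_sub, evf_X, evf_C]
          apply mul_ne_zero hGQ
          intro h0
          apply h
          simpa [sub_eq_zero] using h0

end Pool.Agent.H322R2
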