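import Pool.Agent.H322R2.ZDiv

/-!
Divided differences of polynomials at three points, general noise.
-/

open Finset

namespace Pool.Agent.H322R2

section

variable {s1 s2 s3 S : ℝ} (h12 : s1 ≠ s2) (h13 : s1 ≠ s3) (h23 : s2 ≠ s3)

include h12 h13 h23 in
/-- the coefficients of order two and zero -/
lemma coef_two' (a : ℕ → ℝ) (n : ℕ) {τ2 τ0 A0 : ℝ} (h1 : |s1| ≤ S) (h2 : |s2| ≤ S) (h3 : |s3| ≤ S)
    (hS0 : 0 < S)
    (g1 : |(∑ m ∈ range (n + 3), a m * s1 ^ m) / ((s1 - s2) * (s1 - s3))| ≤ τ2)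
    (g2 : |(∑ m ∈ range (n + 3), a m * s2 ^ m) / ((s2 - s1) * (s2 - s3))| ≤ τ2)
    (g3 : |(∑ m ∈ range (n + 3), a m * s3 ^ m) / ((s3 - s1) * (s3 - s2))| ≤ τ2)
    (k1 : |(∑ m ∈ range (n + 3), a m * s1 ^ m) * (s2 * s3) / ((s1 - s2) * (s1 - s3))| ≤ τ0)
    (k2 : |(∑ m ∈ range (n + 3), a m * s2 ^ m) * (s1 * s3) / ((s2 - s1) * (s2 - s3))| ≤ τ0)
    (k3 : |(∑ m ∈ range (n + 3), a m * s3 ^ m) * (s1 * s2) / ((s3 - s1) * (s3 - s2))| ≤ τ0)
    (hA0 : 0 ≤ A0) (ha : ∀ m < n, |a (m + 3)| * S ^ m ≤ A0) :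
    |a 2| ≤ 3 * τ2 + n * (n + 3) ^ 2 * (A0 * S) ∧
    |a 0| ≤ 3 * τ0 + n * (n + 3) ^ 2 * (A0 * S ^ 3) := by
  have e1 : s1 - s2 ≠ 0 := sub_ne_zero.2 h12
  have e2 : s1 - s3 ≠ 0 := sub_ne_zero.2 h13
  have e3 : s2 - s3 ≠ 0 := sub_ne_zero.2 h23
  obtain ⟨G, hG⟩ : ∃ G : ℝ → ℝ, G = fun s => ∑ m ∈ range (n + 3), a m * s ^ m := ⟨_, rfl⟩
  have hGs : ∀ s, ∑ m ∈ range (n + 3), a m * s ^ m = G s := by intro s; rw [hG]
  rw [hGs] at g1 g2 g3 k1 k2 k3
  have key0 : (G s1 / ((s1 - s2) * (s1 - s3)) + G s2 / ((s2 - s1) * (s2 - s3)) +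
      G s3 / ((s3 - s1) * (s3 - s2))) = ∑ m ∈ range (n + 3), a m * dd2 s1 s2 s3 m := by
    rw [hG]
    simp only
    rw [Finset.sum_div, Finset.sum_div, Finset.sum_div, ← Finset.sum_add_distrib,
      ← Finset.sum_add_distrib]
    apply Finset.sum_congr rfl
    intro m _
    unfold dd2
    ring
  have hsplit : ∑ m ∈ range (n + 3), a m * dd2 s1 s2 s3 m
      = a 2 + ∑ m ∈ range n, a (m + 3) * dd2 s1 s2 s3 (m + 3) := by
    rw [Finset.sum_range_succ', Finset.sum_range_succ', Finset.sum_range_succ']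
    simp only [zero_add]
    rw [dd2_zero h12 h13 h23, dd2_one h12 h13 h23,
      show (1 + 1 : ℕ) = 2 from rfl, dd2_two h12 h13 h23]
    have : ∀ m, m + 1 + 1 + 1 = m + 3 := fun m => rfl
    simp only [this]
    ring
  rw [hsplit] at key0
  have hrest : |∑ m ∈ range n, a (m + 3) * dd2 s1 s2 s3 (m + 3)| ≤
      n * (n + 3) ^ 2 * (A0 * S) := by
    refine (Finset.abs_sum_le_sum_abs _ _).trans ?_
    refine (Finset.sum_le_card_nsmul _ _ ((n + 3) ^ 2 * (A0 * S)) ?_).trans ?_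
    · intro m hm
      rw [Finset.mem_range] at hm
      have h5 := dd2_bound h12 h13 h23 h1 h2 h3 (m + 1)
      rw [show m + 1 + 2 = m + 3 from rfl] at h5
      rw [abs_mul]
      have h6 : ((((m + 1 : ℕ) : ℝ) + 2) ^ 2) ≤ ((n : ℝ) + 3) ^ 2 := by
        apply pow_le_pow_left₀ (by positivity)
        have : (m : ℝ) + 1 ≤ n := by exact_mod_cast hm
        push_cast; linarith
      calc |a (m + 3)| * |dd2 s1 s2 s3 (m + 3)|
          ≤ |a (m + 3)| * (((n : ℝ) + 3) ^ 2 * S ^ (m + 1)) :=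
            mul_le_mul_of_nonneg_left (h5.trans (mul_le_mul_of_nonneg_right h6 (by positivity)))
              (abs_nonneg _)
        _ = ((n : ℝ) + 3) ^ 2 * ((|a (m + 3)| * S ^ m) * S) := by ring
        _ ≤ ((n : ℝ) + 3) ^ 2 * (A0 * S) := by
          apply mul_le_mul_of_nonneg_left _ (by positivity)
          exact mul_le_mul_of_nonneg_right (ha m hm) hS0.le
    · rw [Finset.card_range, nsmul_eq_mul]
      apply le_of_eq; ring
  constructor
  · have h5 : a 2 = (G s1 / ((s1 - s2) * (s1 - s3)) + G s2 / ((s2 - s1) * (s2 - s3)) +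
      G s3 / ((s3 - s1) * (s3 - s2))) - ∑ m ∈ range n, a (m + 3) * dd2 s1 s2 s3 (m + 3) := by
      rw [key0]; ring
    rw [h5]
    refine (abs_sub _ _).trans ?_
    have t4 := abs_add_le (G s1 / ((s1 - s2) * (s1 - s3)) + G s2 / ((s2 - s1) * (s2 - s3)))
      (G s3 / ((s3 - s1) * (s3 - s2)))
    have t5 := abs_add_le (G s1 / ((s1 - s2) * (s1 - s3))) (G s2 / ((s2 - s1) * (s2 - s3)))
    linarith
  · -- extrapolation to zero
    have key2 : (G s1 * (s2 * s3) / ((s1 - s2) * (s1 - s3)) + G s2 * (s1 * s3) /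
        ((s2 - s1) * (s2 - s3)) + G s3 * (s1 * s2) / ((s3 - s1) * (s3 - s2)))
        = a 0 + s1 * s2 * s3 * ∑ m ∈ range n, a (m + 3) * dd2 s1 s2 s3 (m + 2) := by
      have h5 : ∀ s : ℝ, G s = a 0 + s * ∑ m ∈ range (n + 2), a (m + 1) * s ^ m := by
        intro s
        rw [hG]
        simp only
        rw [Finset.sum_range_succ', Finset.mul_sum, pow_zero, mul_one, add_comm]
        congr 1
        apply Finset.sum_congr rfl
        intro m _
        ring
      have h6 : ∑ m ∈ range (n + 2), a (m + 1) * dd2 s1 s2 s3 m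
          = ∑ m ∈ range n, a (m + 3) * dd2 s1 s2 s3 (m + 2) := by
        rw [Finset.sum_range_succ', Finset.sum_range_succ']
        rw [dd2_zero h12 h13 h23, show (0 + 1 : ℕ) = 1 from rfl, dd2_one h12 h13 h23]
        have : ∀ m, m + 1 + 1 = m + 2 := fun m => rfl
        simp only [this]
        have h7 : ∀ m, m + 2 + 1 = m + 3 := fun m => rfl
        simp only [h7]
        ring
      have h7 : a 0 * (s2 * s3 / ((s1 - s2) * (s1 - s3)) + s1 * s3 / ((s2 - s1) * (s2 - s3)) +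
          s1 * s2 / ((s3 - s1) * (s3 - s2))) = a 0 := by
        have f4 : s2 - s1 = -(s1 - s2) := by ring
        have f5 : s3 - s1 = -(s1 - s3) := by ring
        have f6 : s3 - s2 = -(s2 - s3) := by ring
        have : (s2 * s3 / ((s1 - s2) * (s1 - s3)) + s1 * s3 / ((s2 - s1) * (s2 - s3)) +
          s1 * s2 / ((s3 - s1) * (s3 - s2))) = 1 := by
          rw [f4, f5, f6]
          field_simp
          ring
        rw [this, mul_one]
      have h8 : ∑ m ∈ range (n + 2), a (m + 1) * dd2 s1 s2 s3 m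
          = (∑ m ∈ range (n + 2), a (m + 1) * s1 ^ m) / ((s1 - s2) * (s1 - s3)) +
            (∑ m ∈ range (n + 2), a (m + 1) * s2 ^ m) / ((s2 - s1) * (s2 - s3)) +
            (∑ m ∈ range (n + 2), a (m + 1) * s3 ^ m) / ((s3 - s1) * (s3 - s2)) := by
        rw [Finset.sum_div, Finset.sum_div, Finset.sum_div, ← Finset.sum_add_distrib,
          ← Finset.sum_add_distrib]
        apply Finset.sum_congr rfl
        intro m _
        unfold dd2
        ring
      rw [← h6, h8, h5 s1, h5 s2, h5 s3]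
      conv_rhs => rw [← h7]
      ring
    have h5 : a 0 = (G s1 * (s2 * s3) / ((s1 - s2) * (s1 - s3)) + G s2 * (s1 * s3) /
        ((s2 - s1) * (s2 - s3)) + G s3 * (s1 * s2) / ((s3 - s1) * (s3 - s2)))
        - s1 * s2 * s3 * ∑ m ∈ range n, a (m + 3) * dd2 s1 s2 s3 (m + 2) := by
      rw [key2]; ring
    have hrest2 : |s1 * s2 * s3 * ∑ m ∈ range n, a (m + 3) * dd2 s1 s2 s3 (m + 2)|
        ≤ n * (n + 3) ^ 2 * (A0 * S ^ 3) := by
      rw [abs_mul]
      have g1 : |s1 * s2 * s3| ≤ S ^ 3 := by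
        rw [abs_mul, abs_mul]
        calc |s1| * |s2| * |s3| ≤ S * S * S := by gcongr
          _ = _ := by ring
      have g2 : |∑ m ∈ range n, a (m + 3) * dd2 s1 s2 s3 (m + 2)| ≤ n * ((n + 3) ^ 2 * A0) := by
        refine (Finset.abs_sum_le_sum_abs _ _).trans ?_
        refine (Finset.sum_le_card_nsmul _ _ ((n + 3) ^ 2 * A0) ?_).trans ?_
        · intro m hm
          rw [Finset.mem_range] at hm
          have h5 := dd2_bound h12 h13 h23 h1 h2 h3 m
          rw [abs_mul]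
          have h6 : ((m : ℝ) + 2) ^ 2 ≤ ((n : ℝ) + 3) ^ 2 := by
            apply pow_le_pow_left₀ (by positivity)
            have : (m : ℝ) + 1 ≤ n := by exact_mod_cast hm
            linarith
          calc |a (m + 3)| * |dd2 s1 s2 s3 (m + 2)|
              ≤ |a (m + 3)| * (((n : ℝ) + 3) ^ 2 * S ^ m) :=
                mul_le_mul_of_nonneg_left (h5.trans (mul_le_mul_of_nonneg_right h6 (by positivity)))
                  (abs_nonneg _)
            _ = ((n : ℝ) + 3) ^ 2 * (|a (m + 3)| * S ^ m) := by ring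
            _ ≤ ((n : ℝ) + 3) ^ 2 * A0 := mul_le_mul_of_nonneg_left (ha m hm) (by positivity)
        · rw [Finset.card_range, nsmul_eq_mul]
      calc |s1 * s2 * s3| * |∑ m ∈ range n, a (m + 3) * dd2 s1 s2 s3 (m + 2)|
          ≤ S ^ 3 * (n * ((n + 3) ^ 2 * A0)) := mul_le_mul g1 g2 (abs_nonneg _) (by positivity)
        _ = _ := by ring
    rw [h5]
    refine (abs_sub _ _).trans ?_
    have t4 := abs_add_le (G s1 * (s2 * s3) / ((s1 - s2) * (s1 - s3)) + G s2 * (s1 * s3) /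
        ((s2 - s1) * (s2 - s3))) (G s3 * (s1 * s2) / ((s3 - s1) * (s3 - s2)))
    have t5 := abs_add_le (G s1 * (s2 * s3) / ((s1 - s2) * (s1 - s3))) (G s2 * (s1 * s3) /
        ((s2 - s1) * (s2 - s3)))
    linarith

end

end Pool.Agent.H322R2
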