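import Pool.Agent.H322R2.Box

/-!
Integer points near a line: few, or near a line of very good rational slope.
-/

open Finset

namespace Pool.Agent.H322R2

/-- the point is in the range of a very good rational approximation to the slope -/
def VR (η r0 : ℝ) (P : ℤ × ℤ) : Prop :=
  ∃ A B : ℤ, 1 ≤ A ∧ IsCoprime A B ∧ 16 * r0 * A ≤ |(P.1 : ℝ)| ∧
    |(A : ℝ) * η - B| * |(P.1 : ℝ)| ≤ 1 / 4

lemma triple_slope {x1 y1 x2 y2 : ℤ} (h1 : x1 ≠ 0) (h2 : x2 ≠ 0) (h12 : x1 ≠ x2)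
    (hc : x1 * y2 = x2 * y1) : ∃ A B : ℤ, 1 ≤ A ∧ IsCoprime A B ∧ A * y1 = B * x1 ∧ A * y2 = B * x2 ∧
      (2 * A ≤ |x1| ∨ 2 * A ≤ |x2| ∨ 2 * A ≤ |x2 - x1|) := by
  -- first, with a sign
  have key : ∀ x1 y1 x2 y2 : ℤ, 0 < x1 → x2 ≠ 0 → x1 ≠ x2 → x1 * y2 = x2 * y1 →
      ∃ A B : ℤ, 1 ≤ A ∧ IsCoprime A B ∧ A * y1 = B * x1 ∧ A * y2 = B * x2 ∧
      (2 * A ≤ |x1| ∨ 2 * A ≤ |x2| ∨ 2 * A ≤ |x2 - x1|) := by
    intro x1 y1 x2 y2 h1 h2 h12 hc
    obtain ⟨g, hg⟩ : ∃ g : ℤ, g = Int.gcd x1 y1 := ⟨_, rfl⟩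
    have hg0 : 0 < g := by
      rw [hg]
      have : 0 < Int.gcd x1 y1 := Int.gcd_pos_of_ne_zero_left _ (by omega)
      exact_mod_cast this
    obtain ⟨A, hA⟩ : g ∣ x1 := by rw [hg]; exact Int.gcd_dvd_left ..
    obtain ⟨B, hB⟩ : g ∣ y1 := by rw [hg]; exact Int.gcd_dvd_right ..
    have hA0 : 0 < A := by
      by_contra hcon
      push Not at hcon
      have : g * A ≤ 0 := mul_nonpos_of_nonneg_of_nonpos hg0.le hcon
      omega
    have hcop : IsCoprime A B := by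
      rw [Int.isCoprime_iff_gcd_eq_one]
      have h5 : Int.gcd x1 y1 = g.natAbs * Int.gcd A B := by
        rw [hA, hB, Int.gcd_mul_left]
      have h6 : g.natAbs = Int.gcd x1 y1 := by rw [hg]; simp
      rw [← h6] at h5
      have h7 : 0 < g.natAbs := by omega
      exact (Nat.eq_of_mul_eq_mul_left h7 (by rw [mul_one]; exact h5)).symm
    have e1 : A * y2 = B * x2 := by
      have h5 : g * (A * y2) = g * (B * x2) := by
        calc g * (A * y2) = x1 * y2 := by rw [hA]; ring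
          _ = x2 * y1 := hc
          _ = g * (B * x2) := by rw [hB]; ring
      exact mul_left_cancel₀ hg0.ne' h5
    refine ⟨A, B, hA0, hcop, by rw [hA, hB]; ring, e1, ?_⟩
    obtain ⟨m, hm⟩ : A ∣ x2 := by
      apply hcop.dvd_of_dvd_mul_left
      rw [← e1]
      exact dvd_mul_right _ _
    have hm0 : m ≠ 0 := by
      intro hh; rw [hh, mul_zero] at hm; exact h2 hm
    have hgm : g ≠ m := by
      intro hh
      apply h12
      rw [hA, hm, hh]; ring
    have hx1 : |x1| = g * A := by rw [hA]; exact abs_of_pos (mul_pos hg0 hA0)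
    have hx2 : |x2| = |m| * A := by rw [hm, abs_mul, abs_of_pos hA0]; ring
    have hx3 : |x2 - x1| = |m - g| * A := by
      have : x2 - x1 = (m - g) * A := by rw [hm, hA]; ring
      rw [this, abs_mul, abs_of_pos hA0]
    rw [hx1, hx2, hx3]
    by_cases c1 : 2 ≤ g
    · left; nlinarith
    right
    have hg1 : g = 1 := by omega
    by_cases c2 : 2 ≤ |m|
    · left; nlinarith
    right
    have : 2 ≤ |m - g| := by
      have hm1 := abs_pos.2 hm0
      have h5 : |m| = 1 := by omega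
      rcases abs_eq (by norm_num : (0 : ℤ) ≤ 1) |>.1 h5 with h6 | h6
      · exact absurd (by omega) hgm
      · rw [h6, hg1]; norm_num
    nlinarith
  rcases lt_or_gt_of_ne h1 with h | h
  · obtain ⟨A, B, k1, k2, k3, k4, k5⟩ := key (-x1) (-y1) (-x2) (-y2) (by omega) (by omega) (by omega)
      (by linear_combination hc)
    refine ⟨A, B, k1, k2, by linear_combination -k3, by linear_combination -k4, ?_⟩
    rw [abs_neg, abs_neg, show -x2 - -x1 = -(x2 - x1) by ring, abs_neg] at k5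
    exact k5
  · exact key x1 y1 x2 y2 h h2 h12 hc

section

variable {η β r0 X : ℝ}

/-- three points in a short window -/
lemma window_slope (hr0 : 1 ≤ r0) (hX : 4 * r0 ≤ X) {P0 P1 P2 : ℤ × ℤ}
    (h01 : P0 ≠ P1) (h02 : P0 ≠ P2) (h12 : P1 ≠ P2)
    (hn : ∀ P ∈ ({P0, P1, P2} : Set (ℤ × ℤ)), |(P.2 : ℝ) - η * P.1 - β| ≤ r0 / X)
    (hw : ∀ P ∈ ({P0, P1, P2} : Set (ℤ × ℤ)), ∀ Q ∈ ({P0, P1, P2} : Set (ℤ × ℤ)),
      |(P.1 : ℝ) - Q.1| ≤ X / (8 * r0)) :
    ∃ A B : ℤ, 1 ≤ A ∧ IsCoprime A B ∧ 16 * r0 * A ≤ X ∧ |(A : ℝ) * η - B| ≤ r0 / X := by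
  have hr00 : 0 < r0 := by linarith
  have hX0 : 0 < X := by linarith
  have hrX : r0 / X ≤ 1 / 4 := by rw [div_le_div_iff₀ hX0 (by norm_num)]; linarith
  have n0 := hn P0 (by simp)
  have n1 := hn P1 (by simp)
  have n2 := hn P2 (by simp)
  obtain ⟨e, he⟩ : ∃ e : ℤ × ℤ → ℝ, e = fun P => (P.2 : ℝ) - η * P.1 - β := ⟨_, rfl⟩
  have hne : ∀ P Q : ℤ × ℤ, |(P.2 : ℝ) - η * P.1 - β| ≤ r0 / X → |(Q.2 : ℝ) - η * Q.1 - β| ≤ r0 / X →
      P ≠ Q → P.1 ≠ Q.1 := by
    intro P Q hP hQ hPQ h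
    apply hPQ
    apply Prod.ext h
    have h5 : |(P.2 : ℝ) - Q.2| < 1 := by
      have h6 : (P.2 : ℝ) - Q.2 = ((P.2 : ℝ) - η * P.1 - β) - ((Q.2 : ℝ) - η * Q.1 - β) := by
        rw [h]; ring
      rw [h6]
      refine lt_of_le_of_lt (abs_sub _ _) ?_
      linarith
    have h7 : |P.2 - Q.2| < 1 := by exact_mod_cast h5
    have h8 := abs_nonneg (P.2 - Q.2)
    have h9 : |P.2 - Q.2| = 0 := by omega
    have := abs_eq_zero.1 h9
    omega
  have a01 := hne P0 P1 n0 n1 h01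
  have a02 := hne P0 P2 n0 n2 h02
  have a12 := hne P1 P2 n1 n2 h12
  have hed : ∀ P Q : ℤ × ℤ, |(P.2 : ℝ) - η * P.1 - β| ≤ r0 / X → |(Q.2 : ℝ) - η * Q.1 - β| ≤ r0 / X →
      |e P - e Q| ≤ 2 * (r0 / X) := by
    intro P Q hP hQ
    rw [he]
    refine (abs_sub _ _).trans ?_
    simp only
    linarith
  have hdet : (P1.1 - P0.1) * (P2.2 - P0.2) = (P2.1 - P0.1) * (P1.2 - P0.2) := by
    obtain ⟨D, hD⟩ : ∃ D : ℤ, D = (P1.1 - P0.1) * (P2.2 - P0.2) - (P2.1 - P0.1) * (P1.2 - P0.2) :=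
      ⟨_, rfl⟩
    have e1 : (D : ℝ) = ((P1.1 : ℝ) - P0.1) * (e P2 - e P0) - ((P2.1 : ℝ) - P0.1) * (e P1 - e P0) := by
      rw [hD, he]; push_cast; ring
    have e3 : |(D : ℝ)| < 1 := by
      rw [e1]
      refine lt_of_le_of_lt (abs_sub _ _) ?_
      rw [abs_mul, abs_mul]
      have g1 : |(P1.1 : ℝ) - P0.1| * |e P2 - e P0| ≤ (X / (8 * r0)) * (2 * (r0 / X)) :=
        mul_le_mul (hw P1 (by simp) P0 (by simp)) (hed _ _ n2 n0) (abs_nonneg _) (by positivity)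
      have g2 : |(P2.1 : ℝ) - P0.1| * |e P1 - e P0| ≤ (X / (8 * r0)) * (2 * (r0 / X)) :=
        mul_le_mul (hw P2 (by simp) P0 (by simp)) (hed _ _ n1 n0) (abs_nonneg _) (by positivity)
      have g3 : (X / (8 * r0)) * (2 * (r0 / X)) = 1 / 4 := by field_simp; norm_num
      rw [g3] at g1 g2
      linarith
    have e4 : |D| < 1 := by exact_mod_cast e3
    have := abs_nonneg D
    have e5 : |D| = 0 := by omega
    have := abs_eq_zero.1 e5
    omega
  obtain ⟨A, B, hA1, hcop, k1, k2, k3⟩ := triple_slope (x1 := P1.1 - P0.1) (y1 := P1.2 - P0.2)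
    (x2 := P2.1 - P0.1) (y2 := P2.2 - P0.2) (sub_ne_zero.2 a01.symm) (sub_ne_zero.2 a02.symm)
    (by intro h; apply a12; omega) hdet
  have hA0 : (0 : ℝ) < A := by exact_mod_cast hA1
  refine ⟨A, B, hA1, hcop, ?_⟩
  -- a pair at distance at least `2 A`
  have hpair : ∀ P Q : ℤ × ℤ, |(P.2 : ℝ) - η * P.1 - β| ≤ r0 / X → |(Q.2 : ℝ) - η * Q.1 - β| ≤ r0 / X →
      |(P.1 : ℝ) - Q.1| ≤ X / (8 * r0) → 2 * A ≤ |P.1 - Q.1| → A * (P.2 - Q.2) = B * (P.1 - Q.1) →
      16 * r0 * A ≤ X ∧ |(A : ℝ) * η - B| ≤ r0 / X := by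
    intro P Q hP hQ h1 h2 h3
    have h2' : 2 * (A : ℝ) ≤ |(P.1 : ℝ) - Q.1| := by exact_mod_cast h2
    constructor
    · have h4 := h2'.trans h1
      rw [le_div_iff₀ (by positivity)] at h4
      linarith
    · have h4 : ((A : ℝ) * η - B) * ((P.1 : ℝ) - Q.1) = -(A * (e P - e Q)) := by
        have h3' : (A : ℝ) * ((P.2 : ℝ) - Q.2) = B * ((P.1 : ℝ) - Q.1) := by exact_mod_cast h3
        rw [he]
        simp only
        linear_combination h3'
      have h5 : |(A : ℝ) * η - B| * |(P.1 : ℝ) - Q.1| ≤ A * (2 * (r0 / X)) := by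
        rw [← abs_mul, h4, abs_neg, abs_mul, abs_of_pos hA0]
        exact mul_le_mul_of_nonneg_left (hed _ _ hP hQ) hA0.le
      have h6 : |(A : ℝ) * η - B| * (2 * A) ≤ A * (2 * (r0 / X)) :=
        (mul_le_mul_of_nonneg_left h2' (abs_nonneg _)).trans h5
      have h7 : (2 * (A : ℝ)) * |(A : ℝ) * η - B| ≤ (2 * A) * (r0 / X) := by linarith
      exact le_of_mul_le_mul_left h7 (by positivity)
  rcases k3 with k | k | k
  · exact hpair P1 P0 n1 n0 (hw P1 (by simp) P0 (by simp)) k (by linear_combination k1)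
  · exact hpair P2 P0 n2 n0 (hw P2 (by simp) P0 (by simp)) k (by linear_combination k2)
  · refine hpair P2 P1 n2 n1 (hw P2 (by simp) P1 (by simp)) ?_ (by linear_combination k2 - k1)
    rw [show P2.1 - P0.1 - (P1.1 - P0.1) = P2.1 - P1.1 by ring] at k
    exact k

/-- the count when the rational slope is not very good -/
lemma slope_count (hr0 : 1 ≤ r0) (hX : 4 * r0 ≤ X) {A B : ℤ} (hA : 1 ≤ A) (hcop : IsCoprime A B)
    (h16 : 16 * r0 * A ≤ X) (hle : |(A : ℝ) * η - B| ≤ r0 / X) (hbad : 1 / 8 < |(A : ℝ) * η - B| * X)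
    (N : Finset (ℤ × ℤ)) (hN : ∀ P ∈ N, X ≤ (P.1 : ℝ) ∧ (P.1 : ℝ) ≤ 2 * X ∧
      |(P.2 : ℝ) - η * P.1 - β| ≤ r0 / X) : (N.card : ℝ) ≤ 40 * r0 := by
  classical
  have hr00 : 0 < r0 := by linarith
  have hX0 : 0 < X := by linarith
  have hA0 : (0 : ℝ) < A := by exact_mod_cast hA
  obtain ⟨w, hw⟩ : ∃ w, w = (A : ℝ) * η - B := ⟨_, rfl⟩
  rw [← hw] at hle hbad
  obtain ⟨ρ, hρ⟩ : ∃ ρ, ρ = |w| * X := ⟨_, rfl⟩
  rw [← hρ] at hbad
  have hρ0 : 0 < ρ := by linarith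
  have hw0 : w ≠ 0 := by
    intro h; rw [hρ, h, abs_zero, zero_mul] at hρ0; exact lt_irrefl _ hρ0
  have hwp : 0 < |w| := abs_pos.2 hw0
  have hρr : ρ ≤ r0 := by
    rw [hρ]; rw [le_div_iff₀ hX0] at hle; exact hle
  have hAr : A * (r0 / X) ≤ 1 / 16 := by
    rw [mul_div_assoc', div_le_div_iff₀ hX0 (by norm_num)]
    linarith
  obtain ⟨kf, hkf⟩ : ∃ kf : ℤ × ℤ → ℤ, kf = fun P => A * P.2 - B * P.1 := ⟨_, rfl⟩
  have hid : ∀ P : ℤ × ℤ, ((kf P : ℤ) : ℝ) = A * ((P.2 : ℝ) - η * P.1 - β) + A * β + w * P.1 := by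
    intro P
    rw [hkf, hw]; push_cast; ring
  have hS : (((N.image kf).card : ℕ) : ℝ) ≤ ρ + 9 / 8 := by
    have h1 := card_interval (N.image kf) (-(A * β) - w * (3 * X / 2)) 1 (ρ / 2 + 1 / 16)
      one_ne_zero (by positivity) (by
        intro k hk
        rw [Finset.mem_image] at hk
        obtain ⟨P, hP, rfl⟩ := hk
        obtain ⟨p1, p2, p3⟩ := hN P hP
        rw [hid]
        have e1 : -(A * β) - w * (3 * X / 2) + 1 * (A * ((P.2 : ℝ) - η * P.1 - β) + A * β + w * P.1)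
            = A * ((P.2 : ℝ) - η * P.1 - β) + w * ((P.1 : ℝ) - 3 * X / 2) := by ring
        rw [e1]
        refine (abs_add_le _ _).trans ?_
        rw [abs_mul, abs_mul, abs_of_pos hA0]
        have e2 : |(P.1 : ℝ) - 3 * X / 2| ≤ X / 2 := by
          rw [abs_le]; constructor <;> linarith
        have e3 : |w| * |(P.1 : ℝ) - 3 * X / 2| ≤ ρ / 2 := by
          calc |w| * |(P.1 : ℝ) - 3 * X / 2| ≤ |w| * (X / 2) := mul_le_mul_of_nonneg_left e2 hwp.le
            _ = ρ / 2 := by rw [hρ]; ring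
        have e4 : A * |(P.2 : ℝ) - η * P.1 - β| ≤ 1 / 16 :=
          (mul_le_mul_of_nonneg_left p3 hA0.le).trans hAr
        linarith)
    refine h1.trans (le_of_eq ?_)
    rw [abs_one]; ring
  have hF : ∀ k ∈ N.image kf, (((N.filter (fun P => kf P = k)).card : ℕ) : ℝ) ≤ 2 * r0 / ρ + 1 := by
    intro k hk
    rw [Finset.mem_image] at hk
    obtain ⟨Q, hQ, hQk⟩ := hk
    have hdiv : ∀ P ∈ N.filter (fun P => kf P = k), ∃ t : ℤ, P.1 = Q.1 + A * t ∧ P.2 = Q.2 + B * t := by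
      intro P hP
      rw [Finset.mem_filter] at hP
      have h1 : A * (P.2 - Q.2) = B * (P.1 - Q.1) := by
        have h2 := hP.2
        rw [← hQk, hkf] at h2
        simp only at h2
        linear_combination h2
      obtain ⟨t, ht⟩ : A ∣ P.1 - Q.1 := by
        apply hcop.dvd_of_dvd_mul_left
        rw [← h1]
        exact dvd_mul_right _ _
      refine ⟨t, by omega, ?_⟩
      rw [ht] at h1
      have h3 : A * (P.2 - Q.2) = A * (B * t) := by rw [h1]; ring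
      have h4 := mul_left_cancel₀ (by omega : A ≠ 0) h3
      omega
    choose! t ht1 ht2 using hdiv
    have hinj : Set.InjOn t (N.filter (fun P => kf P = k)) := by
      intro P hP R hR hPR
      rw [Finset.mem_coe] at hP hR
      apply Prod.ext
      · rw [ht1 P hP, ht1 R hR, hPR]
      · rw [ht2 P hP, ht2 R hR, hPR]
    rw [← Finset.card_image_of_injOn hinj]
    have h1 := card_interval ((N.filter (fun P => kf P = k)).image t) (k - A * β - w * Q.1) (-(w * A))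
      (A * (r0 / X)) (neg_ne_zero.2 (mul_ne_zero hw0 hA0.ne')) (by positivity) (by
        intro s hs
        rw [Finset.mem_image] at hs
        obtain ⟨P, hP, rfl⟩ := hs
        have hP' := Finset.mem_filter.1 hP
        obtain ⟨p1, p2, p3⟩ := hN P hP'.1
        have e1 : (k : ℝ) - A * β - w * Q.1 + -(w * A) * t P = A * ((P.2 : ℝ) - η * P.1 - β) := by
          have h2 := hid P
          rw [hP'.2] at h2
          have h3 : (P.1 : ℝ) = Q.1 + A * t P := by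
            have := ht1 P hP
            exact_mod_cast this
          rw [h2, h3]; ring
        rw [e1, abs_mul, abs_of_pos hA0]
        exact mul_le_mul_of_nonneg_left p3 hA0.le)
    refine h1.trans (le_of_eq ?_)
    rw [abs_neg, abs_mul, abs_of_pos hA0, hρ]
    field_simp
  have hcov : N ⊆ (N.image kf).biUnion (fun k => N.filter (fun P => kf P = k)) := by
    intro P hP
    rw [Finset.mem_biUnion]
    exact ⟨kf P, Finset.mem_image_of_mem _ hP, Finset.mem_filter.2 ⟨hP, rfl⟩⟩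
  have h1 : ((N.card : ℕ) : ℝ) ≤ (((N.image kf).biUnion
      (fun k => N.filter (fun P => kf P = k))).card : ℕ) := by exact_mod_cast Finset.card_le_card hcov
  have h2 := card_biUnion_real (N.image kf) (fun k => N.filter (fun P => kf P = k)) (2 * r0 / ρ + 1) hF
  refine h1.trans (h2.trans ?_)
  have h3 : 1 / ρ ≤ 8 := by rw [div_le_iff₀ hρ0]; linarith
  calc (((N.image kf).card : ℕ) : ℝ) * (2 * r0 / ρ + 1) ≤ (ρ + 9 / 8) * (2 * r0 / ρ + 1) :=
        mul_le_mul_of_nonneg_right hS (by positivity)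
    _ = 2 * r0 + ρ + 9 / 4 * r0 * (1 / ρ) + 9 / 8 := by field_simp; ring
    _ ≤ 2 * r0 + r0 + 9 / 4 * r0 * 8 + 9 / 8 * r0 := by
      have : 9 / 4 * r0 * (1 / ρ) ≤ 9 / 4 * r0 * 8 := mul_le_mul_of_nonneg_left h3 (by positivity)
      linarith
    _ ≤ 40 * r0 := by linarith

/-- few points, or a very good rational slope -/
theorem dich_pos (hr0 : 1 ≤ r0) (hX : 4 * r0 ≤ X) (N : Finset (ℤ × ℤ))
    (hN : ∀ P ∈ N, X ≤ (P.1 : ℝ) ∧ (P.1 : ℝ) ≤ 2 * X ∧ |(P.2 : ℝ) - η * P.1 - β| ≤ r0 / X) :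
    (N.card : ℝ) ≤ 40 * r0 ∨ ∃ A B : ℤ, 1 ≤ A ∧ IsCoprime A B ∧ 16 * r0 * A ≤ X ∧
      |(A : ℝ) * η - B| * X ≤ 1 / 8 := by
  classical
  have hr00 : 0 < r0 := by linarith
  have hX0 : 0 < X := by linarith
  by_cases hall : ∀ j : ℤ, (N.filter (fun P => ⌊((P.1 : ℝ) - X) / (X / (8 * r0))⌋ = j)).card ≤ 2
  · left
    have hcov : N ⊆ (N.image (fun P : ℤ × ℤ => ⌊((P.1 : ℝ) - X) / (X / (8 * r0))⌋)).biUnion
        (fun j => N.filter (fun P => ⌊((P.1 : ℝ) - X) / (X / (8 * r0))⌋ = j)) := by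
      intro P hP
      rw [Finset.mem_biUnion]
      exact ⟨_, Finset.mem_image_of_mem _ hP, Finset.mem_filter.2 ⟨hP, rfl⟩⟩
    have h1 : ((N.card : ℕ) : ℝ) ≤ ((((N.image (fun P : ℤ × ℤ =>
        ⌊((P.1 : ℝ) - X) / (X / (8 * r0))⌋)).biUnion
        (fun j => N.filter (fun P => ⌊((P.1 : ℝ) - X) / (X / (8 * r0))⌋ = j)))).card : ℕ) := by
      exact_mod_cast Finset.card_le_card hcov
    have h2 := card_biUnion_real (N.image (fun P : ℤ × ℤ => ⌊((P.1 : ℝ) - X) / (X / (8 * r0))⌋))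
      (fun j => N.filter (fun P => ⌊((P.1 : ℝ) - X) / (X / (8 * r0))⌋ = j)) 2 (by
        intro j _
        exact_mod_cast hall j)
    have h3 := card_interval (N.image (fun P : ℤ × ℤ => ⌊((P.1 : ℝ) - X) / (X / (8 * r0))⌋))
      (-(4 * r0)) 1 (4 * r0 + 1) one_ne_zero (by positivity) (by
        intro j hj
        rw [Finset.mem_image] at hj
        obtain ⟨P, hP, rfl⟩ := hj
        obtain ⟨p1, p2, p3⟩ := hN P hP
        obtain ⟨v, hv⟩ : ∃ v, v = ((P.1 : ℝ) - X) / (X / (8 * r0)) := ⟨_, rfl⟩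
        rw [← hv]
        have e1 : 0 ≤ v := by rw [hv]; apply div_nonneg <;> [linarith; positivity]
        have e2 : v ≤ 8 * r0 := by
          rw [hv, div_le_iff₀ (by positivity)]
          have : 8 * r0 * (X / (8 * r0)) = X := by field_simp
          rw [this]; linarith
        have e3 := Int.floor_le v
        have e4 := Int.lt_floor_add_one v
        rw [abs_le]
        constructor <;> linarith)
    rw [abs_one, div_one] at h3
    refine h1.trans (h2.trans ?_)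
    linarith
  · push Not at hall
    obtain ⟨j, hj⟩ := hall
    obtain ⟨P0, m0, P1, m1, P2, m2, h01, h02, h12⟩ := Finset.two_lt_card.1 hj
    rw [Finset.mem_filter] at m0 m1 m2
    have hset : ∀ P ∈ ({P0, P1, P2} : Set (ℤ × ℤ)), P ∈ N ∧
        ⌊((P.1 : ℝ) - X) / (X / (8 * r0))⌋ = j := by
      intro P hP
      simp only [Set.mem_insert_iff, Set.mem_singleton_iff] at hP
      rcases hP with rfl | rfl | rfl
      · exact m0
      · exact m1
      · exact m2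
    obtain ⟨A, B, q1, q2, q3, q4⟩ := window_slope (η := η) (β := β) hr0 hX h01 h02 h12
      (fun P hP => (hN P (hset P hP).1).2.2) (by
        intro P hP Q hQ
        have e1 := (hset P hP).2
        have e2 := (hset Q hQ).2
        have e3 : |((P.1 : ℝ) - X) / (X / (8 * r0)) - ((Q.1 : ℝ) - X) / (X / (8 * r0))| < 1 :=
          Int.abs_sub_lt_one_of_floor_eq_floor (e1.trans e2.symm)
        have e4 : ((P.1 : ℝ) - X) / (X / (8 * r0)) - ((Q.1 : ℝ) - X) / (X / (8 * r0))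
            = ((P.1 : ℝ) - Q.1) / (X / (8 * r0)) := by ring
        have hL : 0 < X / (8 * r0) := by positivity
        rw [e4, abs_div, abs_of_pos hL, div_lt_one hL] at e3
        exact e3.le)
    by_cases hb : |(A : ℝ) * η - B| * X ≤ 1 / 8
    · right
      exact ⟨A, B, q1, q2, q3, hb⟩
    · left
      push Not at hb
      exact slope_count hr0 hX q1 q2 q3 q4 hb N hN

/-- the two signs -/
theorem dich (hr0 : 1 ≤ r0) (hX : 4 * r0 ≤ X) (σ : ℤ) (hσ : σ = 1 ∨ σ = -1) (N : Finset (ℤ × ℤ))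
    (hN : ∀ P ∈ N, X ≤ ((σ * P.1 : ℤ) : ℝ) ∧ ((σ * P.1 : ℤ) : ℝ) ≤ 2 * X ∧
      |(P.2 : ℝ) - η * P.1 - β| ≤ r0 / X) :
    (N.card : ℝ) ≤ 40 * r0 ∨ ∀ P ∈ N, VR η r0 P := by
  classical
  have hX0 : 0 < X := by linarith
  have habs : ∀ P ∈ N, X ≤ |(P.1 : ℝ)| ∧ |(P.1 : ℝ)| ≤ 2 * X := by
    intro P hP
    obtain ⟨p1, p2, _⟩ := hN P hP
    have h1 : |(P.1 : ℝ)| = |((σ * P.1 : ℤ) : ℝ)| := by
      rcases hσ with rfl | rfl <;> simp
    rw [h1, abs_of_nonneg (by linarith)]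
    exact ⟨p1, p2⟩
  have hconc : (∃ A B : ℤ, 1 ≤ A ∧ IsCoprime A B ∧ 16 * r0 * A ≤ X ∧
      |(A : ℝ) * η - B| * X ≤ 1 / 8) → ∀ P ∈ N, VR η r0 P := by
    rintro ⟨A, B, q1, q2, q3, q4⟩ P hP
    obtain ⟨p1, p2⟩ := habs P hP
    refine ⟨A, B, q1, q2, q3.trans p1, ?_⟩
    calc |(A : ℝ) * η - B| * |(P.1 : ℝ)| ≤ |(A : ℝ) * η - B| * (2 * X) :=
          mul_le_mul_of_nonneg_left p2 (abs_nonneg _)
      _ = 2 * (|(A : ℝ) * η - B| * X) := by ring
      _ ≤ 1 / 4 := by linarith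
  rcases hσ with rfl | rfl
  · rcases dich_pos (η := η) (β := β) hr0 hX N (by
      intro P hP
      have := hN P hP
      rw [one_mul] at this
      exact this) with h | h
    · left; exact h
    · right; exact hconc h
  · have hinj : Function.Injective (fun P : ℤ × ℤ => ((-P.1, -P.2) : ℤ × ℤ)) := by
      intro P Q h
      simp only [Prod.mk.injEq, neg_inj] at h
      exact Prod.ext h.1 h.2
    rcases dich_pos (η := η) (β := -β) hr0 hX (N.image (fun P : ℤ × ℤ => ((-P.1, -P.2) : ℤ × ℤ))) (by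
      intro Q hQ
      rw [Finset.mem_image] at hQ
      obtain ⟨P, hP, rfl⟩ := hQ
      obtain ⟨p1, p2, p3⟩ := hN P hP
      simp only
      push_cast at p1 p2 ⊢
      rw [neg_one_mul] at p1 p2
      refine ⟨p1, p2, ?_⟩
      have e1 : -(P.2 : ℝ) - η * -(P.1 : ℝ) - -β = -((P.2 : ℝ) - η * P.1 - β) := by ring
      rw [e1, abs_neg]
      exact p3) with h | h
    · left
      rw [Finset.card_image_of_injective _ hinj] at h
      exact h
    · right; exact hconc h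

end

end Pool.Agent.H322R2
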