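import Pool.Agent.H322R2.YFin
import Pool.Agent.H322R2.AsmE

/-!
Counting all the curves with a large point: the double fibration.
-/

open Polynomial Finset

namespace Pool.Agent.H322R2

lemma len_le_box {d H : ℕ} {F : MvPolynomial (Fin 2) ℤ} (h1 : F.totalDegree ≤ d)
    (h2 : ∀ n, |F.coeff n| ≤ (H : ℤ)) : len F ≤ (Ix d).card * H := by
  obtain ⟨c, hc, rfl⟩ := FM_memV.1 ⟨h1, h2⟩
  exact len_FM hc

lemma card_filter_le_of_base {α : Type*} [DecidableEq α] (s : Finset α) (N : ℕ)
    (h : ∀ a ∈ s, s.card ≤ N) : s.card ≤ N := by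
  rcases s.eq_empty_or_nonempty with h0 | ⟨a, ha⟩
  · rw [h0]; simp
  · exact h a ha

theorem YF_count {d H : ℕ} (hd : 4 ≤ d) (E : Finset (MvPolynomial (Fin 2) ℤ))
    (hE : ∀ F ∈ E, F.totalDegree = d ∧ (∀ n, |F.coeff n| ≤ (H : ℤ)) ∧
      Irreducible (MvPolynomial.map (Int.castRingHom ℚ)
        (MvPolynomial.homogeneousComponent F.totalDegree F)) ∧
      ∃ x y : ℤ, MvPolynomial.eval ![x, y] F = 0 ∧
        ((d + 1) * ((Ix d).card * (2 * H))) ^ (kC d) < max x.natAbs y.natAbs) :
    E.card ≤ (160 * d ^ 2 * kap d) * d * (2 * H + 1) ^ (4 * d - 2) * (d - 1) := by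
  classical
  obtain ⟨H', hH'⟩ : ∃ H', H' = (Ix d).card * (2 * H) := ⟨_, rfl⟩
  obtain ⟨M, hM⟩ : ∃ M : ℝ, M = ((H' : ℝ) * (1 + d) ^ d) ^ d := ⟨_, rfl⟩
  rw [← hH'] at hE
  have hdeg : ∀ F ∈ E, F.totalDegree = d := fun F hF => (hE F hF).1
  have hcoe : ∀ F ∈ E, ∀ n, |F.coeff n| ≤ (H : ℤ) := fun F hF => (hE F hF).2.1
  have hirr : ∀ F ∈ E, Irreducible (MvPolynomial.map (Int.castRingHom ℚ)
        (MvPolynomial.homogeneousComponent F.totalDegree F)) := fun F hF => (hE F hF).2.2.1
  have hpt : ∀ F ∈ E, ∃ x y : ℤ, MvPolynomial.eval ![x, y] F = 0 ∧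
        ((d + 1) * H') ^ (kC d) < max x.natAbs y.natAbs := fun F hF => (hE F hF).2.2.2
  choose! x y hxy hbig using hpt
  have hlenF : ∀ F ∈ E, len F ≤ H' := by
    intro F hF
    rw [hH']
    refine (len_le_box (hdeg F hF).le (hcoe F hF)).trans ?_
    apply Nat.mul_le_mul_left
    omega
  obtain ⟨u, hu⟩ : ∃ u : MvPolynomial (Fin 2) ℤ → ℕ,
      u = fun F => uu d (MvPolynomial.homogeneousComponent d F) := ⟨_, rfl⟩
  have hu1 : ∀ F ∈ E, u F ≤ F.totalDegree ∧ lc F (u F) ≠ 0 := by
    intro F hF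
    have hF0 : F ≠ 0 := by
      rintro rfl
      have := hdeg 0 hF
      simp at this
      omega
    have h := uu_spec hF0
    have h2 : u F = uu F.totalDegree (MvPolynomial.homogeneousComponent F.totalDegree F) := by
      rw [hu, hdeg F hF]
    rw [h2]
    exact h
  have hroot : ∀ F ∈ E, ∃ η : ℝ, evf η (lead F.totalDegree (GG F (u F))) = 0 ∧
      |((lc F (u F) * x F : ℤ) : ℝ) / ((y F - u F * x F : ℤ) : ℝ) - η| ≤ cR d (2 * M) :=
    fun F hF => exc_root hd (hdeg F hF).symm (hirr F hF) (hlenF F hF) (hu1 F hF).1 (hu1 F hF).2 hM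
      (hxy F hF) (hbig F hF)
  choose! η hη1 hη2 using hroot
  have hord : ∀ F ∈ E, ∃ m, 2 ≤ m ∧ m ≤ d ∧ (∀ n < m, qF F (u F) (η F) n = 0) ∧
      (m = d ∨ qF F (u F) (η F) m ≠ 0) := by
    intro F hF
    have h := qF_low (by rw [hdeg F hF]; exact hd) (hirr F hF) (hu1 F hF).2 (hη1 F hF)
    exact ord_exists d (by omega) _ h.1 h.2
  choose! m hm1 hm2 hm3 hm4 using hord
  -- step 1: the order of contact
  have step1 := Finset.card_le_mul_card_image_of_maps_to (s := E) (t := Icc 2 d) (f := m)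
    (fun F hF => Finset.mem_Icc.2 ⟨hm1 F hF, hm2 F hF⟩)
    ((160 * d ^ 2 * kap d) * d * (2 * H + 1) ^ (4 * d - 2)) ?_
  · rw [Nat.card_Icc, show d + 1 - 2 = d - 1 by omega] at step1
    exact step1
  intro m0 hm0
  rw [Finset.mem_Icc] at hm0
  -- step 2: the critical coefficients
  have step2 := Finset.card_le_mul_card_image_of_maps_to (s := E.filter (fun F => m F = m0))
    (t := critS d m0 H) (f := crit d m0)
    (fun F hF => crit_mem (hcoe F (Finset.mem_filter.1 hF).1)) ((160 * d ^ 2 * kap d) * d) ?_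
  · exact step2.trans (Nat.mul_le_mul_left _ (card_critS hd hm0.1 hm0.2 H))
  intro c0 _
  apply card_filter_le_of_base
  intro F0 hF0
  rw [Finset.mem_filter, Finset.mem_filter] at hF0
  obtain ⟨⟨hF0E, hF0m⟩, hF0c⟩ := hF0
  -- comparison of two elements of the class
  have hcmp : ∀ F ∈ E, crit d m0 F = c0 → ∀ F' ∈ E, crit d m0 F' = c0 →
      (F' - F = 0 ∨ (F' - F).totalDegree + 2 ≤ F.totalDegree) ∧ u F' = u F ∧
      (∀ v : ℕ, lc F' v = lc F v) ∧
      lead F'.totalDegree (GG F' (u F')) = lead F.totalDegree (GG F (u F)) := by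
    intro F hF hFc F' hF' hFc'
    have hcc : crit d m0 F = crit d m0 F' := hFc.trans hFc'.symm
    have c1 := crit_comp hcc (k := d) le_rfl (Or.inl rfl)
    have c2 := crit_comp hcc (k := d - 1) (by omega) (Or.inr (Or.inl rfl))
    have h1 : F' - F = 0 ∨ (F' - F).totalDegree + 2 ≤ F.totalDegree := by
      by_cases h0 : F' - F = 0
      · left; exact h0
      right
      have hne := lead_component_ne_zero (F' - F) h0
      have hle : (F' - F).totalDegree ≤ d := by
        refine (MvPolynomial.totalDegree_sub _ _).trans ?_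
        rw [hdeg F hF, hdeg F' hF', max_self]
      have k1 : (F' - F).totalDegree ≠ d := by
        intro h
        rw [h] at hne
        exact hne c1
      have k2 : (F' - F).totalDegree ≠ d - 1 := by
        intro h
        rw [h] at hne
        exact hne c2
      rw [hdeg F hF]
      omega
    have h2 : MvPolynomial.homogeneousComponent d F' = MvPolynomial.homogeneousComponent d F := by
      rw [map_sub] at c1
      exact sub_eq_zero.1 c1
    have h3 : u F' = u F := by rw [hu]; simp only; rw [h2]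
    have h4 : ∀ v : ℕ, lc F' v = lc F v := by
      intro v
      rw [lc, lc, hdeg F hF, hdeg F' hF', h2]
    refine ⟨h1, h3, h4, ?_⟩
    rw [h3]
    rcases h1 with h | h
    · rw [sub_eq_zero.1 h]
    · have h5 : F' = F + (F' - F) := by ring
      rw [hdeg F' hF', h5, hdeg F hF]
      exact lead_pert_eq (hu1 F hF).2 h (by rw [hdeg F hF] at h; omega)
  have hGm := GG_monic (hu1 F0 hF0E).2
  have hGd : (GG F0 (u F0)).natDegree = d := by
    rw [GG_natDegree (hu1 F0 hF0E).2, hdeg F0 hF0E]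
  obtain ⟨hgm, hgd⟩ := lead_monic hGm hGd
  obtain ⟨S, hS⟩ : ∃ S, S = ((lead d (GG F0 (u F0))).map (Int.castRingHom ℝ)).roots.toFinset :=
    ⟨_, rfl⟩
  have hg0 : (lead d (GG F0 (u F0))).map (Int.castRingHom ℝ) ≠ 0 := (hgm.map _).ne_zero
  have hmem : ∀ t : ℝ, t ∈ S ↔ evf t (lead d (GG F0 (u F0))) = 0 := by
    intro t
    rw [hS, Multiset.mem_toFinset, mem_roots hg0, IsRoot.def, eval_map, evf, coe_eval₂RingHom]
  have hScard : S.card ≤ d := by
    rw [hS]
    refine (Multiset.toFinset_card_le _).trans ((card_roots' _).trans ?_)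
    rw [hgm.natDegree_map, hgd]
  -- step 3: the slope
  have step3 := Finset.card_le_mul_card_image_of_maps_to
    (s := (E.filter (fun F => m F = m0)).filter (fun F => crit d m0 F = c0))
    (t := S) (f := η) (fun F hF => by
      rw [Finset.mem_filter, Finset.mem_filter] at hF
      rw [hmem]
      have h1 := (hcmp F0 hF0E hF0c F hF.1.1 hF.2).2.2.2
      have h2 := hη1 F hF.1.1
      rw [h1, hdeg F0 hF0E] at h2
      exact h2) (160 * d ^ 2 * kap d) ?_
  · exact step3.trans (Nat.mul_le_mul_left _ hScard)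
  intro η0 _
  apply card_filter_le_of_base
  intro F1 hF1
  rw [Finset.mem_filter, Finset.mem_filter, Finset.mem_filter] at hF1
  obtain ⟨⟨⟨hF1E, hF1m⟩, hF1c⟩, hF1η⟩ := hF1
  -- step 4: the perturbations of a fixed curve
  have hinj : Function.Injective (fun F : MvPolynomial (Fin 2) ℤ => F - F1) :=
    fun F F' h => sub_left_injective h
  have hmain := cls_count (d := d) (H' := H') (u := u F1) (m := m0) (F := F1) (η := η0) (M := M)
    hd (hdeg F1 hF1E).symm (hirr F1 hF1E) (hlenF F1 hF1E) (hu1 F1 hF1E).1 (hu1 F1 hF1E).2 hM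
    (by rw [← hF1η]; exact hη1 F1 hF1E) hm0.1 hm0.2
    (by rw [← hF1η, ← hF1m]; exact hm3 F1 hF1E)
    (by
      have h := hm4 F1 hF1E
      rw [hF1η, hF1m] at h
      exact h)
    ((((E.filter (fun F => m F = m0)).filter (fun F => crit d m0 F = c0)).filter
      (fun F => η F = η0)).image (fun F => F - F1)) (by
      intro R hR
      rw [Finset.mem_image] at hR
      obtain ⟨F, hF, rfl⟩ := hR
      rw [Finset.mem_filter, Finset.mem_filter, Finset.mem_filter] at hF
      obtain ⟨⟨⟨hFE, hFm⟩, hFc⟩, hFη⟩ := hF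
      obtain ⟨g1, g2, g3, g4⟩ := hcmp F1 hF1E hF1c F hFE hFc
      have hsum : F1 + (F - F1) = F := by ring
      have hRd : (F - F1).totalDegree ≤ d := by
        refine (MvPolynomial.totalDegree_sub _ _).trans ?_
        rw [hdeg F hFE, hdeg F1 hF1E, max_self]
      refine ⟨?_, ?_, ?_⟩
      · have h := cls_deg (F := F1) (R := F - F1) (u := u F1) (hu1 F1 hF1E).2
          (by rw [hdeg F1 hF1E]; exact hd) (hirr F1 hF1E) (η := η0)
          (by rw [← hF1η]; exact hη1 F1 hF1E) (by rw [hdeg F1 hF1E]; exact hRd) (m := m0)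
          hm0.1 (by rw [hdeg F1 hF1E]; exact hm0.2)
          (by rw [← hF1η, ← hF1m]; exact hm3 F1 hF1E)
          (by rw [hsum, ← g2, ← hFη, ← hFm]; exact hm3 F hFE)
          (by
            intro k hk
            rw [hdeg F1 hF1E] at hk
            exact crit_comp (hF1c.trans hFc.symm) (by omega) hk)
        rw [hdeg F1 hF1E] at h
        exact h
      · rw [hH']
        apply len_le_box hRd
        intro n
        rw [MvPolynomial.coeff_sub]
        have a1 := hcoe F hFE n
        have a2 := hcoe F1 hF1E n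
        rw [abs_le] at a1 a2 ⊢
        push_cast
        constructor <;> linarith
      · refine ⟨x F, y F, by rw [hsum]; exact hxy F hFE, hbig F hFE, ?_⟩
        have h := hη2 F hFE
        rw [hFη, g2, g3] at h
        exact h)
  rw [Finset.card_image_of_injective _ hinj] at hmain
  exact hmain

end Pool.Agent.H322R2
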