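import Pool.Agent.H322R2.ZRed
import Pool.Agent.H322R2.YFin2
import Pool.Agent.H322R2.GFin

/-!
The sharp law: assembly.
-/

open Polynomial Finset

namespace Pool.Agent.H322R2

variable {d : ℕ}

/-- natural version of `KZ` -/
def Kn (d : ℕ) : ℕ := 1000 * 16 ^ d

lemma Kn_cast (d : ℕ) : ((Kn d : ℕ) : ℝ) = KZ d := by
  unfold Kn KZ; push_cast; rfl

open Classical in
lemma cnt_B (H M : ℕ) :
    ((Bx ↥(Ix d) H).filter (fun c => ∃ P : ℤ × ℤ, (2 * H < max P.1.natAbs P.2.natAbs ∧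
      max P.1.natAbs P.2.natAbs ≤ M) ∧ ev P.1 P.2 (PG c) = 0)).card
      ≤ (2 * M + 1) ^ 2 * (2 * H + 1) ^ ((Ix d).card - (d + 1)) := by
  have hsub : (Bx ↥(Ix d) H).filter (fun c => ∃ P : ℤ × ℤ, (2 * H < max P.1.natAbs P.2.natAbs ∧
      max P.1.natAbs P.2.natAbs ≤ M) ∧ ev P.1 P.2 (PG c) = 0) ⊆
      (((Icc (-(M : ℤ)) M) ×ˢ (Icc (-(M : ℤ)) M)).filter
        (fun P => 2 * H < max P.1.natAbs P.2.natAbs)).biUnion (fun P => Bpt d H P 0) := by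
    intro c hc
    rw [Finset.mem_filter] at hc
    obtain ⟨hc1, P, ⟨hP1, hP2⟩, hP3⟩ := hc
    rw [Finset.mem_biUnion]
    refine ⟨P, ?_, ?_⟩
    · rw [Finset.mem_filter, Finset.mem_product, Finset.mem_Icc, Finset.mem_Icc]
      refine ⟨⟨⟨?_, ?_⟩, ⟨?_, ?_⟩⟩, hP1⟩ <;> omega
    · rw [Bpt, Finset.mem_filter]
      exact ⟨hc1, hP3⟩
  refine (Finset.card_le_card hsub).trans (Finset.card_biUnion_le.trans ?_)
  refine (Finset.sum_le_card_nsmul _ _ ((2 * H + 1) ^ ((Ix d).card - (d + 1))) ?_).trans ?_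
  · intro P hP
    exact Bpt_big H P 0 (Finset.mem_filter.1 hP).2
  · rw [smul_eq_mul]
    apply Nat.mul_le_mul_right
    refine (Finset.card_filter_le _ _).trans ?_
    rw [Finset.card_product, card_Icc_H]
    apply le_of_eq; ring

lemma div_V {a K : ℝ} {H : ℕ} (h : a * (2 * H + 1) ≤ K * (Bx ↥(Ix d) H).card) :
    a ≤ K * (2 * (H : ℝ) + 1) ^ ((Ix d).card - 1) := by
  have hH : (0 : ℝ) < 2 * H + 1 := by positivity
  have hN : 1 ≤ (Ix d).card := by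
    have := card_Ix_ge d; omega
  have h1 : ((Bx ↥(Ix d) H).card : ℝ) = (2 * (H : ℝ) + 1) ^ ((Ix d).card - 1) * (2 * H + 1) := by
    rw [card_Bx, Fintype.card_coe, ← pow_succ]
    push_cast
    congr 1; omega
  rw [h1, ← mul_assoc] at h
  exact le_of_mul_le_mul_right h hH

open Classical in
/-- large points -/
lemma cnt_L (hd : 7 ≤ d) (H : ℕ) :
    ((Bx ↥(Ix d) H).filter (fun c => ((ff c).natDegree = d ∧
      Irreducible ((ff c).map (Int.castRingHom ℚ))) ∧ ∃ P : ℤ × ℤ,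
      ((d + 1) * ((Ix d).card * (2 * H))) ^ (kC d) < max P.1.natAbs P.2.natAbs ∧
      ev P.1 P.2 (PG c) = 0)).card
      ≤ ((160 * d ^ 2 * kap d) * d * (d - 1)) * (2 * H + 1) ^ ((Ix d).card - 1) := by
  have h1 := YF_count (d := d) (H := H) (by omega) (((Bx ↥(Ix d) H).filter
      (fun c => ((ff c).natDegree = d ∧
      Irreducible ((ff c).map (Int.castRingHom ℚ))) ∧ ∃ P : ℤ × ℤ,
      ((d + 1) * ((Ix d).card * (2 * H))) ^ (kC d) < max P.1.natAbs P.2.natAbs ∧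
      ev P.1 P.2 (PG c) = 0)).image FM) (by
      intro F hF
      rw [Finset.mem_image] at hF
      obtain ⟨c, hc, rfl⟩ := hF
      rw [Finset.mem_filter] at hc
      obtain ⟨hcB, ⟨hc1, hc2⟩, P, hP1, hP2⟩ := hc
      refine ⟨totalDegree_FM (by omega) hc1, ?_, irr_FM (by omega) hc1 hc2, P.2, P.1, ?_, ?_⟩
      · exact (FM_memV.2 ⟨c, hcB, rfl⟩).2
      · rw [eval_FMV]; exact hP2
      · rw [max_comm]; exact hP1)
  rw [Finset.card_image_of_injective _ FM_injectiveV] at h1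
  refine h1.trans ?_
  have h2 : (2 * H + 1) ^ (4 * d - 2) ≤ (2 * H + 1) ^ ((Ix d).card - 1) := by
    apply Nat.pow_le_pow_right (by omega)
    have h3 := two_card_Ix d
    have h4 : 8 * d ≤ (d + 1) * (d + 2) := by nlinarith
    omega
  calc 160 * d ^ 2 * kap d * d * (2 * H + 1) ^ (4 * d - 2) * (d - 1)
      = ((160 * d ^ 2 * kap d) * d * (d - 1)) * (2 * H + 1) ^ (4 * d - 2) := by ring
    _ ≤ _ := Nat.mul_le_mul_left _ h2

/-- number of windows -/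
lemma windows (hd : 7 ≤ d) {H : ℕ} (hH1 : 1 ≤ H) {z : ℝ} (hz : 1 ≤ z) (hH : z ^ 2 = H) {X : ℝ}
    (hX : 1 ≤ X) : ∃ n : ℕ, ((((d + 1) * ((Ix d).card * (2 * H))) ^ (kC d) : ℕ) : ℝ)
      ≤ X * (1 + 1 / (KZ d ^ 8 * z ^ 3)) ^ (n + 1) ∧
      ((n : ℝ) + 1) ≤ 8 * kC d * KZ d ^ 9 * H ^ 2 := by
  have hz0 : 0 < z := by linarith
  obtain ⟨K, hK⟩ : ∃ K, K = KZ d := ⟨_, rfl⟩
  have hKd := KZ_d d
  rw [← hK] at hKd ⊢
  have hK1 : 1 ≤ K := by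
    have : (0 : ℝ) ≤ ((d : ℝ) + 1) ^ 4 := by positivity
    linarith
  obtain ⟨Y, hY⟩ : ∃ Y : ℕ, Y = (d + 1) * ((Ix d).card * (2 * H)) := ⟨_, rfl⟩
  rw [← hY]
  have hcard : 1 ≤ (Ix d).card := by have := card_Ix_ge d; omega
  have hY1 : 1 ≤ Y := by
    rw [hY]
    exact Nat.mul_pos (by omega) (Nat.mul_pos hcard (by omega))
  have hkC : 1 ≤ kC d := by
    show 0 < kC d
    unfold kC; positivity
  obtain ⟨s, hs⟩ : ∃ s : ℕ, s = ⌈K * z⌉₊ := ⟨_, rfl⟩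
  have hKz : 1 ≤ K * z := one_le_mul_of_one_le_of_one_le hK1 hz
  have hs1 : K * z ≤ s := by rw [hs]; exact Nat.le_ceil _
  have hs2 : (s : ℝ) ≤ 2 * (K * z) := by
    have := Nat.ceil_lt_add_one (show 0 ≤ K * z by linarith)
    rw [← hs] at this
    linarith
  have hs0 : 1 ≤ s := by
    have : (1 : ℝ) ≤ s := hKz.trans hs1
    exact_mod_cast this
  obtain ⟨q, hq⟩ : ∃ q : ℕ, q = ⌈K ^ 8 * z ^ 3⌉₊ := ⟨_, rfl⟩
  have hKz3 : 1 ≤ K ^ 8 * z ^ 3 := one_le_mul_of_one_le_of_one_le (one_le_pow₀ hK1) (one_le_pow₀ hz)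
  have hq1 : K ^ 8 * z ^ 3 ≤ q := by rw [hq]; exact Nat.le_ceil _
  have hq2 : (q : ℝ) ≤ 2 * (K ^ 8 * z ^ 3) := by
    have := Nat.ceil_lt_add_one (show 0 ≤ K ^ 8 * z ^ 3 by linarith)
    rw [← hq] at this
    linarith
  have hq0 : 1 ≤ q := by
    have : (1 : ℝ) ≤ q := hKz3.trans hq1
    exact_mod_cast this
  have hpos : 1 ≤ q * (2 * s) * kC d := Nat.mul_pos (Nat.mul_pos hq0 (by omega)) hkC
  refine ⟨q * (2 * s) * kC d - 1, ?_, ?_⟩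
  · rw [Nat.sub_add_cancel hpos]
    have e1 : (2 : ℝ) ≤ (1 + 1 / (K ^ 8 * z ^ 3)) ^ q := by
      have h1 := one_add_mul_le_pow (a := 1 / (K ^ 8 * z ^ 3)) (by
        have : 0 ≤ 1 / (K ^ 8 * z ^ 3) := by positivity
        linarith) q
      have h2 : 1 ≤ (q : ℝ) * (1 / (K ^ 8 * z ^ 3)) := by
        rw [mul_one_div, le_div_iff₀ (by positivity), one_mul]; exact hq1
      linarith
    have e2 : (Y : ℝ) ≤ 2 ^ (2 * s) := by
      have h1 : (s : ℝ) ≤ 2 ^ s := by exact_mod_cast (Nat.lt_two_pow_self (n := s)).le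
      have h2 : (Y : ℝ) ≤ (K * z) ^ 2 := by
        rw [mul_pow, hH, hY]
        push_cast
        have h3 := two_card_Ix d
        have h4 : 2 * ((Ix d).card : ℝ) = ((d : ℝ) + 1) * (d + 2) := by exact_mod_cast h3
        have h5 : ((d : ℝ) + 1) * (2 * ((Ix d).card : ℝ)) ≤ K ^ 2 := by
          rw [h4]
          have hd0 : (0 : ℝ) ≤ d := by positivity
          have h6 : ((d : ℝ) + 1) * (((d : ℝ) + 1) * (d + 2)) ≤ ((d : ℝ) + 1) ^ 4 := by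
            have h7 : (d : ℝ) + 2 ≤ ((d : ℝ) + 1) ^ 2 := by
              have : (7 : ℝ) ≤ d := by exact_mod_cast hd
              nlinarith
            calc ((d : ℝ) + 1) * (((d : ℝ) + 1) * (d + 2)) = ((d : ℝ) + 1) ^ 2 * (d + 2) := by ring
              _ ≤ ((d : ℝ) + 1) ^ 2 * ((d : ℝ) + 1) ^ 2 :=
                mul_le_mul_of_nonneg_left h7 (by positivity)
              _ = _ := by ring
          have h8 : ((d : ℝ) + 1) ^ 4 ≤ K := by linarith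
          have h9 : K ≤ K ^ 2 := by nlinarith
          linarith
        have hH0 : (0 : ℝ) ≤ H := by positivity
        calc ((d : ℝ) + 1) * (((Ix d).card : ℝ) * (2 * H))
            = (((d : ℝ) + 1) * (2 * ((Ix d).card : ℝ))) * H := by ring
          _ ≤ K ^ 2 * H := mul_le_mul_of_nonneg_right h5 hH0
      calc (Y : ℝ) ≤ (K * z) ^ 2 := h2
        _ ≤ (s : ℝ) ^ 2 := pow_le_pow_left₀ (by positivity) hs1 2
        _ ≤ (2 ^ s) ^ 2 := pow_le_pow_left₀ (by positivity) h1 2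
        _ = 2 ^ (2 * s) := by rw [← pow_mul, mul_comm]
    have e3 : ((Y ^ (kC d) : ℕ) : ℝ) ≤ (1 + 1 / (K ^ 8 * z ^ 3)) ^ (q * (2 * s) * kC d) := by
      push_cast
      calc (Y : ℝ) ^ (kC d) ≤ (2 ^ (2 * s)) ^ (kC d) := pow_le_pow_left₀ (by positivity) e2 _
        _ ≤ (((1 + 1 / (K ^ 8 * z ^ 3)) ^ q) ^ (2 * s)) ^ (kC d) := by
          apply pow_le_pow_left₀ (by positivity)
          exact pow_le_pow_left₀ (by norm_num) e1 _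
        _ = _ := by
          rw [← pow_mul, ← pow_mul]; congr 1; ring
    refine e3.trans ?_
    exact le_mul_of_one_le_left (by positivity) hX
  · have h1 : (((q * (2 * s) * kC d - 1 : ℕ) : ℕ) : ℝ) + 1 = (q : ℝ) * (2 * s) * kC d := by
      have h2 : (q * (2 * s) * kC d - 1) + 1 = q * (2 * s) * kC d := Nat.sub_add_cancel hpos
      have h3 : (((q * (2 * s) * kC d - 1) + 1 : ℕ) : ℝ) = ((q * (2 * s) * kC d : ℕ) : ℝ) := by
        rw [h2]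
      push_cast at h3
      exact h3
    rw [h1]
    calc (q : ℝ) * (2 * s) * kC d ≤ (2 * (K ^ 8 * z ^ 3)) * (2 * (2 * (K * z))) * kC d := by
          gcongr
      _ = 8 * kC d * K ^ 9 * (z ^ 2) ^ 2 := by ring
      _ = _ := by rw [hH]

/-- the constant -/
noncomputable def CZ (d : ℕ) : ℝ :=
  25 * 2 ^ d + 9 * KZ d ^ 32 + 2 * (45 * KZ d ^ 4) + 2 * (2 * d) + 1 +
    (4 * d ^ 2 * 3 ^ d * (3 * (2 ^ d * (d + 1))) ^ d) + 2 * (32 * d * kC d * KZ d ^ 9) +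
    (((160 * d ^ 2 * kap d) * d * (d - 1) : ℕ) : ℝ)

theorem sharp_vec (hd : 7 ≤ d) {H : ℕ} (hH1 : 1 ≤ H) :
    Cn H (fun c : ↥(Ix d) → ℤ => ∃ p : ℤ × ℤ, ev p.1 p.2 (PG c) = 0)
      ≤ CZ d * (2 * (H : ℝ) + 1) ^ ((Ix d).card - 1) := by
  classical
  have hHR : (1 : ℝ) ≤ H := by exact_mod_cast hH1
  obtain ⟨z, hz⟩ : ∃ z : ℝ, z = Real.sqrt H := ⟨_, rfl⟩
  have hzH : z ^ 2 = H := by rw [hz]; exact Real.sq_sqrt (by linarith)
  have hz0 : 0 ≤ z := by rw [hz]; exact Real.sqrt_nonneg _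
  have hz1 : 1 ≤ z := by
    by_contra hcon
    push Not at hcon
    nlinarith
  obtain ⟨V, hV⟩ : ∃ V : ℝ, V = (2 * (H : ℝ) + 1) ^ ((Ix d).card - 1) := ⟨_, rfl⟩
  have hV0 : 0 ≤ V := by rw [hV]; positivity
  rw [← hV]
  obtain ⟨M, hM⟩ : ∃ M : ℕ, M = Kn d ^ 16 * H ^ 3 := ⟨_, rfl⟩
  have hMX : (M : ℝ) = KZ d ^ 16 * z ^ 6 := by
    rw [hM]; push_cast
    rw [Kn_cast, ← hzH]; ring
  have hK1 : 1 ≤ KZ d := by
    have h1 := KZ_d d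
    have : (0 : ℝ) ≤ ((d : ℝ) + 1) ^ 4 := by positivity
    linarith
  have hM1 : (1 : ℝ) ≤ M := by
    rw [hMX]
    exact one_le_mul_of_one_le_of_one_le (one_le_pow₀ hK1) (one_le_pow₀ hz1)
  obtain ⟨n, hn1, hn2⟩ := windows hd hH1 hz1 hzH hM1
  have hN : (Ix d).card ≥ 36 := by
    have h1 := two_card_Ix d
    nlinarith
  have hNd : d + 1 ≤ (Ix d).card := card_Ix_ge d
  -- the events
  have bA : Cn H (fun c : ↥(Ix d) → ℤ => ∃ P : ℤ × ℤ, max P.1.natAbs P.2.natAbs ≤ 2 * H ∧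
      ev P.1 P.2 (PG c) = 0) ≤ 25 * 2 ^ d * V := by
    have := small_pts (e := d) (by omega) H (fun _ => 0)
    rw [hV]
    unfold Cn
    convert this
  have bB : Cn H (fun c : ↥(Ix d) → ℤ => ∃ P : ℤ × ℤ, (2 * H < max P.1.natAbs P.2.natAbs ∧
      max P.1.natAbs P.2.natAbs ≤ M) ∧ ev P.1 P.2 (PG c) = 0) ≤ 9 * KZ d ^ 32 * V := by
    have h1 := cnt_B (d := d) H M
    have h2 : Cn H (fun c : ↥(Ix d) → ℤ => ∃ P : ℤ × ℤ, (2 * H < max P.1.natAbs P.2.natAbs ∧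
      max P.1.natAbs P.2.natAbs ≤ M) ∧ ev P.1 P.2 (PG c) = 0) ≤
      (((2 * M + 1) ^ 2 * (2 * H + 1) ^ ((Ix d).card - (d + 1)) : ℕ) : ℝ) := by
      unfold Cn
      have h3 : ((((Bx ↥(Ix d) H).filter (fun c => ∃ P : ℤ × ℤ, (2 * H < max P.1.natAbs P.2.natAbs ∧
        max P.1.natAbs P.2.natAbs ≤ M) ∧ ev P.1 P.2 (PG c) = 0)).card : ℕ) : ℝ) ≤
        (((2 * M + 1) ^ 2 * (2 * H + 1) ^ ((Ix d).card - (d + 1)) : ℕ) : ℝ) := by exact_mod_cast h1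
      convert h3
    refine h2.trans ?_
    push_cast
    have e1 : (2 * (M : ℝ) + 1) ^ 2 ≤ 9 * KZ d ^ 32 * (H : ℝ) ^ 6 := by
      calc (2 * (M : ℝ) + 1) ^ 2 ≤ (3 * (M : ℝ)) ^ 2 := by
            apply pow_le_pow_left₀ (by positivity); linarith
        _ = 9 * KZ d ^ 32 * (z ^ 2) ^ 6 := by rw [hMX]; ring
        _ = _ := by rw [hzH]
    have e2 : (H : ℝ) ^ 6 * (2 * (H : ℝ) + 1) ^ ((Ix d).card - (d + 1)) ≤ V := by
      rw [hV]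
      calc (H : ℝ) ^ 6 * (2 * (H : ℝ) + 1) ^ ((Ix d).card - (d + 1))
          ≤ (2 * (H : ℝ) + 1) ^ 6 * (2 * (H : ℝ) + 1) ^ ((Ix d).card - (d + 1)) := by
            gcongr; linarith
        _ = (2 * (H : ℝ) + 1) ^ (6 + ((Ix d).card - (d + 1))) := by rw [pow_add]
        _ ≤ _ := pow_le_pow_right₀ (by linarith) (by omega)
    calc (2 * (M : ℝ) + 1) ^ 2 * (2 * (H : ℝ) + 1) ^ ((Ix d).card - (d + 1))
        ≤ (9 * KZ d ^ 32 * (H : ℝ) ^ 6) * (2 * (H : ℝ) + 1) ^ ((Ix d).card - (d + 1)) :=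
          mul_le_mul_of_nonneg_right e1 (by positivity)
      _ = 9 * KZ d ^ 32 * ((H : ℝ) ^ 6 * (2 * (H : ℝ) + 1) ^ ((Ix d).card - (d + 1))) := by ring
      _ ≤ _ := mul_le_mul_of_nonneg_left e2 (by positivity)
  have bT1 : Cn H (fun c : ↥(Ix d) → ℤ => ¬ ZT1 (fR c) z) ≤ 45 * KZ d ^ 4 * V := by
    rw [hV]
    apply div_V
    unfold Cn
    convert card_T1 hd hz1 hzH
  have bT2 : Cn H (fun c : ↥(Ix d) → ℤ => ¬ ZT2 (fR c) z) ≤ (2 * d) * V := by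
    rw [hV]
    apply div_V
    unfold Cn
    convert card_T2 (d := d) (by omega) H hz1
  have bZ0 : Cn H (fun c : ↥(Ix d) → ℤ => (ff c).natDegree ≠ d) ≤ 1 * V := by
    rw [hV]
    apply div_V
    unfold Cn
    convert cnt_Z0 (d := d) (by omega) H
  have bZ1 : Cn H (fun c : ↥(Ix d) → ℤ => (ff c).natDegree = d ∧
      ¬ Irreducible ((ff c).map (Int.castRingHom ℚ)))
      ≤ (4 * d ^ 2 * 3 ^ d * (3 * (2 ^ d * (d + 1))) ^ d) * V := by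
    rw [hV]
    unfold Cn
    convert cnt_red_sharp (d := d) (by omega) hH1
  have bE : Cn H (fun c : ↥(Ix d) → ℤ => (ZT1 (fR c) z ∧ ZT2 (fR c) z) ∧ ∃ P : ℤ × ℤ,
      (|P.2| ≤ |P.1| ∧ (M : ℝ) ≤ |(P.1 : ℝ)| ∧
        |(P.1 : ℝ)| ≤ (M : ℝ) * (1 + 1 / (KZ d ^ 8 * z ^ 3)) ^ (n + 1)) ∧ ev P.1 P.2 (PG c) = 0)
      ≤ 32 * d * kC d * KZ d ^ 9 * V := by
    have h1 := cnt_medium (d := d) hd hz1 hzH (X := M) hMX.ge n
    have h3 : Cn H (fun c : ↥(Ix d) → ℤ => (ZT1 (fR c) z ∧ ZT2 (fR c) z) ∧ ∃ P : ℤ × ℤ,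
      (|P.2| ≤ |P.1| ∧ (M : ℝ) ≤ |(P.1 : ℝ)| ∧
        |(P.1 : ℝ)| ≤ (M : ℝ) * (1 + 1 / (KZ d ^ 8 * z ^ 3)) ^ (n + 1)) ∧ ev P.1 P.2 (PG c) = 0)
        ≤ (((4 * d * (n + 1) * (2 * H + 1) ^ 3) * (2 * H + 1) ^ ((Ix d).card - 6) : ℕ) : ℝ) := by
      unfold Cn
      rw [Nat.cast_le]
      convert h1
    refine h3.trans ?_
    push_cast
    have e1 : (2 * (H : ℝ) + 1) ^ 2 * (2 * (H : ℝ) + 1) ^ 3 * (2 * (H : ℝ) + 1) ^ ((Ix d).card - 6)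
        = V := by
      rw [hV, ← pow_add, ← pow_add]; congr 1; omega
    have e2 : (H : ℝ) ^ 2 ≤ (2 * (H : ℝ) + 1) ^ 2 := pow_le_pow_left₀ (by linarith) (by linarith) 2
    have hkC0 : (0 : ℝ) ≤ kC d := by positivity
    calc 4 * (d : ℝ) * ((n : ℝ) + 1) * (2 * (H : ℝ) + 1) ^ 3 * (2 * (H : ℝ) + 1) ^ ((Ix d).card - 6)
        ≤ 4 * (d : ℝ) * (8 * kC d * KZ d ^ 9 * (2 * (H : ℝ) + 1) ^ 2) * (2 * (H : ℝ) + 1) ^ 3 *
          (2 * (H : ℝ) + 1) ^ ((Ix d).card - 6) := by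
          gcongr
          refine hn2.trans ?_
          exact mul_le_mul_of_nonneg_left e2 (by positivity)
      _ = 32 * d * kC d * KZ d ^ 9 * ((2 * (H : ℝ) + 1) ^ 2 * (2 * (H : ℝ) + 1) ^ 3 *
          (2 * (H : ℝ) + 1) ^ ((Ix d).card - 6)) := by ring
      _ = _ := by rw [e1]
  have bL : Cn H (fun c : ↥(Ix d) → ℤ => ((ff c).natDegree = d ∧
      Irreducible ((ff c).map (Int.castRingHom ℚ))) ∧ ∃ P : ℤ × ℤ,
      ((d + 1) * ((Ix d).card * (2 * H))) ^ (kC d) < max P.1.natAbs P.2.natAbs ∧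
      ev P.1 P.2 (PG c) = 0) ≤ (((160 * d ^ 2 * kap d) * d * (d - 1) : ℕ) : ℝ) * V := by
    have h1 := cnt_L (d := d) hd H
    have h2 : ((((160 * d ^ 2 * kap d) * d * (d - 1)) * (2 * H + 1) ^ ((Ix d).card - 1) : ℕ) : ℝ)
        = (((160 * d ^ 2 * kap d) * d * (d - 1) : ℕ) : ℝ) * V := by
      rw [hV, Nat.cast_mul]; push_cast; ring
    rw [← h2]
    unfold Cn
    rw [Nat.cast_le]
    convert h1
  -- naming
  obtain ⟨PA, hPA⟩ : ∃ PA : (↥(Ix d) → ℤ) → Prop, PA = fun c => ∃ P : ℤ × ℤ,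
    max P.1.natAbs P.2.natAbs ≤ 2 * H ∧ ev P.1 P.2 (PG c) = 0 := ⟨_, rfl⟩
  obtain ⟨PB, hPB⟩ : ∃ PB : (↥(Ix d) → ℤ) → Prop, PB = fun c => ∃ P : ℤ × ℤ,
    (2 * H < max P.1.natAbs P.2.natAbs ∧ max P.1.natAbs P.2.natAbs ≤ M) ∧
    ev P.1 P.2 (PG c) = 0 := ⟨_, rfl⟩
  obtain ⟨P1, hP1⟩ : ∃ P1 : (↥(Ix d) → ℤ) → Prop, P1 = fun c => ¬ ZT1 (fR c) z := ⟨_, rfl⟩
  obtain ⟨P2, hP2⟩ : ∃ P2 : (↥(Ix d) → ℤ) → Prop, P2 = fun c => ¬ ZT2 (fR c) z := ⟨_, rfl⟩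
  obtain ⟨Z0, hZ0⟩ : ∃ Z0 : (↥(Ix d) → ℤ) → Prop, Z0 = fun c => (ff c).natDegree ≠ d := ⟨_, rfl⟩
  obtain ⟨Z1, hZ1⟩ : ∃ Z1 : (↥(Ix d) → ℤ) → Prop, Z1 = fun c => (ff c).natDegree = d ∧
      ¬ Irreducible ((ff c).map (Int.castRingHom ℚ)) := ⟨_, rfl⟩
  obtain ⟨PE, hPE⟩ : ∃ PE : (↥(Ix d) → ℤ) → Prop, PE = fun c => (ZT1 (fR c) z ∧ ZT2 (fR c) z) ∧
      ∃ P : ℤ × ℤ, (|P.2| ≤ |P.1| ∧ (M : ℝ) ≤ |(P.1 : ℝ)| ∧
        |(P.1 : ℝ)| ≤ (M : ℝ) * (1 + 1 / (KZ d ^ 8 * z ^ 3)) ^ (n + 1)) ∧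
        ev P.1 P.2 (PG c) = 0 := ⟨_, rfl⟩
  obtain ⟨PL, hPL⟩ : ∃ PL : (↥(Ix d) → ℤ) → Prop, PL = fun c => ((ff c).natDegree = d ∧
      Irreducible ((ff c).map (Int.castRingHom ℚ))) ∧ ∃ P : ℤ × ℤ,
      ((d + 1) * ((Ix d).card * (2 * H))) ^ (kC d) < max P.1.natAbs P.2.natAbs ∧
      ev P.1 P.2 (PG c) = 0 := ⟨_, rfl⟩
  rw [← hPA] at bA
  rw [← hPB] at bB
  rw [← hP1] at bT1
  rw [← hP2] at bT2
  rw [← hZ0] at bZ0
  rw [← hZ1] at bZ1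
  rw [← hPE] at bE
  rw [← hPL] at bL
  have hcov : ∀ c ∈ Bx ↥(Ix d) H, (∃ p : ℤ × ℤ, ev p.1 p.2 (PG c) = 0) →
      (PA c ∨ PB c ∨ P1 c ∨ P1 (sw c) ∨ P2 c ∨ P2 (sw c) ∨ Z0 c ∨ Z1 c ∨ PE c ∨ PE (sw c) ∨
        PL c) := by
    rintro c hc ⟨p, hp⟩
    by_cases q1 : P1 c; · right; right; left; exact q1
    by_cases q1' : P1 (sw c); · right; right; right; left; exact q1'
    by_cases q2 : P2 c; · right; right; right; right; left; exact q2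
    by_cases q2' : P2 (sw c); · right; right; right; right; right; left; exact q2'
    by_cases r0 : Z0 c; · right; right; right; right; right; right; left; exact r0
    by_cases r1 : Z1 c; · right; right; right; right; right; right; right; left; exact r1
    have hT1 : ZT1 (fR c) z := by rw [hP1] at q1; exact not_not.1 q1
    have hT1' : ZT1 (fR (sw c)) z := by rw [hP1] at q1'; exact not_not.1 q1'
    have hT2 : ZT2 (fR c) z := by rw [hP2] at q2; exact not_not.1 q2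
    have hT2' : ZT2 (fR (sw c)) z := by rw [hP2] at q2'; exact not_not.1 q2'
    have hdeg : (ff c).natDegree = d := by rw [hZ0] at r0; exact not_not.1 r0
    have hirr : Irreducible ((ff c).map (Int.castRingHom ℚ)) := by
      by_contra hcon
      apply r1
      rw [hZ1]
      exact ⟨hdeg, hcon⟩
    by_cases s1 : max p.1.natAbs p.2.natAbs ≤ 2 * H
    · left
      rw [hPA]
      exact ⟨p, s1, hp⟩
    push Not at s1
    by_cases s2 : max p.1.natAbs p.2.natAbs ≤ M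
    · right; left
      rw [hPB]
      exact ⟨p, ⟨s1, s2⟩, hp⟩
    push Not at s2
    right; right; right; right; right; right; right; right
    by_cases s3 : ((d + 1) * ((Ix d).card * (2 * H))) ^ (kC d) < max p.1.natAbs p.2.natAbs
    · right; right
      rw [hPL]
      exact ⟨⟨hdeg, hirr⟩, p, s3, hp⟩
    push Not at s3
    have hup : ∀ w : ℤ, w.natAbs ≤ max p.1.natAbs p.2.natAbs →
        |(w : ℝ)| ≤ (M : ℝ) * (1 + 1 / (KZ d ^ 8 * z ^ 3)) ^ (n + 1) := by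
      intro w hw
      refine le_trans ?_ hn1
      have h1 : ((w.natAbs : ℕ) : ℝ) ≤ ((((d + 1) * ((Ix d).card * (2 * H))) ^ (kC d) : ℕ) : ℝ) := by
        exact_mod_cast hw.trans s3
      rwa [Nat.cast_natAbs, Int.cast_abs] at h1
    have hlow : ∀ w : ℤ, M < w.natAbs → (M : ℝ) ≤ |(w : ℝ)| := by
      intro w hw
      have h1 : ((M : ℕ) : ℝ) ≤ ((w.natAbs : ℕ) : ℝ) := by exact_mod_cast hw.le
      rwa [Nat.cast_natAbs, Int.cast_abs] at h1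
    rcases le_total p.2.natAbs p.1.natAbs with hle | hle
    · left
      rw [hPE]
      rw [max_eq_left hle] at s2
      refine ⟨⟨hT1, hT2⟩, p, ⟨?_, hlow _ s2, hup _ (le_max_left _ _)⟩, hp⟩
      rw [Int.abs_eq_natAbs, Int.abs_eq_natAbs]; exact_mod_cast hle
    · right; left
      rw [hPE]
      rw [max_eq_right hle] at s2
      refine ⟨⟨hT1', hT2'⟩, (p.2, p.1), ⟨?_, hlow _ s2, hup _ (le_max_right _ _)⟩, ?_⟩
      · rw [Int.abs_eq_natAbs, Int.abs_eq_natAbs]; exact_mod_cast hle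
      · rw [ev_sw]; exact hp
  have bT1' := Cn_sw (H := H) P1
  have bT2' := Cn_sw (H := H) P2
  have bE' := Cn_sw (H := H) PE
  refine (Cn_mono hcov).trans ?_
  have u1 := Cn_or (H := H) PA (fun c => PB c ∨ P1 c ∨ P1 (sw c) ∨ P2 c ∨ P2 (sw c) ∨ Z0 c ∨ Z1 c ∨
    PE c ∨ PE (sw c) ∨ PL c)
  have u2 := Cn_or (H := H) PB (fun c => P1 c ∨ P1 (sw c) ∨ P2 c ∨ P2 (sw c) ∨ Z0 c ∨ Z1 c ∨
    PE c ∨ PE (sw c) ∨ PL c)
  have u3 := Cn_or (H := H) P1 (fun c => P1 (sw c) ∨ P2 c ∨ P2 (sw c) ∨ Z0 c ∨ Z1 c ∨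
    PE c ∨ PE (sw c) ∨ PL c)
  have u4 := Cn_or (H := H) (fun c => P1 (sw c)) (fun c => P2 c ∨ P2 (sw c) ∨ Z0 c ∨ Z1 c ∨
    PE c ∨ PE (sw c) ∨ PL c)
  have u5 := Cn_or (H := H) P2 (fun c => P2 (sw c) ∨ Z0 c ∨ Z1 c ∨
    PE c ∨ PE (sw c) ∨ PL c)
  have u6 := Cn_or (H := H) (fun c => P2 (sw c)) (fun c => Z0 c ∨ Z1 c ∨
    PE c ∨ PE (sw c) ∨ PL c)
  have u7 := Cn_or (H := H) Z0 (fun c => Z1 c ∨ PE c ∨ PE (sw c) ∨ PL c)
  have u8 := Cn_or (H := H) Z1 (fun c => PE c ∨ PE (sw c) ∨ PL c)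
  have u9 := Cn_or (H := H) PE (fun c => PE (sw c) ∨ PL c)
  have u10 := Cn_or (H := H) (fun c => PE (sw c)) PL
  have hfin : CZ d * V = 25 * 2 ^ d * V + (9 * KZ d ^ 32 * V + (45 * KZ d ^ 4 * V +
      (45 * KZ d ^ 4 * V + ((2 * d) * V + ((2 * d) * V + (1 * V +
      ((4 * d ^ 2 * 3 ^ d * (3 * (2 ^ d * (d + 1))) ^ d) * V + (32 * d * kC d * KZ d ^ 9 * V +
      (32 * d * kC d * KZ d ^ 9 * V + (((160 * d ^ 2 * kap d) * d * (d - 1) : ℕ) : ℝ) * V)))))))))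
      := by
    unfold CZ; ring
  rw [hfin]
  linarith

end Pool.Agent.H322R2
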