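import Pool.Agent.H322R2.WLow2
import Pool.Agent.H322R2.ZFin

/-!
The sharp law for all degrees `≥ 4`: assembly.
-/

open Polynomial Finset

namespace Pool.Agent.H322R2

variable {d : ℕ}

open Classical in
/-- large points -/
lemma cnt_LW (hd : 4 ≤ d) (H : ℕ) :
    ((Bx ↥(Ix d) H).filter (fun c => ((ff c).natDegree = d ∧
      Irreducible ((ff c).map (Int.castRingHom ℚ))) ∧ ∃ P : ℤ × ℤ,
      ((d + 1) * ((Ix d).card * (2 * H))) ^ (kC d) < max P.1.natAbs P.2.natAbs ∧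
      ev P.1 P.2 (PG c) = 0)).card
      ≤ ((160 * d ^ 2 * kap d) * d * (d - 1)) * (2 * H + 1) ^ ((Ix d).card - 1) := by
  have h1 := YF_count (d := d) (H := H) (by omega) (((Bx ↥(Ix d) H).filter
      (fun c => ((ff c).natDegree = d ∧
      Irreducible ((ff c).map (Int.castRingHom ℚ))) ∧ ∃ P : ℤ × ℤ,
      ((d + 1) * ((Ix d).card * (2 * H))) ^ (kC d) < max P.1.natAbs P.2.natAbs ∧
      ev P.1 P.2 (PG c) = 0)).image FM) (by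
      intro F hF
      rw [Finset.mem_image] at hF
      obtain ⟨c, hc, rfl⟩ := hF
      rw [Finset.mem_filter] at hc
      obtain ⟨hcB, ⟨hc1, hc2⟩, P, hP1, hP2⟩ := hc
      refine ⟨totalDegree_FM (by omega) hc1, ?_, irr_FM (by omega) hc1 hc2, P.2, P.1, ?_, ?_⟩
      · exact (FM_memV.2 ⟨c, hcB, rfl⟩).2
      · rw [eval_FMV]; exact hP2
      · rw [max_comm]; exact hP1)
  rw [Finset.card_image_of_injective _ FM_injectiveV] at h1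
  refine h1.trans ?_
  have h2 : (2 * H + 1) ^ (4 * d - 2) ≤ (2 * H + 1) ^ ((Ix d).card - 1) := by
    apply Nat.pow_le_pow_right (by omega)
    have h3 := two_card_Ix d
    have h4 : 8 * d ≤ (d + 1) * (d + 2) + 2 := by nlinarith
    omega
  calc 160 * d ^ 2 * kap d * d * (2 * H + 1) ^ (4 * d - 2) * (d - 1)
      = ((160 * d ^ 2 * kap d) * d * (d - 1)) * (2 * H + 1) ^ (4 * d - 2) := by ring
    _ ≤ _ := Nat.mul_le_mul_left _ h2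

/-- the constant -/
noncomputable def CW (d : ℕ) : ℝ :=
  25 * 2 ^ d + 9 * KZ d ^ 8 + 2 * (45 * KZ d ^ 4) + 2 * (2 * d) + 2 * 1 +
    2 * (4 * d ^ 2 * 3 ^ d * (3 * (2 ^ d * (d + 1))) ^ d) + 2 * (1635 * KZ d ^ 23) +
    2 * (320 * d * kC d * KZ d ^ 8 + 2 * d * kC d) +
    (((160 * d ^ 2 * kap d) * d * (d - 1) : ℕ) : ℝ)

theorem sharp_vecW (hd : 4 ≤ d) {H : ℕ} (hH1 : 1 ≤ H) :
    Cn H (fun c : ↥(Ix d) → ℤ => ∃ p : ℤ × ℤ, ev p.1 p.2 (PG c) = 0)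
      ≤ CW d * (2 * (H : ℝ) + 1) ^ ((Ix d).card - 1) := by
  classical
  have hHR : (1 : ℝ) ≤ H := by exact_mod_cast hH1
  obtain ⟨z, hz⟩ : ∃ z : ℝ, z = Real.sqrt H := ⟨_, rfl⟩
  have hzH : z ^ 2 = H := by rw [hz]; exact Real.sq_sqrt (by linarith)
  have hz0 : 0 ≤ z := by rw [hz]; exact Real.sqrt_nonneg _
  have hz1 : 1 ≤ z := by
    by_contra hcon
    push Not at hcon
    nlinarith
  have hzp : 0 < z := by linarith
  obtain ⟨V, hV⟩ : ∃ V : ℝ, V = (2 * (H : ℝ) + 1) ^ ((Ix d).card - 1) := ⟨_, rfl⟩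
  have hV0 : 0 ≤ V := by rw [hV]; positivity
  rw [← hV]
  obtain ⟨M0, hM0⟩ : ∃ M0 : ℕ, M0 = Kn d ^ 4 * H := ⟨_, rfl⟩
  have hMX0 : (M0 : ℝ) = KZ d ^ 4 * z ^ 2 := by
    rw [hM0]; push_cast
    rw [Kn_cast, ← hzH]
  obtain ⟨M, hM⟩ : ∃ M : ℕ, M = Kn d ^ 16 * H ^ 3 := ⟨_, rfl⟩
  have hMX : (M : ℝ) = KZ d ^ 16 * z ^ 6 := by
    rw [hM]; push_cast
    rw [Kn_cast, ← hzH]; ring
  have hKd := KZ_d d
  have hK1 : 1 ≤ KZ d := by
    have : (0 : ℝ) ≤ ((d : ℝ) + 1) ^ 4 := by positivity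
    linarith
  have hM1 : (1 : ℝ) ≤ M := by
    rw [hMX]
    exact one_le_mul_of_one_le_of_one_le (one_le_pow₀ hK1) (one_le_pow₀ hz1)
  have hM01 : (1 : ℝ) ≤ M0 := by
    rw [hMX0]
    exact one_le_mul_of_one_le_of_one_le (one_le_pow₀ hK1) (one_le_pow₀ hz1)
  have hN : (Ix d).card ≥ 15 := by
    have h1 := two_card_Ix d
    nlinarith
  have hNd : d + 1 ≤ (Ix d).card := card_Ix_ge d
  have hkC1 : 1 ≤ kC d := by
    show 0 < kC d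
    unfold kC; positivity
  -- the upper end
  obtain ⟨Y, hY⟩ : ∃ Y : ℕ, Y = (d + 1) * ((Ix d).card * (2 * H)) := ⟨_, rfl⟩
  have hYK : (Y : ℝ) ≤ (KZ d * z) ^ 2 := by
    rw [mul_pow, hzH, hY]
    push_cast
    have h3 := two_card_Ix d
    have h4 : 2 * ((Ix d).card : ℝ) = ((d : ℝ) + 1) * (d + 2) := by exact_mod_cast h3
    have h5 : ((d : ℝ) + 1) * (2 * ((Ix d).card : ℝ)) ≤ KZ d ^ 2 := by
      rw [h4]
      have hd0 : (0 : ℝ) ≤ d := by positivity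
      have h6 : ((d : ℝ) + 1) * (((d : ℝ) + 1) * (d + 2)) ≤ ((d : ℝ) + 1) ^ 4 := by
        have h7 : (d : ℝ) + 2 ≤ ((d : ℝ) + 1) ^ 2 := by
          have : (4 : ℝ) ≤ d := by exact_mod_cast hd
          nlinarith
        calc ((d : ℝ) + 1) * (((d : ℝ) + 1) * (d + 2)) = ((d : ℝ) + 1) ^ 2 * (d + 2) := by ring
          _ ≤ ((d : ℝ) + 1) ^ 2 * ((d : ℝ) + 1) ^ 2 :=
            mul_le_mul_of_nonneg_left h7 (by positivity)
          _ = _ := by ring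
      have h8 : ((d : ℝ) + 1) ^ 4 ≤ KZ d := by linarith
      have h9 : KZ d ≤ KZ d ^ 2 := by nlinarith
      linarith
    have hH0 : (0 : ℝ) ≤ H := by positivity
    calc ((d : ℝ) + 1) * (((Ix d).card : ℝ) * (2 * H))
        = (((d : ℝ) + 1) * (2 * ((Ix d).card : ℝ))) * H := by ring
      _ ≤ KZ d ^ 2 * H := mul_le_mul_of_nonneg_right h5 hH0
  obtain ⟨s, hs⟩ : ∃ s : ℕ, s = ⌈KZ d * z⌉₊ := ⟨_, rfl⟩
  have hKz : 1 ≤ KZ d * z := one_le_mul_of_one_le_of_one_le hK1 hz1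
  have hs1 : KZ d * z ≤ s := by rw [hs]; exact Nat.le_ceil _
  have hs2 : (s : ℝ) ≤ 2 * (KZ d * z) := by
    have := Nat.ceil_lt_add_one (show 0 ≤ KZ d * z by linarith)
    rw [← hs] at this
    linarith
  have hs0 : 1 ≤ s := by
    have : (1 : ℝ) ≤ s := hKz.trans hs1
    exact_mod_cast this
  obtain ⟨n, hn⟩ : ∃ n : ℕ, n = 2 * s * kC d := ⟨_, rfl⟩
  have hn1 : 1 ≤ n := by
    rw [hn]; exact Nat.mul_pos (by omega) hkC1
  have hnR : (n : ℝ) ≤ 4 * KZ d * z * kC d := by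
    rw [hn]; push_cast
    calc 2 * (s : ℝ) * kC d ≤ 2 * (2 * (KZ d * z)) * kC d := by gcongr
      _ = _ := by ring
  obtain ⟨J, hJ⟩ : ∃ J, kC d = J + 1 := ⟨kC d - 1, by omega⟩
  have hX2 : (((Y ^ kC d : ℕ)) : ℝ) ≤ (M : ℝ) * 2 ^ n := by
    have e1 : (Y : ℝ) ≤ 2 ^ (2 * s) := by
      have h1 : (s : ℝ) ≤ 2 ^ s := by exact_mod_cast (Nat.lt_two_pow_self (n := s)).le
      calc (Y : ℝ) ≤ (KZ d * z) ^ 2 := hYK
        _ ≤ (s : ℝ) ^ 2 := pow_le_pow_left₀ (by positivity) hs1 2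
        _ ≤ (2 ^ s) ^ 2 := pow_le_pow_left₀ (by positivity) h1 2
        _ = 2 ^ (2 * s) := by rw [← pow_mul, mul_comm]
    push_cast
    calc (Y : ℝ) ^ kC d ≤ (2 ^ (2 * s)) ^ kC d := pow_le_pow_left₀ (by positivity) e1 _
      _ = 2 ^ n := by rw [← pow_mul, hn]
      _ ≤ (M : ℝ) * 2 ^ n := le_mul_of_one_le_left (by positivity) hM1
  have hX2' : (((Y ^ kC d : ℕ)) : ℝ) ≤ (M : ℝ) * (KZ d ^ 7 * z ^ 3) ^ (J + 1) := by
    rw [← hJ]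
    push_cast
    calc (Y : ℝ) ^ kC d ≤ (KZ d ^ 7 * z ^ 3) ^ kC d := by
          apply pow_le_pow_left₀ (by positivity)
          refine hYK.trans ?_
          rw [mul_pow]
          exact mul_le_mul (pow_le_pow_right₀ hK1 (by norm_num)) (pow_le_pow_right₀ hz1 (by norm_num))
            (by positivity) (by positivity)
      _ ≤ _ := le_mul_of_one_le_left (by positivity) hM1
  -- the events
  have bA : Cn H (fun c : ↥(Ix d) → ℤ => ∃ P : ℤ × ℤ, max P.1.natAbs P.2.natAbs ≤ 2 * H ∧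
      ev P.1 P.2 (PG c) = 0) ≤ 25 * 2 ^ d * V := by
    have := small_pts (e := d) (by omega) H (fun _ => 0)
    rw [hV]
    unfold Cn
    convert this
  have bB : Cn H (fun c : ↥(Ix d) → ℤ => ∃ P : ℤ × ℤ, (2 * H < max P.1.natAbs P.2.natAbs ∧
      max P.1.natAbs P.2.natAbs ≤ M0) ∧ ev P.1 P.2 (PG c) = 0) ≤ 9 * KZ d ^ 8 * V := by
    have h1 := cnt_B (d := d) H M0
    have h2 : Cn H (fun c : ↥(Ix d) → ℤ => ∃ P : ℤ × ℤ, (2 * H < max P.1.natAbs P.2.natAbs ∧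
      max P.1.natAbs P.2.natAbs ≤ M0) ∧ ev P.1 P.2 (PG c) = 0) ≤
      (((2 * M0 + 1) ^ 2 * (2 * H + 1) ^ ((Ix d).card - (d + 1)) : ℕ) : ℝ) := by
      unfold Cn
      rw [Nat.cast_le]
      convert h1
    refine h2.trans ?_
    push_cast
    have e1 : (2 * (M0 : ℝ) + 1) ^ 2 ≤ 9 * KZ d ^ 8 * (H : ℝ) ^ 2 := by
      calc (2 * (M0 : ℝ) + 1) ^ 2 ≤ (3 * (M0 : ℝ)) ^ 2 := by
            apply pow_le_pow_left₀ (by positivity); linarith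
        _ = 9 * KZ d ^ 8 * (z ^ 2) ^ 2 := by rw [hMX0]; ring
        _ = _ := by rw [hzH]
    have e2 : (H : ℝ) ^ 2 * (2 * (H : ℝ) + 1) ^ ((Ix d).card - (d + 1)) ≤ V := by
      rw [hV]
      calc (H : ℝ) ^ 2 * (2 * (H : ℝ) + 1) ^ ((Ix d).card - (d + 1))
          ≤ (2 * (H : ℝ) + 1) ^ 2 * (2 * (H : ℝ) + 1) ^ ((Ix d).card - (d + 1)) := by
            gcongr; linarith
        _ = (2 * (H : ℝ) + 1) ^ (2 + ((Ix d).card - (d + 1))) := by rw [pow_add]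
        _ ≤ _ := pow_le_pow_right₀ (by linarith) (by omega)
    calc (2 * (M0 : ℝ) + 1) ^ 2 * (2 * (H : ℝ) + 1) ^ ((Ix d).card - (d + 1))
        ≤ (9 * KZ d ^ 8 * (H : ℝ) ^ 2) * (2 * (H : ℝ) + 1) ^ ((Ix d).card - (d + 1)) :=
          mul_le_mul_of_nonneg_right e1 (by positivity)
      _ = 9 * KZ d ^ 8 * ((H : ℝ) ^ 2 * (2 * (H : ℝ) + 1) ^ ((Ix d).card - (d + 1))) := by ring
      _ ≤ _ := mul_le_mul_of_nonneg_left e2 (by positivity)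
  have bT1 : Cn H (fun c : ↥(Ix d) → ℤ => ¬ ZT1 (fR c) z) ≤ 45 * KZ d ^ 4 * V := by
    rw [hV]
    apply div_V
    have h1 := card_T1s (d := d) hd hz1 hzH le_rfl (by nlinarith)
    have hHp : (0 : ℝ) < 2 * H + 1 := by positivity
    have h2 : Cn H (fun c : ↥(Ix d) → ℤ => ¬ ZT1 (fR c) z) * (2 * H + 1) * (2 * H + 1) ≤
        (45 * KZ d ^ 4 * (Bx ↥(Ix d) H).card) * (2 * H + 1) := by
      calc Cn H (fun c : ↥(Ix d) → ℤ => ¬ ZT1 (fR c) z) * (2 * H + 1) * (2 * H + 1)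
          = Cn H (fun c : ↥(Ix d) → ℤ => ¬ ZT1 (fR c) z) * (2 * H + 1) ^ 2 := by ring
        _ ≤ (45 * KZ d ^ 4 * z ^ 2) * (Bx ↥(Ix d) H).card := by
          unfold Cn
          convert h1
        _ = (45 * KZ d ^ 4 * (Bx ↥(Ix d) H).card) * H := by rw [hzH]; ring
        _ ≤ _ := by
          apply mul_le_mul_of_nonneg_left _ (by positivity)
          linarith
    exact le_of_mul_le_mul_right h2 hHp
  have bT2 : Cn H (fun c : ↥(Ix d) → ℤ => ¬ ZT2 (fR c) z) ≤ (2 * d) * V := by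
    rw [hV]
    apply div_V
    unfold Cn
    convert card_T2 (d := d) (by omega) H hz1
  have bZ0 : Cn H (fun c : ↥(Ix d) → ℤ => (ff c).natDegree ≠ d) ≤ 1 * V := by
    rw [hV]
    apply div_V
    unfold Cn
    convert cnt_Z0 (d := d) (by omega) H
  have bZ1 : Cn H (fun c : ↥(Ix d) → ℤ => (ff c).natDegree = d ∧
      ¬ Irreducible ((ff c).map (Int.castRingHom ℚ)))
      ≤ (4 * d ^ 2 * 3 ^ d * (3 * (2 ^ d * (d + 1))) ^ d) * V := by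
    rw [hV]
    unfold Cn
    convert cnt_red_sharp (d := d) (by omega) hH1
  have bG : Cn H (fun c : ↥(Ix d) → ℤ => ZT1 (fR c) z ∧ ∃ P : ℤ × ℤ,
      (|P.2| ≤ |P.1| ∧ KZ d ^ 4 * z ^ 2 ≤ |(P.1 : ℝ)| ∧ |(P.1 : ℝ)| ≤ M) ∧
        ev P.1 P.2 (PG c) = 0) ≤ 1635 * KZ d ^ 23 * V := by
    have h1 := cnt_low (d := d) (M := M) hd hz1 hzH
    have hHp : (0 : ℝ) < 2 * H + 1 := by positivity
    have e1 : 545 * KZ d ^ 7 * (2 * (M : ℝ) + 1) ≤ 1635 * KZ d ^ 23 * (2 * H + 1) ^ 3 := by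
      calc 545 * KZ d ^ 7 * (2 * (M : ℝ) + 1) ≤ 545 * KZ d ^ 7 * (3 * (M : ℝ)) := by
            apply mul_le_mul_of_nonneg_left _ (by positivity); linarith
        _ = 1635 * KZ d ^ 23 * (z ^ 2) ^ 3 := by rw [hMX]; ring
        _ = 1635 * KZ d ^ 23 * (H : ℝ) ^ 3 := by rw [hzH]
        _ ≤ _ := by gcongr; linarith
    have e2 : ((Bx ↥(Ix d) H).card : ℝ) = (2 * (H : ℝ) + 1) ^ ((Ix d).card - d) * (2 * H + 1) ^ d := by
      rw [card_Bx, Fintype.card_coe, ← pow_add]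
      push_cast
      congr 1; omega
    rw [e2, ← mul_assoc] at h1
    have h2 := le_of_mul_le_mul_right h1 (by positivity)
    refine h2.trans ?_
    calc 545 * KZ d ^ 7 * (2 * (M : ℝ) + 1) * (2 * (H : ℝ) + 1) ^ ((Ix d).card - d)
        ≤ (1635 * KZ d ^ 23 * (2 * H + 1) ^ 3) * (2 * (H : ℝ) + 1) ^ ((Ix d).card - d) :=
          mul_le_mul_of_nonneg_right e1 (by positivity)
      _ = 1635 * KZ d ^ 23 * (2 * (H : ℝ) + 1) ^ (3 + ((Ix d).card - d)) := by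
        rw [pow_add]; ring
      _ ≤ 1635 * KZ d ^ 23 * V := by
        apply mul_le_mul_of_nonneg_left _ (by positivity)
        rw [hV]
        exact pow_le_pow_right₀ (by linarith) (by omega)
  have bE : Cn H (fun c : ↥(Ix d) → ℤ => (ZT1 (fR c) z ∧ ZT2 (fR c) z ∧ HR (fR c) d) ∧
      ∃ P : ℤ × ℤ, (|P.2| ≤ |P.1| ∧ (M : ℝ) ≤ |(P.1 : ℝ)| ∧
        |(P.1 : ℝ)| ≤ ((Y ^ kC d : ℕ) : ℝ)) ∧ ev P.1 P.2 (PG c) = 0)
      ≤ (320 * d * kC d * KZ d ^ 8 + 2 * d * kC d) * V := by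
    have h1 := cnt_mediumW (d := d) hd hz1 hzH (X1 := M) (X2 := ((Y ^ kC d : ℕ) : ℝ)) hMX.ge hn1 hX2 hX2'
    refine h1.trans ?_
    rw [add_mul]
    apply add_le_add
    · have e1 : (H : ℝ) ^ 2 * (2 * (H : ℝ) + 1) ^ 3 * (2 * (H : ℝ) + 1) ^ ((Ix d).card - 6) ≤ V := by
        calc (H : ℝ) ^ 2 * (2 * (H : ℝ) + 1) ^ 3 * (2 * (H : ℝ) + 1) ^ ((Ix d).card - 6)
            ≤ (2 * (H : ℝ) + 1) ^ 2 * (2 * (H : ℝ) + 1) ^ 3 *
              (2 * (H : ℝ) + 1) ^ ((Ix d).card - 6) := by gcongr; linarith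
          _ = (2 * (H : ℝ) + 1) ^ (2 + 3 + ((Ix d).card - 6)) := by rw [pow_add, pow_add]
          _ ≤ V := by
            rw [hV]
            exact pow_le_pow_right₀ (by linarith) (by omega)
      calc (d * (2 * ((n : ℝ) * (40 * (KZ d ^ 7 * z ^ 3)))) * (2 * (H : ℝ) + 1) ^ 3) *
          (2 * (H : ℝ) + 1) ^ ((Ix d).card - 6)
          ≤ (d * (2 * ((4 * KZ d * z * kC d) * (40 * (KZ d ^ 7 * z ^ 3)))) *
            (2 * (H : ℝ) + 1) ^ 3) * (2 * (H : ℝ) + 1) ^ ((Ix d).card - 6) := by gcongr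
        _ = (320 * d * kC d * KZ d ^ 8) * ((z ^ 2) ^ 2 * (2 * (H : ℝ) + 1) ^ 3 *
            (2 * (H : ℝ) + 1) ^ ((Ix d).card - 6)) := by ring
        _ = (320 * d * kC d * KZ d ^ 8) * ((H : ℝ) ^ 2 * (2 * (H : ℝ) + 1) ^ 3 *
            (2 * (H : ℝ) + 1) ^ ((Ix d).card - 6)) := by rw [hzH]
        _ ≤ _ := mul_le_mul_of_nonneg_left e1 (by positivity)
    · have e1 : ((kC d : ℕ) : ℝ) = J + 1 := by rw [hJ]; push_cast; ring
      rw [e1, ← hV]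
      apply le_of_eq; ring
  have bL : Cn H (fun c : ↥(Ix d) → ℤ => ((ff c).natDegree = d ∧
      Irreducible ((ff c).map (Int.castRingHom ℚ))) ∧ ∃ P : ℤ × ℤ,
      ((d + 1) * ((Ix d).card * (2 * H))) ^ (kC d) < max P.1.natAbs P.2.natAbs ∧
      ev P.1 P.2 (PG c) = 0) ≤ (((160 * d ^ 2 * kap d) * d * (d - 1) : ℕ) : ℝ) * V := by
    have h1 := cnt_LW (d := d) hd H
    have h2 : ((((160 * d ^ 2 * kap d) * d * (d - 1)) * (2 * H + 1) ^ ((Ix d).card - 1) : ℕ) : ℝ)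
        = (((160 * d ^ 2 * kap d) * d * (d - 1) : ℕ) : ℝ) * V := by
      rw [hV, Nat.cast_mul]; push_cast; ring
    rw [← h2]
    unfold Cn
    rw [Nat.cast_le]
    convert h1
  -- naming
  obtain ⟨PA, hPA⟩ : ∃ PA : (↥(Ix d) → ℤ) → Prop, PA = fun c => ∃ P : ℤ × ℤ,
    max P.1.natAbs P.2.natAbs ≤ 2 * H ∧ ev P.1 P.2 (PG c) = 0 := ⟨_, rfl⟩
  obtain ⟨PB, hPB⟩ : ∃ PB : (↥(Ix d) → ℤ) → Prop, PB = fun c => ∃ P : ℤ × ℤ,
    (2 * H < max P.1.natAbs P.2.natAbs ∧ max P.1.natAbs P.2.natAbs ≤ M0) ∧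
    ev P.1 P.2 (PG c) = 0 := ⟨_, rfl⟩
  obtain ⟨P1, hP1⟩ : ∃ P1 : (↥(Ix d) → ℤ) → Prop, P1 = fun c => ¬ ZT1 (fR c) z := ⟨_, rfl⟩
  obtain ⟨P2, hP2⟩ : ∃ P2 : (↥(Ix d) → ℤ) → Prop, P2 = fun c => ¬ ZT2 (fR c) z := ⟨_, rfl⟩
  obtain ⟨Z0, hZ0⟩ : ∃ Z0 : (↥(Ix d) → ℤ) → Prop, Z0 = fun c => (ff c).natDegree ≠ d := ⟨_, rfl⟩
  obtain ⟨Z1, hZ1⟩ : ∃ Z1 : (↥(Ix d) → ℤ) → Prop, Z1 = fun c => (ff c).natDegree = d ∧
      ¬ Irreducible ((ff c).map (Int.castRingHom ℚ)) := ⟨_, rfl⟩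
  obtain ⟨G1, hG1⟩ : ∃ G1 : (↥(Ix d) → ℤ) → Prop, G1 = fun c => ZT1 (fR c) z ∧ ∃ P : ℤ × ℤ,
      (|P.2| ≤ |P.1| ∧ KZ d ^ 4 * z ^ 2 ≤ |(P.1 : ℝ)| ∧ |(P.1 : ℝ)| ≤ M) ∧
        ev P.1 P.2 (PG c) = 0 := ⟨_, rfl⟩
  obtain ⟨PE, hPE⟩ : ∃ PE : (↥(Ix d) → ℤ) → Prop, PE = fun c =>
      (ZT1 (fR c) z ∧ ZT2 (fR c) z ∧ HR (fR c) d) ∧
      ∃ P : ℤ × ℤ, (|P.2| ≤ |P.1| ∧ (M : ℝ) ≤ |(P.1 : ℝ)| ∧
        |(P.1 : ℝ)| ≤ ((Y ^ kC d : ℕ) : ℝ)) ∧ ev P.1 P.2 (PG c) = 0 := ⟨_, rfl⟩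
  obtain ⟨PL, hPL⟩ : ∃ PL : (↥(Ix d) → ℤ) → Prop, PL = fun c => ((ff c).natDegree = d ∧
      Irreducible ((ff c).map (Int.castRingHom ℚ))) ∧ ∃ P : ℤ × ℤ,
      ((d + 1) * ((Ix d).card * (2 * H))) ^ (kC d) < max P.1.natAbs P.2.natAbs ∧
      ev P.1 P.2 (PG c) = 0 := ⟨_, rfl⟩
  rw [← hPA] at bA
  rw [← hPB] at bB
  rw [← hP1] at bT1
  rw [← hP2] at bT2
  rw [← hZ0] at bZ0
  rw [← hZ1] at bZ1
  rw [← hG1] at bG
  rw [← hPE] at bE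
  rw [← hPL] at bL
  have hcov : ∀ c ∈ Bx ↥(Ix d) H, (∃ p : ℤ × ℤ, ev p.1 p.2 (PG c) = 0) →
      (PA c ∨ PB c ∨ P1 c ∨ P1 (sw c) ∨ P2 c ∨ P2 (sw c) ∨ Z0 c ∨ Z0 (sw c) ∨ Z1 c ∨ Z1 (sw c) ∨
        G1 c ∨ G1 (sw c) ∨ PE c ∨ PE (sw c) ∨ PL c) := by
    rintro c hc ⟨p, hp⟩
    by_cases q1 : P1 c; · right; right; left; exact q1
    by_cases q1' : P1 (sw c); · right; right; right; left; exact q1'
    by_cases q2 : P2 c; · right; right; right; right; left; exact q2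
    by_cases q2' : P2 (sw c); · right; right; right; right; right; left; exact q2'
    by_cases r0 : Z0 c; · right; right; right; right; right; right; left; exact r0
    by_cases r0' : Z0 (sw c); · right; right; right; right; right; right; right; left; exact r0'
    by_cases r1 : Z1 c; · right; right; right; right; right; right; right; right; left; exact r1
    by_cases r1' : Z1 (sw c)
    · right; right; right; right; right; right; right; right; right; left; exact r1'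
    have hT1 : ZT1 (fR c) z := by rw [hP1] at q1; exact not_not.1 q1
    have hT1' : ZT1 (fR (sw c)) z := by rw [hP1] at q1'; exact not_not.1 q1'
    have hT2 : ZT2 (fR c) z := by rw [hP2] at q2; exact not_not.1 q2
    have hT2' : ZT2 (fR (sw c)) z := by rw [hP2] at q2'; exact not_not.1 q2'
    have hdeg : (ff c).natDegree = d := by rw [hZ0] at r0; exact not_not.1 r0
    have hdeg' : (ff (sw c)).natDegree = d := by rw [hZ0] at r0'; exact not_not.1 r0'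
    have hirr : Irreducible ((ff c).map (Int.castRingHom ℚ)) := by
      by_contra hcon
      apply r1
      rw [hZ1]
      exact ⟨hdeg, hcon⟩
    have hirr' : Irreducible ((ff (sw c)).map (Int.castRingHom ℚ)) := by
      by_contra hcon
      apply r1'
      rw [hZ1]
      exact ⟨hdeg', hcon⟩
    by_cases s1 : max p.1.natAbs p.2.natAbs ≤ 2 * H
    · left
      rw [hPA]
      exact ⟨p, s1, hp⟩
    push Not at s1
    by_cases s2 : max p.1.natAbs p.2.natAbs ≤ M0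
    · right; left
      rw [hPB]
      exact ⟨p, ⟨s1, s2⟩, hp⟩
    push Not at s2
    right; right; right; right; right; right; right; right; right; right
    have hup : ∀ (w : ℤ) (B : ℕ), w.natAbs ≤ B → |(w : ℝ)| ≤ B := by
      intro w B hw
      have h1 : ((w.natAbs : ℕ) : ℝ) ≤ (B : ℝ) := by exact_mod_cast hw
      rwa [Nat.cast_natAbs, Int.cast_abs] at h1
    have hlow : ∀ (w : ℤ) (B : ℕ), B < w.natAbs → (B : ℝ) ≤ |(w : ℝ)| := by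
      intro w B hw
      have h1 : ((B : ℕ) : ℝ) ≤ ((w.natAbs : ℕ) : ℝ) := by exact_mod_cast hw.le
      rwa [Nat.cast_natAbs, Int.cast_abs] at h1
    by_cases s3 : max p.1.natAbs p.2.natAbs ≤ M
    · rcases le_total p.2.natAbs p.1.natAbs with hle | hle
      · left
        rw [hG1]
        rw [max_eq_left hle] at s2 s3
        refine ⟨hT1, p, ⟨?_, ?_, hup _ _ s3⟩, hp⟩
        · rw [Int.abs_eq_natAbs, Int.abs_eq_natAbs]; exact_mod_cast hle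
        · rw [← hMX0]; exact hlow _ _ s2
      · right; left
        rw [hG1]
        rw [max_eq_right hle] at s2 s3
        refine ⟨hT1', (p.2, p.1), ⟨?_, ?_, hup _ _ s3⟩, ?_⟩
        · rw [Int.abs_eq_natAbs, Int.abs_eq_natAbs]; exact_mod_cast hle
        · rw [← hMX0]; exact hlow _ _ s2
        · rw [ev_sw]; exact hp
    push Not at s3
    right; right
    by_cases s4 : ((d + 1) * ((Ix d).card * (2 * H))) ^ (kC d) < max p.1.natAbs p.2.natAbs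
    · right; right
      rw [hPL]
      exact ⟨⟨hdeg, hirr⟩, p, s4, hp⟩
    push Not at s4
    rw [← hY] at s4
    rcases le_total p.2.natAbs p.1.natAbs with hle | hle
    · left
      rw [hPE]
      rw [max_eq_left hle] at s3 s4
      refine ⟨⟨hT1, hT2, HR_of_irr hd hdeg hirr⟩, p, ⟨?_, hlow _ _ s3, hup _ _ s4⟩, hp⟩
      rw [Int.abs_eq_natAbs, Int.abs_eq_natAbs]; exact_mod_cast hle
    · right; left
      rw [hPE]
      rw [max_eq_right hle] at s3 s4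
      refine ⟨⟨hT1', hT2', HR_of_irr hd hdeg' hirr'⟩, (p.2, p.1), ⟨?_, hlow _ _ s3, hup _ _ s4⟩, ?_⟩
      · rw [Int.abs_eq_natAbs, Int.abs_eq_natAbs]; exact_mod_cast hle
      · rw [ev_sw]; exact hp
  have bT1' := Cn_sw (H := H) P1
  have bT2' := Cn_sw (H := H) P2
  have bZ0' := Cn_sw (H := H) Z0
  have bZ1' := Cn_sw (H := H) Z1
  have bG' := Cn_sw (H := H) G1
  have bE' := Cn_sw (H := H) PE
  refine (Cn_mono hcov).trans ?_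
  have u1 := Cn_or (H := H) PA (fun c => PB c ∨ P1 c ∨ P1 (sw c) ∨ P2 c ∨ P2 (sw c) ∨ Z0 c ∨
    Z0 (sw c) ∨ Z1 c ∨ Z1 (sw c) ∨ G1 c ∨ G1 (sw c) ∨ PE c ∨ PE (sw c) ∨ PL c)
  have u2 := Cn_or (H := H) PB (fun c => P1 c ∨ P1 (sw c) ∨ P2 c ∨ P2 (sw c) ∨ Z0 c ∨
    Z0 (sw c) ∨ Z1 c ∨ Z1 (sw c) ∨ G1 c ∨ G1 (sw c) ∨ PE c ∨ PE (sw c) ∨ PL c)
  have u3 := Cn_or (H := H) P1 (fun c => P1 (sw c) ∨ P2 c ∨ P2 (sw c) ∨ Z0 c ∨
    Z0 (sw c) ∨ Z1 c ∨ Z1 (sw c) ∨ G1 c ∨ G1 (sw c) ∨ PE c ∨ PE (sw c) ∨ PL c)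
  have u4 := Cn_or (H := H) (fun c => P1 (sw c)) (fun c => P2 c ∨ P2 (sw c) ∨ Z0 c ∨
    Z0 (sw c) ∨ Z1 c ∨ Z1 (sw c) ∨ G1 c ∨ G1 (sw c) ∨ PE c ∨ PE (sw c) ∨ PL c)
  have u5 := Cn_or (H := H) P2 (fun c => P2 (sw c) ∨ Z0 c ∨
    Z0 (sw c) ∨ Z1 c ∨ Z1 (sw c) ∨ G1 c ∨ G1 (sw c) ∨ PE c ∨ PE (sw c) ∨ PL c)
  have u6 := Cn_or (H := H) (fun c => P2 (sw c)) (fun c => Z0 c ∨
    Z0 (sw c) ∨ Z1 c ∨ Z1 (sw c) ∨ G1 c ∨ G1 (sw c) ∨ PE c ∨ PE (sw c) ∨ PL c)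
  have u7 := Cn_or (H := H) Z0 (fun c => Z0 (sw c) ∨ Z1 c ∨ Z1 (sw c) ∨ G1 c ∨ G1 (sw c) ∨ PE c ∨
    PE (sw c) ∨ PL c)
  have u8 := Cn_or (H := H) (fun c => Z0 (sw c)) (fun c => Z1 c ∨ Z1 (sw c) ∨ G1 c ∨ G1 (sw c) ∨
    PE c ∨ PE (sw c) ∨ PL c)
  have u9 := Cn_or (H := H) Z1 (fun c => Z1 (sw c) ∨ G1 c ∨ G1 (sw c) ∨ PE c ∨ PE (sw c) ∨ PL c)
  have u10 := Cn_or (H := H) (fun c => Z1 (sw c)) (fun c => G1 c ∨ G1 (sw c) ∨ PE c ∨ PE (sw c) ∨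
    PL c)
  have u11 := Cn_or (H := H) G1 (fun c => G1 (sw c) ∨ PE c ∨ PE (sw c) ∨ PL c)
  have u12 := Cn_or (H := H) (fun c => G1 (sw c)) (fun c => PE c ∨ PE (sw c) ∨ PL c)
  have u13 := Cn_or (H := H) PE (fun c => PE (sw c) ∨ PL c)
  have u14 := Cn_or (H := H) (fun c => PE (sw c)) PL
  obtain ⟨w1, hw1⟩ : ∃ w1, w1 = (4 * d ^ 2 * 3 ^ d * (3 * (2 ^ d * (d + 1))) ^ d) * V := ⟨_, rfl⟩
  obtain ⟨w2, hw2⟩ : ∃ w2, w2 = 1635 * KZ d ^ 23 * V := ⟨_, rfl⟩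
  obtain ⟨w3, hw3⟩ : ∃ w3, w3 = (320 * d * kC d * KZ d ^ 8 + 2 * d * kC d) * V := ⟨_, rfl⟩
  have hfin : CW d * V = 25 * 2 ^ d * V + 9 * KZ d ^ 8 * V + 2 * (45 * KZ d ^ 4 * V) +
      2 * ((2 * d) * V) + 2 * (1 * V) + 2 * w1 + 2 * w2 + 2 * w3 +
      (((160 * d ^ 2 * kap d) * d * (d - 1) : ℕ) : ℝ) * V := by
    rw [hw1, hw2, hw3]
    unfold CW; ring
  rw [← hw1] at bZ1
  rw [← hw2] at bG
  rw [← hw3] at bE
  rw [hfin]
  linarith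

end Pool.Agent.H322R2
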