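import Pool.Agent.H322R2.WMed

/-!
Medium points (sharp law, all degrees `≥ 4`): the count.
-/

open Polynomial Finset

namespace Pool.Agent.H322R2

variable {d : ℕ}

/-- a box of points -/
noncomputable def bxP (M : ℕ) : Finset (ℤ × ℤ) := (Icc (-(M : ℤ)) M) ×ˢ (Icc (-(M : ℤ)) M)

open Classical in
/-- points near an asymptote -/
noncomputable def NS (M : ℕ) (η β r X : ℝ) (σ : ℤ) : Finset (ℤ × ℤ) :=
  (bxP M).filter (fun P => X ≤ ((σ * P.1 : ℤ) : ℝ) ∧ ((σ * P.1 : ℤ) : ℝ) ≤ 2 * X ∧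
    |(P.2 : ℝ) - η * P.1 - β| ≤ r / X)

open Classical in
/-- cheap points -/
noncomputable def Ch (M n : ℕ) (r X1 : ℝ) (f : ℕ → ℝ[X]) : Finset (ℤ × ℤ) :=
  (f 0).roots.toFinset.biUnion (fun η => ({1, -1} : Finset ℤ).biUnion (fun σ =>
    (range n).biUnion (fun i => if ((NS M η (zbe f η) r (X1 * 2 ^ i) σ).card : ℝ) ≤ 40 * r then
      NS M η (zbe f η) r (X1 * 2 ^ i) σ else ∅)))

lemma card_Ch (M n : ℕ) {r X1 : ℝ} (hr : 0 ≤ r) {f : ℕ → ℝ[X]} (hf : (f 0).natDegree ≤ d) :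
    ((Ch M n r X1 f).card : ℝ) ≤ d * (2 * (n * (40 * r))) := by
  classical
  unfold Ch
  refine (card_biUnion_real _ _ (2 * (n * (40 * r))) ?_).trans ?_
  · intro η _
    refine (card_biUnion_real _ _ (n * (40 * r)) ?_).trans ?_
    · intro σ _
      refine (card_biUnion_real _ _ (40 * r) ?_).trans ?_
      · intro i _
        split_ifs with h
        · exact h
        · simp; positivity
      · rw [Finset.card_range]
    · apply mul_le_mul_of_nonneg_right _ (by positivity)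
      have : (({1, -1} : Finset ℤ).card) ≤ 2 := Finset.card_le_two
      exact_mod_cast this
  · apply mul_le_mul_of_nonneg_right _ (by positivity)
    have : ((f 0).roots.toFinset.card) ≤ d :=
      (Multiset.toFinset_card_le _).trans ((card_roots' _).trans hf)
    exact_mod_cast this

open Classical in
/-- the very rich points -/
noncomputable def VS (d M : ℕ) (K z X1 X2 : ℝ) (f : ℕ → ℝ[X]) : Finset (ℤ × ℤ) :=
  (f 0).roots.toFinset.biUnion (fun η => if (|η| ≤ 3 / 2 ∧ z ≤ |hc f 0 1 η|) ∧ ZT2 f z ∧ HR f d ∧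
    WH f d K z ∧ f 0 ≠ 0 then
    (bxP M).filter (fun P => VP f d K z η P ∧ X1 ≤ |(P.1 : ℝ)| ∧ |(P.1 : ℝ)| ≤ X2) else ∅)

lemma card_VS (M J : ℕ) {K z X1 X2 : ℝ} {f : ℕ → ℝ[X]} (hKd : ((d : ℝ) + 1) ^ 4 + 288 ≤ K)
    (hX1 : K ^ 16 * z ^ 6 ≤ X1) (hX2 : X2 ≤ X1 * (K ^ 7 * z ^ 3) ^ (J + 1))
    (hf : (f 0).natDegree ≤ d) : (VS d M K z X1 X2 f).card ≤ d * (2 * (J + 1)) := by
  classical
  unfold VS
  refine Finset.card_biUnion_le.trans ((Finset.sum_le_card_nsmul _ _ (2 * (J + 1)) ?_).trans ?_)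
  · intro η hη
    split_ifs with h
    · have hη0 : (f 0).eval η = 0 := by
        rw [Multiset.mem_toFinset, mem_roots h.2.2.2.2] at hη
        exact hη
      apply vr_long h.2.2.2.1 hKd h.2.1 h.2.2.1 h.1.1 hη0 h.1.2 hX1 J
      intro P hP
      rw [Finset.mem_filter] at hP
      exact ⟨hP.2.1, hP.2.2.1, hP.2.2.2.trans hX2⟩
    · simp
  · rw [smul_eq_mul]
    apply Nat.mul_le_mul_right
    exact (Multiset.toFinset_card_le _).trans ((card_roots' _).trans hf)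

lemma dyadic {X1 x : ℝ} {n : ℕ} (hn : 1 ≤ n) (h1 : X1 ≤ x) (h2 : x ≤ X1 * 2 ^ n) :
    ∃ i < n, X1 * 2 ^ i ≤ x ∧ x ≤ 2 * (X1 * 2 ^ i) := by
  induction n with
  | zero => omega
  | succ n ih =>
    by_cases h3 : x ≤ X1 * 2 ^ n
    · by_cases hn0 : n = 0
      · subst hn0
        refine ⟨0, by omega, by simpa using h1, ?_⟩
        rw [pow_succ] at h2
        linarith
      · obtain ⟨i, hi, h4⟩ := ih (by omega) h3
        exact ⟨i, by omega, h4⟩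
    · push Not at h3
      refine ⟨n, by omega, h3.le, ?_⟩
      rw [pow_succ] at h2
      linarith

lemma zbe_congr {f g : ℕ → ℝ[X]} (h0 : f 0 = g 0) (h1 : f 1 = g 1) (η : ℝ) :
    zbe f η = zbe g η := by
  rw [zbe, zbe, h1, hc_congr h0]

lemma kz0_mem {H : ℕ} {c : ↥(Ix d) → ℤ} (hc : c ∈ Bx _ H) : kz0 c ∈ Bx _ H :=
  update_mem_Bx hc _ (by rw [Finset.mem_Icc]; constructor <;> omega)

/-- each medium zero is cheap or very rich -/
lemma cheap_or_rich (hd : 4 ≤ d) {H : ℕ} {z : ℝ} (hz : 1 ≤ z) (hH : z ^ 2 = H) {X1 X2 : ℝ}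
    (hX1 : KZ d ^ 16 * z ^ 6 ≤ X1) {n : ℕ} (hn : 1 ≤ n) (hX2 : X2 ≤ X1 * 2 ^ n)
    {c : ↥(Ix d) → ℤ} (hc : c ∈ Bx ↥(Ix d) H) (h1 : ZT1 (fR c) z) (h2 : ZT2 (fR c) z)
    (h3 : HR (fR c) d) {P : ℤ × ℤ} (hP : |P.2| ≤ |P.1|) (hPa : X1 ≤ |(P.1 : ℝ)|)
    (hPb : |(P.1 : ℝ)| ≤ X2) (hev : ev P.1 P.2 (PG c) = 0) :
    P ∈ Ch ⌊X2⌋₊ n (KZ d ^ 7 * z ^ 3) X1 (fR (tp c)) ∨
      P ∈ VS d ⌊X2⌋₊ (KZ d) z X1 X2 (fR (kz0 c)) := by
  classical
  have hW := WH_fR hd hc hz hH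
  have hK3 := hW.hK3
  have hz0 : 0 < z := by linarith
  obtain ⟨K, hK⟩ : ∃ K, K = KZ d := ⟨_, rfl⟩
  rw [← hK] at hX1 hW hK3 ⊢
  have hK0 : 0 < K := by linarith
  have hK1 : 1 ≤ K := by linarith
  obtain ⟨r0, hr0⟩ : ∃ r0, r0 = K ^ 7 * z ^ 3 := ⟨_, rfl⟩
  have hr01 : 1 ≤ r0 := by
    rw [hr0]; exact one_le_mul_of_one_le_of_one_le (one_le_pow₀ hK1) (one_le_pow₀ hz)
  have hX10 : 0 < X1 := lt_of_lt_of_le (by positivity) hX1
  have hP0 : P.1 ≠ 0 := by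
    intro h; rw [h] at hPa; simp at hPa; linarith
  have ha0 : (P.1 : ℝ) ≠ 0 := by exact_mod_cast hP0
  have hap : 0 < |(P.1 : ℝ)| := abs_pos.2 ha0
  have hs1 : |(P.2 : ℝ) / P.1| ≤ 1 := by
    rw [abs_div, div_le_one hap]; exact_mod_cast hP
  have hTv : Tv (fR c) d P.1 ((P.2 : ℝ) / P.1) = 0 := by
    have e1 := ev_Tv c (a := P.1) (b := P.2) hP0
    rw [hev, Int.cast_zero] at e1
    rcases mul_eq_zero.1 e1.symm with h | h
    · exact absurd h (pow_ne_zero _ ha0)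
    · exact h
  obtain ⟨η, q1, q2, q3, q4⟩ := near_rootW hW h1 (X := |(P.1 : ℝ)|) (hX1.trans hPa) le_rfl
    (by linarith) hs1 (by rw [hTv, abs_zero]; positivity)
  rw [mul_div_cancel₀ _ ha0, ← hr0] at q4
  have hf0 := h1.ne_zero hz
  obtain ⟨i, hi, hi1, hi2⟩ := dyadic hn hPa (hPb.trans hX2)
  obtain ⟨Xi, hXi⟩ : ∃ Xi, Xi = X1 * 2 ^ i := ⟨_, rfl⟩
  rw [← hXi] at hi1 hi2
  have hXi1 : X1 ≤ Xi := by
    rw [hXi]; exact le_mul_of_one_le_right hX10.le (one_le_pow₀ (by norm_num))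
  have hXi0 : 0 < Xi := by linarith
  obtain ⟨σ, hσ, hσP⟩ : ∃ σ : ℤ, (σ = 1 ∨ σ = -1) ∧ σ * P.1 = |P.1| := by
    rcases le_total 0 P.1 with h | h
    · exact ⟨1, Or.inl rfl, by rw [abs_of_nonneg h, one_mul]⟩
    · exact ⟨-1, Or.inr rfl, by rw [abs_of_nonpos h]; ring⟩
  have hσR : ((σ * P.1 : ℤ) : ℝ) = |(P.1 : ℝ)| := by rw [hσP]; push_cast; rfl
  have hbox : P ∈ bxP ⌊X2⌋₊ := by
    have hM1 : |P.1| ≤ ((⌊X2⌋₊ : ℕ) : ℤ) := by
      have : ((P.1.natAbs : ℕ) : ℝ) ≤ X2 := by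
        rw [Nat.cast_natAbs, Int.cast_abs]; exact hPb
      have h5 := Nat.le_floor this
      rw [Int.abs_eq_natAbs]
      exact_mod_cast h5
    rw [bxP, Finset.mem_product, Finset.mem_Icc, Finset.mem_Icc]
    exact ⟨abs_le.1 hM1, abs_le.1 (hP.trans hM1)⟩
  have hmem : P ∈ NS ⌊X2⌋₊ η (zbe (fR c) η) r0 Xi σ := by
    rw [NS, Finset.mem_filter, hσR]
    refine ⟨hbox, hi1, hi2, q4.trans ?_⟩
    exact div_le_div_of_nonneg_left (by linarith) hXi0 hi1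
  have h4r : 4 * r0 ≤ Xi := by
    calc 4 * r0 ≤ K * r0 := mul_le_mul_of_nonneg_right (by linarith) (by linarith)
      _ = K ^ 8 * z ^ 3 := by rw [hr0]; ring
      _ ≤ K ^ 16 * z ^ 6 := mul_le_mul (pow_le_pow_right₀ hK1 (by norm_num))
          (pow_le_pow_right₀ hz (by norm_num)) (by positivity) (by positivity)
      _ ≤ Xi := hX1.trans hXi1
  rcases dich (η := η) (β := zbe (fR c) η) hr01 h4r σ hσ (NS ⌊X2⌋₊ η (zbe (fR c) η) r0 Xi σ) (by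
    intro Q hQ
    rw [NS, Finset.mem_filter] at hQ
    exact hQ.2) with h | h
  · left
    rw [Ch, Finset.mem_biUnion]
    refine ⟨η, ?_, ?_⟩
    · rw [fR_tpW hd c (by norm_num), Multiset.mem_toFinset, mem_roots hf0]
      exact q2
    rw [Finset.mem_biUnion]
    refine ⟨σ, ?_, ?_⟩
    · rw [Finset.mem_insert, Finset.mem_singleton]; exact hσ
    rw [Finset.mem_biUnion]
    refine ⟨i, Finset.mem_range.2 hi, ?_⟩
    have hz1 : zbe (fR (tp c)) η = zbe (fR c) η :=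
      zbe_congr (fR_tpW hd c (by norm_num)) (fR_tpW hd c (by norm_num)) η
    rw [hz1, ← hXi, ← hr0, if_pos h]
    exact hmem
  · right
    have hf : ∀ k ≤ 2, fR (kz0 c) k = fR c k := fun k hk => fR_kz0 c (by omega)
    have hT2 : ZT2 (fR (kz0 c)) z := by
      intro η' g1 g2 g3
      rw [hc_congr (hf 0 (by norm_num))] at g3
      rw [hf 0 (by norm_num)] at g2
      have := h2 η' g1 g2 g3
      rw [zbe] at this ⊢
      rw [hc_congr (hf 0 (by norm_num)), hc_congr (hf 0 (by norm_num)), hc_congr (hf 1 (by norm_num)),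
        hc_congr (hf 2 (by norm_num)), hf 1 (by norm_num)]
      exact this
    have hHR : HR (fR (kz0 c)) d := by
      intro A B hA
      rw [hf 0 (by norm_num)]
      exact h3 A B hA
    have hWk : WH (fR (kz0 c)) d K z := by rw [hK]; exact WH_fR hd (kz0_mem hc) hz hH
    rw [VS, Finset.mem_biUnion]
    refine ⟨η, ?_, ?_⟩
    · rw [hf 0 (by norm_num), Multiset.mem_toFinset, mem_roots hf0]
      exact q2
    rw [if_pos ⟨⟨q1, by rw [hc_congr (hf 0 (by norm_num))]; exact q3⟩, hT2, hHR, hWk, by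
      rw [hf 0 (by norm_num)]; exact hf0⟩]
    rw [Finset.mem_filter]
    refine ⟨hbox, ⟨?_, ?_, ?_⟩, hPa, hPb⟩
    · rw [← hr0]; exact h P hmem
    · rw [← hr0, zbe_congr (hf 0 (by norm_num)) (hf 1 (by norm_num))]; exact q4
    · have e1 := ev_Tv (kz0 c) (a := P.1) (b := P.2) hP0
      have e2 := ev_kz0 c P
      rw [hev] at e2
      have e3 : ev P.1 P.2 (PG (kz0 c)) = -c (i00 d) := by omega
      rw [e3] at e1
      have e4 : |(P.1 : ℝ)| ^ d * |Tv (fR (kz0 c)) d P.1 ((P.2 : ℝ) / P.1)| ≤ z ^ 2 := by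
        rw [← abs_pow, ← abs_mul, ← e1, hH]
        push_cast
        rw [abs_neg]
        have := mem_Bx.1 hc (i00 d)
        have h5 : ((|c (i00 d)| : ℤ) : ℝ) ≤ ((H : ℤ) : ℝ) := by exact_mod_cast this
        push_cast at h5
        exact h5
      rw [le_div_iff₀ (by positivity), mul_comm]
      exact e4

/-- medium points -/
theorem cnt_mediumW (hd : 4 ≤ d) {H : ℕ} {z : ℝ} (hz : 1 ≤ z) (hH : z ^ 2 = H) {X1 X2 : ℝ}
    (hX1 : KZ d ^ 16 * z ^ 6 ≤ X1) {n J : ℕ} (hn : 1 ≤ n) (hX2 : X2 ≤ X1 * 2 ^ n)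
    (hX2' : X2 ≤ X1 * (KZ d ^ 7 * z ^ 3) ^ (J + 1)) :
    Cn H (fun c : ↥(Ix d) → ℤ => (ZT1 (fR c) z ∧ ZT2 (fR c) z ∧ HR (fR c) d) ∧
      ∃ P : ℤ × ℤ, (|P.2| ≤ |P.1| ∧ X1 ≤ |(P.1 : ℝ)| ∧ |(P.1 : ℝ)| ≤ X2) ∧ ev P.1 P.2 (PG c) = 0)
      ≤ (d * (2 * (n * (40 * (KZ d ^ 7 * z ^ 3)))) * (2 * (H : ℝ) + 1) ^ 3) *
        (2 * (H : ℝ) + 1) ^ ((Ix d).card - 6) +
        (d * (2 * (J + 1))) * (2 * (H : ℝ) + 1) ^ ((Ix d).card - 1) := by
  classical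
  have hz0 : 0 < z := by linarith
  have hK300 : 300 ≤ KZ d := by
    unfold KZ
    have : (1 : ℝ) ≤ 16 ^ d := one_le_pow₀ (by norm_num)
    linarith
  obtain ⟨K, hK⟩ : ∃ K, K = KZ d := ⟨_, rfl⟩
  have hK0 : 0 < K := by rw [hK]; linarith
  obtain ⟨r0, hr0⟩ : ∃ r0, r0 = KZ d ^ 7 * z ^ 3 := ⟨_, rfl⟩
  have hr00 : 0 ≤ r0 := by rw [hr0, ← hK]; positivity
  obtain ⟨m, hm⟩ : ∃ m : ℕ, m = ⌊d * (2 * (n * (40 * r0)))⌋₊ := ⟨_, rfl⟩
  have hmR : (m : ℝ) ≤ d * (2 * (n * (40 * r0))) := by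
    rw [hm]; exact Nat.floor_le (by positivity)
  have hX2H : 2 * (H : ℝ) < X1 := by
    refine lt_of_lt_of_le ?_ hX1
    rw [← hH]
    have e1 : (1 : ℝ) ≤ KZ d := by linarith
    calc 2 * z ^ 2 < KZ d ^ 1 * z ^ 2 := by
          rw [pow_one]
          apply mul_lt_mul_of_pos_right _ (by positivity); linarith
      _ ≤ KZ d ^ 16 * z ^ 6 := mul_le_mul (pow_le_pow_right₀ e1 (by norm_num))
          (pow_le_pow_right₀ hz (by norm_num)) (by positivity) (by positivity)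
  -- cheap points, large ones only
  obtain ⟨P1, hP1⟩ : ∃ P1 : (↥(Ix d) → ℤ) → Finset (ℤ × ℤ), P1 = fun τ =>
    (Ch ⌊X2⌋₊ n r0 X1 (fR τ)).filter (fun P => 2 * H < max P.1.natAbs P.2.natAbs) := ⟨_, rfl⟩
  obtain ⟨P2, hP2⟩ : ∃ P2 : (↥(Ix d) → ℤ) → Finset (ℤ × ℤ), P2 = fun τ =>
    VS d ⌊X2⌋₊ (KZ d) z X1 X2 (fR τ) := ⟨_, rfl⟩
  have c1 := fiber3 (d := d) (by omega) H m P1 (by
    intro τ
    rw [hm]
    apply Nat.le_floor
    refine le_trans ?_ (card_Ch (d := d) ⌊X2⌋₊ n (X1 := X1) hr00 (f := fR τ) ((natDegree_fR τ 0).trans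
      (by omega)))
    rw [hP1]
    exact_mod_cast Finset.card_filter_le _ _) (by
    intro τ P hP
    rw [hP1, Finset.mem_filter] at hP
    exact hP.2)
  have c2 := fiber0 (d := d) H (d * (2 * (J + 1))) P2 (by
    intro τ
    rw [hP2]
    exact card_VS ⌊X2⌋₊ J (KZ_d d) hX1 hX2' ((natDegree_fR τ 0).trans (by omega)))
  have hV : (((Bx ↥(Ix d) H).filter (fun c => ∃ P ∈ P2 (kz0 c), ev P.1 P.2 (PG c) = 0)).card : ℝ)
      ≤ (d * (2 * (J + 1))) * (2 * (H : ℝ) + 1) ^ ((Ix d).card - 1) := by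
    have hHp : (0 : ℝ) < 2 * H + 1 := by positivity
    have hN : 1 ≤ (Ix d).card := by
      have := card_Ix_ge d; omega
    have h1 : ((Bx ↥(Ix d) H).card : ℝ) = (2 * (H : ℝ) + 1) ^ ((Ix d).card - 1) * (2 * H + 1) := by
      rw [card_Bx, Fintype.card_coe, ← pow_succ]
      push_cast
      congr 1; omega
    rw [h1, ← mul_assoc] at c2
    have c3 := le_of_mul_le_mul_right c2 hHp
    push_cast at c3
    exact c3
  have hsub : (Bx ↥(Ix d) H).filter (fun c => (ZT1 (fR c) z ∧ ZT2 (fR c) z ∧ HR (fR c) d) ∧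
      ∃ P : ℤ × ℤ, (|P.2| ≤ |P.1| ∧ X1 ≤ |(P.1 : ℝ)| ∧ |(P.1 : ℝ)| ≤ X2) ∧ ev P.1 P.2 (PG c) = 0) ⊆
      (Bx ↥(Ix d) H).filter (fun c => ∃ P ∈ P1 (tp c), ev P.1 P.2 (PG c) = 0) ∪
      (Bx ↥(Ix d) H).filter (fun c => ∃ P ∈ P2 (kz0 c), ev P.1 P.2 (PG c) = 0) := by
    intro c hc
    rw [Finset.mem_filter] at hc
    obtain ⟨hcB, ⟨t1, t2, t3⟩, P, ⟨p1, p2, p3⟩, p4⟩ := hc
    rw [Finset.mem_union, Finset.mem_filter, Finset.mem_filter]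
    rcases cheap_or_rich hd hz hH hX1 hn hX2 hcB t1 t2 t3 p1 p2 p3 p4 with h | h
    · left
      refine ⟨hcB, P, ?_, p4⟩
      rw [hP1, Finset.mem_filter, hr0]
      refine ⟨h, ?_⟩
      apply lt_max_of_lt_left
      have h4 : 2 * (H : ℝ) < ((P.1.natAbs : ℕ) : ℝ) := by
        rw [Nat.cast_natAbs, Int.cast_abs]
        exact lt_of_lt_of_le hX2H p2
      exact_mod_cast h4
    · right
      refine ⟨hcB, P, ?_, p4⟩
      rw [hP2]
      exact h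
  have h1 := (Finset.card_le_card hsub).trans (Finset.card_union_le _ _)
  have h2 : Cn H (fun c : ↥(Ix d) → ℤ => (ZT1 (fR c) z ∧ ZT2 (fR c) z ∧ HR (fR c) d) ∧
      ∃ P : ℤ × ℤ, (|P.2| ≤ |P.1| ∧ X1 ≤ |(P.1 : ℝ)| ∧ |(P.1 : ℝ)| ≤ X2) ∧ ev P.1 P.2 (PG c) = 0)
      ≤ (((Bx ↥(Ix d) H).filter (fun c => ∃ P ∈ P1 (tp c), ev P.1 P.2 (PG c) = 0)).card : ℝ) +
      (((Bx ↥(Ix d) H).filter (fun c => ∃ P ∈ P2 (kz0 c), ev P.1 P.2 (PG c) = 0)).card : ℝ) := by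
    unfold Cn
    exact_mod_cast h1
  refine h2.trans (add_le_add ?_ hV)
  have h3 : ((((Bx ↥(Ix d) H).filter (fun c => ∃ P ∈ P1 (tp c), ev P.1 P.2 (PG c) = 0)).card : ℕ) : ℝ)
      ≤ (((m * (2 * H + 1) ^ 3) * (2 * H + 1) ^ ((Ix d).card - 6) : ℕ) : ℝ) := by exact_mod_cast c1
  refine h3.trans ?_
  push_cast
  rw [← hr0]
  gcongr

end Pool.Agent.H322R2
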