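import Pool.Agent.H322R2.WNear

/-!
Zeros are close to the first order asymptote of a root.
-/

open Polynomial Finset

namespace Pool.Agent.H322R2

/-- a zero is close to the first order asymptote of a root -/
theorem near1 {f : ℕ → ℝ[X]} {d : ℕ} {K z s : ℝ} (h : WH f d K z) (hs0 : z ≤ s) (h1 : ZT1 f s)
    {a t : ℝ} (ha : K ^ 4 * z ^ 2 ≤ |a|) (ht : |t| ≤ 1) (hv : Tv f d a t = 0) :
    ∃ η : ℝ, (f 0).eval η = 0 ∧ |a * t - η * a| ≤ K ^ 2 * z ^ 2 / s := by
  have hK := h.hK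
  have hK3 := h.hK3
  have hz := h.hz
  have hd := h.hd
  have hd0 : (0 : ℝ) ≤ d := by positivity
  have hK0 : 0 < K := by linarith
  have hK1 : 1 ≤ K := by linarith
  have hz0 : 0 < z := by linarith
  have hsp : 0 < s := by linarith
  obtain ⟨X, hX⟩ : ∃ X, X = |a| := ⟨_, rfl⟩
  rw [← hX] at ha
  have hX1 : 1 ≤ X := le_trans (one_le_mul_of_one_le_of_one_le (one_le_pow₀ hK1)
    (one_le_pow₀ hz)) ha
  have hX0 : 0 < X := by linarith
  have ha0 : a ≠ 0 := by
    intro hh; rw [hh, abs_zero] at hX; linarith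
  have hinv : |a⁻¹| ≤ 1 / X := by rw [abs_inv, ← one_div, hX]
  have hX' : (1 : ℝ) / X ≤ 1 := by rw [div_le_one hX0]; exact hX1
  have hXi0 : 0 < 1 / X := by positivity
  have ht2 : |t| ≤ 2 := by linarith
  obtain ⟨Q, hQ⟩ : ∃ Q, Q = K * z ^ 2 := ⟨_, rfl⟩
  have hQ0 : 0 < Q := by rw [hQ]; positivity
  have hf : ∀ k ≤ d, |(f k).eval t| ≤ Q := by
    intro k hk
    rw [← hc_zero, hQ]
    exact h.bd0 hk 0 ht2
  have hT1 : Tv f d a t = (f 0).eval t + ∑ k ∈ range d, (f (k + 1)).eval t * (a⁻¹) ^ (k + 1) := by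
    rw [Tv, Finset.sum_range_succ', pow_zero, mul_one, add_comm]
  have htail1 : |∑ k ∈ range d, (f (k + 1)).eval t * (a⁻¹) ^ (k + 1)| ≤ d * (Q / X) := by
    refine (Finset.abs_sum_le_sum_abs _ _).trans ?_
    refine (Finset.sum_le_card_nsmul _ _ (Q / X) ?_).trans ?_
    · intro k hk
      rw [Finset.mem_range] at hk
      rw [abs_mul, abs_pow]
      have e1 : |a⁻¹| ^ (k + 1) ≤ 1 / X := by
        calc |a⁻¹| ^ (k + 1) ≤ (1 / X) ^ (k + 1) := pow_le_pow_left₀ (abs_nonneg _) hinv _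
          _ ≤ (1 / X) ^ 1 := pow_le_pow_of_le_one hXi0.le hX' (by omega)
          _ = 1 / X := pow_one _
      calc |(f (k + 1)).eval t| * |a⁻¹| ^ (k + 1) ≤ Q * (1 / X) :=
            mul_le_mul (hf _ (by omega)) e1 (by positivity) hQ0.le
        _ = _ := by ring
    · rw [Finset.card_range, nsmul_eq_mul]
  obtain ⟨v, hvd⟩ : ∃ v, v = (f 0).eval t := ⟨_, rfl⟩
  have hf0 : |v| ≤ K ^ 2 * z ^ 2 / X := by
    have e1 : v = -∑ k ∈ range d, (f (k + 1)).eval t * (a⁻¹) ^ (k + 1) := by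
      rw [hv] at hT1; rw [hvd]; linarith
    rw [e1, abs_neg]
    refine htail1.trans ?_
    calc d * (Q / X) = d * K * z ^ 2 / X := by rw [hQ]; ring
      _ ≤ _ := by
        apply div_le_div_of_nonneg_right _ hX0.le
        apply mul_le_mul_of_nonneg_right _ (by positivity)
        nlinarith
  have hK2X : K ^ 2 * z ^ 2 ≤ X := le_trans (mul_le_mul_of_nonneg_right
    (pow_le_pow_right₀ hK1 (by norm_num)) (by positivity)) ha
  have hf01 : |v| ≤ 1 := by
    refine hf0.trans ?_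
    rw [div_le_one hX0]
    exact hK2X
  have hφ := h1 t ht (by rw [← hvd]; exact hf01)
  obtain ⟨φ, hφd⟩ : ∃ φ, φ = hc f 0 1 t := ⟨_, rfl⟩
  rw [← hφd] at hφ
  have hφ0 : φ ≠ 0 := by
    intro hh; rw [hh, abs_zero] at hφ; linarith
  have hφpos : 0 < |φ| := abs_pos.2 hφ0
  obtain ⟨h0, hh0⟩ : ∃ h0, h0 = -2 * v / φ := ⟨_, rfl⟩
  have hh0b : |h0| ≤ K ^ 2 * z ^ 2 / (s * X) := by
    rw [hh0, abs_div, abs_mul, abs_neg, abs_two, div_le_div_iff₀ hφpos (by positivity)]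
    calc 2 * |v| * (s * X) ≤ 2 * (K ^ 2 * z ^ 2 / X) * (s * X) := by gcongr
      _ = K ^ 2 * z ^ 2 * (2 * s) := by field_simp
      _ ≤ K ^ 2 * z ^ 2 * |φ| := mul_le_mul_of_nonneg_left hφ (by positivity)
  have hh01 : |h0| ≤ 1 := by
    refine hh0b.trans ?_
    rw [div_le_one (by positivity)]
    have hs1 : 1 ≤ s := hz.trans hs0
    calc K ^ 2 * z ^ 2 ≤ X := hK2X
      _ ≤ s * X := le_mul_of_one_le_left hX0.le hs1
  have hlin := h.lin (k := 0) (by omega) ht2 (p := t + h0) (by rw [add_sub_cancel_left]; exact hh01)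
  rw [add_sub_cancel_left, ← hφd, ← hvd, ← hQ] at hlin
  have hv1 : φ * h0 = -2 * v := by rw [hh0]; field_simp
  have hR : d * Q * |h0| ^ 2 ≤ |v| := by
    have e1 : |h0| ≤ |v| / z := by
      rw [hh0, abs_div, abs_mul, abs_neg, abs_two, div_le_div_iff₀ hφpos hz0]
      calc 2 * |v| * z = |v| * (2 * z) := by ring
        _ ≤ |v| * |φ| := mul_le_mul_of_nonneg_left (by linarith) (abs_nonneg _)
    calc d * Q * |h0| ^ 2 ≤ d * Q * (|v| / z) ^ 2 := by gcongr
      _ = (d * K * |v|) * |v| := by rw [hQ]; field_simp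
      _ ≤ 1 * |v| := by
        apply mul_le_mul_of_nonneg_right _ (abs_nonneg _)
        calc d * K * |v| ≤ K * K * (K ^ 2 * z ^ 2 / X) := by
              gcongr; linarith
          _ = K ^ 4 * z ^ 2 / X := by ring
          _ ≤ 1 := by
            rw [div_le_one hX0]; exact ha
      _ = |v| := one_mul _
  have e1 : |(f 0).eval (t + h0) + v| ≤ |v| := by
    have e2 : (f 0).eval (t + h0) + v = (f 0).eval (t + h0) - v - φ * h0 := by rw [hv1]; ring
    rw [e2]; exact hlin.trans hR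
  obtain ⟨η, hηm, hη0⟩ : ∃ η ∈ Set.uIcc t (t + h0), (f 0).eval η = 0 := by
    have hc1 : ContinuousOn (fun t => (f 0).eval t) (Set.uIcc t (t + h0)) :=
      (f 0).continuous.continuousOn
    have h5 := intermediate_value_uIcc hc1
    have h6 : (0 : ℝ) ∈ Set.uIcc ((f 0).eval t) ((f 0).eval (t + h0)) := by
      have e3 := abs_le.1 e1
      rw [← hvd, Set.mem_uIcc]
      rcases le_total 0 v with hv0 | hv0
      · right
        rw [abs_of_nonneg hv0] at e3
        exact ⟨by linarith [e3.2], hv0⟩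
      · left
        rw [abs_of_nonpos hv0] at e3
        exact ⟨hv0, by linarith [e3.1]⟩
    obtain ⟨η, h7, h8⟩ := h5 h6
    exact ⟨η, h7, h8⟩
  have hηs : |η - t| ≤ |h0| := by
    have := Set.abs_sub_left_of_mem_uIcc hηm
    rwa [add_sub_cancel_left] at this
  refine ⟨η, hη0, ?_⟩
  have e2 : a * t - η * a = -(a * (η - t)) := by ring
  rw [e2, abs_neg, abs_mul, ← hX]
  calc X * |η - t| ≤ X * (K ^ 2 * z ^ 2 / (s * X)) :=
        mul_le_mul_of_nonneg_left (hηs.trans hh0b) hX0.le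
    _ = _ := by field_simp

end Pool.Agent.H322R2
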