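import Pool.Agent.H322R2.WTyp
import Pool.Agent.H322R2.WNear1
import Pool.Agent.H322R2.WMed2

/-!
Small points (sharp law, all degrees `≥ 4`).
-/

open Polynomial Finset

namespace Pool.Agent.H322R2

variable {d : ℕ}

/-- part of degree `d` -/
def tpe (c : ↥(Ix d) → ℤ) : ↥(Ix d) → ℤ := fun i => if i.1.1 + i.1.2 < d then 0 else c i

/-- part of degree less than `d` -/
def lwe (c : ↥(Ix d) → ℤ) : ↥(Ix (d - 1)) → ℤ :=
  fun i => c ⟨i.1, by have := mem_Ix.1 i.2; rw [mem_Ix]; omega⟩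

/-- a vector with given parts -/
def cmb (hd : 1 ≤ d) (τ : ↥(Ix d) → ℤ) (l : ↥(Ix (d - 1)) → ℤ) : ↥(Ix d) → ℤ :=
  fun i => if h : i.1.1 + i.1.2 < d then l ⟨i.1, mem_Ix.2 (by omega)⟩ else τ i

lemma ev_tpe_lwe (hd : 1 ≤ d) (c : ↥(Ix d) → ℤ) (x y : ℤ) :
    ev x y (PG c) = ev x y (PG (tpe c)) + ev x y (PG (lwe c)) := by
  rw [ev_sum_cf, ev_sum_cf, ev_sum_cf,
    ← Finset.sum_filter_add_sum_filter_not (Ix d) (fun p => p.1 + p.2 < d)
      (fun p => cf c p.1 p.2 * x ^ p.2 * y ^ p.1),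
    ← Finset.sum_filter_add_sum_filter_not (Ix d) (fun p => p.1 + p.2 < d)
      (fun p => cf (tpe c) p.1 p.2 * x ^ p.2 * y ^ p.1)]
  have h1 : ∑ p ∈ (Ix d).filter (fun p => p.1 + p.2 < d), cf (tpe c) p.1 p.2 * x ^ p.2 * y ^ p.1
      = 0 := by
    apply Finset.sum_eq_zero
    intro p hp
    rw [Finset.mem_filter] at hp
    rw [cf, dif_pos hp.1, tpe, if_pos hp.2]
    ring
  have h2 : ∑ p ∈ (Ix d).filter (fun p => ¬ p.1 + p.2 < d), cf (tpe c) p.1 p.2 * x ^ p.2 * y ^ p.1
      = ∑ p ∈ (Ix d).filter (fun p => ¬ p.1 + p.2 < d), cf c p.1 p.2 * x ^ p.2 * y ^ p.1 := by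
    apply Finset.sum_congr rfl
    intro p hp
    rw [Finset.mem_filter] at hp
    rw [cf, cf, dif_pos hp.1, dif_pos hp.1, tpe, if_neg hp.2]
  have h3 : (Ix d).filter (fun p => p.1 + p.2 < d) = Ix (d - 1) := by
    ext p
    rw [Finset.mem_filter, mem_Ix, mem_Ix]
    omega
  have h4 : ∑ p ∈ Ix (d - 1), cf (lwe c) p.1 p.2 * x ^ p.2 * y ^ p.1
      = ∑ p ∈ Ix (d - 1), cf c p.1 p.2 * x ^ p.2 * y ^ p.1 := by
    apply Finset.sum_congr rfl
    intro p hp
    have hp' : (p.1, p.2) ∈ Ix d := by rw [mem_Ix] at hp ⊢; simp only; omega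
    rw [cf, cf, dif_pos hp, dif_pos hp', lwe]
  rw [h1, h2, h3, h4]
  ring

lemma fR_tpe (c : ↥(Ix d) → ℤ) : fR (tpe c) 0 = fR c 0 := by
  ext j
  rw [coeff_fR, coeff_fR]
  split_ifs with h
  · congr 1
    rw [cf, cf]
    split_ifs with h'
    · rw [tpe, if_neg]
      simp only
      omega
    · rfl
  · rfl

lemma ZT1_congr {f g : ℕ → ℝ[X]} (h : f 0 = g 0) {z : ℝ} : ZT1 f z ↔ ZT1 g z := by
  unfold ZT1
  simp only [hc, h]

open Classical in
/-- `d` free coefficients for each point -/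
theorem fiberE (hd : 1 ≤ d) (H m : ℕ) (S : Finset (↥(Ix d) → ℤ)) (hSB : S ⊆ Bx ↥(Ix d) H)
    (hcl : ∀ c ∈ S, ∀ c' ∈ Bx ↥(Ix d) H, tpe c' = tpe c → c' ∈ S)
    (Pp : (↥(Ix d) → ℤ) → Finset (ℤ × ℤ)) (hPc : ∀ τ, (Pp τ).card ≤ m)
    (hPb : ∀ τ, ∀ P ∈ Pp τ, 2 * H < max P.1.natAbs P.2.natAbs) :
    (S.filter (fun c => ∃ P ∈ Pp (tpe c), ev P.1 P.2 (PG c) = 0)).card * (2 * H + 1) ^ d
      ≤ m * S.card := by
  obtain ⟨Φ, hΦ⟩ : ∃ Φ, Φ = S.filter (fun c => ∃ P ∈ Pp (tpe c),
    ev P.1 P.2 (PG c) = 0) := ⟨_, rfl⟩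
  rw [← hΦ]
  have ha : d ≤ (Ix (d - 1)).card := by
    have := card_Ix_ge (d - 1); omega
  have h1 := Finset.card_le_mul_card_image_of_maps_to (s := Φ) (t := S.image tpe) (f := tpe)
    (fun c hc => Finset.mem_image_of_mem _ (Finset.mem_filter.1 (by rw [hΦ] at hc; exact hc)).1)
    (m * (2 * H + 1) ^ ((Ix (d - 1)).card - d)) (by
      intro τ _
      have hsub : Φ.filter (fun c => tpe c = τ) ⊆ (Pp τ).biUnion (fun P => (Bx ↥(Ix d) H).filter
          (fun c => tpe c = τ ∧ ev P.1 P.2 (PG c) = 0)) := by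
        intro c hc
        rw [Finset.mem_filter, hΦ, Finset.mem_filter] at hc
        obtain ⟨⟨hcS, P, hP1, hP2⟩, hct⟩ := hc
        rw [Finset.mem_biUnion]
        refine ⟨P, by rw [← hct]; exact hP1, ?_⟩
        rw [Finset.mem_filter]
        exact ⟨hSB hcS, hct, hP2⟩
      refine (Finset.card_le_card hsub).trans ((Finset.card_biUnion_le).trans ?_)
      refine (Finset.sum_le_card_nsmul _ _ ((2 * H + 1) ^ ((Ix (d - 1)).card - d)) ?_).trans ?_
      · intro P hP
        have h2 : ((Bx ↥(Ix d) H).filter (fun c => tpe c = τ ∧ ev P.1 P.2 (PG c) = 0)).card ≤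
            (Bpt (d - 1) H P (-ev P.1 P.2 (PG τ))).card := by
          apply Finset.card_le_card_of_injOn lwe
          · intro c hc
            rw [Finset.mem_coe, Finset.mem_filter] at hc
            rw [Finset.mem_coe, Bpt, Finset.mem_filter]
            refine ⟨?_, ?_⟩
            · rw [mem_Bx]
              intro i
              exact mem_Bx.1 hc.1 _
            · have e1 := ev_tpe_lwe hd c P.1 P.2
              rw [hc.2.1, hc.2.2] at e1
              omega
          · intro c hc c' hc' h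
            rw [Finset.mem_coe, Finset.mem_filter] at hc hc'
            funext i
            by_cases hi : i.1.1 + i.1.2 < d
            · exact congrFun h ⟨i.1, mem_Ix.2 (by omega)⟩
            · have e1 := congrFun hc.2.1 i
              have e2 := congrFun hc'.2.1 i
              rw [tpe, if_neg hi] at e1 e2
              rw [e1, e2]
        refine h2.trans ?_
        have h3 := Bpt_big (e := d - 1) H P (-ev P.1 P.2 (PG τ)) (hPb τ P hP)
        rw [Nat.sub_add_cancel hd] at h3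
        exact h3
      · rw [smul_eq_mul]
        exact Nat.mul_le_mul_right _ (hPc τ))
  have h2 := Finset.mul_card_image_le_card_of_maps_to (s := S) (t := S.image tpe) (f := tpe)
    (fun c hc => Finset.mem_image_of_mem _ hc) ((2 * H + 1) ^ (Ix (d - 1)).card) (by
      intro τ hτ
      rw [Finset.mem_image] at hτ
      obtain ⟨c, hcS, rfl⟩ := hτ
      have e1 : (2 * H + 1) ^ (Ix (d - 1)).card = (Bx ↥(Ix (d - 1)) H).card := by
        rw [card_Bx, Fintype.card_coe]
      rw [e1]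
      apply Finset.card_le_card_of_injOn (cmb hd c)
      · intro l hl
        rw [Finset.mem_coe] at hl
        rw [Finset.mem_coe, Finset.mem_filter]
        have e2 : tpe (cmb hd c l) = tpe c := by
          funext i
          rw [tpe, tpe]
          split_ifs with h
          · rfl
          · rw [cmb, dif_neg h]
        refine ⟨hcl c hcS _ ?_ e2, e2⟩
        rw [mem_Bx]
        intro i
        rw [cmb]
        split_ifs with h
        · exact mem_Bx.1 hl _
        · exact mem_Bx.1 (hSB hcS) _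
      · intro l _ l' _ h
        funext i
        have h5 : i.1.1 + i.1.2 < d := by have := mem_Ix.1 i.2; omega
        have h6 := congrFun h ⟨i.1, mem_Ix.2 (by omega)⟩
        rw [cmb, cmb, dif_pos h5, dif_pos h5] at h6
        exact h6)
  calc Φ.card * (2 * H + 1) ^ d ≤ (m * (2 * H + 1) ^ ((Ix (d - 1)).card - d) * (S.image tpe).card) *
        (2 * H + 1) ^ d := Nat.mul_le_mul_right _ h1
    _ = m * (((2 * H + 1) ^ ((Ix (d - 1)).card - d) * (2 * H + 1) ^ d) * (S.image tpe).card) := by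
      ring
    _ = m * ((2 * H + 1) ^ (Ix (d - 1)).card * (S.image tpe).card) := by
      rw [← pow_add, Nat.sub_add_cancel ha]
    _ ≤ m * S.card := Nat.mul_le_mul_left _ h2

open Classical in
/-- points near a line -/
noncomputable def NL (M : ℕ) (R η : ℝ) : Finset (ℤ × ℤ) :=
  (bxP M).filter (fun P => |(P.2 : ℝ) - η * P.1| ≤ R)

lemma card_NL (M : ℕ) {R : ℝ} (hR : 0 ≤ R) (η : ℝ) :
    ((NL M R η).card : ℝ) ≤ (2 * M + 1) * (2 * R + 1) := by
  classical
  have hsub : NL M R η ⊆ (Icc (-(M : ℤ)) M).biUnion (fun a =>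
      ((Icc (-(M : ℤ)) M).filter (fun b : ℤ => |-(η * a) + 1 * (b : ℝ)| ≤ R)).image
        (fun b => (a, b))) := by
    intro P hP
    rw [NL, Finset.mem_filter, bxP, Finset.mem_product] at hP
    rw [Finset.mem_biUnion]
    refine ⟨P.1, hP.1.1, ?_⟩
    rw [Finset.mem_image]
    refine ⟨P.2, ?_, rfl⟩
    rw [Finset.mem_filter]
    refine ⟨hP.1.2, ?_⟩
    have : -(η * P.1) + 1 * (P.2 : ℝ) = (P.2 : ℝ) - η * P.1 := by ring
    rw [this]; exact hP.2
  have h1 : (((NL M R η).card : ℕ) : ℝ) ≤ (((Icc (-(M : ℤ)) M).biUnion (fun a =>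
      ((Icc (-(M : ℤ)) M).filter (fun b : ℤ => |-(η * a) + 1 * (b : ℝ)| ≤ R)).image
        (fun b => (a, b)))).card : ℕ) := by exact_mod_cast Finset.card_le_card hsub
  refine h1.trans ((card_biUnion_real _ _ (2 * R + 1) ?_).trans ?_)
  · intro a _
    have h2 : ((((((Icc (-(M : ℤ)) M).filter (fun b : ℤ => |-(η * a) + 1 * (b : ℝ)| ≤ R)).image
        (fun b => ((a, b) : ℤ × ℤ))).card) : ℕ) : ℝ) ≤
        (((Icc (-(M : ℤ)) M).filter (fun b : ℤ => |-(η * a) + 1 * (b : ℝ)| ≤ R)).card : ℕ) := by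
      exact_mod_cast Finset.card_image_le
    refine h2.trans ?_
    have h3 := card_interval ((Icc (-(M : ℤ)) M).filter
      (fun b : ℤ => |-(η * a) + 1 * (b : ℝ)| ≤ R)) (-(η * a)) 1 R one_ne_zero hR
      (fun b hb => (Finset.mem_filter.1 hb).2)
    rw [abs_one, div_one] at h3
    exact h3
  · rw [card_Icc_H]
    push_cast
    exact le_rfl

open Classical in
/-- points near the first order asymptotes -/
noncomputable def N1 (H M : ℕ) (R : ℝ) (f : ℕ → ℝ[X]) : Finset (ℤ × ℤ) :=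
  ((f 0).roots.toFinset.biUnion (fun η => NL M R η)).filter
    (fun P => 2 * H < max P.1.natAbs P.2.natAbs)

lemma card_N1 (H M : ℕ) {R : ℝ} (hR : 0 ≤ R) {f : ℕ → ℝ[X]} (hf : (f 0).natDegree ≤ d) :
    ((N1 H M R f).card : ℝ) ≤ d * ((2 * M + 1) * (2 * R + 1)) := by
  classical
  have h1 : (((N1 H M R f).card : ℕ) : ℝ) ≤
      (((f 0).roots.toFinset.biUnion (fun η => NL M R η)).card : ℕ) := by
    unfold N1
    exact_mod_cast Finset.card_filter_le _ _
  refine h1.trans ((card_biUnion_real _ _ ((2 * M + 1) * (2 * R + 1)) ?_).trans ?_)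
  · intro η _
    exact card_NL M hR η
  · apply mul_le_mul_of_nonneg_right _ (by positivity)
    have : ((f 0).roots.toFinset.card) ≤ d :=
      (Multiset.toFinset_card_le _).trans ((card_roots' _).trans hf)
    exact_mod_cast this

lemma lvl {P : ℕ → Prop} (h0 : P 0) (n : ℕ) : ∃ j ≤ n, P j ∧ (j < n → ¬ P (j + 1)) := by
  induction n with
  | zero => exact ⟨0, le_rfl, h0, fun h => absurd h (lt_irrefl _)⟩
  | succ n ih =>
    obtain ⟨j, hj, hPj, hn⟩ := ih
    by_cases hjn : j < n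
    · exact ⟨j, by omega, hPj, fun _ => hn hjn⟩
    · have : j = n := by omega
      subst this
      by_cases hP : P (j + 1)
      · exact ⟨j + 1, le_rfl, hP, fun h => absurd h (lt_irrefl _)⟩
      · exact ⟨j, by omega, hPj, fun _ => hP⟩

lemma geom2 (n : ℕ) : ∑ j ∈ range n, (2 : ℝ) ^ j = 2 ^ n - 1 := by
  induction n with
  | zero => simp
  | succ n ih => rw [Finset.sum_range_succ, ih, pow_succ]; ring

end Pool.Agent.H322R2
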