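import Pool.Agent.H322R2.WLow

/-!
Small points (sharp law, all degrees `≥ 4`): the count.
-/

open Polynomial Finset

namespace Pool.Agent.H322R2

variable {d : ℕ}

open Classical in
/-- one level -/
lemma level_count (hd : 4 ≤ d) {H M : ℕ} {z s : ℝ} (hz : 1 ≤ z) (hH : z ^ 2 = H) (hs : z ≤ s)
    (Q : (↥(Ix d) → ℤ) → Prop)
    (hQ : ∀ c c' : ↥(Ix d) → ℤ, tpe c' = tpe c → Q c → Q c')
    (hM : (2 * H : ℕ) < KZ d ^ 4 * z ^ 2) :
    (((Bx ↥(Ix d) H).filter (fun c => (Q c ∧ ZT1 (fR c) s) ∧ ∃ P : ℤ × ℤ,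
      (|P.2| ≤ |P.1| ∧ KZ d ^ 4 * z ^ 2 ≤ |(P.1 : ℝ)| ∧ |(P.1 : ℝ)| ≤ M) ∧
        ev P.1 P.2 (PG c) = 0)).card : ℝ) * (2 * H + 1) ^ d ≤
      (d * ((2 * M + 1) * (2 * (KZ d ^ 2 * z ^ 2 / s) + 1))) *
        ((Bx ↥(Ix d) H).filter (fun c => Q c ∧ ZT1 (fR c) s)).card := by
  have hz0 : 0 < z := by linarith
  have hs0 : 0 < s := by linarith
  obtain ⟨R, hR⟩ : ∃ R, R = KZ d ^ 2 * z ^ 2 / s := ⟨_, rfl⟩
  have hR0 : 0 ≤ R := by rw [hR]; positivity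
  obtain ⟨m, hm⟩ : ∃ m : ℕ, m = ⌊d * ((2 * (M : ℝ) + 1) * (2 * R + 1))⌋₊ := ⟨_, rfl⟩
  have hmR : (m : ℝ) ≤ d * ((2 * M + 1) * (2 * R + 1)) := by
    rw [hm]; exact Nat.floor_le (by positivity)
  obtain ⟨S, hS⟩ : ∃ S, S = (Bx ↥(Ix d) H).filter (fun c => Q c ∧ ZT1 (fR c) s) := ⟨_, rfl⟩
  have h1 := fiberE (d := d) (by omega) H m S (by rw [hS]; exact Finset.filter_subset _ _) (by
    intro c hc c' hc' hcc
    rw [hS, Finset.mem_filter] at hc ⊢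
    refine ⟨hc', hQ c c' hcc hc.2.1, ?_⟩
    have e1 : fR c' 0 = fR c 0 := by rw [← fR_tpe c', hcc, fR_tpe]
    exact (ZT1_congr e1).2 hc.2.2) (fun τ => N1 H M R (fR τ)) (by
    intro τ
    rw [hm]
    apply Nat.le_floor
    exact card_N1 (d := d) H M hR0 ((natDegree_fR τ 0).trans (by omega))) (by
    intro τ P hP
    simp only [N1, Finset.mem_filter] at hP
    exact hP.2)
  have hsub : (Bx ↥(Ix d) H).filter (fun c => (Q c ∧ ZT1 (fR c) s) ∧ ∃ P : ℤ × ℤ,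
      (|P.2| ≤ |P.1| ∧ KZ d ^ 4 * z ^ 2 ≤ |(P.1 : ℝ)| ∧ |(P.1 : ℝ)| ≤ M) ∧
        ev P.1 P.2 (PG c) = 0) ⊆ S.filter (fun c => ∃ P ∈ N1 H M R (fR (tpe c)),
        ev P.1 P.2 (PG c) = 0) := by
    intro c hc
    rw [Finset.mem_filter] at hc
    obtain ⟨hcB, ⟨q1, q2⟩, P, ⟨p1, p2, p3⟩, p4⟩ := hc
    rw [Finset.mem_filter, hS, Finset.mem_filter]
    refine ⟨⟨hcB, q1, q2⟩, P, ?_, p4⟩
    have hW := WH_fR hd hcB hz hH
    have hX0 : 0 < KZ d ^ 4 * z ^ 2 := lt_of_le_of_lt (by positivity) hM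
    have hP0 : P.1 ≠ 0 := by
      intro h; rw [h] at p2; simp at p2; linarith
    have ha0 : (P.1 : ℝ) ≠ 0 := by exact_mod_cast hP0
    have hap : 0 < |(P.1 : ℝ)| := abs_pos.2 ha0
    have hTv : Tv (fR c) d P.1 ((P.2 : ℝ) / P.1) = 0 := by
      have e1 := ev_Tv c (a := P.1) (b := P.2) hP0
      rw [p4, Int.cast_zero] at e1
      rcases mul_eq_zero.1 e1.symm with h | h
      · exact absurd h (pow_ne_zero _ ha0)
      · exact h
    obtain ⟨η, g1, g2⟩ := near1 hW hs q2 p2 (t := (P.2 : ℝ) / P.1) (by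
      rw [abs_div, div_le_one hap]; exact_mod_cast p1) hTv
    rw [mul_div_cancel₀ _ ha0, ← hR] at g2
    have hf0 := q2.ne_zero (hz.trans hs)
    rw [N1, Finset.mem_filter, Finset.mem_biUnion]
    refine ⟨⟨η, ?_, ?_⟩, ?_⟩
    · rw [fR_tpe, Multiset.mem_toFinset, mem_roots hf0]
      exact g1
    · rw [NL, Finset.mem_filter]
      refine ⟨?_, g2⟩
      have hM1 : |P.1| ≤ (M : ℤ) := by exact_mod_cast p3
      rw [bxP, Finset.mem_product, Finset.mem_Icc, Finset.mem_Icc]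
      exact ⟨abs_le.1 hM1, abs_le.1 (p1.trans hM1)⟩
    · apply lt_max_of_lt_left
      have h4 : ((2 * H : ℕ) : ℝ) < ((P.1.natAbs : ℕ) : ℝ) := by
        rw [Nat.cast_natAbs, Int.cast_abs]
        exact lt_of_lt_of_le hM p2
      exact_mod_cast h4
  have h2 : ((((Bx ↥(Ix d) H).filter (fun c => (Q c ∧ ZT1 (fR c) s) ∧ ∃ P : ℤ × ℤ,
      (|P.2| ≤ |P.1| ∧ KZ d ^ 4 * z ^ 2 ≤ |(P.1 : ℝ)| ∧ |(P.1 : ℝ)| ≤ M) ∧
        ev P.1 P.2 (PG c) = 0)).card : ℕ) : ℝ) ≤ ((S.filter (fun c => ∃ P ∈ N1 H M R (fR (tpe c)),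
        ev P.1 P.2 (PG c) = 0)).card : ℕ) := by exact_mod_cast Finset.card_le_card hsub
  have h3 : (((S.filter (fun c => ∃ P ∈ N1 H M R (fR (tpe c)),
        ev P.1 P.2 (PG c) = 0)).card : ℕ) : ℝ) * (2 * H + 1) ^ d ≤ m * (S.card : ℕ) := by
    exact_mod_cast h1
  rw [← hR, ← hS]
  calc _ ≤ (((S.filter (fun c => ∃ P ∈ N1 H M R (fR (tpe c)),
        ev P.1 P.2 (PG c) = 0)).card : ℕ) : ℝ) * (2 * H + 1) ^ d :=
        mul_le_mul_of_nonneg_right h2 (by positivity)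
    _ ≤ m * (S.card : ℕ) := h3
    _ ≤ _ := mul_le_mul_of_nonneg_right hmR (by positivity)

/-- all levels -/
theorem cnt_low (hd : 4 ≤ d) {H M : ℕ} {z : ℝ} (hz : 1 ≤ z) (hH : z ^ 2 = H) :
    Cn H (fun c : ↥(Ix d) → ℤ => ZT1 (fR c) z ∧ ∃ P : ℤ × ℤ,
      (|P.2| ≤ |P.1| ∧ KZ d ^ 4 * z ^ 2 ≤ |(P.1 : ℝ)| ∧ |(P.1 : ℝ)| ≤ M) ∧
        ev P.1 P.2 (PG c) = 0) * (2 * H + 1) ^ d ≤
      (545 * KZ d ^ 7 * (2 * M + 1)) * (Bx ↥(Ix d) H).card := by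
  classical
  have hz0 : 0 < z := by linarith
  obtain ⟨K, hK⟩ : ∃ K, K = KZ d := ⟨_, rfl⟩
  have hK300 : 300 ≤ K := by
    rw [hK]; unfold KZ
    have : (1 : ℝ) ≤ 16 ^ d := one_le_pow₀ (by norm_num)
    linarith
  have hKd : (d : ℝ) ≤ K := by
    have h1 := KZ_d d
    have h2 : (1 : ℝ) ≤ (d : ℝ) + 1 := by
      have : (0 : ℝ) ≤ d := by positivity
      linarith
    have h3 : (d : ℝ) + 1 ≤ ((d : ℝ) + 1) ^ 4 := by
      calc (d : ℝ) + 1 = ((d : ℝ) + 1) ^ 1 := (pow_one _).symm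
        _ ≤ _ := pow_le_pow_right₀ h2 (by norm_num)
    rw [hK]; linarith
  have hd0 : (0 : ℝ) ≤ d := by positivity
  have hM2 : ((2 * H : ℕ) : ℝ) < K ^ 4 * z ^ 2 := by
    push_cast
    rw [← hH]
    apply mul_lt_mul_of_pos_right _ (by positivity)
    have : K ≤ K ^ 4 := by
      calc K = K ^ 1 := (pow_one _).symm
        _ ≤ K ^ 4 := pow_le_pow_right₀ (by linarith) (by norm_num)
    linarith
  -- the number of levels
  obtain ⟨n, hn⟩ : ∃ n, n = Nat.log 2 ⌊z⌋₊ := ⟨_, rfl⟩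
  have hfl : 1 ≤ ⌊z⌋₊ := Nat.le_floor (by exact_mod_cast hz)
  have hn1 : (2 : ℝ) ^ n ≤ z := by
    have h1 : 2 ^ n ≤ ⌊z⌋₊ := by rw [hn]; exact Nat.pow_log_le_self 2 (by omega)
    have h2 : ((2 ^ n : ℕ) : ℝ) ≤ z := (by exact_mod_cast h1 : ((2 ^ n : ℕ) : ℝ) ≤ (⌊z⌋₊ : ℕ)).trans
      (Nat.floor_le hz0.le)
    exact_mod_cast h2
  have hn2 : z ≤ 2 * (2 : ℝ) ^ n := by
    have h1 : ⌊z⌋₊ < 2 ^ (n + 1) := by rw [hn]; exact Nat.lt_pow_succ_log_self (by norm_num) _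
    have h2 : ⌊z⌋₊ + 1 ≤ 2 ^ (n + 1) := h1
    have h3 : z < (⌊z⌋₊ : ℕ) + 1 := Nat.lt_floor_add_one z
    have h4 : (((⌊z⌋₊ + 1 : ℕ) : ℕ) : ℝ) ≤ ((2 ^ (n + 1) : ℕ) : ℝ) := by exact_mod_cast h2
    push_cast at h4
    rw [pow_succ] at h4
    linarith
  obtain ⟨s, hs⟩ : ∃ s : ℕ → ℝ, s = fun j => z * 2 ^ j := ⟨_, rfl⟩
  have hsz : ∀ j, z ≤ s j := by
    intro j; rw [hs]; exact le_mul_of_one_le_right hz0.le (one_le_pow₀ (by norm_num))
  have hs2 : ∀ j ≤ n, s j ≤ z ^ 2 := by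
    intro j hj
    rw [hs]
    calc z * 2 ^ j ≤ z * 2 ^ n := by
          apply mul_le_mul_of_nonneg_left _ hz0.le
          exact pow_le_pow_right₀ (by norm_num) hj
      _ ≤ z * z := mul_le_mul_of_nonneg_left hn1 hz0.le
      _ = z ^ 2 := by ring
  have hs1 : ∀ j, s (j + 1) = 2 * s j := by intro j; rw [hs]; simp only; rw [pow_succ]; ring
  obtain ⟨Pp, hPp⟩ : ∃ Pp : (↥(Ix d) → ℤ) → Prop, Pp = fun c => ∃ P : ℤ × ℤ,
      (|P.2| ≤ |P.1| ∧ KZ d ^ 4 * z ^ 2 ≤ |(P.1 : ℝ)| ∧ |(P.1 : ℝ)| ≤ M) ∧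
        ev P.1 P.2 (PG c) = 0 := ⟨_, rfl⟩
  obtain ⟨Q, hQ⟩ : ∃ Q : ℕ → (↥(Ix d) → ℤ) → Prop, Q = fun j c => j < n → ¬ ZT1 (fR c) (s (j + 1)) :=
    ⟨_, rfl⟩
  have hQc : ∀ j, ∀ c c' : ↥(Ix d) → ℤ, tpe c' = tpe c → Q j c → Q j c' := by
    intro j c c' hcc hq
    rw [hQ] at hq ⊢
    intro hj h5
    apply hq hj
    have e1 : fR c' 0 = fR c 0 := by rw [← fR_tpe c', hcc, fR_tpe]
    exact (ZT1_congr e1).1 h5
  obtain ⟨E, hE⟩ : ∃ E : ℕ → Finset (↥(Ix d) → ℤ), E = fun j => (Bx ↥(Ix d) H).filter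
    (fun c => (Q j c ∧ ZT1 (fR c) (s j)) ∧ Pp c) := ⟨_, rfl⟩
  obtain ⟨B, hB⟩ : ∃ B : ℝ, B = (Bx ↥(Ix d) H).card := ⟨_, rfl⟩
  have hB0 : 0 ≤ B := by rw [hB]; positivity
  obtain ⟨T, hT⟩ : ∃ T : ℝ, T = 2 * M + 1 := ⟨_, rfl⟩
  have hT0 : 0 ≤ T := by rw [hT]; positivity
  have hHp : (0 : ℝ) < 2 * H + 1 := by positivity
  have hz4 : z ^ 2 ≤ 2 * H + 1 := by
    rw [hH]
    have : (0 : ℝ) ≤ H := by positivity
    linarith
  have hcov : (Bx ↥(Ix d) H).filter (fun c => ZT1 (fR c) z ∧ Pp c) ⊆ (range (n + 1)).biUnion E := by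
    intro c hc
    rw [Finset.mem_filter] at hc
    obtain ⟨hcB, h1, h2⟩ := hc
    obtain ⟨j, hj, h3, h4⟩ := lvl (P := fun j => ZT1 (fR c) (s j)) (by
      rw [hs]; simp only; rw [pow_zero, mul_one]; exact h1) n
    rw [Finset.mem_biUnion]
    refine ⟨j, Finset.mem_range.2 (by omega), ?_⟩
    rw [hE]
    simp only
    rw [Finset.mem_filter]
    refine ⟨hcB, ⟨?_, h3⟩, h2⟩
    rw [hQ]
    exact h4
  have hlev : ∀ j, ((E j).card : ℝ) * (2 * H + 1) ^ d ≤ (d * (T * (2 * (K ^ 2 * z ^ 2 / s j) + 1))) *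
      ((Bx ↥(Ix d) H).filter (fun c => Q j c ∧ ZT1 (fR c) (s j))).card := by
    intro j
    have := level_count hd (M := M) hz hH (hsz j) (Q j) (hQc j) (by rw [← hK]; exact hM2)
    rw [hE, hPp, hT, hK]
    convert this
  have hbig : ∀ j < n, ((E j).card : ℝ) * (2 * H + 1) ^ d ≤
      (540 * K ^ 7 * T * B) * (z ^ 2 / (2 * H + 1) ^ 2 * s j) := by
    intro j hj
    refine (hlev j).trans ?_
    have hsj := hsz j
    have hsj0 : 0 < s j := by linarith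
    have e1 : (((Bx ↥(Ix d) H).filter (fun c => Q j c ∧ ZT1 (fR c) (s j))).card : ℝ) ≤
        (((Bx ↥(Ix d) H).filter (fun c => ¬ ZT1 (fR c) (s (j + 1)))).card : ℝ) := by
      have : ((Bx ↥(Ix d) H).filter (fun c => Q j c ∧ ZT1 (fR c) (s j))).card ≤
        ((Bx ↥(Ix d) H).filter (fun c => ¬ ZT1 (fR c) (s (j + 1)))).card := by
        apply Finset.card_le_card
        intro c hc
        rw [Finset.mem_filter] at hc ⊢
        refine ⟨hc.1, ?_⟩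
        have h5 := hc.2.1
        rw [hQ] at h5
        exact h5 hj
      exact_mod_cast this
    have e2 := card_T1s (d := d) hd hz hH (hsz (j + 1)) (hs2 (j + 1) hj)
    rw [← hK, ← hB, hs1] at e2
    have e3 : (((Bx ↥(Ix d) H).filter (fun c => ¬ ZT1 (fR c) (s (j + 1)))).card : ℝ) ≤
        45 * K ^ 4 * (2 * s j) ^ 2 * B / (2 * H + 1) ^ 2 := by
      rw [le_div_iff₀ (by positivity), hs1]
      convert e2
    have e4 : 2 * (K ^ 2 * z ^ 2 / s j) + 1 ≤ 3 * (K ^ 2 * z ^ 2 / s j) := by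
      have : 1 ≤ K ^ 2 * z ^ 2 / s j := by
        rw [le_div_iff₀ hsj0, one_mul]
        refine (hs2 j hj.le).trans ?_
        exact le_mul_of_one_le_left (by positivity) (one_le_pow₀ (by linarith))
      linarith
    calc (d * (T * (2 * (K ^ 2 * z ^ 2 / s j) + 1))) *
        (((Bx ↥(Ix d) H).filter (fun c => Q j c ∧ ZT1 (fR c) (s j))).card : ℝ)
        ≤ (K * (T * (3 * (K ^ 2 * z ^ 2 / s j)))) *
          (45 * K ^ 4 * (2 * s j) ^ 2 * B / (2 * H + 1) ^ 2) := by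
          apply mul_le_mul _ (e1.trans e3) (by positivity) (by positivity)
          apply mul_le_mul hKd _ (by positivity) (by linarith)
          exact mul_le_mul_of_nonneg_left e4 hT0
      _ = _ := by field_simp; ring
  have hlast : ((E n).card : ℝ) * (2 * H + 1) ^ d ≤ 5 * K ^ 3 * T * B := by
    refine (hlev n).trans ?_
    have hsn : z ^ 2 / 2 ≤ s n := by
      rw [hs]
      simp only
      nlinarith
    have hsn0 : 0 < s n := lt_of_lt_of_le (by positivity) hsn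
    have e1 : (((Bx ↥(Ix d) H).filter (fun c => Q n c ∧ ZT1 (fR c) (s n))).card : ℝ) ≤ B := by
      rw [hB]
      exact_mod_cast Finset.card_filter_le _ _
    have e2 : K ^ 2 * z ^ 2 / s n ≤ 2 * K ^ 2 := by
      rw [div_le_iff₀ hsn0]
      calc K ^ 2 * z ^ 2 = 2 * K ^ 2 * (z ^ 2 / 2) := by ring
        _ ≤ 2 * K ^ 2 * s n := mul_le_mul_of_nonneg_left hsn (by positivity)
    have hK2 : 1 ≤ K ^ 2 := one_le_pow₀ (by linarith)
    calc (d * (T * (2 * (K ^ 2 * z ^ 2 / s n) + 1))) *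
        (((Bx ↥(Ix d) H).filter (fun c => Q n c ∧ ZT1 (fR c) (s n))).card : ℝ)
        ≤ (K * (T * (5 * K ^ 2))) * B := by
          apply mul_le_mul _ e1 (by positivity) (by positivity)
          apply mul_le_mul hKd _ (by positivity) (by linarith)
          apply mul_le_mul_of_nonneg_left _ hT0
          linarith
      _ = _ := by ring
  have hsum : ∑ j ∈ range n, s j ≤ z ^ 2 := by
    have e1 : ∑ j ∈ range n, s j = z * (2 ^ n - 1) := by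
      rw [hs, ← geom2, Finset.mul_sum]
    rw [e1]
    nlinarith
  have hfin : Cn H (fun c : ↥(Ix d) → ℤ => ZT1 (fR c) z ∧ Pp c) * (2 * H + 1) ^ d ≤
      (545 * K ^ 7 * T) * B := by
    have e1 : Cn H (fun c : ↥(Ix d) → ℤ => ZT1 (fR c) z ∧ Pp c) ≤
        ∑ j ∈ range (n + 1), ((E j).card : ℝ) := by
      have h5 := (Finset.card_le_card hcov).trans Finset.card_biUnion_le
      unfold Cn
      have h6 : ((((Bx ↥(Ix d) H).filter (fun c => ZT1 (fR c) z ∧ Pp c)).card : ℕ) : ℝ) ≤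
        ((∑ j ∈ range (n + 1), (E j).card : ℕ) : ℝ) := by exact_mod_cast h5
      rw [Nat.cast_sum] at h6
      convert h6
    have e2 : (∑ j ∈ range (n + 1), ((E j).card : ℝ)) * (2 * H + 1) ^ d ≤
        (540 * K ^ 7 * T * B) * (z ^ 2 / (2 * H + 1) ^ 2 * z ^ 2) + 5 * K ^ 3 * T * B := by
      rw [Finset.sum_mul, Finset.sum_range_succ]
      apply add_le_add _ hlast
      calc ∑ j ∈ range n, ((E j).card : ℝ) * (2 * H + 1) ^ d
          ≤ ∑ j ∈ range n, (540 * K ^ 7 * T * B) * (z ^ 2 / (2 * H + 1) ^ 2 * s j) := by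
            apply Finset.sum_le_sum
            intro j hj
            exact hbig j (Finset.mem_range.1 hj)
        _ = (540 * K ^ 7 * T * B) * (z ^ 2 / (2 * H + 1) ^ 2 * ∑ j ∈ range n, s j) := by
          rw [Finset.mul_sum, Finset.mul_sum]
        _ ≤ _ := by gcongr
    have e3 : z ^ 2 / (2 * (H : ℝ) + 1) ^ 2 * z ^ 2 ≤ 1 := by
      rw [div_mul_eq_mul_div, div_le_one (by positivity)]
      calc z ^ 2 * z ^ 2 ≤ (2 * H + 1) * (2 * H + 1) :=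
            mul_le_mul hz4 hz4 (by positivity) (by positivity)
        _ = _ := by ring
    have e4 : K ^ 3 ≤ K ^ 7 := pow_le_pow_right₀ (by linarith) (by norm_num)
    calc Cn H (fun c : ↥(Ix d) → ℤ => ZT1 (fR c) z ∧ Pp c) * (2 * H + 1) ^ d
        ≤ (∑ j ∈ range (n + 1), ((E j).card : ℝ)) * (2 * H + 1) ^ d :=
          mul_le_mul_of_nonneg_right e1 (by positivity)
      _ ≤ _ := e2
      _ ≤ (540 * K ^ 7 * T * B) * 1 + 5 * K ^ 7 * T * B := by gcongr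
      _ = _ := by ring
  rw [hPp, hT, hB, hK] at hfin
  exact hfin

end Pool.Agent.H322R2
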