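import Pool.Agent.H322R2.WTrip
import Pool.Agent.H322R2.WDich

/-!
Few integer points of the curve in the ranges of very good rational slopes.
-/

open Polynomial Finset

namespace Pool.Agent.H322R2

/-- the points to be counted, near the root `η` -/
def VP (f : ℕ → ℝ[X]) (d : ℕ) (K z η : ℝ) (P : ℤ × ℤ) : Prop :=
  VR η (K ^ 7 * z ^ 3) P ∧ |(P.2 : ℝ) - η * P.1 - zbe f η| ≤ K ^ 7 * z ^ 3 / |(P.1 : ℝ)| ∧
    |Tv f d P.1 ((P.2 : ℝ) / P.1)| ≤ z ^ 2 / |(P.1 : ℝ)| ^ d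

lemma vr_same {η r0 Y : ℝ} (hr0 : 1 ≤ r0) (hY : 0 < Y) {A B A' B' : ℤ} {a a' : ℝ} (hA : 1 ≤ A)
    (hA' : 1 ≤ A') (hc : IsCoprime A B) (hc' : IsCoprime A' B') (h1 : 16 * r0 * A ≤ |a|)
    (h1' : 16 * r0 * A' ≤ |a'|) (h2 : |(A : ℝ) * η - B| * |a| ≤ 1 / 4)
    (h2' : |(A' : ℝ) * η - B'| * |a'| ≤ 1 / 4) (ha : Y ≤ |a|) (ha' : Y ≤ |a'|)
    (hb : |a| ≤ Y * r0) (hb' : |a'| ≤ Y * r0) : A = A' ∧ B = B' := by
  have hr00 : 0 < r0 := by linarith
  have hAR : (1 : ℝ) ≤ A := by exact_mod_cast hA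
  have hAR' : (1 : ℝ) ≤ A' := by exact_mod_cast hA'
  have hAY : ∀ (A : ℤ) (a : ℝ), 16 * r0 * A ≤ |a| → |a| ≤ Y * r0 → (A : ℝ) ≤ Y / 16 := by
    intro A a h5 h6
    have h7 : 16 * r0 * (A : ℝ) ≤ 16 * r0 * (Y / 16) := by
      calc 16 * r0 * (A : ℝ) ≤ Y * r0 := h5.trans h6
        _ = _ := by ring
    exact le_of_mul_le_mul_left h7 (by positivity)
  have q1 := hAY A a h1 hb
  have q2 := hAY A' a' h1' hb'
  have q3 : |(A : ℝ) * η - B| * Y ≤ 1 / 4 := (mul_le_mul_of_nonneg_left ha (abs_nonneg _)).trans h2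
  have q4 : |(A' : ℝ) * η - B'| * Y ≤ 1 / 4 :=
    (mul_le_mul_of_nonneg_left ha' (abs_nonneg _)).trans h2'
  have hdet : A * B' - A' * B = 0 := by
    have e1 : ((A * B' - A' * B : ℤ) : ℝ) = A' * ((A : ℝ) * η - B) - A * ((A' : ℝ) * η - B') := by
      push_cast; ring
    have e2 : |((A * B' - A' * B : ℤ) : ℝ)| < 1 := by
      rw [e1]
      refine lt_of_le_of_lt (abs_sub _ _) ?_
      rw [abs_mul, abs_mul, abs_of_pos (by linarith : (0 : ℝ) < A),
        abs_of_pos (by linarith : (0 : ℝ) < A')]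
      have e3 : (A' : ℝ) * |(A : ℝ) * η - B| ≤ 1 / 64 := by
        calc (A' : ℝ) * |(A : ℝ) * η - B| ≤ (Y / 16) * |(A : ℝ) * η - B| :=
              mul_le_mul_of_nonneg_right q2 (abs_nonneg _)
          _ = (|(A : ℝ) * η - B| * Y) / 16 := by ring
          _ ≤ _ := by linarith
      have e4 : (A : ℝ) * |(A' : ℝ) * η - B'| ≤ 1 / 64 := by
        calc (A : ℝ) * |(A' : ℝ) * η - B'| ≤ (Y / 16) * |(A' : ℝ) * η - B'| :=
              mul_le_mul_of_nonneg_right q1 (abs_nonneg _)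
          _ = (|(A' : ℝ) * η - B'| * Y) / 16 := by ring
          _ ≤ _ := by linarith
      linarith
    have e3 : |A * B' - A' * B| < 1 := by exact_mod_cast e2
    have := abs_nonneg (A * B' - A' * B)
    have e4 : |A * B' - A' * B| = 0 := by omega
    exact abs_eq_zero.1 e4
  have d1 : A ∣ A' := by
    apply hc.dvd_of_dvd_mul_right
    exact ⟨B', by linarith⟩
  have d2 : A' ∣ A := by
    apply hc'.dvd_of_dvd_mul_right
    exact ⟨B, by linarith⟩
  have e1 : A = A' := Int.dvd_antisymm (by omega) (by omega) d1 d2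
  refine ⟨e1, ?_⟩
  rw [← e1] at hdet
  have : A * (B' - B) = 0 := by linear_combination hdet
  rcases mul_eq_zero.1 this with h | h
  · omega
  · omega

theorem vr_two {f : ℕ → ℝ[X]} {d : ℕ} {K z : ℝ} (h : WH f d K z) (hKd : ((d : ℝ) + 1) ^ 4 + 288 ≤ K)
    (h2 : ZT2 f z) (hrat : ∀ A B : ℤ, 1 ≤ A → 1 ≤ (A : ℝ) ^ d * |(f 0).eval ((B : ℝ) / A)|)
    {η Y : ℝ} (hη : |η| ≤ 3 / 2) (hη0 : (f 0).eval η = 0)
    (hφ : z ≤ |hc f 0 1 η|) (hY : K ^ 16 * z ^ 6 ≤ Y) (E : Finset (ℤ × ℤ))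
    (hE : ∀ P ∈ E, VP f d K z η P ∧ Y ≤ |(P.1 : ℝ)| ∧ |(P.1 : ℝ)| ≤ Y * (K ^ 7 * z ^ 3)) :
    E.card ≤ 2 := by
  classical
  by_contra hcon
  push Not at hcon
  have hK := h.hK
  have hK3 := h.hK3
  have hz := h.hz
  have hd := h.hd
  have hd0 : (0 : ℝ) ≤ d := by positivity
  have hK0 : 0 < K := by linarith
  have hK1 : 1 ≤ K := by linarith
  have hz0 : 0 < z := by linarith
  obtain ⟨r0, hr0⟩ : ∃ r0, r0 = K ^ 7 * z ^ 3 := ⟨_, rfl⟩
  have hr01 : 1 ≤ r0 := by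
    rw [hr0]; exact one_le_mul_of_one_le_of_one_le (one_le_pow₀ hK1) (one_le_pow₀ hz)
  have hY0 : 0 < Y := lt_of_lt_of_le (by positivity) hY
  -- the first point
  obtain ⟨P0, hP0, hmin⟩ := Finset.exists_min_image E (fun P => |(P.1 : ℝ)|)
    (Finset.card_pos.1 (by omega))
  have hcard : 1 < (E.erase P0).card := by
    rw [Finset.card_erase_of_mem hP0]; omega
  obtain ⟨P1, hP1, P2, hP2, h12⟩ := Finset.one_lt_card.1 hcard
  have hP1' := Finset.mem_erase.1 hP1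
  have hP2' := Finset.mem_erase.1 hP2
  obtain ⟨P, hPd⟩ : ∃ P : Fin 3 → ℤ × ℤ, P = ![P0, P1, P2] := ⟨_, rfl⟩
  have hPE : ∀ i, P i ∈ E := by
    intro i
    rw [hPd]
    fin_cases i
    · exact hP0
    · exact hP1'.2
    · exact hP2'.2
  have hPinj : ∀ i j, i ≠ j → P i ≠ P j := by
    intro i j hij
    rw [hPd]
    fin_cases i <;> fin_cases j <;> simp_all
    · exact fun h => hP1'.1 h.symm
    · exact fun h => hP2'.1 h.symm
    · exact fun h => h12 h.symm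
  have hP00 : P 0 = P0 := by rw [hPd]; rfl
  -- the line
  have hall : ∀ Q ∈ E, ∃ A B : ℤ, 1 ≤ A ∧ IsCoprime A B ∧ 16 * r0 * A ≤ |(Q.1 : ℝ)| ∧
      |(A : ℝ) * η - B| * |(Q.1 : ℝ)| ≤ 1 / 4 := by
    intro Q hQ
    rw [hr0]
    exact (hE Q hQ).1.1
  obtain ⟨A, B, hA, hcop, hA16, hAη⟩ := hall P0 hP0
  have hsame : ∀ Q ∈ E, 16 * r0 * A ≤ |(Q.1 : ℝ)| ∧ |(A : ℝ) * η - B| * |(Q.1 : ℝ)| ≤ 1 / 4 := by
    intro Q hQ
    obtain ⟨A', B', g1, g2, g3, g4⟩ := hall Q hQ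
    obtain ⟨e1, e2⟩ := vr_same hr01 hY0 hA g1 hcop g2 hA16 g3 hAη g4 (hE P0 hP0).2.1 (hE Q hQ).2.1
      (by rw [hr0]; exact (hE P0 hP0).2.2) (by rw [hr0]; exact (hE Q hQ).2.2)
    rw [e1, e2]
    exact ⟨g3, g4⟩
  have hAR : (1 : ℝ) ≤ A := by exact_mod_cast hA
  have hA0 : (0 : ℝ) < A := by linarith
  have hpos : ∀ Q ∈ E, 0 < |(Q.1 : ℝ)| := fun Q hQ => lt_of_lt_of_le hY0 (hE Q hQ).2.1
  have hk : ∀ Q ∈ E, A * Q.2 - B * Q.1 = A * P0.2 - B * P0.1 := by
    have hone : ∀ Q ∈ E, |((A * Q.2 - B * Q.1 : ℤ) : ℝ) - A * zbe f η| ≤ 5 / 16 := by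
      intro Q hQ
      obtain ⟨g1, g2⟩ := hsame Q hQ
      have g3 := (hE Q hQ).1.2.1
      rw [← hr0] at g3
      have e1 : ((A * Q.2 - B * Q.1 : ℤ) : ℝ) - A * zbe f η
          = A * ((Q.2 : ℝ) - η * Q.1 - zbe f η) + ((A : ℝ) * η - B) * Q.1 := by push_cast; ring
      rw [e1]
      refine (abs_add_le _ _).trans ?_
      rw [abs_mul, abs_mul, abs_of_pos hA0]
      have e2 : (A : ℝ) * |(Q.2 : ℝ) - η * Q.1 - zbe f η| ≤ 1 / 16 := by
        calc (A : ℝ) * |(Q.2 : ℝ) - η * Q.1 - zbe f η| ≤ A * (r0 / |(Q.1 : ℝ)|) :=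
              mul_le_mul_of_nonneg_left g3 hA0.le
          _ = (r0 * A) / |(Q.1 : ℝ)| := by ring
          _ ≤ 1 / 16 := by
            rw [div_le_div_iff₀ (hpos Q hQ) (by norm_num)]
            linarith
      linarith
    intro Q hQ
    have e1 := abs_le.1 (hone Q hQ)
    have e2 := abs_le.1 (hone P0 hP0)
    have e3 : |((A * Q.2 - B * Q.1 : ℤ) : ℝ) - ((A * P0.2 - B * P0.1 : ℤ) : ℝ)| < 1 := by
      rw [abs_lt]; constructor <;> linarith [e1.1, e1.2, e2.1, e2.2]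
    have e4 : |(A * Q.2 - B * Q.1) - (A * P0.2 - B * P0.1)| < 1 := by exact_mod_cast e3
    have := abs_nonneg ((A * Q.2 - B * Q.1) - (A * P0.2 - B * P0.1))
    have e5 : |(A * Q.2 - B * Q.1) - (A * P0.2 - B * P0.1)| = 0 := by omega
    have := abs_eq_zero.1 e5
    omega
  obtain ⟨X, hX⟩ : ∃ X, X = |(P0.1 : ℝ)| := ⟨_, rfl⟩
  have hXY : Y ≤ X := by rw [hX]; exact (hE P0 hP0).2.1
  have hX0 : 0 < X := by linarith
  have hKX : K ^ 16 * z ^ 6 ≤ X := hY.trans hXY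
  have hX1 : 1 ≤ X := le_trans (one_le_mul_of_one_le_of_one_le (one_le_pow₀ hK1)
    (one_le_pow₀ hz)) hKX
  have hKzX : K * z ≤ X := by
    calc K * z = K ^ 1 * z ^ 1 := by ring
      _ ≤ K ^ 16 * z ^ 6 := mul_le_mul (pow_le_pow_right₀ hK1 (by norm_num))
          (pow_le_pow_right₀ hz (by norm_num)) (by positivity) (by positivity)
      _ ≤ X := hKX
  have hge : ∀ Q ∈ E, X ≤ |(Q.1 : ℝ)| := by
    intro Q hQ
    rw [hX]
    exact hmin Q hQ
  -- the noise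
  obtain ⟨ν, hν0, hν1, hν2, hν3⟩ : ∃ ν : ℝ, 0 ≤ ν ∧ ν ≤ z ^ 2 ∧
      ν * (1 / X + 1 / A) ^ 2 ≤ 4 / K ^ 2 ∧
      ∀ Q ∈ E, z ^ 2 / |(Q.1 : ℝ)| ^ d ≤ ν / |(Q.1 : ℝ)| ^ 4 := by
    by_cases hd4 : d = 4
    · subst hd4
      refine ⟨z ^ 2, by positivity, le_rfl, ?_, fun Q _ => le_rfl⟩
      have hAK : K * z ≤ A := by
        by_contra hcon2
        push Not at hcon2
        have e1 := hrat A B hA
        obtain ⟨t, ht⟩ : ∃ t, t = (B : ℝ) / A - η := ⟨_, rfl⟩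
        have htA : |t| * A = |(A : ℝ) * η - B| := by
          have : t * A = -((A : ℝ) * η - B) := by rw [ht]; field_simp; ring
          rw [← abs_of_pos hA0, ← abs_mul, abs_of_pos hA0, this, abs_neg]
        have htX : |t| * A * X ≤ 1 / 4 := by rw [htA, hX]; exact hAη
        have ht1 : |t| ≤ 1 := by
          have : |t| * 1 * 1 ≤ |t| * A * X := by
            apply mul_le_mul _ hX1 (by norm_num) (by positivity)
            exact mul_le_mul_of_nonneg_left hAR (abs_nonneg _)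
          linarith
        have hη2 : |η| ≤ 2 := by linarith
        have e2 := h.lin (k := 0) (by omega) hη2 (p := (B : ℝ) / A) (by rw [← ht]; exact ht1)
        rw [hη0, ← ht, sub_zero] at e2
        have e3 := h.bd0 (k := 0) (by omega) 1 hη2
        have e4 : |(f 0).eval ((B : ℝ) / A)| ≤ K ^ 2 * z ^ 2 * |t| := by
          have e5 : (f 0).eval ((B : ℝ) / A) = ((f 0).eval ((B : ℝ) / A) - hc f 0 1 η * t)
            + hc f 0 1 η * t := by ring
          have e6 : |(f 0).eval ((B : ℝ) / A)| ≤ |(f 0).eval ((B : ℝ) / A) - hc f 0 1 η * t|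
            + |hc f 0 1 η| * |t| := by
            calc |(f 0).eval ((B : ℝ) / A)| = |((f 0).eval ((B : ℝ) / A) - hc f 0 1 η * t)
                + hc f 0 1 η * t| := by rw [← e5]
              _ ≤ _ := by
                refine (abs_add_le _ _).trans ?_
                rw [abs_mul]
          have e7 : ((4 : ℕ) : ℝ) * (K * z ^ 2) * |t| ^ 2 ≤ ((4 : ℕ) : ℝ) * (K * z ^ 2) * |t| := by
            apply mul_le_mul_of_nonneg_left _ (by positivity)
            calc |t| ^ 2 ≤ |t| ^ 1 := pow_le_pow_of_le_one (abs_nonneg _) ht1 (by norm_num)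
              _ = |t| := pow_one _
          calc |(f 0).eval ((B : ℝ) / A)| ≤ ((4 : ℕ) : ℝ) * (K * z ^ 2) * |t| + K * z ^ 2 * |t| := by
                exact e6.trans (add_le_add (e2.trans e7)
                  (mul_le_mul_of_nonneg_right e3 (abs_nonneg t)))
            _ = (5 * K) * (z ^ 2 * |t|) := by push_cast; ring
            _ ≤ (K * K) * (z ^ 2 * |t|) := by
              apply mul_le_mul_of_nonneg_right _ (by positivity)
              apply mul_le_mul_of_nonneg_right _ hK0.le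
              linarith
            _ = _ := by ring
        have e5 : (A : ℝ) ^ 4 * |(f 0).eval ((B : ℝ) / A)| * X < X := by
          calc (A : ℝ) ^ 4 * |(f 0).eval ((B : ℝ) / A)| * X
              ≤ (A : ℝ) ^ 4 * (K ^ 2 * z ^ 2 * |t|) * X := by gcongr
            _ = (A : ℝ) ^ 3 * (K ^ 2 * z ^ 2) * (|t| * A * X) := by ring
            _ ≤ (K * z) ^ 3 * (K ^ 2 * z ^ 2) * (1 / 4) := by gcongr
            _ = (K ^ 5 * z ^ 5) * (1 / 4) := by ring
            _ < (K ^ 16 * z ^ 6) := by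
              have q1 : K ^ 5 * z ^ 5 ≤ K ^ 16 * z ^ 6 :=
                mul_le_mul (pow_le_pow_right₀ hK1 (by norm_num))
                (pow_le_pow_right₀ hz (by norm_num)) (by positivity) (by positivity)
              have q2 : 0 < K ^ 5 * z ^ 5 := by positivity
              linarith
            _ ≤ X := hKX
        have e6 : 1 * X ≤ (A : ℝ) ^ 4 * |(f 0).eval ((B : ℝ) / A)| * X :=
          mul_le_mul_of_nonneg_right e1 hX0.le
        linarith
      have e1 : 1 / X + 1 / A ≤ 2 / (K * z) := by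
        have g1 : 1 / X ≤ 1 / (K * z) := one_div_le_one_div_of_le (by positivity) hKzX
        have g2 : 1 / (A : ℝ) ≤ 1 / (K * z) := one_div_le_one_div_of_le (by positivity) hAK
        calc 1 / X + 1 / A ≤ 1 / (K * z) + 1 / (K * z) := add_le_add g1 g2
          _ = _ := by ring
      calc z ^ 2 * (1 / X + 1 / A) ^ 2 ≤ z ^ 2 * (2 / (K * z)) ^ 2 := by gcongr
        _ = 4 / K ^ 2 := by field_simp; norm_num
    · refine ⟨z ^ 2 / X, by positivity, div_le_self (by positivity) hX1, ?_, ?_⟩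
      · have e1 : 1 / X + 1 / A ≤ 2 := by
          have g1 : 1 / X ≤ 1 := by rw [div_le_one hX0]; exact hX1
          have g2 : 1 / (A : ℝ) ≤ 1 := by rw [div_le_one hA0]; exact hAR
          linarith
        calc z ^ 2 / X * (1 / X + 1 / A) ^ 2 ≤ z ^ 2 / X * 2 ^ 2 := by gcongr
          _ = 4 * z ^ 2 / X := by ring
          _ ≤ 4 / K ^ 2 := by
            rw [div_le_div_iff₀ hX0 (by positivity)]
            have : K ^ 2 * z ^ 2 ≤ X := le_trans (mul_le_mul (pow_le_pow_right₀ hK1 (by norm_num))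
              (pow_le_pow_right₀ hz (by norm_num)) (by positivity) (by positivity)) hKX
            linarith
      · intro Q hQ
        have hq := hge Q hQ
        have hq0 := hpos Q hQ
        rw [div_div]
        apply div_le_div_of_nonneg_left (by positivity) (by positivity)
        obtain ⟨m, hm⟩ : ∃ m, d = m + 5 := ⟨d - 5, by omega⟩
        have hq1 : 1 ≤ |(Q.1 : ℝ)| := hX1.trans hq
        calc X * |(Q.1 : ℝ)| ^ 4 ≤ |(Q.1 : ℝ)| * |(Q.1 : ℝ)| ^ 4 :=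
              mul_le_mul_of_nonneg_right hq (by positivity)
          _ = 1 * |(Q.1 : ℝ)| ^ 5 := by ring
          _ ≤ |(Q.1 : ℝ)| ^ m * |(Q.1 : ℝ)| ^ 5 :=
            mul_le_mul_of_nonneg_right (one_le_pow₀ hq1) (by positivity)
          _ = |(Q.1 : ℝ)| ^ d := by rw [← pow_add, hm]
  apply no_tripleW h hKd h2 (ν := ν) hη hη0 hφ (fun i => (P i).1) (fun i => (P i).2)
    (A := A) (B := B) (k := A * P0.2 - B * P0.1)
  · rw [hP00, ← hX]; exact hKX
  · intro i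
    rw [hP00, ← hX]; exact hge _ (hPE i)
  · exact hA
  · intro i
    exact hk _ (hPE i)
  · intro i j hij
    have h5 := hk _ (hPE i)
    have h6 := hk _ (hPE j)
    have h7 : A * ((P i).2 - (P j).2) = B * ((P i).1 - (P j).1) := by linear_combination h5 - h6
    have h8 : A ∣ (P i).1 - (P j).1 := by
      apply hcop.dvd_of_dvd_mul_left
      rw [← h7]
      exact dvd_mul_right _ _
    have h9 : (P i).1 - (P j).1 ≠ 0 := by
      intro h10
      apply hPinj i j hij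
      rw [h10, mul_zero] at h7
      rcases mul_eq_zero.1 h7 with h11 | h11
      · omega
      · exact Prod.ext (by omega) (by omega)
    have h10 := Int.le_of_dvd (abs_pos.2 h9) ((dvd_abs _ _).2 h8)
    exact h10
  · intro i
    rw [hP00, ← hX]
    refine ((hE _ (hPE i)).1.2.1).trans ?_
    apply div_le_div_of_nonneg_left (by positivity) hX0
    exact hge _ (hPE i)
  · exact hν0
  · exact hν1
  · rw [hP00, ← hX]; exact hν2
  · intro i
    exact ((hE _ (hPE i)).1.2.2).trans (hν3 _ (hPE i))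

/-- long ranges -/
theorem vr_long {f : ℕ → ℝ[X]} {d : ℕ} {K z : ℝ} (h : WH f d K z)
    (hKd : ((d : ℝ) + 1) ^ 4 + 288 ≤ K)
    (h2 : ZT2 f z) (hrat : ∀ A B : ℤ, 1 ≤ A → 1 ≤ (A : ℝ) ^ d * |(f 0).eval ((B : ℝ) / A)|)
    {η Y : ℝ} (hη : |η| ≤ 3 / 2) (hη0 : (f 0).eval η = 0)
    (hφ : z ≤ |hc f 0 1 η|) (hY : K ^ 16 * z ^ 6 ≤ Y) (J : ℕ) (E : Finset (ℤ × ℤ))
    (hE : ∀ P ∈ E, VP f d K z η P ∧ Y ≤ |(P.1 : ℝ)| ∧
      |(P.1 : ℝ)| ≤ Y * (K ^ 7 * z ^ 3) ^ (J + 1)) :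
    E.card ≤ 2 * (J + 1) := by
  classical
  have hK3 := h.hK3
  have hz := h.hz
  have hK0 : 0 < K := by linarith
  have hz0 : 0 < z := by linarith
  have hY0 : 0 < Y := lt_of_lt_of_le (by positivity) hY
  obtain ⟨Z, hZ⟩ : ∃ Z, Z = K ^ 7 * z ^ 3 := ⟨_, rfl⟩
  have hZ1 : 1 ≤ Z := by
    rw [hZ]; exact one_le_mul_of_one_le_of_one_le (one_le_pow₀ (by linarith)) (one_le_pow₀ hz)
  rw [← hZ] at hE
  induction J generalizing E with
  | zero =>
    have := vr_two h hKd h2 hrat hη hη0 hφ hY E (by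
      intro P hP
      have := hE P hP
      rw [zero_add, pow_one] at this
      rw [← hZ]
      exact this)
    omega
  | succ n ih =>
    have hsplit := Finset.card_filter_add_card_filter_not (s := E)
      (fun P : ℤ × ℤ => |(P.1 : ℝ)| ≤ Y * Z ^ (n + 1))
    have i1 := ih (E.filter fun P : ℤ × ℤ => |(P.1 : ℝ)| ≤ Y * Z ^ (n + 1))
      (by
        intro P hP
        rw [Finset.mem_filter] at hP
        exact ⟨(hE P hP.1).1, (hE P hP.1).2.1, hP.2⟩)
    have hXX : Y ≤ Y * Z ^ (n + 1) := le_mul_of_one_le_right hY0.le (one_le_pow₀ hZ1)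
    have i2 := vr_two h hKd h2 hrat hη hη0 hφ (hY.trans hXX)
      (E.filter fun P : ℤ × ℤ => ¬ |(P.1 : ℝ)| ≤ Y * Z ^ (n + 1))
      (by
        intro P hP
        rw [Finset.mem_filter] at hP
        refine ⟨(hE P hP.1).1, (not_le.1 hP.2).le, ?_⟩
        have := (hE P hP.1).2.2
        rw [pow_succ, ← mul_assoc] at this
        rw [← hZ]
        exact this)
    omega

end Pool.Agent.H322R2
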