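import Pool.Agent.H322R2.ZMed
import Pool.Agent.H322R2.WVR
import Pool.Agent.H322R2.GFin

/-!
Medium points (sharp law, all degrees `≥ 4`).
-/

open Polynomial Finset

namespace Pool.Agent.H322R2

variable {d : ℕ}

lemma WH_fR (hd : 4 ≤ d) {c : ↥(Ix d) → ℤ} {H : ℕ} (hc : c ∈ Bx _ H) {z : ℝ} (hz : 1 ≤ z)
    (hH : z ^ 2 = H) : WH (fR c) d (KZ d) z where
  hd := hd
  hK := by
    have h1 := KZ_d d
    have h2 : (1 : ℝ) ≤ (d : ℝ) + 1 := by
      have : (0 : ℝ) ≤ d := by positivity
      linarith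
    have h3 : (d : ℝ) + 1 ≤ ((d : ℝ) + 1) ^ 4 := by
      calc (d : ℝ) + 1 = ((d : ℝ) + 1) ^ 1 := (pow_one _).symm
        _ ≤ _ := pow_le_pow_right₀ h2 (by norm_num)
    linarith
  hK3 := by
    unfold KZ
    have : (1 : ℝ) ≤ 16 ^ d := one_le_pow₀ (by norm_num)
    linarith
  hz := hz
  deg := fun k _ => natDegree_fR c k
  bd := by
    intro k hk j i t ht
    have h1 := hasse_bound (q := fR c k) (n := d) (H := H) ((natDegree_fR c k).trans (by omega))
      (by positivity) (by
        intro m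
        rw [coeff_fR]
        split_ifs with h
        · rw [cf]
          split_ifs with h'
          · have := mem_Bx.1 hc ⟨_, h'⟩
            have h2 : ((|c ⟨_, h'⟩| : ℤ) : ℝ) ≤ ((H : ℤ) : ℝ) := by exact_mod_cast this
            rw [Int.cast_abs] at h2
            simpa using h2
          · simp
        · simp) j i ht
    refine h1.trans ?_
    rw [hH]
    apply mul_le_mul_of_nonneg_right _ (by positivity)
    unfold KZ
    have : (0 : ℝ) ≤ 16 ^ d := by positivity
    linarith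

lemma fR_tpW (hd : 4 ≤ d) (c : ↥(Ix d) → ℤ) {k : ℕ} (hk : k ≤ 1) : fR (tp c) k = fR c k := by
  ext j
  rw [coeff_fR, coeff_fR]
  split_ifs with h
  · congr 1
    rw [cf, cf]
    split_ifs with h'
    · rw [tp, if_neg]
      simp only
      omega
    · rfl
  · rfl

/-- no rational root -/
def HR (f : ℕ → ℝ[X]) (d : ℕ) : Prop :=
  ∀ A B : ℤ, 1 ≤ A → 1 ≤ (A : ℝ) ^ d * |(f 0).eval ((B : ℝ) / A)|

lemma HR_of_irr (hd : 4 ≤ d) {c : ↥(Ix d) → ℤ} (h1 : (ff c).natDegree = d)
    (h2 : Irreducible ((ff c).map (Int.castRingHom ℚ))) : HR (fR c) d := by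
  intro A B hA
  have hA0 : (0 : ℝ) < A := by exact_mod_cast hA
  have hAQ : (A : ℚ) ≠ 0 := by
    have : A ≠ 0 := by omega
    exact_mod_cast this
  obtain ⟨N, hN⟩ : ∃ N : ℤ, N = ∑ j ∈ range (d + 1), cf c j (d - j) * B ^ j * A ^ (d - j) := ⟨_, rfl⟩
  have e1 : (A : ℝ) ^ d * (fR c 0).eval ((B : ℝ) / A) = N := by
    rw [eval_fR, hN, Finset.mul_sum]
    push_cast
    apply Finset.sum_congr rfl
    intro j hj
    rw [Nat.sub_zero, Finset.mem_range] at hj
    have e2 : (A : ℝ) ^ d = (A : ℝ) ^ (d - j) * (A : ℝ) ^ j := by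
      rw [← pow_add]; congr 1; omega
    rw [Nat.sub_zero, e2, div_pow]
    field_simp
  have hN0 : N ≠ 0 := by
    intro h0
    have e2 : ((ff c).map (Int.castRingHom ℚ)).eval ((B : ℚ) / A) = 0 := by
      have e3 : ((ff c).map (Int.castRingHom ℚ)).eval ((B : ℚ) / A)
          = ∑ j ∈ range (d + 1), ((cf c j (d - j) : ℤ) : ℚ) * ((B : ℚ) / A) ^ j := by
        rw [eval_map, eval₂_eq_sum_range' (Int.castRingHom ℚ) (n := d + 1) (by omega)]
        apply Finset.sum_congr rfl
        intro j hj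
        rw [Finset.mem_range] at hj
        rw [ff, coeff_lead, if_pos hj, coeff_PG]
        rfl
      have e4 : (A : ℚ) ^ d * ((ff c).map (Int.castRingHom ℚ)).eval ((B : ℚ) / A) = N := by
        rw [e3, hN, Finset.mul_sum]
        push_cast
        apply Finset.sum_congr rfl
        intro j hj
        rw [Finset.mem_range] at hj
        have e2 : (A : ℚ) ^ d = (A : ℚ) ^ (d - j) * (A : ℚ) ^ j := by
          rw [← pow_add]; congr 1; omega
        rw [e2, div_pow]
        field_simp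
      rw [h0, Int.cast_zero] at e4
      rcases mul_eq_zero.1 e4 with h | h
      · exact absurd h (pow_ne_zero _ hAQ)
      · exact h
    have e3 := degree_eq_one_of_irreducible_of_root h2 e2
    have e4 : ((ff c).map (Int.castRingHom ℚ)).natDegree = d := by
      rw [natDegree_map_eq_of_injective (Int.cast_injective), h1]
    have e5 : ((ff c).map (Int.castRingHom ℚ)).natDegree = 1 :=
      natDegree_eq_of_degree_eq_some (by exact_mod_cast e3)
    omega
  have e2 : (1 : ℝ) ≤ |(N : ℝ)| := by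
    have h5 : (1 : ℤ) ≤ |N| := Int.one_le_abs hN0
    have h6 : ((1 : ℤ) : ℝ) ≤ ((|N| : ℤ) : ℝ) := by exact_mod_cast h5
    push_cast at h6
    exact h6
  rw [← e1, abs_mul, abs_of_pos (by positivity)] at e2
  exact e2

/-- the constant coefficient erased -/
noncomputable def kz0 (c : ↥(Ix d) → ℤ) : ↥(Ix d) → ℤ := Function.update c (i00 d) 0

lemma fR_kz0 (c : ↥(Ix d) → ℤ) {k : ℕ} (hk : k < d) : fR (kz0 c) k = fR c k := by
  rw [kz0]
  apply fR_update_ne
  show 0 + 0 ≠ d - k
  omega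

open Classical in
/-- three free coefficients for each point -/
theorem fiber3 (hd : 2 ≤ d) (H m : ℕ) (Pp : (↥(Ix d) → ℤ) → Finset (ℤ × ℤ))
    (hPc : ∀ τ, (Pp τ).card ≤ m)
    (hPb : ∀ τ, ∀ P ∈ Pp τ, 2 * H < max P.1.natAbs P.2.natAbs) :
    ((Bx ↥(Ix d) H).filter (fun c => ∃ P ∈ Pp (tp c), ev P.1 P.2 (PG c) = 0)).card
      ≤ (m * (2 * H + 1) ^ 3) * (2 * H + 1) ^ ((Ix d).card - 6) := by
  obtain ⟨Φ, hΦ⟩ : ∃ Φ, Φ = (Bx ↥(Ix d) H).filter (fun c => ∃ P ∈ Pp (tp c),
    ev P.1 P.2 (PG c) = 0) := ⟨_, rfl⟩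
  rw [← hΦ]
  have h1 := Finset.card_le_mul_card_image_of_maps_to (s := Φ) (t := topS d H) (f := tp)
    (fun c hc => tp_mem_topS (Finset.mem_filter.1 (by rw [hΦ] at hc; exact hc)).1)
    (m * (2 * H + 1) ^ 3) (by
      intro τ _
      have hsub : Φ.filter (fun c => tp c = τ) ⊆ (Pp τ).biUnion (fun P => (Bx ↥(Ix d) H).filter
          (fun c => tp c = τ ∧ ev P.1 P.2 (PG c) = 0)) := by
        intro c hc
        rw [Finset.mem_filter, hΦ, Finset.mem_filter] at hc
        obtain ⟨⟨hcB, P, hP1, hP2⟩, hct⟩ := hc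
        rw [Finset.mem_biUnion]
        refine ⟨P, by rw [← hct]; exact hP1, ?_⟩
        rw [Finset.mem_filter]
        exact ⟨hcB, hct, hP2⟩
      refine (Finset.card_le_card hsub).trans ((Finset.card_biUnion_le).trans ?_)
      refine (Finset.sum_le_card_nsmul _ _ ((2 * H + 1) ^ 3) ?_).trans ?_
      · intro P hP
        have h2 : ((Bx ↥(Ix d) H).filter (fun c => tp c = τ ∧ ev P.1 P.2 (PG c) = 0)).card ≤
            (Bpt 2 H P (-ev P.1 P.2 (PG τ))).card := by
          apply Finset.card_le_card_of_injOn (lw hd)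
          · intro c hc
            rw [Finset.mem_coe, Finset.mem_filter] at hc
            rw [Finset.mem_coe, Bpt, Finset.mem_filter]
            refine ⟨?_, ?_⟩
            · rw [mem_Bx]
              intro i
              exact mem_Bx.1 hc.1 _
            · have e1 := ev_tp_lw hd c P.1 P.2
              rw [hc.2.1, hc.2.2] at e1
              omega
          · intro c hc c' hc' h
            rw [Finset.mem_coe, Finset.mem_filter] at hc hc'
            funext i
            by_cases hi : i.1.1 + i.1.2 ≤ 2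
            · exact congrFun h ⟨i.1, mem_Ix.2 hi⟩
            · have e1 := congrFun hc.2.1 i
              have e2 := congrFun hc'.2.1 i
              rw [tp, if_neg hi] at e1 e2
              rw [e1, e2]
        refine h2.trans ?_
        have h3 := Bpt_big (e := 2) H P (-ev P.1 P.2 (PG τ)) (hPb τ P hP)
        rw [card_Ix2] at h3
        exact h3
      · rw [smul_eq_mul]
        exact Nat.mul_le_mul_right _ (hPc τ))
  exact h1.trans (Nat.mul_le_mul_left _ (card_topS hd H))

lemma ev_kz0 (c : ↥(Ix d) → ℤ) (P : ℤ × ℤ) :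
    ev P.1 P.2 (PG c) = ev P.1 P.2 (PG (kz0 c)) + c (i00 d) := by
  rw [ev_sum_cf, ev_sum_cf]
  have h0 : ((0, 0) : ℕ × ℕ) ∈ Ix d := by rw [mem_Ix]; simp
  rw [← Finset.add_sum_erase _ _ h0, ← Finset.add_sum_erase _ _ h0]
  have h1 : ∑ p ∈ (Ix d).erase (0, 0), cf (kz0 c) p.1 p.2 * P.1 ^ p.2 * P.2 ^ p.1
      = ∑ p ∈ (Ix d).erase (0, 0), cf c p.1 p.2 * P.1 ^ p.2 * P.2 ^ p.1 := by
    apply Finset.sum_congr rfl
    intro p hp
    rw [kz0, cf_update, if_neg]
    rw [Finset.mem_erase] at hp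
    intro h2
    apply hp.1
    rw [show p = (p.1, p.2) from rfl, h2]
    rfl
  have h2 : cf (kz0 c) 0 0 = 0 := by
    rw [kz0, cf_update, if_pos]
    rfl
  have h3 : cf c 0 0 = c (i00 d) := by
    rw [cf, dif_pos h0]
    rfl
  rw [h1, h2, h3]
  simp
  ring

open Classical in
/-- no free coefficient -/
theorem fiber0 (H m : ℕ) (Pp : (↥(Ix d) → ℤ) → Finset (ℤ × ℤ)) (hPc : ∀ τ, (Pp τ).card ≤ m) :
    (((Bx ↥(Ix d) H).filter (fun c => ∃ P ∈ Pp (kz0 c), ev P.1 P.2 (PG c) = 0)).card : ℝ)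
      * (2 * H + 1) ≤ m * (Bx ↥(Ix d) H).card := by
  apply rel_count (i00 d) _ _ (Finset.filter_subset _ _)
  · intro c hc t ht
    rw [Finset.mem_filter] at hc
    exact update_mem_Bx hc.1 _ ht
  · intro c _
    have hk : ∀ t : ℤ, kz0 (Function.update c (i00 d) t) = kz0 c := by
      intro t
      rw [kz0, kz0, Function.update_idem]
    have hsub : (Icc (-(H : ℤ)) H).filter (fun t => Function.update c (i00 d) t ∈
        (Bx ↥(Ix d) H).filter (fun c => ∃ P ∈ Pp (kz0 c), ev P.1 P.2 (PG c) = 0)) ⊆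
        (Pp (kz0 c)).image (fun P => -ev P.1 P.2 (PG (kz0 c))) := by
      intro t ht
      rw [Finset.mem_filter, Finset.mem_filter] at ht
      obtain ⟨_, _, P, hP, hP0⟩ := ht
      rw [hk] at hP
      rw [ev_kz0, hk, Function.update_self] at hP0
      rw [Finset.mem_image]
      exact ⟨P, hP, by omega⟩
    have h1 := (Finset.card_le_card hsub).trans (Finset.card_image_le.trans (hPc (kz0 c)))
    exact_mod_cast h1

end Pool.Agent.H322R2
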