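import Pool.Agent.H322R2.ZLine

/-!
Three integer points in a short window near a branch at infinity do not exist (sharp law).
-/

open Polynomial Finset

namespace Pool.Agent.H322R2

lemma am_zero (f : ℕ → ℝ[X]) (p u : ℝ) : am f p u 0 = (f 0).eval p := by
  rw [am]
  simp [hc_zero]

lemma am_two (f : ℕ → ℝ[X]) (p u : ℝ) :
    am f p u 2 = hc f 0 2 p * u ^ 2 + hc f 1 1 p * u + hc f 2 0 p := by
  rw [am]
  simp [Finset.sum_range_succ]

lemma am_bound {f : ℕ → ℝ[X]} {d : ℕ} {K z : ℝ} (h : ZH f d K z) {p u U : ℝ} (hp : |p| ≤ 2)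
    (hu : |u| ≤ U) (hU : 1 ≤ U) {m : ℕ} (hm : m ≤ d) :
    |am f p u m| ≤ (d + 1) * (K * z ^ 2) * U ^ m := by
  have hQ0 : 0 ≤ K * z ^ 2 := (abs_nonneg _).trans (h.bd0 (k := 0) (by omega) 0 hp)
  rw [am]
  refine (Finset.abs_sum_le_sum_abs _ _).trans ?_
  refine (Finset.sum_le_card_nsmul _ _ ((K * z ^ 2) * U ^ m) ?_).trans ?_
  · intro k hk
    rw [Finset.mem_range] at hk
    rw [abs_mul, abs_pow]
    apply mul_le_mul (h.bd0 (by omega) _ hp) _ (by positivity) hQ0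
    calc |u| ^ (m - k) ≤ U ^ (m - k) := pow_le_pow_left₀ (abs_nonneg _) hu _
      _ ≤ U ^ m := pow_le_pow_right₀ hU (by omega)
  · rw [Finset.card_range, nsmul_eq_mul]
    have : ((m + 1 : ℕ) : ℝ) ≤ (d : ℝ) + 1 := by
      push_cast
      have : (m : ℝ) ≤ d := by exact_mod_cast hm
      linarith
    calc ((m + 1 : ℕ) : ℝ) * (K * z ^ 2 * U ^ m) ≤ ((d : ℝ) + 1) * (K * z ^ 2 * U ^ m) :=
          mul_le_mul_of_nonneg_right this (by positivity)
      _ = _ := by ring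

theorem no_triple {f : ℕ → ℝ[X]} {d : ℕ} {K z : ℝ} (h : ZH f d K z) (hKd : ((d : ℝ) + 1) ^ 4 + 288 ≤ K)
    (h2 : ZT2 f z) {X η : ℝ} (hX : K ^ 16 * z ^ 6 ≤ X) (hη : |η| ≤ 3 / 2) (hη0 : (f 0).eval η = 0)
    (hφ : z ≤ |hc f 0 1 η|) (a b : Fin 3 → ℤ) (hinj : Function.Injective a)
    (ha1 : ∀ i, X ≤ |(a i : ℝ)|) (ha2 : ∀ i, |(a i : ℝ)| ≤ 2 * X)
    (hwin : ∀ i j, |(a i : ℝ) - a j| ≤ X / (K ^ 8 * z ^ 3))
    (hnr : ∀ i, |(b i : ℝ) - η * a i - zbe f η| ≤ K ^ 7 * z ^ 3 / X)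
    (hv : ∀ i, |Tv f d (a i) ((b i : ℝ) / a i)| ≤ 6 * z ^ 2 / X ^ 5) : False := by
  have hK := h.hK
  have hK3 := h.hK3
  have hz := h.hz
  have hd := h.hd
  have hd0 : (0 : ℝ) ≤ d := by positivity
  have hK0 : 0 < K := by linarith
  have hK1 : 1 ≤ K := by linarith
  have hz0 : 0 < z := by linarith
  have hzp : ∀ k, 1 ≤ z ^ k := fun k => one_le_pow₀ hz
  have hKp : ∀ k, 1 ≤ K ^ k := fun k => one_le_pow₀ hK1
  have hX1 : 1 ≤ X := by
    refine le_trans ?_ hX
    exact one_le_mul_of_one_le_of_one_le (hKp 16) (hzp 6)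
  have hX0 : 0 < X := by linarith
  have hcmp : ∀ i j, i ≤ 16 → j ≤ 6 → K ^ i * z ^ j ≤ X := by
    intro i j hi hj
    refine le_trans ?_ hX
    exact mul_le_mul (pow_le_pow_right₀ hK1 hi) (pow_le_pow_right₀ hz hj) (by positivity)
      (by positivity)
  obtain ⟨Q, hQ⟩ : ∃ Q, Q = K * z ^ 2 := ⟨_, rfl⟩
  have hQ0 : 0 < Q := by rw [hQ]; positivity
  obtain ⟨β, hβ⟩ : ∃ β, β = zbe f η := ⟨_, rfl⟩
  obtain ⟨r, hr⟩ : ∃ r, r = K ^ 7 * z ^ 3 / X := ⟨_, rfl⟩
  have hr0 : 0 < r := by rw [hr]; positivity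
  have hrX : r * X = K ^ 7 * z ^ 3 := by rw [hr]; field_simp
  have hr1 : r ≤ 1 / 4 := by
    rw [hr, div_le_div_iff₀ hX0 (by norm_num)]
    calc K ^ 7 * z ^ 3 * 4 ≤ K ^ 7 * z ^ 3 * K := by
          apply mul_le_mul_of_nonneg_left _ (by positivity); linarith
      _ = K ^ 8 * z ^ 3 := by ring
      _ ≤ X := hcmp 8 3 (by norm_num) (by norm_num)
      _ = _ := by ring
  rw [← hβ, ← hr] at hnr
  have hη2 : |η| ≤ 2 := by linarith
  -- collinearity
  have h01 : a 0 ≠ a 1 := fun hh => absurd (hinj hh) (by decide)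
  have h02 : a 0 ≠ a 2 := fun hh => absurd (hinj hh) (by decide)
  have h12 : a 1 ≠ a 2 := fun hh => absurd (hinj hh) (by decide)
  have hdet : (a 1 - a 0) * (b 2 - b 0) - (a 2 - a 0) * (b 1 - b 0) = 0 := by
    obtain ⟨D, hD⟩ : ∃ D : ℤ, D = (a 1 - a 0) * (b 2 - b 0) - (a 2 - a 0) * (b 1 - b 0) := ⟨_, rfl⟩
    rw [← hD]
    have e1 : (D : ℝ) = ((a 1 : ℝ) - a 0) * (((b 2 : ℝ) - η * a 2 - β) - ((b 0 : ℝ) - η * a 0 - β))
        - ((a 2 : ℝ) - a 0) * (((b 1 : ℝ) - η * a 1 - β) - ((b 0 : ℝ) - η * a 0 - β)) := by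
      rw [hD]; push_cast; ring
    have e2 : ∀ i j : Fin 3, |((b i : ℝ) - η * a i - β) - ((b j : ℝ) - η * a j - β)| ≤ 2 * r := by
      intro i j
      refine (abs_sub _ _).trans ?_
      have := hnr i
      have := hnr j
      linarith
    have e3 : |(D : ℝ)| < 1 := by
      rw [e1]
      refine lt_of_le_of_lt (abs_sub _ _) ?_
      rw [abs_mul, abs_mul]
      obtain ⟨L, hL⟩ : ∃ L, L = X / (K ^ 8 * z ^ 3) := ⟨_, rfl⟩
      have hL0 : 0 ≤ L := by rw [hL]; positivity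
      have g1 : |(a 1 : ℝ) - a 0| * |((b 2 : ℝ) - η * a 2 - β) - ((b 0 : ℝ) - η * a 0 - β)|
          ≤ L * (2 * r) := by
        apply mul_le_mul _ (e2 2 0) (abs_nonneg _) hL0
        rw [hL]; exact hwin 1 0
      have g2 : |(a 2 : ℝ) - a 0| * |((b 1 : ℝ) - η * a 1 - β) - ((b 0 : ℝ) - η * a 0 - β)|
          ≤ L * (2 * r) := by
        apply mul_le_mul _ (e2 1 0) (abs_nonneg _) hL0
        rw [hL]; exact hwin 2 0
      have g3 : L * r = 1 / K := by
        rw [hL, hr]; field_simp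
      have g4 : 1 / K ≤ 1 / 300 := one_div_le_one_div_of_le (by norm_num) hK3
      have g5 : L * (2 * r) = 2 * (1 / K) := by rw [← g3]; ring
      rw [g5] at g1 g2
      linarith
    have e4 : |D| < 1 := by exact_mod_cast e3
    have := abs_nonneg D
    have e5 : |D| = 0 := by omega
    exact abs_eq_zero.1 e5
  -- the line
  have hA01 : ((a 1 : ℝ) - a 0) ≠ 0 := by
    intro hh
    apply h01
    have : (a 1 : ℝ) = a 0 := by linarith
    exact_mod_cast this.symm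
  obtain ⟨p, hp⟩ : ∃ p : ℝ, p = ((b 1 : ℝ) - b 0) / ((a 1 : ℝ) - a 0) := ⟨_, rfl⟩
  obtain ⟨u, hu⟩ : ∃ u : ℝ, u = (b 0 : ℝ) - p * a 0 := ⟨_, rfl⟩
  have hline : ∀ i, (b i : ℝ) = p * a i + u := by
    have hdR : ((a 1 : ℝ) - a 0) * ((b 2 : ℝ) - b 0) - ((a 2 : ℝ) - a 0) * ((b 1 : ℝ) - b 0) = 0 := by
      exact_mod_cast hdet
    intro i
    fin_cases i
    · show (b 0 : ℝ) = p * a 0 + u
      rw [hu]; ring
    · show (b 1 : ℝ) = p * a 1 + u
      rw [hu, hp]; field_simp; ring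
    · show (b 2 : ℝ) = p * a 2 + u
      rw [hu, hp]
      field_simp
      linear_combination hdR
  -- a priori bounds
  obtain ⟨t, ht⟩ : ∃ t, t = p - η := ⟨_, rfl⟩
  have hgap : 1 ≤ |(a 1 : ℝ) - a 0| := by
    have : (1 : ℤ) ≤ |a 1 - a 0| := Int.one_le_abs (sub_ne_zero.2 h01.symm)
    have h5 : ((1 : ℤ) : ℝ) ≤ ((|a 1 - a 0| : ℤ) : ℝ) := by exact_mod_cast this
    push_cast at h5
    exact h5
  have ht1 : |t| ≤ 2 * r := by
    have e1 : t = (((b 1 : ℝ) - η * a 1 - β) - ((b 0 : ℝ) - η * a 0 - β)) / ((a 1 : ℝ) - a 0) := by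
      rw [ht, hp]; field_simp; ring
    rw [e1, abs_div, div_le_iff₀ (by linarith)]
    calc |((b 1 : ℝ) - η * a 1 - β) - ((b 0 : ℝ) - η * a 0 - β)| ≤ 2 * r := by
          refine (abs_sub _ _).trans ?_
          have := hnr 1
          have := hnr 0
          linarith
      _ = 2 * r * 1 := by ring
      _ ≤ 2 * r * |(a 1 : ℝ) - a 0| := mul_le_mul_of_nonneg_left hgap (by positivity)
  have ht2 : |t| ≤ 1 / 2 := by linarith
  have hp2 : |p| ≤ 2 := by
    have e1 : p = η + t := by rw [ht]; ring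
    rw [e1]
    refine (abs_add_le _ _).trans ?_
    linarith
  have hua : u - β = ((b 0 : ℝ) - η * a 0 - β) - t * a 0 := by rw [hu, ht]; ring
  have hβb : |β| ≤ K * z := by
    rw [hβ, zbe, abs_div, abs_neg, div_le_iff₀ (lt_of_lt_of_le hz0 hφ)]
    calc |(f 1).eval η| ≤ Q := by rw [← hc_zero, hQ]; exact h.bd0 (by omega) 0 hη2
      _ = K * z * z := by rw [hQ]; ring
      _ ≤ K * z * |hc f 0 1 η| := mul_le_mul_of_nonneg_left hφ (by positivity)
  have huβ : |u - β| ≤ r + |t| * (2 * X) := by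
    rw [hua]
    refine (abs_sub _ _).trans ?_
    rw [abs_mul]
    exact add_le_add (hnr 0) (mul_le_mul_of_nonneg_left (ha2 0) (abs_nonneg _))
  obtain ⟨U, hU⟩ : ∃ U, U = max 1 |u| := ⟨_, rfl⟩
  have hU1 : 1 ≤ U := by rw [hU]; exact le_max_left _ _
  have huU : |u| ≤ U := by rw [hU]; exact le_max_right _ _
  have hub : |u| ≤ |β| + |u - β| := by
    have e1 : u = β + (u - β) := by ring
    calc |u| = |β + (u - β)| := by rw [← e1]
      _ ≤ _ := abs_add_le _ _
  have hKz1 : 1 ≤ K * z := one_le_mul_of_one_le_of_one_le hK1 hz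
  have hU0 : U ≤ K ^ 8 * z ^ 3 := by
    rw [hU]
    apply max_le
    · exact one_le_mul_of_one_le_of_one_le (hKp 8) (hzp 3)
    · have e1 : |t| * (2 * X) ≤ 4 * (K ^ 7 * z ^ 3) := by
        calc |t| * (2 * X) ≤ 2 * r * (2 * X) := mul_le_mul_of_nonneg_right ht1 (by positivity)
          _ = 4 * (r * X) := by ring
          _ = _ := by rw [hrX]
      have e2 : K * z ≤ K ^ 7 * z ^ 3 := by
        calc K * z = K ^ 1 * z ^ 1 := by ring
          _ ≤ K ^ 7 * z ^ 3 := mul_le_mul (pow_le_pow_right₀ hK1 (by norm_num))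
              (pow_le_pow_right₀ hz (by norm_num)) (by positivity) (by positivity)
      have e3 : r ≤ K ^ 7 * z ^ 3 := by linarith
      calc |u| ≤ |β| + |u - β| := hub
        _ ≤ K * z + (r + |t| * (2 * X)) := add_le_add hβb huβ
        _ ≤ 6 * (K ^ 7 * z ^ 3) := by linarith
        _ ≤ K * (K ^ 7 * z ^ 3) := by
          apply mul_le_mul_of_nonneg_right _ (by positivity); linarith
        _ = _ := by ring
  have hUX : U ≤ X := hU0.trans (hcmp 8 3 (by norm_num) (by norm_num))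
  -- divided differences
  have haR : ∀ i, (a i : ℝ) ≠ 0 := by
    intro i hh
    have := ha1 i
    rw [hh, abs_zero] at this
    linarith
  obtain ⟨s, hs⟩ : ∃ s : Fin 3 → ℝ, s = fun i => ((a i : ℝ))⁻¹ := ⟨_, rfl⟩
  have hsS : ∀ i, |s i| ≤ 1 / X := by
    intro i
    rw [hs]
    simp only
    rw [abs_inv, ← one_div]
    exact one_div_le_one_div_of_le hX0 (ha1 i)
  have hsinj : ∀ i j, i ≠ j → s i ≠ s j := by
    intro i j hij hh
    rw [hs] at hh
    simp only at hh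
    have := inv_injective hh
    exact hij (hinj (by exact_mod_cast this))
  have hsgap : ∀ i j, i ≠ j → 1 ≤ (4 * X ^ 2) * |s i - s j| := by
    intro i j hij
    have e1 : s i - s j = ((a j : ℝ) - a i) / (a i * a j) := by
      rw [hs]
      simp only
      rw [inv_sub_inv (haR i) (haR j)]
    rw [e1, abs_div, abs_mul, mul_div_assoc', le_div_iff₀ (mul_pos (abs_pos.2 (haR i))
      (abs_pos.2 (haR j))), one_mul]
    have e2 : 1 ≤ |(a j : ℝ) - a i| := by
      have : (1 : ℤ) ≤ |a j - a i| := Int.one_le_abs (sub_ne_zero.2 (fun hh => hij (hinj hh.symm)))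
      have h5 : ((1 : ℤ) : ℝ) ≤ ((|a j - a i| : ℤ) : ℝ) := by exact_mod_cast this
      push_cast at h5
      exact h5
    calc |(a i : ℝ)| * |(a j : ℝ)| ≤ (2 * X) * (2 * X) :=
          mul_le_mul (ha2 i) (ha2 j) (abs_nonneg _) (by positivity)
      _ = 4 * X ^ 2 * 1 := by ring
      _ ≤ _ := mul_le_mul_of_nonneg_left e2 (by positivity)
  have hG : ∀ i, |∑ m ∈ range (d + 1), am f p u m * s i ^ m| ≤ 6 * z ^ 2 / X ^ 5 := by
    intro i
    rw [← line_expand h.deg p u (s i)]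
    have e1 : p + u * s i = (b i : ℝ) / a i := by
      rw [hline i, hs]
      simp only
      have := haR i
      field_simp
    rw [e1]
    have e2 := hv i
    rw [Tv] at e2
    rw [hs]
    exact e2
  obtain ⟨n, hn⟩ : ∃ n, d = n + 2 := ⟨d - 2, by omega⟩
  obtain ⟨A0, hA0⟩ : ∃ A0, A0 = (d + 1) * Q * U ^ 3 := ⟨_, rfl⟩
  have hA00 : 0 ≤ A0 := by rw [hA0]; positivity
  have hmem : ∀ x ∈ ({s 0, s 1, s 2} : Set ℝ), ∃ i, x = s i := by
    intro x hx
    simp only [Set.mem_insert_iff, Set.mem_singleton_iff] at hx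
    rcases hx with hx | hx | hx
    · exact ⟨0, hx⟩
    · exact ⟨1, hx⟩
    · exact ⟨2, hx⟩
  obtain ⟨c2, c0⟩ := coef_two (S := 1 / X) (hsinj 0 1 (by decide)) (hsinj 0 2 (by decide))
    (hsinj 1 2 (by decide)) (am f p u) n (ν := 6 * z ^ 2 / X ^ 5) (W := 4 * X ^ 2) (A0 := A0)
    (hsS 0) (hsS 1) (hsS 2) (by rw [div_le_one hX0]; exact hX1) (by positivity) (by
      intro x hx
      obtain ⟨i, rfl⟩ := hmem x hx
      have := hG i
      rw [hn] at this
      exact this) (by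
      intro x hx y hy hxy
      obtain ⟨i, rfl⟩ := hmem x hx
      obtain ⟨j, rfl⟩ := hmem y hy
      exact hsgap i j (fun hh => hxy (by rw [hh]))) (by positivity) hA00 (by
      intro m hm
      have e1 := am_bound h hp2 huU hU1 (m := m + 3) (by omega)
      rw [← hQ] at e1
      have e2 : U ^ m * (1 / X) ^ m ≤ 1 := by
        rw [← mul_pow]
        apply pow_le_one₀ (by positivity)
        rw [mul_one_div, div_le_one hX0]; exact hUX
      calc |am f p u (m + 3)| * (1 / X) ^ m ≤ ((d + 1) * Q * U ^ (m + 3)) * (1 / X) ^ m :=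
            mul_le_mul_of_nonneg_right e1 (by positivity)
        _ = ((d + 1) * Q * U ^ 3) * (U ^ m * (1 / X) ^ m) := by ring
        _ ≤ ((d + 1) * Q * U ^ 3) * 1 := mul_le_mul_of_nonneg_left e2 (by positivity)
        _ = A0 := by rw [hA0, mul_one])
  -- simplification of the two bounds
  have hnd : (n : ℝ) * (n + 3) ^ 2 ≤ (d + 1) ^ 3 := by
    have e1 : (d : ℝ) = n + 2 := by rw [hn]; push_cast; ring
    have e2 : (0 : ℝ) ≤ n := by positivity
    rw [e1]
    calc (n : ℝ) * (n + 3) ^ 2 ≤ (n + 3) * (n + 3) ^ 2 := by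
          apply mul_le_mul_of_nonneg_right _ (by positivity); linarith
      _ = _ := by ring
  have hU3 : 1 ≤ U ^ 3 := one_le_pow₀ hU1
  have hB : 3 * (6 * z ^ 2 / X ^ 5 * (4 * X ^ 2) ^ 2) + (n : ℝ) * (n + 3) ^ 2 * (A0 * (1 / X))
      ≤ K ^ 6 * z ^ 2 * U ^ 3 / X := by
    have e1 : 3 * (6 * z ^ 2 / X ^ 5 * (4 * X ^ 2) ^ 2) = 288 * z ^ 2 / X := by
      field_simp; norm_num
    have e2 : (n : ℝ) * (n + 3) ^ 2 * (A0 * (1 / X)) ≤ (d + 1) ^ 3 * (A0 * (1 / X)) :=
      mul_le_mul_of_nonneg_right hnd (by positivity)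
    have e3 : ((d : ℝ) + 1) ^ 3 * (A0 * (1 / X)) = ((d + 1) ^ 4 * K) * z ^ 2 * U ^ 3 / X := by
      rw [hA0, hQ]; ring
    rw [e1]
    calc 288 * z ^ 2 / X + (n : ℝ) * (n + 3) ^ 2 * (A0 * (1 / X))
        ≤ 288 * z ^ 2 / X + ((d + 1) ^ 4 * K) * z ^ 2 * U ^ 3 / X := by rw [← e3]; linarith
      _ ≤ 288 * K * z ^ 2 * U ^ 3 / X + ((d + 1) ^ 4 * K) * z ^ 2 * U ^ 3 / X := by
        have g1 : 288 * z ^ 2 ≤ 288 * K * z ^ 2 * U ^ 3 := by
          calc 288 * z ^ 2 = 288 * 1 * z ^ 2 * 1 := by ring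
            _ ≤ 288 * K * z ^ 2 * U ^ 3 := by gcongr
        linarith [div_le_div_of_nonneg_right g1 hX0.le]
      _ = (((d + 1) ^ 4 + 288) * K) * z ^ 2 * U ^ 3 / X := by ring
      _ ≤ (K * K) * z ^ 2 * U ^ 3 / X := by gcongr
      _ = K ^ 2 * z ^ 2 * U ^ 3 / X := by ring
      _ ≤ _ := by
        gcongr
        norm_num
  have hc2 : |am f p u 2| ≤ K ^ 6 * z ^ 2 * U ^ 3 / X := c2.trans hB
  have hc0 : |am f p u 0| ≤ K ^ 6 * z ^ 2 * U ^ 3 / X ^ 3 := by
    refine c0.trans ?_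
    have e1 : 3 * (6 * z ^ 2 / X ^ 5 * (4 * X ^ 2) ^ 2 * (1 / X) ^ 2)
        + (n : ℝ) * (n + 3) ^ 2 * (A0 * (1 / X) ^ 3)
        = (3 * (6 * z ^ 2 / X ^ 5 * (4 * X ^ 2) ^ 2) + (n : ℝ) * (n + 3) ^ 2 * (A0 * (1 / X)))
          * (1 / X) ^ 2 := by ring
    rw [e1]
    calc _ ≤ (K ^ 6 * z ^ 2 * U ^ 3 / X) * (1 / X) ^ 2 :=
          mul_le_mul_of_nonneg_right hB (by positivity)
      _ = _ := by field_simp
  -- the slope
  have htt : |t| ≤ 2 * K ^ 6 * z * U ^ 3 / X ^ 3 := by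
    have e1 := h.lin (k := 0) (by omega) hη2 (p := p) (by rw [← ht]; linarith)
    rw [hη0, ← ht, ← hQ, sub_zero] at e1
    obtain ⟨φ, hφd⟩ : ∃ φ, φ = hc f 0 1 η := ⟨_, rfl⟩
    rw [← hφd] at hφ e1
    have e2 : |φ| * |t| ≤ |(f 0).eval p| + d * Q * |t| ^ 2 := by
      rw [← abs_mul]
      have e3 : φ * t = (f 0).eval p - ((f 0).eval p - φ * t) := by ring
      calc |φ * t| = |(f 0).eval p - ((f 0).eval p - φ * t)| := by rw [← e3]
        _ ≤ _ := (abs_sub _ _).trans (by linarith)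
    have e3 : d * Q * |t| ^ 2 ≤ z / 2 * |t| := by
      have e4 : d * Q * |t| ≤ z / 2 := by
        calc d * Q * |t| ≤ K * Q * (2 * r) := by
              gcongr; linarith
          _ = z * (2 * (K ^ 9 * z ^ 4 / X)) := by rw [hQ, hr]; ring
          _ ≤ z * (1 / 2) := by
            apply mul_le_mul_of_nonneg_left _ hz0.le
            have : K ^ 9 * z ^ 4 / X ≤ 1 / 4 := by
              rw [div_le_div_iff₀ hX0 (by norm_num)]
              calc K ^ 9 * z ^ 4 * 4 ≤ K ^ 9 * z ^ 4 * K := by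
                    apply mul_le_mul_of_nonneg_left _ (by positivity); linarith
                _ = K ^ 10 * z ^ 4 := by ring
                _ ≤ X := hcmp 10 4 (by norm_num) (by norm_num)
                _ = _ := by ring
            linarith
          _ = z / 2 := by ring
      calc d * Q * |t| ^ 2 = (d * Q * |t|) * |t| := by ring
        _ ≤ _ := mul_le_mul_of_nonneg_right e4 (abs_nonneg _)
    have e4 : z * |t| ≤ |φ| * |t| := mul_le_mul_of_nonneg_right hφ (abs_nonneg _)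
    rw [am_zero] at hc0
    have e5 : z / 2 * |t| ≤ K ^ 6 * z ^ 2 * U ^ 3 / X ^ 3 := by
      have : z * |t| = z / 2 * |t| + z / 2 * |t| := by ring
      linarith
    have e6 : 2 * K ^ 6 * z * U ^ 3 / X ^ 3 = (K ^ 6 * z ^ 2 * U ^ 3 / X ^ 3) / (z / 2) := by
      field_simp
    rw [e6, le_div_iff₀ (by positivity), mul_comm]
    exact e5
  -- bound for the intercept
  have hU2 : U ≤ 2 * (K * z) := by
    have e1 : |t| * (2 * X) ≤ U / 4 := by
      calc |t| * (2 * X) ≤ (2 * K ^ 6 * z * U ^ 3 / X ^ 3) * (2 * X) :=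
            mul_le_mul_of_nonneg_right htt (by positivity)
        _ = (4 * K ^ 6 * z * U ^ 2 / X ^ 2) * U := by field_simp; norm_num
        _ ≤ (1 / 4) * U := by
          apply mul_le_mul_of_nonneg_right _ (by linarith)
          rw [div_le_div_iff₀ (by positivity) (by norm_num)]
          calc 4 * K ^ 6 * z * U ^ 2 * 4 ≤ 4 * K ^ 6 * z * (K ^ 8 * z ^ 3) ^ 2 * 4 := by gcongr
            _ = 16 * (K ^ 22 * z ^ 7) := by ring
            _ ≤ K * (K ^ 22 * z ^ 7) := by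
              apply mul_le_mul_of_nonneg_right _ (by positivity); linarith
            _ = K ^ 23 * z ^ 7 := by ring
            _ ≤ K ^ 32 * z ^ 12 := mul_le_mul (pow_le_pow_right₀ hK1 (by norm_num))
                (pow_le_pow_right₀ hz (by norm_num)) (by positivity) (by positivity)
            _ = (K ^ 16 * z ^ 6) ^ 2 := by ring
            _ ≤ X ^ 2 := pow_le_pow_left₀ (by positivity) hX 2
            _ = _ := by ring
        _ = _ := by ring
    have e2 : |u| ≤ K * z + (r + U / 4) := by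
      calc |u| ≤ |β| + |u - β| := hub
        _ ≤ K * z + (r + |t| * (2 * X)) := add_le_add hβb huβ
        _ ≤ _ := by linarith
    rcases max_choice 1 |u| with hm | hm
    · rw [hU, hm]; linarith
    · have hU' : U = |u| := by rw [hU, hm]
      rw [← hU'] at e2
      linarith
  have hU3b : U ^ 3 ≤ 8 * (K ^ 3 * z ^ 3) := by
    calc U ^ 3 ≤ (2 * (K * z)) ^ 3 := pow_le_pow_left₀ (by linarith) hU2 3
      _ = _ := by ring
  have ht3 : |t| ≤ 16 * (K ^ 9 * z ^ 4) / X ^ 3 := by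
    refine htt.trans ?_
    apply div_le_div_of_nonneg_right _ (by positivity)
    calc 2 * K ^ 6 * z * U ^ 3 ≤ 2 * K ^ 6 * z * (8 * (K ^ 3 * z ^ 3)) := by gcongr
      _ = _ := by ring
  have hub3 : |u - β| ≤ 2 * r := by
    refine huβ.trans ?_
    have e1 : |t| * (2 * X) ≤ r := by
      calc |t| * (2 * X) ≤ (16 * (K ^ 9 * z ^ 4) / X ^ 3) * (2 * X) :=
            mul_le_mul_of_nonneg_right ht3 (by positivity)
        _ = (K ^ 7 * z ^ 3 / X) * (32 * (K ^ 2 * z) / X) := by field_simp; norm_num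
        _ ≤ (K ^ 7 * z ^ 3 / X) * 1 := by
          apply mul_le_mul_of_nonneg_left _ (by positivity)
          rw [div_le_one hX0]
          calc 32 * (K ^ 2 * z) ≤ K * (K ^ 2 * z) := by
                apply mul_le_mul_of_nonneg_right _ (by positivity); linarith
            _ = K ^ 3 * z ^ 1 := by ring
            _ ≤ X := hcmp 3 1 (by norm_num) (by norm_num)
        _ = r := by rw [hr, mul_one]
    linarith
  -- the coefficient of order two is small
  have hsm2 : |am f p u 2| ≤ 1 / 8 := by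
    refine hc2.trans ?_
    rw [div_le_div_iff₀ hX0 (by norm_num)]
    calc K ^ 6 * z ^ 2 * U ^ 3 * 8 ≤ K ^ 6 * z ^ 2 * (8 * (K ^ 3 * z ^ 3)) * 8 := by gcongr
      _ = 64 * (K ^ 9 * z ^ 5) := by ring
      _ ≤ K * (K ^ 9 * z ^ 5) := by
        apply mul_le_mul_of_nonneg_right _ (by positivity); linarith
      _ = K ^ 10 * z ^ 5 := by ring
      _ ≤ X := hcmp 10 5 (by norm_num) (by norm_num)
      _ = _ := by ring
  have hbig := h2 η hη2 hη0 hφ
  rw [← hβ] at hbig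
  have ht1' : |p - η| ≤ 1 := by rw [← ht]; linarith
  have l02 := h.lip (k := 0) (by omega) 2 hη2 ht1'
  have l11 := h.lip (k := 1) (by omega) 1 hη2 ht1'
  have l20 := h.lip (k := 2) (by omega) 0 hη2 ht1'
  rw [← ht, ← hQ] at l02 l11 l20
  have b02 := h.bd0 (k := 0) (by omega) 2 hη2
  have b11 := h.bd0 (k := 1) (by omega) 1 hη2
  rw [← hQ] at b02 b11
  have hβU : |β| ≤ 2 * (K * z) := by linarith
  have huU2 : |u| ≤ 2 * (K * z) := huU.trans hU2
  have hdiff : |am f p u 2 - (hc f 2 0 η + hc f 1 1 η * β + hc f 0 2 η * β ^ 2)| ≤ 1 / 8 := by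
    have e1 : am f p u 2 - (hc f 2 0 η + hc f 1 1 η * β + hc f 0 2 η * β ^ 2)
        = (hc f 0 2 p - hc f 0 2 η) * u ^ 2 + hc f 0 2 η * ((u - β) * (u + β))
          + (hc f 1 1 p - hc f 1 1 η) * u + hc f 1 1 η * (u - β) + (hc f 2 0 p - hc f 2 0 η) := by
      rw [am_two]; ring
    rw [e1]
    have t1 := abs_add_le ((hc f 0 2 p - hc f 0 2 η) * u ^ 2 + hc f 0 2 η * ((u - β) * (u + β))
          + (hc f 1 1 p - hc f 1 1 η) * u + hc f 1 1 η * (u - β)) (hc f 2 0 p - hc f 2 0 η)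
    have t2 := abs_add_le ((hc f 0 2 p - hc f 0 2 η) * u ^ 2 + hc f 0 2 η * ((u - β) * (u + β))
          + (hc f 1 1 p - hc f 1 1 η) * u) (hc f 1 1 η * (u - β))
    have t3 := abs_add_le ((hc f 0 2 p - hc f 0 2 η) * u ^ 2 + hc f 0 2 η * ((u - β) * (u + β)))
          ((hc f 1 1 p - hc f 1 1 η) * u)
    have t4 := abs_add_le ((hc f 0 2 p - hc f 0 2 η) * u ^ 2) (hc f 0 2 η * ((u - β) * (u + β)))
    obtain ⟨M, hM⟩ : ∃ M, M = d * Q * |t| := ⟨_, rfl⟩
    rw [← hM] at l02 l11 l20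
    have hM0 : 0 ≤ M := by rw [hM]; positivity
    have v1 : |(hc f 0 2 p - hc f 0 2 η) * u ^ 2| ≤ M * (2 * (K * z)) ^ 2 := by
      rw [abs_mul, abs_pow]
      exact mul_le_mul l02 (pow_le_pow_left₀ (abs_nonneg _) huU2 2) (by positivity) hM0
    have v2 : |hc f 0 2 η * ((u - β) * (u + β))| ≤ Q * ((2 * r) * (4 * (K * z))) := by
      rw [abs_mul, abs_mul]
      apply mul_le_mul b02 _ (by positivity) hQ0.le
      apply mul_le_mul hub3 _ (abs_nonneg _) (by positivity)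
      refine (abs_add_le _ _).trans ?_
      linarith
    have v3 : |(hc f 1 1 p - hc f 1 1 η) * u| ≤ M * (2 * (K * z)) := by
      rw [abs_mul]
      exact mul_le_mul l11 huU2 (abs_nonneg _) hM0
    have v4 : |hc f 1 1 η * (u - β)| ≤ Q * (2 * r) := by
      rw [abs_mul]
      exact mul_le_mul b11 hub3 (abs_nonneg _) hQ0.le
    have w1 : M * (2 * (K * z)) ^ 2 + M * (2 * (K * z)) + M ≤ 1 / 16 := by
      have g1 : (2 * (K * z)) ^ 2 + 2 * (K * z) + 1 ≤ 7 * (K * z) ^ 2 := by nlinarith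
      have g2 : M ≤ 16 * (K ^ 11 * z ^ 6) / X ^ 3 := by
        rw [hM]
        calc d * Q * |t| ≤ K * Q * (16 * (K ^ 9 * z ^ 4) / X ^ 3) := by
              gcongr; linarith
          _ = _ := by rw [hQ]; ring
      calc M * (2 * (K * z)) ^ 2 + M * (2 * (K * z)) + M
          = M * ((2 * (K * z)) ^ 2 + 2 * (K * z) + 1) := by ring
        _ ≤ (16 * (K ^ 11 * z ^ 6) / X ^ 3) * (7 * (K * z) ^ 2) :=
          mul_le_mul g2 g1 (by positivity) (by positivity)
        _ = 112 * (K ^ 13 * z ^ 8) / X ^ 3 := by ring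
        _ ≤ 1 / 16 := by
          rw [div_le_div_iff₀ (by positivity) (by norm_num)]
          calc 112 * (K ^ 13 * z ^ 8) * 16 = 1792 * (K ^ 13 * z ^ 8) := by ring
            _ ≤ (K * K) * (K ^ 13 * z ^ 8) := by
              apply mul_le_mul_of_nonneg_right _ (by positivity)
              nlinarith
            _ = K ^ 15 * z ^ 8 := by ring
            _ ≤ K ^ 48 * z ^ 18 := mul_le_mul (pow_le_pow_right₀ hK1 (by norm_num))
                (pow_le_pow_right₀ hz (by norm_num)) (by positivity) (by positivity)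
            _ = (K ^ 16 * z ^ 6) ^ 3 := by ring
            _ ≤ X ^ 3 := pow_le_pow_left₀ (by positivity) hX 3
            _ = _ := by ring
    have w2 : Q * ((2 * r) * (4 * (K * z))) + Q * (2 * r) ≤ 1 / 16 := by
      calc Q * ((2 * r) * (4 * (K * z))) + Q * (2 * r) ≤ Q * ((2 * r) * (4 * (K * z)))
            + Q * (2 * r) * (K * z) := by
            have : Q * (2 * r) * 1 ≤ Q * (2 * r) * (K * z) :=
              mul_le_mul_of_nonneg_left hKz1 (by positivity)
            linarith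
        _ = 10 * (K ^ 9 * z ^ 6) / X := by rw [hQ, hr]; ring
        _ ≤ 1 / 16 := by
          rw [div_le_div_iff₀ hX0 (by norm_num)]
          calc 10 * (K ^ 9 * z ^ 6) * 16 = 160 * (K ^ 9 * z ^ 6) := by ring
            _ ≤ K * (K ^ 9 * z ^ 6) := by
              apply mul_le_mul_of_nonneg_right _ (by positivity); linarith
            _ = K ^ 10 * z ^ 6 := by ring
            _ ≤ X := hcmp 10 6 (by norm_num) (by norm_num)
            _ = _ := by ring
    linarith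
  have h9 := abs_sub_abs_le_abs_sub (hc f 2 0 η + hc f 1 1 η * β + hc f 0 2 η * β ^ 2) (am f p u 2)
  rw [abs_sub_comm] at h9
  linarith

end Pool.Agent.H322R2
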