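import Pool.Agent.H322R2.WNear
import Pool.Agent.H322R2.WCoef
import Pool.Agent.H322R2.ZTrip

/-!
A line meets the curve, near a branch at infinity, in at most two integer points (sharp law, all
degrees `≥ 4`).
-/

open Polynomial Finset

namespace Pool.Agent.H322R2

lemma am_boundW {f : ℕ → ℝ[X]} {d : ℕ} {K z : ℝ} (h : WH f d K z) {p u U : ℝ} (hp : |p| ≤ 2)
    (hu : |u| ≤ U) (hU : 1 ≤ U) {m : ℕ} (hm : m ≤ d) :
    |am f p u m| ≤ (d + 1) * (K * z ^ 2) * U ^ m := by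
  have hQ0 : 0 ≤ K * z ^ 2 := (abs_nonneg _).trans (h.bd0 (k := 0) (by omega) 0 hp)
  rw [am]
  refine (Finset.abs_sum_le_sum_abs _ _).trans ?_
  refine (Finset.sum_le_card_nsmul _ _ ((K * z ^ 2) * U ^ m) ?_).trans ?_
  · intro k hk
    rw [Finset.mem_range] at hk
    rw [abs_mul, abs_pow]
    apply mul_le_mul (h.bd0 (by omega) _ hp) _ (by positivity) hQ0
    calc |u| ^ (m - k) ≤ U ^ (m - k) := pow_le_pow_left₀ (abs_nonneg _) hu _
      _ ≤ U ^ m := pow_le_pow_right₀ hU (by omega)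
  · rw [Finset.card_range, nsmul_eq_mul]
    have : ((m + 1 : ℕ) : ℝ) ≤ (d : ℝ) + 1 := by
      push_cast
      have : (m : ℝ) ≤ d := by exact_mod_cast hm
      linarith
    calc ((m + 1 : ℕ) : ℝ) * (K * z ^ 2 * U ^ m) ≤ ((d : ℝ) + 1) * (K * z ^ 2 * U ^ m) :=
          mul_le_mul_of_nonneg_right this (by positivity)
      _ = _ := by ring

/-- reciprocals of separated numbers -/
lemma recip_sep {a b A X : ℝ} (hX : 0 < X) (hA : 0 < A) (ha : X ≤ |a|) (hb : X ≤ |b|)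
    (hab : A ≤ |a - b|) :
    1 ≤ |a⁻¹ - b⁻¹| * (|a| ^ 2 * (1 / X + 1 / A)) ∧ |b⁻¹| ≤ |a⁻¹ - b⁻¹| * (|a| / A) := by
  have ha0 : a ≠ 0 := by intro h; rw [h, abs_zero] at ha; linarith
  have hb0 : b ≠ 0 := by intro h; rw [h, abs_zero] at hb; linarith
  have hap := abs_pos.2 ha0
  have hbp := abs_pos.2 hb0
  have e1 : |a⁻¹ - b⁻¹| = |a - b| / (|a| * |b|) := by
    rw [inv_sub_inv ha0 hb0, abs_div, abs_mul, abs_sub_comm]
  rw [e1]
  constructor
  · have e2 : |a - b| / (|a| * |b|) * (|a| ^ 2 * (1 / X + 1 / A))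
        = (|a - b| * |a| * (1 / X) + |a - b| * |a| * (1 / A)) / |b| := by
      field_simp
    rw [e2, le_div_iff₀ hbp, one_mul]
    have e3 : |b| ≤ |a - b| + |a| := by
      have : b = a - (a - b) := by ring
      calc |b| = |a - (a - b)| := by rw [← this]
        _ ≤ _ := by
          refine (abs_sub _ _).trans ?_
          linarith
    have e4 : |a - b| ≤ |a - b| * |a| * (1 / X) := by
      have : 1 ≤ |a| * (1 / X) := by rw [mul_one_div, le_div_iff₀ hX, one_mul]; exact ha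
      calc |a - b| = |a - b| * 1 := by ring
        _ ≤ |a - b| * (|a| * (1 / X)) := mul_le_mul_of_nonneg_left this (abs_nonneg _)
        _ = _ := by ring
    have e5 : |a| ≤ |a - b| * |a| * (1 / A) := by
      have : 1 ≤ |a - b| * (1 / A) := by rw [mul_one_div, le_div_iff₀ hA, one_mul]; exact hab
      calc |a| = 1 * |a| := by ring
        _ ≤ (|a - b| * (1 / A)) * |a| := mul_le_mul_of_nonneg_right this hap.le
        _ = _ := by ring
    linarith
  · rw [abs_inv]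
    have e2 : |a - b| / (|a| * |b|) * (|a| / A) = (|a - b| / A) * |b|⁻¹ := by field_simp
    rw [e2]
    have : 1 ≤ |a - b| / A := by rw [le_div_iff₀ hA, one_mul]; exact hab
    calc |b|⁻¹ = 1 * |b|⁻¹ := by ring
      _ ≤ _ := mul_le_mul_of_nonneg_right this (by positivity)

lemma noise_terms {g x y z' s t ν a A X : ℝ} (hν : 0 ≤ ν) (hX : 0 < X) (hA : 0 < A) (ha : X ≤ a)
    (hg : |g| ≤ ν / a ^ 4) (hx : 1 ≤ |x| * (a ^ 2 * (1 / X + 1 / A)))
    (hy : 1 ≤ |y| * (a ^ 2 * (1 / X + 1 / A))) (hs : |s| ≤ |x| * (a / A)) (ht : |t| ≤ |y| * (a / A)) :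
    |g / (x * y)| ≤ ν * (1 / X + 1 / A) ^ 2 ∧ |g * (s * t) / (x * y)| ≤ ν / (X ^ 2 * A ^ 2) := by
  have ha0 : 0 < a := lt_of_lt_of_le hX ha
  have hx0 : 0 < |x| := by
    by_contra hcon
    push Not at hcon
    have : |x| = 0 := le_antisymm hcon (abs_nonneg _)
    rw [this, zero_mul] at hx
    linarith
  have hy0 : 0 < |y| := by
    by_contra hcon
    push Not at hcon
    have : |y| = 0 := le_antisymm hcon (abs_nonneg _)
    rw [this, zero_mul] at hy
    linarith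
  obtain ⟨w, hw⟩ : ∃ w, w = 1 / X + 1 / A := ⟨_, rfl⟩
  rw [← hw] at hx hy ⊢
  have hw0 : 0 ≤ w := by rw [hw]; positivity
  constructor
  · rw [abs_div, abs_mul, div_le_iff₀ (by positivity)]
    have e1 : 1 ≤ (|x| * (a ^ 2 * w)) * (|y| * (a ^ 2 * w)) := one_le_mul_of_one_le_of_one_le hx hy
    calc |g| ≤ ν / a ^ 4 := hg
      _ = ν / a ^ 4 * 1 := by ring
      _ ≤ ν / a ^ 4 * ((|x| * (a ^ 2 * w)) * (|y| * (a ^ 2 * w))) :=
        mul_le_mul_of_nonneg_left e1 (by positivity)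
      _ = _ := by field_simp
  · rw [abs_div, abs_mul, abs_mul, abs_mul, div_le_iff₀ (by positivity)]
    have e1 : |s| * |t| ≤ (|x| * (a / A)) * (|y| * (a / A)) :=
      mul_le_mul hs ht (abs_nonneg _) (by positivity)
    calc |g| * (|s| * |t|) ≤ (ν / a ^ 4) * ((|x| * (a / A)) * (|y| * (a / A))) :=
          mul_le_mul hg e1 (by positivity) (by positivity)
      _ = ν / (a ^ 2 * A ^ 2) * (|x| * |y|) := by field_simp
      _ ≤ ν / (X ^ 2 * A ^ 2) * (|x| * |y|) := by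
        apply mul_le_mul_of_nonneg_right _ (by positivity)
        apply div_le_div_of_nonneg_left hν (by positivity)
        apply mul_le_mul_of_nonneg_right _ (by positivity)
        exact pow_le_pow_left₀ hX.le ha 2

theorem no_tripleW {f : ℕ → ℝ[X]} {d : ℕ} {K z : ℝ} (h : WH f d K z) (hKd : ((d : ℝ) + 1) ^ 4 + 288 ≤ K)
    (h2 : ZT2 f z) {η ν : ℝ} (hη : |η| ≤ 3 / 2) (hη0 : (f 0).eval η = 0)
    (hφ : z ≤ |hc f 0 1 η|) (a b : Fin 3 → ℤ) (hX : K ^ 16 * z ^ 6 ≤ |(a 0 : ℝ)|)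
    (ha1 : ∀ i, |(a 0 : ℝ)| ≤ |(a i : ℝ)|) {A B k : ℤ} (hA : 1 ≤ A)
    (hline : ∀ i, A * b i - B * a i = k) (hgap : ∀ i j, i ≠ j → A ≤ |a i - a j|)
    (hnr : ∀ i, |(b i : ℝ) - η * a i - zbe f η| ≤ K ^ 7 * z ^ 3 / |(a 0 : ℝ)|)
    (hν0 : 0 ≤ ν) (hν1 : ν ≤ z ^ 2)
    (hν2 : ν * (1 / |(a 0 : ℝ)| + 1 / A) ^ 2 ≤ 4 / K ^ 2)
    (hv : ∀ i, |Tv f d (a i) ((b i : ℝ) / a i)| ≤ ν / |(a i : ℝ)| ^ 4) : False := by
  have hK := h.hK
  have hK3 := h.hK3
  have hz := h.hz
  have hd := h.hd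
  have hd0 : (0 : ℝ) ≤ d := by positivity
  have hK0 : 0 < K := by linarith
  have hK1 : 1 ≤ K := by linarith
  have hz0 : 0 < z := by linarith
  have hzp : ∀ k, 1 ≤ z ^ k := fun k => one_le_pow₀ hz
  have hKp : ∀ k, 1 ≤ K ^ k := fun k => one_le_pow₀ hK1
  obtain ⟨X, hXd⟩ : ∃ X, X = |(a 0 : ℝ)| := ⟨_, rfl⟩
  rw [← hXd] at hX ha1 hnr hν2
  have hX1 : 1 ≤ X := by
    refine le_trans ?_ hX
    exact one_le_mul_of_one_le_of_one_le (hKp 16) (hzp 6)
  have hX0 : 0 < X := by linarith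
  have hcmp : ∀ i j, i ≤ 16 → j ≤ 6 → K ^ i * z ^ j ≤ X := by
    intro i j hi hj
    refine le_trans ?_ hX
    exact mul_le_mul (pow_le_pow_right₀ hK1 hi) (pow_le_pow_right₀ hz hj) (by positivity)
      (by positivity)
  have hAR : (1 : ℝ) ≤ A := by exact_mod_cast hA
  have hA0 : (0 : ℝ) < A := by linarith
  obtain ⟨Q, hQ⟩ : ∃ Q, Q = K * z ^ 2 := ⟨_, rfl⟩
  have hQ0 : 0 < Q := by rw [hQ]; positivity
  obtain ⟨β, hβ⟩ : ∃ β, β = zbe f η := ⟨_, rfl⟩
  obtain ⟨r, hr⟩ : ∃ r, r = K ^ 7 * z ^ 3 / X := ⟨_, rfl⟩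
  have hr0 : 0 < r := by rw [hr]; positivity
  have hrX : r * X = K ^ 7 * z ^ 3 := by rw [hr]; field_simp
  have hr1 : r ≤ 1 / 4 := by
    rw [hr, div_le_div_iff₀ hX0 (by norm_num)]
    calc K ^ 7 * z ^ 3 * 4 ≤ K ^ 7 * z ^ 3 * K := by
          apply mul_le_mul_of_nonneg_left _ (by positivity); linarith
      _ = K ^ 8 * z ^ 3 := by ring
      _ ≤ X := hcmp 8 3 (by norm_num) (by norm_num)
      _ = _ := by ring
  rw [← hβ, ← hr] at hnr
  have hη2 : |η| ≤ 2 := by linarith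
  -- the line
  obtain ⟨p, hp⟩ : ∃ p : ℝ, p = (B : ℝ) / A := ⟨_, rfl⟩
  obtain ⟨u, hu⟩ : ∃ u : ℝ, u = (k : ℝ) / A := ⟨_, rfl⟩
  have hlineR : ∀ i, (b i : ℝ) = p * a i + u := by
    intro i
    have h1 : (A : ℝ) * b i - B * a i = k := by exact_mod_cast hline i
    rw [hp, hu]
    field_simp
    linear_combination h1
  have hgapR : ∀ i j, i ≠ j → (A : ℝ) ≤ |(a i : ℝ) - a j| := by
    intro i j hij
    have := hgap i j hij
    exact_mod_cast this
  -- a priori bounds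
  obtain ⟨t, ht⟩ : ∃ t, t = p - η := ⟨_, rfl⟩
  have hg10 := hgapR 1 0 (by decide)
  have ht1 : |t| ≤ 2 * r := by
    have e1 : t * ((a 1 : ℝ) - a 0) = ((b 1 : ℝ) - η * a 1 - β) - ((b 0 : ℝ) - η * a 0 - β) := by
      rw [ht, hlineR 1, hlineR 0]; ring
    have e2 : |t| * |(a 1 : ℝ) - a 0| ≤ 2 * r := by
      rw [← abs_mul, e1]
      refine (abs_sub _ _).trans ?_
      have := hnr 1
      have := hnr 0
      linarith
    have e3 : |t| * 1 ≤ |t| * |(a 1 : ℝ) - a 0| :=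
      mul_le_mul_of_nonneg_left (hAR.trans hg10) (abs_nonneg _)
    linarith
  have ht2 : |t| ≤ 1 / 2 := by linarith
  have hp2 : |p| ≤ 2 := by
    have e1 : p = η + t := by rw [ht]; ring
    rw [e1]
    refine (abs_add_le _ _).trans ?_
    linarith
  have hua : u - β = ((b 0 : ℝ) - η * a 0 - β) - t * a 0 := by
    rw [ht, hlineR 0]; ring
  have hβb : |β| ≤ K * z := by
    rw [hβ, zbe, abs_div, abs_neg, div_le_iff₀ (lt_of_lt_of_le hz0 hφ)]
    calc |(f 1).eval η| ≤ Q := by rw [← hc_zero, hQ]; exact h.bd0 (by omega) 0 hη2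
      _ = K * z * z := by rw [hQ]; ring
      _ ≤ K * z * |hc f 0 1 η| := mul_le_mul_of_nonneg_left hφ (by positivity)
  have huβ : |u - β| ≤ r + |t| * X := by
    rw [hua]
    refine (abs_sub _ _).trans ?_
    rw [abs_mul, ← hXd]
    exact add_le_add (hnr 0) le_rfl
  obtain ⟨U, hU⟩ : ∃ U, U = max 1 |u| := ⟨_, rfl⟩
  have hU1 : 1 ≤ U := by rw [hU]; exact le_max_left _ _
  have huU : |u| ≤ U := by rw [hU]; exact le_max_right _ _
  have hub : |u| ≤ |β| + |u - β| := by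
    have e1 : u = β + (u - β) := by ring
    calc |u| = |β + (u - β)| := by rw [← e1]
      _ ≤ _ := abs_add_le _ _
  have hKz1 : 1 ≤ K * z := one_le_mul_of_one_le_of_one_le hK1 hz
  have hU0 : U ≤ K ^ 8 * z ^ 3 := by
    rw [hU]
    apply max_le
    · exact one_le_mul_of_one_le_of_one_le (hKp 8) (hzp 3)
    · have e1 : |t| * X ≤ 2 * (K ^ 7 * z ^ 3) := by
        calc |t| * X ≤ 2 * r * X := mul_le_mul_of_nonneg_right ht1 (by positivity)
          _ = 2 * (r * X) := by ring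
          _ = _ := by rw [hrX]
      have e2 : K * z ≤ K ^ 7 * z ^ 3 := by
        calc K * z = K ^ 1 * z ^ 1 := by ring
          _ ≤ K ^ 7 * z ^ 3 := mul_le_mul (pow_le_pow_right₀ hK1 (by norm_num))
              (pow_le_pow_right₀ hz (by norm_num)) (by positivity) (by positivity)
      have e3 : r ≤ K ^ 7 * z ^ 3 := by
        have : 1 ≤ K ^ 7 * z ^ 3 := one_le_mul_of_one_le_of_one_le (hKp 7) (hzp 3)
        linarith
      calc |u| ≤ |β| + |u - β| := hub
        _ ≤ K * z + (r + |t| * X) := add_le_add hβb huβ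
        _ ≤ 4 * (K ^ 7 * z ^ 3) := by linarith
        _ ≤ K * (K ^ 7 * z ^ 3) := by
          apply mul_le_mul_of_nonneg_right _ (by positivity); linarith
        _ = _ := by ring
  have hUX : U ≤ X := hU0.trans (hcmp 8 3 (by norm_num) (by norm_num))
  -- divided differences
  have haR : ∀ i, (a i : ℝ) ≠ 0 := by
    intro i hh
    have := ha1 i
    rw [hh, abs_zero] at this
    linarith
  obtain ⟨s, hs⟩ : ∃ s : Fin 3 → ℝ, s = fun i => ((a i : ℝ))⁻¹ := ⟨_, rfl⟩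
  have hsS : ∀ i, |s i| ≤ 1 / X := by
    intro i
    rw [hs]
    simp only
    rw [abs_inv, ← one_div]
    exact one_div_le_one_div_of_le hX0 (ha1 i)
  have hsinj : ∀ i j, i ≠ j → s i ≠ s j := by
    intro i j hij hh
    rw [hs] at hh
    simp only at hh
    have h5 := inv_injective hh
    have h6 := hgapR i j hij
    rw [h5, sub_self, abs_zero] at h6
    linarith
  have hsep : ∀ i j, i ≠ j → 1 ≤ |s i - s j| * (|(a i : ℝ)| ^ 2 * (1 / X + 1 / A)) ∧
      |s j| ≤ |s i - s j| * (|(a i : ℝ)| / A) := by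
    intro i j hij
    rw [hs]
    exact recip_sep hX0 hA0 (ha1 i) (ha1 j) (hgapR i j hij)
  have hG : ∀ i, |∑ m ∈ range (d + 1), am f p u m * s i ^ m| ≤ ν / |(a i : ℝ)| ^ 4 := by
    intro i
    rw [← line_expand h.deg p u (s i)]
    have e1 : p + u * s i = (b i : ℝ) / a i := by
      rw [hlineR i, hs]
      simp only
      have := haR i
      field_simp
    rw [e1]
    have e2 := hv i
    rw [Tv] at e2
    rw [hs]
    exact e2
  obtain ⟨n, hn⟩ : ∃ n, d = n + 2 := ⟨d - 2, by omega⟩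
  obtain ⟨A0, hA0'⟩ : ∃ A0, A0 = (d + 1) * Q * U ^ 3 := ⟨_, rfl⟩
  have hA00 : 0 ≤ A0 := by rw [hA0']; positivity
  have hnt : ∀ i j l : Fin 3, i ≠ j → i ≠ l →
      |(∑ m ∈ range (n + 3), am f p u m * s i ^ m) / ((s i - s j) * (s i - s l))|
        ≤ ν * (1 / X + 1 / A) ^ 2 ∧
      |(∑ m ∈ range (n + 3), am f p u m * s i ^ m) * (s j * s l) / ((s i - s j) * (s i - s l))|
        ≤ ν / (X ^ 2 * (A : ℝ) ^ 2) := by
    intro i j l hij hil
    have h5 := hG i
    rw [hn] at h5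
    obtain ⟨q1, q2⟩ := hsep i j hij
    obtain ⟨q3, q4⟩ := hsep i l hil
    exact noise_terms (z' := 0) hν0 hX0 hA0 (ha1 i) h5 q1 q3 q2 q4
  obtain ⟨c2, c0⟩ := coef_two' (S := 1 / X) (hsinj 0 1 (by decide)) (hsinj 0 2 (by decide))
    (hsinj 1 2 (by decide)) (am f p u) n (τ2 := ν * (1 / X + 1 / A) ^ 2)
    (τ0 := ν / (X ^ 2 * (A : ℝ) ^ 2)) (A0 := A0)
    (hsS 0) (hsS 1) (hsS 2) (by positivity)
    (hnt 0 1 2 (by decide) (by decide)).1 (hnt 1 0 2 (by decide) (by decide)).1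
    (hnt 2 0 1 (by decide) (by decide)).1
    (hnt 0 1 2 (by decide) (by decide)).2 (hnt 1 0 2 (by decide) (by decide)).2
    (hnt 2 0 1 (by decide) (by decide)).2 hA00 (by
      intro m hm
      have e1 := am_boundW h hp2 huU hU1 (m := m + 3) (by omega)
      rw [← hQ] at e1
      have e2 : U ^ m * (1 / X) ^ m ≤ 1 := by
        rw [← mul_pow]
        apply pow_le_one₀ (by positivity)
        rw [mul_one_div, div_le_one hX0]; exact hUX
      calc |am f p u (m + 3)| * (1 / X) ^ m ≤ ((d + 1) * Q * U ^ (m + 3)) * (1 / X) ^ m :=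
            mul_le_mul_of_nonneg_right e1 (by positivity)
        _ = ((d + 1) * Q * U ^ 3) * (U ^ m * (1 / X) ^ m) := by ring
        _ ≤ ((d + 1) * Q * U ^ 3) * 1 := mul_le_mul_of_nonneg_left e2 (by positivity)
        _ = A0 := by rw [hA0', mul_one])
  -- simplification of the two bounds
  have hnd : (n : ℝ) * (n + 3) ^ 2 ≤ (d + 1) ^ 3 := by
    have e1 : (d : ℝ) = n + 2 := by rw [hn]; push_cast; ring
    have e2 : (0 : ℝ) ≤ n := by positivity
    rw [e1]
    calc (n : ℝ) * (n + 3) ^ 2 ≤ (n + 3) * (n + 3) ^ 2 := by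
          apply mul_le_mul_of_nonneg_right _ (by positivity); linarith
      _ = _ := by ring
  have hU3 : 1 ≤ U ^ 3 := one_le_pow₀ hU1
  have hB1 : (n : ℝ) * (n + 3) ^ 2 * A0 ≤ K ^ 2 * z ^ 2 * U ^ 3 := by
    have e0 : ((d : ℝ) + 1) ^ 4 ≤ K := by linarith
    calc (n : ℝ) * (n + 3) ^ 2 * A0 ≤ (d + 1) ^ 3 * A0 := mul_le_mul_of_nonneg_right hnd hA00
      _ = ((d + 1) ^ 4 * K) * z ^ 2 * U ^ 3 := by rw [hA0', hQ]; ring
      _ ≤ (K * K) * z ^ 2 * U ^ 3 := by gcongr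
      _ = _ := by ring
  have hc2 : |am f p u 2| ≤ 12 / K ^ 2 + K ^ 2 * z ^ 2 * U ^ 3 / X := by
    refine c2.trans ?_
    have e1 : (n : ℝ) * (n + 3) ^ 2 * (A0 * (1 / X)) ≤ K ^ 2 * z ^ 2 * U ^ 3 / X := by
      calc (n : ℝ) * (n + 3) ^ 2 * (A0 * (1 / X)) = ((n : ℝ) * (n + 3) ^ 2 * A0) / X := by ring
        _ ≤ _ := div_le_div_of_nonneg_right hB1 hX0.le
    have e2 : 3 * (ν * (1 / X + 1 / A) ^ 2) ≤ 12 / K ^ 2 := by
      calc 3 * (ν * (1 / X + 1 / A) ^ 2) ≤ 3 * (4 / K ^ 2) := by linarith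
        _ = _ := by ring
    linarith
  have hc0 : |am f p u 0| ≤ 3 * z ^ 2 / X ^ 2 + K ^ 2 * z ^ 2 * U ^ 3 / X ^ 3 := by
    refine c0.trans ?_
    have e1 : (n : ℝ) * (n + 3) ^ 2 * (A0 * (1 / X) ^ 3) ≤ K ^ 2 * z ^ 2 * U ^ 3 / X ^ 3 := by
      calc (n : ℝ) * (n + 3) ^ 2 * (A0 * (1 / X) ^ 3) = ((n : ℝ) * (n + 3) ^ 2 * A0) / X ^ 3 := by
            rw [one_div_pow]; ring
        _ ≤ _ := div_le_div_of_nonneg_right hB1 (by positivity)
    have e2 : ν / (X ^ 2 * (A : ℝ) ^ 2) ≤ z ^ 2 / X ^ 2 := by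
      apply div_le_div₀ (by positivity) hν1 (by positivity)
      exact le_mul_of_one_le_right (by positivity) (one_le_pow₀ hAR)
    calc 3 * (ν / (X ^ 2 * (A : ℝ) ^ 2)) + (n : ℝ) * (n + 3) ^ 2 * (A0 * (1 / X) ^ 3)
        ≤ 3 * (z ^ 2 / X ^ 2) + K ^ 2 * z ^ 2 * U ^ 3 / X ^ 3 := by linarith
      _ = _ := by ring
  -- the slope
  have htt : |t| ≤ 6 * z / X ^ 2 + 2 * K ^ 2 * z * U ^ 3 / X ^ 3 := by
    have e1 := h.lin (k := 0) (by omega) hη2 (p := p) (by rw [← ht]; linarith)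
    rw [hη0, ← ht, ← hQ, sub_zero] at e1
    obtain ⟨φ, hφd⟩ : ∃ φ, φ = hc f 0 1 η := ⟨_, rfl⟩
    rw [← hφd] at hφ e1
    have e2 : |φ| * |t| ≤ |(f 0).eval p| + d * Q * |t| ^ 2 := by
      rw [← abs_mul]
      have e3 : φ * t = (f 0).eval p - ((f 0).eval p - φ * t) := by ring
      calc |φ * t| = |(f 0).eval p - ((f 0).eval p - φ * t)| := by rw [← e3]
        _ ≤ _ := (abs_sub _ _).trans (by linarith)
    have e3 : d * Q * |t| ^ 2 ≤ z / 2 * |t| := by
      have e4 : d * Q * |t| ≤ z / 2 := by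
        calc d * Q * |t| ≤ K * Q * (2 * r) := by
              gcongr; linarith
          _ = z * (2 * (K ^ 9 * z ^ 4 / X)) := by rw [hQ, hr]; ring
          _ ≤ z * (1 / 2) := by
            apply mul_le_mul_of_nonneg_left _ hz0.le
            have : K ^ 9 * z ^ 4 / X ≤ 1 / 4 := by
              rw [div_le_div_iff₀ hX0 (by norm_num)]
              calc K ^ 9 * z ^ 4 * 4 ≤ K ^ 9 * z ^ 4 * K := by
                    apply mul_le_mul_of_nonneg_left _ (by positivity); linarith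
                _ = K ^ 10 * z ^ 4 := by ring
                _ ≤ X := hcmp 10 4 (by norm_num) (by norm_num)
                _ = _ := by ring
            linarith
          _ = z / 2 := by ring
      calc d * Q * |t| ^ 2 = (d * Q * |t|) * |t| := by ring
        _ ≤ _ := mul_le_mul_of_nonneg_right e4 (abs_nonneg _)
    have e4 : z * |t| ≤ |φ| * |t| := mul_le_mul_of_nonneg_right hφ (abs_nonneg _)
    rw [am_zero] at hc0
    have e5 : z / 2 * |t| ≤ 3 * z ^ 2 / X ^ 2 + K ^ 2 * z ^ 2 * U ^ 3 / X ^ 3 := by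
      have : z * |t| = z / 2 * |t| + z / 2 * |t| := by ring
      linarith
    have e6 : 6 * z / X ^ 2 + 2 * K ^ 2 * z * U ^ 3 / X ^ 3
        = (3 * z ^ 2 / X ^ 2 + K ^ 2 * z ^ 2 * U ^ 3 / X ^ 3) / (z / 2) := by
      field_simp; ring
    rw [e6, le_div_iff₀ (by positivity), mul_comm]
    exact e5
  -- bound for the intercept
  have hzX : 48 * z ≤ X := by
    calc 48 * z ≤ K * z := mul_le_mul_of_nonneg_right (by linarith) hz0.le
      _ = K ^ 1 * z ^ 1 := by ring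
      _ ≤ X := hcmp 1 1 (by norm_num) (by norm_num)
  have hU2 : U ≤ 2 * (K * z) := by
    have e1 : |t| * X ≤ U / 4 := by
      calc |t| * X ≤ (6 * z / X ^ 2 + 2 * K ^ 2 * z * U ^ 3 / X ^ 3) * X :=
            mul_le_mul_of_nonneg_right htt (by positivity)
        _ = 6 * z / X + (2 * K ^ 2 * z * U ^ 2 / X ^ 2) * U := by field_simp
        _ ≤ (1 / 8) * U + (1 / 8) * U := by
          apply add_le_add
          · rw [div_le_iff₀ hX0]
            have : X ≤ U * X := le_mul_of_one_le_left hX0.le hU1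
            linarith
          · apply mul_le_mul_of_nonneg_right _ (by linarith)
            rw [div_le_div_iff₀ (by positivity) (by norm_num)]
            calc 2 * K ^ 2 * z * U ^ 2 * 8 ≤ 2 * K ^ 2 * z * (K ^ 8 * z ^ 3) ^ 2 * 8 := by gcongr
              _ = 16 * (K ^ 18 * z ^ 7) := by ring
              _ ≤ K * (K ^ 18 * z ^ 7) := by
                apply mul_le_mul_of_nonneg_right _ (by positivity); linarith
              _ = K ^ 19 * z ^ 7 := by ring
              _ ≤ K ^ 32 * z ^ 12 := mul_le_mul (pow_le_pow_right₀ hK1 (by norm_num))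
                  (pow_le_pow_right₀ hz (by norm_num)) (by positivity) (by positivity)
              _ = (K ^ 16 * z ^ 6) ^ 2 := by ring
              _ ≤ X ^ 2 := pow_le_pow_left₀ (by positivity) hX 2
              _ = _ := by ring
        _ = _ := by ring
    have e2 : |u| ≤ K * z + (r + U / 4) := by
      calc |u| ≤ |β| + |u - β| := hub
        _ ≤ K * z + (r + |t| * X) := add_le_add hβb huβ
        _ ≤ _ := by linarith
    rcases max_choice 1 |u| with hm | hm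
    · rw [hU, hm]; linarith
    · have hU' : U = |u| := by rw [hU, hm]
      rw [← hU'] at e2
      linarith
  have hU3b : U ^ 3 ≤ 8 * (K ^ 3 * z ^ 3) := by
    calc U ^ 3 ≤ (2 * (K * z)) ^ 3 := pow_le_pow_left₀ (by linarith) hU2 3
      _ = _ := by ring
  have ht3 : |t| ≤ 7 * z / X ^ 2 := by
    refine htt.trans ?_
    have e1 : 2 * K ^ 2 * z * U ^ 3 / X ^ 3 ≤ z / X ^ 2 := by
      rw [div_le_div_iff₀ (by positivity) (by positivity)]
      calc 2 * K ^ 2 * z * U ^ 3 * X ^ 2 ≤ 2 * K ^ 2 * z * (8 * (K ^ 3 * z ^ 3)) * X ^ 2 := by gcongr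
        _ = (16 * (K ^ 5 * z ^ 3)) * (z * X ^ 2) := by ring
        _ ≤ X * (z * X ^ 2) := by
          apply mul_le_mul_of_nonneg_right _ (by positivity)
          calc 16 * (K ^ 5 * z ^ 3) ≤ K * (K ^ 5 * z ^ 3) := by
                apply mul_le_mul_of_nonneg_right _ (by positivity); linarith
            _ = K ^ 6 * z ^ 3 := by ring
            _ ≤ X := hcmp 6 3 (by norm_num) (by norm_num)
        _ = _ := by ring
    calc 6 * z / X ^ 2 + 2 * K ^ 2 * z * U ^ 3 / X ^ 3 ≤ 6 * z / X ^ 2 + z / X ^ 2 := by linarith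
      _ = _ := by ring
  have hub3 : |u - β| ≤ 2 * r := by
    refine huβ.trans ?_
    have e1 : |t| * X ≤ r := by
      calc |t| * X ≤ (7 * z / X ^ 2) * X := mul_le_mul_of_nonneg_right ht3 (by positivity)
        _ = 7 * z / X := by field_simp
        _ ≤ r := by
          rw [hr]
          apply div_le_div_of_nonneg_right _ hX0.le
          calc 7 * z ≤ K * z := mul_le_mul_of_nonneg_right (by linarith) hz0.le
            _ = K ^ 1 * z ^ 1 := by ring
            _ ≤ K ^ 7 * z ^ 3 := mul_le_mul (pow_le_pow_right₀ hK1 (by norm_num))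
              (pow_le_pow_right₀ hz (by norm_num)) (by positivity) (by positivity)
    linarith
  -- the coefficient of order two is small
  have hsm2 : |am f p u 2| ≤ 1 / 8 := by
    refine hc2.trans ?_
    have e1 : 12 / K ^ 2 ≤ 1 / 16 := by
      rw [div_le_div_iff₀ (by positivity) (by norm_num)]
      nlinarith
    have e2 : K ^ 2 * z ^ 2 * U ^ 3 / X ≤ 1 / 16 := by
      rw [div_le_div_iff₀ hX0 (by norm_num)]
      calc K ^ 2 * z ^ 2 * U ^ 3 * 16 ≤ K ^ 2 * z ^ 2 * (8 * (K ^ 3 * z ^ 3)) * 16 := by gcongr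
        _ = 128 * (K ^ 5 * z ^ 5) := by ring
        _ ≤ K * (K ^ 5 * z ^ 5) := by
          apply mul_le_mul_of_nonneg_right _ (by positivity); linarith
        _ = K ^ 6 * z ^ 5 := by ring
        _ ≤ X := hcmp 6 5 (by norm_num) (by norm_num)
        _ = _ := by ring
    linarith
  have hbig := h2 η hη2 hη0 hφ
  rw [← hβ] at hbig
  have ht1' : |p - η| ≤ 1 := by rw [← ht]; linarith
  have l02 := h.lip (k := 0) (by omega) 2 hη2 ht1'
  have l11 := h.lip (k := 1) (by omega) 1 hη2 ht1'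
  have l20 := h.lip (k := 2) (by omega) 0 hη2 ht1'
  rw [← ht, ← hQ] at l02 l11 l20
  have b02 := h.bd0 (k := 0) (by omega) 2 hη2
  have b11 := h.bd0 (k := 1) (by omega) 1 hη2
  rw [← hQ] at b02 b11
  have hβU : |β| ≤ 2 * (K * z) := by linarith
  have huU2 : |u| ≤ 2 * (K * z) := huU.trans hU2
  have hdiff : |am f p u 2 - (hc f 2 0 η + hc f 1 1 η * β + hc f 0 2 η * β ^ 2)| ≤ 1 / 8 := by
    have e1 : am f p u 2 - (hc f 2 0 η + hc f 1 1 η * β + hc f 0 2 η * β ^ 2)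
        = (hc f 0 2 p - hc f 0 2 η) * u ^ 2 + hc f 0 2 η * ((u - β) * (u + β))
          + (hc f 1 1 p - hc f 1 1 η) * u + hc f 1 1 η * (u - β) + (hc f 2 0 p - hc f 2 0 η) := by
      rw [am_two]; ring
    rw [e1]
    have t1 := abs_add_le ((hc f 0 2 p - hc f 0 2 η) * u ^ 2 + hc f 0 2 η * ((u - β) * (u + β))
          + (hc f 1 1 p - hc f 1 1 η) * u + hc f 1 1 η * (u - β)) (hc f 2 0 p - hc f 2 0 η)
    have t2 := abs_add_le ((hc f 0 2 p - hc f 0 2 η) * u ^ 2 + hc f 0 2 η * ((u - β) * (u + β))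
          + (hc f 1 1 p - hc f 1 1 η) * u) (hc f 1 1 η * (u - β))
    have t3 := abs_add_le ((hc f 0 2 p - hc f 0 2 η) * u ^ 2 + hc f 0 2 η * ((u - β) * (u + β)))
          ((hc f 1 1 p - hc f 1 1 η) * u)
    have t4 := abs_add_le ((hc f 0 2 p - hc f 0 2 η) * u ^ 2) (hc f 0 2 η * ((u - β) * (u + β)))
    obtain ⟨M, hM⟩ : ∃ M, M = d * Q * |t| := ⟨_, rfl⟩
    rw [← hM] at l02 l11 l20
    have hM0 : 0 ≤ M := by rw [hM]; positivity
    have v1 : |(hc f 0 2 p - hc f 0 2 η) * u ^ 2| ≤ M * (2 * (K * z)) ^ 2 := by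
      rw [abs_mul, abs_pow]
      exact mul_le_mul l02 (pow_le_pow_left₀ (abs_nonneg _) huU2 2) (by positivity) hM0
    have v2 : |hc f 0 2 η * ((u - β) * (u + β))| ≤ Q * ((2 * r) * (4 * (K * z))) := by
      rw [abs_mul, abs_mul]
      apply mul_le_mul b02 _ (by positivity) hQ0.le
      apply mul_le_mul hub3 _ (abs_nonneg _) (by positivity)
      refine (abs_add_le _ _).trans ?_
      linarith
    have v3 : |(hc f 1 1 p - hc f 1 1 η) * u| ≤ M * (2 * (K * z)) := by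
      rw [abs_mul]
      exact mul_le_mul l11 huU2 (abs_nonneg _) hM0
    have v4 : |hc f 1 1 η * (u - β)| ≤ Q * (2 * r) := by
      rw [abs_mul]
      exact mul_le_mul b11 hub3 (abs_nonneg _) hQ0.le
    have w1 : M * (2 * (K * z)) ^ 2 + M * (2 * (K * z)) + M ≤ 1 / 16 := by
      have g1 : (2 * (K * z)) ^ 2 + 2 * (K * z) + 1 ≤ 7 * (K * z) ^ 2 := by nlinarith
      have g2 : M ≤ 7 * (K ^ 2 * z ^ 3) / X ^ 2 := by
        rw [hM]
        calc d * Q * |t| ≤ K * Q * (7 * z / X ^ 2) := by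
              gcongr; linarith
          _ = _ := by rw [hQ]; ring
      calc M * (2 * (K * z)) ^ 2 + M * (2 * (K * z)) + M
          = M * ((2 * (K * z)) ^ 2 + 2 * (K * z) + 1) := by ring
        _ ≤ (7 * (K ^ 2 * z ^ 3) / X ^ 2) * (7 * (K * z) ^ 2) :=
          mul_le_mul g2 g1 (by positivity) (by positivity)
        _ = 49 * (K ^ 4 * z ^ 5) / X ^ 2 := by ring
        _ ≤ 1 / 16 := by
          rw [div_le_div_iff₀ (by positivity) (by norm_num)]
          calc 49 * (K ^ 4 * z ^ 5) * 16 = 784 * (K ^ 4 * z ^ 5) := by ring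
            _ ≤ (K * K) * (K ^ 4 * z ^ 5) := by
              apply mul_le_mul_of_nonneg_right _ (by positivity)
              nlinarith
            _ = K ^ 6 * z ^ 5 := by ring
            _ ≤ K ^ 32 * z ^ 12 := mul_le_mul (pow_le_pow_right₀ hK1 (by norm_num))
                (pow_le_pow_right₀ hz (by norm_num)) (by positivity) (by positivity)
            _ = (K ^ 16 * z ^ 6) ^ 2 := by ring
            _ ≤ X ^ 2 := pow_le_pow_left₀ (by positivity) hX 2
            _ = _ := by ring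
    have w2 : Q * ((2 * r) * (4 * (K * z))) + Q * (2 * r) ≤ 1 / 16 := by
      calc Q * ((2 * r) * (4 * (K * z))) + Q * (2 * r) ≤ Q * ((2 * r) * (4 * (K * z)))
            + Q * (2 * r) * (K * z) := by
            have : Q * (2 * r) * 1 ≤ Q * (2 * r) * (K * z) :=
              mul_le_mul_of_nonneg_left hKz1 (by positivity)
            linarith
        _ = 10 * (K ^ 9 * z ^ 6) / X := by rw [hQ, hr]; ring
        _ ≤ 1 / 16 := by
          rw [div_le_div_iff₀ hX0 (by norm_num)]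
          calc 10 * (K ^ 9 * z ^ 6) * 16 = 160 * (K ^ 9 * z ^ 6) := by ring
            _ ≤ K * (K ^ 9 * z ^ 6) := by
              apply mul_le_mul_of_nonneg_right _ (by positivity); linarith
            _ = K ^ 10 * z ^ 6 := by ring
            _ ≤ X := hcmp 10 6 (by norm_num) (by norm_num)
            _ = _ := by ring
    linarith
  have h9 := abs_sub_abs_le_abs_sub (hc f 2 0 η + hc f 1 1 η * β + hc f 0 2 η * β ^ 2) (am f p u 2)
  rw [abs_sub_comm] at h9
  linarith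

end Pool.Agent.H322R2
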