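import Pool.Agent.H322R2.WMed

/-!
Atypical coefficient vectors are rare, with a parameter.
-/

open Polynomial Finset

namespace Pool.Agent.H322R2

variable {d : ℕ}

open Classical in
/-- the first typical condition fails rarely -/
theorem card_T1s (hd : 4 ≤ d) {H : ℕ} {z s : ℝ} (hz : 1 ≤ z) (hH : z ^ 2 = H) (hs1 : z ≤ s)
    (hs2 : s ≤ z ^ 2) :
    (((Bx ↥(Ix d) H).filter (fun c => ¬ ZT1 (fR c) s)).card : ℝ) * (2 * H + 1) ^ 2
      ≤ (45 * KZ d ^ 4 * s ^ 2) * (Bx ↥(Ix d) H).card := by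
  have hz0 : 0 < z := by linarith
  have hs0 : 0 < s := by linarith
  obtain ⟨q, hq⟩ : ∃ q, q = z ^ 2 / s := ⟨_, rfl⟩
  have hq1 : 1 ≤ q := by rw [hq, le_div_iff₀ hs0, one_mul]; exact hs2
  have hq0 : 0 < q := by linarith
  have hqs : q * s = z ^ 2 := by rw [hq]; field_simp
  obtain ⟨m, hm⟩ : ∃ m : ℕ, m = ⌈q⌉₊ := ⟨_, rfl⟩
  have hm1 : q ≤ m := by rw [hm]; exact Nat.le_ceil q
  have hm2 : (m : ℝ) ≤ 2 * q := by
    have := Nat.ceil_lt_add_one (show 0 ≤ q by linarith)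
    rw [← hm] at this
    linarith
  have hm0 : (0 : ℝ) < m := by linarith
  obtain ⟨K, hK⟩ : ∃ K, K = KZ d := ⟨_, rfl⟩
  have hK300 : 300 ≤ K := by
    rw [hK]; unfold KZ
    have : (1 : ℝ) ≤ 16 ^ d := one_le_pow₀ (by norm_num)
    linarith
  have hKd : (d : ℝ) + 1 ≤ K := by
    have h1 := KZ_d d
    have h2 : (1 : ℝ) ≤ (d : ℝ) + 1 := by
      have : (0 : ℝ) ≤ d := by positivity
      linarith
    have h3 : (d : ℝ) + 1 ≤ ((d : ℝ) + 1) ^ 4 := by
      calc (d : ℝ) + 1 = ((d : ℝ) + 1) ^ 1 := (pow_one _).symm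
        _ ≤ _ := pow_le_pow_right₀ h2 (by norm_num)
    rw [hK]; linarith
  have hd0 : (0 : ℝ) ≤ d := by positivity
  obtain ⟨u, hu⟩ : ∃ u, u = s / q := ⟨_, rfl⟩
  -- `u = s ^ 2 / z ^ 2`
  have hu1 : 1 ≤ u := by
    rw [hu, le_div_iff₀ hq0, one_mul, hq, div_le_iff₀ hs0]
    calc z ^ 2 = z * z := by ring
      _ ≤ s * s := mul_le_mul hs1 hs1 hz0.le hs0.le
  have huq : u * q = s := by rw [hu]; field_simp
  obtain ⟨W, hW⟩ : ∃ W : ℤ → Finset (↥(Ix d) → ℤ), W = fun j : ℤ => (Bx ↥(Ix d) H).filter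
    (fun c => |(fR c 0).eval ((j : ℝ) / m)| ≤ K ^ 2 * u ∧ |hc (fR c) 0 1 ((j : ℝ) / m)| ≤ K ^ 2 * s) :=
    ⟨_, rfl⟩
  have hsub : (Bx ↥(Ix d) H).filter (fun c => ¬ ZT1 (fR c) s) ⊆ (Icc (-(m : ℤ)) m).biUnion W := by
    intro c hcm
    rw [Finset.mem_filter] at hcm
    obtain ⟨hcB, hnT⟩ := hcm
    have hZ := WH_fR hd hcB hz hH
    rw [← hK] at hZ
    unfold ZT1 at hnT
    push Not at hnT
    obtain ⟨t, ht1, ht2, ht3⟩ := hnT
    obtain ⟨j, hj⟩ : ∃ j : ℤ, j = round (t * m) := ⟨_, rfl⟩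
    have hjb : |t * m - j| ≤ 1 / 2 := by rw [hj]; exact abs_sub_round _
    have htj : |(j : ℝ) / m - t| ≤ 1 / q := by
      have e1 : (j : ℝ) / m - t = -((t * m - j) / m) := by field_simp; ring
      rw [e1, abs_neg, abs_div, abs_of_pos hm0, div_le_div_iff₀ hm0 hq0]
      calc |t * m - j| * q ≤ (1 / 2) * m := mul_le_mul hjb hm1 hq0.le (by norm_num)
        _ ≤ 1 * m := by linarith
    have hjm : |j| ≤ (m : ℤ) := by
      have e1 : |(j : ℝ)| ≤ m + 1 / 2 := by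
        have e2 : (j : ℝ) = t * m - (t * m - j) := by ring
        rw [e2]
        refine (abs_sub _ _).trans ?_
        rw [abs_mul, abs_of_pos hm0]
        have : |t| * m ≤ 1 * m := mul_le_mul_of_nonneg_right ht1 hm0.le
        linarith
      have e3 : ((|j| : ℤ) : ℝ) < (((m : ℤ) + 1 : ℤ) : ℝ) := by
        push_cast
        linarith
      have e4 : |j| < (m : ℤ) + 1 := by exact_mod_cast e3
      omega
    rw [Finset.mem_biUnion]
    refine ⟨j, ?_, ?_⟩
    · rw [Finset.mem_Icc]; exact abs_le.1 hjm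
    rw [hW]
    simp only
    rw [Finset.mem_filter]
    have hw1 : |(j : ℝ) / m - t| ≤ 1 := htj.trans (by rw [div_le_one hq0]; exact hq1)
    have ht2' : |t| ≤ 2 := by linarith
    obtain ⟨w, hw⟩ : ∃ w, w = |(j : ℝ) / m - t| := ⟨_, rfl⟩
    have l1 := hZ.lin (k := 0) (by omega) ht2' hw1
    have l2 := hZ.lip (k := 0) (by omega) 1 ht2' hw1
    rw [← hw] at l1 l2 htj hw1
    have hw0 : 0 ≤ w := by rw [hw]; exact abs_nonneg _
    have hwq : w * q ≤ 1 := by
      rw [le_div_iff₀ hq0] at htj; exact htj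
    have hws : s * w ≤ u := by
      calc s * w = u * (w * q) := by rw [← huq]; ring
        _ ≤ u * 1 := mul_le_mul_of_nonneg_left hwq (by linarith)
        _ = u := mul_one _
    have hwz : z ^ 2 * w ≤ s := by
      calc z ^ 2 * w = s * (w * q) := by rw [← hqs]; ring
        _ ≤ s * 1 := mul_le_mul_of_nonneg_left hwq hs0.le
        _ = s := mul_one _
    refine ⟨hcB, ?_, ?_⟩
    · have e1 : |(fR c 0).eval ((j : ℝ) / m)| ≤ |(fR c 0).eval ((j : ℝ) / m) - (fR c 0).eval t -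
          hc (fR c) 0 1 t * ((j : ℝ) / m - t)| + (|(fR c 0).eval t| +
          |hc (fR c) 0 1 t * ((j : ℝ) / m - t)|) := by
        have e2 : (fR c 0).eval ((j : ℝ) / m) = ((fR c 0).eval ((j : ℝ) / m) - (fR c 0).eval t -
          hc (fR c) 0 1 t * ((j : ℝ) / m - t)) + ((fR c 0).eval t +
          hc (fR c) 0 1 t * ((j : ℝ) / m - t)) := by ring
        calc |(fR c 0).eval ((j : ℝ) / m)| = |((fR c 0).eval ((j : ℝ) / m) - (fR c 0).eval t -
          hc (fR c) 0 1 t * ((j : ℝ) / m - t)) + ((fR c 0).eval t +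
          hc (fR c) 0 1 t * ((j : ℝ) / m - t))| := by rw [← e2]
          _ ≤ _ := (abs_add_le _ _).trans (add_le_add le_rfl (abs_add_le _ _))
      rw [abs_mul (hc (fR c) 0 1 t), ← hw] at e1
      have e3 : |hc (fR c) 0 1 t| * w ≤ 2 * u := by
        calc |hc (fR c) 0 1 t| * w ≤ (2 * s) * w := mul_le_mul_of_nonneg_right ht3.le hw0
          _ = 2 * (s * w) := by ring
          _ ≤ 2 * u := by linarith
      have e4 : d * (K * z ^ 2) * w ^ 2 ≤ d * K * u := by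
        calc d * (K * z ^ 2) * w ^ 2 = d * K * ((z ^ 2 * w) * w) := by ring
          _ ≤ d * K * (s * w) := by gcongr
          _ ≤ d * K * u := by gcongr
      calc |(fR c 0).eval ((j : ℝ) / m)| ≤ d * K * u + (1 * u + 2 * u) := by linarith
        _ = (d * K + 3) * u := by ring
        _ ≤ K ^ 2 * u := by
          apply mul_le_mul_of_nonneg_right _ (by linarith)
          nlinarith
    · have e1 : |hc (fR c) 0 1 ((j : ℝ) / m)| ≤ |hc (fR c) 0 1 ((j : ℝ) / m) - hc (fR c) 0 1 t|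
          + |hc (fR c) 0 1 t| := by
        have e2 : hc (fR c) 0 1 ((j : ℝ) / m) = (hc (fR c) 0 1 ((j : ℝ) / m) - hc (fR c) 0 1 t)
          + hc (fR c) 0 1 t := by ring
        calc |hc (fR c) 0 1 ((j : ℝ) / m)| = |(hc (fR c) 0 1 ((j : ℝ) / m) - hc (fR c) 0 1 t)
          + hc (fR c) 0 1 t| := by rw [← e2]
          _ ≤ _ := abs_add_le _ _
      have e3 : d * (K * z ^ 2) * w ≤ d * K * s := by
        calc d * (K * z ^ 2) * w = d * K * (z ^ 2 * w) := by ring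
          _ ≤ d * K * s := by gcongr
      calc |hc (fR c) 0 1 ((j : ℝ) / m)| ≤ d * K * s + 2 * s := by linarith
        _ = (d * K + 2) * s := by ring
        _ ≤ K ^ 2 * s := by
          apply mul_le_mul_of_nonneg_right _ hs0.le
          nlinarith
  obtain ⟨B, hB⟩ : ∃ B : ℝ, B = (Bx ↥(Ix d) H).card := ⟨_, rfl⟩
  rw [← hB, ← hK]
  have hB0 : 0 ≤ B := by rw [hB]; positivity
  have hHp : (0 : ℝ) < 2 * H + 1 := by positivity
  obtain ⟨M, hM⟩ : ∃ M : ℝ, M = 9 * K ^ 4 * u * s * B / (2 * H + 1) ^ 2 := ⟨_, rfl⟩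
  have hWc : ∀ j ∈ Icc (-(m : ℤ)) m, ((W j).card : ℝ) ≤ M := by
    intro j _
    rw [hM, le_div_iff₀ (by positivity), hW]
    have h1 := card_dbl (d := d) (by omega) H ((j : ℝ) / m) (B1 := K ^ 2 * u) (B2 := K ^ 2 * s)
      (by positivity) (by positivity)
    rw [← hB] at h1
    refine h1.trans ?_
    apply mul_le_mul_of_nonneg_right _ hB0
    have hK1 : 1 ≤ K ^ 2 := by nlinarith
    have hKu1 : 1 ≤ K ^ 2 * u := one_le_mul_of_one_le_of_one_le hK1 hu1
    have hKs1 : 1 ≤ K ^ 2 * s := one_le_mul_of_one_le_of_one_le hK1 (hz.trans hs1)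
    calc (2 * (K ^ 2 * u) + 1) * (2 * (K ^ 2 * s) + 1) ≤ (3 * (K ^ 2 * u)) * (3 * (K ^ 2 * s)) := by
          apply mul_le_mul _ _ (by positivity) (by positivity) <;> linarith
      _ = _ := by ring
  have h1 := card_biUnion_real (Icc (-(m : ℤ)) m) W M hWc
  have h2 : ((((Bx ↥(Ix d) H).filter (fun c => ¬ ZT1 (fR c) s)).card : ℕ) : ℝ) ≤
      (((Icc (-(m : ℤ)) m).biUnion W).card : ℕ) := by exact_mod_cast Finset.card_le_card hsub
  have h3 : (((Icc (-(m : ℤ)) m).card : ℕ) : ℝ) ≤ 5 * q := by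
    rw [card_Icc_H]; push_cast; linarith
  have hM0 : 0 ≤ M := by rw [hM]; positivity
  calc _ ≤ (5 * q * M) * (2 * H + 1) ^ 2 := by
        apply mul_le_mul_of_nonneg_right _ (by positivity)
        exact h2.trans (h1.trans (mul_le_mul_of_nonneg_right h3 hM0))
    _ = 45 * K ^ 4 * (u * q) * s * B := by rw [hM]; field_simp; ring
    _ = 45 * K ^ 4 * s ^ 2 * B := by rw [huq]; ring

end Pool.Agent.H322R2
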