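import Pool.Agent.H322R2.Norms

/-!
Univariate Wronskians: a rational combination of few integer polynomials of small length
cannot vanish to a high order at a large integer.
-/

open Polynomial Finset

namespace Pool.Agent.H322R2

lemma ratio_const (f g : ℚ[X]) (hg : g ≠ 0) (h : g * derivative f = f * derivative g) :
    ∃ c : ℚ, f = C c * g := by
  classical
  set d := EuclideanDomain.gcd f g with hd
  have hd0 : d ≠ 0 := by
    intro h0
    exact hg (EuclideanDomain.gcd_eq_zero_iff.1 h0).2
  obtain ⟨f1, hf1⟩ := EuclideanDomain.gcd_dvd_left f g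
  obtain ⟨g1, hg1⟩ := EuclideanDomain.gcd_dvd_right f g
  rw [← hd] at hf1 hg1
  have hcop : IsCoprime f1 g1 := by
    obtain ⟨a, b, hab⟩ : ∃ a b, d = f * a + g * b :=
      ⟨_, _, EuclideanDomain.gcd_eq_gcd_ab f g⟩
    refine ⟨a, b, ?_⟩
    have : d * (a * f1 + b * g1) = d * 1 := by
      rw [mul_one]
      calc d * (a * f1 + b * g1) = (d * f1) * a + (d * g1) * b := by ring
        _ = f * a + g * b := by rw [← hf1, ← hg1]
        _ = d := hab.symm
    exact mul_left_cancel₀ hd0 this
  have hw : wronskian f1 g1 = 0 := by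
    have h2 : d ^ 2 * wronskian f1 g1 = 0 := by
      have h3 : f * derivative g - derivative f * g = 0 := by rw [← h]; ring
      rw [hf1, hg1] at h3
      simp only [derivative_mul] at h3
      unfold wronskian
      linear_combination h3
    rcases mul_eq_zero.1 h2 with h3 | h3
    · exact absurd (pow_eq_zero_iff (two_ne_zero)|>.1 h3) hd0
    · exact h3
  have hw2 := (IsCoprime.wronskian_eq_zero_iff hcop).1 hw
  have hf2 := natDegree_eq_zero_of_derivative_eq_zero hw2.1
  have hg2 := natDegree_eq_zero_of_derivative_eq_zero hw2.2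
  rw [natDegree_eq_zero] at hf2 hg2
  obtain ⟨x, hx⟩ := hf2
  obtain ⟨y, hy⟩ := hg2
  have hy0 : y ≠ 0 := by
    rintro rfl
    apply hg
    rw [hg1, ← hy]; simp
  refine ⟨x / y, ?_⟩
  rw [hf1, hg1, ← hx, ← hy]
  have : C (x / y) * C y = (C x : ℚ[X]) := by
    rw [← C_mul, div_mul_cancel₀ _ hy0]
  rw [← this]; ring

lemma dep_of_rel {r : ℕ} (f : Fin r → ℚ[X]) : ∀ s : ℕ, ∀ v : Fin r → ℚ[X], v ≠ 0 →
    (univ.filter (fun j => v j ≠ 0)).card ≤ s →
    (∀ i < s, ∑ j, v j * derivative^[i] (f j) = 0) → ¬ LinearIndependent ℚ f := by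
  intro s
  induction s with
  | zero =>
    intro v hv hcard _
    exfalso
    apply hv
    have h0 : (univ.filter (fun j => v j ≠ 0)) = ∅ := Finset.card_eq_zero.1 (Nat.le_zero.1 hcard)
    funext j
    by_contra hj
    have : j ∈ (univ.filter (fun j => v j ≠ 0)) := by
      rw [Finset.mem_filter]; exact ⟨Finset.mem_univ _, hj⟩
    rw [h0] at this
    exact absurd this (Finset.notMem_empty _)
  | succ s ih =>
    intro v hv hcard hrel
    obtain ⟨j0, hj0⟩ : ∃ j0, v j0 ≠ 0 := by
      by_contra hcon
      push_neg at hcon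
      exact hv (funext hcon)
    set v' : Fin r → ℚ[X] := fun j => v j0 * derivative (v j) - v j * derivative (v j0) with hv'
    by_cases hz : v' = 0
    · have h1 : ∀ j, ∃ c : ℚ, v j = C c * v j0 := by
        intro j
        apply ratio_const _ _ hj0
        have := congrFun hz j
        simp only [hv', Pi.zero_apply] at this
        linear_combination this
      choose c hc using h1
      have hc0 : c j0 = 1 := by
        have := hc j0
        have h2 : (C (c j0) - 1) * v j0 = 0 := by linear_combination -this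
        rcases mul_eq_zero.1 h2 with h3 | h3
        · have h4 : C (c j0) = (C 1 : ℚ[X]) := by rw [C_1]; linear_combination h3
          exact C_injective h4
        · exact absurd h3 hj0
      intro hli
      rw [Fintype.linearIndependent_iff] at hli
      have h2 : ∑ j, c j • f j = 0 := by
        have h3 := hrel 0 (Nat.succ_pos s)
        simp only [Function.iterate_zero, id_eq] at h3
        have h4 : v j0 * ∑ j, c j • f j = 0 := by
          rw [← h3, Finset.mul_sum]
          apply Finset.sum_congr rfl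
          intro j _
          conv_rhs => rw [hc j]
          rw [smul_eq_C_mul]; ring
        rcases mul_eq_zero.1 h4 with h5 | h5
        · exact absurd h5 hj0
        · exact h5
      have := hli c h2 j0
      rw [hc0] at this
      exact one_ne_zero this
    · apply ih v' hz
      · have hsub : (univ.filter (fun j => v' j ≠ 0)) ⊆ (univ.filter (fun j => v j ≠ 0)).erase j0 := by
          intro j hj
          rw [Finset.mem_filter] at hj
          rw [Finset.mem_erase, Finset.mem_filter]
          refine ⟨?_, Finset.mem_univ _, ?_⟩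
          · rintro rfl
            apply hj.2
            simp only [hv']; ring
          · intro h0
            apply hj.2
            simp only [hv', h0]; simp
        have h1 := Finset.card_le_card hsub
        rw [Finset.card_erase_of_mem (by rw [Finset.mem_filter]; exact ⟨Finset.mem_univ _, hj0⟩)] at h1
        omega
      · intro i hi
        have e1 := hrel i (by omega)
        have e2 := hrel (i + 1) (by omega)
        have e3 : derivative (∑ j, v j * derivative^[i] (f j)) = 0 := by rw [e1, derivative_zero]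
        rw [derivative_sum] at e3
        simp only [derivative_mul, Finset.sum_add_distrib] at e3
        have e4 : ∑ j, v j * derivative (derivative^[i] (f j)) = 0 := by
          rw [← e2]
          apply Finset.sum_congr rfl
          intro j _
          rw [Function.iterate_succ_apply']
        rw [e4, add_zero] at e3
        have e5 : ∑ j, v' j * derivative^[i] (f j)
            = v j0 * ∑ j, derivative (v j) * derivative^[i] (f j)
              - derivative (v j0) * ∑ j, v j * derivative^[i] (f j) := by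
          rw [Finset.mul_sum, Finset.mul_sum, ← Finset.sum_sub_distrib]
          apply Finset.sum_congr rfl
          intro j _
          simp only [hv']; ring
        rw [e5, e3, e1]; ring

/-- Wronskian matrix -/
noncomputable def wmat {R : Type*} [CommRing R] {r : ℕ} (f : Fin r → R[X]) :
    Matrix (Fin r) (Fin r) R[X] :=
  Matrix.of fun i j => derivative^[(i : ℕ)] (f j)

lemma wmat_det_ne_zero {r : ℕ} (f : Fin r → ℚ[X]) (hf : LinearIndependent ℚ f) :
    (wmat f).det ≠ 0 := by
  intro h0
  obtain ⟨v, hv0, hv⟩ := Matrix.exists_mulVec_eq_zero_iff.2 h0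
  refine dep_of_rel f r v hv0 ?_ ?_ hf
  · refine (Finset.card_le_univ _).trans ?_
    simp
  · intro i hi
    have := congrFun hv ⟨i, hi⟩
    simp only [Matrix.mulVec, dotProduct, wmat, Matrix.of_apply, Pi.zero_apply] at this
    rw [← this]
    apply Finset.sum_congr rfl
    intro j _
    ring

lemma abs_pow_le_of_dvd (W : ℤ[X]) (hW : W ≠ 0) (a : ℤ) (ha : a ≠ 0) (s : ℕ)
    (h : (X - C a) ^ s ∣ W) : |(a : ℝ)| ^ s ≤ pn zn W := by
  obtain ⟨Q, hQ⟩ := h
  have hQ0 : Q ≠ 0 := by
    rintro rfl
    apply hW
    rw [hQ, mul_zero]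
  have h1 : W.trailingCoeff = ((X - C a) ^ s).trailingCoeff * Q.trailingCoeff := by
    rw [hQ, trailingCoeff_mul]
  have h2 : ((X - C a) ^ s).trailingCoeff = (-a) ^ s := by
    have h3 : ((X - C a) ^ s).coeff 0 = (-a) ^ s := by
      rw [coeff_zero_eq_eval_zero]; simp
    rw [← h3]
    rw [trailingCoeff]
    have : ((X - C a) ^ s).natTrailingDegree = 0 := by
      rw [natTrailingDegree_eq_zero]
      right
      rw [h3]
      exact pow_ne_zero _ (neg_ne_zero.2 ha)
    rw [this]
  have h4 : |((W.trailingCoeff : ℤ) : ℝ)| ≤ pn zn W := by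
    have := coeff_le_pn zn W W.natTrailingDegree
    exact this
  have h5 : (1 : ℝ) ≤ |((Q.trailingCoeff : ℤ) : ℝ)| := by
    have : Q.trailingCoeff ≠ 0 := by
      rwa [Ne, trailingCoeff_eq_zero]
    have h6 := Int.one_le_abs this
    exact_mod_cast h6
  calc |(a : ℝ)| ^ s = |(a : ℝ)| ^ s * 1 := by ring
    _ ≤ |(a : ℝ)| ^ s * |((Q.trailingCoeff : ℤ) : ℝ)| := by
        apply mul_le_mul_of_nonneg_left h5 (by positivity)
    _ = |((W.trailingCoeff : ℤ) : ℝ)| := by
        rw [h1, h2]; push_cast; rw [abs_mul, abs_pow, abs_neg]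
    _ ≤ _ := h4

lemma pn_iterate_derivative_le {R : Type*} [CommRing R] (N : RingSeminorm R) (p : R[X]) (E : ℕ)
    (hE : p.natDegree ≤ E) (i : ℕ) :
    pn N (derivative^[i] p) ≤ (E : ℝ) ^ i * pn N p := by
  induction i with
  | zero => simp
  | succ i ih =>
    rw [Function.iterate_succ_apply']
    refine (pn_derivative_le N _).trans ?_
    have h1 : (derivative^[i] p).natDegree ≤ E :=
      (natDegree_iterate_derivative p i).trans (by omega)
    calc ((derivative^[i] p).natDegree : ℝ) * pn N (derivative^[i] p)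
        ≤ (E : ℝ) * ((E : ℝ) ^ i * pn N p) := by
          apply mul_le_mul _ ih (apply_nonneg _ _) (Nat.cast_nonneg _)
          exact_mod_cast h1
      _ = _ := by ring

/-- length bound for determinants -/
lemma det_le {B : Type*} [CommRing B] (M : RingSeminorm B) (h1 : M 1 ≤ 1) {n : Type*} [Fintype n]
    [DecidableEq n] (T : Matrix n n B) (b : ℝ) (hT : ∀ i j, M (T i j) ≤ b) :
    M T.det ≤ (Fintype.card n).factorial * b ^ (Fintype.card n) := by
  rw [Matrix.det_apply]
  refine (seminorm_sum_le M _ _).trans ?_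
  have : ∀ σ ∈ (univ : Finset (Equiv.Perm n)), M (Equiv.Perm.sign σ • ∏ i, T (σ i) i)
      ≤ b ^ (Fintype.card n) := by
    intro σ _
    have h2 : M (Equiv.Perm.sign σ • ∏ i, T (σ i) i) = M (∏ i, T (σ i) i) := by
      rcases Int.units_eq_one_or (Equiv.Perm.sign σ) with h | h
      · rw [h, one_smul]
      · rw [h]
        simp [map_neg_eq_map]
    rw [h2]
    refine (seminorm_prod_le M h1 _ _).trans ?_
    refine (Finset.prod_le_prod (fun i _ => apply_nonneg M _) (fun i _ => hT (σ i) i)).trans ?_
    rw [Finset.prod_const, Finset.card_univ]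
  refine (Finset.sum_le_sum this).trans ?_
  rw [Finset.sum_const, Finset.card_univ, Fintype.card_perm, nsmul_eq_mul]

lemma zn_one : zn 1 ≤ 1 := by simp

lemma pnz_one : pn zn (1 : ℤ[X]) ≤ 1 := by rw [pn_one]; simp

/-- Main multiplicity lemma. -/
theorem mult_bound {ι : Type*} [Fintype ι] (f : ι → ℤ[X]) (c : ι → ℤ)
    (h : ℝ) (hh : 1 ≤ h) (E : ℕ) (hE : 1 ≤ E) (hfE : ∀ i, (f i).natDegree ≤ E)
    (hfh : ∀ i, pn zn (f i) ≤ h) (hne : ∑ i, C (c i) * f i ≠ 0) (a : ℤ) (ha : a ≠ 0) (o : ℕ)
    (hdvd : (X - C a) ^ o ∣ ∑ i, C (c i) * f i) :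
    |(a : ℝ)| ^ o ≤ |(a : ℝ)| ^ (Fintype.card ι) *
      ((Fintype.card ι).factorial * ((E : ℝ) ^ (Fintype.card ι) * h) ^ (Fintype.card ι)) := by
  classical
  set R := Fintype.card ι with hR
  have ha1 : (1 : ℝ) ≤ |(a : ℝ)| := by
    have := Int.one_le_abs ha
    exact_mod_cast this
  have hE1 : (1 : ℝ) ≤ (E : ℝ) := by exact_mod_cast hE
  -- rational versions
  set g : ι → ℚ[X] := fun i => (f i).map (Int.castRingHom ℚ) with hg
  obtain ⟨κ, e, he, hspan, hli⟩ := exists_linearIndependent' ℚ g
  haveI : Finite κ := Finite.of_injective e he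
  haveI : Fintype κ := Fintype.ofFinite κ
  set r := Fintype.card κ with hr
  have hrR : r ≤ R := Fintype.card_le_of_injective e he
  let eq : Fin r ≃ κ := (Fintype.equivFin κ).symm
  set F0 : ℤ[X] := ∑ i, C (c i) * f i with hF0
  set G0 : ℚ[X] := F0.map (Int.castRingHom ℚ) with hG0
  have hG0sum : G0 = ∑ i, (c i : ℚ) • g i := by
    rw [hG0, hF0, Polynomial.map_sum]
    apply Finset.sum_congr rfl
    intro i _
    rw [Polynomial.map_mul, map_C, smul_eq_C_mul]
    simp [hg]
  have hmem : G0 ∈ Submodule.span ℚ (Set.range (g ∘ e)) := by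
    rw [hspan, hG0sum]
    apply Submodule.sum_mem
    intro i _
    exact Submodule.smul_mem _ _ (Submodule.subset_span ⟨i, rfl⟩)
  rw [Submodule.mem_span_range_iff_exists_fun] at hmem
  obtain ⟨c', hc'⟩ := hmem
  have hG0ne : G0 ≠ 0 := by
    rw [hG0, Ne, Polynomial.map_eq_zero_iff (RingHom.injective_int _)]
    exact hne
  obtain ⟨k0, hk0⟩ : ∃ k, c' k ≠ 0 := by
    by_contra hcon
    push_neg at hcon
    apply hG0ne
    rw [← hc']
    apply Finset.sum_eq_zero
    intro k _
    rw [hcon k, zero_smul]
  -- Wronskian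
  set F1 : Fin r → ℤ[X] := fun j => f (e (eq j)) with hF1
  set G1 : Fin r → ℚ[X] := fun j => g (e (eq j)) with hG1
  have hG1li : LinearIndependent ℚ G1 := by
    have : G1 = (g ∘ e) ∘ eq := rfl
    rw [this]
    exact hli.comp _ eq.injective
  have hdetne := wmat_det_ne_zero G1 hG1li
  have hmap : (wmat G1).det = ((wmat F1).det).map (Int.castRingHom ℚ) := by
    rw [← coe_mapRingHom, RingHom.map_det]
    congr 1
    ext1 i j
    simp only [wmat, Matrix.of_apply, RingHom.mapMatrix_apply, Matrix.map_apply, hG1, hF1, hg,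
      coe_mapRingHom]
    rw [iterate_derivative_map]
  have hWne : (wmat F1).det ≠ 0 := by
    intro h0
    rw [hmap, h0] at hdetne
    simp at hdetne
  -- divisibility of wronskian
  set j0 : Fin r := eq.symm k0 with hj0
  have hdvdQ : (X - C (a : ℚ)) ^ o ∣ G0 := by
    have := Polynomial.map_dvd (Int.castRingHom ℚ) hdvd
    simpa [Polynomial.map_pow, Polynomial.map_sub, map_X, map_C] using this
  have hrep : C (c' k0) * (wmat G1).det
      = ((wmat G1).updateCol j0 (fun i => derivative^[(i : ℕ)] G0)).det := by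
    have h1 : (fun i : Fin r => derivative^[(i : ℕ)] G0)
        = fun i => ∑ j : Fin r, C (c' (eq j)) * (wmat G1) i j := by
      funext i
      rw [← hc']
      rw [iterate_derivative_sum, ← Equiv.sum_comp eq]
      apply Finset.sum_congr rfl
      intro j _
      rw [iterate_derivative_smul, smul_eq_C_mul]
      simp [wmat, hG1]
    rw [h1]
    have h2 : (fun i : Fin r => ∑ j : Fin r, C (c' (eq j)) * (wmat G1) i j)
        = ∑ j : Fin r, C (c' (eq j)) • (fun i => (wmat G1) i j) := by
      funext i
      simp [Finset.sum_apply]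
    rw [h2]
    have h3 := Matrix.det_updateCol_sum (wmat G1) j0 (fun j => C (c' (eq j)))
    have h4 : (fun k => ∑ x, (fun j => C (c' (eq j))) x • (wmat G1) k x)
        = ∑ j : Fin r, C (c' (eq j)) • (fun i => (wmat G1) i j) := by
      funext i
      simp [Finset.sum_apply]
    rw [← h4, h3]
    simp [hj0]
  have hdiv2 : (X - C (a : ℚ)) ^ (o - r) ∣ (wmat G1).det := by
    have h5 : (X - C (a : ℚ)) ^ (o - r) ∣ C (c' k0) * (wmat G1).det := by
      rw [hrep, Matrix.det_apply]
      apply Finset.dvd_sum
      intro σ _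
      have h6 : (X - C (a : ℚ)) ^ (o - r) ∣ ∏ i, ((wmat G1).updateCol j0
          (fun i => derivative^[(i : ℕ)] G0)) (σ i) i := by
        refine dvd_trans ?_ (Finset.dvd_prod_of_mem _ (Finset.mem_univ j0))
        rw [Matrix.updateCol_self]
        refine dvd_trans ?_ (pow_sub_dvd_iterate_derivative_of_pow_dvd ((σ j0 : Fin r) : ℕ) hdvdQ)
        apply pow_dvd_pow
        have := (σ j0).2
        omega
      rcases Int.units_eq_one_or (Equiv.Perm.sign σ) with h | h
      · rw [h, one_smul]; exact h6
      · rw [h]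
        simpa using h6
    have hu : IsUnit (C (c' k0) : ℚ[X]) := isUnit_C.2 (isUnit_iff_ne_zero.2 hk0)
    exact (hu.dvd_mul_left).1 h5
  have hdiv3 : (X - C a) ^ (o - r) ∣ (wmat F1).det := by
    rw [hmap] at hdiv2
    have h7 : ((X - C a) ^ (o - r)).map (Int.castRingHom ℚ) = (X - C (a : ℚ)) ^ (o - r) := by
      simp [Polynomial.map_pow, Polynomial.map_sub, map_X, map_C]
    rw [← h7] at hdiv2
    exact (map_dvd_map _ (RingHom.injective_int _) ((monic_X_sub_C a).pow _)).1 hdiv2
  have hb1 := abs_pow_le_of_dvd _ hWne a ha _ hdiv3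
  have hb2 : pn zn (wmat F1).det ≤ r.factorial * ((E : ℝ) ^ r * h) ^ r := by
    have := det_le (pn zn) pnz_one (wmat F1) ((E : ℝ) ^ r * h) (by
      intro i j
      simp only [wmat, Matrix.of_apply]
      refine (pn_iterate_derivative_le zn _ E (hfE _) _).trans ?_
      apply mul_le_mul _ (hfh _) (apply_nonneg _ _) (by positivity)
      exact pow_le_pow_right₀ hE1 (by have := i.2; omega))
    simpa using this
  have hb3 : (r.factorial : ℝ) * ((E : ℝ) ^ r * h) ^ r ≤ R.factorial * ((E : ℝ) ^ R * h) ^ R := by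
    have h8 : (r.factorial : ℝ) ≤ R.factorial := by exact_mod_cast Nat.factorial_le hrR
    have h9 : ((E : ℝ) ^ r * h) ≤ (E : ℝ) ^ R * h := by
      apply mul_le_mul_of_nonneg_right (pow_le_pow_right₀ hE1 hrR) (by linarith)
    have h10 : (1 : ℝ) ≤ (E : ℝ) ^ R * h := by
      have := one_le_pow₀ hE1 (n := R)
      nlinarith
    calc (r.factorial : ℝ) * ((E : ℝ) ^ r * h) ^ r
        ≤ R.factorial * ((E : ℝ) ^ R * h) ^ r := by
          apply mul_le_mul h8 _ (by positivity) (by positivity)
          apply pow_le_pow_left₀ (by positivity) h9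
      _ ≤ _ := by
          apply mul_le_mul_of_nonneg_left _ (by positivity)
          exact pow_le_pow_right₀ h10 hrR
  have hb4 : |(a : ℝ)| ^ o ≤ |(a : ℝ)| ^ R * |(a : ℝ)| ^ (o - r) := by
    rw [← pow_add]
    exact pow_le_pow_right₀ ha1 (by omega)
  calc |(a : ℝ)| ^ o ≤ |(a : ℝ)| ^ R * |(a : ℝ)| ^ (o - r) := hb4
    _ ≤ |(a : ℝ)| ^ R * (R.factorial * ((E : ℝ) ^ R * h) ^ R) := by
        apply mul_le_mul_of_nonneg_left _ (by positivity)
        exact hb1.trans (hb2.trans hb3)

end Pool.Agent.H322R2
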