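import Pool.Agent.H322R2.YCol
import Pool.Agent.H322R2.DFin

/-!
Polynomials with the same order of contact with the asymptote and the same critical homogeneous
parts differ by a polynomial of small degree.
-/

open Polynomial Finset

namespace Pool.Agent.H322R2

/-- coefficient of order `n` along the asymptote -/
noncomputable def qF (F : MvPolynomial (Fin 2) ℤ) (u : ℕ) (η : ℝ) (n : ℕ) : ℝ :=
  qq (tc F.totalDegree (GG F u) η) (bet F.totalDegree (GG F u) η) n

section

variable {F R : MvPolynomial (Fin 2) ℤ} {u : ℕ}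

lemma totalDegree_pert' (hR : R.totalDegree + 2 ≤ F.totalDegree) :
    (F + R).totalDegree = F.totalDegree :=
  MvPolynomial.totalDegree_add_eq_left_of_totalDegree_lt (by omega)

lemma comp_pert' (hR : R.totalDegree + 2 ≤ F.totalDegree) :
    MvPolynomial.homogeneousComponent (F + R).totalDegree (F + R)
      = MvPolynomial.homogeneousComponent F.totalDegree F := by
  rw [totalDegree_pert' hR, map_add, MvPolynomial.homogeneousComponent_eq_zero _ R (by omega),
    add_zero]

lemma lc_pert' (hR : R.totalDegree + 2 ≤ F.totalDegree) : lc (F + R) u = lc F u := by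
  rw [lc, lc, comp_pert' hR]

lemma GG_diff_coeff (hc : lc F u ≠ 0) (hR : R.totalDegree + 2 ≤ F.totalDegree) (j : ℕ) :
    (GG (F + R) u).coeff j = (GG F u).coeff j
      + (F2 R u).coeff j * C ((lc F u) ^ (F.totalDegree - 1 - j)) := by
  have hc' : lc (F + R) u ≠ 0 := by rw [lc_pert' hR]; exact hc
  have hdeg := totalDegree_pert' hR
  by_cases hj : j = F.totalDegree
  · have e1 := GG_coeff_top hc'
    rw [hdeg] at e1
    have h2 : (F2 R u).coeff j = 0 := by
      apply coeff_eq_zero_of_natDegree_lt
      have := (TD_toB (u : ℤ) R).1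
      rw [F2]
      omega
    rw [h2, zero_mul, add_zero, hj, e1, GG_coeff_top hc]
  · rw [GG_coeff hc' (by rw [hdeg]; exact hj), GG_coeff hc hj, F2_add, coeff_add, lc_pert' hR, hdeg]
    ring

lemma lead_pert_eq (hc : lc F u ≠ 0) (hR : R.totalDegree + 2 ≤ F.totalDegree) {n : ℕ}
    (hn : R.totalDegree < n) : lead n (GG (F + R) u) = lead n (GG F u) := by
  ext j
  rw [coeff_lead, coeff_lead]
  split_ifs with hj
  · rw [GG_diff_coeff hc hR, coeff_add, coeff_mul_C]
    have h1 : ((F2 R u).coeff j).coeff (n - j) = 0 := by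
      have hT := TD_toB (u : ℤ) R
      by_cases h : j ≤ R.totalDegree
      · apply coeff_eq_zero_of_natDegree_lt
        have := hT.2 j
        rw [F2]
        omega
      · have : (F2 R u).coeff j = 0 := by
          apply coeff_eq_zero_of_natDegree_lt
          have := hT.1
          rw [F2]
          omega
        rw [this, coeff_zero]
    rw [h1, zero_mul, add_zero]
  · rfl

lemma lead_pert_sub (hc : lc F u ≠ 0) (hR : R.totalDegree + 2 ≤ F.totalDegree) (hR0 : R ≠ 0) :
    lead R.totalDegree (GG (F + R) u) - lead R.totalDegree (GG F u) ≠ 0 := by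
  intro h0
  have h1 : lead R.totalDegree (F2 R u) = 0 := by
    ext j
    rw [coeff_zero]
    by_cases hj : j < R.totalDegree + 1
    · have h2 := congrArg (fun f => coeff f j) h0
      simp only [coeff_sub, coeff_zero] at h2
      rw [coeff_lead, coeff_lead, if_pos hj, if_pos hj, GG_diff_coeff hc hR, coeff_add,
        coeff_mul_C, add_sub_cancel_left] at h2
      rcases mul_eq_zero.1 h2 with h | h
      · rw [coeff_lead, if_pos hj]; exact h
      · exact absurd h (pow_ne_zero _ hc)
    · rw [coeff_lead, if_neg hj]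
  have h2 := homogenize_lead (u : ℤ) R
  rw [F2] at h1
  rw [h1] at h2
  have h3 : shE ℤ (u : ℤ) (MvPolynomial.homogeneousComponent R.totalDegree R) = 0 := by
    rw [← h2]
    ext m
    rw [coeff_homogenize]
    simp
  have h4 : MvPolynomial.homogeneousComponent R.totalDegree R = 0 := by
    apply (shE ℤ (u : ℤ)).injective
    rw [h3, map_zero]
  exact lead_component_ne_zero R hR0 h4

/-- two polynomials vanishing to the same order differ by a polynomial of small degree -/
theorem ord_lt (hc : lc F u ≠ 0) (hd : 4 ≤ F.totalDegree)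
    (hirr : Irreducible (MvPolynomial.map (Int.castRingHom ℚ)
      (MvPolynomial.homogeneousComponent F.totalDegree F))) {η : ℝ}
    (hη : evf η (lead F.totalDegree (GG F u)) = 0) (hR : R.totalDegree + 2 ≤ F.totalDegree)
    (hR0 : R ≠ 0) (h1 : qF F u η (F.totalDegree - R.totalDegree) = 0)
    (h2 : qF (F + R) u η (F.totalDegree - R.totalDegree) = 0) : False := by
  have hc' : lc (F + R) u ≠ 0 := by rw [lc_pert' hR]; exact hc
  have hdeg := totalDegree_pert' hR
  obtain ⟨d, hdd⟩ : ∃ d, d = F.totalDegree := ⟨_, rfl⟩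
  obtain ⟨k, hk⟩ : ∃ k, k = R.totalDegree := ⟨_, rfl⟩
  obtain ⟨G, hG⟩ : ∃ G, G = GG F u := ⟨_, rfl⟩
  obtain ⟨G', hG'⟩ : ∃ G', G' = GG (F + R) u := ⟨_, rfl⟩
  have hT : TD d G := by rw [hdd, hG]; exact GG_TD hc
  have hT' : TD d G' := by
    have := GG_TD hc'
    rw [hdeg] at this
    rw [hdd, hG']; exact this
  have hm : G.Monic := by rw [hG]; exact GG_monic hc
  have hnd : G.natDegree = d := by rw [hG, GG_natDegree hc, hdd]
  have hirrG : Irreducible ((lead d G).map (Int.castRingHom ℚ)) := by
    rw [hdd, hG]; exact lead_irr hc (by omega) hirr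
  have hlead : ∀ n, k < n → lead n G' = lead n G := by
    intro n hn
    rw [hG, hG']
    exact lead_pert_eq hc hR (by omega)
  have hne : lead k G' - lead k G ≠ 0 := by
    rw [hG, hG', hk]; exact lead_pert_sub hc hR hR0
  rw [qF, ← hdd, ← hG, ← hk] at h1
  rw [qF, hdeg, ← hdd, ← hG', ← hk] at h2
  rw [← hdd, ← hG] at hη
  rw [← hdd, ← hk] at hR
  rw [← hdd] at hd
  obtain ⟨hgm, hgd⟩ := lead_monic hm hnd
  have hη' : evf η (lead d G') = 0 := by rw [hlead d (by omega)]; exact hη
  have t01 : tay (hmg d G) (d + 1) (d + 1) (0 : ℝ) η (0, 1) = evf η (derivative (lead d G)) :=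
    tay01 (by omega) hT
  have t01' : tay (hmg d G') (d + 1) (d + 1) (0 : ℝ) η (0, 1) = evf η (derivative (lead d G)) := by
    rw [tay01 (by omega) hT', hlead d (by omega)]
  have key : ∀ V : ℤ[X], V ≠ 0 → V.natDegree < d → evf η V ≠ 0 := by
    intro V hV hVd h0
    have hn := nrm_ne_of_irr_deg hgm hgd hirrG V hV hVd
    have h5 := dvd_nrm (Int.castRingHom ℝ) η (lead d G) d (by omega) hgm hgd hη V
    have h6 : eval₂ (Int.castRingHom ℝ) η V = 0 := h0
    rw [h6, zero_dvd_iff, eq_intCast] at h5
    exact hn (by exact_mod_cast h5)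
  have hD : evf η (derivative (lead d G)) ≠ 0 := by
    apply key
    · intro h
      have h1 := natDegree_eq_zero_of_derivative_eq_zero h
      omega
    · have := natDegree_derivative_le (lead d G)
      omega
  have htp : ∀ p : ℕ × ℕ, p.1 ≤ d → k < d - p.1 → tc d G' η p = tc d G η p := by
    intro p hp hkp
    have e1 := tay_eq hT η p.1 p.2 hp
    have e2 := tay_eq hT' η p.1 p.2 hp
    rw [hlead _ hkp] at e2
    rw [tc, tc, t01, t01']
    congr 1
    exact e2.trans e1.symm
  have hbet : bet d G' η = bet d G η := by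
    rw [bet, bet, htp (1, 0) (by simp only; omega) (by simp only; omega)]
  rw [qq] at h1 h2
  rw [hbet] at h2
  have hmem : ((d - k, 0) : ℕ × ℕ) ∈ antidiagonal (d - k) := by
    rw [Finset.HasAntidiagonal.mem_antidiagonal]; rfl
  rw [← Finset.add_sum_erase _ _ hmem] at h1 h2
  have hrest : ∑ p ∈ (antidiagonal (d - k)).erase (d - k, 0), tc d G' η p * bet d G η ^ p.2
      = ∑ p ∈ (antidiagonal (d - k)).erase (d - k, 0), tc d G η p * bet d G η ^ p.2 := by
    apply Finset.sum_congr rfl
    intro p hp
    rw [Finset.mem_erase, Finset.HasAntidiagonal.mem_antidiagonal] at hp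
    have hp1 : p.1 < d - k := by
      by_contra hcon
      apply hp.1
      apply Prod.ext
      · simp only; omega
      · simp only; omega
    rw [htp p (by omega) (by omega)]
  rw [hrest] at h2
  simp only [pow_zero, mul_one] at h1 h2
  have h3 : tc d G' η (d - k, 0) = tc d G η (d - k, 0) := by linarith
  rw [tc, tc, t01, t01', tay_q0 hT η (d - k) (by omega), tay_q0 hT' η (d - k) (by omega)] at h3
  have h4 : evf η (lead (d - (d - k)) G') = evf η (lead (d - (d - k)) G) := by
    field_simp at h3
    exact h3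
  have h5 : d - (d - k) = k := by omega
  rw [h5] at h4
  refine key _ hne ?_ ?_
  · refine lt_of_le_of_lt (natDegree_sub_le _ _) ?_
    rw [max_lt_iff]
    have a1 := natDegree_lead_le k G
    have a2 := natDegree_lead_le k G'
    omega
  · rw [map_sub, h4, sub_self]

/-- the small degree of the difference -/
theorem cls_deg (hc : lc F u ≠ 0) (hd : 4 ≤ F.totalDegree)
    (hirr : Irreducible (MvPolynomial.map (Int.castRingHom ℚ)
      (MvPolynomial.homogeneousComponent F.totalDegree F))) {η : ℝ}
    (hη : evf η (lead F.totalDegree (GG F u)) = 0) (hRd : R.totalDegree ≤ F.totalDegree) {m : ℕ}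
    (hm : 2 ≤ m) (hmd : m ≤ F.totalDegree)
    (h1 : ∀ n < m, qF F u η n = 0) (h2 : ∀ n < m, qF (F + R) u η n = 0)
    (hk : ∀ k, k = F.totalDegree ∨ k = F.totalDegree - 1 ∨ k = F.totalDegree - m ∨
      k = F.totalDegree - m - 1 → MvPolynomial.homogeneousComponent k R = 0) :
    R = 0 ∨ R.totalDegree + m + 2 ≤ F.totalDegree := by
  by_cases hR0 : R = 0
  · left; exact hR0
  right
  have hne := lead_component_ne_zero R hR0
  have hk' : ∀ k, k = F.totalDegree ∨ k = F.totalDegree - 1 ∨ k = F.totalDegree - m ∨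
      k = F.totalDegree - m - 1 → k ≠ R.totalDegree := by
    intro k hk1 hk2
    apply hne
    rw [← hk2]
    exact hk k hk1
  have k1 := hk' _ (Or.inl rfl)
  have k2 := hk' _ (Or.inr (Or.inl rfl))
  have k3 := hk' _ (Or.inr (Or.inr (Or.inl rfl)))
  have k4 := hk' _ (Or.inr (Or.inr (Or.inr rfl)))
  have hR2 : R.totalDegree + 2 ≤ F.totalDegree := by omega
  by_contra hcon
  have hlt : F.totalDegree - R.totalDegree < m := by omega
  exact ord_lt hc hd hirr hη hR2 hR0 (h1 _ hlt) (h2 _ hlt)

end

end Pool.Agent.H322R2
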