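import Pool.Agent.H322R2.YExp
import Pool.Agent.H322R2.MonoC

/-!
Lower bounds: first nonzero coefficient along the asymptote, gaps between collinear points.
-/

open Polynomial Finset

namespace Pool.Agent.H322R2

lemma pn_lead_gen {d k : ℕ} {G : ℤ[X][X]} (hT : TD d G) (hk : k ≤ d) :
    pn zn (lead k G) ≤ pn (pn zn) G := by
  have h1 := natDegree_lead_le k G
  rw [pn_eq_range zn _ (show (lead k G).natDegree < d + 1 by omega),
    pn2_eq G (d + 1) (d + 1) (by have := hT.1; omega) (fun j => by have := hT.2 j; omega)]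
  apply Finset.sum_le_sum
  intro j _
  rw [coeff_lead]
  split_ifs with h
  · exact Finset.single_le_sum (f := fun i => |(((G.coeff j).coeff i : ℤ) : ℝ)|)
      (fun _ _ => abs_nonneg _) (Finset.mem_range.2 (show k - j < d + 1 by omega))
  · rw [map_zero]
    exact Finset.sum_nonneg fun _ _ => abs_nonneg _

lemma pn_hasse_le {d q : ℕ} {f : ℤ[X]} (hf : f.natDegree ≤ d) :
    pn zn (hasseDeriv q f) ≤ 2 ^ d * pn zn f := by
  rw [hasseDeriv_apply, sum_def, pn_apply zn f, Finset.mul_sum]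
  refine (seminorm_sum_le _ _ _).trans (Finset.sum_le_sum ?_)
  intro i hi
  rw [pn_monomial, zn_apply, zn_apply]
  push_cast
  rw [abs_mul, Nat.abs_cast]
  apply mul_le_mul_of_nonneg_right _ (abs_nonneg _)
  have h1 : i ≤ d := (le_natDegree_of_mem_supp i hi).trans hf
  have h2 : i.choose q ≤ 2 ^ i := Nat.choose_le_two_pow _ _
  have h3 : 2 ^ i ≤ 2 ^ d := Nat.pow_le_pow_right (by norm_num) h1
  exact_mod_cast h2.trans h3

/-- the integral polynomial for the coefficient of order `m` along the asymptote -/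
noncomputable def Wp (d m : ℕ) (G : ℤ[X][X]) : ℤ[X] :=
  ∑ p ∈ antidiagonal m, hasseDeriv p.2 (lead (d - p.1) G) * (-lead (d - 1) G) ^ p.2
    * (derivative (lead d G)) ^ p.1

section

variable {d m : ℕ} {G : ℤ[X][X]} {η : ℝ}

lemma evf_hasse {f : ℤ[X]} (hf : f.natDegree < d + 1) (q : ℕ) :
    evf η (hasseDeriv q f) = ∑ j ∈ range (d + 1), ((f.coeff j : ℤ) : ℝ) * ((j.choose q : ℝ) *
        η ^ (j - q)) := by
  have h1 : hasseDeriv q f = ∑ j ∈ range (d + 1), monomial (j - q) (↑(j.choose q) * f.coeff j) := by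
    rw [hasseDeriv_apply, Polynomial.sum_over_range' _ _ (d + 1) hf]
    intro j
    rw [mul_zero, map_zero]
  rw [h1, map_sum]
  apply Finset.sum_congr rfl
  intro j _
  rw [← C_mul_X_pow_eq_monomial, map_mul, map_pow, evf_X, evf_C]
  push_cast
  ring

lemma evf_Wp (hT : TD d G) (hd1 : 1 ≤ d) (hmd : m ≤ d)
    (hD : evf η (derivative (lead d G)) ≠ 0) :
    evf η (Wp d m G) = evf η (derivative (lead d G)) ^ (m + 1)
      * qq (tc d G η) (bet d G η) m := by
  rw [Wp, qq, map_sum, Finset.mul_sum]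
  apply Finset.sum_congr rfl
  intro p hp
  rw [Finset.HasAntidiagonal.mem_antidiagonal] at hp
  have t01 : tay (hmg d G) (d + 1) (d + 1) (0 : ℝ) η (0, 1) = evf η (derivative (lead d G)) :=
    tay01 (by omega) hT
  have t10 := tay_q0 hT η 1 (by omega)
  have tp := tay_eq hT η p.1 p.2 (by omega)
  rw [map_mul, map_mul, map_pow, map_pow, map_neg,
    evf_hasse (d := d) (by have := natDegree_lead_le (d - p.1) G; omega), ← tp, bet, tc, tc, t01,
    t10]
  obtain ⟨D, hDD⟩ : ∃ D, D = evf η (derivative (lead d G)) := ⟨_, rfl⟩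
  rw [← hDD] at hD ⊢
  rw [← neg_div, div_pow, ← hp]
  have e : D ^ (p.1 + p.2 + 1) = D ^ p.1 * D ^ p.2 * D := by rw [pow_succ, pow_add]
  rw [e]
  field_simp

lemma natDegree_Wp_le (hmd : m ≤ d) : (Wp d m G).natDegree ≤ d + d * d := by
  rw [Wp]
  apply natDegree_sum_le_of_forall_le
  intro p hp
  rw [Finset.HasAntidiagonal.mem_antidiagonal] at hp
  refine natDegree_mul_le.trans ?_
  have h1 := natDegree_mul_le (p := hasseDeriv p.2 (lead (d - p.1) G))
    (q := (-lead (d - 1) G) ^ p.2)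
  have h2 : (hasseDeriv p.2 (lead (d - p.1) G)).natDegree ≤ d := by
    have h3 := natDegree_hasseDeriv_le (lead (d - p.1) G) p.2
    have h4 := natDegree_lead_le (d - p.1) G
    omega
  have h3 : ((-lead (d - 1) G) ^ p.2).natDegree ≤ p.2 * d := by
    refine natDegree_pow_le.trans ?_
    rw [natDegree_neg]
    apply Nat.mul_le_mul_left
    have h4 := natDegree_lead_le (d - 1) G
    omega
  have h4 : ((derivative (lead d G)) ^ p.1).natDegree ≤ p.1 * d := by
    refine natDegree_pow_le.trans ?_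
    apply Nat.mul_le_mul_left
    have h5 := natDegree_lead_le d G
    exact (natDegree_derivative_le _).trans (by omega)
  have h5 : p.2 * d + p.1 * d ≤ d * d := by
    rw [← add_mul]
    exact Nat.mul_le_mul_right _ (by omega)
  omega

lemma pn_Wp_le (hT : TD d G) (hd1 : 1 ≤ d) (hmd : m ≤ d) {H : ℝ} (hH : 1 ≤ H)
    (hG : pn (pn zn) G ≤ H) :
    pn zn (Wp d m G) ≤ (d + 1) * (2 ^ d * H * (d * H) ^ d) := by
  have hdR : (1 : ℝ) ≤ d := by exact_mod_cast hd1
  have hdH : 1 ≤ (d : ℝ) * H := one_le_mul_of_one_le_of_one_le hdR hH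
  rw [Wp]
  refine (seminorm_sum_le _ _ _).trans ?_
  have h1 : ∀ p ∈ antidiagonal m, pn zn (hasseDeriv p.2 (lead (d - p.1) G)
      * (-lead (d - 1) G) ^ p.2 * (derivative (lead d G)) ^ p.1) ≤ 2 ^ d * H * (d * H) ^ d := by
    intro p hp
    rw [Finset.HasAntidiagonal.mem_antidiagonal] at hp
    refine (map_mul_le_mul _ _ _).trans ?_
    have a1 : pn zn (hasseDeriv p.2 (lead (d - p.1) G)) ≤ 2 ^ d * H := by
      refine (pn_hasse_le (d := d) (by have := natDegree_lead_le (d - p.1) G; omega)).trans ?_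
      apply mul_le_mul_of_nonneg_left _ (by positivity)
      exact (pn_lead_gen hT (by omega)).trans hG
    have a2 : pn zn ((-lead (d - 1) G) ^ p.2) ≤ (d * H) ^ p.2 := by
      refine (seminorm_pow_le _ pnz_one _ _).trans ?_
      apply pow_le_pow_left₀ (apply_nonneg _ _)
      rw [map_neg_eq_map]
      refine (pn_lead_gen hT (by omega)).trans (hG.trans ?_)
      exact le_mul_of_one_le_left (by linarith) hdR
    have a3 : pn zn ((derivative (lead d G)) ^ p.1) ≤ (d * H) ^ p.1 := by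
      refine (seminorm_pow_le _ pnz_one _ _).trans ?_
      apply pow_le_pow_left₀ (apply_nonneg _ _)
      refine (pn_derivative_le zn _).trans ?_
      apply mul_le_mul _ ((pn_lead_gen hT le_rfl).trans hG) (apply_nonneg _ _) (by positivity)
      exact_mod_cast natDegree_lead_le d G
    have a4 : pn zn (hasseDeriv p.2 (lead (d - p.1) G) * (-lead (d - 1) G) ^ p.2)
        ≤ 2 ^ d * H * (d * H) ^ p.2 :=
      (map_mul_le_mul _ _ _).trans (mul_le_mul a1 a2 (apply_nonneg _ _) (by positivity))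
    calc _ ≤ (2 ^ d * H * (d * H) ^ p.2) * (d * H) ^ p.1 :=
          mul_le_mul a4 a3 (apply_nonneg _ _) (by positivity)
      _ = 2 ^ d * H * (d * H) ^ m := by rw [← hp, pow_add]; ring
      _ ≤ _ := by
        apply mul_le_mul_of_nonneg_left _ (by positivity)
        exact pow_le_pow_right₀ hdH hmd
  refine (Finset.sum_le_sum h1).trans ?_
  rw [Finset.sum_const, nsmul_eq_mul]
  apply mul_le_mul_of_nonneg_right _ (by positivity)
  have h2 : (antidiagonal m).card = m + 1 := Finset.Nat.card_antidiagonal m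
  rw [h2]
  have : m + 1 ≤ d + 1 := by omega
  exact_mod_cast this

/-- lower bound for the first nonzero coefficient -/
theorem qq_low (hd : 4 ≤ d) (hm : G.Monic) (hdeg : G.natDegree = d) (hT : TD d G) {H : ℝ}
    (hH : 1 ≤ H) (hG : pn (pn zn) G ≤ H)
    (hirr : Irreducible ((lead d G).map (Int.castRingHom ℚ)))
    (hη : evf η (lead d G) = 0) (hmd : m ≤ d)
    (hD : evf η (derivative (lead d G)) ≠ 0) (hq : qq (tc d G η) (bet d G η) m ≠ 0) :
    1 ≤ |qq (tc d G η) (bet d G η) m| * (2 + H) ^ (14 * d ^ 3) := by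
  obtain ⟨hgm, hgd⟩ := lead_monic hm hdeg
  have hpg : pn zn (lead d G) ≤ H := (pn_lead_gen hT le_rfl).trans hG
  have hηH : |η| ≤ H := root_norm_le (lead d G) hgm H hH hpg η hη
  obtain ⟨K, hK⟩ : ∃ K, K = 2 + H := ⟨_, rfl⟩
  have hK3 : 3 ≤ K := by linarith
  have hK1 : 1 ≤ K := by linarith
  have hd0 : 0 < d := by omega
  have hev := evf_Wp (m := m) hT (by omega) hmd hD
  have hne : evf η (Wp d m G) ≠ 0 := by
    rw [hev]
    exact mul_ne_zero (pow_ne_zero _ hD) hq
  have hnrm := nrm_ne_of_irr hgm hgd hirr (Wp d m G) η hη hne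
  have hdK : (d : ℝ) ≤ K ^ d := by rw [hK]; exact d_le_pow hH
  have hd1K : (d : ℝ) + 1 ≤ K ^ d := by rw [hK]; exact d1_le_pow hd0 hH
  have hfK : (d.factorial : ℝ) ≤ K ^ (d ^ 2) := by rw [hK]; exact fact_le_pow hH
  have h2K : (2 : ℝ) ^ d ≤ K ^ d := pow_le_pow_left₀ (by norm_num) (by linarith) _
  have hHK : H ≤ K := by linarith
  have hL : pn zn (Wp d m G) ≤ K ^ (d ^ 2 + 3 * d + 1) := by
    refine (pn_Wp_le hT (by omega) hmd hH hG).trans ?_
    have h1 : ((d : ℝ) * H) ^ d ≤ (K ^ d * K) ^ d := by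
      apply pow_le_pow_left₀ (by positivity)
      exact mul_le_mul hdK hHK (by linarith) (by positivity)
    calc ((d : ℝ) + 1) * (2 ^ d * H * (d * H) ^ d) ≤ K ^ d * (K ^ d * K * (K ^ d * K) ^ d) := by
          apply mul_le_mul hd1K _ (by positivity) (by positivity)
          apply mul_le_mul _ h1 (by positivity) (by positivity)
          exact mul_le_mul h2K hHK (by linarith) (by positivity)
      _ = K ^ (d ^ 2 + 3 * d + 1) := by ring
  have hmain := one_le_of_root' (lead d G) d hd0 hgm hgd (Wp d m G) hnrm K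
    (K ^ (d ^ 2 + 3 * d + 1)) (d + d * d) hK1 (by linarith) hL (one_le_pow₀ hK1)
    (natDegree_Wp_le hmd) η hη (by rw [Real.norm_eq_abs]; linarith)
  rw [Real.norm_eq_abs, hev, abs_mul, abs_pow] at hmain
  have hDK : |evf η (derivative (lead d G))| ≤ K ^ (d + 1) := by
    rw [← tay01 hd0 hT]
    refine (tay_le hT hG (0, 1) (by simp; omega)).trans ?_
    rw [pow_succ, mul_comm]
    apply mul_le_mul _ hHK (by linarith) (by positivity)
    exact pow_le_pow_left₀ (by positivity) (by linarith) _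
  have hDm : |evf η (derivative (lead d G))| ^ (m + 1) ≤ K ^ ((d + 1) * (d + 1)) := by
    rw [pow_mul]
    calc |evf η (derivative (lead d G))| ^ (m + 1) ≤ (K ^ (d + 1)) ^ (m + 1) :=
          pow_le_pow_left₀ (abs_nonneg _) hDK _
      _ ≤ _ := pow_le_pow_right₀ (one_le_pow₀ hK1) (by omega)
  have hbig : (d : ℝ) * (d.factorial * (K ^ (d ^ 2 + 3 * d + 1) * K ^ (d + d * d)) ^ d) * K ^ d
      ≤ K ^ (2 * d ^ 3 + 5 * d ^ 2 + 3 * d) := by
    calc _ ≤ K ^ d * (K ^ (d ^ 2) * (K ^ (d ^ 2 + 3 * d + 1) * K ^ (d + d * d)) ^ d) * K ^ d := by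
          apply mul_le_mul_of_nonneg_right _ (by positivity)
          apply mul_le_mul hdK _ (by positivity) (by positivity)
          exact mul_le_mul_of_nonneg_right hfK (by positivity)
      _ = _ := by
          rw [← pow_add, ← pow_mul, ← pow_add, ← pow_add, ← pow_add]; congr 1; ring
  obtain ⟨Q, hQ⟩ : ∃ Q, Q = |qq (tc d G η) (bet d G η) m| := ⟨_, rfl⟩
  have hQ0 : 0 ≤ Q := by rw [hQ]; exact abs_nonneg _
  rw [← hQ] at hmain ⊢
  rw [← hK]
  calc 1 ≤ _ := hmain
    _ ≤ (K ^ ((d + 1) * (d + 1)) * Q) * K ^ (2 * d ^ 3 + 5 * d ^ 2 + 3 * d) := by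
        apply mul_le_mul _ hbig (by positivity) (by positivity)
        exact mul_le_mul_of_nonneg_right hDm hQ0
    _ = Q * K ^ ((d + 1) * (d + 1) + (2 * d ^ 3 + 5 * d ^ 2 + 3 * d)) := by
        rw [pow_add K ((d + 1) * (d + 1))]; ring
    _ ≤ _ := by
        apply mul_le_mul_of_nonneg_left _ hQ0
        apply pow_le_pow_right₀ hK1
        have h1 : d ^ 2 ≤ d ^ 3 := Nat.pow_le_pow_right hd0 (by norm_num)
        have h2 : 16 * d ≤ d ^ 3 := by
          calc 16 * d = (4 * 4) * d := by ring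
            _ ≤ (d * d) * d := by gcongr
            _ = d ^ 3 := by ring
        have h3 : (d + 1) * (d + 1) = d ^ 2 + 2 * d + 1 := by ring
        rw [h3]
        omega

/-- gap between two points close to the asymptote -/
theorem gap_low (hd : 4 ≤ d) (hm : G.Monic) (hdeg : G.natDegree = d) (hT : TD d G) {H : ℝ}
    (hH : 1 ≤ H) (hG : pn (pn zn) G ≤ H)
    (hirr : Irreducible ((lead d G).map (Int.castRingHom ℚ)))
    (hη : evf η (lead d G) = 0) {A B : ℤ} (hA : A ≠ 0) {δ : ℝ} (hδ : |(B : ℝ) - η * A| ≤ δ)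
    (hδ1 : δ ≤ 1) :
    1 ≤ δ * ((2 + H) ^ (d ^ 2 + 5 * d) * |(A : ℝ)| ^ d) := by
  obtain ⟨hgm, hgd⟩ := lead_monic hm hdeg
  have hpg : pn zn (lead d G) ≤ H := (pn_lead_gen hT le_rfl).trans hG
  have hηH : |η| ≤ H := root_norm_le (lead d G) hgm H hH hpg η hη
  obtain ⟨K, hK⟩ : ∃ K, K = 2 + H := ⟨_, rfl⟩
  have hK3 : 3 ≤ K := by linarith
  have hK1 : 1 ≤ K := by linarith
  have hd0 : 0 < d := by omega
  obtain ⟨V, hV⟩ : ∃ V : ℤ[X], V = C A * X - C B := ⟨_, rfl⟩
  have hVd : V.natDegree ≤ 1 := by rw [hV]; compute_degree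
  have hV0 : V ≠ 0 := by
    intro h
    have h1 := congrArg (fun f => coeff f 1) h
    simp only [hV, coeff_sub, coeff_C_mul, coeff_X_one, mul_one, coeff_zero] at h1
    rw [coeff_C_of_ne_zero one_ne_zero, sub_zero] at h1
    exact hA h1
  have hnrm := nrm_ne_of_irr_deg hgm hgd hirr V hV0 (by omega)
  have hA1 : (1 : ℝ) ≤ |(A : ℝ)| := by
    have : 1 ≤ |A| := Int.one_le_abs hA
    exact_mod_cast this
  have hpnV : pn zn V ≤ |(A : ℝ)| + |(B : ℝ)| := by
    rw [hV]
    refine (map_sub_le_add _ _ _).trans ?_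
    rw [pn_C, zn_apply]
    have h1 : pn zn (C A * X) = |(A : ℝ)| := by
      have : (C A * X : ℤ[X]) = monomial 1 A := by rw [← C_mul_X_pow_eq_monomial, pow_one]
      rw [this, pn_monomial, zn_apply]
    rw [h1]
  have hBK : |(B : ℝ)| ≤ (K - 1) * |(A : ℝ)| := by
    have h1 : (B : ℝ) = η * A + (B - η * A) := by ring
    rw [h1]
    refine (abs_add_le _ _).trans ?_
    rw [abs_mul]
    have h2 : |η| * |(A : ℝ)| ≤ H * |(A : ℝ)| := mul_le_mul_of_nonneg_right hηH (abs_nonneg _)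
    have h3 : (K - 1) * |(A : ℝ)| = H * |(A : ℝ)| + |(A : ℝ)| := by rw [hK]; ring
    linarith
  have hL : pn zn V ≤ K * |(A : ℝ)| := by
    refine hpnV.trans ?_
    have : K * |(A : ℝ)| = |(A : ℝ)| + (K - 1) * |(A : ℝ)| := by ring
    linarith
  have hmain := one_le_of_root' (lead d G) d hd0 hgm hgd V hnrm K (K * |(A : ℝ)|) 1 hK1
    (by linarith) hL (one_le_mul_of_one_le_of_one_le hK1 hA1) hVd η hη
    (by rw [Real.norm_eq_abs]; linarith)
  have hevV : evf η V = -((B : ℝ) - η * A) := by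
    rw [hV, map_sub, map_mul, evf_C, evf_C, evf_X]; ring
  rw [Real.norm_eq_abs, hevV, abs_neg] at hmain
  have hdK : (d : ℝ) ≤ K ^ d := by rw [hK]; exact d_le_pow hH
  have hfK : (d.factorial : ℝ) ≤ K ^ (d ^ 2) := by rw [hK]; exact fact_le_pow hH
  rw [← hK]
  have hδ0 : 0 ≤ δ := (abs_nonneg _).trans hδ
  calc 1 ≤ _ := hmain
    _ ≤ δ * (K ^ d * (K ^ (d ^ 2) * (K * |(A : ℝ)| * K ^ 1) ^ d) * K ^ d) := by
        apply mul_le_mul hδ _ (by positivity) hδ0
        apply mul_le_mul_of_nonneg_right _ (by positivity)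
        apply mul_le_mul hdK _ (by positivity) (by positivity)
        exact mul_le_mul_of_nonneg_right hfK (by positivity)
    _ = δ * (K ^ (d ^ 2 + 4 * d) * |(A : ℝ)| ^ d) := by
        rw [pow_one, mul_pow, mul_pow]; ring
    _ ≤ _ := by
        apply mul_le_mul_of_nonneg_left _ hδ0
        apply mul_le_mul_of_nonneg_right _ (by positivity)
        exact pow_le_pow_right₀ hK1 (by omega)

end

end Pool.Agent.H322R2
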