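import Pool.Agent.H322R2.YTri
import Pool.Agent.H322R2.YLow
import Pool.Agent.H322R2.DFlex
import Pool.Agent.H322R2.GPert
import Pool.Agent.H322R2.RedC

/-!
Collinear points close to a branch with an asymptote of high order contact: at most four.
-/

open Polynomial Finset

namespace Pool.Agent.H322R2

/-- second coefficient of the expansion -/
noncomputable def c2 (d m : ℕ) (G : ℤ[X][X]) (η : ℝ) : ℝ :=
  qq (tc d G η) (bet d G η) (m + 1)
    - (tc d G η (1, 1) + 2 * bet d G η * tc d G η (0, 2)) * qq (tc d G η) (bet d G η) m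

lemma gam_eq_qq (d : ℕ) (G : ℤ[X][X]) (η : ℝ) :
    gam d G η = -qq (tc d G η) (bet d G η) 2 := by
  have h1 : (antidiagonal 2 : Finset (ℕ × ℕ)) = {(0, 2), (1, 1), (2, 0)} := rfl
  rw [gam, qq, h1, Finset.sum_insert (by simp), Finset.sum_insert (by simp), Finset.sum_singleton]
  simp only [pow_zero, pow_one, mul_one]
  ring

section

variable {d m : ℕ} {G R : ℤ[X][X]} {H η : ℝ} {a b : ℤ}

theorem pt_exp (hd : 4 ≤ d) (hm : G.Monic) (hdeg : G.natDegree = d)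
    (hT : TD d G) (hH : 1 ≤ H) (hG : pn (pn zn) G ≤ H)
    (hirr : Irreducible ((lead d G).map (Int.castRingHom ℚ)))
    (hη : evf η (lead d G) = 0) (hm3 : 3 ≤ m) (hmd : m + 2 ≤ d)
    (hq : ∀ n < m, qq (tc d G η) (bet d G η) n = 0)
    (hR : TD (d - m - 2) R) (hRn : pn (pn zn) R ≤ H) (hab : ev a b (G + R) = 0)
    (ha : (2 + 2 * H) ^ (E1 d) ≤ |(a : ℝ)|) (hc : |(b : ℝ) / a - η| ≤ cR d (2 * H)) :
    |((b : ℝ) - η * a - bet d G η) + qq (tc d G η) (bet d G η) m * (a : ℝ)⁻¹ ^ (m - 1)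
      + c2 d m G η * (a : ℝ)⁻¹ ^ m| ≤ (2 + 2 * H) ^ (86 * d ^ 3) * |(a : ℝ)⁻¹| ^ (m + 1) ∧
    |c2 d m G η| ≤ (2 + 2 * H) ^ (41 * d ^ 3) ∧
    |(b : ℝ) - η * a - bet d G η| ≤ 2 * (2 + 2 * H) ^ (64 * d ^ 3) / |(a : ℝ)| ^ 2 ∧
    evf η (derivative (lead d G)) ≠ 0 := by
  have hd0 : 0 < d := by omega
  obtain ⟨H', hH'⟩ : ∃ H', H' = 2 * H := ⟨_, rfl⟩
  have hH'2 : 2 ≤ H' := by linarith
  have hH'1 : 1 ≤ H' := by linarith
  obtain ⟨hgm, hgd⟩ := lead_monic hm hdeg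
  have hpg : pn zn (lead d G) ≤ H := (pn_lead_le hdeg.le).trans hG
  have hηH : |η| ≤ H := root_norm_le (lead d G) hgm H hH hpg η hη
  have hgd' : (derivative (lead d G)).natDegree ≤ d := (natDegree_derivative_le _).trans (by omega)
  have hpd : pn zn (derivative (lead d G)) ≤ d * H' := by
    refine (pn_derivative_le zn _).trans ?_
    rw [hgd]
    exact mul_le_mul_of_nonneg_left (by linarith) (by positivity)
  have hdR : (4 : ℝ) ≤ d := by exact_mod_cast hd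
  have hder0 : derivative (lead d G) ≠ 0 := by
    intro h
    have h1 := natDegree_eq_zero_of_derivative_eq_zero h
    omega
  have hder : 1 ≤ |evf η (derivative (lead d G))| * cD d H' :=
    one_le_of_root (lead d G) d hd0 hgm hgd (derivative (lead d G))
      (nrm_ne_of_irr_deg hgm hgd hirr _ hder0 (by
        have := natDegree_derivative_le (lead d G); omega))
      (1 + H') (d * H') (by linarith) (by linarith) hpd (by nlinarith) hgd' η hη
      (by rw [Real.norm_eq_abs]; linarith)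
  have hcD := one_le_cD hd0 hH'1
  have hcS := one_le_cS (d := d) hH'1
  have hD0 : 0 < |evf η (derivative (lead d G))| := by
    by_contra hcon
    have : |evf η (derivative (lead d G))| = 0 := le_antisymm (not_lt.1 hcon) (abs_nonneg _)
    rw [this, zero_mul] at hder
    linarith
  have hS1 := one_le_cSS hd hH'1
  have hMS : H' * (1 + |η|) ^ d ≤ cSS d H' * |evf η (derivative (lead d G))| := by
    have h1 : H' * (1 + |η|) ^ d ≤ cS d H' := by
      unfold cS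
      apply mul_le_mul_of_nonneg_left _ (by linarith)
      exact pow_le_pow_left₀ (by positivity) (by linarith) _
    refine h1.trans ?_
    unfold cSS
    calc cS d H' = 1 * cS d H' := (one_mul _).symm
      _ ≤ (|evf η (derivative (lead d G))| * cD d H') * cS d H' :=
          mul_le_mul_of_nonneg_right hder (by linarith)
      _ = _ := by ring
  have hderS : 1 ≤ |evf η (derivative (lead d G))| * cSS d H' := by
    refine hder.trans ?_
    apply mul_le_mul_of_nonneg_left _ hD0.le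
    unfold cSS
    exact le_mul_of_one_le_right (by linarith) hcS
  obtain ⟨K, hK⟩ : ∃ K, K = 2 + H' := ⟨_, rfl⟩
  have hKH : 2 + 2 * H = K := by rw [hK, hH']
  rw [hKH] at ha ⊢
  rw [← hH'] at hc
  have hK4 : 4 ≤ K := by linarith
  have hK1 : 1 ≤ K := by linarith
  have hK0 : 0 < K := by linarith
  obtain ⟨Q, hQ⟩ : ∃ Q, Q = K ^ (64 * d ^ 3) := ⟨_, rfl⟩
  have hd3 : 0 < 64 * d ^ 3 := by positivity
  have hKQ : K ≤ Q := by
    rw [hQ]
    calc K = K ^ 1 := (pow_one _).symm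
      _ ≤ _ := pow_le_pow_right₀ hK1 hd3
  have hSK := cSS_le hd hH'1
  have hQle := cQ_le hd hH'1 hH'2
  rw [← hK] at hSK hQle
  rw [← hQ] at hQle
  -- bounds for the coefficients
  obtain ⟨hb, hgm1, hk⟩ := bgk_le (M := H') (by omega) hT (by linarith) hS1 hD0 hMS
  have hS5Q : 13 * cSS d H' ^ 5 ≤ Q := by
    refine le_trans ?_ hQle
    have h3 : 13 * cSS d H' ^ 5 ≤ (36 * cSS d H' ^ 5) ^ d := by
      have h2 : 1 ≤ cSS d H' ^ 5 := one_le_pow₀ hS1
      calc 13 * cSS d H' ^ 5 ≤ 36 * cSS d H' ^ 5 := by linarith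
        _ = (36 * cSS d H' ^ 5) ^ 1 := (pow_one _).symm
        _ ≤ _ := pow_le_pow_right₀ (by linarith) (by omega)
    refine h3.trans ?_
    apply le_mul_of_one_le_left (by positivity)
    linarith
  have hkQ : |kpp d G η| ≤ Q := by linarith
  have hgam : gam d G η = 0 := by rw [gam_eq_qq, hq 2 (by omega), neg_zero]
  obtain ⟨β, hβ⟩ : ∃ β, β = bet d G η := ⟨_, rfl⟩
  obtain ⟨u, hu⟩ : ∃ u, u = (b : ℝ) - η * a - bet d G η := ⟨_, rfl⟩
  have hR4 : TD (d - 4) R := TD_mono hR (by omega)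
  have hKE : ∀ n, n ≤ E1 d → K ^ n ≤ |(a : ℝ)| := fun n hn =>
    (pow_le_pow_right₀ hK1 hn).trans ha
  have hE1 : 1280 * d ^ 3 ≤ E1 d := by
    unfold E1
    have h5 := one_le_kap d
    have h6 : d ^ 3 ≤ d ^ 5 := Nat.pow_le_pow_right hd0 (by norm_num)
    calc 1280 * d ^ 3 ≤ 1280 * d ^ 5 * 1 := by omega
      _ ≤ _ := Nat.mul_le_mul_left _ h5
  have hdd3 : d ≤ d ^ 3 := Nat.le_self_pow (by norm_num) d
  have hd23 : d ^ 2 ≤ d ^ 3 := Nat.pow_le_pow_right hd0 (by norm_num)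
  have hNr : Nr η (bet d G η) (gam d G η) (kpp d G η) Q a b := by
    have hT' := TD_add hd hT hR4
    have hlead := lead_add_of_TD (G := G) hd hR4 0 (by omega)
    rw [Nat.sub_zero] at hlead
    have hpn' : pn (pn zn) (G + R) ≤ H' := (map_add_le_add _ _ _).trans (by linarith)
    have h3 := exp_lemma (M := H') (S := cSS d H') (G := G + R) (η := η) (by omega) hT' hpn' hS1
      (by rw [hlead]; exact hη) (by rw [hlead]; exact hD0) (by rw [hlead]; exact hMS) hab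
      (by
        have h4 : (d : ℝ) + 1 ≤ K ^ d := by rw [hK]; exact d1_le_pow hd0 hH'1
        calc 34 * ((d : ℝ) + 1) * cSS d H' ^ 6 ≤ K ^ 3 * K ^ d * (K ^ (3 * d ^ 2 + 4 * d + 1)) ^ 6 := by
              apply mul_le_mul _ (pow_le_pow_left₀ (by linarith) hSK 6) (by positivity)
                (by positivity)
              apply mul_le_mul _ h4 (by positivity) (by positivity)
              calc (34 : ℝ) ≤ 4 ^ 3 := by norm_num
                _ ≤ K ^ 3 := pow_le_pow_left₀ (by norm_num) hK4 3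
          _ = K ^ (3 + d + (3 * d ^ 2 + 4 * d + 1) * 6) := by
              rw [← pow_mul, ← pow_add, ← pow_add]
          _ ≤ _ := hKE _ (by omega))
      (by
        refine hc.trans (le_of_eq ?_)
        unfold cR cSS
        congr 1; ring)
    rw [bet_add hd hT hR4, gam_add hd hT hR4, kpp_add hd hT hR4] at h3
    exact h3.mono hQle
  have ha1 : 1 ≤ |(a : ℝ)| := by
    have := hKE 0 (by omega)
    rwa [pow_zero] at this
  have ha0 : 0 < |(a : ℝ)| := by linarith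
  have haR : (a : ℝ) ≠ 0 := abs_pos.1 ha0
  have hu2 : |u| ≤ 2 * Q / |(a : ℝ)| ^ 2 := by
    unfold Nr at hNr
    rw [hgam, zero_div, sub_zero] at hNr
    have h2 : |kpp d G η / (a : ℝ) ^ 2| ≤ Q / |(a : ℝ)| ^ 2 := by
      rw [abs_div, abs_pow]
      exact div_le_div_of_nonneg_right hkQ (by positivity)
    have h3 : Q / |(a : ℝ)| ^ 3 ≤ Q / |(a : ℝ)| ^ 2 := by
      apply div_le_div_of_nonneg_left (by linarith) (by positivity)
      exact pow_le_pow_right₀ ha1 (by norm_num)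
    have h4 : u = ((b : ℝ) - η * a - bet d G η - kpp d G η / (a : ℝ) ^ 2)
          + kpp d G η / (a : ℝ) ^ 2 := by rw [hu]; ring
    rw [h4]
    refine (abs_add_le _ _).trans ?_
    have h5 : 2 * Q / |(a : ℝ)| ^ 2 = Q / |(a : ℝ)| ^ 2 + Q / |(a : ℝ)| ^ 2 := by ring
    rw [h5]
    linarith
  have hu1 : |u| ≤ 1 := by
    refine hu2.trans ?_
    rw [div_le_one (by positivity)]
    have h1 : 2 * Q ≤ K * Q := mul_le_mul_of_nonneg_right (by linarith) (by linarith)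
    have h2 : K * Q = K ^ (1 + 64 * d ^ 3) := by rw [hQ, pow_add, pow_one]
    have h3 := hKE (1 + 64 * d ^ 3) (by omega)
    have h4 : |(a : ℝ)| ≤ |(a : ℝ)| ^ 2 := by
      rw [sq]; exact le_mul_of_one_le_left ha0.le ha1
    linarith
  -- the parameters of exp_gen
  obtain ⟨S, hS⟩ : ∃ S, S = cSS d H' := ⟨_, rfl⟩
  rw [← hS] at hS1 hMS hderS hSK hb
  obtain ⟨s, hs⟩ : ∃ s, s = 3 * d ^ 2 + 4 * d + 1 := ⟨_, rfl⟩
  rw [← hs] at hSK
  obtain ⟨D, hD⟩ : ∃ D, D = evf η (derivative (lead d G)) := ⟨_, rfl⟩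
  rw [← hD] at hD0 hMS hderS
  have hDne : D ≠ 0 := abs_pos.1 hD0
  have hGH' : pn (pn zn) G ≤ H' := by linarith
  have htc : ∀ p ∈ range (d + 1) ×ˢ range (d + 1), |tc d G η p| ≤ S := by
    intro p hp
    rw [tc, abs_div, tay01 (by omega) hT, ← hD, div_le_iff₀ hD0]
    exact (tay_le hT hGH' _ hp).trans hMS
  have hPn : (hmg d G).natDegree < d + 1 := by have := natDegree_hmg d G; omega
  have hPm : ∀ j, ((hmg d G).coeff j).natDegree < d + 1 := fun j => by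
    have := natDegree_coeff_hmg hT j; omega
  have h00 : tc d G η (0, 0) = 0 := by
    rw [tc, tay_zero _ _ _ hPn hPm, ev_zero_hmg, hη, zero_div]
  have h01 : tc d G η (0, 1) = 1 := by
    rw [tc, tay01 (by omega) hT, ← hD, div_self hDne]
  obtain ⟨z, hz⟩ : ∃ z, z = (a : ℝ)⁻¹ := ⟨_, rfl⟩
  have hza : z * a = 1 := by rw [hz]; field_simp
  have hzab : |z| * |(a : ℝ)| = 1 := by rw [← abs_mul, hza, abs_one]
  have hz0 : 0 < |z| := by rw [hz, abs_inv]; positivity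
  obtain ⟨ρ, hρ⟩ : ∃ ρ, ρ = -(z ^ d * ev (a : ℝ) (b : ℝ) R) / D := ⟨_, rfl⟩
  obtain ⟨Sρ, hSρ⟩ : ∃ Sρ, Sρ = H' * (K * S) ^ d * S := ⟨_, rfl⟩
  have hKS : 1 ≤ K * S := one_le_mul_of_one_le_of_one_le hK1 hS1
  have hρb : |ρ| ≤ Sρ * |z| ^ (m + 2) := by
    have hbb : |(b : ℝ)| ≤ K * S * |(a : ℝ)| := by
      have h1 : (b : ℝ) = η * a + β + u := by rw [hu, hβ]; ring
      rw [h1]
      have h2 := abs_add_le (η * a + β) u
      have h3 := abs_add_le (η * (a : ℝ)) β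
      rw [abs_mul] at h3
      have h4 : |η| * |(a : ℝ)| ≤ H * |(a : ℝ)| := mul_le_mul_of_nonneg_right hηH ha0.le
      have h5 : |β| ≤ S * |(a : ℝ)| := by
        rw [hβ]
        exact hb.trans (le_mul_of_one_le_right (by linarith) ha1)
      have h6 : |u| ≤ 1 * |(a : ℝ)| := by linarith
      have h7 : (H + S + 1) * |(a : ℝ)| ≤ K * S * |(a : ℝ)| := by
        apply mul_le_mul_of_nonneg_right _ ha0.le
        nlinarith
      have h8 : (H + S + 1) * |(a : ℝ)| = H * |(a : ℝ)| + S * |(a : ℝ)| + 1 * |(a : ℝ)| := by ring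
      linarith
    have haa : |(a : ℝ)| ≤ K * S * |(a : ℝ)| := le_mul_of_one_le_left ha0.le hKS
    have hev := ev_TD_le hR (x := (a : ℝ)) (y := (b : ℝ)) (B := K * S * |(a : ℝ)|)
      (ha1.trans haa) haa hbb
    rw [hρ, abs_div, abs_neg, abs_mul, abs_pow, div_le_iff₀ hD0]
    obtain ⟨k, hk'⟩ : ∃ k, k = d - m - 2 := ⟨_, rfl⟩
    have hdk : d = k + (m + 2) := by omega
    rw [← hk'] at hev
    have h1 : |z| ^ d * |ev (a : ℝ) (b : ℝ) R| ≤ |z| ^ (m + 2) * (H' * (K * S) ^ d) := by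
      calc |z| ^ d * |ev (a : ℝ) (b : ℝ) R| ≤ |z| ^ d * (H' * (K * S * |(a : ℝ)|) ^ k) := by
            apply mul_le_mul_of_nonneg_left _ (by positivity)
            refine hev.trans ?_
            apply mul_le_mul_of_nonneg_right _ (by positivity)
            linarith
        _ = |z| ^ (m + 2) * (H' * (K * S) ^ k) * (|z| * |(a : ℝ)|) ^ k := by
            have : |z| ^ d = |z| ^ k * |z| ^ (m + 2) := by rw [← pow_add, ← hdk]
            rw [this, mul_pow, mul_pow |z|]; ring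
        _ = |z| ^ (m + 2) * (H' * (K * S) ^ k) := by rw [hzab, one_pow, mul_one]
        _ ≤ _ := by
            apply mul_le_mul_of_nonneg_left _ (by positivity)
            apply mul_le_mul_of_nonneg_left _ (by linarith)
            exact pow_le_pow_right₀ hKS (by omega)
    refine h1.trans ?_
    rw [hSρ]
    have h2 : H' * (K * S) ^ d * S * |z| ^ (m + 2) * |D|
        = (|z| ^ (m + 2) * (H' * (K * S) ^ d)) * (|D| * S) := by ring
    rw [h2]
    exact le_mul_of_one_le_right (by positivity) hderS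
  have heq : ∑ p ∈ range (d + 1) ×ˢ range (d + 1),
      tc d G η p * z ^ p.1 * (z * (β + u)) ^ p.2 = ρ := by
    have h1 := ev_taylor (RingHom.id ℝ) (hmg d G) (d + 1) (d + 1) hPn hPm 0 η z (z * (β + u))
    simp only [RingHom.id_apply, zero_add] at h1
    have h2 : η + z * (β + u) = (b : ℝ) / a := by
      have : β + u = b - η * a := by rw [hu, hβ]; ring
      rw [this, div_eq_mul_inv, ← hz]
      linear_combination (-η) * hza
    rw [h2] at h1
    have h3 := ev_hmg (x := (a : ℝ)) (z := z) ((b : ℝ) / a) (by rw [mul_comm]; exact hza) hT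
    have h4 : (a : ℝ) * ((b : ℝ) / a) = b := by field_simp
    rw [h4] at h3
    have h5 : ev (a : ℝ) (b : ℝ) G + ev (a : ℝ) (b : ℝ) R = 0 := by
      rw [← map_add]
      have h6 := map_ev (Int.castRingHom ℝ) a b (G + R)
      simp only [eq_intCast] at h6
      rw [← h6, hab]; simp
    have h6 : ev z ((b : ℝ) / a) (hmg d G) = -(z ^ d * ev (a : ℝ) (b : ℝ) R) := by
      have h7 : z ^ d * ev (a : ℝ) (b : ℝ) G = ev z ((b : ℝ) / a) (hmg d G) := by
        rw [h3, ← mul_assoc, ← mul_pow, hza, one_pow, one_mul]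
      rw [← h7]
      linear_combination z ^ d * h5
    rw [h6] at h1
    rw [hρ, h1, Finset.sum_div]
    apply Finset.sum_congr rfl
    intro p _
    rw [tc, tay01 (by omega) hT, ← hD]
    ring
  obtain ⟨B, hB⟩ : ∃ B, B = ((d : ℝ) + 1) ^ 2 * (d * (S * (S + 1) ^ d)) := ⟨_, rfl⟩
  have hS1K : S + 1 ≤ K ^ (s + 1) := by
    rw [pow_succ]
    have : S + 1 ≤ 2 * S := by linarith
    nlinarith
  have hBK : B ≤ K ^ (20 * d ^ 3) := by
    have hdK : (d : ℝ) ≤ K ^ d := by rw [hK]; exact d_le_pow hH'1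
    have hd1K : (d : ℝ) + 1 ≤ K ^ d := by rw [hK]; exact d1_le_pow hd0 hH'1
    calc B ≤ (K ^ d) ^ 2 * (K ^ d * (K ^ s * (K ^ (s + 1)) ^ d)) := by
          rw [hB]
          apply mul_le_mul (pow_le_pow_left₀ (by linarith) hd1K 2) _ (by positivity)
            (by positivity)
          apply mul_le_mul hdK _ (by positivity) (by positivity)
          apply mul_le_mul hSK (pow_le_pow_left₀ (by linarith) hS1K d) (by positivity)
            (by positivity)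
      _ = K ^ (3 * d ^ 3 + 7 * d ^ 2 + 9 * d + 1) := by
          rw [← pow_mul, ← pow_mul, ← pow_add, ← pow_add, ← pow_add, hs]; congr 1; ring
      _ ≤ _ := pow_le_pow_right₀ hK1 (by
          have : 1 ≤ d ^ 3 := Nat.one_le_pow _ _ hd0
          omega)
  have hSρK : Sρ ≤ K ^ (20 * d ^ 3) := by
    calc Sρ ≤ K * (K * K ^ s) ^ d * K ^ s := by
          rw [hSρ]
          apply mul_le_mul _ hSK (by linarith) (by positivity)
          apply mul_le_mul (by linarith) _ (by positivity) (by positivity)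
          apply pow_le_pow_left₀ (by positivity)
          exact mul_le_mul_of_nonneg_left hSK (by positivity)
      _ = K ^ (3 * d ^ 3 + 7 * d ^ 2 + 6 * d + 2) := by
          rw [← pow_succ', ← pow_mul, ← pow_succ', ← pow_add, hs]; congr 1; ring
      _ ≤ _ := pow_le_pow_right₀ hK1 (by
          have : 1 ≤ d ^ 3 := Nat.one_le_pow _ _ hd0
          omega)
  have hB0 : 0 ≤ B := by rw [hB]; positivity
  have hSρ0 : 0 ≤ Sρ := by rw [hSρ]; positivity
  have h4B : 4 * B * |z| ≤ 1 := by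
    have h1 : 4 * B ≤ |(a : ℝ)| := by
      calc 4 * B ≤ K * K ^ (20 * d ^ 3) := mul_le_mul hK4 hBK hB0 (by linarith)
        _ = K ^ (20 * d ^ 3 + 1) := by rw [← pow_succ']
        _ ≤ _ := hKE _ (by omega)
    calc 4 * B * |z| ≤ |(a : ℝ)| * |z| := mul_le_mul_of_nonneg_right h1 hz0.le
      _ = 1 := by rw [mul_comm]; exact hzab
  have hmain := exp_gen (d := d) (m := m) (t := tc d G η) (S := S) (β := β) (z := z) (u := u)
    (ρ := ρ) (Sρ := Sρ) (B := B) (by omega) (by omega) (by omega) hS1 htc h00 h01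
    (by rw [hβ]; exact hb) hu1 (by rw [hβ]; exact hq) hz0 hB h4B hSρ0 hρb heq
  obtain ⟨m1, m2, m3⟩ := hmain
  rw [hβ] at m1 m2
  refine ⟨?_, ?_, by rw [← hu, ← hQ]; exact hu2, by rw [← hD]; exact hDne⟩
  · rw [← hu, ← hz, c2]
    refine m1.trans ?_
    apply mul_le_mul_of_nonneg_right _ (by positivity)
    have h1 : 4 * (B + Sρ) ≤ K ^ (20 * d ^ 3 + 2) := by
      have : 4 * (B + Sρ) ≤ 8 * K ^ (20 * d ^ 3) := by linarith
      refine this.trans ?_
      rw [pow_add, mul_comm]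
      apply mul_le_mul_of_nonneg_left _ (by positivity)
      nlinarith
    calc 10 * B ^ 2 * (4 * (B + Sρ)) ^ 2
        ≤ K ^ 2 * (K ^ (20 * d ^ 3)) ^ 2 * (K ^ (20 * d ^ 3 + 2)) ^ 2 := by
          apply mul_le_mul _ (pow_le_pow_left₀ (by linarith) h1 2) (by positivity) (by positivity)
          apply mul_le_mul (by nlinarith) (pow_le_pow_left₀ hB0 hBK 2) (by positivity)
            (by positivity)
      _ = K ^ (80 * d ^ 3 + 6) := by
          rw [← pow_mul, ← pow_mul, ← pow_add, ← pow_add]; congr 1; ring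
      _ ≤ _ := pow_le_pow_right₀ hK1 (by
          have : 1 ≤ d ^ 3 := Nat.one_le_pow _ _ hd0
          omega)
  · rw [c2]
    refine m2.trans ?_
    calc 2 * B ^ 2 ≤ K * (K ^ (20 * d ^ 3)) ^ 2 := by
          apply mul_le_mul (by linarith) (pow_le_pow_left₀ hB0 hBK 2) (by positivity)
            (by positivity)
      _ = K ^ (40 * d ^ 3 + 1) := by rw [← pow_mul, ← pow_succ']; congr 1; ring
      _ ≤ _ := pow_le_pow_right₀ hK1 (by
          have : 1 ≤ d ^ 3 := Nat.one_le_pow _ _ hd0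
          omega)

end

lemma sorted_three (S : Finset (ℤ × ℤ)) (hS : 3 ≤ S.card) : ∃ P1 ∈ S, ∃ P2 ∈ S, ∃ P3 ∈ S,
    P1 ≠ P2 ∧ P2 ≠ P3 ∧ |(P1.1 : ℝ)| ≤ |(P2.1 : ℝ)| ∧ |(P2.1 : ℝ)| ≤ |(P3.1 : ℝ)| := by
  classical
  obtain ⟨P1, h1, m1⟩ := Finset.exists_min_image S (fun P => |(P.1 : ℝ)|)
    (Finset.card_pos.1 (by omega))
  have c1 := Finset.card_erase_of_mem h1
  obtain ⟨P2, h2, m2⟩ := Finset.exists_min_image (S.erase P1) (fun P => |(P.1 : ℝ)|)
    (Finset.card_pos.1 (by omega))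
  have c2 := Finset.card_erase_of_mem h2
  obtain ⟨P3, h3, m3⟩ := Finset.exists_min_image ((S.erase P1).erase P2) (fun P => |(P.1 : ℝ)|)
    (Finset.card_pos.1 (by omega))
  rw [Finset.mem_erase] at h3
  have h3' := h3.2
  rw [Finset.mem_erase] at h2 h3'
  exact ⟨P1, h1, P2, h2.2, P3, h3'.2, fun h => h2.1 h.symm, fun h => h3.1 h.symm,
    m1 P2 h2.2, m2 P3 h3.2⟩

theorem col_sgn {d m : ℕ} {G : ℤ[X][X]} {H η : ℝ} (hd : 4 ≤ d) (hm : G.Monic)
    (hdeg : G.natDegree = d) (hT : TD d G) (hH : 1 ≤ H) (hG : pn (pn zn) G ≤ H)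
    (hirr : Irreducible ((lead d G).map (Int.castRingHom ℚ)))
    (hη : evf η (lead d G) = 0) (hm3 : 3 ≤ m) (hmd : m + 2 ≤ d)
    (hq : ∀ n < m, qq (tc d G η) (bet d G η) n = 0)
    (hqm : qq (tc d G η) (bet d G η) m ≠ 0) (σ : ℝ) (hσ : σ ^ 2 = 1)
    (S : Finset (ℤ × ℤ)) (hcol : Col S) (hSσ : ∀ P ∈ S, (P.1 : ℝ) = σ * |(P.1 : ℝ)|)
    (hP : ∀ P ∈ S, (2 + 2 * H) ^ (E1 d) ≤ |(P.1 : ℝ)| ∧ |(P.2 : ℝ) / P.1 - η| ≤ cR d (2 * H) ∧
      ∃ R : ℤ[X][X], TD (d - m - 2) R ∧ pn (pn zn) R ≤ H ∧ ev P.1 P.2 (G + R) = 0) :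
    S.card ≤ 2 := by
  by_contra hcon
  push_neg at hcon
  obtain ⟨P1, h1, P2, h2, P3, h3, n12, n23, o12, o23⟩ := sorted_three S hcon
  have hd0 : 0 < d := by omega
  obtain ⟨K, hK⟩ : ∃ K, K = 2 + 2 * H := ⟨_, rfl⟩
  have hK4 : 4 ≤ K := by linarith
  have hK1 : 1 ≤ K := by linarith
  have hexp : ∀ P ∈ S, |((P.2 : ℝ) - η * P.1 - bet d G η)
      + qq (tc d G η) (bet d G η) m * (P.1 : ℝ)⁻¹ ^ (m - 1)
      + c2 d m G η * (P.1 : ℝ)⁻¹ ^ m| ≤ K ^ (86 * d ^ 3) * |(P.1 : ℝ)⁻¹| ^ (m + 1) ∧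
    |c2 d m G η| ≤ K ^ (41 * d ^ 3) ∧
    |(P.2 : ℝ) - η * P.1 - bet d G η| ≤ 2 * K ^ (64 * d ^ 3) / |(P.1 : ℝ)| ^ 2 ∧
    evf η (derivative (lead d G)) ≠ 0 := by
    intro P hPS
    obtain ⟨p1, p2, R, p3, p4, p5⟩ := hP P hPS
    rw [hK]
    exact pt_exp hd hm hdeg hT hH hG hirr hη hm3 hmd hq p3 p4 p5 p1 p2
  have hD := (hexp P1 h1).2.2.2
  have hc2 := (hexp P1 h1).2.1
  have hlow := qq_low (m := m) hd hm hdeg hT hH hG hirr hη (by omega) hD hqm
  have hK' : 2 + H ≤ K := by linarith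
  obtain ⟨s1, hs1⟩ : ∃ s1, s1 = |(P1.1 : ℝ)| := ⟨_, rfl⟩
  have hs1K : K ^ (E1 d) ≤ s1 := by rw [hs1, hK]; exact (hP P1 h1).1
  have hs11 : 1 ≤ s1 := (one_le_pow₀ hK1).trans hs1K
  have hs10 : 0 < s1 := by linarith
  have hd3 : 1 ≤ d ^ 3 := Nat.one_le_pow _ _ hd0
  have hdd3 : d ≤ d ^ 3 := Nat.le_self_pow (by norm_num) d
  have hd23 : d ^ 2 ≤ d ^ 3 := Nat.pow_le_pow_right hd0 (by norm_num)
  have hkap := one_le_kap d
  obtain ⟨κ, hκ⟩ : ∃ κ, κ = kap d := ⟨_, rfl⟩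
  obtain ⟨E2, hE2⟩ : ∃ E2, E2 = 1280 * d ^ 4 * kap d := ⟨_, rfl⟩
  have hE2d : E2 * d = E1 d := by rw [hE2, E1]; ring
  have hE2b : 1280 * d ^ 3 ≤ E2 := by
    rw [hE2]
    have h6 : d ^ 3 ≤ d ^ 4 := Nat.pow_le_pow_right hd0 (by norm_num)
    calc 1280 * d ^ 3 ≤ 1280 * d ^ 4 * 1 := by omega
      _ ≤ _ := Nat.mul_le_mul_left _ hkap
  have hE21 : E2 ≤ E1 d := by rw [← hE2d]; exact Nat.le_mul_of_pos_right _ hd0
  -- the numbers u
  have hu : ∀ P ∈ S, s1 ≤ |(P.1 : ℝ)| →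
      |(P.2 : ℝ) - η * P.1 - bet d G η| ≤ 2 * K ^ (64 * d ^ 3) / s1 ^ 2 := by
    intro P hPS hs
    refine (hexp P hPS).2.2.1.trans ?_
    apply div_le_div_of_nonneg_left (by positivity) (by positivity)
    exact pow_le_pow_left₀ hs10.le hs 2
  have hδ : 4 * K ^ (64 * d ^ 3) / s1 ^ 2 < 1 := by
    rw [div_lt_one (by positivity)]
    calc 4 * K ^ (64 * d ^ 3) ≤ K * K ^ (64 * d ^ 3) :=
          mul_le_mul_of_nonneg_right hK4 (by positivity)
      _ = K ^ (64 * d ^ 3 + 1) := by rw [← pow_succ']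
      _ < K ^ (E1 d * 2) := pow_lt_pow_right₀ (by linarith) (by omega)
      _ = (K ^ (E1 d)) ^ 2 := by rw [← pow_mul]
      _ ≤ s1 ^ 2 := pow_le_pow_left₀ (by positivity) hs1K 2
  have hdiff : ∀ P ∈ S, ∀ P' ∈ S, s1 ≤ |(P.1 : ℝ)| → s1 ≤ |(P'.1 : ℝ)| →
      |((P'.2 - P.2 : ℤ) : ℝ) - η * ((P'.1 - P.1 : ℤ) : ℝ)| ≤ 4 * K ^ (64 * d ^ 3) / s1 ^ 2 := by
    intro P hPS P' hPS' hs hs'
    have e : ((P'.2 - P.2 : ℤ) : ℝ) - η * ((P'.1 - P.1 : ℤ) : ℝ)
        = ((P'.2 : ℝ) - η * P'.1 - bet d G η) - ((P.2 : ℝ) - η * P.1 - bet d G η) := by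
      push_cast; ring
    rw [e]
    refine (abs_sub _ _).trans ?_
    have a1 := hu P hPS hs
    have a2 := hu P' hPS' hs'
    have a3 : 4 * K ^ (64 * d ^ 3) / s1 ^ 2 = 2 * K ^ (64 * d ^ 3) / s1 ^ 2
        + 2 * K ^ (64 * d ^ 3) / s1 ^ 2 := by ring
    rw [a3]
    linarith
  have hgap : ∀ P ∈ S, ∀ P' ∈ S, P ≠ P' → s1 ≤ |(P.1 : ℝ)| → |(P.1 : ℝ)| ≤ |(P'.1 : ℝ)| →
      |(P.1 : ℝ)| + K ^ E2 ≤ |(P'.1 : ℝ)| := by
    intro P hPS P' hPS' hne hs hs'
    have hdf := hdiff P hPS P' hPS' hs (hs.trans hs')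
    have hA : P'.1 - P.1 ≠ 0 := by
      intro h0
      rw [h0, Int.cast_zero, mul_zero, sub_zero] at hdf
      have h4 : |((P'.2 - P.2 : ℤ) : ℝ)| < 1 := lt_of_le_of_lt hdf hδ
      have h5 : |P'.2 - P.2| < 1 := by exact_mod_cast h4
      have h6 := Int.abs_lt_one_iff.1 h5
      apply hne
      apply Prod.ext
      · omega
      · omega
    have h4 := gap_low hd hm hdeg hT hH hG hirr hη hA hdf hδ.le
    have h5 : |((P'.1 - P.1 : ℤ) : ℝ)| = |(P'.1 : ℝ)| - |(P.1 : ℝ)| := by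
      push_cast
      rw [hSσ P hPS, hSσ P' hPS', abs_mul, abs_abs, abs_mul, abs_abs]
      have hσ1 : |σ| = 1 := by
        have : |σ| ^ 2 = 1 := by rw [sq_abs]; exact hσ
        have h0 := abs_nonneg σ
        nlinarith
      rw [hσ1, ← mul_sub, abs_mul, hσ1, one_mul, one_mul, one_mul, abs_of_nonneg (by linarith)]
    rw [h5] at h4
    obtain ⟨A, hAA⟩ : ∃ A, A = |(P'.1 : ℝ)| - |(P.1 : ℝ)| := ⟨_, rfl⟩
    rw [← hAA] at h4
    have hA0 : 0 ≤ A := by linarith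
    have h6 : K ^ (E1 d) ≤ A ^ d := by
      have h7 : (2 + H) ^ (d ^ 2 + 5 * d) ≤ K ^ (d ^ 2 + 5 * d) :=
        pow_le_pow_left₀ (by linarith) hK' _
      have h8 : s1 ^ 2 ≤ 4 * K ^ (64 * d ^ 3) * (K ^ (d ^ 2 + 5 * d) * A ^ d) := by
        have h9 : 1 ≤ 4 * K ^ (64 * d ^ 3) / s1 ^ 2 * (K ^ (d ^ 2 + 5 * d) * A ^ d) := by
          refine h4.trans ?_
          apply mul_le_mul_of_nonneg_left _ (by positivity)
          exact mul_le_mul_of_nonneg_right h7 (by positivity)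
        rw [div_mul_eq_mul_div, one_le_div (by positivity)] at h9
        exact h9
      have h9 : K ^ (E1 d) * K ^ (E1 d) ≤ K ^ (E1 d) * A ^ d := by
        calc K ^ (E1 d) * K ^ (E1 d) ≤ s1 * s1 := mul_le_mul hs1K hs1K (by positivity) hs10.le
          _ = s1 ^ 2 := (sq s1).symm
          _ ≤ _ := h8
          _ ≤ K * K ^ (64 * d ^ 3) * (K ^ (d ^ 2 + 5 * d) * A ^ d) := by
              apply mul_le_mul_of_nonneg_right _ (by positivity)
              exact mul_le_mul_of_nonneg_right hK4 (by positivity)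
          _ = K ^ (1 + 64 * d ^ 3 + (d ^ 2 + 5 * d)) * A ^ d := by
              rw [pow_add K (1 + 64 * d ^ 3), pow_add K 1, pow_one]; ring
          _ ≤ _ := by
              apply mul_le_mul_of_nonneg_right _ (by positivity)
              exact pow_le_pow_right₀ hK1 (by omega)
      exact le_of_mul_le_mul_left h9 (by positivity)
    have h10 : K ^ E2 ≤ A := by
      rw [← hE2d, pow_mul] at h6
      exact le_of_pow_le_pow_left₀ (by omega) hA0 h6
    linarith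
  have o13 : s1 ≤ |(P2.1 : ℝ)| := by rw [hs1]; exact o12
  have g12 := hgap P1 h1 P2 h2 n12 hs1.le o12
  have g23 := hgap P2 h2 P3 h3 n23 o13 o23
  obtain ⟨qm, hqmd⟩ : ∃ qm, qm = qq (tc d G η) (bet d G η) m := ⟨_, rfl⟩
  rw [← hqmd] at hqm hlow hexp
  obtain ⟨n, hn⟩ : ∃ n, n = m - 1 := ⟨_, rfl⟩
  have hn1 : n + 1 = m := by omega
  have hσn : ∀ k : ℕ, |σ ^ k| = 1 := by
    intro k
    have hσ1 : |σ| = 1 := by
      have : |σ| ^ 2 = 1 := by rw [sq_abs]; exact hσ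
      have h0 := abs_nonneg σ
      nlinarith
    rw [abs_pow, hσ1, one_pow]
  have hpt : ∀ P ∈ S, |((P.2 : ℝ) - η * P.1 - bet d G η) - (-(σ ^ n * qm)) * |(P.1 : ℝ)|⁻¹ ^ n
      - (-(σ ^ (n + 1) * c2 d m G η)) * |(P.1 : ℝ)|⁻¹ ^ (n + 1)|
      ≤ K ^ (86 * d ^ 3) * |(P.1 : ℝ)|⁻¹ ^ (n + 2) := by
    intro P hPS
    have h4 := (hexp P hPS).1
    have h5 : (P.1 : ℝ)⁻¹ = σ * |(P.1 : ℝ)|⁻¹ := by
      have hσi : σ⁻¹ = σ := by
        have h0 : σ ≠ 0 := by rintro rfl; norm_num at hσ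
        field_simp
        rw [hσ]
      conv_lhs => rw [hSσ P hPS]
      rw [mul_inv, hσi]
    rw [← hn, abs_inv] at h4
    rw [h5, mul_pow, mul_pow] at h4
    have e1 : m + 1 = n + 2 := by omega
    rw [e1] at h4
    have e2 : ((P.2 : ℝ) - η * P.1 - bet d G η) - (-(σ ^ n * qm)) * |(P.1 : ℝ)|⁻¹ ^ n
      - (-(σ ^ (n + 1) * c2 d m G η)) * |(P.1 : ℝ)|⁻¹ ^ (n + 1)
      = ((P.2 : ℝ) - η * P.1 - bet d G η) + qm * (σ ^ n * |(P.1 : ℝ)|⁻¹ ^ n)
        + c2 d m G η * (σ ^ m * |(P.1 : ℝ)|⁻¹ ^ m) := by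
      rw [hn1]; ring
    rw [e2]
    exact h4
  have hcolr : ((P1.2 : ℝ) - η * P1.1 - bet d G η) * (|(P3.1 : ℝ)| - |(P2.1 : ℝ)|)
      - ((P2.2 : ℝ) - η * P2.1 - bet d G η) * (|(P3.1 : ℝ)| - |(P1.1 : ℝ)|)
      + ((P3.2 : ℝ) - η * P3.1 - bet d G η) * (|(P2.1 : ℝ)| - |(P1.1 : ℝ)|) = 0 := by
    have h4 := hcol P1 h1 P2 h2 P3 h3
    have h5 : ((P2.1 : ℝ) - P1.1) * ((P3.2 : ℝ) - P1.2)
        - ((P3.1 : ℝ) - P1.1) * ((P2.2 : ℝ) - P1.2) = 0 := by exact_mod_cast h4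
    have hab : ∀ P ∈ S, |(P.1 : ℝ)| = σ * P.1 := by
      intro P hPS
      have h6 := hSσ P hPS
      calc |(P.1 : ℝ)| = σ ^ 2 * |(P.1 : ℝ)| := by rw [hσ, one_mul]
        _ = σ * (σ * |(P.1 : ℝ)|) := by ring
        _ = σ * P.1 := by rw [← h6]
    rw [hab P1 h1, hab P2 h2, hab P3 h3]
    linear_combination σ * h5
  have hc0 : -(σ ^ n * qm) ≠ 0 := by
    rw [neg_ne_zero]
    apply mul_ne_zero _ hqm
    intro h0
    have := hσn n
    rw [h0, abs_zero] at this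
    norm_num at this
  have hcabs : |-(σ ^ n * qm)| = |qm| := by rw [abs_neg, abs_mul, hσn, one_mul]
  have hc'abs : |-(σ ^ (n + 1) * c2 d m G η)| = |c2 d m G η| := by
    rw [abs_neg, abs_mul, hσn, one_mul]
  have hlow' : 1 ≤ |qm| * K ^ (14 * d ^ 3) := by
    refine hlow.trans ?_
    apply mul_le_mul_of_nonneg_left _ (abs_nonneg _)
    exact pow_le_pow_left₀ (by linarith) hK' _
  have hd1K : (d : ℝ) + 1 ≤ K ^ d := by
    have h4 := d1_le_pow (d := d) (H := 2 * H) hd0 (by linarith)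
    rw [hK]; exact h4
  rw [← hs1] at hcolr g12
  have hp1 := hpt P1 h1
  rw [← hs1] at hp1
  refine tri_s (s1 := s1) (s2 := |(P2.1 : ℝ)|) (s3 := |(P3.1 : ℝ)|) (q := K ^ E2)
    (ω := K ^ (86 * d ^ 3)) (n := n) (by omega) (by positivity) ?_ g12 g23 hc0 ?_ (by positivity) ?_
    hp1 (hpt P2 h2) (hpt P3 h3) hcolr
  · exact (pow_le_pow_right₀ hK1 hE21).trans hs1K
  · rw [hcabs, hc'abs]
    have h4 : (n : ℝ) + 2 ≤ d + 1 := by
      have : n + 2 ≤ d + 1 := by omega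
      exact_mod_cast this
    calc 2 * ((n : ℝ) + 2) * |c2 d m G η| ≤ K * K ^ d * K ^ (41 * d ^ 3) := by
          apply mul_le_mul _ hc2 (abs_nonneg _) (by positivity)
          exact mul_le_mul (by linarith) (h4.trans hd1K) (by positivity) (by linarith)
      _ = 1 * K ^ (1 + d + 41 * d ^ 3) := by rw [pow_add, pow_add, pow_one, one_mul]
      _ ≤ (|qm| * K ^ (14 * d ^ 3)) * K ^ (1 + d + 41 * d ^ 3) :=
          mul_le_mul_of_nonneg_right hlow' (by positivity)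
      _ = |qm| * K ^ (14 * d ^ 3 + (1 + d + 41 * d ^ 3)) := by rw [pow_add K (14 * d ^ 3)]; ring
      _ ≤ |qm| * K ^ (E1 d) := by
          apply mul_le_mul_of_nonneg_left _ (abs_nonneg _)
          exact pow_le_pow_right₀ hK1 (by omega)
      _ ≤ _ := mul_le_mul_of_nonneg_left hs1K (abs_nonneg _)
  · rw [hcabs]
    calc 32 * K ^ (86 * d ^ 3) ≤ K ^ 3 * K ^ (86 * d ^ 3) := by
          apply mul_le_mul_of_nonneg_right _ (by positivity)
          calc (32 : ℝ) ≤ 4 ^ 3 := by norm_num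
            _ ≤ K ^ 3 := pow_le_pow_left₀ (by norm_num) hK4 3
      _ = 1 * K ^ (3 + 86 * d ^ 3) := by rw [pow_add, one_mul]
      _ ≤ (|qm| * K ^ (14 * d ^ 3)) * K ^ (3 + 86 * d ^ 3) :=
          mul_le_mul_of_nonneg_right hlow' (by positivity)
      _ = |qm| * K ^ (14 * d ^ 3 + (3 + 86 * d ^ 3)) := by rw [pow_add K (14 * d ^ 3)]; ring
      _ ≤ |qm| * K ^ (E2 * 2) := by
          apply mul_le_mul_of_nonneg_left _ (abs_nonneg _)
          exact pow_le_pow_right₀ hK1 (by omega)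
      _ = _ := by rw [pow_mul]

theorem col_four {d m : ℕ} {G : ℤ[X][X]} {H η : ℝ} (hd : 4 ≤ d) (hm : G.Monic)
    (hdeg : G.natDegree = d) (hT : TD d G) (hH : 1 ≤ H) (hG : pn (pn zn) G ≤ H)
    (hirr : Irreducible ((lead d G).map (Int.castRingHom ℚ)))
    (hη : evf η (lead d G) = 0) (hm3 : 3 ≤ m) (hmd : m + 2 ≤ d)
    (hq : ∀ n < m, qq (tc d G η) (bet d G η) n = 0)
    (hqm : qq (tc d G η) (bet d G η) m ≠ 0)
    (S : Finset (ℤ × ℤ)) (hcol : Col S)
    (hP : ∀ P ∈ S, (2 + 2 * H) ^ (E1 d) ≤ |(P.1 : ℝ)| ∧ |(P.2 : ℝ) / P.1 - η| ≤ cR d (2 * H) ∧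
      ∃ R : ℤ[X][X], TD (d - m - 2) R ∧ pn (pn zn) R ≤ H ∧ ev P.1 P.2 (G + R) = 0) :
    S.card ≤ 4 := by
  classical
  have hsplit := Finset.card_filter_add_card_filter_not (s := S) (fun P => 0 ≤ P.1)
  have h1 := col_sgn hd hm hdeg hT hH hG hirr hη hm3 hmd hq hqm 1 (by norm_num)
    (S.filter (fun P => 0 ≤ P.1)) (by
      intro P hP Q hQ R hR
      rw [Finset.mem_filter] at hP hQ hR
      exact hcol P hP.1 Q hQ.1 R hR.1) (by
      intro P hP
      rw [Finset.mem_filter] at hP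
      have : (0 : ℝ) ≤ P.1 := by exact_mod_cast hP.2
      rw [abs_of_nonneg this, one_mul]) (by
      intro P hP'
      rw [Finset.mem_filter] at hP'
      exact hP P hP'.1)
  have h2 := col_sgn hd hm hdeg hT hH hG hirr hη hm3 hmd hq hqm (-1) (by norm_num)
    (S.filter (fun P => ¬ 0 ≤ P.1)) (by
      intro P hP Q hQ R hR
      rw [Finset.mem_filter] at hP hQ hR
      exact hcol P hP.1 Q hQ.1 R hR.1) (by
      intro P hP
      rw [Finset.mem_filter] at hP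
      have : (P.1 : ℝ) ≤ 0 := by exact_mod_cast (not_le.1 hP.2).le
      rw [abs_of_nonpos this]; ring) (by
      intro P hP'
      rw [Finset.mem_filter] at hP'
      exact hP P hP'.1)
  omega

end Pool.Agent.H322R2
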