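import Pool.Agent.H322R2.Exp1

/-!
Two terms of the expansion at infinity of a branch with an asymptote of high order contact.
-/

open Polynomial Finset

namespace Pool.Agent.H322R2

/-- coefficient of the restriction to the asymptote -/
noncomputable def qq (t : ℕ × ℕ → ℝ) (β : ℝ) (n : ℕ) : ℝ :=
  ∑ p ∈ antidiagonal n, t p * β ^ p.2

/-- restriction to the asymptote -/
noncomputable def QQ (d : ℕ) (t : ℕ × ℕ → ℝ) (β : ℝ) : ℝ[X] :=
  ∑ p ∈ range (d + 1) ×ˢ range (d + 1), C (t p * β ^ p.2) * X ^ (p.1 + p.2)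

lemma QQ_coeff {d n : ℕ} (hn : n ≤ d) (t : ℕ × ℕ → ℝ) (β : ℝ) : (QQ d t β).coeff n = qq t β n := by
  classical
  rw [QQ, finsetSum_coeff, qq]
  have h1 : ∀ p ∈ range (d + 1) ×ˢ range (d + 1), (C (t p * β ^ p.2) * X ^ (p.1 + p.2) : ℝ[X]).coeff n
      = if p.1 + p.2 = n then t p * β ^ p.2 else 0 := by
    intro p _
    rw [coeff_C_mul, coeff_X_pow]
    by_cases h : p.1 + p.2 = n
    · rw [if_pos h, if_pos h.symm, mul_one]
    · rw [if_neg h, if_neg (fun h' => h h'.symm), mul_zero]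
  rw [Finset.sum_congr rfl h1, ← Finset.sum_filter]
  apply Finset.sum_congr _ (fun _ _ => rfl)
  ext p
  rw [Finset.mem_filter, Finset.mem_product, Finset.mem_range, Finset.mem_range,
    Finset.HasAntidiagonal.mem_antidiagonal]
  constructor
  · exact fun h => h.2
  · intro h
    exact ⟨⟨by omega, by omega⟩, h⟩

lemma abs_pow_sub_le {v β u V : ℝ} (hV : 1 ≤ V) (hv : |v| ≤ V) (hβ : |β| ≤ V) (hu : v - β = u)
    (k : ℕ) : |v ^ k - β ^ k| ≤ k * V ^ k * |u| := by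
  have hV0 : 0 ≤ V := by linarith
  induction k with
  | zero => simp
  | succ k ih =>
    have h1 : v ^ (k + 1) - β ^ (k + 1) = v * (v ^ k - β ^ k) + u * β ^ k := by
      rw [← hu]; ring
    rw [h1]
    refine (abs_add_le _ _).trans ?_
    rw [abs_mul, abs_mul, abs_pow]
    have h2 : |v| * |v ^ k - β ^ k| ≤ V * (k * V ^ k * |u|) :=
      mul_le_mul hv ih (abs_nonneg _) hV0
    have h3 : |u| * |β| ^ k ≤ |u| * V ^ (k + 1) := by
      apply mul_le_mul_of_nonneg_left _ (abs_nonneg _)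
      exact (pow_le_pow_left₀ (abs_nonneg _) hβ k).trans (pow_le_pow_right₀ hV (by omega))
    have h4 : ((k + 1 : ℕ) : ℝ) * V ^ (k + 1) * |u| = V * (k * V ^ k * |u|) + |u| * V ^ (k + 1) := by
      push_cast; ring
    linarith

section

variable {d m : ℕ} {t : ℕ × ℕ → ℝ} {S β z u ρ Sρ B : ℝ}

lemma pn_QQ_le (hS : 1 ≤ S) (ht : ∀ p ∈ range (d + 1) ×ˢ range (d + 1), |t p| ≤ S)
    (hβS : |β| ≤ S) : pn rn (QQ d t β) ≤ ((d : ℝ) + 1) ^ 2 * (S * (S + 1) ^ d) := by
  rw [QQ]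
  refine (seminorm_sum_le _ _ _).trans ?_
  have h1 : ∀ p ∈ range (d + 1) ×ˢ range (d + 1),
      pn rn (C (t p * β ^ p.2) * X ^ (p.1 + p.2) : ℝ[X]) ≤ S * (S + 1) ^ d := by
    intro p hp
    rw [C_mul_X_pow_eq_monomial, pn_monomial, rn_apply, abs_mul, abs_pow]
    rw [Finset.mem_product, Finset.mem_range, Finset.mem_range] at hp
    apply mul_le_mul (ht p (by
      rw [Finset.mem_product, Finset.mem_range, Finset.mem_range]; exact hp)) _ (by positivity)
      (by linarith)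
    calc |β| ^ p.2 ≤ (S + 1) ^ p.2 := pow_le_pow_left₀ (abs_nonneg _) (by linarith) _
      _ ≤ (S + 1) ^ d := pow_le_pow_right₀ (by linarith) (by omega)
  refine (Finset.sum_le_sum h1).trans ?_
  rw [Finset.sum_const, Finset.card_product, Finset.card_range, nsmul_eq_mul]
  apply le_of_eq
  push_cast
  ring

theorem exp_gen (hd : 2 ≤ d) (hm : 2 ≤ m) (hmd : m + 1 ≤ d) (hS : 1 ≤ S)
    (ht : ∀ p ∈ range (d + 1) ×ˢ range (d + 1), |t p| ≤ S) (h00 : t (0, 0) = 0)
    (h01 : t (0, 1) = 1) (hβS : |β| ≤ S) (hu : |u| ≤ 1)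
    (hq : ∀ n < m, qq t β n = 0) (hz0 : 0 < |z|)
    (hB : B = ((d : ℝ) + 1) ^ 2 * (d * (S * (S + 1) ^ d))) (hz : 4 * B * |z| ≤ 1)
    (hSρ : 0 ≤ Sρ) (hρ : |ρ| ≤ Sρ * |z| ^ (m + 2))
    (heq : ∑ p ∈ range (d + 1) ×ˢ range (d + 1), t p * z ^ p.1 * (z * (β + u)) ^ p.2 = ρ) :
    |u + qq t β m * z ^ (m - 1)
      + (qq t β (m + 1) - (t (1, 1) + 2 * β * t (0, 2)) * qq t β m) * z ^ m|
      ≤ 10 * B ^ 2 * (4 * (B + Sρ)) ^ 2 * |z| ^ (m + 1) ∧
    |qq t β (m + 1) - (t (1, 1) + 2 * β * t (0, 2)) * qq t β m| ≤ 2 * B ^ 2 ∧ 1 ≤ B := by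
  classical
  have hd2 : (2 : ℝ) ≤ d := by exact_mod_cast hd
  obtain ⟨V, hV⟩ : ∃ V, V = S + 1 := ⟨_, rfl⟩
  have hV1 : 1 ≤ V := by linarith
  have hVd : 1 ≤ V ^ d := one_le_pow₀ hV1
  have hVd2 : S ≤ V ^ d := by
    calc S ≤ V := by linarith
      _ = V ^ 1 := (pow_one _).symm
      _ ≤ V ^ d := pow_le_pow_right₀ hV1 (by omega)
  obtain ⟨y, hy⟩ : ∃ y, y = |z| := ⟨_, rfl⟩
  rw [← hV] at hB
  have hSV : S ≤ S * V ^ d := le_mul_of_one_le_right (by linarith) hVd
  have hS2V : S ^ 2 ≤ S * V ^ d := by rw [sq]; exact mul_le_mul_of_nonneg_left hVd2 (by linarith)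
  have hSV0 : 0 ≤ S * V ^ d := by linarith
  have hd9 : (9 : ℝ) ≤ ((d : ℝ) + 1) ^ 2 := by nlinarith
  have hB18 : 18 * (S * V ^ d) ≤ B := by
    rw [hB]
    have h1 : 2 * (S * V ^ d) ≤ d * (S * V ^ d) := mul_le_mul_of_nonneg_right hd2 hSV0
    nlinarith
  have hBS : S ≤ B := by linarith
  have hB1 : 1 ≤ B := by linarith
  have hB0 : 0 ≤ B := by linarith
  have hy0 : 0 < y := by rw [hy]; exact hz0
  have hy1 : y ≤ 1 := by
    rw [← hy] at hz
    nlinarith
  have hpnQ : pn rn (QQ d t β) ≤ B := by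
    refine (pn_QQ_le hS ht hβS).trans ?_
    rw [hB, ← hV]
    apply mul_le_mul_of_nonneg_left _ (by positivity)
    exact le_mul_of_one_le_left hSV0 (by linarith)
  -- D'
  obtain ⟨D', hD'⟩ : ∃ D', D' = t (1, 1) + 2 * β * t (0, 2) := ⟨_, rfl⟩
  have ht11 : |t (1, 1)| ≤ S := ht _ (by simp; omega)
  have ht02 : |t (0, 2)| ≤ S := ht _ (by simp; omega)
  have hD'B : |D'| ≤ B := by
    rw [hD']
    refine (abs_add_le _ _).trans ?_
    have h1 : |2 * β * t (0, 2)| ≤ 2 * (S * S) := by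
      rw [abs_mul, abs_mul, abs_two, mul_assoc]
      apply mul_le_mul_of_nonneg_left _ (by norm_num)
      exact mul_le_mul hβS ht02 (abs_nonneg _) (by linarith)
    have h2 : S * S = S ^ 2 := by ring
    rw [h2] at h1
    linarith
  obtain ⟨v, hv⟩ : ∃ v, v = β + u := ⟨_, rfl⟩
  have hvV : |v| ≤ V := by
    rw [hv, hV]
    refine (abs_add_le _ _).trans ?_
    linarith
  have hβV : |β| ≤ V := by linarith
  have hvu : v - β = u := by rw [hv]; ring
  -- the decomposition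
  obtain ⟨g, hg⟩ : ∃ g : ℕ × ℕ → ℝ, g = fun p => t p * z ^ (p.1 + p.2) * (v ^ p.2 - β ^ p.2) :=
    ⟨_, rfl⟩
  obtain ⟨I, hI⟩ : ∃ I, I = range (d + 1) ×ˢ range (d + 1) := ⟨_, rfl⟩
  rw [← hI] at heq ht
  have hsum : (QQ d t β).eval z + ∑ p ∈ I, g p = ρ := by
    rw [← heq, QQ, eval_finsetSum, ← hI, ← Finset.sum_add_distrib]
    apply Finset.sum_congr rfl
    intro p _
    rw [hg]
    simp only [eval_mul, eval_C, eval_pow, eval_X]
    rw [← hv, mul_pow, pow_add]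
    ring
  have hsplit := Finset.sum_filter_add_sum_filter_not I (fun p : ℕ × ℕ => p.1 + p.2 ≤ 2) g
  have hlow : ∑ p ∈ I.filter (fun p : ℕ × ℕ => p.1 + p.2 ≤ 2), g p
      = z * u + D' * z ^ 2 * u + t (0, 2) * z ^ 2 * u ^ 2 := by
    have h1 : I.filter (fun p : ℕ × ℕ => p.1 + p.2 ≤ 2)
        = {(0, 0), (0, 1), (0, 2), (1, 0), (1, 1), (2, 0)} := by
      ext ⟨a, b⟩
      rw [Finset.mem_filter, hI, Finset.mem_product, Finset.mem_range, Finset.mem_range]
      simp only [Finset.mem_insert, Finset.mem_singleton, Prod.mk.injEq]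
      omega
    rw [h1]
    rw [Finset.sum_insert (by simp), Finset.sum_insert (by simp), Finset.sum_insert (by simp),
      Finset.sum_insert (by simp), Finset.sum_insert (by simp), Finset.sum_singleton, hg]
    simp only [h01, hD']
    have hv' : v = β + u := hv
    rw [hv']
    ring
  obtain ⟨E3, hE3⟩ : ∃ E3, E3 = ∑ p ∈ I.filter (fun p : ℕ × ℕ => ¬ p.1 + p.2 ≤ 2), g p := ⟨_, rfl⟩
  have hE3b : |E3| ≤ B * y ^ 3 * |u| := by
    rw [hE3]
    refine (Finset.abs_sum_le_sum_abs _ _).trans ?_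
    have h1 : ∀ p ∈ I.filter (fun p : ℕ × ℕ => ¬ p.1 + p.2 ≤ 2),
        |g p| ≤ S * y ^ 3 * (d * V ^ d * |u|) := by
      intro p hp
      rw [Finset.mem_filter] at hp
      have hpI := hp.1
      rw [hI, Finset.mem_product, Finset.mem_range, Finset.mem_range] at hpI
      rw [hg]
      simp only
      rw [abs_mul, abs_mul, abs_pow, ← hy]
      apply mul_le_mul _ _ (abs_nonneg _) (by positivity)
      · apply mul_le_mul (ht p hp.1) _ (by positivity) (by linarith)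
        exact pow_le_pow_of_le_one hy0.le hy1 (by omega)
      · refine (abs_pow_sub_le hV1 hvV hβV hvu p.2).trans ?_
        apply mul_le_mul_of_nonneg_right _ (abs_nonneg _)
        apply mul_le_mul
        · have : p.2 ≤ d := by omega
          exact_mod_cast this
        · exact pow_le_pow_right₀ hV1 (by omega)
        · positivity
        · positivity
    refine (Finset.sum_le_sum h1).trans ?_
    rw [Finset.sum_const, nsmul_eq_mul]
    have h2 : ((I.filter (fun p : ℕ × ℕ => ¬ p.1 + p.2 ≤ 2)).card : ℝ) ≤ ((d : ℝ) + 1) ^ 2 := by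
      have h3 := Finset.card_filter_le I (fun p : ℕ × ℕ => ¬ p.1 + p.2 ≤ 2)
      have h4 : I.card = (d + 1) ^ 2 := by
        rw [hI, Finset.card_product, Finset.card_range]; ring
      rw [h4] at h3
      exact_mod_cast h3
    calc _ ≤ ((d : ℝ) + 1) ^ 2 * (S * y ^ 3 * (d * V ^ d * |u|)) :=
          mul_le_mul_of_nonneg_right h2 (by positivity)
      _ = _ := by rw [hB]; ring
  have hE : z * u + D' * z ^ 2 * u + t (0, 2) * z ^ 2 * u ^ 2 + E3 + (QQ d t β).eval z = ρ := by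
    rw [← hsum, ← hsplit, hlow, ← hE3]; ring
  -- bounds of the polynomial
  have hzle : |z| ≤ 1 := by rw [← hy]; exact hy1
  have hdvd : X ^ m ∣ QQ d t β := by
    rw [X_pow_dvd_iff]
    intro n hn
    rw [QQ_coeff (by omega)]
    exact hq n hn
  obtain ⟨qm, hqm⟩ : ∃ qm, qm = qq t β m := ⟨_, rfl⟩
  obtain ⟨qn, hqn⟩ : ∃ qn, qn = qq t β (m + 1) := ⟨_, rfl⟩
  have hqmB : |qm| ≤ B := by
    have h1 := coeff_le_pn rn (QQ d t β) m
    rw [QQ_coeff (by omega), ← hqm, rn_apply] at h1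
    exact h1.trans hpnQ
  have hqnB : |qn| ≤ B := by
    have h1 := coeff_le_pn rn (QQ d t β) (m + 1)
    rw [QQ_coeff (by omega), ← hqn, rn_apply] at h1
    exact h1.trans hpnQ
  have hev0 : |(QQ d t β).eval z| ≤ B * y ^ m := by
    have h1 := abs_eval_le hdvd hzle
    rw [← hy] at h1
    refine h1.trans ?_
    rw [mul_comm]
    exact mul_le_mul_of_nonneg_right hpnQ (by positivity)
  have hev1 : |(QQ d t β).eval z - qm * z ^ m| ≤ 2 * B * y ^ (m + 1) := by
    have h1 : X ^ (m + 1) ∣ QQ d t β - C qm * X ^ m := by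
      rw [X_pow_dvd_iff]
      intro n hn
      rw [coeff_sub, coeff_C_mul, coeff_X_pow]
      by_cases h : n = m
      · rw [if_pos h, h, QQ_coeff (by omega), ← hqm]; ring
      · rw [if_neg h, QQ_coeff (by omega), hq n (by omega)]; ring
    have h2 := abs_eval_le h1 hzle
    rw [eval_sub, eval_mul, eval_C, eval_pow, eval_X, ← hy] at h2
    refine h2.trans ?_
    rw [mul_comm]
    apply mul_le_mul_of_nonneg_right _ (by positivity)
    refine (map_sub_le_add _ _ _).trans ?_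
    rw [C_mul_X_pow_eq_monomial, pn_monomial, rn_apply]
    linarith
  have hev2 : |(QQ d t β).eval z - qm * z ^ m - qn * z ^ (m + 1)| ≤ 3 * B * y ^ (m + 2) := by
    have h1 : X ^ (m + 2) ∣ QQ d t β - C qm * X ^ m - C qn * X ^ (m + 1) := by
      rw [X_pow_dvd_iff]
      intro n hn
      rw [coeff_sub, coeff_sub, coeff_C_mul, coeff_X_pow, coeff_C_mul, coeff_X_pow]
      by_cases h : n = m
      · rw [if_pos h, if_neg (by omega), h, QQ_coeff (by omega), ← hqm]; ring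
      · by_cases h' : n = m + 1
        · rw [if_neg h, if_pos h', h', QQ_coeff (by omega), ← hqn]; ring
        · rw [if_neg h, if_neg h', QQ_coeff (by omega), hq n (by omega)]; ring
    have h2 := abs_eval_le h1 hzle
    rw [eval_sub, eval_sub, eval_mul, eval_C, eval_pow, eval_X, eval_mul, eval_C, eval_pow, eval_X,
      ← hy] at h2
    refine h2.trans ?_
    rw [mul_comm]
    apply mul_le_mul_of_nonneg_right _ (by positivity)
    refine (map_sub_le_add _ _ _).trans ?_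
    have h3 := map_sub_le_add (pn rn) (QQ d t β) (C qm * X ^ m)
    have h4 : pn rn (C qm * X ^ m : ℝ[X]) = |qm| := by
      rw [C_mul_X_pow_eq_monomial, pn_monomial, rn_apply]
    have h5 : pn rn (C qn * X ^ (m + 1) : ℝ[X]) = |qn| := by
      rw [C_mul_X_pow_eq_monomial, pn_monomial, rn_apply]
    rw [h4] at h3
    rw [h5]
    linarith
  -- step 1
  rw [← hy] at hz hρ
  have hzu : |z * u| = y * |u| := by rw [abs_mul, ← hy]
  have hDzu : |D' * z ^ 2 * u| ≤ B * y ^ 2 * |u| := by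
    rw [abs_mul, abs_mul, abs_pow, ← hy]
    apply mul_le_mul_of_nonneg_right _ (abs_nonneg _)
    exact mul_le_mul_of_nonneg_right hD'B (by positivity)
  have hTzu : |t (0, 2) * z ^ 2 * u ^ 2| ≤ S * y ^ 2 * |u| ^ 2 := by
    rw [abs_mul, abs_mul, abs_pow, abs_pow, ← hy]
    apply mul_le_mul_of_nonneg_right _ (by positivity)
    exact mul_le_mul_of_nonneg_right ht02 (by positivity)
  have hym2 : y ^ (m + 2) ≤ y ^ m := pow_le_pow_of_le_one hy0.le hy1 (by omega)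
  have hρm : |ρ| ≤ Sρ * y ^ m := hρ.trans (mul_le_mul_of_nonneg_left hym2 hSρ)
  have hstep1 : y * |u| ≤ 4 * (B + Sρ) * y ^ m := by
    have h1 : z * u = ρ - D' * z ^ 2 * u - t (0, 2) * z ^ 2 * u ^ 2 - E3 - (QQ d t β).eval z := by
      linarith
    have h2 : y * |u| ≤ |ρ| + |D' * z ^ 2 * u| + |t (0, 2) * z ^ 2 * u ^ 2| + |E3|
        + |(QQ d t β).eval z| := by
      rw [← hzu, h1]
      have a1 := abs_sub (ρ - D' * z ^ 2 * u - t (0, 2) * z ^ 2 * u ^ 2 - E3) ((QQ d t β).eval z)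
      have a2 := abs_sub (ρ - D' * z ^ 2 * u - t (0, 2) * z ^ 2 * u ^ 2) E3
      have a3 := abs_sub (ρ - D' * z ^ 2 * u) (t (0, 2) * z ^ 2 * u ^ 2)
      have a4 := abs_sub ρ (D' * z ^ 2 * u)
      linarith
    have hyu : 0 ≤ y * |u| := by positivity
    have h3 : B * y ^ 2 * |u| = (B * y) * (y * |u|) := by ring
    have h4 : S * y ^ 2 * |u| ^ 2 ≤ (B * y) * (y * |u|) := by
      have : S * y ^ 2 * |u| ^ 2 = (S * y * |u|) * (y * |u|) := by ring
      rw [this]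
      apply mul_le_mul_of_nonneg_right _ hyu
      calc S * y * |u| ≤ S * y * 1 := mul_le_mul_of_nonneg_left hu (by positivity)
        _ = S * y := mul_one _
        _ ≤ B * y := mul_le_mul_of_nonneg_right hBS hy0.le
    have h5 : B * y ^ 3 * |u| ≤ (B * y) * (y * |u|) := by
      have : B * y ^ 3 * |u| = y * ((B * y) * (y * |u|)) := by ring
      rw [this]
      exact mul_le_of_le_one_left (by positivity) hy1
    have h6 : (B * y) * (y * |u|) ≤ 1 / 4 * (y * |u|) := by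
      apply mul_le_mul_of_nonneg_right _ hyu
      linarith
    have h7 : 4 * (B + Sρ) * y ^ m = 4 * (B * y ^ m) + 4 * (Sρ * y ^ m) := by ring
    linarith
  obtain ⟨U, hU⟩ : ∃ U, U = 4 * (B + Sρ) := ⟨_, rfl⟩
  rw [← hU] at hstep1 ⊢
  have hU1 : 1 ≤ U := by linarith
  have hU0 : 0 ≤ U := by linarith
  have hym1 : y ^ m = y ^ (m - 1) * y := by rw [← pow_succ]; congr 1; omega
  have hu1 : |u| ≤ U * y ^ (m - 1) := by
    rw [hym1] at hstep1
    have : y * |u| ≤ y * (U * y ^ (m - 1)) := by linarith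
    exact le_of_mul_le_mul_left this hy0
  have hy2u : y ^ 2 * |u| ≤ U * y ^ (m + 1) := by
    calc y ^ 2 * |u| ≤ y ^ 2 * (U * y ^ (m - 1)) := mul_le_mul_of_nonneg_left hu1 (by positivity)
      _ = U * y ^ (m + 1) := by
        have : y ^ (m + 1) = y ^ 2 * y ^ (m - 1) := by rw [← pow_add]; congr 1; omega
        rw [this]; ring
  have hy3u : y ^ 3 * |u| ≤ U * y ^ (m + 2) := by
    calc y ^ 3 * |u| = y * (y ^ 2 * |u|) := by ring
      _ ≤ y * (U * y ^ (m + 1)) := mul_le_mul_of_nonneg_left hy2u hy0.le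
      _ = _ := by ring
  have hy2u2 : y ^ 2 * |u| ^ 2 ≤ U ^ 2 * y ^ (m + 2) := by
    have h1 : |u| ^ 2 ≤ (U * y ^ (m - 1)) ^ 2 := pow_le_pow_left₀ (abs_nonneg _) hu1 2
    calc y ^ 2 * |u| ^ 2 ≤ y ^ 2 * (U * y ^ (m - 1)) ^ 2 :=
          mul_le_mul_of_nonneg_left h1 (by positivity)
      _ = U ^ 2 * y ^ (2 + 2 * (m - 1)) := by rw [mul_pow, ← pow_mul, pow_add]; ring
      _ ≤ U ^ 2 * y ^ (m + 2) := by
        apply mul_le_mul_of_nonneg_left _ (by positivity)
        exact pow_le_pow_of_le_one hy0.le hy1 (by omega)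
  -- step 2
  have hBU : U ≤ B * U := le_mul_of_one_le_left hU0 hB1
  have hstep2 : |z * u + qm * z ^ m| ≤ 4 * B * U * y ^ (m + 1) := by
    have h1 : z * u + qm * z ^ m = ρ - D' * z ^ 2 * u - t (0, 2) * z ^ 2 * u ^ 2 - E3
        - ((QQ d t β).eval z - qm * z ^ m) := by linarith
    have h2 : |z * u + qm * z ^ m| ≤ |ρ| + |D' * z ^ 2 * u| + |t (0, 2) * z ^ 2 * u ^ 2| + |E3|
        + |(QQ d t β).eval z - qm * z ^ m| := by
      rw [h1]
      have a1 := abs_sub (ρ - D' * z ^ 2 * u - t (0, 2) * z ^ 2 * u ^ 2 - E3)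
        ((QQ d t β).eval z - qm * z ^ m)
      have a2 := abs_sub (ρ - D' * z ^ 2 * u - t (0, 2) * z ^ 2 * u ^ 2) E3
      have a3 := abs_sub (ρ - D' * z ^ 2 * u) (t (0, 2) * z ^ 2 * u ^ 2)
      have a4 := abs_sub ρ (D' * z ^ 2 * u)
      linarith
    have hyy : y ^ (m + 2) ≤ y ^ (m + 1) := pow_le_pow_of_le_one hy0.le hy1 (by omega)
    have b1 : |ρ| ≤ Sρ * y ^ (m + 1) := hρ.trans (mul_le_mul_of_nonneg_left hyy hSρ)
    have b2 : B * y ^ 2 * |u| ≤ B * U * y ^ (m + 1) := by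
      calc B * y ^ 2 * |u| = B * (y ^ 2 * |u|) := by ring
        _ ≤ B * (U * y ^ (m + 1)) := mul_le_mul_of_nonneg_left hy2u hB0
        _ = _ := by ring
    have b3 : S * y ^ 2 * |u| ^ 2 ≤ B * U * y ^ (m + 1) := by
      calc S * y ^ 2 * |u| ^ 2 = S * (y ^ 2 * |u|) * |u| := by ring
        _ ≤ S * (y ^ 2 * |u|) * 1 := mul_le_mul_of_nonneg_left hu (by positivity)
        _ = S * (y ^ 2 * |u|) := mul_one _
        _ ≤ B * (U * y ^ (m + 1)) := mul_le_mul hBS hy2u (by positivity) hB0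
        _ = _ := by ring
    have b4 : B * y ^ 3 * |u| ≤ B * U * y ^ (m + 1) := by
      calc B * y ^ 3 * |u| = B * (y ^ 3 * |u|) := by ring
        _ ≤ B * (U * y ^ (m + 2)) := mul_le_mul_of_nonneg_left hy3u hB0
        _ ≤ B * (U * y ^ (m + 1)) := by
          apply mul_le_mul_of_nonneg_left _ hB0
          exact mul_le_mul_of_nonneg_left hyy hU0
        _ = _ := by ring
    have b5 : Sρ * y ^ (m + 1) + 2 * B * y ^ (m + 1) ≤ B * U * y ^ (m + 1) := by
      rw [← add_mul]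
      apply mul_le_mul_of_nonneg_right _ (by positivity)
      linarith
    linarith
  -- step 3
  have hD1 : |D' * z * (z * u + qm * z ^ m)| ≤ 4 * B ^ 2 * U * y ^ (m + 2) := by
    rw [abs_mul, abs_mul, ← hy]
    calc |D'| * y * |z * u + qm * z ^ m| ≤ (B * y) * (4 * B * U * y ^ (m + 1)) := by
          apply mul_le_mul (mul_le_mul_of_nonneg_right hD'B hy0.le) hstep2 (abs_nonneg _)
            (by positivity)
      _ = _ := by ring
  have hstep3 : |z * u + qm * z ^ m + (qn - D' * qm) * z ^ (m + 1)|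
      ≤ 10 * B ^ 2 * U ^ 2 * y ^ (m + 2) := by
    have h1 : z * u + qm * z ^ m + (qn - D' * qm) * z ^ (m + 1)
        = ρ - D' * z * (z * u + qm * z ^ m) - t (0, 2) * z ^ 2 * u ^ 2 - E3
        - ((QQ d t β).eval z - qm * z ^ m - qn * z ^ (m + 1)) := by
      linear_combination hE
    have h2 : |z * u + qm * z ^ m + (qn - D' * qm) * z ^ (m + 1)|
        ≤ |ρ| + |D' * z * (z * u + qm * z ^ m)| + |t (0, 2) * z ^ 2 * u ^ 2| + |E3|
        + |(QQ d t β).eval z - qm * z ^ m - qn * z ^ (m + 1)| := by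
      rw [h1]
      have a1 := abs_sub (ρ - D' * z * (z * u + qm * z ^ m) - t (0, 2) * z ^ 2 * u ^ 2 - E3)
        ((QQ d t β).eval z - qm * z ^ m - qn * z ^ (m + 1))
      have a2 := abs_sub (ρ - D' * z * (z * u + qm * z ^ m) - t (0, 2) * z ^ 2 * u ^ 2) E3
      have a3 := abs_sub (ρ - D' * z * (z * u + qm * z ^ m)) (t (0, 2) * z ^ 2 * u ^ 2)
      have a4 := abs_sub ρ (D' * z * (z * u + qm * z ^ m))
      linarith
    have c3 : S * y ^ 2 * |u| ^ 2 ≤ B * U ^ 2 * y ^ (m + 2) := by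
      calc S * y ^ 2 * |u| ^ 2 = S * (y ^ 2 * |u| ^ 2) := by ring
        _ ≤ B * (U ^ 2 * y ^ (m + 2)) := mul_le_mul hBS hy2u2 (by positivity) hB0
        _ = _ := by ring
    have c4 : B * y ^ 3 * |u| ≤ B * U * y ^ (m + 2) := by
      calc B * y ^ 3 * |u| = B * (y ^ 3 * |u|) := by ring
        _ ≤ B * (U * y ^ (m + 2)) := mul_le_mul_of_nonneg_left hy3u hB0
        _ = _ := by ring
    have hU2 : U ≤ U ^ 2 := by rw [sq]; exact le_mul_of_one_le_left hU0 hU1
    have hB2 : B ≤ B ^ 2 := by rw [sq]; exact le_mul_of_one_le_left hB0 hB1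
    have hBBUU : ∀ x : ℝ, x ≤ 10 * B ^ 2 * U ^ 2 → x * y ^ (m + 2)
        ≤ 10 * B ^ 2 * U ^ 2 * y ^ (m + 2) := fun x hx =>
      mul_le_mul_of_nonneg_right hx (by positivity)
    have hk : Sρ + 4 * B ^ 2 * U + B * U ^ 2 + B * U + 3 * B ≤ 10 * B ^ 2 * U ^ 2 := by
      have hB20 : 0 ≤ B ^ 2 := by positivity
      have hU20 : 0 ≤ U ^ 2 := by positivity
      have k1 : B * U ^ 2 ≤ B ^ 2 * U ^ 2 := mul_le_mul_of_nonneg_right hB2 hU20
      have k2 : B ^ 2 * U ≤ B ^ 2 * U ^ 2 := mul_le_mul_of_nonneg_left hU2 hB20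
      have k3 : B * U ≤ B ^ 2 * U ^ 2 := mul_le_mul hB2 hU2 hU0 hB20
      have k4 : Sρ + 3 * B ≤ U := by linarith
      linarith
    have := hBBUU _ hk
    have e : (Sρ + 4 * B ^ 2 * U + B * U ^ 2 + B * U + 3 * B) * y ^ (m + 2)
        = Sρ * y ^ (m + 2) + 4 * B ^ 2 * U * y ^ (m + 2) + B * U ^ 2 * y ^ (m + 2)
          + B * U * y ^ (m + 2) + 3 * B * y ^ (m + 2) := by ring
    linarith
  rw [← hqm, ← hqn, ← hD', ← hy]
  refine ⟨?_, ?_, hB1⟩
  · have h1 : z * u + qm * z ^ m + (qn - D' * qm) * z ^ (m + 1)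
        = z * (u + qm * z ^ (m - 1) + (qn - D' * qm) * z ^ m) := by
      have e1 : z ^ m = z ^ (m - 1) * z := by rw [← pow_succ]; congr 1; omega
      rw [pow_succ z m]
      linear_combination qm * e1
    rw [h1, abs_mul, ← hy] at hstep3
    have h2 : 10 * B ^ 2 * U ^ 2 * y ^ (m + 2) = y * (10 * B ^ 2 * U ^ 2 * y ^ (m + 1)) := by ring
    rw [h2] at hstep3
    exact le_of_mul_le_mul_left hstep3 hy0
  · have h1 := abs_sub qn (D' * qm)
    have h2 : |D' * qm| ≤ B * B := by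
      rw [abs_mul]; exact mul_le_mul hD'B hqmB (abs_nonneg _) hB0
    nlinarith

end

end Pool.Agent.H322R2
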