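import Pool.Agent.H322R2.YCls

/-!
Number of curves with a large point in one class.
-/

open Polynomial Finset

namespace Pool.Agent.H322R2

section

variable {F R : MvPolynomial (Fin 2) ℤ} {u : ℕ}

lemma RR_TD' {k : ℕ} (hR : R = 0 ∨ R.totalDegree ≤ k) : TD k (RR F R u) := by
  have h1 : TD k (F2 R u) := by
    rcases hR with h | h
    · rw [h, F2, map_zero, map_zero]
      exact ⟨by simp, fun j => by simp⟩
    · exact TD_mono (TD_toB (u : ℤ) R) h
  constructor
  · rw [natDegree_le_iff_coeff_eq_zero]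
    intro j hj
    rw [RR_coeff]
    split_ifs with h
    · rw [coeff_eq_zero_of_natDegree_lt (lt_of_le_of_lt h1.1 hj), zero_mul]
    · rfl
  · intro j
    rw [RR_coeff]
    split_ifs with h
    · exact (natDegree_mul_C_le _ _).trans (h1.2 j)
    · simp

lemma RR_inj {R' : MvPolynomial (Fin 2) ℤ} (hcl : lc F u ≠ 0)
    (h1 : R.totalDegree + 4 ≤ F.totalDegree) (h2 : R'.totalDegree + 4 ≤ F.totalDegree)
    (h : RR F R u = RR F R' u) : R = R' := by
  apply (shE ℤ (u : ℤ)).injective
  apply (toB ℤ).injective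
  show F2 R u = F2 R' u
  ext1 j
  by_cases hj : j < F.totalDegree - 4 + 1
  · have h5 := congrArg (fun p => coeff p j) h
    simp only [RR_coeff, if_pos hj] at h5
    have h6 : (C ((lc F u) ^ (F.totalDegree - 1 - j)) : ℤ[X]) ≠ 0 := by
      rw [Ne, C_eq_zero]
      exact pow_ne_zero _ hcl
    exact mul_right_cancel₀ h6 h5
  · rw [coeff_eq_zero_of_natDegree_lt, coeff_eq_zero_of_natDegree_lt]
    · have := (TD_toB (u : ℤ) R').1
      rw [F2]; omega
    · have := (TD_toB (u : ℤ) R).1
      rw [F2]; omega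

end

theorem cls_count {d H' u m : ℕ} {F : MvPolynomial (Fin 2) ℤ} {η M : ℝ} (hd : 4 ≤ d)
    (hdd : d = F.totalDegree)
    (hirr : Irreducible (MvPolynomial.map (Int.castRingHom ℚ)
      (MvPolynomial.homogeneousComponent F.totalDegree F)))
    (hlen : len F ≤ H') (hu : u ≤ F.totalDegree) (hcl : lc F u ≠ 0)
    (hM : M = ((H' : ℝ) * (1 + d) ^ d) ^ d)
    (hη : evf η (lead F.totalDegree (GG F u)) = 0) (hm2 : 2 ≤ m) (hmd : m ≤ d)
    (hq : ∀ n < m, qF F u η n = 0) (hqm : m = d ∨ qF F u η m ≠ 0)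
    (C : Finset (MvPolynomial (Fin 2) ℤ))
    (hC : ∀ R ∈ C, (R = 0 ∨ R.totalDegree + m + 2 ≤ d) ∧ len R ≤ H' ∧ ∃ x y : ℤ,
      MvPolynomial.eval ![x, y] (F + R) = 0 ∧ ((d + 1) * H') ^ (kC d) < max x.natAbs y.natAbs ∧
      |((lc F u * x : ℤ) : ℝ) / ((y - u * x : ℤ) : ℝ) - η| ≤ cR d (2 * M)) :
    C.card ≤ 160 * d ^ 2 * kap d := by
  classical
  have hkap := one_le_kap d
  have hNpos : 1 ≤ 160 * d ^ 2 * kap d := by
    have h1 : 1 ≤ d ^ 2 := Nat.one_le_pow _ _ (by omega)
    calc 1 ≤ 160 * 1 * 1 := by norm_num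
      _ ≤ _ := Nat.mul_le_mul (Nat.mul_le_mul_left _ h1) hkap
  by_cases hmm : d < m + 2
  · have h1 : C ⊆ {0} := by
      intro R hR
      rw [Finset.mem_singleton]
      rcases (hC R hR).1 with h | h
      · exact h
      · omega
    refine (Finset.card_le_card h1).trans ?_
    rw [Finset.card_singleton]
    exact hNpos
  push_neg at hmm
  have hF0 : F ≠ 0 := by
    rintro rfl
    simp at hdd
    omega
  obtain ⟨K, hK⟩ : ∃ K : ℝ, K = 2 + 2 * M := ⟨_, rfl⟩
  obtain ⟨hM1, hpnG, hpt⟩ := pert_point hdd (by omega) hirr hlen hF0 hu hcl hM hK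
  have hK1 : 1 ≤ K := by linarith
  have hqm' : qF F u η m ≠ 0 := by
    rcases hqm with h | h
    · omega
    · exact h
  rw [← hdd] at hη
  have hdegR : ∀ R ∈ C, R.totalDegree + 4 ≤ F.totalDegree := by
    intro R hR
    rcases (hC R hR).1 with h | h
    · rw [h, MvPolynomial.totalDegree_zero]; omega
    · omega
  choose! x y hxy hbig hclose using (fun R hR => (hC R hR).2.2)
  have hprop : ∀ R ∈ C, K ^ (E1 d) ≤ |((y R - u * x R : ℤ) : ℝ)| ∧
      TD (d - 4) (RR F R u) ∧ pn (pn zn) (RR F R u) ≤ M ∧ Prime (GG F u + RR F R u) ∧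
      ev (y R - u * x R) (lc F u * x R) (GG F u + RR F R u) = 0 := by
    intro R hR
    apply hpt R (x R) (y R) (hdegR R hR) (hC R hR).2.1 (hxy R hR)
    rw [← hdd]
    exact hbig R hR
  obtain ⟨φ, hφ⟩ : ∃ φ : MvPolynomial (Fin 2) ℤ → ℤ × ℤ,
      φ = fun R => (y R - u * x R, lc F u * x R) := ⟨_, rfl⟩
  have hinj : Set.InjOn φ C := by
    intro R hR R' hR' hRR
    rw [Finset.mem_coe] at hR hR'
    obtain ⟨p1, p2, p3, p4, p5⟩ := hprop R hR
    obtain ⟨q1, q2, q3, q4, q5⟩ := hprop R' hR'
    rw [hφ] at hRR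
    simp only [Prod.mk.injEq] at hRR
    obtain ⟨e1, e2⟩ := hRR
    rw [← e1, ← e2] at q5
    by_contra hne
    obtain ⟨V, hV⟩ : ∃ V, V = RR F R u - RR F R' u := ⟨_, rfl⟩
    obtain ⟨a, ha⟩ : ∃ a, a = y R - u * x R := ⟨_, rfl⟩
    obtain ⟨b, hb⟩ : ∃ b, b = lc F u * x R := ⟨_, rfl⟩
    rw [← ha, ← hb] at p5 q5
    rw [← ha] at p1
    have hVev : ev a b V = 0 := by
      rw [hV, map_sub]
      rw [map_add] at p5 q5
      linear_combination p5 - q5
    have hV0 : V ≠ 0 := by
      intro h0
      rw [hV, sub_eq_zero] at h0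
      exact hne (RR_inj hcl (hdegR R hR) (hdegR R' hR') h0)
    have hVn : V.natDegree ≤ d - 4 := by
      rw [hV]; exact (natDegree_sub_le _ _).trans (max_le p2.1 q2.1)
    have hm' : (GG F u + RR F R u).Monic := by
      apply (GG_monic hcl).add_of_left
      apply degree_lt_degree
      rw [GG_natDegree hcl, ← hdd]
      have := p2.1; omega
    have hdm' : (GG F u + RR F R u).natDegree = d := by
      rw [natDegree_add_eq_left_of_natDegree_lt, GG_natDegree hcl, hdd]
      rw [GG_natDegree hcl, ← hdd]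
      have := p2.1; omega
    have hVd : V.degree < d := by
      rw [degree_eq_natDegree hV0]
      exact_mod_cast (show V.natDegree < d by omega)
    have ha1 : (1 : ℝ) ≤ |(a : ℝ)| := (one_le_pow₀ hK1).trans p1
    have ha0 : a ≠ 0 := by
      intro h; rw [h] at ha1; simp at ha1; linarith
    have h5 := small_curve (GG F u + RR F R u) d (by omega) hm' hdm' p4 a b ha0 p5 V hV0 hVd hVev
      (2 * M) (by
        rw [hV]
        exact (map_sub_le_add _ _ _).trans (by linarith))
    have h6 : (d.factorial : ℝ) * (2 * M * (1 + pn (pn zn) (GG F u + RR F R u)) ^ d) ^ d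
        ≤ K ^ (2 * d ^ 2 + d) := by
      have h7 : (d.factorial : ℝ) ≤ K ^ (d ^ 2) := by
        rw [hK]; exact fact_le_pow (by linarith)
      have h8 : 1 + pn (pn zn) (GG F u + RR F R u) ≤ K := by
        have := map_add_le_add (pn (pn zn)) (GG F u) (RR F R u)
        linarith
      have h9 : 0 ≤ pn (pn zn) (GG F u + RR F R u) := apply_nonneg _ _
      calc _ ≤ K ^ (d ^ 2) * (K * K ^ d) ^ d := by
            apply mul_le_mul h7 _ (by positivity) (by positivity)
            apply pow_le_pow_left₀ (by positivity)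
            apply mul_le_mul (by linarith) (pow_le_pow_left₀ (by linarith) h8 _) (by positivity)
              (by linarith)
        _ = _ := by
            rw [← pow_succ', ← pow_mul, ← pow_add]; congr 1; ring
    have h10 : K ^ (2 * d ^ 2 + d) < K ^ (E1 d) := by
      apply pow_lt_pow_right₀ (by linarith)
      unfold E1
      have h12 : d ^ 2 ≤ d ^ 5 := Nat.pow_le_pow_right (by omega) (by norm_num)
      have h13 : d ≤ d ^ 5 := Nat.le_self_pow (by norm_num) d
      have h14 : 1 ≤ d ^ 5 := Nat.one_le_pow _ _ (by omega)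
      calc 2 * d ^ 2 + d < 1280 * d ^ 5 * 1 := by omega
        _ ≤ _ := Nat.mul_le_mul_left _ hkap
    linarith
  have hcard : (C.image φ).card = C.card := Finset.card_image_of_injOn hinj
  rw [← hcard]
  have hGm := GG_monic hcl
  have hGd : (GG F u).natDegree = d := by rw [GG_natDegree hcl, hdd]
  have hGT : TD d (GG F u) := by rw [hdd]; exact GG_TD hcl
  have hGi : Irreducible ((lead d (GG F u)).map (Int.castRingHom ℚ)) := by
    rw [hdd]; exact lead_irr hcl (by omega) hirr
  have hPT : ∀ P ∈ C.image φ, (2 + 2 * M) ^ (E1 d) ≤ |(P.1 : ℝ)| ∧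
      |(P.2 : ℝ) / P.1 - η| ≤ cR d (2 * M) ∧
      ∃ R : ℤ[X][X], TD (d - 4) R ∧ pn (pn zn) R ≤ M ∧ Prime (GG F u + R) ∧
        ev P.1 P.2 (GG F u + R) = 0 := by
    intro P hP
    rw [Finset.mem_image] at hP
    obtain ⟨R, hR, rfl⟩ := hP
    obtain ⟨p1, p2, p3, p4, p5⟩ := hprop R hR
    rw [hφ, ← hK]
    exact ⟨p1, hclose R hR, RR F R u, p2, p3, p4, p5⟩
  by_cases hm3 : m = 2
  · have hγ : gam d (GG F u) η ≠ 0 := by
      rw [gam_eq_qq]
      rw [hm3, qF, ← hdd] at hqm'
      exact neg_ne_zero.2 hqm'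
    apply root_count hd hGm hGd hGT hM1 hpnG hGi η hη _ _ hPT
    have hder0 : derivative (lead d (GG F u)) ≠ 0 := by
      intro h
      have h1 := natDegree_eq_zero_of_derivative_eq_zero h
      have h2 := (lead_monic hGm hGd).2
      omega
    obtain ⟨hgm, hgd⟩ := lead_monic hGm hGd
    have hD : evf η (derivative (lead d (GG F u))) ≠ 0 := by
      intro h0
      have hn := nrm_ne_of_irr_deg hgm hgd hGi _ hder0 (by
        have := natDegree_derivative_le (lead d (GG F u)); omega)
      have h5 := dvd_nrm (Int.castRingHom ℝ) η (lead d (GG F u)) d (by omega) hgm hgd hη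
        (derivative (lead d (GG F u)))
      have h6 : eval₂ (Int.castRingHom ℝ) η (derivative (lead d (GG F u))) = 0 := h0
      rw [h6, zero_dvd_iff, eq_intCast] at h5
      exact hn (by exact_mod_cast h5)
    rw [evf_gp (by omega) hGT η hD]
    exact neg_ne_zero.2 (mul_ne_zero (mul_ne_zero (by norm_num) (pow_ne_zero _ hD)) hγ)
  · have hm3' : 3 ≤ m := by omega
    have hqq : ∀ n < m, qq (tc d (GG F u) η) (bet d (GG F u) η) n = 0 := by
      intro n hn
      have := hq n hn
      rwa [qF, ← hdd] at this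
    have hqqm : qq (tc d (GG F u) η) (bet d (GG F u) η) m ≠ 0 := by
      rwa [qF, ← hdd] at hqm'
    have hfl : evf η (gp d (GG F u)) = 0 := by
      obtain ⟨hgm, hgd⟩ := lead_monic hGm hGd
      have hder0 : derivative (lead d (GG F u)) ≠ 0 := by
        intro h
        have h1 := natDegree_eq_zero_of_derivative_eq_zero h
        omega
      have hD : evf η (derivative (lead d (GG F u))) ≠ 0 := by
        intro h0
        have hn := nrm_ne_of_irr_deg hgm hgd hGi _ hder0 (by
          have := natDegree_derivative_le (lead d (GG F u)); omega)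
        have h5 := dvd_nrm (Int.castRingHom ℝ) η (lead d (GG F u)) d (by omega) hgm hgd hη
          (derivative (lead d (GG F u)))
        have h6 : eval₂ (Int.castRingHom ℝ) η (derivative (lead d (GG F u))) = 0 := h0
        rw [h6, zero_dvd_iff, eq_intCast] at h5
        exact hn (by exact_mod_cast h5)
      rw [evf_gp (by omega) hGT η hD, gam_eq_qq, hqq 2 (by omega)]
      simp
    have h1 := flex_root hd hGm hGd hGT hM1 hpnG hGi η hη hfl 4 (C.image φ) (by
      intro S hS hcol
      apply col_four (m := m) hd hGm hGd hGT hM1 hpnG hGi hη hm3' hmm hqq hqqm S hcol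
      intro P hP
      obtain ⟨p1, p2, -⟩ := hPT P (hS hP)
      have hP' := hS hP
      rw [Finset.mem_image] at hP'
      obtain ⟨R, hR, rfl⟩ := hP'
      obtain ⟨r1, r2, r3, r4, r5⟩ := hprop R hR
      refine ⟨p1, p2, RR F R u, ?_, r3, ?_⟩
      · apply RR_TD'
        rcases (hC R hR).1 with h | h
        · left; exact h
        · right; omega
      · rw [hφ]; exact r5) hPT
    refine h1.trans ?_
    have h2 : 16 ≤ 160 * d ^ 2 := by
      have : 1 ≤ d ^ 2 := Nat.one_le_pow _ _ (by omega)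
      omega
    calc 4 * (8 * kap d) = 32 * kap d := by ring
      _ ≤ 160 * d ^ 2 * kap d := by
        apply Nat.mul_le_mul_right
        have : 1 ≤ d ^ 2 := Nat.one_le_pow _ _ (by omega)
        omega

end Pool.Agent.H322R2
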