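import Pool.Agent.H322R2.YFib
import Pool.Agent.H322R2.SecV
import Pool.Agent.H322R2.DFin2

/-!
Counting all the curves with a large point.
-/

open Polynomial Finset

namespace Pool.Agent.H322R2

open Classical in
/-- choice of the shear -/
noncomputable def uu (d : ℕ) (φ : MvPolynomial (Fin 2) ℤ) : ℕ :=
  if h : ∃ u : ℕ, u ≤ d ∧ MvPolynomial.eval ![1, (u : ℤ)] φ ≠ 0 then h.choose else 0

lemma uu_spec {F : MvPolynomial (Fin 2) ℤ} (hF : F ≠ 0) :
    uu F.totalDegree (MvPolynomial.homogeneousComponent F.totalDegree F) ≤ F.totalDegree ∧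
    lc F (uu F.totalDegree (MvPolynomial.homogeneousComponent F.totalDegree F)) ≠ 0 := by
  have h := exists_u F hF
  unfold uu
  rw [dif_pos h]
  exact h.choose_spec

lemma RR_zero (F : MvPolynomial (Fin 2) ℤ) (u : ℕ) : RR F 0 u = 0 := by
  ext1 j
  rw [RR_coeff, F2, map_zero, map_zero, coeff_zero, zero_mul, ite_self]

/-- the slope attached to a large point -/
lemma exc_root {d H' : ℕ} {F : MvPolynomial (Fin 2) ℤ} {M : ℝ} (hd : 4 ≤ d)
    (hdd : d = F.totalDegree)
    (hirr : Irreducible (MvPolynomial.map (Int.castRingHom ℚ)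
      (MvPolynomial.homogeneousComponent F.totalDegree F)))
    (hlen : len F ≤ H') {u : ℕ} (hu : u ≤ F.totalDegree) (hcl : lc F u ≠ 0)
    (hM : M = ((H' : ℝ) * (1 + d) ^ d) ^ d) {x y : ℤ} (hxy : MvPolynomial.eval ![x, y] F = 0)
    (hbig : ((d + 1) * H') ^ (kC d) < max x.natAbs y.natAbs) :
    ∃ η : ℝ, evf η (lead F.totalDegree (GG F u)) = 0 ∧
      |((lc F u * x : ℤ) : ℝ) / ((y - u * x : ℤ) : ℝ) - η| ≤ cR d (2 * M) := by
  have hF0 : F ≠ 0 := by
    rintro rfl
    simp at hdd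
    omega
  obtain ⟨K, hK⟩ : ∃ K : ℝ, K = 2 + 2 * M := ⟨_, rfl⟩
  obtain ⟨hM1, hpnG, hpt⟩ := pert_point hdd (by omega) hirr hlen hF0 hu hcl hM hK
  have hK1 : 1 ≤ K := by linarith
  obtain ⟨p1, -, -, -, p5⟩ := hpt 0 x y (by rw [MvPolynomial.totalDegree_zero]; omega)
    (by simp [len]) (by rw [add_zero]; exact hxy) (by rw [← hdd]; exact hbig)
  rw [RR_zero, add_zero] at p5
  have hGm := GG_monic hcl
  have hGd : (GG F u).natDegree = d := by rw [GG_natDegree hcl, hdd]
  have hGT : TD d (GG F u) := by rw [hdd]; exact GG_TD hcl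
  have hGi : Irreducible ((lead d (GG F u)).map (Int.castRingHom ℚ)) := by
    rw [hdd]; exact lead_irr hcl (by omega) hirr
  obtain ⟨hgm, hgd⟩ := lead_monic hGm hGd
  have hder0 : derivative (lead d (GG F u)) ≠ 0 := by
    intro h
    have h1 := natDegree_eq_zero_of_derivative_eq_zero h
    omega
  have hn := nrm_ne_of_irr_deg hgm hgd hGi _ hder0 (by
    have := natDegree_derivative_le (lead d (GG F u)); omega)
  have ha1 : (1 : ℝ) ≤ |((y - u * x : ℤ) : ℝ)| := (one_le_pow₀ hK1).trans p1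
  have ha0 : y - u * x ≠ 0 := by
    intro h; rw [h] at ha1; simp at ha1; linarith
  obtain ⟨η, e1, e2, -, -⟩ := root_sel (by omega) hGm hGd hGT (show 1 ≤ 2 * M by linarith)
    (by linarith) hn (y - u * x) (lc F u * x) ha0 p5 (by
      refine (thr_le (by omega) (show 1 ≤ 2 * M by linarith)).trans (le_trans ?_ p1)
      rw [← hK]
      apply pow_le_pow_right₀ hK1
      unfold E1
      have h5 := one_le_kap d
      have h6 : d ^ 3 ≤ d ^ 5 := Nat.pow_le_pow_right (by omega) (by norm_num)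
      calc 128 * d ^ 3 ≤ 1280 * d ^ 5 * 1 := by omega
        _ ≤ _ := Nat.mul_le_mul_left _ h5)
  refine ⟨η, ?_, e2⟩
  rw [← hdd]; exact e1

lemma qF_low {F : MvPolynomial (Fin 2) ℤ} {u : ℕ} {η : ℝ} (hd : 4 ≤ F.totalDegree)
    (hirr : Irreducible (MvPolynomial.map (Int.castRingHom ℚ)
      (MvPolynomial.homogeneousComponent F.totalDegree F))) (hcl : lc F u ≠ 0)
    (hη : evf η (lead F.totalDegree (GG F u)) = 0) : qF F u η 0 = 0 ∧ qF F u η 1 = 0 := by
  obtain ⟨d, hdd⟩ : ∃ d, d = F.totalDegree := ⟨_, rfl⟩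
  rw [qF, qF, ← hdd]
  rw [← hdd] at hη
  have hGm := GG_monic hcl
  have hGd : (GG F u).natDegree = d := by rw [GG_natDegree hcl, hdd]
  have hGT : TD d (GG F u) := by rw [hdd]; exact GG_TD hcl
  have hGi : Irreducible ((lead d (GG F u)).map (Int.castRingHom ℚ)) := by
    rw [hdd]; exact lead_irr hcl (by omega) hirr
  obtain ⟨hgm, hgd⟩ := lead_monic hGm hGd
  have hder0 : derivative (lead d (GG F u)) ≠ 0 := by
    intro h
    have h1 := natDegree_eq_zero_of_derivative_eq_zero h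
    omega
  have hD : evf η (derivative (lead d (GG F u))) ≠ 0 := by
    intro h0
    have hn := nrm_ne_of_irr_deg hgm hgd hGi _ hder0 (by
      have := natDegree_derivative_le (lead d (GG F u)); omega)
    have h5 := dvd_nrm (Int.castRingHom ℝ) η (lead d (GG F u)) d (by omega) hgm hgd hη
      (derivative (lead d (GG F u)))
    have h6 : eval₂ (Int.castRingHom ℝ) η (derivative (lead d (GG F u))) = 0 := h0
    rw [h6, zero_dvd_iff, eq_intCast] at h5
    exact hn (by exact_mod_cast h5)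
  have hPn : (hmg d (GG F u)).natDegree < d + 1 := by
    have := natDegree_hmg d (GG F u); omega
  have hPm : ∀ j, ((hmg d (GG F u)).coeff j).natDegree < d + 1 := fun j => by
    have := natDegree_coeff_hmg hGT j; omega
  have h00 : tc d (GG F u) η (0, 0) = 0 := by
    rw [tc, tay_zero _ _ _ hPn hPm, ev_zero_hmg, hη, zero_div]
  have h01 : tc d (GG F u) η (0, 1) = 1 := by
    rw [tc, tay01 (by omega) hGT, div_self hD]
  constructor
  · have h1 : (antidiagonal 0 : Finset (ℕ × ℕ)) = {(0, 0)} := rfl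
    rw [qq, h1, Finset.sum_singleton, h00, zero_mul]
  · have h1 : (antidiagonal 1 : Finset (ℕ × ℕ)) = {(0, 1), (1, 0)} := rfl
    rw [qq, h1, Finset.sum_insert (by simp), Finset.sum_singleton, h01, bet]
    simp

/-- the order of contact -/
lemma ord_exists (d : ℕ) (hd : 2 ≤ d) (q : ℕ → ℝ) (h0 : q 0 = 0) (h1 : q 1 = 0) :
    ∃ m, 2 ≤ m ∧ m ≤ d ∧ (∀ n < m, q n = 0) ∧ (m = d ∨ q m ≠ 0) := by
  classical
  have hex : ∃ n, 2 ≤ n ∧ (n = d ∨ q n ≠ 0) := ⟨d, hd, Or.inl rfl⟩
  refine ⟨Nat.find hex, (Nat.find_spec hex).1, Nat.find_min' hex ⟨hd, Or.inl rfl⟩, ?_,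
    (Nat.find_spec hex).2⟩
  intro n hn
  have h := Nat.find_min hex hn
  by_cases hn2 : 2 ≤ n
  · by_contra hcon
    exact h ⟨hn2, Or.inr hcon⟩
  · have : n = 0 ∨ n = 1 := by omega
    rcases this with h2 | h2
    · rw [h2]; exact h0
    · rw [h2]; exact h1

/-- critical degrees -/
def Dm (d m : ℕ) (k : ℕ) : Prop := k = d ∨ k = d - 1 ∨ k = d - m ∨ k = d - m - 1

instance (d m : ℕ) : DecidablePred (Dm d m) := fun k => by unfold Dm; infer_instance

lemma card_deg_le (d k : ℕ) : ((Ix d).filter (fun p => p.1 + p.2 = k)).card ≤ k + 1 := by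
  have h1 : ((Ix d).filter (fun p => p.1 + p.2 = k)).card ≤ (range (k + 1)).card := by
    apply Finset.card_le_card_of_injOn (fun p => p.1)
    · intro p hp
      rw [Finset.mem_coe, Finset.mem_filter] at hp
      rw [Finset.mem_coe, Finset.mem_range]
      simp only
      omega
    · intro p hp q hq h
      rw [Finset.mem_coe, Finset.mem_filter] at hp hq
      simp only at h
      apply Prod.ext h
      omega
  rwa [Finset.card_range] at h1

lemma card_Dm_le {d m : ℕ} (hd : 4 ≤ d) (hm : 2 ≤ m) (hmd : m ≤ d) :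
    ((Ix d).filter (fun p => Dm d m (p.1 + p.2))).card ≤ 4 * d - 2 := by
  classical
  have h1 : (Ix d).filter (fun p => Dm d m (p.1 + p.2))
      ⊆ (((Ix d).filter (fun p => p.1 + p.2 = d)) ∪ ((Ix d).filter (fun p => p.1 + p.2 = d - 1)))
        ∪ (((Ix d).filter (fun p => p.1 + p.2 = d - m)) ∪
          ((Ix d).filter (fun p => p.1 + p.2 = d - m - 1))) := by
    intro p hp
    rw [Finset.mem_filter] at hp
    obtain ⟨hp1, hp2⟩ := hp
    simp only [Finset.mem_union, Finset.mem_filter]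
    rcases hp2 with h | h | h | h
    · exact Or.inl (Or.inl ⟨hp1, h⟩)
    · exact Or.inl (Or.inr ⟨hp1, h⟩)
    · exact Or.inr (Or.inl ⟨hp1, h⟩)
    · exact Or.inr (Or.inr ⟨hp1, h⟩)
  refine (Finset.card_le_card h1).trans ?_
  refine (Finset.card_union_le _ _).trans ?_
  have a1 := Finset.card_union_le ((Ix d).filter (fun p => p.1 + p.2 = d))
    ((Ix d).filter (fun p => p.1 + p.2 = d - 1))
  have a2 := Finset.card_union_le ((Ix d).filter (fun p => p.1 + p.2 = d - m))
    ((Ix d).filter (fun p => p.1 + p.2 = d - m - 1))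
  have b1 := card_deg_le d d
  have b2 := card_deg_le d (d - 1)
  have b3 := card_deg_le d (d - m)
  have b4 := card_deg_le d (d - m - 1)
  omega

open Classical in
/-- the critical coefficients -/
noncomputable def crit (d m : ℕ) (F : MvPolynomial (Fin 2) ℤ) : ↥(Ix d) → ℤ := fun i =>
  if Dm d m (i.1.1 + i.1.2) then F.coeff (Finsupp.single 0 i.1.1 + Finsupp.single 1 i.1.2) else 0

open Classical in
noncomputable def critS (d m H : ℕ) : Finset (↥(Ix d) → ℤ) :=
  Fintype.piFinset (fun i : ↥(Ix d) => if Dm d m (i.1.1 + i.1.2) then Icc (-(H : ℤ)) H else {0})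

lemma card_critS {d m : ℕ} (hd : 4 ≤ d) (hm : 2 ≤ m) (hmd : m ≤ d) (H : ℕ) :
    (critS d m H).card ≤ (2 * H + 1) ^ (4 * d - 2) := by
  classical
  rw [critS, Fintype.card_piFinset]
  have h1 : ∀ i : ↥(Ix d), (if Dm d m (i.1.1 + i.1.2) then Icc (-(H : ℤ)) H else {0}).card
      = if Dm d m (i.1.1 + i.1.2) then 2 * H + 1 else 1 := by
    intro i
    split_ifs
    · exact card_Icc_H H
    · rfl
  rw [Finset.prod_congr rfl (fun i _ => h1 i), Finset.prod_ite, Finset.prod_const_one, mul_one,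
    Finset.prod_const]
  apply Nat.pow_le_pow_right (by omega)
  refine le_trans ?_ (card_Dm_le hd hm hmd)
  apply Finset.card_le_card_of_injOn (fun i : ↥(Ix d) => i.1)
  · intro i hi
    rw [Finset.mem_coe, Finset.mem_filter] at hi
    rw [Finset.mem_coe, Finset.mem_filter]
    exact ⟨i.2, hi.2⟩
  · intro i _ j _ h
    exact Subtype.ext h

lemma crit_mem {d m H : ℕ} {F : MvPolynomial (Fin 2) ℤ} (hF : ∀ n, |F.coeff n| ≤ (H : ℤ)) :
    crit d m F ∈ critS d m H := by
  classical
  rw [critS, Fintype.mem_piFinset]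
  intro i
  rw [crit]
  split_ifs with h
  · rw [Finset.mem_Icc, ← abs_le]
    exact hF _
  · simp

lemma crit_comp {d m : ℕ} {F F' : MvPolynomial (Fin 2) ℤ} (h : crit d m F = crit d m F')
    {k : ℕ} (hkd : k ≤ d) (hk : Dm d m k) : MvPolynomial.homogeneousComponent k (F' - F) = 0 := by
  classical
  ext n
  rw [MvPolynomial.coeff_homogeneousComponent, MvPolynomial.coeff_zero]
  split_ifs with hn
  · rw [degree_fin2] at hn
    have hmem : (n 0, n 1) ∈ Ix d := by
      rw [mem_Ix]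
      simp only
      omega
    have h1 := congrFun h ⟨(n 0, n 1), hmem⟩
    have hnn : (Finsupp.single 0 (n 0) + Finsupp.single 1 (n 1) : Fin 2 →₀ ℕ) = n := by
      ext i
      fin_cases i <;> simp
    simp only [crit] at h1
    rw [hn, if_pos hk, if_pos hk, hnn] at h1
    rw [MvPolynomial.coeff_sub, h1, sub_self]
  · rfl

end Pool.Agent.H322R2
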