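import Pool.Agent.H322R2.YFin2

/-!
Counting all the curves with a large point: final statement.
-/

open Polynomial Finset

namespace Pool.Agent.H322R2

/-- the leading form of a polynomial with a large point is irreducible -/
lemma irr_lead_of_large {F : MvPolynomial (Fin 2) ℤ} (hd : 4 ≤ F.totalDegree)
    (hirr : Irreducible (MvPolynomial.map (Int.castRingHom ℚ) F))
    (hsq : Squarefree (MvPolynomial.map (Int.castRingHom ℚ)
      (MvPolynomial.homogeneousComponent F.totalDegree F)))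
    {x y : ℤ} (hxy : MvPolynomial.eval ![x, y] F = 0)
    (hbig : ((F.totalDegree + 1) * len F) ^ (kE F.totalDegree) < max x.natAbs y.natAbs) :
    Irreducible (MvPolynomial.map (Int.castRingHom ℚ)
      (MvPolynomial.homogeneousComponent F.totalDegree F)) := by
  obtain ⟨c, hc1, hc⟩ := main1
  rcases hc F hirr (by omega) hsq x y hxy with ⟨hx, hy⟩ | ⟨s, hs0, hsf, -, -⟩
  · exact absurd hbig (not_lt.2 (max_le hx hy))
  · have hhom : (MvPolynomial.map (Int.castRingHom ℚ)
        (MvPolynomial.homogeneousComponent F.totalDegree F)).IsHomogeneous F.totalDegree :=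
      (MvPolynomial.homogeneousComponent_isHomogeneous _ _).map _
    apply irr_of_slope (by omega) hhom hsq.ne_zero s _ hsf
    rw [← hs0, MvPolynomial.aeval_def, MvPolynomial.aeval_def, MvPolynomial.eval₂_map]
    congr 1

/-- the constant -/
def NY (d : ℕ) : ℕ := (160 * d ^ 2 * kap d) * d * (d - 1)

lemma size_cmp {d H : ℕ} (hd : 4 ≤ d) {F : MvPolynomial (Fin 2) ℤ} {n : Fin 2 →₀ ℕ}
    (hn : H < 2 * (F.coeff n).natAbs) :
    ((d + 1) * ((Ix d).card * (2 * H))) ^ (kC d) ≤ ((d + 1) * len F) ^ (kE d) := by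
  have hlen : (F.coeff n).natAbs ≤ len F := by
    unfold len
    apply Finset.single_le_sum (f := fun m => (F.coeff m).natAbs) (fun _ _ => Nat.zero_le _)
    rw [MvPolynomial.mem_support_iff]
    intro h
    rw [h] at hn
    simp at hn
  obtain ⟨l, hl⟩ : ∃ l, l = len F := ⟨_, rfl⟩
  rw [← hl] at hlen ⊢
  have hl1 : 1 ≤ l := by omega
  have hHl : H ≤ 2 * l := by omega
  have h2 : 2 * (Ix d).card = (d + 1) * (d + 2) := two_card_Ix d
  have h3 : 2 * (d + 2) ≤ (d + 1) ^ 2 := by nlinarith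
  have h4 : (Ix d).card * (2 * H) ≤ (d + 1) ^ 3 * l := by
    calc (Ix d).card * (2 * H) = (2 * (Ix d).card) * H := by ring
      _ = ((d + 1) * (d + 2)) * H := by rw [h2]
      _ ≤ ((d + 1) * (d + 2)) * (2 * l) := Nat.mul_le_mul_left _ hHl
      _ = (d + 1) * (2 * (d + 2)) * l := by ring
      _ ≤ (d + 1) * (d + 1) ^ 2 * l := by gcongr
      _ = (d + 1) ^ 3 * l := by ring
  have h5 : (d + 1) * ((Ix d).card * (2 * H)) ≤ ((d + 1) * l) ^ 4 := by
    calc (d + 1) * ((Ix d).card * (2 * H)) ≤ (d + 1) * ((d + 1) ^ 3 * l) :=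
          Nat.mul_le_mul_left _ h4
      _ = (d + 1) ^ 4 * l ^ 1 := by ring
      _ ≤ (d + 1) ^ 4 * l ^ 4 := Nat.mul_le_mul_left _ (Nat.pow_le_pow_right hl1 (by norm_num))
      _ = _ := by ring
  have h6 : 4 * kC d ≤ kE d := by
    unfold kC kE
    have h7 : (d + 1) ^ 11 ≤ (d + 1) ^ 13 := Nat.pow_le_pow_right (by omega) (by norm_num)
    calc 4 * (10 ^ 10 * 36 ^ d * (d + 1) ^ 11) = 4 * 10 ^ 10 * 36 ^ d * (d + 1) ^ 11 := by ring
      _ ≤ 4 * 10 ^ 10 * 36 ^ d * (d + 1) ^ 13 := Nat.mul_le_mul_left _ h7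
      _ ≤ 10 ^ 11 * 36 ^ d * (d + 1) ^ 13 := by
        apply Nat.mul_le_mul_right
        apply Nat.mul_le_mul_right
        norm_num
  calc ((d + 1) * ((Ix d).card * (2 * H))) ^ (kC d) ≤ (((d + 1) * l) ^ 4) ^ (kC d) :=
        Nat.pow_le_pow_left h5 _
    _ = ((d + 1) * l) ^ (4 * kC d) := by rw [← pow_mul]
    _ ≤ _ := Nat.pow_le_pow_right (Nat.mul_pos (by omega) hl1) h6

theorem Y_main {d : ℕ} (hd : 4 ≤ d) (H : ℕ) (E : Finset (MvPolynomial (Fin 2) ℤ))
    (hE : ∀ F ∈ E, F.totalDegree = d ∧ (∀ n, |F.coeff n| ≤ (H : ℤ)) ∧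
      Irreducible (MvPolynomial.map (Int.castRingHom ℚ) F) ∧
      Squarefree (MvPolynomial.map (Int.castRingHom ℚ)
        (MvPolynomial.homogeneousComponent F.totalDegree F)) ∧
      ∃ x y : ℤ, MvPolynomial.eval ![x, y] F = 0 ∧
        ((d + 1) * len F) ^ (kE d) < max x.natAbs y.natAbs) :
    E.card ≤ 2 * (NY d * (2 * H + 1) ^ (4 * d - 2)) := by
  classical
  induction H using Nat.strong_induction_on generalizing E with
  | _ H ih =>
    rcases Nat.eq_zero_or_pos H with hH | hH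
    · -- the zero polynomial only
      have : E = ∅ := by
        apply Finset.eq_empty_of_forall_notMem
        intro F hF
        obtain ⟨h1, h2, -, -, -⟩ := hE F hF
        have h3 : F = 0 := by
          ext n
          have := h2 n
          rw [hH] at this
          simpa using this
        rw [h3] at h1
        simp at h1
        omega
      rw [this]; simp
    · have e1 := ih (H / 2) (by omega) (E.filter (fun F => ∀ n, |F.coeff n| ≤ ((H / 2 : ℕ) : ℤ)))
        (by
          intro F hF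
          rw [Finset.mem_filter] at hF
          obtain ⟨h1, h2, h3, h4, h5⟩ := hE F hF.1
          exact ⟨h1, hF.2, h3, h4, h5⟩)
      have e2 := YF_count (d := d) (H := H) hd
        (E.filter (fun F => ¬ ∀ n, |F.coeff n| ≤ ((H / 2 : ℕ) : ℤ))) (by
          intro F hF
          rw [Finset.mem_filter] at hF
          obtain ⟨h1, h2, h3, h4, x, y, h5, h6⟩ := hE F hF.1
          have h7 := irr_lead_of_large (by rw [h1]; exact hd) h3 h4 h5 (by rw [h1]; exact h6)
          refine ⟨h1, h2, h7, x, y, h5, lt_of_le_of_lt ?_ h6⟩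
          have h8 := hF.2
          push Not at h8
          obtain ⟨n, hn⟩ := h8
          apply size_cmp hd (n := n)
          rw [Int.abs_eq_natAbs] at hn
          have : H / 2 < (F.coeff n).natAbs := by exact_mod_cast hn
          omega)
      have e3 := Finset.card_filter_add_card_filter_not (s := E)
        (fun F => ∀ n, |F.coeff n| ≤ ((H / 2 : ℕ) : ℤ))
      have e4 : (160 * d ^ 2 * kap d) * d * (2 * H + 1) ^ (4 * d - 2) * (d - 1)
          = NY d * (2 * H + 1) ^ (4 * d - 2) := by unfold NY; ring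
      rw [e4] at e2
      have e5 : 2 * (2 * (H / 2) + 1) ^ (4 * d - 2) ≤ (2 * H + 1) ^ (4 * d - 2) := by
        obtain ⟨k, hk⟩ : ∃ k, 4 * d - 2 = k + 2 := ⟨4 * d - 4, by omega⟩
        rw [hk]
        calc 2 * (2 * (H / 2) + 1) ^ (k + 2) ≤ 2 * (H + 1) ^ (k + 2) := by
              gcongr; omega
          _ = (H + 1) ^ k * (2 * (H + 1) ^ 2) := by ring
          _ ≤ (2 * H + 1) ^ k * (2 * H + 1) ^ 2 := by
            apply Nat.mul_le_mul
            · apply Nat.pow_le_pow_left; omega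
            · nlinarith
          _ = _ := by ring
      have e6 : 2 * (NY d * (2 * (H / 2) + 1) ^ (4 * d - 2)) ≤ NY d * (2 * H + 1) ^ (4 * d - 2) := by
        calc 2 * (NY d * (2 * (H / 2) + 1) ^ (4 * d - 2))
            = NY d * (2 * (2 * (H / 2) + 1) ^ (4 * d - 2)) := by ring
          _ ≤ _ := Nat.mul_le_mul_left _ e5
      omega

lemma two_NY_le (d : ℕ) : 2 * NY d ≤ 10 ^ 9 * 36 ^ d * (d + 1) ^ 8 := by
  unfold NY kap
  calc 2 * ((160 * d ^ 2 * (10 ^ 6 * 36 ^ d * (d + 1) ^ 4)) * d * (d - 1))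
      = (320 * 10 ^ 6) * 36 ^ d * (d + 1) ^ 4 * (d ^ 3 * (d - 1)) := by ring
    _ ≤ (10 ^ 9) * 36 ^ d * (d + 1) ^ 4 * ((d + 1) ^ 3 * (d + 1)) := by
      gcongr
      · norm_num
      · omega
      · omega
    _ = _ := by ring

end Pool.Agent.H322R2
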