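import Mathlib

/-!
Three collinear points close to a curve `u = c s^(-n) + c' s^(-n-1) + O(s^(-n-2))`.
-/

namespace Pool.Agent.H322R2

/-- the second difference of `z ^ n` -/
noncomputable def dA (z1 z2 z3 : ℝ) (n : ℕ) : ℝ :=
  z1 ^ (n + 1) * (z2 - z3) - z2 ^ (n + 1) * (z1 - z3) + z3 ^ (n + 1) * (z1 - z2)

section

variable {z1 z2 z3 : ℝ}

lemma dA_succ (n : ℕ) : dA z1 z2 z3 (n + 1)
    = z1 * dA z1 z2 z3 n + (z1 - z2) * (z1 - z3) * (z2 ^ (n + 1) - z3 ^ (n + 1)) := by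
  unfold dA; ring

lemma dA_one : dA z1 z2 z3 1 = (z1 - z2) * (z1 - z3) * (z2 - z3) := by
  unfold dA; ring

lemma pow_sub_le (h3 : 0 ≤ z3) (h23 : z3 ≤ z2) (n : ℕ) :
    z2 ^ (n + 1) - z3 ^ (n + 1) ≤ (n + 1) * z2 ^ n * (z2 - z3) := by
  induction n with
  | zero => simp
  | succ n ih =>
    have h2 : 0 ≤ z2 := h3.trans h23
    have h4 : z3 ^ (n + 1) ≤ z2 ^ (n + 1) := pow_le_pow_left₀ h3 h23 _
    have h5 : z3 ^ (n + 1) * (z2 - z3) ≤ z2 ^ (n + 1) * (z2 - z3) :=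
      mul_le_mul_of_nonneg_right h4 (by linarith)
    have h6 := mul_le_mul_of_nonneg_left ih h2
    have h7 : z2 ^ (n + 1 + 1) - z3 ^ (n + 1 + 1)
        = z2 * (z2 ^ (n + 1) - z3 ^ (n + 1)) + z3 ^ (n + 1) * (z2 - z3) := by ring
    rw [h7]
    have h8 : z2 * ((n + 1) * z2 ^ n * (z2 - z3)) = (n + 1) * z2 ^ (n + 1) * (z2 - z3) := by ring
    push_cast
    nlinarith

variable (h3 : 0 < z3) (h23 : z3 < z2) (h12 : z2 < z1)

include h3 h23 h12 in
lemma dA_ge (n : ℕ) (hn : 1 ≤ n) :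
    (z1 - z2) * (z1 - z3) * (z2 - z3) * z1 ^ (n - 1) ≤ dA z1 z2 z3 n := by
  induction n, hn using Nat.le_induction with
  | base => rw [dA_one]; simp
  | succ n hn ih =>
    rw [dA_succ]
    have h1 : 0 ≤ z1 := by linarith
    have h2 : z3 ^ (n + 1) ≤ z2 ^ (n + 1) := pow_le_pow_left₀ h3.le h23.le _
    have h4 : 0 ≤ (z1 - z2) * (z1 - z3) * (z2 ^ (n + 1) - z3 ^ (n + 1)) := by
      apply mul_nonneg (mul_nonneg (by linarith) (by linarith)) (by linarith)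
    have h5 := mul_le_mul_of_nonneg_left ih h1
    have h6 : z1 * ((z1 - z2) * (z1 - z3) * (z2 - z3) * z1 ^ (n - 1))
        = (z1 - z2) * (z1 - z3) * (z2 - z3) * z1 ^ (n + 1 - 1) := by
      have : n + 1 - 1 = (n - 1) + 1 := by omega
      rw [this, pow_succ]; ring
    linarith

include h3 h23 h12 in
lemma dA_le (n : ℕ) (hn : 1 ≤ n) : dA z1 z2 z3 (n + 1) ≤ (n + 2) * z1 * dA z1 z2 z3 n := by
  have h1 : 0 < z1 := by linarith
  have h2 : 0 < z2 := by linarith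
  have hge := dA_ge h3 h23 h12 n hn
  rw [dA_succ]
  have h4 := pow_sub_le h3.le h23.le n
  have h5 : (z1 - z2) * (z1 - z3) * (z2 ^ (n + 1) - z3 ^ (n + 1))
      ≤ (z1 - z2) * (z1 - z3) * ((n + 1) * z2 ^ n * (z2 - z3)) :=
    mul_le_mul_of_nonneg_left h4 (mul_nonneg (by linarith) (by linarith))
  have h6 : z2 ^ n ≤ z1 ^ n := pow_le_pow_left₀ h2.le h12.le _
  have h7 : (z1 - z2) * (z1 - z3) * ((n + 1) * z2 ^ n * (z2 - z3))
      ≤ (z1 - z2) * (z1 - z3) * ((n + 1) * z1 ^ n * (z2 - z3)) := by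
    apply mul_le_mul_of_nonneg_left _ (mul_nonneg (by linarith) (by linarith))
    apply mul_le_mul_of_nonneg_right _ (by linarith)
    exact mul_le_mul_of_nonneg_left h6 (by positivity)
  have h8 : (z1 - z2) * (z1 - z3) * ((n + 1) * z1 ^ n * (z2 - z3))
      = (n + 1) * z1 * ((z1 - z2) * (z1 - z3) * (z2 - z3) * z1 ^ (n - 1)) := by
    have : z1 ^ n = z1 ^ (n - 1) * z1 := by rw [← pow_succ]; congr 1; omega
    rw [this]; ring
  have h9 : (n + 1) * z1 * ((z1 - z2) * (z1 - z3) * (z2 - z3) * z1 ^ (n - 1))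
      ≤ (n + 1) * z1 * dA z1 z2 z3 n := mul_le_mul_of_nonneg_left hge (by positivity)
  linarith

include h3 h23 h12 in
lemma tri_z {c c' ω u1 u2 u3 : ℝ} {n : ℕ} (hn : 1 ≤ n) (hc : c ≠ 0)
    (hc' : 2 * (n + 2) * z1 * |c'| ≤ |c|) (hω : 0 ≤ ω)
    (g1 : 8 * ω * z1 ^ 4 ≤ |c| * ((z1 - z2) * (z1 - z3)))
    (g2 : 8 * ω * z2 ^ 4 ≤ |c| * ((z1 - z2) * (z2 - z3)))
    (g3 : 8 * ω * z3 ^ 4 ≤ |c| * ((z1 - z3) * (z2 - z3)))
    (e1 : |u1 - c * z1 ^ n - c' * z1 ^ (n + 1)| ≤ ω * z1 ^ (n + 2))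
    (e2 : |u2 - c * z2 ^ n - c' * z2 ^ (n + 1)| ≤ ω * z2 ^ (n + 2))
    (e3 : |u3 - c * z3 ^ n - c' * z3 ^ (n + 1)| ≤ ω * z3 ^ (n + 2))
    (hcol : u1 * (z1 * (z2 - z3)) - u2 * (z2 * (z1 - z3)) + u3 * (z3 * (z1 - z2)) = 0) : False := by
  have h1 : 0 < z1 := by linarith
  have h2 : 0 < z2 := by linarith
  obtain ⟨V, hV⟩ : ∃ V, V = (z1 - z2) * (z1 - z3) * (z2 - z3) := ⟨_, rfl⟩
  have hV0 : 0 < V := by
    rw [hV]
    exact mul_pos (mul_pos (by linarith) (by linarith)) (by linarith)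
  have hc0 : 0 < |c| := abs_pos.2 hc
  have hge := dA_ge h3 h23 h12 n hn
  have hle := dA_le h3 h23 h12 n hn
  rw [← hV] at hge
  obtain ⟨A, hA⟩ : ∃ A, A = dA z1 z2 z3 n := ⟨_, rfl⟩
  obtain ⟨A', hA'⟩ : ∃ A', A' = dA z1 z2 z3 (n + 1) := ⟨_, rfl⟩
  rw [← hA] at hge hle
  rw [← hA'] at hle
  have hA0 : 0 < A := lt_of_lt_of_le (by positivity) hge
  have hA'0 : 0 ≤ A' := by
    have := dA_ge h3 h23 h12 (n + 1) (by omega)
    rw [← hV, ← hA'] at this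
    exact le_trans (by positivity) this
  obtain ⟨ε1, hε1⟩ : ∃ ε1, ε1 = u1 - c * z1 ^ n - c' * z1 ^ (n + 1) := ⟨_, rfl⟩
  obtain ⟨ε2, hε2⟩ : ∃ ε2, ε2 = u2 - c * z2 ^ n - c' * z2 ^ (n + 1) := ⟨_, rfl⟩
  obtain ⟨ε3, hε3⟩ : ∃ ε3, ε3 = u3 - c * z3 ^ n - c' * z3 ^ (n + 1) := ⟨_, rfl⟩
  rw [← hε1] at e1
  rw [← hε2] at e2
  rw [← hε3] at e3
  have hid : c * A = -(c' * A') - (ε1 * (z1 * (z2 - z3)) - ε2 * (z2 * (z1 - z3))
      + ε3 * (z3 * (z1 - z2))) := by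
    rw [hε1, hε2, hε3, hA, hA', dA, dA]
    have e : ∀ x : ℝ, x ^ (n + 1 + 1) = x ^ (n + 1) * x := fun x => pow_succ _ _
    rw [e, e, e]
    have e' : ∀ x : ℝ, x ^ (n + 1) = x ^ n * x := fun x => pow_succ _ _
    rw [e', e', e']
    linear_combination hcol
  have t1 : |ε1 * (z1 * (z2 - z3))| ≤ |c| / 8 * (V * z1 ^ (n - 1)) := by
    rw [abs_mul, abs_of_pos (mul_pos h1 (by linarith : 0 < z2 - z3))]
    calc |ε1| * (z1 * (z2 - z3)) ≤ (ω * z1 ^ (n + 2)) * (z1 * (z2 - z3)) :=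
          mul_le_mul_of_nonneg_right e1 (mul_nonneg h1.le (by linarith))
      _ = (8 * ω * z1 ^ 4) * ((z2 - z3) * z1 ^ (n - 1) / 8) := by
          have : z1 ^ (n + 2) * z1 = z1 ^ 4 * z1 ^ (n - 1) := by
            rw [← pow_succ, ← pow_add]; congr 1; omega
          linear_combination ω * (z2 - z3) * this
      _ ≤ (|c| * ((z1 - z2) * (z1 - z3))) * ((z2 - z3) * z1 ^ (n - 1) / 8) := by
          apply mul_le_mul_of_nonneg_right g1
          have : 0 ≤ z2 - z3 := by linarith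
          positivity
      _ = _ := by rw [hV]; ring
  have hz2 : z2 ^ (n - 1) ≤ z1 ^ (n - 1) := pow_le_pow_left₀ h2.le h12.le _
  have hz3 : z3 ^ (n - 1) ≤ z1 ^ (n - 1) := pow_le_pow_left₀ h3.le (by linarith) _
  have t2 : |ε2 * (z2 * (z1 - z3))| ≤ |c| / 8 * (V * z1 ^ (n - 1)) := by
    rw [abs_mul, abs_of_pos (mul_pos h2 (by linarith : 0 < z1 - z3))]
    calc |ε2| * (z2 * (z1 - z3)) ≤ (ω * z2 ^ (n + 2)) * (z2 * (z1 - z3)) :=
          mul_le_mul_of_nonneg_right e2 (mul_nonneg h2.le (by linarith))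
      _ = (8 * ω * z2 ^ 4) * ((z1 - z3) * z2 ^ (n - 1) / 8) := by
          have : z2 ^ (n + 2) * z2 = z2 ^ 4 * z2 ^ (n - 1) := by
            rw [← pow_succ, ← pow_add]; congr 1; omega
          linear_combination ω * (z1 - z3) * this
      _ ≤ (|c| * ((z1 - z2) * (z2 - z3))) * ((z1 - z3) * z2 ^ (n - 1) / 8) := by
          apply mul_le_mul_of_nonneg_right g2
          have : 0 ≤ z1 - z3 := by linarith
          positivity
      _ = |c| / 8 * (V * z2 ^ (n - 1)) := by rw [hV]; ring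
      _ ≤ _ := by
          apply mul_le_mul_of_nonneg_left _ (by positivity)
          exact mul_le_mul_of_nonneg_left hz2 hV0.le
  have t3 : |ε3 * (z3 * (z1 - z2))| ≤ |c| / 8 * (V * z1 ^ (n - 1)) := by
    rw [abs_mul, abs_of_pos (mul_pos h3 (by linarith : 0 < z1 - z2))]
    calc |ε3| * (z3 * (z1 - z2)) ≤ (ω * z3 ^ (n + 2)) * (z3 * (z1 - z2)) :=
          mul_le_mul_of_nonneg_right e3 (mul_nonneg h3.le (by linarith))
      _ = (8 * ω * z3 ^ 4) * ((z1 - z2) * z3 ^ (n - 1) / 8) := by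
          have : z3 ^ (n + 2) * z3 = z3 ^ 4 * z3 ^ (n - 1) := by
            rw [← pow_succ, ← pow_add]; congr 1; omega
          linear_combination ω * (z1 - z2) * this
      _ ≤ (|c| * ((z1 - z3) * (z2 - z3))) * ((z1 - z2) * z3 ^ (n - 1) / 8) := by
          apply mul_le_mul_of_nonneg_right g3
          have : 0 ≤ z1 - z2 := by linarith
          positivity
      _ = |c| / 8 * (V * z3 ^ (n - 1)) := by rw [hV]; ring
      _ ≤ _ := by
          apply mul_le_mul_of_nonneg_left _ (by positivity)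
          exact mul_le_mul_of_nonneg_left hz3 hV0.le
  have t4 : |c' * A'| ≤ |c| / 2 * A := by
    rw [abs_mul, abs_of_nonneg hA'0]
    calc |c'| * A' ≤ |c'| * ((n + 2) * z1 * A) := mul_le_mul_of_nonneg_left hle (abs_nonneg _)
      _ = (2 * (n + 2) * z1 * |c'|) * (A / 2) := by ring
      _ ≤ |c| * (A / 2) := mul_le_mul_of_nonneg_right hc' (by positivity)
      _ = _ := by ring
  have t5 : |c| * A ≤ |c' * A'| + (|ε1 * (z1 * (z2 - z3))| + |ε2 * (z2 * (z1 - z3))|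
      + |ε3 * (z3 * (z1 - z2))|) := by
    have h5 : |c| * A = |c * A| := by rw [abs_mul, abs_of_pos hA0]
    rw [h5, hid]
    have h6 := abs_sub (-(c' * A')) (ε1 * (z1 * (z2 - z3)) - ε2 * (z2 * (z1 - z3))
      + ε3 * (z3 * (z1 - z2)))
    rw [abs_neg] at h6
    have h7 := abs_add_le (ε1 * (z1 * (z2 - z3)) - ε2 * (z2 * (z1 - z3))) (ε3 * (z3 * (z1 - z2)))
    have h8 := abs_sub (ε1 * (z1 * (z2 - z3))) (ε2 * (z2 * (z1 - z3)))
    linarith
  have t6 : |c| / 8 * (V * z1 ^ (n - 1)) ≤ |c| / 8 * A :=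
    mul_le_mul_of_nonneg_left hge (by positivity)
  have t7 : 0 < |c| * A := by positivity
  linarith

end

/-- the version with the large parameters -/
lemma tri_s {s1 s2 s3 q c c' ω u1 u2 u3 : ℝ} {n : ℕ} (hn : 1 ≤ n) (hq : 0 < q) (hq1 : q ≤ s1)
    (h12 : s1 + q ≤ s2) (h23 : s2 + q ≤ s3) (hc : c ≠ 0)
    (hc' : 2 * (n + 2) * |c'| ≤ |c| * s1) (hω : 0 ≤ ω) (hωq : 32 * ω ≤ |c| * q ^ 2)
    (e1 : |u1 - c * s1⁻¹ ^ n - c' * s1⁻¹ ^ (n + 1)| ≤ ω * s1⁻¹ ^ (n + 2))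
    (e2 : |u2 - c * s2⁻¹ ^ n - c' * s2⁻¹ ^ (n + 1)| ≤ ω * s2⁻¹ ^ (n + 2))
    (e3 : |u3 - c * s3⁻¹ ^ n - c' * s3⁻¹ ^ (n + 1)| ≤ ω * s3⁻¹ ^ (n + 2))
    (hcol : u1 * (s3 - s2) - u2 * (s3 - s1) + u3 * (s2 - s1) = 0) : False := by
  have hs1 : 0 < s1 := by linarith
  have hs2 : 0 < s2 := by linarith
  have hs3 : 0 < s3 := by linarith
  obtain ⟨z1, hz1⟩ : ∃ z1, z1 = s1⁻¹ := ⟨_, rfl⟩
  obtain ⟨z2, hz2⟩ : ∃ z2, z2 = s2⁻¹ := ⟨_, rfl⟩
  obtain ⟨z3, hz3⟩ : ∃ z3, z3 = s3⁻¹ := ⟨_, rfl⟩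
  rw [← hz1] at e1
  rw [← hz2] at e2
  rw [← hz3] at e3
  have p1 : s1 * z1 = 1 := by rw [hz1]; field_simp
  have p2 : s2 * z2 = 1 := by rw [hz2]; field_simp
  have p3 : s3 * z3 = 1 := by rw [hz3]; field_simp
  have h1 : 0 < z1 := by rw [hz1]; positivity
  have h2 : 0 < z2 := by rw [hz2]; positivity
  have h3 : 0 < z3 := by rw [hz3]; positivity
  have d12 : z1 - z2 = (s2 - s1) * z1 * z2 := by
    linear_combination (-z1) * p2 + z2 * p1
  have d23 : z2 - z3 = (s3 - s2) * z2 * z3 := by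
    linear_combination (-z2) * p3 + z3 * p2
  have d13 : z1 - z3 = (s3 - s1) * z1 * z3 := by
    linear_combination (-z1) * p3 + z3 * p1
  have z12 : z2 < z1 := by
    have : 0 < (s2 - s1) * z1 * z2 := mul_pos (mul_pos (by linarith) h1) h2
    linarith
  have z23 : z3 < z2 := by
    have : 0 < (s3 - s2) * z2 * z3 := mul_pos (mul_pos (by linarith) h2) h3
    linarith
  have hc0 : 0 < |c| := abs_pos.2 hc
  -- (s2 - s1) z2 ≥ q z1 / 2
  have a1 : q * z1 / 2 ≤ (s2 - s1) * z2 := by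
    have h5 : q * s2 ≤ 2 * s1 * (s2 - s1) := by nlinarith
    have h6 : q * z1 = q * s2 * (z1 * z2) := by linear_combination (-(q * z1)) * p2
    have h7 : (s2 - s1) * z2 = s1 * (s2 - s1) * (z1 * z2) := by
      linear_combination (-((s2 - s1) * z2)) * p1
    rw [h6, h7]
    have h8 : 0 < z1 * z2 := mul_pos h1 h2
    nlinarith
  have a2 : q * z1 / 2 ≤ (s3 - s1) * z3 := by
    have h5 : q * s3 ≤ 2 * s1 * (s3 - s1) := by nlinarith
    have h6 : q * z1 = q * s3 * (z1 * z3) := by linear_combination (-(q * z1)) * p3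
    have h7 : (s3 - s1) * z3 = s1 * (s3 - s1) * (z1 * z3) := by
      linear_combination (-((s3 - s1) * z3)) * p1
    rw [h6, h7]
    have h8 : 0 < z1 * z3 := mul_pos h1 h3
    nlinarith
  have a3 : q * z2 / 2 ≤ (s3 - s2) * z3 := by
    have h5 : q * s3 ≤ 2 * s2 * (s3 - s2) := by nlinarith
    have h6 : q * z2 = q * s3 * (z2 * z3) := by linear_combination (-(q * z2)) * p3
    have h7 : (s3 - s2) * z3 = s2 * (s3 - s2) * (z2 * z3) := by
      linear_combination (-((s3 - s2) * z3)) * p2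
    rw [h6, h7]
    have h8 : 0 < z2 * z3 := mul_pos h2 h3
    nlinarith
  refine tri_z h3 z23 z12 hn hc ?_ hω ?_ ?_ ?_ e1 e2 e3 ?_
  · calc 2 * (n + 2) * z1 * |c'| = (2 * (n + 2) * |c'|) * z1 := by ring
      _ ≤ (|c| * s1) * z1 := mul_le_mul_of_nonneg_right hc' h1.le
      _ = |c| := by rw [mul_assoc, p1, mul_one]
  · have h5 : (q * z1 / 2) * (q * z1 / 2) ≤ ((s2 - s1) * z2) * ((s3 - s1) * z3) :=
      mul_le_mul a1 a2 (by positivity) (le_trans (by positivity) a1)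
    have h6 : (z1 - z2) * (z1 - z3) = z1 ^ 2 * (((s2 - s1) * z2) * ((s3 - s1) * z3)) := by
      rw [d12, d13]; ring
    rw [h6]
    calc 8 * ω * z1 ^ 4 = (32 * ω) * (z1 ^ 4 / 4) := by ring
      _ ≤ (|c| * q ^ 2) * (z1 ^ 4 / 4) := mul_le_mul_of_nonneg_right hωq (by positivity)
      _ = |c| * (z1 ^ 2 * ((q * z1 / 2) * (q * z1 / 2))) := by ring
      _ ≤ _ := by
        apply mul_le_mul_of_nonneg_left _ hc0.le
        exact mul_le_mul_of_nonneg_left h5 (by positivity)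
  · have h4 : q * z2 ≤ (s2 - s1) * z1 := by
      apply mul_le_mul (by linarith) z12.le h2.le (by linarith)
    have h5 : (q * z2) * (q * z2 / 2) ≤ ((s2 - s1) * z1) * ((s3 - s2) * z3) :=
      mul_le_mul h4 a3 (by positivity) (le_trans (by positivity) h4)
    have h6 : (z1 - z2) * (z2 - z3) = z2 ^ 2 * (((s2 - s1) * z1) * ((s3 - s2) * z3)) := by
      rw [d12, d23]; ring
    rw [h6]
    calc 8 * ω * z2 ^ 4 = (32 * ω) * (z2 ^ 4 / 4) := by ring
      _ ≤ (|c| * q ^ 2) * (z2 ^ 4 / 4) := mul_le_mul_of_nonneg_right hωq (by positivity)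
      _ ≤ (|c| * q ^ 2) * (z2 ^ 4 / 2) := by
        apply mul_le_mul_of_nonneg_left _ (by positivity)
        have : 0 ≤ z2 ^ 4 := by positivity
        linarith
      _ = |c| * (z2 ^ 2 * ((q * z2) * (q * z2 / 2))) := by ring
      _ ≤ _ := by
        apply mul_le_mul_of_nonneg_left _ hc0.le
        exact mul_le_mul_of_nonneg_left h5 (by positivity)
  · have h4 : q * z3 ≤ (s3 - s1) * z1 := by
      apply mul_le_mul (by linarith) (by linarith) h3.le (by linarith)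
    have h4' : q * z3 ≤ (s3 - s2) * z2 := by
      apply mul_le_mul (by linarith) z23.le h3.le (by linarith)
    have h5 : (q * z3) * (q * z3) ≤ ((s3 - s1) * z1) * ((s3 - s2) * z2) :=
      mul_le_mul h4 h4' (by positivity) (le_trans (by positivity) h4)
    have h6 : (z1 - z3) * (z2 - z3) = z3 ^ 2 * (((s3 - s1) * z1) * ((s3 - s2) * z2)) := by
      rw [d13, d23]; ring
    rw [h6]
    calc 8 * ω * z3 ^ 4 = (32 * ω) * (z3 ^ 4 / 4) := by ring
      _ ≤ (|c| * q ^ 2) * (z3 ^ 4 / 4) := mul_le_mul_of_nonneg_right hωq (by positivity)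
      _ ≤ (|c| * q ^ 2) * (z3 ^ 4) := by
        apply mul_le_mul_of_nonneg_left _ (by positivity)
        have : 0 ≤ z3 ^ 4 := by positivity
        linarith
      _ = |c| * (z3 ^ 2 * ((q * z3) * (q * z3))) := by ring
      _ ≤ _ := by
        apply mul_le_mul_of_nonneg_left _ hc0.le
        exact mul_le_mul_of_nonneg_left h5 (by positivity)
  · have e12 : z2 - z3 = (s3 - s2) * z2 * z3 := d23
    rw [e12, d13, d12]
    have : u1 * (z1 * ((s3 - s2) * z2 * z3)) - u2 * (z2 * ((s3 - s1) * z1 * z3))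
        + u3 * (z3 * ((s2 - s1) * z1 * z2))
        = (u1 * (s3 - s2) - u2 * (s3 - s1) + u3 * (s2 - s1)) * (z1 * z2 * z3) := by ring
    rw [this, hcol, zero_mul]

end Pool.Agent.H322R2
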