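import Pool.Agent.H322R2.NumFld

/-!
The ring `ℤ[t]/(g)` with the operator norm of multiplication.
-/

open Polynomial Finset

namespace Pool.Agent.H322R2

attribute [local instance] Matrix.linftyOpNormedRing

lemma linfty_le {k : ℕ} (M : Matrix (Fin k) (Fin k) ℤ) (b : ℝ) (hb : 0 ≤ b)
    (h : ∀ i, ∑ j, |((M i j : ℤ) : ℝ)| ≤ b) : ‖M‖ ≤ b := by
  rw [Matrix.linfty_opNorm_def]
  have : ((Finset.univ : Finset (Fin k)).sup fun i => ∑ j, ‖M i j‖₊) ≤ b.toNNReal := by
    apply Finset.sup_le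
    intro i _
    rw [← NNReal.coe_le_coe, Real.coe_toNNReal _ hb, NNReal.coe_sum]
    refine le_trans (le_of_eq ?_) (h i)
    apply Finset.sum_congr rfl
    intro j _
    rw [coe_nnnorm, Int.norm_eq_abs]
  rw [← NNReal.coe_le_coe, Real.coe_toNNReal _ hb] at this
  exact this

lemma row_le_linfty {k : ℕ} (M : Matrix (Fin k) (Fin k) ℤ) (i : Fin k) :
    ∑ j, |((M i j : ℤ) : ℝ)| ≤ ‖M‖ := by
  rw [Matrix.linfty_opNorm_def]
  have : (∑ j, ‖M i j‖₊) ≤ ((Finset.univ : Finset (Fin k)).sup fun i => ∑ j, ‖M i j‖₊) :=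
    Finset.le_sup (f := fun i => ∑ j, ‖M i j‖₊) (Finset.mem_univ i)
  rw [← NNReal.coe_le_coe, NNReal.coe_sum] at this
  refine le_trans (le_of_eq ?_) this
  apply Finset.sum_congr rfl
  intro j _
  rw [coe_nnnorm, Int.norm_eq_abs]

section ZA

variable {g : ℤ[X]} (hm : g.Monic) (hk : 0 < g.natDegree)

include hm in
lemma coeffs_zero (v : Fin g.natDegree → ℤ)
    (h : ∑ j, (AdjoinRoot.of g (v j)) * (AdjoinRoot.root g) ^ (j : ℕ) = 0) : v = 0 := by
  set q : ℤ[X] := ∑ i : Fin g.natDegree, C (v i) * X ^ (i : ℕ) with hq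
  have h2 : (AdjoinRoot.mk g) q = 0 := by
    rw [hq, map_sum, ← h]
    apply Finset.sum_congr rfl
    intro i _
    rw [map_mul, map_pow, AdjoinRoot.mk_C, AdjoinRoot.mk_X]
  rw [AdjoinRoot.mk_eq_zero] at h2
  have hqdeg : q.degree < g.degree := by
    rw [degree_eq_natDegree hm.ne_zero]
    refine (degree_sum_le _ _).trans_lt ?_
    rw [Finset.sup_lt_iff (by exact WithBot.bot_lt_coe _)]
    intro i _
    refine (degree_C_mul_X_pow_le _ _).trans_lt ?_
    exact_mod_cast i.2
  have hq0 : q = 0 := by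
    by_contra hne
    exact absurd (degree_le_of_dvd h2 hne) (not_le.2 hqdeg)
  funext i
  have : q.coeff (i : ℕ) = v i := by
    rw [hq, finsetSum_coeff]
    rw [Finset.sum_eq_single i]
    · simp
    · intro j _ hj
      have : (i : ℕ) ≠ (j : ℕ) := fun h => hj (Fin.ext h.symm)
      simp [coeff_C_mul, coeff_X_pow, this]
    · intro h; exact absurd (Finset.mem_univ _) h
  rw [← this, hq0]; simp

include hm in
lemma aeval_comp_self : aeval (comp g g.natDegree) g = 0 := by
  have h1 := aeval_comp_mulVec (AdjoinRoot.of g) (AdjoinRoot.root g) g g.natDegree hm rfl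
    (AdjoinRoot.eval₂_root g) g
  rw [AdjoinRoot.eval₂_root, zero_smul] at h1
  ext i j
  have h2 := congrFun h1 i
  simp only [Matrix.mulVec, dotProduct, Matrix.map_apply, Pi.zero_apply] at h2
  have h3 := coeffs_zero hm (fun j => (aeval (comp g g.natDegree) g) i j) h2
  exact congrFun h3 j

/-- multiplication matrices -/
noncomputable def mulM : AdjoinRoot g →+* Matrix (Fin g.natDegree) (Fin g.natDegree) ℤ :=
  Ideal.Quotient.lift _ (aeval (comp g g.natDegree)).toRingHom (by
    intro a ha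
    rcases Ideal.mem_span_singleton.1 ha with ⟨y, hy⟩
    show aeval (comp g g.natDegree) a = 0
    rw [hy, map_mul, aeval_comp_self hm, zero_mul])

lemma mulM_mk (V : ℤ[X]) : mulM hm (AdjoinRoot.mk g V) = aeval (comp g g.natDegree) V := rfl

/-- operator norm of the multiplication by an element -/
noncomputable def os : RingSeminorm (AdjoinRoot g) where
  toFun := fun x => ‖mulM hm x‖
  map_zero' := by rw [map_zero, norm_zero]
  add_le' := fun x y => by rw [map_add]; exact norm_add_le _ _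
  neg' := fun x => by rw [map_neg, norm_neg]
  mul_le' := fun x y => by rw [map_mul]; exact norm_mul_le _ _

lemma os_apply (x : AdjoinRoot g) : os hm x = ‖mulM hm x‖ := rfl

lemma os_one : os hm 1 ≤ 1 := by
  rw [os_apply, map_one]
  apply linfty_le _ _ (by norm_num)
  intro i
  rw [Finset.sum_eq_single i]
  · simp
  · intro j _ hj
    rw [Matrix.one_apply_ne hj.symm]; simp
  · intro h; exact absurd (Finset.mem_univ _) h

lemma os_root : os hm (AdjoinRoot.root g) ≤ 1 + pn zn g := by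
  rw [os_apply, ← AdjoinRoot.mk_X, mulM_mk, aeval_X]
  apply linfty_le _ _ (by have := apply_nonneg (pn zn) g; linarith)
  intro i
  exact comp_row_le zn zn_one g g.natDegree i

lemma repr_eq (x : AdjoinRoot g) (i : Fin g.natDegree) :
    (AdjoinRoot.powerBasisAux' hm).repr x i = mulM hm x ⟨0, hk⟩ i := by
  obtain ⟨V, rfl⟩ := AdjoinRoot.mk_surjective x
  rw [mulM_mk]
  have h1 := aeval_comp_mulVec (AdjoinRoot.of g) (AdjoinRoot.root g) g g.natDegree hm rfl
    (AdjoinRoot.eval₂_root g) V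
  have h2 := congrFun h1 ⟨0, hk⟩
  simp only [Matrix.mulVec, dotProduct, Matrix.map_apply, Pi.smul_apply, pow_zero, smul_eq_mul,
    mul_one] at h2
  have h3 : AdjoinRoot.mk g V = ∑ j, (aeval (comp g g.natDegree) V ⟨0, hk⟩ j) •
      (AdjoinRoot.powerBasisAux' hm) j := by
    have e1 : (AdjoinRoot.mk g) V = eval₂ (AdjoinRoot.of g) (AdjoinRoot.root g) V := by
      rw [← AdjoinRoot.aeval_eq, aeval_def]; rfl
    rw [e1, ← h2]
    apply Finset.sum_congr rfl
    intro j _
    have e2 : (AdjoinRoot.powerBasisAux' hm) j = (AdjoinRoot.root g) ^ (j : ℕ) :=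
      (AdjoinRoot.powerBasis' hm).basis_eq_pow j
    rw [e2, zsmul_eq_mul]
    congr 1
  rw [h3, Module.Basis.repr_sum_self]

include hk in
lemma abs_repr_le (x : AdjoinRoot g) (i : Fin g.natDegree) :
    |(((AdjoinRoot.powerBasisAux' hm).repr x i : ℤ) : ℝ)| ≤ 1 * os hm x := by
  rw [repr_eq hm hk, one_mul, os_apply]
  refine le_trans ?_ (row_le_linfty (mulM hm x) ⟨0, hk⟩)
  exact Finset.single_le_sum (f := fun j => |((mulM hm x ⟨0, hk⟩ j : ℤ) : ℝ)|)
    (fun _ _ => abs_nonneg _) (Finset.mem_univ i)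

/-- the real embedding attached to a real root -/
noncomputable def sR (η : ℝ) (hη : evf η g = 0) : AdjoinRoot g →+* ℝ :=
  AdjoinRoot.lift (Int.castRingHom ℝ) η hη

lemma sR_root (η : ℝ) (hη : evf η g = 0) : sR η hη (AdjoinRoot.root g) = η :=
  AdjoinRoot.lift_root _

include hk in
lemma abs_sR_le (η : ℝ) (hη : evf η g = 0) (x : AdjoinRoot g) : |sR η hη x| ≤ os hm x := by
  obtain ⟨V, rfl⟩ := AdjoinRoot.mk_surjective x
  have e0 : sR η hη (AdjoinRoot.mk g V) = eval₂ (Int.castRingHom ℝ) η V := AdjoinRoot.lift_mk _ V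
  rw [e0, os_apply, mulM_mk]
  have h1 := aeval_comp_mulVec (Int.castRingHom ℝ) η g g.natDegree hm rfl hη V
  have hne : (Finset.univ : Finset (Fin g.natDegree)).Nonempty := ⟨⟨0, hk⟩, Finset.mem_univ _⟩
  obtain ⟨i0, _, hmax⟩ := Finset.exists_max_image Finset.univ
    (fun i : Fin g.natDegree => |η| ^ (i : ℕ)) hne
  have hpos : 0 < |η| ^ (i0 : ℕ) := by
    have := hmax ⟨0, hk⟩ (Finset.mem_univ _)
    simp only [pow_zero] at this
    linarith
  have h2 := congrFun h1 i0
  simp only [Matrix.mulVec, dotProduct, Matrix.map_apply, Pi.smul_apply, smul_eq_mul] at h2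
  have h3 : |eval₂ (Int.castRingHom ℝ) η V| * |η| ^ (i0 : ℕ)
      ≤ ‖aeval (comp g g.natDegree) V‖ * |η| ^ (i0 : ℕ) := by
    rw [← abs_pow, ← abs_mul, ← h2]
    refine (Finset.abs_sum_le_sum_abs _ _).trans ?_
    refine le_trans ?_ (mul_le_mul_of_nonneg_right
      (row_le_linfty (aeval (comp g g.natDegree) V) i0) (by positivity))
    rw [Finset.sum_mul]
    apply Finset.sum_le_sum
    intro j _
    rw [abs_mul, abs_pow, abs_pow]
    exact mul_le_mul_of_nonneg_left (hmax j (Finset.mem_univ _)) (abs_nonneg _)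
  exact le_of_mul_le_mul_right h3 hpos

lemma evf_root : evf (AdjoinRoot.root g) g = 0 := by
  have := AdjoinRoot.eval₂_root g
  rw [← this, evf, coe_eval₂RingHom]
  congr 1

end ZA

end Pool.Agent.H322R2
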