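import Pool.Agent.H322R2.ZTrip

/-!
Counting the integer points near the branches at infinity (sharp law).
-/

open Polynomial Finset

namespace Pool.Agent.H322R2

/-- medium near zeros -/
def NZ (f : ℕ → ℝ[X]) (d : ℕ) (z : ℝ) (P : ℤ × ℤ) : Prop :=
  |P.2| ≤ |P.1| ∧ |Tv f d P.1 ((P.2 : ℝ) / P.1)| ≤ 6 * z ^ 2 / |(P.1 : ℝ)| ^ 5

lemma ZT1.ne_zero {f : ℕ → ℝ[X]} {z : ℝ} (hz : 1 ≤ z) (h : ZT1 f z) : f 0 ≠ 0 := by
  intro h0
  have h1 := h 0 (by simp) (by rw [h0]; simp)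
  rw [hc, h0, map_zero, coeff_zero, abs_zero] at h1
  linarith

lemma window_small {f : ℕ → ℝ[X]} {d : ℕ} {K z : ℝ} (h : ZH f d K z) (hKd : ((d : ℝ) + 1) ^ 4 + 288 ≤ K)
    (h1 : ZT1 f z) (h2 : ZT2 f z) {X : ℝ} (hX : K ^ 16 * z ^ 6 ≤ X) (T : Finset (ℤ × ℤ))
    (hT : ∀ P ∈ T, NZ f d z P ∧ X ≤ |(P.1 : ℝ)| ∧ |(P.1 : ℝ)| ≤ X * (1 + 1 / (K ^ 8 * z ^ 3)))
    (hs : ∀ P ∈ T, ∀ R ∈ T, 0 < P.1 * R.1) : T.card ≤ 2 * d := by
  classical
  have hK3 := h.hK3
  have hz := h.hz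
  have hd := h.hd
  have hK0 : 0 < K := by linarith
  have hK1 : 1 ≤ K := by linarith
  have hz0 : 0 < z := by linarith
  have hX1 : 1 ≤ X := by
    refine le_trans ?_ hX
    exact one_le_mul_of_one_le_of_one_le (one_le_pow₀ hK1) (one_le_pow₀ hz)
  have hX0 : 0 < X := by linarith
  have hlam : 1 / (K ^ 8 * z ^ 3) ≤ 1 := by
    rw [div_le_one (by positivity)]
    exact one_le_mul_of_one_le_of_one_le (one_le_pow₀ hK1) (one_le_pow₀ hz)
  have ha2 : ∀ P ∈ T, |(P.1 : ℝ)| ≤ 2 * X := by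
    intro P hP
    refine (hT P hP).2.2.trans ?_
    calc X * (1 + 1 / (K ^ 8 * z ^ 3)) ≤ X * (1 + 1) := by gcongr
      _ = _ := by ring
  have hv : ∀ P ∈ T, |Tv f d P.1 ((P.2 : ℝ) / P.1)| ≤ 6 * z ^ 2 / X ^ 5 := by
    intro P hP
    refine (hT P hP).1.2.trans ?_
    apply div_le_div_of_nonneg_left (by positivity) (by positivity)
    exact pow_le_pow_left₀ hX0.le (hT P hP).2.1 5
  have hex : ∀ P ∈ T, ∃ η : ℝ, |η| ≤ 3 / 2 ∧ (f 0).eval η = 0 ∧ z ≤ |hc f 0 1 η| ∧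
      |(P.2 : ℝ) - η * P.1 - zbe f η| ≤ K ^ 7 * z ^ 3 / X := by
    intro P hP
    have hP0 : (P.1 : ℝ) ≠ 0 := by
      intro hh
      have := (hT P hP).2.1
      rw [hh, abs_zero] at this
      linarith
    obtain ⟨η, e1, e2, e3, e4⟩ := near_root h h1 hX (hT P hP).2.1 (ha2 P hP)
      (s := (P.2 : ℝ) / P.1) (by
        rw [abs_div, div_le_one (abs_pos.2 hP0)]
        exact_mod_cast (hT P hP).1.1) (hv P hP)
    refine ⟨η, e1, e2, e3, ?_⟩
    rw [mul_div_cancel₀ _ hP0] at e4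
    exact e4
  choose! η e1 e2 e3 e4 using hex
  have hf0 := h1.ne_zero hz
  obtain ⟨S, hS⟩ : ∃ S, S = (f 0).roots.toFinset := ⟨_, rfl⟩
  have hScard : S.card ≤ d := by
    rw [hS]
    refine (Multiset.toFinset_card_le _).trans ((card_roots' _).trans ?_)
    have := h.deg 0 (by omega)
    omega
  have hmaps : ∀ P ∈ T, η P ∈ S := by
    intro P hP
    rw [hS, Multiset.mem_toFinset, mem_roots hf0]
    exact e2 P hP
  have hcard := Finset.card_le_mul_card_image_of_maps_to (s := T) (t := S) (f := η) hmaps 2 (by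
    intro η0 _
    by_contra hcon
    push Not at hcon
    have hc1 : Fintype.card (Fin 3) ≤ Fintype.card ↥(T.filter (fun P => η P = η0)) := by
      rw [Fintype.card_fin, Fintype.card_coe]; omega
    obtain ⟨e⟩ := Function.Embedding.nonempty_of_card_le hc1
    have hmem : ∀ i, (e i).1 ∈ T ∧ η (e i).1 = η0 := fun i => Finset.mem_filter.1 (e i).2
    have hm0 := hmem 0
    have hr1 : K ^ 7 * z ^ 3 / X < 1 / 2 := by
      rw [div_lt_div_iff₀ hX0 (by norm_num)]
      have e5 : K ^ 8 * z ^ 3 ≤ K ^ 16 * z ^ 6 := mul_le_mul (pow_le_pow_right₀ hK1 (by norm_num))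
        (pow_le_pow_right₀ hz (by norm_num)) (by positivity) (by positivity)
      calc K ^ 7 * z ^ 3 * 2 < K ^ 7 * z ^ 3 * K := by
            apply mul_lt_mul_of_pos_left _ (by positivity); linarith
        _ = K ^ 8 * z ^ 3 := by ring
        _ ≤ X := e5.trans hX
        _ = _ := by ring
    have hr2 : 0 ≤ K ^ 7 * z ^ 3 / X := by positivity
    apply no_triple h hKd h2 hX (η := η0) (by rw [← hm0.2]; exact e1 _ hm0.1)
      (by rw [← hm0.2]; exact e2 _ hm0.1) (by rw [← hm0.2]; exact e3 _ hm0.1)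
      (fun i => (e i).1.1) (fun i => (e i).1.2)
    · intro i j hij
      simp only at hij
      apply e.injective
      apply Subtype.ext
      apply Prod.ext hij
      have n1 := e4 _ (hmem i).1
      have n2 := e4 _ (hmem j).1
      rw [(hmem i).2] at n1
      rw [(hmem j).2, ← hij] at n2
      have n3 : |(((e i).1.2 : ℝ)) - (e j).1.2| < 1 := by
        have n4 : (((e i).1.2 : ℝ)) - (e j).1.2 = ((((e i).1.2 : ℝ)) - η0 * (e i).1.1 - zbe f η0)
            - ((((e j).1.2 : ℝ)) - η0 * (e i).1.1 - zbe f η0) := by ring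
        rw [n4]
        refine lt_of_le_of_lt (abs_sub _ _) ?_
        linarith
      have n5 : |(e i).1.2 - (e j).1.2| < 1 := by exact_mod_cast n3
      have n6 := abs_nonneg ((e i).1.2 - (e j).1.2)
      have n7 : |(e i).1.2 - (e j).1.2| = 0 := by omega
      have := abs_eq_zero.1 n7
      omega
    · intro i; exact (hT _ (hmem i).1).2.1
    · intro i; exact ha2 _ (hmem i).1
    · intro i j
      have hsg := hs _ (hmem i).1 _ (hmem j).1
      have g1 := (hT _ (hmem i).1).2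
      have g2 := (hT _ (hmem j).1).2
      have g3 : X * (1 + 1 / (K ^ 8 * z ^ 3)) = X + X / (K ^ 8 * z ^ 3) := by ring
      rw [g3] at g1 g2
      rcases pos_and_pos_or_neg_and_neg_of_mul_pos hsg with ⟨p1, p2⟩ | ⟨p1, p2⟩
      · have q1 : (0 : ℝ) < (e i).1.1 := by exact_mod_cast p1
        have q2 : (0 : ℝ) < (e j).1.1 := by exact_mod_cast p2
        rw [abs_of_pos q1] at g1
        rw [abs_of_pos q2] at g2
        rw [abs_le]
        constructor <;> linarith [g1.1, g1.2, g2.1, g2.2]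
      · have q1 : ((e i).1.1 : ℝ) < 0 := by exact_mod_cast p1
        have q2 : ((e j).1.1 : ℝ) < 0 := by exact_mod_cast p2
        rw [abs_of_neg q1] at g1
        rw [abs_of_neg q2] at g2
        rw [abs_le]
        constructor <;> linarith [g1.1, g1.2, g2.1, g2.2]
    · intro i
      have := e4 _ (hmem i).1
      rw [(hmem i).2] at this
      exact this
    · intro i; exact hv _ (hmem i).1)
  calc T.card ≤ 2 * S.card := hcard
    _ ≤ 2 * d := Nat.mul_le_mul_left _ hScard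

lemma long_small {f : ℕ → ℝ[X]} {d : ℕ} {K z : ℝ} (h : ZH f d K z) (hKd : ((d : ℝ) + 1) ^ 4 + 288 ≤ K)
    (h1 : ZT1 f z) (h2 : ZT2 f z) {X : ℝ} (hX : K ^ 16 * z ^ 6 ≤ X) (n : ℕ) (T : Finset (ℤ × ℤ))
    (hT : ∀ P ∈ T, NZ f d z P ∧ X ≤ |(P.1 : ℝ)| ∧
      |(P.1 : ℝ)| ≤ X * (1 + 1 / (K ^ 8 * z ^ 3)) ^ (n + 1))
    (hs : ∀ P ∈ T, ∀ R ∈ T, 0 < P.1 * R.1) : T.card ≤ 2 * d * (n + 1) := by
  classical
  have hK3 := h.hK3
  have hz := h.hz
  have hK0 : 0 < K := by linarith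
  have hz0 : 0 < z := by linarith
  have hX0 : 0 ≤ X := le_trans (by positivity) hX
  obtain ⟨Z, hZ⟩ : ∃ Z, Z = 1 + 1 / (K ^ 8 * z ^ 3) := ⟨_, rfl⟩
  have hZ1 : 1 ≤ Z := by
    rw [hZ]
    have : 0 ≤ 1 / (K ^ 8 * z ^ 3) := by positivity
    linarith
  rw [← hZ] at hT
  induction n generalizing T with
  | zero =>
    have := window_small h hKd h1 h2 hX T (by
      intro P hP
      have := hT P hP
      rw [zero_add, pow_one] at this
      rw [← hZ]
      exact this) hs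
    omega
  | succ n ih =>
    have hsplit := Finset.card_filter_add_card_filter_not (s := T)
      (fun P : ℤ × ℤ => |(P.1 : ℝ)| ≤ X * Z ^ (n + 1))
    have i1 := ih (T.filter fun P : ℤ × ℤ => |(P.1 : ℝ)| ≤ X * Z ^ (n + 1))
      (by
        intro P hP R hR
        exact hs P (Finset.mem_filter.1 hP).1 R (Finset.mem_filter.1 hR).1)
      (by
        intro P hP
        rw [Finset.mem_filter] at hP
        exact ⟨(hT P hP.1).1, (hT P hP.1).2.1, hP.2⟩)
    have hXX : X ≤ X * Z ^ (n + 1) := le_mul_of_one_le_right hX0 (one_le_pow₀ hZ1)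
    have i2 := window_small h hKd h1 h2 (hX.trans hXX)
      (T.filter fun P : ℤ × ℤ => ¬ |(P.1 : ℝ)| ≤ X * Z ^ (n + 1))
      (by
        intro P hP
        rw [Finset.mem_filter] at hP
        refine ⟨(hT P hP.1).1, (not_le.1 hP.2).le, ?_⟩
        have := (hT P hP.1).2.2
        rw [pow_succ, ← mul_assoc] at this
        rw [← hZ]
        exact this)
      (by
        intro P hP R hR
        exact hs P (Finset.mem_filter.1 hP).1 R (Finset.mem_filter.1 hR).1)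
    have e1 : 2 * d * (n + 1 + 1) = 2 * d * (n + 1) + 2 * d := by ring
    omega

/-- all signs -/
theorem long_all {f : ℕ → ℝ[X]} {d : ℕ} {K z : ℝ} (h : ZH f d K z) (hKd : ((d : ℝ) + 1) ^ 4 + 288 ≤ K)
    (h1 : ZT1 f z) (h2 : ZT2 f z) {X : ℝ} (hX : K ^ 16 * z ^ 6 ≤ X) (n : ℕ) (T : Finset (ℤ × ℤ))
    (hT : ∀ P ∈ T, NZ f d z P ∧ X ≤ |(P.1 : ℝ)| ∧
      |(P.1 : ℝ)| ≤ X * (1 + 1 / (K ^ 8 * z ^ 3)) ^ (n + 1)) : T.card ≤ 4 * d * (n + 1) := by
  classical
  have hK3 := h.hK3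
  have hz := h.hz
  have hK1 : 1 ≤ K := by linarith
  have hX1 : 1 ≤ X := by
    refine le_trans ?_ hX
    exact one_le_mul_of_one_le_of_one_le (one_le_pow₀ hK1) (one_le_pow₀ hz)
  have hP0 : ∀ P ∈ T, P.1 ≠ 0 := by
    intro P hP hh
    have := (hT P hP).2.1
    rw [hh] at this
    simp at this
    linarith
  have hsplit := Finset.card_filter_add_card_filter_not (s := T) (fun P : ℤ × ℤ => 0 < P.1)
  have i1 := long_small h hKd h1 h2 hX n (T.filter fun P : ℤ × ℤ => 0 < P.1)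
    (fun P hP => hT P (Finset.mem_filter.1 hP).1)
    (fun P hP R hR => mul_pos (Finset.mem_filter.1 hP).2 (Finset.mem_filter.1 hR).2)
  have i2 := long_small h hKd h1 h2 hX n (T.filter fun P : ℤ × ℤ => ¬ 0 < P.1)
    (fun P hP => hT P (Finset.mem_filter.1 hP).1)
    (fun P hP R hR => by
      have p1 := Finset.mem_filter.1 hP
      have p2 := Finset.mem_filter.1 hR
      have q1 : P.1 < 0 := lt_of_le_of_ne (not_lt.1 p1.2) (hP0 P p1.1)
      have q2 : R.1 < 0 := lt_of_le_of_ne (not_lt.1 p2.2) (hP0 R p2.1)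
      exact mul_pos_of_neg_of_neg q1 q2)
  have e1 : 4 * d * (n + 1) = 2 * d * (n + 1) + 2 * d * (n + 1) := by ring
  omega

end Pool.Agent.H322R2
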