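import Mathlib

/-!
Divided differences of polynomials at three points.
-/

open Finset

namespace Pool.Agent.H322R2

/-- second divided difference of `s ^ m` -/
noncomputable def dd2 (s1 s2 s3 : ℝ) (m : ℕ) : ℝ :=
  s1 ^ m / ((s1 - s2) * (s1 - s3)) + s2 ^ m / ((s2 - s1) * (s2 - s3)) +
    s3 ^ m / ((s3 - s1) * (s3 - s2))

/-- first divided difference of `s ^ m` -/
noncomputable def dd1 (s1 s2 : ℝ) (m : ℕ) : ℝ := (s1 ^ m - s2 ^ m) / (s1 - s2)

section

variable {s1 s2 s3 S : ℝ} (h12 : s1 ≠ s2) (h13 : s1 ≠ s3) (h23 : s2 ≠ s3)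

include h12 in
lemma dd1_succ (m : ℕ) : dd1 s1 s2 (m + 1) = s1 ^ m + s2 * dd1 s1 s2 m := by
  have e1 : s1 - s2 ≠ 0 := sub_ne_zero.2 h12
  unfold dd1
  field_simp
  ring

include h12 h13 h23 in
lemma dd2_zero : dd2 s1 s2 s3 0 = 0 := by
  have e1 : s1 - s2 ≠ 0 := sub_ne_zero.2 h12
  have e2 : s1 - s3 ≠ 0 := sub_ne_zero.2 h13
  have e3 : s2 - s3 ≠ 0 := sub_ne_zero.2 h23
  have e4 : s2 - s1 = -(s1 - s2) := by ring
  have e5 : s3 - s1 = -(s1 - s3) := by ring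
  have e6 : s3 - s2 = -(s2 - s3) := by ring
  unfold dd2
  rw [e4, e5, e6]
  field_simp
  ring

include h12 h13 h23 in
lemma dd2_succ (m : ℕ) : dd2 s1 s2 s3 (m + 1) = s3 * dd2 s1 s2 s3 m + dd1 s1 s2 m := by
  have e1 : s1 - s2 ≠ 0 := sub_ne_zero.2 h12
  have e2 : s1 - s3 ≠ 0 := sub_ne_zero.2 h13
  have e3 : s2 - s3 ≠ 0 := sub_ne_zero.2 h23
  have e4 : s2 - s1 = -(s1 - s2) := by ring
  have e5 : s3 - s1 = -(s1 - s3) := by ring
  have e6 : s3 - s2 = -(s2 - s3) := by ring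
  unfold dd2 dd1
  rw [e4, e5, e6]
  field_simp
  ring

include h12 h13 h23 in
lemma dd2_one : dd2 s1 s2 s3 1 = 0 := by
  rw [show (1 : ℕ) = 0 + 1 from rfl, dd2_succ h12 h13 h23, dd2_zero h12 h13 h23, dd1]
  simp

include h12 h13 h23 in
lemma dd2_two : dd2 s1 s2 s3 2 = 1 := by
  have e1 : s1 - s2 ≠ 0 := sub_ne_zero.2 h12
  rw [show (2 : ℕ) = 1 + 1 from rfl, dd2_succ h12 h13 h23, dd2_one h12 h13 h23, dd1, pow_one,
    pow_one, div_self e1]
  simp

include h12 in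
lemma dd1_bound (h1 : |s1| ≤ S) (h2 : |s2| ≤ S) (m : ℕ) :
    |dd1 s1 s2 (m + 1)| ≤ (m + 1) * S ^ m := by
  have hS : 0 ≤ S := (abs_nonneg _).trans h1
  induction m with
  | zero =>
    rw [dd1_succ h12, dd1]
    simp
  | succ m ih =>
    rw [dd1_succ h12]
    have e1 : |s1 ^ (m + 1)| ≤ S ^ (m + 1) := by
      rw [abs_pow]; exact pow_le_pow_left₀ (abs_nonneg _) h1 _
    have e2 : |s2 * dd1 s1 s2 (m + 1)| ≤ S * ((m + 1) * S ^ m) := by
      rw [abs_mul]
      exact mul_le_mul h2 ih (abs_nonneg _) hS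
    refine (abs_add_le _ _).trans ?_
    push_cast
    calc |s1 ^ (m + 1)| + |s2 * dd1 s1 s2 (m + 1)| ≤ S ^ (m + 1) + S * ((m + 1) * S ^ m) :=
          add_le_add e1 e2
      _ = _ := by ring

include h12 h13 h23 in
lemma dd2_bound (h1 : |s1| ≤ S) (h2 : |s2| ≤ S) (h3 : |s3| ≤ S) (m : ℕ) :
    |dd2 s1 s2 s3 (m + 2)| ≤ (m + 2) ^ 2 * S ^ m := by
  have hS : 0 ≤ S := (abs_nonneg _).trans h1
  induction m with
  | zero =>
    rw [zero_add, dd2_two h12 h13 h23]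
    simp
  | succ m ih =>
    rw [show m + 1 + 2 = (m + 2) + 1 from by ring, dd2_succ h12 h13 h23]
    have e1 : |s3 * dd2 s1 s2 s3 (m + 2)| ≤ S * ((m + 2) ^ 2 * S ^ m) := by
      rw [abs_mul]
      exact mul_le_mul h3 ih (abs_nonneg _) hS
    have e2 := dd1_bound h12 h1 h2 (m + 1)
    refine (abs_add_le _ _).trans ?_
    push_cast at e2 ⊢
    calc |s3 * dd2 s1 s2 s3 (m + 2)| + |dd1 s1 s2 (m + 2)|
        ≤ S * ((m + 2) ^ 2 * S ^ m) + ((m + 1 + 1) * S ^ (m + 1)) := add_le_add e1 e2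
      _ = ((m + 2) ^ 2 + (m + 2)) * S ^ (m + 1) := by ring
      _ ≤ (m + 1 + 2) ^ 2 * S ^ (m + 1) := by
        apply mul_le_mul_of_nonneg_right _ (by positivity)
        have : (0 : ℝ) ≤ m := by positivity
        nlinarith

include h12 h13 h23 in
/-- the coefficient of order two -/
lemma coef_two (a : ℕ → ℝ) (n : ℕ) {ν W A0 : ℝ} (h1 : |s1| ≤ S) (h2 : |s2| ≤ S) (h3 : |s3| ≤ S)
    (hS1 : S ≤ 1) (hS0 : 0 < S)
    (hg : ∀ s ∈ ({s1, s2, s3} : Set ℝ), |∑ m ∈ range (n + 3), a m * s ^ m| ≤ ν)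
    (hW : ∀ s ∈ ({s1, s2, s3} : Set ℝ), ∀ t ∈ ({s1, s2, s3} : Set ℝ), s ≠ t → 1 ≤ W * |s - t|)
    (hW0 : 0 ≤ W)
    (hA0 : 0 ≤ A0) (ha : ∀ m < n, |a (m + 3)| * S ^ m ≤ A0) :
    |a 2| ≤ 3 * (ν * W ^ 2) + n * (n + 3) ^ 2 * (A0 * S) ∧
    |a 0| ≤ 3 * (ν * W ^ 2 * S ^ 2) + n * (n + 3) ^ 2 * (A0 * S ^ 3) := by
  have e1 : s1 - s2 ≠ 0 := sub_ne_zero.2 h12
  have e2 : s1 - s3 ≠ 0 := sub_ne_zero.2 h13
  have e3 : s2 - s3 ≠ 0 := sub_ne_zero.2 h23
  have e4 : s2 - s1 ≠ 0 := sub_ne_zero.2 h12.symm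
  have e5 : s3 - s1 ≠ 0 := sub_ne_zero.2 h13.symm
  have e6 : s3 - s2 ≠ 0 := sub_ne_zero.2 h23.symm
  have hν : 0 ≤ ν := (abs_nonneg _).trans (hg s1 (by simp))
  obtain ⟨G, hG⟩ : ∃ G : ℝ → ℝ, G = fun s => ∑ m ∈ range (n + 3), a m * s ^ m := ⟨_, rfl⟩
  have hG1 : |G s1| ≤ ν := by rw [hG]; exact hg s1 (by simp)
  have hG2 : |G s2| ≤ ν := by rw [hG]; exact hg s2 (by simp)
  have hG3 : |G s3| ≤ ν := by rw [hG]; exact hg s3 (by simp)
  have hinv : ∀ x y : ℝ, x ≠ 0 → y ≠ 0 → 1 ≤ W * |x| → 1 ≤ W * |y| → 1 / |x * y| ≤ W ^ 2 := by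
    intro x y hx hy h5 h6
    have hxy : 0 < |x * y| := abs_pos.2 (mul_ne_zero hx hy)
    rw [div_le_iff₀ hxy, abs_mul]
    calc (1 : ℝ) = 1 * 1 := by ring
      _ ≤ (W * |x|) * (W * |y|) := mul_le_mul h5 h6 (by norm_num) (by positivity)
      _ = _ := by ring
  have w12 := hW s1 (by simp) s2 (by simp) h12
  have w13 := hW s1 (by simp) s3 (by simp) h13
  have w23 := hW s2 (by simp) s3 (by simp) h23
  have w21 := hW s2 (by simp) s1 (by simp) h12.symm
  have w31 := hW s3 (by simp) s1 (by simp) h13.symm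
  have w32 := hW s3 (by simp) s2 (by simp) h23.symm
  have q1 := hinv _ _ e1 e2 w12 w13
  have q2 := hinv _ _ e4 e3 w21 w23
  have q3 := hinv _ _ e5 e6 w31 w32
  -- sum identity
  have key : ∀ c : ℕ, (G s1 * s1 ^ 0 / ((s1 - s2) * (s1 - s3)) + G s2 / ((s2 - s1) * (s2 - s3)) +
      G s3 / ((s3 - s1) * (s3 - s2))) = ∑ m ∈ range (n + 3), a m * dd2 s1 s2 s3 m := by
    intro c
    rw [hG]
    simp only [pow_zero, mul_one]
    rw [Finset.sum_div, Finset.sum_div, Finset.sum_div, ← Finset.sum_add_distrib,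
      ← Finset.sum_add_distrib]
    apply Finset.sum_congr rfl
    intro m _
    unfold dd2
    ring
  have key0 := key 0
  rw [pow_zero, mul_one] at key0
  have hsplit : ∑ m ∈ range (n + 3), a m * dd2 s1 s2 s3 m
      = a 2 + ∑ m ∈ range n, a (m + 3) * dd2 s1 s2 s3 (m + 3) := by
    rw [Finset.sum_range_succ', Finset.sum_range_succ', Finset.sum_range_succ']
    simp only [zero_add]
    rw [dd2_zero h12 h13 h23, dd2_one h12 h13 h23,
      show (1 + 1 : ℕ) = 2 from rfl, dd2_two h12 h13 h23]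
    have : ∀ m, m + 1 + 1 + 1 = m + 3 := fun m => rfl
    simp only [this]
    ring
  rw [hsplit] at key0
  have hrest : ∀ k : ℕ, |∑ m ∈ range n, a (m + 3) * dd2 s1 s2 s3 (m + 3)| ≤
      n * (n + 3) ^ 2 * (A0 * S) := by
    intro _
    refine (Finset.abs_sum_le_sum_abs _ _).trans ?_
    refine (Finset.sum_le_card_nsmul _ _ ((n + 3) ^ 2 * (A0 * S)) ?_).trans ?_
    · intro m hm
      rw [Finset.mem_range] at hm
      have h5 := dd2_bound h12 h13 h23 h1 h2 h3 (m + 1)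
      rw [show m + 1 + 2 = m + 3 from rfl] at h5
      rw [abs_mul]
      have h6 : ((((m + 1 : ℕ) : ℝ) + 2) ^ 2) ≤ ((n : ℝ) + 3) ^ 2 := by
        apply pow_le_pow_left₀ (by positivity)
        have : (m : ℝ) + 1 ≤ n := by exact_mod_cast hm
        push_cast; linarith
      calc |a (m + 3)| * |dd2 s1 s2 s3 (m + 3)|
          ≤ |a (m + 3)| * (((n : ℝ) + 3) ^ 2 * S ^ (m + 1)) :=
            mul_le_mul_of_nonneg_left (h5.trans (mul_le_mul_of_nonneg_right h6 (by positivity)))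
              (abs_nonneg _)
        _ = ((n : ℝ) + 3) ^ 2 * ((|a (m + 3)| * S ^ m) * S) := by ring
        _ ≤ ((n : ℝ) + 3) ^ 2 * (A0 * S) := by
          apply mul_le_mul_of_nonneg_left _ (by positivity)
          exact mul_le_mul_of_nonneg_right (ha m hm) hS0.le
    · rw [Finset.card_range, nsmul_eq_mul]
      apply le_of_eq; ring
  have hterm : ∀ (x y v : ℝ), 1 / |x * y| ≤ W ^ 2 → |v| ≤ ν → |v / (x * y)| ≤ ν * W ^ 2 := by
    intro x y v h5 h6
    rw [abs_div, div_eq_mul_one_div]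
    exact mul_le_mul h6 h5 (by positivity) hν
  constructor
  · have h5 : a 2 = (G s1 / ((s1 - s2) * (s1 - s3)) + G s2 / ((s2 - s1) * (s2 - s3)) +
      G s3 / ((s3 - s1) * (s3 - s2))) - ∑ m ∈ range n, a (m + 3) * dd2 s1 s2 s3 (m + 3) := by
      rw [key0]; ring
    rw [h5]
    refine (abs_sub _ _).trans ?_
    have t1 := hterm _ _ _ q1 hG1
    have t2 := hterm _ _ _ q2 hG2
    have t3 := hterm _ _ _ q3 hG3
    have t4 := abs_add_le (G s1 / ((s1 - s2) * (s1 - s3)) + G s2 / ((s2 - s1) * (s2 - s3)))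
      (G s3 / ((s3 - s1) * (s3 - s2)))
    have t5 := abs_add_le (G s1 / ((s1 - s2) * (s1 - s3))) (G s2 / ((s2 - s1) * (s2 - s3)))
    have t6 := hrest 0
    linarith
  · -- extrapolation to zero
    have key2 : (G s1 * (s2 * s3) / ((s1 - s2) * (s1 - s3)) + G s2 * (s1 * s3) /
        ((s2 - s1) * (s2 - s3)) + G s3 * (s1 * s2) / ((s3 - s1) * (s3 - s2)))
        = a 0 + s1 * s2 * s3 * ∑ m ∈ range n, a (m + 3) * dd2 s1 s2 s3 (m + 2) := by
      have h5 : ∀ s : ℝ, G s = a 0 + s * ∑ m ∈ range (n + 2), a (m + 1) * s ^ m := by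
        intro s
        rw [hG]
        simp only
        rw [Finset.sum_range_succ', Finset.mul_sum, pow_zero, mul_one, add_comm]
        congr 1
        apply Finset.sum_congr rfl
        intro m _
        ring
      have h6 : ∑ m ∈ range (n + 2), a (m + 1) * dd2 s1 s2 s3 m
          = ∑ m ∈ range n, a (m + 3) * dd2 s1 s2 s3 (m + 2) := by
        rw [Finset.sum_range_succ', Finset.sum_range_succ']
        rw [dd2_zero h12 h13 h23, show (0 + 1 : ℕ) = 1 from rfl, dd2_one h12 h13 h23]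
        have : ∀ m, m + 1 + 1 = m + 2 := fun m => rfl
        simp only [this]
        have h7 : ∀ m, m + 2 + 1 = m + 3 := fun m => rfl
        simp only [h7]
        ring
      have h7 : a 0 * (s2 * s3 / ((s1 - s2) * (s1 - s3)) + s1 * s3 / ((s2 - s1) * (s2 - s3)) +
          s1 * s2 / ((s3 - s1) * (s3 - s2))) = a 0 := by
        have f4 : s2 - s1 = -(s1 - s2) := by ring
        have f5 : s3 - s1 = -(s1 - s3) := by ring
        have f6 : s3 - s2 = -(s2 - s3) := by ring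
        have : (s2 * s3 / ((s1 - s2) * (s1 - s3)) + s1 * s3 / ((s2 - s1) * (s2 - s3)) +
          s1 * s2 / ((s3 - s1) * (s3 - s2))) = 1 := by
          rw [f4, f5, f6]
          field_simp
          ring
        rw [this, mul_one]
      have h8 : ∑ m ∈ range (n + 2), a (m + 1) * dd2 s1 s2 s3 m
          = (∑ m ∈ range (n + 2), a (m + 1) * s1 ^ m) / ((s1 - s2) * (s1 - s3)) +
            (∑ m ∈ range (n + 2), a (m + 1) * s2 ^ m) / ((s2 - s1) * (s2 - s3)) +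
            (∑ m ∈ range (n + 2), a (m + 1) * s3 ^ m) / ((s3 - s1) * (s3 - s2)) := by
        rw [Finset.sum_div, Finset.sum_div, Finset.sum_div, ← Finset.sum_add_distrib,
          ← Finset.sum_add_distrib]
        apply Finset.sum_congr rfl
        intro m _
        unfold dd2
        ring
      rw [← h6, h8, h5 s1, h5 s2, h5 s3]
      conv_rhs => rw [← h7]
      ring
    have h5 : a 0 = (G s1 * (s2 * s3) / ((s1 - s2) * (s1 - s3)) + G s2 * (s1 * s3) /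
        ((s2 - s1) * (s2 - s3)) + G s3 * (s1 * s2) / ((s3 - s1) * (s3 - s2)))
        - s1 * s2 * s3 * ∑ m ∈ range n, a (m + 3) * dd2 s1 s2 s3 (m + 2) := by
      rw [key2]; ring
    have hrest2 : |s1 * s2 * s3 * ∑ m ∈ range n, a (m + 3) * dd2 s1 s2 s3 (m + 2)|
        ≤ n * (n + 3) ^ 2 * (A0 * S ^ 3) := by
      rw [abs_mul]
      have g1 : |s1 * s2 * s3| ≤ S ^ 3 := by
        rw [abs_mul, abs_mul]
        calc |s1| * |s2| * |s3| ≤ S * S * S := by gcongr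
          _ = _ := by ring
      have g2 : |∑ m ∈ range n, a (m + 3) * dd2 s1 s2 s3 (m + 2)| ≤ n * ((n + 3) ^ 2 * A0) := by
        refine (Finset.abs_sum_le_sum_abs _ _).trans ?_
        refine (Finset.sum_le_card_nsmul _ _ ((n + 3) ^ 2 * A0) ?_).trans ?_
        · intro m hm
          rw [Finset.mem_range] at hm
          have h5 := dd2_bound h12 h13 h23 h1 h2 h3 m
          rw [abs_mul]
          have h6 : (((m : ℝ) + 2) ^ 2) ≤ ((n : ℝ) + 3) ^ 2 := by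
            apply pow_le_pow_left₀ (by positivity)
            have : (m : ℝ) + 1 ≤ n := by exact_mod_cast hm
            linarith
          calc |a (m + 3)| * |dd2 s1 s2 s3 (m + 2)|
              ≤ |a (m + 3)| * (((n : ℝ) + 3) ^ 2 * S ^ m) :=
                mul_le_mul_of_nonneg_left (h5.trans (mul_le_mul_of_nonneg_right h6 (by positivity)))
                  (abs_nonneg _)
            _ = ((n : ℝ) + 3) ^ 2 * (|a (m + 3)| * S ^ m) := by ring
            _ ≤ ((n : ℝ) + 3) ^ 2 * A0 := mul_le_mul_of_nonneg_left (ha m hm) (by positivity)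
        · rw [Finset.card_range, nsmul_eq_mul]
      calc |s1 * s2 * s3| * |∑ m ∈ range n, a (m + 3) * dd2 s1 s2 s3 (m + 2)|
          ≤ S ^ 3 * (n * ((n + 3) ^ 2 * A0)) := mul_le_mul g1 g2 (abs_nonneg _) (by positivity)
        _ = _ := by ring
    have hterm2 : ∀ (x y v p q : ℝ), 1 / |x * y| ≤ W ^ 2 → |v| ≤ ν → |p| ≤ S → |q| ≤ S →
        |v * (p * q) / (x * y)| ≤ ν * W ^ 2 * S ^ 2 := by
      intro x y v p q h5 h6 h7 h8
      rw [abs_div, div_eq_mul_one_div, abs_mul, abs_mul]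
      calc |v| * (|p| * |q|) * (1 / |x * y|) ≤ ν * (S * S) * W ^ 2 := by gcongr
        _ = _ := by ring
    rw [h5]
    refine (abs_sub _ _).trans ?_
    have t1 := hterm2 _ _ _ _ _ q1 hG1 h2 h3
    have t2 := hterm2 _ _ _ _ _ q2 hG2 h1 h3
    have t3 := hterm2 _ _ _ _ _ q3 hG3 h1 h2
    have t4 := abs_add_le (G s1 * (s2 * s3) / ((s1 - s2) * (s1 - s3)) + G s2 * (s1 * s3) /
        ((s2 - s1) * (s2 - s3))) (G s3 * (s1 * s2) / ((s3 - s1) * (s3 - s2)))
    have t5 := abs_add_le (G s1 * (s2 * s3) / ((s1 - s2) * (s1 - s3))) (G s2 * (s1 * s3) /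
        ((s2 - s1) * (s2 - s3)))
    linarith

end

end Pool.Agent.H322R2
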