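import Pool.Agent.H322R2.ZDiv

/-!
Integer points near the branches at infinity: precise estimates (sharp law).
-/

open Polynomial Finset

namespace Pool.Agent.H322R2

/-- `T(a, a s) / a ^ d` -/
noncomputable def Tv (f : ℕ → ℝ[X]) (d : ℕ) (a s : ℝ) : ℝ :=
  ∑ k ∈ range (d + 1), (f k).eval s * (a⁻¹) ^ k

/-- Taylor coefficients -/
noncomputable def hc (f : ℕ → ℝ[X]) (k j : ℕ) (t : ℝ) : ℝ := (taylor t (f k)).coeff j

/-- coefficients of the restriction to a line -/
noncomputable def am (f : ℕ → ℝ[X]) (p u : ℝ) (m : ℕ) : ℝ :=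
  ∑ k ∈ range (m + 1), hc f k (m - k) p * u ^ (m - k)

lemma line_expand {f : ℕ → ℝ[X]} {d : ℕ} (hdeg : ∀ k ≤ d, (f k).natDegree ≤ d - k) (p u s : ℝ) :
    ∑ k ∈ range (d + 1), (f k).eval (p + u * s) * s ^ k
      = ∑ m ∈ range (d + 1), am f p u m * s ^ m := by
  have h1 : ∀ k ∈ range (d + 1), (f k).eval (p + u * s) * s ^ k
      = ∑ j ∈ range (d + 1 - k), hc f k j p * u ^ j * s ^ (k + j) := by
    intro k hk
    rw [Finset.mem_range] at hk
    have e1 : (f k).eval (p + u * s) = (taylor p (f k)).eval (u * s) := by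
      rw [taylor_eval, add_comm]
    rw [e1, eval_eq_sum_range' (n := d + 1 - k) (by
      rw [natDegree_taylor]
      have := hdeg k (by omega)
      omega), Finset.sum_mul]
    apply Finset.sum_congr rfl
    intro j _
    rw [hc, mul_pow, pow_add]
    ring
  rw [Finset.sum_congr rfl h1,
    ← Finset.sum_range_diag_flip (d + 1) (fun k j => hc f k j p * u ^ j * s ^ (k + j))]
  apply Finset.sum_congr rfl
  intro m _
  rw [am, Finset.sum_mul]
  apply Finset.sum_congr rfl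
  intro k hk
  rw [Finset.mem_range] at hk
  rw [show k + (m - k) = m by omega]

/-- first and second order Taylor estimates -/
lemma taylor_est {q : ℝ[X]} {d : ℕ} (hq : q.natDegree ≤ d) {η Q : ℝ}
    (hQ : ∀ j, |(taylor η q).coeff j| ≤ Q) {w : ℝ} (hw : |w| ≤ 1) :
    |q.eval (η + w) - q.eval η| ≤ d * Q * |w| ∧
    |q.eval (η + w) - q.eval η - (taylor η q).coeff 1 * w| ≤ d * Q * |w| ^ 2 := by
  have hQ0 : 0 ≤ Q := (abs_nonneg _).trans (hQ 0)
  have hw0 := abs_nonneg w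
  have e1 : q.eval (η + w) = (taylor η q).eval w := by rw [taylor_eval, add_comm]
  have e2 : q.eval η = (taylor η q).coeff 0 := by rw [taylor_coeff_zero]
  have e3 : (taylor η q).eval w = ∑ j ∈ range (d + 1), (taylor η q).coeff j * w ^ j := by
    apply eval_eq_sum_range'
    rw [natDegree_taylor]; omega
  constructor
  · rw [e1, e2, e3, Finset.sum_range_succ', pow_zero, mul_one, add_sub_cancel_right]
    refine (Finset.abs_sum_le_sum_abs _ _).trans ?_
    refine (Finset.sum_le_card_nsmul _ _ (Q * |w|) ?_).trans ?_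
    · intro j _
      rw [abs_mul, abs_pow]
      apply mul_le_mul (hQ _) _ (by positivity) hQ0
      calc |w| ^ (j + 1) ≤ |w| ^ 1 := pow_le_pow_of_le_one hw0 hw (by omega)
        _ = |w| := pow_one _
    · rw [Finset.card_range, nsmul_eq_mul]
      apply le_of_eq; ring
  · by_cases hd : d = 0
    · subst hd
      have h0 : (taylor η q).coeff 1 = 0 := by
        apply coeff_eq_zero_of_natDegree_lt
        rw [natDegree_taylor]; omega
      rw [e1, e2, e3, h0]
      simp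
    obtain ⟨n, hn⟩ : ∃ n, d = n + 1 := ⟨d - 1, by omega⟩
    rw [e1, e2, e3, hn, Finset.sum_range_succ', Finset.sum_range_succ', pow_zero, mul_one, zero_add,
      pow_one]
    have e4 : ∀ A B C : ℝ, A + B + C - C - B = A := by intro A B C; ring
    rw [e4]
    refine (Finset.abs_sum_le_sum_abs _ _).trans ?_
    refine (Finset.sum_le_card_nsmul _ _ (Q * |w| ^ 2) ?_).trans ?_
    · intro j _
      rw [abs_mul, abs_pow]
      apply mul_le_mul (hQ _) _ (by positivity) hQ0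
      exact pow_le_pow_of_le_one hw0 hw (by omega)
    · rw [Finset.card_range, nsmul_eq_mul]
      have : (n : ℝ) ≤ ((n + 1 : ℕ) : ℝ) := by push_cast; linarith
      calc (n : ℝ) * (Q * |w| ^ 2) ≤ ((n + 1 : ℕ) : ℝ) * (Q * |w| ^ 2) :=
            mul_le_mul_of_nonneg_right this (by positivity)
        _ = _ := by ring

/-- standing hypotheses -/
structure ZH (f : ℕ → ℝ[X]) (d : ℕ) (K z : ℝ) : Prop where
  hd : 7 ≤ d
  hK : (d : ℝ) + 1 ≤ K
  hK3 : 300 ≤ K
  hz : 1 ≤ z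
  deg : ∀ k ≤ d, (f k).natDegree ≤ d - k
  bd : ∀ k ≤ d, ∀ j i, ∀ t : ℝ, |t| ≤ 2 → |(taylor t (hasseDeriv j (f k))).coeff i| ≤ K * z ^ 2

lemma ZH.bd0 {f : ℕ → ℝ[X]} {d : ℕ} {K z : ℝ} (h : ZH f d K z) {k : ℕ} (hk : k ≤ d) (j : ℕ) {t : ℝ}
    (ht : |t| ≤ 2) : |hc f k j t| ≤ K * z ^ 2 := by
  have := h.bd k hk 0 j t ht
  rw [hasseDeriv_zero'] at this
  exact this

lemma ZH.lip {f : ℕ → ℝ[X]} {d : ℕ} {K z : ℝ} (h : ZH f d K z) {k : ℕ} (hk : k ≤ d) (j : ℕ) {η p : ℝ}
    (hη : |η| ≤ 2) (hp : |p - η| ≤ 1) : |hc f k j p - hc f k j η| ≤ d * (K * z ^ 2) * |p - η| := by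
  have h1 := (taylor_est (q := hasseDeriv j (f k)) (d := d) (by
    refine (natDegree_hasseDeriv_le _ _).trans ?_
    have := h.deg k hk
    omega) (fun i => h.bd k hk j i η hη) hp).1
  rw [show η + (p - η) = p by ring] at h1
  rw [hc, hc, taylor_coeff, taylor_coeff]
  exact h1

lemma ZH.lin {f : ℕ → ℝ[X]} {d : ℕ} {K z : ℝ} (h : ZH f d K z) {k : ℕ} (hk : k ≤ d) {η p : ℝ}
    (hη : |η| ≤ 2) (hp : |p - η| ≤ 1) :
    |(f k).eval p - (f k).eval η - hc f k 1 η * (p - η)| ≤ d * (K * z ^ 2) * |p - η| ^ 2 := by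
  have h1 := (taylor_est (q := f k) (d := d) (by
    have := h.deg k hk
    omega) (fun i => by
      have := h.bd k hk 0 i η hη
      rw [hasseDeriv_zero'] at this
      exact this) hp).2
  rw [show η + (p - η) = p by ring] at h1
  exact h1

/-- first typical condition -/
def ZT1 (f : ℕ → ℝ[X]) (z : ℝ) : Prop :=
  ∀ t : ℝ, |t| ≤ 1 → |(f 0).eval t| ≤ 1 → 2 * z ≤ |hc f 0 1 t|

/-- the second term of the expansion -/
noncomputable def zbe (f : ℕ → ℝ[X]) (η : ℝ) : ℝ := -((f 1).eval η) / hc f 0 1 η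

/-- second typical condition -/
def ZT2 (f : ℕ → ℝ[X]) (z : ℝ) : Prop :=
  ∀ η : ℝ, |η| ≤ 2 → (f 0).eval η = 0 → z ≤ |hc f 0 1 η| →
    1 / 2 ≤ |hc f 2 0 η + hc f 1 1 η * zbe f η + hc f 0 2 η * zbe f η ^ 2|

lemma hc_zero (f : ℕ → ℝ[X]) (k : ℕ) (t : ℝ) : hc f k 0 t = (f k).eval t := by
  rw [hc, taylor_coeff_zero]

/-- a near zero is close to the second order asymptote of a root -/
theorem near_root {f : ℕ → ℝ[X]} {d : ℕ} {K z : ℝ} (h : ZH f d K z) (h1 : ZT1 f z) {X a s : ℝ}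
    (hX : K ^ 16 * z ^ 6 ≤ X) (ha1 : X ≤ |a|) (ha2 : |a| ≤ 2 * X) (hs : |s| ≤ 1)
    (hv : |Tv f d a s| ≤ 6 * z ^ 2 / X ^ 5) :
    ∃ η : ℝ, |η| ≤ 3 / 2 ∧ (f 0).eval η = 0 ∧ z ≤ |hc f 0 1 η| ∧
      |a * s - η * a - zbe f η| ≤ K ^ 7 * z ^ 3 / X := by
  have hK := h.hK
  have hK3 := h.hK3
  have hz := h.hz
  have hd := h.hd
  have hd0 : (0 : ℝ) ≤ d := by positivity
  have hK0 : 0 < K := by linarith
  have hK1 : 1 ≤ K := by linarith
  have hz0 : 0 < z := by linarith
  have hzp : ∀ k, 1 ≤ z ^ k := fun k => one_le_pow₀ hz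
  have hKp : ∀ k, 1 ≤ K ^ k := fun k => one_le_pow₀ hK1
  have hX1 : 1 ≤ X := by
    refine le_trans ?_ hX
    exact one_le_mul_of_one_le_of_one_le (hKp 16) (hzp 6)
  have hX0 : 0 < X := by linarith
  have ha0 : a ≠ 0 := by
    intro hh; rw [hh, abs_zero] at ha1; linarith
  have hapos : 0 < |a| := abs_pos.2 ha0
  have hinv : |a⁻¹| ≤ 1 / X := by
    rw [abs_inv, ← one_div]
    exact one_div_le_one_div_of_le hX0 ha1
  have hX' : (1 : ℝ) / X ≤ 1 := by rw [div_le_one hX0]; exact hX1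
  have hXi0 : 0 < 1 / X := by positivity
  have hs2 : |s| ≤ 2 := by linarith
  obtain ⟨Q, hQ⟩ : ∃ Q, Q = K * z ^ 2 := ⟨_, rfl⟩
  have hQ0 : 0 < Q := by rw [hQ]; positivity
  have hf : ∀ k ≤ d, |(f k).eval s| ≤ Q := by
    intro k hk
    rw [← hc_zero, hQ]
    exact h.bd0 hk 0 hs2
  -- comparison: K^a z^b ≤ X for small exponents
  have hcmp : ∀ i j, i ≤ 16 → j ≤ 6 → K ^ i * z ^ j ≤ X := by
    intro i j hi hj
    refine le_trans ?_ hX
    exact mul_le_mul (pow_le_pow_right₀ hK1 hi) (pow_le_pow_right₀ hz hj) (by positivity)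
      (by positivity)
  -- the tail
  have hT1 : Tv f d a s = (f 0).eval s + ∑ k ∈ range d, (f (k + 1)).eval s * (a⁻¹) ^ (k + 1) := by
    rw [Tv, Finset.sum_range_succ', pow_zero, mul_one, add_comm]
  have htail1 : |∑ k ∈ range d, (f (k + 1)).eval s * (a⁻¹) ^ (k + 1)| ≤ d * (Q / X) := by
    refine (Finset.abs_sum_le_sum_abs _ _).trans ?_
    refine (Finset.sum_le_card_nsmul _ _ (Q / X) ?_).trans ?_
    · intro k hk
      rw [Finset.mem_range] at hk
      rw [abs_mul, abs_pow]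
      have e1 : |a⁻¹| ^ (k + 1) ≤ 1 / X := by
        calc |a⁻¹| ^ (k + 1) ≤ (1 / X) ^ (k + 1) := pow_le_pow_left₀ (abs_nonneg _) hinv _
          _ ≤ (1 / X) ^ 1 := pow_le_pow_of_le_one hXi0.le hX' (by omega)
          _ = 1 / X := pow_one _
      calc |(f (k + 1)).eval s| * |a⁻¹| ^ (k + 1) ≤ Q * (1 / X) :=
            mul_le_mul (hf _ (by omega)) e1 (by positivity) hQ0.le
        _ = _ := by ring
    · rw [Finset.card_range, nsmul_eq_mul]
  have hnoise : 6 * z ^ 2 / X ^ 5 ≤ 6 * z ^ 2 / X := by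
    apply div_le_div_of_nonneg_left (by positivity) hX0
    calc X = X ^ 1 := (pow_one _).symm
      _ ≤ X ^ 5 := pow_le_pow_right₀ hX1 (by norm_num)
  have hf0 : |(f 0).eval s| ≤ K ^ 2 * z ^ 2 / X := by
    have e1 : (f 0).eval s = Tv f d a s - ∑ k ∈ range d, (f (k + 1)).eval s * (a⁻¹) ^ (k + 1) := by
      rw [hT1]; ring
    rw [e1]
    refine (abs_sub _ _).trans ?_
    calc |Tv f d a s| + |∑ k ∈ range d, (f (k + 1)).eval s * (a⁻¹) ^ (k + 1)|
        ≤ 6 * z ^ 2 / X + d * (Q / X) := add_le_add (hv.trans hnoise) htail1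
      _ = (6 + d * K) * z ^ 2 / X := by rw [hQ]; ring
      _ ≤ _ := by
        apply div_le_div_of_nonneg_right _ hX0.le
        apply mul_le_mul_of_nonneg_right _ (by positivity)
        nlinarith
  have hf01 : |(f 0).eval s| ≤ 1 := by
    refine hf0.trans ?_
    rw [div_le_one hX0]
    exact hcmp 2 2 (by norm_num) (by norm_num)
  have hφ := h1 s hs hf01
  obtain ⟨φ, hφd⟩ : ∃ φ, φ = hc f 0 1 s := ⟨_, rfl⟩
  obtain ⟨v, hvd⟩ : ∃ v, v = (f 0).eval s := ⟨_, rfl⟩
  rw [← hφd] at hφ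
  rw [← hvd] at hf0 hf01
  have hφ0 : φ ≠ 0 := by
    intro hh; rw [hh, abs_zero] at hφ; linarith
  have hφpos : 0 < |φ| := abs_pos.2 hφ0
  obtain ⟨h0, hh0⟩ : ∃ h0, h0 = -2 * v / φ := ⟨_, rfl⟩
  have hh0b : |h0| ≤ K ^ 2 * z / X := by
    rw [hh0, abs_div, abs_mul, abs_neg, abs_two, div_le_div_iff₀ hφpos hX0]
    calc 2 * |v| * X ≤ 2 * (K ^ 2 * z ^ 2 / X) * X := by gcongr
      _ = K ^ 2 * z * (2 * z) := by field_simp
      _ ≤ K ^ 2 * z * |φ| := mul_le_mul_of_nonneg_left hφ (by positivity)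
  have hK2X : K ^ 2 * z / X ≤ 1 / 2 := by
    rw [div_le_div_iff₀ hX0 (by norm_num)]
    have := hcmp 3 1 (by norm_num) (by norm_num)
    calc K ^ 2 * z * 2 ≤ K ^ 2 * z * K := by
          apply mul_le_mul_of_nonneg_left _ (by positivity); linarith
      _ = K ^ 3 * z ^ 1 := by ring
      _ ≤ X := this
      _ = _ := by ring
  have hh01 : |h0| ≤ 1 := by linarith
  have hlin := h.lin (k := 0) (by omega) hs2 (p := s + h0) (by rw [add_sub_cancel_left]; exact hh01)
  rw [add_sub_cancel_left, ← hφd, ← hvd, ← hQ] at hlin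
  have hv1 : φ * h0 = -2 * v := by rw [hh0]; field_simp
  have hR : d * Q * |h0| ^ 2 ≤ |v| := by
    have e1 : |h0| ≤ |v| / z := by
      rw [hh0, abs_div, abs_mul, abs_neg, abs_two, div_le_div_iff₀ hφpos hz0]
      calc 2 * |v| * z = |v| * (2 * z) := by ring
        _ ≤ |v| * |φ| := mul_le_mul_of_nonneg_left hφ (abs_nonneg _)
    calc d * Q * |h0| ^ 2 ≤ d * Q * (|v| / z) ^ 2 := by gcongr
      _ = (d * K * |v|) * |v| := by rw [hQ]; field_simp
      _ ≤ 1 * |v| := by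
        apply mul_le_mul_of_nonneg_right _ (abs_nonneg _)
        calc d * K * |v| ≤ K * K * (K ^ 2 * z ^ 2 / X) := by
              gcongr; linarith
          _ = K ^ 4 * z ^ 2 / X := by ring
          _ ≤ 1 := by
            rw [div_le_one hX0]; exact hcmp 4 2 (by norm_num) (by norm_num)
      _ = |v| := one_mul _
  have hprod : v * (f 0).eval (s + h0) ≤ 0 := by
    have e1 : |(f 0).eval (s + h0) + v| ≤ |v| := by
      have e2 : (f 0).eval (s + h0) + v = (f 0).eval (s + h0) - v - φ * h0 := by rw [hv1]; ring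
      rw [e2]; exact hlin.trans hR
    have e3 := abs_le.1 e1
    rcases le_total 0 v with hv0 | hv0
    · rw [abs_of_nonneg hv0] at e3
      have : (f 0).eval (s + h0) ≤ 0 := by linarith [e3.2]
      exact mul_nonpos_of_nonneg_of_nonpos hv0 this
    · rw [abs_of_nonpos hv0] at e3
      have : 0 ≤ (f 0).eval (s + h0) := by linarith [e3.1]
      exact mul_nonpos_of_nonpos_of_nonneg hv0 this
  obtain ⟨η, hηm, hη0⟩ : ∃ η ∈ Set.uIcc s (s + h0), (f 0).eval η = 0 := by
    have hc1 : ContinuousOn (fun t => (f 0).eval t) (Set.uIcc s (s + h0)) :=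
      (f 0).continuous.continuousOn
    have h5 := intermediate_value_uIcc hc1
    have h6 : (0 : ℝ) ∈ Set.uIcc ((f 0).eval s) ((f 0).eval (s + h0)) := by
      rw [← hvd, Set.mem_uIcc]
      rcases le_total 0 v with hv0 | hv0
      · right
        refine ⟨?_, hv0⟩
        by_contra hcon
        push Not at hcon
        have hv0' : v ≠ 0 ∨ v = 0 := ne_or_eq v 0
        rcases hv0' with h7 | h7
        · have : 0 < v := lt_of_le_of_ne hv0 (Ne.symm h7)
          have := mul_pos this hcon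
          linarith
        · rw [h7, abs_zero] at hR
          have e1 : |(f 0).eval (s + h0) + v| ≤ |v| := by
            have e2 : (f 0).eval (s + h0) + v = (f 0).eval (s + h0) - v - φ * h0 := by rw [hv1]; ring
            rw [e2]; exact hlin.trans (by rw [h7, abs_zero]; exact hR)
          rw [h7, add_zero, abs_zero] at e1
          have := abs_nonneg ((f 0).eval (s + h0))
          have h8 := abs_eq_zero.1 (le_antisymm e1 this)
          linarith
      · left
        refine ⟨hv0, ?_⟩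
        by_contra hcon
        push Not at hcon
        have hv0' : v ≠ 0 ∨ v = 0 := ne_or_eq v 0
        rcases hv0' with h7 | h7
        · have : v < 0 := lt_of_le_of_ne hv0 h7
          have := mul_pos_of_neg_of_neg this hcon
          linarith
        · rw [h7, abs_zero] at hR
          have e1 : |(f 0).eval (s + h0) + v| ≤ |v| := by
            have e2 : (f 0).eval (s + h0) + v = (f 0).eval (s + h0) - v - φ * h0 := by rw [hv1]; ring
            rw [e2]; exact hlin.trans (by rw [h7, abs_zero]; exact hR)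
          rw [h7, add_zero, abs_zero] at e1
          have := abs_nonneg ((f 0).eval (s + h0))
          have h8 := abs_eq_zero.1 (le_antisymm e1 this)
          linarith
    obtain ⟨η, h7, h8⟩ := h5 h6
    exact ⟨η, h7, h8⟩
  have hηs : |η - s| ≤ |h0| := by
    have := Set.abs_sub_left_of_mem_uIcc hηm
    rwa [add_sub_cancel_left] at this
  obtain ⟨w, hw⟩ : ∃ w, w = s - η := ⟨_, rfl⟩
  have hwb : |w| ≤ K ^ 2 * z / X := by
    rw [hw, abs_sub_comm]; exact hηs.trans hh0b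
  have hw1 : |w| ≤ 1 := by linarith
  have hηb : |η| ≤ 3 / 2 := by
    have e1 : η = s - w := by rw [hw]; ring
    rw [e1]
    refine (abs_sub _ _).trans ?_
    linarith
  have hη2 : |η| ≤ 2 := by linarith
  have hφη : z ≤ |hc f 0 1 η| := by
    have e1 := h.lip (k := 0) (by omega) 1 hs2 (p := η) (by rw [abs_sub_comm, ← hw]; exact hw1)
    rw [← hφd, ← hQ] at e1
    have e2 : d * Q * |η - s| ≤ z := by
      calc d * Q * |η - s| ≤ K * Q * (K ^ 2 * z / X) := by
            gcongr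
            · linarith
            · exact hηs.trans hh0b
        _ = z * (K ^ 4 * z ^ 2 / X) := by rw [hQ]; ring
        _ ≤ z * 1 := by
          apply mul_le_mul_of_nonneg_left _ hz0.le
          rw [div_le_one hX0]; exact hcmp 4 2 (by norm_num) (by norm_num)
        _ = z := mul_one _
    have e3 := abs_sub_abs_le_abs_sub φ (hc f 0 1 η)
    rw [abs_sub_comm φ] at e3
    linarith
  refine ⟨η, hηb, hη0, hφη, ?_⟩
  obtain ⟨ψ, hψ⟩ : ∃ ψ, ψ = hc f 0 1 η := ⟨_, rfl⟩
  rw [← hψ] at hφη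
  have hψ0 : ψ ≠ 0 := by
    intro hh; rw [hh, abs_zero] at hφη; linarith
  have hψpos : 0 < |ψ| := abs_pos.2 hψ0
  have e1 := h.lin (k := 0) (by omega) hη2 (p := s) (by rw [← hw]; exact hw1)
  rw [hη0, ← hψ, ← hw, ← hQ, sub_zero] at e1
  have e2 := h.lip (k := 1) (by omega) 0 hη2 (p := s) (by rw [← hw]; exact hw1)
  rw [hc_zero, hc_zero, ← hw, ← hQ] at e2
  obtain ⟨n, hn⟩ : ∃ n, d = n + 1 := ⟨d - 1, by omega⟩
  have hT2 : ∑ k ∈ range d, (f (k + 1)).eval s * (a⁻¹) ^ (k + 1)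
      = (f 1).eval s * a⁻¹ + ∑ k ∈ range n, (f (k + 2)).eval s * (a⁻¹) ^ (k + 2) := by
    rw [hn, Finset.sum_range_succ', zero_add, pow_one, add_comm]
  have htail2 : |∑ k ∈ range n, (f (k + 2)).eval s * (a⁻¹) ^ (k + 2)| ≤ d * (Q / X ^ 2) := by
    refine (Finset.abs_sum_le_sum_abs _ _).trans ?_
    refine (Finset.sum_le_card_nsmul _ _ (Q / X ^ 2) ?_).trans ?_
    · intro k hk
      rw [Finset.mem_range] at hk
      rw [abs_mul, abs_pow]
      have e1 : |a⁻¹| ^ (k + 2) ≤ 1 / X ^ 2 := by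
        calc |a⁻¹| ^ (k + 2) ≤ (1 / X) ^ (k + 2) := pow_le_pow_left₀ (abs_nonneg _) hinv _
          _ ≤ (1 / X) ^ 2 := pow_le_pow_of_le_one hXi0.le hX' (by omega)
          _ = 1 / X ^ 2 := by rw [one_div_pow]
      calc |(f (k + 2)).eval s| * |a⁻¹| ^ (k + 2) ≤ Q * (1 / X ^ 2) :=
            mul_le_mul (hf _ (by omega)) e1 (by positivity) hQ0.le
        _ = _ := by ring
    · rw [Finset.card_range, nsmul_eq_mul]
      apply mul_le_mul_of_nonneg_right _ (by positivity)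
      have : (n : ℝ) ≤ ((d : ℕ) : ℝ) := by exact_mod_cast (by omega : n ≤ d)
      exact this
  have hmain : |ψ * w + (f 1).eval η * a⁻¹| ≤ 4 * K ^ 6 * z ^ 4 / (2 * X ^ 2) := by
    have g1 : ψ * w + (f 1).eval η * a⁻¹ = Tv f d a s - ((f 0).eval s - ψ * w)
        - ((f 1).eval s - (f 1).eval η) * a⁻¹
        - ∑ k ∈ range n, (f (k + 2)).eval s * (a⁻¹) ^ (k + 2) := by
      rw [hT1, hT2]; ring
    have g2 : |((f 1).eval s - (f 1).eval η) * a⁻¹| ≤ (d * Q * |w|) * (1 / X) := by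
      rw [abs_mul]
      exact mul_le_mul e2 hinv (abs_nonneg _) (by positivity)
    rw [g1]
    have t1 := abs_sub (Tv f d a s - ((f 0).eval s - ψ * w)
        - ((f 1).eval s - (f 1).eval η) * a⁻¹)
        (∑ k ∈ range n, (f (k + 2)).eval s * (a⁻¹) ^ (k + 2))
    have t2 := abs_sub (Tv f d a s - ((f 0).eval s - ψ * w))
      (((f 1).eval s - (f 1).eval η) * a⁻¹)
    have t3 := abs_sub (Tv f d a s) ((f 0).eval s - ψ * w)
    have u1 : 6 * z ^ 2 / X ^ 5 ≤ 6 * z ^ 4 / X ^ 2 := by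
      apply div_le_div₀ (by positivity) _ (by positivity)
      · exact pow_le_pow_right₀ hX1 (by norm_num)
      · exact mul_le_mul_of_nonneg_left (pow_le_pow_right₀ hz (by norm_num)) (by norm_num)
    have u2 : d * Q * |w| ^ 2 ≤ K ^ 6 * z ^ 4 / X ^ 2 := by
      calc d * Q * |w| ^ 2 ≤ K * Q * (K ^ 2 * z / X) ^ 2 := by
            gcongr; linarith
        _ = _ := by rw [hQ]; field_simp
    have u3 : (d * Q * |w|) * (1 / X) ≤ K ^ 4 * z ^ 4 / X ^ 2 := by
      calc (d * Q * |w|) * (1 / X) ≤ (K * Q * (K ^ 2 * z / X)) * (1 / X) := by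
            gcongr; linarith
        _ = K ^ 4 * z ^ 3 / X ^ 2 := by rw [hQ]; field_simp
        _ ≤ _ := by
          apply div_le_div_of_nonneg_right _ (by positivity)
          exact mul_le_mul_of_nonneg_left (pow_le_pow_right₀ hz (by norm_num)) (by positivity)
    have u4 : d * (Q / X ^ 2) ≤ K ^ 2 * z ^ 4 / X ^ 2 := by
      calc d * (Q / X ^ 2) ≤ K * (Q / X ^ 2) := by
            gcongr; linarith
        _ = K ^ 2 * z ^ 2 / X ^ 2 := by rw [hQ]; ring
        _ ≤ _ := by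
          apply div_le_div_of_nonneg_right _ (by positivity)
          exact mul_le_mul_of_nonneg_left (pow_le_pow_right₀ hz (by norm_num)) (by positivity)
    have u5 : 6 * z ^ 4 / X ^ 2 + K ^ 6 * z ^ 4 / X ^ 2 + K ^ 4 * z ^ 4 / X ^ 2
        + K ^ 2 * z ^ 4 / X ^ 2 ≤ 4 * K ^ 6 * z ^ 4 / (2 * X ^ 2) := by
      have v1 : 6 ≤ K ^ 6 / 3 := by
        have : (300 : ℝ) ≤ K ^ 6 := hK3.trans (by
          calc K = K ^ 1 := (pow_one _).symm
            _ ≤ K ^ 6 := pow_le_pow_right₀ hK1 (by norm_num))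
        linarith
      have v2 : K ^ 4 ≤ K ^ 6 / 3 := by
        have : K ^ 6 = K ^ 4 * K ^ 2 := by ring
        rw [this]
        have v3 : 3 ≤ K ^ 2 := by nlinarith
        have v4 : 0 ≤ K ^ 4 := by positivity
        nlinarith
      have v3 : K ^ 2 ≤ K ^ 6 / 3 := by
        have : K ^ 2 ≤ K ^ 4 := pow_le_pow_right₀ hK1 (by norm_num)
        linarith
      have v4 : 4 * K ^ 6 * z ^ 4 / (2 * X ^ 2) = 2 * K ^ 6 * (z ^ 4 / X ^ 2) := by
        field_simp; norm_num
      rw [v4]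
      have v5 : 0 ≤ z ^ 4 / X ^ 2 := by positivity
      calc 6 * z ^ 4 / X ^ 2 + K ^ 6 * z ^ 4 / X ^ 2 + K ^ 4 * z ^ 4 / X ^ 2
          + K ^ 2 * z ^ 4 / X ^ 2 = (6 + K ^ 6 + K ^ 4 + K ^ 2) * (z ^ 4 / X ^ 2) := by ring
        _ ≤ _ := by
          apply mul_le_mul_of_nonneg_right _ v5
          linarith
    linarith
  -- conclusion
  have hfin : a * s - η * a - zbe f η = (a / ψ) * (ψ * w + (f 1).eval η * a⁻¹) := by
    rw [zbe, ← hψ, hw]
    field_simp
    ring
  rw [hfin, abs_mul, abs_div]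
  calc |a| / |ψ| * |ψ * w + (f 1).eval η * a⁻¹|
      ≤ (2 * X) / z * (4 * K ^ 6 * z ^ 4 / (2 * X ^ 2)) := by
        apply mul_le_mul _ hmain (abs_nonneg _) (by positivity)
        exact div_le_div₀ (by positivity) ha2 hz0 hφη
    _ = 4 * K ^ 6 * z ^ 3 / X := by field_simp
    _ ≤ K ^ 7 * z ^ 3 / X := by
      apply div_le_div_of_nonneg_right _ hX0.le
      apply mul_le_mul_of_nonneg_right _ (by positivity)
      calc 4 * K ^ 6 ≤ K * K ^ 6 := by
            apply mul_le_mul_of_nonneg_right _ (by positivity); linarith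
        _ = K ^ 7 := by ring

end Pool.Agent.H322R2
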