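import Pool.Agent.H322R2.ZTyp

/-!
Medium points (sharp law).
-/

open Polynomial Finset

namespace Pool.Agent.H322R2

variable {d : ℕ}

/-- part of degree at least three -/
def tp (c : ↥(Ix d) → ℤ) : ↥(Ix d) → ℤ := fun i => if i.1.1 + i.1.2 ≤ 2 then 0 else c i

/-- part of degree at most two -/
def lw (hd : 2 ≤ d) (c : ↥(Ix d) → ℤ) : ↥(Ix 2) → ℤ :=
  fun i => c ⟨i.1, by have := mem_Ix.1 i.2; rw [mem_Ix]; omega⟩

lemma ev_sum_cf (c : ↥(Ix d) → ℤ) (x y : ℤ) :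
    ev x y (PG c) = ∑ p ∈ Ix d, cf c p.1 p.2 * x ^ p.2 * y ^ p.1 := by
  rw [ev_PG_sum, ← Finset.sum_coe_sort (Ix d)]
  apply Finset.sum_congr rfl
  intro p _
  have : cf c p.1.1 p.1.2 = c p := by rw [cf, dif_pos p.2]
  rw [this]

lemma ev_tp_lw (hd : 2 ≤ d) (c : ↥(Ix d) → ℤ) (x y : ℤ) :
    ev x y (PG c) = ev x y (PG (tp c)) + ev x y (PG (lw hd c)) := by
  rw [ev_sum_cf, ev_sum_cf, ev_sum_cf,
    ← Finset.sum_filter_add_sum_filter_not (Ix d) (fun p => p.1 + p.2 ≤ 2)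
      (fun p => cf c p.1 p.2 * x ^ p.2 * y ^ p.1),
    ← Finset.sum_filter_add_sum_filter_not (Ix d) (fun p => p.1 + p.2 ≤ 2)
      (fun p => cf (tp c) p.1 p.2 * x ^ p.2 * y ^ p.1)]
  have h1 : ∑ p ∈ (Ix d).filter (fun p => p.1 + p.2 ≤ 2), cf (tp c) p.1 p.2 * x ^ p.2 * y ^ p.1
      = 0 := by
    apply Finset.sum_eq_zero
    intro p hp
    rw [Finset.mem_filter] at hp
    rw [cf, dif_pos hp.1, tp, if_pos hp.2]
    ring
  have h2 : ∑ p ∈ (Ix d).filter (fun p => ¬ p.1 + p.2 ≤ 2), cf (tp c) p.1 p.2 * x ^ p.2 * y ^ p.1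
      = ∑ p ∈ (Ix d).filter (fun p => ¬ p.1 + p.2 ≤ 2), cf c p.1 p.2 * x ^ p.2 * y ^ p.1 := by
    apply Finset.sum_congr rfl
    intro p hp
    rw [Finset.mem_filter] at hp
    rw [cf, cf, dif_pos hp.1, dif_pos hp.1, tp, if_neg hp.2]
  have h3 : (Ix d).filter (fun p => p.1 + p.2 ≤ 2) = Ix 2 := by
    ext p
    rw [Finset.mem_filter, mem_Ix, mem_Ix]
    omega
  have h4 : ∑ p ∈ Ix 2, cf (lw hd c) p.1 p.2 * x ^ p.2 * y ^ p.1
      = ∑ p ∈ Ix 2, cf c p.1 p.2 * x ^ p.2 * y ^ p.1 := by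
    apply Finset.sum_congr rfl
    intro p hp
    have hp' : (p.1, p.2) ∈ Ix d := by rw [mem_Ix] at hp ⊢; simp only; omega
    rw [cf, cf, dif_pos hp, dif_pos hp', lw]
  rw [h1, h2, h3, h4]
  ring

lemma card_Ix2 : (Ix 2).card = 6 := by rw [card_Ix]

lemma ev_lw_le (hd : 2 ≤ d) {H : ℕ} {c : ↥(Ix d) → ℤ} (hc : c ∈ Bx _ H) {a b : ℤ} (ha : a ≠ 0)
    (hba : |b| ≤ |a|) : |((ev a b (PG (lw hd c)) : ℤ) : ℝ)| ≤ 6 * (H : ℝ) * |(a : ℝ)| ^ 2 := by
  rw [ev_sum_cf]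
  have ha1 : (1 : ℝ) ≤ |(a : ℝ)| := by
    have h1 : (1 : ℤ) ≤ |a| := Int.one_le_abs ha
    have h2 : ((1 : ℤ) : ℝ) ≤ ((|a| : ℤ) : ℝ) := by exact_mod_cast h1
    push_cast at h2
    exact h2
  have hbaR : |(b : ℝ)| ≤ |(a : ℝ)| := by exact_mod_cast hba
  push_cast
  refine (Finset.abs_sum_le_sum_abs _ _).trans ?_
  refine (Finset.sum_le_card_nsmul _ _ ((H : ℝ) * |(a : ℝ)| ^ 2) ?_).trans ?_
  · intro p hp
    rw [abs_mul, abs_mul, abs_pow, abs_pow]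
    have h1 : |((cf (lw hd c) p.1 p.2 : ℤ) : ℝ)| ≤ H := by
      rw [cf, dif_pos hp, lw]
      have := mem_Bx.1 hc ⟨(p.1, p.2), by
        have := mem_Ix.1 hp; rw [mem_Ix]; simp only at this ⊢; omega⟩
      have h2 : ((|c ⟨(p.1, p.2), by
        have := mem_Ix.1 hp; rw [mem_Ix]; simp only at this ⊢; omega⟩| : ℤ) : ℝ)
          ≤ ((H : ℤ) : ℝ) := by exact_mod_cast this
      rw [Int.cast_abs] at h2
      simpa using h2
    have hp' := mem_Ix.1 hp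
    have h3 : |(a : ℝ)| ^ p.2 * |(b : ℝ)| ^ p.1 ≤ |(a : ℝ)| ^ 2 := by
      calc |(a : ℝ)| ^ p.2 * |(b : ℝ)| ^ p.1 ≤ |(a : ℝ)| ^ p.2 * |(a : ℝ)| ^ p.1 := by
            gcongr
        _ = |(a : ℝ)| ^ (p.2 + p.1) := by rw [pow_add]
        _ ≤ _ := pow_le_pow_right₀ ha1 (by omega)
    calc |((cf (lw hd c) p.1 p.2 : ℤ) : ℝ)| * |(a : ℝ)| ^ p.2 * |(b : ℝ)| ^ p.1
        = |((cf (lw hd c) p.1 p.2 : ℤ) : ℝ)| * (|(a : ℝ)| ^ p.2 * |(b : ℝ)| ^ p.1) := by ring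
      _ ≤ H * |(a : ℝ)| ^ 2 := mul_le_mul h1 h3 (by positivity) (by positivity)
  · rw [card_Ix2, nsmul_eq_mul]
    apply le_of_eq
    push_cast
    ring

lemma fR_tp (hd : 7 ≤ d) (c : ↥(Ix d) → ℤ) {k : ℕ} (hk : k ≤ 2) : fR (tp c) k = fR c k := by
  ext j
  rw [coeff_fR, coeff_fR]
  split_ifs with h
  · congr 1
    rw [cf, cf]
    split_ifs with h'
    · rw [tp, if_neg]
      simp only
      omega
    · rfl
  · rfl

lemma tp_mem {H : ℕ} {c : ↥(Ix d) → ℤ} (hc : c ∈ Bx _ H) : tp c ∈ Bx _ H := by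
  rw [mem_Bx] at hc ⊢
  intro i
  rw [tp]
  split_ifs
  · simp
  · exact hc i

lemma NZ_tp (hd : 7 ≤ d) {H : ℕ} {z : ℝ} (hH : z ^ 2 = H) {c : ↥(Ix d) → ℤ} (hc : c ∈ Bx _ H)
    {P : ℤ × ℤ} (hP : |P.2| ≤ |P.1|) (hP0 : P.1 ≠ 0) (h0 : ev P.1 P.2 (PG c) = 0) :
    NZ (fR (tp c)) d z P := by
  refine ⟨hP, ?_⟩
  have ha1 : (1 : ℝ) ≤ |(P.1 : ℝ)| := by
    have h1 : (1 : ℤ) ≤ |P.1| := Int.one_le_abs hP0
    have h2 : ((1 : ℤ) : ℝ) ≤ ((|P.1| : ℤ) : ℝ) := by exact_mod_cast h1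
    push_cast at h2
    exact h2
  have e1 := ev_tp_lw (by omega : 2 ≤ d) c P.1 P.2
  rw [h0] at e1
  have e2 : ((ev P.1 P.2 (PG (tp c)) : ℤ) : ℝ)
      = -((ev P.1 P.2 (PG (lw (by omega : 2 ≤ d) c)) : ℤ) : ℝ) := by
    have : ev P.1 P.2 (PG (tp c)) = -ev P.1 P.2 (PG (lw (by omega : 2 ≤ d) c)) := by omega
    rw [this]; push_cast; ring
  have e3 := ev_lw_le (by omega : 2 ≤ d) hc hP0 hP
  rw [← abs_neg, ← e2, ev_Tv _ hP0, abs_mul, abs_pow] at e3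
  rw [le_div_iff₀ (by positivity), hH]
  have e4 : |(P.1 : ℝ)| ^ d = |(P.1 : ℝ)| ^ (d - 7) * |(P.1 : ℝ)| ^ 5 * |(P.1 : ℝ)| ^ 2 := by
    rw [← pow_add, ← pow_add]; congr 1; omega
  rw [e4] at e3
  have e5 : 1 ≤ |(P.1 : ℝ)| ^ (d - 7) := one_le_pow₀ ha1
  obtain ⟨V, hV⟩ : ∃ V, V = |Tv (fR (tp c)) d P.1 ((P.2 : ℝ) / P.1)| := ⟨_, rfl⟩
  have hV0 : 0 ≤ V := by rw [hV]; exact abs_nonneg _
  rw [← hV] at e3 ⊢
  have e6 : (V * |(P.1 : ℝ)| ^ 5) * |(P.1 : ℝ)| ^ 2 ≤ (6 * H) * |(P.1 : ℝ)| ^ 2 := by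
    calc (V * |(P.1 : ℝ)| ^ 5) * |(P.1 : ℝ)| ^ 2 = 1 * (|(P.1 : ℝ)| ^ 5 * |(P.1 : ℝ)| ^ 2 * V) := by
          ring
      _ ≤ |(P.1 : ℝ)| ^ (d - 7) * (|(P.1 : ℝ)| ^ 5 * |(P.1 : ℝ)| ^ 2 * V) :=
        mul_le_mul_of_nonneg_right e5 (by positivity)
      _ = |(P.1 : ℝ)| ^ (d - 7) * |(P.1 : ℝ)| ^ 5 * |(P.1 : ℝ)| ^ 2 * V := by ring
      _ ≤ _ := e3
  exact le_of_mul_le_mul_right e6 (by positivity)

/-- the possible top parts -/
noncomputable def topS (d H : ℕ) : Finset (↥(Ix d) → ℤ) :=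
  Fintype.piFinset (fun i : ↥(Ix d) => if i.1.1 + i.1.2 ≤ 2 then {0} else Icc (-(H : ℤ)) H)

lemma card_topS (hd : 2 ≤ d) (H : ℕ) : (topS d H).card ≤ (2 * H + 1) ^ ((Ix d).card - 6) := by
  classical
  rw [topS, Fintype.card_piFinset]
  have h1 : ∀ i : ↥(Ix d), (if i.1.1 + i.1.2 ≤ 2 then {0} else Icc (-(H : ℤ)) H).card
      = if i.1.1 + i.1.2 ≤ 2 then 1 else 2 * H + 1 := by
    intro i
    split_ifs
    · rfl
    · exact card_Icc_H H
  rw [Finset.prod_congr rfl (fun i _ => h1 i), Finset.prod_ite, Finset.prod_const_one, one_mul,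
    Finset.prod_const]
  apply Nat.pow_le_pow_right (by omega)
  have h2 := Finset.card_filter_add_card_filter_not (s := (Finset.univ : Finset ↥(Ix d)))
    (fun i => i.1.1 + i.1.2 ≤ 2)
  rw [Finset.card_univ, Fintype.card_coe] at h2
  have h3 : (Ix 2).card ≤ ((Finset.univ : Finset ↥(Ix d)).filter
      (fun i => i.1.1 + i.1.2 ≤ 2)).card := by
    rw [← Fintype.card_coe (Ix 2), ← Finset.card_univ]
    apply Finset.card_le_card_of_injOn (fun i : ↥(Ix 2) =>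
      (⟨i.1, by have := mem_Ix.1 i.2; rw [mem_Ix]; omega⟩ : ↥(Ix d)))
    · intro i _
      rw [Finset.mem_coe, Finset.mem_filter]
      exact ⟨Finset.mem_univ _, mem_Ix.1 i.2⟩
    · intro i _ j _ h
      simp only [Subtype.mk.injEq] at h
      exact Subtype.ext h
  rw [card_Ix2] at h3
  omega

lemma tp_mem_topS {H : ℕ} {c : ↥(Ix d) → ℤ} (hc : c ∈ Bx _ H) : tp c ∈ topS d H := by
  rw [topS, Fintype.mem_piFinset]
  intro i
  rw [tp]
  split_ifs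
  · simp
  · have := mem_Bx.1 hc i
    rw [Finset.mem_Icc]; exact abs_le.1 this

open Classical in
theorem cnt_medium (hd : 7 ≤ d) {H : ℕ} {z : ℝ} (hz : 1 ≤ z) (hH : z ^ 2 = H) {X : ℝ}
    (hX : KZ d ^ 16 * z ^ 6 ≤ X) (n : ℕ) :
    ((Bx ↥(Ix d) H).filter (fun c => (ZT1 (fR c) z ∧ ZT2 (fR c) z) ∧ ∃ P : ℤ × ℤ,
      (|P.2| ≤ |P.1| ∧ X ≤ |(P.1 : ℝ)| ∧
        |(P.1 : ℝ)| ≤ X * (1 + 1 / (KZ d ^ 8 * z ^ 3)) ^ (n + 1)) ∧ ev P.1 P.2 (PG c) = 0)).card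
      ≤ (4 * d * (n + 1) * (2 * H + 1) ^ 3) * (2 * H + 1) ^ ((Ix d).card - 6) := by
  obtain ⟨Y, hY⟩ : ∃ Y : ℝ, Y = X * (1 + 1 / (KZ d ^ 8 * z ^ 3)) ^ (n + 1) := ⟨_, rfl⟩
  obtain ⟨Φ, hΦ⟩ : ∃ Φ, Φ = (Bx ↥(Ix d) H).filter (fun c => (ZT1 (fR c) z ∧ ZT2 (fR c) z) ∧
      ∃ P : ℤ × ℤ, (|P.2| ≤ |P.1| ∧ X ≤ |(P.1 : ℝ)| ∧
        |(P.1 : ℝ)| ≤ X * (1 + 1 / (KZ d ^ 8 * z ^ 3)) ^ (n + 1)) ∧ ev P.1 P.2 (PG c) = 0) :=
    ⟨_, rfl⟩
  rw [← hΦ]
  have hz0 : 0 < z := by linarith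
  have hK300 : 300 ≤ KZ d := by
    unfold KZ
    have : (1 : ℝ) ≤ 16 ^ d := one_le_pow₀ (by norm_num)
    linarith
  have hX2H : 2 * (H : ℝ) < X := by
    refine lt_of_lt_of_le ?_ hX
    rw [← hH]
    have e1 : (1 : ℝ) ≤ KZ d := by linarith
    calc 2 * z ^ 2 < KZ d ^ 1 * z ^ 2 := by
          rw [pow_one]
          apply mul_lt_mul_of_pos_right _ (by positivity); linarith
      _ ≤ KZ d ^ 16 * z ^ 6 := mul_le_mul (pow_le_pow_right₀ e1 (by norm_num))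
          (pow_le_pow_right₀ hz (by norm_num)) (by positivity) (by positivity)
  have h1 := Finset.card_le_mul_card_image_of_maps_to (s := Φ) (t := topS d H) (f := tp)
    (fun c hc => tp_mem_topS (Finset.mem_filter.1 (by rw [hΦ] at hc; exact hc)).1)
    (4 * d * (n + 1) * (2 * H + 1) ^ 3) (by
      intro τ _
      rcases (Φ.filter (fun c => tp c = τ)).eq_empty_or_nonempty with h0 | ⟨c0, hc0⟩
      · rw [h0]; simp
      rw [Finset.mem_filter, hΦ, Finset.mem_filter] at hc0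
      obtain ⟨⟨hc0B, ⟨hc01, hc02⟩, _⟩, hc0t⟩ := hc0
      -- the points
      obtain ⟨M, hM⟩ : ∃ M : ℕ, M = ⌊Y⌋₊ := ⟨_, rfl⟩
      obtain ⟨Pp, hPp⟩ : ∃ Pp : Finset (ℤ × ℤ), Pp = ((Icc (-(M : ℤ)) M) ×ˢ (Icc (-(M : ℤ)) M)).filter
        (fun P => NZ (fR τ) d z P ∧ X ≤ |(P.1 : ℝ)| ∧ |(P.1 : ℝ)| ≤ Y) := ⟨_, rfl⟩
      have hτB : τ ∈ Bx ↥(Ix d) H := by rw [← hc0t]; exact tp_mem hc0B
      have hτ1 : ZT1 (fR τ) z := by
        rw [← hc0t]
        intro t ht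
        rw [hc_congr (fR_tp hd c0 (by omega)), fR_tp hd c0 (by omega)]
        exact hc01 t ht
      have hτ2 : ZT2 (fR τ) z := by
        rw [← hc0t]
        intro η g1 g2 g3
        rw [hc_congr (fR_tp hd c0 (by omega))] at g3
        rw [fR_tp hd c0 (by omega)] at g2
        have := hc02 η g1 g2 g3
        rw [zbe] at this ⊢
        rw [hc_congr (fR_tp hd c0 (by omega)), hc_congr (fR_tp hd c0 (by omega)),
          hc_congr (fR_tp hd c0 (by omega)), hc_congr (fR_tp hd c0 (by omega)),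
          fR_tp hd c0 (by omega)]
        exact this
      have hPpc : Pp.card ≤ 4 * d * (n + 1) := by
        apply long_all (ZH_fR hd hτB hz hH) (KZ_d d) hτ1 hτ2 hX n
        intro P hP
        rw [hPp, Finset.mem_filter] at hP
        rw [← hY]
        exact hP.2
      have hsub : Φ.filter (fun c => tp c = τ) ⊆ Pp.biUnion (fun P => (Bx ↥(Ix d) H).filter
          (fun c => tp c = τ ∧ ev P.1 P.2 (PG c) = 0)) := by
        intro c hc
        rw [Finset.mem_filter, hΦ, Finset.mem_filter] at hc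
        obtain ⟨⟨hcB, _, P, ⟨hP1, hP2, hP3⟩, hP4⟩, hct⟩ := hc
        rw [← hY] at hP3
        rw [Finset.mem_biUnion]
        refine ⟨P, ?_, ?_⟩
        · have hP0 : P.1 ≠ 0 := by
            intro hh
            rw [hh] at hP2
            simp at hP2
            have : (0 : ℝ) ≤ H := by positivity
            linarith
          have hM1 : |P.1| ≤ (M : ℤ) := by
            have : ((P.1.natAbs : ℕ) : ℝ) ≤ Y := by
              rw [Nat.cast_natAbs, Int.cast_abs]; exact hP3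
            have h5 := Nat.le_floor this
            rw [← hM] at h5
            rw [Int.abs_eq_natAbs]
            exact_mod_cast h5
          rw [hPp, Finset.mem_filter, Finset.mem_product, Finset.mem_Icc, Finset.mem_Icc]
          refine ⟨⟨abs_le.1 hM1, abs_le.1 (hP1.trans hM1)⟩, ?_, hP2, hP3⟩
          rw [← hct]
          exact NZ_tp hd hH hcB hP1 hP0 hP4
        · rw [Finset.mem_filter]
          exact ⟨hcB, hct, hP4⟩
      refine (Finset.card_le_card hsub).trans ((Finset.card_biUnion_le).trans ?_)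
      refine (Finset.sum_le_card_nsmul _ _ ((2 * H + 1) ^ 3) ?_).trans ?_
      · intro P hP
        rw [hPp, Finset.mem_filter] at hP
        have h2 : ((Bx ↥(Ix d) H).filter (fun c => tp c = τ ∧ ev P.1 P.2 (PG c) = 0)).card ≤
            (Bpt 2 H P (-ev P.1 P.2 (PG τ))).card := by
          apply Finset.card_le_card_of_injOn (lw (by omega : 2 ≤ d))
          · intro c hc
            rw [Finset.mem_coe, Finset.mem_filter] at hc
            rw [Finset.mem_coe, Bpt, Finset.mem_filter]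
            refine ⟨?_, ?_⟩
            · rw [mem_Bx]
              intro i
              exact mem_Bx.1 hc.1 _
            · have e1 := ev_tp_lw (by omega : 2 ≤ d) c P.1 P.2
              rw [hc.2.1, hc.2.2] at e1
              omega
          · intro c hc c' hc' h
            rw [Finset.mem_coe, Finset.mem_filter] at hc hc'
            funext i
            by_cases hi : i.1.1 + i.1.2 ≤ 2
            · exact congrFun h ⟨i.1, mem_Ix.2 hi⟩
            · have e1 := congrFun hc.2.1 i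
              have e2 := congrFun hc'.2.1 i
              rw [tp, if_neg hi] at e1 e2
              rw [e1, e2]
        refine h2.trans ?_
        have h3 := Bpt_big (e := 2) H P (-ev P.1 P.2 (PG τ)) (by
          apply lt_max_of_lt_left
          have h4 : 2 * (H : ℝ) < ((P.1.natAbs : ℕ) : ℝ) := by
            rw [Nat.cast_natAbs, Int.cast_abs]
            exact lt_of_lt_of_le hX2H hP.2.2.1
          exact_mod_cast h4)
        rw [card_Ix2] at h3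
        exact h3
      · rw [smul_eq_mul]
        exact Nat.mul_le_mul_right _ hPpc)
  exact h1.trans (Nat.mul_le_mul_left _ (card_topS (by omega) H))

end Pool.Agent.H322R2
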