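import Pool.Agent.H322R2.ZFin
import Pool.Agent.H322R2.AsmE

/-!
The sharp law: the constant, and the bound for all `d ≥ 4`.
-/

open Polynomial Finset

namespace Pool.Agent.H322R2

variable {d : ℕ}

lemma CZ_le (d : ℕ) : CZ d ≤ 10 ^ 97 * 2 ^ (d ^ 2 + 128 * d) * ((d : ℝ) + 1) ^ (d + 12) := by
  obtain ⟨a, ha⟩ : ∃ a : ℝ, a = (d : ℝ) + 1 := ⟨_, rfl⟩
  obtain ⟨b, hb⟩ : ∃ b : ℝ, b = 2 ^ (d ^ 2 + 128 * d) := ⟨_, rfl⟩
  have hd0 : (0 : ℝ) ≤ d := by positivity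
  have ha1 : 1 ≤ a := by rw [ha]; linarith
  have hda : (d : ℝ) ≤ a := by rw [ha]; linarith
  have hb1 : 1 ≤ b := by rw [hb]; exact one_le_pow₀ (by norm_num)
  have hbk : ∀ k : ℕ, k ≤ 128 → ((2 : ℝ) ^ k) ^ d ≤ b := by
    intro k hk
    rw [hb, ← pow_mul]
    apply pow_le_pow_right₀ (by norm_num)
    nlinarith
  obtain ⟨V, hV⟩ : ∃ V : ℝ, V = b * a ^ (d + 12) := ⟨_, rfl⟩
  have key : ∀ (x : ℝ) (k : ℕ), 0 ≤ x → x ≤ b → k ≤ d + 12 → x * a ^ k ≤ V := by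
    intro x k hx hxb hk
    rw [hV]
    exact mul_le_mul hxb (pow_le_pow_right₀ ha1 hk) (by positivity) (by linarith)
  have hV1 : 1 ≤ V := by
    have := key 1 0 (by norm_num) hb1 (by omega)
    simpa using this
  have hKZ : KZ d = 1000 * (2 ^ 4) ^ d := by unfold KZ; norm_num
  have t1 : (25 : ℝ) * 2 ^ d ≤ 25 * V := by
    have e0 := hbk 1 (by norm_num)
    rw [pow_one] at e0
    have e1 := key (2 ^ d) 0 (by positivity) e0 (by omega)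
    rw [pow_zero, mul_one] at e1
    linarith
  have t2 : 9 * KZ d ^ 32 ≤ 9 * 10 ^ 96 * V := by
    have e1 := key ((2 ^ 128) ^ d) 0 (by positivity) (hbk 128 le_rfl) (by omega)
    rw [pow_zero, mul_one] at e1
    have e2 : KZ d ^ 32 = 10 ^ 96 * (2 ^ 128) ^ d := by
      rw [hKZ, mul_pow, ← pow_mul, ← pow_mul, ← pow_mul]
      congr 1
      · norm_num
      · congr 1; ring
    rw [e2]; linarith
  have t3 : 2 * (45 * KZ d ^ 4) ≤ 90 * 10 ^ 12 * V := by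
    have e1 := key ((2 ^ 16) ^ d) 0 (by positivity) (hbk 16 (by norm_num)) (by omega)
    rw [pow_zero, mul_one] at e1
    have e2 : KZ d ^ 4 = 10 ^ 12 * (2 ^ 16) ^ d := by
      rw [hKZ, mul_pow, ← pow_mul, ← pow_mul, ← pow_mul]
      congr 1
      · norm_num
      · congr 1; ring
    rw [e2]; linarith
  have t4 : 2 * (2 * (d : ℝ)) + 1 ≤ 5 * V := by
    have e1 := key 1 1 (by norm_num) hb1 (by omega)
    rw [one_mul, pow_one] at e1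
    linarith
  have t5 : 4 * (d : ℝ) ^ 2 * 3 ^ d * (3 * (2 ^ d * (d + 1))) ^ d ≤ 4 * V := by
    rw [← ha]
    have e0 : (3 : ℝ) ^ d * 3 ^ d * (2 ^ d) ^ d ≤ b := by
      have h1 : (3 : ℝ) ^ d * 3 ^ d ≤ 2 ^ (128 * d) := by
        rw [← mul_pow, pow_mul]
        exact pow_le_pow_left₀ (by norm_num) (by norm_num) d
      rw [hb, pow_add, ← pow_mul, mul_comm]
      have h5 : d * d = d ^ 2 := by ring
      rw [h5]
      exact mul_le_mul_of_nonneg_left h1 (by positivity)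
    have e1 := key (3 ^ d * 3 ^ d * (2 ^ d) ^ d) (d + 2) (by positivity) e0 (by omega)
    calc 4 * (d : ℝ) ^ 2 * 3 ^ d * (3 * (2 ^ d * a)) ^ d
        ≤ 4 * a ^ 2 * 3 ^ d * (3 * (2 ^ d * a)) ^ d := by gcongr
      _ = 4 * (3 ^ d * 3 ^ d * (2 ^ d) ^ d * a ^ (d + 2)) := by
        rw [mul_pow, mul_pow, pow_add]; ring
      _ ≤ 4 * V := mul_le_mul_of_nonneg_left e1 (by norm_num)
  have t6 : 2 * (32 * (d : ℝ) * kC d * KZ d ^ 9) ≤ 64 * 10 ^ 37 * V := by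
    have e0 : (36 : ℝ) ^ d * (2 ^ 36) ^ d ≤ b := by
      rw [← mul_pow]
      refine le_trans ?_ (hbk 128 le_rfl)
      exact pow_le_pow_left₀ (by norm_num) (by norm_num) d
    have e1 := key (36 ^ d * (2 ^ 36) ^ d) 12 (by positivity) e0 (by omega)
    have e2 : KZ d ^ 9 = 10 ^ 27 * (2 ^ 36) ^ d := by
      rw [hKZ, mul_pow, ← pow_mul, ← pow_mul, ← pow_mul]
      congr 1
      · norm_num
      · congr 1; ring
    rw [e2]
    have e3 : ((kC d : ℕ) : ℝ) = 10 ^ 10 * 36 ^ d * a ^ 11 := by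
      unfold kC; push_cast; rw [← ha]; norm_num
    rw [e3]
    calc 2 * (32 * (d : ℝ) * (10 ^ 10 * 36 ^ d * a ^ 11) * (10 ^ 27 * (2 ^ 36) ^ d))
        ≤ 2 * (32 * a * (10 ^ 10 * 36 ^ d * a ^ 11) * (10 ^ 27 * (2 ^ 36) ^ d)) := by gcongr
      _ = 64 * 10 ^ 37 * (36 ^ d * (2 ^ 36) ^ d * a ^ 12) := by ring
      _ ≤ _ := mul_le_mul_of_nonneg_left e1 (by norm_num)
  have t7 : (((160 * d ^ 2 * kap d) * d * (d - 1) : ℕ) : ℝ) ≤ 160 * 10 ^ 6 * V := by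
    have e0 : (36 : ℝ) ^ d ≤ b := by
      refine le_trans ?_ (hbk 128 le_rfl)
      exact pow_le_pow_left₀ (by norm_num) (by norm_num) d
    have e1 := key (36 ^ d) 8 (by positivity) e0 (by omega)
    have e3 : ((kap d : ℕ) : ℝ) = 10 ^ 6 * 36 ^ d * a ^ 4 := by
      unfold kap; push_cast; rw [← ha]; norm_num
    have e4 : ((d - 1 : ℕ) : ℝ) ≤ a := by
      have : ((d - 1 : ℕ) : ℝ) ≤ ((d : ℕ) : ℝ) := by exact_mod_cast Nat.sub_le d 1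
      linarith
    push_cast
    rw [e3]
    calc 160 * (d : ℝ) ^ 2 * (10 ^ 6 * 36 ^ d * a ^ 4) * d * ((d - 1 : ℕ) : ℝ)
        ≤ 160 * a ^ 2 * (10 ^ 6 * 36 ^ d * a ^ 4) * a * a := by gcongr
      _ = 160 * 10 ^ 6 * (36 ^ d * a ^ 8) := by ring
      _ ≤ _ := mul_le_mul_of_nonneg_left e1 (by norm_num)
  have hfin : CZ d ≤ 10 ^ 97 * V := by
    unfold CZ
    linarith
  rw [hV, ← mul_assoc, hb, ha] at hfin
  exact hfin

theorem vec_boundZ (hd : 4 ≤ d) {H : ℕ} (hH : 1 ≤ H) :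
    Cn H (fun c : ↥(Ix d) → ℤ => ∃ p : ℤ × ℤ, ev p.1 p.2 (PG c) = 0)
      ≤ (10 ^ 15 * 2 ^ (d ^ 2 + 6 * d) * ((d : ℝ) + 1) ^ (d + 13)) *
        (H : ℝ) ^ (-(1 / (10 ^ 4 * (d : ℝ)))) * (Bx ↥(Ix d) H).card := by
  have hH0 : (0 : ℝ) < H := by exact_mod_cast hH
  have hH1 : (1 : ℝ) ≤ H := by exact_mod_cast hH
  obtain ⟨y, hy⟩ : ∃ y : ℝ, y = (H : ℝ) ^ (((EE d : ℕ) : ℝ)⁻¹) := ⟨_, rfl⟩
  have hEE : EE d ≠ 0 := by unfold EE; omega
  have hyH : y ^ (EE d) = H := by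
    rw [hy]; exact Real.rpow_inv_natCast_pow hH0.le hEE
  have hy0 : 0 < y := by rw [hy]; exact Real.rpow_pos_of_pos hH0 _
  have hyinv : (H : ℝ) ^ (-(1 / (10 ^ 4 * (d : ℝ)))) = 1 / y := by
    rw [Real.rpow_neg hH0.le, hy, one_div, one_div]
    congr 2
    unfold EE
    push_cast
    norm_num
  rw [hyinv]
  obtain ⟨Bc, hBc⟩ : ∃ Bc : ℝ, Bc = (Bx ↥(Ix d) H).card := ⟨_, rfl⟩
  have hBc0 : 0 ≤ Bc := by rw [hBc]; positivity
  have hK := K1_leV d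
  obtain ⟨K, hKK⟩ : ∃ K : ℝ, K = 10 ^ 15 * 2 ^ (d ^ 2 + 6 * d) * ((d : ℝ) + 1) ^ (d + 13) :=
    ⟨_, rfl⟩
  rw [← hKK] at hK ⊢
  rw [← hBc]
  have hK1 : 0 ≤ K1 d := by
    have hNN := NN_nonneg (d := d)
    have hCL0 := CL_nonneg d
    have hlog := logt_nonneg d
    have p0 : 0 ≤ K0 d := by unfold K0; positivity
    have p1 : (0 : ℝ) ≤ (4 * ((EE d + 1) * kC d) * d : ℕ) := Nat.cast_nonneg _
    have p2 : (0 : ℝ) ≤ (kN d : ℕ) := Nat.cast_nonneg _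
    have p3 : 0 ≤ (d : ℝ) * (3 * (2 ^ d * (d + 1))) ^ d := by positivity
    have p4 : (0 : ℝ) ≤ (EE d : ℕ) := Nat.cast_nonneg _
    unfold K1; linarith
  rw [mul_one_div]
  rcases le_total (K1 d) y with h | h
  · refine (main_count hd hyH h).trans ?_
    rw [← hBc]
    apply mul_le_mul_of_nonneg_right _ hBc0
    apply div_le_div_of_nonneg_right _ hy0.le
    linarith
  · refine (Cn_le _).trans ?_
    rw [← hBc]
    apply le_mul_of_one_le_left hBc0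
    rw [le_div_iff₀ hy0, one_mul]
    linarith

lemma setZ (d H : ℕ) [DecidablePred fun c : ↥(Ix d) → ℤ => ∃ p : ℤ × ℤ, ev p.1 p.2 (PG c) = 0] :
    {F : MvPolynomial (Fin 2) ℤ | (F.totalDegree ≤ d ∧ ∀ m, |F.coeff m| ≤ (H : ℤ)) ∧
        ∃ x y : ℤ, MvPolynomial.eval ![x, y] F = 0}
      = FM '' ((((Bx ↥(Ix d) H).filter (fun c => ∃ p : ℤ × ℤ, ev p.1 p.2 (PG c) = 0)) :
          Finset (↥(Ix d) → ℤ)) : Set (↥(Ix d) → ℤ)) := by
  ext F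
  rw [Set.mem_ofPred_eq, Set.mem_image]
  constructor
  · rintro ⟨h1, x, y, h3⟩
    obtain ⟨c, hc, rfl⟩ := FM_memV.1 h1
    rw [eval_FMV] at h3
    exact ⟨c, by rw [Finset.mem_coe, Finset.mem_filter]; exact ⟨hc, (y, x), h3⟩, rfl⟩
  · rintro ⟨c, hc, rfl⟩
    rw [Finset.mem_coe, Finset.mem_filter] at hc
    obtain ⟨hc1, p, hp⟩ := hc
    refine ⟨FM_memV.2 ⟨c, hc1, rfl⟩, p.2, p.1, ?_⟩
    rw [eval_FMV]; exact hp

lemma low_countZ (d H : ℕ)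
    [DecidablePred fun c : ↥(Ix d) → ℤ => ∃ p : ℤ × ℤ, ev p.1 p.2 (PG c) = 0] :
    (2 * H + 1) ^ ((Ix d).card - 1) ≤
      ((Bx ↥(Ix d) H).filter (fun c => ∃ p : ℤ × ℤ, ev p.1 p.2 (PG c) = 0)).card := by
  classical
  refine (low_count (e := d) 0 H (by simp)).trans ?_
  apply Finset.card_le_card
  intro c hc
  rw [Finset.mem_filter] at hc ⊢
  obtain ⟨hc1, x, y, hxy⟩ := hc
  rw [zero_add, eval_FMV] at hxy
  exact ⟨hc1, (y, x), hxy⟩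

end Pool.Agent.H322R2
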