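import Pool.Agent.H322R2.ZCnt
import Pool.Agent.H322R2.GDig
import Pool.Agent.H322R2.Fin3

/-!
Homogeneous parts of a coefficient vector (sharp law).
-/

open Polynomial Finset

namespace Pool.Agent.H322R2

variable {d : ℕ}

/-- the homogeneous parts -/
noncomputable def fR (c : ↥(Ix d) → ℤ) (k : ℕ) : ℝ[X] :=
  ∑ j ∈ range (d - k + 1), monomial j ((cf c j (d - k - j) : ℤ) : ℝ)

lemma coeff_fR (c : ↥(Ix d) → ℤ) (k j : ℕ) :
    (fR c k).coeff j = if j < d - k + 1 then ((cf c j (d - k - j) : ℤ) : ℝ) else 0 := by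
  rw [fR, finsetSum_coeff]
  simp_rw [coeff_monomial]
  rw [Finset.sum_ite_eq']
  simp [Finset.mem_range]

lemma natDegree_fR (c : ↥(Ix d) → ℤ) (k : ℕ) : (fR c k).natDegree ≤ d - k := by
  rw [natDegree_le_iff_coeff_eq_zero]
  intro j hj
  rw [coeff_fR, if_neg (by omega)]

lemma eval_fR (c : ↥(Ix d) → ℤ) (k : ℕ) (t : ℝ) :
    (fR c k).eval t = ∑ j ∈ range (d - k + 1), ((cf c j (d - k - j) : ℤ) : ℝ) * t ^ j := by
  rw [fR, eval_finsetSum]
  apply Finset.sum_congr rfl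
  intro j _
  rw [eval_monomial]

lemma ev_Tv (c : ↥(Ix d) → ℤ) {a b : ℤ} (ha : a ≠ 0) :
    ((ev a b (PG c) : ℤ) : ℝ) = (a : ℝ) ^ d * Tv (fR c) d a ((b : ℝ) / a) := by
  have haR : (a : ℝ) ≠ 0 := by exact_mod_cast ha
  have h1 : ((ev a b (PG c) : ℤ) : ℝ) = ∑ p ∈ Ix d, ((cf c p.1 p.2 : ℤ) : ℝ) * (a : ℝ) ^ p.2 *
      (b : ℝ) ^ p.1 := by
    rw [ev_PG_sum]
    push_cast
    rw [← Finset.sum_coe_sort (Ix d)]
    apply Finset.sum_congr rfl
    intro p _
    have : cf c p.1.1 p.1.2 = c p := by rw [cf, dif_pos p.2]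
    rw [this]
  have h2 : (a : ℝ) ^ d * Tv (fR c) d a ((b : ℝ) / a)
      = ∑ k ∈ range (d + 1), ∑ j ∈ range (d - k + 1),
        ((cf c j (d - k - j) : ℤ) : ℝ) * (a : ℝ) ^ (d - k - j) * (b : ℝ) ^ j := by
    rw [Tv, Finset.mul_sum]
    apply Finset.sum_congr rfl
    intro k hk
    rw [Finset.mem_range] at hk
    rw [eval_fR, Finset.sum_mul, Finset.mul_sum]
    apply Finset.sum_congr rfl
    intro j hj
    rw [Finset.mem_range] at hj
    have e1 : (a : ℝ) ^ d = (a : ℝ) ^ (d - k - j) * (a : ℝ) ^ j * (a : ℝ) ^ k := by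
      rw [← pow_add, ← pow_add]; congr 1; omega
    rw [e1, div_pow, inv_pow]
    field_simp
  rw [h1, h2, Finset.sum_sigma']
  symm
  apply Finset.sum_nbij' (i := fun x => (x.2, d - x.1 - x.2)) (j := fun p => ⟨d - p.1 - p.2, p.1⟩)
  · intro x hx
    rw [Finset.mem_sigma, Finset.mem_range, Finset.mem_range] at hx
    rw [mem_Ix]
    simp only
    omega
  · intro p hp
    rw [mem_Ix] at hp
    rw [Finset.mem_sigma, Finset.mem_range, Finset.mem_range]
    simp only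
    omega
  · intro x hx
    rw [Finset.mem_sigma, Finset.mem_range, Finset.mem_range] at hx
    obtain ⟨k, j⟩ := x
    simp only at hx ⊢
    congr 1
    omega
  · intro p hp
    rw [mem_Ix] at hp
    obtain ⟨j, i⟩ := p
    simp only at hp ⊢
    congr 1
    omega
  · intro x _
    rfl

lemma hasse_bound {q : ℝ[X]} {n : ℕ} {H : ℝ} (hq : q.natDegree ≤ n) (hH : 0 ≤ H)
    (hcf : ∀ i, |q.coeff i| ≤ H) (j i : ℕ) {t : ℝ} (ht : |t| ≤ 2) :
    |(taylor t (hasseDeriv j q)).coeff i| ≤ 16 ^ n * H := by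
  have step : ∀ (r : ℝ[X]) (B : ℝ), r.natDegree ≤ n → 0 ≤ B → (∀ m, |r.coeff m| ≤ B) → ∀ j,
      (hasseDeriv j r).natDegree ≤ n ∧ ∀ m, |(hasseDeriv j r).coeff m| ≤ 2 ^ n * B := by
    intro r B hr hB hrc j
    constructor
    · refine (natDegree_hasseDeriv_le _ _).trans ?_
      omega
    · intro m
      rw [hasseDeriv_coeff, abs_mul]
      by_cases hm : m + j ≤ n
      · have h1 : (((m + j).choose j : ℕ) : ℝ) ≤ 2 ^ n := by
          have h2 := Nat.choose_le_two_pow (m + j) j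
          have h3 : 2 ^ (m + j) ≤ 2 ^ n := Nat.pow_le_pow_right (by norm_num) hm
          exact_mod_cast h2.trans h3
        rw [Nat.abs_cast]
        exact mul_le_mul h1 (hrc _) (abs_nonneg _) (by positivity)
      · rw [coeff_eq_zero_of_natDegree_lt (by omega), abs_zero, mul_zero]
        positivity
  obtain ⟨s1, s2⟩ := step q H hq hH hcf j
  obtain ⟨s3, s4⟩ := step _ _ s1 (by positivity) s2 i
  rw [taylor_coeff, eval_eq_sum_range' (n := n + 1) (by omega)]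
  refine (Finset.abs_sum_le_sum_abs _ _).trans ?_
  refine (Finset.sum_le_card_nsmul _ _ (2 ^ n * (2 ^ n * H) * 2 ^ n) ?_).trans ?_
  · intro m hm
    rw [Finset.mem_range] at hm
    rw [abs_mul, abs_pow]
    apply mul_le_mul (s4 m) _ (by positivity) (by positivity)
    calc |t| ^ m ≤ 2 ^ m := pow_le_pow_left₀ (abs_nonneg _) ht m
      _ ≤ 2 ^ n := pow_le_pow_right₀ (by norm_num) (by omega)
  · rw [Finset.card_range, nsmul_eq_mul]
    have h1 : ((n + 1 : ℕ) : ℝ) ≤ 2 ^ n := by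
      have : n + 1 ≤ 2 ^ n := Nat.lt_two_pow_self
      exact_mod_cast this
    calc ((n + 1 : ℕ) : ℝ) * (2 ^ n * (2 ^ n * H) * 2 ^ n) ≤ 2 ^ n * (2 ^ n * (2 ^ n * H) * 2 ^ n) :=
          mul_le_mul_of_nonneg_right h1 (by positivity)
      _ = (2 * 2 * 2 * 2) ^ n * H := by rw [mul_pow, mul_pow, mul_pow]; ring
      _ = _ := by norm_num

/-- the constant -/
noncomputable def KZ (d : ℕ) : ℝ := 1000 * 16 ^ d

lemma d1_le_two_pow (d : ℕ) : (d : ℝ) + 1 ≤ 2 ^ d := by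
  have : d + 1 ≤ 2 ^ d := Nat.lt_two_pow_self
  exact_mod_cast this

lemma KZ_d (d : ℕ) : ((d : ℝ) + 1) ^ 4 + 288 ≤ KZ d := by
  have h1 := d1_le_two_pow d
  have h2 : ((d : ℝ) + 1) ^ 4 ≤ (2 ^ d) ^ 4 := pow_le_pow_left₀ (by positivity) h1 4
  have h3 : ((2 : ℝ) ^ d) ^ 4 = 16 ^ d := by
    rw [← pow_mul, mul_comm, pow_mul]; norm_num
  have h4 : (1 : ℝ) ≤ 16 ^ d := one_le_pow₀ (by norm_num)
  unfold KZ
  rw [h3] at h2
  linarith

lemma ZH_fR (hd : 7 ≤ d) {c : ↥(Ix d) → ℤ} {H : ℕ} (hc : c ∈ Bx _ H) {z : ℝ} (hz : 1 ≤ z)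
    (hH : z ^ 2 = H) : ZH (fR c) d (KZ d) z where
  hd := hd
  hK := by
    have h1 := KZ_d d
    have h2 : (1 : ℝ) ≤ (d : ℝ) + 1 := by
      have : (0 : ℝ) ≤ d := by positivity
      linarith
    have h3 : (d : ℝ) + 1 ≤ ((d : ℝ) + 1) ^ 4 := by
      calc (d : ℝ) + 1 = ((d : ℝ) + 1) ^ 1 := (pow_one _).symm
        _ ≤ _ := pow_le_pow_right₀ h2 (by norm_num)
    linarith
  hK3 := by
    unfold KZ
    have : (1 : ℝ) ≤ 16 ^ d := one_le_pow₀ (by norm_num)
    linarith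
  hz := hz
  deg := fun k _ => natDegree_fR c k
  bd := by
    intro k hk j i t ht
    have h1 := hasse_bound (q := fR c k) (n := d) (H := H) ((natDegree_fR c k).trans (by omega))
      (by positivity) (by
        intro m
        rw [coeff_fR]
        split_ifs with h
        · rw [cf]
          split_ifs with h'
          · have := mem_Bx.1 hc ⟨_, h'⟩
            have h2 : ((|c ⟨_, h'⟩| : ℤ) : ℝ) ≤ ((H : ℤ) : ℝ) := by exact_mod_cast this
            rw [Int.cast_abs] at h2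
            simpa using h2
          · simp
        · simp) j i ht
    refine h1.trans ?_
    rw [hH]
    apply mul_le_mul_of_nonneg_right _ (by positivity)
    unfold KZ
    have : (0 : ℝ) ≤ 16 ^ d := by positivity
    linarith

lemma hc_one (c : ↥(Ix d) → ℤ) (k : ℕ) (t : ℝ) :
    hc (fR c) k 1 t = ∑ j ∈ range (d - k + 1), ((cf c j (d - k - j) : ℤ) : ℝ) * (j * t ^ (j - 1)) := by
  rw [hc, taylor_coeff_one, fR, derivative_sum, eval_finsetSum]
  apply Finset.sum_congr rfl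
  intro j _
  rw [derivative_monomial, eval_monomial]
  ring

end Pool.Agent.H322R2
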