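import Pool.Agent.H322R2.ZMed

/-!
Sharp count of reducible leading forms (sharp law).
-/

open Polynomial Finset

namespace Pool.Agent.H322R2

lemma nu_le_iff {k : ℕ} {u : Fin (k + 1) → ℤ} {m : ℕ} : nu u ≤ m ↔ ∀ i, |u i| ≤ (m : ℤ) := by
  unfold nu
  rw [Finset.sup_le_iff]
  constructor
  · intro h i
    have := h i (Finset.mem_univ _)
    rw [Int.abs_eq_natAbs]
    exact_mod_cast this
  · intro h i _
    have := h i
    rw [Int.abs_eq_natAbs] at this
    exact_mod_cast this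

lemma card_fix (k m : ℕ) (i : Fin (k + 1)) (s : ℤ) :
    ((Bx (Fin (k + 1)) m).filter (fun u => u i = s)).card ≤ (2 * m + 1) ^ k := by
  classical
  have h1 := rel_count (H := m) i ((Bx (Fin (k + 1)) m).filter (fun u => u i = s))
    (Bx (Fin (k + 1)) m) (Finset.filter_subset _ _) (by
      intro c hc t ht
      rw [Finset.mem_filter] at hc
      exact update_mem_Bx hc.1 _ ht) 1 (by
      intro c _
      have : ((Icc (-(m : ℤ)) m).filter (fun t => Function.update c i t ∈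
          (Bx (Fin (k + 1)) m).filter (fun u => u i = s))).card ≤ 1 := by
        rw [Finset.card_le_one]
        intro t ht t' ht'
        rw [Finset.mem_filter, Finset.mem_filter, Function.update_self] at ht ht'
        rw [ht.2.2, ht'.2.2]
      exact_mod_cast this)
  rw [card_Bx, Fintype.card_fin] at h1
  push_cast at h1
  have h2 : (((Bx (Fin (k + 1)) m).filter (fun u => u i = s)).card : ℝ) * (2 * m + 1)
      ≤ (2 * (m : ℝ) + 1) ^ k * (2 * m + 1) := by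
    refine h1.trans (le_of_eq ?_)
    rw [one_mul, pow_succ]
  have h3 := le_of_mul_le_mul_right h2 (by positivity)
  exact_mod_cast h3

lemma card_nu (k m X : ℕ) :
    ((Bx (Fin (k + 1)) X).filter (fun u => nu u = m)).card ≤ (k + 1) * (2 * (2 * m + 1) ^ k) := by
  classical
  have hsub : (Bx (Fin (k + 1)) X).filter (fun u => nu u = m) ⊆
      (Finset.univ : Finset (Fin (k + 1))).biUnion (fun i => (({(m : ℤ), -(m : ℤ)} : Finset ℤ)).biUnion
        (fun s => (Bx (Fin (k + 1)) m).filter (fun u => u i = s))) := by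
    intro u hu
    rw [Finset.mem_filter] at hu
    obtain ⟨i, _, hi⟩ := Finset.exists_mem_eq_sup (Finset.univ : Finset (Fin (k + 1)))
      ⟨0, Finset.mem_univ _⟩ (fun i => (u i).natAbs)
    have h1 : (u i).natAbs = m := by
      rw [← hu.2]; exact hi.symm
    rw [Finset.mem_biUnion]
    refine ⟨i, Finset.mem_univ _, ?_⟩
    rw [Finset.mem_biUnion]
    refine ⟨u i, ?_, ?_⟩
    · rw [Finset.mem_insert, Finset.mem_singleton]; omega
    · rw [Finset.mem_filter, mem_Bx]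
      exact ⟨nu_le_iff.1 hu.2.le, rfl⟩
  refine (Finset.card_le_card hsub).trans (Finset.card_biUnion_le.trans ?_)
  refine (Finset.sum_le_card_nsmul _ _ (2 * (2 * m + 1) ^ k) ?_).trans ?_
  · intro i _
    refine Finset.card_biUnion_le.trans ?_
    refine (Finset.sum_le_card_nsmul _ _ ((2 * m + 1) ^ k) ?_).trans ?_
    · intro s _
      exact card_fix k m i s
    · rw [smul_eq_mul]
      exact Nat.mul_le_mul_right _ Finset.card_le_two
  · rw [Finset.card_univ, Fintype.card_fin, smul_eq_mul]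

lemma card_Rk_sharp (d X k : ℕ) (hd : 4 ≤ d) (hk : 2 * k ≤ d) (hk1 : 1 ≤ k) (hX : 1 ≤ X) :
    ((Rk d X k).card : ℝ) ≤ 4 * (d * 3 ^ d) * (3 * (X : ℝ)) ^ d := by
  classical
  have hXR : (1 : ℝ) ≤ X := by exact_mod_cast hX
  obtain ⟨U, hU⟩ : ∃ U, U = (Bx (Fin (k + 1)) X).filter (fun u => 1 ≤ nu u) := ⟨_, rfl⟩
  have h1 : (Rk d X k).card ≤ ∑ u ∈ U, (2 * (X / nu u) + 1) ^ (d - k + 1) := by
    unfold Rk
    rw [← hU]
    refine Finset.card_biUnion_le.trans (Finset.sum_le_sum ?_)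
    intro u _
    refine Finset.card_image_le.trans ?_
    rw [card_Bx, Fintype.card_fin]
  have h2 : ∑ u ∈ U, (2 * (X / nu u) + 1) ^ (d - k + 1)
      = ∑ m ∈ Ioo 0 (X + 1), ∑ u ∈ U.filter (fun u => nu u = m), (2 * (X / nu u) + 1) ^ (d - k + 1) := by
    rw [Finset.sum_fiberwise_of_maps_to]
    intro u hu
    rw [hU, Finset.mem_filter, mem_Bx] at hu
    have := nu_le_iff.2 hu.1
    rw [Finset.mem_Ioo]
    omega
  have h3 : ∀ m ∈ Ioo 0 (X + 1), ((∑ u ∈ U.filter (fun u => nu u = m),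
      (2 * (X / nu u) + 1) ^ (d - k + 1) : ℕ) : ℝ) ≤ (2 * (d * 3 ^ d) * (3 * (X : ℝ)) ^ d) *
        ((m : ℝ) ^ 2)⁻¹ := by
    intro m hm
    rw [Finset.mem_Ioo] at hm
    have hm1 : (1 : ℝ) ≤ m := by exact_mod_cast hm.1
    have hm0 : (0 : ℝ) < m := by linarith
    have hmX : (m : ℝ) ≤ X := by exact_mod_cast (by omega : m ≤ X)
    have e1 : ∑ u ∈ U.filter (fun u => nu u = m), (2 * (X / nu u) + 1) ^ (d - k + 1)
        ≤ ((k + 1) * (2 * (2 * m + 1) ^ k)) * (2 * (X / m) + 1) ^ (d - k + 1) := by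
      refine (Finset.sum_le_card_nsmul _ _ ((2 * (X / m) + 1) ^ (d - k + 1)) ?_).trans ?_
      · intro u hu
        rw [Finset.mem_filter] at hu
        rw [hu.2]
      · rw [smul_eq_mul]
        apply Nat.mul_le_mul_right
        refine le_trans (Finset.card_le_card ?_) (card_nu k m X)
        intro u hu
        rw [Finset.mem_filter, hU, Finset.mem_filter] at hu
        rw [Finset.mem_filter]
        exact ⟨hu.1.1, hu.2⟩
    have e2 : ((∑ u ∈ U.filter (fun u => nu u = m), (2 * (X / nu u) + 1) ^ (d - k + 1) : ℕ) : ℝ)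
        ≤ (((k : ℝ) + 1) * (2 * (2 * m + 1) ^ k)) * (2 * ((X / m : ℕ) : ℝ) + 1) ^ (d - k + 1) := by
      exact_mod_cast e1
    refine e2.trans ?_
    have e3 : 2 * ((X / m : ℕ) : ℝ) + 1 ≤ 3 * X / m := by
      have h5 : ((X / m : ℕ) : ℝ) ≤ X / m := Nat.cast_div_le
      have h6 : 1 ≤ (X : ℝ) / m := by rw [le_div_iff₀ hm0]; linarith
      have h7 : 3 * (X : ℝ) / m = 3 * (X / m) := by ring
      rw [h7]; linarith
    have e4 : (2 * (m : ℝ) + 1) ^ k ≤ 3 ^ k * (m : ℝ) ^ k := by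
      rw [← mul_pow]
      exact pow_le_pow_left₀ (by positivity) (by linarith) k
    have e5 : (k : ℝ) + 1 ≤ d := by exact_mod_cast (by omega : k + 1 ≤ d)
    have e6 : (3 : ℝ) ^ k ≤ 3 ^ d := pow_le_pow_right₀ (by norm_num) (by omega)
    have e7 : (m : ℝ) ^ k * (3 * X / m) ^ (d - k + 1) ≤ (3 * (X : ℝ)) ^ d * ((m : ℝ) ^ 2)⁻¹ := by
      rw [div_pow, ← mul_div_assoc, ← div_eq_mul_inv, div_le_div_iff₀ (by positivity) (by positivity)]
      have f1 : (3 * (X : ℝ)) ^ d = (3 * (X : ℝ)) ^ (d - k + 1) * (3 * (X : ℝ)) ^ (k - 1) := by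
        rw [← pow_add]; congr 1; omega
      rw [f1]
      have f2 : (m : ℝ) ^ k * (m : ℝ) ^ 2 ≤ (3 * (X : ℝ)) ^ (k - 1) * (m : ℝ) ^ (d - k + 1) := by
        calc (m : ℝ) ^ k * (m : ℝ) ^ 2 = (m : ℝ) ^ (k + 2) := by rw [pow_add]
          _ ≤ (m : ℝ) ^ ((k - 1) + (d - k + 1)) := pow_le_pow_right₀ hm1 (by omega)
          _ = (m : ℝ) ^ (k - 1) * (m : ℝ) ^ (d - k + 1) := by rw [pow_add]
          _ ≤ _ := by
            apply mul_le_mul_of_nonneg_right _ (by positivity)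
            exact pow_le_pow_left₀ hm0.le (by linarith) _
      calc (m : ℝ) ^ k * (3 * (X : ℝ)) ^ (d - k + 1) * (m : ℝ) ^ 2
          = (3 * (X : ℝ)) ^ (d - k + 1) * ((m : ℝ) ^ k * (m : ℝ) ^ 2) := by ring
        _ ≤ (3 * (X : ℝ)) ^ (d - k + 1) * ((3 * (X : ℝ)) ^ (k - 1) * (m : ℝ) ^ (d - k + 1)) :=
          mul_le_mul_of_nonneg_left f2 (by positivity)
        _ = _ := by ring
    calc (((k : ℝ) + 1) * (2 * (2 * m + 1) ^ k)) * (2 * ((X / m : ℕ) : ℝ) + 1) ^ (d - k + 1)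
        ≤ ((d : ℝ) * (2 * (3 ^ k * (m : ℝ) ^ k))) * (3 * X / m) ^ (d - k + 1) := by gcongr
      _ = (2 * d * 3 ^ k) * ((m : ℝ) ^ k * (3 * X / m) ^ (d - k + 1)) := by ring
      _ ≤ (2 * d * 3 ^ d) * ((3 * (X : ℝ)) ^ d * ((m : ℝ) ^ 2)⁻¹) := by
        apply mul_le_mul _ e7 (by positivity) (by positivity)
        exact mul_le_mul_of_nonneg_left e6 (by positivity)
      _ = _ := by ring
  have h4 : ((Rk d X k).card : ℝ) ≤ ((∑ m ∈ Ioo 0 (X + 1), ∑ u ∈ U.filter (fun u => nu u = m),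
      (2 * (X / nu u) + 1) ^ (d - k + 1) : ℕ) : ℝ) := by
    rw [← h2]; exact_mod_cast h1
  refine h4.trans ?_
  rw [Nat.cast_sum]
  refine (Finset.sum_le_sum h3).trans ?_
  rw [← Finset.mul_sum]
  have h5 := sum_Ioo_inv_sq_le (α := ℝ) 0 (X + 1)
  rw [Nat.cast_zero, zero_add, div_one] at h5
  calc (2 * (d * 3 ^ d) * (3 * (X : ℝ)) ^ d) * ∑ m ∈ Ioo 0 (X + 1), ((m : ℝ) ^ 2)⁻¹
      ≤ (2 * (d * 3 ^ d) * (3 * (X : ℝ)) ^ d) * 2 := mul_le_mul_of_nonneg_left h5 (by positivity)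
    _ = _ := by ring

variable {d : ℕ}

open Classical in
theorem cnt_red_sharp (hd : 4 ≤ d) {H : ℕ} (hH : 1 ≤ H) :
    (((Bx ↥(Ix d) H).filter (fun c => (ff c).natDegree = d ∧
      ¬ Irreducible ((ff c).map (Int.castRingHom ℚ)))).card : ℝ) ≤
      (4 * d ^ 2 * 3 ^ d * (3 * (2 ^ d * (d + 1))) ^ d) * (2 * (H : ℝ) + 1) ^ ((Ix d).card - 1) := by
  obtain ⟨X, hX⟩ : ∃ X, X = 2 ^ d * (d + 1) * H := ⟨_, rfl⟩
  have hX1 : 1 ≤ X := by
    rw [hX]
    exact Nat.mul_pos (Nat.mul_pos (by positivity) (by omega)) hH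
  obtain ⟨S, hS⟩ : ∃ S, S = (Bx ↥(Ix d) H).filter (fun c => (ff c).natDegree = d ∧
      ¬ Irreducible ((ff c).map (Int.castRingHom ℚ))) := ⟨_, rfl⟩
  rw [← hS]
  obtain ⟨U, hU⟩ : ∃ U, U = (Finset.Icc 1 (d / 2)).biUnion (Rk d X) := ⟨_, rfl⟩
  have hH0 : (0 : ℝ) < H := by exact_mod_cast hH
  -- bound on U
  have hUc : (U.card : ℝ) ≤ (4 * d ^ 2 * 3 ^ d * (3 * (2 ^ d * (d + 1))) ^ d) * (H : ℝ) ^ d := by
    have h1 := card_biUnion_real (Finset.Icc 1 (d / 2)) (Rk d X) (4 * (d * 3 ^ d) * (3 * (X : ℝ)) ^ d)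
      (by
        intro k hk
        rw [Finset.mem_Icc] at hk
        exact card_Rk_sharp d X k hd (by omega) hk.1 hX1)
    rw [← hU, Nat.card_Icc] at h1
    refine h1.trans ?_
    have h2 : (((d / 2 + 1 - 1 : ℕ) : ℕ) : ℝ) ≤ d := by
      exact_mod_cast (show d / 2 + 1 - 1 ≤ d by omega)
    have h3 : (3 * (X : ℝ)) ^ d = (3 * (2 ^ d * (d + 1))) ^ d * (H : ℝ) ^ d := by
      rw [hX, ← mul_pow]; push_cast; ring
    calc (((d / 2 + 1 - 1 : ℕ) : ℕ) : ℝ) * (4 * (d * 3 ^ d) * (3 * (X : ℝ)) ^ d)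
        ≤ d * (4 * (d * 3 ^ d) * (3 * (X : ℝ)) ^ d) := mul_le_mul_of_nonneg_right h2 (by positivity)
      _ = _ := by rw [h3]; ring
  -- injection
  have hsub : ∀ p : ↥(Ix (d - 1)), p.1 ∈ Ix d := by
    intro p
    have := mem_Ix.1 p.2
    rw [mem_Ix]; omega
  have hcard : S.card ≤ U.card * (2 * H + 1) ^ ((Ix (d - 1)).card) := by
    have h1 : S.card ≤ (U ×ˢ Bx ↥(Ix (d - 1)) H).card := by
      apply Finset.card_le_card_of_injOn (fun c => (ff c, fun p : ↥(Ix (d - 1)) => c ⟨p.1, hsub p⟩))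
      · intro c hc
        rw [Finset.mem_coe, hS, Finset.mem_filter] at hc
        obtain ⟨hc1, hc2, hc3⟩ := hc
        rw [Finset.mem_coe, Finset.mem_product]
        refine ⟨?_, ?_⟩
        · obtain ⟨k, hk1, hk2, hk3⟩ := mem_Rk (ff c) d H (by omega) hc2 (by
            intro i
            rw [coeff_ff, cf]
            split_ifs with h
            · exact mem_Bx.1 hc1 _
            · simp) hc3
          rw [hU, Finset.mem_biUnion]
          refine ⟨k, ?_, by rw [hX]; exact hk3⟩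
          rw [Finset.mem_Icc]; omega
        · rw [mem_Bx]
          intro p
          exact mem_Bx.1 hc1 _
      · intro c _ c' _ hcc
        simp only [Prod.mk.injEq] at hcc
        obtain ⟨e1, e2⟩ := hcc
        funext p
        have hp := mem_Ix.1 p.2
        by_cases h : p.1.1 + p.1.2 ≤ d - 1
        · exact congrFun e2 ⟨p.1, mem_Ix.2 h⟩
        · have h1 := congrArg (fun f => coeff f p.1.1) e1
          simp only [coeff_ff] at h1
          have h2 : d - p.1.1 = p.1.2 := by omega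
          rw [h2, cf, cf, dif_pos p.2, dif_pos p.2] at h1
          exact h1
    rwa [Finset.card_product, card_Bx, Fintype.card_coe] at h1
  have hIx : (Ix (d - 1)).card + (d + 1) = (Ix d).card := by
    have h1 := two_card_Ix (d - 1)
    have h2 := two_card_Ix d
    have h3 : d - 1 + 1 = d := by omega
    have h4 : d - 1 + 2 = d + 1 := by omega
    rw [h3, h4] at h1
    nlinarith
  have h1 : (S.card : ℝ) ≤ U.card * (2 * H + 1) ^ ((Ix (d - 1)).card) := by exact_mod_cast hcard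
  obtain ⟨C, hC⟩ : ∃ C : ℝ, C = 4 * d ^ 2 * 3 ^ d * (3 * (2 ^ d * (d + 1))) ^ d := ⟨_, rfl⟩
  have hC0 : 0 ≤ C := by rw [hC]; positivity
  rw [← hC] at hUc ⊢
  have h2 : (2 * (H : ℝ) + 1) ^ ((Ix d).card - 1)
      = (2 * (H : ℝ) + 1) ^ d * (2 * (H : ℝ) + 1) ^ ((Ix (d - 1)).card) := by
    rw [← pow_add]; congr 1; omega
  calc (S.card : ℝ) ≤ U.card * (2 * H + 1) ^ ((Ix (d - 1)).card) := h1
    _ ≤ (C * (H : ℝ) ^ d) * (2 * H + 1) ^ ((Ix (d - 1)).card) :=
      mul_le_mul_of_nonneg_right hUc (by positivity)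
    _ ≤ (C * (2 * (H : ℝ) + 1) ^ d) * (2 * H + 1) ^ ((Ix (d - 1)).card) := by
      gcongr
      linarith
    _ = _ := by rw [h2]; ring

end Pool.Agent.H322R2
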