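import Pool.Agent.H322R2.ZPoly

/-!
Atypical coefficient vectors are rare (sharp law).
-/

open Polynomial Finset

namespace Pool.Agent.H322R2

variable {d : ℕ}

lemma cf_update (c : ↥(Ix d) → ℤ) (p0 : ↥(Ix d)) (v : ℤ) (j i : ℕ) :
    cf (Function.update c p0 v) j i = if (j, i) = p0.1 then v else cf c j i := by
  by_cases h : (j, i) ∈ Ix d
  · rw [cf, cf, dif_pos h, dif_pos h]
    by_cases h1 : (j, i) = p0.1
    · rw [if_pos h1]
      have : (⟨(j, i), h⟩ : ↥(Ix d)) = p0 := Subtype.ext h1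
      rw [this, Function.update_self]
    · rw [if_neg h1, Function.update_of_ne]
      intro h2
      exact h1 (congrArg Subtype.val h2)
  · rw [cf, cf, dif_neg h, dif_neg h, if_neg]
    intro h1
    apply h
    rw [h1]; exact p0.2

lemma fR_update_ne (c : ↥(Ix d) → ℤ) (p0 : ↥(Ix d)) (v : ℤ) {k : ℕ}
    (hk : p0.1.1 + p0.1.2 ≠ d - k) : fR (Function.update c p0 v) k = fR c k := by
  ext j
  rw [coeff_fR, coeff_fR]
  split_ifs with h
  · rw [cf_update, if_neg]
    intro h1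
    apply hk
    rw [← h1]
    simp only
    omega
  · rfl

lemma fR_update_eq (c : ↥(Ix d) → ℤ) (p0 : ↥(Ix d)) (v : ℤ) {k : ℕ}
    (hk : p0.1.1 + p0.1.2 = d - k) :
    fR (Function.update c p0 v) k = fR c k + monomial p0.1.1 ((v : ℝ) - c p0) := by
  ext j
  rw [coeff_add, coeff_fR, coeff_fR, coeff_monomial, cf_update]
  by_cases hj : p0.1.1 = j
  · have hlt : j < d - k + 1 := by omega
    have hpe : (j, d - k - j) = p0.1 := by
      apply Prod.ext
      · exact hj.symm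
      · simp only; omega
    rw [if_pos hj, if_pos hlt, if_pos hlt, if_pos hpe]
    · have : cf c j (d - k - j) = c p0 := by
        have h1 : (j, d - k - j) = p0.1 := by
          apply Prod.ext
          · exact hj.symm
          · simp only; omega
        rw [cf, dif_pos (by rw [h1]; exact p0.2)]
        congr 1
        exact Subtype.ext h1
      rw [this]; ring
  · rw [if_neg hj, add_zero, if_neg (c := (j, d - k - j) = p0.1)]
    intro h1
    apply hj
    rw [← h1]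

lemma hc_congr {f g : ℕ → ℝ[X]} {k : ℕ} (h : f k = g k) (j : ℕ) (t : ℝ) : hc f k j t = hc g k j t := by
  rw [hc, hc, h]

open Classical in
/-- the second typical condition fails rarely -/
theorem card_T2 (hd : 2 ≤ d) (H : ℕ) {z : ℝ} (hz : 1 ≤ z) :
    (((Bx ↥(Ix d) H).filter (fun c => ¬ ZT2 (fR c) z)).card : ℝ) * (2 * H + 1)
      ≤ (2 * d) * (Bx ↥(Ix d) H).card := by
  have hp : ((0, d - 2) : ℕ × ℕ) ∈ Ix d := by rw [mem_Ix]; simp only; omega
  obtain ⟨i0, hi0⟩ : ∃ i0 : ↥(Ix d), i0 = ⟨(0, d - 2), hp⟩ := ⟨_, rfl⟩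
  apply rel_count i0 _ _ (Finset.filter_subset _ _)
  · intro c hc t ht
    rw [Finset.mem_filter] at hc
    exact update_mem_Bx hc.1 _ ht
  · intro c _
    have h0 : ∀ t : ℤ, fR (Function.update c i0 t) 0 = fR c 0 := fun t =>
      fR_update_ne c i0 t (by rw [hi0]; simp only; omega)
    have h1 : ∀ t : ℤ, fR (Function.update c i0 t) 1 = fR c 1 := fun t =>
      fR_update_ne c i0 t (by rw [hi0]; simp only; omega)
    have h2 : ∀ t : ℤ, fR (Function.update c i0 t) 2 = fR c 2 + monomial 0 ((t : ℝ) - c i0) := by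
      intro t
      rw [fR_update_eq c i0 t (by rw [hi0]; simp only; omega), hi0]
    obtain ⟨A, hA⟩ : ∃ A : ℝ → ℝ, A = fun η => hc (fR c) 2 0 η - c i0 +
      hc (fR c) 1 1 η * zbe (fR c) η + hc (fR c) 0 2 η * zbe (fR c) η ^ 2 := ⟨_, rfl⟩
    by_cases hf0 : fR c 0 = 0
    · have hemp : (Icc (-(H : ℤ)) H).filter (fun t => Function.update c i0 t ∈
        (Bx ↥(Ix d) H).filter (fun c => ¬ ZT2 (fR c) z)) = ∅ := by
        apply Finset.eq_empty_of_forall_notMem
        intro t ht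
        rw [Finset.mem_filter, Finset.mem_filter] at ht
        apply ht.2.2
        intro η _ _ h5
        rw [hc, h0, hf0, map_zero, coeff_zero, abs_zero] at h5
        linarith
      rw [hemp]
      simp
    obtain ⟨S, hS⟩ : ∃ S, S = (fR c 0).roots.toFinset := ⟨_, rfl⟩
    have hScard : S.card ≤ d := by
      rw [hS]
      refine (Multiset.toFinset_card_le _).trans ((card_roots' _).trans ?_)
      have := natDegree_fR c 0
      omega
    have hsub : (Icc (-(H : ℤ)) H).filter (fun t => Function.update c i0 t ∈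
        (Bx ↥(Ix d) H).filter (fun c => ¬ ZT2 (fR c) z)) ⊆
        S.biUnion (fun η => (Icc (-(H : ℤ)) H).filter (fun t : ℤ => |A η + 1 * (t : ℝ)| ≤ 1 / 2)) := by
      intro t ht
      rw [Finset.mem_filter, Finset.mem_filter] at ht
      have h5 := ht.2.2
      unfold ZT2 at h5
      push Not at h5
      obtain ⟨η, g1, g2, g3, g4⟩ := h5
      rw [Finset.mem_biUnion]
      refine ⟨η, ?_, ?_⟩
      · rw [hS, Multiset.mem_toFinset, mem_roots hf0]
        rw [h0] at g2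
        exact g2
      · rw [Finset.mem_filter]
        refine ⟨ht.1, ?_⟩
        have e1 : hc (fR (Function.update c i0 t)) 2 0 η = hc (fR c) 2 0 η + ((t : ℝ) - c i0) := by
          rw [hc_zero, hc_zero, h2, eval_add, eval_monomial]; simp
        have e2 : zbe (fR (Function.update c i0 t)) η = zbe (fR c) η := by
          rw [zbe, zbe, h1, hc_congr (h0 t)]
        rw [e1, e2, hc_congr (h1 t), hc_congr (h0 t)] at g4
        have e3 : A η + 1 * (t : ℝ) = hc (fR c) 2 0 η + ((t : ℝ) - c i0) +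
          hc (fR c) 1 1 η * zbe (fR c) η + hc (fR c) 0 2 η * zbe (fR c) η ^ 2 := by
          rw [hA]; ring
        rw [e3]
        exact g4.le
    have hc1 : ((((Icc (-(H : ℤ)) H).filter (fun t => Function.update c i0 t ∈
        (Bx ↥(Ix d) H).filter (fun c => ¬ ZT2 (fR c) z))).card : ℕ) : ℝ) ≤
        ((S.biUnion (fun η => (Icc (-(H : ℤ)) H).filter
          (fun t : ℤ => |A η + 1 * (t : ℝ)| ≤ 1 / 2))).card : ℕ) := by
      exact_mod_cast Finset.card_le_card hsub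
    refine hc1.trans ((card_biUnion_real _ _ 2 ?_).trans ?_)
    · intro η _
      have := card_interval ((Icc (-(H : ℤ)) H).filter (fun t : ℤ => |A η + 1 * (t : ℝ)| ≤ 1 / 2))
        (A η) 1 (1 / 2) one_ne_zero (by norm_num) (fun t ht => (Finset.mem_filter.1 ht).2)
      refine this.trans ?_
      norm_num
    · have : (S.card : ℝ) ≤ d := by exact_mod_cast hScard
      linarith

open Classical in
/-- vectors with a double near zero at a point -/
theorem card_dbl (hd : 2 ≤ d) (H : ℕ) (t0 : ℝ) {B1 B2 : ℝ} (hB1 : 0 ≤ B1) (hB2 : 0 ≤ B2) :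
    (((Bx ↥(Ix d) H).filter (fun c => |(fR c 0).eval t0| ≤ B1 ∧ |hc (fR c) 0 1 t0| ≤ B2)).card : ℝ)
      * (2 * H + 1) ^ 2 ≤ ((2 * B1 + 1) * (2 * B2 + 1)) * (Bx ↥(Ix d) H).card := by
  have hp : ((0, d) : ℕ × ℕ) ∈ Ix d := by rw [mem_Ix]; simp only; omega
  have hq : ((1, d - 1) : ℕ × ℕ) ∈ Ix d := by rw [mem_Ix]; simp only; omega
  obtain ⟨i0, hi0⟩ : ∃ i0 : ↥(Ix d), i0 = ⟨(0, d), hp⟩ := ⟨_, rfl⟩
  obtain ⟨i1, hi1⟩ : ∃ i1 : ↥(Ix d), i1 = ⟨(1, d - 1), hq⟩ := ⟨_, rfl⟩
  have a0 : ∀ (c : ↥(Ix d) → ℤ) (t : ℤ), fR (Function.update c i0 t) 0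
      = fR c 0 + monomial 0 ((t : ℝ) - c i0) := by
    intro c t
    rw [fR_update_eq c i0 t (by rw [hi0]; simp only; omega), hi0]
  have a1 : ∀ (c : ↥(Ix d) → ℤ) (t : ℤ), fR (Function.update c i1 t) 0
      = fR c 0 + monomial 1 ((t : ℝ) - c i1) := by
    intro c t
    rw [fR_update_eq c i1 t (by rw [hi1]; simp only; omega), hi1]
  have b0 : ∀ (c : ↥(Ix d) → ℤ) (t : ℤ), hc (fR (Function.update c i0 t)) 0 1 t0
      = hc (fR c) 0 1 t0 := by
    intro c t
    rw [hc, a0, map_add, coeff_add, taylor_coeff_one, taylor_coeff_one, derivative_monomial, hc,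
      taylor_coeff_one]
    simp
  have b1 : ∀ (c : ↥(Ix d) → ℤ) (t : ℤ), hc (fR (Function.update c i1 t)) 0 1 t0
      = hc (fR c) 0 1 t0 + ((t : ℝ) - c i1) := by
    intro c t
    rw [hc, a1, map_add, coeff_add, taylor_coeff_one, taylor_coeff_one, derivative_monomial, hc,
      taylor_coeff_one]
    simp
  have s1 := rel_count (H := H) i0 ((Bx ↥(Ix d) H).filter
    (fun c => |(fR c 0).eval t0| ≤ B1 ∧ |hc (fR c) 0 1 t0| ≤ B2))
    ((Bx ↥(Ix d) H).filter (fun c => |hc (fR c) 0 1 t0| ≤ B2)) (Finset.filter_subset _ _) (by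
      intro c hc t ht
      rw [Finset.mem_filter] at hc ⊢
      exact ⟨update_mem_Bx hc.1 _ ht, by rw [b0]; exact hc.2.2⟩) (2 * B1 + 1) (by
      intro c _
      have := card_interval ((Icc (-(H : ℤ)) H).filter (fun t => Function.update c i0 t ∈
        (Bx ↥(Ix d) H).filter (fun c => |(fR c 0).eval t0| ≤ B1 ∧ |hc (fR c) 0 1 t0| ≤ B2)))
        ((fR c 0).eval t0 - c i0) 1 B1 one_ne_zero hB1 (by
          intro t ht
          rw [Finset.mem_filter, Finset.mem_filter] at ht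
          have h1 := ht.2.2.1
          rw [a0, eval_add, eval_monomial, pow_zero, mul_one] at h1
          have e1 : (fR c 0).eval t0 - c i0 + 1 * (t : ℝ) = (fR c 0).eval t0 + ((t : ℝ) - c i0) := by
            ring
          rw [e1]; exact h1)
      refine this.trans ?_
      rw [abs_one, div_one])
  have s2 := rel_count (H := H) i1 ((Bx ↥(Ix d) H).filter (fun c => |hc (fR c) 0 1 t0| ≤ B2))
    (Bx ↥(Ix d) H) (Finset.filter_subset _ _) (by
      intro c hc t ht
      rw [Finset.mem_filter] at hc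
      exact update_mem_Bx hc.1 _ ht) (2 * B2 + 1) (by
      intro c _
      have := card_interval ((Icc (-(H : ℤ)) H).filter (fun t => Function.update c i1 t ∈
        (Bx ↥(Ix d) H).filter (fun c => |hc (fR c) 0 1 t0| ≤ B2)))
        (hc (fR c) 0 1 t0 - c i1) 1 B2 one_ne_zero hB2 (by
          intro t ht
          rw [Finset.mem_filter, Finset.mem_filter] at ht
          have h1 := ht.2.2
          rw [b1] at h1
          have e1 : hc (fR c) 0 1 t0 - c i1 + 1 * (t : ℝ) = hc (fR c) 0 1 t0 + ((t : ℝ) - c i1) := by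
            ring
          rw [e1]; exact h1)
      refine this.trans ?_
      rw [abs_one, div_one])
  have hH0 : (0 : ℝ) ≤ 2 * H + 1 := by positivity
  calc _ = ((((Bx ↥(Ix d) H).filter (fun c => |(fR c 0).eval t0| ≤ B1 ∧
        |hc (fR c) 0 1 t0| ≤ B2)).card : ℝ) * (2 * H + 1)) * (2 * H + 1) := by ring
    _ ≤ ((2 * B1 + 1) * (((Bx ↥(Ix d) H).filter (fun c => |hc (fR c) 0 1 t0| ≤ B2)).card : ℝ))
        * (2 * H + 1) := mul_le_mul_of_nonneg_right s1 hH0
    _ = (2 * B1 + 1) * ((((Bx ↥(Ix d) H).filter (fun c => |hc (fR c) 0 1 t0| ≤ B2)).card : ℝ)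
        * (2 * H + 1)) := by ring
    _ ≤ (2 * B1 + 1) * ((2 * B2 + 1) * (Bx ↥(Ix d) H).card) :=
      mul_le_mul_of_nonneg_left s2 (by linarith)
    _ = _ := by ring

open Classical in
/-- the first typical condition fails rarely -/
theorem card_T1 (hd : 7 ≤ d) {H : ℕ} {z : ℝ} (hz : 1 ≤ z) (hH : z ^ 2 = H) :
    (((Bx ↥(Ix d) H).filter (fun c => ¬ ZT1 (fR c) z)).card : ℝ) * (2 * H + 1)
      ≤ (45 * KZ d ^ 4) * (Bx ↥(Ix d) H).card := by
  obtain ⟨m, hm⟩ : ∃ m : ℕ, m = ⌈z⌉₊ := ⟨_, rfl⟩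
  have hm1 : z ≤ m := by rw [hm]; exact Nat.le_ceil z
  have hm2 : (m : ℝ) ≤ 2 * z := by
    have := Nat.ceil_lt_add_one (show 0 ≤ z by linarith)
    rw [← hm] at this
    linarith
  have hz0 : 0 < z := by linarith
  have hm0 : (0 : ℝ) < m := by linarith
  obtain ⟨K, hK⟩ : ∃ K, K = KZ d := ⟨_, rfl⟩
  have hK300 : 300 ≤ K := by
    rw [hK]; unfold KZ
    have : (1 : ℝ) ≤ 16 ^ d := one_le_pow₀ (by norm_num)
    linarith
  have hKd : (d : ℝ) + 1 ≤ K := by
    have h1 := KZ_d d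
    have h2 : (1 : ℝ) ≤ (d : ℝ) + 1 := by
      have : (0 : ℝ) ≤ d := by positivity
      linarith
    have h3 : (d : ℝ) + 1 ≤ ((d : ℝ) + 1) ^ 4 := by
      calc (d : ℝ) + 1 = ((d : ℝ) + 1) ^ 1 := (pow_one _).symm
        _ ≤ _ := pow_le_pow_right₀ h2 (by norm_num)
    rw [hK]; linarith
  have hd0 : (0 : ℝ) ≤ d := by positivity
  obtain ⟨W, hW⟩ : ∃ W : ℤ → Finset (↥(Ix d) → ℤ), W = fun j : ℤ => (Bx ↥(Ix d) H).filter
    (fun c => |(fR c 0).eval ((j : ℝ) / m)| ≤ K ^ 2 ∧ |hc (fR c) 0 1 ((j : ℝ) / m)| ≤ K ^ 2 * z) :=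
    ⟨_, rfl⟩
  have hsub : (Bx ↥(Ix d) H).filter (fun c => ¬ ZT1 (fR c) z) ⊆ (Icc (-(m : ℤ)) m).biUnion W := by
    intro c hcm
    rw [Finset.mem_filter] at hcm
    obtain ⟨hcB, hnT⟩ := hcm
    have hZ := ZH_fR hd hcB hz hH
    rw [← hK] at hZ
    unfold ZT1 at hnT
    push Not at hnT
    obtain ⟨t, ht1, ht2, ht3⟩ := hnT
    obtain ⟨j, hj⟩ : ∃ j : ℤ, j = round (t * m) := ⟨_, rfl⟩
    have hjb : |t * m - j| ≤ 1 / 2 := by rw [hj]; exact abs_sub_round _
    have htj : |(j : ℝ) / m - t| ≤ 1 / z := by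
      have e1 : (j : ℝ) / m - t = -((t * m - j) / m) := by field_simp; ring
      rw [e1, abs_neg, abs_div, abs_of_pos hm0, div_le_div_iff₀ hm0 hz0]
      calc |t * m - j| * z ≤ (1 / 2) * m := mul_le_mul hjb hm1 hz0.le (by norm_num)
        _ ≤ 1 * m := by linarith
    have hjm : |j| ≤ (m : ℤ) := by
      have e1 : |(j : ℝ)| ≤ m + 1 / 2 := by
        have e2 : (j : ℝ) = t * m - (t * m - j) := by ring
        rw [e2]
        refine (abs_sub _ _).trans ?_
        rw [abs_mul, abs_of_pos hm0]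
        have : |t| * m ≤ 1 * m := mul_le_mul_of_nonneg_right ht1 hm0.le
        linarith
      have e3 : ((|j| : ℤ) : ℝ) < (((m : ℤ) + 1 : ℤ) : ℝ) := by
        push_cast
        linarith
      have e4 : |j| < (m : ℤ) + 1 := by exact_mod_cast e3
      omega
    rw [Finset.mem_biUnion]
    refine ⟨j, ?_, ?_⟩
    · rw [Finset.mem_Icc]; exact abs_le.1 hjm
    rw [hW]
    simp only
    rw [Finset.mem_filter]
    have hw1 : |(j : ℝ) / m - t| ≤ 1 := htj.trans (by rw [div_le_one hz0]; exact hz)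
    have ht2' : |t| ≤ 2 := by linarith
    obtain ⟨w, hw⟩ : ∃ w, w = |(j : ℝ) / m - t| := ⟨_, rfl⟩
    have l1 := hZ.lin (k := 0) (by omega) ht2' hw1
    have l2 := hZ.lip (k := 0) (by omega) 1 ht2' hw1
    rw [← hw] at l1 l2 htj hw1
    have hw0 : 0 ≤ w := by rw [hw]; exact abs_nonneg _
    have hwz : w * z ≤ 1 := by
      rw [le_div_iff₀ hz0] at htj; exact htj
    refine ⟨hcB, ?_, ?_⟩
    · have e1 : |(fR c 0).eval ((j : ℝ) / m)| ≤ |(fR c 0).eval ((j : ℝ) / m) - (fR c 0).eval t -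
          hc (fR c) 0 1 t * ((j : ℝ) / m - t)| + (|(fR c 0).eval t| +
          |hc (fR c) 0 1 t * ((j : ℝ) / m - t)|) := by
        have e2 : (fR c 0).eval ((j : ℝ) / m) = ((fR c 0).eval ((j : ℝ) / m) - (fR c 0).eval t -
          hc (fR c) 0 1 t * ((j : ℝ) / m - t)) + ((fR c 0).eval t +
          hc (fR c) 0 1 t * ((j : ℝ) / m - t)) := by ring
        calc |(fR c 0).eval ((j : ℝ) / m)| = |((fR c 0).eval ((j : ℝ) / m) - (fR c 0).eval t -
          hc (fR c) 0 1 t * ((j : ℝ) / m - t)) + ((fR c 0).eval t +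
          hc (fR c) 0 1 t * ((j : ℝ) / m - t))| := by rw [← e2]
          _ ≤ _ := (abs_add_le _ _).trans (add_le_add le_rfl (abs_add_le _ _))
      rw [abs_mul (hc (fR c) 0 1 t), ← hw] at e1
      have e3 : |hc (fR c) 0 1 t| * w ≤ 2 := by
        calc |hc (fR c) 0 1 t| * w ≤ (2 * z) * w := mul_le_mul_of_nonneg_right ht3.le hw0
          _ = 2 * (w * z) := by ring
          _ ≤ 2 := by linarith
      have e4 : d * (K * z ^ 2) * w ^ 2 ≤ d * K := by
        calc d * (K * z ^ 2) * w ^ 2 = d * K * (w * z) ^ 2 := by ring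
          _ ≤ d * K * 1 ^ 2 := by gcongr
          _ = _ := by ring
      calc |(fR c 0).eval ((j : ℝ) / m)| ≤ d * K + (1 + 2) := by linarith
        _ ≤ K ^ 2 := by nlinarith
    · have e1 : |hc (fR c) 0 1 ((j : ℝ) / m)| ≤ |hc (fR c) 0 1 ((j : ℝ) / m) - hc (fR c) 0 1 t|
          + |hc (fR c) 0 1 t| := by
        have e2 : hc (fR c) 0 1 ((j : ℝ) / m) = (hc (fR c) 0 1 ((j : ℝ) / m) - hc (fR c) 0 1 t)
          + hc (fR c) 0 1 t := by ring
        calc |hc (fR c) 0 1 ((j : ℝ) / m)| = |(hc (fR c) 0 1 ((j : ℝ) / m) - hc (fR c) 0 1 t)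
          + hc (fR c) 0 1 t| := by rw [← e2]
          _ ≤ _ := abs_add_le _ _
      have e3 : d * (K * z ^ 2) * w ≤ d * K * z := by
        calc d * (K * z ^ 2) * w = d * K * z * (w * z) := by ring
          _ ≤ d * K * z * 1 := by gcongr
          _ = _ := by ring
      calc |hc (fR c) 0 1 ((j : ℝ) / m)| ≤ d * K * z + 2 * z := by linarith
        _ = (d * K + 2) * z := by ring
        _ ≤ K ^ 2 * z := by
          apply mul_le_mul_of_nonneg_right _ hz0.le
          nlinarith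
  obtain ⟨B, hB⟩ : ∃ B : ℝ, B = (Bx ↥(Ix d) H).card := ⟨_, rfl⟩
  rw [← hB, ← hK]
  have hB0 : 0 ≤ B := by rw [hB]; positivity
  have hHp : (0 : ℝ) < 2 * H + 1 := by positivity
  obtain ⟨M, hM⟩ : ∃ M : ℝ, M = 9 * K ^ 4 * z * B / (2 * H + 1) ^ 2 := ⟨_, rfl⟩
  have hWc : ∀ j ∈ Icc (-(m : ℤ)) m, ((W j).card : ℝ) ≤ M := by
    intro j _
    rw [hM, le_div_iff₀ (by positivity), hW]
    have h1 := card_dbl (d := d) (by omega) H ((j : ℝ) / m) (B1 := K ^ 2) (B2 := K ^ 2 * z)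
      (by positivity) (by positivity)
    rw [← hB] at h1
    refine h1.trans ?_
    apply mul_le_mul_of_nonneg_right _ hB0
    have hK1 : 1 ≤ K ^ 2 := by nlinarith
    have hKz1 : 1 ≤ K ^ 2 * z := by nlinarith
    calc (2 * K ^ 2 + 1) * (2 * (K ^ 2 * z) + 1) ≤ (3 * K ^ 2) * (3 * (K ^ 2 * z)) := by
          apply mul_le_mul _ _ (by positivity) (by positivity) <;> linarith
      _ = _ := by ring
  have h1 := card_biUnion_real (Icc (-(m : ℤ)) m) W M hWc
  have h2 : ((((Bx ↥(Ix d) H).filter (fun c => ¬ ZT1 (fR c) z)).card : ℕ) : ℝ) ≤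
      (((Icc (-(m : ℤ)) m).biUnion W).card : ℕ) := by exact_mod_cast Finset.card_le_card hsub
  have h3 : (((Icc (-(m : ℤ)) m).card : ℕ) : ℝ) ≤ 5 * z := by
    rw [card_Icc_H]; push_cast; linarith
  have hM0 : 0 ≤ M := by rw [hM]; positivity
  calc _ ≤ (5 * z * M) * (2 * H + 1) := by
        apply mul_le_mul_of_nonneg_right _ hHp.le
        exact h2.trans (h1.trans (mul_le_mul_of_nonneg_right h3 hM0))
    _ = 45 * K ^ 4 * z ^ 2 * B / (2 * H + 1) := by rw [hM]; field_simp; ring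
    _ ≤ 45 * K ^ 4 * B := by
      rw [div_le_iff₀ hHp, hH]
      calc 45 * K ^ 4 * (H : ℝ) * B = 45 * K ^ 4 * B * H := by ring
        _ ≤ 45 * K ^ 4 * B * (2 * H + 1) := by
          apply mul_le_mul_of_nonneg_left _ (by positivity)
          have : (0 : ℝ) ≤ H := by positivity
          linarith

end Pool.Agent.H322R2
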